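import Mathlib
import Pool.Agent.Work.MP_7f974f_gt.Top
import Pool.Agent.Work.MP_7f974f_gt.Stmts_C
import Pool.Agent.Work.MP_7f974f_gt.Stmts_H

/-! Bundle of small proof modules (one section per former module). -/

section

/-!
# Differentiation under the integral sign, C^k version
-/

open scoped ContDiff Topology
open MeasureTheory Set

noncomputable section

namespace NRF

section paramint

variable {P : Type*} [MeasurableSpace P] {μ : Measure P}
  {E W : Type*} [NormedAddCommGroup E] [NormedSpace ℝ E] [NormedAddCommGroup W] [NormedSpace ℝ W]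
  [CompleteSpace W]

/-- The Taylor series of a parametric integral. -/
theorem ftaylor_integral {k : ℕ} {f : P → E → W} {B : P → ℝ}
    (hf : ∀ᵐ p ∂μ, ContDiff ℝ k (f p))
    (hm : ∀ j ≤ k, ∀ x, AEStronglyMeasurable (fun p => iteratedFDeriv ℝ j (f p) x) μ)
    (hb : ∀ j ≤ k, ∀ᵐ p ∂μ, ∀ x, ‖iteratedFDeriv ℝ j (f p) x‖ ≤ B p)
    (hB : Integrable B μ) :
    HasFTaylorSeriesUpTo k (fun x => ∫ p, f p x ∂μ)
      (fun x j => ∫ p, iteratedFDeriv ℝ j (f p) x ∂μ) := by
  have hint : ∀ j ≤ k, ∀ x, Integrable (fun p => iteratedFDeriv ℝ j (f p) x) μ := by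
    intro j hj x
    refine Integrable.mono' hB (hm j hj x) ?_
    filter_upwards [hb j hj] with p hp using hp x
  refine ⟨fun x => ?_, fun m hmk x => ?_, fun m hmk => ?_⟩
  · have h1 := (continuousMultilinearCurryFin0 ℝ E W).toContinuousLinearEquiv.toContinuousLinearMap
      |>.integral_comp_comm (hint 0 (Nat.zero_le _) x)
    have h2 : ∀ p, (continuousMultilinearCurryFin0 ℝ E W).toContinuousLinearEquiv.toContinuousLinearMap
        (iteratedFDeriv ℝ 0 (f p) x) = f p x := by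
      intro p
      simp
    simp only [h2] at h1
    rw [h1]
    rfl
  · have hmk' : m < k := by exact_mod_cast hmk
    let L : (E [×(m + 1)]→L[ℝ] W) →L[ℝ] (E →L[ℝ] (E [×m]→L[ℝ] W)) :=
      (continuousMultilinearCurryLeftEquiv ℝ (fun _ : Fin (m + 1) => E) W).toContinuousLinearEquiv.toContinuousLinearMap
    have h1 := ContinuousLinearMap.integral_comp_comm (𝕜 := ℝ) (Fₗ := E →L[ℝ] (E [×m]→L[ℝ] W)) L
      (hint (m + 1) (by omega) x)
    have h2 : (∫ p, iteratedFDeriv ℝ (m + 1) (f p) x ∂μ).curryLeft =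
        ∫ p, (iteratedFDeriv ℝ (m + 1) (f p) x).curryLeft ∂μ := h1.symm
    show HasFDerivAt (fun y => ∫ p, iteratedFDeriv ℝ m (f p) y ∂μ)
      ((∫ p, iteratedFDeriv ℝ (m + 1) (f p) x ∂μ).curryLeft) x
    rw [h2]
    refine hasFDerivAt_integral_of_dominated_of_fderiv_le
      (F' := fun y p => (iteratedFDeriv ℝ (m + 1) (f p) y).curryLeft) (bound := B)
      (s := univ) Filter.univ_mem (Filter.Eventually.of_forall fun y => hm m (by omega) y)
      (hint m (by omega) x) ?_ ?_ hB ?_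
    · exact L.continuous.comp_aestronglyMeasurable (hm (m + 1) (by omega) x)
    · filter_upwards [hb (m + 1) (by omega)] with p hp y _
      rw [ContinuousMultilinearMap.curryLeft_norm]
      exact hp y
    · filter_upwards [hf] with p hp y _
      exact hp.ftaylorSeries.fderiv m hmk y
  · have hmk' : m ≤ k := by exact_mod_cast hmk
    refine continuous_of_dominated (fun x => hm m hmk' x) (bound := B) (fun x => ?_) hB ?_
    · filter_upwards [hb m hmk'] with p hp using hp x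
    · filter_upwards [hf] with p hp
      exact hp.continuous_iteratedFDeriv hmk

/-- A parametric integral is `C^k`. -/
theorem contDiff_integral {k : ℕ} {f : P → E → W} {B : P → ℝ}
    (hf : ∀ᵐ p ∂μ, ContDiff ℝ k (f p))
    (hm : ∀ j ≤ k, ∀ x, AEStronglyMeasurable (fun p => iteratedFDeriv ℝ j (f p) x) μ)
    (hb : ∀ j ≤ k, ∀ᵐ p ∂μ, ∀ x, ‖iteratedFDeriv ℝ j (f p) x‖ ≤ B p)
    (hB : Integrable B μ) : ContDiff ℝ k (fun x => ∫ p, f p x ∂μ) :=
  HasFTaylorSeriesUpTo.contDiff (n := (k : ℕ∞)) (ftaylor_integral hf hm hb hB)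

/-- Derivatives of a parametric integral. -/
theorem iteratedFDeriv_integral {k : ℕ} {f : P → E → W} {B : P → ℝ}
    (hf : ∀ᵐ p ∂μ, ContDiff ℝ k (f p))
    (hm : ∀ j ≤ k, ∀ x, AEStronglyMeasurable (fun p => iteratedFDeriv ℝ j (f p) x) μ)
    (hb : ∀ j ≤ k, ∀ᵐ p ∂μ, ∀ x, ‖iteratedFDeriv ℝ j (f p) x‖ ≤ B p)
    (hB : Integrable B μ) {j : ℕ} (hj : j ≤ k) (x : E) :
    iteratedFDeriv ℝ j (fun x => ∫ p, f p x ∂μ) x = ∫ p, iteratedFDeriv ℝ j (f p) x ∂μ :=
  ((ftaylor_integral hf hm hb hB).eq_iteratedFDeriv (m := j) (by exact_mod_cast hj) x).symm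

end paramint

end NRF

end
end

section

/-!
# Module D, part 3: Hodge theory, linear algebra part (abstract statements)
-/

noncomputable section

namespace NRF

/-- The linear algebra of Hodge theory on a closed oriented 4-manifold: `E` is the space of smooth
(mixed) forms, `B` the `L²` inner product, `N k` the projection to the forms of degree `k`, `star` a
symmetric involution which exchanges the degrees `k` and `4 - k` and which intertwines `d` and
`-δ`. -/
structure AHodge (E : Type) [AddCommGroup E] [Module ℝ E] where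
  B : E →ₗ[ℝ] E →ₗ[ℝ] ℝ
  d : E →ₗ[ℝ] E
  del : E →ₗ[ℝ] E
  N : ℕ → E →ₗ[ℝ] E
  star : E →ₗ[ℝ] E
  symm : ∀ u v, B u v = B v u
  pos : ∀ u, u ≠ 0 → 0 < B u u
  adj : ∀ u v, B (d u) v = B u (del v)
  dd : ∀ u, d (d u) = 0
  N_proj : ∀ j k u, N j (N k u) = if j = k then N k u else 0
  N_big : ∀ k, 4 < k → N k = 0
  N_sum : ∀ u, ∑ k ∈ Finset.range 5, N k u = u
  N_symm : ∀ k u v, B (N k u) v = B u (N k v)
  d_N : ∀ k u, d (N k u) = N (k + 1) (d u)
  star_symm : ∀ u v, B (star u) v = B u (star v)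
  star_sq : ∀ u, star (star u) = u
  star_N : ∀ k ≤ 4, ∀ u, star (N k u) = N (4 - k) (star u)
  star_d : ∀ u, star (d u) = -del (star u)
  fin : FiniteDimensional ℝ ↥(LinearMap.ker d ⊓ LinearMap.ker del)
  hodge : ∀ f, (∀ h ∈ LinearMap.ker d ⊓ LinearMap.ker del, B f h = 0) →
    ∃ u, d (del u) + del (d u) = f

namespace AHodge

variable {E : Type} [AddCommGroup E] [Module ℝ E] (H : AHodge E)

/-- Harmonic forms. -/
def harm : Submodule ℝ E := LinearMap.ker H.d ⊓ LinearMap.ker H.del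

/-- Harmonic forms of degree `k`. -/
def harmK (k : ℕ) : Submodule ℝ E := H.harm ⊓ LinearMap.range (H.N k)

/-- Selfdual (`σ = 1`) and antiselfdual (`σ = -1`) harmonic 2-forms. -/
def harmPM (σ : ℝ) : Submodule ℝ E :=
  H.harmK 2 ⊓ LinearMap.ker (H.star - σ • LinearMap.id)

/-- Closed forms of degree `k`. -/
def clo (k : ℕ) : Submodule ℝ E := LinearMap.ker H.d ⊓ LinearMap.range (H.N k)

/-- Exact forms of degree `k`. -/
def exa (k : ℕ) : Submodule ℝ E := (LinearMap.range H.d) ⊓ LinearMap.range (H.N k)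

/-- `(-1)^deg`. -/
def parity : E →ₗ[ℝ] E := ∑ k ∈ Finset.range 5, ((-1 : ℝ) ^ k) • H.N k

end AHodge

/-- AH1: Hodge decomposition and de Rham cohomology. -/
def claimAH1 : Prop :=
  ∀ (E : Type) [AddCommGroup E] [Module ℝ E] (H : AHodge E),
    (∀ u, H.del (H.del u) = 0) ∧ (∀ u, H.star (H.del u) = -H.d (H.star u)) ∧
    (∀ k u, H.del (H.N (k + 1) u) = H.N k (H.del u)) ∧
    (∀ u ∈ H.harm, H.star u ∈ H.harm) ∧ (∀ k, ∀ u ∈ H.harm, H.N k u ∈ H.harm) ∧
    (∀ k, H.clo k = H.harmK k ⊔ H.exa k) ∧ (∀ k, H.harmK k ⊓ H.exa k = ⊥) ∧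
    (∀ k, ∀ w ∈ H.exa (k + 1), ∃ v, H.N k v = v ∧ H.d v = w) ∧ H.exa 0 = ⊥ ∧
    ∀ k, Module.finrank ℝ ((H.clo k).map (H.exa k).mkQ) = Module.finrank ℝ (H.harmK k)

/-- AH2: the intersection form. -/
def claimAH2 : Prop :=
  ∀ (E : Type) [AddCommGroup E] [Module ℝ E] (H : AHodge E),
    sSup {n : ℕ | ∃ W : Submodule ℝ E, W ≤ H.clo 2 ∧ FiniteDimensional ℝ W ∧
      Module.finrank ℝ W = n ∧ ∀ w ∈ W, w ≠ 0 → 0 < H.B w (H.star w)} =
        Module.finrank ℝ (H.harmPM 1) ∧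
    sSup {n : ℕ | ∃ W : Submodule ℝ E, W ≤ H.clo 2 ∧ FiniteDimensional ℝ W ∧
      Module.finrank ℝ W = n ∧ ∀ w ∈ W, w ≠ 0 → H.B w (H.star w) < 0} =
        Module.finrank ℝ (H.harmPM (-1))

/-- AH3: traces of `(-1)^deg` and of `star` on the harmonic forms. -/
def claimAH3 : Prop :=
  ∀ (E : Type) [AddCommGroup E] [Module ℝ E] (H : AHodge E) (m : ℕ) (h : Fin m → E),
    (∀ j, h j ∈ H.harm) → (∀ i j, H.B (h i) (h j) = if i = j then 1 else 0) →
    (∀ u ∈ H.harm, u = ∑ j, H.B u (h j) • h j) →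
    ∑ j, H.B (H.parity (h j)) (h j) =
      ∑ k ∈ Finset.range 5, (-1 : ℝ) ^ k * (Module.finrank ℝ (H.harmK k) : ℝ) ∧
    ∑ j, H.B (H.star (h j)) (h j) =
      (Module.finrank ℝ (H.harmPM 1) : ℝ) - (Module.finrank ℝ (H.harmPM (-1)) : ℝ)

end NRF

end
end

section

/-!
# AH1: Hodge decomposition, linear algebra
-/

noncomputable section

namespace NRF

section

variable {E : Type} [AddCommGroup E] [Module ℝ E] (H : AHodge E)

theorem AH1_eq_zero {x : E} (h : H.B x x = 0) : x = 0 := by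
  by_contra hx
  exact absurd h (H.pos x hx).ne'

theorem AH1_nondeg {x : E} (h : ∀ v, H.B v x = 0) : x = 0 := AH1_eq_zero H (h x)

theorem AH1_ext {x y : E} (h : ∀ v, H.B v x = H.B v y) : x = y := by
  rw [← sub_eq_zero]
  refine AH1_nondeg H (fun v => ?_)
  rw [map_sub, h v, sub_self]

theorem AH1_N_idem {k : ℕ} {u : E} (h : u ∈ LinearMap.range (H.N k)) : H.N k u = u := by
  obtain ⟨v, rfl⟩ := h
  rw [H.N_proj, if_pos rfl]

theorem AH1_mem_range {k : ℕ} {u : E} (h : H.N k u = u) : u ∈ LinearMap.range (H.N k) := ⟨u, h⟩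

theorem AH1_deldel (u : E) : H.del (H.del u) = 0 := by
  refine AH1_nondeg H (fun v => ?_)
  rw [← H.adj, ← H.adj, H.dd, map_zero, LinearMap.zero_apply]

theorem AH1_star_del (u : E) : H.star (H.del u) = -H.d (H.star u) := by
  have h := H.star_d (H.star u)
  rw [H.star_sq] at h
  have h2 := congrArg H.star h
  rw [H.star_sq, map_neg] at h2
  rw [h2, neg_neg]

theorem AH1_del_N (k : ℕ) (u : E) : H.del (H.N (k + 1) u) = H.N k (H.del u) := by
  refine AH1_ext H (fun v => ?_)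
  rw [← H.adj, ← H.N_symm, ← H.d_N, H.adj, H.N_symm]

theorem AH1_N0_d (v : E) : H.N 0 (H.d v) = 0 := by
  have h := H.N_sum v
  rw [← h, map_sum, map_sum]
  refine Finset.sum_eq_zero (fun k _ => ?_)
  rw [H.d_N, H.N_proj, if_neg (by omega)]

theorem AH1_del_N0 (u : E) : H.del (H.N 0 u) = 0 := by
  refine AH1_nondeg H (fun v => ?_)
  rw [← H.adj, ← H.N_symm, AH1_N0_d, map_zero, LinearMap.zero_apply]

theorem AH1_mem_harm {u : E} : u ∈ H.harm ↔ H.d u = 0 ∧ H.del u = 0 := by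
  unfold AHodge.harm
  rw [Submodule.mem_inf, LinearMap.mem_ker, LinearMap.mem_ker]

theorem AH1_star_harm {u : E} (h : u ∈ H.harm) : H.star u ∈ H.harm := by
  rw [AH1_mem_harm] at h ⊢
  refine ⟨?_, ?_⟩
  · have h1 := AH1_star_del H u
    rw [h.2, map_zero] at h1
    exact neg_eq_zero.mp h1.symm
  · have h1 := H.star_d u
    rw [h.1, map_zero] at h1
    exact neg_eq_zero.mp h1.symm

theorem AH1_N_harm (k : ℕ) {u : E} (h : u ∈ H.harm) : H.N k u ∈ H.harm := by
  rw [AH1_mem_harm] at h ⊢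
  refine ⟨?_, ?_⟩
  · rw [H.d_N, h.1, map_zero]
  · cases k with
    | zero => exact AH1_del_N0 H u
    | succ k => rw [AH1_del_N, h.2, map_zero]

/-- The orthogonal projection on the harmonic forms. -/
theorem AH1_proj (α : E) : ∃ h ∈ H.harm, ∀ h' ∈ H.harm, H.B (α - h) h' = 0 := by
  have hfin : FiniteDimensional ℝ H.harm := H.fin
  let T : H.harm →ₗ[ℝ] Module.Dual ℝ H.harm :=
    (LinearMap.lcomp ℝ ℝ H.harm.subtype) ∘ₗ H.B ∘ₗ H.harm.subtype
  have hT : ∀ x y : H.harm, T x y = H.B (x : E) (y : E) := fun x y => rfl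
  have hinj : Function.Injective T := by
    rw [injective_iff_map_eq_zero]
    intro x hx
    have h1 : H.B (x : E) (x : E) = 0 := by rw [← hT, hx]; rfl
    exact Subtype.ext (AH1_eq_zero H h1)
  have hsurj : Function.Surjective T :=
    (LinearMap.injective_iff_surjective_of_finrank_eq_finrank
      (Subspace.dual_finrank_eq (K := ℝ) (V := H.harm)).symm).mp hinj
  obtain ⟨h, hh⟩ := hsurj ((H.B α) ∘ₗ H.harm.subtype)
  refine ⟨h, h.2, fun h' hh' => ?_⟩
  have h2 := LinearMap.congr_fun hh ⟨h', hh'⟩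
  rw [hT] at h2
  rw [map_sub, LinearMap.sub_apply, h2]
  exact sub_self _

/-- A closed form is the sum of a harmonic and an exact form. -/
theorem AH1_closed {α : E} (hα : H.d α = 0) : ∃ h ∈ H.harm, ∃ v, α = h + H.d v := by
  obtain ⟨h, hh, horth⟩ := AH1_proj H α
  obtain ⟨u, hu⟩ := H.hodge (α - h) horth
  have hd : H.d (α - h) = 0 := by rw [map_sub, hα, ((AH1_mem_harm H).mp hh).1, sub_zero]
  rw [← hu, map_add, H.dd, zero_add] at hd
  have h0 : H.del (H.d u) = 0 := by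
    refine AH1_eq_zero H ?_
    rw [← H.adj, hd, map_zero, LinearMap.zero_apply]
  rw [h0, add_zero] at hu
  exact ⟨h, hh, H.del u, by rw [hu]; abel⟩

theorem AH1_N_d_mem (k : ℕ) (v : E) : H.N k (H.d v) ∈ LinearMap.range H.d := by
  cases k with
  | zero => rw [AH1_N0_d]; exact Submodule.zero_mem _
  | succ k => exact ⟨H.N k v, H.d_N k v⟩

theorem AH1_exa_le (k : ℕ) : H.exa k ≤ H.clo k := by
  rintro w ⟨⟨v, rfl⟩, hw⟩
  exact ⟨H.dd v, hw⟩

theorem AH1_harmK_le (k : ℕ) : H.harmK k ≤ H.clo k := by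
  rintro w ⟨hw, hw'⟩
  exact ⟨hw.1, hw'⟩

theorem AH1_decomp (k : ℕ) : H.clo k = H.harmK k ⊔ H.exa k := by
  apply le_antisymm
  · rintro α ⟨hα, hN⟩
    obtain ⟨h, hh, v, hv⟩ := AH1_closed H hα
    have h1 := AH1_N_idem H hN
    rw [hv, map_add] at h1
    rw [hv, ← h1]
    refine Submodule.add_mem_sup ?_ ?_
    · exact ⟨AH1_N_harm H k hh, ⟨h, rfl⟩⟩
    · exact ⟨AH1_N_d_mem H k v, ⟨H.d v, rfl⟩⟩
  · exact sup_le (AH1_harmK_le H k) (AH1_exa_le H k)

theorem AH1_disj (k : ℕ) : H.harmK k ⊓ H.exa k = ⊥ := by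
  rw [eq_bot_iff]
  rintro h ⟨⟨hh, _⟩, ⟨v, hv⟩, _⟩
  rw [Submodule.mem_bot]
  refine AH1_eq_zero H ?_
  have h1 := ((AH1_mem_harm H).mp hh).2
  nth_rewrite 1 [← hv]
  rw [H.adj, h1, map_zero]

theorem AH1_exa_succ (k : ℕ) {w : E} (hw : w ∈ H.exa (k + 1)) :
    ∃ v, H.N k v = v ∧ H.d v = w := by
  obtain ⟨⟨v, hv⟩, hN⟩ := hw
  refine ⟨H.N k v, ?_, ?_⟩
  · rw [H.N_proj, if_pos rfl]
  · rw [H.d_N, hv]
    exact AH1_N_idem H hN

theorem AH1_exa_zero : H.exa 0 = ⊥ := by
  rw [eq_bot_iff]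
  rintro w ⟨⟨v, hv⟩, hN⟩
  rw [Submodule.mem_bot, ← AH1_N_idem H hN, ← hv]
  exact AH1_N0_d H v

theorem AH1_finrank (k : ℕ) :
    Module.finrank ℝ ((H.clo k).map (H.exa k).mkQ) = Module.finrank ℝ (H.harmK k) := by
  have h1 : (H.clo k).map (H.exa k).mkQ = (H.harmK k).map (H.exa k).mkQ := by
    rw [AH1_decomp, Submodule.map_sup]
    have h2 : (H.exa k).map (H.exa k).mkQ = ⊥ := Submodule.mkQ_map_self _
    rw [h2, sup_bot_eq]
  rw [h1]
  have h3 : Function.Injective ((H.exa k).mkQ.domRestrict (H.harmK k)) := by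
    rw [injective_iff_map_eq_zero]
    intro x hx
    have h4 : (x : E) ∈ H.exa k := by
      rw [← Submodule.Quotient.mk_eq_zero]
      exact hx
    have h5 : (x : E) ∈ H.harmK k ⊓ H.exa k := ⟨x.2, h4⟩
    rw [AH1_disj, Submodule.mem_bot] at h5
    exact Subtype.ext h5
  have h6 := LinearMap.finrank_range_of_inj h3
  rw [LinearMap.range_domRestrict] at h6
  exact h6

end

/-- AH1: Hodge decomposition and de Rham cohomology. -/
theorem thm_AH1 : claimAH1 := by
  intro E _ _ H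
  exact ⟨AH1_deldel H, AH1_star_del H, AH1_del_N H, fun u hu => AH1_star_harm H hu,
    fun k u hu => AH1_N_harm H k hu, AH1_decomp H, AH1_disj H,
    fun k w hw => AH1_exa_succ H k hw, AH1_exa_zero H, AH1_finrank H⟩

end NRF

end
end

section

/-!
Item AH2: the intersection form, linear algebra.
-/

noncomputable section

namespace NRF

section AH2

variable {E : Type} [AddCommGroup E] [Module ℝ E] (H : AHodge E)

lemma AH2_nonneg (u : E) : 0 ≤ H.B u u := by
  by_cases h : u = 0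
  · simp [h]
  · exact (H.pos u h).le

lemma AH2_range_iff {k : ℕ} {u : E} : u ∈ LinearMap.range (H.N k) ↔ H.N k u = u := by
  constructor
  · rintro ⟨v, rfl⟩
    simpa using H.N_proj k k v
  · intro h
    exact ⟨u, h⟩

lemma AH2_mem_harmPM {σ : ℝ} {u : E} : u ∈ H.harmPM σ ↔ u ∈ H.harmK 2 ∧ H.star u = σ • u := by
  unfold AHodge.harmPM
  rw [Submodule.mem_inf, LinearMap.mem_ker, LinearMap.sub_apply, LinearMap.smul_apply,
    LinearMap.id_apply, sub_eq_zero]

lemma AH2_star_mem (h : claimAH1) {u : E} (hu : u ∈ H.harmK 2) : H.star u ∈ H.harmK 2 := by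
  obtain ⟨-, -, -, h4, -⟩ := h E H
  refine Submodule.mem_inf.2 ⟨h4 u hu.1, (AH2_range_iff H).2 ?_⟩
  have h1 : H.N 2 u = u := (AH2_range_iff H).1 hu.2
  have h2 := H.star_N 2 (by norm_num) u
  rw [h1] at h2
  exact h2.symm

lemma AH2_q (h : claimAH1) {u e : E} (hu : u ∈ H.harmK 2) (he : e ∈ H.exa 2) :
    H.B (u + e) (H.star (u + e)) = H.B u (H.star u) := by
  obtain ⟨h1, h2, -, h4, -⟩ := h E H
  obtain ⟨⟨v, rfl⟩, -⟩ := he
  have hs : H.del (H.star u) = 0 := (h4 u hu.1).2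
  have e1 : H.B u (H.star (H.d v)) = 0 := by
    rw [← H.star_symm, H.symm, H.adj, hs, map_zero]
  have e2 : H.B (H.d v) (H.star u) = 0 := by rw [H.adj, hs, map_zero]
  have e3 : H.B (H.d v) (H.star (H.d v)) = 0 := by
    rw [H.star_d, map_neg, H.adj, h1, map_zero, neg_zero]
  simp only [map_add, LinearMap.add_apply, e1, e2, e3]
  ring

lemma AH2_split (h : claimAH1) {σ : ℝ} (hσ : σ * σ = 1) :
    H.harmK 2 ≤ H.harmPM σ ⊔ H.harmPM (-σ) := by
  intro u hu
  have hs := AH2_star_mem H h hu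
  refine Submodule.mem_sup.2 ⟨(1 / 2 : ℝ) • (u + σ • H.star u), ?_,
    (1 / 2 : ℝ) • (u - σ • H.star u), ?_, ?_⟩
  · refine (AH2_mem_harmPM H).2 ⟨Submodule.smul_mem _ _
      (Submodule.add_mem _ hu (Submodule.smul_mem _ _ hs)), ?_⟩
    rw [map_smul, map_add, map_smul, H.star_sq]
    have e : H.star u = (σ * σ) • H.star u := by rw [hσ, one_smul]
    conv_lhs => rw [e]
    module
  · refine (AH2_mem_harmPM H).2 ⟨Submodule.smul_mem _ _
      (Submodule.sub_mem _ hu (Submodule.smul_mem _ _ hs)), ?_⟩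
    rw [map_smul, map_sub, map_smul, H.star_sq]
    have e : H.star u = (σ * σ) • H.star u := by rw [hσ, one_smul]
    conv_lhs => rw [e]
    module
  · rw [← smul_add]
    have : u + σ • H.star u + (u - σ • H.star u) = (2 : ℝ) • u := by
      rw [two_smul]
      abel
    rw [this, smul_smul]
    norm_num

lemma AH2_fin (σ : ℝ) : FiniteDimensional ℝ (H.harmPM σ) := by
  have := H.fin
  have : H.harmPM σ ≤ LinearMap.ker H.d ⊓ LinearMap.ker H.del :=
    inf_le_left.trans inf_le_left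
  exact Submodule.finiteDimensional_of_le this

lemma AH2_main (h : claimAH1) {σ : ℝ} (hσ : σ * σ = 1) :
    sSup {n : ℕ | ∃ W : Submodule ℝ E, W ≤ H.clo 2 ∧ FiniteDimensional ℝ W ∧
      Module.finrank ℝ W = n ∧ ∀ w ∈ W, w ≠ 0 → 0 < σ * H.B w (H.star w)} =
        Module.finrank ℝ (H.harmPM σ) := by
  have := AH2_fin H σ
  have hclo : H.clo 2 = H.harmK 2 ⊔ H.exa 2 := (h E H).2.2.2.2.2.1 2
  have hmem : Module.finrank ℝ (H.harmPM σ) ∈ {n : ℕ | ∃ W : Submodule ℝ E, W ≤ H.clo 2 ∧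
      FiniteDimensional ℝ W ∧ Module.finrank ℝ W = n ∧
      ∀ w ∈ W, w ≠ 0 → 0 < σ * H.B w (H.star w)} := by
    refine ⟨H.harmPM σ, ?_, AH2_fin H σ, rfl, ?_⟩
    · rw [hclo]
      exact inf_le_left.trans le_sup_left
    · intro w hw hw0
      obtain ⟨-, h2⟩ := (AH2_mem_harmPM H).1 hw
      rw [h2, map_smul, smul_eq_mul, ← mul_assoc, hσ, one_mul]
      exact H.pos w hw0
  have hbd : ∀ n ∈ {n : ℕ | ∃ W : Submodule ℝ E, W ≤ H.clo 2 ∧ FiniteDimensional ℝ W ∧
      Module.finrank ℝ W = n ∧ ∀ w ∈ W, w ≠ 0 → 0 < σ * H.B w (H.star w)},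
      n ≤ Module.finrank ℝ (H.harmPM σ) := by
    rintro n ⟨W, hW, hfin, rfl, hpos⟩
    set Z : Submodule ℝ E := H.harmPM (-σ) ⊔ H.exa 2 with hZ
    have hneg : ∀ z ∈ Z, σ * H.B z (H.star z) ≤ 0 := by
      intro z hz
      obtain ⟨u, hu, e, he, rfl⟩ := Submodule.mem_sup.1 hz
      obtain ⟨h1, h2⟩ := (AH2_mem_harmPM H).1 hu
      rw [AH2_q H h h1 he, h2, map_smul, smul_eq_mul]
      have h3 : σ * (-σ * H.B u u) = -((σ * σ) * H.B u u) := by ring
      rw [h3, hσ, one_mul]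
      linarith [AH2_nonneg H u]
    have hdisj : W ⊓ Z = ⊥ := by
      rw [Submodule.eq_bot_iff]
      intro w hw
      by_contra h0
      have h1 := hpos w hw.1 h0
      have h2 := hneg w hw.2
      linarith
    have hWle : W ≤ H.harmPM σ ⊔ Z := by
      refine hW.trans ?_
      rw [hclo, hZ, ← sup_assoc]
      exact sup_le_sup_right (AH2_split H h hσ) _
    have e1 : Module.finrank ℝ (W.map Z.mkQ) = Module.finrank ℝ W := by
      have hinj : Function.Injective (Z.mkQ.domRestrict W) := by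
        rw [← LinearMap.ker_eq_bot, Submodule.eq_bot_iff]
        intro x hx
        rw [LinearMap.mem_ker, LinearMap.domRestrict_apply, Submodule.mkQ_apply,
          Submodule.Quotient.mk_eq_zero] at hx
        have : (x : E) ∈ W ⊓ Z := ⟨x.2, hx⟩
        rw [hdisj, Submodule.mem_bot] at this
        exact Subtype.ext this
      have h2 := LinearMap.finrank_range_of_inj hinj
      rw [LinearMap.range_domRestrict] at h2
      exact h2
    have e2 : W.map Z.mkQ ≤ (H.harmPM σ).map Z.mkQ := by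
      refine (Submodule.map_mono hWle).trans ?_
      rw [Submodule.map_sup]
      refine sup_le le_rfl ?_
      have : Z.map Z.mkQ = ⊥ := by
        rw [Submodule.eq_bot_iff]
        rintro _ ⟨z, hz, rfl⟩
        rw [Submodule.mkQ_apply]
        exact (Submodule.Quotient.mk_eq_zero Z).2 hz
      rw [this]
      exact bot_le
    rw [← e1]
    exact (Submodule.finrank_mono e2).trans (Submodule.finrank_map_le _ _)
  exact le_antisymm (csSup_le ⟨_, hmem⟩ hbd) (le_csSup ⟨_, hbd⟩ hmem)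

end AH2

/-- Item AH2. -/
theorem thm_AH2 (h : claimAH1) : claimAH2 := by
  intro E _ _ H
  constructor
  · have h1 := AH2_main H h (σ := 1) (by norm_num)
    simpa only [one_mul] using h1
  · have h1 := AH2_main H h (σ := -1) (by norm_num)
    have h2 : ∀ w, (0 < -1 * H.B w (H.star w)) ↔ H.B w (H.star w) < 0 := by
      intro w
      constructor <;> intro h <;> linarith
    simpa only [h2] using h1

end NRF

end
end

section

/-!
Item AH3: traces on harmonic forms, linear algebra.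
-/

noncomputable section

namespace NRF

section AH3

variable {E : Type} [AddCommGroup E] [Module ℝ E] (H : AHodge E)

lemma AH3_range_iff {k : ℕ} {u : E} : u ∈ LinearMap.range (H.N k) ↔ H.N k u = u := by
  constructor
  · rintro ⟨v, rfl⟩
    simpa using H.N_proj k k v
  · intro h
    exact ⟨u, h⟩

lemma AH3_mem_harmPM {σ : ℝ} {u : E} : u ∈ H.harmPM σ ↔ u ∈ H.harmK 2 ∧ H.star u = σ • u := by
  unfold AHodge.harmPM
  rw [Submodule.mem_inf, LinearMap.mem_ker, LinearMap.sub_apply, LinearMap.smul_apply,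
    LinearMap.id_apply, sub_eq_zero]

/-- The basis of the harmonic forms. -/
def AH3_basis {m : ℕ} (h : Fin m → E) (hh : ∀ j, h j ∈ H.harm)
    (ho : ∀ i j, H.B (h i) (h j) = if i = j then 1 else 0)
    (hs : ∀ u ∈ H.harm, u = ∑ j, H.B u (h j) • h j) : Module.Basis (Fin m) ℝ H.harm :=
  Module.Basis.ofEquivFun
    { toFun := fun u j => H.B u (h j)
      map_add' := fun u v => by funext j; simp
      map_smul' := fun c u => by funext j; simp
      invFun := fun c => ⟨∑ j, c j • h j, Submodule.sum_mem _ fun j _ =>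
        Submodule.smul_mem _ _ (hh j)⟩
      left_inv := fun u => Subtype.ext (hs u u.2).symm
      right_inv := fun c => by
        funext j
        simp only [map_sum, map_smul, LinearMap.sum_apply, LinearMap.smul_apply, smul_eq_mul, ho]
        simp }

lemma AH3_basis_apply {m : ℕ} (h : Fin m → E) (hh : ∀ j, h j ∈ H.harm)
    (ho : ∀ i j, H.B (h i) (h j) = if i = j then 1 else 0)
    (hs : ∀ u ∈ H.harm, u = ∑ j, H.B u (h j) • h j) (i : Fin m) :
    AH3_basis H h hh ho hs i = ⟨h i, hh i⟩ := by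
  apply Subtype.ext
  unfold AH3_basis
  rw [Module.Basis.coe_ofEquivFun]
  simp [Pi.single_apply]

lemma AH3_trace {m : ℕ} (h : Fin m → E) (hh : ∀ j, h j ∈ H.harm)
    (ho : ∀ i j, H.B (h i) (h j) = if i = j then 1 else 0)
    (hs : ∀ u ∈ H.harm, u = ∑ j, H.B u (h j) • h j) (M : H.harm →ₗ[ℝ] H.harm) :
    LinearMap.trace ℝ H.harm M = ∑ j, H.B (M ⟨h j, hh j⟩ : E) (h j) := by
  classical
  rw [LinearMap.trace_eq_matrix_trace ℝ (AH3_basis H h hh ho hs), Matrix.trace]
  refine Finset.sum_congr rfl fun j _ => ?_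
  rw [Matrix.diag_apply, LinearMap.toMatrix_apply, AH3_basis_apply]
  rfl

lemma AH3_proj {m : ℕ} (h : Fin m → E) (hh : ∀ j, h j ∈ H.harm)
    (ho : ∀ i j, H.B (h i) (h j) = if i = j then 1 else 0)
    (hs : ∀ u ∈ H.harm, u = ∑ j, H.B u (h j) • h j) (P : E →ₗ[ℝ] E) (F : Submodule ℝ E)
    (hF : F ≤ H.harm) (h1 : ∀ u ∈ H.harm, P u ∈ F) (h2 : ∀ u ∈ F, P u = u) :
    ∑ j, H.B (P (h j)) (h j) = (Module.finrank ℝ F : ℝ) := by
  have hfin : FiniteDimensional ℝ H.harm := H.fin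
  have e1 := AH3_trace H h hh ho hs (P.restrict fun u hu => hF (h1 u hu))
  have hP : LinearMap.IsProj (F.comap H.harm.subtype)
      (P.restrict fun u hu => hF (h1 u hu) : H.harm →ₗ[ℝ] H.harm) :=
    ⟨fun x => h1 x x.2, fun x hx => Subtype.ext (h2 x hx)⟩
  have e2 := hP.trace
  rw [e1] at e2
  have e3 : Module.finrank ℝ (F.comap H.harm.subtype) = Module.finrank ℝ F :=
    (Submodule.comapSubtypeEquivOfLe hF).finrank_eq
  rw [e3] at e2
  exact e2

lemma AH3_zero {m : ℕ} (h : Fin m → E) (hh : ∀ j, h j ∈ H.harm)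
    (ho : ∀ i j, H.B (h i) (h j) = if i = j then 1 else 0)
    (hs : ∀ u ∈ H.harm, u = ∑ j, H.B u (h j) • h j) (hst : ∀ u ∈ H.harm, H.star u ∈ H.harm)
    (hN : ∀ k, ∀ u ∈ H.harm, H.N k u ∈ H.harm) {k : ℕ} (hk : k ≤ 4) (hk2 : k ≠ 2) :
    ∑ j, H.B (H.star (H.N k (h j))) (h j) = 0 := by
  set S : H.harm →ₗ[ℝ] H.harm := H.star.restrict hst with hS
  set N : H.harm →ₗ[ℝ] H.harm := (H.N k).restrict (hN k) with hNdef
  have e1 := AH3_trace H h hh ho hs (S * N)
  have e2 : N * N = N := by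
    apply LinearMap.ext
    intro x
    apply Subtype.ext
    have := H.N_proj k k x
    simpa [hNdef, LinearMap.restrict_apply] using this
  have e3 : N * (S * N) = 0 := by
    apply LinearMap.ext
    intro x
    apply Subtype.ext
    have h1 := H.star_N (4 - k) (by omega) (H.N k x)
    have h2 : 4 - (4 - k) = k := by omega
    rw [h2, H.N_proj, if_neg (by omega), map_zero] at h1
    simpa [hNdef, hS, LinearMap.restrict_apply] using h1.symm
  have e4 : LinearMap.trace ℝ H.harm (S * N) = 0 := by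
    rw [← e2, ← mul_assoc, LinearMap.trace_mul_comm, e3, map_zero]
  rw [e4] at e1
  exact e1.symm

end AH3

/-- Item AH3. -/
theorem thm_AH3 (h0 : claimAH1) : claimAH3 := by
  intro E _ _ H m h hh ho hs
  obtain ⟨-, -, -, h4, h5, -⟩ := h0 E H
  constructor
  · have e : ∀ j, H.B (H.parity (h j)) (h j) =
        ∑ k ∈ Finset.range 5, (-1 : ℝ) ^ k * H.B (H.N k (h j)) (h j) := by
      intro j
      unfold AHodge.parity
      simp only [LinearMap.sum_apply, LinearMap.smul_apply, map_sum, map_smul, smul_eq_mul]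
    simp_rw [e]
    rw [Finset.sum_comm]
    refine Finset.sum_congr rfl fun k _ => ?_
    rw [← Finset.mul_sum]
    congr 1
    refine AH3_proj H h hh ho hs (H.N k) (H.harmK k) inf_le_left (fun u hu => ?_) fun u hu => ?_
    · exact Submodule.mem_inf.2 ⟨h5 k u hu, ⟨u, rfl⟩⟩
    · exact (AH3_range_iff H).1 hu.2
  · have e : ∀ j, H.B (H.star (h j)) (h j) =
        ∑ k ∈ Finset.range 5, H.B (H.star (H.N k (h j))) (h j) := by
      intro j
      have e := congrArg (fun x => H.B (H.star x) (h j)) (H.N_sum (h j))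
      simp only [map_sum, LinearMap.sum_apply] at e
      exact e.symm
    simp_rw [e]
    rw [Finset.sum_comm]
    have e0 : ∀ k ∈ Finset.range 5, k ≠ 2 → ∑ j, H.B (H.star (H.N k (h j))) (h j) = 0 := by
      intro k hk hk2
      rw [Finset.mem_range] at hk
      exact AH3_zero H h hh ho hs h4 h5 (by omega) hk2
    rw [Finset.sum_eq_single_of_mem 2 (by simp) fun k hk hk2 => e0 k hk hk2]
    have hstN : ∀ u, H.star (H.N 2 u) = H.N 2 (H.star u) := fun u => by
      have := H.star_N 2 (by norm_num) u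
      exact this
    have hNN : ∀ u, H.N 2 (H.N 2 u) = H.N 2 u := fun u => by simpa using H.N_proj 2 2 u
    have hmem : ∀ u ∈ H.harm, H.N 2 u ∈ H.harmK 2 := fun u hu =>
      Submodule.mem_inf.2 ⟨h5 2 u hu, ⟨u, rfl⟩⟩
    have hmem2 : ∀ u ∈ H.harm, H.star (H.N 2 u) ∈ H.harmK 2 := fun u hu =>
      Submodule.mem_inf.2 ⟨h4 _ (h5 2 u hu), ⟨H.star u, (hstN u).symm⟩⟩
    have hP : ∀ σ : ℝ, σ * σ = 1 →
        ∑ j, H.B (((1 / 2 : ℝ) • (H.N 2 + σ • H.star ∘ₗ H.N 2)) (h j)) (h j) =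
          (Module.finrank ℝ (H.harmPM σ) : ℝ) := by
      intro σ hσ
      refine AH3_proj H h hh ho hs _ (H.harmPM σ) (inf_le_left.trans inf_le_left)
        (fun u hu => ?_) fun u hu => ?_
      · refine (AH3_mem_harmPM H).2 ⟨?_, ?_⟩
        · simp only [LinearMap.smul_apply, LinearMap.add_apply, LinearMap.comp_apply]
          exact Submodule.smul_mem _ _ (Submodule.add_mem _ (hmem u hu)
            (Submodule.smul_mem _ _ (hmem2 u hu)))
        · simp only [LinearMap.smul_apply, LinearMap.add_apply, LinearMap.comp_apply, map_smul,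
            map_add, H.star_sq]
          have e : H.star (H.N 2 u) = (σ * σ) • H.star (H.N 2 u) := by rw [hσ, one_smul]
          conv_lhs => rw [e]
          module
      · obtain ⟨h6, h7⟩ := (AH3_mem_harmPM H).1 hu
        have h8 := (AH3_range_iff H).1 h6.2
        simp only [LinearMap.smul_apply, LinearMap.add_apply, LinearMap.comp_apply, h8, h7,
          smul_smul, hσ, one_smul]
        module
    rw [← hP 1 (by norm_num), ← hP (-1) (by norm_num), ← Finset.sum_sub_distrib]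
    refine Finset.sum_congr rfl fun j _ => ?_
    simp only [LinearMap.smul_apply, LinearMap.add_apply, LinearMap.comp_apply, map_smul, map_add,
      smul_eq_mul]
    ring

end NRF

end
end

section

/-!
# Assembly of `NRF.Target`
-/

open scoped Manifold ContDiff Topology
open MeasureTheory Set Filter

noncomputable section

namespace NRF

theorem Asm_exp (κ c : ℝ) (hκ : 0 < κ) (hc : κ < c) :
    ∃ T > 0, 4 / c < (4 / κ) * (1 - Real.exp (-κ * T / 2)) := by
  have h1 : Tendsto (fun T : ℝ => (4 / κ) * (1 - Real.exp (-κ * T / 2))) atTop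
      (𝓝 ((4 / κ) * (1 - 0))) := by
    refine Tendsto.const_mul _ (Tendsto.const_sub _ ?_)
    refine Real.tendsto_exp_atBot.comp ?_
    have h2 : (fun T : ℝ => -κ * T / 2) = fun T : ℝ => (-κ / 2) * T := by
      funext T; ring
    rw [h2]
    exact tendsto_id.const_mul_atTop_of_neg (by linarith)
  have h3 : 4 / c < (4 / κ) * (1 - 0) := by
    rw [sub_zero, mul_one]
    exact div_lt_div_of_pos_left (by norm_num) hκ hc
  obtain ⟨T, hT, hT'⟩ := ((h1.eventually (lt_mem_nhds h3)).and (eventually_gt_atTop 0)).exists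
  exact ⟨T, hT', hT⟩

theorem Asm_K (a c : ℝ) (hc : 0 < c) (ha : 4 / c < a) :
    a ^ (-(1 / 2) : ℝ) < Real.sqrt (c / 4) := by
  have h0 : 0 < 4 / c := by positivity
  have ha0 : 0 < a := h0.trans ha
  have h1 : a ^ (-(1 / 2) : ℝ) = Real.sqrt (1 / a) := by
    rw [Real.rpow_neg ha0.le, ← Real.sqrt_eq_rpow, one_div, Real.sqrt_inv]
  rw [h1]
  refine Real.sqrt_lt_sqrt (by positivity) ?_
  have h2 : c / 4 = 1 / (4 / c) := by
    rw [one_div_div]
  rw [h2]
  exact one_div_lt_one_div_of_lt h0 ha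

/-- `NRF.Target` with the better constant `1 / (144 π²)`; the hypothesis `simplicialVolume X ≠ 0` is
not needed. -/
def TargetStrong : Prop :=
  ∀ (X : Type) [TopologicalSpace X] [T2Space X] [CompactSpace X] [ConnectedSpace X]
    [ChartedSpace E4 X] [IsManifold (𝓡 4) ∞ X] [MeasurableSpace X] [BorelSpace X],
    OrientedAtlas X → lamBar X < 0 → (∃ g : ℝ → Metric X, IsQuasiNonSingular g) →
    (1 / (144 * Real.pi ^ 2)) * simplicialVolume X ≤
      2 * (eulerChar X : ℝ) - 3 * |(signature X : ℝ)|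

/-- The final assembly, strong form. -/
theorem prf_AssemblyStrong (hBasic : claimBasic) (hIndex : claimIndex) (hFlow : claimFlow)
    (hCover : claimCover) (hSimp : claimSimp) (hGrad : claimGrad) : TargetStrong := by
  intro X _ _ _ _ _ _ _ _ hO hlam hex
  obtain ⟨g, hg⟩ := hex
  obtain ⟨V, m, hV, hm, hvol, hlow, hgood⟩ := hFlow X hO hlam g hg
  obtain ⟨U⟩ := hCover X
  set sv := simplicialVolume X with hsv
  set χ : ℝ := 2 * (eulerChar X : ℝ) - 3 * |(signature X : ℝ)| with hχ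
  -- upper bound for the simplicial volume
  have h1 : ∀ c : ℝ, -m < c → sv ≤ 24 * (c / 4) ^ 2 * V := by
    intro c hc
    have hc0 : 0 < c := by linarith
    obtain ⟨κ, hκ1, hκ2⟩ := exists_between hc
    have hκ0 : 0 < κ := by linarith
    obtain ⟨t0, ht0, hlow'⟩ := hlow (κ + m) (by linarith)
    have hlow'' : ∀ t, t0 ≤ t → -κ ≤ (g t).meanScal := fun t ht => by
      have := hlow' t ht
      linarith
    obtain ⟨T, hT, hT'⟩ := Asm_exp κ c hκ0 hκ2
    obtain ⟨phi, hphi⟩ := hGrad X hO U g hg.flow t0 κ ht0 hκ0 hlow'' T hT (Real.sqrt (c / 4))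
      (Asm_K _ c hc0 hT')
    have h2 := hSimp X hO U (g (t0 + T)) _ phi hphi
    rw [hvol (t0 + T) (by linarith)] at h2
    have h3 : Real.sqrt (c / 4) ^ 4 = (c / 4) ^ 2 := by
      have h4 : Real.sqrt (c / 4) ^ 2 = c / 4 := Real.sq_sqrt (by positivity)
      calc Real.sqrt (c / 4) ^ 4 = (Real.sqrt (c / 4) ^ 2) ^ 2 := by ring
        _ = (c / 4) ^ 2 := by rw [h4]
    rw [h3] at h2
    exact h2
  have h1' : sv ≤ 24 * (m / 4) ^ 2 * V := by
    have hcont : Tendsto (fun c : ℝ => 24 * (c / 4) ^ 2 * V) (𝓝[>] (-m))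
        (𝓝 (24 * (-m / 4) ^ 2 * V)) := by
      refine Tendsto.mono_left ?_ nhdsWithin_le_nhds
      exact (by fun_prop : Continuous fun c : ℝ => 24 * (c / 4) ^ 2 * V).tendsto _
    have h2 : sv ≤ 24 * (-m / 4) ^ 2 * V :=
      ge_of_tendsto hcont (by
        filter_upwards [self_mem_nhdsWithin] with c hc
        exact h1 c hc)
    have h3 : (-m / 4) ^ 2 = (m / 4) ^ 2 := by ring
    rwa [h3] at h2
  -- lower bound for the topological side
  have h5 : ∀ ε > 0, (1 / (4 * Real.pi ^ 2)) * ((m ^ 2 - 2 * |m| * ε) * V / 24 - ε / 2) ≤ χ := by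
    intro ε hε
    obtain ⟨t, ht, ht1, ht2⟩ := hgood ε hε
    have hI := hIndex X hO (g t)
    obtain ⟨hc1, hc2, hfin, hpos⟩ := hBasic X hO (g t)
    have hint : ∀ f : X → ℝ, Continuous f → Integrable f (g t).vol := fun f hf => by
      obtain ⟨B, hB⟩ := (isCompact_univ (X := X)).exists_bound_of_continuousOn hf.continuousOn
      exact Integrable.of_bound hf.aestronglyMeasurable B (ae_of_all _ fun x => hB x (mem_univ x))
    have hVt := hvol t ht
    have hreal : (g t).vol.real univ = V := hVt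
    have hs : Integrable (fun x => (g t).scal x) (g t).vol := hint _ hc1
    have hs2 : Integrable (fun x => (g t).scal x ^ 2) (g t).vol := hint _ (hc1.pow 2)
    have hr : Integrable (fun x => (g t).ric0Sq x) (g t).vol := hint _ hc2
    set sb := (g t).meanScal with hsb
    have hmean : ∫ x, (g t).scal x ∂(g t).vol = sb * V := by
      rw [hsb, Metric.meanScal, hVt, div_mul_cancel₀ _ hV.ne']
    have hCS : sb ^ 2 * V ≤ ∫ x, (g t).scal x ^ 2 ∂(g t).vol := by
      have h6 : 0 ≤ ∫ x, ((g t).scal x - sb) ^ 2 ∂(g t).vol :=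
        integral_nonneg fun x => sq_nonneg _
      have h7 : ∫ x, ((g t).scal x - sb) ^ 2 ∂(g t).vol =
          ∫ x, (g t).scal x ^ 2 ∂(g t).vol - 2 * sb * (sb * V) + sb ^ 2 * V := by
        have e1 : (fun x => ((g t).scal x - sb) ^ 2) =
            fun x => ((g t).scal x ^ 2 - 2 * sb * (g t).scal x) + sb ^ 2 := by
          funext x; ring
        have i2 : Integrable (fun x => 2 * sb * (g t).scal x) (g t).vol := hs.const_mul _
        have i1 : Integrable (fun x => (g t).scal x ^ 2 - 2 * sb * (g t).scal x) (g t).vol :=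
          hs2.sub i2
        rw [e1, integral_add i1 (integrable_const _), integral_sub hs2 i2, integral_const_mul,
          hmean, integral_const, hreal, smul_eq_mul]
        ring
      rw [h7] at h6
      nlinarith
    have hInt : ∫ x, ((g t).scal x ^ 2 / 24 - (g t).ric0Sq x / 2) ∂(g t).vol =
        (∫ x, (g t).scal x ^ 2 ∂(g t).vol) / 24 - (∫ x, (g t).ric0Sq x ∂(g t).vol) / 2 := by
      have i1 : Integrable (fun x => (g t).scal x ^ 2 / 24) (g t).vol := hs2.div_const _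
      have i2 : Integrable (fun x => (g t).ric0Sq x / 2) (g t).vol := hr.div_const _
      rw [integral_sub i1 i2, integral_div, integral_div]
    rw [hInt] at hI
    refine le_trans ?_ hI
    refine mul_le_mul_of_nonneg_left ?_ (by positivity)
    have hsq : m ^ 2 - 2 * |m| * ε ≤ sb ^ 2 := by
      have h8 := abs_lt.1 ht1
      have h9 : |m| = -m := abs_of_neg hm
      rw [h9]
      have h10 : sb < m + ε := by linarith [h8.2]
      by_cases hs0 : m + ε ≤ 0
      · have : (m + ε) ^ 2 ≤ sb ^ 2 := by nlinarith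
        nlinarith
      · have : m ^ 2 - 2 * -m * ε ≤ 0 := by nlinarith
        exact this.trans (sq_nonneg _)
    have h11 : (m ^ 2 - 2 * |m| * ε) * V ≤ sb ^ 2 * V := mul_le_mul_of_nonneg_right hsq hV.le
    linarith
  have h5' : (1 / (4 * Real.pi ^ 2)) * (m ^ 2 * V / 24) ≤ χ := by
    have hcont : Tendsto (fun ε : ℝ => (1 / (4 * Real.pi ^ 2)) *
        ((m ^ 2 - 2 * |m| * ε) * V / 24 - ε / 2)) (𝓝[>] 0)
        (𝓝 ((1 / (4 * Real.pi ^ 2)) * ((m ^ 2 - 2 * |m| * 0) * V / 24 - 0 / 2))) := by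
      refine Tendsto.mono_left ?_ nhdsWithin_le_nhds
      exact (by fun_prop : Continuous fun ε : ℝ => (1 / (4 * Real.pi ^ 2)) *
        ((m ^ 2 - 2 * |m| * ε) * V / 24 - ε / 2)).tendsto _
    have h6 := le_of_tendsto hcont (by
      filter_upwards [self_mem_nhdsWithin] with ε hε
      exact h5 ε hε)
    simpa using h6
  -- comparison of the constants
  refine le_trans ?_ h5'
  have h12 : (1 / (144 * Real.pi ^ 2)) * sv ≤
      (1 / (144 * Real.pi ^ 2)) * (24 * (m / 4) ^ 2 * V) :=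
    mul_le_mul_of_nonneg_left h1' (by positivity)
  refine h12.trans (le_of_eq ?_)
  field_simp
  ring

theorem Asm_norm1_nonneg {Y : Type} [TopologicalSpace Y] {k : ℕ} (c : Chain k Y) :
    0 ≤ norm1 c := Finsupp.sum_nonneg fun _ _ => abs_nonneg _

theorem Asm_simplicialVolume_nonneg (X : Type) [TopologicalSpace X] [ChartedSpace E4 X] :
    0 ≤ simplicialVolume X := by
  refine Real.sInf_nonneg ?_
  rintro r ⟨c, -, rfl⟩
  exact Asm_norm1_nonneg c

/-- The final assembly. -/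
theorem prf_Assembly : claimAssembly := by
  intro hBasic hIndex hFlow hCover hSimp hGrad X _ _ _ _ _ _ _ _ hO _ hlam hex
  have h := prf_AssemblyStrong hBasic hIndex hFlow hCover hSimp hGrad X hO hlam hex
  refine le_trans ?_ h
  refine mul_le_mul_of_nonneg_right ?_ (Asm_simplicialVolume_nonneg X)
  have hpi : 0 < Real.pi ^ 2 := by positivity
  exact one_div_le_one_div_of_le (by positivity) (by nlinarith)

end NRF

end
end

section

/-!
# C1: Taylor expansion of `f (s + r², y + r ζ)`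
-/

open scoped Manifold ContDiff Topology
open MeasureTheory Set

noncomputable section

namespace NRF

/-! ### Parametric integrals over `[0,1]` -/

section param
variable {E : Type} [NormedAddCommGroup E] [NormedSpace ℝ E] [FiniteDimensional ℝ E]

theorem C1_hasFDerivAt_int {W : Type} [NormedAddCommGroup W] [NormedSpace ℝ W] [CompleteSpace W]
    (G : E × ℝ → W) (hG : ContDiff ℝ 1 G) (q : E) :
    HasFDerivAt (fun q => ∫ θ in (0 : ℝ)..1, G (q, θ))
      (∫ θ in (0 : ℝ)..1, fderiv ℝ (fun q => G (q, θ)) q) q := by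
  have hd : ∀ (q : E) (θ : ℝ), HasFDerivAt (fun q => G (q, θ))
      ((fderiv ℝ G (q, θ)).comp (ContinuousLinearMap.inl ℝ E ℝ)) q := by
    intro q θ
    have h1 : HasFDerivAt G (fderiv ℝ G (q, θ)) (q, θ) :=
      (hG.differentiable one_ne_zero _).hasFDerivAt
    exact h1.comp q (hasFDerivAt_prodMk_left q θ)
  have hd' : ∀ (q : E) (θ : ℝ), fderiv ℝ (fun q => G (q, θ)) q =
      (fderiv ℝ G (q, θ)).comp (ContinuousLinearMap.inl ℝ E ℝ) := fun q θ => (hd q θ).fderiv
  have hc : Continuous fun p : E × ℝ =>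
      (fderiv ℝ G p).comp (ContinuousLinearMap.inl ℝ E ℝ) :=
    (hG.continuous_fderiv one_ne_zero).clm_comp continuous_const
  simp only [hd']
  obtain ⟨C, hC⟩ := ((isCompact_closedBall q 1).prod (isCompact_Icc (a := (0 : ℝ)) (b := 1))).exists_bound_of_continuousOn
    hc.continuousOn
  refine intervalIntegral.hasFDerivAt_integral_of_dominated_of_fderiv_le
    (F' := fun q θ => (fderiv ℝ G (q, θ)).comp (ContinuousLinearMap.inl ℝ E ℝ))
    (bound := fun _ => C) (s := Metric.closedBall q 1) (Metric.closedBall_mem_nhds q one_pos)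
    ?_ ?_ ?_ ?_ ?_ ?_
  · refine Filter.Eventually.of_forall fun x => ?_
    exact (hG.continuous.comp (by fun_prop : Continuous fun θ : ℝ => (x, θ))).aestronglyMeasurable
  · exact (hG.continuous.comp (by fun_prop : Continuous fun θ : ℝ => (q, θ))).intervalIntegrable _ _
  · exact (hc.comp (by fun_prop : Continuous fun θ : ℝ => (q, θ))).aestronglyMeasurable
  · refine Filter.Eventually.of_forall fun θ hθ x hx => hC (x, θ) ⟨hx, ?_⟩
    rw [uIoc_of_le zero_le_one] at hθ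
    exact ⟨hθ.1.le, hθ.2⟩
  · exact intervalIntegrable_const
  · exact Filter.Eventually.of_forall fun θ _ x _ => hd x θ

omit [FiniteDimensional ℝ E] in
theorem C1_contDiff_slice {W : Type} [NormedAddCommGroup W] [NormedSpace ℝ W]
    (G : E × ℝ → W) (n : ℕ) (hG : ContDiff ℝ (n + 1 : ℕ) G) :
    ContDiff ℝ n (fun p : E × ℝ => fderiv ℝ (fun q => G (q, p.2)) p.1) := by
  have hd' : (fun p : E × ℝ => fderiv ℝ (fun q => G (q, p.2)) p.1) =
      fun p => (fderiv ℝ G p).comp (ContinuousLinearMap.inl ℝ E ℝ) := by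
    funext p
    have h1 : HasFDerivAt G (fderiv ℝ G (p.1, p.2)) (p.1, p.2) :=
      (hG.differentiable (by simp) _).hasFDerivAt
    exact (h1.comp p.1 (hasFDerivAt_prodMk_left p.1 p.2)).fderiv
  rw [hd']
  exact (hG.fderiv_right (m := n) (by norm_cast)).clm_comp contDiff_const

theorem C1_contDiff_int (n : ℕ) : ∀ {W : Type} [NormedAddCommGroup W] [NormedSpace ℝ W]
    [CompleteSpace W] (G : E × ℝ → W), ContDiff ℝ n G →
    ContDiff ℝ n (fun q => ∫ θ in (0 : ℝ)..1, G (q, θ)) := by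
  induction n with
  | zero =>
    intro W _ _ _ G hG
    rw [Nat.cast_zero, contDiff_zero] at hG ⊢
    exact intervalIntegral.continuous_parametric_intervalIntegral_of_continuous'
      (f := fun q θ => G (q, θ)) (by exact hG) 0 1
  | succ n ih =>
    intro W _ _ _ G hG
    have hfd := fun q => C1_hasFDerivAt_int G (hG.of_le (by norm_cast; omega)) q
    rw [Nat.cast_add, Nat.cast_one, contDiff_succ_iff_fderiv]
    refine ⟨fun q => (hfd q).differentiableAt, by simp, ?_⟩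
    have h1 : fderiv ℝ (fun q => ∫ θ in (0 : ℝ)..1, G (q, θ)) =
        fun q => ∫ θ in (0 : ℝ)..1, fderiv ℝ (fun q => G (q, θ)) q := by
      funext q
      exact (hfd q).fderiv
    rw [h1]
    exact ih (fun p : E × ℝ => fderiv ℝ (fun q => G (q, p.2)) p.1) (C1_contDiff_slice G n hG)

theorem C1_bound_int (k : ℕ) : ∀ {W : Type} [NormedAddCommGroup W] [NormedSpace ℝ W]
    [CompleteSpace W] (G : E × ℝ → W), ContDiff ℝ ∞ G → ∀ (q : E) (C : ℝ),
    (∀ θ ∈ Icc (0 : ℝ) 1, ‖iteratedFDeriv ℝ k (fun q => G (q, θ)) q‖ ≤ C) →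
    ‖iteratedFDeriv ℝ k (fun q => ∫ θ in (0 : ℝ)..1, G (q, θ)) q‖ ≤ C := by
  induction k with
  | zero =>
    intro W _ _ _ G hG q C hC
    simp only [norm_iteratedFDeriv_zero] at hC ⊢
    have h1 := intervalIntegral.norm_integral_le_of_norm_le_const (a := (0 : ℝ)) (b := 1)
      (f := fun θ => G (q, θ)) (C := C) (fun θ hθ => by
        rw [uIoc_of_le zero_le_one] at hθ
        exact hC θ ⟨hθ.1.le, hθ.2⟩)
    simpa using h1
  | succ k ih =>
    intro W _ _ _ G hG q C hC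
    have hfd := fun q => C1_hasFDerivAt_int G (hG.of_le (by exact_mod_cast le_top)) q
    have h1 : fderiv ℝ (fun q => ∫ θ in (0 : ℝ)..1, G (q, θ)) =
        fun q => ∫ θ in (0 : ℝ)..1, fderiv ℝ (fun q => G (q, θ)) q := by
      funext q
      exact (hfd q).fderiv
    rw [← norm_iteratedFDeriv_fderiv, h1]
    refine ih (fun p : E × ℝ => fderiv ℝ (fun q => G (q, p.2)) p.1) ?_ q C ?_
    · rw [contDiff_infty]
      intro n
      exact C1_contDiff_slice G n (hG.of_le (by exact_mod_cast le_top))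
    · intro θ hθ
      have := hC θ hθ
      rw [← norm_iteratedFDeriv_fderiv] at this
      exact this

end param

/-! ### Polynomial growth -/

section growth
variable {W : Type} [NormedAddCommGroup W] [NormedSpace ℝ W]

/-- bound for all derivatives of order at most `k` -/
theorem C1_PG_unif {f : KP → W} (hf : PG f) (k : ℕ) (T : ℝ) : ∃ (C : ℝ) (M : ℕ), 1 ≤ C ∧
    ∀ i ≤ k, ∀ (s r : ℝ) (y z : E4), |s| ≤ T → |r| ≤ T → ‖y‖ ≤ T →
      ‖iteratedFDeriv ℝ i f (s, r, y, z)‖ ≤ C * (1 + ‖z‖) ^ M := by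
  choose C M h using hf.2
  refine ⟨1 + ∑ i ∈ Finset.range (k + 1), |C i T|, ∑ i ∈ Finset.range (k + 1), M i T, ?_, ?_⟩
  · have : 0 ≤ ∑ i ∈ Finset.range (k + 1), |C i T| := Finset.sum_nonneg fun i _ => abs_nonneg _
    linarith
  · intro i hi s r y z hs hr hy
    have hi' : i ∈ Finset.range (k + 1) := Finset.mem_range.2 (by omega)
    have h1 : |C i T| ≤ ∑ i ∈ Finset.range (k + 1), |C i T| :=
      Finset.single_le_sum (f := fun i => |C i T|) (fun i _ => abs_nonneg _) hi'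
    have h2 : M i T ≤ ∑ i ∈ Finset.range (k + 1), M i T :=
      Finset.single_le_sum (f := fun i => M i T) (fun i _ => Nat.zero_le _) hi'
    have h3 : (1 : ℝ) ≤ 1 + ‖z‖ := by linarith [norm_nonneg z]
    calc ‖iteratedFDeriv ℝ i f (s, r, y, z)‖ ≤ C i T * (1 + ‖z‖) ^ M i T :=
          h i T s r y z hs hr hy
      _ ≤ (1 + ∑ i ∈ Finset.range (k + 1), |C i T|) *
          (1 + ‖z‖) ^ ∑ i ∈ Finset.range (k + 1), M i T := by
        refine mul_le_mul ?_ (pow_le_pow_right₀ h3 h2) (by positivity) (by positivity)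
        have := le_abs_self (C i T)
        linarith

theorem C1_PG_const (c : W) : PG fun _ => c := by
  refine ⟨contDiff_const, fun k T => ⟨‖c‖, 0, fun s r y z _ _ _ => ?_⟩⟩
  rw [pow_zero, mul_one]
  rcases Nat.eq_zero_or_pos k with h | h
  · subst h
    simp
  · rw [iteratedFDeriv_const_of_ne (by omega)]
    simp

theorem C1_PG_of_fderiv {f : KP → W} (hf : ContDiff ℝ ∞ f)
    (h0 : ∀ T : ℝ, ∃ (C : ℝ) (M : ℕ), ∀ (s r : ℝ) (y z : E4), |s| ≤ T → |r| ≤ T → ‖y‖ ≤ T →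
      ‖f (s, r, y, z)‖ ≤ C * (1 + ‖z‖) ^ M) (h1 : PG (fderiv ℝ f)) : PG f := by
  refine ⟨hf, fun k T => ?_⟩
  cases k with
  | zero => simpa only [norm_iteratedFDeriv_zero] using h0 T
  | succ k => simpa only [norm_iteratedFDeriv_fderiv] using h1.2 k T

theorem C1_PG_clm (L : KP →L[ℝ] W) : PG fun q => L q := by
  refine C1_PG_of_fderiv L.contDiff (fun T => ⟨‖L‖ * (1 + |T|), 1, fun s r y z hs hr hy => ?_⟩) ?_
  · refine (L.le_opNorm _).trans ?_
    rw [mul_assoc]
    refine mul_le_mul_of_nonneg_left ?_ (norm_nonneg _)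
    have hT := le_abs_self T
    have hz := norm_nonneg z
    have hT0 := abs_nonneg T
    rw [pow_one]
    have e : (1 + |T|) * (1 + ‖z‖) = 1 + |T| + ‖z‖ + |T| * ‖z‖ := by ring
    have e2 : 0 ≤ |T| * ‖z‖ := by positivity
    rw [e]
    refine max_le ?_ (max_le ?_ (max_le ?_ ?_))
    · rw [Real.norm_eq_abs]; linarith
    · change |r| ≤ _; linarith
    · change ‖y‖ ≤ _; linarith
    · change ‖z‖ ≤ _; linarith
  · have : fderiv ℝ (fun q => L q) = fun _ => L := by
      funext q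
      exact L.fderiv
    rw [this]
    exact C1_PG_const L

theorem C1_PG_add {f g : KP → W} (hf : PG f) (hg : PG g) : PG fun q => f q + g q := by
  refine ⟨hf.1.add hg.1, fun k T => ?_⟩
  obtain ⟨C, M, hC⟩ := hf.2 k T
  obtain ⟨C', M', hC'⟩ := hg.2 k T
  refine ⟨|C| + |C'|, M + M', fun s r y z hs hr hy => ?_⟩
  have h3 : (1 : ℝ) ≤ 1 + ‖z‖ := by linarith [norm_nonneg z]
  have h1 := hC s r y z hs hr hy
  have h2 := hC' s r y z hs hr hy
  have e : iteratedFDeriv ℝ k (fun q => f q + g q) (s, r, y, z) =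
      iteratedFDeriv ℝ k f (s, r, y, z) + iteratedFDeriv ℝ k g (s, r, y, z) := by
    have := iteratedFDeriv_add_apply (𝕜 := ℝ) (i := k) (x := (s, r, y, z))
      ((hf.1.of_le (by exact_mod_cast le_top)).contDiffAt)
      ((hg.1.of_le (by exact_mod_cast le_top)).contDiffAt)
    exact this
  rw [e]
  refine (norm_add_le _ _).trans ?_
  have p1 : (1 + ‖z‖) ^ M ≤ (1 + ‖z‖) ^ (M + M') := pow_le_pow_right₀ h3 (by omega)
  have p2 : (1 + ‖z‖) ^ M' ≤ (1 + ‖z‖) ^ (M + M') := pow_le_pow_right₀ h3 (by omega)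
  have p3 : C * (1 + ‖z‖) ^ M ≤ |C| * (1 + ‖z‖) ^ (M + M') :=
    mul_le_mul (le_abs_self C) p1 (by positivity) (abs_nonneg _)
  have p4 : C' * (1 + ‖z‖) ^ M' ≤ |C'| * (1 + ‖z‖) ^ (M + M') :=
    mul_le_mul (le_abs_self C') p2 (by positivity) (abs_nonneg _)
  rw [add_mul]
  linarith

theorem C1_PG_smul {f : KP → ℝ} {g : KP → W} (hf : PG f) (hg : PG g) :
    PG fun q => f q • g q := by
  refine ⟨hf.1.smul hg.1, fun k T => ?_⟩
  obtain ⟨C, M, hC1, hC⟩ := C1_PG_unif hf k T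
  obtain ⟨C', M', hC1', hC'⟩ := C1_PG_unif hg k T
  refine ⟨∑ i ∈ Finset.range (k + 1), (k.choose i : ℝ) * C * C', M + M',
    fun s r y z hs hr hy => ?_⟩
  refine (norm_iteratedFDeriv_smul_le (N := k) (hf.1.of_le (by exact_mod_cast le_top))
    (hg.1.of_le (by exact_mod_cast le_top)) _ le_rfl).trans ?_
  rw [Finset.sum_mul]
  refine Finset.sum_le_sum fun i hi => ?_
  have hi' : i ≤ k := by
    have := Finset.mem_range.1 hi
    omega
  have h1 := hC i hi' s r y z hs hr hy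
  have h2 := hC' (k - i) (by omega) s r y z hs hr hy
  calc (k.choose i : ℝ) * ‖iteratedFDeriv ℝ i f (s, r, y, z)‖ *
        ‖iteratedFDeriv ℝ (k - i) g (s, r, y, z)‖ ≤
      (k.choose i : ℝ) * (C * (1 + ‖z‖) ^ M) * (C' * (1 + ‖z‖) ^ M') := by
        gcongr
    _ = _ := by rw [pow_add]; ring

/-- composition with a function all of whose derivatives are bounded -/
theorem C1_PG_comp {F : Type} [NormedAddCommGroup F] [NormedSpace ℝ F] {g : F → W} {φ : KP → F}
    (hg : ContDiff ℝ ∞ g) (hφ : PG φ)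
    (hb : ∀ (k : ℕ) (T : ℝ), ∃ C : ℝ, ∀ (s r : ℝ) (y z : E4), |s| ≤ T → |r| ≤ T → ‖y‖ ≤ T →
      ‖iteratedFDeriv ℝ k g (φ (s, r, y, z))‖ ≤ C) : PG fun q => g (φ q) := by
  refine ⟨hg.comp hφ.1, fun k T => ?_⟩
  obtain ⟨D, M, hD1, hD⟩ := C1_PG_unif hφ k T
  choose B hB using hb
  have hBs : ∀ i ≤ k, ∀ (s r : ℝ) (y z : E4), |s| ≤ T → |r| ≤ T → ‖y‖ ≤ T →
      ‖iteratedFDeriv ℝ i g (φ (s, r, y, z))‖ ≤ ∑ i ∈ Finset.range (k + 1), |B i T| := by
    intro i hi s r y z hs hr hy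
    refine (hB i T s r y z hs hr hy).trans ((le_abs_self _).trans ?_)
    exact Finset.single_le_sum (f := fun i => |B i T|) (fun i _ => abs_nonneg _)
      (Finset.mem_range.2 (by omega))
  refine ⟨k.factorial * (∑ i ∈ Finset.range (k + 1), |B i T|) * D ^ k, M * k,
    fun s r y z hs hr hy => ?_⟩
  have h3 : (1 : ℝ) ≤ 1 + ‖z‖ := by linarith [norm_nonneg z]
  have h4 : 1 ≤ D * (1 + ‖z‖) ^ M := by
    have := one_le_pow₀ h3 (n := M)
    nlinarith
  have h5 := norm_iteratedFDeriv_comp_le (N := k) (hg.of_le (by exact_mod_cast le_top))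
    (hφ.1.of_le (by exact_mod_cast le_top)) le_rfl (s, r, y, z)
    (C := ∑ i ∈ Finset.range (k + 1), |B i T|) (D := D * (1 + ‖z‖) ^ M)
    (fun i hi => hBs i hi s r y z hs hr hy)
    (fun i hi1 hi => (hD i hi s r y z hs hr hy).trans (le_self_pow₀ h4 (by omega)))
  refine (show ‖iteratedFDeriv ℝ k (g ∘ φ) (s, r, y, z)‖ ≤ _ from h5).trans (le_of_eq ?_)
  rw [mul_pow, ← pow_mul]
  ring

theorem C1_PG_drK {f : KP → W} (hf : PG f) : PG (drK f) := by
  have e : drK f = (ContinuousLinearMap.apply ℝ W ((0, 1, 0, 0) : KP)) ∘ fderiv ℝ f := rfl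
  have hc : ContDiff ℝ ∞ (fderiv ℝ f) := hf.1.fderiv_right (by exact_mod_cast le_top)
  refine ⟨by rw [e]; exact (ContinuousLinearMap.contDiff _).comp hc, fun k T => ?_⟩
  obtain ⟨C, M, hC⟩ := hf.2 (k + 1) T
  refine ⟨‖ContinuousLinearMap.apply ℝ W ((0, 1, 0, 0) : KP)‖ * C, M, fun s r y z hs hr hy => ?_⟩
  rw [e, mul_assoc]
  refine (ContinuousLinearMap.norm_iteratedFDeriv_comp_left _ (n := k)
    (hc.contDiffAt.of_le (by exact_mod_cast le_top)) le_rfl).trans ?_
  refine mul_le_mul_of_nonneg_left ?_ (norm_nonneg _)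
  rw [norm_iteratedFDeriv_fderiv]
  exact hC s r y z hs hr hy

theorem C1_PG_drK_iter {f : KP → W} (hf : PG f) (n : ℕ) : PG (drK^[n] f) := by
  induction n with
  | zero => exact hf
  | succ n ih => rw [Function.iterate_succ_apply']; exact C1_PG_drK ih

end growth

/-! ### The map `(s, r, y, ζ) ↦ (s + r², y + r ζ)` -/

/-- the inner map -/
def C1_phi (q : KP) : ℝ × E4 := (q.1 + q.2.1 ^ 2, q.2.2.1 + q.2.1 • q.2.2.2)

theorem C1_PG_phi : PG C1_phi := by
  have e : C1_phi = fun q : KP =>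
      ((ContinuousLinearMap.fst ℝ ℝ (ℝ × E4 × E4)).prod
        ((ContinuousLinearMap.fst ℝ E4 E4).comp ((ContinuousLinearMap.snd ℝ ℝ (E4 × E4)).comp
          (ContinuousLinearMap.snd ℝ ℝ (ℝ × E4 × E4))))) q +
      ((ContinuousLinearMap.fst ℝ ℝ (E4 × E4)).comp
        (ContinuousLinearMap.snd ℝ ℝ (ℝ × E4 × E4))) q •
      ((((ContinuousLinearMap.fst ℝ ℝ (E4 × E4)).comp
        (ContinuousLinearMap.snd ℝ ℝ (ℝ × E4 × E4)))).prod
        ((ContinuousLinearMap.snd ℝ E4 E4).comp ((ContinuousLinearMap.snd ℝ ℝ (E4 × E4)).comp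
          (ContinuousLinearMap.snd ℝ ℝ (ℝ × E4 × E4))))) q := by
    funext q
    simp [C1_phi, pow_two]
  rw [e]
  exact C1_PG_add (C1_PG_clm _) (C1_PG_smul (C1_PG_clm _) (C1_PG_clm _))

theorem C1_bdd {W : Type} [NormedAddCommGroup W] [NormedSpace ℝ W] {f : ℝ × E4 → W}
    (hf : ContDiff ℝ ∞ f) {c0 : W} (hc : ∀ q : ℝ × E4, 3 ≤ ‖q.2‖ → f q = c0) (k : ℕ) (T : ℝ) :
    ∃ C : ℝ, ∀ (t : ℝ) (z : E4), |t| ≤ T → ‖iteratedFDeriv ℝ k f (t, z)‖ ≤ C := by
  have hcont : Continuous fun p : ℝ × E4 => iteratedFDeriv ℝ k f p :=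
    hf.continuous_iteratedFDeriv (by exact_mod_cast le_top)
  obtain ⟨C, hC⟩ := ((isCompact_closedBall (0 : ℝ) T).prod
    (isCompact_closedBall (0 : E4) 3)).exists_bound_of_continuousOn hcont.continuousOn
  refine ⟨max C ‖c0‖, fun t z ht => ?_⟩
  by_cases hz : ‖z‖ ≤ 3
  · refine (hC (t, z) ⟨?_, ?_⟩).trans (le_max_left _ _)
    · rw [mem_closedBall_zero_iff]; exact ht
    · rw [mem_closedBall_zero_iff]; exact hz
  · push Not at hz
    have h1 : f =ᶠ[𝓝 (t, z)] fun _ => c0 := by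
      have h2 : ∀ᶠ p : ℝ × E4 in 𝓝 (t, z), 3 < ‖p.2‖ :=
        (continuous_norm.comp continuous_snd).continuousAt.eventually (lt_mem_nhds hz)
      filter_upwards [h2] with p hp using hc p hp.le
    rw [(h1.iteratedFDeriv ℝ k).eq_of_nhds]
    refine le_trans ?_ (le_max_right _ _)
    rcases Nat.eq_zero_or_pos k with h | h
    · subst h
      simp
    · rw [iteratedFDeriv_const_of_ne (by omega)]
      simp

theorem C1_PG_F {W : Type} [NormedAddCommGroup W] [NormedSpace ℝ W] {f : ℝ × E4 → W}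
    (hf : ContDiff ℝ ∞ f) {c0 : W} (hc : ∀ q : ℝ × E4, 3 ≤ ‖q.2‖ → f q = c0) :
    PG (fun q : KP => f (q.1 + q.2.1 ^ 2, q.2.2.1 + q.2.1 • q.2.2.2)) := by
  refine C1_PG_comp (φ := C1_phi) hf C1_PG_phi fun k T => ?_
  obtain ⟨C, hC⟩ := C1_bdd hf hc k (T + T ^ 2)
  refine ⟨C, fun s r y z hs hr hy => hC _ _ ?_⟩
  have h1 : r ^ 2 ≤ T ^ 2 := by
    rw [← sq_abs r]
    exact pow_le_pow_left₀ (abs_nonneg _) hr 2
  calc |s + r ^ 2| ≤ |s| + |r ^ 2| := abs_add_le _ _
    _ ≤ T + T ^ 2 := by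
      rw [abs_of_nonneg (sq_nonneg r)]
      linarith

/-! ### Derivatives in `r` -/

section rderiv
variable {W : Type} [NormedAddCommGroup W] [NormedSpace ℝ W]

theorem C1_hasDerivAt_r {G : KP → W} (hG : Differentiable ℝ G) (s r : ℝ) (y z : E4) :
    HasDerivAt (fun r : ℝ => G (s, r, y, z)) (drK G (s, r, y, z)) r := by
  have h1 : HasFDerivAt G (fderiv ℝ G (s, r, y, z)) (s, r, y, z) := (hG _).hasFDerivAt
  have h2 : HasDerivAt (fun r : ℝ => ((s, r, y, z) : KP)) (0, 1, 0, 0) r :=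
    (hasDerivAt_const r s).prodMk ((hasDerivAt_id r).prodMk
      ((hasDerivAt_const r y).prodMk (hasDerivAt_const r z)))
  exact h1.comp_hasDerivAt r h2

theorem C1_smooth_iter {G : KP → W} (hG : ContDiff ℝ ∞ G) (n : ℕ) :
    ContDiff ℝ ∞ (drK^[n] G) := by
  induction n with
  | zero => exact hG
  | succ n ih =>
    rw [Function.iterate_succ_apply']
    have hc : ContDiff ℝ ∞ (fderiv ℝ (drK^[n] G)) := ih.fderiv_right (by exact_mod_cast le_top)
    exact (ContinuousLinearMap.apply ℝ W ((0, 1, 0, 0) : KP)).contDiff.comp hc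

theorem C1_iteratedDeriv {G : KP → W} (hG : ContDiff ℝ ∞ G) (n : ℕ) (s r : ℝ) (y z : E4) :
    iteratedDeriv n (fun r : ℝ => G (s, r, y, z)) r = (drK^[n] G) (s, r, y, z) := by
  induction n generalizing r with
  | zero => simp
  | succ n ih =>
    rw [iteratedDeriv_succ]
    have : iteratedDeriv n (fun r : ℝ => G (s, r, y, z)) =
        fun r => (drK^[n] G) (s, r, y, z) := by
      funext r
      exact ih r
    rw [this, Function.iterate_succ_apply']
    exact (C1_hasDerivAt_r ((C1_smooth_iter hG n).differentiable (by simp)) s r y z).deriv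

end rderiv

/-! ### The remainder -/

/-- `(s, r, y, ζ) ↦ (s, θ r, y, ζ)` -/
def C1_sig (θ : ℝ) : KP →L[ℝ] KP :=
  (ContinuousLinearMap.fst ℝ ℝ (ℝ × E4 × E4)).prod
    ((θ • (ContinuousLinearMap.fst ℝ ℝ (E4 × E4)).comp
      (ContinuousLinearMap.snd ℝ ℝ (ℝ × E4 × E4))).prod
      ((ContinuousLinearMap.snd ℝ ℝ (E4 × E4)).comp (ContinuousLinearMap.snd ℝ ℝ (ℝ × E4 × E4))))

theorem C1_sig_apply (θ : ℝ) (q : KP) : C1_sig θ q = (q.1, θ * q.2.1, q.2.2.1, q.2.2.2) := rfl

theorem C1_sig_norm {θ : ℝ} (hθ : θ ∈ Icc (0 : ℝ) 1) : ‖C1_sig θ‖ ≤ 1 := by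
  refine ContinuousLinearMap.opNorm_le_bound _ zero_le_one fun q => ?_
  rw [C1_sig_apply, one_mul]
  have h1 : ‖θ * q.2.1‖ ≤ ‖q.2.1‖ := by
    rw [norm_mul, Real.norm_eq_abs, abs_of_nonneg hθ.1]
    exact mul_le_of_le_one_left (norm_nonneg _) hθ.2
  rw [Prod.norm_def, Prod.norm_def q]
  refine max_le (le_max_left _ _) ?_
  refine le_trans ?_ (le_max_right _ _)
  rw [Prod.norm_def, Prod.norm_def q.2]
  exact max_le_max h1 le_rfl

section rem
variable {W : Type} [NormedAddCommGroup W] [NormedSpace ℝ W] [CompleteSpace W]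

/-- the remainder -/
def C1_rem (G : KP → W) (J : ℕ) (q : KP) : W :=
  ∫ θ in (0 : ℝ)..1, (((J.factorial : ℝ)⁻¹ * (1 - θ) ^ J) •
    (drK^[J + 1] G) (q.1, θ * q.2.1, q.2.2.1, q.2.2.2))

theorem C1_rem_PG {G : KP → W} (hG : PG G) (J : ℕ) : PG (C1_rem G J) := by
  have hH := C1_PG_drK_iter hG (J + 1)
  set H := drK^[J + 1] G with hHdef
  set G' : KP × ℝ → W := fun p => (((J.factorial : ℝ)⁻¹ * (1 - p.2) ^ J) •
    H (p.1.1, p.2 * p.1.2.1, p.1.2.2.1, p.1.2.2.2)) with hG'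
  have hG's : ContDiff ℝ ∞ G' := by
    refine ContDiff.smul (by fun_prop) (hH.1.comp ?_)
    fun_prop
  have hrem : C1_rem G J = fun q => ∫ θ in (0 : ℝ)..1, G' (q, θ) := rfl
  rw [hrem]
  refine ⟨?_, fun k T => ?_⟩
  · rw [contDiff_infty]
    intro n
    exact C1_contDiff_int n G' (hG's.of_le (by exact_mod_cast le_top))
  · obtain ⟨C, M, hC1, hC⟩ := C1_PG_unif hH k |T|
    refine ⟨C, M, fun s r y z hs hr hy => ?_⟩
    refine C1_bound_int k G' hG's _ _ fun θ hθ => ?_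
    have e1 : (fun q => G' (q, θ)) = (((J.factorial : ℝ)⁻¹ * (1 - θ) ^ J)) •
        (H ∘ C1_sig θ) := rfl
    rw [e1]
    have hHs : ContDiff ℝ ∞ (H ∘ C1_sig θ) := hH.1.comp (C1_sig θ).contDiff
    rw [iteratedFDeriv_const_smul_apply (hHs.contDiffAt.of_le (by exact_mod_cast le_top)),
      norm_smul, (C1_sig θ).iteratedFDeriv_comp_right (i := k) hH.1 _ (by exact_mod_cast le_top)]
    have h2 : ‖(J.factorial : ℝ)⁻¹ * (1 - θ) ^ J‖ ≤ 1 := by
      rw [norm_mul]
      have a1 : ‖(J.factorial : ℝ)⁻¹‖ ≤ 1 := by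
        rw [norm_inv]
        refine inv_le_one_of_one_le₀ ?_
        rw [Real.norm_natCast]
        exact_mod_cast Nat.one_le_iff_ne_zero.2 (Nat.factorial_ne_zero J)
      have a2 : ‖(1 - θ) ^ J‖ ≤ 1 := by
        rw [norm_pow]
        refine pow_le_one₀ (norm_nonneg _) ?_
        rw [Real.norm_eq_abs, abs_le]
        constructor <;> linarith [hθ.1, hθ.2]
      calc _ ≤ (1 : ℝ) * 1 := mul_le_mul a1 a2 (norm_nonneg _) zero_le_one
        _ = 1 := one_mul 1
    have h3 : ‖(iteratedFDeriv ℝ k H (C1_sig θ (s, r, y, z))).compContinuousLinearMap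
        fun _ => C1_sig θ‖ ≤ C * (1 + ‖z‖) ^ M := by
      refine (ContinuousMultilinearMap.norm_compContinuousLinearMap_le _ _).trans ?_
      have h4 : ∏ _i : Fin k, ‖C1_sig θ‖ ≤ 1 :=
        Finset.prod_le_one (fun _ _ => norm_nonneg _) fun _ _ => C1_sig_norm hθ
      have h5 : ‖iteratedFDeriv ℝ k H (C1_sig θ (s, r, y, z))‖ ≤ C * (1 + ‖z‖) ^ M := by
        rw [C1_sig_apply]
        refine hC k le_rfl s (θ * r) y z (hs.trans (le_abs_self T)) ?_ (hy.trans (le_abs_self T))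
        rw [abs_mul, abs_of_nonneg hθ.1]
        have := mul_le_of_le_one_left (abs_nonneg r) hθ.2
        linarith [le_abs_self T]
      calc _ ≤ ‖iteratedFDeriv ℝ k H (C1_sig θ (s, r, y, z))‖ * 1 :=
            mul_le_mul_of_nonneg_left h4 (norm_nonneg _)
        _ ≤ _ := by rw [mul_one]; exact h5
    calc _ ≤ (1 : ℝ) * (C * (1 + ‖z‖) ^ M) :=
          mul_le_mul h2 h3 (norm_nonneg _) zero_le_one
      _ = _ := one_mul _

theorem C1_taylor {G : KP → W} (hG : ContDiff ℝ ∞ G) (J : ℕ) (s r : ℝ) (y z : E4) :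
    G (s, r, y, z) = (∑ j ∈ Finset.range (J + 1),
      r ^ j • (1 / (j.factorial : ℝ)) • iteratedDeriv j (fun r : ℝ => G (s, r, y, z)) 0) +
      r ^ (J + 1) • C1_rem G J (s, r, y, z) := by
  have hh : ContDiff ℝ ∞ fun r : ℝ => G (s, r, y, z) :=
    hG.comp (contDiff_const.prodMk (contDiff_id.prodMk (contDiff_const.prodMk contDiff_const)))
  have h1 := map_add_eq_sum_add_integral_iteratedFDeriv (f := fun r : ℝ => G (s, r, y, z))
    (x := 0) (y := r) (n := J) (fun t _ => (hh.contDiffAt.of_le (by exact_mod_cast le_top)))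
  simp only [zero_add, smul_eq_mul] at h1
  rw [h1]
  congr 1
  · refine Finset.sum_congr rfl fun j _ => ?_
    rw [iteratedFDeriv_apply_eq_iteratedDeriv_mul_prod, Finset.prod_const, Finset.card_univ,
      Fintype.card_fin, one_div, smul_comm]
  · unfold C1_rem
    rw [← intervalIntegral.integral_smul, ← intervalIntegral.integral_smul]
    refine intervalIntegral.integral_congr fun θ _ => ?_
    simp only
    rw [iteratedFDeriv_apply_eq_iteratedDeriv_mul_prod, Finset.prod_const, Finset.card_univ,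
      Fintype.card_fin, C1_iteratedDeriv hG, smul_smul, smul_smul, smul_smul]
    congr 1
    ring

end rem

/-! ### The Taylor coefficients are polynomials in `ζ` -/

section poly
variable {W : Type} [NormedAddCommGroup W] [NormedSpace ℝ W]

/-- the monomials -/
def C1_mono (a : ℕ) (α : Fin 4 → ℕ) (g : ℝ × E4 → W) (q : KP) : W :=
  (q.2.1 ^ a * ∏ i, q.2.2.2 i ^ α i) • g (q.1 + q.2.1 ^ 2, q.2.2.1 + q.2.1 • q.2.2.2)

/-- sums of monomials -/
inductive C1_PP : (KP → W) → Prop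
  | mono (a : ℕ) (α : Fin 4 → ℕ) (g : ℝ × E4 → W) (hg : ContDiff ℝ ∞ g) : C1_PP (C1_mono a α g)
  | add {G H : KP → W} : C1_PP G → C1_PP H → C1_PP (fun q => G q + H q)

theorem C1_mono_smooth (a : ℕ) (α : Fin 4 → ℕ) {g : ℝ × E4 → W} (hg : ContDiff ℝ ∞ g) :
    ContDiff ℝ ∞ (C1_mono a α g) := by
  unfold C1_mono
  refine ContDiff.smul (ContDiff.mul (by fun_prop) (contDiff_prod fun i _ => ?_))
    (hg.comp (by fun_prop))
  fun_prop

theorem C1_PP_smooth {G : KP → W} (hG : C1_PP G) : ContDiff ℝ ∞ G := by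
  induction hG with
  | mono a α g hg => exact C1_mono_smooth a α hg
  | add _ _ h1 h2 => exact h1.add h2

theorem C1_drK_add {G H : KP → W} (hG : Differentiable ℝ G) (hH : Differentiable ℝ H) :
    drK (fun q => G q + H q) = fun q => drK G q + drK H q := by
  funext q
  unfold drK
  rw [fderiv_fun_add (hG q) (hH q)]
  rfl

theorem C1_split (v : ℝ) (z : E4) : ((v, z) : ℝ × E4) =
    v • ((1, 0) : ℝ × E4) + (z 0 • ((0, bv 0) : ℝ × E4) + z 1 • ((0, bv 1) : ℝ × E4) +
      z 2 • ((0, bv 2) : ℝ × E4) + z 3 • ((0, bv 3) : ℝ × E4)) := by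
  ext i
  · simp
  · fin_cases i <;> simp [bv]

theorem C1_drK_mono (a : ℕ) (α : Fin 4 → ℕ) {g : ℝ × E4 → W} (hg : ContDiff ℝ ∞ g) (q : KP) :
    drK (C1_mono a α g) q =
      (((C1_mono (a - 1) α (fun p => (a : ℝ) • g p) q +
      C1_mono (a + 1) α (fun p => (2 : ℝ) • fderiv ℝ g p (1, 0)) q) +
      (C1_mono a (fun i => α i + if i = 0 then 1 else 0) (fun p => fderiv ℝ g p (0, bv 0)) q +
      C1_mono a (fun i => α i + if i = 1 then 1 else 0) (fun p => fderiv ℝ g p (0, bv 1)) q)) +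
      (C1_mono a (fun i => α i + if i = 2 then 1 else 0) (fun p => fderiv ℝ g p (0, bv 2)) q +
      C1_mono a (fun i => α i + if i = 3 then 1 else 0) (fun p => fderiv ℝ g p (0, bv 3)) q)) := by
  obtain ⟨s, r, y, z⟩ := q
  have h1 := C1_hasDerivAt_r ((C1_mono_smooth a α hg).differentiable (by simp)) s r y z
  have h2 : HasDerivAt (fun r : ℝ => ((s + r ^ 2, y + r • z) : ℝ × E4)) (2 * r, z) r := by
    refine HasDerivAt.prodMk ?_ ?_
    · have := (hasDerivAt_pow 2 r).const_add s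
      simpa using this
    · have := ((hasDerivAt_id r).smul_const z).const_add y
      simpa using this
  have h3 : HasFDerivAt g (fderiv ℝ g (s + r ^ 2, y + r • z)) (s + r ^ 2, y + r • z) :=
    (hg.differentiable (by simp) _).hasFDerivAt
  have h4 := h3.comp_hasDerivAt r h2
  have h5 : HasDerivAt (fun r : ℝ => r ^ a * ∏ i, z i ^ α i)
      ((a : ℝ) * r ^ (a - 1) * ∏ i, z i ^ α i) r :=
    (hasDerivAt_pow a r).mul_const _
  have h6 := h5.smul h4
  have h7 : drK (C1_mono a α g) (s, r, y, z) = _ := h1.unique h6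
  rw [h7]
  simp only [Function.comp, C1_mono]
  rw [C1_split (2 * r) z]
  simp only [map_add, map_smul, smul_add, smul_smul, Fin.prod_univ_four]
  have e0 : ((0 : Fin 4) = 1) = False := by decide
  have e1 : ((0 : Fin 4) = 2) = False := by decide
  have e2 : ((0 : Fin 4) = 3) = False := by decide
  have e3 : ((1 : Fin 4) = 0) = False := by decide
  have e4 : ((1 : Fin 4) = 2) = False := by decide
  have e5 : ((1 : Fin 4) = 3) = False := by decide
  have e6 : ((2 : Fin 4) = 0) = False := by decide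
  have e7 : ((2 : Fin 4) = 1) = False := by decide
  have e8 : ((2 : Fin 4) = 3) = False := by decide
  have e9 : ((3 : Fin 4) = 0) = False := by decide
  have e10 : ((3 : Fin 4) = 1) = False := by decide
  have e11 : ((3 : Fin 4) = 2) = False := by decide
  simp only [e0, e1, e2, e3, e4, e5, e6, e7, e8, e9, e10, e11, if_true, if_false, add_zero]
  generalize fderiv ℝ g (s + r ^ 2, y + r • z) (1, 0) = u
  generalize fderiv ℝ g (s + r ^ 2, y + r • z) (0, bv 0) = u0
  generalize fderiv ℝ g (s + r ^ 2, y + r • z) (0, bv 1) = u1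
  generalize fderiv ℝ g (s + r ^ 2, y + r • z) (0, bv 2) = u2
  generalize fderiv ℝ g (s + r ^ 2, y + r • z) (0, bv 3) = u3
  generalize g (s + r ^ 2, y + r • z) = w
  module

theorem C1_PP_drK {G : KP → W} (hG : C1_PP G) : C1_PP (drK G) := by
  induction hG with
  | mono a α g hg =>
    have hd : ∀ v : ℝ × E4, ContDiff ℝ ∞ fun p => fderiv ℝ g p v := fun v =>
      (hg.fderiv_right (m := ∞) (by exact_mod_cast le_top)).clm_apply contDiff_const
    have e : drK (C1_mono a α g) = _ := funext fun q => C1_drK_mono a α hg q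
    rw [e]
    exact .add (.add (.add (.mono _ _ _ (hg.const_smul _)) (.mono _ _ _ ((hd _).const_smul _)))
      (.add (.mono _ _ _ (hd _)) (.mono _ _ _ (hd _))))
      (.add (.mono _ _ _ (hd _)) (.mono _ _ _ (hd _)))
  | add h1 h2 ih1 ih2 =>
    rw [C1_drK_add ((C1_PP_smooth h1).differentiable (by simp))
      ((C1_PP_smooth h2).differentiable (by simp))]
    exact .add ih1 ih2

theorem C1_isPoly_add {P Q : ℝ → E4 → E4 → W} (hP : IsPoly P) (hQ : IsPoly Q) :
    IsPoly fun s y z => P s y z + Q s y z := by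
  classical
  obtain ⟨A, p, hp, hP⟩ := hP
  obtain ⟨B, q, hq, hQ⟩ := hQ
  refine ⟨A ∪ B, fun α x => (if α ∈ A then p α x else 0) + (if α ∈ B then q α x else 0),
    fun α => ?_, fun s y z => ?_⟩
  · refine ContDiff.add ?_ ?_
    · by_cases h : α ∈ A
      · simp only [h, if_true]; exact hp α
      · simp only [h, if_false]; exact contDiff_const
    · by_cases h : α ∈ B
      · simp only [h, if_true]; exact hq α
      · simp only [h, if_false]; exact contDiff_const
  · beta_reduce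
    rw [hP, hQ]
    simp only [smul_add, Finset.sum_add_distrib]
    congr 1
    · rw [← Finset.sum_subset (Finset.subset_union_left (s₁ := A) (s₂ := B))]
      · exact Finset.sum_congr rfl fun α hα => by rw [if_pos hα]
      · intro α _ hα
        rw [if_neg hα, smul_zero]
    · rw [← Finset.sum_subset (Finset.subset_union_right (s₁ := A) (s₂ := B))]
      · exact Finset.sum_congr rfl fun α hα => by rw [if_pos hα]
      · intro α _ hα
        rw [if_neg hα, smul_zero]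

theorem C1_isPoly_smul {P : ℝ → E4 → E4 → W} (c : ℝ) (hP : IsPoly P) :
    IsPoly fun s y z => c • P s y z := by
  obtain ⟨A, p, hp, hP⟩ := hP
  refine ⟨A, fun α x => c • p α x, fun α => (hp α).const_smul c, fun s y z => ?_⟩
  beta_reduce
  rw [hP, Finset.smul_sum]
  exact Finset.sum_congr rfl fun α _ => smul_comm _ _ _

theorem C1_PP_isPoly {G : KP → W} (hG : C1_PP G) : IsPoly fun s y z => G (s, 0, y, z) := by
  induction hG with
  | mono a α g hg =>
    by_cases ha : a = 0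
    · refine ⟨{α}, fun _ => g, fun _ => hg, fun s y z => ?_⟩
      simp [C1_mono, ha]
    · refine ⟨∅, fun _ => g, fun _ => hg, fun s y z => ?_⟩
      simp [C1_mono, ha]
  | add _ _ ih1 ih2 => exact C1_isPoly_add ih1 ih2

theorem C1_PP_F {f : ℝ × E4 → W} (hf : ContDiff ℝ ∞ f) :
    C1_PP (fun q : KP => f (q.1 + q.2.1 ^ 2, q.2.2.1 + q.2.1 • q.2.2.2)) := by
  have e : (fun q : KP => f (q.1 + q.2.1 ^ 2, q.2.2.1 + q.2.1 • q.2.2.2)) =
      C1_mono 0 (fun _ => 0) f := by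
    funext q
    simp [C1_mono]
  rw [e]
  exact .mono _ _ _ hf

theorem C1_isPoly_tayC {f : ℝ × E4 → W} (hf : ContDiff ℝ ∞ f) (j : ℕ) : IsPoly (tayC f j) := by
  have h1 := C1_PP_F hf
  have h2 : C1_PP (drK^[j] fun q : KP => f (q.1 + q.2.1 ^ 2, q.2.2.1 + q.2.1 • q.2.2.2)) := by
    induction j with
    | zero => exact h1
    | succ n ih => rw [Function.iterate_succ_apply']; exact C1_PP_drK ih
  have h3 := C1_isPoly_smul (1 / (j.factorial : ℝ)) (C1_PP_isPoly h2)
  have e : tayC f j = fun s y z => (1 / (j.factorial : ℝ)) •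
      (drK^[j] fun q : KP => f (q.1 + q.2.1 ^ 2, q.2.2.1 + q.2.1 • q.2.2.2)) (s, 0, y, z) := by
    funext s y z
    rw [← C1_iteratedDeriv (C1_PP_smooth h1) j s 0 y z]
    rfl
  rw [e]
  exact h3

end poly

theorem claimTay_proof : claimTay := by
  intro W _ _ _ f hf ⟨c0, hc⟩
  have : CompleteSpace W := FiniteDimensional.complete ℝ W
  have hF := C1_PG_F hf hc
  refine ⟨hF, C1_isPoly_tayC hf, fun J => ⟨C1_rem (fun q : KP =>
    f (q.1 + q.2.1 ^ 2, q.2.2.1 + q.2.1 • q.2.2.2)) J, C1_rem_PG hF J, fun q => ?_⟩⟩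
  obtain ⟨s, r, y, z⟩ := q
  have h := C1_taylor hF.1 J s r y z
  exact h

end NRF

end
end

section

/-!
# C10: the maximum principle in bounded geometry
-/

open scoped Manifold ContDiff Topology
open MeasureTheory Set Filter

noncomputable section

namespace NRF

/-- Second order necessary condition at a local maximum. -/
theorem C10_localMax {f : E4 → ℝ} {x : E4} (hf : ContDiffAt ℝ 2 f x) (hm : IsLocalMax f x)
    (v : E4) : fderiv ℝ (fderiv ℝ f) x v v ≤ 0 := by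
  by_contra hcon
  push Not at hcon
  set g : ℝ → ℝ := fun s => f (x + s • v) with hg
  have hline : ∀ s : ℝ, HasDerivAt (fun s : ℝ => x + s • v) v s := by
    intro s
    simpa using ((hasDerivAt_id s).smul_const v).const_add x
  have hlc : Continuous (fun s : ℝ => x + s • v) := by fun_prop
  have h0 : (fun s : ℝ => x + s • v) 0 = x := by simp
  have htend : Tendsto (fun s : ℝ => x + s • v) (𝓝 0) (𝓝 x) := by
    have := hlc.tendsto 0
    simpa using this
  have hdiff : ∀ᶠ y in 𝓝 x, DifferentiableAt ℝ f y := by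
    have h1 : ∀ᶠ y in 𝓝 x, ContDiffAt ℝ 2 f y := hf.eventually (by simp)
    exact h1.mono fun y hy => hy.differentiableAt (by norm_num)
  have hdg : ∀ᶠ s in 𝓝 (0 : ℝ), deriv g s = fderiv ℝ f (x + s • v) v := by
    filter_upwards [htend.eventually hdiff] with s hs
    exact (hs.hasFDerivAt.comp_hasDerivAt s (hline s)).deriv
  have hd2 : DifferentiableAt ℝ (fderiv ℝ f) x :=
    (hf.fderiv_right (m := 1) (by norm_num)).differentiableAt (by norm_num)
  have hdd : deriv (deriv g) 0 = fderiv ℝ (fderiv ℝ f) x v v := by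
    rw [EventuallyEq.deriv_eq hdg]
    have h1 : HasDerivAt (fun s : ℝ => fderiv ℝ f (x + s • v)) (fderiv ℝ (fderiv ℝ f) x v) 0 := by
      have h2 : HasFDerivAt (fderiv ℝ f) (fderiv ℝ (fderiv ℝ f) x) ((fun s : ℝ => x + s • v) 0) := by
        rw [h0]; exact hd2.hasFDerivAt
      exact h2.comp_hasDerivAt 0 (hline 0)
    have h3 : HasDerivAt (fun s : ℝ => fderiv ℝ f (x + s • v) v)
        (fderiv ℝ (fderiv ℝ f) x v v) 0 := by
      have := h1.clm_apply (hasDerivAt_const (0 : ℝ) v)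
      simpa using this
    exact h3.deriv
  have hgm : IsLocalMax g 0 := by
    have h1 : IsLocalMax f ((fun s : ℝ => x + s • v) 0) := by rw [h0]; exact hm
    exact IsLocalMax.comp_continuous (g := fun s : ℝ => x + s • v) h1 hlc.continuousAt
  have hd1 : deriv g 0 = 0 := hgm.deriv_eq_zero
  have hcg : ContinuousAt g 0 := by
    have : ContinuousAt f ((fun s : ℝ => x + s • v) 0) := by rw [h0]; exact hf.continuousAt
    exact ContinuousAt.comp (f := fun s : ℝ => x + s • v) this hlc.continuousAt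
  have hmin : IsLocalMin g 0 := isLocalMin_of_deriv_deriv_pos (by rw [hdd]; exact hcon) hd1 hcg
  have heq : g =ᶠ[𝓝 0] fun _ => g 0 := by
    filter_upwards [hgm, hmin] with s h1 h2
    exact le_antisymm h1 h2
  have h5 : deriv (deriv g) 0 = 0 := by
    have h6 : deriv g =ᶠ[𝓝 0] fun _ => 0 := by
      have := heq.deriv
      simpa using this
    rw [h6.deriv_eq]
    simp
  rw [hdd] at h5
  exact absurd h5 (ne_of_gt hcon)

/-- `∂_i ∂_j` in terms of the second derivative. -/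
theorem C10_pd_pd {f : E4 → ℝ} {x : E4} (hf : ContDiffAt ℝ 2 f x) (i j : Fin 4) :
    pd i (pd j f) x = fderiv ℝ (fderiv ℝ f) x (bv i) (bv j) := by
  have hd2 : DifferentiableAt ℝ (fderiv ℝ f) x :=
    (hf.fderiv_right (m := 1) (by norm_num)).differentiableAt (by norm_num)
  have h2 : HasFDerivAt (fun y => fderiv ℝ f y (bv j))
      ((ContinuousLinearMap.apply ℝ ℝ (bv j)).comp (fderiv ℝ (fderiv ℝ f) x)) x :=
    (ContinuousLinearMap.apply ℝ ℝ (bv j)).hasFDerivAt.comp x hd2.hasFDerivAt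
  unfold pd
  rw [h2.fderiv]
  rfl

/-- A positive definite matrix contracted with a nonpositive form is nonpositive. -/
theorem C10_trace {a : Matrix (Fin 4) (Fin 4) ℝ} (ha : a.PosDef) (H : E4 →L[ℝ] E4 →L[ℝ] ℝ)
    (hH : ∀ v, H v v ≤ 0) : ∑ i, ∑ j, a i j * H (bv i) (bv j) ≤ 0 := by
  obtain ⟨m, B, hB⟩ := Matrix.posSemidef_iff_eq_sum_vecMulVec.1 ha.posSemidef
  have h1 : ∀ i j, a i j = ∑ k, B k i * B k j := by
    intro i j
    rw [hB, Matrix.sum_apply]
    simp [Matrix.vecMulVec_apply]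
  have h3 : ∀ k, ∑ i, ∑ j, B k i * B k j * H (bv i) (bv j) =
      H (∑ i, B k i • bv i) (∑ j, B k j • bv j) := by
    intro k
    simp only [map_sum, map_smul, ContinuousLinearMap.sum_apply, ContinuousLinearMap.smul_apply,
      smul_eq_mul, Finset.mul_sum]
    rw [Finset.sum_comm]
    refine Finset.sum_congr rfl fun i _ => Finset.sum_congr rfl fun j _ => ?_
    ring
  have h2 : ∑ i, ∑ j, a i j * H (bv i) (bv j) =
      ∑ k, ∑ i, ∑ j, B k i * B k j * H (bv i) (bv j) := by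
    simp only [h1, Finset.sum_mul]
    rw [Finset.sum_comm' (t' := Finset.univ) (s' := fun _ => Finset.univ) (by simp)]
    rw [Finset.sum_comm]
    symm
    rw [Finset.sum_comm]
    refine Finset.sum_congr rfl fun i _ => ?_
    rw [Finset.sum_comm]
  rw [h2]
  exact Finset.sum_nonpos fun k _ => by rw [h3]; exact hH _

theorem claimMax_proof : claimMax := by
  intro Y _ _ g hc T hT q B M hB hcont hpde h0
  by_contra hcon
  push Not at hcon
  obtain ⟨t1, ht1, y1, hy1⟩ := hcon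
  -- the bump
  let β : ContDiffBump (0 : E4) := ⟨1, 5 / 4, by norm_num, by norm_num⟩
  have hβr : β.rOut = 5 / 4 := rfl
  have hβs : ContDiff ℝ ∞ (fun x : E4 => β x) := β.contDiff
  have hβ1 : ∀ x, β x ≤ 1 := fun x => β.le_one
  have hβ0 : ∀ x, 0 ≤ β x := fun x => β.nonneg
  -- the constant
  have hCj : ∀ j : g.J, ∃ C : ℝ, ∀ t ∈ Icc 0 T, ∀ x ∈ Metric.closedBall (0 : E4) (5 / 4),
      (g.model j).op t (fun x => β x) x ≤ C := by
    intro j
    have hd1 : ∀ i : Fin 4, ContDiff ℝ ∞ (pd i fun x : E4 => β x) := fun i =>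
      (hβs.fderiv_right (by simp)).clm_apply contDiff_const
    have hd2 : ∀ i k : Fin 4, ContDiff ℝ ∞ (pd i (pd k fun x : E4 => β x)) := fun i k =>
      ((hd1 k).fderiv_right (by simp)).clm_apply contDiff_const
    have hcn : Continuous (fun p : ℝ × E4 => (g.model j).op p.1 (fun x => β x) p.2) := by
      unfold Model.op
      have e1 : ∀ i k, Continuous fun p : ℝ × E4 => (g.model j).a p i k :=
        fun i k => ((g.model j).a_smooth i k).continuous
      have e2 : ∀ i, Continuous fun p : ℝ × E4 => (g.model j).b p i :=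
        fun i => ((g.model j).b_smooth i).continuous
      have e3 : Continuous (g.model j).c := (g.model j).c_smooth.continuous
      refine Continuous.add (Continuous.add (Continuous.neg ?_) ?_) ?_
      · refine continuous_finset_sum _ fun i _ => continuous_finset_sum _ fun k _ => ?_
        exact (e1 i k).smul ((hd2 i k).continuous.comp continuous_snd)
      · refine continuous_finset_sum _ fun i _ => ?_
        exact (e2 i).clm_apply ((hd1 i).continuous.comp continuous_snd)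
      · exact e3.clm_apply (hβs.continuous.comp continuous_snd)
    obtain ⟨C, hC⟩ := ((isCompact_Icc (a := (0 : ℝ)) (b := T)).prod
      (isCompact_closedBall (0 : E4) (5 / 4))).bddAbove_image hcn.continuousOn
    refine ⟨C, fun t ht x hx => hC ⟨(t, x), ⟨ht, hx⟩, rfl⟩⟩
  choose Cj hCj using hCj
  obtain ⟨C, hC⟩ : ∃ C : ℝ, 0 < C ∧ ∀ j, Cj j ≤ C := by
    have := g.finJ
    obtain ⟨C, hC⟩ := (Set.finite_range Cj).bddAbove
    exact ⟨max C 1, lt_max_of_lt_right one_pos, fun j => (hC ⟨j, rfl⟩).trans (le_max_left _ _)⟩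
  obtain ⟨hCpos, hC⟩ := hC
  -- epsilon, delta
  set d := q t1 y1 - M with hd
  have hdpos : 0 < d := by linarith
  set ε := d / (2 * T) with hε
  have hεpos : 0 < ε := by positivity
  have hεT : ε * T = d / 2 := by rw [hε]; field_simp
  set δ := min (d / 2) (ε / (2 * C)) with hδ
  have hδpos : 0 < δ := by positivity
  have hδ1 : δ ≤ d / 2 := min_le_left _ _
  have hδ2 : δ * C < ε := by
    have : δ * C ≤ ε / (2 * C) * C := mul_le_mul_of_nonneg_right (min_le_right _ _) hCpos.le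
    have h2 : ε / (2 * C) * C = ε / 2 := by field_simp
    linarith
  -- the supremum
  set A : Set ℝ := {s | ∃ t ∈ Icc 0 T, ∃ y, s = q t y - ε * t} with hA
  have hAb : BddAbove A := by
    refine ⟨B, ?_⟩
    rintro _ ⟨t, ht, y, rfl⟩
    have := hB t ht y
    have h2 : 0 ≤ ε * t := mul_nonneg hεpos.le ht.1
    linarith
  have hA1 : q t1 y1 - ε * t1 ∈ A := ⟨t1, ht1, y1, rfl⟩
  set S := sSup A with hS
  have hSle : ∀ t ∈ Icc 0 T, ∀ y, q t y - ε * t ≤ S := fun t ht y => le_csSup hAb ⟨t, ht, y, rfl⟩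
  have hSM : M + d / 2 ≤ S := by
    have h2 := le_csSup hAb hA1
    have h3 : ε * t1 ≤ ε * T := mul_le_mul_of_nonneg_left ht1.2 hεpos.le
    rw [← hS] at h2
    linarith
  obtain ⟨_, ⟨t2, ht2, y2, rfl⟩, hlt⟩ := exists_lt_of_lt_csSup (s := A) (b := S - δ) ⟨_, hA1⟩
    (by linarith)
  -- the chart
  obtain ⟨i, hi⟩ : ∃ i, (g.psi i).source.indicator
      (fun y => (g.model (g.mod i)).chi (g.psi i y)) y2 ≠ 0 := by
    by_contra hne
    push Not at hne
    have h2 := g.part y2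
    rw [finsum_congr hne, finsum_zero] at h2
    exact zero_ne_one h2
  have hi1 : y2 ∈ (g.psi i).source := by
    by_contra h
    exact hi (Set.indicator_of_notMem h _)
  have hi2 : ‖g.psi i y2‖ < 1 := by
    by_contra h
    apply hi
    rw [Set.indicator_of_mem hi1]
    exact (g.model (g.mod i)).chi_supp _ (not_lt.1 h)
  set x2 := g.psi i y2 with hx2
  have hx2y : (g.psi i).symm x2 = y2 := (g.psi i).left_inv hi1
  -- the maximum
  set f : ℝ × E4 → ℝ := fun p => q p.1 ((g.psi i).symm p.2) - ε * p.1 + δ * β p.2 with hf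
  have hball : Metric.closedBall (0 : E4) (5 / 4) ⊆ Metric.ball 0 (3 / 2) :=
    Metric.closedBall_subset_ball (by norm_num)
  have hfc : ContinuousOn f (Icc 0 T ×ˢ Metric.closedBall (0 : E4) (5 / 4)) := by
    have h1 := (hcont i).mono (Set.prod_mono (Subset.refl (Icc 0 T)) hball)
    refine (h1.sub ?_).add ?_
    · exact (continuous_const.mul continuous_fst).continuousOn
    · exact (continuous_const.mul (hβs.continuous.comp continuous_snd)).continuousOn
  obtain ⟨⟨t3, x3⟩, htx3, hmax⟩ := ((isCompact_Icc (a := (0 : ℝ)) (b := T)).prod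
    (isCompact_closedBall (0 : E4) (5 / 4))).exists_isMaxOn
    ⟨(t2, x2), ht2, by simpa using hi2.le.trans (by norm_num)⟩ hfc
  have ht3 : t3 ∈ Icc 0 T := htx3.1
  have hx3 : x3 ∈ Metric.closedBall (0 : E4) (5 / 4) := htx3.2
  have hβx2 : β x2 = 1 := β.one_of_mem_closedBall (by
    rw [mem_closedBall_zero_iff]; exact hi2.le)
  have hbig : S < f (t3, x3) := by
    have h1 : f (t2, x2) ≤ f (t3, x3) := hmax ⟨ht2, by simpa using hi2.le.trans (by norm_num)⟩
    have h2 : f (t2, x2) = q t2 y2 - ε * t2 + δ := by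
      simp only [hf, hx2y, hβx2, mul_one]
    linarith
  have hfe : f (t3, x3) = q t3 ((g.psi i).symm x3) - ε * t3 + δ * β x3 := rfl
  have hβpos : β x3 ≠ 0 := by
    intro h
    have := hSle t3 ht3 ((g.psi i).symm x3)
    rw [hfe, h] at hbig
    linarith
  have hx3b : x3 ∈ Metric.ball (0 : E4) (5 / 4) := by
    have : x3 ∈ Function.support β := hβpos
    rwa [β.support_eq] at this
  have hx3c : x3 ∈ Metric.ball (0 : E4) (3 / 2) := hball (Metric.ball_subset_closedBall hx3b)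
  have ht3pos : 0 < t3 := by
    rcases ht3.1.lt_or_eq with h | h
    · exact h
    · exfalso
      have h1 := h0 ((g.psi i).symm x3)
      rw [hfe, ← h] at hbig
      have h2 : δ * β x3 ≤ δ := by
        have := mul_le_mul_of_nonneg_left (hβ1 x3) hδpos.le
        linarith
      linarith
  obtain ⟨hc2, q', hq', hqle⟩ := hpde i t3 ⟨ht3pos, ht3.2⟩ x3 hx3c
  -- spatial information
  set u : E4 → ℝ := fun z => q t3 ((g.psi i).symm z) with hu
  have hβ2 : ContDiffAt ℝ 2 (fun x : E4 => β x) x3 := (β.contDiff (n := 2)).contDiffAt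
  set w : E4 → ℝ := fun z => u z + δ * β z with hw
  have hwc : ContDiffAt ℝ 2 w x3 := hc2.add (contDiffAt_const.mul hβ2)
  have hwm : IsLocalMax w x3 := by
    filter_upwards [Metric.isOpen_ball.mem_nhds hx3b] with z hz
    have h1 : f (t3, z) ≤ f (t3, x3) := hmax ⟨ht3, Metric.ball_subset_closedBall hz⟩
    simp only [hf] at h1
    simp only [hw, hu]
    linarith
  have hw1 : fderiv ℝ w x3 = 0 := hwm.fderiv_eq_zero
  have hopw : 0 ≤ (g.mdl i).op t3 w x3 := by
    unfold Model.op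
    have e1 : ∀ k l, pd k (pd l w) x3 = fderiv ℝ (fderiv ℝ w) x3 (bv k) (bv l) :=
      fun k l => C10_pd_pd hwc k l
    have e2 : ∀ k, pd k w x3 = 0 := fun k => by unfold pd; rw [hw1]; rfl
    simp only [e1, e2, map_zero, Finset.sum_const_zero, add_zero, hc,
      ContinuousLinearMap.zero_apply, smul_eq_mul]
    have := C10_trace ((g.mdl i).a_pos (t3, x3)) (fderiv ℝ (fderiv ℝ w) x3)
      (C10_localMax hwc hwm)
    linarith
  have hopadd : (g.mdl i).op t3 w x3 = (g.mdl i).op t3 u x3 +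
      δ * (g.mdl i).op t3 (fun x => β x) x3 := by
    have ed : ∀ᶠ z in 𝓝 x3, ContDiffAt ℝ 2 u z := hc2.eventually (by simp)
    have e0 : ∀ k, pd k w =ᶠ[𝓝 x3] fun z => pd k u z + δ * pd k (fun x => β x) z := by
      intro k
      filter_upwards [ed] with z hz
      unfold pd
      have h1 : HasFDerivAt w (fderiv ℝ u z + δ • fderiv ℝ (fun x => β x) z) z := by
        have a1 := (hz.differentiableAt (by norm_num)).hasFDerivAt
        have a2 := ((hβs.differentiable (by simp)) z).hasFDerivAt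
        exact a1.add (a2.const_mul δ)
      rw [h1.fderiv]
      simp
    have e1 : ∀ k, pd k w x3 = pd k u x3 + δ * pd k (fun x => β x) x3 := fun k =>
      (e0 k).self_of_nhds
    have e2 : ∀ k l, pd k (pd l w) x3 = pd k (pd l u) x3 + δ * pd k (pd l fun x => β x) x3 := by
      intro k l
      rw [C10_pd_pd hwc, C10_pd_pd hc2, C10_pd_pd hβ2]
      have h1 : fderiv ℝ w =ᶠ[𝓝 x3] fun z => fderiv ℝ u z + δ • fderiv ℝ (fun x => β x) z := by
        filter_upwards [ed] with z hz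
        have a1 := (hz.differentiableAt (by norm_num)).hasFDerivAt
        have a2 := ((hβs.differentiable (by simp)) z).hasFDerivAt
        exact (a1.add (a2.const_mul δ)).fderiv
      rw [h1.fderiv_eq]
      have b1 : DifferentiableAt ℝ (fderiv ℝ u) x3 :=
        (hc2.fderiv_right (m := 1) (by norm_num)).differentiableAt (by norm_num)
      have b2 : DifferentiableAt ℝ (fderiv ℝ fun x => β x) x3 :=
        (hβ2.fderiv_right (m := 1) (by norm_num)).differentiableAt (by norm_num)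
      have b3 : HasFDerivAt (fun z => fderiv ℝ u z + δ • fderiv ℝ (fun x => β x) z)
          (fderiv ℝ (fderiv ℝ u) x3 + δ • fderiv ℝ (fderiv ℝ fun x => β x) x3) x3 :=
        b1.hasFDerivAt.add (b2.hasFDerivAt.const_smul δ)
      rw [b3.fderiv]
      simp
    unfold Model.op
    simp only [e1, e2, hc, ContinuousLinearMap.zero_apply, smul_eq_mul, map_add, mul_add,
      Finset.sum_add_distrib, add_zero]
    have e3 : ∀ (L : ℝ →L[ℝ] ℝ) (s : ℝ), L (δ * s) = δ * L s := by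
      intro L s
      have := L.map_smul δ s
      simpa using this
    simp only [e3]
    have e4 : ∑ x, ∑ y, (g.mdl i).a (t3, x3) x y * (δ * pd x (pd y fun x => β x) x3) =
        δ * ∑ x, ∑ y, (g.mdl i).a (t3, x3) x y * pd x (pd y fun x => β x) x3 := by
      simp only [Finset.mul_sum]
      refine Finset.sum_congr rfl fun k _ => Finset.sum_congr rfl fun l _ => ?_
      ring
    rw [e4, ← Finset.mul_sum]
    ring
  have hopβ : (g.mdl i).op t3 (fun x => β x) x3 ≤ C :=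
    (hCj (g.mod i) t3 ht3 x3 hx3).trans (hC _)
  -- time derivative
  have hq'ε : ε ≤ q' := by
    have h1 : HasDerivWithinAt (fun s => q s ((g.psi i).symm x3) - ε * s) (q' - ε) (Iic t3) t3 := by
      have h8 : HasDerivWithinAt (fun s : ℝ => ε * s) ε (Iic t3) t3 := by
        have := ((hasDerivAt_id t3).const_mul ε).hasDerivWithinAt (s := Iic t3)
        simpa using this
      exact hq'.sub h8
    have h2 : 0 ≤ q' - ε := by
      rw [hasDerivWithinAt_iff_tendsto_slope] at h1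
      have hne : (𝓝[Iic t3 \ {t3}] t3).NeBot := by
        have : Iic t3 \ {t3} = Iio t3 := by
          ext s; simp [lt_iff_le_and_ne]
        rw [this]; infer_instance
      refine ge_of_tendsto h1 ?_
      have hev : ∀ᶠ s in 𝓝[Iic t3 \ {t3}] t3, 0 < s :=
        nhdsWithin_le_nhds (lt_mem_nhds ht3pos)
      filter_upwards [hev, self_mem_nhdsWithin] with s hs1 hs2
      have hs3 : s < t3 := lt_of_le_of_ne hs2.1 hs2.2
      have h3 : f (s, x3) ≤ f (t3, x3) := hmax ⟨⟨hs1.le, hs3.le.trans ht3.2⟩, hx3⟩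
      simp only [hf] at h3
      rw [slope_def_field]
      apply div_nonneg_of_nonpos
      · linarith
      · linarith
    linarith
  have h7 : δ * (g.mdl i).op t3 (fun x => β x) x3 ≤ δ * C :=
    mul_le_mul_of_nonneg_left hopβ hδpos.le
  linarith

end NRF

end
end

section

open scoped Manifold ContDiff Topology
open MeasureTheory Set

noncomputable section

namespace NRF

/-! # Item C3: existence of the formal heat parametrix (needs claimTay and claimInv) -/

section poly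

variable {W : Type} [NormedAddCommGroup W] [NormedSpace ℝ W]
variable {W' : Type} [NormedAddCommGroup W'] [NormedSpace ℝ W']
variable {W'' : Type} [NormedAddCommGroup W''] [NormedSpace ℝ W'']

theorem C3_mono (α : Fin 4 → ℕ) (f : ℝ × E4 → W) (hf : ContDiff ℝ ∞ f) :
    IsPoly (fun s y z => (∏ i, z i ^ α i) • f (s, y)) :=
  ⟨{α}, fun _ => f, fun _ => hf, fun s y z => by simp⟩

theorem C3_add {P Q : ℝ → E4 → E4 → W} (hP : IsPoly P) (hQ : IsPoly Q) :
    IsPoly (fun s y z => P s y z + Q s y z) := by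
  classical
  obtain ⟨A, p, hp, hP⟩ := hP
  obtain ⟨B, q, hq, hQ⟩ := hQ
  refine ⟨A ∪ B, fun α => (fun x => (if α ∈ A then p α x else 0) + (if α ∈ B then q α x else 0)),
    ?_, ?_⟩
  · intro α
    refine ContDiff.add ?_ ?_
    · by_cases h : α ∈ A
      · simpa [h] using hp α
      · simpa [h] using contDiff_const
    · by_cases h : α ∈ B
      · simpa [h] using hq α
      · simpa [h] using contDiff_const
  · intro s y z
    simp only [smul_add, Finset.sum_add_distrib, smul_ite, smul_zero]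
    rw [Finset.sum_ite_mem, Finset.sum_ite_mem, Finset.union_inter_cancel_left,
      Finset.union_inter_cancel_right, hP, hQ]

theorem C3_zero : IsPoly (fun _ _ _ => (0 : W)) :=
  ⟨∅, fun _ => 0, fun _ => contDiff_const, fun s y z => by simp⟩

theorem C3_sum {ι : Type} (S : Finset ι) {P : ι → ℝ → E4 → E4 → W}
    (h : ∀ i ∈ S, IsPoly (P i)) : IsPoly (fun s y z => ∑ i ∈ S, P i s y z) := by
  classical
  induction S using Finset.induction_on with
  | empty => simpa using C3_zero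
  | insert a S ha ih =>
    have := C3_add (h a (Finset.mem_insert_self a S))
      (ih fun i hi => h i (Finset.mem_insert_of_mem hi))
    simpa [Finset.sum_insert ha] using this

theorem C3_map (L : W →L[ℝ] W') {P : ℝ → E4 → E4 → W} (hP : IsPoly P) :
    IsPoly (fun s y z => L (P s y z)) := by
  obtain ⟨A, p, hp, hP⟩ := hP
  refine ⟨A, fun α x => L (p α x), fun α => L.contDiff.comp (hp α), fun s y z => ?_⟩
  show L (P s y z) = _
  rw [hP, map_sum]
  simp

theorem C3_bilin (B : W →L[ℝ] W' →L[ℝ] W'') {P : ℝ → E4 → E4 → W} {Q : ℝ → E4 → E4 → W'}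
    (hP : IsPoly P) (hQ : IsPoly Q) : IsPoly (fun s y z => B (P s y z) (Q s y z)) := by
  obtain ⟨A, p, hp, hP⟩ := hP
  obtain ⟨A', q, hq, hQ⟩ := hQ
  have key : (fun (s : ℝ) (y z : E4) => B (P s y z) (Q s y z)) = fun s y z =>
      ∑ α ∈ A, ∑ β ∈ A', (∏ i, z i ^ (α + β) i) • (fun x => B (p α x) (q β x)) (s, y) := by
    funext s y z
    rw [hP, hQ]
    simp only [map_sum, sum_apply, map_smul, smul_apply,
      Pi.add_apply, pow_add, Finset.prod_mul_distrib, Finset.smul_sum, smul_smul]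
    rw [Finset.sum_comm]
    refine Finset.sum_congr rfl fun α _ => Finset.sum_congr rfl fun β _ => ?_
    rw [mul_comm]
  rw [key]
  refine C3_sum A fun α _ => C3_sum A' fun β _ => ?_
  exact C3_mono (α + β) (fun x => B (p α x) (q β x))
    (B.isBoundedBilinearMap.contDiff.comp₂ (hp α) (hq β))

theorem C3_coef {f : ℝ × E4 → W} (hf : ContDiff ℝ ∞ f) : IsPoly (fun s y _ => f (s, y)) := by
  have := C3_mono 0 f hf
  simpa using this

theorem C3_coord (k : Fin 4) : IsPoly (fun _ _ z => (z k : ℝ)) := by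
  classical
  have := C3_mono (Pi.single k 1) (fun _ => (1 : ℝ)) contDiff_const
  refine (by simpa using this : IsPoly fun (_ : ℝ) (_ : E4) (z : E4) =>
    (∏ i, z i ^ (Pi.single k 1 : Fin 4 → ℕ) i)) |> fun h => ?_
  obtain ⟨A, p, hp, h⟩ := h
  refine ⟨A, p, hp, fun s y z => ?_⟩
  rw [← h s y z]
  show z k = ∏ i, z i ^ (Pi.single k 1 : Fin 4 → ℕ) i
  rw [Finset.prod_eq_single k]
  · simp
  · intro i _ hi
    simp [Pi.single_eq_of_ne hi]
  · simp

theorem C3_smul {P : ℝ → E4 → E4 → ℝ} {Q : ℝ → E4 → E4 → W} (hP : IsPoly P) (hQ : IsPoly Q) :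
    IsPoly (fun s y z => P s y z • Q s y z) :=
  C3_bilin (ContinuousLinearMap.lsmul ℝ ℝ) hP hQ

theorem C3_smooth {P : ℝ → E4 → E4 → W} (hP : IsPoly P) (s : ℝ) (y : E4) :
    ContDiff ℝ ∞ (P s y) := by
  obtain ⟨A, p, hp, hP⟩ := hP
  have : P s y = fun z => ∑ α ∈ A, (∏ i, z i ^ α i) • p α (s, y) := by
    funext z; exact hP s y z
  rw [this]
  refine ContDiff.sum fun α _ => ContDiff.smul (contDiff_prod fun i _ => ?_) contDiff_const
  exact ((EuclideanSpace.proj i : E4 →L[ℝ] ℝ).contDiff).pow _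

theorem C3_monoD (α : Fin 4 → ℕ) (w : W) (k : Fin 4) (z : E4) :
    pd k (fun z => (∏ i, z i ^ α i) • w) z =
      (∏ i, z i ^ (Function.update α k (α k - 1)) i) • ((α k : ℝ) • w) := by
  unfold pd
  have h1 : ∀ i : Fin 4, HasFDerivAt (fun z : E4 => z i ^ α i)
      (((α i : ℝ) * z i ^ (α i - 1)) • (EuclideanSpace.proj i : E4 →L[ℝ] ℝ)) z := by
    intro i
    have := ((EuclideanSpace.proj i : E4 →L[ℝ] ℝ).hasFDerivAt (x := z)).pow (α i)
    simpa [nsmul_eq_mul, mul_comm, mul_left_comm] using this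
  have h2 := HasFDerivAt.finsetProd (u := Finset.univ) (g := fun i (z : E4) => z i ^ α i)
    (fun i _ => h1 i)
  have h3 := h2.smul_const w
  rw [h3.fderiv]
  simp only [ContinuousLinearMap.smulRight_apply, sum_apply,
    smul_apply, smul_eq_mul]
  rw [Finset.sum_eq_single k]
  · rw [← Finset.mul_prod_erase Finset.univ (fun i => z i ^ (Function.update α k (α k - 1)) i)
      (Finset.mem_univ k)]
    have : ∏ x ∈ Finset.univ.erase k, z x ^ (Function.update α k (α k - 1)) x =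
        ∏ x ∈ Finset.univ.erase k, z x ^ α x := by
      refine Finset.prod_congr rfl fun x hx => ?_
      rw [Function.update_of_ne (Finset.ne_of_mem_erase hx)]
    rw [this]
    simp [bv, smul_smul]
    ring_nf
  · intro b _ hb
    simp [bv, hb]
  · simp

theorem C3_pd {P : ℝ → E4 → E4 → W} (hP : IsPoly P) (k : Fin 4) :
    IsPoly (fun s y z => pd k (P s y) z) := by
  obtain ⟨A, p, hp, hP⟩ := hP
  have : (fun s y z => pd k (P s y) z) = fun s y z => ∑ α ∈ A,
      (∏ i, z i ^ (Function.update α k (α k - 1)) i) • (fun x => (α k : ℝ) • p α x) (s, y) := by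
    funext s y z
    have h : P s y = fun z => ∑ α ∈ A, (∏ i, z i ^ α i) • p α (s, y) := by
      funext z; exact hP s y z
    rw [h]
    unfold pd
    rw [fderiv_fun_sum, sum_apply]
    · refine Finset.sum_congr rfl fun α _ => ?_
      exact C3_monoD α (p α (s, y)) k z
    · intro α _
      refine DifferentiableAt.smul_const ?_ _
      have : ContDiff ℝ ∞ (fun z : E4 => ∏ i, z i ^ α i) := contDiff_prod fun i _ =>
        ((EuclideanSpace.proj i : E4 →L[ℝ] ℝ).contDiff).pow _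
      exact (this.differentiable (by simp)).differentiableAt
  rw [this]
  exact C3_sum A fun α _ => C3_mono _ _ (contDiff_const.smul (hp α))

end poly

section gauss

variable {W : Type} [NormedAddCommGroup W] [NormedSpace ℝ W]

/-- The linear form `z ↦ (a⁻¹ z)_i`. -/
def C3_L (a : Matrix (Fin 4) (Fin 4) ℝ) (i : Fin 4) (z : E4) : ℝ := ∑ j, a⁻¹ i j * z j

/-- The quadratic form of `a⁻¹`. -/
def C3_q (a : Matrix (Fin 4) (Fin 4) ℝ) (z : E4) : ℝ := ∑ i, ∑ j, a⁻¹ i j * z i * z j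

/-- The conjugated derivative `∂_i - (a⁻¹ z)_i / 2`. -/
def C3_D (a : Matrix (Fin 4) (Fin 4) ℝ) (i : Fin 4) (P : E4 → W) (z : E4) : W :=
  pd i P z - ((1 / 2 : ℝ) * C3_L a i z) • P z

theorem C3_hasFDerivAt_coord (i : Fin 4) (z : E4) :
    HasFDerivAt (fun z : E4 => z i) (EuclideanSpace.proj i : E4 →L[ℝ] ℝ) z :=
  (EuclideanSpace.proj i : E4 →L[ℝ] ℝ).hasFDerivAt

theorem C3_inv_symm {a : Matrix (Fin 4) (Fin 4) ℝ} (ha : a.PosDef) (i j : Fin 4) :
    a⁻¹ i j = a⁻¹ j i := by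
  have h := ha.inv.isHermitian
  have := congrFun (congrFun h.eq i) j
  simpa [Matrix.conjTranspose_apply] using this.symm

theorem C3_symm {a : Matrix (Fin 4) (Fin 4) ℝ} (ha : a.PosDef) (i j : Fin 4) :
    a i j = a j i := by
  have h := ha.isHermitian
  have := congrFun (congrFun h.eq i) j
  simpa [Matrix.conjTranspose_apply] using this.symm

theorem C3_q_deriv {a : Matrix (Fin 4) (Fin 4) ℝ} (ha : a.PosDef) (z : E4) :
    HasFDerivAt (C3_q a) (∑ i, (2 * C3_L a i z) • (EuclideanSpace.proj i : E4 →L[ℝ] ℝ)) z := by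
  have h : ∀ i j : Fin 4, HasFDerivAt (fun z : E4 => a⁻¹ i j * z i * z j)
      ((a⁻¹ i j * z i) • (EuclideanSpace.proj j : E4 →L[ℝ] ℝ) +
        z j • (a⁻¹ i j • (EuclideanSpace.proj i : E4 →L[ℝ] ℝ))) z := by
    intro i j
    exact ((C3_hasFDerivAt_coord i z).const_mul (a⁻¹ i j)).mul (C3_hasFDerivAt_coord j z)
  have h2 : HasFDerivAt (C3_q a) (∑ i, ∑ j, ((a⁻¹ i j * z i) • (EuclideanSpace.proj j : E4 →L[ℝ] ℝ) +
        z j • (a⁻¹ i j • (EuclideanSpace.proj i : E4 →L[ℝ] ℝ)))) z := by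
    unfold C3_q
    exact HasFDerivAt.fun_sum fun i _ => HasFDerivAt.fun_sum fun j _ => h i j
  convert h2 using 1
  simp only [Finset.sum_add_distrib]
  rw [Finset.sum_comm (f := fun i j => (a⁻¹ i j * z i) • (EuclideanSpace.proj j : E4 →L[ℝ] ℝ)),
    ← Finset.sum_add_distrib]
  refine Finset.sum_congr rfl fun i _ => ?_
  rw [← Finset.sum_add_distrib]
  unfold C3_L
  rw [Finset.mul_sum, Finset.sum_smul]
  refine Finset.sum_congr rfl fun j _ => ?_
  rw [C3_inv_symm ha j i, smul_smul, ← add_smul]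
  congr 1
  ring

theorem C3_gauss_eq (a : Matrix (Fin 4) (Fin 4) ℝ) (z : E4) :
    gaussK a z = ((4 * Real.pi) ^ 2 * Real.sqrt a.det)⁻¹ * Real.exp (-(C3_q a z) / 4) := rfl

theorem C3_gauss_deriv {a : Matrix (Fin 4) (Fin 4) ℝ} (ha : a.PosDef) (z : E4) :
    HasFDerivAt (gaussK a)
      (∑ i, (-(1 / 2) * C3_L a i z * gaussK a z) • (EuclideanSpace.proj i : E4 →L[ℝ] ℝ)) z := by
  have h1 : HasFDerivAt (fun x => (-(1 / 4) : ℝ) * C3_q a x) ((-(1 / 4) : ℝ) •
      ∑ i, (2 * C3_L a i z) • (EuclideanSpace.proj i : E4 →L[ℝ] ℝ)) z :=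
    (C3_q_deriv ha z).const_mul _
  have h := (h1.exp).const_mul ((4 * Real.pi) ^ 2 * Real.sqrt a.det)⁻¹
  have hf : gaussK a = fun x => ((4 * Real.pi) ^ 2 * Real.sqrt a.det)⁻¹ *
      Real.exp (-(1 / 4) * C3_q a x) := by
    funext x
    rw [C3_gauss_eq]
    ring_nf
  rw [hf]
  refine h.congr_fderiv ?_
  rw [Finset.smul_sum, Finset.smul_sum, Finset.smul_sum]
  refine Finset.sum_congr rfl fun i _ => ?_
  rw [smul_smul, smul_smul, smul_smul]
  congr 1
  ring_nf

theorem C3_gauss_smooth {a : Matrix (Fin 4) (Fin 4) ℝ} : ContDiff ℝ ∞ (gaussK a) := by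
  have h1 : ContDiff ℝ ∞ (C3_q a) := by
    unfold C3_q
    refine ContDiff.sum fun i _ => ContDiff.sum fun j _ => ?_
    exact (contDiff_const.mul (EuclideanSpace.proj i : E4 →L[ℝ] ℝ).contDiff).mul
      (EuclideanSpace.proj j : E4 →L[ℝ] ℝ).contDiff
  have : gaussK a = fun z => ((4 * Real.pi) ^ 2 * Real.sqrt a.det)⁻¹ *
      Real.exp (-(C3_q a z) / 4) := rfl
  rw [this]
  exact contDiff_const.mul ((h1.neg.div_const 4).exp)

theorem C3_L_smooth (a : Matrix (Fin 4) (Fin 4) ℝ) (i : Fin 4) : ContDiff ℝ ∞ (C3_L a i) := by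
  unfold C3_L
  exact ContDiff.sum fun j _ => contDiff_const.mul (EuclideanSpace.proj j : E4 →L[ℝ] ℝ).contDiff

theorem C3_fderiv_gauss {a : Matrix (Fin 4) (Fin 4) ℝ} (ha : a.PosDef) {P : E4 → W} {z : E4}
    (hP : DifferentiableAt ℝ P z) (v : E4) :
    fderiv ℝ (fun x => gaussK a x • P x) z v =
      gaussK a z • (fderiv ℝ P z v - ((1 / 2 : ℝ) * ∑ i, C3_L a i z * v i) • P z) := by
  have h : fderiv ℝ (fun x => gaussK a x • P x) z = _ :=
    ((C3_gauss_deriv ha z).smul hP.hasFDerivAt).fderiv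
  rw [h]
  simp only [add_apply, smul_apply, ContinuousLinearMap.smulRight_apply,
    sum_apply, PiLp.proj_apply, smul_eq_mul, smul_sub, smul_smul]
  rw [sub_eq_add_neg, ← neg_smul]
  congr 2
  rw [Finset.mul_sum, Finset.mul_sum, ← Finset.sum_neg_distrib]
  refine Finset.sum_congr rfl fun i _ => ?_
  ring

theorem C3_pd_gauss {a : Matrix (Fin 4) (Fin 4) ℝ} (ha : a.PosDef) {P : E4 → W} {z : E4}
    (hP : DifferentiableAt ℝ P z) (k : Fin 4) :
    pd k (fun x => gaussK a x • P x) z = gaussK a z • C3_D a k P z := by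
  unfold pd C3_D
  rw [C3_fderiv_gauss ha hP]
  congr 4
  simp [bv]

theorem C3_pd_smooth {P : E4 → W} (hP : ContDiff ℝ ∞ P) (k : Fin 4) : ContDiff ℝ ∞ (pd k P) := by
  unfold pd
  exact (hP.fderiv_right (m := ∞) (by simp)).clm_apply contDiff_const

theorem C3_D_smooth {a : Matrix (Fin 4) (Fin 4) ℝ} {P : E4 → W} (hP : ContDiff ℝ ∞ P)
    (k : Fin 4) : ContDiff ℝ ∞ (C3_D a k P) := by
  unfold C3_D
  exact (C3_pd_smooth hP k).sub ((contDiff_const.mul (C3_L_smooth a k)).smul hP)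

theorem C3_diff {P : E4 → W} (hP : ContDiff ℝ ∞ P) (z : E4) : DifferentiableAt ℝ P z :=
  (hP.differentiable (by simp)).differentiableAt

theorem C3_pd2_gauss {a : Matrix (Fin 4) (Fin 4) ℝ} (ha : a.PosDef) {P : E4 → W} (z : E4)
    (hP : ContDiff ℝ ∞ P) (i j : Fin 4) :
    pd i (pd j (fun x => gaussK a x • P x)) z = gaussK a z • C3_D a i (C3_D a j P) z := by
  have h : pd j (fun x => gaussK a x • P x) = fun x => gaussK a x • C3_D a j P x := by
    funext x
    exact C3_pd_gauss ha (C3_diff hP x) j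
  rw [h]
  exact C3_pd_gauss ha (C3_diff (C3_D_smooth hP j) z) i

theorem C3_DD {a : Matrix (Fin 4) (Fin 4) ℝ} {P : E4 → W} (z : E4)
    (hP : ContDiff ℝ ∞ P) (i j : Fin 4) :
    C3_D a i (C3_D a j P) z = pd i (pd j P) z - ((1 / 2 : ℝ) * a⁻¹ j i) • P z
      - ((1 / 2 : ℝ) * C3_L a j z) • pd i P z - ((1 / 2 : ℝ) * C3_L a i z) • pd j P z
      + ((1 / 4 : ℝ) * (C3_L a i z * C3_L a j z)) • P z := by
  have h1 : pd i (C3_D a j P) z = pd i (pd j P) z - (((1 / 2 : ℝ) * C3_L a j z) • pd i P z +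
      ((1 / 2 : ℝ) * a⁻¹ j i) • P z) := by
    unfold C3_D
    have hL : HasFDerivAt (fun x => (1 / 2 : ℝ) * C3_L a j x)
        ((1 / 2 : ℝ) • ∑ k, a⁻¹ j k • (EuclideanSpace.proj k : E4 →L[ℝ] ℝ)) z := by
      refine HasFDerivAt.const_mul ?_ _
      unfold C3_L
      exact HasFDerivAt.fun_sum fun k _ => (C3_hasFDerivAt_coord k z).const_mul _
    have h2 := ((C3_diff (C3_pd_smooth hP j) z).hasFDerivAt).sub
      (hL.smul (C3_diff hP z).hasFDerivAt)
    show fderiv ℝ (fun x => pd j P x - ((1 / 2 : ℝ) * C3_L a j x) • P x) z (bv i) = _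
    have h3 : fderiv ℝ (fun x => pd j P x - ((1 / 2 : ℝ) * C3_L a j x) • P x) z = _ := h2.fderiv
    rw [h3]
    simp only [sub_apply, add_apply, smul_apply, ContinuousLinearMap.smulRight_apply,
      sum_apply, PiLp.proj_apply, smul_eq_mul]
    unfold pd
    congr 3
    simp [bv]
  have h0 : C3_D a i (C3_D a j P) z = pd i (C3_D a j P) z -
    ((1 / 2 : ℝ) * C3_L a i z) • (pd j P z - ((1 / 2 : ℝ) * C3_L a j z) • P z) := rfl
  rw [h0, h1, smul_sub, smul_smul]
  have : (1 / 2 : ℝ) * C3_L a i z * (1 / 2 * C3_L a j z) = 1 / 4 * (C3_L a i z * C3_L a j z) := by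
    ring
  rw [this]
  abel

theorem C3_vec (z : E4) : z = ∑ i, z i • bv i := by
  ext k
  simp [bv, Pi.single_apply]

theorem C3_aL {a : Matrix (Fin 4) (Fin 4) ℝ} (ha : a.PosDef) (i : Fin 4) (z : E4) :
    ∑ j, a i j * C3_L a j z = z i := by
  have hdet : IsUnit a.det := (ha.det_pos.ne').isUnit
  have h := Matrix.mul_nonsing_inv a hdet
  unfold C3_L
  simp only [Finset.mul_sum]
  rw [Finset.sum_comm]
  have : ∀ k, ∑ j, a i j * (a⁻¹ j k * z k) = (1 : Matrix (Fin 4) (Fin 4) ℝ) i k * z k := by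
    intro k
    rw [← h, Matrix.mul_apply, Finset.sum_mul]
    exact Finset.sum_congr rfl fun j _ => by ring
  rw [Finset.sum_congr rfl fun k _ => this k]
  simp [Matrix.one_apply]

theorem C3_tr {a : Matrix (Fin 4) (Fin 4) ℝ} (ha : a.PosDef) :
    ∑ i, ∑ j, a i j * a⁻¹ j i = 4 := by
  have hdet : IsUnit a.det := (ha.det_pos.ne').isUnit
  have h := Matrix.mul_nonsing_inv a hdet
  have h2 : ∀ i, ∑ j, a i j * a⁻¹ j i = 1 := by
    intro i
    rw [← Matrix.mul_apply, h]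
    simp
  simp [h2]

theorem C3_sumDD {a : Matrix (Fin 4) (Fin 4) ℝ} (ha : a.PosDef) {P : E4 → W} (z : E4)
    (hP : ContDiff ℝ ∞ P) :
    ∑ i, ∑ j, a i j • C3_D a i (C3_D a j P) z =
      (∑ i, ∑ j, a i j • pd i (pd j P) z) - (2 : ℝ) • P z - fderiv ℝ P z z +
        ((1 / 4 : ℝ) * ∑ i, C3_L a i z * z i) • P z := by
  have hz : fderiv ℝ P z z = ∑ i, z i • pd i P z := by
    conv_lhs => rw [C3_vec z]
    rw [map_sum]
    refine Finset.sum_congr rfl fun i _ => ?_
    rw [map_smul]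
    rw [← C3_vec z]
    rfl
  simp only [C3_DD z hP, smul_add, smul_sub, Finset.sum_add_distrib, Finset.sum_sub_distrib,
    smul_smul]
  have e1 : ∑ i, ∑ j, (a i j * (1 / 2 * a⁻¹ j i)) • P z = (2 : ℝ) • P z := by
    simp only [← Finset.sum_smul]
    congr 1
    have := C3_tr ha
    have h2 : ∑ i, ∑ j, a i j * (1 / 2 * a⁻¹ j i) = (1 / 2) * ∑ i, ∑ j, a i j * a⁻¹ j i := by
      simp only [Finset.mul_sum]
      exact Finset.sum_congr rfl fun i _ => Finset.sum_congr rfl fun j _ => by ring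
    rw [h2, this]; norm_num
  have e2 : ∑ i, ∑ j, (a i j * (1 / 2 * C3_L a j z)) • pd i P z =
      (1 / 2 : ℝ) • ∑ i, z i • pd i P z := by
    rw [Finset.smul_sum]
    refine Finset.sum_congr rfl fun i _ => ?_
    rw [← Finset.sum_smul, smul_smul]
    congr 1
    rw [← C3_aL ha i z, Finset.mul_sum]
    exact Finset.sum_congr rfl fun j _ => by ring
  have e3 : ∑ i, ∑ j, (a i j * (1 / 2 * C3_L a i z)) • pd j P z =
      (1 / 2 : ℝ) • ∑ i, z i • pd i P z := by
    rw [Finset.sum_comm, Finset.smul_sum]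
    refine Finset.sum_congr rfl fun i _ => ?_
    rw [← Finset.sum_smul, smul_smul]
    congr 1
    rw [← C3_aL ha i z, Finset.mul_sum]
    exact Finset.sum_congr rfl fun j _ => by rw [C3_symm ha j i]; ring
  have e4 : ∑ i, ∑ j, (a i j * (1 / 4 * (C3_L a i z * C3_L a j z))) • P z =
      ((1 / 4 : ℝ) * ∑ i, C3_L a i z * z i) • P z := by
    simp only [← Finset.sum_smul]
    congr 1
    rw [Finset.mul_sum]
    refine Finset.sum_congr rfl fun i _ => ?_
    rw [← C3_aL ha i z, Finset.mul_sum, Finset.mul_sum]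
    exact Finset.sum_congr rfl fun j _ => by ring
  rw [e1, e2, e3, e4, hz]
  have : ∑ i, z i • pd i P z = (1 / 2 : ℝ) • (∑ i, z i • pd i P z) +
      (1 / 2 : ℝ) • ∑ i, z i • pd i P z := by
    rw [← add_smul]; norm_num
  conv_rhs => rw [this]
  abel

/-- The conjugated operator. -/
theorem C3_conj {a : Matrix (Fin 4) (Fin 4) ℝ} (ha : a.PosDef) {P : E4 → W} (z : E4)
    (hP : ContDiff ℝ ∞ P) (w : ℝ) :
    (1 / 2 : ℝ) • ((w - 4) • (gaussK a z • P z)
        - fderiv ℝ (fun x => gaussK a x • P x) z z)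
      - (∑ i, ∑ j, a i j • pd i (pd j fun x => gaussK a x • P x) z) =
    gaussK a z • ((1 / 2 : ℝ) • (w • P z + fderiv ℝ P z z)
        - (∑ i, ∑ j, a i j • pd i (pd j P) z)) := by
  have h1 : ∑ i, ∑ j, a i j • pd i (pd j fun x => gaussK a x • P x) z =
      gaussK a z • ∑ i, ∑ j, a i j • C3_D a i (C3_D a j P) z := by
    rw [Finset.smul_sum]
    refine Finset.sum_congr rfl fun i _ => ?_
    rw [Finset.smul_sum]
    refine Finset.sum_congr rfl fun j _ => ?_
    rw [C3_pd2_gauss ha z hP, smul_comm]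
  rw [h1, C3_sumDD ha z hP, C3_fderiv_gauss ha (C3_diff hP z)]
  generalize (∑ i, ∑ j, a i j • pd i (pd j P) z) = X
  generalize fderiv ℝ P z z = Y
  generalize (∑ i, C3_L a i z * z i) = c
  generalize P z = p
  module

end gauss

section formal

variable {W : Type} [NormedAddCommGroup W] [NormedSpace ℝ W]

theorem C3_det_smooth {A : ℝ × E4 → Matrix (Fin 4) (Fin 4) ℝ}
    (hA : ∀ i j, ContDiff ℝ ∞ fun q => A q i j) : ContDiff ℝ ∞ fun q => (A q).det := by
  simp only [Matrix.det_apply]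
  refine ContDiff.sum fun σ _ => ?_
  exact (contDiff_prod fun i _ => hA _ _).const_smul _

theorem C3_inv_smooth {A : ℝ × E4 → Matrix (Fin 4) (Fin 4) ℝ}
    (hA : ∀ i j, ContDiff ℝ ∞ fun q => A q i j) (hpos : ∀ q, (A q).PosDef) (i j : Fin 4) :
    ContDiff ℝ ∞ fun q => (A q)⁻¹ i j := by
  have h1 : (fun q => (A q)⁻¹ i j) = fun q => ((A q).det)⁻¹ *
      ((A q).updateRow j (Pi.single i 1)).det := by
    funext q
    rw [Matrix.inv_def, Matrix.smul_apply, Matrix.adjugate_apply, Ring.inverse_eq_inv', smul_eq_mul]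
  rw [h1]
  refine ((C3_det_smooth hA).inv fun q => (hpos q).det_pos.ne').mul (C3_det_smooth fun k l => ?_)
  by_cases h : k = j
  · subst h
    simpa [Matrix.updateRow_self] using contDiff_const
  · simpa [Matrix.updateRow_ne h] using hA k l

variable {V : Type} [NormedAddCommGroup V] [InnerProductSpace ℝ V]

theorem C3_L_poly (m : Model V) (i : Fin 4) : IsPoly (fun s y z => C3_L (m.a (s, y)) i z) := by
  unfold C3_L
  refine C3_sum Finset.univ fun j _ => ?_
  exact C3_smul (C3_coef (C3_inv_smooth m.a_smooth m.a_pos i j)) (C3_coord j)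

theorem C3_D_poly (m : Model V) {P : ℝ → E4 → E4 → W} (hP : IsPoly P) (k : Fin 4) :
    IsPoly (fun s y z => C3_D (m.a (s, y)) k (P s y) z) := by
  unfold C3_D
  have h1 := C3_pd hP k
  have h2 := C3_smul (C3_map (((-(1 / 2) : ℝ)) • ContinuousLinearMap.id ℝ ℝ) (C3_L_poly m k)) hP
  have h3 := C3_add h1 h2
  have : (fun s y z => pd k (P s y) z - ((1 / 2 : ℝ) * C3_L (m.a (s, y)) k z) • P s y z) =
      fun s y z => pd k (P s y) z + (((-(1 / 2) : ℝ)) • ContinuousLinearMap.id ℝ ℝ)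
        (C3_L (m.a (s, y)) k z) • P s y z := by
    funext s y z
    simp only [smul_apply, ContinuousLinearMap.id_apply, smul_eq_mul]
    rw [sub_eq_add_neg, ← neg_smul]
    congr 2
    ring
  rw [this]
  exact h3

/-- The bracket of the recursion. -/
def C3_T (m : Model V) (j : ℕ) (P : ℝ → E4 → E4 → (V →L[ℝ] V)) (s : ℝ) (y z : E4) : V →L[ℝ] V :=
  -(∑ i, ∑ l, tayC (fun q => m.a q i l) j s y z •
      C3_D (m.a (s, y)) i (C3_D (m.a (s, y)) l (P s y)) z)
  + (∑ i, (tayC (fun q => m.b q i) (j - 1) s y z).comp (C3_D (m.a (s, y)) i (P s y) z))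
  + (if 2 ≤ j then (tayC m.c (j - 2) s y z).comp (P s y z) else 0)

theorem C3_opTay (m : Model V) (j : ℕ) (P : ℝ → E4 → E4 → (V →L[ℝ] V)) (hP : IsPoly P)
    (s : ℝ) (y z : E4) :
    m.opTay j (fun x => gaussK (m.a (s, y)) x • P s y x) s y z =
      gaussK (m.a (s, y)) z • C3_T m j P s y z := by
  have ha := m.a_pos (s, y)
  have hs := C3_smooth hP s y
  unfold Model.opTay C3_T
  simp only [C3_pd2_gauss ha z hs, C3_pd_gauss ha (C3_diff hs z)]
  rw [smul_add, smul_add, smul_neg, Finset.smul_sum, Finset.smul_sum]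
  congr 1
  · congr 1
    · congr 1
      refine Finset.sum_congr rfl fun i _ => ?_
      rw [Finset.smul_sum]
      exact Finset.sum_congr rfl fun l _ => smul_comm _ _ _
    · refine Finset.sum_congr rfl fun i _ => ?_
      rw [ContinuousLinearMap.comp_smul]
  · split_ifs
    · rw [ContinuousLinearMap.comp_smul]
    · simp

theorem C3_T_poly [FiniteDimensional ℝ V] (h1 : claimTay) (m : Model V) (j : ℕ) (P : ℝ → E4 → E4 → (V →L[ℝ] V))
    (hP : IsPoly P) : IsPoly (C3_T m j P) := by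
  have ta : ∀ i l : Fin 4, ∀ k, IsPoly (tayC (fun q => m.a q i l) k) := fun i l =>
    (h1 ℝ (fun q => m.a q i l) (m.a_smooth i l)
      ⟨(1 : Matrix (Fin 4) (Fin 4) ℝ) i l, fun q hq => by rw [m.a_out q hq]⟩).2.1
  have tb : ∀ i : Fin 4, ∀ k, IsPoly (tayC (fun q => m.b q i) k) := fun i =>
    (h1 (V →L[ℝ] V) (fun q => m.b q i) (m.b_smooth i) ⟨0, fun q hq => m.b_out q hq i⟩).2.1
  have tc : ∀ k, IsPoly (tayC m.c k) :=
    (h1 (V →L[ℝ] V) m.c m.c_smooth ⟨0, fun q hq => m.c_out q hq⟩).2.1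
  unfold C3_T
  refine C3_add (C3_add ?_ ?_) ?_
  · have h := C3_map (-(ContinuousLinearMap.id ℝ (V →L[ℝ] V)))
      (C3_sum Finset.univ fun i _ => C3_sum Finset.univ fun l _ =>
        C3_smul (ta i l j) (C3_D_poly m (C3_D_poly m hP l) i))
    simpa using h
  · refine C3_sum Finset.univ fun i _ => ?_
    exact C3_bilin (ContinuousLinearMap.compL ℝ V V V) (tb i (j - 1)) (C3_D_poly m hP i)
  · split_ifs
    · exact C3_bilin (ContinuousLinearMap.compL ℝ V V V) (tc (j - 2)) hP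
    · exact C3_zero

/-- Polynomials as a subtype. -/
abbrev C3_S (V : Type) [NormedAddCommGroup V] [InnerProductSpace ℝ V] : Type :=
  {P : ℝ → E4 → E4 → (V →L[ℝ] V) // IsPoly P}

theorem C3_step [FiniteDimensional ℝ V] (h1 : claimTay) (h2 : claimInv) (m : Model V) (w : ℕ)
    (ih : (k : ℕ) → k < w → C3_S V) :
    ∃ Q : C3_S V, (w = 0 → Q.1 = fun _ _ _ => ContinuousLinearMap.id ℝ V) ∧
      (1 ≤ w → ∀ s y z, (1 / 2 : ℝ) • ((w : ℝ) • Q.1 s y z + fderiv ℝ (Q.1 s y) z z)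
        - (∑ i, ∑ j, m.a (s, y) i j • pd i (pd j (Q.1 s y)) z) =
          -∑ k : Fin w, C3_T m (w - k) (ih k k.2).1 s y z) := by
  by_cases hw : w = 0
  · refine ⟨⟨fun _ _ _ => ContinuousLinearMap.id ℝ V, C3_coef contDiff_const⟩, fun _ => rfl,
      fun h => by omega⟩
  · have hw1 : 1 ≤ w := by omega
    have hp : IsPoly (fun s y z => -∑ k : Fin w, C3_T m (w - k) (ih k k.2).1 s y z) := by
      have h := C3_map (-(ContinuousLinearMap.id ℝ (V →L[ℝ] V)))
        (C3_sum Finset.univ fun (k : Fin w) _ => C3_T_poly h1 m (w - k) (ih k k.2).1 (ih k k.2).2)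
      simpa using h
    obtain ⟨Q, hQ, hQ'⟩ := h2 (V →L[ℝ] V) m.a m.a_smooth w hw1 _ hp
    exact ⟨⟨Q, hQ⟩, fun h => absurd h hw, fun _ => hQ'⟩

theorem claimFormal_proof (h1 : claimTay) (h2 : claimInv) : claimFormal := by
  intro V _ _ _ m
  classical
  choose F hF0 hF1 using fun (w : ℕ) (ih : (k : ℕ) → k < w → C3_S V) => C3_step h1 h2 m w ih
  let G : ℕ → C3_S V := fun w => (Nat.lt_wfRel.wf).fix F w
  have hG : ∀ w, G w = F w fun k _ => G k := fun w => (Nat.lt_wfRel.wf).fix_eq F w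
  refine ⟨fun w => (G w).1, ⟨fun w => (G w).2, ?_, ?_⟩⟩
  · intro s y z
    show (G 0).1 s y z = _
    rw [hG 0, hF0 0 _ rfl]
  · intro w s y z
    have ha := m.a_pos (s, y)
    have hs := C3_smooth (G w).2 s y
    rw [C3_conj ha z hs (w : ℝ)]
    have hop : ∀ k ∈ Finset.range w,
        m.opTay (w - k) (fun x => gaussK (m.a (s, y)) x • (G k).1 s y x) s y z =
          gaussK (m.a (s, y)) z • C3_T m (w - k) (G k).1 s y z :=
      fun k _ => C3_opTay m (w - k) (G k).1 (G k).2 s y z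
    rw [Finset.sum_congr rfl hop, ← Finset.smul_sum, ← smul_add]
    rcases Nat.eq_zero_or_pos w with hw | hw
    · subst hw
      have h0 : (G 0).1 = fun _ _ _ => ContinuousLinearMap.id ℝ V := by
        rw [hG 0]; exact hF0 0 _ rfl
      rw [h0]
      have h00 : ∀ l : Fin 4, pd l (fun _ : E4 => ContinuousLinearMap.id ℝ V) = fun _ => 0 := by
        intro l; funext x; simp [pd]
      have h01 : ∀ l : Fin 4, pd l (fun _ : E4 => (0 : V →L[ℝ] V)) z = 0 := by
        intro l; simp [pd]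
      simp [h00, h01]
    · have h := hF1 w (fun k _ => G k) hw s y z
      rw [← hG w] at h
      rw [h, Finset.sum_range (fun k => C3_T m (w - k) (G k).1 s y z)]
      simp

end formal

end NRF

end
end

section

/-!
# C4a: calculus of the classes `PG` and `RD`
-/

open scoped Manifold ContDiff Topology
open MeasureTheory Set

noncomputable section

namespace NRF

variable {W W' W'' : Type} [NormedAddCommGroup W] [NormedSpace ℝ W] [NormedAddCommGroup W']
  [NormedSpace ℝ W'] [NormedAddCommGroup W''] [NormedSpace ℝ W'']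

theorem PG.contDiff {f : KP → W} (h : PG f) : ContDiff ℝ ∞ f := h.1

theorem RD.contDiff {f : KP → W} (h : RD f) : ContDiff ℝ ∞ f := h.1

/-- Uniform version of the bounds. -/
theorem PG.unif {f : KP → W} (h : PG f) (k : ℕ) (T : ℝ) : ∃ (C : ℝ) (M : ℕ), 0 ≤ C ∧
    ∀ i ≤ k, ∀ (s r : ℝ) (y z : E4), |s| ≤ T → |r| ≤ T → ‖y‖ ≤ T →
      ‖iteratedFDeriv ℝ i f (s, r, y, z)‖ ≤ C * (1 + ‖z‖) ^ M := by
  choose C M hCM using fun i : ℕ => h.2 i T
  refine ⟨∑ i ∈ Finset.range (k + 1), |C i|, ∑ i ∈ Finset.range (k + 1), M i,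
    Finset.sum_nonneg fun i _ => abs_nonneg _, fun i hi s r y z hs hr hy => ?_⟩
  have hi' : i ∈ Finset.range (k + 1) := Finset.mem_range.2 (by omega)
  have h1 : |C i| ≤ ∑ i ∈ Finset.range (k + 1), |C i| :=
    Finset.single_le_sum (f := fun i => |C i|) (fun j _ => abs_nonneg _) hi'
  have h2 : M i ≤ ∑ i ∈ Finset.range (k + 1), M i :=
    Finset.single_le_sum (f := M) (fun j _ => Nat.zero_le _) hi'
  have h3 : (1 : ℝ) ≤ 1 + ‖z‖ := by linarith [norm_nonneg z]
  calc ‖iteratedFDeriv ℝ i f (s, r, y, z)‖ ≤ C i * (1 + ‖z‖) ^ M i := hCM i s r y z hs hr hy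
    _ ≤ |C i| * (1 + ‖z‖) ^ M i :=
        mul_le_mul_of_nonneg_right (le_abs_self _) (by positivity)
    _ ≤ _ := mul_le_mul h1 (pow_le_pow_right₀ h3 h2) (by positivity)
        (Finset.sum_nonneg fun i _ => abs_nonneg _)

/-- Uniform version of the bounds. -/
theorem RD.unif {f : KP → W} (h : RD f) (k M : ℕ) (T : ℝ) : ∃ C : ℝ, 0 ≤ C ∧
    ∀ i ≤ k, ∀ (s r : ℝ) (y z : E4), |s| ≤ T → |r| ≤ T → ‖y‖ ≤ T →
      ‖iteratedFDeriv ℝ i f (s, r, y, z)‖ * (1 + ‖z‖) ^ M ≤ C := by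
  choose C hC using fun i : ℕ => h.2 i M T
  refine ⟨∑ i ∈ Finset.range (k + 1), |C i|,
    Finset.sum_nonneg fun i _ => abs_nonneg _, fun i hi s r y z hs hr hy => ?_⟩
  have hi' : i ∈ Finset.range (k + 1) := Finset.mem_range.2 (by omega)
  have h1 : |C i| ≤ ∑ i ∈ Finset.range (k + 1), |C i| :=
    Finset.single_le_sum (f := fun i => |C i|) (fun j _ => abs_nonneg _) hi'
  exact (hC i s r y z hs hr hy).trans ((le_abs_self _).trans h1)

theorem RD.pg {f : KP → W} (h : RD f) : PG f := by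
  refine ⟨h.1, fun k T => ?_⟩
  obtain ⟨C, hC⟩ := h.2 k 0 T
  refine ⟨C, 0, fun s r y z hs hr hy => ?_⟩
  simpa using hC s r y z hs hr hy

theorem PG.bilin (B : W →L[ℝ] W' →L[ℝ] W'') {f : KP → W} {g : KP → W'} (hf : PG f) (hg : PG g) :
    PG fun q => B (f q) (g q) := by
  refine ⟨(B.isBoundedBilinearMap.contDiff (n := ∞)).comp (hf.1.prodMk hg.1), fun k T => ?_⟩
  obtain ⟨C, M, hC0, hC⟩ := hf.unif k T
  obtain ⟨D, N, hD0, hD⟩ := hg.unif k T
  refine ⟨‖B‖ * ∑ i ∈ Finset.range (k + 1), (k.choose i : ℝ) * C * D, M + N,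
    fun s r y z hs hr hy => ?_⟩
  have h1 := B.norm_iteratedFDeriv_le_of_bilinear hf.1 hg.1 (s, r, y, z) (n := k)
    (by exact_mod_cast le_top)
  refine h1.trans ?_
  rw [mul_assoc]
  refine mul_le_mul_of_nonneg_left ?_ B.opNorm_nonneg
  rw [Finset.sum_mul]
  refine Finset.sum_le_sum fun i hi => ?_
  have hi' : i ≤ k := by
    have := Finset.mem_range.1 hi
    omega
  have a1 := hC i hi' s r y z hs hr hy
  have a2 := hD (k - i) (by omega) s r y z hs hr hy
  calc (k.choose i : ℝ) * ‖iteratedFDeriv ℝ i f (s, r, y, z)‖ *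
        ‖iteratedFDeriv ℝ (k - i) g (s, r, y, z)‖
      ≤ (k.choose i : ℝ) * (C * (1 + ‖z‖) ^ M) * (D * (1 + ‖z‖) ^ N) := by gcongr
    _ = (k.choose i : ℝ) * C * D * (1 + ‖z‖) ^ (M + N) := by
        rw [pow_add]
        ring

theorem PG.bilin_rd (B : W →L[ℝ] W' →L[ℝ] W'') {f : KP → W} {g : KP → W'} (hf : PG f)
    (hg : RD g) : RD fun q => B (f q) (g q) := by
  refine ⟨(B.isBoundedBilinearMap.contDiff (n := ∞)).comp (hf.1.prodMk hg.1), fun k L T => ?_⟩
  obtain ⟨C, M, hC0, hC⟩ := hf.unif k T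
  obtain ⟨D, hD0, hD⟩ := hg.unif k (M + L) T
  refine ⟨‖B‖ * ∑ i ∈ Finset.range (k + 1), (k.choose i : ℝ) * C * D,
    fun s r y z hs hr hy => ?_⟩
  have h1 := B.norm_iteratedFDeriv_le_of_bilinear hf.1 hg.1 (s, r, y, z) (n := k)
    (by exact_mod_cast le_top)
  refine (mul_le_mul_of_nonneg_right h1 (by positivity)).trans ?_
  rw [mul_assoc]
  refine mul_le_mul_of_nonneg_left ?_ B.opNorm_nonneg
  rw [Finset.sum_mul]
  refine Finset.sum_le_sum fun i hi => ?_
  have hi' : i ≤ k := by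
    have := Finset.mem_range.1 hi
    omega
  have a1 := hC i hi' s r y z hs hr hy
  have a2 := hD (k - i) (by omega) s r y z hs hr hy
  calc (k.choose i : ℝ) * ‖iteratedFDeriv ℝ i f (s, r, y, z)‖ *
        ‖iteratedFDeriv ℝ (k - i) g (s, r, y, z)‖ * (1 + ‖z‖) ^ L
      ≤ (k.choose i : ℝ) * (C * (1 + ‖z‖) ^ M) *
        ‖iteratedFDeriv ℝ (k - i) g (s, r, y, z)‖ * (1 + ‖z‖) ^ L := by gcongr
    _ = (k.choose i : ℝ) * C *
        (‖iteratedFDeriv ℝ (k - i) g (s, r, y, z)‖ * (1 + ‖z‖) ^ (M + L)) := by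
        rw [pow_add]
        ring
    _ ≤ (k.choose i : ℝ) * C * D := by gcongr

theorem PG.add {f g : KP → W} (hf : PG f) (hg : PG g) : PG fun q => f q + g q := by
  refine ⟨hf.1.add hg.1, fun k T => ?_⟩
  obtain ⟨C, M, hC0, hC⟩ := hf.unif k T
  obtain ⟨D, N, hD0, hD⟩ := hg.unif k T
  refine ⟨C + D, M + N, fun s r y z hs hr hy => ?_⟩
  have h3 : (1 : ℝ) ≤ 1 + ‖z‖ := by linarith [norm_nonneg z]
  rw [fun_iteratedFDeriv_add_apply (hf.1.contDiffAt.of_le (by exact_mod_cast le_top))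
    (hg.1.contDiffAt.of_le (by exact_mod_cast le_top))]
  refine (norm_add_le _ _).trans ?_
  rw [add_mul]
  refine add_le_add ((hC k le_rfl s r y z hs hr hy).trans ?_)
    ((hD k le_rfl s r y z hs hr hy).trans ?_)
  · exact mul_le_mul_of_nonneg_left (pow_le_pow_right₀ h3 (by omega)) hC0
  · exact mul_le_mul_of_nonneg_left (pow_le_pow_right₀ h3 (by omega)) hD0

theorem RD.add {f g : KP → W} (hf : RD f) (hg : RD g) : RD fun q => f q + g q := by
  refine ⟨hf.1.add hg.1, fun k M T => ?_⟩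
  obtain ⟨C, hC⟩ := hf.2 k M T
  obtain ⟨D, hD⟩ := hg.2 k M T
  refine ⟨C + D, fun s r y z hs hr hy => ?_⟩
  rw [fun_iteratedFDeriv_add_apply (hf.1.contDiffAt.of_le (by exact_mod_cast le_top))
    (hg.1.contDiffAt.of_le (by exact_mod_cast le_top))]
  calc _ ≤ (‖iteratedFDeriv ℝ k f (s, r, y, z)‖ + ‖iteratedFDeriv ℝ k g (s, r, y, z)‖) *
        (1 + ‖z‖) ^ M := mul_le_mul_of_nonneg_right (norm_add_le _ _) (by positivity)
    _ ≤ C + D := by
        rw [add_mul]
        exact add_le_add (hC s r y z hs hr hy) (hD s r y z hs hr hy)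

theorem PG.fderiv {f : KP → W} (hf : PG f) : PG fun q => fderiv ℝ f q := by
  refine ⟨hf.1.fderiv_right (m := ∞) (by simp), fun k T => ?_⟩
  obtain ⟨C, M, hC⟩ := hf.2 (k + 1) T
  refine ⟨C, M, fun s r y z hs hr hy => ?_⟩
  have := hC s r y z hs hr hy
  rwa [← norm_iteratedFDeriv_fderiv] at this

theorem RD.fderiv {f : KP → W} (hf : RD f) : RD fun q => fderiv ℝ f q := by
  refine ⟨hf.1.fderiv_right (m := ∞) (by simp), fun k M T => ?_⟩
  obtain ⟨C, hC⟩ := hf.2 (k + 1) M T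
  refine ⟨C, fun s r y z hs hr hy => ?_⟩
  have := hC s r y z hs hr hy
  rwa [← norm_iteratedFDeriv_fderiv] at this

/-- Composition with a continuous linear map. -/
theorem PG.clm {f : KP → W} (hf : PG f) (L : W →L[ℝ] W') : PG fun q => L (f q) := by
  refine ⟨L.contDiff.comp hf.1, fun k T => ?_⟩
  obtain ⟨C, M, hC0, hC⟩ := hf.unif k T
  refine ⟨‖L‖ * C, M, fun s r y z hs hr hy => ?_⟩
  have h1 := L.norm_iteratedFDeriv_comp_left (x := (s, r, y, z)) (hf.1.contDiffAt) (n := k)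
    (by exact_mod_cast le_top)
  refine h1.trans ?_
  rw [mul_assoc]
  exact mul_le_mul_of_nonneg_left (hC k le_rfl s r y z hs hr hy) (norm_nonneg _)

/-- Composition with a continuous linear map. -/
theorem RD.clm {f : KP → W} (hf : RD f) (L : W →L[ℝ] W') : RD fun q => L (f q) := by
  refine ⟨L.contDiff.comp hf.1, fun k M T => ?_⟩
  obtain ⟨C, hC⟩ := hf.2 k M T
  refine ⟨‖L‖ * C, fun s r y z hs hr hy => ?_⟩
  have h1 := L.norm_iteratedFDeriv_comp_left (x := (s, r, y, z)) (hf.1.contDiffAt) (n := k)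
    (by exact_mod_cast le_top)
  refine (mul_le_mul_of_nonneg_right h1 (by positivity)).trans ?_
  rw [mul_assoc]
  exact mul_le_mul_of_nonneg_left (hC s r y z hs hr hy) (norm_nonneg _)

theorem PG.fderiv_apply {f : KP → W} (hf : PG f) (v : KP) : PG fun q => _root_.fderiv ℝ f q v :=
  hf.fderiv.clm (ContinuousLinearMap.apply ℝ W v)

theorem RD.fderiv_apply {f : KP → W} (hf : RD f) (v : KP) : RD fun q => _root_.fderiv ℝ f q v :=
  hf.fderiv.clm (ContinuousLinearMap.apply ℝ W v)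

theorem PG.const (c : W) : PG fun _ : KP => c := by
  refine ⟨contDiff_const, fun k T => ⟨‖c‖, 0, fun s r y z hs hr hy => ?_⟩⟩
  rcases Nat.eq_zero_or_pos k with rfl | hk
  · simp
  · rw [iteratedFDeriv_const_of_ne (by omega)]
    simp

theorem RD.zero : RD fun _ : KP => (0 : W) := by
  refine ⟨contDiff_const, fun k M T => ⟨0, fun s r y z hs hr hy => ?_⟩⟩
  rcases Nat.eq_zero_or_pos k with rfl | hk
  · simp
  · rw [iteratedFDeriv_const_of_ne (by omega)]
    simp

theorem PG.neg {f : KP → W} (hf : PG f) : PG fun q => -f q := by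
  simpa using hf.clm (-ContinuousLinearMap.id ℝ W)

theorem RD.neg {f : KP → W} (hf : RD f) : RD fun q => -f q := by
  simpa using hf.clm (-ContinuousLinearMap.id ℝ W)

theorem PG.sub {f g : KP → W} (hf : PG f) (hg : PG g) : PG fun q => f q - g q := by
  simpa [sub_eq_add_neg] using hf.add hg.neg

theorem RD.sub {f g : KP → W} (hf : RD f) (hg : RD g) : RD fun q => f q - g q := by
  simpa [sub_eq_add_neg] using hf.add hg.neg

/-- `PG` scalar times `PG`. -/
theorem PG.smul {f : KP → ℝ} {g : KP → W} (hf : PG f) (hg : PG g) : PG fun q => f q • g q :=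
  PG.bilin (ContinuousLinearMap.lsmul ℝ ℝ) hf hg

/-- `PG` scalar times `RD`. -/
theorem PG.smul_rd {f : KP → ℝ} {g : KP → W} (hf : PG f) (hg : RD g) : RD fun q => f q • g q :=
  PG.bilin_rd (ContinuousLinearMap.lsmul ℝ ℝ) hf hg

/-- `RD` scalar times `PG`. -/
theorem RD.smul_pg {f : KP → ℝ} {g : KP → W} (hf : RD f) (hg : PG g) : RD fun q => f q • g q :=
  PG.bilin_rd (ContinuousLinearMap.lsmul ℝ ℝ).flip hg hf

theorem PG.mul {f g : KP → ℝ} (hf : PG f) (hg : PG g) : PG fun q => f q * g q := hf.smul hg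

theorem PG.mul_rd {f g : KP → ℝ} (hf : PG f) (hg : RD g) : RD fun q => f q * g q :=
  hf.smul_rd hg

theorem RD.mul_pg {f g : KP → ℝ} (hf : RD f) (hg : PG g) : RD fun q => f q * g q :=
  hf.smul_pg hg

theorem PG.const_smul {g : KP → W} (hg : PG g) (c : ℝ) : PG fun q => c • g q :=
  (PG.const c).smul hg

theorem RD.const_smul {g : KP → W} (hg : RD g) (c : ℝ) : RD fun q => c • g q :=
  (PG.const c).smul_rd hg

theorem PG.pow {f : KP → ℝ} (hf : PG f) (n : ℕ) : PG fun q => f q ^ n := by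
  induction n with
  | zero => simpa using PG.const (1 : ℝ)
  | succ n ih => simpa [pow_succ] using ih.mul hf

theorem PG.sum {ι : Type*} (A : Finset ι) {f : ι → KP → W} (hf : ∀ i ∈ A, PG (f i)) :
    PG fun q => ∑ i ∈ A, f i q := by
  classical
  induction A using Finset.induction_on with
  | empty => simpa using PG.const (0 : W)
  | insert a s ha ih =>
    simp only [Finset.sum_insert ha]
    exact (hf a (Finset.mem_insert_self _ _)).add
      (ih fun i hi => hf i (Finset.mem_insert_of_mem hi))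

theorem RD.sum {ι : Type*} (A : Finset ι) {f : ι → KP → W} (hf : ∀ i ∈ A, RD (f i)) :
    RD fun q => ∑ i ∈ A, f i q := by
  classical
  induction A using Finset.induction_on with
  | empty => simpa using RD.zero (W := W)
  | insert a s ha ih =>
    simp only [Finset.sum_insert ha]
    exact (hf a (Finset.mem_insert_self _ _)).add
      (ih fun i hi => hf i (Finset.mem_insert_of_mem hi))

theorem PG.prod {ι : Type*} (A : Finset ι) {f : ι → KP → ℝ} (hf : ∀ i ∈ A, PG (f i)) :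
    PG fun q => ∏ i ∈ A, f i q := by
  classical
  induction A using Finset.induction_on with
  | empty => simpa using PG.const (1 : ℝ)
  | insert a s ha ih =>
    simp only [Finset.prod_insert ha]
    exact (hf a (Finset.mem_insert_self _ _)).mul
      (ih fun i hi => hf i (Finset.mem_insert_of_mem hi))

/-- Composition of operator valued kernels. -/
theorem PG.comp {f : KP → W' →L[ℝ] W''} {g : KP → W →L[ℝ] W'} (hf : PG f) (hg : PG g) :
    PG fun q => (f q).comp (g q) :=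
  PG.bilin (ContinuousLinearMap.compL ℝ W W' W'') hf hg

theorem PG.comp_rd {f : KP → W' →L[ℝ] W''} {g : KP → W →L[ℝ] W'} (hf : PG f) (hg : RD g) :
    RD fun q => (f q).comp (g q) :=
  PG.bilin_rd (ContinuousLinearMap.compL ℝ W W' W'') hf hg

/-- A smooth function of `(s, r, y)` is in `PG`. -/
theorem PG.of_srY {p : ℝ × ℝ × E4 → W} (hp : ContDiff ℝ ∞ p) :
    PG fun q : KP => p (q.1, q.2.1, q.2.2.1) := by
  set L : KP →L[ℝ] ℝ × ℝ × E4 := (ContinuousLinearMap.fst ℝ ℝ (ℝ × E4 × E4)).prod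
    (((ContinuousLinearMap.fst ℝ ℝ (E4 × E4)).comp
      (ContinuousLinearMap.snd ℝ ℝ (ℝ × E4 × E4))).prod
      (((ContinuousLinearMap.fst ℝ E4 E4).comp (ContinuousLinearMap.snd ℝ ℝ (E4 × E4))).comp
        (ContinuousLinearMap.snd ℝ ℝ (ℝ × E4 × E4)))) with hL
  have hpL : (fun q : KP => p (q.1, q.2.1, q.2.2.1)) = p ∘ L := by
    funext q
    rfl
  refine ⟨?_, fun k T => ?_⟩
  · rw [hpL]
    exact hp.comp L.contDiff
  have hc : IsCompact (Icc (-T) T ×ˢ (Icc (-T) T ×ˢ Metric.closedBall (0 : E4) T)) :=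
    isCompact_Icc.prod (isCompact_Icc.prod (isCompact_closedBall _ _))
  obtain ⟨C, hC⟩ := hc.exists_bound_of_continuousOn
    ((hp.continuous_iteratedFDeriv (m := k) (by exact_mod_cast le_top)).continuousOn)
  refine ⟨C * ‖L‖ ^ k, 0, fun s r y z hs hr hy => ?_⟩
  rw [hpL, L.iteratedFDeriv_comp_right hp _ (by exact_mod_cast le_top)]
  refine (ContinuousMultilinearMap.norm_compContinuousLinearMap_le _ _).trans ?_
  simp only [Finset.prod_const, Finset.card_univ, Fintype.card_fin, pow_zero, mul_one]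
  refine mul_le_mul_of_nonneg_right ?_ (by positivity)
  exact hC (L (s, r, y, z)) ⟨abs_le.1 hs, abs_le.1 hr, mem_closedBall_zero_iff.2 hy⟩

/-- A smooth function of `(s, y)` is in `PG`. -/
theorem PG.of_sY {p : ℝ × E4 → W} (hp : ContDiff ℝ ∞ p) :
    PG fun q : KP => p (q.1, q.2.2.1) :=
  PG.of_srY (p := fun q => p (q.1, q.2.2))
    (hp.comp (contDiff_fst.prodMk (contDiff_snd.comp contDiff_snd)))

/-- A smooth function of `y` is in `PG`. -/
theorem PG.of_Y {p : E4 → W} (hp : ContDiff ℝ ∞ p) :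
    PG fun q : KP => p q.2.2.1 :=
  PG.of_sY (p := fun q => p q.2) (hp.comp contDiff_snd)

/-- A smooth function of `s` is in `PG`. -/
theorem PG.of_S {p : ℝ → W} (hp : ContDiff ℝ ∞ p) :
    PG fun q : KP => p q.1 :=
  PG.of_sY (p := fun q => p q.1) (hp.comp contDiff_fst)

/-- A smooth function of `r` is in `PG`. -/
theorem PG.of_R {p : ℝ → W} (hp : ContDiff ℝ ∞ p) :
    PG fun q : KP => p q.2.1 :=
  PG.of_srY (p := fun q => p q.2.1) (hp.comp (contDiff_fst.comp contDiff_snd))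

/-- The variable `r`. -/
theorem PG.r : PG fun q : KP => q.2.1 := PG.of_R (p := fun r => r) contDiff_id

/-- A continuous linear map is in `PG`. -/
theorem PG.linear (L : KP →L[ℝ] W) : PG fun q => L q := by
  refine ⟨L.contDiff, fun k T => ?_⟩
  rcases k with _ | _ | k
  · refine ⟨‖L‖ * (1 + |T|), 1, fun s r y z hs hr hy => ?_⟩
    have h1 : ‖(s, r, y, z)‖ ≤ (1 + |T|) * (1 + ‖z‖) := by
      have hz := norm_nonneg z
      have hT := abs_nonneg T
      have hTT := le_abs_self T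
      have hm := mul_nonneg hT hz
      simp only [Prod.norm_def, Real.norm_eq_abs]
      refine max_le ?_ (max_le ?_ (max_le ?_ ?_)) <;> nlinarith
    rw [norm_iteratedFDeriv_zero, pow_one, mul_assoc]
    exact (L.le_opNorm _).trans (mul_le_mul_of_nonneg_left h1 (norm_nonneg _))
  · refine ⟨‖L‖, 0, fun s r y z hs hr hy => ?_⟩
    rw [zero_add, norm_iteratedFDeriv_one, L.hasFDerivAt.fderiv]
    simp
  · refine ⟨0, 0, fun s r y z hs hr hy => ?_⟩
    rw [← norm_iteratedFDeriv_fderiv]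
    have h1 : (_root_.fderiv ℝ fun q => L q) = fun _ => L := by
      funext q
      exact L.hasFDerivAt.fderiv
    rw [h1, iteratedFDeriv_const_of_ne (by omega)]
    simp

/-- A linear function of `ζ`. -/
theorem PG.of_linZ (L : E4 →L[ℝ] W) : PG fun q : KP => L q.2.2.2 :=
  PG.linear (L.comp ((ContinuousLinearMap.snd ℝ E4 E4).comp
    ((ContinuousLinearMap.snd ℝ ℝ (E4 × E4)).comp (ContinuousLinearMap.snd ℝ ℝ (ℝ × E4 × E4)))))

/-- The coordinates of `ζ`. -/
theorem PG.coordZ (i : Fin 4) : PG fun q : KP => q.2.2.2 i :=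
  PG.of_linZ (EuclideanSpace.proj i : E4 →L[ℝ] ℝ)

/-- The variable `ζ`. -/
theorem PG.z : PG fun q : KP => q.2.2.2 := PG.of_linZ (ContinuousLinearMap.id ℝ E4)

theorem IsPoly.pg {P : ℝ → E4 → E4 → W} (hP : IsPoly P) :
    PG fun q : KP => P q.1 q.2.2.1 q.2.2.2 := by
  obtain ⟨A, p, hp, h⟩ := hP
  simp only [h]
  exact PG.sum A fun α _ => (PG.prod _ fun i _ => (PG.coordZ i).pow (α i)).smul (PG.of_sY (hp α))

theorem claimRD_proof : claimRD := by
  refine ⟨?_, ?_, ?_⟩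
  · intro W W' W'' _ _ _ _ _ _ B f g
    exact ⟨fun hf hg => PG.bilin B hf hg, fun hf hg => PG.bilin_rd B hf hg⟩
  · intro W _ _ f g v
    exact ⟨PG.add, RD.add, fun h => h.fderiv_apply v, fun h => h.fderiv_apply v, RD.pg⟩
  · intro W _ _ P hP
    exact hP.pg

end NRF

end
end

section

/-!
# C5: the localised parametrix kernel and its error
-/

open scoped Manifold ContDiff Topology
open MeasureTheory Set

noncomputable section

namespace NRF

/-! ### Calculus of the classes, convenient versions -/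

section api

variable {W : Type} [NormedAddCommGroup W] [NormedSpace ℝ W]
variable {W' : Type} [NormedAddCommGroup W'] [NormedSpace ℝ W']

lemma c5_norm_le (q : KP) {T : ℝ} (hs : |q.1| ≤ T) (hr : |q.2.1| ≤ T) (hy : ‖q.2.2.1‖ ≤ T) :
    ‖q‖ ≤ (T + 1) * (1 + ‖q.2.2.2‖) := by
  have hT : 0 ≤ T := (abs_nonneg _).trans hs
  have hz : 0 ≤ ‖q.2.2.2‖ := norm_nonneg _
  have h0 : T ≤ (T + 1) * (1 + ‖q.2.2.2‖) := by nlinarith
  have h1 : ‖q.2.2.2‖ ≤ (T + 1) * (1 + ‖q.2.2.2‖) := by nlinarith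
  rw [Prod.norm_def, Prod.norm_def, Prod.norm_def]
  refine max_le ?_ (max_le ?_ (max_le ?_ h1))
  · exact (by simpa using hs : ‖q.1‖ ≤ T).trans h0
  · exact (by simpa using hr : ‖q.2.1‖ ≤ T).trans h0
  · exact hy.trans h0

lemma c5_PG_clm (L : KP →L[ℝ] W) : PG (fun q => L q) := by
  refine ⟨L.contDiff, fun k T => ?_⟩
  match k with
  | 0 =>
    refine ⟨‖L‖ * (T + 1), 1, fun s r y z hs hr hy => ?_⟩
    rw [norm_iteratedFDeriv_zero, pow_one, mul_assoc]
    exact (L.le_opNorm _).trans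
      (mul_le_mul_of_nonneg_left (c5_norm_le (s, r, y, z) hs hr hy) (norm_nonneg _))
  | (k + 1) =>
    refine ⟨‖L‖, 0, fun s r y z _ _ _ => ?_⟩
    rw [pow_zero, mul_one, ← norm_iteratedFDeriv_fderiv]
    have h1 : fderiv ℝ (fun q => L q) = fun _ => L := by
      funext q; exact L.fderiv
    rw [h1]
    match k with
    | 0 => rw [norm_iteratedFDeriv_zero]
    | (k + 1) =>
      rw [iteratedFDeriv_const_of_ne (by omega)]
      simp

lemma c5_PG_const (c : W) : PG (fun _ : KP => c) := by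
  refine ⟨contDiff_const, fun k T => ?_⟩
  match k with
  | 0 =>
    refine ⟨‖c‖, 0, fun s r y z _ _ _ => ?_⟩
    rw [norm_iteratedFDeriv_zero]; simp
  | (k + 1) =>
    refine ⟨0, 0, fun s r y z _ _ _ => ?_⟩
    rw [iteratedFDeriv_const_of_ne (by omega)]
    simp

lemma c5_RD_zero : RD (fun _ : KP => (0 : W)) := by
  refine ⟨contDiff_const, fun k M T => ⟨0, fun s r y z _ _ _ => ?_⟩⟩
  have : iteratedFDeriv ℝ k (fun _ : KP => (0 : W)) = 0 := by
    ext; simp
  rw [this]; simp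

/-- composition with a linear map which keeps the last variable -/
lemma c5_PG_comp {F : KP → W} (hF : PG F) (L : KP →L[ℝ] KP) (h1 : ∀ q, |(L q).1| ≤ |q.1|)
    (h2 : ∀ q, |(L q).2.1| ≤ |q.2.1|) (h3 : ∀ q, ‖(L q).2.2.1‖ ≤ ‖q.2.2.1‖)
    (h4 : ∀ q, (L q).2.2.2 = q.2.2.2) : PG (fun q => F (L q)) := by
  refine ⟨hF.1.comp L.contDiff, fun k T => ?_⟩
  obtain ⟨C, M, hC⟩ := hF.2 k T
  refine ⟨C * ‖L‖ ^ k, M, fun s r y z hs hr hy => ?_⟩
  have e1 : iteratedFDeriv ℝ k (F ∘ L) (s, r, y, z) =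
      (iteratedFDeriv ℝ k F (L (s, r, y, z))).compContinuousLinearMap fun _ => L :=
    L.iteratedFDeriv_comp_right hF.1 _ (by exact_mod_cast le_top)
  have e2 : iteratedFDeriv ℝ k (fun q => F (L q)) (s, r, y, z) =
      (iteratedFDeriv ℝ k F (L (s, r, y, z))).compContinuousLinearMap fun _ => L := e1
  rw [e2]
  have e3 := ContinuousMultilinearMap.norm_compContinuousLinearMap_le
    (iteratedFDeriv ℝ k F (L (s, r, y, z))) (fun _ => L)
  refine e3.trans ?_
  rw [Finset.prod_const, Finset.card_univ, Fintype.card_fin]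
  have e4 := hC (L (s, r, y, z)).1 (L (s, r, y, z)).2.1 (L (s, r, y, z)).2.2.1
    (L (s, r, y, z)).2.2.2 ((h1 _).trans hs) ((h2 _).trans hr) ((h3 _).trans hy)
  have e5 : ((L (s, r, y, z)).1, (L (s, r, y, z)).2.1, (L (s, r, y, z)).2.2.1,
    (L (s, r, y, z)).2.2.2) = L (s, r, y, z) := rfl
  rw [e5, h4] at e4
  calc _ ≤ (C * (1 + ‖z‖) ^ M) * ‖L‖ ^ k := mul_le_mul_of_nonneg_right e4 (by positivity)
    _ = C * ‖L‖ ^ k * (1 + ‖z‖) ^ M := by ring

variable (h4 : claimRD)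
include h4

lemma c5_smul_PG {f : KP → ℝ} {g : KP → W} (hf : PG f) (hg : PG g) : PG fun q => f q • g q :=
  (h4.1 ℝ W W (ContinuousLinearMap.lsmul ℝ ℝ) f g).1 hf hg

lemma c5_smul_RD {f : KP → ℝ} {g : KP → W} (hf : PG f) (hg : RD g) : RD fun q => f q • g q :=
  (h4.1 ℝ W W (ContinuousLinearMap.lsmul ℝ ℝ) f g).2 hf hg

lemma c5_smul_RD' {f : KP → ℝ} {g : KP → W} (hf : RD f) (hg : PG g) : RD fun q => f q • g q :=
  (h4.1 W ℝ W (ContinuousLinearMap.lsmul ℝ ℝ).flip g f).2 hg hf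

lemma c5_mul_PG {f g : KP → ℝ} (hf : PG f) (hg : PG g) : PG fun q => f q * g q :=
  c5_smul_PG h4 hf hg

lemma c5_pow_PG {f : KP → ℝ} (hf : PG f) (n : ℕ) : PG fun q => f q ^ n := by
  induction n with
  | zero => simpa using c5_PG_const (1 : ℝ)
  | succ n ih =>
    have : (fun q => f q ^ (n + 1)) = fun q => f q ^ n * f q := by funext q; ring
    rw [this]
    exact c5_mul_PG h4 ih hf

lemma c5_add_PG {f g : KP → W} (hf : PG f) (hg : PG g) : PG fun q => f q + g q :=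
  (h4.2.1 W f g 0).1 hf hg

lemma c5_add_RD {f g : KP → W} (hf : RD f) (hg : RD g) : RD fun q => f q + g q :=
  (h4.2.1 W f g 0).2.1 hf hg

lemma c5_neg_RD {f : KP → W} (hf : RD f) : RD fun q => - f q := by
  have := c5_smul_RD h4 (c5_PG_const (-1 : ℝ)) hf
  simpa using this

lemma c5_deriv_PG {f : KP → W} (hf : PG f) (v : KP) : PG fun q => fderiv ℝ f q v :=
  (h4.2.1 W f f v).2.2.1 hf

lemma c5_deriv_RD {f : KP → W} (hf : RD f) (v : KP) : RD fun q => fderiv ℝ f q v :=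
  (h4.2.1 W f f v).2.2.2.1 hf

lemma c5_toPG {f : KP → W} (hf : RD f) : PG f := (h4.2.1 W f f 0).2.2.2.2 hf

lemma c5_sum_PG {ι : Type*} (s : Finset ι) {f : ι → KP → W} (hf : ∀ i ∈ s, PG (f i)) :
    PG fun q => ∑ i ∈ s, f i q := by
  classical
  induction s using Finset.induction_on with
  | empty => simpa using c5_PG_const (0 : W)
  | insert a s ha ih =>
    simp_rw [Finset.sum_insert ha]
    exact c5_add_PG h4 (hf a (Finset.mem_insert_self _ _))
      (ih fun i hi => hf i (Finset.mem_insert_of_mem hi))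

lemma c5_sum_RD {ι : Type*} (s : Finset ι) {f : ι → KP → W} (hf : ∀ i ∈ s, RD (f i)) :
    RD fun q => ∑ i ∈ s, f i q := by
  classical
  induction s using Finset.induction_on with
  | empty => simpa using c5_RD_zero (W := W)
  | insert a s ha ih =>
    simp_rw [Finset.sum_insert ha]
    exact c5_add_RD h4 (hf a (Finset.mem_insert_self _ _))
      (ih fun i hi => hf i (Finset.mem_insert_of_mem hi))

lemma c5_dz_RD {f : KP → W} (hf : RD f) (v : E4) : RD (dzK v f) := c5_deriv_RD h4 hf (0, 0, 0, v)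

lemma c5_comp_RD {V : Type} [NormedAddCommGroup V] [NormedSpace ℝ V]
    {B : KP → (V →L[ℝ] V)} {g : KP → (V →L[ℝ] V)} (hB : PG B) (hg : RD g) :
    RD fun q => (B q).comp (g q) :=
  (h4.1 (V →L[ℝ] V) (V →L[ℝ] V) (V →L[ℝ] V) (ContinuousLinearMap.compL ℝ V V V) B g).2 hB hg

end api

/-! ### The coordinates -/

def c5r : KP →L[ℝ] ℝ := (ContinuousLinearMap.fst ℝ ℝ (E4 × E4)).comp
  (ContinuousLinearMap.snd ℝ ℝ (ℝ × E4 × E4))

def c5z : KP →L[ℝ] E4 := (ContinuousLinearMap.snd ℝ E4 E4).comp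
  ((ContinuousLinearMap.snd ℝ ℝ (E4 × E4)).comp (ContinuousLinearMap.snd ℝ ℝ (ℝ × E4 × E4)))

def c5y : KP →L[ℝ] E4 := (ContinuousLinearMap.fst ℝ E4 E4).comp
  ((ContinuousLinearMap.snd ℝ ℝ (E4 × E4)).comp (ContinuousLinearMap.snd ℝ ℝ (ℝ × E4 × E4)))

def c5s : KP →L[ℝ] ℝ := ContinuousLinearMap.fst ℝ ℝ (ℝ × E4 × E4)

@[simp] lemma c5r_apply (q : KP) : c5r q = q.2.1 := rfl
@[simp] lemma c5z_apply (q : KP) : c5z q = q.2.2.2 := rfl
@[simp] lemma c5y_apply (q : KP) : c5y q = q.2.2.1 := rfl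
@[simp] lemma c5s_apply (q : KP) : c5s q = q.1 := rfl

lemma c5_PG_r : PG fun q : KP => q.2.1 := c5_PG_clm c5r

lemma c5_PG_zi (i : Fin 4) : PG fun q : KP => q.2.2.2 i :=
  c5_PG_clm ((EuclideanSpace.proj i).comp c5z)

lemma c5_PG_nz (h4 : claimRD) : PG fun q : KP => ‖q.2.2.2‖ ^ 2 := by
  have h1 : (fun q : KP => ‖q.2.2.2‖ ^ 2) = fun q => ∑ i : Fin 4, q.2.2.2 i * q.2.2.2 i := by
    funext q
    rw [EuclideanSpace.norm_sq_eq]
    refine Finset.sum_congr rfl fun i _ => ?_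
    rw [Real.norm_eq_abs, sq_abs, pow_two]
  rw [h1]
  exact c5_sum_PG h4 _ fun i _ => c5_mul_PG h4 (c5_PG_zi i) (c5_PG_zi i)

/-- functions of `y` alone -/
lemma c5_PG_y (h4 : claimRD) {W : Type} [NormedAddCommGroup W] [NormedSpace ℝ W] {f : E4 → W}
    (hf : ContDiff ℝ ∞ f) : PG fun q : KP => f q.2.2.1 := by
  have h1 : IsPoly (fun (_ : ℝ) (y _ : E4) => f y) := by
    refine ⟨{0}, fun _ q => f q.2, fun _ => hf.comp contDiff_snd, fun s y z => ?_⟩
    simp
  exact h4.2.2 W _ h1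

/-! ### Flat functions -/

lemma c5_eta_smooth : ContDiff ℝ ∞ etaC := etaBump.contDiff

lemma c5_eta_one {x : E4} (hx : ‖x‖ ≤ 3 / 2) : etaC x = 1 :=
  etaBump.one_of_mem_closedBall (by simpa [etaBump] using hx)

lemma c5_eta_zero {x : E4} (hx : 2 ≤ ‖x‖) : etaC x = 0 :=
  etaBump.zero_of_le_dist (by simpa [etaBump] using hx)

/-- smooth, zero for `‖x‖ < 3/2` and for `2 ≤ ‖x‖` -/
structure C5Flat (f : E4 → ℝ) : Prop where
  smooth : ContDiff ℝ ∞ f
  inner : ∀ x, ‖x‖ < 3 / 2 → f x = 0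
  outer : ∀ x, 2 ≤ ‖x‖ → f x = 0

lemma c5_outer {g : E4 → ℝ} (hg : Continuous g) (h : ∀ x, 2 < ‖x‖ → g x = 0) {x : E4}
    (hx : 2 ≤ ‖x‖) : g x = 0 := by
  have hc : Continuous fun t : ℝ => g ((1 + t) • x) := by fun_prop
  have h1 : Filter.Tendsto (fun t : ℝ => g ((1 + t) • x)) (𝓝[>] 0) (𝓝 (g x)) := by
    have := (hc.tendsto 0).mono_left (nhdsWithin_le_nhds (s := Ioi 0))
    simpa using this
  have h2 : Filter.Tendsto (fun t : ℝ => g ((1 + t) • x)) (𝓝[>] 0) (𝓝 0) := by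
    apply tendsto_const_nhds.congr'
    filter_upwards [self_mem_nhdsWithin] with t ht
    refine (h _ ?_).symm
    have ht' : 0 < t := ht
    rw [norm_smul, Real.norm_eq_abs, abs_of_pos (by linarith)]
    nlinarith
  exact tendsto_nhds_unique h1 h2

lemma c5_pd_smooth {f : E4 → ℝ} (hf : ContDiff ℝ ∞ f) (i : Fin 4) : ContDiff ℝ ∞ (pd i f) :=
  (hf.fderiv_right (m := ∞) (by simp)).clm_apply contDiff_const

lemma c5_pd_const {f : E4 → ℝ} {U : Set E4} (hU : IsOpen U) {c : ℝ} (h : ∀ x ∈ U, f x = c)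
    (i : Fin 4) {x : E4} (hx : x ∈ U) : pd i f x = 0 := by
  have h1 : f =ᶠ[𝓝 x] fun _ => c := by
    filter_upwards [hU.mem_nhds hx] with y hy using h y hy
  unfold pd
  rw [h1.fderiv_eq]
  simp

lemma c5_flat_of {f : E4 → ℝ} (hf : ContDiff ℝ ∞ f) {c : ℝ} (h1 : ∀ x, ‖x‖ < 3 / 2 → f x = c)
    (h2 : ∀ x, 2 < ‖x‖ → f x = 0) (i : Fin 4) : C5Flat (pd i f) where
  smooth := c5_pd_smooth hf i
  inner := fun _ hx => c5_pd_const (U := {x | ‖x‖ < 3 / 2})
    (isOpen_lt continuous_norm continuous_const) h1 i hx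
  outer := fun _ hx => c5_outer (c5_pd_smooth hf i).continuous
    (fun _ hy => c5_pd_const (U := {x | 2 < ‖x‖}) (isOpen_lt continuous_const continuous_norm)
      h2 i hy) hx

lemma c5_flat_eta (i : Fin 4) : C5Flat (pd i etaC) :=
  c5_flat_of c5_eta_smooth (fun _ hx => c5_eta_one hx.le) (fun _ hx => c5_eta_zero hx.le) i

lemma C5Flat.pd {f : E4 → ℝ} (hf : C5Flat f) (i : Fin 4) : C5Flat (pd i f) :=
  c5_flat_of hf.smooth hf.inner (fun x hx => hf.outer x hx.le) i

def c5b : ContDiffBump (0 : E4) := ⟨1 / 8, 1 / 4, by norm_num, by norm_num⟩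
def c5th : ContDiffBump (0 : E4) := ⟨4, 5, by norm_num, by norm_num⟩

/-- `‖u‖^(-2M)` away from the origin and for `‖u‖ ≤ 4` -/
def c5gM (M : ℕ) (u : E4) : ℝ := (1 - c5b u) * c5th u * ((‖u‖ ^ 2) ^ M)⁻¹

lemma c5gM_smooth (M : ℕ) : ContDiff ℝ ∞ (c5gM M) := by
  rw [contDiff_iff_contDiffAt]
  intro u
  by_cases hu : u = 0
  · have h1 : c5gM M =ᶠ[𝓝 u] fun _ => 0 := by
      have h2 : Metric.ball (0 : E4) (1 / 8) ∈ 𝓝 u := by
        rw [hu]; exact Metric.ball_mem_nhds _ (by norm_num)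
      filter_upwards [h2] with v hv
      have h3 : c5b v = 1 := c5b.one_of_mem_closedBall (Metric.ball_subset_closedBall hv)
      simp [c5gM, h3]
    exact contDiffAt_const.congr_of_eventuallyEq h1
  · have hn : (‖u‖ ^ 2) ^ M ≠ 0 := by
      have : ‖u‖ ≠ 0 := norm_ne_zero_iff.2 hu
      positivity
    unfold c5gM
    have h1 : ContDiffAt ℝ ∞ (fun u : E4 => (‖u‖ ^ 2) ^ M) u :=
      ((contDiff_norm_sq ℝ).pow M).contDiffAt
    exact ((contDiffAt_const.sub c5b.contDiff.contDiffAt).mul c5th.contDiff.contDiffAt).mul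
      (h1.inv hn)

lemma c5gM_eq (M : ℕ) {u : E4} (h1 : 1 / 4 ≤ ‖u‖) (h2 : ‖u‖ ≤ 4) :
    c5gM M u = ((‖u‖ ^ 2) ^ M)⁻¹ := by
  have h3 : c5b u = 0 := c5b.zero_of_le_dist (by simpa [c5b] using h1)
  have h4 : c5th u = 1 := c5th.one_of_mem_closedBall (by simpa [c5th] using h2)
  simp [c5gM, h3, h4]

/-- evaluation of a function of `(t, x)` along `(s + r², y + r ζ)`: the class `PG` -/
lemma c5_PG_tay (h1 : claimTay) {W : Type} [NormedAddCommGroup W] [NormedSpace ℝ W]
    [FiniteDimensional ℝ W] {f : ℝ × E4 → W} (hf : ContDiff ℝ ∞ f)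
    (hc : ∃ c0 : W, ∀ q : ℝ × E4, 3 ≤ ‖q.2‖ → f q = c0) :
    PG (fun q : KP => f (q.1 + q.2.1 ^ 2, q.2.2.1 + q.2.1 • q.2.2.2)) := (h1 W f hf hc).1

lemma c5_PG_shift (h1 : claimTay) {f : E4 → ℝ} (hf : ContDiff ℝ ∞ f)
    (hc : ∀ x, 2 ≤ ‖x‖ → f x = 0) : PG (fun q : KP => f (q.2.2.1 + q.2.1 • q.2.2.2)) :=
  c5_PG_tay h1 (f := fun p : ℝ × E4 => f p.2) (hf.comp contDiff_snd)
    ⟨0, fun q hq => hc _ (by linarith)⟩

def c5L : KP →L[ℝ] KP :=
  c5s.prod (((1 / 2 : ℝ) • c5r).prod ((0 : KP →L[ℝ] E4).prod c5z))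

lemma c5L_apply (q : KP) : c5L q = (q.1, 1 / 2 * q.2.1, 0, q.2.2.2) := rfl

lemma c5_PG_gM (h1 : claimTay) (M : ℕ) : PG (fun q : KP => c5gM M (q.2.1 • q.2.2.2)) := by
  have h2 := c5_PG_tay h1 (W := ℝ) (f := fun p : ℝ × E4 => c5gM M ((2 : ℝ) • p.2))
    ((c5gM_smooth M).comp (by fun_prop : ContDiff ℝ ∞ fun p : ℝ × E4 => (2 : ℝ) • p.2)) ⟨0, fun q hq => by
      have h3 : c5th ((2 : ℝ) • q.2) = 0 := c5th.zero_of_le_dist (by
        have : 5 ≤ ‖(2 : ℝ) • q.2‖ := by rw [norm_smul]; norm_num; linarith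
        simpa [c5th] using this)
      simp [c5gM, h3]⟩
  have h3 := c5_PG_comp h2 c5L (fun q => le_of_eq (by rw [c5L_apply]))
    (fun q => by
      rw [c5L_apply]
      show |1 / 2 * q.2.1| ≤ |q.2.1|
      rw [abs_mul, abs_of_pos (by norm_num : (0 : ℝ) < 1 / 2)]
      linarith [abs_nonneg q.2.1])
    (fun q => by rw [c5L_apply]; simp) (fun q => rfl)
  convert h3 using 2 with q
  rw [c5L_apply]
  show _ = c5gM M ((2 : ℝ) • ((0 : E4) + (1 / 2 * q.2.1) • q.2.2.2))
  rw [zero_add, smul_smul]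
  congr 2
  ring

/-- `r^(-2M)` times `f (y + r ζ) χ(y)` -/
def c5Phi (f chi : E4 → ℝ) (M : ℕ) (q : KP) : ℝ :=
  f (q.2.2.1 + q.2.1 • q.2.2.2) * chi q.2.2.1 *
    ((‖q.2.2.2‖ ^ 2) ^ M * c5gM M (q.2.1 • q.2.2.2))

lemma c5_PG_Phi (h1 : claimTay) (h4 : claimRD) {f chi : E4 → ℝ} (hf : C5Flat f)
    (hchi : ContDiff ℝ ∞ chi) (M : ℕ) : PG (c5Phi f chi M) :=
  c5_mul_PG h4 (c5_mul_PG h4 (c5_PG_shift h1 hf.smooth hf.outer) (c5_PG_y h4 hchi))
    (c5_mul_PG h4 (c5_pow_PG h4 (c5_PG_nz h4) M) (c5_PG_gM h1 M))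

lemma c5Phi_y {f chi : E4 → ℝ} {M : ℕ} (hchi : ∀ z, 1 ≤ ‖z‖ → chi z = 0) {q : KP}
    (hq : 1 ≤ ‖q.2.2.1‖) : c5Phi f chi M q = 0 := by
  simp [c5Phi, hchi _ hq]

lemma c5Phi_x {f chi : E4 → ℝ} {M : ℕ} (hf : C5Flat f) {q : KP}
    (hq : 2 ≤ ‖q.2.2.1 + q.2.1 • q.2.2.2‖) : c5Phi f chi M q = 0 := by
  simp [c5Phi, hf.outer _ hq]

lemma c5Phi_eq {f chi : E4 → ℝ} {M : ℕ} (hf : C5Flat f) (hchi : ∀ z, 1 ≤ ‖z‖ → chi z = 0)
    (q : KP) : f (q.2.2.1 + q.2.1 • q.2.2.2) * chi q.2.2.1 =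
      q.2.1 ^ (2 * M) * c5Phi f chi M q := by
  by_cases h1 : 1 ≤ ‖q.2.2.1‖
  · rw [c5Phi_y hchi h1, hchi _ h1]; ring
  by_cases h2 : 2 ≤ ‖q.2.2.1 + q.2.1 • q.2.2.2‖
  · rw [c5Phi_x hf h2, hf.outer _ h2]; ring
  by_cases h3 : ‖q.2.2.1 + q.2.1 • q.2.2.2‖ < 3 / 2
  · simp [c5Phi, hf.inner _ h3]
  push Not at h1 h2 h3
  have h4 : ‖q.2.2.1 + q.2.1 • q.2.2.2‖ ≤ ‖q.2.2.1‖ + ‖q.2.1 • q.2.2.2‖ := norm_add_le _ _
  have h5 : ‖q.2.1 • q.2.2.2‖ ≤ ‖q.2.2.1 + q.2.1 • q.2.2.2‖ + ‖q.2.2.1‖ := by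
    have := norm_sub_le (q.2.2.1 + q.2.1 • q.2.2.2) q.2.2.1
    rwa [add_sub_cancel_left] at this
  have h6 : c5gM M (q.2.1 • q.2.2.2) = ((‖q.2.1 • q.2.2.2‖ ^ 2) ^ M)⁻¹ :=
    c5gM_eq M (by linarith) (by linarith)
  have h7 : ‖q.2.1 • q.2.2.2‖ ^ 2 = q.2.1 ^ 2 * ‖q.2.2.2‖ ^ 2 := by
    rw [norm_smul, mul_pow, Real.norm_eq_abs, sq_abs]
  have h8 : (‖q.2.1 • q.2.2.2‖ ^ 2) ^ M ≠ 0 := by
    have : ‖q.2.1 • q.2.2.2‖ ≠ 0 := by
      intro h0; linarith
    positivity
  unfold c5Phi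
  rw [h6]
  have h9 : q.2.1 ^ (2 * M) * (‖q.2.2.2‖ ^ 2) ^ M = (‖q.2.1 • q.2.2.2‖ ^ 2) ^ M := by
    rw [h7, mul_pow, pow_mul]
  have h10 : q.2.1 ^ (2 * M) * (f (q.2.2.1 + q.2.1 • q.2.2.2) * chi q.2.2.1 *
      ((‖q.2.2.2‖ ^ 2) ^ M * ((‖q.2.1 • q.2.2.2‖ ^ 2) ^ M)⁻¹)) =
      f (q.2.2.1 + q.2.1 • q.2.2.2) * chi q.2.2.1 *
        ((q.2.1 ^ (2 * M) * (‖q.2.2.2‖ ^ 2) ^ M) * ((‖q.2.1 • q.2.2.2‖ ^ 2) ^ M)⁻¹) := by ring
  rw [h10, h9, mul_inv_cancel₀ h8, mul_one]

/-! ### Derivatives of the cutoffs -/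

/-- `f(y + rζ) χ(y) r^w` -/
def c5ge (f chi : E4 → ℝ) (w : ℕ) (q : KP) : ℝ :=
  f (q.2.2.1 + q.2.1 • q.2.2.2) * chi q.2.2.1 * q.2.1 ^ w

lemma c5_shift_hasFDerivAt (q : KP) :
    HasFDerivAt (fun q : KP => q.2.2.1 + q.2.1 • q.2.2.2)
      (c5y + (q.2.1 • c5z + (c5r).smulRight q.2.2.2)) q :=
  c5y.hasFDerivAt.add (c5r.hasFDerivAt.smul c5z.hasFDerivAt)

lemma c5ge_hasFDerivAt {f chi : E4 → ℝ} (hf : ContDiff ℝ ∞ f) (hchi : ContDiff ℝ ∞ chi) (w : ℕ)
    (q : KP) : ∃ L : KP →L[ℝ] ℝ, HasFDerivAt (c5ge f chi w) L q ∧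
      (∀ v : E4, L (0, 0, 0, v) = q.2.1 * fderiv ℝ f (q.2.2.1 + q.2.1 • q.2.2.2) v *
        chi q.2.2.1 * q.2.1 ^ w) ∧
      L (0, 1, 0, 0) = fderiv ℝ f (q.2.2.1 + q.2.1 • q.2.2.2) q.2.2.2 * chi q.2.2.1 * q.2.1 ^ w +
        f (q.2.2.1 + q.2.1 • q.2.2.2) * chi q.2.2.1 * (w * q.2.1 ^ (w - 1)) := by
  have h1 : HasFDerivAt (fun q : KP => f (q.2.2.1 + q.2.1 • q.2.2.2)) _ q :=
    ((hf.differentiable (by simp) (q.2.2.1 + q.2.1 • q.2.2.2)).hasFDerivAt).comp q
      (c5_shift_hasFDerivAt q)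
  have h2 : HasFDerivAt (fun q : KP => chi q.2.2.1) ((fderiv ℝ chi q.2.2.1).comp c5y) q :=
    ((hchi.differentiable (by simp) q.2.2.1).hasFDerivAt).comp q c5y.hasFDerivAt
  have h3 : HasFDerivAt (fun q : KP => q.2.1 ^ w) ((w * q.2.1 ^ (w - 1)) • c5r) q := by
    have := (hasDerivAt_pow w q.2.1).comp_hasFDerivAt q c5r.hasFDerivAt
    exact this
  refine ⟨_, (h1.mul h2).mul h3, fun v => ?_, ?_⟩
  · simp
    ring
  · simp
    ring

lemma c5ge_dz {f chi : E4 → ℝ} (hf : ContDiff ℝ ∞ f) (hchi : ContDiff ℝ ∞ chi) (w : ℕ) (q : KP)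
    (v : E4) : dzK v (c5ge f chi w) q =
      q.2.1 * fderiv ℝ f (q.2.2.1 + q.2.1 • q.2.2.2) v * chi q.2.2.1 * q.2.1 ^ w := by
  obtain ⟨L, hL, h1, -⟩ := c5ge_hasFDerivAt hf hchi w q
  unfold dzK
  rw [hL.fderiv, h1]

lemma c5ge_dz' {f chi : E4 → ℝ} (hf : ContDiff ℝ ∞ f) (hchi : ContDiff ℝ ∞ chi) (w : ℕ)
    (i : Fin 4) : dzK (bv i) (c5ge f chi w) = c5ge (pd i f) chi (w + 1) := by
  funext q
  rw [c5ge_dz hf hchi]
  unfold c5ge pd
  ring

lemma c5ge_euler {f chi : E4 → ℝ} (hf : ContDiff ℝ ∞ f) (hchi : ContDiff ℝ ∞ chi) (w : ℕ)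
    (q : KP) : q.2.1 * drK (c5ge f chi w) q - dzK q.2.2.2 (c5ge f chi w) q =
      w * c5ge f chi w q := by
  obtain ⟨L, hL, h1, h2⟩ := c5ge_hasFDerivAt hf hchi w q
  unfold dzK drK
  rw [hL.fderiv, h1, h2]
  unfold c5ge
  rcases Nat.eq_zero_or_pos w with hw | hw
  · subst hw; simp; ring
  · have h3 : q.2.1 ^ w = q.2.1 * q.2.1 ^ (w - 1) := by
      rw [← pow_succ']; congr 1; omega
    rw [h3]
    ring

lemma c5ge_smooth {f chi : E4 → ℝ} (hf : ContDiff ℝ ∞ f) (hchi : ContDiff ℝ ∞ chi) (w : ℕ) :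
    ContDiff ℝ ∞ (c5ge f chi w) := by
  unfold c5ge
  have h1 : ContDiff ℝ ∞ (fun q : KP => q.2.2.1 + q.2.1 • q.2.2.2) := by fun_prop
  have h2 : ContDiff ℝ ∞ (fun q : KP => q.2.2.1) := by fun_prop
  have h3 : ContDiff ℝ ∞ (fun q : KP => q.2.1 ^ w) := by fun_prop
  exact ((hf.comp h1).mul (hchi.comp h2)).mul h3

/-! ### Product rules -/

section prod

variable {W : Type} [NormedAddCommGroup W] [NormedSpace ℝ W]

lemma c5_fderiv_smul {g : KP → ℝ} {G : KP → W} (hg : ContDiff ℝ ∞ g) (hG : ContDiff ℝ ∞ G)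
    (q v : KP) : fderiv ℝ (fun q => g q • G q) q v =
      g q • fderiv ℝ G q v + fderiv ℝ g q v • G q := by
  have h1 := (hg.differentiable (by simp) q).hasFDerivAt
  have h2 := (hG.differentiable (by simp) q).hasFDerivAt
  have h3 : fderiv ℝ (fun q => g q • G q) q = _ := (h1.smul h2).fderiv
  rw [h3]
  simp

lemma c5_dz_smooth {G : KP → W} (hG : ContDiff ℝ ∞ G) (v : E4) : ContDiff ℝ ∞ (dzK v G) :=
  (hG.fderiv_right (m := ∞) (by simp)).clm_apply contDiff_const

lemma c5_dz_smul {g : KP → ℝ} {G : KP → W} (hg : ContDiff ℝ ∞ g) (hG : ContDiff ℝ ∞ G)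
    (v : E4) : dzK v (fun q => g q • G q) = fun q => g q • dzK v G q + dzK v g q • G q := by
  funext q
  exact c5_fderiv_smul hg hG q _

lemma c5_dz_add {G G' : KP → W} (hG : ContDiff ℝ ∞ G) (hG' : ContDiff ℝ ∞ G')
    (v : E4) (q : KP) : dzK v (fun q => G q + G' q) q = dzK v G q + dzK v G' q := by
  unfold dzK
  rw [fderiv_fun_add (hG.differentiable (by simp) q) (hG'.differentiable (by simp) q)]
  rfl

lemma c5_dr_add {G G' : KP → W} (hG : ContDiff ℝ ∞ G) (hG' : ContDiff ℝ ∞ G')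
    (q : KP) : drK (fun q => G q + G' q) q = drK G q + drK G' q := by
  unfold drK
  rw [fderiv_fun_add (hG.differentiable (by simp) q) (hG'.differentiable (by simp) q)]
  rfl

lemma c5_dz2_smul {g : KP → ℝ} {G : KP → W} (hg : ContDiff ℝ ∞ g) (hG : ContDiff ℝ ∞ G)
    (u v : E4) (q : KP) : dzK u (dzK v (fun q => g q • G q)) q =
      g q • dzK u (dzK v G) q + dzK u g q • dzK v G q + dzK v g q • dzK u G q +
        dzK u (dzK v g) q • G q := by
  rw [c5_dz_smul hg hG, c5_dz_add (G := fun q => g q • dzK v G q)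
    (G' := fun q => dzK v g q • G q) (hg.smul (c5_dz_smooth hG v)) ((c5_dz_smooth hg v).smul hG)]
  have h1 := congrFun (c5_dz_smul hg (c5_dz_smooth hG v) u) q
  have h2 := congrFun (c5_dz_smul (c5_dz_smooth hg v) hG u) q
  rw [h1, h2]
  abel

/-- derivatives of slices -/
lemma c5_slice {G : KP → W} (hG : ContDiff ℝ ∞ G) (s r : ℝ) (y z v : E4) :
    fderiv ℝ (fun x => G (s, r, y, x)) z v = dzK v G (s, r, y, z) := by
  have h1 : HasFDerivAt (fun x : E4 => ((s, r, y, x) : KP))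
      ((0 : E4 →L[ℝ] ℝ).prod ((0 : E4 →L[ℝ] ℝ).prod ((0 : E4 →L[ℝ] E4).prod
        (ContinuousLinearMap.id ℝ E4)))) z :=
    (hasFDerivAt_const s z).prodMk ((hasFDerivAt_const r z).prodMk
      ((hasFDerivAt_const y z).prodMk (hasFDerivAt_id z)))
  have h2 := ((hG.differentiable (by simp) (s, r, y, z)).hasFDerivAt).comp z h1
  have h3 : fderiv ℝ (fun x => G (s, r, y, x)) z = _ := h2.fderiv
  rw [h3]
  rfl

lemma c5_pd_slice {G : KP → W} (hG : ContDiff ℝ ∞ G) (s r : ℝ) (y z : E4) (i : Fin 4) :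
    pd i (fun x => G (s, r, y, x)) z = dzK (bv i) G (s, r, y, z) := c5_slice hG s r y z (bv i)

lemma c5_pd2_slice {G : KP → W} (hG : ContDiff ℝ ∞ G) (s r : ℝ) (y z : E4) (i j : Fin 4) :
    pd i (pd j (fun x => G (s, r, y, x))) z = dzK (bv i) (dzK (bv j) G) (s, r, y, z) := by
  have h1 : pd j (fun x => G (s, r, y, x)) = fun x => dzK (bv j) G (s, r, y, x) := by
    funext x; exact c5_pd_slice hG s r y x j
  rw [h1]
  exact c5_pd_slice (c5_dz_smooth hG _) s r y z i

lemma c5_dr_zero {G : KP → W} (hG : ContDiff ℝ ∞ G)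
    (h : ∀ (s r r' : ℝ) (y z : E4), G (s, r, y, z) = G (s, r', y, z)) (q : KP) :
    drK G q = 0 := by
  unfold drK
  rw [← (hG.differentiable (by simp) q).lineDeriv_eq_fderiv]
  unfold lineDeriv
  have h1 : (fun t : ℝ => G (q + t • ((0, 1, 0, 0) : KP))) = fun _ => G q := by
    funext t
    have e1 : q + t • ((0, 1, 0, 0) : KP) = (q.1, q.2.1 + t, q.2.2.1, q.2.2.2) := by
      ext <;> simp
    rw [e1, h q.1 (q.2.1 + t) q.2.1]
  rw [h1]
  simp

end prod

/-! ### The operator on a product -/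

section model

variable {V : Type} [NormedAddCommGroup V] [InnerProductSpace ℝ V] [FiniteDimensional ℝ V]

/-- the lower part of the operator as a linear function of its coefficients -/
def c5Psi (X2 : Fin 4 → Fin 4 → (V →L[ℝ] V)) (X1 : Fin 4 → (V →L[ℝ] V)) (X0 : V →L[ℝ] V) :
    ((Fin 4 → Fin 4 → ℝ) × (Fin 4 → (V →L[ℝ] V)) × (V →L[ℝ] V)) →ₗ[ℝ] (V →L[ℝ] V) where
  toFun p := -(∑ i, ∑ l, p.1 i l • X2 i l) + ∑ i, (p.2.1 i).comp (X1 i) + p.2.2.comp X0
  map_add' p p' := by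
    simp only [Prod.fst_add, Prod.snd_add, Pi.add_apply, add_smul, Finset.sum_add_distrib,
      ContinuousLinearMap.add_comp]
    abel
  map_smul' c p := by
    simp only [Prod.smul_fst, Prod.smul_snd, Pi.smul_apply, smul_eq_mul, RingHom.id_apply,
      ContinuousLinearMap.smul_comp, smul_add, smul_neg, Finset.smul_sum, smul_smul]

lemma c5Psi_apply (X2 : Fin 4 → Fin 4 → (V →L[ℝ] V)) (X1 : Fin 4 → (V →L[ℝ] V)) (X0 : V →L[ℝ] V)
    (p : (Fin 4 → Fin 4 → ℝ) × (Fin 4 → (V →L[ℝ] V)) × (V →L[ℝ] V)) :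
    c5Psi X2 X1 X0 p =
      -(∑ i, ∑ l, p.1 i l • X2 i l) + ∑ i, (p.2.1 i).comp (X1 i) + p.2.2.comp X0 := rfl

variable (m : Model V)

/-- the argument `(s + r², y + r ζ)` -/
def c5x (q : KP) : ℝ × E4 := (q.1 + q.2.1 ^ 2, q.2.2.1 + q.2.1 • q.2.2.2)

/-- the coefficients of the operator -/
def c5co (q : KP) : (Fin 4 → Fin 4 → ℝ) × (Fin 4 → (V →L[ℝ] V)) × (V →L[ℝ] V) :=
  (fun i l => m.a (c5x q) i l, fun i => q.2.1 • m.b (c5x q) i, q.2.1 ^ 2 • m.c (c5x q))

/-- `calL` with the Euler part separated -/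
lemma c5_calL (H : KP → (V →L[ℝ] V)) (q : KP) :
    m.calL H q = (1 / 2 : ℝ) • (q.2.1 • drK H q - dzK q.2.2.2 H q - (4 : ℝ) • H q) +
      c5Psi (fun i j => dzK (bv i) (dzK (bv j) H) q) (fun i => dzK (bv i) H q) (H q)
        (c5co m q) := by
  rw [c5Psi_apply]
  unfold Model.calL c5co c5x
  simp only [ContinuousLinearMap.smul_comp]
  abel

lemma c5_calL_add {H H' : KP → (V →L[ℝ] V)} (hH : ContDiff ℝ ∞ H) (hH' : ContDiff ℝ ∞ H')
    (q : KP) : m.calL (fun q => H q + H' q) q = m.calL H q + m.calL H' q := by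
  have h1 : ∀ v, dzK v (fun q => H q + H' q) = fun q => dzK v H q + dzK v H' q := fun v => by
    funext q; exact c5_dz_add hH hH' v q
  have h2 : ∀ u v, dzK u (dzK v (fun q => H q + H' q)) q =
      dzK u (dzK v H) q + dzK u (dzK v H') q := fun u v => by
    rw [h1]; exact c5_dz_add (c5_dz_smooth hH v) (c5_dz_smooth hH' v) u q
  rw [c5_calL, c5_calL, c5_calL, c5_dr_add hH hH']
  simp only [h2]
  simp only [h1]
  rw [c5Psi_apply, c5Psi_apply, c5Psi_apply]
  simp only [smul_add, Finset.sum_add_distrib, ContinuousLinearMap.comp_add, smul_sub]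
  abel

lemma c5_calL_zero (q : KP) : m.calL (fun _ => (0 : V →L[ℝ] V)) q = 0 := by
  have h1 : ∀ v : E4, dzK v (fun _ : KP => (0 : V →L[ℝ] V)) = fun _ => 0 := fun v => by
    funext q; simp [dzK]
  rw [c5_calL, c5Psi_apply]
  simp [h1, drK]

lemma c5_calL_sum {ι : Type*} (t : Finset ι) {H : ι → KP → (V →L[ℝ] V)}
    (hH : ∀ i ∈ t, ContDiff ℝ ∞ (H i)) (q : KP) :
    m.calL (fun q => ∑ i ∈ t, H i q) q = ∑ i ∈ t, m.calL (H i) q := by
  classical
  induction t using Finset.induction_on with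
  | empty => simpa using c5_calL_zero m q
  | insert a s ha ih =>
    simp_rw [Finset.sum_insert ha]
    rw [c5_calL_add m (hH a (Finset.mem_insert_self _ _))
      (ContDiff.sum fun i hi => hH i (Finset.mem_insert_of_mem hi)),
      ih fun i hi => hH i (Finset.mem_insert_of_mem hi)]

/-- the operator on `G`, with `r^w` split off, without cutoff -/
def c5D (w : ℕ) (G : KP → (V →L[ℝ] V)) (q : KP) : V →L[ℝ] V :=
  (1 / 2 : ℝ) • (((w : ℝ) - 4) • G q - dzK q.2.2.2 G q) +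
    c5Psi (fun i j => dzK (bv i) (dzK (bv j) G) q) (fun i => dzK (bv i) G q) (G q) (c5co m q)

/-- the terms where the cutoff is differentiated -/
def c5E (g1 : Fin 4 → KP → ℝ) (g2 : Fin 4 → Fin 4 → KP → ℝ) (G : KP → (V →L[ℝ] V)) (q : KP) :
    V →L[ℝ] V :=
  c5Psi (fun i j => g1 i q • dzK (bv j) G q + g1 j q • dzK (bv i) G q + g2 i j q • G q)
    (fun i => g1 i q • G q) 0 (c5co m q)

lemma c5_calL_mul {f : E4 → ℝ} (hf : ContDiff ℝ ∞ f) (w : ℕ) {G : KP → (V →L[ℝ] V)}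
    (hG : ContDiff ℝ ∞ G) (hr : ∀ q, drK G q = 0) (q : KP) :
    m.calL (fun q => c5ge f m.chi w q • G q) q = c5ge f m.chi w q • c5D m w G q +
      c5E m (fun i => c5ge (pd i f) m.chi (w + 1))
        (fun i j => c5ge (pd i (pd j f)) m.chi (w + 2)) G q := by
  have hg := c5ge_smooth hf m.chi_smooth w
  have heul := c5ge_euler hf m.chi_smooth w q
  have hdr : drK (fun q => c5ge f m.chi w q • G q) q = drK (c5ge f m.chi w) q • G q := by
    have := c5_fderiv_smul hg hG q (0, 1, 0, 0)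
    unfold drK
    rw [this]
    have h0 : fderiv ℝ G q (0, 1, 0, 0) = 0 := hr q
    rw [h0, smul_zero, zero_add]
  have hdz : ∀ v, dzK v (fun q => c5ge f m.chi w q • G q) q =
      c5ge f m.chi w q • dzK v G q + dzK v (c5ge f m.chi w) q • G q := fun v =>
    c5_fderiv_smul hg hG q _
  have hdz2 : ∀ i j, dzK (bv i) (dzK (bv j) (fun q => c5ge f m.chi w q • G q)) q =
      c5ge f m.chi w q • dzK (bv i) (dzK (bv j) G) q +
      (c5ge (pd i f) m.chi (w + 1) q • dzK (bv j) G q +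
        c5ge (pd j f) m.chi (w + 1) q • dzK (bv i) G q +
        c5ge (pd i (pd j f)) m.chi (w + 2) q • G q) := fun i j => by
    rw [c5_dz2_smul hg hG, c5ge_dz' hf m.chi_smooth, c5ge_dz' hf m.chi_smooth,
      c5ge_dz' (c5_pd_smooth hf j) m.chi_smooth]
    abel
  rw [c5_calL, hdr]
  simp only [hdz2]
  simp only [hdz]
  simp only [c5ge_dz' hf m.chi_smooth]
  unfold c5D c5E
  rw [c5Psi_apply, c5Psi_apply, c5Psi_apply]
  have e1 : (1 / 2 : ℝ) • (q.2.1 • drK (c5ge f m.chi w) q • G q -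
      (c5ge f m.chi w q • dzK q.2.2.2 G q + dzK q.2.2.2 (c5ge f m.chi w) q • G q) -
      (4 : ℝ) • c5ge f m.chi w q • G q) =
      c5ge f m.chi w q • (1 / 2 : ℝ) • (((w : ℝ) - 4) • G q - dzK q.2.2.2 G q) := by
    have e2 : dzK q.2.2.2 (c5ge f m.chi w) q =
        q.2.1 * drK (c5ge f m.chi w) q - w * c5ge f m.chi w q := by linarith
    rw [e2]
    module
  rw [e1]
  simp only [smul_add, smul_neg, Finset.smul_sum, Finset.sum_add_distrib,
    ContinuousLinearMap.comp_add, ContinuousLinearMap.comp_smul, ContinuousLinearMap.comp_zero,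
    smul_comm (c5ge f m.chi w q), neg_add]
  abel

/-! ### Expansion of the coefficients -/

lemma c5_sum_shift {W : Type} [NormedAddCommGroup W] [NormedSpace ℝ W] (r : ℝ) (c : ℕ → W)
    (m0 n : ℕ) : ∑ j ∈ Finset.range n, r ^ j • (if m0 ≤ j then c (j - m0) else 0) =
      ∑ j ∈ Finset.range (n - m0), r ^ (m0 + j) • c j := by
  induction n with
  | zero => simp
  | succ n ih =>
    rw [Finset.sum_range_succ, ih]
    by_cases h : m0 ≤ n
    · rw [if_pos h, Nat.succ_sub h, Finset.sum_range_succ, Nat.add_sub_cancel' h]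
    · rw [if_neg h, smul_zero, add_zero, Nat.sub_eq_zero_of_le (by omega : n ≤ m0),
        Nat.sub_eq_zero_of_le (by omega : n + 1 ≤ m0)]

lemma c5_expand (h1 : claimTay) (h4 : claimRD) {W : Type} [NormedAddCommGroup W]
    [NormedSpace ℝ W] [FiniteDimensional ℝ W] {f : ℝ × E4 → W} (hf : ContDiff ℝ ∞ f)
    (hc : ∃ c0 : W, ∀ q : ℝ × E4, 3 ≤ ‖q.2‖ → f q = c0) (m0 n : ℕ) :
    ∃ rem : KP → W, PG rem ∧ ∀ q : KP, q.2.1 ^ m0 • f (c5x q) =
      ∑ j ∈ Finset.range n, q.2.1 ^ j •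
        (if m0 ≤ j then tayC f (j - m0) q.1 q.2.2.1 q.2.2.2 else 0) + q.2.1 ^ n • rem q := by
  have h2 : ∀ n' : ℕ, ∃ rem : KP → W, PG rem ∧ ∀ q : KP, f (c5x q) =
      ∑ j ∈ Finset.range n', q.2.1 ^ j • tayC f j q.1 q.2.2.1 q.2.2.2 + q.2.1 ^ n' • rem q := by
    intro n'
    cases n' with
    | zero =>
      refine ⟨fun q => f (c5x q), (h1 W f hf hc).1, fun q => ?_⟩
      simp
    | succ n' =>
      obtain ⟨rem, hrem, he⟩ := (h1 W f hf hc).2.2 n'
      exact ⟨rem, hrem, he⟩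
  obtain ⟨rem, hrem, he⟩ := h2 (n - m0)
  refine ⟨fun q => q.2.1 ^ (m0 + (n - m0) - n) • rem q,
    c5_smul_PG h4 (c5_pow_PG h4 c5_PG_r _) hrem, fun q => ?_⟩
  rw [c5_sum_shift q.2.1 (fun j => tayC f j q.1 q.2.2.1 q.2.2.2), he q, smul_add,
    Finset.smul_sum, smul_smul, smul_smul, ← pow_add, ← pow_add]
  congr 1
  · refine Finset.sum_congr rfl fun j _ => ?_
    rw [smul_smul, ← pow_add]
  · congr 2
    omega

/-- coefficient of `r^j` -/
def c5coT (j : ℕ) (q : KP) : (Fin 4 → Fin 4 → ℝ) × (Fin 4 → (V →L[ℝ] V)) × (V →L[ℝ] V) :=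
  (fun i l => tayC (fun p => m.a p i l) j q.1 q.2.2.1 q.2.2.2,
    fun i => if 1 ≤ j then tayC (fun p => m.b p i) (j - 1) q.1 q.2.2.1 q.2.2.2 else 0,
    if 2 ≤ j then tayC m.c (j - 2) q.1 q.2.2.1 q.2.2.2 else 0)

lemma c5_co_expand (h1 : claimTay) (h4 : claimRD) (n : ℕ) :
    ∃ (ra : Fin 4 → Fin 4 → KP → ℝ) (rb : Fin 4 → KP → (V →L[ℝ] V)) (rc : KP → (V →L[ℝ] V)),
      (∀ i l, PG (ra i l)) ∧ (∀ i, PG (rb i)) ∧ PG rc ∧ ∀ q : KP, c5co m q =
        ∑ j ∈ Finset.range n, q.2.1 ^ j • c5coT m j q +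
          q.2.1 ^ n • (fun i l => ra i l q, fun i => rb i q, rc q) := by
  have ha : ∀ i l, ∃ rem : KP → ℝ, PG rem ∧ ∀ q : KP, q.2.1 ^ 0 • m.a (c5x q) i l =
      ∑ j ∈ Finset.range n, q.2.1 ^ j •
        (if 0 ≤ j then tayC (fun p => m.a p i l) (j - 0) q.1 q.2.2.1 q.2.2.2 else 0) +
          q.2.1 ^ n • rem q := fun i l =>
    c5_expand h1 h4 (f := fun p => m.a p i l) (m.a_smooth i l)
      ⟨(1 : Matrix (Fin 4) (Fin 4) ℝ) i l, fun q hq => by rw [m.a_out q hq]⟩ 0 n
  have hb : ∀ i, ∃ rem : KP → (V →L[ℝ] V), PG rem ∧ ∀ q : KP, q.2.1 ^ 1 • m.b (c5x q) i =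
      ∑ j ∈ Finset.range n, q.2.1 ^ j •
        (if 1 ≤ j then tayC (fun p => m.b p i) (j - 1) q.1 q.2.2.1 q.2.2.2 else 0) +
          q.2.1 ^ n • rem q := fun i =>
    c5_expand h1 h4 (f := fun p => m.b p i) (m.b_smooth i)
      ⟨0, fun q hq => m.b_out q hq i⟩ 1 n
  obtain ⟨rc, hrc, hrc'⟩ := c5_expand h1 h4 (f := m.c) m.c_smooth ⟨0, fun q hq => m.c_out q hq⟩ 2 n
  choose ra hra hra' using ha
  choose rb hrb hrb' using hb
  refine ⟨ra, rb, rc, hra, hrb, hrc, fun q => ?_⟩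
  refine Prod.ext ?_ (Prod.ext ?_ ?_)
  · funext i l
    have := hra' i l q
    simp only [pow_zero, one_smul, Nat.zero_le, if_true, Nat.sub_zero] at this
    simp only [Prod.fst_add, Prod.smul_fst, Prod.fst_sum, Pi.add_apply, Finset.sum_apply,
      Pi.smul_apply, c5coT, c5co]
    exact this
  · funext i
    have := hrb' i q
    simp only [pow_one] at this
    simp only [Prod.snd_add, Prod.fst_add, Prod.smul_snd, Prod.smul_fst, Prod.snd_sum,
      Prod.fst_sum, Pi.add_apply, Finset.sum_apply, Pi.smul_apply, c5coT, c5co]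
    exact this
  · have := hrc' q
    simp only [Prod.snd_add, Prod.smul_snd, Prod.snd_sum, c5coT, c5co]
    exact this

lemma c5_Psi_RD (h4 : claimRD) {X2 : Fin 4 → Fin 4 → KP → (V →L[ℝ] V)}
    {X1 : Fin 4 → KP → (V →L[ℝ] V)} {X0 : KP → (V →L[ℝ] V)} {ca : Fin 4 → Fin 4 → KP → ℝ}
    {cb : Fin 4 → KP → (V →L[ℝ] V)} {cc : KP → (V →L[ℝ] V)} (h2 : ∀ i l, RD (X2 i l))
    (h1 : ∀ i, RD (X1 i)) (h0 : RD X0) (ka : ∀ i l, PG (ca i l)) (kb : ∀ i, PG (cb i))
    (kc : PG cc) : RD fun q => c5Psi (fun i l => X2 i l q) (fun i => X1 i q) (X0 q)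
      (fun i l => ca i l q, fun i => cb i q, cc q) := by
  have e1 : RD fun q => -(∑ i, ∑ l, ca i l q • X2 i l q) :=
    c5_neg_RD h4 (c5_sum_RD h4 _ fun i _ => c5_sum_RD h4 _ fun l _ =>
      c5_smul_RD h4 (ka i l) (h2 i l))
  have e2 : RD fun q => ∑ i, (cb i q).comp (X1 i q) :=
    c5_sum_RD h4 _ fun i _ => c5_comp_RD h4 (kb i) (h1 i)
  have e3 : RD fun q => (cc q).comp (X0 q) := c5_comp_RD h4 kc h0
  exact c5_add_RD h4 (c5_add_RD h4 e1 e2) e3

lemma c5_co_PG (h1 : claimTay) (h4 : claimRD) :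
    (∀ i l, PG fun q => m.a (c5x q) i l) ∧ (∀ i, PG fun q : KP => q.2.1 • m.b (c5x q) i) ∧
      PG fun q : KP => q.2.1 ^ 2 • m.c (c5x q) := by
  refine ⟨fun i l => ?_, fun i => ?_, ?_⟩
  · exact c5_PG_tay h1 (f := fun p => m.a p i l) (m.a_smooth i l)
      ⟨(1 : Matrix (Fin 4) (Fin 4) ℝ) i l, fun q hq => by rw [m.a_out q hq]⟩
  · exact c5_smul_PG h4 c5_PG_r (c5_PG_tay h1 (f := fun p => m.b p i) (m.b_smooth i)
      ⟨0, fun q hq => m.b_out q hq i⟩)
  · exact c5_smul_PG h4 (c5_pow_PG h4 c5_PG_r 2) (c5_PG_tay h1 (f := m.c) m.c_smooth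
      ⟨0, fun q hq => m.c_out q hq⟩)

/-! ### The kernel of a formal solution -/

/-- the kernel without cutoff -/
def c5G (P : ℕ → ℝ → E4 → E4 → (V →L[ℝ] V)) (w : ℕ) (q : KP) : V →L[ℝ] V :=
  gaussK (m.a (q.1, q.2.2.1)) q.2.2.2 • P w q.1 q.2.2.1 q.2.2.2

lemma c5G_RD (h4 : claimRD) (h4b : claimGauss) {P : ℕ → ℝ → E4 → E4 → (V →L[ℝ] V)}
    (hP : m.IsFormal P) (w : ℕ) : RD (c5G m P w) :=
  c5_smul_RD' h4 (h4b.1 m.a m.a_smooth m.a_pos) (h4.2.2 _ _ (hP.poly w))

lemma c5G_dr (h4 : claimRD) (h4b : claimGauss) {P : ℕ → ℝ → E4 → E4 → (V →L[ℝ] V)}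
    (hP : m.IsFormal P) (w : ℕ) (q : KP) : drK (c5G m P w) q = 0 :=
  c5_dr_zero (c5G_RD m h4 h4b hP w).1 (fun _ _ _ _ _ => rfl) q

lemma c5_kerH_eq (P : ℕ → ℝ → E4 → E4 → (V →L[ℝ] V)) (N : ℕ) :
    m.kerH P N = fun q => ∑ w ∈ Finset.range (N + 1), c5ge etaC m.chi w q • c5G m P w q := by
  funext q
  unfold Model.kerH c5ge c5G
  rw [Finset.smul_sum]
  refine Finset.sum_congr rfl fun w _ => ?_
  rw [smul_smul, smul_smul]
  congr 1
  ring

/-- the part of `c5D` of order `j` -/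
def c5T (P : ℕ → ℝ → E4 → E4 → (V →L[ℝ] V)) (w j : ℕ) (q : KP) : V →L[ℝ] V :=
  (if j = 0 then (1 / 2 : ℝ) • (((w : ℝ) - 4) • c5G m P w q - dzK q.2.2.2 (c5G m P w) q) else 0) +
    c5Psi (fun i l => dzK (bv i) (dzK (bv l) (c5G m P w)) q) (fun i => dzK (bv i) (c5G m P w) q)
      (c5G m P w q) (c5coT m j q)

lemma c5T_sum (h4 : claimRD) (h4b : claimGauss) {P : ℕ → ℝ → E4 → E4 → (V →L[ℝ] V)}
    (hP : m.IsFormal P) (w : ℕ) (q : KP) :
    ∑ k ∈ Finset.range (w + 1), c5T m P k (w - k) q = 0 := by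
  obtain ⟨s, r, y, z⟩ := q
  have hrec := hP.recur w s y z
  have hsm : ∀ k, ContDiff ℝ ∞ (c5G m P k) := fun k => (c5G_RD m h4 h4b hP k).1
  have hsl : ∀ k, (fun x => gaussK (m.a (s, y)) x • P k s y x) = fun x => c5G m P k (s, r, y, x) :=
    fun k => rfl
  have e0 : c5T m P w 0 (s, r, y, z) =
      (1 / 2 : ℝ) • (((w : ℝ) - 4) • (gaussK (m.a (s, y)) z • P w s y z)
        - fderiv ℝ (fun x => gaussK (m.a (s, y)) x • P w s y x) z z)
      - (∑ i, ∑ j, m.a (s, y) i j •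
        pd i (pd j fun x => gaussK (m.a (s, y)) x • P w s y x) z) := by
    unfold c5T
    rw [if_pos rfl, hsl, c5_slice (hsm w)]
    simp only [c5_pd2_slice (hsm w)]
    rw [c5Psi_apply]
    unfold c5coT tayC
    simp [c5G]
    abel
  have e1 : ∀ k ∈ Finset.range w, c5T m P k (w - k) (s, r, y, z) =
      m.opTay (w - k) (fun x => gaussK (m.a (s, y)) x • P k s y x) s y z := by
    intro k hk
    have hkw : 1 ≤ w - k := by have := Finset.mem_range.1 hk; omega
    unfold c5T Model.opTay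
    rw [if_neg (by omega), zero_add, hsl]
    simp only [c5_pd2_slice (hsm k), c5_pd_slice (hsm k)]
    rw [c5Psi_apply]
    unfold c5coT
    simp only [if_pos hkw]
    by_cases h2 : 2 ≤ w - k
    · simp only [if_pos h2]
    · simp only [if_neg h2, ContinuousLinearMap.zero_comp]
  rw [Finset.sum_range_succ, Nat.sub_self, e0, Finset.sum_congr rfl e1, add_comm]
  exact hrec

theorem claimParam_proof (h1 : claimTay) (h4 : claimRD) (h4b : claimGauss) : claimParam := by
  intro V _ _ _ m P hP N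
  have hG : ∀ w, RD (c5G m P w) := fun w => c5G_RD m h4 h4b hP w
  have hker := c5_kerH_eq m P N
  have hcut : PG (fun q : KP => etaC (q.2.2.1 + q.2.1 • q.2.2.2) * m.chi q.2.2.1) :=
    c5_mul_PG h4 (c5_PG_shift h1 c5_eta_smooth fun x hx => c5_eta_zero hx)
      (c5_PG_y h4 m.chi_smooth)
  have hge : ∀ w, PG (c5ge etaC m.chi w) := fun w =>
    c5_mul_PG h4 hcut (c5_pow_PG h4 c5_PG_r w)
  refine ⟨?_, ?_, ?_⟩
  · rw [hker]
    exact c5_sum_RD h4 _ fun w _ => c5_smul_RD h4 (hge w) (hG w)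
  · intro s y
    have e1 : ∀ z, m.kerH P N (s, 0, y, z) =
        (m.chi y * gaussK (m.a (s, y)) z) • ContinuousLinearMap.id ℝ V := by
      intro z
      unfold Model.kerH
      rw [Finset.sum_eq_single_of_mem 0 (by simp)]
      · rw [hP.zero]
        simp only [zero_smul, add_zero, pow_zero, one_smul]
        congr 2
        by_cases hy : 1 ≤ ‖y‖
        · rw [m.chi_supp _ hy, mul_zero]
        · push Not at hy
          rw [c5_eta_one (by linarith), one_mul]
      · intro w _ hw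
        simp [hw]
    simp_rw [e1, mul_smul]
    rw [integral_smul, integral_smul_const, h4b.2 _ (m.a_pos _), one_smul]
  · -- the error
    have hco := fun n => c5_co_expand m h1 h4 n
    choose ra rb rc hra hrb hrc hexp using hco
    obtain ⟨R, hR⟩ : ∃ R : ℕ → KP → (V →L[ℝ] V), R = fun w q =>
        c5Psi (fun i l => dzK (bv i) (dzK (bv l) (c5G m P w)) q)
          (fun i => dzK (bv i) (c5G m P w) q) (c5G m P w q)
          (fun i l => ra (N + 1 - w) i l q, fun i => rb (N + 1 - w) i q, rc (N + 1 - w) q) :=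
      ⟨_, rfl⟩
    have hRRD : ∀ w, RD (R w) := fun w => by
      rw [hR]
      exact c5_Psi_RD h4 (fun i l => c5_dz_RD h4 (c5_dz_RD h4 (hG w) _) _)
        (fun i => c5_dz_RD h4 (hG w) _) (hG w) (hra _) (hrb _) (hrc _)
    -- expansion of the operator
    have hD : ∀ w ∈ Finset.range (N + 1), ∀ q : KP, q.2.1 ^ w • c5D m w (c5G m P w) q =
        (∑ j ∈ Finset.range (N + 1 - w), (q.2.1 ^ w * q.2.1 ^ j) • c5T m P w j q) +
          q.2.1 ^ (N + 1) • R w q := by
      intro w hw q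
      have hw' : w < N + 1 := Finset.mem_range.1 hw
      have e1 : c5D m w (c5G m P w) q =
          (∑ j ∈ Finset.range (N + 1 - w), q.2.1 ^ j • c5T m P w j q) +
            q.2.1 ^ (N + 1 - w) • R w q := by
        unfold c5D
        rw [hexp (N + 1 - w) q, map_add, map_sum, LinearMap.map_smul, hR, ← add_assoc]
        congr 1
        unfold c5T
        simp only [smul_add, Finset.sum_add_distrib, LinearMap.map_smul]
        congr 1
        rw [Finset.sum_eq_single_of_mem 0 (Finset.mem_range.2 (by omega))]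
        · simp
        · intro j _ hj
          simp [hj]
      rw [e1, smul_add, Finset.smul_sum, smul_smul, ← pow_add,
        show w + (N + 1 - w) = N + 1 by omega]
      congr 1
      exact Finset.sum_congr rfl fun j _ => by rw [smul_smul]
    have hDsum : ∀ q : KP, ∑ w ∈ Finset.range (N + 1), q.2.1 ^ w • c5D m w (c5G m P w) q =
        q.2.1 ^ (N + 1) • ∑ w ∈ Finset.range (N + 1), R w q := by
      intro q
      rw [Finset.sum_congr rfl fun w hw => hD w hw q, Finset.sum_add_distrib, ← Finset.smul_sum,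
        ← Finset.sum_range_diag_flip (N + 1)
          (fun w j => (q.2.1 ^ w * q.2.1 ^ j) • c5T m P w j q)]
      rw [Finset.sum_eq_zero, zero_add]
      intro W _
      have e2 : ∀ k ∈ Finset.range (W + 1), (q.2.1 ^ k * q.2.1 ^ (W - k)) • c5T m P k (W - k) q =
          q.2.1 ^ W • c5T m P k (W - k) q := by
        intro k hk
        have : k ≤ W := by have := Finset.mem_range.1 hk; omega
        rw [← pow_add, Nat.add_sub_cancel' this]
      rw [Finset.sum_congr rfl e2, ← Finset.smul_sum, c5T_sum m h4 h4b hP W q, smul_zero]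
    -- the terms with derivatives of the cutoff
    obtain ⟨g1, hg1⟩ : ∃ g1 : ℕ → Fin 4 → KP → ℝ, g1 = fun w i q =>
      q.2.1 ^ (w + 1 + (N + 1)) * c5Phi (pd i etaC) m.chi (N + 1) q := ⟨_, rfl⟩
    obtain ⟨g2, hg2⟩ : ∃ g2 : ℕ → Fin 4 → Fin 4 → KP → ℝ, g2 = fun w i j q =>
      q.2.1 ^ (w + 2 + (N + 1)) * c5Phi (pd i (pd j etaC)) m.chi (N + 1) q := ⟨_, rfl⟩
    have hg1PG : ∀ w i, PG (g1 w i) := fun w i => by
      rw [hg1]
      exact c5_mul_PG h4 (c5_pow_PG h4 c5_PG_r _) (c5_PG_Phi h1 h4 (c5_flat_eta i) m.chi_smooth _)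
    have hg2PG : ∀ w i j, PG (g2 w i j) := fun w i j => by
      rw [hg2]
      exact c5_mul_PG h4 (c5_pow_PG h4 c5_PG_r _)
        (c5_PG_Phi h1 h4 ((c5_flat_eta j).pd i) m.chi_smooth _)
    have hgen : ∀ (f : E4 → ℝ), C5Flat f → ∀ (w : ℕ) (q : KP), c5ge f m.chi w q =
        q.2.1 ^ (N + 1) * (q.2.1 ^ (w + (N + 1)) * c5Phi f m.chi (N + 1) q) := by
      intro f hf w q
      unfold c5ge
      rw [c5Phi_eq (M := N + 1) hf m.chi_supp q]
      ring
    have hE : ∀ (w : ℕ) (q : KP), c5E m (fun i => c5ge (pd i etaC) m.chi (w + 1))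
        (fun i j => c5ge (pd i (pd j etaC)) m.chi (w + 2)) (c5G m P w) q =
          q.2.1 ^ (N + 1) • c5E m (g1 w) (g2 w) (c5G m P w) q := by
      intro w q
      unfold c5E
      rw [c5Psi_apply, c5Psi_apply]
      simp only [hgen _ (c5_flat_eta _), hgen _ ((c5_flat_eta _).pd _)]
      rw [hg1, hg2]
      simp only [ContinuousLinearMap.comp_smul, smul_add, smul_neg, Finset.smul_sum, smul_smul,
        ContinuousLinearMap.comp_zero, smul_zero]
      congr 2
      · congr 1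
        refine Finset.sum_congr rfl fun i _ => Finset.sum_congr rfl fun j _ => ?_
        congr 1
        · congr 1
          · congr 1; ring
          · congr 1; ring
        · congr 1; ring
    obtain ⟨ca, cb, cc⟩ := c5_co_PG m h1 h4
    have hERD : ∀ w, RD (c5E m (g1 w) (g2 w) (c5G m P w)) := fun w => by
      unfold c5E
      exact c5_Psi_RD h4
        (X2 := fun i j q => g1 w i q • dzK (bv j) (c5G m P w) q +
          g1 w j q • dzK (bv i) (c5G m P w) q + g2 w i j q • c5G m P w q)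
        (X1 := fun i q => g1 w i q • c5G m P w q) (X0 := fun _ => 0)
        (fun i j => c5_add_RD h4 (c5_add_RD h4
          (c5_smul_RD h4 (hg1PG w i) (c5_dz_RD h4 (hG w) _))
          (c5_smul_RD h4 (hg1PG w j) (c5_dz_RD h4 (hG w) _)))
          (c5_smul_RD h4 (hg2PG w i j) (hG w)))
        (fun i => c5_smul_RD h4 (hg1PG w i) (hG w)) c5_RD_zero ca cb cc
    have hE0 : ∀ (w : ℕ) (q : KP), (∀ i, g1 w i q = 0) → (∀ i j, g2 w i j q = 0) →
        c5E m (g1 w) (g2 w) (c5G m P w) q = 0 := by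
      intro w q k1 k2
      unfold c5E
      rw [c5Psi_apply]
      simp [k1, k2]
    refine ⟨fun q => (etaC (q.2.2.1 + q.2.1 • q.2.2.2) * m.chi q.2.2.1) •
        (∑ w ∈ Finset.range (N + 1), R w q) +
        ∑ w ∈ Finset.range (N + 1), c5E m (g1 w) (g2 w) (c5G m P w) q, ?_, ?_, ?_, ?_⟩
    · exact c5_add_RD h4 (c5_smul_RD h4 hcut (c5_sum_RD h4 _ fun w _ => hRRD w))
        (c5_sum_RD h4 _ fun w _ => hERD w)
    · intro q hq
      simp only
      rw [m.chi_supp _ hq, mul_zero, zero_smul, zero_add]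
      refine Finset.sum_eq_zero fun w _ => hE0 w q (fun i => ?_) fun i j => ?_
      · rw [hg1]; simp only; rw [c5Phi_y m.chi_supp hq, mul_zero]
      · rw [hg2]; simp only; rw [c5Phi_y m.chi_supp hq, mul_zero]
    · intro q hq
      simp only
      rw [c5_eta_zero hq, zero_mul, zero_smul, zero_add]
      refine Finset.sum_eq_zero fun w _ => hE0 w q (fun i => ?_) fun i j => ?_
      · rw [hg1]; simp only; rw [c5Phi_x (c5_flat_eta i) hq, mul_zero]
      · rw [hg2]; simp only; rw [c5Phi_x ((c5_flat_eta j).pd i) hq, mul_zero]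
    · intro q
      rw [hker, c5_calL_sum m (Finset.range (N + 1))
        (H := fun w q => c5ge etaC m.chi w q • c5G m P w q)
        (fun w _ => (c5ge_smooth c5_eta_smooth m.chi_smooth w).smul (hG w).1)]
      have e3 : ∀ w ∈ Finset.range (N + 1),
          m.calL (fun q => c5ge etaC m.chi w q • c5G m P w q) q =
          (etaC (q.2.2.1 + q.2.1 • q.2.2.2) * m.chi q.2.2.1) •
            (q.2.1 ^ w • c5D m w (c5G m P w) q) +
          q.2.1 ^ (N + 1) • c5E m (g1 w) (g2 w) (c5G m P w) q := by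
        intro w _
        rw [c5_calL_mul m c5_eta_smooth w (hG w).1 (c5G_dr m h4 h4b hP w), hE, smul_smul]
        rfl
      rw [Finset.sum_congr rfl e3, Finset.sum_add_distrib, ← Finset.smul_sum, hDsum q,
        ← Finset.smul_sum, smul_add, smul_comm]

end model

end NRF

end
end

section

/-!
# H11: lifted charts
-/

set_option autoImplicit false

open scoped Manifold ContDiff Topology
open MeasureTheory Set

noncomputable section

namespace NRF.H

theorem claimLCh_proof : claimLCh := by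
  intro X _ _ U
  refine ⟨?_, ?_⟩
  · intro y e O hO hy he
    obtain ⟨φ, hyφ, hφ⟩ := U.cov.isLocalHomeomorph y
    have hpc : Continuous U.p := U.cov.continuous
    have hW : IsOpen (O ∩ U.p ⁻¹' e.1.source) := hO.inter (e.1.open_source.preimage hpc)
    let psi : OpenPartialHomeomorph U.Y E4 := (φ.restrOpen _ hW).trans e.1
    have hsrc : ∀ y' ∈ psi.source, y' ∈ φ.source ∧ y' ∈ O ∧ U.p y' ∈ e.1.source := by
      intro y' hy'
      exact ⟨hy'.1.1, hy'.1.2.1, hy'.1.2.2⟩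
    refine ⟨⟨e, psi, fun y' hy' => (hsrc y' hy').2.2, fun y' hy' => ?_⟩, rfl, ?_, ?_, ?_⟩
    · show e.1 (φ y') = e.1 (U.p y')
      rw [hφ]
    · refine ⟨⟨hyφ, hy, he⟩, ?_⟩
      show φ y ∈ e.1.source
      rw [← hφ]
      exact he
    · exact fun y' hy' => (hsrc y' hy').2.1
    · intro y₁ h₁ y₂ h₂ h
      refine φ.injOn (hsrc y₁ h₁).1 (hsrc y₂ h₂).1 ?_
      rw [← hφ]
      exact h
  · intro c a
    let h : U.Y ≃ₜ U.Y :=
      { toFun := fun y => a • y
        invFun := fun y => a⁻¹ • y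
        left_inv := fun y => inv_smul_smul a y
        right_inv := fun y => smul_inv_smul a y
        continuous_toFun := U.cont_smul a
        continuous_invFun := U.cont_smul a⁻¹ }
    refine ⟨⟨c.e, h.symm.transOpenPartialHomeomorph c.psi, ?_, ?_⟩, rfl, rfl, fun z _ => rfl⟩
    · intro y hy
      have h1 := c.mem (a⁻¹ • y) hy
      rwa [U.p_smul] at h1
    · intro y hy
      have h1 := c.eq (a⁻¹ • y) hy
      rw [U.p_smul] at h1
      exact h1

end NRF.H

end
end
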