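import Pool.Agent.Work.MP_7f974f_gt.Stmts_C
import Pool.Agent.Work.MP_7f974f_gt.Stmts_B
import Pool.Agent.Work.MP_7f974f_gt.Bd.B01

/-! Bundle of small proof modules (one section per former module). -/

section

/-!
# C7: local operators of a model
-/

open scoped Manifold ContDiff Topology
open MeasureTheory Set

noncomputable section

set_option linter.unusedSectionVars false

namespace NRF

section aux

variable {W : Type} [NormedAddCommGroup W] [NormedSpace ℝ W]

theorem C7_NiceE_CBE {k : ℕ} {T A : ℝ} {w : ℝ → E4 → W} (h : NiceE k T A w) : CBE T A w := by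
  refine ⟨?_, fun t ht x => ?_⟩
  · have h0 := h.2.1 0 (Nat.zero_le k)
    have h1 := (continuousMultilinearCurryFin0 ℝ E4 W).continuous.comp_continuousOn h0
    refine h1.congr fun p _ => ?_
    simp [iteratedFDeriv_zero_eq_comp]
  · have h0 := h.2.2 0 (Nat.zero_le k) t ht x
    rwa [norm_iteratedFDeriv_zero] at h0

theorem C7_CBE_nonneg {T A : ℝ} {w : ℝ → E4 → W} (hT : 0 < T) (h : CBE T A w) : 0 ≤ A :=
  (norm_nonneg _).trans (h.2 0 ⟨le_rfl, hT.le⟩ 0)

theorem C7_NiceE_mono {k : ℕ} {T C C' : ℝ} {w : ℝ → E4 → W} (h : NiceE k T C w) (hC : C ≤ C') :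
    NiceE k T C' w :=
  ⟨h.1, h.2.1, fun j hj t ht x => (h.2.2 j hj t ht x).trans hC⟩

theorem C7_NiceE_le {k l : ℕ} {T C : ℝ} {w : ℝ → E4 → W} (h : NiceE k T C w) (hl : l ≤ k) :
    NiceE l T C w :=
  ⟨fun t ht => (h.1 t ht).of_le (by exact_mod_cast hl), fun j hj => h.2.1 j (hj.trans hl),
    fun j hj => h.2.2 j (hj.trans hl)⟩

end aux

variable {V : Type} [NormedAddCommGroup V] [InnerProductSpace ℝ V] [FiniteDimensional ℝ V]

/-- The kernel bound, uniformly in the pole. -/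
theorem C7_bound {H : KP → (V →L[ℝ] V)} (hH : RD H) (hS : KSupp H) (T : ℝ) :
    ∃ C : ℝ, 0 ≤ C ∧ ∀ (s r : ℝ) (y z : E4), |s| ≤ T → |r| ≤ T →
      ‖H (s, r, y, z)‖ ≤ C * (1 + ‖z‖) ^ (-(5 : ℝ)) := by
  obtain ⟨C, hC⟩ := hH.2 0 5 (max T 1)
  refine ⟨max C 0, le_max_right _ _, fun s r y z hs hr => ?_⟩
  have hz : 0 < 1 + ‖z‖ := by positivity
  by_cases hy : 1 ≤ ‖y‖
  · rw [hS.1 (s, r, y, z) hy, norm_zero]
    positivity
  · have h1 := hC s r y z (hs.trans (le_max_left _ _)) (hr.trans (le_max_left _ _))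
      ((not_le.1 hy).le.trans (le_max_right _ _))
    rw [norm_iteratedFDeriv_zero] at h1
    rw [Real.rpow_neg hz.le, ← div_eq_mul_inv, le_div_iff₀ (by positivity)]
    have h2 : (1 + ‖z‖) ^ (5 : ℝ) = (1 + ‖z‖) ^ (5 : ℕ) := by
      rw [← Real.rpow_natCast]; norm_num
    rw [h2]
    exact h1.trans (le_max_left _ _)

theorem C7_integrable_bound (C : ℝ) :
    Integrable (fun z : E4 => C * (1 + ‖z‖) ^ (-(5 : ℝ))) := by
  refine Integrable.const_mul (integrable_one_add_norm ?_) C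
  simp [E4]
  norm_num

theorem C7_cont_slice {T A : ℝ} {w : ℝ → E4 → V} (hw : CBE T A w) {s : ℝ} (hs : s ∈ Icc 0 T) :
    Continuous (w s) := by
  have h1 : ContinuousOn (fun x : E4 => (s, x)) univ := by fun_prop
  have h2 := hw.1.comp h1 (fun x _ => ⟨hs, mem_univ _⟩)
  exact continuousOn_univ.1 h2

theorem C7_integrable {H : KP → (V →L[ℝ] V)} (hH : RD H) (hS : KSupp H) {T A : ℝ} (hT : 0 < T)
    {w : ℝ → E4 → V} (hw : CBE T A w) {s : ℝ} (hs : s ∈ Icc 0 T) (r : ℝ) (x : E4) :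
    Integrable fun z : E4 => H (s, r, x - r • z, z) (w s (x - r • z)) := by
  obtain ⟨C, hC0, hC⟩ := C7_bound hH hS (max T |r|)
  have hA := C7_CBE_nonneg hT hw
  refine (C7_integrable_bound (C * A)).mono' ?_ (Filter.Eventually.of_forall fun z => ?_)
  · refine Continuous.aestronglyMeasurable ?_
    have h1 : Continuous fun z : E4 => H (s, r, x - r • z, z) :=
      hH.1.continuous.comp (by fun_prop)
    have h2 : Continuous fun z : E4 => w s (x - r • z) :=
      (C7_cont_slice hw hs).comp (by fun_prop)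
    exact h1.clm_apply h2
  · have h1 := hC s r (x - r • z) z ((abs_of_nonneg hs.1).le.trans (hs.2.trans (le_max_left _ _)))
      (le_max_right _ _)
    have h2 := hw.2 s hs (x - r • z)
    calc ‖H (s, r, x - r • z, z) (w s (x - r • z))‖ ≤ ‖H (s, r, x - r • z, z)‖ *
          ‖w s (x - r • z)‖ := ContinuousLinearMap.le_opNorm _ _
      _ ≤ (C * (1 + ‖z‖) ^ (-(5 : ℝ))) * A :=
          mul_le_mul h1 h2 (norm_nonneg _) (by positivity)
      _ = C * A * (1 + ‖z‖) ^ (-(5 : ℝ)) := by ring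

theorem C7_continuousOn {H : KP → (V →L[ℝ] V)} (hH : RD H) (hS : KSupp H) {T A : ℝ} (hT : 0 < T)
    {w : ℝ → E4 → V} (hw : CBE T A w) {t : ℝ} (ht : t ∈ Icc 0 T) (x : E4) :
    ContinuousOn (fun s => Tker H s (Real.sqrt (t - s)) (w s) x) (Icc 0 t) := by
  obtain ⟨C, hC0, hC⟩ := C7_bound hH hS (max T (Real.sqrt t))
  have hA := C7_CBE_nonneg hT hw
  have hsT : ∀ s ∈ Icc 0 t, s ∈ Icc 0 T := fun s hs => ⟨hs.1, hs.2.trans ht.2⟩
  unfold Tker
  refine continuousOn_of_dominated (bound := fun z : E4 => C * A * (1 + ‖z‖) ^ (-(5 : ℝ)))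
    (fun s hs => (C7_integrable hH hS hT hw (hsT s hs) _ x).aestronglyMeasurable)
    (fun s hs => Filter.Eventually.of_forall fun z => ?_) (C7_integrable_bound _)
    (Filter.Eventually.of_forall fun z => ?_)
  · have hs' := hsT s hs
    have hr : |Real.sqrt (t - s)| ≤ max T (Real.sqrt t) := by
      rw [abs_of_nonneg (Real.sqrt_nonneg _)]
      exact (Real.sqrt_le_sqrt (by linarith [hs.1])).trans (le_max_right _ _)
    have h1 := hC s (Real.sqrt (t - s)) (x - Real.sqrt (t - s) • z) z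
      ((abs_of_nonneg hs'.1).le.trans (hs'.2.trans (le_max_left _ _))) hr
    have h2 := hw.2 s hs' (x - Real.sqrt (t - s) • z)
    calc ‖H (s, Real.sqrt (t - s), x - Real.sqrt (t - s) • z, z)
          (w s (x - Real.sqrt (t - s) • z))‖ ≤ _ * _ := ContinuousLinearMap.le_opNorm _ _
      _ ≤ (C * (1 + ‖z‖) ^ (-(5 : ℝ))) * A :=
          mul_le_mul h1 h2 (norm_nonneg _) (by positivity)
      _ = C * A * (1 + ‖z‖) ^ (-(5 : ℝ)) := by ring
  · have h1 : ContinuousOn (fun s : ℝ => H (s, Real.sqrt (t - s), x - Real.sqrt (t - s) • z, z))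
        (Icc 0 t) := (hH.1.continuous.comp (by fun_prop)).continuousOn
    have h2 : ContinuousOn (fun s : ℝ => w s (x - Real.sqrt (t - s) • z)) (Icc 0 t) := by
      have h3 : ContinuousOn (fun s : ℝ => ((s, x - Real.sqrt (t - s) • z) : ℝ × E4)) (Icc 0 t) :=
        Continuous.continuousOn (by fun_prop)
      exact hw.1.comp h3 (fun s hs => ⟨hsT s hs, mem_univ _⟩)
    exact h1.clm_apply h2

theorem C7_Tker_add {H : KP → (V →L[ℝ] V)} (hH : RD H) (hS : KSupp H) {T A : ℝ} (hT : 0 < T)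
    {w w' : ℝ → E4 → V} (hw : CBE T A w) (hw' : CBE T A w') {s : ℝ} (hs : s ∈ Icc 0 T) (r : ℝ)
    (x : E4) : Tker H s r (fun y => w s y + w' s y) x = Tker H s r (w s) x + Tker H s r (w' s) x := by
  unfold Tker
  rw [← integral_add (C7_integrable hH hS hT hw hs r x) (C7_integrable hH hS hT hw' hs r x)]
  simp only [map_add]

theorem C7_Tker_smul (H : KP → (V →L[ℝ] V)) (c s r : ℝ) (g : E4 → V) (x : E4) :
    Tker H s r (fun y => c • g y) x = c • Tker H s r g x := by
  unfold Tker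
  rw [← integral_smul]
  simp only [map_smul]

theorem C7_Tker_local {H : KP → (V →L[ℝ] V)} (hS : KSupp H) {s r : ℝ} {g g' : E4 → V}
    (h : ∀ x, ‖x‖ ≤ 1 → g x = g' x) (x : E4) : Tker H s r g x = Tker H s r g' x := by
  unfold Tker
  refine integral_congr_ae (Filter.Eventually.of_forall fun z => ?_)
  show H (s, r, x - r • z, z) (g (x - r • z)) = H (s, r, x - r • z, z) (g' (x - r • z))
  by_cases hy : 1 ≤ ‖x - r • z‖
  · rw [hS.1 (s, r, x - r • z, z) hy]
    simp
  · rw [h _ (not_le.1 hy).le]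

theorem C7_Tker_supp {H : KP → (V →L[ℝ] V)} (hS : KSupp H) {s r : ℝ} {g : E4 → V}
    {x : E4} (hx : 2 ≤ ‖x‖) : Tker H s r g x = 0 := by
  unfold Tker
  have : ∀ z : E4, H (s, r, x - r • z, z) = 0 := fun z => hS.2 _ (by simpa using hx)
  simp [this]

theorem C7_kerH_supp (m : Model V) (P : ℕ → ℝ → E4 → E4 → (V →L[ℝ] V)) (N : ℕ) :
    KSupp (m.kerH P N) := by
  constructor
  · intro q hq
    rw [Model.kerH, m.chi_supp _ hq]
    simp
  · intro q hq
    have : etaC (q.2.2.1 + q.2.1 • q.2.2.2) = 0 := by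
      unfold etaC
      apply etaBump.zero_of_le_dist
      rw [dist_zero_right]
      exact hq
    rw [Model.kerH, this]
    simp

theorem claimLocal_proof (h3 : claimFormal) (h5 : claimParam) (hQ : claimQop) (hR : claimRop)
    (hP : claimPde) : claimLocal := by
  intro V _ _ _ m k T hk hT
  obtain ⟨P, hPf⟩ := h3 V m
  obtain ⟨hRD, hint, H', hRD', hs1, hs2, heq⟩ := h5 V m P hPf (k + 8)
  have hS := C7_kerH_supp m P (k + 8)
  have hS' : KSupp H' := ⟨hs1, hs2⟩
  obtain ⟨KQ, hKQ⟩ := hQ V (m.kerH P (k + 8)) hRD hS k T hT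
  obtain ⟨KR, hKR0, hKR⟩ := hR V H' hRD' hS' k (k + 8) T hT (by omega)
  have hI : ∀ t ∈ Icc 0 T, ∀ s ∈ uIcc 0 t, s ∈ Icc 0 t ∧ s ∈ Icc 0 T := by
    intro t ht s hs
    rw [uIcc_of_le ht.1] at hs
    exact ⟨hs, hs.1, hs.2.trans ht.2⟩
  refine ⟨max KQ KR, Qop (m.kerH P (k + 8)), Rop H' (k + 8), ?_⟩
  exact
    { nonneg := hKR0.trans (le_max_right _ _)
      Rnice := by
        intro w A hw
        exact C7_NiceE_mono (hKR w A hw).1
          (mul_le_mul_of_nonneg_right (le_max_right _ _) (C7_CBE_nonneg hT hw))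
      Rcausal := by
        intro w A hw φ hφ hb j hj t ht x
        refine ((hKR w A hw).2 φ hφ hb j hj t ht x).trans ?_
        refine mul_le_mul_of_nonneg_right (le_max_right _ _) ?_
        refine intervalIntegral.integral_nonneg ht.1 fun s hs => ?_
        exact (norm_nonneg _).trans (hb s ⟨hs.1, hs.2.trans ht.2⟩ 0)
      Radd := by
        intro w w' A hw hw' t ht x
        unfold Rop
        have hc : ∀ u : ℝ → E4 → V, CBE T A u → IntervalIntegrable (fun σ =>
            Real.sqrt (t - σ) ^ (k + 8 - 1) • Tker H' σ (Real.sqrt (t - σ)) (u σ) x) volume 0 t := by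
          intro u hu
          refine ContinuousOn.intervalIntegrable ?_
          rw [uIcc_of_le ht.1]
          refine ContinuousOn.smul (Continuous.continuousOn (by fun_prop)) ?_
          exact C7_continuousOn hRD' hS' hT hu ht x
        rw [← intervalIntegral.integral_add (hc w hw) (hc w' hw')]
        refine intervalIntegral.integral_congr fun s hs => ?_
        show _ • Tker H' s _ (fun y => w s y + w' s y) x = _
        rw [C7_Tker_add hRD' hS' hT hw hw' (hI t ht s hs).2, smul_add]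
      Rsmul := by
        intro c w t x
        unfold Rop
        rw [← intervalIntegral.integral_smul]
        refine intervalIntegral.integral_congr fun s _ => ?_
        show _ • Tker H' s _ (fun y => c • w s y) x = _
        rw [C7_Tker_smul, smul_comm]
      Rlocal := by
        intro w w' h t ht x
        unfold Rop
        refine intervalIntegral.integral_congr fun s hs => ?_
        show _ • Tker H' s _ (w s) x = _ • Tker H' s _ (w' s) x
        rw [C7_Tker_local hS' (h s (hI t ht s hs).2) x]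
      Rsupp := by
        intro w t x hx
        unfold Rop
        simp only [C7_Tker_supp hS' hx, smul_zero, intervalIntegral.integral_zero]
      Qnice := by
        intro w A hw
        exact C7_NiceE_mono (hKQ w A hw)
          (mul_le_mul_of_nonneg_right (le_max_left _ _) (C7_CBE_nonneg hT (C7_NiceE_CBE hw)))
      Qadd := by
        intro w w' A hw hw' t ht x
        unfold Qop
        have hc : ∀ u : ℝ → E4 → V, CBE T A u → IntervalIntegrable (fun σ =>
            Tker (m.kerH P (k + 8)) σ (Real.sqrt (t - σ)) (u σ) x) volume 0 t := by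
          intro u hu
          refine ContinuousOn.intervalIntegrable ?_
          rw [uIcc_of_le ht.1]
          exact C7_continuousOn hRD hS hT hu ht x
        rw [← intervalIntegral.integral_add (hc w (C7_NiceE_CBE hw)) (hc w' (C7_NiceE_CBE hw'))]
        refine intervalIntegral.integral_congr fun s hs => ?_
        exact C7_Tker_add hRD hS hT (C7_NiceE_CBE hw) (C7_NiceE_CBE hw') (hI t ht s hs).2 _ _
      Qsmul := by
        intro c w t x
        unfold Qop
        rw [← intervalIntegral.integral_smul]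
        refine intervalIntegral.integral_congr fun s _ => ?_
        exact C7_Tker_smul _ _ _ _ _ _
      Qlocal := by
        intro w w' h t ht x
        unfold Qop
        refine intervalIntegral.integral_congr fun s hs => ?_
        exact C7_Tker_local hS (h s (hI t ht s hs).2) x
      Qsupp := by
        intro w t x hx
        unfold Qop
        simp only [C7_Tker_supp hS hx, intervalIntegral.integral_zero]
      pde := by
        intro w A hw t ht x
        exact hP V m (m.kerH P (k + 8)) H' (k + 8) hRD hS hRD' hS' (by omega) hint heq T hT w A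
          (C7_NiceE_le hw hk) t ht x }

end NRF

end
end

section

/-!
# C7a: the operator `Qop` preserves `C^k`
-/

open scoped Manifold ContDiff Topology
open MeasureTheory Set

noncomputable section

namespace NRF

section basic

variable {W : Type} [NormedAddCommGroup W] [NormedSpace ℝ W]
variable {W' : Type} [NormedAddCommGroup W'] [NormedSpace ℝ W']

/-- Vanishing outside of the closed unit ball in the variable `y`. -/
def C7a_S (H : KP → W) : Prop := ∀ q : KP, 1 < ‖q.2.2.1‖ → H q = 0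

lemma C7a_RD_fderiv {H : KP → W} (h : RD H) (v : KP) : RD (fun q => fderiv ℝ H q v) := by
  obtain ⟨h1, h2⟩ := h
  have h3 : ContDiff ℝ ∞ (fderiv ℝ H) := h1.fderiv_right (by simp)
  refine ⟨h3.clm_apply contDiff_const, fun k M T => ?_⟩
  obtain ⟨C, hC⟩ := h2 (k + 1) M T
  refine ⟨‖v‖ * C, fun s r y z hs hr hy => ?_⟩
  have h4 := hC s r y z hs hr hy
  have h5 : ‖iteratedFDeriv ℝ k (fun q => fderiv ℝ H q v) (s, r, y, z)‖ ≤
      ‖v‖ * ‖iteratedFDeriv ℝ (k + 1) H (s, r, y, z)‖ := by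
    have e : (fun q => fderiv ℝ H q v) = (ContinuousLinearMap.apply ℝ W v) ∘ (fderiv ℝ H) := by
      ext q; rfl
    rw [e, ContinuousLinearMap.iteratedFDeriv_comp_left _ (h3.contDiffAt) (by exact_mod_cast le_top)]
    refine (ContinuousLinearMap.norm_compContinuousMultilinearMap_le _ _).trans ?_
    rw [norm_iteratedFDeriv_fderiv]
    gcongr
    refine ContinuousLinearMap.opNorm_le_bound _ (norm_nonneg _) fun x => ?_
    simp only [ContinuousLinearMap.apply_apply]
    rw [mul_comm]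
    exact x.le_opNorm v
  calc _ ≤ (‖v‖ * ‖iteratedFDeriv ℝ (k + 1) H (s, r, y, z)‖) * (1 + ‖z‖) ^ M := by gcongr
    _ = ‖v‖ * (‖iteratedFDeriv ℝ (k + 1) H (s, r, y, z)‖ * (1 + ‖z‖) ^ M) := by ring
    _ ≤ ‖v‖ * C := by gcongr

lemma C7a_fderiv_zero {H : KP → W} (h : C7a_S H) (q : KP) (hq : 1 < ‖q.2.2.1‖) :
    fderiv ℝ H q = 0 := by
  have h1 : IsOpen {q : KP | 1 < ‖q.2.2.1‖} := isOpen_lt continuous_const (by fun_prop)
  have h2 : H =ᶠ[𝓝 q] fun _ => 0 := by
    filter_upwards [h1.mem_nhds hq] with p hp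
    exact h p hp
  rw [h2.fderiv_eq]
  simp

lemma C7a_S_fderiv {H : KP → W} (h : C7a_S H) (v : KP) : C7a_S (fun q => fderiv ℝ H q v) := by
  intro q hq
  simp [C7a_fderiv_zero h q hq]

/-- The dominating function. -/
def C7a_b (z : E4) : ℝ := (1 + ‖z‖) ^ (-(6 : ℝ))

lemma C7a_b_nonneg (z : E4) : 0 ≤ C7a_b z := by unfold C7a_b; positivity

lemma C7a_b_int : Integrable C7a_b := by
  unfold C7a_b
  apply integrable_one_add_norm
  simp
  norm_num

lemma C7a_b_le {x C : ℝ} (z : E4) (h : x * (1 + ‖z‖) ^ 6 ≤ C) : x ≤ C * C7a_b z := by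
  unfold C7a_b
  have h0 : 0 < 1 + ‖z‖ := by positivity
  rw [Real.rpow_neg h0.le, show ((6 : ℝ)) = ((6 : ℕ) : ℝ) by norm_num, Real.rpow_natCast]
  rw [← div_eq_mul_inv, le_div_iff₀ (by positivity)]
  exact h

/-- The basic bound for kernels and their first derivatives. -/
lemma C7a_bound {H : KP → W} (h : RD H) (h' : C7a_S H) (T : ℝ) : ∃ C : ℝ, 0 ≤ C ∧
    ∀ (s r : ℝ) (y z : E4), |s| ≤ T → |r| ≤ T → ‖H (s, r, y, z)‖ ≤ C * C7a_b z ∧
      ‖fderiv ℝ H (s, r, y, z)‖ ≤ C * C7a_b z := by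
  obtain ⟨C0, hC0⟩ := h.2 0 6 (max T 1)
  obtain ⟨C1, hC1⟩ := h.2 1 6 (max T 1)
  refine ⟨max (max C0 C1) 0, le_max_right _ _, fun s r y z hs hr => ?_⟩
  rcases le_or_gt ‖y‖ 1 with hy | hy
  · have hs' := hs.trans (le_max_left T 1)
    have hr' := hr.trans (le_max_left T 1)
    have hy' := hy.trans (le_max_right T 1)
    constructor
    · apply C7a_b_le
      have := hC0 s r y z hs' hr' hy'
      rw [norm_iteratedFDeriv_zero] at this
      exact this.trans ((le_max_left _ _).trans (le_max_left _ _))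
    · apply C7a_b_le
      have := hC1 s r y z hs' hr' hy'
      rw [norm_iteratedFDeriv_one] at this
      exact this.trans ((le_max_right _ _).trans (le_max_left _ _))
  · have h1 : H (s, r, y, z) = 0 := h' _ hy
    have h2 : fderiv ℝ H (s, r, y, z) = 0 := C7a_fderiv_zero h' _ hy
    rw [h1, h2]
    simp only [norm_zero]
    have := mul_nonneg (le_max_right (max C0 C1) 0) (C7a_b_nonneg z)
    exact ⟨this, this⟩

/-! ## Calculus of `NiceE` -/

lemma C7a_nice_mono {k : ℕ} {T C C' : ℝ} {u : ℝ → E4 → W} (h : NiceE k T C u) (hC : C ≤ C') :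
    NiceE k T C' u :=
  ⟨h.1, h.2.1, fun j hj t ht x => (h.2.2 j hj t ht x).trans hC⟩

lemma C7a_nice_congr {k : ℕ} {T C : ℝ} {u u' : ℝ → E4 → W} (h : NiceE k T C u)
    (e : ∀ t ∈ Icc 0 T, u t = u' t) : NiceE k T C u' := by
  refine ⟨fun t ht => e t ht ▸ h.1 t ht, fun j hj => ?_, fun j hj t ht x => ?_⟩
  · refine (h.2.1 j hj).congr fun p hp => ?_
    simp only
    rw [e p.1 hp.1]
  · rw [← e t ht]
    exact h.2.2 j hj t ht x

lemma C7a_nice_zero {T C : ℝ} {u : ℝ → E4 → W}
    (h1 : ContinuousOn (fun p : ℝ × E4 => u p.1 p.2) (Icc 0 T ×ˢ univ))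
    (h2 : ∀ t ∈ Icc 0 T, ∀ x, ‖u t x‖ ≤ C) : NiceE 0 T C u := by
  refine ⟨fun t ht => ?_, fun j hj => ?_, fun j hj t ht x => ?_⟩
  · simp only [CharP.cast_eq_zero, contDiff_zero]
    rw [← continuousOn_univ]
    exact h1.comp (f := fun x : E4 => (t, x)) (by fun_prop) fun x _ => ⟨ht, mem_univ _⟩
  · obtain rfl : j = 0 := by omega
    simp only [iteratedFDeriv_zero_eq_comp, Function.comp_apply]
    exact (LinearIsometryEquiv.continuous _).comp_continuousOn h1
  · obtain rfl : j = 0 := by omega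
    rw [norm_iteratedFDeriv_zero]
    exact h2 t ht x

lemma C7a_nice_cont {k : ℕ} {T C : ℝ} {u : ℝ → E4 → W} (h : NiceE k T C u) :
    ContinuousOn (fun p : ℝ × E4 => u p.1 p.2) (Icc 0 T ×ˢ univ) := by
  have h1 := h.2.1 0 (Nat.zero_le _)
  simp only [iteratedFDeriv_zero_eq_comp, Function.comp_apply] at h1
  have h2 := (LinearIsometryEquiv.continuous
    (continuousMultilinearCurryFin0 ℝ E4 W)).comp_continuousOn h1
  refine h2.congr fun p hp => ?_
  simp

lemma C7a_nice_bd {k : ℕ} {T C : ℝ} {u : ℝ → E4 → W} (h : NiceE k T C u) :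
    ∀ t ∈ Icc 0 T, ∀ x, ‖u t x‖ ≤ C := by
  intro t ht x
  have h1 := h.2.2 0 (Nat.zero_le _) t ht x
  rwa [norm_iteratedFDeriv_zero] at h1

lemma C7a_nice_succ {k : ℕ} {T C : ℝ} {u : ℝ → E4 → W}
    (h1 : ContinuousOn (fun p : ℝ × E4 => u p.1 p.2) (Icc 0 T ×ˢ univ))
    (h2 : ∀ t ∈ Icc 0 T, ∀ x, ‖u t x‖ ≤ C) (h3 : ∀ t ∈ Icc 0 T, Differentiable ℝ (u t))
    (h4 : NiceE k T C fun t => fderiv ℝ (u t)) : NiceE (k + 1) T C u := by
  have h0 := C7a_nice_zero h1 h2
  refine ⟨fun t ht => ?_, fun j hj => ?_, fun j hj t ht x => ?_⟩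
  · push_cast
    rw [contDiff_succ_iff_fderiv]
    refine ⟨h3 t ht, fun hk => ?_, h4.1 t ht⟩
    exact absurd hk (by simp)
  · rcases j with _ | j
    · exact h0.2.1 0 le_rfl
    · simp only [iteratedFDeriv_succ_eq_comp_right, Function.comp_apply]
      exact (LinearIsometryEquiv.continuous _).comp_continuousOn (h4.2.1 j (by omega))
  · rcases j with _ | j
    · exact h0.2.2 0 le_rfl t ht x
    · rw [← norm_iteratedFDeriv_fderiv]
      exact h4.2.2 j (by omega) t ht x

lemma C7a_nice_fderiv {k : ℕ} {T C : ℝ} {u : ℝ → E4 → W} (h : NiceE (k + 1) T C u) :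
    (∀ t ∈ Icc 0 T, Differentiable ℝ (u t)) ∧ NiceE k T C fun t => fderiv ℝ (u t) := by
  have h0 : ∀ t ∈ Icc 0 T, ContDiff ℝ ((k : ℕ∞) + 1 : WithTop ℕ∞) (u t) := fun t ht => by
    have := h.1 t ht
    push_cast at this
    exact this
  refine ⟨fun t ht => (h0 t ht).differentiable (by simp), fun t ht => ?_, fun j hj => ?_,
    fun j hj t ht x => ?_⟩
  · exact (h0 t ht).fderiv_right le_rfl
  · have h1 := h.2.1 (j + 1) (by omega)
    simp only [iteratedFDeriv_succ_eq_comp_right, Function.comp_apply] at h1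
    have h2 := (LinearIsometryEquiv.continuous
      (continuousMultilinearCurryRightEquiv' ℝ j E4 W)).comp_continuousOn h1
    refine h2.congr fun p hp => ?_
    simp
  · rw [norm_iteratedFDeriv_fderiv]
    exact h.2.2 (j + 1) (by omega) t ht x

lemma C7a_nice_clm {k : ℕ} {T C : ℝ} {u : ℝ → E4 → W} (h : NiceE k T C u) (L : W →L[ℝ] W') :
    NiceE k T (‖L‖ * C) fun t x => L (u t x) := by
  have e : ∀ j ≤ k, ∀ t ∈ Icc 0 T, ∀ x, iteratedFDeriv ℝ j (fun x => L (u t x)) x =
      L.compContinuousMultilinearMap (iteratedFDeriv ℝ j (u t) x) := fun j hj t ht x =>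
    ContinuousLinearMap.iteratedFDeriv_comp_left L (h.1 t ht).contDiffAt (by exact_mod_cast hj)
  refine ⟨fun t ht => L.contDiff.comp (h.1 t ht), fun j hj => ?_, fun j hj t ht x => ?_⟩
  · have h1 := (ContinuousLinearMap.continuous (ContinuousLinearMap.compContinuousMultilinearMapL
      ℝ (fun _ : Fin j => E4) W W' L)).comp_continuousOn (h.2.1 j hj)
    refine h1.congr fun p hp => ?_
    simp only [Function.comp_apply]
    rw [e j hj p.1 hp.1 p.2]
    rfl
  · rw [e j hj t ht x]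
    refine (ContinuousLinearMap.norm_compContinuousMultilinearMap_le _ _).trans ?_
    gcongr
    exact h.2.2 j hj t ht x

lemma C7a_nice_add {k : ℕ} {T C C' : ℝ} {u u' : ℝ → E4 → W} (h : NiceE k T C u)
    (h' : NiceE k T C' u') : NiceE k T (C + C') fun t x => u t x + u' t x := by
  have e : ∀ j ≤ k, ∀ t ∈ Icc 0 T, ∀ x, iteratedFDeriv ℝ j (fun x => u t x + u' t x) x =
      iteratedFDeriv ℝ j (u t) x + iteratedFDeriv ℝ j (u' t) x := fun j hj t ht x =>
    fun_iteratedFDeriv_add_apply (((h.1 t ht).of_le (by exact_mod_cast hj)).contDiffAt)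
      (((h'.1 t ht).of_le (by exact_mod_cast hj)).contDiffAt)
  refine ⟨fun t ht => (h.1 t ht).add (h'.1 t ht), fun j hj => ?_, fun j hj t ht x => ?_⟩
  · refine ((h.2.1 j hj).add (h'.2.1 j hj)).congr fun p hp => ?_
    simp only
    rw [e j hj p.1 hp.1 p.2]
    rfl
  · rw [e j hj t ht x]
    exact (norm_add_le _ _).trans (add_le_add (h.2.2 j hj t ht x) (h'.2.2 j hj t ht x))

lemma C7a_nice_sum {ι : Type} (s : Finset ι) {k : ℕ} {T : ℝ} {C : ι → ℝ}
    {u : ι → ℝ → E4 → W} (h : ∀ i ∈ s, NiceE k T (C i) (u i)) :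
    NiceE k T (∑ i ∈ s, C i) fun t x => ∑ i ∈ s, u i t x := by
  classical
  induction s using Finset.induction_on with
  | empty =>
    simp only [Finset.sum_empty]
    refine ⟨fun t ht => contDiff_const, fun j hj => ?_, fun j hj t ht x => ?_⟩
    · have e : (fun p : ℝ × E4 => iteratedFDeriv ℝ j (fun _ : E4 => (0 : W)) p.2) =
          fun _ => 0 := by
        ext1 p
        exact congrFun (iteratedFDeriv_fun_zero (𝕜 := ℝ) (E := E4) (F := W) (n := j)) p.2
      rw [e]
      exact continuousOn_const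
    · have e : iteratedFDeriv ℝ j (fun _ : E4 => (0 : W)) x = 0 :=
        congrFun (iteratedFDeriv_fun_zero (𝕜 := ℝ) (E := E4) (F := W) (n := j)) x
      rw [e, norm_zero]
  | insert a s ha ih =>
    simp only [Finset.sum_insert ha]
    exact C7a_nice_add (h a (Finset.mem_insert_self a s))
      (ih fun i hi => h i (Finset.mem_insert_of_mem hi))

end basic

section oper

variable {V : Type} [NormedAddCommGroup V] [InnerProductSpace ℝ V] [FiniteDimensional ℝ V]

/-- The derivative of a kernel in a direction of the variable `y`. -/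
def C7a_dy {W : Type} [NormedAddCommGroup W] [NormedSpace ℝ W] (H : KP → W) (v : E4) (q : KP) : W :=
  fderiv ℝ H q (0, 0, v, 0)

omit [FiniteDimensional ℝ V] in
lemma C7a_integrand_le {H : KP → (V →L[ℝ] V)} {T C A : ℝ} (hC0 : 0 ≤ C)
    (hC : ∀ (s r : ℝ) (y z : E4), |s| ≤ T → |r| ≤ T → ‖H (s, r, y, z)‖ ≤ C * C7a_b z)
    {g : E4 → V} (hg : ∀ x, ‖g x‖ ≤ A) {s r : ℝ} (hs : |s| ≤ T) (hr : |r| ≤ T) (x z : E4) :
    ‖H (s, r, x - r • z, z) (g (x - r • z))‖ ≤ C * A * C7a_b z := by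
  calc _ ≤ ‖H (s, r, x - r • z, z)‖ * ‖g (x - r • z)‖ := ContinuousLinearMap.le_opNorm _ _
    _ ≤ (C * C7a_b z) * A := by
      gcongr
      · exact mul_nonneg hC0 (C7a_b_nonneg z)
      · exact hC _ _ _ _ hs hr
      · exact hg _
    _ = C * A * C7a_b z := by ring

omit [FiniteDimensional ℝ V] in
lemma C7a_integrand_cont {H : KP → (V →L[ℝ] V)} (hH : Continuous H) {g : E4 → V}
    (hg : Continuous g) (s r : ℝ) (x : E4) :
    Continuous fun z => H (s, r, x - r • z, z) (g (x - r • z)) := by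
  have h1 : Continuous fun z : E4 => H (s, r, x - r • z, z) :=
    hH.comp (f := fun z : E4 => ((s, r, x - r • z, z) : KP)) (by fun_prop)
  exact h1.clm_apply (hg.comp (by fun_prop))

lemma C7a_integrand_int {H : KP → (V →L[ℝ] V)} (hH : Continuous H) {T C A : ℝ} (hC0 : 0 ≤ C)
    (hC : ∀ (s r : ℝ) (y z : E4), |s| ≤ T → |r| ≤ T → ‖H (s, r, y, z)‖ ≤ C * C7a_b z)
    {g : E4 → V} (hg' : Continuous g) (hg : ∀ x, ‖g x‖ ≤ A) {s r : ℝ} (hs : |s| ≤ T)
    (hr : |r| ≤ T) (x : E4) :
    Integrable fun z => H (s, r, x - r • z, z) (g (x - r • z)) := by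
  refine (C7a_b_int.const_mul (C * A)).mono'
    (C7a_integrand_cont hH hg' s r x).aestronglyMeasurable ?_
  exact Filter.Eventually.of_forall fun z => C7a_integrand_le hC0 hC hg hs hr x z

omit [FiniteDimensional ℝ V] in
lemma C7a_Tker_le {H : KP → (V →L[ℝ] V)} {T C A : ℝ} (hC0 : 0 ≤ C)
    (hC : ∀ (s r : ℝ) (y z : E4), |s| ≤ T → |r| ≤ T → ‖H (s, r, y, z)‖ ≤ C * C7a_b z)
    {g : E4 → V} (hg : ∀ x, ‖g x‖ ≤ A) {s r : ℝ} (hs : |s| ≤ T) (hr : |r| ≤ T) (x : E4) :
    ‖Tker H s r g x‖ ≤ C * A * ∫ z, C7a_b z := by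
  unfold Tker
  rw [← integral_const_mul]
  exact norm_integral_le_of_norm_le (C7a_b_int.const_mul (C * A))
    (Filter.Eventually.of_forall fun z => C7a_integrand_le hC0 hC hg hs hr x z)

lemma C7a_Tker_cont {H : KP → (V →L[ℝ] V)} (hH : Continuous H) {T C A S : ℝ} (hC0 : 0 ≤ C)
    (hC : ∀ (s r : ℝ) (y z : E4), |s| ≤ S → |r| ≤ S → ‖H (s, r, y, z)‖ ≤ C * C7a_b z)
    (hS : T ≤ S) {w : ℝ → E4 → V}
    (hw : ContinuousOn (fun p : ℝ × E4 => w p.1 p.2) (Icc 0 T ×ˢ univ))
    (hw' : ∀ t ∈ Icc 0 T, ∀ x, ‖w t x‖ ≤ A) :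
    ContinuousOn (fun p : ℝ × ℝ × E4 => Tker H p.1 p.2.1 (w p.1) p.2.2)
      (Icc 0 T ×ˢ (Icc (-S) S ×ˢ univ)) := by
  unfold Tker
  refine continuousOn_of_dominated (bound := fun z => C * A * C7a_b z) ?_ ?_
    (C7a_b_int.const_mul (C * A)) ?_
  · rintro ⟨s, r, x⟩ ⟨hs, hr, -⟩
    simp only at hs hr ⊢
    have hc : Continuous (w s) := by
      rw [← continuousOn_univ]
      exact hw.comp (f := fun x : E4 => (s, x)) (by fun_prop) fun x _ => ⟨hs, mem_univ _⟩
    exact (C7a_integrand_cont hH hc s r x).aestronglyMeasurable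
  · rintro ⟨s, r, x⟩ ⟨hs, hr, -⟩
    simp only at hs hr ⊢
    refine Filter.Eventually.of_forall fun z => C7a_integrand_le hC0 hC (hw' s hs) ?_ ?_ x z
    · rw [abs_le]; exact ⟨by linarith [hs.1, hs.2], hs.2.trans hS⟩
    · rw [abs_le]; exact hr
  · refine Filter.Eventually.of_forall fun z => ?_
    have h1 : Continuous fun p : ℝ × ℝ × E4 => H (p.1, p.2.1, p.2.2 - p.2.1 • z, z) :=
      hH.comp (f := fun p : ℝ × ℝ × E4 => ((p.1, p.2.1, p.2.2 - p.2.1 • z, z) : KP)) (by fun_prop)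
    refine h1.continuousOn.clm_apply ?_
    refine hw.comp (f := fun p : ℝ × ℝ × E4 => (p.1, p.2.2 - p.2.1 • z)) (by fun_prop) ?_
    rintro ⟨s, r, x⟩ ⟨hs, hr, -⟩
    exact ⟨hs, mem_univ _⟩

/-- `V →L (ℝ⁴ →L V)`, `v ↦ (u ↦ u_i v)`. -/
def C7a_L (V : Type) [NormedAddCommGroup V] [InnerProductSpace ℝ V] (i : Fin 4) :
    V →L[ℝ] (E4 →L[ℝ] V) :=
  ContinuousLinearMap.smulRightL ℝ E4 V (EuclideanSpace.proj i)

omit [FiniteDimensional ℝ V] in
lemma C7a_L_sum (M : E4 →L[ℝ] V) : M = ∑ i, C7a_L V i (M (bv i)) := by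
  ext u
  have h1 : u = ∑ i, u i • bv i := by
    ext j
    simp [bv, Finset.sum_apply, Pi.single_apply]
  conv_lhs => rw [h1]
  rw [map_sum, sum_apply]
  refine Finset.sum_congr rfl fun i _ => ?_
  simp [C7a_L]

lemma C7a_Tker_fderiv {H : KP → (V →L[ℝ] V)} (hH : RD H) (hS : C7a_S H) {g : E4 → V} {A : ℝ}
    (hg : Differentiable ℝ g) (hg' : Continuous (fderiv ℝ g)) (hA : ∀ x, ‖g x‖ ≤ A)
    (hA' : ∀ x, ‖fderiv ℝ g x‖ ≤ A) (s r : ℝ) (x : E4) :
    HasFDerivAt (Tker H s r g) (∑ i, C7a_L V i (Tker (C7a_dy H (bv i)) s r g x +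
      Tker H s r (pd i g) x)) x := by
  have hA0 : 0 ≤ A := (norm_nonneg _).trans (hA 0)
  obtain ⟨C, hC0, hC⟩ := C7a_bound hH hS (max |s| |r|)
  have hs : |s| ≤ max |s| |r| := le_max_left _ _
  have hr : |r| ≤ max |s| |r| := le_max_right _ _
  set J : E4 →L[ℝ] KP := (ContinuousLinearMap.inr ℝ ℝ (ℝ × E4 × E4)).comp
    ((ContinuousLinearMap.inr ℝ ℝ (E4 × E4)).comp (ContinuousLinearMap.inl ℝ E4 E4)) with hJ
  have hJv : ∀ v, J v = (0, 0, v, 0) := fun v => rfl
  have hJn : ‖J‖ ≤ 1 := by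
    refine ContinuousLinearMap.opNorm_le_bound _ zero_le_one fun v => ?_
    rw [hJv]
    simp [Prod.norm_def]
  set F' : E4 → E4 → (E4 →L[ℝ] V) := fun x z =>
    (H (s, r, x - r • z, z)).comp (fderiv ℝ g (x - r • z)) +
      ((fderiv ℝ H (s, r, x - r • z, z)).comp J).flip (g (x - r • z)) with hF'
  have hHc : Continuous H := hH.1.continuous
  have hH'c : Continuous (fderiv ℝ H) := hH.1.continuous_fderiv (by simp)
  have hgc : Continuous g := hg.continuous
  have hF'c : Continuous (F' x) := by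
    have h1 : Continuous fun z : E4 => H (s, r, x - r • z, z) :=
      hHc.comp (f := fun z : E4 => ((s, r, x - r • z, z) : KP)) (by fun_prop)
    have h2 : Continuous fun z : E4 => fderiv ℝ H (s, r, x - r • z, z) :=
      hH'c.comp (f := fun z : E4 => ((s, r, x - r • z, z) : KP)) (by fun_prop)
    have h3 : Continuous fun z : E4 => fderiv ℝ g (x - r • z) := hg'.comp (by fun_prop)
    have h4 : Continuous fun z : E4 => g (x - r • z) := hgc.comp (by fun_prop)
    have h5 : Continuous fun z : E4 => (fderiv ℝ H (s, r, x - r • z, z)).comp J :=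
      h2.clm_comp continuous_const
    have h6 : Continuous fun z : E4 => ((fderiv ℝ H (s, r, x - r • z, z)).comp J).flip :=
      (ContinuousLinearMap.flipₗᵢ ℝ E4 V V).continuous.comp h5
    exact (h1.clm_comp h3).add (h6.clm_apply h4)
  have hbd : ∀ x z, ‖F' x z‖ ≤ (2 * C * A) * C7a_b z := by
    intro x z
    obtain ⟨h1, h2⟩ := hC s r (x - r • z) z hs hr
    have hb := C7a_b_nonneg z
    calc ‖F' x z‖ ≤ ‖(H (s, r, x - r • z, z)).comp (fderiv ℝ g (x - r • z))‖ +
          ‖((fderiv ℝ H (s, r, x - r • z, z)).comp J).flip (g (x - r • z))‖ := norm_add_le _ _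
      _ ≤ (C * C7a_b z) * A + (C * C7a_b z) * A := by
        gcongr
        · refine (ContinuousLinearMap.opNorm_comp_le _ _).trans ?_
          gcongr
          exact hA' _
        · refine (ContinuousLinearMap.le_opNorm _ _).trans ?_
          rw [ContinuousLinearMap.opNorm_flip]
          have h3 : ‖(fderiv ℝ H (s, r, x - r • z, z)).comp J‖ ≤ C * C7a_b z := by
            refine (ContinuousLinearMap.opNorm_comp_le _ _).trans ?_
            calc _ ≤ (C * C7a_b z) * 1 := by gcongr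
              _ = _ := mul_one _
          gcongr
          exact hA _
      _ = _ := by ring
  have hF'i : Integrable (F' x) :=
    (C7a_b_int.const_mul (2 * C * A)).mono' hF'c.aestronglyMeasurable
      (Filter.Eventually.of_forall fun z => hbd x z)
  have hmain : HasFDerivAt (fun x => ∫ z, H (s, r, x - r • z, z) (g (x - r • z)))
      (∫ z, F' x z) x := by
    refine hasFDerivAt_integral_of_dominated_of_fderiv_le (s := univ) (F' := F')
      (bound := fun z => (2 * C * A) * C7a_b z) Filter.univ_mem ?_ ?_ ?_ ?_ ?_ ?_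
    · exact Filter.Eventually.of_forall fun x =>
        (C7a_integrand_cont hHc hgc s r x).aestronglyMeasurable
    · exact C7a_integrand_int hHc hC0 (fun s r y z hs hr => (hC s r y z hs hr).1) hgc hA hs hr x
    · exact hF'c.aestronglyMeasurable
    · exact Filter.Eventually.of_forall fun z x _ => hbd x z
    · exact C7a_b_int.const_mul _
    · refine Filter.Eventually.of_forall fun z x _ => ?_
      have e1 : HasFDerivAt (fun x : E4 => x - r • z) (ContinuousLinearMap.id ℝ E4) x :=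
        (hasFDerivAt_id x).sub_const _
      have e2 : HasFDerivAt (fun x : E4 => ((s, r, x - r • z, z) : KP)) J x :=
        (hasFDerivAt_const s x).prodMk ((hasFDerivAt_const r x).prodMk
          (e1.prodMk (hasFDerivAt_const z x)))
      have e3 : HasFDerivAt (fun x : E4 => H (s, r, x - r • z, z))
          ((fderiv ℝ H (s, r, x - r • z, z)).comp J) x :=
        ((hH.1.differentiable (by simp)) (s, r, x - r • z, z)).hasFDerivAt.comp x e2
      have e4 : HasFDerivAt (fun x : E4 => g (x - r • z)) (fderiv ℝ g (x - r • z)) x := by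
        have := (hg (x - r • z)).hasFDerivAt.comp x e1
        exact this
      exact e3.clm_apply e4
  have hval : ∑ i, C7a_L V i (Tker (C7a_dy H (bv i)) s r g x + Tker H s r (pd i g) x) =
      ∫ z, F' x z := by
    rw [C7a_L_sum (∫ z, F' x z)]
    refine Finset.sum_congr rfl fun i _ => ?_
    congr 1
    rw [ContinuousLinearMap.integral_apply hF'i]
    have hbv : ‖bv i‖ = 1 := by simp [bv]
    have i1 : Integrable fun z => H (s, r, x - r • z, z) (pd i g (x - r • z)) := by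
      refine C7a_integrand_int hHc hC0 (fun s r y z hs hr => (hC s r y z hs hr).1)
        (g := pd i g) (A := A) ?_ ?_ hs hr x
      · unfold pd
        exact hg'.clm_apply continuous_const
      · intro y
        unfold pd
        refine (ContinuousLinearMap.le_opNorm _ _).trans ?_
        rw [hbv, mul_one]
        exact hA' y
    have i2 : Integrable fun z => C7a_dy H (bv i) (s, r, x - r • z, z) (g (x - r • z)) := by
      refine C7a_integrand_int (T := max |s| |r|) (C := C) ?_ hC0 ?_ hgc hA hs hr x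
      · unfold C7a_dy
        exact hH'c.clm_apply continuous_const
      · intro s r y z hs hr
        unfold C7a_dy
        refine (ContinuousLinearMap.le_opNorm _ _).trans ?_
        have h3 : ‖((0, 0, bv i, 0) : KP)‖ ≤ 1 := by
          rw [← hJv]
          refine (J.le_opNorm _).trans ?_
          rw [hbv, mul_one]
          exact hJn
        have hb := C7a_b_nonneg z
        calc _ ≤ (C * C7a_b z) * 1 := by
              gcongr
              exact (hC s r y z hs hr).2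
          _ = _ := mul_one _
    unfold Tker
    rw [add_comm, ← integral_add i1 i2]
    rfl
  rw [hval]
  exact hmain

lemma C7a_sqrt_mem {t σ T S : ℝ} (ht : t ∈ Icc 0 T) (hσ : σ ∈ Icc 0 t) (hS : Real.sqrt T ≤ S) :
    Real.sqrt (t - σ) ∈ Icc (-S) S := by
  have h1 : Real.sqrt (t - σ) ≤ Real.sqrt T := Real.sqrt_le_sqrt (by linarith [ht.2, hσ.1])
  have h2 := Real.sqrt_nonneg (t - σ)
  exact ⟨by linarith, by linarith⟩

omit [FiniteDimensional ℝ V] in
lemma C7a_Q_eq (H : KP → (V →L[ℝ] V)) (w : ℝ → E4 → V) (t : ℝ) (x : E4) :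
    Qop H w t x =
      t • ∫ θ in Ioc (0 : ℝ) 1, Tker H (t * θ) (Real.sqrt (t - t * θ)) (w (t * θ)) x := by
  unfold Qop
  rw [← intervalIntegral.integral_of_le zero_le_one,
    intervalIntegral.smul_integral_comp_mul_left
      (f := fun σ => Tker H σ (Real.sqrt (t - σ)) (w σ) x)]
  simp

lemma C7a_Q_cont {H : KP → (V →L[ℝ] V)} (hH : Continuous H) {T C A S : ℝ} (hC0 : 0 ≤ C)
    (hC : ∀ (s r : ℝ) (y z : E4), |s| ≤ S → |r| ≤ S → ‖H (s, r, y, z)‖ ≤ C * C7a_b z)
    (hS : T ≤ S) (hS' : Real.sqrt T ≤ S) {w : ℝ → E4 → V}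
    (hw : ContinuousOn (fun p : ℝ × E4 => w p.1 p.2) (Icc 0 T ×ˢ univ))
    (hw' : ∀ t ∈ Icc 0 T, ∀ x, ‖w t x‖ ≤ A) :
    ContinuousOn (fun p : ℝ × E4 => Qop H w p.1 p.2) (Icc 0 T ×ˢ univ) := by
  have hmem : ∀ t ∈ Icc 0 T, ∀ θ ∈ Icc (0 : ℝ) 1, t * θ ∈ Icc 0 t := by
    intro t ht θ hθ
    exact ⟨mul_nonneg ht.1 hθ.1, mul_le_of_le_one_right ht.1 hθ.2⟩
  have hc : ContinuousOn (fun p : (ℝ × E4) × ℝ => Tker H (p.1.1 * p.2)
      (Real.sqrt (p.1.1 - p.1.1 * p.2)) (w (p.1.1 * p.2)) p.1.2)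
      ((Icc 0 T ×ˢ univ) ×ˢ Icc 0 1) := by
    refine (C7a_Tker_cont hH hC0 hC hS hw hw').comp
      (f := fun p : (ℝ × E4) × ℝ => (p.1.1 * p.2, Real.sqrt (p.1.1 - p.1.1 * p.2), p.1.2))
      ?_ ?_
    · exact Continuous.continuousOn (by fun_prop)
    · rintro ⟨⟨t, x⟩, θ⟩ ⟨⟨ht, -⟩, hθ⟩
      simp only at ht hθ
      have h1 := hmem t ht θ hθ
      exact ⟨⟨h1.1, h1.2.trans ht.2⟩, C7a_sqrt_mem ht h1 hS', mem_univ _⟩
  simp only [C7a_Q_eq]
  refine continuous_fst.continuousOn.smul ?_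
  refine continuousOn_of_dominated (bound := fun _ => C * A * ∫ z, C7a_b z) ?_ ?_ ?_ ?_
  · rintro ⟨t, x⟩ hp
    have h1 : ContinuousOn (fun θ : ℝ => Tker H (t * θ)
      (Real.sqrt (t - t * θ)) (w (t * θ)) x) (Icc 0 1) :=
      hc.comp (f := fun θ : ℝ => (((t, x), θ) : (ℝ × E4) × ℝ)) (by fun_prop)
        fun θ hθ => ⟨hp, hθ⟩
    exact (h1.mono Ioc_subset_Icc_self).aestronglyMeasurable measurableSet_Ioc
  · rintro ⟨t, x⟩ ⟨ht, -⟩
    simp only at ht
    refine ae_restrict_of_forall_mem measurableSet_Ioc fun θ hθ => ?_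
    have h1 := hmem t ht θ (Ioc_subset_Icc_self hθ)
    have h2 := C7a_sqrt_mem ht h1 hS'
    refine C7a_Tker_le hC0 hC (hw' _ ⟨h1.1, h1.2.trans ht.2⟩) ?_ ?_ x
    · rw [abs_le]; exact ⟨by linarith [h1.1, h1.2, ht.2], by linarith [h1.2, ht.2]⟩
    · rw [abs_le]; exact h2
  · exact integrable_const _
  · refine ae_restrict_of_forall_mem measurableSet_Ioc fun θ hθ => ?_
    exact hc.comp (f := fun p : ℝ × E4 => ((p, θ) : (ℝ × E4) × ℝ)) (by fun_prop)
        fun p hp => ⟨hp, Ioc_subset_Icc_self hθ⟩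

omit [FiniteDimensional ℝ V] in
lemma C7a_Q_le {H : KP → (V →L[ℝ] V)} {T C A S : ℝ} (hC0 : 0 ≤ C) (hA : 0 ≤ A)
    (hC : ∀ (s r : ℝ) (y z : E4), |s| ≤ S → |r| ≤ S → ‖H (s, r, y, z)‖ ≤ C * C7a_b z)
    (hS : T ≤ S) (hS' : Real.sqrt T ≤ S) {w : ℝ → E4 → V}
    (hw' : ∀ t ∈ Icc 0 T, ∀ x, ‖w t x‖ ≤ A) {t : ℝ} (ht : t ∈ Icc 0 T) (x : E4) :
    ‖Qop H w t x‖ ≤ T * C * (∫ z, C7a_b z) * A := by
  have hI : 0 ≤ ∫ z, C7a_b z := integral_nonneg C7a_b_nonneg
  unfold Qop
  refine (intervalIntegral.norm_integral_le_of_norm_le_const (C := C * A * ∫ z, C7a_b z)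
    fun σ hσ => ?_).trans ?_
  · rw [uIoc_of_le ht.1] at hσ
    have h2 := C7a_sqrt_mem ht (Ioc_subset_Icc_self hσ) hS'
    refine C7a_Tker_le hC0 hC (hw' _ ⟨hσ.1.le, hσ.2.trans ht.2⟩) ?_ ?_ x
    · rw [abs_le]; exact ⟨by linarith [hσ.1, hσ.2, ht.2], by linarith [hσ.2, ht.2]⟩
    · rw [abs_le]; exact h2
  · rw [sub_zero, abs_of_nonneg ht.1]
    calc C * A * (∫ z, C7a_b z) * t ≤ C * A * (∫ z, C7a_b z) * T := by
          gcongr
          exact ht.2
      _ = _ := by ring

/-- Continuity in `σ` for fixed `(t, x)`. -/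
lemma C7a_slice_cont {H : KP → (V →L[ℝ] V)} (hH : Continuous H) {T C A S : ℝ} (hC0 : 0 ≤ C)
    (hC : ∀ (s r : ℝ) (y z : E4), |s| ≤ S → |r| ≤ S → ‖H (s, r, y, z)‖ ≤ C * C7a_b z)
    (hS : T ≤ S) (hS' : Real.sqrt T ≤ S) {w : ℝ → E4 → V}
    (hw : ContinuousOn (fun p : ℝ × E4 => w p.1 p.2) (Icc 0 T ×ˢ univ))
    (hw' : ∀ t ∈ Icc 0 T, ∀ x, ‖w t x‖ ≤ A) {t : ℝ} (ht : t ∈ Icc 0 T) (x : E4) :
    ContinuousOn (fun σ => Tker H σ (Real.sqrt (t - σ)) (w σ) x) (Icc 0 t) := by
  refine (C7a_Tker_cont hH hC0 hC hS hw hw').comp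
      (f := fun σ : ℝ => (σ, Real.sqrt (t - σ), x)) ?_ ?_
  · exact Continuous.continuousOn (by fun_prop)
  · intro σ hσ
    exact ⟨⟨hσ.1, hσ.2.trans ht.2⟩, C7a_sqrt_mem ht hσ hS', mem_univ _⟩

omit [FiniteDimensional ℝ V] in
/-- The partial derivatives of a nice function are nice. -/
lemma C7a_nice_pd {k : ℕ} {T C : ℝ} (hC : 0 ≤ C) {u : ℝ → E4 → V} (h : NiceE (k + 1) T C u)
    (i : Fin 4) : NiceE k T C fun t => pd i (u t) := by
  have h1 := C7a_nice_clm (C7a_nice_fderiv h).2 (ContinuousLinearMap.apply ℝ V (bv i))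
  refine C7a_nice_mono h1 ?_
  have h2 : ‖ContinuousLinearMap.apply ℝ V (bv i)‖ ≤ 1 := by
    refine ContinuousLinearMap.opNorm_le_bound _ zero_le_one fun M => ?_
    simp only [ContinuousLinearMap.apply_apply, one_mul]
    refine (M.le_opNorm _).trans ?_
    simp [bv]
  calc _ ≤ 1 * C := by gcongr
    _ = C := one_mul _

omit [FiniteDimensional ℝ V] in
lemma C7a_RD_dy {H : KP → (V →L[ℝ] V)} (hH : RD H) (v : E4) : RD (C7a_dy H v) :=
  C7a_RD_fderiv hH _

omit [FiniteDimensional ℝ V] in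
lemma C7a_S_dy {H : KP → (V →L[ℝ] V)} (hH : C7a_S H) (v : E4) : C7a_S (C7a_dy H v) :=
  C7a_S_fderiv hH _

lemma C7a_Q_fderiv {H : KP → (V →L[ℝ] V)} (hH : RD H) (hS : C7a_S H) {T A : ℝ}
    {w : ℝ → E4 → V} (hw : NiceE 1 T A w) (hA : 0 ≤ A) {t : ℝ} (ht : t ∈ Icc 0 T) (x : E4) :
    HasFDerivAt (Qop H w t) (∑ i, C7a_L V i (Qop (C7a_dy H (bv i)) w t x +
      Qop H (fun s => pd i (w s)) t x)) x := by
  set S := max T (Real.sqrt T) with hSd
  have hS1 : T ≤ S := le_max_left _ _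
  have hS2 : Real.sqrt T ≤ S := le_max_right _ _
  obtain ⟨C, hC0, hC'⟩ := C7a_bound hH hS S
  have hC : ∀ (s r : ℝ) (y z : E4), |s| ≤ S → |r| ≤ S → ‖H (s, r, y, z)‖ ≤ C * C7a_b z :=
    fun s r y z hs hr => (hC' s r y z hs hr).1
  have hD : ∀ i, ∃ D, 0 ≤ D ∧ ∀ (s r : ℝ) (y z : E4), |s| ≤ S → |r| ≤ S →
      ‖C7a_dy H (bv i) (s, r, y, z)‖ ≤ D * C7a_b z := by
    intro i
    obtain ⟨D, hD0, hD⟩ := C7a_bound (C7a_RD_dy hH (bv i)) (C7a_S_dy hS (bv i)) S
    exact ⟨D, hD0, fun s r y z hs hr => (hD s r y z hs hr).1⟩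
  choose D hD0 hD using hD
  have hHc : Continuous H := hH.1.continuous
  have hHd : ∀ i, Continuous (C7a_dy H (bv i)) := fun i => (C7a_RD_dy hH (bv i)).1.continuous
  have hw0 := C7a_nice_cont hw
  have hw1 := C7a_nice_bd hw
  have hwp := fun i => C7a_nice_pd hA hw i
  have hwp0 := fun i => C7a_nice_cont (hwp i)
  have hwp1 := fun i => C7a_nice_bd (hwp i)
  obtain ⟨hwd, hwn⟩ := C7a_nice_fderiv hw
  set I := ∫ z, C7a_b z with hI
  set F' : E4 → ℝ → (E4 →L[ℝ] V) := fun x σ =>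
    ∑ i, C7a_L V i (Tker (C7a_dy H (bv i)) σ (Real.sqrt (t - σ)) (w σ) x +
      Tker H σ (Real.sqrt (t - σ)) (pd i (w σ)) x) with hF'
  have c1 : ∀ x, ContinuousOn (fun σ => Tker H σ (Real.sqrt (t - σ)) (w σ) x) (Icc 0 t) :=
    fun x => C7a_slice_cont hHc hC0 hC hS1 hS2 hw0 hw1 ht x
  have c2 : ∀ i x, ContinuousOn (fun σ => Tker (C7a_dy H (bv i)) σ (Real.sqrt (t - σ)) (w σ) x)
      (Icc 0 t) :=
    fun i x => C7a_slice_cont (hHd i) (hD0 i) (hD i) hS1 hS2 hw0 hw1 ht x
  have c3 : ∀ i x, ContinuousOn (fun σ => Tker H σ (Real.sqrt (t - σ)) (pd i (w σ)) x)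
      (Icc 0 t) :=
    fun i x => C7a_slice_cont hHc hC0 hC hS1 hS2 (hwp0 i) (hwp1 i) ht x
  have c4 : ∀ x, ContinuousOn (F' x) (Icc 0 t) := by
    intro x
    refine continuousOn_finsetSum _ fun i _ => ?_
    exact (C7a_L V i).continuous.comp_continuousOn ((c2 i x).add (c3 i x))
  have hu : uIcc 0 t = Icc 0 t := uIcc_of_le ht.1
  have hmain : HasFDerivAt (fun x => ∫ σ in (0 : ℝ)..t, Tker H σ (Real.sqrt (t - σ)) (w σ) x)
      (∫ σ in (0 : ℝ)..t, F' x σ) x := by
    refine intervalIntegral.hasFDerivAt_integral_of_dominated_of_fderiv_le (s := univ) (F' := F')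
      (bound := fun _ => ∑ i, ‖C7a_L V i‖ * (D i * A * I + C * A * I)) Filter.univ_mem
      ?_ ?_ ?_ ?_ ?_ ?_
    · refine Filter.Eventually.of_forall fun x => ?_
      rw [uIoc_of_le ht.1]
      exact ((c1 x).mono Ioc_subset_Icc_self).aestronglyMeasurable measurableSet_Ioc
    · exact ContinuousOn.intervalIntegrable (by rw [hu]; exact c1 x)
    · rw [uIoc_of_le ht.1]
      exact ((c4 x).mono Ioc_subset_Icc_self).aestronglyMeasurable measurableSet_Ioc
    · refine Filter.Eventually.of_forall fun σ hσ x _ => ?_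
      rw [uIoc_of_le ht.1] at hσ
      have h2 := C7a_sqrt_mem ht (Ioc_subset_Icc_self hσ) hS2
      have a1 : |σ| ≤ S := by
        rw [abs_le]; exact ⟨by linarith [hσ.1, hσ.2, ht.2], by linarith [hσ.2, ht.2]⟩
      have a2 : |Real.sqrt (t - σ)| ≤ S := by rw [abs_le]; exact h2
      have a3 : σ ∈ Icc 0 T := ⟨hσ.1.le, hσ.2.trans ht.2⟩
      refine (norm_sum_le _ _).trans (Finset.sum_le_sum fun i _ => ?_)
      refine (ContinuousLinearMap.le_opNorm _ _).trans ?_
      gcongr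
      refine (norm_add_le _ _).trans (add_le_add ?_ ?_)
      · exact C7a_Tker_le (hD0 i) (hD i) (hw1 σ a3) a1 a2 x
      · exact C7a_Tker_le hC0 hC (hwp1 i σ a3) a1 a2 x
    · exact intervalIntegrable_const
    · refine Filter.Eventually.of_forall fun σ hσ x _ => ?_
      rw [uIoc_of_le ht.1] at hσ
      have a3 : σ ∈ Icc 0 T := ⟨hσ.1.le, hσ.2.trans ht.2⟩
      refine C7a_Tker_fderiv hH hS (A := A) (hwd σ a3) ?_ (hw1 σ a3) (C7a_nice_bd hwn σ a3) σ _ x
      have := C7a_nice_cont hwn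
      rw [← continuousOn_univ]
      exact this.comp (f := fun x : E4 => (σ, x)) (by fun_prop) fun x _ => ⟨a3, mem_univ _⟩
  have hval : ∑ i, C7a_L V i (Qop (C7a_dy H (bv i)) w t x + Qop H (fun s => pd i (w s)) t x) =
      ∫ σ in (0 : ℝ)..t, F' x σ := by
    have i2 : ∀ i, IntervalIntegrable (fun σ => Tker (C7a_dy H (bv i)) σ (Real.sqrt (t - σ))
        (w σ) x) volume 0 t := fun i =>
      ContinuousOn.intervalIntegrable (by rw [hu]; exact c2 i x)
    have i3 : ∀ i, IntervalIntegrable (fun σ => Tker H σ (Real.sqrt (t - σ)) (pd i (w σ)) x)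
        volume 0 t := fun i =>
      ContinuousOn.intervalIntegrable (by rw [hu]; exact c3 i x)
    have i4 : ∀ i, IntervalIntegrable (fun σ => Tker (C7a_dy H (bv i)) σ (Real.sqrt (t - σ))
        (w σ) x + Tker H σ (Real.sqrt (t - σ)) (pd i (w σ)) x) volume 0 t :=
      fun i => (i2 i).add (i3 i)
    simp only [hF']
    rw [intervalIntegral.integral_finsetSum]
    · refine Finset.sum_congr rfl fun i _ => ?_
      rw [ContinuousLinearMap.intervalIntegral_comp_comm _ (i4 i),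
        intervalIntegral.integral_add (i2 i) (i3 i)]
      rfl
    · intro i _
      refine ContinuousOn.intervalIntegrable ?_
      rw [hu]
      exact (C7a_L V i).continuous.comp_continuousOn ((c2 i x).add (c3 i x))
  rw [hval]
  exact hmain

theorem C7a_main (T : ℝ) (hT : 0 < T) : ∀ (k : ℕ) (H : KP → (V →L[ℝ] V)), RD H → C7a_S H →
    ∃ K : ℝ, 0 ≤ K ∧ ∀ (w : ℝ → E4 → V) (A : ℝ), NiceE k T A w → NiceE k T (K * A) (Qop H w) := by
  have base : ∀ (H : KP → (V →L[ℝ] V)), RD H → C7a_S H → ∃ K : ℝ, 0 ≤ K ∧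
      ∀ (w : ℝ → E4 → V) (A : ℝ), ContinuousOn (fun p : ℝ × E4 => w p.1 p.2) (Icc 0 T ×ˢ univ) →
      (∀ t ∈ Icc 0 T, ∀ x, ‖w t x‖ ≤ A) →
      ContinuousOn (fun p : ℝ × E4 => Qop H w p.1 p.2) (Icc 0 T ×ˢ univ) ∧
      ∀ t ∈ Icc 0 T, ∀ x, ‖Qop H w t x‖ ≤ K * A := by
    intro H hH hS
    set S := max T (Real.sqrt T) with hSd
    have hS1 : T ≤ S := le_max_left _ _
    have hS2 : Real.sqrt T ≤ S := le_max_right _ _
    obtain ⟨C, hC0, hC'⟩ := C7a_bound hH hS S
    have hC : ∀ (s r : ℝ) (y z : E4), |s| ≤ S → |r| ≤ S → ‖H (s, r, y, z)‖ ≤ C * C7a_b z :=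
      fun s r y z hs hr => (hC' s r y z hs hr).1
    have hI : 0 ≤ ∫ z, C7a_b z := integral_nonneg C7a_b_nonneg
    refine ⟨T * C * ∫ z, C7a_b z, by positivity, fun w A hw hw' => ⟨?_, fun t ht x => ?_⟩⟩
    · exact C7a_Q_cont hH.1.continuous hC0 hC hS1 hS2 hw hw'
    · have hA : 0 ≤ A := (norm_nonneg _).trans (hw' t ht x)
      exact C7a_Q_le hC0 hA hC hS1 hS2 hw' ht x
  intro k
  induction k with
  | zero =>
    intro H hH hS
    obtain ⟨K, hK, h⟩ := base H hH hS
    refine ⟨K, hK, fun w A hw => ?_⟩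
    obtain ⟨h1, h2⟩ := h w A (C7a_nice_cont hw) (C7a_nice_bd hw)
    exact C7a_nice_zero h1 h2
  | succ k ih =>
    intro H hH hS
    obtain ⟨K0, hK0, h0⟩ := base H hH hS
    obtain ⟨K1, hK1, h1⟩ := ih H hH hS
    have h2 := fun i : Fin 4 => ih (C7a_dy H (bv i)) (C7a_RD_dy hH _) (C7a_S_dy hS _)
    choose K2 hK2 h2 using h2
    have hsum : 0 ≤ ∑ i, ‖C7a_L V i‖ * (K2 i + K1) :=
      Finset.sum_nonneg fun i _ => mul_nonneg (norm_nonneg (C7a_L V i)) (add_nonneg (hK2 i) hK1)
    refine ⟨K0 + ∑ i, ‖C7a_L V i‖ * (K2 i + K1), add_nonneg hK0 hsum, fun w A hw => ?_⟩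
    have hA : 0 ≤ A := (norm_nonneg _).trans (C7a_nice_bd hw 0 ⟨le_rfl, hT.le⟩ 0)
    have hwk : NiceE k T A w := ⟨fun t ht => (hw.1 t ht).of_le (by exact_mod_cast Nat.le_succ k),
      fun j hj => hw.2.1 j (hj.trans (Nat.le_succ k)),
      fun j hj => hw.2.2 j (hj.trans (Nat.le_succ k))⟩
    have hw1 : NiceE 1 T A w :=
      ⟨fun t ht => (hw.1 t ht).of_le (by exact_mod_cast Nat.le_add_left 1 k),
      fun j hj => hw.2.1 j (hj.trans (Nat.le_add_left 1 k)),
      fun j hj => hw.2.2 j (hj.trans (Nat.le_add_left 1 k))⟩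
    obtain ⟨b1, b2⟩ := h0 w A (C7a_nice_cont hw) (C7a_nice_bd hw)
    have hd := fun t (ht : t ∈ Icc 0 T) x => C7a_Q_fderiv hH hS hw1 hA ht x
    refine C7a_nice_succ b1 (fun t ht x => (b2 t ht x).trans ?_)
      (fun t ht x => (hd t ht x).differentiableAt) ?_
    · gcongr
      linarith
    · have hn : NiceE k T (∑ i, ‖C7a_L V i‖ * (K2 i * A + K1 * A)) fun t x =>
          ∑ i, C7a_L V i (Qop (C7a_dy H (bv i)) w t x + Qop H (fun s => pd i (w s)) t x) := by
        refine C7a_nice_sum _ fun i _ => ?_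
        exact C7a_nice_clm (C7a_nice_add (h2 i w A hwk) (h1 _ A (C7a_nice_pd hA hw i))) _
      refine C7a_nice_congr (C7a_nice_mono hn ?_) fun t ht => ?_
      · have e : ∑ i, ‖C7a_L V i‖ * (K2 i * A + K1 * A) =
            (∑ i, ‖C7a_L V i‖ * (K2 i + K1)) * A := by
          rw [Finset.sum_mul]
          exact Finset.sum_congr rfl fun i _ => by ring
        rw [e]
        gcongr
        linarith
      · ext1 x
        exact ((hd t ht x).fderiv).symm

end oper

/-- C7a: the operator `Q` preserves `C^k`. -/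
theorem claimQop_proof : claimQop := by
  intro V _ _ _ H hH hS k T hT
  obtain ⟨K, -, h⟩ := C7a_main T hT k H hH fun q hq => hS.1 q hq.le
  exact ⟨K, h⟩

end NRF

end
end

section

/-!
# C7c: the heat equation for `Q` in integrated form
-/

open scoped Manifold ContDiff Topology
open MeasureTheory Set Filter

set_option linter.unusedSectionVars false

noncomputable section

namespace NRF

/-! ### Rapidly decreasing kernels supported in `‖y‖ ≤ 1` -/

section C7c

variable {W : Type} [NormedAddCommGroup W] [NormedSpace ℝ W]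

/-- Rapidly decreasing kernels supported in `‖y‖ ≤ 1`. -/
structure C7c_RS (K : KP → W) : Prop where
  rd : RD K
  supp : ∀ q : KP, 1 < ‖q.2.2.1‖ → K q = 0

theorem C7c_RS.eventually {K : KP → W} (h : C7c_RS K) {q : KP} (hq : 1 < ‖q.2.2.1‖) :
    K =ᶠ[𝓝 q] fun _ => 0 := by
  have h1 : IsOpen {q : KP | 1 < ‖q.2.2.1‖} :=
    isOpen_lt continuous_const (by fun_prop)
  filter_upwards [h1.mem_nhds hq] with p hp
  exact h.supp p hp

theorem C7c_RS.fderiv_zero {K : KP → W} (h : C7c_RS K) {q : KP} (hq : 1 < ‖q.2.2.1‖) :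
    fderiv ℝ K q = 0 := by
  rw [(h.eventually hq).fderiv_eq]
  simp

theorem C7c_RS.fderiv {K : KP → W} (h : C7c_RS K) (v : KP) :
    C7c_RS fun q => fderiv ℝ K q v where
  rd := by
    refine ⟨?_, ?_⟩
    · exact (h.rd.1.fderiv_right (by simp)).clm_apply contDiff_const
    · intro k M T
      obtain ⟨C, hC⟩ := h.rd.2 (k + 1) M T
      refine ⟨‖v‖ * C, fun s r y z hs hr hy => ?_⟩
      have hd : ContDiff ℝ ∞ (_root_.fderiv ℝ K) := h.rd.1.fderiv_right (by simp)
      have h1 : ‖iteratedFDeriv ℝ k (fun q => _root_.fderiv ℝ K q v) (s, r, y, z)‖ ≤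
          ‖v‖ * ‖iteratedFDeriv ℝ k (_root_.fderiv ℝ K) (s, r, y, z)‖ :=
        norm_iteratedFDeriv_clm_apply_const hd.contDiffAt (by exact_mod_cast le_top)
      rw [norm_iteratedFDeriv_fderiv] at h1
      have h2 := hC s r y z hs hr hy
      have h3 : 0 ≤ (1 + ‖z‖) ^ M := by positivity
      calc _ ≤ ‖v‖ * ‖iteratedFDeriv ℝ (k + 1) K (s, r, y, z)‖ * (1 + ‖z‖) ^ M :=
            mul_le_mul_of_nonneg_right h1 h3
        _ = ‖v‖ * (‖iteratedFDeriv ℝ (k + 1) K (s, r, y, z)‖ * (1 + ‖z‖) ^ M) := by ring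
        _ ≤ _ := mul_le_mul_of_nonneg_left h2 (norm_nonneg _)
  supp := by
    intro q hq
    simp [h.fderiv_zero hq]

theorem C7c_RS.bound {K : KP → W} (h : C7c_RS K) (M : ℕ) (T : ℝ) : ∃ C : ℝ, 0 ≤ C ∧
    ∀ (s r : ℝ) (y z : E4), |s| ≤ T → |r| ≤ T → ‖K (s, r, y, z)‖ ≤ C / (1 + ‖z‖) ^ M ∧
      ‖_root_.fderiv ℝ K (s, r, y, z)‖ ≤ C / (1 + ‖z‖) ^ M := by
  obtain ⟨C0, hC0⟩ := h.rd.2 0 M (max T 1)
  obtain ⟨C1, hC1⟩ := h.rd.2 1 M (max T 1)
  refine ⟨max 0 (max C0 C1), le_max_left _ _, fun s r y z hs hr => ?_⟩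
  have hp : 0 < (1 + ‖z‖) ^ M := by positivity
  by_cases hy : 1 < ‖y‖
  · have h1 := h.supp (s, r, y, z) hy
    have h2 := h.fderiv_zero (q := (s, r, y, z)) hy
    rw [h1, h2]
    simp only [norm_zero]
    have : 0 ≤ max 0 (max C0 C1) / (1 + ‖z‖) ^ M :=
      div_nonneg (le_max_left _ _) hp.le
    exact ⟨this, this⟩
  · have hy' : ‖y‖ ≤ max T 1 := (not_lt.1 hy).trans (le_max_right _ _)
    have h1 := hC0 s r y z (hs.trans (le_max_left _ _)) (hr.trans (le_max_left _ _)) hy'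
    have h2 := hC1 s r y z (hs.trans (le_max_left _ _)) (hr.trans (le_max_left _ _)) hy'
    rw [norm_iteratedFDeriv_zero] at h1
    rw [norm_iteratedFDeriv_one] at h2
    constructor
    · rw [le_div_iff₀ hp]
      exact h1.trans ((le_max_left _ _).trans (le_max_right _ _))
    · rw [le_div_iff₀ hp]
      exact h2.trans ((le_max_right _ _).trans (le_max_right _ _))

theorem C7c_int (C : ℝ) : Integrable (fun z : E4 => C / (1 + ‖z‖) ^ 5) := by
  have h := (integrable_one_add_norm (E := E4) (μ := volume) (r := 5) (by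
    rw [finrank_euclideanSpace]; norm_num)).const_mul C
  refine h.congr (Eventually.of_forall fun z => ?_)
  have h1 : (0 : ℝ) ≤ 1 + ‖z‖ := by positivity
  simp only
  rw [Real.rpow_neg h1, div_eq_mul_inv]
  norm_cast

/-! ### Integration by parts -/

theorem C7c_ibp0 {Φ : E4 → W} (hΦ : ContDiff ℝ 1 Φ) {C : ℝ}
    (h0 : ∀ z, ‖Φ z‖ ≤ C / (1 + ‖z‖) ^ 5) (h1 : ∀ z, ‖fderiv ℝ Φ z‖ ≤ C / (1 + ‖z‖) ^ 5) (v : E4) :
    ∫ z, fderiv ℝ Φ z v = 0 := by
  have hi0 : Integrable Φ := (C7c_int C).mono' hΦ.continuous.aestronglyMeasurable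
    (Eventually.of_forall h0)
  have hc : Continuous fun z => fderiv ℝ Φ z v :=
    (hΦ.continuous_fderiv (by norm_num)).clm_apply continuous_const
  have hi1 : Integrable fun z => fderiv ℝ Φ z v := by
    refine (C7c_int (C * ‖v‖)).mono' hc.aestronglyMeasurable (Eventually.of_forall fun z => ?_)
    calc ‖fderiv ℝ Φ z v‖ ≤ ‖fderiv ℝ Φ z‖ * ‖v‖ := ContinuousLinearMap.le_opNorm _ _
      _ ≤ C / (1 + ‖z‖) ^ 5 * ‖v‖ := mul_le_mul_of_nonneg_right (h1 z) (norm_nonneg _)
      _ = _ := by ring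
  have := integral_smul_fderiv_eq_neg_fderiv_smul_of_integrable (μ := volume)
    (f := fun _ : E4 => (1 : ℝ)) (g := Φ) (v := v) (by simp) (by simpa using hi1)
    (by simpa using hi0) (fun x _ => differentiableAt_const _)
    (fun x _ => hΦ.differentiable (by norm_num) x)
  simpa using this

theorem C7c_ibp {Φ : E4 → W} (hΦ : ContDiff ℝ 1 Φ) {C : ℝ} (hC : 0 ≤ C)
    (h0 : ∀ z, ‖Φ z‖ ≤ C / (1 + ‖z‖) ^ 6) (h1 : ∀ z, ‖fderiv ℝ Φ z‖ ≤ C / (1 + ‖z‖) ^ 6) :
    (∀ v, ∫ z, fderiv ℝ Φ z v = 0) ∧ ∫ z, ((4 : ℝ) • Φ z + fderiv ℝ Φ z z) = 0 := by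
  have hle : ∀ z : E4, C / (1 + ‖z‖) ^ 6 ≤ C / (1 + ‖z‖) ^ 5 := by
    intro z
    apply div_le_div_of_nonneg_left hC (by positivity)
    have : (1 : ℝ) ≤ 1 + ‖z‖ := by linarith [norm_nonneg z]
    exact pow_le_pow_right₀ this (by norm_num)
  have hmul : ∀ z : E4, (1 + ‖z‖) * (C / (1 + ‖z‖) ^ 6) = C / (1 + ‖z‖) ^ 5 := by
    intro z
    have : (1 + ‖z‖) ≠ 0 := by positivity
    field_simp
  refine ⟨C7c_ibp0 hΦ (fun z => (h0 z).trans (hle z)) (fun z => (h1 z).trans (hle z)), ?_⟩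
  have hd : ∀ (i : Fin 4) (z : E4), HasFDerivAt (fun z : E4 => z i • Φ z)
      (z i • fderiv ℝ Φ z + (EuclideanSpace.proj i : E4 →L[ℝ] ℝ).smulRight (Φ z)) z := by
    intro i z
    have ha : HasFDerivAt (fun z : E4 => z i) (EuclideanSpace.proj i : E4 →L[ℝ] ℝ) z :=
      (EuclideanSpace.proj i : E4 →L[ℝ] ℝ).hasFDerivAt
    exact ha.smul (hΦ.differentiable (by norm_num) z).hasFDerivAt
  have hzi : ∀ (i : Fin 4) (z : E4), ‖z i‖ ≤ ‖z‖ := fun i z => PiLp.norm_apply_le z i
  have hpr : ∀ i : Fin 4, ‖(EuclideanSpace.proj i : E4 →L[ℝ] ℝ)‖ ≤ 1 := by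
    intro i
    refine ContinuousLinearMap.opNorm_le_bound _ zero_le_one fun z => ?_
    rw [one_mul]
    exact hzi i z
  have hI : ∀ i : Fin 4, ∫ z, fderiv ℝ (fun z : E4 => z i • Φ z) z (bv i) = 0 := by
    intro i
    apply C7c_ibp0 (C := C)
    · apply ContDiff.smul _ hΦ
      exact (EuclideanSpace.proj i : E4 →L[ℝ] ℝ).contDiff
    · intro z
      rw [norm_smul, ← hmul]
      exact mul_le_mul ((hzi i z).trans (by linarith)) (h0 z) (norm_nonneg _) (by positivity)
    · intro z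
      rw [(hd i z).fderiv, ← hmul]
      refine (norm_add_le _ _).trans ?_
      have e1 : ‖z i • fderiv ℝ Φ z‖ ≤ ‖z‖ * (C / (1 + ‖z‖) ^ 6) := by
        rw [norm_smul]
        exact mul_le_mul (hzi i z) (h1 z) (norm_nonneg _) (norm_nonneg _)
      have e2 : ‖(EuclideanSpace.proj i : E4 →L[ℝ] ℝ).smulRight (Φ z)‖ ≤ C / (1 + ‖z‖) ^ 6 := by
        rw [ContinuousLinearMap.norm_smulRight_apply]
        calc _ ≤ 1 * ‖Φ z‖ := mul_le_mul_of_nonneg_right (hpr i) (norm_nonneg _)
          _ ≤ _ := by rw [one_mul]; exact h0 z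
      linarith
  have hbv : ∀ (i : Fin 4), (EuclideanSpace.proj i : E4 →L[ℝ] ℝ) (bv i) = 1 := by
    intro i
    simp [bv]
  have hint : ∀ i : Fin 4, Integrable fun z : E4 => fderiv ℝ (fun z : E4 => z i • Φ z) z (bv i) := by
    intro i
    have hcd : ContDiff ℝ 1 (fun z : E4 => z i • Φ z) :=
      ContDiff.smul (EuclideanSpace.proj i : E4 →L[ℝ] ℝ).contDiff hΦ
    have hc : Continuous fun z => fderiv ℝ (fun z : E4 => z i • Φ z) z (bv i) :=
      (hcd.continuous_fderiv (by norm_num)).clm_apply continuous_const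
    refine (C7c_int (C * ‖bv i‖)).mono' hc.aestronglyMeasurable (Eventually.of_forall fun z => ?_)
    refine (ContinuousLinearMap.le_opNorm _ _).trans ?_
    have : ‖fderiv ℝ (fun z : E4 => z i • Φ z) z‖ ≤ C / (1 + ‖z‖) ^ 5 := by
      rw [(hd i z).fderiv, ← hmul]
      refine (norm_add_le _ _).trans ?_
      have e1 : ‖z i • fderiv ℝ Φ z‖ ≤ ‖z‖ * (C / (1 + ‖z‖) ^ 6) := by
        rw [norm_smul]
        exact mul_le_mul (hzi i z) (h1 z) (norm_nonneg _) (norm_nonneg _)
      have e2 : ‖(EuclideanSpace.proj i : E4 →L[ℝ] ℝ).smulRight (Φ z)‖ ≤ C / (1 + ‖z‖) ^ 6 := by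
        rw [ContinuousLinearMap.norm_smulRight_apply]
        calc _ ≤ 1 * ‖Φ z‖ := mul_le_mul_of_nonneg_right (hpr i) (norm_nonneg _)
          _ ≤ _ := by rw [one_mul]; exact h0 z
      linarith
    calc _ ≤ C / (1 + ‖z‖) ^ 5 * ‖bv i‖ := mul_le_mul_of_nonneg_right this (norm_nonneg _)
      _ = _ := by ring
  have hsum : ∀ z : E4, (4 : ℝ) • Φ z + fderiv ℝ Φ z z =
      ∑ i : Fin 4, fderiv ℝ (fun z : E4 => z i • Φ z) z (bv i) := by
    intro z
    have hz : z = ∑ i : Fin 4, z i • bv i := by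
      ext j
      simp [bv, Finset.sum_apply, Pi.single_apply]
    have e1 : fderiv ℝ Φ z z = ∑ i : Fin 4, z i • fderiv ℝ Φ z (bv i) := by
      generalize fderiv ℝ Φ z = L
      conv_lhs => rw [hz]
      rw [map_sum]
      simp
    rw [e1]
    simp_rw [(hd _ z).fderiv]
    simp only [_root_.add_apply, _root_.smul_apply,
      ContinuousLinearMap.smulRight_apply, hbv, one_smul, Finset.sum_add_distrib,
      Finset.sum_const, Finset.card_univ, Fintype.card_fin]
    rw [add_comm]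
    congr 1
    rw [← Nat.cast_smul_eq_nsmul ℝ]
    norm_num
  simp_rw [hsum]
  rw [integral_finsetSum _ fun i _ => hint i]
  simp [hI]

/-! ### The operators `Tker` -/

/-- Derivative of a kernel in the variable `y`. -/
def C7c_dy (v : E4) (H : KP → W) (q : KP) : W := fderiv ℝ H q (0, 0, v, 0)

variable {V : Type} [NormedAddCommGroup V] [InnerProductSpace ℝ V] [FiniteDimensional ℝ V]

/-- Bounded `C¹` functions. -/
structure C7c_B1 (A : ℝ) (g : E4 → V) : Prop where
  c1 : ContDiff ℝ 1 g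
  b0 : ∀ x, ‖g x‖ ≤ A
  b1 : ∀ x, ‖fderiv ℝ g x‖ ≤ A

theorem C7c_B1.nonneg {A : ℝ} {g : E4 → V} (h : C7c_B1 A g) : 0 ≤ A :=
  (norm_nonneg _).trans (h.b0 0)

theorem C7c_pow_le {C : ℝ} (hC : 0 ≤ C) (z : E4) {m n : ℕ} (h : m ≤ n) :
    C / (1 + ‖z‖) ^ n ≤ C / (1 + ‖z‖) ^ m := by
  apply div_le_div_of_nonneg_left hC (by positivity)
  have : (1 : ℝ) ≤ 1 + ‖z‖ := by linarith [norm_nonneg z]
  exact pow_le_pow_right₀ this h

theorem C7c_pow_mul (C : ℝ) (z : E4) (n : ℕ) :
    C / (1 + ‖z‖) ^ (n + 1) * (1 + ‖z‖) = C / (1 + ‖z‖) ^ n := by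
  have : (1 + ‖z‖) ≠ 0 := by positivity
  field_simp
  ring

theorem C7c_Tker_bound {K : KP → (V →L[ℝ] V)} (hK : C7c_RS K) (T : ℝ) : ∃ C : ℝ, 0 ≤ C ∧
    ∀ (s r A : ℝ) (g : E4 → V) (x : E4), |s| ≤ T → |r| ≤ T → (∀ y, ‖g y‖ ≤ A) →
      ‖Tker K s r g x‖ ≤ C * A := by
  obtain ⟨C, hC0, hC⟩ := hK.bound 5 T
  refine ⟨∫ z : E4, C / (1 + ‖z‖) ^ 5, integral_nonneg fun z => by positivity, ?_⟩
  intro s r A g x hs hr hg
  rw [← integral_mul_const]
  refine norm_integral_le_of_norm_le ((C7c_int C).mul_const A) (Eventually.of_forall fun z => ?_)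
  refine (ContinuousLinearMap.le_opNorm _ _).trans ?_
  exact mul_le_mul (hC s r _ z hs hr).1 (hg _) (norm_nonneg _) (by positivity)

theorem C7c_Tker_int {K : KP → (V →L[ℝ] V)} (hK : C7c_RS K) {A : ℝ} {g : E4 → V}
    (hg : Continuous g) (hA : ∀ y, ‖g y‖ ≤ A) (s r : ℝ) (x : E4) :
    Integrable fun z : E4 => K (s, r, x - r • z, z) (g (x - r • z)) := by
  obtain ⟨C, hC0, hC⟩ := hK.bound 5 (max |s| |r|)
  have hKc := hK.rd.1.continuous
  refine ((C7c_int C).mul_const A).mono' ?_ (Eventually.of_forall fun z => ?_)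
  · apply Continuous.aestronglyMeasurable
    exact (hKc.comp (by fun_prop)).clm_apply (hg.comp (by fun_prop))
  · refine (ContinuousLinearMap.le_opNorm _ _).trans ?_
    exact mul_le_mul (hC s r _ z (le_max_left _ _) (le_max_right _ _)).1 (hA _) (norm_nonneg _)
      (by positivity)

theorem C7c_Tker_cont {K : KP → (V →L[ℝ] V)} (hK : C7c_RS K) (T R : ℝ) {A : ℝ}
    {G : ℝ → E4 → V} (hG : ContinuousOn (fun p : ℝ × E4 => G p.1 p.2) (Icc 0 T ×ˢ univ))
    (hA : ∀ s ∈ Icc 0 T, ∀ x, ‖G s x‖ ≤ A) :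
    ContinuousOn (fun p : ℝ × ℝ × E4 => Tker K p.1 p.2.1 (G p.1) p.2.2)
      (Icc 0 T ×ˢ (Icc (-R) R ×ˢ univ)) := by
  obtain ⟨C, hC0, hC⟩ := hK.bound 5 (max T R)
  have hKc := hK.rd.1.continuous
  have hGs : ∀ s ∈ Icc 0 T, Continuous (G s) := by
    intro s hs
    rw [← continuousOn_univ]
    exact hG.comp (f := fun x : E4 => (s, x)) (by fun_prop) (fun x _ => ⟨hs, mem_univ _⟩)
  unfold Tker
  apply continuousOn_of_dominated (bound := fun z : E4 => C / (1 + ‖z‖) ^ 5 * A)
  · rintro ⟨s, r, x⟩ ⟨hs, hr, -⟩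
    apply Continuous.aestronglyMeasurable
    exact (hKc.comp (by fun_prop)).clm_apply ((hGs s hs).comp (by fun_prop))
  · rintro ⟨s, r, x⟩ ⟨hs, hr, -⟩
    refine Eventually.of_forall fun z => ?_
    refine (ContinuousLinearMap.le_opNorm _ _).trans ?_
    have h1 : |s| ≤ max T R := by
      rw [abs_of_nonneg hs.1]; exact hs.2.trans (le_max_left _ _)
    have h2 : |r| ≤ max T R := (abs_le.2 hr).trans (le_max_right _ _)
    exact mul_le_mul (hC s r _ z h1 h2).1 (hA s hs _) (norm_nonneg _) (by positivity)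
  · exact (C7c_int C).mul_const A
  · refine Eventually.of_forall fun z => ?_
    apply ContinuousOn.clm_apply
    · exact (hKc.comp (g := K) (f := fun p : ℝ × ℝ × E4 => (p.1, p.2.1, p.2.2 - p.2.1 • z, z))
        (by fun_prop)).continuousOn
    · exact hG.comp (f := fun p : ℝ × ℝ × E4 => (p.1, p.2.2 - p.2.1 • z)) (by fun_prop)
        (fun p hp => ⟨hp.1, mem_univ _⟩)

/-- The integrand of `Tker` as a function of the integration variable. -/
theorem C7c_phi {K : KP → (V →L[ℝ] V)} (hK : C7c_RS K) {A : ℝ} {g : E4 → V} (hg : C7c_B1 A g)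
    (s r : ℝ) (x : E4) :
    ContDiff ℝ 1 (fun z : E4 => K (s, r, x - r • z, z) (g (x - r • z))) ∧
    (∀ z u, fderiv ℝ (fun z : E4 => K (s, r, x - r • z, z) (g (x - r • z))) z u =
      fderiv ℝ K (s, r, x - r • z, z) (0, 0, -(r • u), u) (g (x - r • z)) +
        K (s, r, x - r • z, z) (fderiv ℝ g (x - r • z) (-(r • u)))) ∧
    ∃ C : ℝ, 0 ≤ C ∧ ∀ z, ‖K (s, r, x - r • z, z) (g (x - r • z))‖ ≤ C / (1 + ‖z‖) ^ 6 ∧
      ‖fderiv ℝ (fun z : E4 => K (s, r, x - r • z, z) (g (x - r • z))) z‖ ≤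
        C / (1 + ‖z‖) ^ 6 := by
  have hA := hg.nonneg
  have hformula : ∀ z u, fderiv ℝ (fun z : E4 => K (s, r, x - r • z, z) (g (x - r • z))) z u =
      fderiv ℝ K (s, r, x - r • z, z) (0, 0, -(r • u), u) (g (x - r • z)) +
        K (s, r, x - r • z, z) (fderiv ℝ g (x - r • z) (-(r • u))) := by
    intro z u
    have hy : HasFDerivAt (fun z : E4 => x - r • z) (-(r • ContinuousLinearMap.id ℝ E4)) z := by
      exact ((hasFDerivAt_id (𝕜 := ℝ) z).const_smul r).const_sub x
    have hp : HasFDerivAt (fun z : E4 => ((s, r, x - r • z, z) : KP))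
        ((0 : E4 →L[ℝ] ℝ).prod ((0 : E4 →L[ℝ] ℝ).prod
          ((-(r • ContinuousLinearMap.id ℝ E4)).prod (ContinuousLinearMap.id ℝ E4)))) z :=
      (hasFDerivAt_const s z).prodMk ((hasFDerivAt_const r z).prodMk
        (hy.prodMk (hasFDerivAt_id z)))
    have hKd : HasFDerivAt K (fderiv ℝ K (s, r, x - r • z, z)) (s, r, x - r • z, z) :=
      (hK.rd.1.differentiable (by simp) _).hasFDerivAt
    have hgd : HasFDerivAt g (fderiv ℝ g (x - r • z)) (x - r • z) :=
      (hg.c1.differentiable (by norm_num) _).hasFDerivAt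
    have h1 := HasFDerivAt.comp (g := K) z hKd hp
    have h2 := HasFDerivAt.comp (g := g) z hgd hy
    have h3 := h1.clm_apply h2
    have h4 := h3.fderiv
    simp only [Function.comp_def] at h4
    rw [h4]
    simp
    abel
  refine ⟨?_, hformula, ?_⟩
  · apply ContDiff.clm_apply
    · exact (hK.rd.1.of_le (by simp)).comp (by fun_prop)
    · exact hg.c1.comp (by fun_prop)
  · obtain ⟨C, hC0, hC⟩ := hK.bound 6 (max |s| |r|)
    refine ⟨C * A * (1 + 2 * |r|), by positivity, fun z => ?_⟩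
    obtain ⟨hC1, hC2⟩ := hC s r (x - r • z) z (le_max_left _ _) (le_max_right _ _)
    have hp : 0 ≤ C / (1 + ‖z‖) ^ 6 := by positivity
    constructor
    · refine (ContinuousLinearMap.le_opNorm _ _).trans ?_
      calc _ ≤ C / (1 + ‖z‖) ^ 6 * A := mul_le_mul hC1 (hg.b0 _) (norm_nonneg _) hp
        _ ≤ C / (1 + ‖z‖) ^ 6 * A * (1 + 2 * |r|) :=
          le_mul_of_one_le_right (by positivity) (by linarith [abs_nonneg r])
        _ = _ := by ring
    · refine ContinuousLinearMap.opNorm_le_bound _ (by positivity) fun u => ?_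
      rw [hformula]
      have hv : ‖((0, 0, -(r • u), u) : KP)‖ ≤ (1 + |r|) * ‖u‖ := by
        rw [Prod.norm_def, Prod.norm_def, Prod.norm_def]
        simp only [norm_zero, norm_neg, norm_smul, Real.norm_eq_abs]
        have h1 : 0 ≤ |r| * ‖u‖ := by positivity
        have h2 := norm_nonneg u
        refine max_le (by positivity) (max_le (by positivity) (max_le ?_ ?_)) <;> linarith
      have hru : ‖(-(r • u) : E4)‖ ≤ |r| * ‖u‖ := by rw [norm_neg, norm_smul, Real.norm_eq_abs]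
      have e1 : ‖fderiv ℝ K (s, r, x - r • z, z) (0, 0, -(r • u), u) (g (x - r • z))‖ ≤
          C / (1 + ‖z‖) ^ 6 * ((1 + |r|) * ‖u‖) * A := by
        refine (ContinuousLinearMap.le_opNorm _ _).trans ?_
        refine mul_le_mul ?_ (hg.b0 _) (norm_nonneg _) (by positivity)
        refine (ContinuousLinearMap.le_opNorm _ _).trans ?_
        exact mul_le_mul hC2 hv (norm_nonneg _) hp
      have e2 : ‖K (s, r, x - r • z, z) (fderiv ℝ g (x - r • z) (-(r • u)))‖ ≤
          C / (1 + ‖z‖) ^ 6 * (A * (|r| * ‖u‖)) := by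
        refine (ContinuousLinearMap.le_opNorm _ _).trans ?_
        refine mul_le_mul hC1 ?_ (norm_nonneg _) hp
        refine (ContinuousLinearMap.le_opNorm _ _).trans ?_
        exact mul_le_mul (hg.b1 _) hru (norm_nonneg _) hA
      calc _ ≤ C / (1 + ‖z‖) ^ 6 * ((1 + |r|) * ‖u‖) * A +
            C / (1 + ‖z‖) ^ 6 * (A * (|r| * ‖u‖)) := (norm_add_le _ _).trans (add_le_add e1 e2)
        _ = _ := by ring

theorem C7c_cont_fderiv_apply {K : KP → (V →L[ℝ] V)} (hK : C7c_RS K) {Z : Type}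
    [TopologicalSpace Z] {p : Z → KP} {d : Z → KP} (hp : Continuous p) (hd : Continuous d) :
    Continuous fun z => fderiv ℝ K (p z) (d z) :=
  ((hK.rd.1.continuous_fderiv (by simp)).comp hp).clm_apply hd

/-- Derivative in `x`. -/
theorem C7c_dx {K : KP → (V →L[ℝ] V)} (hK : C7c_RS K) {A : ℝ} {g : E4 → V} (hg : C7c_B1 A g)
    (s r : ℝ) (x : E4) : DifferentiableAt ℝ (Tker K s r g) x ∧
    ∀ v, fderiv ℝ (Tker K s r g) x v =
      Tker (C7c_dy v K) s r g x + Tker K s r (fun y => fderiv ℝ g y v) x := by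
  obtain ⟨C, hC0, hC⟩ := hK.bound 5 (max |s| |r|)
  have hA := hg.nonneg
  have hKc := hK.rd.1.continuous
  have hgc := hg.c1.continuous
  set Ly : E4 →L[ℝ] KP := (0 : E4 →L[ℝ] ℝ).prod ((0 : E4 →L[ℝ] ℝ).prod
    ((ContinuousLinearMap.id ℝ E4).prod (0 : E4 →L[ℝ] E4))) with hLy
  set F' : E4 → E4 → E4 →L[ℝ] V := fun x z =>
    (ContinuousLinearMap.apply ℝ V (g (x - r • z))).comp
      ((fderiv ℝ K (s, r, x - r • z, z)).comp Ly) +
    (K (s, r, x - r • z, z)).comp (fderiv ℝ g (x - r • z)) with hF'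
  have hF'c : Continuous (F' x) := by
    apply Continuous.add
    · apply Continuous.clm_comp
      · exact (ContinuousLinearMap.apply ℝ V).continuous.comp (hgc.comp (by fun_prop))
      · apply Continuous.clm_comp
        · exact (hK.rd.1.continuous_fderiv (by simp)).comp (by fun_prop)
        · exact continuous_const
    · apply Continuous.clm_comp
      · exact hKc.comp (by fun_prop)
      · exact (hg.c1.continuous_fderiv (by norm_num)).comp (by fun_prop)
  have hF'b : ∀ (x z : E4), ‖F' x z‖ ≤ C / (1 + ‖z‖) ^ 5 * (2 * A) := by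
    intro x z
    obtain ⟨hC1, hC2⟩ := hC s r (x - r • z) z (le_max_left _ _) (le_max_right _ _)
    have hp : 0 ≤ C / (1 + ‖z‖) ^ 5 := by positivity
    refine ContinuousLinearMap.opNorm_le_bound _ (by positivity) fun u => ?_
    have e1 : ‖fderiv ℝ K (s, r, x - r • z, z) (0, 0, u, 0) (g (x - r • z))‖ ≤
        C / (1 + ‖z‖) ^ 5 * ‖u‖ * A := by
      refine (ContinuousLinearMap.le_opNorm _ _).trans ?_
      refine mul_le_mul ?_ (hg.b0 _) (norm_nonneg _) (by positivity)
      refine (ContinuousLinearMap.le_opNorm _ _).trans ?_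
      refine mul_le_mul hC2 ?_ (norm_nonneg _) hp
      rw [Prod.norm_def, Prod.norm_def, Prod.norm_def]
      simp
    have e2 : ‖K (s, r, x - r • z, z) (fderiv ℝ g (x - r • z) u)‖ ≤
        C / (1 + ‖z‖) ^ 5 * (A * ‖u‖) := by
      refine (ContinuousLinearMap.le_opNorm _ _).trans ?_
      refine mul_le_mul hC1 ?_ (norm_nonneg _) hp
      refine (ContinuousLinearMap.le_opNorm _ _).trans ?_
      exact mul_le_mul_of_nonneg_right (hg.b1 _) (norm_nonneg _)
    have e3 : F' x z u = fderiv ℝ K (s, r, x - r • z, z) (0, 0, u, 0) (g (x - r • z)) +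
        K (s, r, x - r • z, z) (fderiv ℝ g (x - r • z) u) := by
      simp [hF', hLy]
    rw [e3]
    calc _ ≤ C / (1 + ‖z‖) ^ 5 * ‖u‖ * A + C / (1 + ‖z‖) ^ 5 * (A * ‖u‖) :=
          (norm_add_le _ _).trans (add_le_add e1 e2)
      _ = _ := by ring
  have hF'i : Integrable (F' x) := ((C7c_int C).mul_const (2 * A)).mono'
    hF'c.aestronglyMeasurable (Eventually.of_forall (hF'b x))
  have hmain : HasFDerivAt (Tker K s r g) (∫ z, F' x z) x := by
    apply hasFDerivAt_integral_of_dominated_of_fderiv_le (s := univ) univ_mem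
      (bound := fun z : E4 => C / (1 + ‖z‖) ^ 5 * (2 * A))
    · refine Eventually.of_forall fun x => Continuous.aestronglyMeasurable ?_
      exact (hKc.comp (by fun_prop)).clm_apply (hgc.comp (by fun_prop))
    · exact C7c_Tker_int hK hgc hg.b0 s r x
    · exact hF'c.aestronglyMeasurable
    · exact Eventually.of_forall fun z x _ => hF'b x z
    · exact (C7c_int C).mul_const (2 * A)
    · refine Eventually.of_forall fun z x _ => ?_
      have hy : HasFDerivAt (fun x : E4 => x - r • z) (ContinuousLinearMap.id ℝ E4) x :=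
        (hasFDerivAt_id x).sub_const _
      have hp : HasFDerivAt (fun x : E4 => ((s, r, x - r • z, z) : KP)) Ly x :=
        (hasFDerivAt_const s x).prodMk ((hasFDerivAt_const r x).prodMk
          (hy.prodMk (hasFDerivAt_const z x)))
      have hKd : HasFDerivAt K (fderiv ℝ K (s, r, x - r • z, z)) (s, r, x - r • z, z) :=
        (hK.rd.1.differentiable (by simp) _).hasFDerivAt
      have hgd : HasFDerivAt g (fderiv ℝ g (x - r • z)) (x - r • z) :=
        (hg.c1.differentiable (by norm_num) _).hasFDerivAt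
      have h1 := HasFDerivAt.comp (g := K) x hKd hp
      have h2 := HasFDerivAt.comp (g := g) x hgd hy
      have h3 := h1.clm_apply h2
      refine h3.congr_fderiv ?_
      ext u
      simp [hF']
      abel
  refine ⟨hmain.differentiableAt, fun v => ?_⟩
  rw [hmain.fderiv, ContinuousLinearMap.integral_apply hF'i]
  have hi1 : Integrable fun z : E4 => C7c_dy v K (s, r, x - r • z, z) (g (x - r • z)) :=
    C7c_Tker_int (hK.fderiv (0, 0, v, 0)) hgc hg.b0 s r x
  have hi2 : Integrable fun z : E4 => K (s, r, x - r • z, z) (fderiv ℝ g (x - r • z) v) := by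
    refine C7c_Tker_int hK (g := fun y => fderiv ℝ g y v) (A := A * ‖v‖)
      ((hg.c1.continuous_fderiv (by norm_num)).clm_apply continuous_const) (fun y => ?_) s r x
    refine (ContinuousLinearMap.le_opNorm _ _).trans ?_
    exact mul_le_mul_of_nonneg_right (hg.b1 _) (norm_nonneg _)
  unfold Tker
  rw [← integral_add hi1 hi2]
  congr 1

/-- Kernel of `r ∂_r`. -/
def C7c_rr (K : KP → (V →L[ℝ] V)) (q : KP) : V →L[ℝ] V :=
  q.2.1 • drK K q - dzK q.2.2.2 K q - (4 : ℝ) • K q

/-- `r ∂_v T_K = T_{∂_ζ K}`. -/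
theorem C7c_I1 {K : KP → (V →L[ℝ] V)} (hK : C7c_RS K) {A : ℝ} {g : E4 → V} (hg : C7c_B1 A g)
    (s r : ℝ) (x v : E4) : r • fderiv ℝ (Tker K s r g) x v = Tker (dzK v K) s r g x := by
  obtain ⟨hΦ, hform, C, hC0, hC⟩ := C7c_phi hK hg s r x
  have hibp := (C7c_ibp hΦ hC0 (fun z => (hC z).1) (fun z => (hC z).2)).1 v
  have hgc := hg.c1.continuous
  have hi1 : Integrable fun z : E4 => C7c_dy v K (s, r, x - r • z, z) (g (x - r • z)) :=
    C7c_Tker_int (hK.fderiv (0, 0, v, 0)) hgc hg.b0 s r x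
  have hi2 : Integrable fun z : E4 => K (s, r, x - r • z, z) (fderiv ℝ g (x - r • z) v) := by
    refine C7c_Tker_int hK (g := fun y => fderiv ℝ g y v) (A := A * ‖v‖)
      ((hg.c1.continuous_fderiv (by norm_num)).clm_apply continuous_const) (fun y => ?_) s r x
    refine (ContinuousLinearMap.le_opNorm _ _).trans ?_
    exact mul_le_mul_of_nonneg_right (hg.b1 _) (norm_nonneg _)
  have hi3 : Integrable fun z : E4 => dzK v K (s, r, x - r • z, z) (g (x - r • z)) :=
    C7c_Tker_int (hK.fderiv (0, 0, 0, v)) hgc hg.b0 s r x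
  rw [(C7c_dx hK hg s r x).2 v]
  have h1 : ∀ z : E4, fderiv ℝ (fun z : E4 => K (s, r, x - r • z, z) (g (x - r • z))) z v =
      dzK v K (s, r, x - r • z, z) (g (x - r • z)) -
      (r • C7c_dy v K (s, r, x - r • z, z) (g (x - r • z)) +
        r • K (s, r, x - r • z, z) (fderiv ℝ g (x - r • z) v)) := by
    intro z
    rw [hform]
    have e1 : ((0, 0, -(r • v), v) : KP) = (0, 0, 0, v) - r • (0, 0, v, 0) := by
      simp
    rw [e1, map_sub, map_smul, map_neg, map_smul]
    simp only [dzK, C7c_dy, _root_.sub_apply, _root_.smul_apply, map_neg, map_smul]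
    abel
  simp_rw [h1] at hibp
  have hi1' : Integrable fun z : E4 => r • C7c_dy v K (s, r, x - r • z, z) (g (x - r • z)) :=
    hi1.smul r
  have hi2' : Integrable fun z : E4 => r • K (s, r, x - r • z, z) (fderiv ℝ g (x - r • z) v) :=
    hi2.smul r
  have hi12 : Integrable fun z : E4 => r • C7c_dy v K (s, r, x - r • z, z) (g (x - r • z)) +
      r • K (s, r, x - r • z, z) (fderiv ℝ g (x - r • z) v) := hi1'.add hi2'
  rw [integral_sub hi3 hi12, integral_add hi1' hi2', integral_smul, integral_smul] at hibp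
  unfold Tker
  rw [smul_add]
  rw [sub_eq_zero] at hibp
  exact hibp.symm

/-- Derivative in `r`. -/
theorem C7c_dr {K : KP → (V →L[ℝ] V)} (hK : C7c_RS K) {A : ℝ} {g : E4 → V} (hg : C7c_B1 A g)
    (s r : ℝ) (x : E4) : ∃ D : V, HasDerivAt (fun r => Tker K s r g x) D r ∧
      r • D = Tker (C7c_rr K) s r g x ∧
      Integrable (fun z : E4 => C7c_rr K (s, r, x - r • z, z) (g (x - r • z))) := by
  have hA := hg.nonneg
  have hKc := hK.rd.1.continuous
  have hgc := hg.c1.continuous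
  obtain ⟨C, hC0, hC⟩ := hK.bound 6 (max |s| (|r| + 1))
  set F' : ℝ → E4 → V := fun r z =>
    fderiv ℝ K (s, r, x - r • z, z) (0, 1, -z, 0) (g (x - r • z)) +
      K (s, r, x - r • z, z) (fderiv ℝ g (x - r • z) (-z)) with hF'
  have hF'c : Continuous (F' r) := by
    apply Continuous.add
    · exact (C7c_cont_fderiv_apply hK (by fun_prop) (by fun_prop)).clm_apply
        (hgc.comp (by fun_prop))
    · exact (hKc.comp (by fun_prop)).clm_apply
        (((hg.c1.continuous_fderiv (by norm_num)).comp (by fun_prop)).clm_apply continuous_neg)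
  have hmain := hasDerivAt_integral_of_dominated_loc_of_deriv_le (μ := (volume : Measure E4))
    (F := fun (r : ℝ) (z : E4) => K (s, r, x - r • z, z) (g (x - r • z))) (F' := F')
    (x₀ := r) (s := Metric.ball r 1) (Metric.ball_mem_nhds r one_pos)
    (bound := fun z : E4 => C / (1 + ‖z‖) ^ 5 * (2 * A))
    (Eventually.of_forall fun r => Continuous.aestronglyMeasurable
      ((hKc.comp (by fun_prop)).clm_apply (hgc.comp (by fun_prop))))
    (C7c_Tker_int hK hgc hg.b0 s r x) hF'c.aestronglyMeasurable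
    (Eventually.of_forall fun z r' hr' => by
      have hr2 : |r'| ≤ |r| + 1 := by
        rw [Metric.mem_ball, Real.dist_eq] at hr'
        have := abs_add_le (r' - r) r
        rw [sub_add_cancel] at this
        linarith
      obtain ⟨hC1, hC2⟩ := hC s r' (x - r' • z) z (le_max_left _ _) (hr2.trans (le_max_right _ _))
      have hp : 0 ≤ C / (1 + ‖z‖) ^ 6 := by positivity
      have e1 : ‖fderiv ℝ K (s, r', x - r' • z, z) (0, 1, -z, 0) (g (x - r' • z))‖ ≤
          C / (1 + ‖z‖) ^ 6 * (1 + ‖z‖) * A := by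
        refine (ContinuousLinearMap.le_opNorm _ _).trans ?_
        refine mul_le_mul ?_ (hg.b0 _) (norm_nonneg _) (by positivity)
        refine (ContinuousLinearMap.le_opNorm _ _).trans ?_
        refine mul_le_mul hC2 ?_ (norm_nonneg _) hp
        rw [Prod.norm_def, Prod.norm_def, Prod.norm_def]
        simp only [norm_zero, norm_neg, norm_one]
        have := norm_nonneg z
        refine max_le (by positivity) (max_le (by linarith) (max_le (by linarith) (by positivity)))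
      have e2 : ‖K (s, r', x - r' • z, z) (fderiv ℝ g (x - r' • z) (-z))‖ ≤
          C / (1 + ‖z‖) ^ 6 * (A * (1 + ‖z‖)) := by
        refine (ContinuousLinearMap.le_opNorm _ _).trans ?_
        refine mul_le_mul hC1 ?_ (norm_nonneg _) hp
        refine (ContinuousLinearMap.le_opNorm _ _).trans ?_
        refine mul_le_mul (hg.b1 _) ?_ (norm_nonneg _) hA
        rw [norm_neg]; linarith
      calc _ ≤ C / (1 + ‖z‖) ^ 6 * (1 + ‖z‖) * A + C / (1 + ‖z‖) ^ 6 * (A * (1 + ‖z‖)) :=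
            (norm_add_le _ _).trans (add_le_add e1 e2)
        _ = C / (1 + ‖z‖) ^ (5 + 1) * (1 + ‖z‖) * (2 * A) := by ring
        _ = _ := by rw [C7c_pow_mul])
    ((C7c_int C).mul_const (2 * A))
    (Eventually.of_forall fun z r' _ => by
      have hy : HasDerivAt (fun r : ℝ => x - r • z) (-z) r' := by
        have := ((hasDerivAt_id r').smul_const z).const_sub x
        simpa using this
      have hp : HasDerivAt (fun r : ℝ => ((s, r, x - r • z, z) : KP)) (0, 1, -z, 0) r' :=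
        (hasDerivAt_const r' s).prodMk ((hasDerivAt_id r').prodMk
          (hy.prodMk (hasDerivAt_const r' z)))
      have hKd : HasFDerivAt K (fderiv ℝ K (s, r', x - r' • z, z)) (s, r', x - r' • z, z) :=
        (hK.rd.1.differentiable (by simp) _).hasFDerivAt
      have hgd : HasFDerivAt g (fderiv ℝ g (x - r' • z)) (x - r' • z) :=
        (hg.c1.differentiable (by norm_num) _).hasFDerivAt
      have h1 := HasFDerivAt.comp_hasDerivAt (l := K) r' hKd hp
      have h2 := HasFDerivAt.comp_hasDerivAt (l := g) r' hgd hy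
      exact h1.clm_apply h2)
  obtain ⟨hΦ, hform, C', hC0', hC'⟩ := C7c_phi hK hg s r x
  have hibp := (C7c_ibp hΦ hC0' (fun z => (hC' z).1) (fun z => (hC' z).2)).2
  have key : ∀ z : E4, r • F' r z =
      C7c_rr K (s, r, x - r • z, z) (g (x - r • z)) +
      ((4 : ℝ) • K (s, r, x - r • z, z) (g (x - r • z)) +
        fderiv ℝ (fun z : E4 => K (s, r, x - r • z, z) (g (x - r • z))) z z) := by
    intro z
    rw [hform]
    have e1 : ((0, 0, -(r • z), z) : KP) = (0, 0, 0, z) - r • (0, 0, z, 0) := by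
      simp
    have e2 : ((0, 1, -z, 0) : KP) = (0, 1, 0, 0) - (0, 0, z, 0) := by
      simp
    simp only [hF', C7c_rr, drK, dzK]
    rw [e1, e2, map_sub, map_sub, map_smul, map_neg, map_neg]
    simp only [_root_.sub_apply, _root_.smul_apply, map_neg, map_smul, smul_add, smul_sub,
      smul_neg]
    abel
  have hi4 : Integrable fun z : E4 => (4 : ℝ) • K (s, r, x - r • z, z) (g (x - r • z)) +
        fderiv ℝ (fun z : E4 => K (s, r, x - r • z, z) (g (x - r • z))) z z := by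
    have hc : Continuous fun z : E4 => (4 : ℝ) • K (s, r, x - r • z, z) (g (x - r • z)) +
        fderiv ℝ (fun z : E4 => K (s, r, x - r • z, z) (g (x - r • z))) z z :=
      (hΦ.continuous.const_smul (4 : ℝ)).add
        ((hΦ.continuous_fderiv (by norm_num)).clm_apply continuous_id)
    refine (C7c_int (C' * 5)).mono' hc.aestronglyMeasurable (Eventually.of_forall fun z => ?_)
    have hz := norm_nonneg z
    have e1 : ‖(4 : ℝ) • K (s, r, x - r • z, z) (g (x - r • z))‖ ≤
        4 * (C' / (1 + ‖z‖) ^ 6 * (1 + ‖z‖)) := by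
      rw [norm_smul]
      have := (hC' z).1
      have h0 : 0 ≤ C' / (1 + ‖z‖) ^ 6 := by positivity
      have : C' / (1 + ‖z‖) ^ 6 ≤ C' / (1 + ‖z‖) ^ 6 * (1 + ‖z‖) :=
        le_mul_of_one_le_right h0 (by linarith)
      norm_num
      linarith
    have e2 : ‖fderiv ℝ (fun z : E4 => K (s, r, x - r • z, z) (g (x - r • z))) z z‖ ≤
        C' / (1 + ‖z‖) ^ 6 * (1 + ‖z‖) := by
      refine (ContinuousLinearMap.le_opNorm _ _).trans ?_
      exact mul_le_mul (hC' z).2 (by linarith) (norm_nonneg _) (by positivity)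
    have e3 := C7c_pow_mul C' z 5
    calc _ ≤ 5 * (C' / (1 + ‖z‖) ^ 6 * (1 + ‖z‖)) := by
          refine (norm_add_le _ _).trans ?_
          linarith
      _ = _ := by
          rw [show (6 : ℕ) = 5 + 1 from rfl, e3]; ring
  have hrF : Integrable fun z : E4 => r • F' r z := hmain.1.smul r
  have hi5 : Integrable fun z : E4 => C7c_rr K (s, r, x - r • z, z) (g (x - r • z)) := by
    have := hrF.sub hi4
    refine this.congr (Eventually.of_forall fun z => ?_)
    simp only [Pi.sub_apply]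
    rw [key z]
    abel
  refine ⟨∫ z, F' r z, hmain.2, ?_, hi5⟩
  rw [← integral_smul]
  simp_rw [key]
  rw [integral_add hi5 hi4, hibp, add_zero]
  rfl

/-! ### The differential equation for `r ≠ 0` -/

theorem C7c_pdpd {K : KP → (V →L[ℝ] V)} (hK : C7c_RS K) {A : ℝ} {g : E4 → V} (hg : C7c_B1 A g)
    (s : ℝ) {r : ℝ} (hr : r ≠ 0) (x : E4) (i j : Fin 4) :
    r ^ 2 • pd i (pd j (Tker K s r g)) x = Tker (dzK (bv i) (dzK (bv j) K)) s r g x := by
  have h1 : pd j (Tker K s r g) = fun x => r⁻¹ • Tker (dzK (bv j) K) s r g x := by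
    funext x
    have := C7c_I1 hK hg s r x (bv j)
    rw [← this, smul_smul, inv_mul_cancel₀ hr, one_smul]
    rfl
  have hK' : C7c_RS (dzK (bv j) K) := hK.fderiv (0, 0, 0, bv j)
  have h2 := C7c_I1 hK' hg s r x (bv i)
  rw [h1]
  unfold pd
  have h3 : fderiv ℝ (fun x => r⁻¹ • Tker (dzK (bv j) K) s r g x) x =
      r⁻¹ • fderiv ℝ (Tker (dzK (bv j) K) s r g) x :=
    ((C7c_dx hK' hg s r x).1.hasFDerivAt.const_smul r⁻¹).fderiv
  rw [h3, ← h2, _root_.smul_apply, smul_smul]
  congr 1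
  field_simp

theorem C7c_int4 {f1 f2 f3 f4 : E4 → V} (h1 : Integrable f1) (h2 : Integrable f2)
    (h3 : Integrable f3) (h4 : Integrable f4) :
    ∫ z, (((f1 z - f2 z) + f3 z) + f4 z) =
      (((∫ z, f1 z) - ∫ z, f2 z) + ∫ z, f3 z) + ∫ z, f4 z := by
  have h12 : Integrable fun z => f1 z - f2 z := h1.sub h2
  have h123 : Integrable fun z => (f1 z - f2 z) + f3 z := h12.add h3
  rw [integral_add h123 h4, integral_add h12 h3, integral_sub h1 h2]

theorem C7c_pde {m : Model V} {H H' : KP → (V →L[ℝ] V)} {N : ℕ} (hH : C7c_RS H)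
    (hL : ∀ q : KP, m.calL H q = q.2.1 ^ (N + 1) • H' q)
    {A : ℝ} {g : E4 → V} (hg : C7c_B1 A g) (s : ℝ) {r : ℝ} (hr : r ≠ 0) (x : E4) {D : V}
    (hD : HasDerivAt (fun r => Tker H s r g x) D r) :
    (1 / 2 : ℝ) • (r • D) + r ^ 2 • m.op (s + r ^ 2) (Tker H s r g) x =
      r ^ (N + 1) • Tker H' s r g x := by
  obtain ⟨D', hD', hrr, hint⟩ := C7c_dr hH hg s r x
  rw [hD.unique hD', hrr]
  have hgc := hg.c1.continuous
  set a := m.a (s + r ^ 2, x) with ha
  set b := m.b (s + r ^ 2, x) with hb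
  set c := m.c (s + r ^ 2, x) with hc
  have i1 : Integrable fun z : E4 => (1 / 2 : ℝ) • C7c_rr H (s, r, x - r • z, z)
      (g (x - r • z)) := hint.smul _
  have i2 : ∀ i j : Fin 4, Integrable fun z : E4 =>
      a i j • (dzK (bv i) (dzK (bv j) H)) (s, r, x - r • z, z) (g (x - r • z)) := fun i j =>
    (C7c_Tker_int ((hH.fderiv (0, 0, 0, bv j)).fderiv (0, 0, 0, bv i)) hgc hg.b0 s r x).smul _
  have i3 : ∀ i : Fin 4, Integrable fun z : E4 =>
      r • b i (dzK (bv i) H (s, r, x - r • z, z) (g (x - r • z))) := fun i =>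
    ((b i).integrable_comp
      (C7c_Tker_int (hH.fderiv (0, 0, 0, bv i)) hgc hg.b0 s r x)).smul _
  have i4 : Integrable fun z : E4 => r ^ 2 • c (H (s, r, x - r • z, z) (g (x - r • z))) :=
    (c.integrable_comp (C7c_Tker_int hH hgc hg.b0 s r x)).smul _
  have i2' : Integrable fun z : E4 => ∑ i, ∑ j,
      a i j • (dzK (bv i) (dzK (bv j) H)) (s, r, x - r • z, z) (g (x - r • z)) :=
    integrable_finsetSum _ fun i _ => integrable_finsetSum _ fun j _ => i2 i j
  have i3' : Integrable fun z : E4 => ∑ i,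
      r • b i (dzK (bv i) H (s, r, x - r • z, z) (g (x - r • z))) :=
    integrable_finsetSum _ fun i _ => i3 i
  have hpt : ∀ z : E4, m.calL H (s, r, x - r • z, z) (g (x - r • z)) =
      (((1 / 2 : ℝ) • C7c_rr H (s, r, x - r • z, z) (g (x - r • z))
      - ∑ i, ∑ j, a i j • (dzK (bv i) (dzK (bv j) H)) (s, r, x - r • z, z) (g (x - r • z)))
      + ∑ i, r • b i (dzK (bv i) H (s, r, x - r • z, z) (g (x - r • z))))
      + r ^ 2 • c (H (s, r, x - r • z, z) (g (x - r • z))) := by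
    intro z
    simp only [Model.calL, C7c_rr, sub_add_cancel]
    simp only [_root_.sub_apply, _root_.add_apply, _root_.smul_apply, _root_.sum_apply,
      ContinuousLinearMap.comp_apply]
    rfl
  have hI : ∫ z : E4, m.calL H (s, r, x - r • z, z) (g (x - r • z)) =
      (((1 / 2 : ℝ) • Tker (C7c_rr H) s r g x
      - ∑ i, ∑ j, a i j • Tker (dzK (bv i) (dzK (bv j) H)) s r g x)
      + ∑ i, r • b i (Tker (dzK (bv i) H) s r g x))
      + r ^ 2 • c (Tker H s r g x) := by
    simp_rw [hpt]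
    rw [C7c_int4 i1 i2' i3' i4, integral_smul, integral_smul,
      integral_finsetSum _ (fun i _ => i3 i),
      integral_finsetSum _ (fun i _ => integrable_finsetSum _ fun j _ => i2 i j),
      ContinuousLinearMap.integral_comp_comm c (C7c_Tker_int hH hgc hg.b0 s r x)]
    unfold Tker
    congr 3
    · refine Finset.sum_congr rfl fun i _ => ?_
      rw [integral_finsetSum _ (fun j _ => i2 i j)]
      refine Finset.sum_congr rfl fun j _ => ?_
      rw [integral_smul]
    · funext i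
      have hh : Integrable fun z : E4 => dzK (bv i) H (s, r, x - r • z, z) (g (x - r • z)) :=
        C7c_Tker_int (hH.fderiv (0, 0, 0, bv i)) hgc hg.b0 s r x
      rw [integral_smul, ContinuousLinearMap.integral_comp_comm (b i) hh]
  have hI2 : ∫ z : E4, m.calL H (s, r, x - r • z, z) (g (x - r • z)) =
      r ^ (N + 1) • Tker H' s r g x := by
    simp_rw [hL]
    simp only [_root_.smul_apply]
    rw [integral_smul]
    rfl
  rw [← hI2, hI]
  unfold Model.op
  rw [← ha, ← hb, ← hc]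
  simp only [smul_add, smul_neg, Finset.smul_sum]
  have e2 : ∀ i j : Fin 4, r ^ 2 • a i j • pd i (pd j (Tker H s r g)) x =
      a i j • Tker (dzK (bv i) (dzK (bv j) H)) s r g x := by
    intro i j
    rw [smul_comm, C7c_pdpd hH hg s hr x i j]
  have e3 : ∀ i : Fin 4, r ^ 2 • b i (pd i (Tker H s r g) x) =
      r • b i (Tker (dzK (bv i) H) s r g x) := by
    intro i
    rw [← C7c_I1 hH hg s r x (bv i), map_smul, smul_smul, sq]
    rfl
  simp_rw [e2, e3]
  abel

/-- Time derivative of `T_H(σ, sqrt(τ-σ)) g (x)`. -/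
theorem C7c_time {m : Model V} {H H' : KP → (V →L[ℝ] V)} {N : ℕ} (hN : 1 ≤ N) (hH : C7c_RS H)
    (hL : ∀ q : KP, m.calL H q = q.2.1 ^ (N + 1) • H' q)
    {A : ℝ} {g : E4 → V} (hg : C7c_B1 A g) {σ τ : ℝ} (hστ : σ < τ) (x : E4) :
    HasDerivAt (fun τ => Tker H σ (Real.sqrt (τ - σ)) g x)
      (-m.op τ (Tker H σ (Real.sqrt (τ - σ)) g) x +
        Real.sqrt (τ - σ) ^ (N - 1) • Tker H' σ (Real.sqrt (τ - σ)) g x) τ := by
  have hr0 : 0 < Real.sqrt (τ - σ) := Real.sqrt_pos.2 (sub_pos.2 hστ)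
  have hr2 : Real.sqrt (τ - σ) ^ 2 = τ - σ := Real.sq_sqrt (sub_pos.2 hστ).le
  obtain ⟨D, hD, -, -⟩ := C7c_dr hH hg σ (Real.sqrt (τ - σ)) x
  have h := C7c_pde hH hL hg σ hr0.ne' x hD
  rw [show σ + Real.sqrt (τ - σ) ^ 2 = τ by rw [hr2]; ring] at h
  have hs : HasDerivAt (fun τ => Real.sqrt (τ - σ)) (1 / (2 * Real.sqrt (τ - σ))) τ := by
    have := ((hasDerivAt_id τ).sub_const σ).sqrt (sub_pos.2 hστ).ne'
    simpa using this
  have hc : HasDerivAt (fun τ => Tker H σ (Real.sqrt (τ - σ)) g x)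
      ((1 / (2 * Real.sqrt (τ - σ))) • D) τ :=
    HasDerivAt.scomp (g₁ := fun r => Tker H σ r g x) τ hD hs
  refine hc.congr_deriv ?_
  generalize Real.sqrt (τ - σ) = r at *
  have h1 : (r ^ 2) • ((1 / (2 * r)) • D) = (1 / 2 : ℝ) • (r • D) := by
    rw [smul_smul, smul_smul]
    congr 1
    field_simp
  have h2 : (r ^ 2) • ((1 / (2 * r)) • D) = (r ^ 2) • (-m.op τ (Tker H σ r g) x +
      r ^ (N - 1) • Tker H' σ r g x) := by
    have h3 : (r ^ 2) • (r ^ (N - 1) • Tker H' σ r g x) = r ^ (N + 1) • Tker H' σ r g x := by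
      rw [smul_smul, ← pow_add, show 2 + (N - 1) = N + 1 by omega]
    rw [h1, smul_add, h3, ← h, smul_neg]
    abel
  exact smul_right_injective V (pow_ne_zero 2 hr0.ne') h2

/-! ### Second derivatives of `Tker` -/

/-- Bounded `C²` functions. -/
structure C7c_B2 (A : ℝ) (g : E4 → V) : Prop where
  b1 : C7c_B1 A g
  b2 : ∀ i, C7c_B1 A (pd i g)

theorem C7c_pd1 {K : KP → (V →L[ℝ] V)} (hK : C7c_RS K) {A : ℝ} {g : E4 → V} (hg : C7c_B1 A g)
    (s r : ℝ) (i : Fin 4) : pd i (Tker K s r g) = fun x =>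
      Tker (C7c_dy (bv i) K) s r g x + Tker K s r (pd i g) x := by
  funext x
  exact (C7c_dx hK hg s r x).2 (bv i)

theorem C7c_pd2 {K : KP → (V →L[ℝ] V)} (hK : C7c_RS K) {A : ℝ} {g : E4 → V} (hg : C7c_B2 A g)
    (s r : ℝ) (i j : Fin 4) :
    (∀ x, DifferentiableAt ℝ (pd j (Tker K s r g)) x) ∧ pd i (pd j (Tker K s r g)) = fun x =>
      (Tker (C7c_dy (bv i) (C7c_dy (bv j) K)) s r g x + Tker (C7c_dy (bv j) K) s r (pd i g) x) +
      (Tker (C7c_dy (bv i) K) s r (pd j g) x + Tker K s r (pd i (pd j g)) x) := by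
  have hKj : C7c_RS (C7c_dy (bv j) K) := hK.fderiv (0, 0, bv j, 0)
  rw [C7c_pd1 hK hg.b1 s r j]
  have h1 := fun x => C7c_dx hKj hg.b1 s r x
  have h2 := fun x => C7c_dx hK (hg.b2 j) s r x
  refine ⟨fun x => (h1 x).1.add (h2 x).1, ?_⟩
  funext x
  unfold pd
  have h3 := ((h1 x).1.hasFDerivAt.add (h2 x).1.hasFDerivAt).fderiv
  have h4 : fderiv ℝ (fun x => Tker (C7c_dy (bv j) K) s r g x + Tker K s r (pd j g) x) x =
      fderiv ℝ (Tker (C7c_dy (bv j) K) s r g) x + fderiv ℝ (Tker K s r (pd j g)) x := h3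
  have h5 : (fun x => Tker (C7c_dy (bv j) K) s r g x +
      Tker K s r (fun y => fderiv ℝ g y (bv j)) x) =
      (fun x => Tker (C7c_dy (bv j) K) s r g x + Tker K s r (pd j g) x) := rfl
  rw [h5, h4, _root_.add_apply, (h1 x).2, (h2 x).2]
  rfl

/-! ### Continuity in all variables -/

/-- Continuous and bounded functions of `(σ, τ, x)`. -/
def C7c_CB (T : ℝ) (F : ℝ → ℝ → E4 → V) : Prop :=
  ContinuousOn (fun p : ℝ × ℝ × E4 => F p.1 p.2.1 p.2.2) (Icc 0 T ×ˢ (Icc 0 T ×ˢ univ)) ∧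
  ∃ B, ∀ σ ∈ Icc 0 T, ∀ τ ∈ Icc 0 T, ∀ x, ‖F σ τ x‖ ≤ B

theorem C7c_CB.add {T : ℝ} {F G : ℝ → ℝ → E4 → V} (hF : C7c_CB T F) (hG : C7c_CB T G) :
    C7c_CB T fun σ τ x => F σ τ x + G σ τ x := by
  obtain ⟨hF1, B, hB⟩ := hF
  obtain ⟨hG1, B', hB'⟩ := hG
  refine ⟨hF1.add hG1, B + B', fun σ hσ τ hτ x => ?_⟩
  exact (norm_add_le _ _).trans (add_le_add (hB σ hσ τ hτ x) (hB' σ hσ τ hτ x))

theorem C7c_CB_Tker {K : KP → (V →L[ℝ] V)} (hK : C7c_RS K) {T A : ℝ}
    {G : ℝ → E4 → V} (hG : ContinuousOn (fun p : ℝ × E4 => G p.1 p.2) (Icc 0 T ×ˢ univ))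
    (hA : ∀ s ∈ Icc 0 T, ∀ x, ‖G s x‖ ≤ A) :
    C7c_CB T fun σ τ x => Tker K σ (Real.sqrt (τ - σ)) (G σ) x := by
  have hR : ∀ σ ∈ Icc 0 T, ∀ τ ∈ Icc 0 T, Real.sqrt (τ - σ) ≤ Real.sqrt T := by
    intro σ hσ τ hτ
    apply Real.sqrt_le_sqrt
    linarith [hσ.1, hτ.2]
  constructor
  · have h := C7c_Tker_cont hK T (Real.sqrt T) hG hA
    refine h.comp (f := fun p : ℝ × ℝ × E4 => (p.1, Real.sqrt (p.2.1 - p.1), p.2.2))
      (by fun_prop) ?_
    rintro ⟨σ, τ, x⟩ ⟨hσ, hτ, -⟩
    refine ⟨hσ, ⟨?_, hR σ hσ τ hτ⟩, mem_univ _⟩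
    have h1 := Real.sqrt_nonneg (τ - σ)
    have h2 := Real.sqrt_nonneg T
    simp only
    linarith
  · obtain ⟨C, hC0, hC⟩ := C7c_Tker_bound hK (max T (Real.sqrt T))
    refine ⟨C * A, fun σ hσ τ hτ x => ?_⟩
    apply hC σ _ A _ x
    · rw [abs_of_nonneg hσ.1]; exact hσ.2.trans (le_max_left _ _)
    · rw [abs_of_nonneg (Real.sqrt_nonneg _)]
      exact (hR σ hσ τ hτ).trans (le_max_right _ _)
    · exact hA σ hσ

/-- Consequences of `NiceE 2`. -/
theorem C7c_nice {T A : ℝ} {w : ℝ → E4 → V} (hw : NiceE 2 T A w) :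
    (∀ σ ∈ Icc 0 T, C7c_B2 A (w σ)) ∧
    ContinuousOn (fun p : ℝ × E4 => w p.1 p.2) (Icc 0 T ×ˢ univ) ∧
    (∀ i, ContinuousOn (fun p : ℝ × E4 => pd i (w p.1) p.2) (Icc 0 T ×ˢ univ)) ∧
    (∀ i j, ContinuousOn (fun p : ℝ × E4 => pd i (pd j (w p.1)) p.2) (Icc 0 T ×ˢ univ)) ∧
    (∀ i j, ∀ σ ∈ Icc 0 T, ∀ x, ‖pd i (pd j (w σ)) x‖ ≤ A) := by
  obtain ⟨h1, h2, h3⟩ := hw
  have hbv : ∀ i : Fin 4, ‖bv i‖ = 1 := fun i => by simp [bv]
  have hpd2 : ∀ i j, ∀ σ ∈ Icc 0 T, ∀ x, pd i (pd j (w σ)) x =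
      iteratedFDeriv ℝ 2 (w σ) x ![bv i, bv j] := by
    intro i j σ hσ x
    rw [iteratedFDeriv_two_apply]
    simp only [Matrix.cons_val_zero, Matrix.cons_val_one]
    unfold pd
    have hd : DifferentiableAt ℝ (fderiv ℝ (w σ)) x :=
      ((h1 σ hσ).fderiv_right (m := 1) (by norm_num)).differentiable (by norm_num) x
    have := (hd.hasFDerivAt.clm_apply (hasFDerivAt_const (bv j) x)).fderiv
    rw [this]
    simp
  have hpd1 : ∀ i σ x, pd i (w σ) x = iteratedFDeriv ℝ 1 (w σ) x ![bv i] := by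
    intro i σ x
    rw [iteratedFDeriv_one_apply]
    rfl
  have hb2 : ∀ i j, ∀ σ ∈ Icc 0 T, ∀ x, ‖pd i (pd j (w σ)) x‖ ≤ A := by
    intro i j σ hσ x
    rw [hpd2 i j σ hσ x]
    refine (ContinuousMultilinearMap.le_opNorm _ _).trans ?_
    simp [Fin.prod_univ_two, hbv]
    exact h3 2 le_rfl σ hσ x
  have hf1 : ∀ σ ∈ Icc 0 T, ∀ x, ‖fderiv ℝ (w σ) x‖ ≤ A := by
    intro σ hσ x
    rw [← norm_iteratedFDeriv_one]
    exact h3 1 (by norm_num) σ hσ x
  have hb1 : ∀ i, ∀ σ ∈ Icc 0 T, ∀ x, ‖pd i (w σ) x‖ ≤ A := by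
    intro i σ hσ x
    refine (ContinuousLinearMap.le_opNorm _ _).trans ?_
    rw [hbv, mul_one]
    exact hf1 σ hσ x
  refine ⟨fun σ hσ => ⟨⟨(h1 σ hσ).of_le (by norm_num), fun x => ?_, hf1 σ hσ⟩, fun i =>
    ⟨?_, hb1 i σ hσ, fun x => ?_⟩⟩, ?_, ?_, ?_, hb2⟩
  · rw [← norm_iteratedFDeriv_zero (𝕜 := ℝ)]
    exact h3 0 (by norm_num) σ hσ x
  · exact ((h1 σ hσ).fderiv_right (m := 1) (by norm_num)).clm_apply contDiff_const
  · have hd : ContDiff ℝ 1 (fderiv ℝ (w σ)) := (h1 σ hσ).fderiv_right (m := 1) (by norm_num)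
    have e1 := norm_iteratedFDeriv_clm_apply_const (c := bv i) (n := 1) (x := x)
      hd.contDiffAt le_rfl
    rw [norm_iteratedFDeriv_one, norm_iteratedFDeriv_fderiv, hbv, one_mul] at e1
    exact e1.trans (h3 2 le_rfl σ hσ x)
  · have := (ContinuousMultilinearMap.apply ℝ (fun _ : Fin 0 => E4) V ![]).continuous.comp_continuousOn
      (h2 0 (by norm_num))
    refine this.congr fun p _ => ?_
    simp
  · intro i
    have := (ContinuousMultilinearMap.apply ℝ (fun _ : Fin 1 => E4) V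
      ![bv i]).continuous.comp_continuousOn (h2 1 (by norm_num))
    refine this.congr fun p _ => ?_
    exact hpd1 i _ _
  · intro i j
    have := (ContinuousMultilinearMap.apply ℝ (fun _ : Fin 2 => E4) V
      ![bv i, bv j]).continuous.comp_continuousOn (h2 2 le_rfl)
    refine this.congr fun p hp => ?_
    exact hpd2 i j _ hp.1 _

theorem C7c_CB_all {K : KP → (V →L[ℝ] V)} (hK : C7c_RS K) {T A : ℝ} {w : ℝ → E4 → V}
    (hw : NiceE 2 T A w) :
    (C7c_CB T fun σ τ x => Tker K σ (Real.sqrt (τ - σ)) (w σ) x) ∧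
    (∀ i, C7c_CB T fun σ τ x => pd i (Tker K σ (Real.sqrt (τ - σ)) (w σ)) x) ∧
    (∀ i j, C7c_CB T fun σ τ x => pd i (pd j (Tker K σ (Real.sqrt (τ - σ)) (w σ))) x) := by
  obtain ⟨hB, hc0, hc1, hc2, hb2⟩ := C7c_nice hw
  have hcongr : ∀ {F G : ℝ → ℝ → E4 → V}, C7c_CB T F →
      (∀ σ ∈ Icc 0 T, ∀ τ ∈ Icc 0 T, ∀ x, G σ τ x = F σ τ x) → C7c_CB T G := by
    intro F G hF h
    obtain ⟨hF1, B, hB⟩ := hF
    refine ⟨hF1.congr fun p hp => h _ hp.1 _ hp.2.1 _, B, fun σ hσ τ hτ x => ?_⟩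
    rw [h σ hσ τ hτ x]
    exact hB σ hσ τ hτ x
  have hy : ∀ i, C7c_RS (C7c_dy (bv i) K) := fun i => hK.fderiv (0, 0, bv i, 0)
  have hyy : ∀ i j, C7c_RS (C7c_dy (bv i) (C7c_dy (bv j) K)) := fun i j =>
    (hy j).fderiv (0, 0, bv i, 0)
  have hw0 : ∀ σ ∈ Icc 0 T, ∀ x, ‖w σ x‖ ≤ A := fun σ hσ => (hB σ hσ).b1.b0
  have hw1 : ∀ i, ∀ σ ∈ Icc 0 T, ∀ x, ‖pd i (w σ) x‖ ≤ A := fun i σ hσ => ((hB σ hσ).b2 i).b0
  refine ⟨C7c_CB_Tker hK hc0 hw0, fun i => ?_, fun i j => ?_⟩
  · refine hcongr ((C7c_CB_Tker (hy i) hc0 hw0).add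
      (C7c_CB_Tker hK (G := fun σ => pd i (w σ)) (hc1 i) (hw1 i))) ?_
    intro σ hσ τ hτ x
    rw [C7c_pd1 hK (hB σ hσ).b1]
  · refine hcongr (((C7c_CB_Tker (hyy i j) hc0 hw0).add
      (C7c_CB_Tker (hy j) (G := fun σ => pd i (w σ)) (hc1 i) (hw1 i))).add
      ((C7c_CB_Tker (hy i) (G := fun σ => pd j (w σ)) (hc1 j) (hw1 j)).add
      (C7c_CB_Tker hK (G := fun σ => pd i (pd j (w σ))) (hc2 i j) (hb2 i j)))) ?_
    intro σ hσ τ hτ x
    rw [(C7c_pd2 hK (hB σ hσ) σ (Real.sqrt (τ - σ)) i j).2]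

/-! ### Integrals over time -/

theorem C7c_P {τ B : ℝ} (hτ : 0 ≤ τ) {f : ℝ → E4 → V}
    (hd : ∀ σ ∈ Icc 0 τ, ∀ x, DifferentiableAt ℝ (f σ) x)
    (hc : ∀ x, ContinuousOn (fun σ => f σ x) (Icc 0 τ))
    (hc' : ∀ x i, ContinuousOn (fun σ => pd i (f σ) x) (Icc 0 τ))
    (hB : ∀ σ ∈ Icc 0 τ, ∀ x i, ‖pd i (f σ) x‖ ≤ B) (x : E4) :
    DifferentiableAt ℝ (fun x => ∫ σ in (0 : ℝ)..τ, f σ x) x ∧
    ∀ i, pd i (fun x => ∫ σ in (0 : ℝ)..τ, f σ x) x = ∫ σ in (0 : ℝ)..τ, pd i (f σ) x := by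
  have hsum : ∀ L : E4 →L[ℝ] V, L = ∑ i : Fin 4,
      (EuclideanSpace.proj i : E4 →L[ℝ] ℝ).smulRight (L (bv i)) := by
    intro L
    ext z
    have hz : z = ∑ i : Fin 4, z i • bv i := by
      ext j
      simp [bv, Finset.sum_apply, Pi.single_apply]
    conv_lhs => rw [hz]
    rw [map_sum]
    simp
  have hpr : ∀ i : Fin 4, ‖(EuclideanSpace.proj i : E4 →L[ℝ] ℝ)‖ ≤ 1 := by
    intro i
    refine ContinuousLinearMap.opNorm_le_bound _ zero_le_one fun z => ?_
    rw [one_mul]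
    exact PiLp.norm_apply_le z i
  have hIoc : uIoc (0 : ℝ) τ ⊆ Icc 0 τ := by
    rw [uIoc_of_le hτ]; exact Ioc_subset_Icc_self
  have hF'm : ∀ x, ContinuousOn (fun σ => fderiv ℝ (f σ) x) (Icc 0 τ) := by
    intro x
    have : (fun σ => fderiv ℝ (f σ) x) = fun σ => ∑ i : Fin 4,
        (EuclideanSpace.proj i : E4 →L[ℝ] ℝ).smulRight (pd i (f σ) x) := by
      funext σ
      exact hsum _
    rw [this]
    refine continuousOn_finsetSum _ fun i _ => ?_
    have h1 := (ContinuousLinearMap.smulRightL ℝ E4 V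
      (EuclideanSpace.proj i : E4 →L[ℝ] ℝ)).continuous.comp_continuousOn (hc' x i)
    exact h1
  have hF'b : ∀ σ ∈ Icc 0 τ, ∀ x, ‖fderiv ℝ (f σ) x‖ ≤ 4 * B := by
    intro σ hσ x
    rw [hsum (fderiv ℝ (f σ) x)]
    refine (norm_sum_le _ _).trans ?_
    calc _ ≤ ∑ _i : Fin 4, B := by
          refine Finset.sum_le_sum fun i _ => ?_
          rw [ContinuousLinearMap.norm_smulRight_apply]
          calc _ ≤ 1 * ‖fderiv ℝ (f σ) x (bv i)‖ :=
                mul_le_mul_of_nonneg_right (hpr i) (norm_nonneg _)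
            _ ≤ B := by rw [one_mul]; exact hB σ hσ x i
      _ = 4 * B := by simp
  have hmeas : ∀ x, AEStronglyMeasurable (fun σ => fderiv ℝ (f σ) x)
      (volume.restrict (uIoc (0 : ℝ) τ)) := fun x =>
    ((hF'm x).aestronglyMeasurable measurableSet_Icc).mono_set hIoc
  have hmeas0 : ∀ x, AEStronglyMeasurable (fun σ => f σ x)
      (volume.restrict (uIoc (0 : ℝ) τ)) := fun x =>
    ((hc x).aestronglyMeasurable measurableSet_Icc).mono_set hIoc
  have hii : ∀ {g : ℝ → V}, ContinuousOn g (Icc 0 τ) → IntervalIntegrable g volume 0 τ := by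
    intro g hg
    apply ContinuousOn.intervalIntegrable
    rwa [uIcc_of_le hτ]
  have hmain : HasFDerivAt (fun x => ∫ σ in (0 : ℝ)..τ, f σ x)
      (∫ σ in (0 : ℝ)..τ, fderiv ℝ (f σ) x) x := by
    apply intervalIntegral.hasFDerivAt_integral_of_dominated_of_fderiv_le (s := univ)
      (F := fun x σ => f σ x) (F' := fun x σ => fderiv ℝ (f σ) x) univ_mem
      (bound := fun _ => 4 * B)
    · exact Eventually.of_forall fun x => hmeas0 x
    · exact hii (hc x)
    · exact hmeas x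
    · exact Eventually.of_forall fun σ hσ x _ => hF'b σ (hIoc hσ) x
    · exact intervalIntegrable_const
    · exact Eventually.of_forall fun σ hσ x _ => (hd σ (hIoc hσ) x).hasFDerivAt
  refine ⟨hmain.differentiableAt, fun i => ?_⟩
  unfold pd
  rw [hmain.fderiv, ContinuousLinearMap.intervalIntegral_apply]
  apply ContinuousOn.intervalIntegrable
  rw [uIcc_of_le hτ]
  exact hF'm x

theorem C7c_fubini {T : ℝ} {G : ℝ → ℝ → V}
    (hG : ContinuousOn (fun p : ℝ × ℝ => G p.1 p.2) (Icc 0 T ×ˢ Icc 0 T)) {t : ℝ}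
    (ht : t ∈ Icc 0 T) :
    IntervalIntegrable (fun τ => ∫ σ in (0 : ℝ)..τ, G σ τ) volume 0 t ∧
    ∫ τ in (0 : ℝ)..t, ∫ σ in (0 : ℝ)..τ, G σ τ = ∫ σ in (0 : ℝ)..t, ∫ τ in σ..t, G σ τ := by
  set S : Set (ℝ × ℝ) := {p | p.1 ≤ p.2} with hS
  have hSm : MeasurableSet S := (isClosed_le continuous_fst continuous_snd).measurableSet
  have h1 : ∀ τ ∈ Icc 0 t, ∫ σ in (0 : ℝ)..τ, G σ τ =
      ∫ σ in (0 : ℝ)..t, S.indicator (fun p => G p.1 p.2) (σ, τ) := by
    intro τ hτ
    rw [intervalIntegral.integral_of_le hτ.1, intervalIntegral.integral_of_le ht.1]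
    have e1 : (fun σ => S.indicator (fun p => G p.1 p.2) (σ, τ)) =
        (Iic τ).indicator (fun σ => G σ τ) := by
      funext σ
      simp only [indicator, hS, mem_ofPred_eq, mem_Iic]
    rw [e1, setIntegral_indicator measurableSet_Iic]
    have e2 : Ioc 0 t ∩ Iic τ = Ioc 0 τ := by
      ext σ
      simp only [mem_inter_iff, mem_Ioc, mem_Iic]
      constructor
      · rintro ⟨⟨a, b⟩, c⟩; exact ⟨a, c⟩
      · rintro ⟨a, c⟩; exact ⟨⟨a, c.trans hτ.2⟩, c⟩
    rw [e2]
  have h2 : ∀ σ ∈ Ioc 0 t, ∫ τ in σ..t, G σ τ =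
      ∫ τ in (0 : ℝ)..t, S.indicator (fun p => G p.1 p.2) (σ, τ) := by
    intro σ hσ
    rw [intervalIntegral.integral_of_le hσ.2, intervalIntegral.integral_of_le ht.1]
    have e1 : (fun τ => S.indicator (fun p => G p.1 p.2) (σ, τ)) =
        (Ici σ).indicator (fun τ => G σ τ) := by
      funext τ
      simp only [indicator, hS, mem_ofPred_eq, mem_Ici]
    rw [e1, setIntegral_indicator measurableSet_Ici]
    have e2 : Ioc 0 t ∩ Ici σ = Icc σ t := by
      ext τ
      simp only [mem_inter_iff, mem_Ioc, mem_Ici, mem_Icc]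
      constructor
      · rintro ⟨⟨a, b⟩, c⟩; exact ⟨c, b⟩
      · rintro ⟨a, c⟩; exact ⟨⟨hσ.1.trans_le a, c⟩, a⟩
    rw [e2, integral_Icc_eq_integral_Ioc]
  have h3 : ∫ τ in (0 : ℝ)..t, ∫ σ in (0 : ℝ)..τ, G σ τ =
      ∫ τ in (0 : ℝ)..t, ∫ σ in (0 : ℝ)..t, S.indicator (fun p => G p.1 p.2) (σ, τ) := by
    apply intervalIntegral.integral_congr
    intro τ hτ
    rw [uIcc_of_le ht.1] at hτ
    exact h1 τ hτ
  have h4 : ∫ σ in (0 : ℝ)..t, ∫ τ in σ..t, G σ τ =
      ∫ σ in (0 : ℝ)..t, ∫ τ in (0 : ℝ)..t, S.indicator (fun p => G p.1 p.2) (σ, τ) := by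
    rw [intervalIntegral.integral_of_le ht.1, intervalIntegral.integral_of_le ht.1]
    apply setIntegral_congr_fun measurableSet_Ioc
    intro σ hσ
    exact h2 σ hσ
  have h5 : IntegrableOn (fun p : ℝ × ℝ => G p.1 p.2) (Icc 0 t ×ˢ Icc 0 t) := by
    apply ContinuousOn.integrableOn_compact (isCompact_Icc.prod isCompact_Icc)
    exact hG.mono (prod_mono (Icc_subset_Icc_right ht.2) (Icc_subset_Icc_right ht.2))
  have h6 : IntegrableOn (S.indicator fun p : ℝ × ℝ => G p.1 p.2) (Icc 0 t ×ˢ Icc 0 t) :=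
    h5.indicator hSm
  have h7 : IntegrableOn (S.indicator fun p : ℝ × ℝ => G p.1 p.2) (Ioc 0 t ×ˢ Ioc 0 t) :=
    h6.mono_set (prod_mono Ioc_subset_Icc_self Ioc_subset_Icc_self)
  constructor
  · rw [intervalIntegrable_iff_integrableOn_Ioc_of_le ht.1]
    have h8 : Integrable (S.indicator fun p : ℝ × ℝ => G p.1 p.2)
        ((volume.restrict (Ioc 0 t)).prod (volume.restrict (Ioc 0 t))) := by
      rw [Measure.prod_restrict]
      exact h7
    have h9 := h8.integral_prod_right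
    have h10 : IntegrableOn (fun τ => ∫ σ in (0 : ℝ)..t,
        S.indicator (fun p => G p.1 p.2) (σ, τ)) (Ioc 0 t) := by
      simp_rw [intervalIntegral.integral_of_le ht.1]
      exact h9
    refine h10.congr_fun (fun τ hτ => ?_) measurableSet_Ioc
    exact (h1 τ (Ioc_subset_Icc_self hτ)).symm
  rw [h3, h4]
  symm
  apply intervalIntegral_intervalIntegral_swap
  rw [uIoc_of_le ht.1]
  exact h7

/-! ### The final identity -/

theorem claimPde_proof (_hQ : claimQop) (_hR : claimRop) : claimPde := by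
  intro V _ _ _ m H H' N hRD hKS hRD' hKS' hN hchi hL T hT w A hw t ht x
  have hH : C7c_RS H := ⟨hRD, fun q hq => hKS.1 q hq.le⟩
  have hH' : C7c_RS H' := ⟨hRD', fun q hq => hKS'.1 q hq.le⟩
  obtain ⟨hB, hc0, hc1, hc2, hb2⟩ := C7c_nice hw
  obtain ⟨cb0, cb1, cb2⟩ := C7c_CB_all hH hw
  obtain ⟨cb0', -, -⟩ := C7c_CB_all hH' hw
  set U : ℝ → ℝ → E4 → V := fun σ τ x => Tker H σ (Real.sqrt (τ - σ)) (w σ) x with hU
  have hslice : ∀ {F : ℝ → ℝ → E4 → V}, C7c_CB T F → ∀ x,
      ContinuousOn (fun p : ℝ × ℝ => F p.1 p.2 x) (Icc 0 T ×ˢ Icc 0 T) := by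
    intro F hF x
    exact hF.1.comp (f := fun p : ℝ × ℝ => (p.1, p.2, x)) (by fun_prop)
      (fun p hp => ⟨hp.1, hp.2, mem_univ _⟩)
  -- the derivative in time
  set G : ℝ → ℝ → V := fun σ τ => -m.op τ (U σ τ) x +
    Real.sqrt (τ - σ) ^ (N - 1) • Tker H' σ (Real.sqrt (τ - σ)) (w σ) x with hG
  have hac : ∀ i j, Continuous fun p : ℝ × ℝ => m.a (p.2, x) i j := fun i j =>
    (m.a_smooth i j).continuous.comp (f := fun p : ℝ × ℝ => (p.2, x)) (by fun_prop)
  have hbc : ∀ i, Continuous fun p : ℝ × ℝ => m.b (p.2, x) i := fun i =>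
    (m.b_smooth i).continuous.comp (f := fun p : ℝ × ℝ => (p.2, x)) (by fun_prop)
  have hcc : Continuous fun p : ℝ × ℝ => m.c (p.2, x) :=
    m.c_smooth.continuous.comp (f := fun p : ℝ × ℝ => (p.2, x)) (by fun_prop)
  have hopc : ContinuousOn (fun p : ℝ × ℝ => m.op p.2 (U p.1 p.2) x) (Icc 0 T ×ˢ Icc 0 T) := by
    unfold Model.op
    refine (ContinuousOn.add (ContinuousOn.neg ?_) ?_).add ?_
    · refine continuousOn_finsetSum _ fun i _ => continuousOn_finsetSum _ fun j _ => ?_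
      exact (hac i j).continuousOn.smul (hslice (cb2 i j) x)
    · refine continuousOn_finsetSum _ fun i _ => ?_
      exact (hbc i).continuousOn.clm_apply (hslice (cb1 i) x)
    · exact hcc.continuousOn.clm_apply (hslice cb0 x)
  have hGc : ContinuousOn (fun p : ℝ × ℝ => G p.1 p.2) (Icc 0 T ×ˢ Icc 0 T) := by
    refine hopc.neg.add (ContinuousOn.smul ?_ (hslice cb0' x))
    apply Continuous.continuousOn
    fun_prop
  -- step 1: the fundamental theorem of calculus
  have step1 : ∀ σ ∈ Icc 0 t, ∫ τ in σ..t, G σ τ = U σ t x - m.chi x • w σ x := by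
    intro σ hσ
    have hσT : σ ∈ Icc 0 T := ⟨hσ.1, hσ.2.trans ht.2⟩
    have hGσ : ContinuousOn (fun τ => G σ τ) (Icc σ t) :=
      hGc.comp (f := fun τ : ℝ => (σ, τ)) (by fun_prop)
        (fun τ hτ => ⟨hσT, ⟨hσ.1.trans hτ.1, hτ.2.trans ht.2⟩⟩)
    have hUσ : ContinuousOn (fun τ => U σ τ x) (Icc σ t) :=
      (hslice cb0 x).comp (f := fun τ : ℝ => (σ, τ)) (by fun_prop)
        (fun τ hτ => ⟨hσT, ⟨hσ.1.trans hτ.1, hτ.2.trans ht.2⟩⟩)
    have h1 := intervalIntegral.integral_eq_sub_of_hasDerivAt_of_le hσ.2 hUσ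
      (f' := fun τ => G σ τ) (fun τ hτ => C7c_time (by omega) hH hL (hB σ hσT).b1 hτ.1 x)
      (by
        apply ContinuousOn.intervalIntegrable
        rwa [uIcc_of_le hσ.2])
    rw [h1]
    congr 1
    simp only [hU, sub_self, Real.sqrt_zero]
    unfold Tker
    simp only [zero_smul, sub_zero]
    have hi : Integrable fun z : E4 => H (σ, 0, x, z) := by
      obtain ⟨C, hC0, hC⟩ := hH.bound 5 (max |σ| 0)
      refine (C7c_int C).mono' ?_ (Eventually.of_forall fun z => ?_)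
      · exact (hH.rd.1.continuous.comp (by fun_prop)).aestronglyMeasurable
      · exact (hC σ 0 x z (le_max_left _ _) (by rw [abs_zero]; exact le_max_right _ _)).1
    rw [← ContinuousLinearMap.integral_apply hi, hchi]
    simp
  -- step 2: differentiation under the integral
  have step2 : ∀ τ ∈ Icc 0 t, -m.op τ (Qop H w τ) x + Rop H' N w τ x =
      ∫ σ in (0 : ℝ)..τ, G σ τ := by
    intro τ hτ
    have hτT : τ ∈ Icc 0 T := ⟨hτ.1, hτ.2.trans ht.2⟩
    have hsub : Icc 0 τ ⊆ Icc 0 T := Icc_subset_Icc_right hτT.2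
    have hsl2 : ∀ {F : ℝ → ℝ → E4 → V}, C7c_CB T F → ∀ x,
        ContinuousOn (fun σ => F σ τ x) (Icc 0 τ) := by
      intro F hF x
      exact (hslice hF x).comp (f := fun σ : ℝ => (σ, τ)) (by fun_prop)
        (fun σ hσ => ⟨hsub hσ, hτT⟩)
    have hii : ∀ {g : ℝ → V}, ContinuousOn g (Icc 0 τ) → IntervalIntegrable g volume 0 τ := by
      intro g hg
      apply ContinuousOn.intervalIntegrable
      rwa [uIcc_of_le hτ.1]
    have hb1 : ∃ B, ∀ σ ∈ Icc 0 τ, ∀ x i, ‖pd i (U σ τ) x‖ ≤ B := by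
      choose B hB using fun i => (cb1 i).2
      refine ⟨∑ i, |B i|, fun σ hσ x i => ?_⟩
      refine (hB i σ (hsub hσ) τ hτT x).trans ((le_abs_self _).trans ?_)
      exact Finset.single_le_sum (f := fun i => |B i|) (fun i _ => abs_nonneg _)
        (Finset.mem_univ i)
    have hb2 : ∀ j, ∃ B, ∀ σ ∈ Icc 0 τ, ∀ x i, ‖pd i (pd j (U σ τ)) x‖ ≤ B := by
      intro j
      choose B hB using fun i => (cb2 i j).2
      refine ⟨∑ i, |B i|, fun σ hσ x i => ?_⟩
      refine (hB i σ (hsub hσ) τ hτT x).trans ((le_abs_self _).trans ?_)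
      exact Finset.single_le_sum (f := fun i => |B i|) (fun i _ => abs_nonneg _)
        (Finset.mem_univ i)
    obtain ⟨B1, hB1⟩ := hb1
    have hP1 := C7c_P (f := fun σ => U σ τ) hτ.1
      (fun σ hσ x => (C7c_dx hH (hB σ (hsub hσ)).b1 σ _ x).1)
      (fun x => hsl2 cb0 x) (fun x i => hsl2 (cb1 i) x) hB1
    have hQeq : Qop H w τ = fun x => ∫ σ in (0 : ℝ)..τ, U σ τ x := rfl
    have hpd1 : ∀ i, pd i (Qop H w τ) = fun x => ∫ σ in (0 : ℝ)..τ, pd i (U σ τ) x := by
      intro i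
      funext x
      rw [hQeq]
      exact (hP1 x).2 i
    have hpd2 : ∀ i j, pd i (pd j (Qop H w τ)) x =
        ∫ σ in (0 : ℝ)..τ, pd i (pd j (U σ τ)) x := by
      intro i j
      obtain ⟨B2, hB2⟩ := hb2 j
      have hP2 := C7c_P (f := fun σ => pd j (U σ τ)) hτ.1
        (fun σ hσ x => (C7c_pd2 hH (hB σ (hsub hσ)) σ _ j j).1 x)
        (fun x => hsl2 (cb1 j) x) (fun x i => hsl2 (cb2 i j) x) hB2 x
      rw [hpd1 j]
      exact hP2.2 i
    have i0 := hii (hsl2 cb0 x)
    have i1 := fun i => hii (hsl2 (cb1 i) x)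
    have i2 := fun i j => hii (hsl2 (cb2 i j) x)
    have hopQ : m.op τ (Qop H w τ) x = ∫ σ in (0 : ℝ)..τ, m.op τ (U σ τ) x := by
      have j2 : ∀ i j, IntervalIntegrable (fun σ => m.a (τ, x) i j • pd i (pd j (U σ τ)) x)
          volume 0 τ := fun i j => (i2 i j).smul _
      have j1 : ∀ i, IntervalIntegrable (fun σ => m.b (τ, x) i (pd i (U σ τ) x))
          volume 0 τ := fun i => by
        apply hii
        exact (m.b (τ, x) i).continuous.comp_continuousOn (hsl2 (cb1 i) x)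
      have j0 : IntervalIntegrable (fun σ => m.c (τ, x) (U σ τ x)) volume 0 τ := by
        apply hii
        exact (m.c (τ, x)).continuous.comp_continuousOn (hsl2 cb0 x)
      have k2 : IntervalIntegrable (fun σ => ∑ i, ∑ j, m.a (τ, x) i j • pd i (pd j (U σ τ)) x)
          volume 0 τ := by
        apply hii
        refine continuousOn_finsetSum _ fun i _ => continuousOn_finsetSum _ fun j _ => ?_
        exact (hsl2 (cb2 i j) x).const_smul _
      have k2' : ∀ i, IntervalIntegrable (fun σ => ∑ j, m.a (τ, x) i j • pd i (pd j (U σ τ)) x)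
          volume 0 τ := by
        intro i
        apply hii
        refine continuousOn_finsetSum _ fun j _ => ?_
        exact (hsl2 (cb2 i j) x).const_smul _
      have k1 : IntervalIntegrable (fun σ => ∑ i, m.b (τ, x) i (pd i (U σ τ) x))
          volume 0 τ := by
        apply hii
        refine continuousOn_finsetSum _ fun i _ => ?_
        exact (m.b (τ, x) i).continuous.comp_continuousOn (hsl2 (cb1 i) x)
      have k2n : IntervalIntegrable (fun σ => -∑ i, ∑ j, m.a (τ, x) i j •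
          pd i (pd j (U σ τ)) x) volume 0 τ := k2.neg
      have k21 : IntervalIntegrable (fun σ => -(∑ i, ∑ j, m.a (τ, x) i j •
          pd i (pd j (U σ τ)) x) + ∑ i, m.b (τ, x) i (pd i (U σ τ) x)) volume 0 τ := k2n.add k1
      unfold Model.op
      rw [intervalIntegral.integral_add k21 j0, intervalIntegral.integral_add k2n k1,
        intervalIntegral.integral_neg,
        intervalIntegral.integral_finsetSum (fun i _ => k2' i),
        intervalIntegral.integral_finsetSum (fun i _ => j1 i)]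
      congr 1
      · congr 1
        · congr 1
          refine Finset.sum_congr rfl fun i _ => ?_
          rw [intervalIntegral.integral_finsetSum (fun j _ => j2 i j)]
          refine Finset.sum_congr rfl fun j _ => ?_
          rw [intervalIntegral.integral_smul, hpd2 i j]
        · refine Finset.sum_congr rfl fun i _ => ?_
          rw [ContinuousLinearMap.intervalIntegral_comp_comm _ (i1 i), hpd1 i]
      · rw [ContinuousLinearMap.intervalIntegral_comp_comm _ i0]
        rfl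
    have kop : IntervalIntegrable (fun σ => m.op τ (U σ τ) x) volume 0 τ := by
      apply hii
      exact hopc.comp (f := fun σ : ℝ => (σ, τ)) (by fun_prop) (fun σ hσ => ⟨hsub hσ, hτT⟩)
    have kopn : IntervalIntegrable (fun σ => -m.op τ (U σ τ) x) volume 0 τ := kop.neg
    have kR : IntervalIntegrable (fun σ => Real.sqrt (τ - σ) ^ (N - 1) •
        Tker H' σ (Real.sqrt (τ - σ)) (w σ) x) volume 0 τ := by
      apply hii
      refine ContinuousOn.smul ?_ (hsl2 cb0' x)
      apply Continuous.continuousOn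
      fun_prop
    rw [hopQ]
    unfold Rop
    rw [← intervalIntegral.integral_neg, ← intervalIntegral.integral_add kopn kR]
  -- conclusion
  have hwx : ContinuousOn (fun τ => m.chi x • w τ x) (Icc 0 t) := by
    refine ContinuousOn.const_smul ?_ _
    exact hc0.comp (f := fun τ : ℝ => (τ, x)) (by fun_prop)
      (fun τ hτ => ⟨⟨hτ.1, hτ.2.trans ht.2⟩, mem_univ _⟩)
  have e1 : ∫ τ in (0 : ℝ)..t, (m.chi x • w τ x - m.op τ (Qop H w τ) x + Rop H' N w τ x) =
      ∫ τ in (0 : ℝ)..t, (m.chi x • w τ x + ∫ σ in (0 : ℝ)..τ, G σ τ) := by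
    apply intervalIntegral.integral_congr
    intro τ hτ
    rw [uIcc_of_le ht.1] at hτ
    simp only
    rw [← step2 τ hτ]
    abel
  have iw : IntervalIntegrable (fun τ => m.chi x • w τ x) volume 0 t := by
    apply ContinuousOn.intervalIntegrable
    rwa [uIcc_of_le ht.1]
  have iU : IntervalIntegrable (fun σ => U σ t x) volume 0 t := by
    apply ContinuousOn.intervalIntegrable
    rw [uIcc_of_le ht.1]
    exact (hslice cb0 x).comp (f := fun σ : ℝ => (σ, t)) (by fun_prop)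
      (fun σ hσ => ⟨⟨hσ.1, hσ.2.trans ht.2⟩, ht⟩)
  obtain ⟨iG, hfub⟩ := C7c_fubini hGc ht
  rw [e1, intervalIntegral.integral_add iw iG, hfub]
  have e2 : ∫ σ in (0 : ℝ)..t, ∫ τ in σ..t, G σ τ =
      ∫ σ in (0 : ℝ)..t, (U σ t x - m.chi x • w σ x) := by
    apply intervalIntegral.integral_congr
    intro σ hσ
    rw [uIcc_of_le ht.1] at hσ
    exact step1 σ hσ
  rw [e2, intervalIntegral.integral_sub iU iw]
  unfold Qop
  simp only [hU]
  abel

end C7c

end NRF

end
end

section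

/-!
# C8: patching of chartwise `C^k` functions
-/

open scoped Manifold ContDiff Topology
open MeasureTheory Set Filter

noncomputable section

namespace NRF

/-! ## The cutoff -/

lemma C8_eta_contDiff : ContDiff ℝ ∞ etaC := etaBump.contDiff

lemma C8_eta_zero {x : E4} (hx : 2 ≤ ‖x‖) : etaC x = 0 :=
  etaBump.zero_of_le_dist (by rw [dist_zero_right]; exact hx)

lemma C8_eta_bound (k : ℕ) : ∃ M : ℝ, 0 ≤ M ∧ ∀ l ≤ k, ∀ x, ‖iteratedFDeriv ℝ l etaC x‖ ≤ M := by
  have h : ∀ l : ℕ, ∃ M : ℝ, ∀ x, ‖iteratedFDeriv ℝ l etaC x‖ ≤ M := by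
    intro l
    have hc : Continuous (iteratedFDeriv ℝ l etaC) :=
      C8_eta_contDiff.continuous_iteratedFDeriv (by exact_mod_cast le_top)
    have hs : HasCompactSupport etaC := etaBump.hasCompactSupport
    exact hc.bounded_above_of_compact_support (hs.iteratedFDeriv l)
  choose M hM using h
  refine ⟨∑ l ∈ Finset.range (k + 1), |M l|, by positivity, fun l hl x => ?_⟩
  refine (hM l x).trans ((le_abs_self _).trans ?_)
  exact Finset.single_le_sum (f := fun l => |M l|) (fun _ _ => abs_nonneg _)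
    (Finset.mem_range.mpr (by omega))

/-! ## The pieces -/

section pieces

variable {Y : Type} [TopologicalSpace Y] {V : Type} [NormedAddCommGroup V] [InnerProductSpace ℝ V]

/-- The compact set of a chart. -/
def C8B (g : Geom Y V) (i : g.I) : Set Y := (g.psi i).symm '' Metric.closedBall 0 2

/-- The transition map. -/
def C8tau (g : Geom Y V) (i i' : g.I) : E4 → E4 := (g.psi i).symm.trans (g.psi i')

/-- The overlap of two charts. -/
def C8O (g : Geom Y V) (i i' : g.I) : Set E4 := ((g.psi i).symm.trans (g.psi i')).source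

/-- The open set on which the pieces vanish. -/
def C8Z (g : Geom Y V) (i i' : g.I) : Set E4 :=
  {x | 2 < ‖x‖} ∪ ((g.psi i).target ∩ (g.psi i).symm ⁻¹' (C8B g i')ᶜ)

/-- One piece in one chart. -/
def C8G (g : Geom Y V) (i i' : g.I) (w : E4 → V) (x : E4) : V :=
  etaC x • (g.psi i').source.indicator (fun y => w (g.psi i' y)) ((g.psi i).symm x)

variable (g : Geom Y V) (i i' : g.I)

lemma C8_ind_zero {w : E4 → V} (hw : ∀ x, 2 ≤ ‖x‖ → w x = 0) {y : Y} (hy : y ∉ C8B g i') :
    (g.psi i').source.indicator (fun y => w (g.psi i' y)) y = 0 := by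
  by_cases hs : y ∈ (g.psi i').source
  · rw [indicator_of_mem hs]
    apply hw
    by_contra hcon
    push Not at hcon
    exact hy ⟨g.psi i' y, by rw [mem_closedBall_zero_iff]; exact hcon.le,
      (g.psi i').left_inv hs⟩
  · exact indicator_of_notMem hs _

lemma C8_target {x : E4} (hx : ‖x‖ ≤ 2) : x ∈ (g.psi i).target :=
  g.target i (by rw [mem_closedBall_zero_iff]; linarith)

lemma C8_closed [T2Space Y] : IsClosed (C8B g i) := by
  have h1 : ContinuousOn (g.psi i).symm (Metric.closedBall 0 2) :=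
    (g.psi i).continuousOn_symm.mono
      ((Metric.closedBall_subset_closedBall (by norm_num)).trans (g.target i))
  exact ((isCompact_closedBall 0 2).image_of_continuousOn h1).isClosed

lemma C8O_open : IsOpen (C8O g i i') := ((g.psi i).symm.trans (g.psi i')).open_source

lemma C8Z_open [T2Space Y] : IsOpen (C8Z g i i') :=
  (isOpen_lt continuous_const continuous_norm).union
    ((g.psi i).isOpen_inter_preimage_symm (C8_closed g i').isOpen_compl)

lemma C8_B_source {y : Y} (hy : y ∈ C8B g i) : y ∈ (g.psi i).source := by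
  obtain ⟨z, hz, rfl⟩ := hy
  refine (g.psi i).map_target (C8_target g i ?_)
  rwa [mem_closedBall_zero_iff] at hz

lemma C8_cover {x : E4} (hx : x ∉ C8Z g i i') :
    x ∈ C8O g i i' ∧ ‖x‖ ≤ 2 ∧ (g.psi i).symm x ∈ C8B g i' := by
  unfold C8Z at hx
  rw [mem_union, not_or] at hx
  obtain ⟨h1, h2⟩ := hx
  have h3 : ‖x‖ ≤ 2 := by
    rw [Set.mem_ofPred_eq] at h1
    linarith
  have h4 := C8_target g i h3
  have h5 : (g.psi i).symm x ∈ C8B g i' := by
    by_contra hcon
    exact h2 ⟨h4, hcon⟩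
  refine ⟨?_, h3, h5⟩
  unfold C8O
  rw [OpenPartialHomeomorph.trans_source]
  exact ⟨h4, C8_B_source g i' h5⟩

lemma C8G_zero {w : E4 → V} (hw : ∀ x, 2 ≤ ‖x‖ → w x = 0) {x : E4} (hx : x ∈ C8Z g i i') :
    C8G g i i' w x = 0 := by
  unfold C8G
  rcases hx with hx | hx
  · rw [C8_eta_zero (le_of_lt hx), zero_smul]
  · rw [C8_ind_zero g i' hw hx.2, smul_zero]

lemma C8G_eq (w : E4 → V) {x : E4} (hx : x ∈ C8O g i i') :
    C8G g i i' w x = etaC x • (w ∘ C8tau g i i') x := by
  unfold C8O at hx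
  rw [OpenPartialHomeomorph.trans_source] at hx
  have hx2 : (g.psi i).symm x ∈ (g.psi i').source := hx.2
  unfold C8G
  rw [indicator_of_mem hx2]
  rfl

lemma C8G_sub (w w' : E4 → V) (x : E4) :
    C8G g i i' (fun z => w z - w' z) x = C8G g i i' w x - C8G g i i' w' x := by
  unfold C8G
  rw [← smul_sub]
  congr 1
  by_cases hs : (g.psi i).symm x ∈ (g.psi i').source
  · rw [indicator_of_mem hs, indicator_of_mem hs, indicator_of_mem hs]
  · rw [indicator_of_notMem hs, indicator_of_notMem hs, indicator_of_notMem hs, sub_zero]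

lemma C8_ev_zero [T2Space Y] {w : E4 → V} (hw : ∀ x, 2 ≤ ‖x‖ → w x = 0) {x : E4}
    (hx : x ∈ C8Z g i i') : C8G g i i' w =ᶠ[𝓝 x] fun _ => 0 := by
  filter_upwards [(C8Z_open g i i').mem_nhds hx] with z hz
  exact C8G_zero g i i' hw hz

lemma C8_ev_eq (w : E4 → V) {x : E4} (hx : x ∈ C8O g i i') :
    C8G g i i' w =ᶠ[𝓝 x] fun x => etaC x • (w ∘ C8tau g i i') x := by
  filter_upwards [(C8O_open g i i').mem_nhds hx] with z hz
  exact C8G_eq g i i' w hz

lemma C8_contDiff [T2Space Y] {k : ℕ} {w : E4 → V} (hk : ContDiff ℝ k w)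
    (hw : ∀ x, 2 ≤ ‖x‖ → w x = 0) : ContDiff ℝ k (C8G g i i' w) := by
  rw [contDiff_iff_contDiffAt]
  intro x
  by_cases hx : x ∈ C8Z g i i'
  · exact contDiffAt_const.congr_of_eventuallyEq (C8_ev_zero g i i' hw hx)
  · have hO := (C8_cover g i i' hx).1
    have h2 : ContDiffAt ℝ k (C8tau g i i') x :=
      ((g.trans_smooth i i').contDiffAt ((C8O_open g i i').mem_nhds hO)).of_le
        (by exact_mod_cast le_top)
    have h3 : ContDiffAt ℝ k etaC x :=
      (C8_eta_contDiff.of_le (by exact_mod_cast le_top)).contDiffAt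
    exact (h3.smul (hk.contDiffAt.comp x h2)).congr_of_eventuallyEq (C8_ev_eq g i i' w hO)

lemma C8_der_zero [T2Space Y] {w : E4 → V} (hw : ∀ x, 2 ≤ ‖x‖ → w x = 0) {x : E4}
    (hx : x ∈ C8Z g i i') (j : ℕ) : iteratedFDeriv ℝ j (C8G g i i' w) x = 0 := by
  rw [((C8_ev_zero g i i' hw hx).iteratedFDeriv ℝ j).eq_of_nhds]
  have h := iteratedFDeriv_fun_zero (𝕜 := ℝ) (E := E4) (F := V) (n := j)
  exact congrFun h x

lemma C8_trans_bound (k : ℕ) : ∃ D : ℝ, 1 ≤ D ∧ ∀ l ≤ k, ∀ (i i' : g.I) (x : E4), ‖x‖ ≤ 2 →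
    (g.psi i).symm x ∈ C8B g i' → ‖iteratedFDeriv ℝ l (C8tau g i i') x‖ ≤ D := by
  choose C hC using g.trans_bound
  refine ⟨1 + ∑ l ∈ Finset.range (k + 1), |C l|, ?_, fun l hl i i' x hx hy => ?_⟩
  · have : 0 ≤ ∑ l ∈ Finset.range (k + 1), |C l| := by positivity
    linarith
  · have h1 := (hC l i i' x hx hy).trans (le_abs_self _)
    have h2 := Finset.single_le_sum (f := fun l => |C l|) (fun _ _ => abs_nonneg _)
      (Finset.mem_range.mpr (by omega : l < k + 1))
    refine h1.trans ?_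
    linarith

lemma C8_bound [T2Space Y] {k : ℕ} {M D C : ℝ} (hM0 : 0 ≤ M)
    (hM : ∀ l ≤ k, ∀ x, ‖iteratedFDeriv ℝ l etaC x‖ ≤ M) (hD1 : 1 ≤ D)
    (hD : ∀ l ≤ k, ∀ (i i' : g.I) (x : E4), ‖x‖ ≤ 2 → (g.psi i).symm x ∈ C8B g i' →
      ‖iteratedFDeriv ℝ l (C8tau g i i') x‖ ≤ D) {w : E4 → V} (hk : ContDiff ℝ k w)
    (hw : ∀ x, 2 ≤ ‖x‖ → w x = 0) (hC : 0 ≤ C)
    (hb : ∀ l ≤ k, ∀ x, ‖iteratedFDeriv ℝ l w x‖ ≤ C) {j : ℕ} (hj : j ≤ k) (x : E4) :
    ‖iteratedFDeriv ℝ j (C8G g i i' w) x‖ ≤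
      ((k + 1 : ℕ) : ℝ) * (2 ^ k * M * (k.factorial * D ^ k)) * C := by
  by_cases hx : x ∈ C8Z g i i'
  · rw [C8_der_zero g i i' hw hx, norm_zero]
    positivity
  · obtain ⟨hO, hx2, hxB⟩ := C8_cover g i i' hx
    have hOo := C8O_open g i i'
    have hu : UniqueDiffOn ℝ (C8O g i i') := hOo.uniqueDiffOn
    have htau : ContDiffOn ℝ k (C8tau g i i') (C8O g i i') :=
      (g.trans_smooth i i').of_le (by exact_mod_cast le_top)
    have heta : ContDiffOn ℝ k etaC (C8O g i i') :=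
      (C8_eta_contDiff.of_le (by exact_mod_cast le_top)).contDiffOn
    have hcomp : ContDiffOn ℝ k (w ∘ C8tau g i i') (C8O g i i') :=
      hk.comp_contDiffOn htau
    rw [((C8_ev_eq g i i' w hO).iteratedFDeriv ℝ j).eq_of_nhds,
      ← iteratedFDerivWithin_of_isOpen j hOo hO]
    refine (norm_iteratedFDerivWithin_smul_le heta hcomp hu hO (by exact_mod_cast hj)).trans ?_
    have hterm : ∀ a ∈ Finset.range (j + 1), (j.choose a : ℝ) *
        ‖iteratedFDerivWithin ℝ a etaC (C8O g i i') x‖ *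
        ‖iteratedFDerivWithin ℝ (j - a) (w ∘ C8tau g i i') (C8O g i i') x‖ ≤
        2 ^ k * M * (k.factorial * C * D ^ k) := by
      intro a ha
      have haj : a ≤ j := by
        rw [Finset.mem_range] at ha
        omega
      have e1 : (j.choose a : ℝ) ≤ 2 ^ k := by
        have h1 : j.choose a ≤ 2 ^ j := Nat.choose_le_two_pow j a
        have h2 : 2 ^ j ≤ 2 ^ k := Nat.pow_le_pow_right (by norm_num) hj
        exact_mod_cast h1.trans h2
      have e2 : ‖iteratedFDerivWithin ℝ a etaC (C8O g i i') x‖ ≤ M := by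
        rw [iteratedFDerivWithin_of_isOpen a hOo hO]
        exact hM a (haj.trans hj) x
      have e3 : ‖iteratedFDerivWithin ℝ (j - a) (w ∘ C8tau g i i') (C8O g i i') x‖ ≤
          (j - a).factorial * C * D ^ (j - a) := by
        refine norm_iteratedFDerivWithin_comp_le (N := k) (t := univ) hk.contDiffOn htau
          (by exact_mod_cast (Nat.sub_le j a).trans hj) uniqueDiffOn_univ hu (mapsTo_univ _ _) hO
          (fun l hl => ?_) (fun l hl1 hl => ?_)
        · rw [iteratedFDerivWithin_univ]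
          exact hb l (by omega) _
        · rw [iteratedFDerivWithin_of_isOpen l hOo hO]
          exact (hD l (by omega) i i' x hx2 hxB).trans (le_self_pow₀ hD1 (by omega))
      have e4 : ((j - a).factorial : ℝ) * C * D ^ (j - a) ≤ k.factorial * C * D ^ k := by
        have f1 : ((j - a).factorial : ℝ) ≤ k.factorial := by
          exact_mod_cast Nat.factorial_le (by omega)
        have f2 : D ^ (j - a) ≤ D ^ k := pow_le_pow_right₀ hD1 (by omega)
        gcongr
      calc _ ≤ 2 ^ k * M * ((j - a).factorial * C * D ^ (j - a)) := by gcongr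
        _ ≤ _ := by gcongr
    refine (Finset.sum_le_sum hterm).trans ?_
    rw [Finset.sum_const, Finset.card_range, nsmul_eq_mul]
    have e5 : ((j + 1 : ℕ) : ℝ) ≤ ((k + 1 : ℕ) : ℝ) := by exact_mod_cast Nat.succ_le_succ hj
    calc ((j + 1 : ℕ) : ℝ) * (2 ^ k * M * (k.factorial * C * D ^ k))
        ≤ ((k + 1 : ℕ) : ℝ) * (2 ^ k * M * (k.factorial * C * D ^ k)) := by gcongr
      _ = _ := by ring

/-! ## Dependence on time -/

lemma C8_time {k : ℕ} {T C : ℝ} {v : ℝ → E4 → V} (hv : NiceE k T C v)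
    (hs : ∀ t x, 2 ≤ ‖x‖ → v t x = 0) {t0 : ℝ} (ht0 : t0 ∈ Icc 0 T) {ε : ℝ} (hε : 0 < ε) :
    ∀ᶠ t in 𝓝[Icc 0 T] t0, ∀ l ≤ k, ∀ x,
      ‖iteratedFDeriv ℝ l (fun x => v t x - v t0 x) x‖ ≤ ε := by
  have key : ∀ l ∈ Finset.range (k + 1), ∀ᶠ t in 𝓝[Icc 0 T] t0,
      ∀ x ∈ Metric.closedBall (0 : E4) 2,
        ‖iteratedFDeriv ℝ l (v t) x - iteratedFDeriv ℝ l (v t0) x‖ < ε := by
    intro l hl
    have hlk : l ≤ k := by
      rw [Finset.mem_range] at hl
      omega
    have hcont := hv.2.1 l hlk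
    have hc0 : Continuous (iteratedFDeriv ℝ l (v t0)) :=
      (hv.1 t0 ht0).continuous_iteratedFDeriv (by exact_mod_cast hlk)
    have h1 : ∀ᶠ t in 𝓝 t0, ∀ x ∈ Metric.closedBall (0 : E4) 2, t ∈ Icc 0 T →
        ‖iteratedFDeriv ℝ l (v t) x - iteratedFDeriv ℝ l (v t0) x‖ < ε := by
      refine (isCompact_closedBall (0 : E4) 2).eventually_forall_of_forall_eventually
        (P := fun t x => t ∈ Icc 0 T →
          ‖iteratedFDeriv ℝ l (v t) x - iteratedFDeriv ℝ l (v t0) x‖ < ε) fun x _ => ?_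
      have h2 : ContinuousWithinAt (fun p : ℝ × E4 => ‖iteratedFDeriv ℝ l (v p.1) p.2 -
          iteratedFDeriv ℝ l (v t0) p.2‖) (Icc 0 T ×ˢ univ) (t0, x) :=
        ((hcont (t0, x) ⟨ht0, mem_univ _⟩).sub
          (hc0.comp continuous_snd).continuousWithinAt).norm
      have h3 : ∀ᶠ p in 𝓝[Icc 0 T ×ˢ univ] (t0, x), ‖iteratedFDeriv ℝ l (v p.1) p.2 -
          iteratedFDeriv ℝ l (v t0) p.2‖ < ε := by
        refine h2.eventually_lt continuousWithinAt_const ?_
        simpa using hε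
      rw [eventually_nhdsWithin_iff] at h3
      filter_upwards [h3] with p hp ht
      exact hp ⟨ht, mem_univ _⟩
    rw [eventually_nhdsWithin_iff]
    filter_upwards [h1] with t h ht x hx
    exact h x hx ht
  rw [← Filter.eventually_all_finset] at key
  filter_upwards [key, self_mem_nhdsWithin] with t h ht l hl x
  have e1 : iteratedFDeriv ℝ l (fun x => v t x - v t0 x) x =
      iteratedFDeriv ℝ l (v t) x - iteratedFDeriv ℝ l (v t0) x :=
    fun_iteratedFDeriv_sub_apply
      (((hv.1 t ht).of_le (by exact_mod_cast hl)).contDiffAt)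
      (((hv.1 t0 ht0).of_le (by exact_mod_cast hl)).contDiffAt)
  rw [e1]
  by_cases hx : ‖x‖ ≤ 2
  · exact (h l (Finset.mem_range.mpr (by omega)) x (by rwa [mem_closedBall_zero_iff])).le
  · push Not at hx
    have hz : ∀ s, iteratedFDeriv ℝ l (v s) x = 0 := by
      intro s
      have h4 : v s =ᶠ[𝓝 x] fun _ => 0 := by
        filter_upwards [(isOpen_lt continuous_const continuous_norm).mem_nhds hx] with z hz
        exact hs s z (le_of_lt hz)
      rw [(h4.iteratedFDeriv ℝ l).eq_of_nhds]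
      exact congrFun (iteratedFDeriv_fun_zero (𝕜 := ℝ) (E := E4) (F := V) (n := l)) x
    rw [hz, hz, sub_zero, norm_zero]
    exact hε.le

lemma C8_joint [T2Space Y] {k : ℕ} {T M D C : ℝ} (hM0 : 0 ≤ M)
    (hM : ∀ l ≤ k, ∀ x, ‖iteratedFDeriv ℝ l etaC x‖ ≤ M) (hD1 : 1 ≤ D)
    (hD : ∀ l ≤ k, ∀ (i i' : g.I) (x : E4), ‖x‖ ≤ 2 → (g.psi i).symm x ∈ C8B g i' →
      ‖iteratedFDeriv ℝ l (C8tau g i i') x‖ ≤ D) {v : ℝ → E4 → V} (hv : NiceE k T C v)
    (hs : ∀ t x, 2 ≤ ‖x‖ → v t x = 0) (hC : 0 ≤ C) :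
    NiceE k T (((k + 1 : ℕ) : ℝ) * (2 ^ k * M * (k.factorial * D ^ k)) * C)
      fun t => C8G g i i' (v t) := by
  refine ⟨fun t ht => C8_contDiff g i i' (hv.1 t ht) (hs t), fun j hj => ?_,
    fun j hj t ht x => C8_bound g i i' hM0 hM hD1 hD (hv.1 t ht) (hs t) hC
      (fun l hl x => hv.2.2 l hl t ht x) hj x⟩
  rintro ⟨t0, x0⟩ ⟨ht0, -⟩
  obtain ⟨K1, hK1⟩ : ∃ K1, K1 = ((k + 1 : ℕ) : ℝ) * (2 ^ k * M * (k.factorial * D ^ k)) :=
    ⟨_, rfl⟩
  have hK0 : 0 ≤ K1 := by
    rw [hK1]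
    positivity
  rw [ContinuousWithinAt, Metric.tendsto_nhds]
  intro ε hε
  have h1 := C8_time hv hs ht0 (ε := ε / (2 * (K1 + 1))) (by positivity)
  have hc0 : Continuous (iteratedFDeriv ℝ j (C8G g i i' (v t0))) :=
    (C8_contDiff g i i' (hv.1 t0 ht0) (hs t0)).continuous_iteratedFDeriv (by exact_mod_cast hj)
  have h2 : ∀ᶠ x in 𝓝 x0, dist (iteratedFDeriv ℝ j (C8G g i i' (v t0)) x)
      (iteratedFDeriv ℝ j (C8G g i i' (v t0)) x0) < ε / 2 :=
    Metric.tendsto_nhds.mp (hc0.tendsto x0) (ε / 2) (by positivity)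
  have h3 : ∀ᶠ t in 𝓝[Icc 0 T] t0, t ∈ Icc 0 T := self_mem_nhdsWithin
  rw [nhdsWithin_prod_eq, nhdsWithin_univ]
  filter_upwards [(h1.and h3).prod_inl (𝓝 x0), h2.prod_inr (𝓝[Icc 0 T] t0)] with p hp1 hp2
  obtain ⟨hp1, hpT⟩ := hp1
  have e1 : iteratedFDeriv ℝ j (C8G g i i' (v p.1)) p.2 -
      iteratedFDeriv ℝ j (C8G g i i' (v t0)) p.2 =
      iteratedFDeriv ℝ j (C8G g i i' (fun z => v p.1 z - v t0 z)) p.2 := by
    rw [← fun_iteratedFDeriv_sub_apply
      (((C8_contDiff g i i' (hv.1 p.1 hpT) (hs p.1)).of_le (by exact_mod_cast hj)).contDiffAt)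
      (((C8_contDiff g i i' (hv.1 t0 ht0) (hs t0)).of_le (by exact_mod_cast hj)).contDiffAt)]
    congr 2
    funext x
    exact (C8G_sub g i i' (v p.1) (v t0) x).symm
  have e2 : ‖iteratedFDeriv ℝ j (C8G g i i' (fun z => v p.1 z - v t0 z)) p.2‖ ≤
      K1 * (ε / (2 * (K1 + 1))) := by
    rw [hK1]
    rw [hK1] at hp1
    refine C8_bound g i i' hM0 hM hD1 hD ((hv.1 p.1 hpT).sub (hv.1 t0 ht0)) (fun x hx => ?_)
      (by positivity) hp1 hj p.2
    rw [hs p.1 x hx, hs t0 x hx, sub_zero]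
  have e3 : K1 * (ε / (2 * (K1 + 1))) ≤ ε / 2 := by
    rw [mul_div_assoc', div_le_div_iff₀ (by positivity) (by norm_num)]
    nlinarith
  calc dist (iteratedFDeriv ℝ j (C8G g i i' (v p.1)) p.2)
        (iteratedFDeriv ℝ j (C8G g i i' (v t0)) x0)
      ≤ dist (iteratedFDeriv ℝ j (C8G g i i' (v p.1)) p.2)
          (iteratedFDeriv ℝ j (C8G g i i' (v t0)) p.2) +
        dist (iteratedFDeriv ℝ j (C8G g i i' (v t0)) p.2)
          (iteratedFDeriv ℝ j (C8G g i i' (v t0)) x0) := dist_triangle _ _ _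
    _ < ε / 2 + ε / 2 := by
        refine add_lt_add_of_le_of_lt ?_ hp2
        rw [dist_eq_norm, e1]
        exact e2.trans e3
    _ = ε := by ring

end pieces

/-! ## The sum -/

theorem claimPatch_proof : claimPatch := by
  classical
  intro Y _ _ V _ _ _ g k T
  obtain ⟨M, hM0, hM⟩ := C8_eta_bound k
  obtain ⟨D, hD1, hD⟩ := C8_trans_bound g k
  obtain ⟨N0, hN0⟩ := g.mult
  obtain ⟨K1, hK1⟩ : ∃ K1, K1 = ((k + 1 : ℕ) : ℝ) * (2 ^ k * M * (k.factorial * D ^ k)) :=
    ⟨_, rfl⟩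
  have hK0 : 0 ≤ K1 := by
    rw [hK1]
    positivity
  refine ⟨N0 * K1, by positivity, fun C v hC hv hs i => ?_⟩
  have hG : ∀ i', NiceE k T (K1 * C) fun t => C8G g i i' (v i' t) := fun i' => by
    rw [hK1]
    exact C8_joint g i i' hM0 hM hD1 hD (hv i') (hs i') hC
  obtain ⟨f, hf⟩ : ∃ f : ℝ → E4 → V, f = fun t x => etaC x •
    (fun t y => ∑ᶠ i, (g.psi i).source.indicator (fun y => v i t (g.psi i y)) y) t
      ((g.psi i).symm x) := ⟨_, rfl⟩
  rw [← hf]
  -- local representation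
  have hloc : ∀ x0 ∈ (g.psi i).target, ∃ (S : Finset g.I) (U : Set E4), IsOpen U ∧ x0 ∈ U ∧
      ∀ t, ∀ x ∈ U, f t x = ∑ i' ∈ S, C8G g i i' (v i' t) x := by
    intro x0 hx0
    obtain ⟨W, hW, hfin⟩ := g.locfin ((g.psi i).symm x0)
    obtain ⟨W', hW'W, hW'o, hW'm⟩ := mem_nhds_iff.mp hW
    refine ⟨hfin.toFinset, (g.psi i).target ∩ (g.psi i).symm ⁻¹' W',
      (g.psi i).isOpen_inter_preimage_symm hW'o, ⟨hx0, hW'm⟩, fun t x hx => ?_⟩
    rw [hf]
    simp only
    rw [finsum_eq_sum_of_support_subset (s := hfin.toFinset), Finset.smul_sum]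
    · rfl
    · intro i' hi'
      rw [Function.mem_support] at hi'
      rw [Finset.mem_coe, Set.Finite.mem_toFinset]
      have h1 : (g.psi i).symm x ∈ C8B g i' := by
        by_contra hcon
        exact hi' (C8_ind_zero g i' (hs i' t) hcon)
      exact ⟨(g.psi i).symm x, h1, hW'W hx.2⟩
  -- far away the function vanishes
  have hfar : ∀ t x, 2 < ‖x‖ → f t =ᶠ[𝓝 x] fun _ => 0 := by
    intro t x hx
    filter_upwards [(isOpen_lt continuous_const continuous_norm).mem_nhds hx] with z hz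
    rw [hf]
    simp only
    rw [C8_eta_zero (le_of_lt hz), zero_smul]
  have hder0 : ∀ (j : ℕ) t x, 2 < ‖x‖ → iteratedFDeriv ℝ j (f t) x = 0 := by
    intro j t x hx
    rw [((hfar t x hx).iteratedFDeriv ℝ j).eq_of_nhds]
    exact congrFun (iteratedFDeriv_fun_zero (𝕜 := ℝ) (E := E4) (F := V) (n := j)) x
  have hder : ∀ (S : Finset g.I) (U : Set E4), IsOpen U →
      (∀ t, ∀ x ∈ U, f t x = ∑ i' ∈ S, C8G g i i' (v i' t) x) → ∀ t ∈ Icc 0 T, ∀ x ∈ U,
      ∀ j ≤ k, iteratedFDeriv ℝ j (f t) x =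
        ∑ i' ∈ S, iteratedFDeriv ℝ j (C8G g i i' (v i' t)) x := by
    intro S U hU hfU t ht x hx j hj
    have h1 : f t =ᶠ[𝓝 x] fun z => ∑ i' ∈ S, C8G g i i' (v i' t) z := by
      filter_upwards [hU.mem_nhds hx] with z hz
      exact hfU t z hz
    rw [(h1.iteratedFDeriv ℝ j).eq_of_nhds]
    exact iteratedFDeriv_fun_sum_apply fun i' _ =>
      (((hG i').1 t ht).of_le (by exact_mod_cast hj)).contDiffAt
  refine ⟨fun t ht => ?_, fun j hj => ?_, fun j hj t ht x => ?_⟩
  · rw [contDiff_iff_contDiffAt]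
    intro x
    by_cases hx : ‖x‖ ≤ 2
    · obtain ⟨S, U, hU, hxU, hfU⟩ := hloc x (C8_target g i hx)
      have h1 : f t =ᶠ[𝓝 x] fun z => ∑ i' ∈ S, C8G g i i' (v i' t) z := by
        filter_upwards [hU.mem_nhds hxU] with z hz
        exact hfU t z hz
      exact (ContDiffAt.sum fun i' _ => ((hG i').1 t ht).contDiffAt).congr_of_eventuallyEq h1
    · push Not at hx
      exact contDiffAt_const.congr_of_eventuallyEq (hfar t x hx)
  · rintro ⟨t0, x0⟩ ⟨ht0, -⟩
    by_cases hx : ‖x0‖ ≤ 2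
    · obtain ⟨S, U, hU, hxU, hfU⟩ := hloc x0 (C8_target g i hx)
      have h1 : ContinuousWithinAt (fun p : ℝ × E4 =>
          ∑ i' ∈ S, iteratedFDeriv ℝ j (C8G g i i' (v i' p.1)) p.2) (Icc 0 T ×ˢ univ)
          (t0, x0) := by
        refine tendsto_finsetSum S fun i' _ => ?_
        exact (hG i').2.1 j hj (t0, x0) ⟨ht0, mem_univ _⟩
      refine h1.congr_of_eventuallyEq ?_ (hder S U hU hfU t0 ht0 x0 hxU j hj)
      have h2 : ∀ᶠ p in 𝓝[Icc 0 T ×ˢ univ] ((t0, x0) : ℝ × E4), p.2 ∈ U :=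
        (continuous_snd.continuousAt.eventually (hU.mem_nhds hxU)).filter_mono nhdsWithin_le_nhds
      filter_upwards [h2, self_mem_nhdsWithin] with p hp hp'
      exact hder S U hU hfU p.1 hp'.1 p.2 hp j hj
    · push Not at hx
      refine (continuousWithinAt_const (b := 0)).congr_of_eventuallyEq ?_
        (hder0 j t0 x0 hx)
      have h2' : {z : E4 | 2 < ‖z‖} ∈ 𝓝 x0 :=
        (isOpen_lt continuous_const continuous_norm).mem_nhds hx
      have h2 : ∀ᶠ p in 𝓝[Icc 0 T ×ˢ univ] ((t0, x0) : ℝ × E4), p.2 ∈ {z : E4 | 2 < ‖z‖} :=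
        nhdsWithin_le_nhds ((continuous_snd (X := ℝ) (Y := E4)).continuousAt.preimage_mem_nhds
          (x := ((t0, x0) : ℝ × E4)) h2')
      filter_upwards [h2] with p hp
      exact hder0 j p.1 p.2 hp
  · by_cases hx : ‖x‖ ≤ 2
    · obtain ⟨S, U, hU, hxU, hfU⟩ := hloc x (C8_target g i hx)
      rw [hder S U hU hfU t ht x hxU j hj]
      refine (norm_sum_le _ _).trans ?_
      have h1 : ∀ i' ∈ S, (g.psi i).symm x ∉ C8B g i' →
          ‖iteratedFDeriv ℝ j (C8G g i i' (v i' t)) x‖ = 0 := by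
        intro i' _ hi'
        rw [C8_der_zero g i i' (hs i' t) (Or.inr ⟨C8_target g i hx, hi'⟩), norm_zero]
      rw [← Finset.sum_filter_add_sum_filter_not S (fun i' => (g.psi i).symm x ∈ C8B g i'),
        Finset.sum_eq_zero (s := S.filter fun i' => ¬ (g.psi i).symm x ∈ C8B g i')
          (fun i' hi' => by
            rw [Finset.mem_filter] at hi'
            exact h1 i' hi'.1 hi'.2), add_zero]
      refine (Finset.sum_le_card_nsmul _ _ (K1 * C) fun i' _ =>
        (hG i').2.2 j hj t ht x).trans ?_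
      rw [nsmul_eq_mul, mul_assoc]
      have h2 : (S.filter fun i' => (g.psi i).symm x ∈ C8B g i').card ≤ N0 := by
        have hfin : {i' | (g.psi i).symm x ∈ (g.psi i').symm '' Metric.closedBall 0 2}.Finite :=
          g.locfin.point_finite _
        refine le_trans ?_ (hN0 ((g.psi i).symm x))
        rw [← Set.ncard_coe_finset]
        refine Set.ncard_le_ncard (fun i' hi' => ?_) hfin
        rw [Finset.coe_filter] at hi'
        exact hi'.2
      have h3 : ((S.filter fun i' => (g.psi i).symm x ∈ C8B g i').card : ℝ) ≤ N0 := by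
        exact_mod_cast h2
      exact mul_le_mul_of_nonneg_right h3 (by positivity)
    · push Not at hx
      rw [hder0 j t x hx, norm_zero]
      positivity

end NRF

end
end

section

/-!
# B2: the Riemannian measure in smooth charts
-/

open scoped Manifold ContDiff Topology ENNReal
open MeasureTheory Set

noncomputable section

namespace NRF

/-! ## Gluing of measures -/

section glue

variable {X ι : Type} [MeasurableSpace X]

lemma B2_decomp (U : ι → Set X) (hU : ∀ i, MeasurableSet (U i)) (c : ℕ → ι)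
    (hc : ⋃ n, U (c n) = univ) (μ : Measure X) {A : Set X} (hA : MeasurableSet A) :
    μ A = ∑' n, μ (A ∩ disjointed (fun n => U (c n)) n) := by
  have hd : ∀ n, MeasurableSet (disjointed (fun n => U (c n)) n) :=
    fun n => MeasurableSet.disjointed (fun n => hU (c n)) n
  have h1 : A = ⋃ n, A ∩ disjointed (fun n => U (c n)) n := by
    rw [← inter_iUnion, iUnion_disjointed, hc, inter_univ]
  conv_lhs => rw [h1]
  rw [measure_iUnion]
  · intro i j hij
    exact ((disjoint_disjointed (fun n => U (c n))) hij).mono inter_subset_right inter_subset_right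
  · exact fun n => hA.inter (hd n)

omit [MeasurableSpace X] in
lemma B2_disj_sub (U : ι → Set X) (c : ℕ → ι) (A : Set X) (n : ℕ) :
    A ∩ disjointed (fun n => U (c n)) n ⊆ U (c n) :=
  inter_subset_right.trans (disjointed_subset _ n)

lemma B2_unique (m : ι → Measure X) (U : ι → Set X) (hU : ∀ i, MeasurableSet (U i)) (c : ℕ → ι)
    (hc : ⋃ n, U (c n) = univ) (μ : Measure X) (h : ∀ i, μ.restrict (U i) = m i) :
    μ = ⨆ i, m i := by
  apply le_antisymm
  · have hν : ∀ i, μ.restrict (U i) ≤ ⨆ i, m i := fun i => (h i).trans_le (le_iSup m i)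
    rw [Measure.le_iff]
    intro A hA
    rw [B2_decomp U hU c hc μ hA, B2_decomp U hU c hc (⨆ i, m i) hA]
    refine ENNReal.tsum_le_tsum fun n => ?_
    have hd : MeasurableSet (disjointed (fun n => U (c n)) n) :=
      MeasurableSet.disjointed (fun n => hU (c n)) n
    have h1 := (Measure.le_iff.1 (hν (c n))) (A ∩ disjointed (fun n => U (c n)) n) (hA.inter hd)
    rwa [Measure.restrict_apply (hA.inter hd),
      inter_eq_self_of_subset_left (B2_disj_sub U c A n)] at h1
  · exact iSup_le fun i => (h i).symm.trans_le Measure.restrict_le_self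

lemma B2_glue (m : ι → Measure X) (U : ι → Set X) (hU : ∀ i, MeasurableSet (U i)) (c : ℕ → ι)
    (hc : ⋃ n, U (c n) = univ) (hm : ∀ i, m i (U i)ᶜ = 0)
    (hcomp : ∀ i j, ∀ A, MeasurableSet A → A ⊆ U i → A ⊆ U j → m i A = m j A) (i : ι) :
    (⨆ i, m i).restrict (U i) = m i := by
  have hd : ∀ n, MeasurableSet (disjointed (fun n => U (c n)) n) :=
    fun n => MeasurableSet.disjointed (fun n => hU (c n)) n
  set μ₀ : Measure X := Measure.sum fun n => (m (c n)).restrict (disjointed (fun n => U (c n)) n)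
    with hμ₀
  have h1 : ∀ i, ∀ A, MeasurableSet A → A ⊆ U i → μ₀ A = m i A := by
    intro i A hA hAi
    rw [hμ₀, Measure.sum_apply _ hA, B2_decomp U hU c hc (m i) hA]
    refine tsum_congr fun n => ?_
    rw [Measure.restrict_apply hA]
    exact hcomp _ _ _ (hA.inter (hd n)) (B2_disj_sub U c A n) (inter_subset_left.trans hAi)
  have h2 : ∀ i, μ₀.restrict (U i) = m i := by
    intro i
    ext A hA
    rw [Measure.restrict_apply hA, h1 i _ (hA.inter (hU i)) inter_subset_right]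
    apply le_antisymm (measure_mono inter_subset_left)
    calc m i A ≤ m i ((A ∩ U i) ∪ (U i)ᶜ) := measure_mono fun x hx => by
          by_cases hx' : x ∈ U i
          · exact Or.inl ⟨hx, hx'⟩
          · exact Or.inr hx'
      _ ≤ m i (A ∩ U i) + m i (U i)ᶜ := measure_union_le _ _
      _ = m i (A ∩ U i) := by rw [hm i, add_zero]
  rw [← B2_unique m U hU c hc μ₀ h2]
  exact h2 i

end glue

/-! ## Measures given by densities in charts -/

section charts

variable {X : Type} [TopologicalSpace X] [MeasurableSpace X] [BorelSpace X]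

/-- The measure on the source of a chart with density `ρ`. -/
def B2_cm (psi : OpenPartialHomeomorph X E4) (ρ : E4 → ℝ≥0∞) : Measure X :=
  Measure.map psi.symm ((volume.restrict psi.target).withDensity ρ)

lemma B2_aemeas (psi : OpenPartialHomeomorph X E4) (ρ : E4 → ℝ≥0∞) :
    AEMeasurable psi.symm ((volume.restrict psi.target).withDensity ρ) :=
  (psi.continuousOn_symm.aemeasurable psi.open_target.measurableSet).mono_ac
    (withDensity_absolutelyContinuous _ _)

lemma B2_cm_apply (psi : OpenPartialHomeomorph X E4) (ρ : E4 → ℝ≥0∞) {A : Set X}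
    (hA : MeasurableSet A) : B2_cm psi ρ A = ∫⁻ y in psi.target ∩ psi.symm ⁻¹' A, ρ y := by
  unfold B2_cm
  rw [Measure.map_apply_of_aemeasurable (B2_aemeas psi ρ) hA, withDensity_apply',
    Measure.restrict_restrict' psi.open_target.measurableSet, inter_comm]

lemma B2_meas_inter (psi : OpenPartialHomeomorph X E4) {A : Set X} (hA : MeasurableSet A) :
    MeasurableSet (psi.target ∩ psi.symm ⁻¹' A) := by
  have h1 : Measurable (psi.target.domRestrict psi.symm) :=
    (continuousOn_iff_continuous_domRestrict.1 psi.continuousOn_symm).measurable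
  have h2 := (h1 hA).subtype_image (hs := psi.open_target.measurableSet)
  convert h2 using 1
  ext y
  simp [Set.domRestrict, and_comm]

lemma B2_cm_compl (psi : OpenPartialHomeomorph X E4) (ρ : E4 → ℝ≥0∞) :
    B2_cm psi ρ psi.sourceᶜ = 0 := by
  rw [B2_cm_apply psi ρ psi.open_source.measurableSet.compl]
  have : psi.target ∩ psi.symm ⁻¹' psi.sourceᶜ = ∅ := by
    ext y
    simp only [mem_inter_iff, mem_preimage, mem_compl_iff, mem_empty_iff_false, iff_false, not_and,
      not_not]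
    exact fun hy => psi.map_target hy
  rw [this]
  simp

lemma B2_cm_congr (psi : OpenPartialHomeomorph X E4) {ρ ρ' : E4 → ℝ≥0∞}
    (h : ∀ y ∈ psi.target, ρ y = ρ' y) : B2_cm psi ρ = B2_cm psi ρ' := by
  ext A hA
  rw [B2_cm_apply psi ρ hA, B2_cm_apply psi ρ' hA]
  exact setLIntegral_congr_fun (B2_meas_inter psi hA) fun y hy => h y hy.1

lemma B2_compat (psi psi' : OpenPartialHomeomorph X E4) (ρ ρ' : E4 → ℝ≥0∞)
    (hd : ∀ y ∈ (psi.symm.trans psi').source, DifferentiableAt ℝ (psi.symm.trans psi') y)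
    (hρ : ∀ y ∈ (psi.symm.trans psi').source, ρ y =
      ENNReal.ofReal |(fderiv ℝ (psi.symm.trans psi') y).det| * ρ' ((psi.symm.trans psi') y))
    {A : Set X} (hA : MeasurableSet A) (h1 : A ⊆ psi.source) (h2 : A ⊆ psi'.source) :
    B2_cm psi ρ A = B2_cm psi' ρ' A := by
  rw [B2_cm_apply _ _ hA, B2_cm_apply _ _ hA]
  have hsub : psi.target ∩ psi.symm ⁻¹' A ⊆ (psi.symm.trans psi').source := by
    intro y hy
    rw [OpenPartialHomeomorph.trans_source]
    exact ⟨hy.1, h2 hy.2⟩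
  have e : psi'.target ∩ psi'.symm ⁻¹' A =
      (psi.symm.trans psi') '' (psi.target ∩ psi.symm ⁻¹' A) := by
    ext z
    constructor
    · rintro ⟨hz, hz'⟩
      refine ⟨psi (psi'.symm z), ⟨psi.map_source (h1 hz'), ?_⟩, ?_⟩
      · simp only [mem_preimage]
        rwa [psi.left_inv (h1 hz')]
      · simp only [OpenPartialHomeomorph.coe_trans, Function.comp_apply]
        rw [psi.left_inv (h1 hz'), psi'.right_inv hz]
    · rintro ⟨y, hy, rfl⟩
      simp only [OpenPartialHomeomorph.coe_trans, Function.comp_apply]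
      refine ⟨psi'.map_source (h2 hy.2), ?_⟩
      simp only [mem_preimage]
      rw [psi'.left_inv (h2 hy.2)]
      exact hy.2
  rw [e, lintegral_image_eq_lintegral_abs_det_fderiv_mul volume (B2_meas_inter psi hA)
    (fun y hy => (hd y (hsub hy)).hasFDerivAt.hasFDerivWithinAt)
    ((psi.symm.trans psi').injOn.mono hsub)]
  exact setLIntegral_congr_fun (B2_meas_inter psi hA) fun y hy => hρ y (hsub hy)

end charts

/-! ## Smooth charts -/

section smooth

lemma B2_smooth_trans {X : Type} [TopologicalSpace X] [ChartedSpace E4 X] [IsManifold (𝓡 4) ∞ X]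
    {psi psi' : OpenPartialHomeomorph X E4} (h : psi ∈ SmCh X) (h' : psi' ∈ SmCh X) :
    ContDiffOn ℝ ∞ (psi.symm.trans psi') (psi.symm.trans psi').source := by
  have h1 := StructureGroupoid.compatible_of_mem_maximalAtlas h h'
  exact contMDiffOn_iff_contDiffOn.1 (contMDiffOn_of_mem_contDiffGroupoid h1)

lemma B2_diff_trans {X : Type} [TopologicalSpace X] [ChartedSpace E4 X] [IsManifold (𝓡 4) ∞ X]
    {psi psi' : OpenPartialHomeomorph X E4} (h : psi ∈ SmCh X) (h' : psi' ∈ SmCh X) {y : E4}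
    (hy : y ∈ (psi.symm.trans psi').source) : DifferentiableAt ℝ (psi.symm.trans psi') y :=
  ((B2_smooth_trans h h').differentiableOn (by simp)).differentiableAt
    ((psi.symm.trans psi').open_source.mem_nhds hy)

lemma B2_ch_mem {X : Type} [TopologicalSpace X] [ChartedSpace E4 X] [IsManifold (𝓡 4) ∞ X]
    (e : Ch X) : e.1 ∈ SmCh X :=
  IsManifold.subset_maximalAtlas e.2

/-- Determinant of a pulled back matrix. -/
lemma B2_det (L : E4 →L[ℝ] E4) (G G' : Matrix (Fin 4) (Fin 4) ℝ)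
    (h : ∀ i j, G i j = ∑ k, ∑ l, (L (bv i)) k * (L (bv j)) l * G' k l) :
    G.det = L.det ^ 2 * G'.det := by
  set b := (EuclideanSpace.basisFun (Fin 4) ℝ).toBasis with hb
  set J : Matrix (Fin 4) (Fin 4) ℝ := LinearMap.toMatrix b b (L : E4 →ₗ[ℝ] E4) with hJ
  have h1 : ∀ k i, J k i = (L (bv i)) k := by
    intro k i
    rw [hJ, LinearMap.toMatrix_apply]
    simp [hb, bv]
  have h2 : J.det = L.det := by
    rw [hJ, LinearMap.det_toMatrix]
  have h3 : G = J.transpose * G' * J := by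
    ext i j
    rw [h i j, Matrix.mul_apply]
    simp only [Matrix.mul_apply, Matrix.transpose_apply, h1, Finset.sum_mul]
    rw [Finset.sum_comm]
    refine Finset.sum_congr rfl fun l _ => Finset.sum_congr rfl fun k _ => ?_
    ring
  rw [h3, Matrix.det_mul, Matrix.det_mul, Matrix.det_transpose, h2]
  ring

/-- The countable cover by charts. -/
lemma B2_cover (X : Type) [TopologicalSpace X] [CompactSpace X] [ChartedSpace E4 X] [Nonempty X] :
    ∃ c : ℕ → Ch X, ⋃ n, (c n).1.source = univ := by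
  obtain ⟨s, hs, hsu⟩ := countable_cover_nhds_of_sigmaCompact
    (fun x : X => chart_source_mem_nhds E4 x)
  have hne : s.Nonempty := by
    rw [nonempty_iff_ne_empty]
    rintro rfl
    simp only [mem_empty_iff_false, iUnion_of_empty, iUnion_empty] at hsu
    exact empty_ne_univ hsu
  obtain ⟨f, hf⟩ := hs.exists_eq_range hne
  refine ⟨fun n => chAt (f n), ?_⟩
  rw [← hsu, hf, biUnion_range]
  rfl

/-- The density of the Riemannian measure in a smooth chart. -/
def B2_rho {X : Type} [TopologicalSpace X] [ChartedSpace E4 X] (g : Metric X)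
    (psi : OpenPartialHomeomorph X E4) (y : E4) : ℝ≥0∞ :=
  ENNReal.ofReal (Real.sqrt (g.mcoef psi y).det)

lemma B2_rho_trans (h1 : claimMcoef) {X : Type} [TopologicalSpace X] [ChartedSpace E4 X]
    [IsManifold (𝓡 4) ∞ X] (g : Metric X) {psi psi' : OpenPartialHomeomorph X E4}
    (h : psi ∈ SmCh X) (h' : psi' ∈ SmCh X) {y : E4} (hy : y ∈ (psi.symm.trans psi').source) :
    B2_rho g psi y = ENNReal.ofReal |(fderiv ℝ (psi.symm.trans psi') y).det| *
      B2_rho g psi' ((psi.symm.trans psi') y) := by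
  obtain ⟨-, -, -, h4⟩ := h1 X g psi h
  have h5 := B2_det (fderiv ℝ (psi.symm.trans psi') y) (g.mcoef psi y)
    (g.mcoef psi' ((psi.symm.trans psi') y)) (h4 psi' h' y hy)
  unfold B2_rho
  rw [h5, Real.sqrt_mul (sq_nonneg _), Real.sqrt_sq_eq_abs, ENNReal.ofReal_mul (abs_nonneg _)]

lemma B2_main (h1 : claimMcoef) {X : Type} [TopologicalSpace X] [CompactSpace X]
    [ChartedSpace E4 X] [IsManifold (𝓡 4) ∞ X] [MeasurableSpace X] [BorelSpace X] (g : Metric X)
    {psi : OpenPartialHomeomorph X E4} (h : psi ∈ SmCh X) :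
    g.vol.restrict psi.source = B2_cm psi (B2_rho g psi) := by
  rcases isEmpty_or_nonempty X with hX | hX
  · exact Subsingleton.elim _ _
  obtain ⟨c, hc⟩ := B2_cover X
  set m : SmCh X → Measure X := fun ψ => B2_cm ψ.1 (B2_rho g ψ.1) with hm
  set U : SmCh X → Set X := fun ψ => ψ.1.source with hU
  have hUm : ∀ ψ, MeasurableSet (U ψ) := fun ψ => ψ.1.open_source.measurableSet
  have hglue := B2_glue m U hUm (fun n => ⟨(c n).1, B2_ch_mem (c n)⟩) hc
    (fun ψ => B2_cm_compl ψ.1 _) (fun ψ ψ' A hA hA1 hA2 =>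
      B2_compat ψ.1 ψ'.1 _ _ (fun y hy => B2_diff_trans ψ.2 ψ'.2 hy)
        (fun y hy => B2_rho_trans h1 g ψ.2 ψ'.2 hy) hA hA1 hA2)
  have hvol : (⨆ ψ, m ψ) = g.vol := by
    refine B2_unique (fun e : Ch X => Measure.map e.1.symm
      ((volume.restrict e.1.target).withDensity
        (fun y => ENNReal.ofReal (Real.sqrt (g.coef e y).det)))) (fun e => e.1.source)
      (fun e => e.1.open_source.measurableSet) c hc _ fun e => ?_
    rw [hglue ⟨e.1, B2_ch_mem e⟩]
    refine B2_cm_congr e.1 fun y hy => ?_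
    unfold B2_rho
    rw [(h1 X g e.1 (B2_ch_mem e)).2.2.1 e y hy]
  rw [← hvol]
  exact hglue ⟨psi, h⟩

lemma B2_det_cont (h1 : claimMcoef) {X : Type} [TopologicalSpace X] [ChartedSpace E4 X]
    [IsManifold (𝓡 4) ∞ X] (g : Metric X) {psi : OpenPartialHomeomorph X E4} (h : psi ∈ SmCh X) :
    ContinuousOn (fun y => Real.sqrt (g.mcoef psi y).det) psi.target := by
  have h2 : ContinuousOn (fun y => g.mcoef psi y) psi.target :=
    continuousOn_pi.2 fun i => continuousOn_pi.2 fun j =>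
      ((h1 X g psi h).1 i j).continuousOn
  have h3 : Continuous fun M : Matrix (Fin 4) (Fin 4) ℝ => Real.sqrt M.det :=
    Real.continuous_sqrt.comp (Continuous.matrix_det continuous_id)
  exact h3.comp_continuousOn h2

lemma B2_det_pos (h1 : claimMcoef) {X : Type} [TopologicalSpace X] [ChartedSpace E4 X]
    [IsManifold (𝓡 4) ∞ X] (g : Metric X) {psi : OpenPartialHomeomorph X E4} (h : psi ∈ SmCh X)
    {y : E4} (hy : y ∈ psi.target) : 0 < Real.sqrt (g.mcoef psi y).det :=
  Real.sqrt_pos.2 ((h1 X g psi h).2.1 y hy).det_pos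

lemma B2_locfin (h1 : claimMcoef) {X : Type} [TopologicalSpace X] [CompactSpace X]
    [ChartedSpace E4 X] [IsManifold (𝓡 4) ∞ X] [MeasurableSpace X] [BorelSpace X]
    (g : Metric X) : IsLocallyFiniteMeasure g.vol := by
  refine ⟨fun x => ?_⟩
  have he := B2_ch_mem (chAt x)
  set e := (chAt x).1 with hedef
  have hx : x ∈ e.source := mem_chart_source E4 x
  obtain ⟨r, hr, hball⟩ := Metric.nhds_basis_closedBall.mem_iff.1
    (e.open_target.mem_nhds (e.map_source hx))
  set S := e.source ∩ e ⁻¹' Metric.ball (e x) r with hS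
  have hSo : IsOpen S := e.continuousOn.isOpen_inter_preimage e.open_source Metric.isOpen_ball
  refine ⟨S, hSo.mem_nhds ⟨hx, Metric.mem_ball_self hr⟩, ?_⟩
  have h2 : g.vol S = B2_cm e (B2_rho g e) S := by
    rw [← B2_main h1 g he, Measure.restrict_apply hSo.measurableSet,
      inter_eq_self_of_subset_left inter_subset_left]
  rw [h2, B2_cm_apply _ _ hSo.measurableSet]
  have h3 : e.target ∩ e.symm ⁻¹' S ⊆ Metric.closedBall (e x) r := by
    rintro y ⟨hy, hy'⟩
    have h4 := hy'.2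
    simp only [mem_preimage] at h4
    rw [e.right_inv hy] at h4
    exact Metric.ball_subset_closedBall h4
  obtain ⟨M, hM⟩ := (isCompact_closedBall (e x) r).exists_bound_of_continuousOn
    ((B2_det_cont h1 g he).mono hball)
  calc ∫⁻ y in e.target ∩ e.symm ⁻¹' S, B2_rho g e y
      ≤ ∫⁻ y in Metric.closedBall (e x) r, B2_rho g e y := lintegral_mono_set h3
    _ ≤ ∫⁻ y in Metric.closedBall (e x) r, ENNReal.ofReal M := by
        refine setLIntegral_mono' Metric.isClosed_closedBall.measurableSet fun y hy => ?_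
        exact ENNReal.ofReal_le_ofReal ((le_abs_self _).trans (hM y hy))
    _ = ENNReal.ofReal M * volume (Metric.closedBall (e x) r) := setLIntegral_const _ _
    _ < ⊤ := ENNReal.mul_lt_top ENNReal.ofReal_lt_top
        (isCompact_closedBall (e x) r).measure_lt_top

lemma B2_pos (h1 : claimMcoef) {X : Type} [TopologicalSpace X] [CompactSpace X]
    [ChartedSpace E4 X] [IsManifold (𝓡 4) ∞ X] [MeasurableSpace X] [BorelSpace X]
    (g : Metric X) {O : Set X} (hO : IsOpen O) (hne : O.Nonempty) : 0 < g.vol O := by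
  obtain ⟨x, hx⟩ := hne
  have he := B2_ch_mem (chAt x)
  set e := (chAt x).1 with hedef
  have hxe : x ∈ e.source := mem_chart_source E4 x
  have hSo : IsOpen (e.source ∩ O) := e.open_source.inter hO
  have h2 : g.vol (e.source ∩ O) = B2_cm e (B2_rho g e) (e.source ∩ O) := by
    rw [← B2_main h1 g he, Measure.restrict_apply hSo.measurableSet,
      inter_eq_self_of_subset_left inter_subset_left]
  refine lt_of_lt_of_le ?_ (measure_mono (inter_subset_right : e.source ∩ O ⊆ O))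
  rw [h2, B2_cm_apply _ _ hSo.measurableSet]
  set T := e.target ∩ e.symm ⁻¹' (e.source ∩ O) with hT
  have hTo : IsOpen T := e.continuousOn_symm.isOpen_inter_preimage e.open_target hSo
  have hTne : T.Nonempty := by
    refine ⟨e x, e.map_source hxe, ?_⟩
    simp only [mem_preimage]
    rw [e.left_inv hxe]
    exact ⟨hxe, hx⟩
  have hTv : 0 < volume T := hTo.measure_pos volume hTne
  rw [pos_iff_ne_zero]
  intro h0
  have hae : AEMeasurable (B2_rho g e) (volume.restrict T) := by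
    have := ((B2_det_cont h1 g he).mono (inter_subset_left : T ⊆ e.target)).aemeasurable
      (μ := volume) hTo.measurableSet
    exact this.ennreal_ofReal
  rw [lintegral_eq_zero_iff' hae] at h0
  have h3 : ∀ᵐ y ∂(volume.restrict T), y ∈ T := ae_restrict_mem hTo.measurableSet
  have h4 : ∀ᵐ y ∂(volume.restrict T), False := by
    filter_upwards [h0, h3] with y hy hyT
    have h5 := B2_det_pos h1 g he hyT.1
    have h6 : B2_rho g e y = 0 := hy
    unfold B2_rho at h6
    rw [ENNReal.ofReal_eq_zero] at h6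
    linarith
  rw [Filter.eventually_false_iff_eq_bot, ae_eq_bot, Measure.restrict_eq_zero] at h4
  exact hTv.ne' h4

lemma B2_integral (h1 : claimMcoef) {X : Type} [TopologicalSpace X] [CompactSpace X]
    [ChartedSpace E4 X] [IsManifold (𝓡 4) ∞ X] [MeasurableSpace X] [BorelSpace X]
    (g : Metric X) {psi : OpenPartialHomeomorph X E4} (h : psi ∈ SmCh X) (f : X → ℝ)
    (hf : ContinuousOn f psi.source) :
    ∫ x in psi.source, f x ∂g.vol =
      ∫ y in psi.target, Real.sqrt (g.mcoef psi y).det * f (psi.symm y) := by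
  have h2 : AEStronglyMeasurable f (g.vol.restrict psi.source) :=
    hf.aestronglyMeasurable psi.open_source.measurableSet
  rw [B2_main h1 g h] at h2 ⊢
  unfold B2_cm at h2 ⊢
  rw [integral_map (B2_aemeas psi _) h2]
  have h3 : AEMeasurable (B2_rho g psi) (volume.restrict psi.target) :=
    ((B2_det_cont h1 g h).aemeasurable psi.open_target.measurableSet).ennreal_ofReal
  rw [integral_withDensity_eq_integral_toReal_smul₀ h3
    (Filter.Eventually.of_forall fun y => ENNReal.ofReal_lt_top)]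
  refine integral_congr_ae (Filter.Eventually.of_forall fun y => ?_)
  simp only [B2_rho, ENNReal.toReal_ofReal (Real.sqrt_nonneg _), smul_eq_mul]

end smooth

/-- B2: the Riemannian measure in smooth charts. -/
theorem claimVol_proof (h1 : claimMcoef) : claimVol := by
  intro X _ _ _ _ _ _ _ g
  have hl := B2_locfin h1 g
  refine ⟨inferInstance, fun O hO hne => B2_pos h1 g hO hne, fun psi h => ⟨B2_main h1 g h, ?_⟩⟩
  intro f hf
  exact B2_integral h1 g h f hf

end NRF

end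
end

section

/-!
B4': rescaled charts.
-/

set_option autoImplicit false

open scoped Manifold ContDiff Topology
open MeasureTheory Set

namespace NRF

/-- The affine homeomorphism `y ↦ c⁻¹ (y - p)`. -/
noncomputable def B4p_A (c : ℝ) (hc : c ≠ 0) (p : E4) : E4 ≃ₜ E4 where
  toFun y := c⁻¹ • (y - p)
  invFun y := c • y + p
  left_inv y := by simp [smul_smul, mul_inv_cancel₀ hc]
  right_inv y := by simp [smul_smul, inv_mul_cancel₀ hc]
  continuous_toFun := by fun_prop
  continuous_invFun := by fun_prop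

theorem claimScaled_proof : claimScaled := by
  intro X _ _ _ psi hpsi x hx U hU hxU
  set e0 := psi.restrOpen U hU with he0
  have hp : psi x ∈ e0.target := by
    have : x ∈ e0.source := by
      rw [he0, OpenPartialHomeomorph.restrOpen_source]
      exact ⟨hx, hxU⟩
    exact e0.map_source this
  obtain ⟨δ, hδ, hδ2⟩ := Metric.isOpen_iff.1 e0.open_target _ hp
  set c : ℝ := δ / 4 with hcdef
  have hc : 0 < c := by positivity
  set A := B4p_A c hc.ne' (psi x) with hA
  set psi' := e0.transHomeomorph A with hpsi'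
  have hsrc : psi'.source = psi.source ∩ U := by
    show e0.source = _
    rw [he0, OpenPartialHomeomorph.restrOpen_source]
  have htgt : psi'.target = (fun y => c • y + psi x) ⁻¹' e0.target := rfl
  have hcoe : ∀ y, psi' y = c⁻¹ • (psi y - psi x) := fun y => rfl
  have hsym : ∀ y, psi'.symm y = psi.symm (c • y + psi x) := fun y => rfl
  have htgt0 : e0.target ⊆ psi.target := by
    intro y hy
    have h1 := e0.map_target hy
    rw [he0, OpenPartialHomeomorph.restrOpen_source] at h1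
    have h2 := psi.map_source h1.1
    have h3 : psi (e0.symm y) = y := e0.right_inv hy
    rwa [h3] at h2
  have h1 := contMDiffOn_of_mem_maximalAtlas (I := 𝓡 4) (n := ∞) hpsi
  have h2 := contMDiffOn_symm_of_mem_maximalAtlas (I := 𝓡 4) (n := ∞) hpsi
  have hA1' : ContDiff ℝ ∞ (fun y : E4 => c⁻¹ • (y - psi x)) := by fun_prop
  have hA2' : ContDiff ℝ ∞ (fun y : E4 => c • y + psi x) := by fun_prop
  have hA1 : ContMDiff (𝓡 4) (𝓡 4) ∞ (fun y : E4 => c⁻¹ • (y - psi x)) := hA1'.contMDiff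
  have hA2 : ContMDiff (𝓡 4) (𝓡 4) ∞ (fun y : E4 => c • y + psi x) := hA2'.contMDiff
  refine ⟨c, psi', hc, ?_, ?_, ?_, fun y _ => hcoe y, ?_, ?_, ?_⟩
  · refine OpenPartialHomeomorph.mem_maximalAtlas_of_contMDiffOn (I := 𝓡 4) (n := ∞) psi' ?_ ?_
    · refine (hA1.comp_contMDiffOn (h1.mono ?_)).congr fun y _ => hcoe y
      rw [hsrc]
      exact inter_subset_left
    · refine (h2.comp hA2.contMDiffOn (s := psi'.target) ?_).congr fun y _ => hsym y
      intro y hy
      rw [htgt] at hy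
      exact htgt0 hy
  · rw [hsrc]
    exact ⟨hx, hxU⟩
  · rw [hsrc]
  · rw [hcoe, sub_self, smul_zero]
  · intro y hy
    rw [htgt, mem_preimage]
    apply hδ2
    rw [Metric.mem_ball, dist_eq_norm, add_sub_cancel_right, norm_smul,
      Real.norm_of_nonneg hc.le]
    rw [Metric.mem_closedBall, dist_zero_right] at hy
    have : c * ‖y‖ ≤ c * 3 := by gcongr
    rw [hcdef] at this ⊢
    linarith
  · intro hpos e y hy
    have hy1 : c • y + psi x ∈ (psi.symm.trans e.1).source := by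
      rw [OpenPartialHomeomorph.trans_source] at hy ⊢
      obtain ⟨hy1, hy2⟩ := hy
      refine ⟨?_, ?_⟩
      · have : y ∈ psi'.target := hy1
        rw [htgt] at this
        exact htgt0 this
      · exact hy2
    have h3 := hpos e _ hy1
    have hd : DifferentiableAt ℝ (psi.symm.trans e.1) (c • y + psi x) := by
      by_contra hcon
      rw [fderiv_zero_of_not_differentiableAt hcon] at h3
      have h4 : (0 : E4 →L[ℝ] E4).det = 0 := by
        rw [ContinuousLinearMap.det, ContinuousLinearMap.toLinearMap_zero, LinearMap.det_zero]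
        simp
      rw [h4] at h3
      exact lt_irrefl _ h3
    have h5 : HasFDerivAt (fun y : E4 => c • y + psi x) (c • ContinuousLinearMap.id ℝ E4) y :=
      ((hasFDerivAt_id y).const_smul c).add_const (psi x)
    have h6 := (hd.hasFDerivAt.comp y h5).fderiv
    have h7 : (psi'.symm.trans e.1 : E4 → E4) =
        (psi.symm.trans e.1 : E4 → E4) ∘ fun y => c • y + psi x := rfl
    rw [h7, h6]
    have h8 : ((fderiv ℝ (psi.symm.trans e.1) (c • y + psi x)).comp
        (c • ContinuousLinearMap.id ℝ E4)).det =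
        c ^ 4 * (fderiv ℝ (psi.symm.trans e.1) (c • y + psi x)).det := by
      have h9 : (fderiv ℝ (psi.symm.trans e.1) (c • y + psi x)).comp
          (c • ContinuousLinearMap.id ℝ E4) =
          c • fderiv ℝ (psi.symm.trans e.1) (c • y + psi x) := by
        ext v
        simp
      rw [h9, ContinuousLinearMap.det, ContinuousLinearMap.toLinearMap_smul, LinearMap.det_smul]
      simp
    rw [h8]
    positivity

end NRF

end

section

/-!
# B5: extension of local coefficients to a model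
-/

open scoped Manifold ContDiff Topology
open MeasureTheory Set

noncomputable section

namespace NRF

namespace B5

/-- The cutoff: 1 for `‖x‖ ≤ 5/2`, 0 for `‖x‖ ≥ 11/4`. -/
def kap : ContDiffBump (0 : E4) := ⟨5 / 2, 11 / 4, by norm_num, by norm_num⟩

theorem kap_one {x : E4} (hx : x ∈ Metric.ball (0 : E4) (5 / 2)) : kap x = 1 :=
  kap.one_of_mem_closedBall (Metric.ball_subset_closedBall hx)

theorem kap_zero {x : E4} (hx : 11 / 4 ≤ ‖x‖) : kap x = 0 :=
  kap.zero_of_le_dist (by rw [dist_zero_right]; exact hx)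

theorem kap_le (x : E4) : kap x ≤ 1 := kap.le_one

theorem kap_nonneg (x : E4) : 0 ≤ kap x := kap.nonneg

/-- Multiplication by the cutoff makes a locally smooth function smooth. -/
theorem smooth_ext {F : Type*} [NormedAddCommGroup F] [NormedSpace ℝ F] {O : Set E4}
    (hO : IsOpen O) (hb : Metric.closedBall 0 3 ⊆ O) {f : ℝ × E4 → F}
    (hf : ContDiffOn ℝ ∞ f (univ ×ˢ O)) : ContDiff ℝ ∞ (fun q : ℝ × E4 => kap q.2 • f q) := by
  rw [contDiff_iff_contDiffAt]
  intro q
  by_cases hq : q.2 ∈ O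
  · have h1 : ContDiffAt ℝ ∞ f q :=
      hf.contDiffAt ((isOpen_univ.prod hO).mem_nhds ⟨mem_univ _, hq⟩)
    have h2 : ContDiffAt ℝ ∞ (fun q : ℝ × E4 => kap q.2) q :=
      (kap.contDiff.comp contDiff_snd).contDiffAt
    exact h2.smul h1
  · have hn : 3 < ‖q.2‖ := by
      by_contra hcon
      exact hq (hb (by simpa using not_lt.1 hcon))
    have h3 : ∀ᶠ p : ℝ × E4 in 𝓝 q, 11 / 4 < ‖p.2‖ :=
      (continuous_snd.norm.continuousAt).eventually (lt_mem_nhds (by linarith))
    have h4 : (fun q : ℝ × E4 => kap q.2 • f q) =ᶠ[𝓝 q] fun _ => 0 := by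
      filter_upwards [h3] with p hp
      rw [kap_zero hp.le, zero_smul]
    exact contDiffAt_const.congr_of_eventuallyEq h4

theorem posDef_mix {a : Matrix (Fin 4) (Fin 4) ℝ} {k : ℝ} (h0 : 0 < k) (h1 : k ≤ 1)
    (ha : a.PosDef) : (k • a + (1 - k) • (1 : Matrix (Fin 4) (Fin 4) ℝ)).PosDef :=
  (ha.smul h0).add_posSemidef (Matrix.PosSemidef.one.smul (by linarith))

end B5

open B5 in
theorem claimModelExt_proof : claimModelExt := by
  intro V _ _ _ O a b c chi hO hb ha hbs hc hpos hchi hchi0 hchi1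
  have hin : ∀ x : E4, ‖x‖ < 11 / 4 → x ∈ O := fun x hx =>
    hb (by rw [mem_closedBall_zero_iff]; linarith)
  refine ⟨{ a := fun q => kap q.2 • a q + (1 - kap q.2) • 1
            b := fun q i => kap q.2 • b q i
            c := fun q => kap q.2 • c q
            chi := chi
            a_smooth := ?_, b_smooth := ?_, c_smooth := ?_, chi_smooth := hchi
            a_pos := ?_, a_out := ?_, b_out := ?_, c_out := ?_
            chi_nonneg := hchi0, chi_supp := hchi1 }, rfl, ?_⟩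
  · intro i j
    have h1 : ContDiff ℝ ∞ (fun q : ℝ × E4 => kap q.2 • a q i j) := smooth_ext hO hb (ha i j)
    have h2 : ContDiff ℝ ∞ (fun q : ℝ × E4 =>
        (1 - kap q.2) * (1 : Matrix (Fin 4) (Fin 4) ℝ) i j) :=
      (contDiff_const.sub (kap.contDiff.comp contDiff_snd)).mul contDiff_const
    exact h1.add h2
  · intro i
    exact smooth_ext hO hb (hbs i)
  · exact smooth_ext hO hb hc
  · intro q
    by_cases h : 11 / 4 ≤ ‖q.2‖
    · simp only [kap_zero h, zero_smul, sub_zero, one_smul, zero_add]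
      exact Matrix.PosDef.one
    · push Not at h
      have hk : 0 < kap q.2 := by
        have : q.2 ∈ Function.support kap := by
          rw [kap.support_eq, mem_ball_zero_iff]
          exact h
        exact lt_of_le_of_ne (kap_nonneg _) (Ne.symm this)
      exact posDef_mix hk (kap_le _) (hpos q.1 q.2 (hin _ h))
  · intro q hq
    simp only [kap_zero (show 11 / 4 ≤ ‖q.2‖ by linarith), zero_smul, sub_zero, one_smul, zero_add]
  · intro q hq i
    simp only [kap_zero (show 11 / 4 ≤ ‖q.2‖ by linarith), zero_smul]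
  · intro q hq
    simp only [kap_zero (show 11 / 4 ≤ ‖q.2‖ by linarith), zero_smul]
  · intro t x hx
    refine ⟨?_, ?_, ?_⟩
    · simp only [kap_one hx, one_smul, sub_self, zero_smul, add_zero]
    · funext i
      simp only [kap_one hx, one_smul]
    · simp only [kap_one hx, one_smul]

end NRF

end
end

section

/-!
B7: Euclidean divergence theorem for compactly supported `C¹` fields.
-/

set_option autoImplicit false

open MeasureTheory Set
open scoped ContDiff Manifold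

namespace NRF

theorem B7_zero {f : E4 → ℝ} (hf : ContDiff ℝ 1 f) (hc : HasCompactSupport f) (v : E4) :
    ∫ x, fderiv ℝ f x v = 0 := by
  have hcont : Continuous (fun x => fderiv ℝ f x v) :=
    (hf.continuous_fderiv (by norm_num)).clm_apply continuous_const
  have hcs : HasCompactSupport (fun x => fderiv ℝ f x v) :=
    (hc.fderiv (𝕜 := ℝ)).mono (fun x hx => by
      intro h0
      apply hx
      simp [h0])
  have hi := hcont.integrable_of_hasCompactSupport (μ := volume) hcs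
  have h := integral_mul_fderiv_eq_neg_fderiv_mul_of_integrable (μ := volume)
    (f := fun _ : E4 => (1 : ℝ)) (g := f) (v := v) (by simp) (by simpa using hi)
    (by simpa using hf.continuous.integrable_of_hasCompactSupport (μ := volume) hc)
    (fun x _ => differentiableAt_const _) (fun x _ => hf.differentiable (by norm_num) x)
  simpa using h

theorem claimDiv0_proof : claimDiv0 := by
  intro W hW hc
  have h1 : ∀ i : Fin 4, Integrable (fun x => pd i (W i) x) volume := by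
    intro i
    have hcont : Continuous (fun x => fderiv ℝ (W i) x (EuclideanSpace.single i 1)) :=
      ((hW i).continuous_fderiv (by norm_num)).clm_apply continuous_const
    have hcs : HasCompactSupport (fun x => fderiv ℝ (W i) x (EuclideanSpace.single i 1)) :=
      ((hc i).fderiv (𝕜 := ℝ)).mono (fun x hx => by
        intro h0
        apply hx
        simp [h0])
    exact hcont.integrable_of_hasCompactSupport hcs
  rw [integral_finsetSum _ fun i _ => h1 i]
  exact Finset.sum_eq_zero fun i _ => B7_zero (hW i) (hc i) _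

end NRF

end

section

/-!
B8: continuity and finiteness facts.
-/

set_option autoImplicit false

open scoped Manifold ContDiff Topology
open MeasureTheory Set

namespace NRF

theorem claimBasicOf_proof : claimBasicOf := by
  intro hs hv X _ _ _ _ _ _ _ _ _ g
  obtain ⟨-, h1, h2⟩ := hs X g
  obtain ⟨h3, h4, -⟩ := hv X g
  refine ⟨h1, h2, h3, ?_⟩
  exact ENNReal.toReal_pos (h4 univ isOpen_univ univ_nonempty).ne' (measure_ne_top _ _)

end NRF

end

section

/-!
# C11: uniqueness for the scalar equation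
-/

open scoped Manifold ContDiff Topology
open MeasureTheory Set Filter

noncomputable section

namespace NRF

/-- The operator of a scalar model without zeroth order term is homogeneous. -/
theorem C11_op_mul (m : Model ℝ) (hc : ∀ q, m.c q = 0) (t : ℝ) {u : E4 → ℝ} {x : E4}
    (hu : ContDiffAt ℝ 2 u x) (σ : ℝ) :
    m.op t (fun z => σ * u z) x = σ * m.op t u x := by
  have ed : ∀ᶠ z in 𝓝 x, ContDiffAt ℝ 2 u z := hu.eventually (by simp)
  have hd : ∀ z, ContDiffAt ℝ 2 u z →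
      HasFDerivAt (fun z => σ * u z) (σ • fderiv ℝ u z) z := fun z hz =>
    ((hz.differentiableAt (by norm_num)).hasFDerivAt).const_mul σ
  have hσu : ContDiffAt ℝ 2 (fun z => σ * u z) x := contDiffAt_const.mul hu
  have e1 : ∀ k, pd k (fun z => σ * u z) x = σ * pd k u x := by
    intro k
    unfold pd
    rw [(hd x hu).fderiv]
    simp
  have e2 : ∀ k l, pd k (pd l fun z => σ * u z) x = σ * pd k (pd l u) x := by
    intro k l
    rw [C10_pd_pd hσu, C10_pd_pd hu]
    have h1 : fderiv ℝ (fun z => σ * u z) =ᶠ[𝓝 x] fun z => σ • fderiv ℝ u z := by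
      filter_upwards [ed] with z hz
      exact (hd z hz).fderiv
    rw [h1.fderiv_eq]
    have b1 : DifferentiableAt ℝ (fderiv ℝ u) x :=
      (hu.fderiv_right (m := 1) (by norm_num)).differentiableAt (by norm_num)
    have b3 : HasFDerivAt (fun z => σ • fderiv ℝ u z)
        (σ • fderiv ℝ (fderiv ℝ u) x) x := b1.hasFDerivAt.const_smul σ
    rw [b3.fderiv]
    simp
  unfold Model.op
  simp only [e1, e2, hc, zero_apply, smul_eq_mul, add_zero]
  have e3 : ∀ (L : ℝ →L[ℝ] ℝ) (s : ℝ), L (σ * s) = σ * L s := by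
    intro L s
    have := L.map_smul σ s
    simpa using this
  simp only [e3]
  have e4 : ∑ i, ∑ j, m.a (t, x) i j * (σ * pd i (pd j u) x) =
      σ * ∑ i, ∑ j, m.a (t, x) i j * pd i (pd j u) x := by
    simp only [Finset.mul_sum]
    refine Finset.sum_congr rfl fun k _ => Finset.sum_congr rfl fun l _ => ?_
    ring
  rw [e4, ← Finset.mul_sum]
  ring

theorem claimUniq_proof (hM : claimMax) : claimUniq := by
  intro Y _ _ g hc T C hT U hN hS
  -- the cutoff is one on the ball of radius 3/2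
  have heta : ∀ x : E4, ‖x‖ ≤ 3 / 2 → etaC x = 1 := fun x hx => etaBump.one_of_mem_closedBall (by
    rw [mem_closedBall_zero_iff]; exact hx)
  obtain ⟨u, hu⟩ : ∃ u : g.I → ℝ → E4 → ℝ, u = fun i t z => U t ((g.psi i).symm z) := ⟨_, rfl⟩
  obtain ⟨v, hv⟩ : ∃ v : g.I → ℝ → E4 → ℝ, v = fun i t z => etaC z • U t ((g.psi i).symm z) :=
    ⟨_, rfl⟩
  have hNv : ∀ i, NiceE 2 T C (v i) := by rw [hv]; exact hN
  clear hN
  have hvu : ∀ i t x, ‖x‖ < 3 / 2 → v i t =ᶠ[𝓝 x] u i t := by
    intro i t x hx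
    have h1 : Metric.ball (0 : E4) (3 / 2) ∈ 𝓝 x :=
      Metric.isOpen_ball.mem_nhds (by simpa using hx)
    filter_upwards [h1] with z hz
    simp only [hv, hu]
    rw [heta z (le_of_lt (by simpa using hz)), one_smul]
  have hcd : ∀ i, ∀ t ∈ Icc 0 T, ∀ x, ‖x‖ < 3 / 2 → ContDiffAt ℝ 2 (u i t) x := by
    intro i t ht x hx
    exact (((hNv i).1 t ht).contDiffAt).congr_of_eventuallyEq (hvu i t x hx).symm
  -- every point is in a good chart
  have hchart : ∀ y : Y, ∃ (i : g.I) (x : E4), ‖x‖ < 1 ∧ (g.psi i).symm x = y := by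
    intro y
    obtain ⟨i, hi⟩ : ∃ i, (g.psi i).source.indicator
        (fun y => (g.model (g.mod i)).chi (g.psi i y)) y ≠ 0 := by
      by_contra hne
      push Not at hne
      have h2 := g.part y
      rw [finsum_congr hne, finsum_zero] at h2
      exact zero_ne_one h2
    have hi1 : y ∈ (g.psi i).source := by
      by_contra h
      exact hi (Set.indicator_of_notMem h _)
    refine ⟨i, g.psi i y, ?_, (g.psi i).left_inv hi1⟩
    by_contra h
    apply hi
    rw [Set.indicator_of_mem hi1]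
    exact (g.model (g.mod i)).chi_supp _ (not_lt.1 h)
  have hbound : ∀ t ∈ Icc 0 T, ∀ y, |U t y| ≤ C := by
    intro t ht y
    obtain ⟨i, x, hx, rfl⟩ := hchart y
    have h1 := (hNv i).2.2 0 (by norm_num) t ht x
    rw [norm_iteratedFDeriv_zero, hv] at h1
    simp only [heta x (by linarith), one_smul] at h1
    exact h1
  have hcont : ∀ i, ContinuousOn (fun p : ℝ × E4 => u i p.1 p.2)
      (Icc 0 T ×ˢ Metric.ball 0 (3 / 2)) := by
    intro i
    have h1 : ContinuousOn (fun p : ℝ × E4 => v i p.1 p.2) (Icc 0 T ×ˢ univ) := by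
      have h2 := (hNv i).2.1 0 (by norm_num)
      have h3 := (continuousMultilinearCurryFin0 ℝ E4 ℝ).continuous.comp_continuousOn h2
      refine h3.congr fun p _ => ?_
      simp [iteratedFDeriv_zero_eq_comp]
    refine (h1.mono (Set.prod_mono (Subset.refl _) (subset_univ _))).congr fun p hp => ?_
    exact ((hvu i p.1 p.2 (by simpa using hp.2)).self_of_nhds).symm
  -- continuity of the integrand
  have hF : ∀ i, ∀ x : E4, ‖x‖ < 3 / 2 →
      ContinuousOn (fun τ => (g.mdl i).op τ (u i τ) x) (Icc 0 T) := by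
    intro i x hx
    have h3 : ContinuousOn (fun τ : ℝ => (τ, x)) (Icc 0 T) := by fun_prop
    have hmt : MapsTo (fun τ : ℝ => (τ, x)) (Icc 0 T) (Icc 0 T ×ˢ univ) :=
      fun τ hτ => mk_mem_prod hτ (mem_univ _)
    have k1 : ContinuousOn (fun τ : ℝ => iteratedFDeriv ℝ 1 (v i τ) x) (Icc 0 T) :=
      ContinuousOn.comp (g := fun p : ℝ × E4 => iteratedFDeriv ℝ 1 (v i p.1) p.2)
        (f := fun τ : ℝ => (τ, x)) ((hNv i).2.1 1 (by norm_num)) h3 hmt
    have k2 : ContinuousOn (fun τ : ℝ => iteratedFDeriv ℝ 2 (v i τ) x) (Icc 0 T) :=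
      ContinuousOn.comp (g := fun p : ℝ × E4 => iteratedFDeriv ℝ 2 (v i p.1) p.2)
        (f := fun τ : ℝ => (τ, x)) ((hNv i).2.1 2 (by norm_num)) h3 hmt
    have e1 : ∀ τ ∈ Icc 0 T, ∀ k, pd k (u i τ) x = iteratedFDeriv ℝ 1 (v i τ) x ![bv k] := by
      intro τ _ k
      rw [iteratedFDeriv_one_apply]
      unfold pd
      rw [(hvu i τ x hx).fderiv_eq]
      rfl
    have e2 : ∀ τ ∈ Icc 0 T, ∀ k l, pd k (pd l (u i τ)) x =
        iteratedFDeriv ℝ 2 (v i τ) x ![bv k, bv l] := by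
      intro τ hτ k l
      rw [C10_pd_pd (hcd i τ hτ x hx), iteratedFDeriv_two_apply, (hvu i τ x hx).fderiv.fderiv_eq]
      rfl
    have hsl : Continuous fun τ : ℝ => (τ, x) := by fun_prop
    have ha : ∀ k l, Continuous fun τ : ℝ => (g.mdl i).a (τ, x) k l := fun k l =>
      ((g.mdl i).a_smooth k l).continuous.comp hsl
    have hb : ∀ k, Continuous fun τ : ℝ => (g.mdl i).b (τ, x) k := fun k =>
      ((g.mdl i).b_smooth k).continuous.comp hsl
    have h5 : ContinuousOn (fun τ => -(∑ k, ∑ l, (g.mdl i).a (τ, x) k l *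
        iteratedFDeriv ℝ 2 (v i τ) x ![bv k, bv l]) +
        ∑ k, (g.mdl i).b (τ, x) k (iteratedFDeriv ℝ 1 (v i τ) x ![bv k])) (Icc 0 T) := by
      refine ContinuousOn.add (ContinuousOn.neg ?_) ?_
      · refine continuousOn_finsetSum _ fun k _ => continuousOn_finsetSum _ fun l _ => ?_
        refine (ha k l).continuousOn.mul ?_
        exact (ContinuousMultilinearMap.apply ℝ (fun _ : Fin 2 => E4) ℝ
          ![bv k, bv l]).continuous.comp_continuousOn k2
      · refine continuousOn_finsetSum _ fun k _ => ?_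
        refine (hb k).continuousOn.clm_apply ?_
        exact (ContinuousMultilinearMap.apply ℝ (fun _ : Fin 1 => E4) ℝ
          ![bv k]).continuous.comp_continuousOn k1
    refine h5.congr fun τ hτ => ?_
    unfold Model.op
    simp only [e1 τ hτ, e2 τ hτ, hc, zero_apply, smul_eq_mul, add_zero]
  -- the time derivative
  have hder : ∀ i, ∀ t ∈ Ioc 0 T, ∀ x : E4, ‖x‖ < 3 / 2 →
      HasDerivWithinAt (fun s => u i s x) (-(g.mdl i).op t (u i t) x) (Iic t) t := by
    intro i t ht x hx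
    set F : ℝ → ℝ := fun τ => -(g.mdl i).op τ (u i τ) x with hFd
    have hFc : ContinuousOn F (Icc 0 T) := (hF i x hx).neg
    have h1 : IntervalIntegrable F volume 0 t :=
      (hFc.mono (by rw [uIcc_of_le ht.1.le]; exact Icc_subset_Icc_right ht.2)).intervalIntegrable
    have hnh : Icc 0 T ∈ 𝓝[Iic t] t := by
      rw [mem_nhdsWithin]
      refine ⟨Ioi 0, isOpen_Ioi, ht.1, ?_⟩
      rintro s ⟨h1, h2⟩
      exact ⟨le_of_lt h1, le_trans h2 ht.2⟩
    have h2 : ContinuousWithinAt F (Iic t) t :=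
      (hFc t ⟨ht.1.le, ht.2⟩).mono_of_mem_nhdsWithin hnh
    have h3 : StronglyMeasurableAtFilter F (𝓝[Iic t] t) volume :=
      ⟨Icc 0 T, hnh, hFc.aestronglyMeasurable measurableSet_Icc⟩
    have h4 := intervalIntegral.integral_hasDerivWithinAt_right (s := Iic t) h1 h3 h2
    refine h4.congr_of_eventuallyEq ?_ ?_
    · filter_upwards [hnh] with s hs
      have := hS i s hs x hx
      simp only [hu]
      rw [this]
      simp [hFd, hu]
    · have := hS i t ⟨ht.1.le, ht.2⟩ x hx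
      simp only [hu]
      rw [this]
      simp [hFd, hu]
  have h0 : ∀ y, U 0 y = 0 := by
    intro y
    obtain ⟨i, x, hx, rfl⟩ := hchart y
    have := hS i 0 ⟨le_rfl, hT.le⟩ x (by linarith)
    simpa using this
  -- both signs
  subst hu
  have key : ∀ σ : ℝ, ∀ t ∈ Icc 0 T, ∀ y, σ * U t y ≤ 0 := by
    intro σ
    refine hM Y g hc T hT (fun t y => σ * U t y) (|σ| * C) 0 ?_ ?_ ?_ ?_
    · intro t ht y
      refine (le_abs_self _).trans ?_
      rw [abs_mul]
      exact mul_le_mul_of_nonneg_left (hbound t ht y) (abs_nonneg _)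
    · intro i
      exact continuousOn_const.mul (hcont i)
    · intro i t ht x hx
      have hx' : ‖x‖ < 3 / 2 := by simpa using hx
      have hcdx := hcd i t ⟨ht.1.le, ht.2⟩ x hx'
      refine ⟨contDiffAt_const.mul hcdx,
        σ * -(g.mdl i).op t (fun z => U t ((g.psi i).symm z)) x,
        (hder i t ht x hx').const_mul σ, ?_⟩
      have h9 := C11_op_mul (g.mdl i) (hc i) t hcdx σ
      simp only at h9 ⊢
      rw [h9]
      linarith
    · intro y
      simp [h0]
  intro t ht y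
  have h1 := key 1 t ht y
  have h2 := key (-1) t ht y
  linarith

end NRF

end
end

section

/-!
# C4b: Gaussians
-/

open scoped Manifold ContDiff Topology
open MeasureTheory Set

noncomputable section

namespace NRF

/-- `exp (-c t² / 4)` beats powers. -/
theorem C4b_exp_bound {c : ℝ} (hc : 0 < c) (M : ℕ) {t : ℝ} (ht : 0 ≤ t) :
    Real.exp (-(c * t ^ 2) / 4) * (1 + t) ^ M ≤ M.factorial * Real.exp (1 + 1 / c) := by
  have h1 : (1 + t) ^ M ≤ M.factorial * Real.exp (1 + t) := by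
    have := Real.pow_div_factorial_le_exp (x := 1 + t) (by linarith) M
    rw [div_le_iff₀ (by positivity)] at this
    linarith
  have h2 : -(c * t ^ 2) / 4 + (1 + t) ≤ 1 + 1 / c := by
    have h3 : 0 ≤ (c * t / 2 - 1) ^ 2 / c := by positivity
    have h4 : (c * t / 2 - 1) ^ 2 / c = c * t ^ 2 / 4 - t + 1 / c := by
      field_simp
      ring
    rw [h4] at h3
    linarith
  calc Real.exp (-(c * t ^ 2) / 4) * (1 + t) ^ M
      ≤ Real.exp (-(c * t ^ 2) / 4) * (M.factorial * Real.exp (1 + t)) :=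
        mul_le_mul_of_nonneg_left h1 (Real.exp_pos _).le
    _ = M.factorial * Real.exp (-(c * t ^ 2) / 4 + (1 + t)) := by
        rw [Real.exp_add (-(c * t ^ 2) / 4) (1 + t), mul_left_comm]
    _ ≤ _ := mul_le_mul_of_nonneg_left (Real.exp_le_exp.2 h2) (by positivity)

/-- The exponential of a function in `PG` that tends to `-∞` quadratically is in `RD`. -/
theorem C4b_rd_exp {f : KP → ℝ} (hf : PG f)
    (hlow : ∀ T : ℝ, ∃ c > 0, ∀ (s r : ℝ) (y z : E4), |s| ≤ T → |r| ≤ T → ‖y‖ ≤ T →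
      f (s, r, y, z) ≤ -(c * ‖z‖ ^ 2) / 4) :
    RD fun q => Real.exp (f q) := by
  have hsm : ContDiff ℝ ∞ fun q => Real.exp (f q) := Real.contDiff_exp.comp hf.1
  refine ⟨hsm, fun k => ?_⟩
  induction k using Nat.strong_induction_on with
  | _ k ih =>
    intro M T
    rcases k with _ | k
    · obtain ⟨c, hc, hb⟩ := hlow T
      refine ⟨M.factorial * Real.exp (1 + 1 / c), fun s r y z hs hr hy => ?_⟩
      rw [norm_iteratedFDeriv_zero, Real.norm_eq_abs, Real.abs_exp]
      exact (mul_le_mul_of_nonneg_right (Real.exp_le_exp.2 (hb s r y z hs hr hy))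
        (by positivity)).trans (C4b_exp_bound hc M (norm_nonneg z))
    · have hfd : (fderiv ℝ fun q => Real.exp (f q)) = fun q => Real.exp (f q) • fderiv ℝ f q := by
        funext q
        exact ((hf.1.differentiable (by simp) q).hasFDerivAt.exp).fderiv
      obtain ⟨C, N, hC0, hC⟩ := hf.fderiv.unif k T
      choose D hD using fun i : Fin (k + 1) => ih i.1 i.2 (N + M) T
      refine ⟨∑ i : Fin (k + 1), (k.choose i : ℝ) * |D i| * C, fun s r y z hs hr hy => ?_⟩
      rw [← norm_iteratedFDeriv_fderiv, hfd]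
      have h1 : ‖iteratedFDeriv ℝ k (fun q => Real.exp (f q) • fderiv ℝ f q) (s, r, y, z)‖ ≤
        ∑ i ∈ Finset.range (k + 1), (k.choose i : ℝ) *
          ‖iteratedFDeriv ℝ i (fun q => Real.exp (f q)) (s, r, y, z)‖ *
          ‖iteratedFDeriv ℝ (k - i) (fun q => fderiv ℝ f q) (s, r, y, z)‖ :=
        norm_iteratedFDeriv_smul_le hsm hf.fderiv.1 (s, r, y, z) (by exact_mod_cast le_top)
      refine (mul_le_mul_of_nonneg_right h1 (by positivity)).trans ?_
      rw [Finset.sum_mul, Finset.sum_range]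
      refine Finset.sum_le_sum fun i _ => ?_
      have a1 := (hD i s r y z hs hr hy).trans (le_abs_self _)
      have a2 := hC (k - i) (by omega) s r y z hs hr hy
      calc (k.choose i : ℝ) * ‖iteratedFDeriv ℝ i (fun q => Real.exp (f q)) (s, r, y, z)‖ *
            ‖iteratedFDeriv ℝ (k - i) (fun q => fderiv ℝ f q) (s, r, y, z)‖ * (1 + ‖z‖) ^ M
          ≤ (k.choose i : ℝ) * ‖iteratedFDeriv ℝ i (fun q => Real.exp (f q)) (s, r, y, z)‖ *
            (C * (1 + ‖z‖) ^ N) * (1 + ‖z‖) ^ M := by gcongr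
        _ = (k.choose i : ℝ) * (‖iteratedFDeriv ℝ i (fun q => Real.exp (f q)) (s, r, y, z)‖ *
            (1 + ‖z‖) ^ (N + M)) * C := by
            rw [pow_add]
            ring
        _ ≤ (k.choose i : ℝ) * |D i| * C := by gcongr

/-- The quadratic form of a positive definite matrix is positive. -/
theorem C4b_pos {A : Matrix (Fin 4) (Fin 4) ℝ} (hA : A.PosDef) {z : E4} (hz : z ≠ 0) :
    0 < ∑ i, ∑ j, A i j * z i * z j := by
  have hz' : z.ofLp ≠ 0 := by
    intro h
    apply hz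
    ext i
    have := congrFun h i
    simpa using this
  have h1 := hA.re_dotProduct_pos hz'
  simp only [star_trivial, RCLike.re_to_real] at h1
  convert h1 using 1
  simp only [dotProduct, Matrix.mulVec, Finset.mul_sum]
  refine Finset.sum_congr rfl fun i _ => Finset.sum_congr rfl fun j _ => ?_
  ring

/-- Uniform ellipticity on compact sets. -/
theorem C4b_ell {A : ℝ × E4 → Matrix (Fin 4) (Fin 4) ℝ}
    (hA : ∀ i j, Continuous fun q => A q i j) (hpos : ∀ q, (A q).PosDef) (T : ℝ) :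
    ∃ c > 0, ∀ (s : ℝ) (y z : E4), |s| ≤ T → ‖y‖ ≤ T →
      c * ‖z‖ ^ 2 ≤ ∑ i, ∑ j, A (s, y) i j * z i * z j := by
  set K : Set ((ℝ × E4) × E4) :=
    (Icc (-T) T ×ˢ Metric.closedBall (0 : E4) T) ×ˢ Metric.sphere (0 : E4) 1 with hK
  have hc : IsCompact K := (isCompact_Icc.prod (isCompact_closedBall _ _)).prod (isCompact_sphere _ _)
  set F : (ℝ × E4) × E4 → ℝ := fun p => ∑ i, ∑ j, A p.1 i j * p.2 i * p.2 j with hF
  have hFc : Continuous F := by
    refine continuous_finsetSum _ fun i _ => continuous_finsetSum _ fun j _ => ?_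
    have h1 : ∀ i : Fin 4, Continuous fun p : (ℝ × E4) × E4 => p.2 i := fun i =>
      (EuclideanSpace.proj i : E4 →L[ℝ] ℝ).continuous.comp continuous_snd
    exact (((hA i j).comp continuous_fst).mul (h1 i)).mul (h1 j)
  rcases K.eq_empty_or_nonempty with he | hne
  · refine ⟨1, one_pos, fun s y z hs hy => ?_⟩
    exfalso
    have : ((s, y), bv 0) ∈ K := by
      refine ⟨⟨abs_le.1 hs, mem_closedBall_zero_iff.2 hy⟩, ?_⟩
      rw [mem_sphere_zero_iff_norm]
      simp [bv]
    rw [he] at this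
    exact this
  · obtain ⟨p, hp, hmin⟩ := hc.exists_isMinOn hne hFc.continuousOn
    have hp2 : p.2 ≠ 0 := by
      have := hp.2
      rw [mem_sphere_zero_iff_norm] at this
      intro h
      rw [h, norm_zero] at this
      exact zero_ne_one this
    refine ⟨F p, C4b_pos (hpos p.1) hp2, fun s y z hs hy => ?_⟩
    rcases eq_or_ne z 0 with rfl | hz
    · simp
    · have hz0 : 0 < ‖z‖ := norm_pos_iff.2 hz
      have hmem : ((s, y), ‖z‖⁻¹ • z) ∈ K := by
        refine ⟨⟨abs_le.1 hs, mem_closedBall_zero_iff.2 hy⟩, ?_⟩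
        rw [mem_sphere_zero_iff_norm, norm_smul, norm_inv, norm_norm, inv_mul_cancel₀ hz0.ne']
      have h1 : F p ≤ F ((s, y), ‖z‖⁻¹ • z) := hmin hmem
      have h2 : F ((s, y), ‖z‖⁻¹ • z) * ‖z‖ ^ 2 = ∑ i, ∑ j, A (s, y) i j * z i * z j := by
        simp only [hF, Finset.sum_mul]
        refine Finset.sum_congr rfl fun i _ => Finset.sum_congr rfl fun j _ => ?_
        simp only [PiLp.smul_apply, smul_eq_mul]
        field_simp
      rw [← h2]
      exact mul_le_mul_of_nonneg_right h1 (by positivity)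

theorem C4b_inv_smooth {a : ℝ × E4 → Matrix (Fin 4) (Fin 4) ℝ}
    (ha : ∀ i j, ContDiff ℝ ∞ fun q => a q i j) (hpos : ∀ q, (a q).PosDef) (i j : Fin 4) :
    ContDiff ℝ ∞ fun q => (a q)⁻¹ i j := by
  have hdet : ContDiff ℝ ∞ fun q => (a q).det := by
    simp only [Matrix.det_apply]
    refine ContDiff.sum fun σ _ => ?_
    exact (contDiff_prod fun k _ => ha _ _).const_smul _
  have hadj : ContDiff ℝ ∞ fun q => (a q).adjugate i j := by
    simp only [Matrix.adjugate_apply, Matrix.det_apply]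
    refine ContDiff.sum fun σ _ => ?_
    refine (contDiff_prod fun k _ => ?_).const_smul _
    by_cases h : σ k = j
    · simp only [Matrix.updateRow_apply, h, if_true]
      exact contDiff_const
    · simp only [Matrix.updateRow_apply, h, if_false]
      exact ha _ _
  have h1 : (fun q => (a q)⁻¹ i j) = fun q => ((a q).det)⁻¹ * (a q).adjugate i j := by
    funext q
    rw [Matrix.inv_def, Ring.inverse_eq_inv', Matrix.smul_apply, smul_eq_mul]
  rw [h1]
  exact (hdet.inv fun q => (hpos q).det_pos.ne').mul hadj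

theorem C4b_rd (a : ℝ × E4 → Matrix (Fin 4) (Fin 4) ℝ)
    (ha : ∀ i j, ContDiff ℝ ∞ fun q => a q i j) (hpos : ∀ q, (a q).PosDef) :
    RD fun q : KP => gaussK (a (q.1, q.2.2.1)) q.2.2.2 := by
  have hdet : ContDiff ℝ ∞ fun q => (a q).det := by
    simp only [Matrix.det_apply]
    refine ContDiff.sum fun σ _ => ?_
    exact (contDiff_prod fun k _ => ha _ _).const_smul _
  have hinv := C4b_inv_smooth ha hpos
  have hc : ContDiff ℝ ∞ fun q => ((4 * Real.pi) ^ 2 * Real.sqrt (a q).det)⁻¹ := by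
    refine (contDiff_const.mul (hdet.sqrt fun q => (hpos q).det_pos.ne')).inv fun q => ?_
    have := Real.sqrt_pos.2 (hpos q).det_pos
    positivity
  have hpg : PG fun q : KP => -(∑ i, ∑ j, (a (q.1, q.2.2.1))⁻¹ i j * q.2.2.2 i * q.2.2.2 j) / 4 := by
    have h1 : PG fun q : KP => ∑ i, ∑ j, (a (q.1, q.2.2.1))⁻¹ i j * q.2.2.2 i * q.2.2.2 j :=
      PG.sum _ fun i _ => PG.sum _ fun j _ =>
        ((PG.of_sY (hinv i j)).mul (PG.coordZ i)).mul (PG.coordZ j)
    have h2 := h1.const_smul (-(1 / 4) : ℝ)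
    convert h2 using 2 with q
    rw [smul_eq_mul]
    ring
  have hlow : ∀ T : ℝ, ∃ c > 0, ∀ (s r : ℝ) (y z : E4), |s| ≤ T → |r| ≤ T → ‖y‖ ≤ T →
      -(∑ i, ∑ j, (a (s, y))⁻¹ i j * z i * z j) / 4 ≤ -(c * ‖z‖ ^ 2) / 4 := by
    intro T
    obtain ⟨c, hc, h⟩ := C4b_ell (A := fun q => (a q)⁻¹) (fun i j => (hinv i j).continuous)
      (fun q => (hpos q).inv) T
    refine ⟨c, hc, fun s r y z hs _ hy => ?_⟩
    have := h s y z hs hy
    linarith
  exact (PG.of_sY hc).mul_rd (C4b_rd_exp hpg hlow)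

open scoped MatrixOrder in
theorem C4b_integral (a : Matrix (Fin 4) (Fin 4) ℝ) (ha : a.PosDef) : ∫ z, gaussK a z = 1 := by
  obtain ⟨B, hB⟩ := CStarAlgebra.nonneg_iff_eq_star_mul_self.mp ha.inv.posSemidef.nonneg
  have hdet0 : 0 < a.det := ha.det_pos
  have hBdet : B.det ^ 2 = (a.det)⁻¹ := by
    have h1 := congrArg Matrix.det hB
    rw [Matrix.det_nonsing_inv, Ring.inverse_eq_inv', Matrix.det_mul, Matrix.star_eq_conjTranspose,
      Matrix.det_conjTranspose, star_trivial] at h1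
    rw [h1]
    ring
  have hB0 : B.det ≠ 0 := by
    intro h
    rw [h] at hBdet
    have : 0 < (a.det)⁻¹ := inv_pos.2 hdet0
    norm_num at hBdet
    linarith
  have habs : |B.det| = (Real.sqrt a.det)⁻¹ := by
    rw [← Real.sqrt_inv, ← hBdet, Real.sqrt_sq_eq_abs]
  set L : E4 →ₗ[ℝ] E4 := Matrix.toEuclideanLin B with hL
  have hLdet : LinearMap.det L = B.det := by
    rw [hL]
    exact LinearMap.det_toLpLin 2 B
  have hquad : ∀ z : E4, ∑ i, ∑ j, a⁻¹ i j * z i * z j = ‖L z‖ ^ 2 := by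
    intro z
    rw [EuclideanSpace.norm_sq_eq]
    simp only [hL, Matrix.ofLp_toLpLin, Matrix.toLin'_apply, Matrix.mulVec, dotProduct,
      Real.norm_eq_abs, sq_abs]
    rw [hB]
    simp only [Matrix.star_eq_conjTranspose, Matrix.mul_apply, Matrix.conjTranspose_apply,
      star_trivial]
    simp only [Fin.sum_univ_four]
    ring
  have hint : ∫ z : E4, Real.exp (-(‖L z‖ ^ 2) / 4) =
      |(LinearMap.det L)⁻¹| * ∫ w : E4, Real.exp (-(‖w‖ ^ 2) / 4) := by
    have h1 := Measure.map_linearMap_addHaar_eq_smul_addHaar (volume : Measure E4)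
      (f := L) (by rwa [hLdet])
    have h2 : ∫ w, Real.exp (-(‖w‖ ^ 2) / 4) ∂(Measure.map L volume) =
        ∫ z : E4, Real.exp (-(‖L z‖ ^ 2) / 4) := by
      rw [integral_map]
      · exact (LinearMap.continuous_of_finiteDimensional L).aemeasurable
      · exact (by fun_prop : Continuous fun w : E4 => Real.exp (-(‖w‖ ^ 2) / 4)).aestronglyMeasurable
    rw [← h2, h1, integral_smul_measure, ENNReal.toReal_ofReal (abs_nonneg _), smul_eq_mul]
  have hgauss : ∫ w : E4, Real.exp (-(‖w‖ ^ 2) / 4) = (4 * Real.pi) ^ 2 := by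
    have h1 := GaussianFourier.integral_rexp_neg_mul_sq_norm (V := E4) (b := 1 / 4) (by norm_num)
    have h2 : ∀ w : E4, Real.exp (-(‖w‖ ^ 2) / 4) = Real.exp (-(1 / 4) * ‖w‖ ^ 2) := by
      intro w
      congr 1
      ring
    simp only [h2]
    rw [h1, finrank_euclideanSpace, Fintype.card_fin]
    have h3 : Real.pi / (1 / 4) = 4 * Real.pi := by ring
    rw [h3]
    norm_num
  unfold gaussK
  simp only [hquad]
  rw [integral_const_mul, hint, hgauss, hLdet, abs_inv, habs, inv_inv]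
  have := Real.sqrt_pos.2 hdet0
  have := Real.pi_pos
  field_simp

theorem claimGauss_proof : claimGauss := ⟨C4b_rd, C4b_integral⟩

end NRF

end
end
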