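import Pool.Agent.Work.MP_7f974f_gt.Stmts_DA
import Pool.Agent.Work.MP_7f974f_gt.Stmts_I

/-! Bundle of small proof modules (one section per former module). -/

section

/-!
# Module A: basic identities
-/

noncomputable section

namespace NRF

section
variable {ι R : Type} [Fintype ι] [DecidableEq ι] [CommRing R] [Algebra ℝ R] (S : Geo ι R)

theorem DA1_gh : S.g * S.h = 1 := mul_eq_one_comm.1 S.inv

theorem DA1_gT : S.g.transpose = S.g := by
  ext i j
  exact (S.symm i j).symm

theorem DA1_hT : S.h.transpose = S.h := by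
  have h1 : S.g * S.h.transpose = 1 := by
    have := congrArg Matrix.transpose S.inv
    rw [Matrix.transpose_mul, DA1_gT, Matrix.transpose_one] at this
    exact this
  calc S.h.transpose = (S.h * S.g) * S.h.transpose := by rw [S.inv, Matrix.one_mul]
    _ = S.h := by rw [Matrix.mul_assoc, h1, Matrix.mul_one]

theorem DA1_hsymm (i j : ι) : S.h i j = S.h j i := by
  have := congrFun (congrFun (DA1_hT S) j) i
  rw [Matrix.transpose_apply] at this
  exact this

theorem DA1_chr_symm (k i j : ι) : S.chr k i j = S.chr k j i := by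
  unfold Geo.chr
  congr 1
  refine Finset.sum_congr rfl fun l _ => ?_
  rw [S.symm i j]
  ring

theorem DA1_gh_apply (i j : ι) : ∑ m, S.g i m * S.h m j = if i = j then 1 else 0 := by
  have := congrFun (congrFun (DA1_gh S) i) j
  rw [Matrix.mul_apply, Matrix.one_apply] at this
  exact this

theorem DA1_hg_apply (i j : ι) : ∑ m, S.h i m * S.g m j = if i = j then 1 else 0 := by
  have := congrFun (congrFun S.inv i) j
  rw [Matrix.mul_apply, Matrix.one_apply] at this
  exact this

/-- Lowering the upper index with `g`: if `v^m = ∑ h^ml w_l` then `g_am v^m = w_a`. -/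
theorem DA1_lower (a : ι) (w : ι → R) : ∑ m, S.g a m * ∑ l, S.h m l * w l = w a := by
  simp only [Finset.mul_sum]
  rw [Finset.sum_comm]
  have : ∀ l, ∑ m, S.g a m * (S.h m l * w l) = if a = l then w l else 0 := by
    intro l
    simp only [← mul_assoc]
    rw [← Finset.sum_mul, DA1_gh_apply]
    split_ifs <;> simp
  simp only [this]
  simp

/-- Raising: if `w_m = ∑ g_ml v^l` then `h^am w_m = v^a`. -/
theorem DA1_raise (a : ι) (v : ι → R) : ∑ m, S.h a m * ∑ l, S.g m l * v l = v a := by
  simp only [Finset.mul_sum]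
  rw [Finset.sum_comm]
  have : ∀ l, ∑ m, S.h a m * (S.g m l * v l) = if a = l then v l else 0 := by
    intro l
    simp only [← mul_assoc]
    rw [← Finset.sum_mul, DA1_hg_apply]
    split_ifs <;> simp
  simp only [this]
  simp

/-- `∑_m g_am Γ^m_ij = (1/2)(∂_i g_ja + ∂_j g_ia - ∂_a g_ij)`. -/
theorem DA1_chr_lower (a i j : ι) : ∑ m, S.g a m * S.chr m i j =
    (1 / 2 : ℝ) • (S.D i (S.g j a) + S.D j (S.g i a) - S.D a (S.g i j)) := by
  unfold Geo.chr
  simp only [mul_smul_comm]
  rw [← Finset.smul_sum, DA1_lower S a (fun l => S.D i (S.g j l) + S.D j (S.g i l) -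
    S.D l (S.g i j))]

theorem DA1_two (x : R) : (1 / 2 : ℝ) • (x + x) = x := by
  rw [← two_smul ℝ x, smul_smul]
  norm_num

/-- `∇g = 0`. -/
theorem DA1_Dg (l i j : ι) :
    S.D l (S.g i j) = ∑ m, (S.g i m * S.chr m l j + S.g j m * S.chr m l i) := by
  rw [Finset.sum_add_distrib, DA1_chr_lower, DA1_chr_lower, ← smul_add, S.symm j i, S.symm l j,
    S.symm l i]
  rw [show (S.D l (S.g i j) + S.D j (S.g i l) - S.D i (S.g j l) +
    (S.D l (S.g i j) + S.D i (S.g j l) - S.D j (S.g i l))) = S.D l (S.g i j) + S.D l (S.g i j) by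
      ring, DA1_two]

/-- Derivative of the inverse matrix. -/
theorem DA1_Dh_mat (T : Derivation ℝ R R) (i j : ι) :
    T (S.h i j) = -∑ a, ∑ b, S.h i a * T (S.g a b) * S.h b j := by
  have h1 : ∀ b, ∑ a, (T (S.h i a) * S.g a b) = -∑ a, S.h i a * T (S.g a b) := by
    intro b
    have h2 := congrArg T (DA1_hg_apply S i b)
    have h3 : T (if i = b then (1 : R) else 0) = 0 := by
      split_ifs <;> simp
    rw [h3, map_sum] at h2
    simp only [Derivation.leibniz, smul_eq_mul] at h2
    rw [Finset.sum_add_distrib] at h2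
    have h4 : ∑ a, S.g a b * T (S.h i a) = ∑ a, T (S.h i a) * S.g a b :=
      Finset.sum_congr rfl fun a _ => mul_comm _ _
    rw [h4] at h2
    linear_combination h2
  have h5 : T (S.h i j) = ∑ b, (∑ a, T (S.h i a) * S.g a b) * S.h b j := by
    simp only [Finset.sum_mul]
    rw [Finset.sum_comm]
    have : ∀ a, ∑ b, T (S.h i a) * S.g a b * S.h b j = if a = j then T (S.h i a) else 0 := by
      intro a
      simp only [mul_assoc]
      rw [← Finset.mul_sum, DA1_gh_apply]
      split_ifs <;> simp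
    simp only [this]
    simp
  rw [h5]
  simp only [h1]
  rw [Finset.sum_comm, ← Finset.sum_neg_distrib]
  refine Finset.sum_congr rfl fun b _ => ?_
  rw [neg_mul, Finset.sum_mul]

/-- `∇h = 0`. -/
theorem DA1_Dh (l i j : ι) :
    S.D l (S.h i j) = -∑ m, (S.chr i l m * S.h m j + S.chr j l m * S.h i m) := by
  rw [DA1_Dh_mat]
  congr 1
  have h1 : ∀ a b, S.h i a * S.D l (S.g a b) * S.h b j =
      S.h b j * (S.h i a * ∑ m, S.g a m * S.chr m l b) +
      S.h i a * (S.h j b * ∑ m, S.g b m * S.chr m l a) := by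
    intro a b
    rw [DA1_Dg S l a b, Finset.sum_add_distrib, DA1_hsymm S j b]
    ring
  simp only [h1]
  simp only [Finset.sum_add_distrib]
  congr 1
  · rw [Finset.sum_comm]
    refine Finset.sum_congr rfl fun b _ => ?_
    rw [← Finset.mul_sum, DA1_raise S i (fun m => S.chr m l b), mul_comm]
  · refine Finset.sum_congr rfl fun a _ => ?_
    rw [← Finset.mul_sum, DA1_raise S j (fun m => S.chr m l a), mul_comm]

end

theorem thm_DA1 : claimDA1 := by
  intro ι R _ _ _ _ S
  exact ⟨DA1_hsymm S, DA1_gh S, DA1_chr_symm S, DA1_Dg S, DA1_Dh S⟩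

end NRF

end
end

section

/-!
# DA2: uniqueness of the Levi-Civita connection
-/

noncomputable section

namespace NRF

theorem DA2_half {R : Type} [CommRing R] [Algebra ℝ R] (x : R) :
    (1 / 2 : ℝ) • (2 * x) = x := by
  rw [two_mul, smul_add, ← add_smul]
  norm_num

theorem thm_DA2 : claimDA2 := by
  intro ι R _ _ _ _ S C hsym hC k i j
  have key : ∀ l, S.D i (S.g j l) + S.D j (S.g i l) - S.D l (S.g i j) =
      2 * ∑ m, S.g l m * C m i j := by
    intro l
    rw [hC i j l, hC j i l, hC l i j, Finset.mul_sum, ← Finset.sum_add_distrib,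
      ← Finset.sum_sub_distrib]
    refine Finset.sum_congr rfl fun m _ => ?_
    rw [hsym m l j, hsym m l i, hsym m j i]
    ring
  unfold Geo.chr
  simp only [key]
  have h1 : ∑ l, S.h k l * (2 * ∑ m, S.g l m * C m i j) =
      2 * ∑ m, (S.h * S.g) k m * C m i j := by
    simp only [Matrix.mul_apply, Finset.mul_sum, Finset.sum_mul]
    rw [Finset.sum_comm]
    refine Finset.sum_congr rfl fun l _ => Finset.sum_congr rfl fun m _ => ?_
    ring
  rw [h1, DA2_half, S.inv, Finset.sum_eq_single k]
  · rw [Matrix.one_apply_eq, one_mul]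
  · intro m _ hm
    rw [Matrix.one_apply_ne (Ne.symm hm), zero_mul]
  · intro h
    exact absurd (Finset.mem_univ k) h

end NRF

end
end

section

/-!
# Contracted second Bianchi identity
-/

noncomputable section

namespace NRF

open Matrix

section

variable {ι R : Type} [Fintype ι] [DecidableEq ι] [CommRing R] [Algebra ℝ R]

theorem DA4_map_mul (δ : Derivation ℝ R R) (M N : Matrix ι ι R) :
    (M * N).map δ = M.map δ * N + M * N.map δ := by
  ext i j
  simp only [Matrix.map_apply, Matrix.mul_apply, Matrix.add_apply, map_sum, Derivation.leibniz,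
    smul_eq_mul, Finset.sum_add_distrib]
  rw [add_comm]
  congr 1
  exact Finset.sum_congr rfl fun k _ => mul_comm _ _

theorem DA4_map_add (δ : Derivation ℝ R R) (M N : Matrix ι ι R) :
    (M + N).map δ = M.map δ + N.map δ := by
  ext i j
  simp

theorem DA4_map_sub (δ : Derivation ℝ R R) (M N : Matrix ι ι R) :
    (M - N).map δ = M.map δ - N.map δ := by
  ext i j
  simp

/-- The curvature matrices. -/
def DA4F (S : Geo ι R) (i j : ι) : Matrix ι ι R := Matrix.of fun k l => S.rm k l i j

theorem DA4F_eq (S : Geo ι R) (i j : ι) :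
    DA4F S i j = (S.chrM j).map (S.D i) - (S.chrM i).map (S.D j) + S.chrM i * S.chrM j -
      S.chrM j * S.chrM i := by
  ext k l
  simp only [DA4F, Matrix.of_apply, Matrix.sub_apply, Matrix.add_apply, Matrix.map_apply,
    Matrix.mul_apply, Geo.chrM, Geo.rm, Finset.sum_sub_distrib]
  ring

theorem DA4_map_comm (S : Geo ι R) (i j : ι) (M : Matrix ι ι R) :
    (M.map (S.D i)).map (S.D j) = (M.map (S.D j)).map (S.D i) := by
  ext k l
  simp only [Matrix.map_apply]
  exact S.comm _ _ _

/-- Second Bianchi identity in matrix form. -/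
theorem DA4_bianchi (S : Geo ι R) (m i j : ι) :
    ((DA4F S i j).map (S.D m) + S.chrM m * DA4F S i j - DA4F S i j * S.chrM m) +
    ((DA4F S j m).map (S.D i) + S.chrM i * DA4F S j m - DA4F S j m * S.chrM i) +
    ((DA4F S m i).map (S.D j) + S.chrM j * DA4F S m i - DA4F S m i * S.chrM j) = 0 := by
  simp only [DA4F_eq, DA4_map_sub, DA4_map_add, DA4_map_mul]
  rw [DA4_map_comm S m i (S.chrM j), DA4_map_comm S m j (S.chrM i), DA4_map_comm S i j (S.chrM m)]
  noncomm_ring

/-- The curvature matrices with the second index raised. -/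
def DA4P (S : Geo ι R) (i j : ι) : Matrix ι ι R := DA4F S i j * S.h

theorem DA4_Dh (h1 : claimDA1) (S : Geo ι R) (m : ι) :
    S.h.map (S.D m) = -(S.chrM m * S.h + S.h * (S.chrM m)ᵀ) := by
  obtain ⟨-, -, -, -, hh⟩ := h1 ι R S
  ext i j
  simp only [Matrix.map_apply, Matrix.neg_apply, Matrix.add_apply, Matrix.mul_apply,
    Matrix.transpose_apply, Geo.chrM, Matrix.of_apply]
  rw [hh m i j, Finset.sum_add_distrib]
  congr 2
  exact Finset.sum_congr rfl fun k _ => mul_comm _ _

theorem DA4_bianchiP (h1 : claimDA1) (S : Geo ι R) (m i j : ι) :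
    ((DA4P S i j).map (S.D m) + S.chrM m * DA4P S i j + DA4P S i j * (S.chrM m)ᵀ) +
    ((DA4P S j m).map (S.D i) + S.chrM i * DA4P S j m + DA4P S j m * (S.chrM i)ᵀ) +
    ((DA4P S m i).map (S.D j) + S.chrM j * DA4P S m i + DA4P S m i * (S.chrM j)ᵀ) = 0 := by
  have hb := congrArg (fun M => M * S.h) (DA4_bianchi S m i j)
  simp only [zero_mul] at hb
  rw [← hb]
  unfold DA4P
  rw [DA4_map_mul, DA4_map_mul, DA4_map_mul, DA4_Dh h1 S m, DA4_Dh h1 S i, DA4_Dh h1 S j]
  noncomm_ring

theorem DA4P_antisymm (h3 : claimDA3) (S : Geo ι R) (k l i j : ι) :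
    DA4P S i j k l = -DA4P S j i k l := by
  obtain ⟨h, -⟩ := h3 ι R S
  simp only [DA4P, DA4F, Matrix.mul_apply, Matrix.of_apply]
  rw [← Finset.sum_neg_distrib]
  exact Finset.sum_congr rfl fun b _ => by rw [h k b i j]; ring

theorem DA4P_skew (h1 : claimDA1) (h3 : claimDA3) (S : Geo ι R) (k l i j : ι) :
    DA4P S i j k l = -DA4P S i j l k := by
  obtain ⟨hs, hgh, -⟩ := h1 ι R S
  obtain ⟨-, -, h, -⟩ := h3 ι R S
  have hsT : S.hᵀ = S.h := by ext a b; exact hs b a
  have h2 : (S.g * DA4F S i j)ᵀ = -(S.g * DA4F S i j) := by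
    ext a b
    simp only [Matrix.transpose_apply, Matrix.neg_apply, Matrix.mul_apply, DA4F, Matrix.of_apply]
    exact h b a i j
  have h4 : DA4P S i j = S.h * (S.g * DA4F S i j) * S.h := by
    rw [← Matrix.mul_assoc, S.inv, Matrix.one_mul]
    rfl
  have h5 : (DA4P S i j)ᵀ = -DA4P S i j := by
    rw [h4, Matrix.transpose_mul, Matrix.transpose_mul, h2, hsT]
    noncomm_ring
  have h6 := congrFun (congrFun h5 l) k
  simpa only [Matrix.transpose_apply, Matrix.neg_apply] using h6

/-- The Ricci tensor with one index raised. -/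
def DA4r (S : Geo ι R) (l j : ι) : R := ∑ k, DA4P S k j k l

theorem DA4r_eq (h1 : claimDA1) (h3 : claimDA3) (S : Geo ι R) (l j : ι) :
    DA4r S l j = ∑ i, S.h l i * S.ric i j := by
  obtain ⟨hs, -⟩ := h1 ι R S
  obtain ⟨-, -, -, -, h, -⟩ := h3 ι R S
  simp only [DA4r, DA4P, DA4F, Matrix.mul_apply, Matrix.of_apply]
  rw [Finset.sum_comm]
  refine Finset.sum_congr rfl fun b _ => ?_
  rw [h b j, Finset.mul_sum]
  exact Finset.sum_congr rfl fun k _ => by rw [hs l b]; ring

theorem DA4r_trace (h1 : claimDA1) (h3 : claimDA3) (S : Geo ι R) :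
    S.scal = ∑ j, DA4r S j j := by
  rw [Geo.scal, Finset.sum_comm]
  refine Finset.sum_congr rfl fun j _ => ?_
  rw [DA4r_eq h1 h3]
  obtain ⟨hs, -⟩ := h1 ι R S
  exact Finset.sum_congr rfl fun i _ => by rw [hs i j]

/-- Contractions of the raised curvature. -/
theorem DA4P_c1 (h1 : claimDA1) (h3 : claimDA3) (S : Geo ι R) (p i : ι) :
    ∑ j, DA4P S i j p j = DA4r S p i := by
  unfold DA4r
  exact Finset.sum_congr rfl fun j _ => by
    rw [DA4P_antisymm h3, DA4P_skew h1 h3, neg_neg]

theorem DA4P_c2 (h1 : claimDA1) (h3 : claimDA3) (S : Geo ι R) (p m : ι) :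
    ∑ j, DA4P S j m p j = -DA4r S p m := by
  unfold DA4r
  rw [← Finset.sum_neg_distrib]
  exact Finset.sum_congr rfl fun j _ => DA4P_skew h1 h3 S _ _ _ _

theorem DA4P_c3 (h3 : claimDA3) (S : Geo ι R) (p m : ι) :
    ∑ i, DA4P S m i i p = -DA4r S p m := by
  unfold DA4r
  rw [← Finset.sum_neg_distrib]
  exact Finset.sum_congr rfl fun j _ => DA4P_antisymm h3 S _ _ _ _

/-- A sum symmetric against skew vanishes. -/
theorem DA4_skew_sum (A B : ι → ι → R) (hA : ∀ i p, A i p = A p i) (hB : ∀ i p, B i p = -B p i) :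
    ∑ i, ∑ p, A i p * B i p = 0 := by
  have h : ∑ i, ∑ p, A i p * B i p = -∑ i, ∑ p, A i p * B i p := by
    conv_lhs => rw [Finset.sum_comm]
    rw [← Finset.sum_neg_distrib]
    refine Finset.sum_congr rfl fun i _ => ?_
    rw [← Finset.sum_neg_distrib]
    refine Finset.sum_congr rfl fun p _ => ?_
    rw [hA p i, hB p i]
    ring
  have h2 : (2 : ℝ) • ∑ i, ∑ p, A i p * B i p = 0 := by
    rw [two_smul]
    nth_rewrite 1 [h]
    exact neg_add_cancel _
  have h3 := congrArg (fun x => (1 / 2 : ℝ) • x) h2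
  simpa [smul_smul] using h3

theorem DA4_contract (h1 : claimDA1) (h3 : claimDA3) (S : Geo ι R) (m : ι) :
    S.D m S.scal + 2 * ∑ i, ∑ p, S.chr i m p * DA4r S p i =
      2 * ∑ i, (S.D i (DA4r S i m) + ∑ p, S.chr i i p * DA4r S p m) := by
  have hsym : ∀ k i j, S.chr k i j = S.chr k j i := (h1 ι R S).2.2.1
  have hb : ∀ i j, (((DA4P S i j).map (S.D m) + S.chrM m * DA4P S i j +
        DA4P S i j * (S.chrM m)ᵀ) +
      ((DA4P S j m).map (S.D i) + S.chrM i * DA4P S j m + DA4P S j m * (S.chrM i)ᵀ) +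
      ((DA4P S m i).map (S.D j) + S.chrM j * DA4P S m i + DA4P S m i * (S.chrM j)ᵀ)) i j = 0 := by
    intro i j
    rw [DA4_bianchiP h1 S m i j]
    rfl
  have hsum : ∑ i, ∑ j, (((DA4P S i j).map (S.D m) + S.chrM m * DA4P S i j +
        DA4P S i j * (S.chrM m)ᵀ) +
      ((DA4P S j m).map (S.D i) + S.chrM i * DA4P S j m + DA4P S j m * (S.chrM i)ᵀ) +
      ((DA4P S m i).map (S.D j) + S.chrM j * DA4P S m i + DA4P S m i * (S.chrM j)ᵀ)) i j = 0 :=
    Finset.sum_eq_zero fun i _ => Finset.sum_eq_zero fun j _ => hb i j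
  simp only [Matrix.add_apply, Matrix.map_apply, Matrix.mul_apply, Matrix.transpose_apply,
    Geo.chrM, Matrix.of_apply, Finset.sum_add_distrib] at hsum
  -- the nine sums
  have a1 : ∑ i, ∑ j, S.D m (DA4P S i j i j) = S.D m S.scal := by
    rw [DA4r_trace h1 h3, map_sum]
    refine Finset.sum_congr rfl fun i _ => ?_
    rw [← map_sum, DA4P_c1 h1 h3]
  have a2 : ∑ i, ∑ j, ∑ p, S.chr i m p * DA4P S i j p j =
      ∑ i, ∑ p, S.chr i m p * DA4r S p i := by
    refine Finset.sum_congr rfl fun i _ => ?_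
    rw [Finset.sum_comm]
    refine Finset.sum_congr rfl fun p _ => ?_
    rw [← Finset.mul_sum, DA4P_c1 h1 h3]
  have a3 : ∑ i, ∑ j, ∑ p, DA4P S i j i p * S.chr j m p =
      ∑ i, ∑ p, S.chr i m p * DA4r S p i := by
    rw [Finset.sum_comm]
    refine Finset.sum_congr rfl fun j _ => ?_
    rw [Finset.sum_comm]
    refine Finset.sum_congr rfl fun p _ => ?_
    rw [← Finset.sum_mul, mul_comm]
    rfl
  have b1 : ∑ i, ∑ j, S.D i (DA4P S j m i j) = -∑ i, S.D i (DA4r S i m) := by
    rw [← Finset.sum_neg_distrib]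
    refine Finset.sum_congr rfl fun i _ => ?_
    rw [← map_sum, DA4P_c2 h1 h3, map_neg]
  have b2 : ∑ i, ∑ j, ∑ p, S.chr i i p * DA4P S j m p j =
      -∑ i, ∑ p, S.chr i i p * DA4r S p m := by
    rw [← Finset.sum_neg_distrib]
    refine Finset.sum_congr rfl fun i _ => ?_
    rw [Finset.sum_comm, ← Finset.sum_neg_distrib]
    refine Finset.sum_congr rfl fun p _ => ?_
    rw [← Finset.mul_sum, DA4P_c2 h1 h3, mul_neg]
  have b3 : ∑ i, ∑ j, ∑ p, DA4P S j m i p * S.chr j i p = 0 := by
    rw [Finset.sum_comm]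
    refine Finset.sum_eq_zero fun j _ => ?_
    have := DA4_skew_sum (fun i p => S.chr j i p) (fun i p => DA4P S j m i p)
      (fun i p => hsym j i p) (fun i p => DA4P_skew h1 h3 S i p j m)
    rw [← this]
    exact Finset.sum_congr rfl fun i _ => Finset.sum_congr rfl fun p _ => mul_comm _ _
  have c1 : ∑ i, ∑ j, S.D j (DA4P S m i i j) = -∑ i, S.D i (DA4r S i m) := by
    rw [Finset.sum_comm, ← Finset.sum_neg_distrib]
    refine Finset.sum_congr rfl fun j _ => ?_
    rw [← map_sum, DA4P_c3 h3, map_neg]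
  have c2 : ∑ i, ∑ j, ∑ p, S.chr i j p * DA4P S m i p j = 0 := by
    refine Finset.sum_eq_zero fun i _ => ?_
    exact DA4_skew_sum (fun j p => S.chr i j p) (fun j p => DA4P S m i p j)
      (fun j p => hsym i j p) (fun j p => DA4P_skew h1 h3 S p j m i)
  have c3 : ∑ i, ∑ j, ∑ p, DA4P S m i i p * S.chr j j p =
      -∑ i, ∑ p, S.chr i i p * DA4r S p m := by
    rw [Finset.sum_comm, ← Finset.sum_neg_distrib]
    refine Finset.sum_congr rfl fun j _ => ?_
    rw [Finset.sum_comm, ← Finset.sum_neg_distrib]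
    refine Finset.sum_congr rfl fun p _ => ?_
    rw [← Finset.sum_mul, DA4P_c3 h3]
    ring
  rw [a1, a2, a3, b1, b2, b3, c1, c2, c3] at hsum
  rw [Finset.sum_add_distrib]
  linear_combination hsum

theorem thm_DA4 (h1 : claimDA1) (h3 : claimDA3) : claimDA4 := by
  intro ι R _ _ _ _ S m
  obtain ⟨hs, -, hsym, -, hh⟩ := h1 ι R S
  have hc := DA4_contract h1 h3 S m
  have key : ∑ i, ∑ k, S.h i k * S.cov2 S.ric k i m =
      ∑ i, (S.D i (DA4r S i m) + ∑ p, S.chr i i p * DA4r S p m) -
        ∑ i, ∑ p, S.chr i m p * DA4r S p i := by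
    have e1 : ∑ i, S.D i (DA4r S i m) =
        ∑ i, ∑ k, S.h i k * S.D k (S.ric i m) -
          ∑ k, ∑ p, S.chr k k p * DA4r S p m -
          ∑ k, ∑ i, ∑ p, S.h p k * (S.chr i k p * S.ric i m) := by
      have e2 : ∀ k, S.D k (DA4r S k m) = ∑ i, S.h i k * S.D k (S.ric i m) -
          ∑ p, S.chr k k p * DA4r S p m - ∑ i, ∑ p, S.h p k * (S.chr i k p * S.ric i m) := by
        intro k
        rw [DA4r_eq h1 h3, map_sum]
        have e3 : ∀ i, S.D k (S.h k i * S.ric i m) = S.h i k * S.D k (S.ric i m) -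
            (∑ p, S.chr k k p * (S.h p i * S.ric i m)) -
            ∑ p, S.h p k * (S.chr i k p * S.ric i m) := by
          intro i
          rw [Derivation.leibniz, smul_eq_mul, smul_eq_mul, hh k k i, hs k i, mul_neg,
            Finset.sum_add_distrib, mul_add, Finset.mul_sum, Finset.mul_sum]
          have : ∀ p, S.ric i m * (S.chr k k p * S.h p i) = S.chr k k p * (S.h p i * S.ric i m) :=
            fun p => by ring
          have h' : ∀ p, S.ric i m * (S.chr i k p * S.h k p) =
              S.h p k * (S.chr i k p * S.ric i m) :=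
            fun p => by rw [hs k p]; ring
          simp only [this, h']
          ring
        simp only [e3, Finset.sum_sub_distrib]
        congr 2
        rw [Finset.sum_comm]
        refine Finset.sum_congr rfl fun p _ => ?_
        rw [DA4r_eq h1 h3, Finset.mul_sum]
      simp only [e2, Finset.sum_sub_distrib]
      congr 2
      exact Finset.sum_comm
    have e4 : ∑ i, ∑ k, S.h i k * S.cov2 S.ric k i m =
        ∑ i, ∑ k, S.h i k * S.D k (S.ric i m) -
          ∑ i, ∑ k, ∑ p, S.h i k * (S.chr p k i * S.ric p m) -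
          ∑ i, ∑ k, ∑ p, S.h i k * (S.chr p k m * S.ric i p) := by
      simp only [Geo.cov2, mul_sub, Finset.mul_sum, mul_add, Finset.sum_sub_distrib,
        Finset.sum_add_distrib]
      ring
    have e5 : ∑ i, ∑ k, ∑ p, S.h i k * (S.chr p k i * S.ric p m) =
        ∑ k, ∑ i, ∑ p, S.h p k * (S.chr i k p * S.ric i m) := by
      rw [Finset.sum_comm]
      refine Finset.sum_congr rfl fun k _ => ?_
      rw [Finset.sum_comm]
    have e6 : ∑ i, ∑ k, ∑ p, S.h i k * (S.chr p k m * S.ric i p) =
        ∑ i, ∑ p, S.chr i m p * DA4r S p i := by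
      have e7 : ∀ i p, S.chr i m p * DA4r S p i = ∑ a, S.h a p * (S.chr i p m * S.ric a i) := by
        intro i p
        rw [DA4r_eq h1 h3, Finset.mul_sum]
        refine Finset.sum_congr rfl fun a _ => ?_
        rw [hs p a, hsym i m p]
        ring
      simp only [e7]
      have e8 : ∀ i, ∑ k, ∑ p, S.h i k * (S.chr p k m * S.ric i p) =
          ∑ p, ∑ k, S.h i k * (S.chr p k m * S.ric i p) := fun i => Finset.sum_comm
      simp only [e8]
      rw [Finset.sum_comm]
      refine Finset.sum_congr rfl fun b _ => ?_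
      rw [Finset.sum_comm]
    rw [e4, e5, e6, Finset.sum_add_distrib, e1]
    ring
  rw [key]
  have h4 : S.D m S.scal = 2 * (∑ i, (S.D i (DA4r S i m) + ∑ p, S.chr i i p * DA4r S p m) -
        ∑ i, ∑ p, S.chr i m p * DA4r S p i) := by
    linear_combination hc
  rw [h4, two_mul, ← two_smul ℝ, smul_smul]
  norm_num

end

end NRF

end
end

section

/-!
# Module A: Bochner formula
-/

noncomputable section

namespace NRF

section
variable {ι R : Type} [Fintype ι] [DecidableEq ι] [CommRing R] [Algebra ℝ R] (S : Geo ι R)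

omit [DecidableEq ι] [Algebra ℝ R] in
theorem DA5_swap13 (f : ι → ι → ι → R) :
    ∑ i, ∑ j, ∑ m, f i j m = ∑ i, ∑ j, ∑ m, f m j i := by
  rw [Finset.sum_comm]
  conv_rhs => rw [Finset.sum_comm]
  refine Finset.sum_congr rfl fun j _ => ?_
  rw [Finset.sum_comm]

omit [DecidableEq ι] [Algebra ℝ R] in
theorem DA5_swap23 (f : ι → ι → ι → R) :
    ∑ i, ∑ j, ∑ m, f i j m = ∑ i, ∑ j, ∑ m, f i m j :=
  Finset.sum_congr rfl fun _ _ => Finset.sum_comm

/-- covariant derivative of a covector -/
def DA5_cov1 (A : ι → R) (l i : ι) : R := S.D l (A i) - ∑ m, S.chr m l i * A m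

theorem DA5_hess_eq (u : R) (i j : ι) : S.hess u i j = DA5_cov1 S (fun a => S.D a u) i j := rfl

/-- Leibniz rule for the metric contraction of two covectors. -/
theorem DA5_leib (hDh : ∀ l i j, S.D l (S.h i j) =
    -∑ m, (S.chr i l m * S.h m j + S.chr j l m * S.h i m)) (A B : ι → R) (l : ι) :
    S.D l (∑ i, ∑ j, S.h i j * (A i * B j)) =
      ∑ i, ∑ j, S.h i j * (DA5_cov1 S A l i * B j + A i * DA5_cov1 S B l j) := by
  have h1 : S.D l (∑ i, ∑ j, S.h i j * (A i * B j)) =
      ∑ i, ∑ j, S.h i j * (S.D l (A i) * B j + A i * S.D l (B j)) -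
      (∑ i, ∑ j, ∑ m, A i * B j * S.chr i l m * S.h m j +
        ∑ i, ∑ j, ∑ m, A i * B j * S.chr j l m * S.h i m) := by
    simp only [← Finset.sum_add_distrib, ← Finset.sum_sub_distrib, map_sum]
    refine Finset.sum_congr rfl fun i _ => Finset.sum_congr rfl fun j _ => ?_
    rw [Derivation.leibniz, Derivation.leibniz, hDh]
    simp only [smul_eq_mul]
    have h2 : ∑ m, (A i * B j * S.chr i l m * S.h m j + A i * B j * S.chr j l m * S.h i m) =
        A i * B j * ∑ m, (S.chr i l m * S.h m j + S.chr j l m * S.h i m) := by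
      rw [Finset.mul_sum]
      exact Finset.sum_congr rfl fun m _ => by ring
    rw [h2]
    ring
  rw [h1, DA5_swap13 (fun i j m => A i * B j * S.chr i l m * S.h m j),
    DA5_swap23 (fun i j m => A i * B j * S.chr j l m * S.h i m)]
  simp only [← Finset.sum_add_distrib, ← Finset.sum_sub_distrib]
  refine Finset.sum_congr rfl fun i _ => Finset.sum_congr rfl fun j _ => ?_
  unfold DA5_cov1
  have h2 : ∑ m, (A m * B j * S.chr m l i * S.h i j + A i * B m * S.chr m l j * S.h i j) =
      S.h i j * ((∑ m, S.chr m l i * A m) * B j + A i * ∑ m, S.chr m l j * B m) := by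
    rw [Finset.sum_mul, Finset.mul_sum, ← Finset.sum_add_distrib, Finset.mul_sum]
    exact Finset.sum_congr rfl fun m _ => by ring
  rw [h2]
  ring

/-- The metric contraction of a 2-tensor. -/
theorem DA5_tr (hDh : ∀ l i j, S.D l (S.h i j) =
    -∑ m, (S.chr i l m * S.h m j + S.chr j l m * S.h i m)) (A : ι → ι → R) (l : ι) :
    S.D l (∑ i, ∑ j, S.h i j * A i j) = ∑ i, ∑ j, S.h i j * S.cov2 A l i j := by
  have h1 : S.D l (∑ i, ∑ j, S.h i j * A i j) =
      ∑ i, ∑ j, S.h i j * S.D l (A i j) -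
      (∑ i, ∑ j, ∑ m, A i j * S.chr i l m * S.h m j +
        ∑ i, ∑ j, ∑ m, A i j * S.chr j l m * S.h i m) := by
    simp only [← Finset.sum_add_distrib, ← Finset.sum_sub_distrib, map_sum]
    refine Finset.sum_congr rfl fun i _ => Finset.sum_congr rfl fun j _ => ?_
    rw [Derivation.leibniz, hDh]
    simp only [smul_eq_mul]
    have h2 : ∑ m, (A i j * S.chr i l m * S.h m j + A i j * S.chr j l m * S.h i m) =
        A i j * ∑ m, (S.chr i l m * S.h m j + S.chr j l m * S.h i m) := by
      rw [Finset.mul_sum]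
      exact Finset.sum_congr rfl fun m _ => by ring
    rw [h2]
    ring
  rw [h1, DA5_swap13 (fun i j m => A i j * S.chr i l m * S.h m j),
    DA5_swap23 (fun i j m => A i j * S.chr j l m * S.h i m)]
  simp only [← Finset.sum_add_distrib, ← Finset.sum_sub_distrib]
  refine Finset.sum_congr rfl fun i _ => Finset.sum_congr rfl fun j _ => ?_
  unfold Geo.cov2
  have h2 : ∑ m, (A m j * S.chr m l i * S.h i j + A i m * S.chr m l j * S.h i j) =
      S.h i j * ∑ m, (S.chr m l i * A m j + S.chr m l j * A i m) := by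
    rw [Finset.mul_sum]
    exact Finset.sum_congr rfl fun m _ => by ring
  rw [h2]
  ring

/-- Ricci identity. -/
theorem DA5_ricci (u : R) (l k i : ι) :
    S.cov2 (S.hess u) l k i - S.cov2 (S.hess u) k l i = -∑ p, S.rm p i l k * S.D p u +
      ∑ m, (S.chr m k l - S.chr m l k) * S.hess u m i := by
  have e1 : S.cov2 (S.hess u) l k i = S.D l (S.D k (S.D i u)) -
      ∑ p, (S.D l (S.chr p k i) * S.D p u + S.chr p k i * S.D l (S.D p u)) -
      ∑ m, S.chr m l k * S.hess u m i -
      ∑ m, S.chr m l i * S.D k (S.D m u) + ∑ m, ∑ p, S.chr m l i * (S.chr p k m * S.D p u) := by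
    unfold Geo.cov2
    conv_lhs => rw [show S.hess u k i = S.D k (S.D i u) - ∑ p, S.chr p k i * S.D p u from rfl]
    rw [map_sub, map_sum, Finset.sum_add_distrib]
    have h1 : ∑ p, S.D l (S.chr p k i * S.D p u) =
        ∑ p, (S.D l (S.chr p k i) * S.D p u + S.chr p k i * S.D l (S.D p u)) :=
      Finset.sum_congr rfl fun p _ => by
        rw [Derivation.leibniz]; simp only [smul_eq_mul]; ring
    have h2 : ∑ m, S.chr m l i * S.hess u k m = ∑ m, S.chr m l i * S.D k (S.D m u) -
        ∑ m, ∑ p, S.chr m l i * (S.chr p k m * S.D p u) := by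
      rw [← Finset.sum_sub_distrib]
      refine Finset.sum_congr rfl fun m _ => ?_
      rw [show S.hess u k m = S.D k (S.D m u) - ∑ p, S.chr p k m * S.D p u from rfl,
        ← Finset.mul_sum]
      ring
    rw [h1, h2]
    ring
  have e2 : S.cov2 (S.hess u) k l i = S.D k (S.D l (S.D i u)) -
      ∑ p, (S.D k (S.chr p l i) * S.D p u + S.chr p l i * S.D k (S.D p u)) -
      ∑ m, S.chr m k l * S.hess u m i -
      ∑ m, S.chr m k i * S.D l (S.D m u) + ∑ m, ∑ p, S.chr m k i * (S.chr p l m * S.D p u) := by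
    unfold Geo.cov2
    conv_lhs => rw [show S.hess u l i = S.D l (S.D i u) - ∑ p, S.chr p l i * S.D p u from rfl]
    rw [map_sub, map_sum, Finset.sum_add_distrib]
    have h1 : ∑ p, S.D k (S.chr p l i * S.D p u) =
        ∑ p, (S.D k (S.chr p l i) * S.D p u + S.chr p l i * S.D k (S.D p u)) :=
      Finset.sum_congr rfl fun p _ => by
        rw [Derivation.leibniz]; simp only [smul_eq_mul]; ring
    have h2 : ∑ m, S.chr m k i * S.hess u l m = ∑ m, S.chr m k i * S.D l (S.D m u) -
        ∑ m, ∑ p, S.chr m k i * (S.chr p l m * S.D p u) := by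
      rw [← Finset.sum_sub_distrib]
      refine Finset.sum_congr rfl fun m _ => ?_
      rw [show S.hess u l m = S.D l (S.D m u) - ∑ p, S.chr p l m * S.D p u from rfl,
        ← Finset.mul_sum]
      ring
    rw [h1, h2]
    ring
  have e3 : ∑ p, S.rm p i l k * S.D p u =
      ∑ p, S.D l (S.chr p k i) * S.D p u - ∑ p, S.D k (S.chr p l i) * S.D p u +
      (∑ m, ∑ p, S.chr m k i * (S.chr p l m * S.D p u) -
        ∑ m, ∑ p, S.chr m l i * (S.chr p k m * S.D p u)) := by
    rw [Finset.sum_comm (f := fun m p => S.chr m k i * (S.chr p l m * S.D p u)),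
      Finset.sum_comm (f := fun m p => S.chr m l i * (S.chr p k m * S.D p u))]
    simp only [← Finset.sum_add_distrib, ← Finset.sum_sub_distrib]
    refine Finset.sum_congr rfl fun p _ => ?_
    unfold Geo.rm
    rw [add_mul, sub_mul, Finset.sum_mul]
    congr 1
    exact Finset.sum_congr rfl fun m _ => by ring
  have e4 : ∑ m, (S.chr m k l - S.chr m l k) * S.hess u m i =
      ∑ m, S.chr m k l * S.hess u m i - ∑ m, S.chr m l k * S.hess u m i := by
    rw [← Finset.sum_sub_distrib]
    exact Finset.sum_congr rfl fun m _ => by ring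
  rw [e1, e2, e3, e4, S.comm l k]
  simp only [Finset.sum_add_distrib]
  ring

end

theorem thm_DA5 (h1 : claimDA1) (h3 : claimDA3) : claimDA5 := by
  intro ι R _ _ _ _ S u
  obtain ⟨hs, hgh, hchr, hDg, hDh⟩ := h1 ι R S
  obtain ⟨r1, r2, r3, r4, r5, r6⟩ := h3 ι R S
  have two : ∀ x : R, (2 : ℝ) • x = 2 * x := fun x => by rw [two_smul, two_mul]
  have Hsymm : ∀ i j, S.hess u i j = S.hess u j i := by
    intro i j
    unfold Geo.hess
    rw [S.comm i j]
    congr 1
    exact Finset.sum_congr rfl fun k _ => by rw [hchr k i j]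
  -- derivative of the squared gradient
  have F1 : ∀ k, S.D k (S.grad2 u u) = 2 * ∑ i, ∑ j, S.h i j * (S.hess u k i * S.D j u) := by
    intro k
    unfold Geo.grad2
    rw [DA5_leib S hDh]
    have : ∑ i, ∑ j, S.h i j * (S.D i u * DA5_cov1 S (fun a => S.D a u) k j) =
        ∑ i, ∑ j, S.h i j * (S.hess u k i * S.D j u) := by
      rw [Finset.sum_comm]
      refine Finset.sum_congr rfl fun i _ => Finset.sum_congr rfl fun j _ => ?_
      rw [hs j i, ← DA5_hess_eq]
      ring
    simp only [mul_add, Finset.sum_add_distrib]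
    rw [this]
    simp only [← DA5_hess_eq]
    ring
  -- its Hessian
  have F2 : ∀ l k, S.hess (S.grad2 u u) l k = 2 * ∑ i, ∑ j, S.h i j *
      (S.cov2 (S.hess u) l k i * S.D j u + S.hess u k i * S.hess u l j) := by
    intro l k
    change S.D l (S.D k (S.grad2 u u)) - ∑ m, S.chr m l k * S.D m (S.grad2 u u) = _
    rw [F1 k]
    have e1 : S.D l (2 * ∑ i, ∑ j, S.h i j * (S.hess u k i * S.D j u)) =
        2 * S.D l (∑ i, ∑ j, S.h i j * (S.hess u k i * S.D j u)) := by
      rw [Derivation.leibniz]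
      have : S.D l (2 : R) = 0 := by
        have := (S.D l).map_natCast 2
        exact_mod_cast this
      rw [this]
      simp
    rw [e1, DA5_leib S hDh (fun i => S.hess u k i) (fun j => S.D j u) l]
    simp only [F1]
    have e2 : ∑ m, S.chr m l k * (2 * ∑ i, ∑ j, S.h i j * (S.hess u m i * S.D j u)) =
        2 * ∑ i, ∑ j, S.h i j * ((∑ m, S.chr m l k * S.hess u m i) * S.D j u) := by
      rw [Finset.mul_sum]
      have : ∀ m, S.chr m l k * (2 * ∑ i, ∑ j, S.h i j * (S.hess u m i * S.D j u)) =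
          ∑ i, ∑ j, 2 * (S.h i j * (S.chr m l k * S.hess u m i * S.D j u)) := by
        intro m
        simp only [Finset.mul_sum]
        exact Finset.sum_congr rfl fun i _ => Finset.sum_congr rfl fun j _ => by ring
      simp only [this]
      rw [Finset.sum_comm]
      refine Finset.sum_congr rfl fun i _ => ?_
      rw [Finset.sum_comm, Finset.mul_sum]
      refine Finset.sum_congr rfl fun j _ => ?_
      rw [Finset.sum_mul, Finset.mul_sum, Finset.mul_sum]
    rw [e2, ← mul_sub, ← Finset.sum_sub_distrib]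
    congr 1
    refine Finset.sum_congr rfl fun i _ => ?_
    rw [← Finset.sum_sub_distrib]
    refine Finset.sum_congr rfl fun j _ => ?_
    rw [← DA5_hess_eq]
    unfold Geo.cov2 DA5_cov1
    rw [Finset.sum_add_distrib]
    ring
  -- the contracted Ricci identity
  have F3 : ∀ i, ∑ l, ∑ k, S.h l k * S.cov2 (S.hess u) l k i =
      S.D i (S.lap u) + ∑ p, ∑ a, S.h p a * (S.ric a i * S.D p u) := by
    intro i
    have e1 : ∀ l k, S.cov2 (S.hess u) l k i = S.cov2 (S.hess u) i l k -
        ∑ p, S.rm p k l i * S.D p u := by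
      intro l k
      have e2 : S.cov2 (S.hess u) l k i = S.cov2 (S.hess u) l i k := by
        unfold Geo.cov2
        rw [Hsymm k i]
        congr 1
        refine Finset.sum_congr rfl fun m _ => ?_
        rw [Hsymm m i, Hsymm m k]
        ring
      have e3 := DA5_ricci S u l i k
      have e4 : ∑ m, (S.chr m i l - S.chr m l i) * S.hess u m k = 0 :=
        Finset.sum_eq_zero fun m _ => by rw [hchr m i l]; ring
      rw [e4] at e3
      rw [e2]
      linear_combination e3
    have e5 : ∑ l, ∑ k, S.h l k * S.cov2 (S.hess u) l k i =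
        ∑ l, ∑ k, S.h l k * S.cov2 (S.hess u) i l k -
        ∑ l, ∑ k, ∑ p, S.h l k * S.rm p k l i * S.D p u := by
      simp only [← Finset.sum_sub_distrib]
      refine Finset.sum_congr rfl fun l _ => Finset.sum_congr rfl fun k _ => ?_
      rw [e1 l k, mul_sub, Finset.mul_sum]
      congr 1
      exact Finset.sum_congr rfl fun p _ => by ring
    rw [e5, ← DA5_tr S hDh (S.hess u) i]
    have e6 : S.D i (∑ l, ∑ k, S.h l k * S.hess u l k) = S.D i (S.lap u) := rfl
    rw [e6, sub_eq_add_neg]
    congr 1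
    -- curvature
    have hrm : ∀ k l i j, S.rm k l i j = ∑ a, S.h k a * S.rmL a l i j := by
      intro k l i j
      unfold Geo.rmL
      simp only [Finset.mul_sum]
      rw [Finset.sum_comm]
      have : ∀ b, ∑ a, S.h k a * (S.g a b * S.rm b l i j) =
          if k = b then S.rm b l i j else 0 := by
        intro b
        simp only [← mul_assoc]
        rw [← Finset.sum_mul]
        have h := congrFun (congrFun S.inv k) b
        rw [Matrix.mul_apply, Matrix.one_apply] at h
        rw [h]
        split_ifs <;> simp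
      simp only [this]
      simp
    have e7 : ∀ p, ∑ l, ∑ k, S.h l k * S.rm p k l i = -∑ a, S.h p a * S.ric a i := by
      intro p
      have e8 : ∀ l k, S.h l k * S.rm p k l i = -∑ a, S.h p a * (S.h l k * S.rmL k a l i) := by
        intro l k
        rw [hrm p k l i, Finset.mul_sum, ← Finset.sum_neg_distrib]
        refine Finset.sum_congr rfl fun a _ => ?_
        rw [r3 a k l i]
        ring
      simp only [e8, Finset.sum_neg_distrib]
      congr 1
      have e9 : ∀ l, ∑ k, ∑ a, S.h p a * (S.h l k * S.rmL k a l i) =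
          ∑ a, S.h p a * S.rm l a l i := by
        intro l
        rw [Finset.sum_comm]
        refine Finset.sum_congr rfl fun a _ => ?_
        rw [hrm l a l i, Finset.mul_sum]
      simp only [e9]
      rw [Finset.sum_comm]
      refine Finset.sum_congr rfl fun a _ => ?_
      rw [r5 a i, Finset.mul_sum]
    have e10 : ∑ l, ∑ k, ∑ p, S.h l k * S.rm p k l i * S.D p u =
        ∑ p, (∑ l, ∑ k, S.h l k * S.rm p k l i) * S.D p u := by
      simp only [Finset.sum_mul]
      have : ∀ l, ∑ k, ∑ p, S.h l k * S.rm p k l i * S.D p u =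
          ∑ p, ∑ k, S.h l k * S.rm p k l i * S.D p u := fun l => Finset.sum_comm
      simp only [this]
      rw [Finset.sum_comm]
    rw [e10, ← Finset.sum_neg_distrib]
    refine Finset.sum_congr rfl fun p _ => ?_
    rw [e7 p, neg_mul, neg_neg, Finset.sum_mul]
    exact Finset.sum_congr rfl fun a _ => by ring
  -- assemble
  have L1 : S.lap (S.grad2 u u) = 2 * (∑ i, ∑ j, S.h i j *
      ((∑ l, ∑ k, S.h l k * S.cov2 (S.hess u) l k i) * S.D j u)) +
      2 * ∑ l, ∑ k, ∑ i, ∑ j, S.h l k * S.h i j * (S.hess u k i * S.hess u l j) := by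
    unfold Geo.lap
    simp only [F2]
    have e1 : ∀ l k, S.h l k * (2 * ∑ i, ∑ j, S.h i j *
        (S.cov2 (S.hess u) l k i * S.D j u + S.hess u k i * S.hess u l j)) =
        2 * (∑ i, ∑ j, S.h l k * S.h i j * (S.cov2 (S.hess u) l k i * S.D j u)) +
        2 * ∑ i, ∑ j, S.h l k * S.h i j * (S.hess u k i * S.hess u l j) := by
      intro l k
      rw [← mul_add, ← Finset.sum_add_distrib, Finset.mul_sum, Finset.mul_sum, Finset.mul_sum]
      refine Finset.sum_congr rfl fun i _ => ?_
      rw [← Finset.sum_add_distrib, Finset.mul_sum, Finset.mul_sum, Finset.mul_sum]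
      exact Finset.sum_congr rfl fun j _ => by ring
    simp only [e1, Finset.sum_add_distrib]
    simp only [← Finset.mul_sum]
    congr 2
    have e2 : ∀ l, ∑ k, ∑ i, ∑ j, S.h l k * S.h i j * (S.cov2 (S.hess u) l k i * S.D j u) =
        ∑ i, ∑ j, ∑ k, S.h l k * S.h i j * (S.cov2 (S.hess u) l k i * S.D j u) := by
      intro l
      rw [Finset.sum_comm]
      exact Finset.sum_congr rfl fun i _ => Finset.sum_comm
    simp only [e2]
    rw [Finset.sum_comm]
    refine Finset.sum_congr rfl fun i _ => ?_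
    rw [Finset.sum_comm]
    refine Finset.sum_congr rfl fun j _ => ?_
    rw [Finset.sum_mul, Finset.mul_sum]
    refine Finset.sum_congr rfl fun l _ => ?_
    rw [Finset.sum_mul, Finset.mul_sum]
    exact Finset.sum_congr rfl fun k _ => by ring
  rw [L1]
  simp only [F3, two]
  have A1 : ∑ i, ∑ j, S.h i j * ((S.D i (S.lap u) + ∑ p, ∑ a, S.h p a * (S.ric a i * S.D p u)) *
      S.D j u) = S.grad2 u (S.lap u) +
      ∑ i, ∑ j, ∑ k, ∑ l, S.h i k * S.h j l * (S.ric i j * (S.D k u * S.D l u)) := by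
    simp only [add_mul, mul_add, Finset.sum_add_distrib]
    congr 1
    · unfold Geo.grad2
      rw [Finset.sum_comm]
      refine Finset.sum_congr rfl fun i _ => Finset.sum_congr rfl fun j _ => ?_
      rw [hs j i]
      ring
    · -- both sides as sums over (i, j, p, a)
      have e1 : ∀ i j, S.h i j * ((∑ p, ∑ a, S.h p a * (S.ric a i * S.D p u)) * S.D j u) =
          ∑ p, ∑ a, S.h a p * S.h i j * (S.ric a i * (S.D p u * S.D j u)) := by
        intro i j
        rw [Finset.sum_mul, Finset.mul_sum]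
        refine Finset.sum_congr rfl fun p _ => ?_
        rw [Finset.sum_mul, Finset.mul_sum]
        refine Finset.sum_congr rfl fun a _ => ?_
        rw [hs a p]
        ring
      simp only [e1]
      -- LHS: sum over i j p a of F a i p j ; RHS: sum over i j k l of F i j k l
      have e2 : ∀ (F : ι → ι → ι → ι → R), ∑ i, ∑ j, ∑ p, ∑ a, F a i p j =
          ∑ i, ∑ j, ∑ k, ∑ l, F i j k l := by
        intro F
        have c1 : ∀ i, ∑ j, ∑ p, ∑ a, F a i p j = ∑ a, ∑ p, ∑ j, F a i p j := by
          intro i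
          have c2 : ∀ j, ∑ p, ∑ a, F a i p j = ∑ a, ∑ p, F a i p j := fun j => Finset.sum_comm
          simp only [c2]
          rw [Finset.sum_comm]
          exact Finset.sum_congr rfl fun a _ => Finset.sum_comm
        simp only [c1]
        rw [Finset.sum_comm]
      exact e2 (fun a i p j => S.h a p * S.h i j * (S.ric a i * (S.D p u * S.D j u)))
  have A2 : ∑ l, ∑ k, ∑ i, ∑ j, S.h l k * S.h i j * (S.hess u k i * S.hess u l j) =
      S.inner2 (S.hess u) (S.hess u) := by
    unfold Geo.inner2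
    -- inner2: sum i j k l h i k h j l (H i j * H k l)
    have e2 : ∀ (F : ι → ι → ι → ι → R), ∑ l, ∑ k, ∑ i, ∑ j, F k i l j =
        ∑ i, ∑ j, ∑ k, ∑ l, F i j k l := by
      intro F
      rw [Finset.sum_comm]
      refine Finset.sum_congr rfl fun k _ => ?_
      rw [Finset.sum_comm]
    have e3 : ∑ l, ∑ k, ∑ i, ∑ j, S.h l k * S.h i j * (S.hess u k i * S.hess u l j) =
        ∑ l, ∑ k, ∑ i, ∑ j, S.h k l * S.h i j * (S.hess u k i * S.hess u l j) := by
      refine Finset.sum_congr rfl fun l _ => Finset.sum_congr rfl fun k _ =>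
        Finset.sum_congr rfl fun i _ => Finset.sum_congr rfl fun j _ => ?_
      rw [hs l k]
    rw [e3]
    exact e2 (fun k i l j => S.h k l * S.h i j * (S.hess u k i * S.hess u l j))
  rw [A1, A2]
  ring

end NRF

end
end

section

/-!
# DA6a: first variation of the Christoffel symbols
-/

noncomputable section

namespace NRF

theorem DA6a_half {R : Type} [CommRing R] [Algebra ℝ R] (x : R) :
    (1 / 2 : ℝ) • (2 * x) = x := by
  rw [two_mul, smul_add, ← add_smul]
  norm_num

theorem DA6a_half' {R : Type} [CommRing R] [Algebra ℝ R] (x : R) :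
    2 * ((1 / 2 : ℝ) • x) = x := by
  rw [two_mul, ← add_smul]
  norm_num

theorem DA6a_delta {ι R : Type} [Fintype ι] [DecidableEq ι] [CommRing R] (k : ι) (f : ι → R) :
    ∑ m, (1 : Matrix ι ι R) k m * f m = f k := by
  rw [Finset.sum_eq_single k]
  · rw [Matrix.one_apply_eq, one_mul]
  · intro m _ hm
    rw [Matrix.one_apply_ne (Ne.symm hm), zero_mul]
  · intro h
    exact absurd (Finset.mem_univ k) h

/-- Christoffel symbols of the first kind. -/
theorem DA6a_first {ι R : Type} [Fintype ι] [DecidableEq ι] [CommRing R] [Algebra ℝ R]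
    (S : Geo ι R) (hgh : S.g * S.h = 1) (a i j : ι) :
    2 * ∑ m, S.g a m * S.chr m i j =
      S.D i (S.g j a) + S.D j (S.g i a) - S.D a (S.g i j) := by
  unfold Geo.chr
  have h1 : ∀ m, S.g a m * ((1 / 2 : ℝ) • ∑ l, S.h m l * (S.D i (S.g j l) + S.D j (S.g i l) -
      S.D l (S.g i j))) = (1 / 2 : ℝ) • ∑ l, S.g a m * S.h m l * (S.D i (S.g j l) +
      S.D j (S.g i l) - S.D l (S.g i j)) := by
    intro m
    rw [mul_smul_comm, Finset.mul_sum]
    simp only [mul_assoc]
  simp only [h1]
  rw [← Finset.smul_sum, DA6a_half', Finset.sum_comm]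
  have h2 : ∀ l, ∑ m, S.g a m * S.h m l * (S.D i (S.g j l) + S.D j (S.g i l) -
      S.D l (S.g i j)) = (S.g * S.h) a l * (S.D i (S.g j l) + S.D j (S.g i l) -
      S.D l (S.g i j)) := by
    intro l
    rw [Matrix.mul_apply, Finset.sum_mul]
  simp only [h2]
  rw [hgh, DA6a_delta]

theorem thm_DA6a (h1 : claimDA1) : claimDA6a := by
  intro ι R _ _ _ _ S T hT k i j
  obtain ⟨hs, hgh, hchr, -, -⟩ := h1 ι R S
  have e1 : ∀ a, 2 * ∑ m, S.g a m * T (S.chr m i j) =
      (S.cov2 (fun a b => T (S.g a b)) i j a + S.cov2 (fun a b => T (S.g a b)) j i a -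
        S.cov2 (fun a b => T (S.g a b)) a i j) := by
    intro a
    have h2 := congrArg T (DA6a_first S hgh a i j)
    have h3 : T (2 * ∑ m, S.g a m * S.chr m i j) =
        2 * ∑ m, S.g a m * T (S.chr m i j) + 2 * ∑ m, S.chr m i j * T (S.g a m) := by
      rw [two_mul, map_add, ← two_mul, map_sum]
      simp only [Derivation.leibniz, smul_eq_mul]
      rw [Finset.sum_add_distrib, mul_add]
    rw [h3, map_sub, map_add, hT, hT, hT] at h2
    unfold Geo.cov2
    simp only
    have h4 : S.D i (T (S.g j a)) - ∑ m, (S.chr m i j * T (S.g m a) + S.chr m i a * T (S.g j m)) +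
        (S.D j (T (S.g i a)) - ∑ m, (S.chr m j i * T (S.g m a) + S.chr m j a * T (S.g i m))) -
        (S.D a (T (S.g i j)) - ∑ m, (S.chr m a i * T (S.g m j) + S.chr m a j * T (S.g i m))) =
        S.D i (T (S.g j a)) + S.D j (T (S.g i a)) - S.D a (T (S.g i j)) -
          2 * ∑ m, S.chr m i j * T (S.g a m) := by
      have h5 : ∑ m, (S.chr m i j * T (S.g m a) + S.chr m i a * T (S.g j m)) +
          ∑ m, (S.chr m j i * T (S.g m a) + S.chr m j a * T (S.g i m)) -
          ∑ m, (S.chr m a i * T (S.g m j) + S.chr m a j * T (S.g i m)) =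
          2 * ∑ m, S.chr m i j * T (S.g a m) := by
        rw [Finset.mul_sum, ← Finset.sum_add_distrib, ← Finset.sum_sub_distrib]
        refine Finset.sum_congr rfl fun m _ => ?_
        rw [hchr m j i, hchr m a i, hchr m a j, S.symm m a, S.symm m j]
        ring
      linear_combination -h5
    rw [h4, ← h2]
    ring
  simp only [← e1]
  have h6 : ∑ l, S.h k l * (2 * ∑ m, S.g l m * T (S.chr m i j)) =
      2 * ∑ m, (S.h * S.g) k m * T (S.chr m i j) := by
    simp only [Matrix.mul_apply, Finset.mul_sum, Finset.sum_mul]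
    rw [Finset.sum_comm]
    refine Finset.sum_congr rfl fun l _ => Finset.sum_congr rfl fun m _ => ?_
    ring
  rw [h6, DA6a_half, S.inv, DA6a_delta]

end NRF

end
end

section

/-!
# DA6b: contracted Palatini identity
-/

noncomputable section

namespace NRF

section sums

variable {ι R : Type} [Fintype ι] [AddCommMonoid R]

theorem DA6b_c12 (F : ι → ι → ι → ι → R) :
    ∑ a, ∑ b, ∑ c, ∑ d, F a b c d = ∑ b, ∑ a, ∑ c, ∑ d, F a b c d := Finset.sum_comm

theorem DA6b_c23 (F : ι → ι → ι → ι → R) :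
    ∑ a, ∑ b, ∑ c, ∑ d, F a b c d = ∑ a, ∑ c, ∑ b, ∑ d, F a b c d :=
  Finset.sum_congr rfl fun _ _ => Finset.sum_comm

theorem DA6b_c34 (F : ι → ι → ι → ι → R) :
    ∑ a, ∑ b, ∑ c, ∑ d, F a b c d = ∑ a, ∑ b, ∑ d, ∑ c, F a b c d :=
  Finset.sum_congr rfl fun _ _ => Finset.sum_congr rfl fun _ _ => Finset.sum_comm

theorem DA6b_t12 (F : ι → ι → ι → R) :
    ∑ a, ∑ b, ∑ c, F a b c = ∑ b, ∑ a, ∑ c, F a b c := Finset.sum_comm

theorem DA6b_t23 (F : ι → ι → ι → R) :
    ∑ a, ∑ b, ∑ c, F a b c = ∑ a, ∑ c, ∑ b, F a b c :=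
  Finset.sum_congr rfl fun _ _ => Finset.sum_comm

theorem DA6b_congr4 {F G : ι → ι → ι → ι → R} (h : ∀ a b c d, F a b c d = G a b c d) :
    ∑ a, ∑ b, ∑ c, ∑ d, F a b c d = ∑ a, ∑ b, ∑ c, ∑ d, G a b c d := by
  simp only [h]

end sums

theorem thm_DA6b (h1 : claimDA1) : claimDA6b := by
  intro ι R _ _ _ _ S T hT
  obtain ⟨hs, -, hchr, -, hDh⟩ := h1 ι R S
  set C : ι → ι → ι → R := fun k i j => T (S.chr k i j) with hC
  have hCs : ∀ k i j, C k i j = C k j i := fun k i j => by
    simp only [hC]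
    rw [hchr]
  -- left hand side
  have hric : ∀ i j, S.h i j * T (S.ric i j) = ∑ k, (S.h i j * S.D k (C k i j)) -
      ∑ k, (S.h i j * S.D j (C k i k)) + (∑ k, ∑ l, S.h i j * (C k k l * S.chr l i j) +
      ∑ k, ∑ l, S.h i j * (S.chr k k l * C l i j) - ∑ k, ∑ l, S.h i j * (C k j l * S.chr l i k) -
      ∑ k, ∑ l, S.h i j * (S.chr k j l * C l i k)) := by
    intro i j
    have e1 : T (S.ric i j) = ∑ k, (S.D k (C k i j) - S.D j (C k i k) +
        ∑ l, (C k k l * S.chr l i j + S.chr k k l * C l i j - C k j l * S.chr l i k -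
          S.chr k j l * C l i k)) := by
      unfold Geo.ric
      rw [map_sum]
      refine Finset.sum_congr rfl fun k _ => ?_
      rw [map_add, map_sub, hT, hT, map_sum]
      congr 1
      refine Finset.sum_congr rfl fun l _ => ?_
      rw [map_sub, Derivation.leibniz, Derivation.leibniz]
      simp only [hC, smul_eq_mul]
      ring
    rw [e1, Finset.mul_sum]
    rw [← Finset.sum_sub_distrib, ← Finset.sum_add_distrib, ← Finset.sum_sub_distrib,
      ← Finset.sum_sub_distrib, ← Finset.sum_add_distrib]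
    refine Finset.sum_congr rfl fun k _ => ?_
    rw [mul_add, mul_sub, Finset.mul_sum, ← Finset.sum_add_distrib, ← Finset.sum_sub_distrib,
      ← Finset.sum_sub_distrib]
    congr 1
    refine Finset.sum_congr rfl fun l _ => ?_
    ring
  simp only [hric, Finset.sum_add_distrib, Finset.sum_sub_distrib]
  -- right hand side
  have hD : ∀ k, S.D k (S.palV T k) = ∑ i, ∑ j, S.h i j * S.D k (C k i j) -
      ∑ i, ∑ j, S.h k j * S.D k (C i i j) -
      (∑ i, ∑ j, ∑ m, S.chr i k m * S.h m j * C k i j) -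
      (∑ i, ∑ j, ∑ m, S.chr j k m * S.h i m * C k i j) +
      (∑ i, ∑ j, ∑ m, S.chr k k m * S.h m j * C i i j) +
      ∑ i, ∑ j, ∑ m, S.chr j k m * S.h k m * C i i j := by
    intro k
    unfold Geo.palV
    simp only [map_sum, map_sub, Derivation.leibniz, smul_eq_mul, hDh]
    rw [← Finset.sum_sub_distrib, ← Finset.sum_sub_distrib, ← Finset.sum_sub_distrib,
      ← Finset.sum_add_distrib, ← Finset.sum_add_distrib]
    refine Finset.sum_congr rfl fun i _ => ?_
    rw [← Finset.sum_sub_distrib, ← Finset.sum_sub_distrib, ← Finset.sum_sub_distrib,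
      ← Finset.sum_add_distrib, ← Finset.sum_add_distrib]
    refine Finset.sum_congr rfl fun j _ => ?_
    simp only [← Finset.sum_mul, Finset.sum_add_distrib]
    simp only [hC]
    ring
  have hP : ∀ k, ∑ m, S.chr k k m * S.palV T m =
      ∑ m, ∑ i, ∑ j, S.chr k k m * S.h i j * C m i j -
      ∑ m, ∑ i, ∑ j, S.chr k k m * S.h m j * C i i j := by
    intro k
    unfold Geo.palV
    rw [← Finset.sum_sub_distrib]
    refine Finset.sum_congr rfl fun m _ => ?_
    rw [Finset.mul_sum, ← Finset.sum_sub_distrib]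
    refine Finset.sum_congr rfl fun i _ => ?_
    rw [Finset.mul_sum, ← Finset.sum_sub_distrib]
    refine Finset.sum_congr rfl fun j _ => ?_
    simp only [hC]
    ring
  simp only [hD, hP, Finset.sum_add_distrib, Finset.sum_sub_distrib]
  -- matching of the sums
  have a1 : ∑ k, ∑ i, ∑ j, S.h i j * S.D k (C k i j) =
      ∑ i, ∑ j, ∑ k, S.h i j * S.D k (C k i j) := by
    conv_lhs => rw [DA6b_t12, DA6b_t23]
  have a2 : ∑ k, ∑ i, ∑ j, S.h k j * S.D k (C i i j) =
      ∑ i, ∑ j, ∑ k, S.h i j * S.D j (C k i k) := by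
    conv_lhs => rw [DA6b_t23, DA6b_t12]
    refine Finset.sum_congr rfl fun i _ => Finset.sum_congr rfl fun j _ =>
      Finset.sum_congr rfl fun k _ => ?_
    rw [hs j i, hCs k k i]
  have x3 : ∑ k, ∑ i, ∑ j, ∑ m, S.chr i k m * S.h m j * C k i j =
      ∑ i, ∑ j, ∑ k, ∑ l, S.h i j * (C k j l * S.chr l i k) := by
    -- order (k, l, j, i)
    conv_lhs => rw [DA6b_c23, DA6b_c12, DA6b_c34, DA6b_c23, DA6b_c12]
    refine DA6b_congr4 fun i j k l => ?_
    rw [hchr l k i, hCs k l j]
    ring
  have x4 : ∑ k, ∑ i, ∑ j, ∑ m, S.chr j k m * S.h i m * C k i j =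
      ∑ i, ∑ j, ∑ k, ∑ l, S.h i j * (S.chr k j l * C l i k) := by
    -- order (l, i, k, j)
    conv_lhs => rw [DA6b_c12, DA6b_c34, DA6b_c23, DA6b_c34]
    refine DA6b_congr4 fun i j k l => ?_
    rw [hchr k l j]
    ring
  have x1 : ∑ k, ∑ i, ∑ j, ∑ m, S.chr j k m * S.h k m * C i i j =
      ∑ i, ∑ j, ∑ k, ∑ l, S.h i j * (C k k l * S.chr l i j) := by
    -- order (i, k, l, j)
    conv_lhs => rw [DA6b_c34, DA6b_c23]
    refine DA6b_congr4 fun i j k l => ?_
    ring
  have x2 : ∑ k, ∑ m, ∑ i, ∑ j, S.chr k k m * S.h i j * C m i j =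
      ∑ i, ∑ j, ∑ k, ∑ l, S.h i j * (S.chr k k l * C l i j) := by
    -- order (k, l, i, j)
    conv_lhs => rw [DA6b_c23, DA6b_c12, DA6b_c34, DA6b_c23]
    refine DA6b_congr4 fun i j k l => ?_
    ring
  have x5 : ∑ k, ∑ i, ∑ j, ∑ m, S.chr k k m * S.h m j * C i i j =
      ∑ k, ∑ m, ∑ i, ∑ j, S.chr k k m * S.h m j * C i i j := by
    conv_lhs => rw [DA6b_c34, DA6b_c23]
  rw [a1, a2, x3, x4, x1, x2, x5]
  abel

end NRF

end
end

section

/-!
# DA6c: evolution of the scalar curvature
-/

noncomputable section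

namespace NRF

theorem DA6c_half {R : Type} [CommRing R] [Algebra ℝ R] (x : R) :
    (1 / 2 : ℝ) • (2 * x) = x := by
  rw [two_mul, smul_add, ← add_smul]
  norm_num

theorem DA6c_half' {R : Type} [CommRing R] [Algebra ℝ R] (x : R) :
    (1 / 2 : ℝ) • x + (1 / 2 : ℝ) • x = x := by
  rw [← add_smul]
  norm_num

theorem DA6c_two {R : Type} [CommRing R] [Algebra ℝ R] (x : R) : (2 : ℝ) • x = 2 * x := by
  rw [two_smul, two_mul]

theorem DA6c_negtwo {R : Type} [CommRing R] [Algebra ℝ R] (x : R) :
    (-2 : ℝ) • x = -(2 * x) := by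
  rw [neg_smul, DA6c_two]

section sums

variable {ι R : Type} [Fintype ι] [AddCommMonoid R]

theorem DA6c_c12 (F : ι → ι → ι → ι → R) :
    ∑ a, ∑ b, ∑ c, ∑ d, F a b c d = ∑ b, ∑ a, ∑ c, ∑ d, F a b c d := Finset.sum_comm

theorem DA6c_c23 (F : ι → ι → ι → ι → R) :
    ∑ a, ∑ b, ∑ c, ∑ d, F a b c d = ∑ a, ∑ c, ∑ b, ∑ d, F a b c d :=
  Finset.sum_congr rfl fun _ _ => Finset.sum_comm

theorem DA6c_t12 (F : ι → ι → ι → R) :
    ∑ a, ∑ b, ∑ c, F a b c = ∑ b, ∑ a, ∑ c, F a b c := Finset.sum_comm

theorem DA6c_t23 (F : ι → ι → ι → R) :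
    ∑ a, ∑ b, ∑ c, F a b c = ∑ a, ∑ c, ∑ b, F a b c :=
  Finset.sum_congr rfl fun _ _ => Finset.sum_comm

theorem DA6c_congr3 {F G : ι → ι → ι → R} (h : ∀ a b c, F a b c = G a b c) :
    ∑ a, ∑ b, ∑ c, F a b c = ∑ a, ∑ b, ∑ c, G a b c := by
  simp only [h]

end sums

/-- Derivatives of the inverse metric. -/
theorem DA6c_Th {ι R : Type} [Fintype ι] [DecidableEq ι] [CommRing R] [Algebra ℝ R]
    (S : Geo ι R) (hgh : S.g * S.h = 1) (T : Derivation ℝ R R) (i j : ι) :
    T (S.h i j) = -∑ a, ∑ b, S.h i a * T (S.g a b) * S.h b j := by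
  have e1 : ∀ b, ∑ a, (T (S.h i a) * S.g a b) = -∑ a, S.h i a * T (S.g a b) := by
    intro b
    have h1 : T ((S.h * S.g) i b) = 0 := by
      rw [S.inv, Matrix.one_apply]
      split_ifs
      · exact T.map_one_eq_zero
      · exact map_zero T
    rw [Matrix.mul_apply, map_sum] at h1
    simp only [Derivation.leibniz, smul_eq_mul, Finset.sum_add_distrib] at h1
    have h2 : ∑ a, (T (S.h i a) * S.g a b) = ∑ a, S.g a b * T (S.h i a) :=
      Finset.sum_congr rfl fun a _ => mul_comm _ _
    rw [h2]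
    linear_combination h1
  have e2 : T (S.h i j) = ∑ a, T (S.h i a) * (S.g * S.h) a j := by
    rw [hgh, Finset.sum_eq_single j]
    · rw [Matrix.one_apply_eq, mul_one]
    · intro a _ ha
      rw [Matrix.one_apply_ne ha, mul_zero]
    · intro h
      exact absurd (Finset.mem_univ j) h
  rw [e2]
  simp only [Matrix.mul_apply, Finset.mul_sum]
  rw [Finset.sum_comm]
  have e3 : ∀ b, ∑ a, T (S.h i a) * (S.g a b * S.h b j) =
      (∑ a, (T (S.h i a) * S.g a b)) * S.h b j := by
    intro b
    rw [Finset.sum_mul]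
    exact Finset.sum_congr rfl fun a _ => by ring
  simp only [e3, e1]
  rw [Finset.sum_comm, ← Finset.sum_neg_distrib]
  refine Finset.sum_congr rfl fun b _ => ?_
  rw [neg_mul, Finset.sum_mul]

/-- The trace of the covariant derivative of a symmetric tensor. -/
theorem DA6c_trace (h1 : claimDA1) {ι R : Type} [Fintype ι] [DecidableEq ι] [CommRing R]
    [Algebra ℝ R] (S : Geo ι R) (A : ι → ι → R) (l : ι) :
    S.D l (∑ i, ∑ j, S.h i j * A i j) = ∑ i, ∑ j, S.h i j * S.cov2 A l i j := by
  obtain ⟨hs, -, hchr, -, hDh⟩ := h1 ι R S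
  unfold Geo.cov2
  simp only [map_sum, Derivation.leibniz, smul_eq_mul, hDh, mul_sub, Finset.sum_add_distrib,
    Finset.sum_sub_distrib, mul_add, Finset.mul_sum, mul_neg, Finset.sum_neg_distrib]
  have x1 : ∑ i, ∑ j, ∑ m, A i j * (S.chr i l m * S.h m j) =
      ∑ i, ∑ j, ∑ m, S.h i j * (S.chr m l i * A m j) := by
    conv_lhs => rw [DA6c_t23, DA6c_t12, DA6c_t23]
    exact DA6c_congr3 fun i j m => by ring
  have x2 : ∑ i, ∑ j, ∑ m, A i j * (S.chr j l m * S.h i m) =
      ∑ i, ∑ j, ∑ m, S.h i j * (S.chr m l j * A i m) := by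
    conv_lhs => rw [DA6c_t23]
    exact DA6c_congr3 fun i j m => by ring
  rw [x1, x2]
  ring

theorem thm_DA6c (h1 : claimDA1) (h3 : claimDA3) (h4 : claimDA4) (h6a : claimDA6a)
    (h6b : claimDA6b) : claimDA6c := by
  intro ι R _ _ _ _ S T c hT hc hg
  obtain ⟨hs, hgh, hchr, hDg, hDh⟩ := h1 ι R S
  have hric : ∀ i j, S.ric i j = S.ric j i := (h3 ι R S).2.2.2.2.2
  set R3 : ι → ι → ι → R := fun k i j => S.cov2 S.ric k i j with hR3
  have hR3s : ∀ k i j, R3 k i j = R3 k j i := by
    intro k i j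
    simp only [hR3]
    unfold Geo.cov2
    rw [hric i j]
    congr 1
    refine Finset.sum_congr rfl fun m _ => ?_
    rw [hric m j, hric m i]
    ring
  -- covariant derivative of the variation
  have hcov : ∀ k i j, S.cov2 (fun a b => T (S.g a b)) k i j = -(2 * R3 k i j) := by
    intro k i j
    simp only [hR3]
    unfold Geo.cov2
    simp only [hg, DA6c_negtwo, map_add, map_neg, Derivation.leibniz, smul_eq_mul, hc, hDg]
    have e1 : S.D k (2 : R) = 0 := by
      have := (S.D k).map_natCast 2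
      simpa using this
    rw [e1]
    have e2 : ∑ m, (S.chr m k i * (-(2 * S.ric m j) + c * S.g m j) +
        S.chr m k j * (-(2 * S.ric i m) + c * S.g i m)) =
        -(2 * ∑ m, (S.chr m k i * S.ric m j + S.chr m k j * S.ric i m)) +
        c * ∑ m, (S.g i m * S.chr m k j + S.g j m * S.chr m k i) := by
      rw [Finset.mul_sum, Finset.mul_sum, ← Finset.sum_neg_distrib, ← Finset.sum_add_distrib]
      refine Finset.sum_congr rfl fun m _ => ?_
      rw [S.symm m j]
      ring
    rw [e2]
    ring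
  have hC : ∀ k i j, T (S.chr k i j) =
      -∑ l, S.h k l * (R3 i j l + R3 j i l - R3 l i j) := by
    intro k i j
    rw [h6a ι R S T hT k i j]
    simp only [hcov]
    have e1 : ∑ l, S.h k l * (-(2 * R3 i j l) + -(2 * R3 j i l) - -(2 * R3 l i j)) =
        2 * -∑ l, S.h k l * (R3 i j l + R3 j i l - R3 l i j) := by
      rw [← Finset.sum_neg_distrib, Finset.mul_sum]
      exact Finset.sum_congr rfl fun l _ => by ring
    rw [e1, DA6c_half]
  -- traces
  have htr : ∀ l, ∑ i, ∑ j, S.h i j * R3 l i j = S.D l S.scal := fun l =>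
    (DA6c_trace h1 S S.ric l).symm
  have hB1 : ∀ l, ∑ i, ∑ j, S.h i j * R3 j i l = (1 / 2 : ℝ) • S.D l S.scal := fun l =>
    h4 ι R S l
  have hB2 : ∀ l, ∑ i, ∑ j, S.h i j * R3 i j l = (1 / 2 : ℝ) • S.D l S.scal := by
    intro l
    rw [← hB1 l, Finset.sum_comm]
    refine Finset.sum_congr rfl fun i _ => Finset.sum_congr rfl fun j _ => ?_
    rw [hs j i]
  have hW : ∀ k, S.palV T k = ∑ l, S.h k l * S.D l S.scal := by
    intro k
    unfold Geo.palV
    simp only [Finset.sum_sub_distrib]
    have e1 : ∑ i, ∑ j, S.h i j * T (S.chr k i j) = 0 := by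
      have a1 : ∑ i, ∑ j, S.h i j * T (S.chr k i j) = -∑ l, S.h k l *
          ((∑ i, ∑ j, S.h i j * R3 i j l) + (∑ i, ∑ j, S.h i j * R3 j i l) -
            ∑ i, ∑ j, S.h i j * R3 l i j) := by
        simp only [hC, mul_neg, Finset.mul_sum, Finset.sum_neg_distrib]
        congr 1
        rw [DA6c_t23, DA6c_t12]
        refine Finset.sum_congr rfl fun l _ => ?_
        rw [← Finset.sum_add_distrib, ← Finset.sum_sub_distrib, Finset.mul_sum]
        refine Finset.sum_congr rfl fun i _ => ?_
        rw [← Finset.sum_add_distrib, ← Finset.sum_sub_distrib, Finset.mul_sum]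
        exact Finset.sum_congr rfl fun j _ => by ring
      rw [a1]
      simp only [hB1, hB2, htr, DA6c_half', sub_self, mul_zero, Finset.sum_const_zero, neg_zero]
    have e2 : ∀ j, ∑ i, T (S.chr i i j) = -S.D j S.scal := by
      intro j
      simp only [hC, Finset.sum_neg_distrib]
      congr 1
      have a2 : ∑ i, ∑ l, S.h i l * (R3 i j l + R3 j i l - R3 l i j) =
          (∑ i, ∑ l, S.h i l * R3 i l j) + (∑ i, ∑ l, S.h i l * R3 j i l) -
            ∑ i, ∑ l, S.h i l * R3 l i j := by
        rw [← Finset.sum_add_distrib, ← Finset.sum_sub_distrib]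
        refine Finset.sum_congr rfl fun i _ => ?_
        rw [← Finset.sum_add_distrib, ← Finset.sum_sub_distrib]
        refine Finset.sum_congr rfl fun l _ => ?_
        rw [hR3s i j l]
        ring
      rw [a2, hB1, hB2, htr]
      ring
    rw [e1, Finset.sum_comm, zero_sub, ← Finset.sum_neg_distrib]
    refine Finset.sum_congr rfl fun j _ => ?_
    rw [← Finset.mul_sum, e2]
    ring
  -- the divergence
  have hdiv : ∑ k, (S.D k (S.palV T k) + ∑ m, S.chr k k m * S.palV T m) = S.lap S.scal := by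
    simp only [hW]
    unfold Geo.lap Geo.hess
    simp only [map_sum, Derivation.leibniz, smul_eq_mul, hDh, mul_sub, Finset.sum_add_distrib,
      Finset.sum_sub_distrib, mul_add, Finset.mul_sum, mul_neg, Finset.sum_neg_distrib]
    have x1 : ∑ k, ∑ l, ∑ m, S.D l S.scal * (S.chr k k m * S.h m l) =
        ∑ k, ∑ m, ∑ l, S.chr k k m * (S.h m l * S.D l S.scal) := by
      conv_lhs => rw [DA6c_t23]
      exact DA6c_congr3 fun i j m => by ring
    have x2 : ∑ k, ∑ l, ∑ m, S.D l S.scal * (S.chr l k m * S.h k m) =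
        ∑ k, ∑ m, ∑ l, S.h k m * (S.chr l k m * S.D l S.scal) := by
      conv_lhs => rw [DA6c_t23]
      exact DA6c_congr3 fun i j m => by ring
    rw [x1, x2]
    ring
  -- assembly
  have e0 : T S.scal = ∑ i, ∑ j, S.ric i j * T (S.h i j) + ∑ i, ∑ j, S.h i j * T (S.ric i j) := by
    unfold Geo.scal
    simp only [map_sum, Derivation.leibniz, smul_eq_mul, Finset.sum_add_distrib]
    rw [add_comm]
  rw [e0, h6b ι R S T hT, hdiv]
  have hTh : ∀ i j, T (S.h i j) = 2 * (∑ a, ∑ b, S.h i a * S.h j b * S.ric a b) -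
      c * S.h i j := by
    intro i j
    rw [DA6c_Th S hgh T i j]
    have a3 : ∑ a, ∑ b, S.h i a * T (S.g a b) * S.h b j =
        c * (∑ a, S.h i a * ∑ b, S.g a b * S.h b j) -
          2 * (∑ a, ∑ b, S.h i a * S.h j b * S.ric a b) := by
      simp only [Finset.mul_sum]
      rw [← Finset.sum_sub_distrib]
      refine Finset.sum_congr rfl fun a _ => ?_
      rw [← Finset.sum_sub_distrib]
      refine Finset.sum_congr rfl fun b _ => ?_
      rw [hg, DA6c_negtwo, hs j b]
      ring
    have a4 : ∑ a, S.h i a * ∑ b, S.g a b * S.h b j = S.h i j := by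
      have : ∀ a, ∑ b, S.g a b * S.h b j = (S.g * S.h) a j := fun a => by
        rw [Matrix.mul_apply]
      simp only [this]
      rw [hgh, Finset.sum_eq_single j]
      · rw [Matrix.one_apply_eq, mul_one]
      · intro a _ ha
        rw [Matrix.one_apply_ne ha, mul_zero]
      · intro h
        exact absurd (Finset.mem_univ j) h
    rw [a3, a4]
    ring
  have e1 : ∑ i, ∑ j, S.ric i j * T (S.h i j) =
      2 * S.inner2 S.ric S.ric - c * S.scal := by
    simp only [hTh, mul_sub, Finset.sum_sub_distrib]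
    congr 1
    · unfold Geo.inner2
      simp only [Finset.mul_sum]
      refine Finset.sum_congr rfl fun i _ => Finset.sum_congr rfl fun j _ =>
        Finset.sum_congr rfl fun a _ => Finset.sum_congr rfl fun b _ => ?_
      ring
    · unfold Geo.scal
      simp only [Finset.mul_sum]
      refine Finset.sum_congr rfl fun i _ => Finset.sum_congr rfl fun j _ => ?_
      ring
  rw [e1, DA6c_two]
  ring

end NRF

end
end

section

/-!
# DA7: the volume density and the divergence form of the Laplacian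
-/

noncomputable section

namespace NRF

theorem DA7_prod {ι R : Type} [DecidableEq ι] [CommRing R] [Algebra ℝ R] (T : Derivation ℝ R R)
    (s : Finset ι) (f : ι → R) :
    T (∏ i ∈ s, f i) = ∑ i ∈ s, (∏ j ∈ s.erase i, f j) * T (f i) := by
  induction s using Finset.induction_on with
  | empty => simp
  | insert a s ha ih =>
    rw [Finset.prod_insert ha, Derivation.leibniz, ih, Finset.sum_insert ha,
      Finset.erase_insert ha, smul_eq_mul, smul_eq_mul, Finset.mul_sum, add_comm]
    congr 1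
    refine Finset.sum_congr rfl fun i hi => ?_
    have hne : a ≠ i := fun h => ha (h ▸ hi)
    rw [Finset.erase_insert_of_ne hne, Finset.prod_insert (fun h => ha (Finset.mem_of_mem_erase h)),
      mul_assoc]

/-- Jacobi formula for derivations. -/
theorem DA7_jacobi {ι R : Type} [Fintype ι] [DecidableEq ι] [CommRing R] [Algebra ℝ R]
    (T : Derivation ℝ R R) (M : Matrix ι ι R) :
    T M.det = ∑ i, ∑ r, M.adjugate i r * T (M r i) := by
  have h1 : ∀ i, ∑ r, M.adjugate i r * T (M r i) = (M.updateCol i fun r => T (M r i)).det := by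
    intro i
    rw [← Matrix.cramer_apply, Matrix.cramer_eq_adjugate_mulVec]
    rfl
  simp only [h1]
  simp only [Matrix.det_apply]
  rw [Finset.sum_comm, map_sum]
  refine Finset.sum_congr rfl fun σ _ => ?_
  rw [Units.smul_def, map_zsmul, DA7_prod, Finset.smul_sum]
  refine Finset.sum_congr rfl fun i _ => ?_
  rw [Units.smul_def]
  congr 1
  rw [← Finset.mul_prod_erase Finset.univ _ (Finset.mem_univ i), mul_comm]
  congr 1
  · rw [Matrix.updateCol_self]
  · refine Finset.prod_congr rfl fun j hj => ?_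
    rw [Matrix.updateCol_ne (Finset.ne_of_mem_erase hj)]

theorem DA7_half {R : Type} [CommRing R] [Algebra ℝ R] (x : R) :
    (1 / 2 : ℝ) • (2 * x) = x := by
  rw [two_mul, smul_add, ← add_smul]
  norm_num

theorem DA7_delta {ι R : Type} [Fintype ι] [DecidableEq ι] [CommRing R] (k : ι) (f : ι → R) :
    ∑ m, (1 : Matrix ι ι R) k m * f m = f k := by
  rw [Finset.sum_eq_single k]
  · rw [Matrix.one_apply_eq, one_mul]
  · intro m _ hm
    rw [Matrix.one_apply_ne (Ne.symm hm), zero_mul]
  · intro h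
    exact absurd (Finset.mem_univ k) h

theorem thm_DA7 (h1 : claimDA1) : claimDA7 := by
  intro ι R _ _ _ _ S w w' hw hw'
  obtain ⟨hs, hgh, hchr, hDg, hDh⟩ := h1 ι R S
  have hadj : S.g.adjugate = S.g.det • S.h := by
    calc S.g.adjugate = S.g.adjugate * (S.g * S.h) := by rw [hgh, Matrix.mul_one]
      _ = S.g.det • S.h := by
          rw [← Matrix.mul_assoc, Matrix.adjugate_mul, Matrix.smul_mul, Matrix.one_mul]
  -- derivative of the density
  have hT : ∀ T : Derivation ℝ R R, 2 * T w = w * ∑ i, ∑ j, S.h i j * T (S.g i j) := by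
    intro T
    have e1 : T (w * w) = w * w * ∑ i, ∑ j, S.h i j * T (S.g i j) := by
      rw [hw, DA7_jacobi, hadj, Finset.mul_sum]
      refine Finset.sum_congr rfl fun i _ => ?_
      rw [Finset.mul_sum]
      refine Finset.sum_congr rfl fun j _ => ?_
      rw [Matrix.smul_apply, smul_eq_mul, S.symm j i, mul_assoc]
    rw [Derivation.leibniz, smul_eq_mul] at e1
    calc 2 * T w = w * w' * (2 * T w) := by rw [hw', one_mul]
      _ = w' * (w * T w + w * T w) := by ring
      _ = w' * (w * w * ∑ i, ∑ j, S.h i j * T (S.g i j)) := by rw [e1]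
      _ = w * w' * (w * ∑ i, ∑ j, S.h i j * T (S.g i j)) := by ring
      _ = _ := by rw [hw', one_mul]
  have hT2 : ∀ T : Derivation ℝ R R,
      T w = (1 / 2 : ℝ) • (w * ∑ i, ∑ j, S.h i j * T (S.g i j)) := by
    intro T
    rw [← hT T, DA7_half]
  have hD : ∀ k, S.D k w = w * ∑ i, S.chr i i k := by
    intro k
    have e2 : ∑ i, ∑ j, S.h i j * S.D k (S.g i j) = 2 * ∑ i, S.chr i i k := by
      simp only [hDg, Finset.sum_add_distrib, mul_add]
      have a1 : ∑ i, ∑ j, S.h i j * ∑ m, S.g i m * S.chr m k j = ∑ i, S.chr i i k := by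
        have : ∀ i j : ι, S.h i j * ∑ m, S.g i m * S.chr m k j =
            ∑ m, S.h j i * S.g i m * S.chr m k j := by
          intro i j
          rw [Finset.mul_sum]
          refine Finset.sum_congr rfl fun m _ => ?_
          rw [hs i j]
          ring
        simp only [this]
        rw [Finset.sum_comm]
        refine Finset.sum_congr rfl fun j _ => ?_
        rw [Finset.sum_comm]
        have : ∀ m, ∑ i, S.h j i * S.g i m * S.chr m k j = (S.h * S.g) j m * S.chr m k j := by
          intro m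
          rw [Matrix.mul_apply, Finset.sum_mul]
        simp only [this]
        rw [S.inv, DA7_delta, hchr]
      have a2 : ∑ i, ∑ j, S.h i j * ∑ m, S.g j m * S.chr m k i = ∑ i, S.chr i i k := by
        refine Finset.sum_congr rfl fun i _ => ?_
        have : ∀ j : ι, S.h i j * ∑ m, S.g j m * S.chr m k i =
            ∑ m, S.h i j * S.g j m * S.chr m k i := by
          intro j
          rw [Finset.mul_sum]
          refine Finset.sum_congr rfl fun m _ => ?_
          ring
        simp only [this]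
        rw [Finset.sum_comm]
        have : ∀ m, ∑ j, S.h i j * S.g j m * S.chr m k i = (S.h * S.g) i m * S.chr m k i := by
          intro m
          rw [Matrix.mul_apply, Finset.sum_mul]
        simp only [this]
        rw [S.inv, DA7_delta, hchr]
      rw [a1, a2]
      ring
    rw [hT2, e2, mul_left_comm, DA7_half]
  refine ⟨hD, ?_, hT2⟩
  intro u
  unfold Geo.lap Geo.hess
  have b1 : ∀ k, S.D k (w * ∑ l, S.h k l * S.D l u) =
      w * ∑ l, S.h k l * S.D k (S.D l u) +
      (w * ∑ l, ∑ i, S.chr i i k * (S.h k l * S.D l u) -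
       w * ∑ l, ∑ m, S.chr k k m * (S.h m l * S.D l u)) -
      w * ∑ l, ∑ m, S.h k m * (S.chr l k m * S.D l u) := by
    intro k
    rw [Derivation.leibniz, map_sum, hD, smul_eq_mul, smul_eq_mul]
    have c1 : ∀ l, S.D k (S.h k l * S.D l u) = S.h k l * S.D k (S.D l u) -
        ∑ m, S.chr k k m * (S.h m l * S.D l u) - ∑ m, S.h k m * (S.chr l k m * S.D l u) := by
      intro l
      rw [Derivation.leibniz, hDh, smul_eq_mul, smul_eq_mul, Finset.sum_add_distrib]
      have d1 : ∑ m, S.chr k k m * (S.h m l * S.D l u) =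
          S.D l u * ∑ m, S.chr k k m * S.h m l := by
        rw [Finset.mul_sum]
        exact Finset.sum_congr rfl fun m _ => by ring
      have d2 : ∑ m, S.h k m * (S.chr l k m * S.D l u) =
          S.D l u * ∑ m, S.chr l k m * S.h k m := by
        rw [Finset.mul_sum]
        exact Finset.sum_congr rfl fun m _ => by ring
      rw [d1, d2]
      ring
    simp only [c1, Finset.sum_sub_distrib]
    have d3 : ∑ l, ∑ i, S.chr i i k * (S.h k l * S.D l u) =
        (∑ l, S.h k l * S.D l u) * ∑ i, S.chr i i k := by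
      rw [Finset.sum_mul_sum]
      exact Finset.sum_congr rfl fun l _ => Finset.sum_congr rfl fun m _ => by ring
    rw [d3]
    ring
  simp only [b1]
  rw [Finset.sum_sub_distrib, Finset.sum_add_distrib, Finset.sum_sub_distrib]
  have b2 : ∑ k, w * ∑ l, ∑ i, S.chr i i k * (S.h k l * S.D l u) =
      ∑ k, w * ∑ l, ∑ m, S.chr k k m * (S.h m l * S.D l u) := by
    rw [← Finset.mul_sum, ← Finset.mul_sum]
    congr 1
    rw [Finset.sum_comm]
    conv_rhs => rw [Finset.sum_comm]
    refine Finset.sum_congr rfl fun l _ => ?_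
    rw [Finset.sum_comm]
  rw [b2, sub_self, add_zero, ← Finset.mul_sum, ← Finset.mul_sum, ← mul_sub]
  congr 1
  have b3 : ∑ k, ∑ l, ∑ m, S.h k m * (S.chr l k m * S.D l u) =
      ∑ k, ∑ m, S.h k m * ∑ l, S.chr l k m * S.D l u := by
    refine Finset.sum_congr rfl fun k _ => ?_
    rw [Finset.sum_comm]
    refine Finset.sum_congr rfl fun m _ => ?_
    rw [Finset.mul_sum]
  rw [b3, ← Finset.sum_sub_distrib]
  refine Finset.sum_congr rfl fun k _ => ?_
  rw [← Finset.sum_sub_distrib]
  refine Finset.sum_congr rfl fun m _ => ?_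
  rw [mul_sub]

end NRF

end
end

section

/-!
# Behaviour under a change of coordinates
-/

noncomputable section

namespace NRF

open Matrix

section aux

variable {ι R : Type} [Fintype ι] [DecidableEq ι] [CommRing R] [Algebra ℝ R]

omit [DecidableEq ι] in
theorem DA8_map_mul (δ : Derivation ℝ R R) (M N : Matrix ι ι R) :
    (M * N).map δ = M.map δ * N + M * N.map δ := by
  ext i j
  simp only [Matrix.map_apply, Matrix.mul_apply, Matrix.add_apply, map_sum, Derivation.leibniz,
    smul_eq_mul, Finset.sum_add_distrib]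
  rw [add_comm]
  congr 1
  exact Finset.sum_congr rfl fun k _ => mul_comm _ _

omit [Fintype ι] [DecidableEq ι] in
theorem DA8_map_add (δ : Derivation ℝ R R) (M N : Matrix ι ι R) :
    (M + N).map δ = M.map δ + N.map δ := by
  ext i j
  simp

omit [Fintype ι] in
theorem DA8_map_one (δ : Derivation ℝ R R) : (1 : Matrix ι ι R).map δ = 0 := by
  ext i j
  rw [Matrix.map_apply, Matrix.one_apply, Matrix.zero_apply]
  split_ifs <;> simp

theorem DA8_map_comm (S : Geo ι R) (i j : ι) (M : Matrix ι ι R) :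
    (M.map (S.D i)).map (S.D j) = (M.map (S.D j)).map (S.D i) := by
  ext k l
  simp only [Matrix.map_apply]
  exact S.comm _ _ _

/-- The curvature matrices. -/
def DA8F (S : Geo ι R) (i j : ι) : Matrix ι ι R := Matrix.of fun k l => S.rm k l i j

theorem DA8F_eq (S : Geo ι R) (i j : ι) :
    DA8F S i j = (S.chrM j).map (S.D i) - (S.chrM i).map (S.D j) + S.chrM i * S.chrM j -
      S.chrM j * S.chrM i := by
  ext k l
  simp only [DA8F, Matrix.of_apply, Matrix.sub_apply, Matrix.add_apply, Matrix.map_apply,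
    Matrix.mul_apply, Geo.chrM, Geo.rm, Finset.sum_sub_distrib]
  ring

/-- Gauge transformation of the curvature. -/
theorem DA8_gauge (S : Geo ι R) (P Q : Matrix ι ι R) (hPQ : P * Q = 1) (hQP : Q * P = 1)
    (T : ι → Matrix ι ι R) (a b : ι) :
    (Q * T b * P + Q * P.map (S.D b)).map (S.D a) - (Q * T a * P + Q * P.map (S.D a)).map (S.D b) +
      (Q * T a * P + Q * P.map (S.D a)) * (Q * T b * P + Q * P.map (S.D b)) -
      (Q * T b * P + Q * P.map (S.D b)) * (Q * T a * P + Q * P.map (S.D a)) =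
    Q * ((T b).map (S.D a) - (T a).map (S.D b) + T a * T b - T b * T a) * P := by
  have dQ : ∀ i, Q.map (S.D i) = -(Q * P.map (S.D i) * Q) := by
    intro i
    have h2 := DA8_map_mul (S.D i) Q P
    rw [hQP, DA8_map_one] at h2
    have h3 : Q.map (S.D i) * P = -(Q * P.map (S.D i)) := eq_neg_of_add_eq_zero_left h2.symm
    calc Q.map (S.D i) = Q.map (S.D i) * (P * Q) := by rw [hPQ, Matrix.mul_one]
      _ = _ := by rw [← Matrix.mul_assoc, h3, Matrix.neg_mul]
  have e : ∀ i j, (Q * T i * P + Q * P.map (S.D i)) * (Q * T j * P + Q * P.map (S.D j)) =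
      Q * T i * T j * P + Q * T i * P.map (S.D j) +
      Q * P.map (S.D i) * Q * (T j * P + P.map (S.D j)) := by
    intro i j
    have : (Q * T i * P + Q * P.map (S.D i)) * (Q * T j * P + Q * P.map (S.D j)) =
        Q * T i * (P * Q) * (T j * P + P.map (S.D j)) +
        Q * P.map (S.D i) * Q * (T j * P + P.map (S.D j)) := by noncomm_ring
    rw [this, hPQ, Matrix.mul_one]
    noncomm_ring
  rw [e a b, e b a]
  simp only [DA8_map_mul, DA8_map_add, dQ, DA8_map_comm S b a P]
  noncomm_ring

end aux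

section

variable {ι R R' : Type} [Fintype ι] [DecidableEq ι] [CommRing R] [Algebra ℝ R] [CommRing R']
  [Algebra ℝ R'] (S : Geo ι R) (S' : Geo ι R') (ψ : R →ₐ[ℝ] R') (J : Matrix ι ι R')

/-- The pulled back connection matrices. -/
def DA8T (a : ι) : Matrix ι ι R' := ∑ i, J a i • (S.chrM i).map ψ

theorem DA8_dM (hD : ∀ a u, S'.D a (ψ u) = ∑ i, J a i * ψ (S.D i u)) (M : Matrix ι ι R) (a : ι) :
    (M.map ψ).map (S'.D a) = ∑ l, J a l • (M.map (S.D l)).map ψ := by
  ext i j
  simp only [Matrix.map_apply, Matrix.sum_apply, Matrix.smul_apply, smul_eq_mul]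
  exact hD a (M i j)

theorem DA8_Phi (hD : ∀ a u, S'.D a (ψ u) = ∑ i, J a i * ψ (S.D i u))
    (hJ : ∀ a b i, S'.D a (J b i) = S'.D b (J a i)) (a b : ι) :
    (DA8T S ψ J b).map (S'.D a) - (DA8T S ψ J a).map (S'.D b) +
      DA8T S ψ J a * DA8T S ψ J b - DA8T S ψ J b * DA8T S ψ J a =
    ∑ i, ∑ j, (J a i * J b j) • (DA8F S i j).map ψ := by
  have e1 : ∀ a b, (DA8T S ψ J b).map (S'.D a) =
      ∑ i, S'.D a (J b i) • (S.chrM i).map ψ +
        ∑ i, ∑ j, (J a i * J b j) • ((S.chrM j).map (S.D i)).map ψ := by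
    intro a b
    ext k l
    simp only [DA8T, Matrix.map_apply, Matrix.sum_apply, Matrix.smul_apply, smul_eq_mul,
      Matrix.add_apply, map_sum, Derivation.leibniz, hD, Finset.sum_add_distrib, Finset.mul_sum]
    rw [add_comm]
    congr 1
    · exact Finset.sum_congr rfl fun i _ => mul_comm _ _
    · rw [Finset.sum_comm]
      refine Finset.sum_congr rfl fun i _ => Finset.sum_congr rfl fun j _ => ?_
      ring
  have e2 : ∀ a b, DA8T S ψ J a * DA8T S ψ J b =
      ∑ i, ∑ j, (J a i * J b j) • ((S.chrM i).map ψ * (S.chrM j).map ψ) := by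
    intro a b
    unfold DA8T
    rw [Finset.sum_mul]
    refine Finset.sum_congr rfl fun i _ => ?_
    rw [Finset.mul_sum]
    refine Finset.sum_congr rfl fun j _ => ?_
    rw [Matrix.smul_mul, Matrix.mul_smul, smul_smul]
  have e3 : ∀ M : ι → ι → Matrix ι ι R', ∑ i, ∑ j, (J b i * J a j) • M i j =
      ∑ i, ∑ j, (J a i * J b j) • M j i := by
    intro M
    rw [Finset.sum_comm]
    refine Finset.sum_congr rfl fun i _ => Finset.sum_congr rfl fun j _ => ?_
    rw [mul_comm]
  rw [e1 a b, e1 b a, e2 a b, e2 b a, e3, e3]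
  have e4 : ∑ i, S'.D b (J a i) • (S.chrM i).map ψ = ∑ i, S'.D a (J b i) • (S.chrM i).map ψ :=
    Finset.sum_congr rfl fun i _ => by rw [hJ]
  rw [e4]
  have e5 : ∀ i j, (DA8F S i j).map ψ = ((S.chrM j).map (S.D i)).map ψ -
      ((S.chrM i).map (S.D j)).map ψ + (S.chrM i).map ψ * (S.chrM j).map ψ -
      (S.chrM j).map ψ * (S.chrM i).map ψ := by
    intro i j
    rw [DA8F_eq]
    have m1 : ∀ M N : Matrix ι ι R, (M * N).map ψ = M.map ψ * N.map ψ :=
      fun M N => Matrix.map_mul
    have m2 : ∀ M N : Matrix ι ι R, (M + N).map ψ = M.map ψ + N.map ψ :=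
      fun M N => Matrix.map_add _ (fun x y => map_add ψ x y) M N
    have m3 : ∀ M N : Matrix ι ι R, (M - N).map ψ = M.map ψ - N.map ψ :=
      fun M N => Matrix.map_sub _ (fun x y => map_sub ψ x y) M N
    rw [m3, m2, m3, m1, m1]
  simp only [e5, smul_sub, smul_add, Finset.sum_sub_distrib, Finset.sum_add_distrib]
  abel

theorem DA8_dG (h1 : claimDA1) (hD : ∀ a u, S'.D a (ψ u) = ∑ i, J a i * ψ (S.D i u)) (a : ι) :
    (S.g.map ψ).map (S'.D a) =
      S.g.map ψ * DA8T S ψ J a + (S.g.map ψ * DA8T S ψ J a)ᵀ := by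
  obtain ⟨-, -, -, hg, -⟩ := h1 ι R S
  rw [DA8_dM S S' ψ J hD]
  have e : ∀ l, (S.g.map (S.D l)).map ψ =
      S.g.map ψ * (S.chrM l).map ψ + (S.g.map ψ * (S.chrM l).map ψ)ᵀ := by
    intro l
    ext i j
    simp only [Matrix.map_apply, Matrix.add_apply, Matrix.transpose_apply, Matrix.mul_apply,
      hg l i j, Finset.sum_add_distrib, map_add, map_sum, map_mul, Geo.chrM, Matrix.of_apply]
  simp only [e, smul_add, Finset.sum_add_distrib]
  unfold DA8T
  rw [Finset.mul_sum, Matrix.transpose_sum]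
  congr 1
  · exact Finset.sum_congr rfl fun l _ => by rw [Matrix.mul_smul]
  · exact Finset.sum_congr rfl fun l _ => by rw [Matrix.mul_smul, Matrix.transpose_smul]

variable (K : Matrix ι ι R')

/-- The transformed connection matrices. -/
def DA8C (a : ι) : Matrix ι ι R' := Kᵀ * DA8T S ψ J a * Jᵀ + Kᵀ * Jᵀ.map (S'.D a)

theorem DA8_chr (h1 : claimDA1) (h2 : claimDA2) (hKJ : K * J = 1)
    (hD : ∀ a u, S'.D a (ψ u) = ∑ i, J a i * ψ (S.D i u))
    (hJ : ∀ a b i, S'.D a (J b i) = S'.D b (J a i))
    (hg : ∀ a b, S'.g a b = ∑ i, ∑ j, J a i * J b j * ψ (S.g i j)) (a : ι) :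
    S'.chrM a = DA8C S S' ψ J K a := by
  obtain ⟨-, -, hsym, -, -⟩ := h1 ι R S
  have hPQ : Jᵀ * Kᵀ = 1 := by rw [← Matrix.transpose_mul, hKJ, Matrix.transpose_one]
  have hgT : S.gᵀ = S.g := by ext i j; exact S.symm j i
  have hGT : (S.g.map ψ)ᵀ = S.g.map ψ := by
    ext i j
    simp only [Matrix.transpose_apply, Matrix.map_apply, S.symm j i]
  have hg' : S'.g = J * S.g.map ψ * Jᵀ := by
    ext a b
    rw [hg, Matrix.mul_apply, Finset.sum_comm]
    refine Finset.sum_congr rfl fun j _ => ?_
    rw [Matrix.mul_apply, Finset.sum_mul]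
    refine Finset.sum_congr rfl fun i _ => ?_
    simp only [Matrix.map_apply, Matrix.transpose_apply]
    ring
  have hcomp : ∀ l, S'.g.map (S'.D l) = S'.g * DA8C S S' ψ J K l +
      (S'.g * DA8C S S' ψ J K l)ᵀ := by
    intro l
    have e1 : S'.g * DA8C S S' ψ J K l = J * (S.g.map ψ * DA8T S ψ J l) * Jᵀ +
        J * S.g.map ψ * Jᵀ.map (S'.D l) := by
      rw [hg']
      unfold DA8C
      have : J * S.g.map ψ * Jᵀ * (Kᵀ * DA8T S ψ J l * Jᵀ + Kᵀ * Jᵀ.map (S'.D l)) =
          J * S.g.map ψ * (Jᵀ * Kᵀ) * (DA8T S ψ J l * Jᵀ + Jᵀ.map (S'.D l)) := by noncomm_ring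
      rw [this, hPQ, Matrix.mul_one]
      noncomm_ring
    rw [e1, hg', DA8_map_mul, DA8_map_mul, DA8_dG S S' ψ J h1 hD]
    have e2 : (J * (S.g.map ψ * DA8T S ψ J l) * Jᵀ + J * S.g.map ψ * Jᵀ.map (S'.D l))ᵀ =
        J * (S.g.map ψ * DA8T S ψ J l)ᵀ * Jᵀ + J.map (S'.D l) * S.g.map ψ * Jᵀ := by
      have : (Jᵀ.map (S'.D l))ᵀ = J.map (S'.D l) := by
        ext i j
        simp [Matrix.map_apply]
      simp only [Matrix.transpose_add, Matrix.transpose_mul, Matrix.transpose_transpose, hGT, this]
      simp only [Matrix.mul_assoc]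
    rw [e2]
    noncomm_ring
  have hT : ∀ i j k, ∑ p, K p k * ((DA8T S ψ J i * Jᵀ) p j) =
      ∑ p, K p k * ((DA8T S ψ J j * Jᵀ) p i) := by
    intro i j k
    refine Finset.sum_congr rfl fun p _ => ?_
    congr 1
    simp only [DA8T, Matrix.mul_apply, Matrix.sum_apply, Matrix.smul_apply, smul_eq_mul,
      Matrix.map_apply, Geo.chrM, Matrix.of_apply, Matrix.transpose_apply, Finset.sum_mul]
    rw [Finset.sum_comm]
    refine Finset.sum_congr rfl fun q _ => Finset.sum_congr rfl fun l _ => ?_
    rw [hsym p q l]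
    ring
  have hC : ∀ i k j, DA8C S S' ψ J K i k j = DA8C S S' ψ J K j k i := by
    have hexp : ∀ i k j, DA8C S S' ψ J K i k j = ∑ p, K p k * ((DA8T S ψ J i * Jᵀ) p j) +
        ∑ p, K p k * S'.D i (J j p) := by
      intro i k j
      unfold DA8C
      rw [Matrix.mul_assoc, Matrix.add_apply, Matrix.mul_apply, Matrix.mul_apply]
      rfl
    intro i k j
    rw [hexp, hexp, hT i j k]
    congr 1
    exact Finset.sum_congr rfl fun p _ => by rw [hJ i j p]
  have := h2 ι R' S' (fun k i j => DA8C S S' ψ J K i k j) (fun k i j => hC i k j) (by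
    intro l i j
    have h := congrFun (congrFun (hcomp l) i) j
    rw [Matrix.map_apply, Matrix.add_apply, Matrix.transpose_apply, Matrix.mul_apply,
      Matrix.mul_apply] at h
    rw [h, Finset.sum_add_distrib])
  ext k j
  exact (this k a j).symm

theorem DA8_h (h1 : claimDA1) (hKJ : K * J = 1)
    (hg : ∀ a b, S'.g a b = ∑ i, ∑ j, J a i * J b j * ψ (S.g i j)) :
    S'.h = Kᵀ * S.h.map ψ * K := by
  obtain ⟨-, hgh, -⟩ := h1 ι R S
  have hPQ : Jᵀ * Kᵀ = 1 := by rw [← Matrix.transpose_mul, hKJ, Matrix.transpose_one]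
  have hJK : J * K = 1 := mul_eq_one_comm.1 hKJ
  have hg' : S'.g = J * S.g.map ψ * Jᵀ := by
    ext a b
    rw [hg, Matrix.mul_apply, Finset.sum_comm]
    refine Finset.sum_congr rfl fun j _ => ?_
    rw [Matrix.mul_apply, Finset.sum_mul]
    refine Finset.sum_congr rfl fun i _ => ?_
    simp only [Matrix.map_apply, Matrix.transpose_apply]
    ring
  have hGH : S.g.map ψ * S.h.map ψ = 1 := by
    rw [← Matrix.map_mul, hgh]
    exact Matrix.map_one _ (map_zero ψ) (map_one ψ)
  have e : S'.g * (Kᵀ * S.h.map ψ * K) = 1 := by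
    rw [hg']
    calc J * S.g.map ψ * Jᵀ * (Kᵀ * S.h.map ψ * K) =
        J * (S.g.map ψ * (Jᵀ * Kᵀ) * S.h.map ψ) * K := by noncomm_ring
      _ = 1 := by rw [hPQ, Matrix.mul_one, hGH, Matrix.mul_one, hJK]
  calc S'.h = S'.h * (S'.g * (Kᵀ * S.h.map ψ * K)) := by rw [e, Matrix.mul_one]
    _ = _ := by rw [← Matrix.mul_assoc, S'.inv, Matrix.one_mul]

omit [Algebra ℝ R'] in
theorem DA8_sum (hKJ : K * J = 1) (W : ι → ι → ι → ι → R') (a b : ι) :
    ∑ c, ∑ l, (∑ k, K k c * (∑ i, ∑ j, (J c i * J b j) * W k l i j)) * J a l =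
      ∑ l, ∑ j, J a l * J b j * ∑ k, W k l k j := by
  simp only [Finset.mul_sum, Finset.sum_mul]
  rw [Finset.sum_comm]
  refine Finset.sum_congr rfl fun l _ => ?_
  calc ∑ c, ∑ k, ∑ i, ∑ j, K k c * (J c i * J b j * W k l i j) * J a l =
      ∑ c, ∑ k, ∑ j, ∑ i, K k c * (J c i * J b j * W k l i j) * J a l :=
        Finset.sum_congr rfl fun c _ => Finset.sum_congr rfl fun k _ => Finset.sum_comm
    _ = ∑ c, ∑ j, ∑ k, ∑ i, K k c * (J c i * J b j * W k l i j) * J a l :=
        Finset.sum_congr rfl fun c _ => Finset.sum_comm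
    _ = ∑ j, ∑ c, ∑ k, ∑ i, K k c * (J c i * J b j * W k l i j) * J a l := Finset.sum_comm
    _ = ∑ j, ∑ k, ∑ c, ∑ i, K k c * (J c i * J b j * W k l i j) * J a l :=
        Finset.sum_congr rfl fun j _ => Finset.sum_comm
    _ = ∑ j, ∑ k, ∑ i, ∑ c, K k c * (J c i * J b j * W k l i j) * J a l :=
        Finset.sum_congr rfl fun j _ => Finset.sum_congr rfl fun k _ => Finset.sum_comm
    _ = _ := by
        refine Finset.sum_congr rfl fun j _ => Finset.sum_congr rfl fun k _ => ?_
        have e : ∀ i, ∑ c, K k c * (J c i * J b j * W k l i j) * J a l =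
            (1 : Matrix ι ι R') k i * (J b j * W k l i j * J a l) := by
          intro i
          rw [← hKJ, Matrix.mul_apply, Finset.sum_mul]
          refine Finset.sum_congr rfl fun c _ => ?_
          ring
        simp only [e, Matrix.one_apply, ite_mul, one_mul, zero_mul]
        rw [Finset.sum_ite_eq]
        simp only [Finset.mem_univ, if_true]
        ring

theorem DA8_ric (h1 : claimDA1) (h2 : claimDA2) (h3 : claimDA3) (hKJ : K * J = 1)
    (hD : ∀ a u, S'.D a (ψ u) = ∑ i, J a i * ψ (S.D i u))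
    (hJ : ∀ a b i, S'.D a (J b i) = S'.D b (J a i))
    (hg : ∀ a b, S'.g a b = ∑ i, ∑ j, J a i * J b j * ψ (S.g i j)) (a b : ι) :
    S'.ric a b = ∑ i, ∑ j, J a i * J b j * ψ (S.ric i j) := by
  have hPQ : Jᵀ * Kᵀ = 1 := by rw [← Matrix.transpose_mul, hKJ, Matrix.transpose_one]
  have hQP : Kᵀ * Jᵀ = 1 := mul_eq_one_comm.1 hPQ
  obtain ⟨-, -, -, -, hr', -⟩ := h3 ι R' S'
  obtain ⟨-, -, -, -, hr, -⟩ := h3 ι R S
  have hF : ∀ a b, DA8F S' a b = Kᵀ * (∑ i, ∑ j, (J a i * J b j) • (DA8F S i j).map ψ) * Jᵀ := by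
    intro a b
    rw [DA8F_eq, DA8_chr S S' ψ J K h1 h2 hKJ hD hJ hg, DA8_chr S S' ψ J K h1 h2 hKJ hD hJ hg]
    unfold DA8C
    rw [DA8_gauge S' Jᵀ Kᵀ hPQ hQP (fun a => DA8T S ψ J a) a b, DA8_Phi S S' ψ J hD hJ]
  rw [hr']
  have e1 : ∀ c, S'.rm c a c b =
      ∑ l, (∑ k, K k c * (∑ i, ∑ j, (J c i * J b j) * ψ (S.rm k l i j))) * J a l := by
    intro c
    have h := congrFun (congrFun (hF c b) c) a
    rw [show DA8F S' c b c a = S'.rm c a c b from rfl] at h
    rw [h, Matrix.mul_apply]
    refine Finset.sum_congr rfl fun l _ => ?_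
    rw [Matrix.mul_apply]
    congr 1
    refine Finset.sum_congr rfl fun k _ => ?_
    simp only [Matrix.sum_apply, Matrix.smul_apply, smul_eq_mul, Matrix.map_apply,
      Matrix.transpose_apply]
    rfl
  simp only [e1]
  rw [DA8_sum J K hKJ (fun k l i j => ψ (S.rm k l i j)) a b]
  refine Finset.sum_congr rfl fun l _ => Finset.sum_congr rfl fun j _ => ?_
  rw [hr l j, map_sum]

/-- Transformed contraction of two covariant 2-tensors with one metric each. -/
theorem DA8_contr (h1 : claimDA1) (hKJ : K * J = 1)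
    (hg : ∀ a b, S'.g a b = ∑ i, ∑ j, J a i * J b j * ψ (S.g i j)) (A : Matrix ι ι R')
    (A' : Matrix ι ι R') (hA : A' = J * A * Jᵀ) :
    ∑ a, ∑ b, S'.h a b * A' a b = ∑ i, ∑ j, ψ (S.h i j) * A i j := by
  have hQP : Kᵀ * Jᵀ = 1 := by
    refine mul_eq_one_comm.1 ?_
    rw [← Matrix.transpose_mul, hKJ, Matrix.transpose_one]
  have e : ∀ M N : Matrix ι ι R', ∑ a, ∑ b, M a b * N a b = (M * Nᵀ).trace := by
    intro M N
    simp only [Matrix.trace, Matrix.diag, Matrix.mul_apply, Matrix.transpose_apply]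
  have e2 : ∑ i, ∑ j, ψ (S.h i j) * A i j = (S.h.map ψ * Aᵀ).trace := e (S.h.map ψ) A
  rw [e, e2, DA8_h S S' ψ J K h1 hKJ hg, hA]
  have hJK : J * K = 1 := mul_eq_one_comm.1 hKJ
  have e3 : Kᵀ * S.h.map ψ * K * (J * A * Jᵀ)ᵀ = Kᵀ * (S.h.map ψ * Aᵀ * Jᵀ) := by
    rw [Matrix.transpose_mul, Matrix.transpose_mul, Matrix.transpose_transpose]
    calc Kᵀ * S.h.map ψ * K * (J * (Aᵀ * Jᵀ)) = Kᵀ * S.h.map ψ * (K * J) * (Aᵀ * Jᵀ) := by
          noncomm_ring
      _ = _ := by rw [hKJ, Matrix.mul_one]; noncomm_ring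
  rw [e3, Matrix.trace_mul_comm, Matrix.mul_assoc]
  have : Jᵀ * Kᵀ = 1 := by rw [← Matrix.transpose_mul, hKJ, Matrix.transpose_one]
  rw [this, Matrix.mul_one]

end

theorem thm_DA8 (h1 : claimDA1) (h2 : claimDA2) (h3 : claimDA3) : claimDA8 := by
  intro ι R R' _ _ _ _ _ _ S S' ψ J K hKJ hD hJ hg
  have hric := DA8_ric S S' ψ J K h1 h2 h3 hKJ hD hJ hg
  have hP : Jᵀ * Kᵀ = 1 := by rw [← Matrix.transpose_mul, hKJ, Matrix.transpose_one]
  have hJK : J * K = 1 := mul_eq_one_comm.1 hKJ
  have two : ∀ (A : ι → ι → R') (A' : ι → ι → R'),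
      (∀ a b, A' a b = ∑ i, ∑ j, J a i * J b j * A i j) →
      Matrix.of A' = J * Matrix.of A * Jᵀ := by
    intro A A' h
    ext a b
    rw [Matrix.of_apply, h, Matrix.mul_apply, Finset.sum_comm]
    refine Finset.sum_congr rfl fun j _ => ?_
    rw [Matrix.mul_apply, Finset.sum_mul]
    refine Finset.sum_congr rfl fun i _ => ?_
    simp only [Matrix.of_apply, Matrix.transpose_apply]
    ring
  refine ⟨hric, ?_, fun u => ?_, fun u v => ?_, ?_⟩
  · have h := DA8_contr S S' ψ J K h1 hKJ hg (Matrix.of fun i j => ψ (S.ric i j))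
      (Matrix.of S'.ric) (two _ _ hric)
    unfold Geo.scal
    simp only [Matrix.of_apply] at h
    rw [h]
    simp only [map_sum, map_mul]
  · have hh : ∀ a b, S'.hess (ψ u) a b = ∑ i, ∑ j, J a i * J b j * ψ (S.hess u i j) := by
      intro a b
      have hchr : ∀ c, S'.chr c a b = ∑ p, K p c * ((DA8T S ψ J a * Jᵀ) p b +
          S'.D a (J b p)) := by
        intro c
        have h := congrFun (congrFun (DA8_chr S S' ψ J K h1 h2 hKJ hD hJ hg a) c) b
        rw [show S'.chrM a c b = S'.chr c a b from rfl] at h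
        rw [h]
        unfold DA8C
        rw [Matrix.mul_assoc, Matrix.add_apply, Matrix.mul_apply, Matrix.mul_apply,
          ← Finset.sum_add_distrib]
        refine Finset.sum_congr rfl fun p _ => ?_
        rw [mul_add]
        rfl
      have e1 : ∑ c, S'.chr c a b * S'.D c (ψ u) =
          ∑ p, ((DA8T S ψ J a * Jᵀ) p b + S'.D a (J b p)) * ψ (S.D p u) := by
        have e2 : ∀ c, S'.chr c a b * S'.D c (ψ u) = ∑ p, ∑ i, K p c * J c i *
            (((DA8T S ψ J a * Jᵀ) p b + S'.D a (J b p)) * ψ (S.D i u)) := by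
          intro c
          rw [hchr, hD, Finset.sum_mul_sum]
          refine Finset.sum_congr rfl fun p _ => Finset.sum_congr rfl fun i _ => ?_
          ring
        simp only [e2]
        rw [Finset.sum_comm]
        refine Finset.sum_congr rfl fun p _ => ?_
        rw [Finset.sum_comm]
        have e3 : ∀ i, ∑ c, K p c * J c i *
            (((DA8T S ψ J a * Jᵀ) p b + S'.D a (J b p)) * ψ (S.D i u)) =
            (1 : Matrix ι ι R') p i *
              (((DA8T S ψ J a * Jᵀ) p b + S'.D a (J b p)) * ψ (S.D i u)) := by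
          intro i
          rw [← hKJ, Matrix.mul_apply (M := K) (N := J), Finset.sum_mul]
        simp only [e3, Matrix.one_apply, ite_mul, one_mul, zero_mul]
        rw [Finset.sum_ite_eq]
        simp
      have e4 : S'.D a (S'.D b (ψ u)) = ∑ p, S'.D a (J b p) * ψ (S.D p u) +
          ∑ i, ∑ j, J a i * J b j * ψ (S.D i (S.D j u)) := by
        rw [hD b u, map_sum]
        have : ∀ j, S'.D a (J b j * ψ (S.D j u)) = S'.D a (J b j) * ψ (S.D j u) +
            ∑ i, J a i * J b j * ψ (S.D i (S.D j u)) := by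
          intro j
          rw [Derivation.leibniz, smul_eq_mul, smul_eq_mul, hD, Finset.mul_sum, add_comm]
          congr 1
          · ring
          · exact Finset.sum_congr rfl fun i _ => by ring
        simp only [this, Finset.sum_add_distrib]
        congr 1
        exact Finset.sum_comm
      have e5 : ∑ p, (DA8T S ψ J a * Jᵀ) p b * ψ (S.D p u) =
          ∑ i, ∑ j, J a i * J b j * ∑ p, ψ (S.chr p i j) * ψ (S.D p u) := by
        have e6 : ∀ p, (DA8T S ψ J a * Jᵀ) p b * ψ (S.D p u) =
            ∑ i, ∑ j, J a i * J b j * (ψ (S.chr p i j) * ψ (S.D p u)) := by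
          intro p
          simp only [DA8T, Matrix.mul_apply, Matrix.sum_apply, Matrix.smul_apply, smul_eq_mul,
            Matrix.map_apply, Matrix.transpose_apply, Finset.sum_mul, Geo.chrM, Matrix.of_apply]
          rw [Finset.sum_comm]
          refine Finset.sum_congr rfl fun i _ => Finset.sum_congr rfl fun j _ => ?_
          ring
        simp only [e6, Finset.mul_sum]
        rw [Finset.sum_comm]
        refine Finset.sum_congr rfl fun i _ => ?_
        rw [Finset.sum_comm]
      unfold Geo.hess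
      rw [e1, e4]
      simp only [add_mul, Finset.sum_add_distrib, e5, map_sub, map_sum, map_mul, mul_sub,
        Finset.sum_sub_distrib]
      ring
    have h := DA8_contr S S' ψ J K h1 hKJ hg (Matrix.of fun i j => ψ (S.hess u i j))
      (Matrix.of (S'.hess (ψ u))) (two _ _ hh)
    unfold Geo.lap
    simp only [Matrix.of_apply] at h
    rw [h]
    simp only [map_sum, map_mul]
  · have hh : ∀ a b, S'.D a (ψ u) * S'.D b (ψ v) =
        ∑ i, ∑ j, J a i * J b j * ψ (S.D i u * S.D j v) := by
      intro a b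
      rw [hD, hD, Finset.sum_mul_sum]
      refine Finset.sum_congr rfl fun i _ => Finset.sum_congr rfl fun j _ => ?_
      rw [map_mul]
      ring
    have h := DA8_contr S S' ψ J K h1 hKJ hg (Matrix.of fun i j => ψ (S.D i u * S.D j v))
      (Matrix.of fun a b => S'.D a (ψ u) * S'.D b (ψ v)) (two _ _ hh)
    unfold Geo.grad2
    simp only [Matrix.of_apply] at h
    rw [h]
    simp only [map_sum, map_mul]
  · -- the inner product of the Ricci tensors
    have hA : ∀ i j, S'.ric i j = ∑ p, (∑ r, J i r * ψ (S.ric r p)) * J j p := by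
      intro i j
      rw [hric, Finset.sum_comm]
      refine Finset.sum_congr rfl fun p _ => ?_
      rw [Finset.sum_mul]
      refine Finset.sum_congr rfl fun r _ => ?_
      ring
    have hin : ∀ i k, ∑ j, ∑ l, S'.h j l * (S'.ric i j * S'.ric k l) =
        ∑ r, ∑ s, J i r * J k s * ∑ p, ∑ q, ψ (S.h p q) * (ψ (S.ric r p) * ψ (S.ric s q)) := by
      intro i k
      have h := DA8_contr S S' ψ J K h1 hKJ hg
        (Matrix.of fun p q => (∑ r, J i r * ψ (S.ric r p)) * (∑ s, J k s * ψ (S.ric s q)))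
        (Matrix.of fun j l => S'.ric i j * S'.ric k l) (two _ _ (by
          intro j l
          rw [hA i j, hA k l, Finset.sum_mul_sum]
          refine Finset.sum_congr rfl fun p _ => Finset.sum_congr rfl fun q _ => ?_
          ring))
      simp only [Matrix.of_apply] at h
      rw [h]
      simp only [Finset.mul_sum, Finset.sum_mul]
      calc ∑ p, ∑ q, ∑ s, ∑ r, ψ (S.h p q) * (J i r * ψ (S.ric r p) * (J k s * ψ (S.ric s q))) =
          ∑ p, ∑ q, ∑ r, ∑ s, ψ (S.h p q) * (J i r * ψ (S.ric r p) * (J k s * ψ (S.ric s q))) :=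
            Finset.sum_congr rfl fun p _ => Finset.sum_congr rfl fun q _ => Finset.sum_comm
        _ = ∑ p, ∑ r, ∑ q, ∑ s,
            ψ (S.h p q) * (J i r * ψ (S.ric r p) * (J k s * ψ (S.ric s q))) :=
            Finset.sum_congr rfl fun p _ => Finset.sum_comm
        _ = ∑ r, ∑ p, ∑ q, ∑ s,
            ψ (S.h p q) * (J i r * ψ (S.ric r p) * (J k s * ψ (S.ric s q))) := Finset.sum_comm
        _ = ∑ r, ∑ p, ∑ s, ∑ q,
            ψ (S.h p q) * (J i r * ψ (S.ric r p) * (J k s * ψ (S.ric s q))) :=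
            Finset.sum_congr rfl fun r _ => Finset.sum_congr rfl fun p _ => Finset.sum_comm
        _ = ∑ r, ∑ s, ∑ p, ∑ q,
            ψ (S.h p q) * (J i r * ψ (S.ric r p) * (J k s * ψ (S.ric s q))) :=
            Finset.sum_congr rfl fun r _ => Finset.sum_comm
        _ = _ := by
            refine Finset.sum_congr rfl fun r _ => Finset.sum_congr rfl fun s _ =>
              Finset.sum_congr rfl fun p _ => Finset.sum_congr rfl fun q _ => ?_
            ring
    have hl : S'.inner2 S'.ric S'.ric =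
        ∑ i, ∑ k, S'.h i k * ∑ j, ∑ l, S'.h j l * (S'.ric i j * S'.ric k l) := by
      unfold Geo.inner2
      refine Finset.sum_congr rfl fun i _ => ?_
      rw [Finset.sum_comm]
      refine Finset.sum_congr rfl fun k _ => ?_
      rw [Finset.mul_sum]
      refine Finset.sum_congr rfl fun j _ => ?_
      rw [Finset.mul_sum]
      refine Finset.sum_congr rfl fun l _ => ?_
      ring
    have hr : ψ (S.inner2 S.ric S.ric) =
        ∑ i, ∑ k, ψ (S.h i k) * ∑ p, ∑ q, ψ (S.h p q) * (ψ (S.ric i p) * ψ (S.ric k q)) := by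
      unfold Geo.inner2
      simp only [map_sum, map_mul]
      refine Finset.sum_congr rfl fun i _ => ?_
      rw [Finset.sum_comm]
      refine Finset.sum_congr rfl fun k _ => ?_
      rw [Finset.mul_sum]
      refine Finset.sum_congr rfl fun j _ => ?_
      rw [Finset.mul_sum]
      refine Finset.sum_congr rfl fun l _ => ?_
      ring
    rw [hl, hr]
    have h := DA8_contr S S' ψ J K h1 hKJ hg
      (Matrix.of fun r s => ∑ p, ∑ q, ψ (S.h p q) * (ψ (S.ric r p) * ψ (S.ric s q)))
      (Matrix.of fun i k => ∑ j, ∑ l, S'.h j l * (S'.ric i j * S'.ric k l)) (two _ _ hin)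
    simp only [Matrix.of_apply] at h
    exact h

end NRF

end
end

section

/-!
# FR1: orthonormal frames
-/

noncomputable section

namespace NRF

section

/-- Leibniz rule for matrices. -/
theorem FR1_mul {ι R : Type} [Fintype ι] [CommRing R] [Algebra ℝ R] (D : Derivation ℝ R R) (A B : Matrix ι ι R) :
    (A * B).map D = A.map D * B + A * B.map D := by
  ext1 i j
  simp only [Matrix.map_apply, Matrix.mul_apply, Matrix.add_apply, map_sum, Derivation.leibniz,
    smul_eq_mul]
  rw [← Finset.sum_add_distrib]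
  exact Finset.sum_congr rfl fun k _ => by ring

theorem FR1_one {ι R : Type} [DecidableEq ι] [CommRing R] [Algebra ℝ R] (D : Derivation ℝ R R) : (1 : Matrix ι ι R).map D = 0 := by
  ext1 i j
  rw [Matrix.map_apply, Matrix.one_apply]
  split_ifs
  · exact D.map_one_eq_zero
  · exact map_zero D

theorem FR1_transpose {ι R : Type} [CommRing R] [Algebra ℝ R] (D : Derivation ℝ R R) (A : Matrix ι ι R) :
    A.transpose.map D = (A.map D).transpose := rfl

end

theorem thm_FR1 (h1 : claimDA1) : claimFR1 := by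
  intro ι R _ _ _ _ S F
  obtain ⟨hs, hgh, hchr, hDg, hDh⟩ := h1 ι R S
  have hff : F.f * F.fi = 1 := mul_eq_one_comm.1 F.inv
  have hfg : F.f.transpose * S.g = F.fi := by
    calc F.f.transpose * S.g = F.f.transpose * S.g * (F.f * F.fi) := by
          rw [hff, Matrix.mul_one]
      _ = (F.f.transpose * S.g * F.f) * F.fi := by rw [Matrix.mul_assoc _ F.f F.fi]
      _ = F.fi := by rw [F.orth, Matrix.one_mul]
  have hgt : S.g.transpose = S.g := by
    ext1 i j
    exact S.symm j i
  have hgf : S.g * F.f = F.fi.transpose := by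
    rw [← hfg, Matrix.transpose_mul, Matrix.transpose_transpose, hgt]
  have hfit : F.fi.transpose * F.f.transpose = 1 := by
    rw [← Matrix.transpose_mul, hff, Matrix.transpose_one]
  have hh : S.h = F.f * F.f.transpose := by
    have e1 : S.g * (F.f * F.f.transpose) = 1 := by
      rw [← Matrix.mul_assoc, hgf, hfit]
    calc S.h = S.h * (S.g * (F.f * F.f.transpose)) := by rw [e1, Matrix.mul_one]
      _ = (S.h * S.g) * (F.f * F.f.transpose) := by rw [Matrix.mul_assoc]
      _ = F.f * F.f.transpose := by rw [S.inv, Matrix.one_mul]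
  have hDgm : ∀ i, S.g.map (S.D i) = (S.chrM i).transpose * S.g + S.g * S.chrM i := by
    intro l
    ext1 i j
    rw [Matrix.map_apply, hDg, Matrix.add_apply, Matrix.mul_apply, Matrix.mul_apply,
      Finset.sum_add_distrib, add_comm]
    congr 1
    · refine Finset.sum_congr rfl fun m _ => ?_
      rw [Matrix.transpose_apply, Geo.chrM, Matrix.of_apply, S.symm j m, mul_comm]
  refine ⟨hff, hh, fun i => ?_, fun a i j => ?_⟩
  · have e1 := congrArg (fun M : Matrix ι ι R => M.map (S.D i)) F.orth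
    simp only [FR1_one, FR1_mul, FR1_transpose, hDgm] at e1
    have e2 : (F.om i).transpose + F.om i = ((F.f.map (S.D i)).transpose * S.g +
        F.f.transpose * ((S.chrM i).transpose * S.g + S.g * S.chrM i)) * F.f +
        F.f.transpose * S.g * F.f.map (S.D i) := by
      unfold Frame.om
      rw [Matrix.transpose_mul, Matrix.transpose_add, Matrix.transpose_mul, ← hgf, ← hfg]
      noncomm_ring
    rw [e1] at e2
    exact eq_neg_of_add_eq_zero_left e2
  · have e1 : ∀ i, F.om i * F.fi = -F.fi.map (S.D i) + F.fi * S.chrM i := by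
      intro i
      have e2 := congrArg (fun M : Matrix ι ι R => M.map (S.D i)) F.inv
      simp only [FR1_one, FR1_mul] at e2
      have e3 : F.fi * F.f.map (S.D i) = -(F.fi.map (S.D i) * F.f) :=
        eq_neg_of_add_eq_zero_right e2
      unfold Frame.om
      calc F.fi * (F.f.map (S.D i) + S.chrM i * F.f) * F.fi =
          F.fi * F.f.map (S.D i) * F.fi + F.fi * S.chrM i * (F.f * F.fi) := by noncomm_ring
        _ = -(F.fi.map (S.D i) * (F.f * F.fi)) + F.fi * S.chrM i * (F.f * F.fi) := by
            rw [e3]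
            noncomm_ring
        _ = _ := by rw [hff, Matrix.mul_one, Matrix.mul_one]
    have e4 : ∀ i j, S.D i (F.fi a j) + (F.om i * F.fi) a j = ∑ k, F.fi a k * S.chr k i j := by
      intro i j
      rw [e1, Matrix.add_apply, Matrix.neg_apply, Matrix.map_apply, Matrix.mul_apply]
      simp only [Geo.chrM, Matrix.of_apply]
      ring
    have e5 : ∑ k, F.fi a k * S.chr k i j = ∑ k, F.fi a k * S.chr k j i :=
      Finset.sum_congr rfl fun k _ => by rw [hchr]
    have e6 : ∑ b, (F.om i a b * F.fi b j - F.om j a b * F.fi b i) =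
        (F.om i * F.fi) a j - (F.om j * F.fi) a i := by
      rw [Finset.sum_sub_distrib, Matrix.mul_apply, Matrix.mul_apply]
    rw [e6]
    have e7 := e4 i j
    rw [e5, ← e4 j i] at e7
    linear_combination e7

end NRF

end
end

section

/-!
# Curvature in orthonormal frames
-/

noncomputable section

namespace NRF

open Matrix

section

variable {ι R : Type} [Fintype ι] [DecidableEq ι] [CommRing R] [Algebra ℝ R]

omit [DecidableEq ι] in
theorem FR2_map_mul (δ : Derivation ℝ R R) (M N : Matrix ι ι R) :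
    (M * N).map δ = M.map δ * N + M * N.map δ := by
  ext i j
  simp only [Matrix.map_apply, Matrix.mul_apply, Matrix.add_apply, map_sum, Derivation.leibniz,
    smul_eq_mul, Finset.sum_add_distrib]
  rw [add_comm]
  congr 1
  exact Finset.sum_congr rfl fun k _ => mul_comm _ _

omit [Fintype ι] [DecidableEq ι] in
theorem FR2_map_add (δ : Derivation ℝ R R) (M N : Matrix ι ι R) :
    (M + N).map δ = M.map δ + N.map δ := by
  ext i j
  simp

omit [Fintype ι] in
theorem FR2_map_one (δ : Derivation ℝ R R) : (1 : Matrix ι ι R).map δ = 0 := by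
  ext i j
  rw [Matrix.map_apply, Matrix.one_apply, Matrix.zero_apply]
  split_ifs <;> simp

/-- The curvature matrices. -/
def FR2F (S : Geo ι R) (i j : ι) : Matrix ι ι R := Matrix.of fun k l => S.rm k l i j

theorem FR2F_eq (S : Geo ι R) (i j : ι) :
    FR2F S i j = (S.chrM j).map (S.D i) - (S.chrM i).map (S.D j) + S.chrM i * S.chrM j -
      S.chrM j * S.chrM i := by
  ext k l
  simp only [FR2F, Matrix.of_apply, Matrix.sub_apply, Matrix.add_apply, Matrix.map_apply,
    Matrix.mul_apply, Geo.chrM, Geo.rm, Finset.sum_sub_distrib]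
  ring

theorem FR2_map_comm (S : Geo ι R) (i j : ι) (M : Matrix ι ι R) :
    (M.map (S.D i)).map (S.D j) = (M.map (S.D j)).map (S.D i) := by
  ext k l
  simp only [Matrix.map_apply]
  exact S.comm _ _ _

variable {S : Geo ι R} (F : Frame S)

theorem FR2_Dfi (hf : claimFR1) (i : ι) :
    F.fi.map (S.D i) = -(F.fi * F.f.map (S.D i) * F.fi) := by
  have h1 : F.f * F.fi = 1 := (hf ι R S F).1
  have h2 := FR2_map_mul (S.D i) F.fi F.f
  rw [F.inv, FR2_map_one] at h2
  have h3 : F.fi.map (S.D i) * F.f = -(F.fi * F.f.map (S.D i)) := eq_neg_of_add_eq_zero_left h2.symm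
  calc F.fi.map (S.D i) = F.fi.map (S.D i) * (F.f * F.fi) := by rw [h1, Matrix.mul_one]
    _ = _ := by rw [← Matrix.mul_assoc, h3, Matrix.neg_mul]

theorem FR2_Om (hf : claimFR1) (i j : ι) : F.Om i j = F.fi * FR2F S i j * F.f := by
  have h1 : F.f * F.fi = 1 := (hf ι R S F).1
  have e : ∀ i j, F.om i * F.om j = F.fi * F.f.map (S.D i) * F.fi *
      (F.f.map (S.D j) + S.chrM j * F.f) + F.fi * S.chrM i * (F.f.map (S.D j) + S.chrM j * F.f) := by
    intro i j
    unfold Frame.om
    have : F.fi * (F.f.map (S.D i) + S.chrM i * F.f) *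
        (F.fi * (F.f.map (S.D j) + S.chrM j * F.f)) =
        F.fi * F.f.map (S.D i) * F.fi * (F.f.map (S.D j) + S.chrM j * F.f) +
        F.fi * S.chrM i * (F.f * F.fi) * (F.f.map (S.D j) + S.chrM j * F.f) := by noncomm_ring
    rw [this, h1, Matrix.mul_one]
  unfold Frame.Om
  rw [e i j, e j i]
  unfold Frame.om
  rw [FR2_map_mul, FR2_map_mul, FR2_map_add, FR2_map_add, FR2_map_mul, FR2_map_mul,
    FR2_Dfi F hf i, FR2_Dfi F hf j, FR2_map_comm S j i F.f, FR2F_eq]
  noncomm_ring

theorem FR2_fi (hf : claimFR1) : F.fi = F.fᵀ * S.g := by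
  have h1 : F.f * F.fi = 1 := (hf ι R S F).1
  calc F.fi = (F.fᵀ * S.g * F.f) * F.fi := by rw [F.orth, Matrix.one_mul]
    _ = _ := by rw [Matrix.mul_assoc, h1, Matrix.mul_one]

/-- Lowered curvature matrices. -/
def FR2L (S : Geo ι R) (i j : ι) : Matrix ι ι R := Matrix.of fun k l => S.rmL k l i j

theorem FR2_OmL (hf : claimFR1) (i j : ι) : F.Om i j = F.fᵀ * FR2L S i j * F.f := by
  rw [FR2_Om F hf, FR2_fi F hf]
  have : FR2L S i j = S.g * FR2F S i j := by
    ext k l
    simp only [FR2L, FR2F, Matrix.of_apply, Matrix.mul_apply]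
    rfl
  rw [this, ← Matrix.mul_assoc]

/-- Transport of a 4-tensor to the frame. -/
def FR2T (f : Matrix ι ι R) (W : ι → ι → ι → ι → R) (a b c d : ι) : R :=
  ∑ i, ∑ j, ∑ k, ∑ l, f i a * f j b * (f k c * f l d * W i j k l)

omit [DecidableEq ι] [Algebra ℝ R] in
theorem FR2T_swap12 (f : Matrix ι ι R) (W : ι → ι → ι → ι → R) (a b c d : ι) :
    FR2T f W a b c d = FR2T f (fun j i k l => W i j k l) b a c d := by
  unfold FR2T
  rw [Finset.sum_comm]
  refine Finset.sum_congr rfl fun j _ => Finset.sum_congr rfl fun i _ =>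
    Finset.sum_congr rfl fun k _ => Finset.sum_congr rfl fun l _ => ?_
  ring

omit [DecidableEq ι] [Algebra ℝ R] in
theorem FR2T_swap34 (f : Matrix ι ι R) (W : ι → ι → ι → ι → R) (a b c d : ι) :
    FR2T f W a b c d = FR2T f (fun i j l k => W i j k l) a b d c := by
  unfold FR2T
  refine Finset.sum_congr rfl fun i _ => Finset.sum_congr rfl fun j _ => ?_
  rw [Finset.sum_comm]
  refine Finset.sum_congr rfl fun k _ => Finset.sum_congr rfl fun l _ => ?_
  ring

omit [DecidableEq ι] [Algebra ℝ R] in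
theorem FR2T_swap23 (f : Matrix ι ι R) (W : ι → ι → ι → ι → R) (a b c d : ι) :
    FR2T f W a b c d = FR2T f (fun i k j l => W i j k l) a c b d := by
  unfold FR2T
  refine Finset.sum_congr rfl fun i _ => ?_
  rw [Finset.sum_comm]
  refine Finset.sum_congr rfl fun j _ => Finset.sum_congr rfl fun k _ =>
    Finset.sum_congr rfl fun l _ => ?_
  ring

omit [DecidableEq ι] [Algebra ℝ R] in
theorem FR2T_add (f : Matrix ι ι R) (W W' : ι → ι → ι → ι → R) (a b c d : ι) :
    FR2T f (fun i j k l => W i j k l + W' i j k l) a b c d =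
      FR2T f W a b c d + FR2T f W' a b c d := by
  unfold FR2T
  simp only [← Finset.sum_add_distrib]
  refine Finset.sum_congr rfl fun i _ => Finset.sum_congr rfl fun j _ =>
    Finset.sum_congr rfl fun k _ => Finset.sum_congr rfl fun l _ => ?_
  ring

omit [DecidableEq ι] [Algebra ℝ R] in
theorem FR2T_neg (f : Matrix ι ι R) (W : ι → ι → ι → ι → R) (a b c d : ι) :
    FR2T f (fun i j k l => -W i j k l) a b c d = -FR2T f W a b c d := by
  unfold FR2T
  simp only [← Finset.sum_neg_distrib]
  refine Finset.sum_congr rfl fun i _ => Finset.sum_congr rfl fun j _ =>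
    Finset.sum_congr rfl fun k _ => Finset.sum_congr rfl fun l _ => ?_
  ring

omit [DecidableEq ι] [Algebra ℝ R] in
theorem FR2T_zero (f : Matrix ι ι R) (a b c d : ι) :
    FR2T f (fun _ _ _ _ => 0) a b c d = 0 := by
  unfold FR2T
  simp

/-- The frame components are the transported components. -/
theorem FR2_R4 (h3 : claimDA3) (hf : claimFR1) (a b c d : ι) :
    F.R4 a b c d = FR2T F.f S.rmL a b c d := by
  obtain ⟨-, -, -, hp, -⟩ := h3 ι R S
  unfold Frame.R4 FR2T
  refine Finset.sum_congr rfl fun i _ => Finset.sum_congr rfl fun j _ => ?_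
  rw [FR2_OmL F hf, Matrix.mul_apply, Finset.mul_sum]
  simp only [Matrix.mul_apply, Matrix.transpose_apply, Finset.sum_mul, Finset.mul_sum]
  rw [Finset.sum_comm]
  refine Finset.sum_congr rfl fun k _ => Finset.sum_congr rfl fun l _ => ?_
  rw [hp i j k l]
  simp only [FR2L, Matrix.of_apply]
  ring

theorem FR2_ric (h3 : claimDA3) (hf : claimFR1) (a b : ι) :
    ∑ k, F.R4 k a k b = ∑ i, ∑ j, F.f i a * F.f j b * S.ric i j := by
  have hffi : F.f * F.fi = 1 := (hf ι R S F).1
  obtain ⟨-, -, -, -, hr, hrs⟩ := h3 ι R S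
  have e1 : ∀ k, F.R4 k a k b = ∑ j, ∑ l, F.f j a * F.f l b *
      ∑ i, ∑ p, F.f i k * F.fi k p * S.rm p l i j := by
    intro k
    unfold Frame.R4
    rw [Finset.sum_comm]
    refine Finset.sum_congr rfl fun j _ => ?_
    simp only [Finset.mul_sum]
    rw [Finset.sum_comm]
    refine Finset.sum_congr rfl fun i _ => ?_
    rw [FR2_Om F hf, Matrix.mul_apply, Finset.mul_sum]
    refine Finset.sum_congr rfl fun l _ => ?_
    rw [Matrix.mul_apply, Finset.sum_mul, Finset.mul_sum]
    refine Finset.sum_congr rfl fun p _ => ?_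
    simp only [FR2F, Matrix.of_apply]
    ring
  simp only [e1]
  rw [Finset.sum_comm]
  refine Finset.sum_congr rfl fun j _ => ?_
  rw [Finset.sum_comm]
  refine Finset.sum_congr rfl fun l _ => ?_
  rw [← Finset.mul_sum]
  congr 1
  rw [hrs j l, hr l j, Finset.sum_comm]
  refine Finset.sum_congr rfl fun i _ => ?_
  rw [Finset.sum_comm]
  have e2 : ∀ p, ∑ k, F.f i k * F.fi k p * S.rm p l i j =
      (1 : Matrix ι ι R) i p * S.rm p l i j := by
    intro p
    rw [← Finset.sum_mul, ← hffi, Matrix.mul_apply]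
  simp only [e2, Matrix.one_apply, ite_mul, one_mul, zero_mul]
  rw [Finset.sum_ite_eq]
  simp

end

theorem thm_FR2 (h1 : claimDA1) (h3 : claimDA3) (hf : claimFR1) : claimFR2 := by
  intro ι R _ _ _ _ S F
  have hff : S.h = F.f * F.f.transpose := (hf ι R S F).2.1
  obtain ⟨h3a, h3b, h3c, h3p, -, -⟩ := h3 ι R S
  have hT := fun a b c d => FR2_R4 F h3 hf a b c d
  refine ⟨fun i j => FR2_Om F hf i j, fun a b c d => ?_, fun a b c d => ?_, fun a b c d => ?_,
    fun a b c d => ?_, fun a b => FR2_ric F h3 hf a b, ?_, ?_⟩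
  · rw [hT, hT, FR2T_swap12, ← FR2T_neg]
    congr 1
    funext i j k l
    exact h3c j i k l
  · rw [hT, hT, FR2T_swap34, ← FR2T_neg]
    congr 1
    funext i j k l
    rw [h3p i j l k, h3c l k i j, h3p k l i j]
  · rw [hT, hT, FR2T_swap23, FR2T_swap12, FR2T_swap34, FR2T_swap23]
    congr 1
    funext i j k l
    exact h3p _ _ _ _
  · rw [hT, hT, hT]
    have c1 : FR2T F.f S.rmL a c d b = FR2T F.f (fun i j k l => S.rmL i k l j) a b c d := by
      rw [FR2T_swap34, FR2T_swap23]
    have c2 : FR2T F.f S.rmL a d b c = FR2T F.f (fun i j k l => S.rmL i l j k) a b c d := by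
      rw [FR2T_swap23, FR2T_swap34]
    rw [c1, c2, ← FR2T_add, ← FR2T_add]
    have hb : ∀ i j k l, S.rmL i j k l + S.rmL i k l j + S.rmL i l j k = 0 := by
      intro i j k l
      unfold Geo.rmL
      rw [← Finset.sum_add_distrib, ← Finset.sum_add_distrib]
      refine Finset.sum_eq_zero fun m _ => ?_
      rw [← mul_add, ← mul_add, h3b m j k l, mul_zero]
    simp only [hb]
    exact FR2T_zero F.f a b c d
  · simp only [FR2_ric F h3 hf]
    have e : ∀ a, ∑ i, ∑ j, F.f i a * F.f j a * S.ric i j =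
        ∑ i, ∑ j, (F.f i a * F.f j a * S.ric i j) := fun a => rfl
    rw [Finset.sum_comm]
    unfold Geo.scal
    refine Finset.sum_congr rfl fun i _ => ?_
    rw [Finset.sum_comm]
    refine Finset.sum_congr rfl fun j _ => ?_
    rw [← Finset.sum_mul, hff, Matrix.mul_apply]
    rfl
  · simp only [FR2_ric F h3 hf]
    unfold Geo.inner2
    have e : ∀ a b, (∑ i, ∑ j, F.f i a * F.f j b * S.ric i j) ^ 2 =
        ∑ i, ∑ j, ∑ k, ∑ l, F.f i a * F.f k a * (F.f j b * F.f l b) *
          (S.ric i j * S.ric k l) := by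
      intro a b
      rw [sq, Finset.sum_mul]
      refine Finset.sum_congr rfl fun i _ => ?_
      rw [Finset.sum_mul]
      refine Finset.sum_congr rfl fun j _ => ?_
      rw [Finset.mul_sum]
      refine Finset.sum_congr rfl fun k _ => ?_
      rw [Finset.mul_sum]
      refine Finset.sum_congr rfl fun l _ => ?_
      ring
    simp only [e]
    symm
    calc ∑ a, ∑ b, ∑ i, ∑ j, ∑ k, ∑ l, F.f i a * F.f k a * (F.f j b * F.f l b) *
          (S.ric i j * S.ric k l) =
        ∑ a, ∑ i, ∑ j, ∑ k, ∑ l, ∑ b, F.f i a * F.f k a * (F.f j b * F.f l b) *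
          (S.ric i j * S.ric k l) := by
          refine Finset.sum_congr rfl fun a _ => ?_
          rw [Finset.sum_comm]
          refine Finset.sum_congr rfl fun i _ => ?_
          rw [Finset.sum_comm]
          refine Finset.sum_congr rfl fun j _ => ?_
          rw [Finset.sum_comm]
          refine Finset.sum_congr rfl fun k _ => ?_
          rw [Finset.sum_comm]
      _ = ∑ i, ∑ j, ∑ k, ∑ l, ∑ a, ∑ b, F.f i a * F.f k a * (F.f j b * F.f l b) *
          (S.ric i j * S.ric k l) := by
          rw [Finset.sum_comm]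
          refine Finset.sum_congr rfl fun i _ => ?_
          rw [Finset.sum_comm]
          refine Finset.sum_congr rfl fun j _ => ?_
          rw [Finset.sum_comm]
          refine Finset.sum_congr rfl fun k _ => ?_
          rw [Finset.sum_comm]
      _ = _ := by
          refine Finset.sum_congr rfl fun i _ => Finset.sum_congr rfl fun j _ =>
            Finset.sum_congr rfl fun k _ => Finset.sum_congr rfl fun l _ => ?_
          simp only [← Finset.sum_mul, ← Finset.mul_sum]
          rw [hff, Matrix.mul_apply, Matrix.mul_apply]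
          rfl

end NRF

end
end

section

/-!
# Item FR3: exterior and Clifford multiplications on `Lam → R`
-/

noncomputable section

namespace NRF

open Matrix Finset

/-! ### Integer matrices -/

theorem FR3_mul_epsZ (M : Matrix Lam Lam ℤ) (b : Fin 4) (s t : Lam) :
    (M * epsZ b) s t = if b ∉ t then M s (insert b t) * (-1) ^ (t.filter (· < b)).card else 0 := by
  rw [Matrix.mul_apply]
  by_cases hb : b ∈ t
  · simp [epsZ, hb]
  · rw [Finset.sum_eq_single (insert b t)]
    · simp [epsZ, hb]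
    · intro u _ hu
      simp [epsZ, hu]
    · intro h
      exact absurd (Finset.mem_univ _) h

theorem FR3_mul_iotZ (M : Matrix Lam Lam ℤ) (b : Fin 4) (s t : Lam) :
    (M * (epsZ b)ᵀ) s t =
      if b ∈ t then M s (t.erase b) * (-1) ^ ((t.erase b).filter (· < b)).card else 0 := by
  rw [Matrix.mul_apply]
  by_cases hb : b ∈ t
  · rw [if_pos hb, Finset.sum_eq_single (t.erase b)]
    · simp [epsZ, Matrix.transpose_apply, Finset.insert_erase hb]
    · intro u _ hu
      have : ¬ (b ∉ u ∧ t = insert b u) := by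
        rintro ⟨h1, rfl⟩
        exact hu (Finset.erase_insert h1).symm
      simp only [Matrix.transpose_apply, epsZ, Matrix.of_apply]
      rw [if_neg this, mul_zero]
    · intro h
      exact absurd (Finset.mem_univ _) h
  · rw [if_neg hb]
    refine Finset.sum_eq_zero fun u _ => ?_
    have : ¬ (b ∉ u ∧ t = insert b u) := by
      rintro ⟨h1, rfl⟩
      exact hb (Finset.mem_insert_self _ _)
    simp only [Matrix.transpose_apply, epsZ, Matrix.of_apply]
    rw [if_neg this, mul_zero]

theorem FR3_eeZ_aux : ∀ (a b : Fin 4) (s t : Lam),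
    (if b ∉ t then epsZ a s (insert b t) * (-1) ^ (t.filter (· < b)).card else 0) +
    (if a ∉ t then epsZ b s (insert a t) * (-1) ^ (t.filter (· < a)).card else 0) = 0 := by
  decide +kernel

theorem FR3_eeZ (a b : Fin 4) : epsZ a * epsZ b + epsZ b * epsZ a = 0 := by
  ext s t
  rw [Matrix.add_apply, FR3_mul_epsZ, FR3_mul_epsZ, FR3_eeZ_aux, Matrix.zero_apply]

theorem FR3_eiZ_aux : ∀ (a b : Fin 4) (s t : Lam),
    (if b ∈ t then epsZ a s (t.erase b) * (-1) ^ ((t.erase b).filter (· < b)).card else 0) +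
    (if a ∉ t then epsZ b (insert a t) s * (-1) ^ (t.filter (· < a)).card else 0) =
      if a = b ∧ s = t then 1 else 0 := by
  decide +kernel

theorem FR3_eiZ (a b : Fin 4) :
    epsZ a * (epsZ b)ᵀ + (epsZ b)ᵀ * epsZ a = if a = b then 1 else 0 := by
  ext s t
  rw [Matrix.add_apply, FR3_mul_iotZ, FR3_mul_epsZ, Matrix.transpose_apply, FR3_eiZ_aux]
  by_cases h : a = b
  · simp [h, Matrix.one_apply]
  · simp [h]

/-! ### Transport to a commutative ring -/

section

variable (R : Type) [CommRing R]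

theorem FR3_eps_eq (a : Fin 4) : eps R a = (Int.castRingHom R).mapMatrix (epsZ a) := rfl

theorem FR3_iot_eq (a : Fin 4) : iot R a = (Int.castRingHom R).mapMatrix (epsZ a)ᵀ := rfl

theorem FR3_ee (a b : Fin 4) : eps R a * eps R b + eps R b * eps R a = 0 := by
  rw [FR3_eps_eq, FR3_eps_eq, ← map_mul, ← map_mul, ← map_add, FR3_eeZ, map_zero]

theorem FR3_ei (a b : Fin 4) :
    eps R a * iot R b + iot R b * eps R a = if a = b then 1 else 0 := by
  rw [FR3_eps_eq, FR3_iot_eq, ← map_mul, ← map_mul, ← map_add, FR3_eiZ]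
  split_ifs
  · rw [map_one]
  · rw [map_zero]

theorem FR3_e2Z (a : Fin 4) : epsZ a * epsZ a = 0 := by
  have h := FR3_eeZ a a
  ext s t
  have h1 := congrFun (congrFun h s) t
  rw [Matrix.add_apply, Matrix.zero_apply] at h1
  rw [Matrix.zero_apply]
  omega

theorem FR3_e2 (a : Fin 4) : eps R a * eps R a = 0 := by
  rw [FR3_eps_eq, ← map_mul, FR3_e2Z, map_zero]

theorem FR3_ii (a b : Fin 4) : iot R a * iot R b + iot R b * iot R a = 0 := by
  have h := congrArg Matrix.transpose (FR3_ee R b a)
  rw [Matrix.transpose_add, Matrix.transpose_mul, Matrix.transpose_mul,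
    Matrix.transpose_zero] at h
  exact h

theorem FR3_i2 (a : Fin 4) : iot R a * iot R a = 0 := by
  have h := congrArg Matrix.transpose (FR3_e2 R a)
  rw [Matrix.transpose_mul, Matrix.transpose_zero] at h
  exact h

theorem FR3_cc (a b : Fin 4) :
    clf R a * clf R b + clf R b * clf R a = if a = b then -2 else 0 := by
  have h1 := FR3_ee R a b
  have h2 := FR3_ii R a b
  have h3 := FR3_ei R a b
  have h4 := FR3_ei R b a
  have h5 : clf R a * clf R b + clf R b * clf R a =
      (eps R a * eps R b + eps R b * eps R a) + (iot R a * iot R b + iot R b * iot R a)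
      - (eps R a * iot R b + iot R b * eps R a) - (eps R b * iot R a + iot R a * eps R b) := by
    unfold clf
    noncomm_ring
  rw [h5, h1, h2, h3, h4]
  by_cases h : a = b
  · subst h
    simp only [if_true]
    norm_num
  · rw [if_neg h, if_neg h, if_neg (Ne.symm h)]
    simp

theorem FR3_c2 (a : Fin 4) : clf R a * clf R a = -1 := by
  have h1 := FR3_e2 R a
  have h2 := FR3_i2 R a
  have h3 := FR3_ei R a a
  rw [if_pos rfl] at h3
  have h5 : clf R a * clf R a = eps R a * eps R a + iot R a * iot R a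
      - (eps R a * iot R a + iot R a * eps R a) := by
    unfold clf
    noncomm_ring
  rw [h5, h1, h2, h3]
  simp

theorem FR3_oe (a : Fin 4) : evenOdd R * eps R a = -(eps R a * evenOdd R) := by
  ext s t
  unfold evenOdd
  rw [Matrix.neg_apply, Matrix.diagonal_mul, Matrix.mul_diagonal]
  by_cases h : a ∉ t ∧ s = insert a t
  · obtain ⟨h1, rfl⟩ := h
    rw [Finset.card_insert_of_notMem h1, pow_succ]
    ring
  · have h0 : eps R a s t = 0 := by
      simp [eps, epsZ, h]
    rw [h0]
    ring

theorem FR3_oi (a : Fin 4) : evenOdd R * iot R a = -(iot R a * evenOdd R) := by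
  have h := congrArg Matrix.transpose (FR3_oe R a)
  have h1 : (evenOdd R)ᵀ = evenOdd R := Matrix.diagonal_transpose _
  rw [Matrix.transpose_neg, Matrix.transpose_mul, Matrix.transpose_mul, h1] at h
  have h2 : iot R a * evenOdd R = -(evenOdd R * iot R a) := h
  rw [h2, neg_neg]

theorem FR3_oc (a : Fin 4) : evenOdd R * clf R a = -(clf R a * evenOdd R) := by
  unfold clf
  rw [mul_sub, FR3_oe, FR3_oi]
  noncomm_ring

theorem FR3_oo : evenOdd R * evenOdd R = 1 := by
  unfold evenOdd
  rw [Matrix.diagonal_mul_diagonal]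
  have : (fun i : Lam => (-1 : R) ^ i.card * (-1) ^ i.card) = fun _ => 1 := by
    funext s
    rw [← mul_pow]
    simp
  rw [this]
  exact Matrix.diagonal_one

/-- Moving past a product of four anticommuting elements. -/
theorem FR3_move {A : Type} [Ring A] (x y0 y1 y2 y3 : A) (h0 : y0 * x = -(x * y0))
    (h1 : y1 * x = -(x * y1)) (h2 : y2 * x = -(x * y2)) (h3 : y3 * x = -(x * y3)) :
    y0 * y1 * y2 * y3 * x = x * (y0 * y1 * y2 * y3) := by
  calc y0 * y1 * y2 * y3 * x = y0 * y1 * y2 * (y3 * x) := by noncomm_ring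
    _ = -(y0 * y1 * (y2 * x) * y3) := by rw [h3]; noncomm_ring
    _ = y0 * (y1 * x) * y2 * y3 := by rw [h2]; noncomm_ring
    _ = -((y0 * x) * y1 * y2 * y3) := by rw [h1]; noncomm_ring
    _ = x * (y0 * y1 * y2 * y3) := by rw [h0]; noncomm_ring

theorem FR3_anti {a b : Fin 4} (h : a ≠ b) : clf R a * clf R b = -(clf R b * clf R a) := by
  have := FR3_cc R a b
  rw [if_neg h] at this
  exact eq_neg_of_add_eq_zero_left this

theorem FR3_gam_aux {A : Type} [Ring A] (x0 x1 x2 x3 : A) (h01 : x1 * x0 = -(x0 * x1))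
    (h02 : x2 * x0 = -(x0 * x2)) (h03 : x3 * x0 = -(x0 * x3)) (h12 : x2 * x1 = -(x1 * x2))
    (h13 : x3 * x1 = -(x1 * x3)) (h23 : x3 * x2 = -(x2 * x3)) :
    x0 * x1 * x2 * x3 * x0 = -(x0 * (x0 * x1 * x2 * x3)) ∧
    x0 * x1 * x2 * x3 * x1 = -(x1 * (x0 * x1 * x2 * x3)) ∧
    x0 * x1 * x2 * x3 * x2 = -(x2 * (x0 * x1 * x2 * x3)) ∧
    x0 * x1 * x2 * x3 * x3 = -(x3 * (x0 * x1 * x2 * x3)) := by
  refine ⟨?_, ?_, ?_, ?_⟩
  · calc x0 * x1 * x2 * x3 * x0 = x0 * x1 * x2 * (x3 * x0) := by noncomm_ring
      _ = -(x0 * x1 * (x2 * x0) * x3) := by rw [h03]; noncomm_ring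
      _ = x0 * (x1 * x0) * x2 * x3 := by rw [h02]; noncomm_ring
      _ = -(x0 * (x0 * x1 * x2 * x3)) := by rw [h01]; noncomm_ring
  · calc x0 * x1 * x2 * x3 * x1 = x0 * x1 * x2 * (x3 * x1) := by noncomm_ring
      _ = -(x0 * x1 * (x2 * x1) * x3) := by rw [h13]; noncomm_ring
      _ = (x0 * x1) * x1 * x2 * x3 := by rw [h12]; noncomm_ring
      _ = -((x1 * x0) * x1 * x2 * x3) := by rw [h01]; noncomm_ring
      _ = -(x1 * (x0 * x1 * x2 * x3)) := by noncomm_ring
  · calc x0 * x1 * x2 * x3 * x2 = x0 * x1 * x2 * (x3 * x2) := by noncomm_ring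
      _ = x0 * (-(x1 * x2)) * x2 * x3 := by rw [h23]; noncomm_ring
      _ = x0 * (x2 * x1) * x2 * x3 := by rw [h12]
      _ = -(-(x0 * x2) * x1 * x2 * x3) := by noncomm_ring
      _ = -((x2 * x0) * x1 * x2 * x3) := by rw [h02]
      _ = -(x2 * (x0 * x1 * x2 * x3)) := by noncomm_ring
  · calc x0 * x1 * x2 * x3 * x3 = -(x0 * x1 * (-(x2 * x3)) * x3) := by noncomm_ring
      _ = -(x0 * x1 * (x3 * x2) * x3) := by rw [h23]
      _ = x0 * (-(x1 * x3)) * x2 * x3 := by noncomm_ring
      _ = x0 * (x3 * x1) * x2 * x3 := by rw [h13]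
      _ = -(-(x0 * x3) * x1 * x2 * x3) := by noncomm_ring
      _ = -((x3 * x0) * x1 * x2 * x3) := by rw [h03]
      _ = -(x3 * (x0 * x1 * x2 * x3)) := by noncomm_ring

theorem FR3_gc (a : Fin 4) : gam R * clf R a = -(clf R a * gam R) := by
  obtain ⟨h0, h1, h2, h3⟩ := FR3_gam_aux (clf R 0) (clf R 1) (clf R 2) (clf R 3)
    (FR3_anti R (by decide)) (FR3_anti R (by decide)) (FR3_anti R (by decide))
    (FR3_anti R (by decide)) (FR3_anti R (by decide)) (FR3_anti R (by decide))
  fin_cases a
  · exact h0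
  · exact h1
  · exact h2
  · exact h3

theorem FR3_gg : gam R * gam R = 1 := by
  have h0 : gam R * gam R = gam R * clf R 0 * clf R 1 * clf R 2 * clf R 3 := by
    conv_lhs => rw [gam]
    unfold gam
    noncomm_ring
  have e0 := FR3_c2 R 0
  have e1 := FR3_c2 R 1
  have e2 := FR3_c2 R 2
  have e3 := FR3_c2 R 3
  have a21 := FR3_anti R (a := 2) (b := 1) (by decide)
  have a31 := FR3_anti R (a := 3) (b := 1) (by decide)
  have a32 := FR3_anti R (a := 3) (b := 2) (by decide)
  rw [h0, FR3_gc]
  unfold gam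
  generalize clf R 0 = x0 at *
  generalize clf R 1 = x1 at *
  generalize clf R 2 = x2 at *
  generalize clf R 3 = x3 at *
  calc -(x0 * (x0 * x1 * x2 * x3)) * x1 * x2 * x3
      = -((x0 * x0) * x1 * x2 * (x3 * x1) * x2 * x3) := by noncomm_ring
    _ = x0 * x0 * x1 * (x2 * x1) * x3 * x2 * x3 := by rw [a31]; noncomm_ring
    _ = -(x0 * x0 * (x1 * x1) * x2 * (x3 * x2) * x3) := by rw [a21]; noncomm_ring
    _ = x0 * x0 * (x1 * x1) * (x2 * x2) * (x3 * x3) := by rw [a32]; noncomm_ring
    _ = 1 := by rw [e0, e1, e2, e3]; simp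

variable {R}

theorem FR3_orho (A : Matrix (Fin 4) (Fin 4) R) : evenOdd R * rho A = rho A * evenOdd R := by
  unfold rho
  simp only [Finset.mul_sum, Finset.sum_mul]
  refine Finset.sum_congr rfl fun a _ => Finset.sum_congr rfl fun b _ => ?_
  rw [mul_smul_comm, smul_mul_assoc]
  congr 1
  calc evenOdd R * (eps R a * iot R b) = (evenOdd R * eps R a) * iot R b := by
        rw [mul_assoc]
    _ = -(eps R a * (evenOdd R * iot R b)) := by rw [FR3_oe]; noncomm_ring
    _ = eps R a * iot R b * evenOdd R := by rw [FR3_oi]; noncomm_ring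

theorem FR3_rho_eps (A : Matrix (Fin 4) (Fin 4) R) (c : Fin 4) :
    rho A * eps R c - eps R c * rho A = ∑ a, A a c • eps R a := by
  unfold rho
  simp only [Finset.mul_sum, Finset.sum_mul]
  rw [← Finset.sum_sub_distrib]
  refine Finset.sum_congr rfl fun a _ => ?_
  rw [← Finset.sum_sub_distrib]
  have key : ∀ b, A a b • (eps R a * iot R b) * eps R c - eps R c * (A a b • (eps R a * iot R b))
      = if b = c then A a b • eps R a else 0 := by
    intro b
    rw [mul_smul_comm, smul_mul_assoc, ← smul_sub]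
    have h1 : iot R b * eps R c = (if c = b then 1 else 0) - eps R c * iot R b := by
      rw [← FR3_ei R c b]
      noncomm_ring
    have h2 : eps R a * eps R c = -(eps R c * eps R a) :=
      eq_neg_of_add_eq_zero_left (FR3_ee R a c)
    have h3 : eps R a * iot R b * eps R c - eps R c * (eps R a * iot R b) =
        if b = c then eps R a else 0 := by
      calc eps R a * iot R b * eps R c - eps R c * (eps R a * iot R b)
          = eps R a * (iot R b * eps R c) - eps R c * eps R a * iot R b := by noncomm_ring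
        _ = eps R a * (if c = b then 1 else 0) - eps R a * eps R c * iot R b
            - eps R c * eps R a * iot R b := by rw [h1]; noncomm_ring
        _ = eps R a * (if c = b then 1 else 0) := by rw [h2]; noncomm_ring
        _ = if b = c then eps R a else 0 := by
            by_cases h : b = c
            · subst h
              simp
            · rw [if_neg h, if_neg (Ne.symm h), mul_zero]
    rw [h3]
    split_ifs <;> simp
  simp only [key]
  rw [Finset.sum_ite_eq']
  simp

theorem FR3_rho_iot (A : Matrix (Fin 4) (Fin 4) R) (c : Fin 4) :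
    rho A * iot R c - iot R c * rho A = -∑ b, A c b • iot R b := by
  unfold rho
  rw [Finset.sum_comm]
  simp only [Finset.mul_sum, Finset.sum_mul]
  rw [← Finset.sum_sub_distrib, ← Finset.sum_neg_distrib]
  refine Finset.sum_congr rfl fun b _ => ?_
  rw [← Finset.sum_sub_distrib]
  have key : ∀ a, A a b • (eps R a * iot R b) * iot R c - iot R c * (A a b • (eps R a * iot R b))
      = if a = c then -(A a b • iot R b) else 0 := by
    intro a
    rw [mul_smul_comm, smul_mul_assoc, ← smul_sub]
    have h1 : iot R c * eps R a = (if a = c then 1 else 0) - eps R a * iot R c := by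
      rw [← FR3_ei R a c]
      noncomm_ring
    have h2 : iot R b * iot R c = -(iot R c * iot R b) :=
      eq_neg_of_add_eq_zero_left (FR3_ii R b c)
    have h3 : eps R a * iot R b * iot R c - iot R c * (eps R a * iot R b) =
        if a = c then -iot R b else 0 := by
      calc eps R a * iot R b * iot R c - iot R c * (eps R a * iot R b)
          = eps R a * (iot R b * iot R c) - (iot R c * eps R a) * iot R b := by noncomm_ring
        _ = eps R a * (iot R b * iot R c) - (if a = c then 1 else 0) * iot R b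
            + eps R a * iot R c * iot R b := by rw [h1]; noncomm_ring
        _ = -((if a = c then 1 else 0) * iot R b) := by rw [h2]; noncomm_ring
        _ = if a = c then -iot R b else 0 := by
            split_ifs <;> simp
    rw [h3]
    split_ifs <;> simp
  simp only [key]
  rw [Finset.sum_ite_eq']
  simp

theorem FR3_rho_clf (A : Matrix (Fin 4) (Fin 4) R) (hA : A.transpose = -A) (c : Fin 4) :
    rho A * clf R c - clf R c * rho A = ∑ a, A a c • clf R a := by
  have h : ∀ a, A c a = -A a c := by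
    intro a
    have := congrFun (congrFun hA a) c
    simpa using this
  have h1 : rho A * clf R c - clf R c * rho A =
      (rho A * eps R c - eps R c * rho A) - (rho A * iot R c - iot R c * rho A) := by
    unfold clf
    noncomm_ring
  rw [h1, FR3_rho_eps, FR3_rho_iot, sub_neg_eq_add, ← Finset.sum_add_distrib]
  refine Finset.sum_congr rfl fun a _ => ?_
  rw [h a]
  unfold clf
  rw [smul_sub, neg_smul]
  abel

theorem FR3_rho_T (A : Matrix (Fin 4) (Fin 4) R) : (rho A).transpose = rho A.transpose := by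
  unfold rho
  rw [Matrix.transpose_sum]
  simp only [Matrix.transpose_sum, Matrix.transpose_smul, Matrix.transpose_mul]
  rw [Finset.sum_comm]
  rfl

theorem FR3_rho_comm (A B : Matrix (Fin 4) (Fin 4) R) :
    rho A * rho B - rho B * rho A = rho (A * B - B * A) := by
  have h1 : rho A * rho B - rho B * rho A = ∑ c, ∑ d, B c d •
      ((∑ a, A a c • eps R a) * iot R d + eps R c * (-∑ b, A d b • iot R b)) := by
    conv_lhs => rw [show rho B = ∑ c, ∑ d, B c d • (eps R c * iot R d) from rfl]
    simp only [Finset.mul_sum, Finset.sum_mul]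
    rw [← Finset.sum_sub_distrib]
    refine Finset.sum_congr rfl fun c _ => ?_
    rw [← Finset.sum_sub_distrib]
    refine Finset.sum_congr rfl fun d _ => ?_
    rw [← FR3_rho_iot, ← Finset.sum_mul, ← FR3_rho_eps, mul_smul_comm, smul_mul_assoc, ← smul_sub]
    congr 1
    noncomm_ring
  rw [h1]
  have h2 : rho (A * B - B * A) = ∑ a, ∑ d, (∑ c, A a c * B c d) • (eps R a * iot R d)
      - ∑ c, ∑ b, (∑ d, B c d * A d b) • (eps R c * iot R b) := by
    unfold rho
    rw [← Finset.sum_sub_distrib]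
    refine Finset.sum_congr rfl fun a _ => ?_
    rw [← Finset.sum_sub_distrib]
    refine Finset.sum_congr rfl fun d _ => ?_
    rw [← sub_smul]
    rfl
  rw [h2]
  have h3 : ∑ c, ∑ d, B c d •
      ((∑ a, A a c • eps R a) * iot R d + eps R c * (-∑ b, A d b • iot R b)) =
      ∑ c, ∑ d, ∑ a, (A a c * B c d) • (eps R a * iot R d) -
      ∑ c, ∑ d, ∑ b, (B c d * A d b) • (eps R c * iot R b) := by
    rw [← Finset.sum_sub_distrib]
    refine Finset.sum_congr rfl fun c _ => ?_
    rw [← Finset.sum_sub_distrib]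
    refine Finset.sum_congr rfl fun d _ => ?_
    rw [smul_add, mul_neg, smul_neg, ← sub_eq_add_neg, Finset.sum_mul, Finset.mul_sum,
      Finset.smul_sum, Finset.smul_sum]
    congr 1
    · refine Finset.sum_congr rfl fun a _ => ?_
      rw [smul_mul_assoc, smul_smul, mul_comm]
    · refine Finset.sum_congr rfl fun b _ => ?_
      rw [mul_smul_comm, smul_smul]
  rw [h3]
  congr 1
  · rw [Finset.sum_congr rfl fun c _ => Finset.sum_comm, Finset.sum_comm]
    refine Finset.sum_congr rfl fun a _ => ?_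
    rw [Finset.sum_comm]
    refine Finset.sum_congr rfl fun d _ => ?_
    rw [Finset.sum_smul]
  · refine Finset.sum_congr rfl fun c _ => ?_
    rw [Finset.sum_comm]
    refine Finset.sum_congr rfl fun b _ => ?_
    rw [Finset.sum_smul]

end

section

variable {R : Type} [CommRing R] [Algebra ℝ R]

theorem FR3_grho (A : Matrix (Fin 4) (Fin 4) R) (hA : A.transpose = -A) :
    gam R * rho A = rho A * gam R := by
  have h2 : ∀ x : Matrix Lam Lam R, (4 : ℕ) • x = 0 → x = 0 := by
    intro x hx
    have h3 : ((1 / 4 : ℝ)) • ((4 : ℕ) • x) = x := by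
      rw [← Nat.cast_smul_eq_nsmul ℝ, smul_smul]
      norm_num
    rw [← h3, hx, smul_zero]
  have hs : ∀ a b, A b a = -A a b := by
    intro a b
    have := congrFun (congrFun hA a) b
    simpa using this
  have hd : ∀ a, A a a = 0 := by
    intro a
    have h3 : A a a + A a a = 0 := by
      nth_rewrite 1 [hs a a]
      ring
    have h4 : ((1 / 2 : ℝ)) • (A a a + A a a) = A a a := by
      rw [← two_smul ℝ, smul_smul]
      norm_num
    rw [← h4, h3, smul_zero]
  have hrho : (4 : ℕ) • rho A = ∑ a, ∑ b, A a b •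
      ((eps R a + iot R a) * (eps R b + iot R b) - clf R a * clf R b) := by
    have e1 : ∀ a b, (eps R a + iot R a) * (eps R b + iot R b) - clf R a * clf R b =
        (2 : ℕ) • (eps R a * iot R b) - (2 : ℕ) • (eps R b * iot R a) +
          (2 : ℕ) • (if b = a then 1 else 0) := by
      intro a b
      rw [← FR3_ei R b a]
      unfold clf
      noncomm_ring
    have e2 : ∀ a b, A a b • ((eps R a + iot R a) * (eps R b + iot R b) - clf R a * clf R b) =
        (2 : ℕ) • (A a b • (eps R a * iot R b)) + (2 : ℕ) • (A b a • (eps R b * iot R a)) := by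
      intro a b
      rw [e1, smul_add, smul_sub]
      have e3 : A a b • ((2 : ℕ) • (if b = a then (1 : Matrix Lam Lam R) else 0)) = 0 := by
        by_cases h : b = a
        · subst h
          rw [hd, zero_smul]
        · rw [if_neg h, smul_zero, smul_zero]
      rw [e3, add_zero, hs a b, neg_smul, smul_neg, ← sub_eq_add_neg, smul_comm (A a b),
        smul_comm (A a b)]
    simp only [e2]
    unfold rho
    simp only [Finset.sum_add_distrib, ← Finset.smul_sum]
    have e4 : ∑ a, ∑ b, A b a • (eps R b * iot R a) = ∑ a, ∑ b, A a b • (eps R a * iot R b) :=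
      Finset.sum_comm
    rw [e4, ← add_smul]
  have hgh : ∀ a, gam R * (eps R a + iot R a) = (eps R a + iot R a) * gam R := by
    intro a
    have hanti : ∀ b, clf R b * (eps R a + iot R a) = -((eps R a + iot R a) * clf R b) := by
      intro b
      have f1 := FR3_ee R a b
      have f2 := FR3_ii R a b
      have f3 := FR3_ei R a b
      have f4 := FR3_ei R b a
      have f5 : clf R b * (eps R a + iot R a) + (eps R a + iot R a) * clf R b =
          (eps R a * eps R b + eps R b * eps R a) - (iot R a * iot R b + iot R b * iot R a)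
          - (eps R a * iot R b + iot R b * eps R a) + (eps R b * iot R a + iot R a * eps R b) := by
        unfold clf
        noncomm_ring
      rw [f1, f2, f3, f4] at f5
      apply eq_neg_of_add_eq_zero_left
      rw [f5]
      by_cases h : a = b
      · subst h
        simp
      · rw [if_neg h, if_neg (Ne.symm h)]
        simp
    exact FR3_move _ _ _ _ _ (hanti 0) (hanti 1) (hanti 2) (hanti 3)
  have hgcc : ∀ a b, gam R * (clf R a * clf R b) = clf R a * clf R b * gam R := by
    intro a b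
    calc gam R * (clf R a * clf R b) = (gam R * clf R a) * clf R b := by noncomm_ring
      _ = -(clf R a * (gam R * clf R b)) := by rw [FR3_gc]; noncomm_ring
      _ = clf R a * clf R b * gam R := by rw [FR3_gc]; noncomm_ring
  have h4 : gam R * ((4 : ℕ) • rho A) = ((4 : ℕ) • rho A) * gam R := by
    rw [hrho]
    simp only [Finset.mul_sum, Finset.sum_mul]
    refine Finset.sum_congr rfl fun a _ => Finset.sum_congr rfl fun b _ => ?_
    rw [mul_smul_comm, smul_mul_assoc]
    congr 1
    rw [mul_sub, sub_mul, hgcc]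
    congr 1
    calc gam R * ((eps R a + iot R a) * (eps R b + iot R b))
        = (gam R * (eps R a + iot R a)) * (eps R b + iot R b) := by rw [mul_assoc]
      _ = (eps R a + iot R a) * (gam R * (eps R b + iot R b)) := by rw [hgh, mul_assoc]
      _ = (eps R a + iot R a) * (eps R b + iot R b) * gam R := by rw [hgh, mul_assoc]
  have h5 := h2 (gam R * rho A - rho A * gam R) (by
    rw [smul_sub, ← mul_smul_comm, ← smul_mul_assoc, h4, sub_self])
  exact sub_eq_zero.1 h5

end

theorem thm_FR3 : claimFR3 := by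
  intro R _ _
  exact ⟨FR3_ee R, FR3_e2 R, FR3_ei R, FR3_cc R, FR3_c2 R, FR3_oc R, FR3_oo R, FR3_gc R,
    FR3_gg R, FR3_orho, FR3_grho, FR3_rho_eps, FR3_rho_iot, FR3_rho_clf, FR3_rho_comm,
    FR3_rho_T⟩

end NRF

end
end

section

/-!
# FR5: the Weitzenboeck formula in an orthonormal frame
-/

noncomputable section

namespace NRF

namespace FR5

/-! ### The abstract computation -/

theorem alg {E ι : Type} [Ring E] [Fintype ι] (c N : ι → E) (H : ι → ι → E)
    (G : ι → ι → ι → E) (r : ι → ι → E)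
    (hH : ∀ i j, H i j = H j i) (hG : ∀ k i j, G k i j = G k j i)
    (hcc : ∀ i j, c i * c j + c j * c i = -(H i j + H i j))
    (hNc : ∀ i j, N i * c j = c j * N i - ∑ k, G j i k * c k)
    (hGc : ∀ k i j l, c l * G k i j = G k i j * c l)
    (hNN : ∀ i j, N i * N j - N j * N i = r i j)
    (hGH : ∀ k i j, G k i j * H i j = H i j * G k i j) :
    (∑ i, c i * N i) * (∑ j, c j * N j) + (∑ i, c i * N i) * (∑ j, c j * N j) =
      -(∑ i, ∑ j, H i j * (N i * N j - ∑ k, G k i j * N k)) +
      -(∑ i, ∑ j, H i j * (N i * N j - ∑ k, G k i j * N k)) +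
      ∑ i, ∑ j, c i * c j * r i j := by
  have h1 : (∑ i, c i * N i) * (∑ j, c j * N j) =
      ∑ i, ∑ j, c i * c j * (N i * N j) - ∑ i, ∑ j, ∑ k, G j i k * (c i * c k * N j) := by
    rw [Finset.sum_mul_sum, ← Finset.sum_sub_distrib]
    refine Finset.sum_congr rfl fun i _ => ?_
    rw [← Finset.sum_sub_distrib]
    refine Finset.sum_congr rfl fun j _ => ?_
    have h2 : c i * N i * (c j * N j) = c i * (N i * c j) * N j := by noncomm_ring
    rw [h2, hNc, mul_sub, sub_mul, Finset.mul_sum, Finset.sum_mul]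
    congr 1
    · noncomm_ring
    · refine Finset.sum_congr rfl fun k _ => ?_
      rw [← mul_assoc (c i), hGc]
      noncomm_ring
  have hA : ∑ i, ∑ j, c i * c j * (N i * N j) + ∑ i, ∑ j, c i * c j * (N i * N j) =
      ∑ i, ∑ j, c i * c j * r i j - (∑ i, ∑ j, H i j * (N i * N j) +
        ∑ i, ∑ j, H i j * (N i * N j)) := by
    have h3 : ∑ i, ∑ j, c i * c j * (N i * N j) = ∑ i, ∑ j, c j * c i * (N j * N i) :=
      Finset.sum_comm
    have h4 : ∑ i, ∑ j, H i j * (N i * N j) = ∑ i, ∑ j, H i j * (N j * N i) := by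
      rw [Finset.sum_comm]
      refine Finset.sum_congr rfl fun i _ => Finset.sum_congr rfl fun j _ => ?_
      rw [hH j i]
    calc ∑ i, ∑ j, c i * c j * (N i * N j) + ∑ i, ∑ j, c i * c j * (N i * N j)
        = ∑ i, ∑ j, c i * c j * (N i * N j) + ∑ i, ∑ j, c j * c i * (N j * N i) := by
          rw [← h3]
      _ = ∑ i, ∑ j, (c i * c j * r i j - (H i j * (N j * N i) + H i j * (N j * N i))) := by
          rw [← Finset.sum_add_distrib]
          refine Finset.sum_congr rfl fun i _ => ?_
          rw [← Finset.sum_add_distrib]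
          refine Finset.sum_congr rfl fun j _ => ?_
          have h5 : c i * c j * (N i * N j) + c j * c i * (N j * N i) =
              c i * c j * (N i * N j - N j * N i) + (c i * c j + c j * c i) * (N j * N i) := by
            noncomm_ring
          rw [h5, hNN, hcc]
          noncomm_ring
      _ = _ := by
          rw [h4]
          simp only [Finset.sum_sub_distrib, Finset.sum_add_distrib]
  have hB : ∑ i, ∑ j, ∑ k, G j i k * (c i * c k * N j) +
      ∑ i, ∑ j, ∑ k, G j i k * (c i * c k * N j) =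
      -(∑ i, ∑ j, ∑ k, H i j * (G k i j * N k) + ∑ i, ∑ j, ∑ k, H i j * (G k i j * N k)) := by
    have h6 : ∑ i, ∑ j, ∑ k, G j i k * (c i * c k * N j) =
        ∑ i, ∑ j, ∑ k, G j i k * (c k * c i * N j) := by
      have h7 : ∀ f : ι → ι → ι → E, ∑ i, ∑ j, ∑ k, f i j k = ∑ k, ∑ j, ∑ i, f i j k := by
        intro f
        rw [Finset.sum_comm]
        conv_rhs => rw [Finset.sum_comm]
        refine Finset.sum_congr rfl fun j _ => ?_
        rw [Finset.sum_comm]
      rw [h7]
      refine Finset.sum_congr rfl fun i _ => Finset.sum_congr rfl fun j _ =>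
        Finset.sum_congr rfl fun k _ => ?_
      rw [hG j k i]
    have h8 : ∑ i, ∑ j, ∑ k, H i j * (G k i j * N k) =
        ∑ i, ∑ j, ∑ k, G j i k * (H i k * N j) := by
      refine Finset.sum_congr rfl fun i _ => ?_
      rw [Finset.sum_comm]
      refine Finset.sum_congr rfl fun j _ => Finset.sum_congr rfl fun k _ => ?_
      rw [← mul_assoc, ← mul_assoc, hGH]
    calc ∑ i, ∑ j, ∑ k, G j i k * (c i * c k * N j) +
          ∑ i, ∑ j, ∑ k, G j i k * (c i * c k * N j)
        = ∑ i, ∑ j, ∑ k, G j i k * (c i * c k * N j) +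
          ∑ i, ∑ j, ∑ k, G j i k * (c k * c i * N j) := by rw [← h6]
      _ = ∑ i, ∑ j, ∑ k, (-(G j i k * (H i k * N j)) + -(G j i k * (H i k * N j))) := by
          rw [← Finset.sum_add_distrib]
          refine Finset.sum_congr rfl fun i _ => ?_
          rw [← Finset.sum_add_distrib]
          refine Finset.sum_congr rfl fun j _ => ?_
          rw [← Finset.sum_add_distrib]
          refine Finset.sum_congr rfl fun k _ => ?_
          have h9 : G j i k * (c i * c k * N j) + G j i k * (c k * c i * N j) =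
              G j i k * ((c i * c k + c k * c i) * N j) := by noncomm_ring
          rw [h9, hcc]
          noncomm_ring
      _ = _ := by
          rw [h8]
          simp only [Finset.sum_add_distrib, Finset.sum_neg_distrib]
          rw [neg_add]
  have hC : ∑ i, ∑ j, H i j * (N i * N j - ∑ k, G k i j * N k) =
      ∑ i, ∑ j, H i j * (N i * N j) - ∑ i, ∑ j, ∑ k, H i j * (G k i j * N k) := by
    simp only [mul_sub, Finset.mul_sum, Finset.sum_sub_distrib]
  rw [h1, hC]
  have h10 : ∀ a b x y z : E, a + a = z - (x + x) → b + b = -(y + y) →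
      a - b + (a - b) = -(x - y) + -(x - y) + z := by
    intro a b x y z h11 h12
    have h13 : a - b + (a - b) = (a + a) - (b + b) := by abel
    rw [h13, h11, h12]
    abel
  exact h10 _ _ _ _ _ hA hB

variable {R : Type} [CommRing R] [Algebra ℝ R]

theorem two_cancel {x y : R} (h : x + x = y + y) : x = y := by
  have h1 : ∀ z : R, z = (1 / 2 : ℝ) • (z + z) := by
    intro z
    rw [← two_smul ℝ z, smul_smul]
    norm_num
  rw [h1 x, h1 y, h]

/-! ### Matrices as operators -/

/-- A matrix as an additive endomorphism. -/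
def mE (M : Matrix Lam Lam R) : AddMonoid.End (Lam → R) :=
  AddMonoidHom.mk' (fun v => M.mulVec v) (fun v w => Matrix.mulVec_add M v w)

theorem mE_apply (M : Matrix Lam Lam R) (v : Lam → R) : mE M v = M.mulVec v := rfl

theorem mE_mul (M M' : Matrix Lam Lam R) : mE (M * M') = mE M * mE M' := by
  ext v : 1
  show (M * M').mulVec v = M.mulVec (M'.mulVec v)
  rw [Matrix.mulVec_mulVec]

theorem mE_add (M M' : Matrix Lam Lam R) : mE (M + M') = mE M + mE M' := by
  ext v : 1
  show (M + M').mulVec v = M.mulVec v + M'.mulVec v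
  rw [Matrix.add_mulVec]

theorem mE_neg (M : Matrix Lam Lam R) : mE (-M) = -mE M := by
  ext v : 1
  show (-M).mulVec v = -(M.mulVec v)
  rw [Matrix.neg_mulVec]

theorem mE_zero : mE (0 : Matrix Lam Lam R) = 0 := by
  ext v : 1
  show (0 : Matrix Lam Lam R).mulVec v = 0
  rw [Matrix.zero_mulVec]

theorem mE_sum {κ : Type*} (s : Finset κ) (M : κ → Matrix Lam Lam R) :
    mE (∑ k ∈ s, M k) = ∑ k ∈ s, mE (M k) := by
  classical
  induction s using Finset.induction_on with
  | empty => simp [mE_zero]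
  | insert a s ha ih => rw [Finset.sum_insert ha, Finset.sum_insert ha, mE_add, ih]

omit [Algebra ℝ R] in
theorem sum_ap {κ : Type*} (s : Finset κ) (T : κ → AddMonoid.End (Lam → R)) (v : Lam → R) :
    (∑ k ∈ s, T k) v = ∑ k ∈ s, T k v := by
  classical
  induction s using Finset.induction_on with
  | empty => rfl
  | insert a s ha ih =>
    rw [Finset.sum_insert ha, Finset.sum_insert ha, ← ih]
    rfl

/-- Multiplication by a scalar. -/
def sE (r : R) : AddMonoid.End (Lam → R) := mE (r • (1 : Matrix Lam Lam R))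

theorem sE_apply (r : R) (v : Lam → R) : sE r v = r • v := by
  show (r • (1 : Matrix Lam Lam R)).mulVec v = r • v
  rw [Matrix.smul_mulVec, Matrix.one_mulVec]

theorem sE_mul_mE (r : R) (M : Matrix Lam Lam R) : sE r * mE M = mE (r • M) := by
  unfold sE
  rw [← mE_mul, Matrix.smul_mul, Matrix.one_mul]

theorem mE_mul_sE (r : R) (M : Matrix Lam Lam R) : mE M * sE r = mE (r • M) := by
  unfold sE
  rw [← mE_mul, Matrix.mul_smul, Matrix.mul_one]

theorem sE_comm (r r' : R) : sE r * sE r' = sE r' * sE r := by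
  have h : sE r' = mE (r' • (1 : Matrix Lam Lam R)) := rfl
  rw [h, sE_mul_mE, mE_mul_sE]

variable {S : Geo (Fin 4) R} (F : Frame S)

theorem nab_add (i : Fin 4) (v w : Lam → R) : F.nab i (v + w) = F.nab i v + F.nab i w := by
  unfold Frame.nab
  rw [Matrix.mulVec_add]
  funext s
  simp only [Pi.add_apply, map_add]
  ring

/-- The covariant derivative as an additive endomorphism. -/
def nE (i : Fin 4) : AddMonoid.End (Lam → R) := AddMonoidHom.mk' (F.nab i) (nab_add F i)

theorem nE_apply (i : Fin 4) (v : Lam → R) : nE F i v = F.nab i v := rfl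

theorem der_mulVec (i : Fin 4) (M : Matrix Lam Lam R) (v : Lam → R) :
    (fun s => S.D i (M.mulVec v s)) =
      (M.map (S.D i)).mulVec v + M.mulVec (fun s => S.D i (v s)) := by
  funext s
  simp only [Matrix.mulVec, dotProduct, Pi.add_apply, Matrix.map_apply, map_sum,
    Derivation.leibniz, smul_eq_mul]
  rw [← Finset.sum_add_distrib]
  refine Finset.sum_congr rfl fun m _ => ?_
  ring

theorem nE_mul_mE (i : Fin 4) (M : Matrix Lam Lam R) :
    nE F i * mE M = mE (M.map (S.D i) + (rho (F.om i) * M - M * rho (F.om i))) +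
      mE M * nE F i := by
  ext v : 1
  show F.nab i (M.mulVec v) =
    (M.map (S.D i) + (rho (F.om i) * M - M * rho (F.om i))).mulVec v + M.mulVec (F.nab i v)
  unfold Frame.nab
  rw [der_mulVec, Matrix.add_mulVec, Matrix.sub_mulVec, Matrix.mulVec_add,
    Matrix.mulVec_mulVec, Matrix.mulVec_mulVec]
  abel

theorem eps_map (d : Derivation ℝ R R) (a : Fin 4) : (eps R a).map d = 0 := by
  ext s t
  simp only [eps, Matrix.map_apply, Matrix.zero_apply]
  exact Derivation.map_intCast d _

theorem iot_map (d : Derivation ℝ R R) (a : Fin 4) : (iot R a).map d = 0 := by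
  ext s t
  simp only [iot, Matrix.map_apply, Matrix.zero_apply, Matrix.transpose_apply, eps]
  exact Derivation.map_intCast d _

theorem clf_map (d : Derivation ℝ R R) (a : Fin 4) : (clf R a).map d = 0 := by
  have h1 := eps_map d a
  have h2 := iot_map d a
  ext s t
  have h3 := congrFun (congrFun h1 s) t
  have h4 := congrFun (congrFun h2 s) t
  simp only [Matrix.map_apply, Matrix.zero_apply] at h3 h4 ⊢
  simp only [clf, Matrix.sub_apply, map_sub, h3, h4, sub_zero]

theorem map_smul_of (d : Derivation ℝ R R) (r : R) {M : Matrix Lam Lam R} (hM : M.map d = 0) :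
    (r • M).map d = d r • M := by
  ext s t
  have h := congrFun (congrFun hM s) t
  simp only [Matrix.map_apply, Matrix.zero_apply] at h
  simp only [Matrix.map_apply, Matrix.smul_apply, smul_eq_mul, Derivation.leibniz, h, mul_zero,
    zero_add]
  ring

theorem map_sum_of (d : Derivation ℝ R R) {κ : Type*} (s : Finset κ)
    (M : κ → Matrix Lam Lam R) : (∑ k ∈ s, M k).map d = ∑ k ∈ s, (M k).map d := by
  ext a b
  simp only [Matrix.map_apply, Matrix.sum_apply, map_sum]

theorem map_mul_of (d : Derivation ℝ R R) {M M' : Matrix Lam Lam R} (hM : M.map d = 0)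
    (hM' : M'.map d = 0) : (M * M').map d = 0 := by
  ext s t
  simp only [Matrix.map_apply, Matrix.zero_apply, Matrix.mul_apply, map_sum,
    Derivation.leibniz, smul_eq_mul]
  refine Finset.sum_eq_zero fun m _ => ?_
  have h1 := congrFun (congrFun hM s) m
  have h2 := congrFun (congrFun hM' m) t
  simp only [Matrix.map_apply, Matrix.zero_apply] at h1 h2
  rw [h1, h2]
  ring

theorem rho_map (d : Derivation ℝ R R) (A : Matrix (Fin 4) (Fin 4) R) :
    (rho A).map d = rho (A.map d) := by
  unfold rho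
  rw [map_sum_of]
  refine Finset.sum_congr rfl fun a _ => ?_
  rw [map_sum_of]
  refine Finset.sum_congr rfl fun b _ => ?_
  rw [map_smul_of d _ (map_mul_of d (eps_map d a) (iot_map d b)), Matrix.map_apply]

theorem rho_add (A B : Matrix (Fin 4) (Fin 4) R) : rho (A + B) = rho A + rho B := by
  simp only [rho, Matrix.add_apply, add_smul, Finset.sum_add_distrib]

theorem rho_sub (A B : Matrix (Fin 4) (Fin 4) R) : rho (A - B) = rho A - rho B := by
  simp only [rho, Matrix.sub_apply, sub_smul, Finset.sum_sub_distrib]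

/-- The contravariant Clifford matrices. -/
def cu (i : Fin 4) : Matrix Lam Lam R := ∑ a, F.f i a • clf R a

theorem dirac_eq (v : Lam → R) : F.dirac v = (∑ i, mE (cu F i) * nE F i) v := by
  rw [sum_ap]
  unfold Frame.dirac
  refine Finset.sum_congr rfl fun i _ => ?_
  show ∑ a, F.f i a • (clf R a).mulVec (F.nab i v) = (cu F i).mulVec (F.nab i v)
  unfold cu
  rw [Matrix.sum_mulVec]
  refine Finset.sum_congr rfl fun a _ => ?_
  rw [Matrix.smul_mulVec]

theorem cu_cu (f1 : claimFR1) (f3 : claimFR3) (i j : Fin 4) :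
    cu F i * cu F j + cu F j * cu F i = -(S.h i j • 1 + S.h i j • 1) := by
  obtain ⟨-, hh, -, -⟩ := f1 (Fin 4) R S F
  obtain ⟨-, -, -, hc, -⟩ := f3 R
  have h1 : ∀ k l, cu F k * cu F l = ∑ a, ∑ b, (F.f k a * F.f l b) • (clf R a * clf R b) := by
    intro k l
    unfold cu
    rw [Finset.sum_mul_sum]
    refine Finset.sum_congr rfl fun a _ => Finset.sum_congr rfl fun b _ => ?_
    rw [Matrix.smul_mul, Matrix.mul_smul, smul_smul]
  have h2 : cu F j * cu F i = ∑ a, ∑ b, (F.f i a * F.f j b) • (clf R b * clf R a) := by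
    rw [h1, Finset.sum_comm]
    refine Finset.sum_congr rfl fun a _ => Finset.sum_congr rfl fun b _ => ?_
    rw [mul_comm (F.f j b)]
  rw [h1, h2, ← Finset.sum_add_distrib]
  have h3 : ∀ a, ∑ b, (F.f i a * F.f j b) • (clf R a * clf R b) +
      ∑ b, (F.f i a * F.f j b) • (clf R b * clf R a) =
      (F.f i a * F.f j a) • (-2 : Matrix Lam Lam R) := by
    intro a
    rw [← Finset.sum_add_distrib, Finset.sum_eq_single a]
    · rw [← smul_add, hc, if_pos rfl]
    · intro b _ hb
      rw [← smul_add, hc, if_neg (Ne.symm hb), smul_zero]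
    · intro h
      exact absurd (Finset.mem_univ a) h
  simp only [h3]
  rw [← Finset.sum_smul]
  have h4 : S.h i j = ∑ a, F.f i a * F.f j a := by
    rw [hh, Matrix.mul_apply]
    rfl
  rw [← h4, ← smul_add, ← smul_neg]
  congr 1
  rw [one_add_one_eq_two]

theorem der_cu (f1 : claimFR1) (f3 : claimFR3) (i j : Fin 4) :
    (cu F j).map (S.D i) + (rho (F.om i) * cu F j - cu F j * rho (F.om i)) =
      -∑ k, S.chr j i k • cu F k := by
  obtain ⟨hff, -, hsk, -⟩ := f1 (Fin 4) R S F
  obtain ⟨-, -, -, -, -, -, -, -, -, -, -, -, -, hrc, -, -⟩ := f3 R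
  have h1 : (cu F j).map (S.D i) = ∑ b, S.D i (F.f j b) • clf R b := by
    unfold cu
    rw [map_sum_of]
    refine Finset.sum_congr rfl fun b _ => ?_
    rw [map_smul_of _ _ (clf_map _ b)]
  have h2 : rho (F.om i) * cu F j - cu F j * rho (F.om i) =
      ∑ b, (∑ a, F.f j a * F.om i b a) • clf R b := by
    unfold cu
    rw [Finset.mul_sum, Finset.sum_mul, ← Finset.sum_sub_distrib]
    have h3 : ∀ a, rho (F.om i) * F.f j a • clf R a - F.f j a • clf R a * rho (F.om i) =
        ∑ b, (F.f j a * F.om i b a) • clf R b := by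
      intro a
      rw [Matrix.mul_smul, Matrix.smul_mul, ← smul_sub, hrc _ (hsk i) a, Finset.smul_sum]
      refine Finset.sum_congr rfl fun b _ => ?_
      rw [smul_smul]
    simp only [h3]
    rw [Finset.sum_comm]
    refine Finset.sum_congr rfl fun b _ => ?_
    rw [Finset.sum_smul]
  have h4 : ∀ b, S.D i (F.f j b) + ∑ a, F.f j a * F.om i b a = -∑ k, S.chr j i k * F.f k b := by
    intro b
    have h5 : F.f * F.om i = F.f.map (S.D i) + S.chrM i * F.f := by
      unfold Frame.om
      rw [← Matrix.mul_assoc, hff, Matrix.one_mul]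
    have h6 := congrFun (congrFun h5 j) b
    rw [Matrix.mul_apply, Matrix.add_apply, Matrix.map_apply, Matrix.mul_apply] at h6
    have h7 : ∑ a, F.f j a * F.om i b a = -∑ a, F.f j a * F.om i a b := by
      rw [← Finset.sum_neg_distrib]
      refine Finset.sum_congr rfl fun a _ => ?_
      have h8 := congrFun (congrFun (hsk i) a) b
      rw [Matrix.transpose_apply, Matrix.neg_apply] at h8
      rw [h8, mul_neg]
    rw [h7, h6]
    have h9 : ∀ k, S.chrM i j k = S.chr j i k := fun k => rfl
    simp only [h9]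
    ring
  rw [h1, h2, ← Finset.sum_add_distrib]
  have h10 : ∀ b, S.D i (F.f j b) • clf R b + (∑ a, F.f j a * F.om i b a) • clf R b =
      -∑ k, (S.chr j i k * F.f k b) • clf R b := by
    intro b
    rw [← add_smul, h4, neg_smul, Finset.sum_smul]
  simp only [h10]
  rw [Finset.sum_neg_distrib, Finset.sum_comm]
  congr 1
  refine Finset.sum_congr rfl fun k _ => ?_
  unfold cu
  rw [Finset.smul_sum]
  refine Finset.sum_congr rfl fun b _ => ?_
  rw [smul_smul]

theorem comm_nab (f3 : claimFR3) (i j : Fin 4) :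
    nE F i * nE F j - nE F j * nE F i = mE (rho (F.Om i j)) := by
  obtain ⟨-, -, -, -, -, -, -, -, -, -, -, -, -, -, hrr, -⟩ := f3 R
  ext v : 1
  show F.nab i (F.nab j v) - F.nab j (F.nab i v) = (rho (F.Om i j)).mulVec v
  have h1 : ∀ k l, F.nab k (F.nab l v) = (fun s => S.D k (S.D l (v s))) +
      ((rho ((F.om l).map (S.D k))).mulVec v +
        (rho (F.om l)).mulVec (fun s => S.D k (v s))) +
      ((rho (F.om k)).mulVec (fun s => S.D l (v s)) +
        (rho (F.om k) * rho (F.om l)).mulVec v) := by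
    intro k l
    have h2 : F.nab k (F.nab l v) = (fun s => S.D k (F.nab l v s)) +
        (rho (F.om k)).mulVec (F.nab l v) := rfl
    have h3 : (fun s => S.D k (F.nab l v s)) = (fun s => S.D k (S.D l (v s))) +
        fun s => S.D k ((rho (F.om l)).mulVec v s) := by
      funext s
      simp only [Frame.nab, Pi.add_apply, map_add]
    have h4 : (rho (F.om k)).mulVec (F.nab l v) =
        (rho (F.om k)).mulVec (fun s => S.D l (v s)) +
        (rho (F.om k) * rho (F.om l)).mulVec v := by
      unfold Frame.nab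
      rw [Matrix.mulVec_add, Matrix.mulVec_mulVec]
    rw [h2, h3, h4, der_mulVec, rho_map]
  have h5 : (fun s => S.D i (S.D j (v s))) = fun s => S.D j (S.D i (v s)) := by
    funext s
    exact S.comm i j _
  have h6 : rho (F.Om i j) = rho ((F.om j).map (S.D i)) - rho ((F.om i).map (S.D j)) +
      (rho (F.om i) * rho (F.om j) - rho (F.om j) * rho (F.om i)) := by
    unfold Frame.Om
    rw [add_sub_assoc, rho_add, rho_sub, hrr]
  rw [h1, h1, h5, h6, Matrix.add_mulVec, Matrix.sub_mulVec, Matrix.sub_mulVec]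
  abel

theorem weitz_eq : weitz F.R4 + weitz F.R4 = ∑ i, ∑ j, cu F i * cu F j * rho (F.Om i j) := by
  have h1 : ∀ M : Matrix Lam Lam R, (1 / 2 : ℝ) • M + (1 / 2 : ℝ) • M = M := by
    intro M
    rw [← add_smul]
    norm_num
  unfold weitz
  rw [h1]
  have h2 : ∀ i j, cu F i * cu F j * rho (F.Om i j) = ∑ a, ∑ b, ∑ c, ∑ d,
      (F.f i a * F.f j b * F.Om i j c d) • (clf R a * clf R b * eps R c * iot R d) := by
    intro i j
    unfold cu rho
    rw [Finset.sum_mul_sum, Finset.sum_mul]
    refine Finset.sum_congr rfl fun a _ => ?_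
    rw [Finset.sum_mul]
    refine Finset.sum_congr rfl fun b _ => ?_
    rw [Finset.mul_sum]
    refine Finset.sum_congr rfl fun c _ => ?_
    rw [Finset.mul_sum]
    refine Finset.sum_congr rfl fun d _ => ?_
    simp only [Matrix.smul_mul, Matrix.mul_smul, smul_smul, Matrix.mul_assoc]
    congr 1
    ring
  simp only [h2]
  have h3 : ∀ (f : Fin 4 → Fin 4 → Fin 4 → Fin 4 → Fin 4 → Fin 4 → Matrix Lam Lam R),
      ∑ i, ∑ j, ∑ a, ∑ b, ∑ c, ∑ d, f i j a b c d =
      ∑ a, ∑ b, ∑ c, ∑ d, ∑ i, ∑ j, f i j a b c d := by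
    intro f
    have h4 : ∀ (g : Fin 4 → Fin 4 → Fin 4 → Matrix Lam Lam R),
        ∑ i, ∑ j, ∑ a, g i j a = ∑ a, ∑ i, ∑ j, g i j a := by
      intro g
      rw [Finset.sum_comm]
      conv_rhs => rw [Finset.sum_comm]
      have h5 : ∀ j, ∑ i, ∑ a, g i j a = ∑ a, ∑ i, g i j a := fun j => Finset.sum_comm
      simp only [h5]
      rw [Finset.sum_comm]
      conv_rhs => rw [Finset.sum_comm]
      refine Finset.sum_congr rfl fun a _ => Finset.sum_comm
    rw [h4]
    refine Finset.sum_congr rfl fun a _ => ?_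
    rw [h4]
    refine Finset.sum_congr rfl fun b _ => ?_
    rw [h4]
    refine Finset.sum_congr rfl fun c _ => ?_
    rw [h4]
  rw [h3]
  refine Finset.sum_congr rfl fun a _ => Finset.sum_congr rfl fun b _ =>
    Finset.sum_congr rfl fun c _ => Finset.sum_congr rfl fun d _ => ?_
  unfold Frame.R4
  rw [Finset.sum_smul]
  refine Finset.sum_congr rfl fun i _ => ?_
  rw [Finset.sum_smul]

end FR5

open FR5

theorem thm_FR5 (h1 : claimDA1) (f1 : claimFR1) (f3 : claimFR3) : claimFR5 := by
  intro R _ _ S F α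
  obtain ⟨hhs, -, hchr, -, -⟩ := h1 (Fin 4) R S
  have key := alg (fun i => mE (cu F i)) (nE F) (fun i j => sE (S.h i j))
    (fun k i j => sE (S.chr k i j)) (fun i j => mE (rho (F.Om i j)))
    (fun i j => by simp only [hhs i j]) (fun k i j => by simp only [hchr k i j])
    (fun i j => by
      rw [← mE_mul, ← mE_mul, ← mE_add, cu_cu F f1 f3, mE_neg, mE_add]
      rfl)
    (fun i j => by
      rw [nE_mul_mE, der_cu F f1 f3, mE_neg, mE_sum]
      simp only [sE_mul_mE]
      abel)
    (fun k i j l => by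
      rw [mE_mul_sE, sE_mul_mE])
    (comm_nab F f3)
    (fun k i j => sE_comm _ _)
  have h2 := congrArg (fun T : AddMonoid.End (Lam → R) => T α) key
  have h3 : ∀ v, (∑ i, mE (cu F i) * nE F i) v = F.dirac v := fun v => (dirac_eq F v).symm
  have h4 : ((∑ i, mE (cu F i) * nE F i) * (∑ j, mE (cu F j) * nE F j)) α =
      F.dirac (F.dirac α) := by
    have h41 : ((∑ i, mE (cu F i) * nE F i) * (∑ j, mE (cu F j) * nE F j)) α =
        (∑ i, mE (cu F i) * nE F i) ((∑ j, mE (cu F j) * nE F j) α) := rfl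
    rw [h41, h3, h3]
  have h5 : (∑ i, ∑ j, sE (S.h i j) * (nE F i * nE F j - ∑ k, sE (S.chr k i j) * nE F k)) α =
      ∑ i, ∑ j, S.h i j • (F.nab i (F.nab j α) - ∑ k, S.chr k i j • F.nab k α) := by
    rw [sum_ap]
    refine Finset.sum_congr rfl fun i _ => ?_
    rw [sum_ap]
    refine Finset.sum_congr rfl fun j _ => ?_
    show sE (S.h i j) ((nE F i * nE F j) α - (∑ k, sE (S.chr k i j) * nE F k) α) = _
    rw [sE_apply, sum_ap]
    congr 2
    refine Finset.sum_congr rfl fun k _ => ?_
    show sE (S.chr k i j) (nE F k α) = _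
    rw [sE_apply]
    rfl
  have h6 : (∑ i, ∑ j, mE (cu F i) * mE (cu F j) * mE (rho (F.Om i j))) α =
      (weitz F.R4).mulVec α + (weitz F.R4).mulVec α := by
    have h7 : ∑ i, ∑ j, mE (cu F i) * mE (cu F j) * mE (rho (F.Om i j)) =
        mE (weitz F.R4 + weitz F.R4) := by
      rw [weitz_eq]
      simp only [mE_sum, mE_mul]
    rw [h7, mE_add]
    rfl
  have h9 : F.dirac (F.dirac α) + F.dirac (F.dirac α) =
      -(∑ i, ∑ j, S.h i j • (F.nab i (F.nab j α) - ∑ k, S.chr k i j • F.nab k α)) +
      -(∑ i, ∑ j, S.h i j • (F.nab i (F.nab j α) - ∑ k, S.chr k i j • F.nab k α)) +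
      ((weitz F.R4).mulVec α + (weitz F.R4).mulVec α) := by
    rw [← h4, ← h5, ← h6]
    exact h2
  funext s
  apply two_cancel
  have h8 := congrFun h9 s
  simp only [Pi.add_apply, Pi.neg_apply] at h8 ⊢
  rw [h8]
  ring

end NRF

end
end

section

/-!
# Item I1: invariant means on abelian groups
-/

open Set Filter
open scoped Topology

noncomputable section

namespace NRF

section
variable {A : Type} [AddCommGroup A]

/-- A mean on bounded functions, invariant under the elements of `S`. -/
structure I1M (S : Set A) (m : (A → ℝ) → ℝ) : Prop where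
  add : ∀ (f g : A → ℝ) (B : ℝ), BddBy B f → BddBy B g → m (fun x => f x + g x) = m f + m g
  smul : ∀ (c : ℝ) (f : A → ℝ) (B : ℝ), BddBy B f → m (fun x => c * f x) = c * m f
  bound : ∀ (f : A → ℝ) (B : ℝ), BddBy B f → |m f| ≤ B
  one : m (fun _ => 1) = 1
  inv : ∀ a ∈ S, ∀ (f : A → ℝ) (B : ℝ), BddBy B f → m (fun x => f (a + x)) = m f

theorem I1_exlim {ι : Type} (U : Ultrafilter ι) (x : ι → ℝ) (B : ℝ) (h : ∀ i, |x i| ≤ B) :
    ∃ L, Tendsto x U (𝓝 L) := by
  have h1 : ((U.map x : Ultrafilter ℝ) : Filter ℝ) ≤ 𝓟 (Icc (-B) B) := by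
    rw [le_principal_iff]
    have h2 : ∀ᶠ i in (U : Filter ι), x i ∈ Icc (-B) B :=
      Eventually.of_forall fun i => abs_le.1 (h i)
    exact h2
  obtain ⟨L, -, hL⟩ := isCompact_Icc.ultrafilter_le_nhds _ h1
  exact ⟨L, hL⟩

theorem I1_lim {ι : Type} (U : Ultrafilter ι) (M : ι → (A → ℝ) → ℝ) (S : Set A)
    (h : ∀ i, I1M ∅ (M i))
    (hinv : ∀ a ∈ S, ∀ (f : A → ℝ) (B : ℝ), BddBy B f →
      Tendsto (fun i => M i (fun x => f (a + x)) - M i f) U (𝓝 0)) :
    I1M S (fun f => limUnder (U : Filter ι) fun i => M i f) := by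
  have hl : ∀ (f : A → ℝ) (B : ℝ), BddBy B f →
      Tendsto (fun i => M i f) U (𝓝 (limUnder (U : Filter ι) fun i => M i f)) :=
    fun f B hf => tendsto_nhds_limUnder (I1_exlim U _ B fun i => (h i).bound f B hf)
  have hb2 : ∀ (f : A → ℝ) (B : ℝ) (a : A), BddBy B f → BddBy B (fun x => f (a + x)) :=
    fun f B a hf => ⟨hf.1, fun x => hf.2 _⟩
  refine ⟨?_, ?_, ?_, ?_, ?_⟩
  · intro f g B hf hg
    have h1 := (hl f B hf).add (hl g B hg)
    have h2 : (fun i => M i (fun x => f x + g x)) = fun i => M i f + M i g :=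
      funext fun i => (h i).add f g B hf hg
    show limUnder (U : Filter ι) (fun i => M i (fun x => f x + g x)) = _
    rw [h2]
    exact h1.limUnder_eq
  · intro c f B hf
    have h1 := (hl f B hf).const_mul c
    have h2 : (fun i => M i (fun x => c * f x)) = fun i => c * M i f :=
      funext fun i => (h i).smul c f B hf
    show limUnder (U : Filter ι) (fun i => M i (fun x => c * f x)) = _
    rw [h2]
    exact h1.limUnder_eq
  · intro f B hf
    have h1 := (hl f B hf).abs
    exact le_of_tendsto h1 (Eventually.of_forall fun i => (h i).bound f B hf)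
  · have h2 : (fun i => M i (fun _ => 1)) = fun _ => (1 : ℝ) := funext fun i => (h i).one
    show limUnder (U : Filter ι) (fun i => M i (fun _ => 1)) = _
    rw [h2]
    exact tendsto_const_nhds.limUnder_eq
  · intro a ha f B hf
    have h1 := (hinv a ha f B hf).add (hl f B hf)
    rw [zero_add] at h1
    have h2 : (fun i => M i (fun x => f (a + x)) - M i f + M i f) =
        fun i => M i (fun x => f (a + x)) := funext fun i => by ring
    rw [h2] at h1
    exact h1.limUnder_eq

/-- Averages along `a`. -/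
def I1avg (a : A) (n : ℕ) (f : A → ℝ) (x : A) : ℝ :=
  ((n : ℝ) + 1)⁻¹ * ∑ k ∈ Finset.range (n + 1), f (k • a + x)

theorem I1avg_bdd (a : A) (n : ℕ) {f : A → ℝ} {B : ℝ} (hf : BddBy B f) :
    BddBy B (I1avg a n f) := by
  refine ⟨hf.1, fun x => ?_⟩
  unfold I1avg
  have hn : (0 : ℝ) < (n : ℝ) + 1 := by positivity
  rw [abs_mul, abs_inv, abs_of_pos hn]
  have h1 : |∑ k ∈ Finset.range (n + 1), f (k • a + x)| ≤ ((n : ℝ) + 1) * B := by
    refine (Finset.abs_sum_le_sum_abs _ _).trans ?_
    refine (Finset.sum_le_sum fun k _ => hf.2 _).trans ?_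
    rw [Finset.sum_const, Finset.card_range, nsmul_eq_mul]
    push_cast
    exact le_rfl
  calc ((n : ℝ) + 1)⁻¹ * |∑ k ∈ Finset.range (n + 1), f (k • a + x)|
      ≤ ((n : ℝ) + 1)⁻¹ * (((n : ℝ) + 1) * B) := mul_le_mul_of_nonneg_left h1 (by positivity)
    _ = B := by rw [← mul_assoc, inv_mul_cancel₀ hn.ne', one_mul]

theorem I1avg_mean (a : A) (n : ℕ) {S : Set A} {m : (A → ℝ) → ℝ} (hm : I1M S m) :
    I1M S (fun f => m (I1avg a n f)) := by
  have hn : (0 : ℝ) < (n : ℝ) + 1 := by positivity
  refine ⟨?_, ?_, ?_, ?_, ?_⟩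
  · intro f g B hf hg
    have e : I1avg a n (fun x => f x + g x) = fun x => I1avg a n f x + I1avg a n g x := by
      funext x
      unfold I1avg
      rw [Finset.sum_add_distrib]
      ring
    show m (I1avg a n (fun x => f x + g x)) = _
    rw [e]
    exact hm.add _ _ B (I1avg_bdd a n hf) (I1avg_bdd a n hg)
  · intro c f B hf
    have e : I1avg a n (fun x => c * f x) = fun x => c * I1avg a n f x := by
      funext x
      unfold I1avg
      rw [← Finset.mul_sum]
      ring
    show m (I1avg a n (fun x => c * f x)) = _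
    rw [e]
    exact hm.smul c _ B (I1avg_bdd a n hf)
  · intro f B hf
    exact hm.bound _ B (I1avg_bdd a n hf)
  · have e : I1avg a n (fun _ => (1 : ℝ)) = fun _ => 1 := by
      funext x
      unfold I1avg
      rw [Finset.sum_const, Finset.card_range, nsmul_eq_mul]
      push_cast
      rw [mul_one, inv_mul_cancel₀ hn.ne']
    show m (I1avg a n (fun _ => (1 : ℝ))) = 1
    rw [e]
    exact hm.one
  · intro b hb f B hf
    have e : I1avg a n (fun x => f (b + x)) = fun x => I1avg a n f (b + x) := by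
      funext x
      unfold I1avg
      congr 1
      refine Finset.sum_congr rfl fun k _ => ?_
      show f (b + (k • a + x)) = f (k • a + (b + x))
      rw [add_left_comm]
    show m (I1avg a n (fun x => f (b + x))) = _
    rw [e]
    exact hm.inv b hb _ B (I1avg_bdd a n hf)

theorem I1avg_tele (a : A) (n : ℕ) (f : A → ℝ) (B : ℝ) (hf : BddBy B f) :
    BddBy (2 * B * ((n : ℝ) + 1)⁻¹)
      (fun x => I1avg a n (fun y => f (a + y)) x + (-1) * I1avg a n f x) := by
  have hn : (0 : ℝ) < (n : ℝ) + 1 := by positivity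
  have hB := hf.1
  refine ⟨by positivity, fun x => ?_⟩
  have e : I1avg a n (fun y => f (a + y)) x + (-1) * I1avg a n f x =
      ((n : ℝ) + 1)⁻¹ * (f ((n + 1) • a + x) - f (0 • a + x)) := by
    unfold I1avg
    have h1 : ∑ k ∈ Finset.range (n + 1), (f ((k + 1) • a + x) - f (k • a + x)) =
        f ((n + 1) • a + x) - f (0 • a + x) :=
      Finset.sum_range_sub (fun k => f (k • a + x)) (n + 1)
    rw [← h1, Finset.sum_sub_distrib]
    have h2 : ∑ k ∈ Finset.range (n + 1), f (a + (k • a + x)) =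
        ∑ k ∈ Finset.range (n + 1), f ((k + 1) • a + x) := by
      refine Finset.sum_congr rfl fun k _ => ?_
      congr 1
      rw [succ_nsmul]
      abel
    rw [h2]
    ring
  show |I1avg a n (fun y => f (a + y)) x + (-1) * I1avg a n f x| ≤ _
  rw [e, abs_mul, abs_inv, abs_of_pos hn]
  have h3 : |f ((n + 1) • a + x) - f (0 • a + x)| ≤ 2 * B := by
    refine (abs_sub _ _).trans ?_
    have := hf.2 ((n + 1) • a + x)
    have := hf.2 (0 • a + x)
    linarith
  rw [mul_comm (2 * B)]
  exact mul_le_mul_of_nonneg_left h3 (by positivity)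

/-- One more element. -/
theorem I1_step {S : Set A} {m : (A → ℝ) → ℝ} (hm : I1M S m) (a : A) :
    ∃ m' : (A → ℝ) → ℝ, I1M (insert a S) m' := by
  refine ⟨_, I1_lim (Ultrafilter.of (atTop : Filter ℕ)) (fun n f => m (I1avg a n f))
    (insert a S) (fun n => ?_) ?_⟩
  · have h := I1avg_mean a n hm
    exact ⟨h.add, h.smul, h.bound, h.one, fun b hb => absurd hb (notMem_empty b)⟩
  · intro b hb f B hf
    rcases hb with hb | hb
    · subst hb
      have hlim : Tendsto (fun n : ℕ => 2 * B * ((n : ℝ) + 1)⁻¹) atTop (𝓝 0) := by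
        have h1 : Tendsto (fun n : ℕ => ((n : ℝ) + 1)⁻¹) atTop (𝓝 0) := by
          have := tendsto_one_div_add_atTop_nhds_zero_nat (𝕜 := ℝ)
          simpa [one_div] using this
        simpa using h1.const_mul (2 * B)
      refine squeeze_zero_norm (fun n => ?_) (hlim.mono_left (Ultrafilter.of_le _))
      have hfa : BddBy B (fun x => f (b + x)) := ⟨hf.1, fun x => hf.2 _⟩
      have h2 := hm.bound _ _ (I1avg_tele b n f B hf)
      have hneg : BddBy B (fun x => (-1) * I1avg b n f x) := by
        refine ⟨hf.1, fun x => ?_⟩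
        show |(-1) * I1avg b n f x| ≤ B
        rw [neg_one_mul, abs_neg]
        exact (I1avg_bdd b n hf).2 x
      rw [hm.add _ _ B (I1avg_bdd b n hfa) hneg, hm.smul (-1) _ B (I1avg_bdd b n hf)] at h2
      rw [Real.norm_eq_abs]
      have e : m (I1avg b n fun x => f (b + x)) - m (I1avg b n f) =
          m (fun x => I1avg b n (fun y => f (b + y)) x) + -1 * m (fun x => I1avg b n f x) := by
        show m (I1avg b n fun x => f (b + x)) - m (I1avg b n f) =
          m (I1avg b n fun x => f (b + x)) + -1 * m (I1avg b n f)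
        ring
      rw [e]
      exact h2
    · have h := fun n => (I1avg_mean b n hm)
      have e : (fun n : ℕ => m (I1avg a n (fun x => f (b + x))) - m (I1avg a n f)) =
          fun _ => (0 : ℝ) := by
        funext n
        have := (I1avg_mean a n hm).inv b hb f B hf
        exact sub_eq_zero.2 this
      show Tendsto (fun n : ℕ => m (I1avg a n (fun x => f (b + x))) - m (I1avg a n f)) _ _
      rw [e]
      exact tendsto_const_nhds

theorem I1_fin (S : Finset A) : ∃ m : (A → ℝ) → ℝ, I1M (S : Set A) m := by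
  classical
  induction S using Finset.induction_on with
  | empty =>
    refine ⟨fun f => f 0, ⟨fun f g B _ _ => rfl, fun c f B _ => rfl, fun f B hf => hf.2 0, rfl,
      fun a ha => ?_⟩⟩
    simp at ha
  | insert a S _ ih =>
    obtain ⟨m, hm⟩ := ih
    rw [Finset.coe_insert]
    exact I1_step hm a

end

theorem claimMean_proof : claimMean := by
  classical
  intro A _
  choose M hM using fun S : Finset A => I1_fin S
  have h := I1_lim (Ultrafilter.of (atTop : Filter (Finset A))) M (univ : Set A)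
    (fun S => ⟨(hM S).add, (hM S).smul, (hM S).bound, (hM S).one,
      fun b hb => absurd hb (notMem_empty b)⟩) (fun a _ f B hf => by
        refine Tendsto.congr' ?_ tendsto_const_nhds
        have h1 : ∀ᶠ S : Finset A in atTop, a ∈ S := by
          filter_upwards [eventually_ge_atTop ({a} : Finset A)] with S hS
          exact hS (Finset.mem_singleton_self a)
        filter_upwards [Ultrafilter.of_le (atTop : Filter (Finset A)) h1] with S hS
        exact (sub_eq_zero.2 ((hM S).inv a hS f B hf)).symm)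
  exact ⟨⟨_, h.add, h.smul, h.bound, h.one, fun a f B hf => h.inv a (mem_univ a) f B hf⟩⟩

end NRF

end
end

section

open scoped Topology unitInterval Topology.Homotopy
open Set

noncomputable section

namespace NRF

theorem stage_exists (h9 : claimStep) (h10 : claimStart) (Y : Type) [TopologicalSpace Y]
    [SimplyConnectedSpace Y] (n : ℕ) : Nonempty (Stage Y (n + 2)) := by
  induction n with
  | zero => exact h10 Y
  | succ n ih => exact h9 Y (n + 1) (by omega) ih

theorem claimContr_proof (h5 : claimContrOf) (h6 : claimContrDown) (h9 : claimStep)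
    (h10 : claimStart) : claimContr := by
  intro Y _ _ N
  obtain ⟨s⟩ := stage_exists h9 h10 Y N
  exact h6 s.E (sing Y) s.π s.tr N (h5 s.E N ⟨s.pt⟩ fun m hm => s.conn m (by omega))

end NRF

end
end

section

/-!
Item I14: lifting singular simplices to the universal covering.
-/

open scoped Topology unitInterval
open Set

noncomputable section

namespace NRF

/-- Contraction of the standard simplex to its vertex `0` along straight lines. -/
def i14line (k : ℕ) : C(I × stdSimplex ℝ (Fin (k + 1)), stdSimplex ℝ (Fin (k + 1))) where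
  toFun q := ⟨(1 - (q.1 : ℝ)) • (stdSimplex.vertex (S := ℝ) (0 : Fin (k + 1))).1 +
      (q.1 : ℝ) • q.2.1,
    convex_stdSimplex ℝ (Fin (k + 1)) (stdSimplex.vertex (S := ℝ) (0 : Fin (k + 1))).2 q.2.2
      (by have := q.1.2.2; linarith) q.1.2.1 (by ring)⟩
  continuous_toFun := by
    refine Continuous.subtype_mk ?_ _
    fun_prop

lemma i14line_zero (k : ℕ) (x : stdSimplex ℝ (Fin (k + 1))) :
    i14line k (0, x) = stdSimplex.vertex 0 := by
  apply Subtype.ext
  simp [i14line]

lemma i14line_one (k : ℕ) (x : stdSimplex ℝ (Fin (k + 1))) : i14line k (1, x) = x := by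
  apply Subtype.ext
  simp [i14line]

/-- Item I14. -/
theorem claimLiftSimp_proof : claimLiftSimp := by
  intro X _ U k s
  constructor
  · obtain ⟨y0, hy0⟩ := U.surj (s (stdSimplex.vertex 0))
    let H : C(I × stdSimplex ℝ (Fin (k + 1)), X) := s.comp (i14line k)
    let f : C(stdSimplex ℝ (Fin (k + 1)), U.Y) := ContinuousMap.const _ y0
    have H0 : ∀ a, H (0, a) = U.p (f a) := by
      intro a
      simp only [H, f, ContinuousMap.comp_apply, ContinuousMap.const_apply, i14line_zero, hy0]
    refine ⟨(U.cov.liftHomotopy H f H0).comp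
      ((ContinuousMap.const _ (1 : I)).prodMk (ContinuousMap.id _)), fun x => ?_⟩
    have h := congrFun (U.cov.liftHomotopy_lifts H f H0) (1, x)
    simp only [Function.comp_apply] at h
    refine h.trans ?_
    simp only [H, ContinuousMap.comp_apply, i14line_one]
  · intro t t' ht ht'
    obtain ⟨a, ha⟩ := U.trans (t (stdSimplex.vertex 0)) (t' (stdSimplex.vertex 0))
      (by rw [ht, ht'])
    refine ⟨a, fun x => ?_⟩
    have h := U.cov.eq_of_comp_eq (g₁ := fun x => a • t x) (g₂ := t')
      ((U.cont_smul a).comp t.continuous) t'.continuous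
      (by funext x; simp only [Function.comp_apply, U.p_smul, ht, ht'])
      (stdSimplex.vertex 0) ha
    exact (congrFun h x).symm

end NRF

end
end
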