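import Pool.Agent.Work.MP_7f974f_gt.Stmts_I
import Pool.Agent.Work.MP_7f974f_gt.Stmts_K
import Pool.Agent.Work.MP_7f974f_gt.Stmts_B
import Pool.Agent.Work.MP_7f974f_gt.Stmts_H

/-! Bundle of small proof modules (one section per former module). -/

section

open scoped Topology unitInterval Topology.Homotopy
open Set

noncomputable section

namespace NRF

section mapping

variable {X : Type} [TopologicalSpace X] (U : UCover X)

/-- The deck transformation as a continuous map. -/
def deckMap (a : U.G) : C(U.Y, U.Y) := ⟨fun y => a • y, U.cont_smul a⟩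

/-- The action of the deck group on singular simplices. -/
def deckAct : DAct U.G (sing U.Y) where
  a := fun {m} g x => (deckMap U g).comp (show Simp m U.Y from x)
  one := by
    intro m x
    refine ContinuousMap.ext fun t => ?_
    show (1 : U.G) • (show Simp m U.Y from x) t = (show Simp m U.Y from x) t
    rw [one_smul]
  mul := by
    intro m g h x
    refine ContinuousMap.ext fun t => ?_
    show (g * h) • (show Simp m U.Y from x) t = g • h • (show Simp m U.Y from x) t
    rw [mul_smul]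
  nat := by
    intro k m F g x
    rfl

/-- The covering projection as a continuous map. -/
def covMap : C(U.Y, X) := ⟨U.p, U.cov.continuous⟩

theorem bdry_single {Y : Type} [TopologicalSpace Y] {k : ℕ} (s : Simp (k + 1) Y) :
    bdry (Finsupp.single s (1 : ℝ)) =
      ∑ i : Fin (k + 2), (-1 : ℝ) ^ (i : ℕ) • Finsupp.single (s.comp (faceIncl k i)) (1 : ℝ) := by
  unfold bdry
  simp

theorem sing_d_eq {Y : Type} [TopologicalSpace Y] {k : ℕ} (s : Simp (k + 1) Y) (i : Fin (k + 2)) :
    (sing Y).d i s = s.comp (faceIncl k i) := rfl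

theorem sing_vtx_eq {Y : Type} [TopologicalSpace Y] {m : ℕ} (s : Simp m Y) (i : Fin (m + 1)) :
    (show Simp 0 Y from (sing Y).vtx i s) (stdSimplex.vertex 0) = s (stdSimplex.vertex i) := by
  show s (simpMap (vtxEmb i) (stdSimplex.vertex 0)) = _
  congr 1
  show stdSimplex.map _ _ = _
  rw [stdSimplex.map_vertex]
  rfl

theorem face_vertex {k : ℕ} (i : Fin (k + 2)) (t : Fin (k + 1)) :
    faceIncl k i (stdSimplex.vertex t) = (stdSimplex.vertex (i.succAbove t) : stdSimplex ℝ (Fin (k + 2))) := by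
  show stdSimplex.map _ _ = _
  rw [stdSimplex.map_vertex]

end mapping

theorem claimMapping_proof (h11 : claimContr) (h12 : claimIvanov) (h13 : claimAlt)
    (h14 : claimLiftSimp) : claimMapping := by
  intro X _ U β r hr hβ1 hβc
  obtain ⟨b, h, hb1, hbinv, hbco, hhinv, hbh⟩ := h12 (sing U.Y) U.G (deckAct U) 3 (h11 U.Y 4)
    (fun v => r ((show Simp 0 U.Y from v) (stdSimplex.vertex 0)))
    (by
      intro g v
      exact hr g _)
    (fun t => β (Finsupp.single ((covMap U).comp (show Simp 4 U.Y from t)) 1))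
    ⟨zero_le_one, fun t => hβ1 _⟩
    (by
      intro g e
      have : (covMap U).comp (show Simp 4 U.Y from (deckAct U).a g e) =
          (covMap U).comp (show Simp 4 U.Y from e) := by
        refine ContinuousMap.ext fun t => ?_
        exact U.p_smul g _
      simp only [this])
    (by
      intro e
      have h1 := hβc (Finsupp.single ((covMap U).comp (show Simp 5 U.Y from e)) 1)
      rw [bdry_single, map_sum] at h1
      rw [← h1]
      unfold DSet.delta
      refine Finset.sum_congr rfl fun i _ => ?_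
      rw [map_smul, smul_eq_mul]
      rfl)
  obtain ⟨b', c, hb'1, hb'inv, hcinv, hb'co, hb'alt, hbb'⟩ := h13 U.G 3 b hb1 hbinv hbco
  -- the invariant cochain
  let h' : (sing U.Y).obj 3 → ℝ := fun e =>
    h e + c (fun i => r ((show Simp 3 U.Y from e) (stdSimplex.vertex i)))
  have hh' : ∀ t t' : Simp 3 U.Y, (∀ x, U.p (t x) = U.p (t' x)) → h' t = h' t' := by
    intro t t' htt
    obtain ⟨a, ha⟩ := (h14 X U 3 ((covMap U).comp t)).2 t t' (fun x => rfl) (fun x => (htt x).symm)
    have e1 : t' = (deckAct U).a a t := by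
      refine ContinuousMap.ext fun x => ?_
      exact ha x
    have e2 : h t' = h t := by rw [e1]; exact hhinv a t
    have e3 : (fun i => r (t' (stdSimplex.vertex i))) =
        fun i : Fin 4 => a * r (t (stdSimplex.vertex i)) := by
      funext i
      rw [ha, hr]
    show h t + c (fun i => r (t (stdSimplex.vertex i))) =
      h t' + c (fun i => r (t' (stdSimplex.vertex i)))
    rw [e2, e3, hcinv]
  choose L hL using fun s : Simp 3 X => (h14 X U 3 s).1
  refine ⟨b', Finsupp.linearCombination ℝ (fun s : Simp 3 X => h' (L s)), hb'1, hb'inv, hb'co,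
    hb'alt, ?_⟩
  intro s t hst
  have hs : (covMap U).comp t = s := ContinuousMap.ext hst
  have h1 := hbh t
  rw [hbb'] at h1
  have h2 : (fun i => r ((show Simp 0 U.Y from (sing U.Y).vtx i t) (stdSimplex.vertex 0))) =
      fun i => r (t (stdSimplex.vertex i)) := by
    funext i
    rw [sing_vtx_eq]
  rw [← hs]
  refine h1.trans ?_
  rw [bdry_single, map_sum]
  have h3 : (sing U.Y).delta h' t = ∑ i : Fin 5, (-1 : ℝ) ^ (i : ℕ) *
      h' (t.comp (faceIncl 3 i)) := rfl
  have h4 : ∀ i : Fin 5, h' (L (((covMap U).comp t).comp (faceIncl 3 i))) =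
      h' (t.comp (faceIncl 3 i)) := by
    intro i
    apply hh'
    intro x
    rw [hL]
    rfl
  have h5 : ∑ i : Fin 5, (Finsupp.linearCombination ℝ fun s : Simp 3 X => h' (L s))
      ((-1 : ℝ) ^ (i : ℕ) • Finsupp.single (((covMap U).comp t).comp (faceIncl 3 i)) (1 : ℝ)) =
      ∑ i : Fin 5, (-1 : ℝ) ^ (i : ℕ) * h' (t.comp (faceIncl 3 i)) := by
    refine Finset.sum_congr rfl fun i _ => ?_
    rw [map_smul, Finsupp.linearCombination_single, smul_eq_mul, one_smul, h4]
  rw [h5]
  simp only [h']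
  rw [h2]
  unfold DSet.delta
  simp only [mul_add, Finset.sum_add_distrib]
  have h6 : ∀ (i : Fin 5), (fun j : Fin 4 => r ((t.comp (faceIncl 3 i)) (stdSimplex.vertex j))) =
      fun j => r (t (stdSimplex.vertex (i.succAbove j))) := by
    intro i
    funext j
    rw [ContinuousMap.comp_apply, face_vertex]
  have h7 : ∑ i : Fin 5, (-1 : ℝ) ^ (i : ℕ) *
      c (fun j : Fin 4 => r ((t.comp (faceIncl 3 i)) (stdSimplex.vertex j))) =
      ∑ i : Fin 5, (-1 : ℝ) ^ (i : ℕ) * c (fun j : Fin 4 => r (t (stdSimplex.vertex (i.succAbove j)))) :=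
    Finset.sum_congr rfl fun i _ => by rw [h6]
  have h8 : ∑ i : Fin 5, (-1 : ℝ) ^ (i : ℕ) * h (t.comp (faceIncl 3 i)) =
      ∑ i : Fin 5, (-1 : ℝ) ^ (i : ℕ) * h ((sing U.Y).d i t) := rfl
  rw [h8, h7]
  have h9 : ∀ i : Fin 5,
      (fun j : Fin 4 => r ((show Simp 0 U.Y from (sing U.Y).vtx (i.succAbove j) t)
        (stdSimplex.vertex 0))) = fun j => r (t (stdSimplex.vertex (i.succAbove j))) :=
    fun i => funext fun j => congrFun h2 (i.succAbove j)
  refine (congrArg₂ (· + ·) (congrArg₂ (· + ·) rfl (Finset.sum_congr rfl fun (i : Fin 5) _ =>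
    congrArg (fun z => (-1 : ℝ) ^ (i : ℕ) * c z) (h9 i))) rfl).trans ?_
  ring

end NRF

end
end

section

/-!
# Consistent invariant means on cochain groups (item I1')
-/

open Set

noncomputable section

namespace NRF

namespace I1p

variable {A : Type} [AddCommGroup A] (μ : InvMean A)

/-- The iterated mean. -/
def itM : (N : ℕ) → ((Fin N → A) → ℝ) → ℝ
  | 0, g => g Fin.elim0
  | N + 1, g => μ.m (fun a => itM N (fun v => g (Fin.cons a v)))

lemma itM_bound (N : ℕ) : ∀ (f : (Fin N → A) → ℝ) (B : ℝ), BddBy B f → |itM μ N f| ≤ B := by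
  induction N with
  | zero => intro f B hf; exact hf.2 _
  | succ N ih =>
    intro f B hf
    exact μ.bound _ B ⟨hf.1, fun a => ih _ B ⟨hf.1, fun v => hf.2 _⟩⟩

lemma itM_bdd (N : ℕ) (f : (Fin (N + 1) → A) → ℝ) (B : ℝ) (hf : BddBy B f) :
    BddBy B (fun a => itM μ N (fun v => f (Fin.cons a v))) :=
  ⟨hf.1, fun _ => itM_bound μ N _ B ⟨hf.1, fun _ => hf.2 _⟩⟩

lemma itM_add (N : ℕ) : ∀ (f g : (Fin N → A) → ℝ) (B : ℝ), BddBy B f → BddBy B g →
    itM μ N (fun v => f v + g v) = itM μ N f + itM μ N g := by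
  induction N with
  | zero => intro f g B _ _; rfl
  | succ N ih =>
    intro f g B hf hg
    have h : (fun a => itM μ N (fun v => f (Fin.cons a v) + g (Fin.cons a v))) =
        fun a => itM μ N (fun v => f (Fin.cons a v)) + itM μ N (fun v => g (Fin.cons a v)) := by
      funext a
      exact ih _ _ B ⟨hf.1, fun _ => hf.2 _⟩ ⟨hg.1, fun _ => hg.2 _⟩
    change μ.m (fun a => itM μ N (fun v => f (Fin.cons a v) + g (Fin.cons a v))) = _
    rw [h]
    exact μ.add _ _ B (itM_bdd μ N f B hf) (itM_bdd μ N g B hg)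

lemma itM_smul (N : ℕ) : ∀ (c : ℝ) (f : (Fin N → A) → ℝ) (B : ℝ), BddBy B f →
    itM μ N (fun v => c * f v) = c * itM μ N f := by
  induction N with
  | zero => intro c f B _; rfl
  | succ N ih =>
    intro c f B hf
    have h : (fun a => itM μ N (fun v => c * f (Fin.cons a v))) =
        fun a => c * itM μ N (fun v => f (Fin.cons a v)) := by
      funext a
      exact ih _ _ B ⟨hf.1, fun _ => hf.2 _⟩
    change μ.m (fun a => itM μ N (fun v => c * f (Fin.cons a v))) = _
    rw [h]
    exact μ.smul _ _ B (itM_bdd μ N f B hf)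

lemma m_const (c : ℝ) : μ.m (fun _ => c) = c := by
  have h := μ.smul c (fun _ => 1) 1 ⟨zero_le_one, fun _ => by simp⟩
  rw [μ.one] at h
  simpa using h

lemma itM_const (N : ℕ) (c : ℝ) : itM μ N (fun _ => c) = c := by
  induction N with
  | zero => rfl
  | succ N ih =>
    change μ.m (fun a => itM μ N (fun _ => c)) = c
    rw [ih]
    exact m_const μ c

lemma itM_inv (N : ℕ) : ∀ (w : Fin N → A) (f : (Fin N → A) → ℝ) (B : ℝ), BddBy B f →
    itM μ N (fun v => f (w + v)) = itM μ N f := by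
  induction N with
  | zero =>
    intro w f B _
    change f (w + Fin.elim0) = f Fin.elim0
    congr 1
    funext i
    exact i.elim0
  | succ N ih =>
    intro w f B hf
    have h : (fun a => itM μ N (fun v => f (w + Fin.cons a v))) =
        fun a => itM μ N (fun v => f (Fin.cons (w 0 + a) v)) := by
      funext a
      have h2 : (fun v : Fin N → A => f (w + Fin.cons a v)) =
          fun v => (fun u => f (Fin.cons (w 0 + a) u)) (Fin.tail w + v) := by
        funext v
        show f (w + Fin.cons a v) = f (Fin.cons (w 0 + a) (Fin.tail w + v))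
        congr 1
        funext i
        refine Fin.cases ?_ (fun j => ?_) i
        · simp
        · simp [Fin.tail]
      rw [h2]
      exact ih (Fin.tail w) (fun u => f (Fin.cons (w 0 + a) u)) B ⟨hf.1, fun _ => hf.2 _⟩
    change μ.m (fun a => itM μ N (fun v => f (w + Fin.cons a v))) = _
    rw [h]
    exact μ.inv (w 0) (fun a => itM μ N (fun v => f (Fin.cons a v))) B (itM_bdd μ N f B hf)

lemma itM_comp (N : ℕ) : ∀ (K : ℕ) (ι : Fin K → Fin N), StrictMono ι → ∀ g : (Fin K → A) → ℝ,
    itM μ N (fun v => g (fun i => v (ι i))) = itM μ K g := by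
  induction N with
  | zero =>
    intro K ι _ g
    cases K with
    | zero =>
      change g _ = g _
      congr 1
    | succ K => exact (ι 0).elim0
  | succ N ih =>
    intro K ι hι g
    cases K with
    | zero =>
      have h : (fun v : Fin (N + 1) → A => g (fun i => v (ι i))) = fun _ => g Fin.elim0 := by
        funext v
        congr 1
        funext i
        exact i.elim0
      rw [h, itM_const]
      rfl
    | succ K =>
      by_cases h0 : ι 0 = 0
      · have hne : ∀ i : Fin K, ι i.succ ≠ 0 := by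
          intro i hi
          have h1 := hι (Fin.succ_pos i)
          rw [h0, hi] at h1
          exact lt_irrefl _ h1
        set ι' : Fin K → Fin N := fun i => (ι i.succ).pred (hne i) with hι'
        have hmono : StrictMono ι' := by
          intro i j hij
          simp only [hι', Fin.pred_lt_pred_iff]
          exact hι (Fin.succ_lt_succ_iff.2 hij)
        have h : (fun a => itM μ N (fun v => g (fun i => (Fin.cons a v : Fin (N + 1) → A) (ι i)))) =
            fun a => itM μ K (fun v => g (Fin.cons a v)) := by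
          funext a
          rw [← ih K ι' hmono (fun v => g (Fin.cons a v))]
          congr 1
          funext v
          congr 1
          funext i
          refine Fin.cases ?_ (fun j => ?_) i
          · rw [h0]; simp
          · have h2 : ι j.succ = (ι' j).succ := by simp [hι']
            rw [h2]
            simp
        change μ.m (fun a => itM μ N (fun v => g (fun i => (Fin.cons a v : Fin (N + 1) → A) (ι i))))
          = _
        rw [h]
        rfl
      · have hne : ∀ i : Fin (K + 1), ι i ≠ 0 := by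
          intro i hi
          have h1 := hι.monotone (Fin.zero_le i)
          rw [hi] at h1
          exact h0 (le_antisymm h1 (Fin.zero_le _))
        set ι' : Fin (K + 1) → Fin N := fun i => (ι i).pred (hne i) with hι'
        have hmono : StrictMono ι' := by
          intro i j hij
          simp only [hι', Fin.pred_lt_pred_iff]
          exact hι hij
        have h : (fun a => itM μ N (fun v => g (fun i => (Fin.cons a v : Fin (N + 1) → A) (ι i)))) =
            fun _ : A => itM μ (K + 1) g := by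
          funext a
          rw [← ih (K + 1) ι' hmono g]
          congr 1
          funext v
          congr 1
          funext i
          have h2 : ι i = (ι' i).succ := by simp [hι']
          rw [h2]
          simp
        change μ.m (fun a => itM μ N (fun v => g (fun i => (Fin.cons a v : Fin (N + 1) → A) (ι i))))
          = _
        rw [h]
        exact m_const μ _

/-- Enumeration of a finite set in the order given by an injection into a linear order. -/
lemma exists_enum {α L : Type} [Fintype α] [LinearOrder L] (φ : α → L)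
    (hφ : Function.Injective φ) :
    ∃ (N : ℕ) (e : Fin N ≃ α), ∀ i j, φ (e i) < φ (e j) → i < j := by
  let _ : LinearOrder α := LinearOrder.lift' φ hφ
  have e : Fin (Fintype.card α) ≃o α := Fintype.orderIsoFinOfCardEq α rfl
  refine ⟨Fintype.card α, e.toEquiv, fun i j h => ?_⟩
  have h' : e i < e j := h
  exact e.lt_iff_lt.1 h'

lemma exists_enum' {α L : Type} [Fintype α] [LinearOrder L] (φ : α → L)
    (hφ : Function.Injective φ) :
    ∃ (N : ℕ) (e : Fin N ≃ α), ∀ i j, i < j ↔ φ (e i) < φ (e j) := by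
  obtain ⟨N, e, he⟩ := exists_enum φ hφ
  refine ⟨N, e, fun i j => ⟨fun h => ?_, he i j⟩⟩
  rcases lt_trichotomy (φ (e i)) (φ (e j)) with h1 | h1 | h1
  · exact h1
  · exact absurd (e.injective (hφ h1)) h.ne
  · exact absurd (he j i h1) (lt_asymm h)

/-- The mean on functions on a finite set, transported along an enumeration. -/
def meanOf {α : Type} {N : ℕ} (e : Fin N ≃ α) : InvMean (α → A) where
  m f := itM μ N (fun v => f (fun x => v (e.symm x)))
  add f g B hf hg := itM_add μ N _ _ B ⟨hf.1, fun _ => hf.2 _⟩ ⟨hg.1, fun _ => hg.2 _⟩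
  smul c f B hf := itM_smul μ N c _ B ⟨hf.1, fun _ => hf.2 _⟩
  bound f B hf := itM_bound μ N _ B ⟨hf.1, fun _ => hf.2 _⟩
  one := itM_const μ N 1
  inv a f B hf := by
    have h := itM_inv μ N (fun i => a (e i)) (fun v => f (fun x => v (e.symm x))) B
      ⟨hf.1, fun _ => hf.2 _⟩
    rw [← h]
    congr 1
    funext v
    show f (a + fun x => v (e.symm x)) = f (fun x => ((fun i => a (e i)) + v) (e.symm x))
    congr 1
    funext x
    simp

end I1p

open I1p in
theorem claimMeans_proof (h : claimMean) : claimMeans := by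
  intro A _ q _
  obtain ⟨μ⟩ := h A
  have henum : ∀ m : ℕ, ∃ (N : ℕ) (e : Fin N ≃ (Fin q ↪o Fin (m + 1))), ∀ i j,
      i < j ↔ toLex (fun t => e i t) < toLex (fun t => e j t) := by
    intro m
    refine exists_enum' (fun G : Fin q ↪o Fin (m + 1) => toLex (fun t => G t)) ?_
    intro G G' hG
    have h2 : (fun t => G t) = (fun t => G' t) := toLex.injective hG
    exact DFunLike.coe_injective h2
  choose N e he using henum
  refine ⟨fun m => meanOf μ (e m), ?_⟩
  intro k m F f B _
  have hmono : StrictMono (fun i : Fin (N k) => (e m).symm ((e k i).trans F)) := by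
    intro i j hij
    rw [he m]
    simp only [Equiv.apply_symm_apply]
    obtain ⟨t, ht1, ht2⟩ := (he k i j).1 hij
    refine ⟨t, fun s hs => ?_, ?_⟩
    · have := ht1 s hs
      simp only at this ⊢
      simpa using congrArg F this
    · have h3 : e k i t < e k j t := ht2
      show (F (e k i t)) < (F (e k j t))
      exact F.strictMono h3
  have h := itM_comp μ (N m) (N k) _ hmono (fun u => f (fun G => u ((e k).symm G)))
  show itM μ (N m) (fun v => f (fun G => v ((e m).symm (G.trans F)))) =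
    itM μ (N k) (fun v => f (fun x => v ((e k).symm x)))
  rw [← h]
  simp

end NRF

end
end

section

/-!
# I2: connectivity of the extension by cochains
-/

open Set

noncomputable section

namespace NRF

/-- An order embedding which misses `j` factors through `succAbove j`. -/
theorem I2_factor {n m : ℕ} (G : Fin n ↪o Fin (m + 1)) (j : Fin (m + 1)) (hj : ∀ t, G t ≠ j) :
    ∃ G' : Fin n ↪o Fin m, G'.trans (Fin.succAboveOrderEmb j) = G := by
  have h : ∀ t, ∃ y, j.succAbove y = G t := fun t => Fin.exists_succAbove_eq (hj t)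
  choose g hg using h
  refine ⟨OrderEmbedding.ofStrictMono g ?_, ?_⟩
  · intro a b hab
    rw [← Fin.succAbove_lt_succAbove_iff (p := j), hg, hg]
    exact G.strictMono hab
  · ext t
    show ((j.succAbove (g t) : Fin (m + 1)) : ℕ) = _
    rw [hg]

/-- An order embedding of a smaller set misses a point. -/
theorem I2_miss {n m : ℕ} (h : n < m) (G : Fin n ↪o Fin m) : ∃ j, ∀ t, G t ≠ j := by
  by_contra hc
  push Not at hc
  have hs : Function.Surjective G := fun j => hc j
  have h1 := Fintype.card_le_of_surjective G hs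
  simp only [Fintype.card_fin] at h1
  omega

/-- Factorization of order embeddings through faces. -/
theorem I2_fac {n m : ℕ} (h : n < m + 1) (G : Fin n ↪o Fin (m + 1)) :
    ∃ (j : Fin (m + 1)) (G' : Fin n ↪o Fin m), G'.trans (Fin.succAboveOrderEmb j) = G := by
  obtain ⟨j, hj⟩ := I2_miss h G
  obtain ⟨G', hG'⟩ := I2_factor G j hj
  exact ⟨j, G', hG'⟩

/-- The only order embedding of `Fin n` into itself is the identity. -/
theorem I2_refl {n : ℕ} (G : Fin n ↪o Fin n) : G = RelEmbedding.refl _ := by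
  have hb : Function.Bijective G := Finite.injective_iff_bijective.mp G.injective
  have h1 : Subsingleton (Fin n ≃o Fin n) := inferInstance
  let e : Fin n ≃o Fin n := (StrictMono.orderIsoOfSurjective G G.strictMono hb.2)
  have h2 : e = OrderIso.refl _ := Subsingleton.elim _ _
  ext t
  have h3 : e t = G t := rfl
  rw [← h3, h2]
  rfl

/-- The double alternating sum vanishes. -/
theorem I2_dd {A : Type} [AddCommGroup A] {n : ℕ} (f : Fin (n + 2) → Fin (n + 1) → A)
    (hf : ∀ i j, f (i.succAbove j) (j.predAbove i) = f i j) :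
    ∑ i : Fin (n + 2), ((-1 : ℤ) ^ (i : ℕ)) • ∑ j : Fin (n + 1), ((-1 : ℤ) ^ (j : ℕ)) • f i j
      = 0 := by
  simp only [Finset.smul_sum, smul_smul, ← pow_add]
  rw [← Fintype.sum_prod_type' (f := fun (i : Fin (n + 2)) (j : Fin (n + 1)) =>
    ((-1 : ℤ) ^ ((i : ℕ) + (j : ℕ))) • f i j)]
  refine Finset.sum_involution (fun p _ => (p.1.succAbove p.2, p.2.predAbove p.1)) ?_ ?_ ?_ ?_
  · rintro ⟨i, j⟩ _
    simp only
    rw [hf, Fin.neg_one_pow_succAbove_add_predAbove, neg_smul, add_neg_cancel]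
  · rintro ⟨i, j⟩ _ _ h
    exact Fin.succAbove_ne i j (congrArg Prod.fst h)
  · intro a _
    exact Finset.mem_univ _
  · rintro ⟨i, j⟩ _
    simp only
    rw [Fin.succAbove_succAbove_predAbove, Fin.predAbove_predAbove_succAbove]

theorem I2_trans_swap {m n : ℕ} (i : Fin (n + 2)) (j : Fin (n + 1)) (F : Fin (n + 2) ↪o Fin m) :
    (Fin.succAboveOrderEmb (j.predAbove i)).trans
      ((Fin.succAboveOrderEmb (i.succAbove j)).trans F) =
    (Fin.succAboveOrderEmb j).trans ((Fin.succAboveOrderEmb i).trans F) := by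
  ext t
  show ((F ((i.succAbove j).succAbove ((j.predAbove i).succAbove t)) : Fin m) : ℕ) =
    (F (i.succAbove (j.succAbove t)) : Fin m)
  rw [Fin.succAbove_succAbove_succAbove_predAbove]

/-- `δδ = 0`. -/
theorem I2_cobd_cobd {A : Type} [AddCommGroup A] {q m : ℕ} (c : (Fin (q + 1) ↪o Fin (m + 1)) → A)
    (F : Fin (q + 3) ↪o Fin (m + 1)) : cobd (cobd c) F = 0 := by
  unfold cobd
  refine I2_dd (fun i j => c ((Fin.succAboveOrderEmb j).trans
    ((Fin.succAboveOrderEmb i).trans F))) (fun i j => ?_)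
  rw [I2_trans_swap]

section

variable {E : DSet} {A : Type} [AddCommGroup A] {q : ℕ} {z : E.obj (q + 1) → A} {m : ℕ}

open Classical in
/-- The cochain on the big simplex. -/
def I2_c (S : Sphere (ext E q z) m) (G : Fin (q + 1) ↪o Fin (m + 2)) : A :=
  if h : ∃ (j : Fin (m + 2)) (G' : Fin (q + 1) ↪o Fin (m + 1)),
    G'.trans (Fin.succAboveOrderEmb j) = G then (S.x h.choose).1.2 h.choose_spec.choose else 0

theorem I2_c_face (S : Sphere (ext E q z) m) (j : Fin (m + 2))
    (G : Fin (q + 1) ↪o Fin (m + 1)) :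
    I2_c S (G.trans (Fin.succAboveOrderEmb j)) = (S.x j).1.2 G := by
  have h : ∃ (j' : Fin (m + 2)) (G' : Fin (q + 1) ↪o Fin (m + 1)),
    G'.trans (Fin.succAboveOrderEmb j') = G.trans (Fin.succAboveOrderEmb j) := ⟨j, G, rfl⟩
  unfold I2_c
  rw [dif_pos h]
  have h1 := h.choose_spec.choose_spec
  have h2 := S.compat h.choose j q h.choose_spec.choose G (fun t => by
    exact DFunLike.congr_fun h1 t)
  have h3 := congrArg (fun p : (ext E q z).obj q => p.1.2 (RelEmbedding.refl _)) h2
  exact h3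

/-- The coboundary of the cochain on faces. -/
theorem I2_cobd_face (S : Sphere (ext E q z) m) (j : Fin (m + 2))
    (F : Fin (q + 2) ↪o Fin (m + 1)) :
    cobd (I2_c S) (F.trans (Fin.succAboveOrderEmb j)) = z (E.res F (S.x j).1.1) := by
  rw [← (S.x j).2 F]
  unfold cobd
  refine Finset.sum_congr rfl (fun i _ => ?_)
  congr 1
  exact I2_c_face S j ((Fin.succAboveOrderEmb i).trans F)

/-- A filling of the projected sphere with the right value of `z` on the top simplices gives a
filling. -/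
theorem I2_fill (S : Sphere (ext E q z) m) (e : E.obj (m + 1))
    (he : Fills e ((extProj E q z).sphere S))
    (hz : m = q → ∀ F : Fin (q + 2) ↪o Fin (m + 2), cobd (I2_c S) F = z (E.res F e)) :
    ∃ w, Fills w S := by
  have hc : ∀ F : Fin (q + 2) ↪o Fin (m + 2), cobd (I2_c S) F = z (E.res F e) := by
    intro F
    by_cases hm : m = q
    · exact hz hm F
    · by_cases hlt : q + 2 < m + 1 + 1
      · obtain ⟨j, F', hF'⟩ := I2_fac hlt F
        rw [← hF', I2_cobd_face, ← E.res_comp]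
        congr 2
        exact (he j).symm
      · have h1 := Fintype.card_le_of_injective F F.injective
        simp only [Fintype.card_fin] at h1
        omega
  refine ⟨⟨(e, I2_c S), hc⟩, ?_⟩
  intro j
  apply Subtype.ext
  apply Prod.ext
  · exact he j
  · funext G
    exact I2_c_face S j G

end

/-- I2: connectivity of the extension. -/
theorem claimExtConn_proof : claimExtConn := by
  intro E A _ q z hq hconn hZ hS m hm S
  rcases lt_trichotomy m q with h | h | h
  · obtain ⟨e, he⟩ := hconn m h.le ((extProj E q z).sphere S)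
    exact I2_fill S e he (fun h' => absurd h' h.ne)
  · subst h
    obtain ⟨e, he, hze⟩ := hS ((extProj E m z).sphere S)
      (cobd (I2_c S) (RelEmbedding.refl _))
    refine I2_fill S e he (fun _ F => ?_)
    rw [I2_refl F, E.res_id, hze]
  · have hmq : m = q + 1 := by omega
    subst hmq
    obtain ⟨e, he⟩ := (hZ ((extProj E q z).sphere S)).mpr (by
      have h1 := I2_cobd_cobd (I2_c S) (RelEmbedding.refl _)
      rw [← h1]
      rw [show cobd (cobd (I2_c S)) (RelEmbedding.refl _) = ∑ j : Fin (q + 3),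
        ((-1 : ℤ) ^ (j : ℕ)) • cobd (I2_c S) ((Fin.succAboveOrderEmb j).trans
          (RelEmbedding.refl _)) from rfl]
      refine Finset.sum_congr rfl (fun j _ => ?_)
      congr 1
      have h2 := I2_cobd_face S j (RelEmbedding.refl _)
      rw [E.res_id] at h2
      exact h2.symm)
    exact I2_fill S e he (fun h' => absurd h' (by omega))

end NRF

end
end

section

/-!
# I3: lifting of fillings to the extension by cochains
-/

open scoped Topology unitInterval Topology.Homotopy
open Set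

noncomputable section

namespace NRF

/-- An order embedding of fewer than `m+2` vertices misses a vertex. -/
theorem I3_miss {k m : ℕ} (h : k < m + 2) (F : Fin k ↪o Fin (m + 2)) : ∃ j, ∀ t, F t ≠ j := by
  by_contra hcon
  push Not at hcon
  have hs : Function.Surjective F := hcon
  have := Fintype.card_le_of_surjective F hs
  simp only [Fintype.card_fin] at this
  omega

/-- An order embedding missing the vertex `j` factors through the `j`-th face. -/
theorem I3_factor {k m : ℕ} (F : Fin k ↪o Fin (m + 2)) (j : Fin (m + 2)) (h : ∀ t, F t ≠ j) :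
    ∃ f : Fin k ↪o Fin (m + 1), f.trans (Fin.succAboveOrderEmb j) = F := by
  have h1 : ∀ t, ∃ z, j.succAbove z = F t := fun t => Fin.exists_succAbove_eq (h t)
  choose f hf using h1
  refine ⟨OrderEmbedding.ofStrictMono f ?_, ?_⟩
  · intro a b hab
    have h2 : F a < F b := F.strictMono hab
    rw [← hf a, ← hf b] at h2
    exact (Fin.succAbove_lt_succAbove_iff).1 h2
  · apply DFunLike.ext
    intro t
    exact hf t

theorem I3_exists {k m : ℕ} (h : k < m + 2) (F : Fin k ↪o Fin (m + 2)) :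
    ∃ (j : Fin (m + 2)) (f : Fin k ↪o Fin (m + 1)), f.trans (Fin.succAboveOrderEmb j) = F := by
  obtain ⟨j, hj⟩ := I3_miss h F
  obtain ⟨f, hf⟩ := I3_factor F j hj
  exact ⟨j, f, hf⟩

theorem I3_cobd_congr {A : Type} [AddCommGroup A] {q m m' : ℕ}
    (c : (Fin (q + 1) ↪o Fin (m + 1)) → A) (c' : (Fin (q + 1) ↪o Fin (m' + 1)) → A)
    (F : Fin (q + 2) ↪o Fin (m + 1)) (F' : Fin (q + 2) ↪o Fin (m' + 1))
    (h : ∀ i : Fin (q + 2), c ((Fin.succAboveOrderEmb i).trans F) =
      c' ((Fin.succAboveOrderEmb i).trans F')) : cobd c F = cobd c' F' := by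
  unfold cobd
  exact Finset.sum_congr rfl (fun i _ => by rw [h i])

theorem claimExtLift_proof : claimExtLift := by
  intro E E0 π A _ q z hL m hm S w hw
  obtain ⟨w', hfill, hπ⟩ := hL m (by omega) ((extProj E q z).sphere S) w hw
  have hex : ∀ G : Fin (q + 1) ↪o Fin (m + 2),
      ∃ (j : Fin (m + 2)) (f : Fin (q + 1) ↪o Fin (m + 1)), f.trans (Fin.succAboveOrderEmb j) = G :=
    fun G => I3_exists (by omega) G
  choose J f hf using hex
  let c : (Fin (q + 1) ↪o Fin (m + 1 + 1)) → A := fun G => (S.x (J G)).1.2 (f G)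
  have hc : ∀ (j : Fin (m + 2)) (g : Fin (q + 1) ↪o Fin (m + 1)),
      c (g.trans (Fin.succAboveOrderEmb j)) = (S.x j).1.2 g := by
    intro j g
    have h1 := hf (g.trans (Fin.succAboveOrderEmb j))
    have h2 := S.compat (J (g.trans (Fin.succAboveOrderEmb j))) j q
      (f (g.trans (Fin.succAboveOrderEmb j))) g (fun t => by
        have := DFunLike.congr_fun h1 t
        exact this)
    have h3 := congrArg (fun p => p.1.2 (RelEmbedding.refl _)) h2
    exact h3
  have hfill' : ∀ j, E.d j w' = (S.x j).1.1 := hfill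
  have hcoc : ∀ F : Fin (q + 2) ↪o Fin (m + 1 + 1), cobd c F = z (E.res F w') := by
    intro F
    obtain ⟨j, g, hg⟩ := I3_exists (by omega) F
    have h1 : cobd c F = cobd (S.x j).1.2 g := by
      apply I3_cobd_congr
      intro i
      rw [← hc j, ← hg]
      rfl
    rw [h1, (S.x j).2 g, ← hfill' j]
    unfold DSet.d
    rw [E.res_comp, hg]
  refine ⟨⟨(w', c), hcoc⟩, ?_, hπ⟩
  intro j
  apply Subtype.ext
  apply Prod.ext
  · exact hfill' j
  · funext G
    exact hc j G

end NRF

end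
end

section

/-!
# Module I, item I4: the transfer for the extension by cochains
-/

open Set

noncomputable section

namespace NRF

variable {A : Type} [AddCommGroup A]

/-! ### The cone -/

/-- The face `0 * G`. -/
def I4cons {r m : ℕ} (G : Fin (r + 1) ↪o Fin (m + 1)) (h : G 0 ≠ 0) :
    Fin (r + 2) ↪o Fin (m + 1) :=
  OrderEmbedding.ofStrictMono (Fin.cons (α := fun _ => Fin (m + 1)) 0 G) (by
    intro a b hab
    have h0 : ∀ b, 0 < G b := fun b =>
      lt_of_lt_of_le (Fin.pos_of_ne_zero h) (G.monotone (Fin.zero_le b))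
    induction a using Fin.cases with
    | zero =>
      induction b using Fin.cases with
      | zero => exact absurd hab (lt_irrefl _)
      | succ b => simpa using h0 b
    | succ a =>
      induction b using Fin.cases with
      | zero => exact absurd hab (Fin.not_lt_zero _)
      | succ b => simpa using hab)

theorem I4cons_zero {r m : ℕ} (G : Fin (r + 1) ↪o Fin (m + 1)) (h : G 0 ≠ 0) :
    I4cons G h 0 = 0 := rfl

theorem I4cons_succ {r m : ℕ} (G : Fin (r + 1) ↪o Fin (m + 1)) (h : G 0 ≠ 0) (i : Fin (r + 1)) :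
    I4cons G h i.succ = G i := rfl

/-- The cone operator. -/
def I4K {r m : ℕ} (d : (Fin (r + 2) ↪o Fin (m + 1)) → A) (G : Fin (r + 1) ↪o Fin (m + 1)) : A :=
  if h : G 0 ≠ 0 then d (I4cons G h) else 0

theorem I4_cone {r m : ℕ} (d : (Fin (r + 2) ↪o Fin (m + 1)) → A)
    (hd : ∀ F : Fin (r + 3) ↪o Fin (m + 1), cobd (q := r + 1) d F = 0)
    (G : Fin (r + 2) ↪o Fin (m + 1)) : cobd (q := r) (I4K d) G = d G := by
  unfold cobd
  by_cases h : G 0 = 0
  · rw [Fin.sum_univ_succ]
    have h1 : ((Fin.succAboveOrderEmb (0 : Fin (r + 2))).trans G) 0 ≠ 0 := by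
      show G (Fin.succAbove 0 0) ≠ 0
      rw [← h]
      intro hc
      have := G.injective hc
      simp at this
    have h2 : I4K d ((Fin.succAboveOrderEmb (0 : Fin (r + 2))).trans G) = d G := by
      unfold I4K
      rw [dif_pos h1]
      congr 1
      ext t
      induction t using Fin.cases with
      | zero => rw [I4cons_zero, h]
      | succ t =>
        rw [I4cons_succ]
        show ((G (Fin.succAbove 0 t) : Fin (m + 1)) : ℕ) = _
        rw [Fin.succAbove_zero]
    rw [h2]
    have h3 : ∀ i : Fin (r + 1),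
        I4K d ((Fin.succAboveOrderEmb (i.succ : Fin (r + 2))).trans G) = 0 := by
      intro i
      unfold I4K
      rw [dif_neg]
      rw [not_not]
      show G (Fin.succAbove i.succ 0) = 0
      rw [Fin.succ_succAbove_zero, h]
    simp [h3]
  · have hF := hd (I4cons G h)
    unfold cobd at hF
    rw [Fin.sum_univ_succ] at hF
    have h2 : d ((Fin.succAboveOrderEmb (0 : Fin (r + 3))).trans (I4cons G h)) = d G := by
      congr 1
    have h3 : ∀ i : Fin (r + 2),
        d ((Fin.succAboveOrderEmb (i.succ : Fin (r + 3))).trans (I4cons G h)) =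
          I4K d ((Fin.succAboveOrderEmb i).trans G) := by
      intro i
      have h4 : ((Fin.succAboveOrderEmb i).trans G) 0 ≠ 0 := by
        show G (Fin.succAbove i 0) ≠ 0
        exact (lt_of_lt_of_le (Fin.pos_of_ne_zero h) (G.monotone (Fin.zero_le _))).ne'
      unfold I4K
      rw [dif_pos h4]
      congr 1
      ext t
      induction t using Fin.cases with
      | zero =>
        rw [I4cons_zero]
        show ((I4cons G h (Fin.succAbove i.succ 0) : Fin (m + 1)) : ℕ) = _
        rw [Fin.succ_succAbove_zero, I4cons_zero]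
      | succ t =>
        rw [I4cons_succ]
        show ((I4cons G h (Fin.succAbove i.succ t.succ) : Fin (m + 1)) : ℕ) = _
        rw [Fin.succ_succAbove_succ, I4cons_succ]
        rfl
    rw [h2] at hF
    simp only [h3, Fin.val_zero, pow_zero, one_smul, Fin.val_succ, pow_succ, mul_neg, mul_one,
      neg_smul, Finset.sum_neg_distrib] at hF
    rw [← sub_eq_add_neg, sub_eq_zero] at hF
    exact hF.symm

theorem I4_cobd_cobd {r m : ℕ} (b : (Fin (r + 1) ↪o Fin (m + 1)) → A)
    (F : Fin (r + 3) ↪o Fin (m + 1)) : cobd (q := r + 1) (cobd (q := r) b) F = 0 := by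
  unfold cobd
  simp only [Finset.smul_sum, smul_smul]
  rw [← Finset.sum_product']
  refine Finset.sum_involution (fun p _ => (p.1.succAbove p.2, p.2.predAbove p.1)) ?_ ?_ ?_ ?_
  · rintro ⟨i, j⟩ _
    have h1 : (Fin.succAboveOrderEmb (j.predAbove i)).trans
        ((Fin.succAboveOrderEmb (i.succAbove j)).trans F) =
        (Fin.succAboveOrderEmb j).trans ((Fin.succAboveOrderEmb i).trans F) := by
      ext k
      show ((F ((i.succAbove j).succAbove ((j.predAbove i).succAbove k)) : Fin (m + 1)) : ℕ) =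
        ((F (i.succAbove (j.succAbove k)) : Fin (m + 1)) : ℕ)
      rw [Fin.succAbove_succAbove_succAbove_predAbove]
    simp only
    rw [h1, ← pow_add, ← pow_add, Fin.neg_one_pow_succAbove_add_predAbove, neg_smul,
      add_neg_cancel]
  · rintro ⟨i, j⟩ _ _ h
    exact Fin.succAbove_ne i j (congrArg Prod.fst h)
  · intro p _
    simp
  · rintro ⟨i, j⟩ _
    simp only [Fin.succAbove_succAbove_predAbove, Fin.predAbove_predAbove_succAbove]

theorem I4_cobd_add {q m : ℕ} (b b' : (Fin (q + 1) ↪o Fin (m + 1)) → A)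
    (F : Fin (q + 2) ↪o Fin (m + 1)) :
    cobd (fun G => b G + b' G) F = cobd b F + cobd b' F := by
  unfold cobd
  simp only [smul_add, Finset.sum_add_distrib]

theorem I4_cobd_sub {q m : ℕ} (b b' : (Fin (q + 1) ↪o Fin (m + 1)) → A)
    (F : Fin (q + 2) ↪o Fin (m + 1)) :
    cobd (fun G => b G - b' G) F = cobd b F - cobd b' F := by
  unfold cobd
  simp only [smul_sub, Finset.sum_sub_distrib]

theorem I4_cobd_trans {q k m : ℕ} (b : (Fin (q + 1) ↪o Fin (m + 1)) → A)
    (f : Fin (k + 1) ↪o Fin (m + 1)) (G : Fin (q + 2) ↪o Fin (k + 1)) :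
    cobd b (G.trans f) = cobd (fun G' : Fin (q + 1) ↪o Fin (k + 1) => b (G'.trans f)) G := rfl

/-- The cochain `z_e` is a cocycle. -/
theorem I4_cocycle (E : DSet) (q : ℕ) (z : E.obj (q + 1) → A) (hz : ZProp E q z) {m : ℕ}
    (e : E.obj m) (H : Fin (q + 3) ↪o Fin (m + 1)) :
    cobd (q := q + 1) (fun F : Fin (q + 2) ↪o Fin (m + 1) => z (E.res F e)) H = 0 := by
  have h1 : ∀ (i j : Fin (q + 3)) (k : ℕ) (f g : Fin (k + 1) ↪o Fin (q + 2)),
      (∀ t, i.succAbove (f t) = j.succAbove (g t)) →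
      E.res f (E.d i (E.res H e)) = E.res g (E.d j (E.res H e)) := by
    intro i j k f g h
    have hfg : f.trans (Fin.succAboveOrderEmb i) = g.trans (Fin.succAboveOrderEmb j) := by
      ext t
      exact congrArg Fin.val (h t)
    show E.res f (E.res (Fin.succAboveOrderEmb i) (E.res H e)) =
      E.res g (E.res (Fin.succAboveOrderEmb j) (E.res H e))
    rw [E.res_comp f (Fin.succAboveOrderEmb i) (E.res H e),
      E.res_comp g (Fin.succAboveOrderEmb j) (E.res H e), hfg]
  have h2 := (hz ⟨fun j => E.d j (E.res H e), h1⟩).1 ⟨E.res H e, fun j => rfl⟩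
  unfold cobd
  rw [← h2]
  apply Finset.sum_congr rfl
  intro i _
  have h3 : E.res ((Fin.succAboveOrderEmb i).trans H) e = E.d i (E.res H e) := by
    show _ = E.res (Fin.succAboveOrderEmb i) (E.res H e)
    rw [E.res_comp]
  show _ • z (E.res ((Fin.succAboveOrderEmb i).trans H) e) = _ • z (E.d i (E.res H e))
  rw [h3]

section

variable (E : DSet) (q' : ℕ) (z : E.obj (q' + 1 + 1) → A) (hz : ZProp E (q' + 1) z)

/-- The base solution. -/
def I4c {m : ℕ} (e : E.obj m) : (Fin (q' + 2) ↪o Fin (m + 1)) → A :=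
  I4K (r := q' + 1) (fun F => z (E.res F e))

include hz in
theorem I4c_spec {m : ℕ} (e : E.obj m) (F : Fin (q' + 3) ↪o Fin (m + 1)) :
    cobd (q := q' + 1) (I4c E q' z e) F = z (E.res F e) :=
  I4_cone (r := q' + 1) _ (fun H => I4_cocycle E (q' + 1) z hz e H) F

/-- The solutions. -/
def I4sol {m : ℕ} (e : E.obj m) (b : (Fin (q' + 1) ↪o Fin (m + 1)) → A) :
    (ext E (q' + 1) z).obj m :=
  ⟨(e, fun G => I4c E q' z e G + cobd (q := q') b G), fun F => by
    show cobd (q := q' + 1) (fun G => I4c E q' z e G + cobd (q := q') b G) F = z (E.res F e)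
    rw [I4_cobd_add, I4c_spec E q' z hz, I4_cobd_cobd, add_zero]⟩

theorem I4_res {k m : ℕ} (F : Fin (k + 1) ↪o Fin (m + 1)) (e : E.obj m) :
    ∃ b1 : (Fin (q' + 1) ↪o Fin (k + 1)) → A, ∀ b : (Fin (q' + 1) ↪o Fin (m + 1)) → A,
      (ext E (q' + 1) z).res F (I4sol E q' z hz e b) =
        I4sol E q' z hz (E.res F e) (b1 + fun G => b (G.trans F)) := by
  refine ⟨I4K (r := q') (fun G => I4c E q' z e (G.trans F) - I4c E q' z (E.res F e) G), ?_⟩
  intro b
  have hcone : ∀ G : Fin (q' + 2) ↪o Fin (k + 1),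
      cobd (q := q')
        (I4K (r := q') (fun G => I4c E q' z e (G.trans F) - I4c E q' z (E.res F e) G)) G =
        I4c E q' z e (G.trans F) - I4c E q' z (E.res F e) G := by
    intro G
    refine I4_cone (r := q')
      (fun G => I4c E q' z e (G.trans F) - I4c E q' z (E.res F e) G) ?_ G
    intro H
    rw [I4_cobd_sub, ← I4_cobd_trans, I4c_spec E q' z hz, I4c_spec E q' z hz, E.res_comp,
      sub_self]
  apply Subtype.ext
  apply Prod.ext
  · rfl
  · funext G
    show I4c E q' z e (G.trans F) + cobd (q := q') b (G.trans F) =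
      I4c E q' z (E.res F e) G + cobd (q := q')
        (I4K (r := q') (fun G => I4c E q' z e (G.trans F) - I4c E q' z (E.res F e) G) +
          fun G => b (G.trans F)) G
    have h1 := I4_cobd_add
      (I4K (r := q') (fun G => I4c E q' z e (G.trans F) - I4c E q' z (E.res F e) G))
      (fun G => b (G.trans F)) G
    have h2 : cobd (q := q')
        (I4K (r := q') (fun G => I4c E q' z e (G.trans F) - I4c E q' z (E.res F e) G) +
          fun G => b (G.trans F)) G = _ := h1
    rw [h2, hcone, ← I4_cobd_trans]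
    abel

end

theorem claimExtTransfer_proof (h : claimMeans) : claimExtTransfer := by
  intro E A _ q z hq hz
  obtain ⟨q', rfl⟩ : ∃ q', q = q' + 1 := ⟨q - 1, by omega⟩
  obtain ⟨M, hM⟩ := h A (q' + 1) hq
  have hconst : ∀ (m : ℕ) (c : ℝ), (M m).m (fun _ => c) = c := by
    intro m c
    have h1 := (M m).smul c (fun _ => 1) 1 ⟨zero_le_one, fun _ => by simp⟩
    rw [(M m).one, mul_one] at h1
    simpa using h1
  refine ⟨{
    T := fun {m} f e => (M m).m (fun b => f (I4sol E q' z hz e b))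
    add := ?_
    smul := ?_
    bound := ?_
    sec := ?_
    nat := ?_ }⟩
  · intro m f g B hf hg y
    exact (M m).add _ _ B ⟨hf.1, fun _ => hf.2 _⟩ ⟨hg.1, fun _ => hg.2 _⟩
  · intro m c f B hf y
    exact (M m).smul c _ B ⟨hf.1, fun _ => hf.2 _⟩
  · intro m f B hf
    exact ⟨hf.1, fun y => (M m).bound _ B ⟨hf.1, fun _ => hf.2 _⟩⟩
  · intro m f B hf y
    exact hconst m (f y)
  · intro k m F f B hf y
    obtain ⟨b1, hb1⟩ := I4_res E q' z hz F y
    have e1 : (M m).m (fun b => f ((ext E (q' + 1) z).res F (I4sol E q' z hz y b))) =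
        (M m).m (fun b => (fun b' : (Fin (q' + 1) ↪o Fin (k + 1)) → A =>
          f (I4sol E q' z hz (E.res F y) (b1 + b'))) (fun G => b (G.trans F))) := by
      congr 1
      funext b
      rw [hb1]
    have e2 := hM k m F (fun b' : (Fin (q' + 1) ↪o Fin (k + 1)) → A =>
      f (I4sol E q' z hz (E.res F y) (b1 + b'))) B ⟨hf.1, fun _ => hf.2 _⟩
    have e3 := (M k).inv b1 (fun b' => f (I4sol E q' z hz (E.res F y) b')) B
      ⟨hf.1, fun _ => hf.2 _⟩
    show (M m).m (fun b => f ((ext E (q' + 1) z).res F (I4sol E q' z hz y b))) =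
      (M k).m (fun b => f (I4sol E q' z hz (E.res F y) b))
    rw [e1, e2, e3]

end NRF

end
end

section

/-!
# I5: contraction from connectivity
-/

open Set

noncomputable section

namespace NRF

namespace I5

/-- Faces of faces. -/
theorem d_comm (E : DSet) {m : ℕ} (e : E.obj (m + 2)) (i : Fin (m + 3)) (j : Fin (m + 2)) :
    E.d j (E.d i e) = E.d (j.predAbove i) (E.d (i.succAbove j) e) := by
  unfold DSet.d
  rw [E.res_comp, E.res_comp]
  congr 1
  apply DFunLike.ext
  intro t
  show i.succAbove (j.succAbove t) = (i.succAbove j).succAbove ((j.predAbove i).succAbove t)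
  exact (Fin.succAbove_succAbove_succAbove_predAbove i j t).symm

/-- An order embedding missing a point factors through the face. -/
theorem factor {k n : ℕ} (f : Fin (k + 1) ↪o Fin (n + 2)) (a : Fin (n + 2)) (h : ∀ t, f t ≠ a) :
    ∃ f1 : Fin (k + 1) ↪o Fin (n + 1), ∀ t, a.succAbove (f1 t) = f t := by
  have h1 : ∀ t, ∃ u, a.succAbove u = f t := fun t => Fin.exists_succAbove_eq (h t)
  choose u hu using h1
  refine ⟨OrderEmbedding.ofStrictMono u ?_, fun t => hu t⟩
  intro s t hst
  rw [← Fin.succAbove_lt_succAbove_iff (p := a), hu, hu]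
  exact f.strictMono hst

/-- Compatibility of a family of simplices needs to be checked only in codimension one. -/
theorem compat_of (E : DSet) {n : ℕ} (x : Fin (n + 3) → E.obj (n + 1))
    (h : ∀ (i : Fin (n + 3)) (j : Fin (n + 2)),
      E.d j (x i) = E.d (j.predAbove i) (x (i.succAbove j)))
    (i j : Fin (n + 3)) (k : ℕ) (f g : Fin (k + 1) ↪o Fin (n + 2))
    (hfg : ∀ t, i.succAbove (f t) = j.succAbove (g t)) : E.res f (x i) = E.res g (x j) := by
  by_cases hij : i = j
  · subst hij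
    have : f = g := by
      apply DFunLike.ext
      intro t
      exact Fin.succAbove_right_injective (hfg t)
    rw [this]
  · obtain ⟨a, rfl⟩ := Fin.exists_succAbove_eq (Ne.symm hij)
    have hfa : ∀ t, f t ≠ a := by
      intro t hta
      have h2 := hfg t
      rw [hta] at h2
      exact Fin.succAbove_ne _ _ h2.symm
    obtain ⟨f1, hf1⟩ := factor f a hfa
    have hf : f = f1.trans (Fin.succAboveOrderEmb a) := by
      apply DFunLike.ext
      intro t
      exact (hf1 t).symm
    have hg : g = f1.trans (Fin.succAboveOrderEmb (a.predAbove i)) := by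
      apply DFunLike.ext
      intro t
      show g t = (a.predAbove i).succAbove (f1 t)
      apply Fin.succAbove_right_injective (p := i.succAbove a)
      show (i.succAbove a).succAbove (g t) = (i.succAbove a).succAbove _
      rw [← hfg t, ← hf1 t]
      exact (Fin.succAbove_succAbove_succAbove_predAbove i a (f1 t)).symm
    rw [hf, hg, ← E.res_comp, ← E.res_comp]
    congr 1
    exact h i a

theorem fin1_eq (a b : Fin (0 + 1)) : a = b := by
  apply Fin.ext
  have ha := a.isLt
  have hb := b.isLt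
  omega

theorem succAbove_zero_inj (i j : Fin (0 + 2)) (h : i.succAbove (0 : Fin (0 + 1)) =
    j.succAbove (0 : Fin (0 + 1))) : i = j := by
  revert i j
  decide

open Classical in
/-- Cones with apex `p`. -/
def cone (E : DSet) (p : E.obj 0) : ∀ m, E.obj m → Option (E.obj (m + 1))
  | 0, e => if h : ∃ w : E.obj 1, E.d 0 w = e ∧ E.d 1 w = p then some h.choose else none
  | m + 1, e =>
    if h : ∃ w : E.obj (m + 2), E.d 0 w = e ∧
      ∀ i : Fin (m + 2), cone E p m (E.d i e) = some (E.d i.succ w) then some h.choose else none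

theorem cone_zero_spec {E : DSet} {p : E.obj 0} {e : E.obj 0} {w : E.obj 1}
    (h : cone E p 0 e = some w) : E.d 0 w = e ∧ E.d 1 w = p := by
  rw [cone] at h
  split_ifs at h with h1
  obtain rfl := Option.some_injective _ h
  exact h1.choose_spec

theorem cone_succ_spec {E : DSet} {p : E.obj 0} {m : ℕ} {e : E.obj (m + 1)} {w : E.obj (m + 2)}
    (h : cone E p (m + 1) e = some w) : E.d 0 w = e ∧
      ∀ i : Fin (m + 2), cone E p m (E.d i e) = some (E.d i.succ w) := by
  rw [cone] at h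
  split_ifs at h with h1
  obtain rfl := Option.some_injective _ h
  exact h1.choose_spec

theorem cone_d0 {E : DSet} {p : E.obj 0} {m : ℕ} {e : E.obj m} {w : E.obj (m + 1)}
    (h : cone E p m e = some w) : E.d 0 w = e := by
  cases m with
  | zero => exact (cone_zero_spec h).1
  | succ m => exact (cone_succ_spec h).1

theorem cone_exists {E : DSet} (p : E.obj 0) {N : ℕ} (hC : ∀ m ≤ N, Conn E m) :
    ∀ m ≤ N, ∀ e : E.obj m, ∃ w, cone E p m e = some w := by
  intro m
  induction m with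
  | zero =>
    intro hm e
    obtain ⟨w, hw⟩ := hC 0 hm
      { x := ![e, p]
        compat := by
          intro i j k f g h
          have h0 := h 0
          have hf : f 0 = 0 := fin1_eq _ _
          have hg : g 0 = 0 := fin1_eq _ _
          rw [hf, hg] at h0
          have hij : i = j := succAbove_zero_inj i j h0
          subst hij
          have hfg : f = g := by
            apply DFunLike.ext
            intro t
            exact fin1_eq _ _
          rw [hfg] }
    have h1 : ∃ w : E.obj 1, E.d 0 w = e ∧ E.d 1 w = p := ⟨w, hw 0, hw 1⟩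
    rw [cone, dif_pos h1]
    exact ⟨_, rfl⟩
  | succ m ih =>
    intro hm e
    have ih' := ih (by omega)
    choose s hs using ih'
    have hx : ∀ (i : Fin (m + 3)) (j : Fin (m + 2)),
        E.d j ((Fin.cons e (fun i => s (E.d i e)) : Fin (m + 3) → E.obj (m + 1)) i) =
        E.d (j.predAbove i)
          ((Fin.cons e (fun i => s (E.d i e)) : Fin (m + 3) → E.obj (m + 1)) (i.succAbove j)) := by
      intro i j
      induction i using Fin.cases with
      | zero =>
        rw [Fin.zero_succAbove, Fin.cons_zero, Fin.cons_succ]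
        have h1 : j.predAbove (0 : Fin (m + 3)) = 0 := by
          rw [Fin.predAbove_right_zero]
        rw [h1, cone_d0 (hs (E.d j e))]
      | succ a =>
        induction j using Fin.cases with
        | zero =>
          rw [Fin.succ_succAbove_zero, Fin.cons_zero, Fin.cons_succ]
          have h1 : (0 : Fin (m + 2)).predAbove a.succ = a := by
            rw [Fin.predAbove_zero_succ]
          rw [h1, cone_d0 (hs (E.d a e))]
        | succ b =>
          rw [Fin.succ_succAbove_succ, Fin.cons_succ, Fin.cons_succ]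
          have h1 : b.succ.predAbove a.succ = (b.predAbove a).succ := by
            rw [Fin.succ_predAbove_succ]
          rw [h1]
          have h2 := hs (E.d a e)
          have h3 := hs (E.d (a.succAbove b) e)
          cases m with
          | zero =>
            have h4 : b.succ = 1 := congrArg Fin.succ (fin1_eq b 0)
            have h5 : (b.predAbove a).succ = 1 := congrArg Fin.succ (fin1_eq (b.predAbove a) 0)
            rw [h4, h5, (cone_zero_spec h2).2, (cone_zero_spec h3).2]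
          | succ m =>
            have h4 := (cone_succ_spec h2).2 b
            have h5 := (cone_succ_spec h3).2 (b.predAbove a)
            rw [d_comm E e a b, h5] at h4
            exact (Option.some_injective _ h4).symm
    obtain ⟨w, hw⟩ := hC (m + 1) hm
      { x := Fin.cons e (fun i => s (E.d i e))
        compat := compat_of E _ hx }
    have h1 : ∃ w : E.obj (m + 2), E.d 0 w = e ∧
        ∀ i : Fin (m + 2), cone E p m (E.d i e) = some (E.d i.succ w) := by
      refine ⟨w, hw 0, fun i => ?_⟩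
      rw [hs]
      congr 1
      exact (hw i.succ).symm
    rw [cone, dif_pos h1]
    exact ⟨_, rfl⟩

/-- The contraction. -/
def kk (E : DSet) (p : E.obj 0) (m : ℕ) (f : E.obj (m + 1) → ℝ) (e : E.obj m) : ℝ :=
  match cone E p m e with
  | some w => f w
  | none => 0

theorem kk_some {E : DSet} {p : E.obj 0} {m : ℕ} (f : E.obj (m + 1) → ℝ) {e : E.obj m}
    {w : E.obj (m + 1)} (h : cone E p m e = some w) : kk E p m f e = f w := by
  unfold kk
  rw [h]

theorem kk_none {E : DSet} {p : E.obj 0} {m : ℕ} (f : E.obj (m + 1) → ℝ) {e : E.obj m}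
    (h : cone E p m e = none) : kk E p m f e = 0 := by
  unfold kk
  rw [h]

end I5

open I5 in
theorem claimContrOf_proof : claimContrOf := by
  intro E N ⟨p⟩ hC
  have hex := cone_exists p hC
  refine ⟨{
    k0 := fun f => f p
    k := kk E p
    k0_add := fun _ _ _ _ _ => rfl
    k0_smul := fun _ _ _ _ => rfl
    k0_bound := fun f B hf => hf.2 p
    k_add := ?_
    k_smul := ?_
    k_bound := ?_
    zero := ?_
    succ := ?_ }⟩
  · intro m f g B _ _ y
    cases h : cone E p m y with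
    | none => rw [kk_none _ h, kk_none _ h, kk_none _ h, add_zero]
    | some w => rw [kk_some _ h, kk_some _ h, kk_some _ h]
  · intro m c f B _ y
    cases h : cone E p m y with
    | none => rw [kk_none _ h, kk_none _ h, mul_zero]
    | some w => rw [kk_some _ h, kk_some _ h]
  · intro m f B hf
    refine ⟨hf.1, fun y => ?_⟩
    cases h : cone E p m y with
    | none => rw [kk_none _ h, abs_zero]; exact hf.1
    | some w => rw [kk_some _ h]; exact hf.2 w
  · intro f B _ e
    obtain ⟨w, hw⟩ := hex 0 (Nat.zero_le _) e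
    obtain ⟨h0, h1⟩ := cone_zero_spec hw
    rw [kk_some _ hw]
    unfold DSet.delta
    rw [Fin.sum_univ_two, h0, h1]
    simp
  · intro m hm f B _ e
    obtain ⟨w, hw⟩ := hex (m + 1) hm e
    obtain ⟨h0, h1⟩ := cone_succ_spec hw
    rw [kk_some _ hw]
    have h2 : E.delta (kk E p m f) e = ∑ i : Fin (m + 2), (-1 : ℝ) ^ (i : ℕ) * f (E.d i.succ w) := by
      unfold DSet.delta
      refine Finset.sum_congr rfl fun i _ => ?_
      rw [kk_some f (h1 i)]
    have h3 : E.delta f w = f e - ∑ i : Fin (m + 2), (-1 : ℝ) ^ (i : ℕ) * f (E.d i.succ w) := by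
      unfold DSet.delta
      rw [Fin.sum_univ_succ, h0]
      simp only [Fin.val_zero, pow_zero, one_mul, Fin.val_succ, pow_succ]
      rw [sub_eq_add_neg, ← Finset.sum_neg_distrib]
      congr 1
      refine Finset.sum_congr rfl fun i _ => ?_
      ring
    rw [h2, h3]
    ring

end NRF

end

end

section

/-!
# I6: contractions descend along transfers
-/

open Set

noncomputable section

namespace NRF

namespace I6

theorem bdd_comp {α β : Type} (g : β → α) {f : α → ℝ} {B : ℝ} (h : BddBy B f) :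
    BddBy B (fun x => f (g x)) := ⟨h.1, fun x => h.2 (g x)⟩

theorem bdd_mono {α : Type} {f : α → ℝ} {B B' : ℝ} (h : BddBy B f) (hB : B ≤ B') :
    BddBy B' f := ⟨le_trans h.1 hB, fun x => le_trans (h.2 x) hB⟩

theorem bdd_add {α : Type} {f g : α → ℝ} {B B' : ℝ} (h : BddBy B f) (h' : BddBy B' g) :
    BddBy (B + B') (fun x => f x + g x) :=
  ⟨add_nonneg h.1 h'.1, fun x => le_trans (abs_add_le _ _) (add_le_add (h.2 x) (h'.2 x))⟩

theorem bdd_const {α : Type} (c : ℝ) : BddBy |c| (fun _ : α => c) := ⟨abs_nonneg c, fun _ => le_refl _⟩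

theorem bdd_zero {α : Type} : BddBy 0 (fun _ : α => (0 : ℝ)) := ⟨le_refl _, fun _ => by simp⟩

theorem bdd_sum {α ι : Type} (s : Finset ι) (F : ι → α → ℝ) {B : ℝ} (hB0 : 0 ≤ B)
    (h : ∀ i, BddBy B (F i)) : BddBy (s.card * B) (fun x => ∑ i ∈ s, F i x) := by
  refine ⟨by positivity, fun x => ?_⟩
  calc |∑ i ∈ s, F i x| ≤ ∑ i ∈ s, |F i x| := Finset.abs_sum_le_sum_abs _ _
    _ ≤ ∑ _i ∈ s, B := Finset.sum_le_sum fun i _ => (h i).2 x
    _ = s.card * B := by rw [Finset.sum_const, nsmul_eq_mul]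

theorem bdd_sign {α : Type} {f : α → ℝ} {B : ℝ} (i : ℕ) (h : BddBy B f) :
    BddBy B (fun x => (-1 : ℝ) ^ i * f x) := by
  refine ⟨h.1, fun x => ?_⟩
  rw [abs_mul, abs_pow, abs_neg, abs_one, one_pow, one_mul]
  exact h.2 x

theorem bdd_delta (E : DSet) {m : ℕ} {f : E.obj m → ℝ} {B : ℝ} (h : BddBy B f) :
    BddBy ((m + 2 : ℕ) * B) (E.delta f) := by
  have := bdd_sum (Finset.univ : Finset (Fin (m + 2)))
    (fun (i : Fin (m + 2)) (x : E.obj (m + 1)) => (-1 : ℝ) ^ (i : ℕ) * f (E.d i x)) h.1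
    (fun i => bdd_sign i (bdd_comp (E.d i) h))
  rw [Finset.card_univ, Fintype.card_fin] at this
  exact this

variable {E E0 : DSet} {π : DMap E E0}

theorem T_zero (tr : Transfer π) {m : ℕ} (y : E0.obj m) : tr.T (fun _ : E.obj m => (0 : ℝ)) y = 0 := by
  have h := tr.smul (m := m) 0 (fun _ => 0) 0 bdd_zero y
  simpa using h

theorem T_const (tr : Transfer π) {m : ℕ} (c : ℝ) (y : E0.obj m) :
    tr.T (fun _ : E.obj m => c) y = c :=
  tr.sec (fun _ => c) |c| (bdd_const c) y

theorem T_sum (tr : Transfer π) {m : ℕ} {ι : Type} (s : Finset ι) (F : ι → E.obj m → ℝ) (B : ℝ)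
    (hB0 : 0 ≤ B) (hB : ∀ i, BddBy B (F i)) (y : E0.obj m) :
    tr.T (fun x => ∑ i ∈ s, F i x) y = ∑ i ∈ s, tr.T (F i) y := by
  classical
  induction s using Finset.induction_on with
  | empty => simpa using T_zero tr y
  | insert a s ha ih =>
    have h1 : (fun x => ∑ i ∈ insert a s, F i x) = fun x => F a x + ∑ i ∈ s, F i x := by
      funext x
      rw [Finset.sum_insert ha]
    rw [h1, Finset.sum_insert ha, ← ih]
    apply tr.add (F a) (fun x => ∑ i ∈ s, F i x) (B + s.card * B)
    · exact bdd_mono (hB a) (le_add_of_nonneg_right (by positivity))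
    · exact bdd_mono (bdd_sum s F hB0 hB) (le_add_of_nonneg_left hB0)

theorem T_delta (tr : Transfer π) {m : ℕ} (f : E.obj m → ℝ) (B : ℝ) (h : BddBy B f)
    (y : E0.obj (m + 1)) : tr.T (E.delta f) y = E0.delta (tr.T f) y := by
  have h1 : tr.T (E.delta f) y =
      ∑ i : Fin (m + 2), tr.T (fun x => (-1 : ℝ) ^ (i : ℕ) * f (E.d i x)) y :=
    T_sum tr Finset.univ (fun (i : Fin (m + 2)) (x : E.obj (m + 1)) =>
      (-1 : ℝ) ^ (i : ℕ) * f (E.d i x)) B h.1 (fun i => bdd_sign i (bdd_comp (E.d i) h)) y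
  rw [h1]
  unfold DSet.delta
  refine Finset.sum_congr rfl fun i _ => ?_
  rw [tr.smul ((-1 : ℝ) ^ (i : ℕ)) (fun x => f (E.d i x)) B (bdd_comp (E.d i) h)]
  congr 1
  exact tr.nat (Fin.succAboveOrderEmb i) f B h y

theorem delta_pi (π : DMap E E0) {m : ℕ} (f : E0.obj m → ℝ) :
    E.delta (fun x => f (π.f x)) = fun x => E0.delta f (π.f x) := by
  funext x
  unfold DSet.delta
  refine Finset.sum_congr rfl fun i _ => ?_
  have h : E0.d i (π.f x) = π.f (E.d i x) := π.nat (Fin.succAboveOrderEmb i) x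
  rw [h]

end I6

open I6 in
theorem claimContrDown_proof : claimContrDown := by
  intro E E0 π tr N ⟨C⟩
  refine ⟨{
    k0 := fun f => C.k0 (fun x => f (π.f x))
    k := fun m f y => tr.T (C.k m (fun x => f (π.f x))) y
    k0_add := ?_
    k0_smul := ?_
    k0_bound := ?_
    k_add := ?_
    k_smul := ?_
    k_bound := ?_
    zero := ?_
    succ := ?_ }⟩
  · intro f g B hf hg
    exact C.k0_add (fun x => f (π.f x)) (fun x => g (π.f x)) B (bdd_comp _ hf) (bdd_comp _ hg)
  · intro c f B hf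
    exact C.k0_smul c (fun x => f (π.f x)) B (bdd_comp _ hf)
  · intro f B hf
    exact C.k0_bound (fun x => f (π.f x)) B (bdd_comp _ hf)
  · intro m f g B hf hg y
    have h1 : C.k m (fun x => f (π.f x) + g (π.f x)) =
        fun z => C.k m (fun x => f (π.f x)) z + C.k m (fun x => g (π.f x)) z := by
      funext z
      exact C.k_add m (fun x => f (π.f x)) (fun x => g (π.f x)) B (bdd_comp _ hf) (bdd_comp _ hg) z
    show tr.T (C.k m (fun x => f (π.f x) + g (π.f x))) y = _
    rw [h1]
    exact tr.add _ _ B (C.k_bound m _ B (bdd_comp _ hf)) (C.k_bound m _ B (bdd_comp _ hg)) y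
  · intro m c f B hf y
    have h1 : C.k m (fun x => c * f (π.f x)) = fun z => c * C.k m (fun x => f (π.f x)) z := by
      funext z
      exact C.k_smul m c (fun x => f (π.f x)) B (bdd_comp _ hf) z
    show tr.T (C.k m (fun x => c * f (π.f x))) y = _
    rw [h1]
    exact tr.smul c _ B (C.k_bound m _ B (bdd_comp _ hf)) y
  · intro m f B hf
    exact tr.bound _ B (C.k_bound m _ B (bdd_comp _ hf))
  · intro f B hf e
    have hf' : BddBy B (fun x => f (π.f x)) := bdd_comp π.f hf
    have h1 : (fun x => f (π.f x)) = fun x => C.k0 (fun x => f (π.f x)) +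
        C.k 0 (E.delta (fun x => f (π.f x))) x := by
      funext x
      exact C.zero (fun x => f (π.f x)) B hf' x
    have h2 := tr.sec f B hf e
    rw [h1] at h2
    have hb1 : BddBy B (fun _ : E.obj 0 => C.k0 (fun x => f (π.f x))) :=
      ⟨hf.1, fun _ => C.k0_bound _ B hf'⟩
    have hb2 : BddBy ((0 + 2 : ℕ) * B) (C.k 0 (E.delta (fun x => f (π.f x)))) :=
      C.k_bound 0 _ _ (bdd_delta E hf')
    have hB2 : B ≤ ((0 + 2 : ℕ) : ℝ) * B := by
      have := hf.1
      push_cast
      linarith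
    rw [tr.add _ _ _ (bdd_mono hb1 hB2) hb2, T_const, delta_pi] at h2
    exact h2.symm
  · intro m hm f B hf e
    have hf' : BddBy B (fun x => f (π.f x)) := bdd_comp π.f hf
    have h1 : (fun x => f (π.f x)) = fun x => E.delta (C.k m (fun x => f (π.f x))) x +
        C.k (m + 1) (E.delta (fun x => f (π.f x))) x := by
      funext x
      exact C.succ m hm (fun x => f (π.f x)) B hf' x
    have h2 := tr.sec f B hf e
    rw [h1] at h2
    have hb0 : BddBy B (C.k m (fun x => f (π.f x))) := C.k_bound m _ B hf'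
    have hb1 : BddBy ((m + 2 : ℕ) * B) (E.delta (C.k m (fun x => f (π.f x)))) := bdd_delta E hb0
    have hb2 : BddBy ((m + 1 + 2 : ℕ) * B) (C.k (m + 1) (E.delta (fun x => f (π.f x)))) :=
      C.k_bound (m + 1) _ _ (bdd_delta E hf')
    have hB2 : ((m + 2 : ℕ) : ℝ) * B ≤ ((m + 1 + 2 : ℕ) : ℝ) * B := by
      have := hf.1
      push_cast
      nlinarith
    rw [tr.add _ _ _ (bdd_mono hb1 hB2) hb2, T_delta tr _ B hb0, delta_pi] at h2
    exact h2.symm

end NRF

end

end

section

/-!
# I7c: the homotopy addition theorem for simplices with trivial boundaries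
-/

open scoped Topology unitInterval Topology.Homotopy
open Set

noncomputable section

namespace NRF

namespace SphAux

theorem simpMap_apply {k m : ℕ} (f : Fin (k + 1) → Fin (m + 1))
    (y : stdSimplex ℝ (Fin (k + 1))) (i : Fin (m + 1)) :
    (simpMap f y) i = ∑ l with f l = i, y l := by
  change (stdSimplex.map f y) i = _
  rw [stdSimplex.map_coe, FunOnFinite.linearMap_apply_apply]

theorem face_same {n : ℕ} (i : Fin (n + 2)) (y : stdSimplex ℝ (Fin (n + 1))) :
    (simpMap i.succAbove y) i = 0 := by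
  rw [simpMap_apply]
  refine Finset.sum_eq_zero fun l hl => ?_
  exact absurd (Finset.mem_filter.1 hl).2 (Fin.succAbove_ne i l)

theorem face_succ {n : ℕ} (i : Fin (n + 2)) (y : stdSimplex ℝ (Fin (n + 1))) (l : Fin (n + 1)) :
    (simpMap i.succAbove y) (i.succAbove l) = y l := by
  rw [simpMap_apply]
  have : (Finset.univ.filter fun l' => i.succAbove l' = i.succAbove l) = {l} := by
    ext l'
    simp [Fin.succAbove_right_injective.eq_iff]
  rw [this, Finset.sum_singleton]

theorem face_inj {n : ℕ} (i : Fin (n + 2)) (y y' : stdSimplex ℝ (Fin (n + 1)))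
    (h : simpMap i.succAbove y = simpMap i.succAbove y') : y = y' := by
  apply stdSimplex.ext
  funext l
  rw [← face_succ i y l, h, face_succ]

theorem face_zero {n : ℕ} {i i' : Fin (n + 2)} (hne : i' ≠ i) (y : stdSimplex ℝ (Fin (n + 1)))
    (h : (simpMap i.succAbove y) i' = 0) : ∃ l, y l = 0 := by
  obtain ⟨l, rfl⟩ := Fin.exists_succAbove_eq hne
  rw [face_succ] at h
  exact ⟨l, h⟩

theorem exists_face {n : ℕ} (i : Fin (n + 2)) (x : stdSimplex ℝ (Fin (n + 2))) (h : x i = 0) :
    ∃ y : stdSimplex ℝ (Fin (n + 1)), simpMap i.succAbove y = x := by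
  have hs : ∑ l, x (i.succAbove l) = 1 := by
    have h1 := Fin.sum_univ_succAbove (fun l => x l) i
    rw [h, zero_add] at h1
    rw [← h1]
    exact stdSimplex.sum_eq_one x
  refine ⟨⟨fun l => x (i.succAbove l), fun l => stdSimplex.zero_le x _, hs⟩, ?_⟩
  apply stdSimplex.ext
  funext j
  by_cases hj : j = i
  · subst hj
    rw [face_same, h]
  · obtain ⟨l, rfl⟩ := Fin.exists_succAbove_eq hj
    rw [face_succ]
    rfl

/-- A family of maps on the faces which is trivial on the boundary of the faces is well defined. -/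
theorem sphere_wd {Y : Type} {n : ℕ} (p : Y)
    (S : Fin (n + 2) → stdSimplex ℝ (Fin (n + 1)) → Y)
    (hS : ∀ j x, (∃ i, x i = 0) → S j x = p) (i j : Fin (n + 2))
    (x y : stdSimplex ℝ (Fin (n + 1)))
    (h : simpMap i.succAbove x = simpMap j.succAbove y) : S i x = S j y := by
  by_cases hij : i = j
  · subst hij
    rw [face_inj i x y h]
  · have h1 : ∃ l, y l = 0 := by
      refine face_zero (i := j) (i' := i) hij y ?_
      rw [← h, face_same]
    have h2 : ∃ l, x l = 0 := by
      refine face_zero (i := i) (i' := j) (Ne.symm hij) x ?_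
      rw [h, face_same]
    rw [hS i x h2, hS j y h1]

end SphAux

open SphAux in
/-- I7c: the homotopy addition theorem for simplices with trivial boundaries. -/
theorem claimSph_proof (h : claimCube) : claimSph := by
  intro q hq Y _ p k S g hS hg
  set T : Fin (k + 4) → stdSimplex ℝ (Fin (k + 3)) → Y :=
    fun j x => (show Simp (k + 2) Y from S.x j) x with hT
  have hST : ∀ j x, (∃ i, x i = 0) → T j x = p := hS
  have key := h Y p k (fun j => g j.castSucc) (g (Fin.last (k + 3)))
  have hsum : (∑ j : Fin (k + 3), ((-1 : ℤ) ^ (j : ℕ)) • cls (g j.castSucc)) +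
      ((-1 : ℤ) ^ (k + 3)) • cls (g (Fin.last (k + 3))) =
      ∑ j : Fin (k + 4), ((-1 : ℤ) ^ (j : ℕ)) • cls (g j) := by
    rw [Fin.sum_univ_castSucc (fun j : Fin (k + 4) => ((-1 : ℤ) ^ (j : ℕ)) • cls (g j))]
    rfl
  rw [hsum] at key
  rw [← key]
  constructor
  · rintro ⟨w, hw⟩
    have hw' : ∀ j x, (show Simp (k + 3) Y from w) (simpMap j.succAbove x) = T j x := by
      intro j x
      have := hw j
      change _ = (show Simp (k + 2) Y from S.x j) x
      rw [← this]
      rfl
    refine ⟨(show Simp (k + 3) Y from w).comp (q (k + 3)), ?_, ?_, ?_⟩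
    · intro j t
      rw [ContinuousMap.comp_apply, hq.face, hw', hg]
    · intro t
      rw [ContinuousMap.comp_apply, hq.last, hw', hg]
    · intro j hj t
      rw [ContinuousMap.comp_apply]
      obtain ⟨i, i', hne, h1, h2⟩ := hq.low (k + 2) (j.insertNth 0 t) j hj (by simp)
      obtain ⟨y, hy⟩ := exists_face i _ h1
      rw [← hy] at h2 ⊢
      rw [hw']
      exact hST i y (face_zero (Ne.symm hne) y h2)
  · rintro ⟨w, h1, h2, h3⟩
    -- the value on the boundary
    have hb : ∀ t ∈ Cube.boundary (Fin (k + 3)), ∀ i x, q (k + 3) t = simpMap i.succAbove x →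
        w t = T i x := by
      rintro t ⟨j, hj⟩ i x hx
      by_cases hj1 : t j = 1
      · have ht : t = j.insertNth (α := fun _ => I) 1 (j.removeNth t) := by
          rw [← hj1]
          exact (Fin.insertNth_self_removeNth j t).symm
        rw [ht] at hx ⊢
        rw [h1, hg]
        rw [hq.face] at hx
        exact sphere_wd p T hST _ _ _ _ hx
      · have hj0 : t j = 0 := hj.resolve_right hj1
        have ht : t = j.insertNth (α := fun _ => I) 0 (j.removeNth t) := by
          rw [← hj0]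
          exact (Fin.insertNth_self_removeNth j t).symm
        by_cases hl : j = Fin.last (k + 2)
        · subst hl
          rw [ht] at hx ⊢
          rw [h2, hg]
          rw [hq.last] at hx
          exact sphere_wd p T hST _ _ _ _ hx
        · obtain ⟨i1, i2, hne, e1, e2⟩ := hq.low (k + 2) t j hl hj0
          rw [ht, h3 j hl]
          symm
          apply hST
          by_cases hi : i1 = i
          · exact face_zero (i := i) (i' := i2) (by rw [← hi]; exact hne.symm) x (by rw [← hx, e2])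
          · exact face_zero (i := i) (i' := i1) hi x (by rw [← hx, e1])
    have hQ : Topology.IsQuotientMap (q (k + 3)) :=
      Topology.IsQuotientMap.of_surjective_continuous (hq.surj _) (q (k + 3)).continuous
    have hfac : Function.FactorsThrough w (q (k + 3)) := by
      intro t t' htt
      by_cases h0 : ∃ i, (q (k + 3) t) i = 0
      · obtain ⟨i, hi⟩ := h0
        obtain ⟨y, hy⟩ := exists_face i _ hi
        rw [hb t ((hq.bdry _ t).1 ⟨i, hi⟩) i y hy.symm,
          hb t' ((hq.bdry _ t').1 ⟨i, by rw [← htt]; exact hi⟩) i y (by rw [← htt]; exact hy.symm)]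
      · push Not at h0
        rw [hq.inj _ t t' htt h0]
    refine ⟨hQ.lift w hfac, ?_⟩
    intro j
    apply ContinuousMap.ext
    intro x
    change (hQ.lift w hfac) (simpMap j.succAbove x) = T j x
    obtain ⟨t, ht⟩ := hq.surj (k + 3) (simpMap j.succAbove x)
    rw [← ht]
    have e := DFunLike.congr_fun (hQ.lift_comp w hfac) t
    rw [ContinuousMap.comp_apply] at e
    have ht0 : (q (k + 3) t) j = 0 := by rw [ht, face_same]
    refine e.trans ?_
    exact hb t ((hq.bdry _ t).1 ⟨j, ht0⟩) j x ht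

end NRF

end
end

section

/-!
# I9: one step of the tower
-/

noncomputable section

namespace NRF

/-- Composition of maps of semi-simplicial sets. -/
def DMap.compD {E E' E'' : DSet} (π : DMap E' E'') (ρ : DMap E E') : DMap E E'' where
  f x := π.f (ρ.f x)
  nat F x := by rw [π.nat, ρ.nat]

/-- Composition of transfers. -/
def Transfer.compT {E E' E'' : DSet} {π : DMap E' E''} {ρ : DMap E E'} (t : Transfer π)
    (r : Transfer ρ) : Transfer (π.compD ρ) where
  T f := t.T (r.T f)
  add f g B hf hg y := by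
    have h : r.T (fun x => f x + g x) = fun y => r.T f y + r.T g y := by
      funext z
      exact r.add f g B hf hg z
    rw [h]
    exact t.add _ _ B (r.bound f B hf) (r.bound g B hg) y
  smul c f B hf y := by
    have h : r.T (fun x => c * f x) = fun y => c * r.T f y := by
      funext z
      exact r.smul c f B hf z
    rw [h]
    exact t.smul c _ B (r.bound f B hf) y
  bound f B hf := t.bound _ B (r.bound f B hf)
  sec f B hf y := by
    have h : r.T (fun x => f ((π.compD ρ).f x)) = fun y => f (π.f y) := by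
      funext z
      exact r.sec (fun y => f (π.f y)) B ⟨hf.1, fun y => hf.2 _⟩ z
    rw [h]
    exact t.sec f B hf y
  nat F f B hf y := by
    have h : r.T (fun x => f (E.res F x)) = fun y => r.T f (E'.res F y) := by
      funext z
      exact r.nat F f B hf z
    rw [h]
    exact t.nat F (r.T f) B (r.bound f B hf) y

/-- The base point of the extension. -/
def extPt {A : Type} [AddCommGroup A] (E : DSet) (q : ℕ) (z : E.obj (q + 1) → A) (pt : E.obj 0) :
    (ext E q z).obj 0 :=
  ⟨(pt, fun _ => 0), by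
    intro F
    exfalso
    have h : (F 0) < (F (Fin.last (q + 1))) := by
      apply F.strictMono
      rw [Fin.lt_def]
      simp
    have h1 := (F 0).isLt
    have h2 := (F (Fin.last (q + 1))).isLt
    rw [Fin.lt_def] at h
    omega⟩

theorem claimStep_proof (h2 : claimExtConn) (h3 : claimExtLift) (h4 : claimExtTransfer)
    (h7 : claimHAT) (h8 : claimZS) : claimStep := by
  intro Y _ q hq ⟨s⟩
  obtain ⟨A, iA, ob, hat⟩ := h7 Y ((show Simp 0 Y from s.π.f s.pt) (stdSimplex.vertex 0)) (q + 1)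
    (by omega)
  obtain ⟨z, hz, hs⟩ := h8 Y q s A ob hq hat
  obtain ⟨T⟩ := h4 s.E A q z hq hz
  exact ⟨{
    E := ext s.E q z
    π := s.π.compD (extProj s.E q z)
    tr := s.tr.compT T
    pt := extPt s.E q z s.pt
    conn := fun m hm => h2 s.E A q z hq (fun m hm => s.conn m (by omega)) hz hs m (by omega)
    lifts := fun m hm S w hw => h3 s.E (sing Y) s.π A q z (fun m hm => s.lifts m (by omega)) m
      (by omega) S w hw }⟩

end NRF

end
end

section

/-!
# K1: the heat semigroup on smooth functions on a compact space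
-/

open scoped Manifold ContDiff Topology RealInnerProductSpace
open MeasureTheory Set Filter

noncomputable section

set_option linter.unusedSectionVars false

namespace NRF

/-! ## The cutoff -/

theorem k1_eta_one {x : E4} (hx : ‖x‖ ≤ 3 / 2) : etaC x = 1 := by
  unfold etaC
  apply etaBump.one_of_mem_closedBall
  rw [mem_closedBall_zero_iff]
  exact hx

theorem k1_eta_zero {x : E4} (hx : 2 ≤ ‖x‖) : etaC x = 0 := by
  unfold etaC
  apply etaBump.zero_of_le_dist
  rw [dist_zero_right]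
  exact hx

theorem k1_eta_nonneg (x : E4) : 0 ≤ etaC x := etaBump.nonneg

theorem k1_eta_le_one (x : E4) : etaC x ≤ 1 := etaBump.le_one

theorem k1_eta_smooth : ContDiff ℝ ∞ etaC := etaBump.contDiff

theorem k1_eta_ev {x : E4} (hx : ‖x‖ < 3 / 2) : ∀ᶠ z in 𝓝 x, etaC z = 1 := by
  have h : ∀ᶠ z : E4 in 𝓝 x, ‖z‖ < 3 / 2 := continuous_norm.continuousAt.eventually_lt
    continuousAt_const hx
  exact h.mono fun z hz => k1_eta_one hz.le

/-! ## The operator of a model -/

section op

variable {V : Type} [NormedAddCommGroup V] [InnerProductSpace ℝ V] [FiniteDimensional ℝ V]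

theorem k1_pd_congr {F : Type*} [NormedAddCommGroup F] [NormedSpace ℝ F] {u v : E4 → F} {x : E4}
    (h : u =ᶠ[𝓝 x] v) (i : Fin 4) : pd i u =ᶠ[𝓝 x] pd i v := by
  filter_upwards [h.fderiv (𝕜 := ℝ)] with z hz
  unfold pd
  rw [hz]

theorem k1_op_congr (m : Model V) (t : ℝ) {u v : E4 → V} {x : E4} (h : u =ᶠ[𝓝 x] v) :
    m.op t u x = m.op t v x := by
  unfold Model.op
  have h1 : ∀ i, pd i u x = pd i v x := fun i => (k1_pd_congr h i).self_of_nhds
  have h2 : ∀ i j, pd i (pd j u) x = pd i (pd j v) x := fun i j =>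
    (k1_pd_congr (k1_pd_congr h j) i).self_of_nhds
  have h3 : u x = v x := h.self_of_nhds
  simp only [h1, h2, h3]

theorem k1_pd_smooth {F : Type*} [NormedAddCommGroup F] [NormedSpace ℝ F] {u : E4 → F} {x : E4}
    (h : ContDiffAt ℝ ∞ u x) (i : Fin 4) : ContDiffAt ℝ ∞ (pd i u) x := by
  unfold pd
  exact (h.fderiv_right (m := ∞) (by simp)).clm_apply contDiffAt_const

theorem k1_op_smooth (m : Model V) (t : ℝ) {u : E4 → V} {x : E4} (h : ContDiffAt ℝ ∞ u x) :
    ContDiffAt ℝ ∞ (m.op t u) x := by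
  unfold Model.op
  have e0 : ContDiffAt ℝ ∞ (fun z : E4 => (t, z)) x := contDiffAt_const.prodMk contDiffAt_id
  have e1 : ∀ i k, ContDiffAt ℝ ∞ (fun z : E4 => m.a (t, z) i k) x :=
    fun i k => (m.a_smooth i k).contDiffAt.comp x e0
  have e2 : ∀ i, ContDiffAt ℝ ∞ (fun z : E4 => m.b (t, z) i) x :=
    fun i => (m.b_smooth i).contDiffAt.comp x e0
  have e3 : ContDiffAt ℝ ∞ (fun z : E4 => m.c (t, z)) x := m.c_smooth.contDiffAt.comp x e0
  refine ContDiffAt.add (ContDiffAt.add (ContDiffAt.neg ?_) ?_) ?_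
  · exact ContDiffAt.sum fun i _ => ContDiffAt.sum fun k _ =>
      (e1 i k).smul (k1_pd_smooth (k1_pd_smooth h k) i)
  · exact ContDiffAt.sum fun i _ => (e2 i).clm_apply (k1_pd_smooth h i)
  · exact e3.clm_apply h

/-- First derivatives via `iteratedFDeriv`. -/
theorem k1_pd1 {F : Type*} [NormedAddCommGroup F] [NormedSpace ℝ F] (u : E4 → F) (x : E4)
    (i : Fin 4) : pd i u x = iteratedFDeriv ℝ 1 u x (fun _ => bv i) := by
  unfold pd
  rw [iteratedFDeriv_one_apply]

theorem k1_pd2 {F : Type*} [NormedAddCommGroup F] [NormedSpace ℝ F] {u : E4 → F} {x : E4}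
    (h : ContDiffAt ℝ 2 u x) (i j : Fin 4) :
    pd i (pd j u) x = iteratedFDeriv ℝ 2 u x ![bv i, bv j] := by
  have hd2 : DifferentiableAt ℝ (fderiv ℝ u) x :=
    (h.fderiv_right (m := 1) (by norm_num)).differentiableAt (by norm_num)
  have h2 : HasFDerivAt (fun y => fderiv ℝ u y (bv j))
      ((ContinuousLinearMap.apply ℝ F (bv j)).comp (fderiv ℝ (fderiv ℝ u) x)) x :=
    (ContinuousLinearMap.apply ℝ F (bv j)).hasFDerivAt.comp x hd2.hasFDerivAt
  have h3 : pd i (pd j u) x = fderiv ℝ (fderiv ℝ u) x (bv i) (bv j) := by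
    unfold pd
    rw [h2.fderiv]
    rfl
  rw [h3, iteratedFDeriv_two_apply]
  simp

theorem k1_pd_add {u v : E4 → V} {x : E4} (hu : ContDiffAt ℝ 1 u x) (hv : ContDiffAt ℝ 1 v x)
    (i : Fin 4) : pd i (fun z => u z + v z) x = pd i u x + pd i v x := by
  unfold pd
  rw [fderiv_fun_add (hu.differentiableAt (by norm_num)) (hv.differentiableAt (by norm_num))]
  rfl

theorem k1_op_add (m : Model V) (t : ℝ) {u v : E4 → V} {x : E4} (hu : ContDiffAt ℝ 2 u x)
    (hv : ContDiffAt ℝ 2 v x) :
    m.op t (fun z => u z + v z) x = m.op t u x + m.op t v x := by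
  have hu1 : ∀ᶠ z in 𝓝 x, ContDiffAt ℝ 2 u z := hu.eventually (by simp)
  have hv1 : ∀ᶠ z in 𝓝 x, ContDiffAt ℝ 2 v z := hv.eventually (by simp)
  have h1 : ∀ i, pd i (fun z => u z + v z) =ᶠ[𝓝 x] fun z => pd i u z + pd i v z := by
    intro i
    filter_upwards [hu1, hv1] with z h1 h2
    exact k1_pd_add (h1.of_le (by norm_num)) (h2.of_le (by norm_num)) i
  have hp : ∀ {w : E4 → V}, ContDiffAt ℝ 2 w x → ∀ i, ContDiffAt ℝ 1 (pd i w) x := by
    intro w hw i
    unfold pd
    exact (hw.fderiv_right (m := 1) (by norm_num)).clm_apply contDiffAt_const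
  have h2 : ∀ i j, pd i (pd j (fun z => u z + v z)) x = pd i (pd j u) x + pd i (pd j v) x := by
    intro i j
    rw [(k1_pd_congr (h1 j) i).self_of_nhds]
    exact k1_pd_add (hp hu j) (hp hv j) i
  have h3 : ∀ i, pd i (fun z => u z + v z) x = pd i u x + pd i v x := fun i =>
    (h1 i).self_of_nhds
  unfold Model.op
  simp only [h2, h3, map_add, smul_add, Finset.sum_add_distrib, neg_add]
  abel

theorem k1_op_smul (m : Model V) (t c : ℝ) {u : E4 → V} {x : E4} (hu : ContDiffAt ℝ 2 u x) :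
    m.op t (fun z => c • u z) x = c • m.op t u x := by
  have hu1 : ∀ᶠ z in 𝓝 x, ContDiffAt ℝ 2 u z := hu.eventually (by simp)
  have h1 : ∀ i, pd i (fun z => c • u z) =ᶠ[𝓝 x] fun z => c • pd i u z := by
    intro i
    filter_upwards [hu1] with z h1
    unfold pd
    rw [fderiv_fun_const_smul (h1.differentiableAt (by norm_num))]
    rfl
  have hp : ∀ i, DifferentiableAt ℝ (pd i u) x := by
    intro i
    unfold pd
    exact ((hu.fderiv_right (m := 1) (by norm_num)).clm_apply contDiffAt_const).differentiableAt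
      (by norm_num)
  have h2 : ∀ i j, pd i (pd j (fun z => c • u z)) x = c • pd i (pd j u) x := by
    intro i j
    rw [(k1_pd_congr (h1 j) i).self_of_nhds]
    show fderiv ℝ (fun z => c • pd j u z) x (bv i) = _
    rw [fderiv_fun_const_smul (hp j)]
    rfl
  have h3 : ∀ i, pd i (fun z => c • u z) x = c • pd i u x := fun i => (h1 i).self_of_nhds
  unfold Model.op
  simp only [h2, h3, map_smul, smul_add, smul_neg, Finset.smul_sum]
  congr 3
  refine Finset.sum_congr rfl fun i _ => Finset.sum_congr rfl fun j _ => ?_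
  rw [smul_comm]

/-- The operator applied to a nice function is continuous in time and space. -/
theorem k1_op_cont (m : Model V) (s : ℝ) {T C : ℝ} {u : ℝ → E4 → V} (h : NiceE 2 T C u) :
    ContinuousOn (fun p : ℝ × E4 => m.op s (u p.1) p.2) (Icc 0 T ×ˢ univ) := by
  have e0 : Continuous (fun p : ℝ × E4 => (s, p.2)) := by fun_prop
  have e1 : ∀ i k, ContinuousOn (fun p : ℝ × E4 => m.a (s, p.2) i k) (Icc 0 T ×ˢ univ) :=
    fun i k => ((m.a_smooth i k).continuous.comp e0).continuousOn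
  have e2 : ∀ i, ContinuousOn (fun p : ℝ × E4 => m.b (s, p.2) i) (Icc 0 T ×ˢ univ) :=
    fun i => ((m.b_smooth i).continuous.comp e0).continuousOn
  have e3 : ContinuousOn (fun p : ℝ × E4 => m.c (s, p.2)) (Icc 0 T ×ˢ univ) :=
    (m.c_smooth.continuous.comp e0).continuousOn
  have ev : ∀ (n : ℕ), n ≤ 2 → ∀ w : Fin n → E4, ContinuousOn (fun p : ℝ × E4 =>
      iteratedFDeriv ℝ n (u p.1) p.2 w) (Icc 0 T ×ˢ univ) := by
    intro n hn w
    exact (ContinuousMultilinearMap.apply ℝ (fun _ : Fin n => E4) V w).continuous.comp_continuousOn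
      (h.2.1 n hn)
  have f0 : ContinuousOn (fun p : ℝ × E4 => u p.1 p.2) (Icc 0 T ×ˢ univ) := by
    refine (ev 0 (by norm_num) (fun _ => 0)).congr fun p _ => ?_
    simp
  have f1 : ∀ i, ContinuousOn (fun p : ℝ × E4 => pd i (u p.1) p.2) (Icc 0 T ×ˢ univ) := by
    intro i
    refine (ev 1 (by norm_num) (fun _ => bv i)).congr fun p _ => ?_
    exact k1_pd1 _ _ _
  have f2 : ∀ i j, ContinuousOn (fun p : ℝ × E4 => pd i (pd j (u p.1)) p.2)
      (Icc 0 T ×ˢ univ) := by
    intro i j
    refine (ev 2 le_rfl ![bv i, bv j]).congr fun p hp => ?_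
    exact k1_pd2 (h.1 p.1 hp.1).contDiffAt i j
  unfold Model.op
  refine ContinuousOn.add (ContinuousOn.add (ContinuousOn.neg ?_) ?_) ?_
  · exact continuousOn_finsetSum _ fun i _ => continuousOn_finsetSum _ fun k _ =>
      (e1 i k).smul (f2 i k)
  · exact continuousOn_finsetSum _ fun i _ => (e2 i).clm_apply (f1 i)
  · exact e3.clm_apply f0

end op

/-! ## Calculus of nice functions -/

section nice

variable {W : Type} [NormedAddCommGroup W] [NormedSpace ℝ W]

theorem k1_NiceE_le {k l : ℕ} {T C : ℝ} {w : ℝ → E4 → W} (h : NiceE k T C w) (hl : l ≤ k) :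
    NiceE l T C w :=
  ⟨fun t ht => (h.1 t ht).of_le (by exact_mod_cast hl), fun j hj => h.2.1 j (hj.trans hl),
    fun j hj => h.2.2 j (hj.trans hl)⟩

theorem k1_NiceE_mono {k : ℕ} {T C C' : ℝ} {w : ℝ → E4 → W} (h : NiceE k T C w) (hC : C ≤ C') :
    NiceE k T C' w :=
  ⟨h.1, h.2.1, fun j hj t ht x => (h.2.2 j hj t ht x).trans hC⟩

/-- Reparametrisation of time and change outside of the interval. -/
theorem k1_NiceE_comp {k : ℕ} {T T' C : ℝ} {w w' : ℝ → E4 → W} (h : NiceE k T C w)
    {φ : ℝ → ℝ} (hφ : Continuous φ) (hm : ∀ t ∈ Icc 0 T', φ t ∈ Icc 0 T)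
    (he : ∀ t ∈ Icc 0 T', w' t = w (φ t)) : NiceE k T' C w' := by
  refine ⟨fun t ht => ?_, fun j hj => ?_, fun j hj t ht x => ?_⟩
  · rw [he t ht]
    exact h.1 _ (hm t ht)
  · have h1 : ContinuousOn (fun p : ℝ × E4 => (φ p.1, p.2)) (Icc 0 T' ×ˢ univ) :=
      Continuous.continuousOn (by fun_prop)
    have h2 := (h.2.1 j hj).comp h1 (fun p hp => ⟨hm p.1 hp.1, mem_univ _⟩)
    refine h2.congr fun p hp => ?_
    simp only [Function.comp_apply]
    rw [he p.1 hp.1]
  · rw [he t ht]
    exact h.2.2 j hj _ (hm t ht) x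

theorem k1_NiceE_add {k : ℕ} {T C C' : ℝ} {u v : ℝ → E4 → W} (hu : NiceE k T C u)
    (hv : NiceE k T C' v) : NiceE k T (C + C') fun t x => u t x + v t x := by
  have key : ∀ j ≤ k, ∀ t ∈ Icc 0 T, ∀ x, iteratedFDeriv ℝ j (fun x => u t x + v t x) x =
      iteratedFDeriv ℝ j (u t) x + iteratedFDeriv ℝ j (v t) x := by
    intro j hj t ht x
    have hj' : (j : WithTop ℕ∞) ≤ k := by exact_mod_cast hj
    exact iteratedFDeriv_add_apply ((hu.1 t ht).of_le hj').contDiffAt
      ((hv.1 t ht).of_le hj').contDiffAt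
  refine ⟨fun t ht => (hu.1 t ht).add (hv.1 t ht), fun j hj => ?_, fun j hj t ht x => ?_⟩
  · exact ((hu.2.1 j hj).add (hv.2.1 j hj)).congr fun p hp => key j hj p.1 hp.1 p.2
  · rw [key j hj t ht x]
    exact (norm_add_le _ _).trans (add_le_add (hu.2.2 j hj t ht x) (hv.2.2 j hj t ht x))

theorem k1_NiceE_smul {k : ℕ} {T C : ℝ} {u : ℝ → E4 → W} (c : ℝ) (hu : NiceE k T C u) :
    NiceE k T (|c| * C) fun t x => c • u t x := by
  have key : ∀ j ≤ k, ∀ t ∈ Icc 0 T, ∀ x, iteratedFDeriv ℝ j (fun x => c • u t x) x =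
      c • iteratedFDeriv ℝ j (u t) x := by
    intro j hj t ht x
    have hj' : (j : WithTop ℕ∞) ≤ k := by exact_mod_cast hj
    exact iteratedFDeriv_const_smul_apply ((hu.1 t ht).of_le hj').contDiffAt
  refine ⟨fun t ht => contDiff_const.smul (hu.1 t ht), fun j hj => ?_, fun j hj t ht x => ?_⟩
  · exact ((hu.2.1 j hj).const_smul c).congr fun p hp => key j hj p.1 hp.1 p.2
  · rw [key j hj t ht x, norm_smul, Real.norm_eq_abs]
    exact mul_le_mul_of_nonneg_left (hu.2.2 j hj t ht x) (abs_nonneg c)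

/-- A smooth function of compact support, constant in time, is nice. -/
theorem k1_NiceE_const (k : ℕ) (T : ℝ) {f : E4 → W} (hf : ContDiff ℝ ∞ f)
    (hs : HasCompactSupport f) : ∃ C, NiceE k T C fun _ => f := by
  have h1 : ∀ j : ℕ, ∃ C, ∀ x, ‖iteratedFDeriv ℝ j f x‖ ≤ C := by
    intro j
    exact (hs.iteratedFDeriv j).exists_bound_of_continuous
      (hf.continuous_iteratedFDeriv (by exact_mod_cast le_top))
  choose C hC using h1
  refine ⟨∑ j ∈ Finset.range (k + 1), |C j|, fun t _ => hf.of_le (by exact_mod_cast le_top),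
    fun j _ => ?_, fun j hj t _ x => ?_⟩
  · exact ((hf.continuous_iteratedFDeriv (m := j) (by exact_mod_cast le_top)).comp
      continuous_snd).continuousOn
  · refine ((hC j x).trans (le_abs_self _)).trans ?_
    exact Finset.single_le_sum (f := fun j => |C j|) (fun i _ => abs_nonneg _)
      (Finset.mem_range.2 (Nat.lt_succ_of_le hj))

theorem k1_NiceE_cont {k : ℕ} {T C : ℝ} {u : ℝ → E4 → W} (h : NiceE k T C u) :
    ContinuousOn (fun p : ℝ × E4 => u p.1 p.2) (Icc 0 T ×ˢ univ) := by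
  have h1 := (ContinuousMultilinearMap.apply ℝ (fun _ : Fin 0 => E4) W
    (fun _ => 0)).continuous.comp_continuousOn (h.2.1 0 (Nat.zero_le k))
  refine h1.congr fun p _ => ?_
  simp

end nice

/-! ## Charts -/

theorem k1_two_le : (2 : WithTop ℕ∞) ≤ ∞ :=
  WithTop.coe_le_coe.2 (le_top : (2 : ℕ∞) ≤ ⊤)

section charts

variable {X : Type} [TopologicalSpace X] {V : Type} [NormedAddCommGroup V] [InnerProductSpace ℝ V]
  [FiniteDimensional ℝ V]

theorem k1_ch (g : Geom X V) (y : X) :
    y ∈ (g.psi (g.ch y)).source ∧ ‖g.psi (g.ch y) y‖ < 1 :=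
  (g.exists_chart y).choose_spec

theorem k1_target (g : Geom X V) (i : g.I) {x : E4} (hx : ‖x‖ ≤ 3) : x ∈ (g.psi i).target :=
  g.target i (by simpa using hx)

/-- A function that is regular in the charts (times the cutoff) is regular at every point of the
target of every chart. -/
theorem k1_contDiffAt (g : Geom X V) {n : WithTop ℕ∞} (hn : n ≤ ∞) {f : X → V}
    (hf : ∀ i, ContDiff ℝ n fun x => etaC x • f ((g.psi i).symm x)) (i : g.I) {x : E4}
    (hx : x ∈ (g.psi i).target) : ContDiffAt ℝ n (fun z => f ((g.psi i).symm z)) x := by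
  obtain ⟨hy1, hy2⟩ := k1_ch g ((g.psi i).symm x)
  set j := g.ch ((g.psi i).symm x) with hj
  have hx2 : x ∈ ((g.psi i).symm.trans (g.psi j)).source := by
    rw [OpenPartialHomeomorph.trans_source]
    exact ⟨hx, hy1⟩
  have h1 : ContDiffAt ℝ n ((g.psi i).symm.trans (g.psi j)) x :=
    (((g.trans_smooth i j).contDiffAt
      (((g.psi i).symm.trans (g.psi j)).open_source.mem_nhds hx2))).of_le hn
  have h2 : ContDiffAt ℝ n (fun z => f ((g.psi j).symm z))
      (((g.psi i).symm.trans (g.psi j)) x) := by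
    have h3 : ‖((g.psi i).symm.trans (g.psi j)) x‖ < 3 / 2 := by
      show ‖g.psi j ((g.psi i).symm x)‖ < 3 / 2
      linarith
    refine (hf j).contDiffAt.congr_of_eventuallyEq ?_
    filter_upwards [k1_eta_ev h3] with z hz
    rw [hz, one_smul]
  have h4 := h2.comp x h1
  refine h4.congr_of_eventuallyEq ?_
  filter_upwards [((g.psi i).symm.trans (g.psi j)).open_source.mem_nhds hx2] with z hz
  rw [OpenPartialHomeomorph.trans_source] at hz
  show f ((g.psi i).symm z) = f ((g.psi j).symm (g.psi j ((g.psi i).symm z)))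
  rw [(g.psi j).left_inv hz.2]

/-- The operator read in an arbitrary chart. -/
theorem k1_L (g : Geom X V) (t : ℝ) {f : X → V} (hf : g.C2 f) (i : g.I) {x : E4}
    (hx : ‖x‖ < 5 / 2) :
    g.L t f ((g.psi i).symm x) = (g.mdl i).op t (fun z => f ((g.psi i).symm z)) x := by
  obtain ⟨hy1, hy2⟩ := k1_ch g ((g.psi i).symm x)
  set j := g.ch ((g.psi i).symm x) with hj
  have hxt : x ∈ (g.psi i).target := k1_target g i (by linarith)
  have hyt : g.psi j ((g.psi i).symm x) ∈ (g.psi j).target := (g.psi j).map_source hy1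
  have h1 := g.compat i j x (fun z => f ((g.psi j).symm z)) t (by simpa using hx)
    ⟨g.psi j ((g.psi i).symm x), by
      rw [mem_ball_zero_iff]; linarith, (g.psi j).left_inv hy1⟩
    (k1_contDiffAt g k1_two_le hf j hyt)
  have h2 : g.L t f ((g.psi i).symm x) =
      (g.model (g.mod j)).op t (fun z => f ((g.psi j).symm z)) (g.psi j ((g.psi i).symm x)) := rfl
  rw [h2, ← h1]
  refine k1_op_congr _ _ ?_
  have hx2 : x ∈ ((g.psi i).symm.trans (g.psi j)).source := by
    rw [OpenPartialHomeomorph.trans_source]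
    exact ⟨hxt, hy1⟩
  filter_upwards [((g.psi i).symm.trans (g.psi j)).open_source.mem_nhds hx2] with z hz
  rw [OpenPartialHomeomorph.trans_source] at hz
  show f ((g.psi j).symm (g.psi j ((g.psi i).symm z))) = f ((g.psi i).symm z)
  rw [(g.psi j).left_inv hz.2]

/-- The operator at a point in the chosen chart. -/
theorem k1_L_at (g : Geom X V) (t : ℝ) (f : X → V) (y : X) :
    g.L t f y = (g.mdl (g.ch y)).op t (fun z => f ((g.psi (g.ch y)).symm z))
      (g.psi (g.ch y) y) := rfl

theorem k1_smooth_C2 {g : Geom X V} {f : X → V} (hf : g.Smooth f) : g.C2 f := fun i =>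
  (hf i).of_le k1_two_le

theorem k1_L_add (g : Geom X V) (t : ℝ) {f h : X → V} (hf : g.C2 f) (hh : g.C2 h) (y : X) :
    g.L t (fun y => f y + h y) y = g.L t f y + g.L t h y := by
  have hyt := (g.psi (g.ch y)).map_source (k1_ch g y).1
  rw [k1_L_at, k1_L_at, k1_L_at]
  exact k1_op_add _ _ (k1_contDiffAt g k1_two_le hf _ hyt)
    (k1_contDiffAt g k1_two_le hh _ hyt)

theorem k1_L_smul (g : Geom X V) (t c : ℝ) {f : X → V} (hf : g.C2 f) (y : X) :
    g.L t (fun y => c • f y) y = c • g.L t f y := by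
  have hyt := (g.psi (g.ch y)).map_source (k1_ch g y).1
  rw [k1_L_at, k1_L_at]
  exact k1_op_smul _ _ _ (k1_contDiffAt g k1_two_le hf _ hyt)

/-- The operator preserves smoothness. -/
theorem k1_L_smooth (g : Geom X V) (t : ℝ) {f : X → V} (hf : g.Smooth f) :
    g.Smooth (g.L t f) := by
  intro i
  rw [contDiff_iff_contDiffAt]
  intro x
  rcases lt_or_ge ‖x‖ (5 / 2) with hx | hx
  · have h1 : ContDiffAt ℝ ∞ (fun z => f ((g.psi i).symm z)) x :=
      k1_contDiffAt g le_rfl hf i (k1_target g i (by linarith))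
    have h2 := k1_eta_smooth.contDiffAt.smul (k1_op_smooth (g.mdl i) t h1)
    refine h2.congr_of_eventuallyEq ?_
    have h3 : ∀ᶠ z : E4 in 𝓝 x, ‖z‖ < 5 / 2 := continuous_norm.continuousAt.eventually_lt
      continuousAt_const hx
    filter_upwards [h3] with z hz
    rw [k1_L g t (k1_smooth_C2 hf) i hz]
    rfl
  · have h3 : ∀ᶠ z : E4 in 𝓝 x, 2 < ‖z‖ := continuousAt_const.eventually_lt
      continuous_norm.continuousAt (by linarith)
    refine (contDiffAt_const (c := (0 : V))).congr_of_eventuallyEq ?_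
    filter_upwards [h3] with z hz
    rw [k1_eta_zero hz.le, zero_smul]

/-- On a compact space there are only finitely many charts. -/
theorem k1_finite [CompactSpace X] (g : Geom X V) : Finite g.I := by
  have h := g.locfin.finite_of_compact (fun i => ⟨(g.psi i).symm 0, 0, by simp, rfl⟩)
  exact Set.finite_univ_iff.1 h

theorem k1_Nice_const [CompactSpace X] (g : Geom X V) (k : ℕ) (T : ℝ) {f : X → V}
    (hf : g.Smooth f) : ∃ C, g.Nice k T C fun _ => f := by
  have := k1_finite g
  have h1 : ∀ i, ∃ C, NiceE k T C fun (_ : ℝ) x => etaC x • f ((g.psi i).symm x) := by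
    intro i
    refine k1_NiceE_const k T (hf i) ?_
    refine HasCompactSupport.intro (isCompact_closedBall (0 : E4) 2) fun x hx => ?_
    rw [mem_closedBall_zero_iff, not_le] at hx
    rw [k1_eta_zero hx.le, zero_smul]
  choose C hC using h1
  obtain ⟨B, hB⟩ := (Set.finite_range C).bddAbove
  exact ⟨B, fun i => k1_NiceE_mono (hC i) (hB ⟨i, rfl⟩)⟩

theorem k1_Nice_le {g : Geom X V} {k l : ℕ} {T C : ℝ} {u : ℝ → X → V} (h : g.Nice k T C u)
    (hl : l ≤ k) : g.Nice l T C u := fun i => k1_NiceE_le (h i) hl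

theorem k1_Nice_comp {g : Geom X V} {k : ℕ} {T T' C : ℝ} {u u' : ℝ → X → V}
    (h : g.Nice k T C u) {φ : ℝ → ℝ} (hφ : Continuous φ) (hm : ∀ t ∈ Icc 0 T', φ t ∈ Icc 0 T)
    (he : ∀ t ∈ Icc 0 T', u' t = u (φ t)) : g.Nice k T' C u' := fun i =>
  k1_NiceE_comp (h i) hφ hm fun t ht => by rw [he t ht]

theorem k1_Nice_add {g : Geom X V} {k : ℕ} {T C C' : ℝ} {u v : ℝ → X → V}
    (hu : g.Nice k T C u) (hv : g.Nice k T C' v) :
    g.Nice k T (C + C') fun t y => u t y + v t y := by
  intro i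
  have h := k1_NiceE_add (hu i) (hv i)
  simpa only [smul_add] using h

theorem k1_Nice_smul {g : Geom X V} {k : ℕ} {T C : ℝ} {u : ℝ → X → V} (c : ℝ)
    (hu : g.Nice k T C u) : g.Nice k T (|c| * C) fun t y => c • u t y := by
  intro i
  have h := k1_NiceE_smul c (hu i)
  simp only [smul_comm c] at h
  exact h

theorem k1_Nice_C2 {g : Geom X V} {T C : ℝ} {u : ℝ → X → V} (hu : g.Nice 2 T C u) {t : ℝ}
    (ht : t ∈ Icc 0 T) : g.C2 (u t) := fun i => by
  have := (hu i).1 t ht
  exact_mod_cast this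

/-- Gluing continuity from the charts. -/
theorem k1_glue (g : Geom X V) {W : Type} [TopologicalSpace W] {T : ℝ} {φ : ℝ → X → W}
    (h : ∀ i, ContinuousOn (fun p : ℝ × E4 => φ p.1 ((g.psi i).symm p.2))
      (Icc 0 T ×ˢ Metric.ball 0 (3 / 2))) :
    ContinuousOn (fun p : ℝ × X => φ p.1 p.2) (Icc 0 T ×ˢ univ) := by
  rintro ⟨t, y⟩ ⟨ht, -⟩
  obtain ⟨hy1, hy2⟩ := k1_ch g y
  set i := g.ch y with hi
  have hc : ContinuousAt (fun q : ℝ × X => (q.1, g.psi i q.2)) (t, y) := by
    have h1 : ContinuousAt (g.psi i) (t, y).2 := (g.psi i).continuousAt hy1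
    exact continuousAt_fst.prodMk (ContinuousAt.comp (f := Prod.snd) h1 continuousAt_snd)
  have hball : ∀ᶠ q : ℝ × X in 𝓝 (t, y), q.2 ∈ (g.psi i).source ∧
      g.psi i q.2 ∈ Metric.ball (0 : E4) (3 / 2) := by
    have h1 : ∀ᶠ z in 𝓝 y, z ∈ (g.psi i).source ∧ g.psi i z ∈ Metric.ball (0 : E4) (3 / 2) := by
      have h2 : ∀ᶠ z in 𝓝 y, z ∈ (g.psi i).source := (g.psi i).open_source.mem_nhds hy1
      refine h2.and ?_
      exact ((g.psi i).continuousAt hy1).eventually (Metric.isOpen_ball.mem_nhds (by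
        rw [mem_ball_zero_iff]; linarith))
    exact (continuousAt_snd (p := (t, y))).eventually h1
  have h2 : ContinuousWithinAt (fun p : ℝ × E4 => φ p.1 ((g.psi i).symm p.2))
      (Icc 0 T ×ˢ Metric.ball 0 (3 / 2)) (t, g.psi i y) :=
    h i _ ⟨ht, by rw [mem_ball_zero_iff]; linarith⟩
  have h3 : Tendsto (fun q : ℝ × X => (q.1, g.psi i q.2)) (𝓝[Icc 0 T ×ˢ univ] (t, y))
      (𝓝[Icc 0 T ×ˢ Metric.ball 0 (3 / 2)] (t, g.psi i y)) := by
    refine tendsto_nhdsWithin_iff.2 ⟨hc.tendsto.mono_left nhdsWithin_le_nhds, ?_⟩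
    filter_upwards [self_mem_nhdsWithin, nhdsWithin_le_nhds hball] with q hq1 hq2
    exact ⟨hq1.1, hq2.2⟩
  have h4 := h2.tendsto.comp h3
  have h5 : φ t ((g.psi i).symm (g.psi i y)) = φ t y := by rw [(g.psi i).left_inv hy1]
  show Tendsto _ _ (𝓝 (φ t y))
  rw [← h5]
  refine h4.congr' ?_
  filter_upwards [nhdsWithin_le_nhds hball] with q hq
  show φ q.1 ((g.psi i).symm (g.psi i q.2)) = φ q.1 q.2
  rw [(g.psi i).left_inv hq.1]

theorem k1_cont {g : Geom X V} {k : ℕ} {T C : ℝ} {u : ℝ → X → V} (hu : g.Nice k T C u) :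
    ContinuousOn (fun p : ℝ × X => u p.1 p.2) (Icc 0 T ×ˢ univ) := by
  refine k1_glue g fun i => ?_
  refine ((k1_NiceE_cont (hu i)).mono (Set.prod_mono Subset.rfl (subset_univ _))).congr
    fun p hp => ?_
  have h1 := mem_ball_zero_iff.1 hp.2
  show u p.1 ((g.psi i).symm p.2) = etaC p.2 • u p.1 ((g.psi i).symm p.2)
  rw [k1_eta_one h1.le, one_smul]

/-- The operator in a chart, for nice functions of time. -/
theorem k1_L_cont_chart {g : Geom X V} (s : ℝ) {T C : ℝ} {u : ℝ → X → V} (hu : g.Nice 2 T C u)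
    (i : g.I) : ContinuousOn (fun p : ℝ × E4 => g.L s (u p.1) ((g.psi i).symm p.2))
      (Icc 0 T ×ˢ Metric.ball 0 (3 / 2)) := by
  refine ((k1_op_cont (g.mdl i) s (hu i)).mono
    (Set.prod_mono Subset.rfl (subset_univ _))).congr fun p hp => ?_
  have h1 := mem_ball_zero_iff.1 hp.2
  show g.L s (u p.1) ((g.psi i).symm p.2) = _
  rw [k1_L g s (k1_Nice_C2 hu hp.1) i (by linarith)]
  refine k1_op_congr _ _ ?_
  filter_upwards [k1_eta_ev h1] with z hz
  rw [hz, one_smul]

theorem k1_L_cont {g : Geom X V} (s : ℝ) {T C : ℝ} {u : ℝ → X → V} (hu : g.Nice 2 T C u) :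
    ContinuousOn (fun p : ℝ × X => g.L s (u p.1) p.2) (Icc 0 T ×ˢ univ) :=
  k1_glue g (φ := fun t y => g.L s (u t) y) fun i => k1_L_cont_chart s hu i

theorem k1_slice {W : Type} [TopologicalSpace W] {T : ℝ} {φ : ℝ → X → W}
    (h : ContinuousOn (fun p : ℝ × X => φ p.1 p.2) (Icc 0 T ×ˢ univ)) {t : ℝ} (ht : t ∈ Icc 0 T) :
    Continuous (φ t) := by
  have h1 : ContinuousOn (fun x : X => (t, x)) univ := by fun_prop
  exact continuousOn_univ.1 (h.comp h1 (fun x _ => ⟨ht, mem_univ _⟩))

theorem k1_slice' {W : Type} [TopologicalSpace W] {T : ℝ} {φ : ℝ → X → W}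
    (h : ContinuousOn (fun p : ℝ × X => φ p.1 p.2) (Icc 0 T ×ˢ univ)) (y : X) :
    ContinuousOn (fun t => φ t y) (Icc 0 T) := by
  have h1 : ContinuousOn (fun t : ℝ => (t, y)) (Icc 0 T) := by fun_prop
  exact h.comp h1 (fun x hx => ⟨hx, mem_univ _⟩)

/-- Solutions of the heat equation on `[0,T]`. -/
def k1_Sol (g : Geom X V) (T : ℝ) (u : ℝ → X → V) : Prop :=
  ∀ t ∈ Icc 0 T, ∀ y, HasDerivWithinAt (fun s => u s y) (-g.L 0 (u t) y) (Icc 0 T) t

theorem k1_op_const {m : Model V} (ha : ∀ t x, m.a (t, x) = m.a (0, x))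
    (hb : ∀ t x, m.b (t, x) = m.b (0, x)) (hc : ∀ t x, m.c (t, x) = m.c (0, x)) (t : ℝ)
    (u : E4 → V) (x : E4) : m.op t u x = m.op 0 u x := by
  unfold Model.op
  rw [ha, hb, hc]

theorem k1_ftc {T : ℝ} {G : ℝ → V} (hG : ContinuousOn G (Icc 0 T)) {t : ℝ}
    (ht : t ∈ Icc 0 T) : HasDerivWithinAt (fun s => ∫ τ in (0 : ℝ)..s, G τ) (G t) (Icc 0 T) t := by
  have : Fact (t ∈ Icc 0 T) := ⟨ht⟩
  refine intervalIntegral.integral_hasDerivWithinAt_right ?_ ?_ (hG t ht)
  · refine ContinuousOn.intervalIntegrable (hG.mono ?_)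
    rw [uIcc_of_le ht.1]
    exact Icc_subset_Icc_right ht.2
  · exact hG.stronglyMeasurableAtFilter_nhdsWithin measurableSet_Icc t

/-- Existence of solutions, from the Duhamel operator. -/
theorem k1_exists (h9 : claimDuhamel) [T2Space X] [CompactSpace X] (g : Geom X V)
    (ha : ∀ j t x, (g.model j).a (t, x) = (g.model j).a (0, x))
    (hb : ∀ j t x, (g.model j).b (t, x) = (g.model j).b (0, x))
    (hc : ∀ j t x, (g.model j).c (t, x) = (g.model j).c (0, x))
    {f : X → V} (hf : g.Smooth f) {k : ℕ} (hk : 2 ≤ k) {T : ℝ} (hT : 0 < T) :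
    ∃ (u : ℝ → X → V) (C : ℝ), g.Nice k T C u ∧ u 0 = f ∧ k1_Sol g T u := by
  obtain ⟨S, K, hK, hS, -⟩ := h9 X V g k T hk hT
  have hLf : g.Smooth fun y => -g.L 0 f y := by
    intro i
    have h1 := (k1_L_smooth g 0 hf i).neg
    have h2 : (fun x => etaC x • -g.L 0 f ((g.psi i).symm x)) =
        fun x => -(etaC x • g.L 0 f ((g.psi i).symm x)) := by
      funext x
      rw [smul_neg]
    rw [h2]
    exact h1
  obtain ⟨C1, hC1⟩ := k1_Nice_const g k T hLf
  obtain ⟨C2, hC2⟩ := k1_Nice_const g k T hf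
  obtain ⟨hN, hSol⟩ := hS _ C1 hC1
  set r : ℝ → X → V := fun _ y => -g.L 0 f y with hr
  have hint : ∀ y, ∀ s ∈ Icc 0 T, S r s y = ∫ τ in (0 : ℝ)..s, (-g.L 0 f y - g.L 0 (S r τ) y) := by
    intro y s hs
    obtain ⟨hy1, hy2⟩ := k1_ch g y
    have h1 := hSol (g.ch y) s hs (g.psi (g.ch y) y) (by linarith)
    rw [(g.psi (g.ch y)).left_inv hy1] at h1
    rw [h1]
    refine intervalIntegral.integral_congr fun τ hτ => ?_
    rw [uIcc_of_le hs.1] at hτ
    show -g.L 0 f y - _ = -g.L 0 f y - _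
    rw [k1_L_at g 0 (S r τ) y,
      k1_op_const (m := g.mdl (g.ch y)) (ha _) (hb _) (hc _)]
  refine ⟨fun t y => f y + S r t y, C2 + K * C1, k1_Nice_add hC2 hN, ?_, ?_⟩
  · funext y
    show f y + S r 0 y = f y
    rw [hint y 0 ⟨le_rfl, hT.le⟩]
    simp
  · intro t ht y
    have hG : ContinuousOn (fun τ => -g.L 0 f y - g.L 0 (S r τ) y) (Icc 0 T) := by
      refine continuousOn_const.sub ?_
      exact k1_slice' (φ := fun τ y => g.L 0 (S r τ) y) (k1_L_cont 0 (k1_Nice_le hN hk)) y
    have h1 := (k1_ftc hG ht).const_add (f y)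
    have h2 : -g.L 0 (fun y => f y + S r t y) y = -g.L 0 f y - g.L 0 (S r t) y := by
      rw [k1_L_add g 0 (k1_smooth_C2 hf) (k1_Nice_C2 (k1_Nice_le hN hk) ht)]
      abel
    rw [h2]
    refine h1.congr (fun s hs => ?_) ?_
    · show f y + S r s y = _
      rw [hint y s hs]
    · show f y + S r t y = _
      rw [hint y t ht]

end charts

/-! ## Integration -/

section integration

variable {X : Type} [TopologicalSpace X] [CompactSpace X] [MeasurableSpace X] [BorelSpace X]

theorem k1_integrable (μ : Measure X) [IsFiniteMeasure μ] {f : X → ℝ} (hf : Continuous f) :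
    Integrable f μ :=
  hf.integrable_of_hasCompactSupport (HasCompactSupport.of_compactSpace f)

theorem k1_bound {T : ℝ} {φ : ℝ → X → ℝ}
    (h : ContinuousOn (fun p : ℝ × X => φ p.1 p.2) (Icc 0 T ×ˢ univ)) :
    ∃ M : ℝ, ∀ t ∈ Icc 0 T, ∀ y, ‖φ t y‖ ≤ M := by
  obtain ⟨M, hM⟩ := (isCompact_Icc.prod isCompact_univ).exists_bound_of_continuousOn h
  exact ⟨M, fun t ht y => hM (t, y) ⟨ht, mem_univ _⟩⟩

/-- Continuity of an integral depending on time. -/
theorem k1_int_cont (μ : Measure X) [IsFiniteMeasure μ] {T : ℝ} {φ : ℝ → X → ℝ}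
    (h : ContinuousOn (fun p : ℝ × X => φ p.1 p.2) (Icc 0 T ×ˢ univ)) :
    ContinuousOn (fun t => ∫ y, φ t y ∂μ) (Icc 0 T) := by
  obtain ⟨M, hM⟩ := k1_bound h
  refine continuousOn_of_dominated (bound := fun _ => M)
    (fun t ht => (k1_slice h ht).aestronglyMeasurable)
    (fun t ht => Eventually.of_forall fun y => hM t ht y) (integrable_const M)
    (Eventually.of_forall fun y => k1_slice' h y)

/-- Differentiation of an integral depending on time. -/
theorem k1_int_deriv (μ : Measure X) [IsFiniteMeasure μ] {T : ℝ} {φ φ' : ℝ → X → ℝ}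
    (h : ContinuousOn (fun p : ℝ × X => φ p.1 p.2) (Icc 0 T ×ˢ univ))
    (h' : ContinuousOn (fun p : ℝ × X => φ' p.1 p.2) (Icc 0 T ×ˢ univ))
    (hd : ∀ t ∈ Icc 0 T, ∀ y, HasDerivWithinAt (fun s => φ s y) (φ' t y) (Icc 0 T) t)
    {t : ℝ} (ht : t ∈ Ioo 0 T) :
    HasDerivAt (fun t => ∫ y, φ t y ∂μ) (∫ y, φ' t y ∂μ) t := by
  obtain ⟨M, hM⟩ := k1_bound h'
  have hsub : Ioo 0 T ⊆ Icc 0 T := Ioo_subset_Icc_self
  refine (hasDerivAt_integral_of_dominated_loc_of_deriv_le (bound := fun _ => M)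
    (s := Ioo 0 T) (isOpen_Ioo.mem_nhds ht) ?_ ?_ ?_ ?_ (integrable_const M) ?_).2
  · filter_upwards [isOpen_Ioo.mem_nhds ht] with s hs
    exact (k1_slice h (hsub hs)).aestronglyMeasurable
  · exact k1_integrable μ (k1_slice h (hsub ht))
  · exact (k1_slice h' (hsub ht)).aestronglyMeasurable
  · exact Eventually.of_forall fun y s hs => hM s (hsub hs) y
  · exact Eventually.of_forall fun y s hs => (hd s (hsub hs) y).hasDerivAt
      (mem_of_superset (isOpen_Ioo.mem_nhds hs) hsub)

end integration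

/-! ## Energy -/

section energy

variable {X : Type} [TopologicalSpace X] [CompactSpace X] [T2Space X] [MeasurableSpace X]
  [BorelSpace X] {V : Type} [NormedAddCommGroup V] [InnerProductSpace ℝ V] [FiniteDimensional ℝ V]

/-- The measure has full support. -/
theorem k1_full (D : HeatData X V) {F : X → ℝ} (hF : Continuous F) (h0 : ∀ y, 0 ≤ F y)
    (hi : ∫ y, F y ∂D.mu = 0) (y : X) : F y = 0 := by
  have := D.fin
  obtain ⟨hy1, hy2⟩ := k1_ch D.g y
  set i := D.g.ch y with hidef
  set K : Set X := (D.g.psi i).symm '' Metric.closedBall 0 2 with hK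
  have hKt : Metric.closedBall (0 : E4) 2 ⊆ (D.g.psi i).target :=
    (Metric.closedBall_subset_closedBall (by norm_num)).trans (D.g.target i)
  have hKc : IsClosed K := by
    refine IsCompact.isClosed ?_
    exact (isCompact_closedBall (0 : E4) 2).image_of_continuousOn
      ((D.g.psi i).continuousOn_symm.mono hKt)
  set β : X → ℝ := (D.g.psi i).source.indicator (fun z => etaC (D.g.psi i z)) with hβ
  have hβ0 : ∀ z, z ∉ K → β z = 0 := by
    intro z hz
    by_cases hzs : z ∈ (D.g.psi i).source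
    · rw [hβ, Set.indicator_of_mem hzs]
      apply k1_eta_zero
      by_contra hlt
      rw [not_le] at hlt
      exact hz ⟨D.g.psi i z, by rw [mem_closedBall_zero_iff]; exact hlt.le,
        (D.g.psi i).left_inv hzs⟩
    · exact Set.indicator_of_notMem hzs _
  have hβn : ∀ z, 0 ≤ β z := fun z => Set.indicator_nonneg (fun z _ => k1_eta_nonneg _) z
  have hβ1 : ∀ z, β z ≤ 1 := fun z => by
    by_cases hzs : z ∈ (D.g.psi i).source
    · rw [hβ, Set.indicator_of_mem hzs]
      exact k1_eta_le_one _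
    · rw [hβ, Set.indicator_of_notMem hzs]
      exact zero_le_one
  have hβc : Continuous β := by
    rw [continuous_iff_continuousAt]
    intro z
    by_cases hzs : z ∈ (D.g.psi i).source
    · have h1 : ContinuousAt (fun z => etaC (D.g.psi i z)) z :=
        k1_eta_smooth.continuous.continuousAt.comp ((D.g.psi i).continuousAt hzs)
      refine h1.congr ?_
      filter_upwards [(D.g.psi i).open_source.mem_nhds hzs] with z' hz'
      rw [hβ, Set.indicator_of_mem hz']
    · have hzK : z ∉ K := by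
        rintro ⟨x, hx, rfl⟩
        exact hzs ((D.g.psi i).map_target (hKt hx))
      refine (continuousAt_const (y := (0 : ℝ))).congr ?_
      filter_upwards [hKc.isOpen_compl.mem_nhds hzK] with z' hz'
      exact (hβ0 z' hz').symm
  have hfc : Continuous fun z => β z * F z := hβc.mul hF
  have hint : ∫ z, β z * F z ∂D.mu = 0 := by
    refine le_antisymm ?_ (integral_nonneg fun z => mul_nonneg (hβn z) (h0 z))
    rw [← hi]
    refine integral_mono (k1_integrable _ hfc) (k1_integrable _ hF) fun z => ?_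
    exact mul_le_of_le_one_left (h0 z) (hβ1 z)
  have hde := D.dens_eq i (fun z => β z * F z) hfc (fun z hz => by
    show β z * F z = 0
    rw [hβ0 z hz, zero_mul])
  rw [hint] at hde
  set G : E4 → ℝ := fun x => β ((D.g.psi i).symm x) * F ((D.g.psi i).symm x) * D.dens i x with hG
  have hball : Metric.ball (0 : E4) 3 ⊆ (D.g.psi i).target :=
    Metric.ball_subset_closedBall.trans (D.g.target i)
  have hGc : ContinuousOn G (Metric.ball 0 3) := by
    have h1 : ContinuousOn (fun x => β ((D.g.psi i).symm x) * F ((D.g.psi i).symm x))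
        (Metric.ball 0 3) :=
      hfc.comp_continuousOn ((D.g.psi i).continuousOn_symm.mono hball)
    exact h1.mul (D.dens_smooth i).continuousOn
  have hGn : ∀ x ∈ Metric.ball (0 : E4) 3, 0 ≤ G x := fun x hx =>
    mul_nonneg (mul_nonneg (hβn _) (h0 _)) (D.dens_pos i x hx).le
  have hGi : IntegrableOn G (Metric.ball 0 3) := by
    have h1 : IntegrableOn G (Metric.closedBall 0 2) :=
      (hGc.mono (Metric.closedBall_subset_ball (by norm_num))).integrableOn_compact
        (isCompact_closedBall _ _)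
    refine h1.of_forall_sdiff_eq_zero measurableSet_ball fun x hx => ?_
    have h2 : (D.g.psi i).symm x ∉ K := by
      rintro ⟨x', hx', he⟩
      apply hx.2
      have h3 := (D.g.psi i).symm.injOn (hKt hx') (hball hx.1) he
      rw [← h3]
      exact hx'
    rw [hG]
    show β _ * F _ * D.dens i x = 0
    rw [hβ0 _ h2, zero_mul, zero_mul]
  have hG0 : G =ᵐ[volume.restrict (Metric.ball (0 : E4) 3)] 0 := by
    refine (setIntegral_eq_zero_iff_of_nonneg_ae ?_ hGi).1 hde.symm
    exact (ae_restrict_iff' measurableSet_ball).2 (Eventually.of_forall hGn)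
  have hG1 := Measure.eqOn_open_of_ae_eq hG0 Metric.isOpen_ball hGc continuousOn_const
  have hx : D.g.psi i y ∈ Metric.ball (0 : E4) 3 := by
    rw [mem_ball_zero_iff]
    linarith
  have h5 := hG1 hx
  have h6 : β y = 1 := by
    rw [hβ, Set.indicator_of_mem hy1]
    exact k1_eta_one (by linarith)
  simp only [hG, (D.g.psi i).left_inv hy1, h6, one_mul, Pi.zero_apply] at h5
  rcases mul_eq_zero.1 h5 with h | h
  · exact h
  · exact absurd h (D.dens_pos i _ hx).ne'

theorem k1_energy (D : HeatData X V) {T C : ℝ} {w : ℝ → X → V} (hw : D.g.Nice 2 T C w)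
    (hs : k1_Sol D.g T w) : AntitoneOn (fun t => ∫ y, ‖w t y‖ ^ 2 ∂D.mu) (Icc 0 T) := by
  have := D.fin
  have hc := k1_cont hw
  have hLc := k1_L_cont 0 hw
  have hφ : ContinuousOn (fun p : ℝ × X => ‖w p.1 p.2‖ ^ 2) (Icc 0 T ×ˢ univ) := hc.norm.pow 2
  have hφ' : ContinuousOn (fun p : ℝ × X => 2 * ⟪w p.1 p.2, -D.g.L 0 (w p.1) p.2⟫)
      (Icc 0 T ×ˢ univ) := continuousOn_const.mul (ContinuousOn.inner (𝕜 := ℝ) hc hLc.neg)
  have hd : ∀ t ∈ Icc 0 T, ∀ y, HasDerivWithinAt (fun s => ‖w s y‖ ^ 2)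
      (2 * ⟪w t y, -D.g.L 0 (w t) y⟫) (Icc 0 T) t := fun t ht y => (hs t ht y).norm_sq
  have hder : ∀ t ∈ Ioo 0 T, HasDerivAt (fun t => ∫ y, ‖w t y‖ ^ 2 ∂D.mu)
      (∫ y, 2 * ⟪w t y, -D.g.L 0 (w t) y⟫ ∂D.mu) t := fun t ht =>
    k1_int_deriv D.mu (φ := fun t y => ‖w t y‖ ^ 2)
      (φ' := fun t y => 2 * ⟪w t y, -D.g.L 0 (w t) y⟫) hφ hφ' hd ht
  refine antitoneOn_of_deriv_nonpos (convex_Icc 0 T)
    (k1_int_cont D.mu (φ := fun t y => ‖w t y‖ ^ 2) hφ) ?_ ?_
  · rw [interior_Icc]
    exact fun t ht => (hder t ht).differentiableAt.differentiableWithinAt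
  · rw [interior_Icc]
    intro t ht
    rw [(hder t ht).deriv]
    have h1 := D.nonneg (w t) (k1_Nice_C2 hw (Ioo_subset_Icc_self ht))
    have h2 : ∀ y, 2 * ⟪w t y, -D.g.L 0 (w t) y⟫ = -2 * ⟪D.g.L 0 (w t) y, w t y⟫ := by
      intro y
      rw [inner_neg_right, real_inner_comm]
      ring
    simp only [h2]
    rw [integral_const_mul]
    linarith

theorem k1_uniq (D : HeatData X V) {T C C' : ℝ} {u v : ℝ → X → V} (hu : D.g.Nice 2 T C u)
    (hv : D.g.Nice 2 T C' v) (hsu : k1_Sol D.g T u) (hsv : k1_Sol D.g T v) (h0 : u 0 = v 0) :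
    ∀ t ∈ Icc 0 T, u t = v t := by
  have hw : D.g.Nice 2 T (C + |(-1 : ℝ)| * C') fun t y => u t y + (-1 : ℝ) • v t y :=
    k1_Nice_add hu (k1_Nice_smul (-1) hv)
  have hC2s : ∀ t ∈ Icc 0 T, D.g.C2 fun y => (-1 : ℝ) • v t y := fun t ht =>
    k1_Nice_C2 (k1_Nice_smul (-1) hv) ht
  have hs : k1_Sol D.g T fun t y => u t y + (-1 : ℝ) • v t y := by
    intro t ht y
    have h1 := (hsu t ht y).add ((hsv t ht y).const_smul (-1 : ℝ))
    have h2 : -D.g.L 0 (fun y => u t y + (-1 : ℝ) • v t y) y =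
        -D.g.L 0 (u t) y + (-1 : ℝ) • -D.g.L 0 (v t) y := by
      rw [k1_L_add D.g 0 (k1_Nice_C2 hu ht) (hC2s t ht),
        k1_L_smul D.g 0 (-1) (k1_Nice_C2 hv ht), neg_add, smul_neg]
    rw [h2]
    exact h1
  intro t ht
  have h1 := k1_energy D hw hs ⟨le_rfl, ht.1.trans ht.2⟩ ht ht.1
  have h2 : (∫ y, ‖u 0 y + (-1 : ℝ) • v 0 y‖ ^ 2 ∂D.mu) = 0 := by
    rw [h0]
    simp
  have h3 : (∫ y, ‖u t y + (-1 : ℝ) • v t y‖ ^ 2 ∂D.mu) = 0 := by
    refine le_antisymm ?_ (integral_nonneg fun y => sq_nonneg _)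
    rw [← h2]
    exact h1
  funext y
  have h4 := k1_full D (F := fun y => ‖u t y + (-1 : ℝ) • v t y‖ ^ 2)
    ((k1_slice (φ := fun t y => u t y + (-1 : ℝ) • v t y) (k1_cont hw) ht).norm.pow 2)
    (fun y => sq_nonneg _) h3 y
  have h5 : u t y + (-1 : ℝ) • v t y = 0 := by
    have := pow_eq_zero_iff (two_ne_zero) |>.1 h4
    exact norm_eq_zero.1 this
  rw [neg_smul, one_smul, ← sub_eq_add_neg, sub_eq_zero] at h5
  exact h5

theorem k1_Sol_mono {g : Geom X V} {T T' : ℝ} {u : ℝ → X → V} (h : k1_Sol g T u) (hT : T' ≤ T) :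
    k1_Sol g T' u := fun t ht y =>
  (h t ⟨ht.1, ht.2.trans hT⟩ y).mono (Icc_subset_Icc_right hT)

/-- The solution on `[0,∞)` for a smooth initial value. -/
theorem k1_flow (h9 : claimDuhamel) (D : HeatData X V) {f : X → V} (hf : D.g.Smooth f) :
    ∃ U : ℝ → X → V, U 0 = f ∧ (∀ (k : ℕ) (T0 : ℝ), 0 < T0 → ∃ C, D.g.Nice k T0 C U) ∧
      (∀ t, 0 ≤ t → D.g.Smooth (U t)) ∧
      ∀ t, 0 ≤ t → ∀ y, HasDerivWithinAt (fun s => U s y) (-D.g.L 0 (U t) y) (Ici 0) t := by
  have hex : ∀ {k : ℕ}, 2 ≤ k → ∀ {T : ℝ}, 0 < T →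
      ∃ (u : ℝ → X → V) (C : ℝ), D.g.Nice k T C u ∧ u 0 = f ∧ k1_Sol D.g T u :=
    fun hk _ hT => k1_exists h9 D.g D.a_const D.b_const D.c_const hf hk hT
  have h1 : ∀ T : ℝ, ∃ u : ℝ → X → V, 0 < T → (∃ C, D.g.Nice 2 T C u) ∧ u 0 = f ∧
      k1_Sol D.g T u := by
    intro T
    by_cases hT : 0 < T
    · obtain ⟨u, C, hu⟩ := hex le_rfl hT
      exact ⟨u, fun _ => ⟨⟨C, hu.1⟩, hu.2⟩⟩
    · exact ⟨fun _ => f, fun h => absurd h hT⟩
  choose U0 hU0 using h1
  set U : ℝ → X → V := fun t => U0 (t + 1) t with hU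
  have key : ∀ {T0 C : ℝ} {u : ℝ → X → V}, D.g.Nice 2 T0 C u → u 0 = f → k1_Sol D.g T0 u →
      ∀ t ∈ Icc 0 T0, U t = u t := by
    intro T0 C u hu h0 hs t ht
    obtain ⟨⟨C', hC'⟩, h3, h4⟩ := hU0 (t + 1) (by linarith [ht.1])
    have e1 : D.g.Nice 2 t C' (U0 (t + 1)) := k1_Nice_comp hC' continuous_id
      (fun s hs => ⟨hs.1, hs.2.trans (by simp)⟩) (fun s _ => rfl)
    have e2 : D.g.Nice 2 t C u := k1_Nice_comp hu continuous_id
      (fun s hs => ⟨hs.1, hs.2.trans ht.2⟩) (fun s _ => rfl)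
    exact k1_uniq D e1 e2 (k1_Sol_mono h4 (by linarith)) (k1_Sol_mono hs ht.2)
      (h3.trans h0.symm) t ⟨ht.1, le_rfl⟩
  have hnice : ∀ (k : ℕ) (T0 : ℝ), 0 < T0 → ∃ C, D.g.Nice k T0 C U := by
    intro k T0 hT0
    obtain ⟨u, C, hu, h0, hs⟩ := hex (le_max_right k 2) hT0
    refine ⟨C, k1_Nice_le ?_ (le_max_left k 2)⟩
    exact k1_Nice_comp hu continuous_id (fun s hs => hs)
      (fun s hs' => key (k1_Nice_le hu (le_max_right k 2)) h0 hs s hs')
  refine ⟨U, (hU0 (0 + 1) (by norm_num)).2.1, hnice, ?_, ?_⟩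
  · intro t ht i
    rw [contDiff_infty]
    intro n
    obtain ⟨C, hC⟩ := hnice n (t + 1) (by linarith)
    exact (hC i).1 t ⟨ht, by linarith⟩
  · intro t ht y
    obtain ⟨u, C, hu, h0, hs⟩ := hex le_rfl (show 0 < t + 1 by linarith)
    have hk := key hu h0 hs
    have htm : t ∈ Icc 0 (t + 1) := ⟨ht, by linarith⟩
    have h5 : HasDerivWithinAt (fun s => U s y) (-D.g.L 0 (U t) y) (Icc 0 (t + 1)) t := by
      rw [hk t htm]
      refine (hs t htm y).congr (fun s hs' => ?_) ?_
      · rw [hk s hs']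
      · rw [hk t htm]
    refine h5.mono_of_mem_nhdsWithin ?_
    have h6 : Iio (t + 1) ∈ 𝓝 t := isOpen_Iio.mem_nhds (by simp)
    filter_upwards [self_mem_nhdsWithin, nhdsWithin_le_nhds h6] with s hs1 hs2
    exact ⟨hs1, le_of_lt hs2⟩

end energy

/-- K1. -/
theorem claimSemigroup_proof (h9 : claimDuhamel) : claimSemigroup := by
  intro X _ _ _ _ _ V _ _ _ D
  have := D.fin
  have hfl : ∀ f : X → V, ∃ U : ℝ → X → V, D.g.Smooth f → U 0 = f ∧
      (∀ (k : ℕ) (T0 : ℝ), 0 < T0 → ∃ C, D.g.Nice k T0 C U) ∧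
      (∀ t, 0 ≤ t → D.g.Smooth (U t)) ∧
      ∀ t, 0 ≤ t → ∀ y, HasDerivWithinAt (fun s => U s y) (-D.g.L 0 (U t) y) (Ici 0) t := by
    intro f
    by_cases hf : D.g.Smooth f
    · obtain ⟨U, hU⟩ := k1_flow h9 D hf
      exact ⟨U, fun _ => hU⟩
    · exact ⟨fun _ => f, fun h => absurd h hf⟩
  choose U hU using hfl
  have hzero : ∀ f, D.g.Smooth f → U f 0 = f := fun f hf => (hU f hf).1
  have hnice : ∀ f, D.g.Smooth f → ∀ (k : ℕ) (T0 : ℝ), 0 < T0 → ∃ C, D.g.Nice k T0 C (U f) :=
    fun f hf => (hU f hf).2.1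
  have hsm : ∀ f, D.g.Smooth f → ∀ t, 0 ≤ t → D.g.Smooth (U f t) := fun f hf => (hU f hf).2.2.1
  have hder : ∀ f, D.g.Smooth f → ∀ t, 0 ≤ t → ∀ y,
      HasDerivWithinAt (fun s => U f s y) (-D.g.L 0 (U f t) y) (Ici 0) t :=
    fun f hf => (hU f hf).2.2.2
  have hsol : ∀ f, D.g.Smooth f → ∀ T0, k1_Sol D.g T0 (U f) := fun f hf T0 t ht y =>
    (hder f hf t ht.1 y).mono Icc_subset_Ici_self
  have huniq : ∀ (T0 C : ℝ) (u : ℝ → X → V), 0 < T0 → D.g.Nice 2 T0 C u → D.g.Smooth (u 0) →
      k1_Sol D.g T0 u → ∀ t ∈ Icc 0 T0, u t = U (u 0) t := by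
    intro T0 C u hT0 hu h0 hs
    obtain ⟨C', hC'⟩ := hnice (u 0) h0 2 T0 hT0
    exact k1_uniq D hu hC' hs (hsol _ h0 T0) (hzero _ h0).symm
  refine ⟨fun t f => U f t, ?_⟩
  refine ⟨fun t ht f hf => hsm f hf t ht, hzero, hnice, hder, huniq, ?_, ?_, ?_, ?_, ?_⟩
  · -- additivity
    intro f h hf hh t ht
    have hT : 0 < t + 1 := by linarith
    have htm : t ∈ Icc 0 (t + 1) := ⟨ht, by linarith⟩
    obtain ⟨C, hC⟩ := hnice f hf 2 (t + 1) hT
    obtain ⟨C', hC'⟩ := hnice h hh 2 (t + 1) hT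
    have h0 : (fun y => U f 0 y + U h 0 y) = fun y => f y + h y := by
      rw [hzero f hf, hzero h hh]
    have hfh : D.g.Smooth fun y => f y + h y := by
      intro i
      have := (hf i).add (hh i)
      simpa only [smul_add] using this
    have h1 := huniq (t + 1) (C + C') (fun s y => U f s y + U h s y) hT (k1_Nice_add hC hC')
      (by rw [h0]; exact hfh) (by
        intro s hs y
        rw [k1_L_add D.g 0 (k1_smooth_C2 (hsm f hf s hs.1)) (k1_smooth_C2 (hsm h hh s hs.1)),
          neg_add]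
        exact (hsol f hf _ s hs y).add (hsol h hh _ s hs y)) t htm
    rw [h0] at h1
    exact h1.symm
  · -- homogeneity
    intro c f hf t ht
    have hT : 0 < t + 1 := by linarith
    have htm : t ∈ Icc 0 (t + 1) := ⟨ht, by linarith⟩
    obtain ⟨C, hC⟩ := hnice f hf 2 (t + 1) hT
    have h0 : (fun y => c • U f 0 y) = fun y => c • f y := by
      rw [hzero f hf]
    have hcf : D.g.Smooth fun y => c • f y := by
      intro i
      have := (hf i).const_smul c
      simp only [smul_comm c] at this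
      exact this
    have h1 := huniq (t + 1) (|c| * C) (fun s y => c • U f s y) hT (k1_Nice_smul c hC)
      (by rw [h0]; exact hcf) (by
        intro s hs y
        rw [k1_L_smul D.g 0 c (k1_smooth_C2 (hsm f hf s hs.1)), ← smul_neg]
        exact (hsol f hf _ s hs y).const_smul c) t htm
    rw [h0] at h1
    exact h1.symm
  · -- composition
    intro f hf s t hs ht
    have hT : 0 < s + 1 := by linarith
    obtain ⟨C, hC⟩ := hnice f hf 2 (s + 1 + t) (by linarith)
    have hn : D.g.Nice 2 (s + 1) C fun r => U f (r + t) :=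
      k1_Nice_comp hC (φ := fun r => r + t) (by fun_prop)
        (fun r hr => ⟨by linarith [hr.1], by linarith [hr.2]⟩) (fun r _ => rfl)
    have h0 : U f (0 + t) = U f t := by rw [zero_add]
    have h1 := huniq (s + 1) C (fun r => U f (r + t)) hT hn
      (by show D.g.Smooth (U f (0 + t)); rw [h0]; exact hsm f hf t ht) (by
        intro r hr y
        have h2 := hder f hf (r + t) (by linarith [hr.1]) y
        have h3 : HasDerivWithinAt (fun r : ℝ => r + t) 1 (Icc 0 (s + 1)) r :=
          ((hasDerivAt_id r).add_const t).hasDerivWithinAt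
        have h4 := h2.scomp r h3 (fun r' hr' => by
          show 0 ≤ r' + t
          linarith [hr'.1])
        rw [one_smul] at h4
        exact h4) s ⟨hs, by linarith⟩
    rw [h0] at h1
    exact h1
  · -- symmetry
    intro f h hf hh t ht
    rcases ht.lt_or_eq with ht0 | ht0
    swap
    · subst ht0
      show ∫ y, ⟪U f 0 y, h y⟫ ∂D.mu = ∫ y, ⟪f y, U h 0 y⟫ ∂D.mu
      rw [hzero f hf, hzero h hh]
    obtain ⟨C, hC⟩ := hnice f hf 2 t ht0
    obtain ⟨C', hC'⟩ := hnice h hh 2 t ht0
    have hC'' : D.g.Nice 2 t C' fun s => U h (t - s) :=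
      k1_Nice_comp hC' (φ := fun s => t - s) (by fun_prop)
        (fun r hr => ⟨by linarith [hr.2], by linarith [hr.1]⟩) (fun r _ => rfl)
    have hd2 : ∀ s ∈ Icc 0 t, ∀ y, HasDerivWithinAt (fun s => U h (t - s) y)
        (D.g.L 0 (U h (t - s)) y) (Icc 0 t) s := by
      intro s hs y
      have h2 := hder h hh (t - s) (by linarith [hs.2]) y
      have h3 : HasDerivWithinAt (fun r : ℝ => t - r) (-1) (Icc 0 t) s := by
        simpa using ((hasDerivAt_id s).const_sub t).hasDerivWithinAt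
      have h4 := h2.scomp s h3 (fun r' hr' => by
        show 0 ≤ t - r'
        linarith [hr'.2])
      rw [neg_smul, one_smul, neg_neg] at h4
      exact h4
    have c1 := k1_cont hC
    have c2 := k1_cont hC''
    have c3 := k1_L_cont 0 hC
    have c4 := k1_L_cont 0 hC''
    have hφ : ContinuousOn (fun p : ℝ × X => ⟪U f p.1 p.2, U h (t - p.1) p.2⟫)
        (Icc 0 t ×ˢ univ) := ContinuousOn.inner (𝕜 := ℝ) c1 c2
    have hφ' : ContinuousOn (fun p : ℝ × X => ⟪U f p.1 p.2, D.g.L 0 (U h (t - p.1)) p.2⟫ +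
        ⟪-D.g.L 0 (U f p.1) p.2, U h (t - p.1) p.2⟫) (Icc 0 t ×ˢ univ) :=
      (ContinuousOn.inner (𝕜 := ℝ) c1 c4).add (ContinuousOn.inner (𝕜 := ℝ) c3.neg c2)
    have hdd : ∀ s ∈ Icc 0 t, ∀ y, HasDerivWithinAt (fun s => ⟪U f s y, U h (t - s) y⟫)
        (⟪U f s y, D.g.L 0 (U h (t - s)) y⟫ + ⟪-D.g.L 0 (U f s) y, U h (t - s) y⟫)
        (Icc 0 t) s := fun s hs y => (hsol f hf t s hs y).inner ℝ (hd2 s hs y)
    have hcont := k1_int_cont D.mu (φ := fun s y => ⟪U f s y, U h (t - s) y⟫) hφ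
    have hderiv : ∀ s ∈ Ioo 0 t, HasDerivAt (fun s => ∫ y, ⟪U f s y, U h (t - s) y⟫ ∂D.mu) 0 s := by
      intro s hs
      have h1 := k1_int_deriv D.mu (φ := fun s y => ⟪U f s y, U h (t - s) y⟫)
        (φ' := fun s y => ⟪U f s y, D.g.L 0 (U h (t - s)) y⟫ +
          ⟪-D.g.L 0 (U f s) y, U h (t - s) y⟫) hφ hφ' hdd hs
      have hs' := Ioo_subset_Icc_self hs
      have h2 := D.symm (U f s) (U h (t - s)) (k1_smooth_C2 (hsm f hf s hs'.1))
        (k1_smooth_C2 (hsm h hh (t - s) (by linarith [hs'.2])))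
      have i1 : Integrable (fun y => ⟪U f s y, D.g.L 0 (U h (t - s)) y⟫) D.mu :=
        k1_integrable _ ((k1_slice (φ := fun s y => U f s y) c1 hs').inner
          (k1_slice (φ := fun s y => D.g.L 0 (U h (t - s)) y) c4 hs'))
      have i2 : Integrable (fun y => ⟪-D.g.L 0 (U f s) y, U h (t - s) y⟫) D.mu :=
        k1_integrable _ ((k1_slice (φ := fun s y => D.g.L 0 (U f s) y) c3 hs').neg.inner
          (k1_slice (φ := fun s y => U h (t - s) y) c2 hs'))
      have h3 : (∫ y, (⟪U f s y, D.g.L 0 (U h (t - s)) y⟫ +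
          ⟪-D.g.L 0 (U f s) y, U h (t - s) y⟫) ∂D.mu) = 0 := by
        rw [integral_add i1 i2]
        simp only [inner_neg_left]
        rw [integral_neg, h2]
        ring
      rw [h3] at h1
      exact h1
    obtain ⟨c, -, hc⟩ := exists_hasDerivAt_eq_slope
      (fun s => ∫ y, ⟪U f s y, U h (t - s) y⟫ ∂D.mu) (fun _ => 0) ht0 hcont hderiv
    simp only [sub_self, sub_zero] at hc
    rw [eq_div_iff ht0.ne', zero_mul, hzero f hf, hzero h hh] at hc
    linarith
  · -- contraction
    intro f hf t ht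
    obtain ⟨C, hC⟩ := hnice f hf 2 (t + 1) (by linarith)
    have h1 := k1_energy D hC (hsol f hf _) ⟨le_rfl, by linarith⟩ ⟨ht, by linarith⟩ ht
    simp only at h1
    rw [hzero f hf] at h1
    exact h1

end NRF

end
end

section

/-!
# K4: existence of the heat kernel
-/

open scoped Manifold ContDiff Topology RealInnerProductSpace
open MeasureTheory Set

noncomputable section

namespace NRF

/-! ## Differentiation under the integral sign -/

section param

/-- Interpolation: the first derivative is bounded by the function and the second derivative. -/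
theorem K4_interp {E F : Type} [NormedAddCommGroup E] [NormedSpace ℝ E] [NormedAddCommGroup F]
    [NormedSpace ℝ F] {u : E → F} (hu : ContDiff ℝ 2 u) {a b h : ℝ} (ha : ∀ x, ‖u x‖ ≤ a)
    (hb : ∀ x, ‖iteratedFDeriv ℝ 2 u x‖ ≤ b) (hh : 0 < h) (x : E) :
    ‖fderiv ℝ u x‖ ≤ 2 * a / h + b * h := by
  have ha0 : 0 ≤ a := (norm_nonneg _).trans (ha x)
  have hb0 : 0 ≤ b := (norm_nonneg _).trans (hb x)
  have hdiff : Differentiable ℝ u := hu.differentiable two_ne_zero
  have h1 : ContDiff ℝ 1 (fderiv ℝ u) := hu.fderiv_right (by norm_num)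
  have hd1 : Differentiable ℝ (fderiv ℝ u) := h1.differentiable one_ne_zero
  have h2 : ∀ z, ‖fderiv ℝ (fderiv ℝ u) z‖ ≤ b := by
    intro z
    have e := norm_iteratedFDeriv_fderiv (𝕜 := ℝ) (f := u) (n := 1) (x := z)
    have e1 : ‖iteratedFDeriv ℝ 1 (fderiv ℝ u) z‖ = ‖fderiv ℝ (fderiv ℝ u) z‖ := by
      rw [← norm_iteratedFDeriv_fderiv, norm_iteratedFDeriv_zero]
    rw [← e1, e]
    exact hb z
  have h3 : ∀ y, ‖fderiv ℝ u y - fderiv ℝ u x‖ ≤ b * ‖y - x‖ := fun y =>
    convex_univ.norm_image_sub_le_of_norm_fderiv_le (fun z _ => hd1 z) (fun z _ => h2 z)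
      (mem_univ x) (mem_univ y)
  apply ContinuousLinearMap.opNorm_le_of_unit_norm (by positivity)
  intro v hv
  -- the function `s ↦ u (x + s v) - s Du(x) v`
  have h4 : ∀ s ∈ Icc (0 : ℝ) h, HasDerivWithinAt
      (fun s : ℝ => u (x + s • v) - s • fderiv ℝ u x v)
      (fderiv ℝ u (x + s • v) v - fderiv ℝ u x v) (Icc 0 h) s := by
    intro s _
    have e1 : HasDerivAt (fun s : ℝ => x + s • v) v s := by
      simpa using ((hasDerivAt_id s).smul_const v).const_add x
    have e2 : HasDerivAt (fun s : ℝ => u (x + s • v)) (fderiv ℝ u (x + s • v) v) s :=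
      (hdiff (x + s • v)).hasFDerivAt.comp_hasDerivAt s e1
    have e3 : HasDerivAt (fun s : ℝ => s • fderiv ℝ u x v) (fderiv ℝ u x v) s := by
      simpa using (hasDerivAt_id s).smul_const (fderiv ℝ u x v)
    exact (e2.sub e3).hasDerivWithinAt
  have h5 : ∀ s ∈ Icc (0 : ℝ) h, ‖fderiv ℝ u (x + s • v) v - fderiv ℝ u x v‖ ≤ b * h := by
    intro s hs
    refine ((fderiv ℝ u (x + s • v) - fderiv ℝ u x).le_opNorm v).trans ?_
    rw [hv, mul_one]
    refine (h3 _).trans ?_
    rw [add_sub_cancel_left, norm_smul, hv, mul_one, Real.norm_of_nonneg hs.1]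
    exact mul_le_mul_of_nonneg_left hs.2 hb0
  have h6 := (convex_Icc (0 : ℝ) h).norm_image_sub_le_of_norm_hasDerivWithin_le h4 h5
    (left_mem_Icc.2 hh.le) (right_mem_Icc.2 hh.le)
  simp only [zero_smul, add_zero, sub_zero] at h6
  rw [Real.norm_of_nonneg hh.le] at h6
  have h7 : h * ‖fderiv ℝ u x v‖ ≤ 2 * a + b * h * h := by
    have e1 : h • fderiv ℝ u x v = (u (x + h • v) - u x) -
        (u (x + h • v) - h • fderiv ℝ u x v - u x) := by abel
    calc h * ‖fderiv ℝ u x v‖ = ‖h • fderiv ℝ u x v‖ := by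
          rw [norm_smul, Real.norm_of_nonneg hh.le]
      _ ≤ ‖u (x + h • v) - u x‖ + ‖u (x + h • v) - h • fderiv ℝ u x v - u x‖ :=
          (congrArg norm e1).trans_le (norm_sub_le _ _)
      _ ≤ (‖u (x + h • v)‖ + ‖u x‖) + b * h * h :=
          add_le_add (norm_sub_le (u (x + h • v)) (u x)) h6
      _ ≤ 2 * a + b * h * h := by linarith [ha (x + h • v), ha x]
  calc ‖fderiv ℝ u x v‖ = h * ‖fderiv ℝ u x v‖ / h := by field_simp
    _ ≤ (2 * a + b * h * h) / h := by gcongr
    _ = _ := by field_simp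

/-- A family of smooth functions with uniform bounds, continuous in the parameter. -/
structure K4Fam {Y E F : Type} [TopologicalSpace Y] [NormedAddCommGroup E] [NormedSpace ℝ E]
    [NormedAddCommGroup F] [NormedSpace ℝ F] (G : Y → E → F) : Prop where
  smooth : ∀ (k : ℕ) y, ContDiff ℝ k (G y)
  bound : ∀ k : ℕ, ∃ C : ℝ, ∀ y x, ‖iteratedFDeriv ℝ k (G y) x‖ ≤ C
  cont : ∀ y0, ∀ ε > 0, ∀ᶠ y in 𝓝 y0, ∀ x, ‖G y x - G y0 x‖ ≤ ε

theorem K4Fam.deriv {Y E F : Type} [TopologicalSpace Y] [NormedAddCommGroup E] [NormedSpace ℝ E]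
    [NormedAddCommGroup F] [NormedSpace ℝ F] {G : Y → E → F} (hG : K4Fam G) :
    K4Fam fun y => fderiv ℝ (G y) where
  smooth k y := (hG.smooth (k + 1) y).fderiv_right (by norm_cast)
  bound k := by
    obtain ⟨C, hC⟩ := hG.bound (k + 1)
    exact ⟨C, fun y x => by rw [norm_iteratedFDeriv_fderiv]; exact hC y x⟩
  cont y0 ε hε := by
    obtain ⟨C, hC⟩ := hG.bound 2
    set C' : ℝ := |C| + 1 with hC'
    have hC0 : 0 < C' := by positivity
    set h : ℝ := ε / (4 * C') with hh
    have hh0 : 0 < h := by positivity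
    filter_upwards [hG.cont y0 (ε * h / 4) (by positivity)] with y hy x
    have e1 : fderiv ℝ (G y) x - fderiv ℝ (G y0) x = fderiv ℝ (fun z => G y z - G y0 z) x := by
      rw [fderiv_fun_sub ((hG.smooth 1 y).differentiable one_ne_zero x)
        ((hG.smooth 1 y0).differentiable one_ne_zero x)]
    rw [e1]
    have e2 : ∀ z, ‖iteratedFDeriv ℝ 2 (fun z => G y z - G y0 z) z‖ ≤ 2 * C' := by
      intro z
      have e3 : iteratedFDeriv ℝ 2 (fun z => G y z - G y0 z) z =
          iteratedFDeriv ℝ 2 (G y) z - iteratedFDeriv ℝ 2 (G y0) z :=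
        iteratedFDeriv_sub_apply (hG.smooth 2 y).contDiffAt (hG.smooth 2 y0).contDiffAt
      rw [e3]
      refine (norm_sub_le _ _).trans ?_
      have e4 := hC y z
      have e5 := hC y0 z
      have e6 := le_abs_self C
      linarith
    have e7 := K4_interp (u := fun z => G y z - G y0 z) (a := ε * h / 4) (b := 2 * C') (h := h)
      ((hG.smooth 2 y).sub (hG.smooth 2 y0)) hy e2 hh0 x
    refine e7.trans (le_of_eq ?_)
    have e8 : 2 * (ε * h / 4) / h = ε / 2 := by field_simp; norm_num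
    have e9 : 2 * C' * h = ε / 2 := by rw [hh]; field_simp; norm_num
    rw [e8, e9]
    ring

theorem K4Fam.continuous {Y E F : Type} [TopologicalSpace Y] [NormedAddCommGroup E]
    [NormedSpace ℝ E] [NormedAddCommGroup F] [NormedSpace ℝ F] {G : Y → E → F} (hG : K4Fam G)
    (x : E) : Continuous fun y => G y x := by
  rw [continuous_iff_continuousAt]
  intro y0
  rw [Metric.continuousAt_iff']
  intro ε hε
  filter_upwards [hG.cont y0 (ε / 2) (by positivity)] with y hy
  rw [dist_eq_norm]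
  exact (hy x).trans_lt (by linarith)

/-- Differentiation under the integral sign. -/
theorem K4Fam.contDiff {Y : Type} [TopologicalSpace Y] [SecondCountableTopology Y]
    [MeasurableSpace Y] [OpensMeasurableSpace Y] {μ : Measure Y} {φ : Y → ℝ}
    (hφ : Integrable φ μ) (n : ℕ) : ∀ {F : Type} [NormedAddCommGroup F] [NormedSpace ℝ F]
    {G : Y → E4 → F} (_ : K4Fam G), ContDiff ℝ n fun x => ∫ y, φ y • G y x ∂μ := by
  induction n with
  | zero =>
    intro F _ _ G hG
    rw [Nat.cast_zero, contDiff_zero]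
    obtain ⟨C, hC⟩ := hG.bound 0
    refine continuous_of_dominated (bound := fun y => ‖φ y‖ * C) ?_ ?_ ?_ ?_
    · exact fun x => hφ.aestronglyMeasurable.smul (hG.continuous x).aestronglyMeasurable
    · intro x
      refine Filter.Eventually.of_forall fun y => ?_
      rw [norm_smul]
      have := hC y x
      rw [norm_iteratedFDeriv_zero] at this
      gcongr
    · exact hφ.norm.mul_const C
    · refine Filter.Eventually.of_forall fun y => ?_
      exact (hG.smooth 0 y).continuous.const_smul _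
  | succ n ih =>
    intro F _ _ G hG
    obtain ⟨C, hC⟩ := hG.bound 1
    have hC' : ∀ y x, ‖fderiv ℝ (G y) x‖ ≤ C := by
      intro y x
      have := hC y x
      rwa [← norm_iteratedFDeriv_fderiv, norm_iteratedFDeriv_zero] at this
    obtain ⟨C0, hC0⟩ := hG.bound 0
    have key : ∀ x, HasFDerivAt (fun x => ∫ y, φ y • G y x ∂μ) (∫ y, φ y • fderiv ℝ (G y) x ∂μ) x := by
      intro x
      refine hasFDerivAt_integral_of_dominated_of_fderiv_le (bound := fun y => ‖φ y‖ * C)
        (F := fun x y => φ y • G y x) (F' := fun x y => φ y • fderiv ℝ (G y) x)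
        (s := univ) Filter.univ_mem ?_ ?_ ?_ ?_ ?_ ?_
      · exact Filter.Eventually.of_forall fun x =>
          hφ.aestronglyMeasurable.smul (hG.continuous x).aestronglyMeasurable
      · refine Integrable.mono' (hφ.norm.mul_const C0)
          (hφ.aestronglyMeasurable.smul (hG.continuous x).aestronglyMeasurable)
          (Filter.Eventually.of_forall fun y => ?_)
        rw [norm_smul]
        have := hC0 y x
        rw [norm_iteratedFDeriv_zero] at this
        gcongr
      · exact hφ.aestronglyMeasurable.smul (hG.deriv.continuous x).aestronglyMeasurable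
      · refine Filter.Eventually.of_forall fun y x _ => ?_
        rw [norm_smul]
        have := hC' y x
        gcongr
      · exact hφ.norm.mul_const C
      · refine Filter.Eventually.of_forall fun y x _ => ?_
        exact ((hG.smooth 1 y).differentiable one_ne_zero x).hasFDerivAt.const_smul _
    rw [Nat.cast_add, Nat.cast_one, contDiff_succ_iff_fderiv]
    refine ⟨fun x => (key x).differentiableAt, fun h => by simp at h, ?_⟩
    have e : fderiv ℝ (fun x => ∫ y, φ y • G y x ∂μ) = fun x => ∫ y, φ y • fderiv ℝ (G y) x ∂μ :=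
      funext fun x => (key x).fderiv
    rw [e]
    exact ih hG.deriv

end param

/-! ## Functions on `X` in charts -/

section charts

theorem K4_eta_one {x : E4} (hx : ‖x‖ ≤ 3 / 2) : etaC x = 1 :=
  etaBump.one_of_mem_closedBall (by simpa [etaBump] using hx)

theorem K4_eta_zero {x : E4} (hx : 2 ≤ ‖x‖) : etaC x = 0 :=
  etaBump.zero_of_le_dist (by simpa [etaBump] using hx)

theorem K4_eta_smooth : ContDiff ℝ ∞ etaC := etaBump.contDiff

theorem K4_eta_nonneg (x : E4) : 0 ≤ etaC x := etaBump.nonneg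

theorem K4_eta_le (x : E4) : etaC x ≤ 1 := etaBump.le_one

variable {X : Type} [TopologicalSpace X] {V : Type} [NormedAddCommGroup V] [InnerProductSpace ℝ V]

theorem K4_second (g : Geom X V) [CompactSpace X] : SecondCountableTopology X := by
  have h1 : (univ : Set X) ⊆ ⋃ i, (g.psi i).source := by
    intro y _
    obtain ⟨i, hi, -⟩ := g.exists_chart y
    exact mem_iUnion.2 ⟨i, hi⟩
  obtain ⟨t, ht⟩ := isCompact_univ.elim_finite_subcover (fun i => (g.psi i).source)
    (fun i => (g.psi i).open_source) h1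
  have h2 : ∀ i : t, SecondCountableTopology (g.psi i).source := fun i =>
    (g.psi i).secondCountableTopology_source
  refine TopologicalSpace.secondCountableTopology_of_countable_cover
    (U := fun i : t => (g.psi i).source) (fun i => (g.psi i).open_source) ?_
  rw [eq_univ_iff_forall]
  intro y
  obtain ⟨i, hi⟩ := mem_iUnion.1 (ht (mem_univ y))
  obtain ⟨hit, hy⟩ := mem_iUnion.1 hi
  exact mem_iUnion.2 ⟨⟨i, hit⟩, hy⟩

theorem K4_cont (g : Geom X V) {W : Type} [NormedAddCommGroup W] [NormedSpace ℝ W] {f : X → W}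
    (hf : ∀ i, Continuous fun x => etaC x • f ((g.psi i).symm x)) : Continuous f := by
  rw [continuous_iff_continuousAt]
  intro y0
  obtain ⟨i, hi, hn⟩ := g.exists_chart y0
  have hc : ContinuousAt (g.psi i) y0 := (g.psi i).continuousAt hi
  have h1 : ∀ᶠ y in 𝓝 y0, y ∈ (g.psi i).source := (g.psi i).open_source.mem_nhds hi
  have h2 : ∀ᶠ y in 𝓝 y0, ‖g.psi i y‖ < 1 :=
    hc.norm.eventually (gt_mem_nhds hn)
  have h3 : f =ᶠ[𝓝 y0] fun y => (fun x => etaC x • f ((g.psi i).symm x)) (g.psi i y) := by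
    filter_upwards [h1, h2] with y hy1 hy2
    rw [K4_eta_one (by linarith), one_smul, (g.psi i).left_inv hy1]
  rw [continuousAt_congr h3]
  exact ((hf i).continuousAt).comp hc

theorem K4_symm_cont (g : Geom X V) (i : g.I) {x : E4} (hx : ‖x‖ ≤ 3) :
    ContinuousAt (g.psi i).symm x :=
  (g.psi i).continuousAt_symm (g.target i (by simpa using hx))

/-- A bump function in a chart times a vector. -/
def K4test (g : Geom X V) (i : g.I) {z0 : E4} (β : ContDiffBump z0) (v : V) (y : X) : V :=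
  (g.psi i).source.indicator (fun y => β (g.psi i y) • v) y

theorem K4test_chart (g : Geom X V) (i : g.I) {z0 : E4} (β : ContDiffBump z0) (v : V) {z : E4}
    (hz : ‖z‖ ≤ 3) : K4test g i β v ((g.psi i).symm z) = β z • v := by
  have ht : z ∈ (g.psi i).target := g.target i (by simpa using hz)
  unfold K4test
  rw [indicator_of_mem ((g.psi i).map_target ht), (g.psi i).right_inv ht]

theorem K4test_zero (g : Geom X V) (i : g.I) {z0 : E4} (β : ContDiffBump z0) (v : V) {y : X}
    (hy : y ∉ (g.psi i).symm '' Metric.closedBall z0 β.rOut) : K4test g i β v y = 0 := by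
  unfold K4test
  by_cases hs : y ∈ (g.psi i).source
  · rw [indicator_of_mem hs, β.zero_of_le_dist, zero_smul]
    by_contra h
    exact hy ⟨g.psi i y, by rw [Metric.mem_closedBall]; exact (not_le.1 h).le,
      (g.psi i).left_inv hs⟩
  · exact indicator_of_notMem hs _

theorem K4test_closed [T2Space X] (g : Geom X V) (i : g.I) {z0 : E4} (β : ContDiffBump z0)
    (hz : ‖z0‖ + β.rOut ≤ 2) : IsClosed ((g.psi i).symm '' Metric.closedBall z0 β.rOut) := by
  have h1 : ContinuousOn (g.psi i).symm (Metric.closedBall z0 β.rOut) := by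
    intro z hz'
    refine (K4_symm_cont g i ?_).continuousWithinAt
    rw [Metric.mem_closedBall, dist_eq_norm] at hz'
    have : ‖z‖ ≤ ‖z0‖ + ‖z - z0‖ := by
      calc ‖z‖ = ‖z0 + (z - z0)‖ := by rw [add_sub_cancel]
        _ ≤ _ := norm_add_le _ _
    linarith
  exact ((isCompact_closedBall z0 β.rOut).image_of_continuousOn h1).isClosed

theorem K4test_smooth [T2Space X] (g : Geom X V) (i : g.I) {z0 : E4} (β : ContDiffBump z0)
    (hz : ‖z0‖ + β.rOut ≤ 2) (v : V) : g.Smooth (K4test g i β v) := by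
  intro i'
  rw [contDiff_iff_contDiffAt]
  intro x
  by_cases hx : ‖x‖ < 3
  · have ht : x ∈ (g.psi i').target := g.target i' (by simpa using hx.le)
    have hc : ContinuousAt (g.psi i').symm x := K4_symm_cont g i' hx.le
    by_cases hs : (g.psi i').symm x ∈ (g.psi i).source
    · have hmem : x ∈ ((g.psi i').symm.trans (g.psi i)).source := by
        rw [OpenPartialHomeomorph.trans_source]
        exact ⟨ht, hs⟩
      have h1 : ContDiffAt ℝ ∞ ((g.psi i').symm.trans (g.psi i)) x :=
        (g.trans_smooth i' i).contDiffAt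
          (((g.psi i').symm.trans (g.psi i)).open_source.mem_nhds hmem)
      have h2 : ContDiffAt ℝ ∞ (fun x => etaC x • (β (((g.psi i').symm.trans (g.psi i)) x) • v))
          x :=
        K4_eta_smooth.contDiffAt.smul ((β.contDiff.contDiffAt.comp x h1).smul contDiffAt_const)
      refine h2.congr_of_eventuallyEq ?_
      have h3 : ∀ᶠ z in 𝓝 x, (g.psi i').symm z ∈ (g.psi i).source :=
        hc.eventually ((g.psi i).open_source.mem_nhds hs)
      filter_upwards [h3] with z hz'
      unfold K4test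
      rw [indicator_of_mem hz']
      rfl
    · have hn : (g.psi i').symm x ∉ (g.psi i).symm '' Metric.closedBall z0 β.rOut := by
        rintro ⟨z, hz1, hz2⟩
        apply hs
        rw [← hz2]
        apply (g.psi i).map_target
        apply g.target i
        rw [Metric.mem_closedBall, dist_eq_norm] at hz1
        have : ‖z‖ ≤ ‖z0‖ + ‖z - z0‖ := by
          calc ‖z‖ = ‖z0 + (z - z0)‖ := by rw [add_sub_cancel]
            _ ≤ _ := norm_add_le _ _
        rw [mem_closedBall_zero_iff]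
        linarith
      have h1 : ∀ᶠ z in 𝓝 x, (g.psi i').symm z ∉ (g.psi i).symm '' Metric.closedBall z0 β.rOut :=
        hc.eventually ((K4test_closed g i β hz).isOpen_compl.mem_nhds hn)
      refine (contDiffAt_const (c := (0 : V))).congr_of_eventuallyEq ?_
      filter_upwards [h1] with z hz'
      rw [K4test_zero g i β v hz', smul_zero]
  · refine (contDiffAt_const (c := (0 : V))).congr_of_eventuallyEq ?_
    have h1 : ∀ᶠ z in 𝓝 x, 2 < ‖z‖ :=
      continuousAt_id.norm.eventually (lt_mem_nhds (by simp only [id]; linarith))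
    filter_upwards [h1] with z hz'
    rw [K4_eta_zero hz'.le, zero_smul]

theorem K4_smooth_cont (g : Geom X V) {f : X → V} (hf : g.Smooth f) : Continuous f :=
  K4_cont g fun i => (hf i).continuous

end charts

/-! ## Duality -/

section dual

variable {X : Type} [TopologicalSpace X] [MeasurableSpace X] {V : Type}
  [NormedAddCommGroup V] [InnerProductSpace ℝ V] [FiniteDimensional ℝ V]

theorem K4_integrable [CompactSpace X] [BorelSpace X] (D : HeatData X V) {W : Type}
    [NormedAddCommGroup W] {f : X → W} (hf : Continuous f) : Integrable f D.mu := by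
  have := D.fin
  exact hf.integrable_of_hasCompactSupport (HasCompactSupport.of_compactSpace f)

theorem K4_dual [CompactSpace X] [T2Space X] [BorelSpace X] (D : HeatData X V) {w : X → V}
    (hw : Continuous w) {M : ℝ} (hM : 0 ≤ M)
    (h : ∀ f, D.g.Smooth f → ∫ y, ⟪w y, f y⟫ ∂D.mu ≤ M * ∫ y, ‖f y‖ ∂D.mu) (x : X) :
    ‖w x‖ ≤ M := by
  by_contra hx
  rw [not_le] at hx
  have hn : 0 < ‖w x‖ := hM.trans_lt hx
  set v : V := (‖w x‖)⁻¹ • w x with hv
  have hv1 : ‖v‖ = 1 := by
    rw [hv, norm_smul, norm_inv, norm_norm, inv_mul_cancel₀ hn.ne']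
  have hwv : ⟪w x, v⟫ = ‖w x‖ := by
    rw [hv, real_inner_smul_right, real_inner_self_eq_norm_sq]
    field_simp
  obtain ⟨i, hi, hxi⟩ := D.g.exists_chart x
  set z0 := D.g.psi i x with hz0
  have hx0 : (D.g.psi i).symm z0 = x := (D.g.psi i).left_inv hi
  have hc : ContinuousAt (fun z => ⟪w ((D.g.psi i).symm z), v⟫) z0 := by
    have h1 := K4_symm_cont D.g i (x := z0) (by linarith)
    exact ContinuousAt.inner (𝕜 := ℝ) (ContinuousAt.comp (g := w) hw.continuousAt h1)
      continuousAt_const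
  have hev : ∀ᶠ z in 𝓝 z0, M < ⟪w ((D.g.psi i).symm z), v⟫ := by
    apply hc.eventually (lt_mem_nhds _)
    change M < ⟪w ((D.g.psi i).symm z0), v⟫
    rw [hx0, hwv]
    exact hx
  obtain ⟨δ, hδ, hball⟩ := Metric.eventually_nhds_iff_ball.1 hev
  set r : ℝ := min (δ / 2) (1 / 2) with hr
  have hr0 : 0 < r := by positivity
  have hrδ : r < δ := lt_of_le_of_lt (min_le_left _ _) (by linarith)
  have hr1 : r ≤ 1 / 2 := min_le_right _ _
  set β : ContDiffBump z0 := ⟨r / 2, r, by positivity, by linarith⟩ with hβ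
  have hβr : β.rOut = r := rfl
  have hsz : ‖z0‖ + β.rOut ≤ 2 := by rw [hβr]; linarith
  set f := K4test D.g i β v with hf
  have hfs : D.g.Smooth f := K4test_smooth D.g i β hsz v
  have hfc : Continuous f := K4_smooth_cont D.g hfs
  have hnorm : ∀ z ∈ Metric.closedBall z0 r, ‖z‖ < 3 := by
    intro z hz
    rw [Metric.mem_closedBall, dist_eq_norm] at hz
    have : ‖z‖ ≤ ‖z0‖ + ‖z - z0‖ := by
      calc ‖z‖ = ‖z0 + (z - z0)‖ := by rw [add_sub_cancel]
        _ ≤ _ := norm_add_le _ _
    linarith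
  have hfz : ∀ y, y ∉ (D.g.psi i).symm '' Metric.closedBall 0 2 → f y = 0 := by
    intro y hy
    apply K4test_zero
    rintro ⟨z, hz1, hz2⟩
    apply hy
    refine ⟨z, ?_, hz2⟩
    rw [Metric.mem_closedBall, dist_eq_norm, hβr] at hz1
    have : ‖z‖ ≤ ‖z0‖ + ‖z - z0‖ := by
      calc ‖z‖ = ‖z0 + (z - z0)‖ := by rw [add_sub_cancel]
        _ ≤ _ := norm_add_le _ _
    rw [mem_closedBall_zero_iff]
    linarith
  -- the pairing with `w - M v`
  set F : E4 → ℝ := fun z => (⟪w ((D.g.psi i).symm z), v⟫ - M) * β z * D.dens i z with hF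
  have h1 : ∫ y, (⟪w y, f y⟫ - M * ‖f y‖) ∂D.mu = ∫ z in Metric.ball (0 : E4) 3, F z := by
    rw [D.dens_eq i (fun y => ⟪w y, f y⟫ - M * ‖f y‖)
      ((hw.inner hfc).sub (continuous_const.mul hfc.norm)) (fun y hy => by
        simp only [hfz y hy, inner_zero_right, norm_zero, mul_zero, sub_zero])]
    refine setIntegral_congr_fun measurableSet_ball fun z hz => ?_
    have hz' : ‖z‖ ≤ 3 := by
      rw [mem_ball_zero_iff] at hz
      exact hz.le
    simp only [hF, hf]
    rw [K4test_chart D.g i β v hz', real_inner_smul_right, norm_smul, hv1,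
      Real.norm_of_nonneg β.nonneg]
    ring
  have hsupp : Function.support F ⊆ Metric.closedBall z0 r := by
    intro z hz
    rw [Function.mem_support] at hz
    by_contra hz'
    apply hz
    simp only [hF]
    rw [β.zero_of_le_dist (by rw [hβr]; rw [Metric.mem_closedBall, not_le] at hz'; exact hz'.le)]
    ring
  have hFint : Integrable F := by
    rw [← integrableOn_iff_integrable_of_support_subset hsupp]
    apply ContinuousOn.integrableOn_compact (isCompact_closedBall _ _)
    intro z hz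
    have hz3 := hnorm z hz
    have c1 : ContinuousAt (fun z => ⟪w ((D.g.psi i).symm z), v⟫) z := by
      have h1 := K4_symm_cont D.g i (x := z) hz3.le
      exact ContinuousAt.inner (𝕜 := ℝ) (ContinuousAt.comp (g := w) hw.continuousAt h1)
        continuousAt_const
    have c2 : ContinuousAt (D.dens i) z := by
      apply (D.dens_smooth i).continuousOn.continuousAt
      exact Metric.isOpen_ball.mem_nhds (by rwa [mem_ball_zero_iff])
    exact (((c1.sub continuousAt_const).mul β.continuous.continuousAt).mul c2).continuousWithinAt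
  have hpos : ∀ z, 0 ≤ F z ∨ z ∉ Metric.ball (0 : E4) 3 := by
    intro z
    by_cases hz : z ∈ Metric.ball (0 : E4) 3
    · left
      by_cases hz' : z ∈ Metric.closedBall z0 r
      · have h2 := hball z (by
          rw [Metric.mem_ball]; rw [Metric.mem_closedBall] at hz'; linarith)
        have h3 := D.dens_pos i z hz
        have h4 : 0 ≤ β z := β.nonneg
        simp only [hF]
        have : 0 ≤ ⟪w ((D.g.psi i).symm z), v⟫ - M := by linarith
        positivity
      · have : F z = 0 := by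
          by_contra h0
          exact hz' (hsupp h0)
        rw [this]
    · right; exact hz
  have h2 : 0 < ∫ z in Metric.ball (0 : E4) 3, F z := by
    rw [setIntegral_pos_iff_support_of_nonneg_ae]
    · refine lt_of_lt_of_le (Metric.measure_ball_pos volume z0 hr0) (measure_mono fun z hz => ?_)
      have hz1 : z ∈ Metric.closedBall z0 r := Metric.ball_subset_closedBall hz
      have hz3 := hnorm z hz1
      have hzb : z ∈ Metric.ball (0 : E4) 3 := by rwa [mem_ball_zero_iff]
      refine ⟨?_, hzb⟩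
      rw [Function.mem_support]
      have h2 := hball z (by
        rw [Metric.mem_ball] at hz ⊢; linarith)
      have h3 := D.dens_pos i z hzb
      have h4 : 0 < β z := by
        apply β.pos_of_mem_ball
        exact hz
      simp only [hF]
      have : 0 < ⟪w ((D.g.psi i).symm z), v⟫ - M := by linarith
      positivity
    · rw [Filter.EventuallyLE, ae_restrict_iff' measurableSet_ball]
      exact Filter.Eventually.of_forall fun z hz => (hpos z).resolve_right (not_not.2 hz)
    · exact hFint.integrableOn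
  have h3 := h f hfs
  have e1 : ∫ y, (⟪w y, f y⟫ - M * ‖f y‖) ∂D.mu = ∫ y, ⟪w y, f y⟫ ∂D.mu -
      M * ∫ y, ‖f y‖ ∂D.mu := by
    rw [integral_sub (K4_integrable D (hw.inner hfc))
      (K4_integrable D (f := fun y => M * ‖f y‖) (continuous_const.mul hfc.norm)),
      integral_const_mul]
  rw [← h1, e1] at h2
  linarith

theorem K4_sep [CompactSpace X] [T2Space X] [BorelSpace X] (D : HeatData X V) {w w' : X → V}
    (hw : Continuous w) (hw' : Continuous w')
    (h : ∀ f, D.g.Smooth f → ∫ y, ⟪w y, f y⟫ ∂D.mu = ∫ y, ⟪w' y, f y⟫ ∂D.mu) : w = w' := by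
  funext x
  have h1 := K4_dual D (hw.sub hw') le_rfl (fun f hf => by
    have hfc := K4_smooth_cont D.g hf
    simp only [Pi.sub_apply, inner_sub_left, zero_mul]
    rw [integral_sub (K4_integrable D (hw.inner hfc)) (K4_integrable D (hw'.inner hfc)), h f hf,
      sub_self]) x
  rw [Pi.sub_apply, norm_le_zero_iff, sub_eq_zero] at h1
  exact h1

end dual

/-! ## The kernel -/

section kernel

variable {X : Type} [TopologicalSpace X] [MeasurableSpace X] {V : Type}
  [NormedAddCommGroup V] [InnerProductSpace ℝ V] [FiniteDimensional ℝ V]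

/-- The conclusion of `claimPole0`. -/
structure K4Pole (D : HeatData X V) (k : ℕ) (T0 : ℝ) (h : X → V → ℝ → X → V) (C : ℝ) : Prop where
  approx : ∀ y v, D.IsApprox T0 y v (h y v) (fun _ _ => 0)
  add : ∀ y v w, ∀ t ∈ Ioc 0 T0, ∀ x, h y (v + w) t x = h y v t x + h y w t x
  smul : ∀ y (c : ℝ) v, ∀ t ∈ Ioc 0 T0, ∀ x, h y (c • v) t x = c • h y v t x
  cont : ∀ v, ContinuousOn (fun p : ℝ × X × X => h p.2.2 v p.1 p.2.1) (Ioc 0 T0 ×ˢ univ)
  l1 : ∀ y v, ∀ t ∈ Ioc 0 T0, ∫ x, ‖h y v t x‖ ∂D.mu ≤ C * ‖v‖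
  nice : ∀ δ > 0, ∃ C', ∀ y v, D.g.Nice k (T0 - δ) (C' * ‖v‖) fun t => h y v (t + δ)
  diag : ∃ (c : ℕ → X → V →L[ℝ] V), (∀ w, Continuous (c w)) ∧
        ∀ t ∈ Ioc (0 : ℝ) T0, ∀ y v,
          ‖t ^ 2 • h y v t y - ∑ w ∈ Finset.range 5, Real.sqrt t ^ w • c w y v‖ ≤
            C * ‖v‖ * Real.sqrt t ^ 5

theorem K4Pole.slice {D : HeatData X V} {k : ℕ} {T0 : ℝ} {h : X → V → ℝ → X → V} {C : ℝ}
    (hp : K4Pole D k T0 h C) {t : ℝ} (ht : t ∈ Ioc 0 T0) (v : V) :
    Continuous fun p : X × X => h p.2 v t p.1 := by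
  have h1 := hp.cont v
  exact h1.comp_continuous (f := fun p : X × X => (t, p.1, p.2)) (by fun_prop)
    (fun p => ⟨ht, mem_univ _⟩)

theorem K4Pole.pair [CompactSpace X] [T2Space X] [BorelSpace X] {D : HeatData X V}
    (h3 : claimPairing) {T : ℝ → (X → V) → X → V} (hT : D.IsSemigroup T) {k : ℕ} {T0 : ℝ}
    {h : X → V → ℝ → X → V} {C : ℝ} (hp : K4Pole D k T0 h C) {t : ℝ} (ht : t ∈ Ioc 0 T0)
    (y : X) (v : V) {f : X → V} (hf : D.g.Smooth f) :
    ∫ x, ⟪h y v t x, f x⟫ ∂D.mu = ⟪v, T t f y⟫ := by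
  rw [h3 X V D T hT T0 y v (h y v) (fun _ _ => 0) (ht.1.trans_le ht.2) (hp.approx y v) f hf t ht]
  simp

theorem K4Pole.agree [CompactSpace X] [T2Space X] [BorelSpace X] {D : HeatData X V}
    (h3 : claimPairing) {T : ℝ → (X → V) → X → V} (hT : D.IsSemigroup T) {k k' : ℕ} {T0 T0' : ℝ}
    {h h' : X → V → ℝ → X → V} {C C' : ℝ} (hp : K4Pole D k T0 h C) (hp' : K4Pole D k' T0' h' C')
    {t : ℝ} (ht : t ∈ Ioc 0 T0) (ht' : t ∈ Ioc 0 T0') (y : X) (v : V) (x : X) :
    h y v t x = h' y v t x := by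
  have c1 : Continuous (h y v t) := (hp.slice ht v).comp (f := fun x => (x, y)) (by fun_prop)
  have c2 : Continuous (h' y v t) := (hp'.slice ht' v).comp (f := fun x => (x, y)) (by fun_prop)
  have := K4_sep D c1 c2 fun f hf => by rw [hp.pair h3 hT ht y v hf, hp'.pair h3 hT ht' y v hf]
  exact congrFun this x

/-- The basic properties of the kernel. -/
structure K4Ker (D : HeatData X V) (T : ℝ → (X → V) → X → V) (K : ℝ → X → X → V →L[ℝ] V) :
    Prop where
  cont : ContinuousOn (fun p : ℝ × X × X => K p.1 p.2.1 p.2.2) (Ioi 0 ×ˢ univ)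
  pair : ∀ t, 0 < t → ∀ y v f, D.g.Smooth f → ∫ x, ⟪K t x y v, f x⟫ ∂D.mu = ⟪v, T t f y⟫
  l1 : ∀ T0, 0 < T0 → ∃ C : ℝ, ∀ t ∈ Ioc 0 T0, ∀ y, ∫ x, ‖K t x y‖ ∂D.mu ≤ C
  smooth : ∀ t, 0 < t → ∀ k : ℕ, ∃ C : ℝ, ∀ i y v,
    ContDiff ℝ k (fun x => etaC x • K t ((D.g.psi i).symm x) y v) ∧
    ∀ j ≤ k, ∀ x, ‖iteratedFDeriv ℝ j (fun x => etaC x • K t ((D.g.psi i).symm x) y v) x‖ ≤
      C * ‖v‖
  diag : ∃ (c : ℕ → X → V →L[ℝ] V) (C : ℝ), (∀ w, Continuous (c w)) ∧
    ∀ t ∈ Ioc (0 : ℝ) 1, ∀ y,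
      ‖t ^ 2 • K t y y - ∑ w ∈ Finset.range 5, Real.sqrt t ^ w • c w y‖ ≤ C * Real.sqrt t ^ 5

/-- The operator norm is at most the sum over an orthonormal basis. -/
theorem K4_opNorm (A : V →L[ℝ] V) : ‖A‖ ≤ ∑ b, ‖A (stdOrthonormalBasis ℝ V b)‖ := by
  refine ContinuousLinearMap.opNorm_le_bound _ (Finset.sum_nonneg fun _ _ => norm_nonneg _) ?_
  intro v
  have h1 : A v = ∑ b, ⟪stdOrthonormalBasis ℝ V b, v⟫ • A (stdOrthonormalBasis ℝ V b) := by
    conv_lhs => rw [← (stdOrthonormalBasis ℝ V).sum_repr' v]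
    rw [map_sum]
    simp only [map_smul]
  rw [h1, Finset.sum_mul]
  refine (norm_sum_le _ _).trans (Finset.sum_le_sum fun b _ => ?_)
  rw [norm_smul, mul_comm]
  refine mul_le_mul_of_nonneg_left ?_ (norm_nonneg _)
  refine (norm_inner_le_norm _ _).trans ?_
  rw [OrthonormalBasis.norm_eq_one, one_mul]

theorem K4_exists [CompactSpace X] [T2Space X] [BorelSpace X] (D : HeatData X V)
    (h2 : claimPole0) (h3 : claimPairing) {T : ℝ → (X → V) → X → V} (hT : D.IsSemigroup T) :
    ∃ K : ℝ → X → X → V →L[ℝ] V, K4Ker D T K := by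
  have hex : ∀ (k : ℕ) (T0 : ℝ), 2 ≤ k ∧ 0 < T0 → ∃ (h : X → V → ℝ → X → V) (C : ℝ),
      K4Pole D k T0 h C := by
    intro k T0 hk
    obtain ⟨h, C, c1, c2, c3, c4, c5, c6, c7⟩ := h2 X V D k T0 hk.1 hk.2
    exact ⟨h, C, c1, c2, c3, c4, c5, c6, c7⟩
  choose! H Cc hH using hex
  have hexK : ∀ (t : ℝ) (x y : X), ∃ L : V →L[ℝ] V, 0 < t → ∀ v, L v = H 2 t y v t x := by
    intro t x y
    by_cases ht : 0 < t
    · have hp := hH 2 t ⟨le_rfl, ht⟩
      have htm : t ∈ Ioc 0 t := ⟨ht, le_rfl⟩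
      exact ⟨LinearMap.toContinuousLinearMap
        { toFun := fun v => H 2 t y v t x
          map_add' := fun v w => hp.add y v w t htm x
          map_smul' := fun c v => hp.smul y c v t htm x }, fun _ v => rfl⟩
    · exact ⟨0, fun h => absurd h ht⟩
  choose K hK using hexK
  have hK' : ∀ (k : ℕ) (T0 t : ℝ), 2 ≤ k → t ∈ Ioc 0 T0 → ∀ x y v, K t x y v = H k T0 y v t x := by
    intro k T0 t hk ht x y v
    rw [hK t x y ht.1 v]
    exact (hH 2 t ⟨le_rfl, ht.1⟩).agree h3 hT (hH k T0 ⟨hk, ht.1.trans_le ht.2⟩) ⟨ht.1, le_rfl⟩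
      ht y v x
  refine ⟨K, ?_, ?_, ?_, ?_, ?_⟩
  · -- continuity
    rw [continuousOn_clm_apply]
    intro v
    rintro ⟨t0, x0, y0⟩ ⟨ht0, -⟩
    have ht0' : 0 < t0 := ht0
    have hp := hH 2 (t0 + 1) ⟨le_rfl, by linarith⟩
    have hmem : (t0, x0, y0) ∈ Ioc 0 (t0 + 1) ×ˢ (univ : Set (X × X)) :=
      ⟨⟨ht0', by linarith⟩, mem_univ _⟩
    have hnh : Ioc 0 (t0 + 1) ×ˢ (univ : Set (X × X)) ∈ 𝓝 (t0, x0, y0) := by
      apply prod_mem_nhds _ Filter.univ_mem
      exact Filter.mem_of_superset (Ioo_mem_nhds ht0' (by linarith : t0 < t0 + 1))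
        Ioo_subset_Ioc_self
    have h4 : ContinuousAt (fun p : ℝ × X × X => H 2 (t0 + 1) p.2.2 v p.1 p.2.1) (t0, x0, y0) :=
      (hp.cont v).continuousAt hnh
    have h5 : (fun p : ℝ × X × X => K p.1 p.2.1 p.2.2 v) =ᶠ[𝓝 (t0, x0, y0)]
        fun p : ℝ × X × X => H 2 (t0 + 1) p.2.2 v p.1 p.2.1 := by
      filter_upwards [hnh] with p hp'
      exact hK' 2 (t0 + 1) p.1 le_rfl hp'.1 _ _ _
    exact ((continuousAt_congr h5).2 h4).continuousWithinAt
  · intro t ht y v f hf
    have htm : t ∈ Ioc 0 t := ⟨ht, le_rfl⟩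
    rw [← (hH 2 t ⟨le_rfl, ht⟩).pair h3 hT htm y v hf]
    refine integral_congr_ae (Filter.Eventually.of_forall fun x => ?_)
    simp only
    rw [hK t x y ht v]
  · -- the L1 bound
    intro T0 hT0
    have hp := hH 2 T0 ⟨le_rfl, hT0⟩
    refine ⟨∑ _b : Fin (Module.finrank ℝ V), Cc 2 T0 * 1, fun t ht y => ?_⟩
    have hc : ∀ v, Continuous fun x => K t x y v := by
      intro v
      have : (fun x => K t x y v) = fun x => H 2 T0 y v t x := by
        funext x; exact hK' 2 T0 t le_rfl ht x y v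
      rw [this]
      exact (hp.slice ht v).comp (f := fun x => (x, y)) (by fun_prop)
    have hcK : Continuous fun x => K t x y := by
      rw [continuous_clm_apply]
      exact hc
    calc ∫ x, ‖K t x y‖ ∂D.mu ≤ ∫ x, ∑ b, ‖K t x y (stdOrthonormalBasis ℝ V b)‖ ∂D.mu := by
          apply integral_mono (K4_integrable D hcK.norm)
          · exact K4_integrable D (continuous_finsetSum _ fun b _ => (hc _).norm)
          · exact fun x => K4_opNorm _
      _ = ∑ b, ∫ x, ‖K t x y (stdOrthonormalBasis ℝ V b)‖ ∂D.mu :=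
          integral_finsetSum _ fun b _ => K4_integrable D (hc _).norm
      _ ≤ _ := by
          refine Finset.sum_le_sum fun b _ => ?_
          have h4 := hp.l1 y (stdOrthonormalBasis ℝ V b) t ht
          rw [OrthonormalBasis.norm_eq_one] at h4
          simpa only [hK' 2 T0 t le_rfl ht] using h4
  · -- smoothness
    intro t ht k
    have hk2 : 2 ≤ max k 2 := le_max_right _ _
    have htm : t ∈ Ioc 0 t := ⟨ht, le_rfl⟩
    obtain ⟨C', hC'⟩ := (hH (max k 2) t ⟨hk2, ht⟩).nice (t / 2) (by linarith)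
    refine ⟨C', fun i y v => ?_⟩
    obtain ⟨n1, -, n3⟩ := hC' y v i
    have hmem : t / 2 ∈ Icc 0 (t - t / 2) := ⟨by linarith, by linarith⟩
    have e : (fun x => etaC x • K t ((D.g.psi i).symm x) y v) =
        fun x => etaC x • H (max k 2) t y v (t / 2 + t / 2) ((D.g.psi i).symm x) := by
      funext x
      rw [add_halves, hK' (max k 2) t t hk2 htm]
    rw [e]
    refine ⟨(n1 (t / 2) hmem).of_le ?_, fun j hj x => n3 j (hj.trans (le_max_left _ _)) _ hmem x⟩
    exact_mod_cast le_max_left k 2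
  · -- the diagonal
    obtain ⟨c, hc, hd⟩ := (hH 2 1 ⟨le_rfl, one_pos⟩).diag
    refine ⟨c, |Cc 2 1|, hc, fun t ht y => ?_⟩
    refine ContinuousLinearMap.opNorm_le_bound _ (by positivity) fun v => ?_
    have h4 := hd t ht y v
    have e : (t ^ 2 • K t y y - ∑ w ∈ Finset.range 5, Real.sqrt t ^ w • c w y) v =
        t ^ 2 • H 2 1 y v t y - ∑ w ∈ Finset.range 5, Real.sqrt t ^ w • c w y v := by
      simp only [sub_apply, smul_apply, sum_apply]
      rw [hK' 2 1 t le_rfl ht]
    rw [e]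
    refine h4.trans ?_
    have h5 : Cc 2 1 * ‖v‖ * Real.sqrt t ^ 5 ≤ |Cc 2 1| * ‖v‖ * Real.sqrt t ^ 5 := by
      have := le_abs_self (Cc 2 1)
      gcongr
    linarith

end kernel

/-! ## Properties of the kernel -/

section final

variable {X : Type} [TopologicalSpace X] [MeasurableSpace X] {V : Type}
  [NormedAddCommGroup V] [InnerProductSpace ℝ V] [FiniteDimensional ℝ V]

theorem K4_param [CompactSpace X] [T2Space X] [BorelSpace X] (D : HeatData X V) {W : Type}
    [NormedAddCommGroup W] [NormedSpace ℝ W] {f : X → X → W}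
    (hf : Continuous (Function.uncurry f)) : Continuous fun x => ∫ y, f x y ∂D.mu := by
  have := D.fin
  have := K4_second D.g
  have h := continuous_parametric_integral_of_continuous (μ := D.mu) hf isCompact_univ
  simpa only [Measure.restrict_univ] using h

theorem K4_swap [CompactSpace X] [T2Space X] [BorelSpace X] (D : HeatData X V) {W : Type}
    [NormedAddCommGroup W] [NormedSpace ℝ W] {f : X → X → W}
    (hf : Continuous (Function.uncurry f)) :
    ∫ x, (∫ y, f x y ∂D.mu) ∂D.mu = ∫ y, (∫ x, f x y ∂D.mu) ∂D.mu := by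
  have := D.fin
  exact integral_integral_swap_of_hasCompactSupport hf (HasCompactSupport.of_compactSpace _)

theorem K4_int_inner [CompactSpace X] [T2Space X] [BorelSpace X] (D : HeatData X V) {f : X → V}
    (hf : Continuous f) (c : V) : ∫ x, ⟪f x, c⟫ ∂D.mu = ⟪∫ x, f x ∂D.mu, c⟫ := by
  have := FiniteDimensional.complete ℝ V
  rw [real_inner_comm, ← integral_inner (K4_integrable D hf) c]
  simp only [real_inner_comm]

variable {D : HeatData X V} {T : ℝ → (X → V) → X → V} {K : ℝ → X → X → V →L[ℝ] V}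

theorem K4Ker.slice (hK : K4Ker D T K) {t : ℝ} (ht : 0 < t) :
    Continuous fun p : X × X => K t p.1 p.2 :=
  hK.cont.comp_continuous (f := fun p : X × X => (t, p.1, p.2)) (by fun_prop)
    (fun p => ⟨ht, mem_univ _⟩)

theorem K4Ker.symm [CompactSpace X] [T2Space X] [BorelSpace X] (hT : D.IsSemigroup T)
    (hK : K4Ker D T K) {t : ℝ} (ht : 0 < t) (x y : X) (v w : V) :
    ⟪K t x y v, w⟫ = ⟪v, K t y x w⟫ := by
  have := FiniteDimensional.complete ℝ V
  have hs := hK.slice ht
  have hs' : Continuous fun p : X × X => ContinuousLinearMap.adjoint (K t p.2 p.1) :=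
    (ContinuousLinearMap.adjoint (𝕜 := ℝ) (E := V) (F := V)).continuous.comp
      (hs.comp continuous_swap)
  have key : ∀ g, D.g.Smooth g → ∀ x, ∫ y, K t x y (g y) ∂D.mu =
      ∫ y, ContinuousLinearMap.adjoint (K t y x) (g y) ∂D.mu := by
    intro g hg
    have hgc := K4_smooth_cont D.g hg
    have c1 : Continuous (Function.uncurry fun x y => K t x y (g y)) :=
      hs.clm_apply (hgc.comp continuous_snd)
    have c2 : Continuous (Function.uncurry fun x y =>
        ContinuousLinearMap.adjoint (K t y x) (g y)) :=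
      hs'.clm_apply (hgc.comp continuous_snd)
    refine congrFun (K4_sep D (K4_param D c1) (K4_param D c2) fun f hf => ?_)
    have hfc := K4_smooth_cont D.g hf
    have e1 : ∫ x, ⟪∫ y, K t x y (g y) ∂D.mu, f x⟫ ∂D.mu = ∫ y, ⟪g y, T t f y⟫ ∂D.mu := by
      calc ∫ x, ⟪∫ y, K t x y (g y) ∂D.mu, f x⟫ ∂D.mu
          = ∫ x, (∫ y, ⟪K t x y (g y), f x⟫ ∂D.mu) ∂D.mu := by
            refine integral_congr_ae (Filter.Eventually.of_forall fun x => ?_)
            exact (K4_int_inner D (c1.comp (f := fun y => (x, y)) (by fun_prop)) _).symm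
        _ = ∫ y, (∫ x, ⟪K t x y (g y), f x⟫ ∂D.mu) ∂D.mu :=
            K4_swap D (f := fun x y => ⟪K t x y (g y), f x⟫)
              (c1.inner (hfc.comp continuous_fst))
        _ = _ := by
            refine integral_congr_ae (Filter.Eventually.of_forall fun y => ?_)
            exact hK.pair t ht y (g y) f hf
    have e2 : ∫ x, ⟪∫ y, ContinuousLinearMap.adjoint (K t y x) (g y) ∂D.mu, f x⟫ ∂D.mu =
        ∫ x, ⟪f x, T t g x⟫ ∂D.mu := by
      refine integral_congr_ae (Filter.Eventually.of_forall fun x => ?_)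
      simp only
      rw [← K4_int_inner D (f := fun y => ContinuousLinearMap.adjoint (K t y x) (g y))
        (c2.comp (f := fun y => (x, y)) (by fun_prop)), ← hK.pair t ht x (f x) g hg]
      refine integral_congr_ae (Filter.Eventually.of_forall fun y => ?_)
      simp only
      rw [ContinuousLinearMap.adjoint_inner_left, real_inner_comm]
    rw [e1, e2, ← hT.symm f g hf hg t ht.le]
    simp only [real_inner_comm]
  have h2 : (fun y => ContinuousLinearMap.adjoint (K t x y) w) = fun y => K t y x w := by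
    have c1 : Continuous fun y => ContinuousLinearMap.adjoint (K t x y) w :=
      (hs'.comp (f := fun y => (y, x)) (by fun_prop)).clm_apply continuous_const
    have c2 : Continuous fun y => K t y x w :=
      (hs.comp (f := fun y => (y, x)) (by fun_prop)).clm_apply continuous_const
    refine K4_sep D c1 c2 fun g hg => ?_
    have hgc := K4_smooth_cont D.g hg
    have d1 : Continuous fun y => K t x y (g y) :=
      (hs.comp (f := fun y => (x, y)) (by fun_prop)).clm_apply hgc
    have d2 : Continuous fun y => ContinuousLinearMap.adjoint (K t y x) (g y) :=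
      (hs'.comp (f := fun y => (x, y)) (by fun_prop)).clm_apply hgc
    have h3 := congrArg (fun z => ⟪z, w⟫) (key g hg x)
    rw [← K4_int_inner D d1, ← K4_int_inner D d2] at h3
    simp only [ContinuousLinearMap.adjoint_inner_left] at h3 ⊢
    simp only [real_inner_comm] at h3 ⊢
    exact h3
  rw [← congrFun h2 y, ContinuousLinearMap.adjoint_inner_right]

theorem K4Ker.repr [CompactSpace X] [T2Space X] [BorelSpace X] (hT : D.IsSemigroup T)
    (hK : K4Ker D T K) {t : ℝ} (ht : 0 < t) {f : X → V} (hf : D.g.Smooth f) (x : X) :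
    T t f x = ∫ y, K t x y (f y) ∂D.mu := by
  have hfc := K4_smooth_cont D.g hf
  have d1 : Continuous fun y => K t x y (f y) :=
    ((hK.slice ht).comp (f := fun y => (x, y)) (by fun_prop)).clm_apply hfc
  refine ext_inner_left ℝ fun v => ?_
  rw [← hK.pair t ht x v f hf, real_inner_comm, ← K4_int_inner D d1]
  refine integral_congr_ae (Filter.Eventually.of_forall fun y => ?_)
  simp only
  rw [hK.symm hT ht y x v (f y), real_inner_comm]

theorem K4Ker.comp [CompactSpace X] [T2Space X] [BorelSpace X] (hT : D.IsSemigroup T)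
    (hK : K4Ker D T K) {s t : ℝ} (hs : 0 < s) (ht : 0 < t) (x z : X) (v : V) :
    K (s + t) x z v = ∫ y, K s x y (K t y z v) ∂D.mu := by
  have c0 : Continuous fun y => K t y z v :=
    ((hK.slice ht).comp (f := fun y => (y, z)) (by fun_prop)).clm_apply continuous_const
  have c1 : Continuous (Function.uncurry fun x y => K s x y (K t y z v)) :=
    (hK.slice hs).clm_apply (c0.comp continuous_snd)
  have c2 : Continuous fun x => K (s + t) x z v :=
    ((hK.slice (add_pos hs ht)).comp (f := fun y => (y, z)) (by fun_prop)).clm_apply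
      continuous_const
  refine congrFun (K4_sep D c2 (K4_param D c1) fun f hf => ?_) x
  have hfc := K4_smooth_cont D.g hf
  rw [hK.pair (s + t) (add_pos hs ht) z v f hf, add_comm s t, hT.comp f hf t s ht.le hs.le,
    ← hK.pair t ht z v (T s f) (hT.smooth s hs.le f hf)]
  calc ∫ y, ⟪K t y z v, T s f y⟫ ∂D.mu
      = ∫ y, (∫ x, ⟪K s x y (K t y z v), f x⟫ ∂D.mu) ∂D.mu := by
        refine integral_congr_ae (Filter.Eventually.of_forall fun y => ?_)
        exact (hK.pair s hs y (K t y z v) f hf).symm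
    _ = ∫ x, (∫ y, ⟪K s x y (K t y z v), f x⟫ ∂D.mu) ∂D.mu :=
        (K4_swap D (f := fun x y => ⟪K s x y (K t y z v), f x⟫)
          (c1.inner (hfc.comp continuous_fst))).symm
    _ = _ := by
        refine integral_congr_ae (Filter.Eventually.of_forall fun x => ?_)
        exact K4_int_inner D (c1.comp (f := fun y => (x, y)) (by fun_prop)) _

theorem K4Ker.contr [CompactSpace X] [T2Space X] [BorelSpace X] (hT : D.IsSemigroup T)
    (hK : K4Ker D T K) {T0 : ℝ} (hT0 : 0 < T0) : ∃ C : ℝ, 0 ≤ C ∧ ∀ r ∈ Icc 0 T0,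
      ∀ f, D.g.Smooth f → ∫ x, ‖T r f x‖ ∂D.mu ≤ C * ∫ x, ‖f x‖ ∂D.mu := by
  obtain ⟨C, hC⟩ := hK.l1 T0 hT0
  refine ⟨max C 1, zero_le_one.trans (le_max_right _ _), fun r hr f hf => ?_⟩
  have hfc := K4_smooth_cont D.g hf
  have hI : 0 ≤ ∫ x, ‖f x‖ ∂D.mu := integral_nonneg fun _ => norm_nonneg _
  rcases hr.1.eq_or_lt with rfl | hr0
  · rw [hT.zero f hf]
    calc _ = 1 * ∫ x, ‖f x‖ ∂D.mu := (one_mul _).symm
      _ ≤ _ := mul_le_mul_of_nonneg_right (le_max_right _ _) hI
  · have hs := hK.slice hr0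
    have c1 : Continuous (Function.uncurry fun x y => ‖K r x y‖ * ‖f y‖) :=
      hs.norm.mul (hfc.norm.comp continuous_snd)
    have c2 : Continuous fun x => T r f x := K4_smooth_cont D.g (hT.smooth r hr.1 f hf)
    calc ∫ x, ‖T r f x‖ ∂D.mu ≤ ∫ x, (∫ y, ‖K r x y‖ * ‖f y‖ ∂D.mu) ∂D.mu := by
          apply integral_mono (K4_integrable D c2.norm) (K4_integrable D (K4_param D c1))
          intro x
          simp only
          rw [hK.repr hT hr0 hf x]
          refine (norm_integral_le_integral_norm _).trans ?_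
          have d1 : Continuous fun y => K r x y (f y) :=
            (hs.comp (f := fun y => (x, y)) (by fun_prop)).clm_apply hfc
          apply integral_mono (K4_integrable D d1.norm)
            (K4_integrable D (c1.comp (f := fun y => (x, y)) (by fun_prop)))
          exact fun y => (K r x y).le_opNorm _
      _ = ∫ y, (∫ x, ‖K r x y‖ * ‖f y‖ ∂D.mu) ∂D.mu := K4_swap D c1
      _ ≤ ∫ y, max C 1 * ‖f y‖ ∂D.mu := by
          have c3 : Continuous (Function.uncurry fun y x => ‖K r x y‖ * ‖f y‖) :=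
            c1.comp continuous_swap
          apply integral_mono (K4_integrable D (K4_param D c3))
            (K4_integrable D (continuous_const.mul hfc.norm))
          intro y
          simp only
          rw [integral_mul_const]
          refine mul_le_mul_of_nonneg_right ?_ (norm_nonneg _)
          exact (hC r ⟨hr0, hr.2⟩ y).trans (le_max_left _ _)
      _ = _ := integral_const_mul _ _

theorem K4Ker.compare [CompactSpace X] [T2Space X] [BorelSpace X] (h3 : claimPairing)
    (hT : D.IsSemigroup T) (hK : K4Ker D T K) {T0 : ℝ} (hT0 : 0 < T0) : ∃ C : ℝ,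
      ∀ (y0 : X) (v : V) (h e : ℝ → X → V), D.IsApprox T0 y0 v h e → ∀ t ∈ Ioc 0 T0, ∀ E : ℝ,
        (∀ s ∈ Ioc 0 t, ∀ y, ‖e s y‖ ≤ E) → ∀ x, ‖h t x - K t x y0 v‖ ≤ C * t * E := by
  obtain ⟨C, hC0, hC⟩ := hK.contr hT hT0
  refine ⟨C, fun y0 v h e ha t ht E hE x => ?_⟩
  have hE0 : 0 ≤ E := (norm_nonneg _).trans (hE t ⟨ht.1, le_rfl⟩ x)
  -- continuity of `h t`
  have hc1 : Continuous (h t) := by
    obtain ⟨C1, hC1⟩ := ha.nice (t / 2) (by linarith [ht.1]) (by linarith [ht.1, ht.2])
    refine K4_cont D.g fun i => ?_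
    have h4 := ((hC1 i).1 (t / 2) ⟨by linarith [ht.1], by linarith [ht.2]⟩).continuous
    simpa only [add_halves] using h4
  have hc2 : Continuous fun x => K t x y0 v :=
    ((hK.slice ht.1).comp (f := fun y => (y, y0)) (by fun_prop)).clm_apply continuous_const
  refine K4_dual D (hc1.sub hc2) (by have := ht.1; positivity) (fun f hf => ?_) x
  have hfc := K4_smooth_cont D.g hf
  have hI : 0 ≤ ∫ x, ‖f x‖ ∂D.mu := integral_nonneg fun _ => norm_nonneg _
  have e1 : ∫ x, ⟪(h t - fun x => K t x y0 v) x, f x⟫ ∂D.mu =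
      ∫ s in (0 : ℝ)..t, ∫ x, ⟪e s x, T (t - s) f x⟫ ∂D.mu := by
    simp only [Pi.sub_apply, inner_sub_left]
    rw [integral_sub (K4_integrable D (hc1.inner hfc)) (K4_integrable D (hc2.inner hfc)),
      h3 X V D T hT T0 y0 v h e hT0 ha f hf t ht, hK.pair t ht.1 y0 v f hf]
    ring
  rw [e1]
  have e2 : ∀ s ∈ uIoc 0 t, ‖∫ x, ⟪e s x, T (t - s) f x⟫ ∂D.mu‖ ≤ E * (C * ∫ x, ‖f x‖ ∂D.mu) := by
    intro s hs
    rw [uIoc_of_le ht.1.le] at hs
    have hr : t - s ∈ Icc 0 T0 := ⟨by linarith [hs.2], by linarith [hs.1, ht.2]⟩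
    have c3 : Continuous (T (t - s) f) := K4_smooth_cont D.g (hT.smooth _ hr.1 f hf)
    calc ‖∫ x, ⟪e s x, T (t - s) f x⟫ ∂D.mu‖ ≤ ∫ x, E * ‖T (t - s) f x‖ ∂D.mu := by
          apply norm_integral_le_of_norm_le (K4_integrable D (continuous_const.mul c3.norm))
          refine Filter.Eventually.of_forall fun x => ?_
          refine (norm_inner_le_norm _ _).trans ?_
          exact mul_le_mul_of_nonneg_right (hE s hs x) (norm_nonneg _)
      _ = E * ∫ x, ‖T (t - s) f x‖ ∂D.mu := integral_const_mul _ _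
      _ ≤ _ := mul_le_mul_of_nonneg_left (hC _ hr f hf) hE0
  have e3 := intervalIntegral.norm_integral_le_of_norm_le_const e2
  rw [sub_zero, abs_of_pos ht.1] at e3
  refine (le_abs_self _).trans (e3.trans (le_of_eq ?_))
  ring

theorem K4Ker.smoothing [CompactSpace X] [T2Space X] [BorelSpace X] (hK : K4Ker D T K) {t : ℝ}
    (ht : 0 < t) {f : X → V} (hf : MemLp f 2 D.mu) :
    D.g.Smooth fun x => ∫ y, K t x y (f y) ∂D.mu := by
  have := D.fin
  have := K4_second D.g
  have hs := hK.slice ht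
  have hfi : Integrable f D.mu := hf.integrable one_le_two
  intro i
  -- the family of kernels
  have hfam : ∀ v : V, K4Fam fun (y : X) (x : E4) => etaC x • K t ((D.g.psi i).symm x) y v := by
    intro v
    refine ⟨fun k y => ?_, fun k => ?_, ?_⟩
    · obtain ⟨C, hC⟩ := hK.smooth t ht k
      exact (hC i y v).1
    · obtain ⟨C, hC⟩ := hK.smooth t ht k
      exact ⟨C * ‖v‖, fun y x => (hC i y v).2 k le_rfl x⟩
    · intro y0 ε hε
      have h1 : ∀ᶠ y in 𝓝 y0, ∀ x ∈ (univ : Set X), ‖K t x y v - K t x y0 v‖ < ε := by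
        apply isCompact_univ.eventually_forall_of_forall_eventually
        intro x _
        have c1 : Continuous fun z : X × X => ‖K t z.2 z.1 v - K t z.2 y0 v‖ :=
          (((hs.comp (f := fun z : X × X => (z.2, z.1)) (by fun_prop)).clm_apply
            continuous_const).sub
            ((hs.comp (f := fun z : X × X => (z.2, y0)) (by fun_prop)).clm_apply
            continuous_const)).norm
        apply c1.continuousAt.eventually (gt_mem_nhds _)
        simpa using hε
      filter_upwards [h1] with y hy x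
      rw [← smul_sub, norm_smul, Real.norm_of_nonneg (K4_eta_nonneg x)]
      calc _ ≤ 1 * ‖K t ((D.g.psi i).symm x) y v - K t ((D.g.psi i).symm x) y0 v‖ :=
            mul_le_mul_of_nonneg_right (K4_eta_le x) (norm_nonneg _)
        _ ≤ ε := by rw [one_mul]; exact (hy _ (mem_univ _)).le
  set e := stdOrthonormalBasis ℝ V with he
  have hφ : ∀ b, Integrable (fun y => ⟪e b, f y⟫) D.mu := fun b => hfi.const_inner (e b)
  have hsum : (fun x => etaC x • ∫ y, K t ((D.g.psi i).symm x) y (f y) ∂D.mu) = fun x =>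
      ∑ b, ∫ y, ⟪e b, f y⟫ • (etaC x • K t ((D.g.psi i).symm x) y (e b)) ∂D.mu := by
    funext x
    have e1 : ∀ y, etaC x • K t ((D.g.psi i).symm x) y (f y) =
        ∑ b, ⟪e b, f y⟫ • (etaC x • K t ((D.g.psi i).symm x) y (e b)) := by
      intro y
      conv_lhs => rw [← e.sum_repr' (f y)]
      rw [map_sum, Finset.smul_sum]
      refine Finset.sum_congr rfl fun b _ => ?_
      rw [map_smul, smul_comm]
    rw [← integral_smul]
    simp only [e1]
    refine integral_finsetSum _ fun b _ => ?_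
    obtain ⟨C, hC⟩ := (hfam (e b)).bound 0
    refine Integrable.mono' ((hφ b).norm.mul_const C)
      ((hφ b).aestronglyMeasurable.smul ((hfam (e b)).continuous x).aestronglyMeasurable)
      (Filter.Eventually.of_forall fun y => ?_)
    rw [norm_smul]
    have h4 := hC y x
    rw [norm_iteratedFDeriv_zero] at h4
    gcongr
  rw [hsum]
  refine ContDiff.sum fun b _ => ?_
  rw [contDiff_infty]
  intro n
  exact K4Fam.contDiff (hφ b) n (hfam (e b))

end final

/-- K4. -/
theorem claimKernel_proof (h1 : claimSemigroup) (h2 : claimPole0) (h3 : claimPairing) :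
    claimKernel := by
  intro X _ _ _ _ _ V _ _ _ D
  obtain ⟨T, hT⟩ := h1 X V D
  obtain ⟨K, hK⟩ := K4_exists D h2 h3 hT
  exact ⟨T, K, hT,
    { cont := hK.cont
      repr := fun t ht f hf x => hK.repr hT ht hf x
      symm := fun t ht x y v w => hK.symm hT ht x y v w
      comp := fun s t hs ht x z v => hK.comp hT hs ht x z v
      smoothing := fun t ht f hf => hK.smoothing ht hf
      l1 := hK.l1
      compare := fun T0 hT0 => hK.compare h3 hT hT0
      diag := hK.diag }⟩

end NRF

end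
end

section

/-!
# Basic lemmas for module K
-/

open scoped Manifold ContDiff Topology
open MeasureTheory Set

noncomputable section

namespace NRF

theorem etaC_one {x : E4} (hx : ‖x‖ ≤ 3 / 2) : etaC x = 1 := by
  refine etaBump.one_of_mem_closedBall ?_
  simpa [Metric.mem_closedBall, dist_zero_right, etaBump] using hx

theorem etaC_smooth : ContDiff ℝ ∞ etaC := etaBump.contDiff

theorem etaC_continuous : Continuous etaC := etaC_smooth.continuous

theorem etaC_ev {x : E4} (hx : ‖x‖ < 3 / 2) : ∀ᶠ z in 𝓝 x, etaC z = 1 := by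
  have : ∀ᶠ z : E4 in 𝓝 x, ‖z‖ < 3 / 2 := continuous_norm.continuousAt.eventually_lt_const hx
  filter_upwards [this] with z hz using etaC_one hz.le

theorem norm_bv (i : Fin 4) : ‖bv i‖ = 1 := by simp [bv]

section pdlemmas

variable {W : Type} [NormedAddCommGroup W] [NormedSpace ℝ W]

theorem pd_congr {u v : E4 → W} {x : E4}
    (h : u =ᶠ[𝓝 x] v) (i : Fin 4) : pd i u x = pd i v x := by
  unfold pd; rw [h.fderiv_eq]

theorem pd_congr_ev {u v : E4 → W} {x : E4}
    (h : u =ᶠ[𝓝 x] v) (i : Fin 4) : pd i u =ᶠ[𝓝 x] pd i v := by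
  filter_upwards [h.eventuallyEq_nhds] with z hz using pd_congr hz i

theorem norm_pd_le (w : E4 → W) (x : E4) (i : Fin 4) :
    ‖pd i w x‖ ≤ ‖iteratedFDeriv ℝ 1 w x‖ := by
  rw [norm_iteratedFDeriv_one]
  unfold pd
  refine ((fderiv ℝ w x).le_opNorm _).trans ?_
  rw [norm_bv, mul_one]

theorem pd_pd_eq {w : E4 → W} {x : E4} (hw : ContDiffAt ℝ 2 w x) (i j : Fin 4) :
    pd i (pd j w) x = iteratedFDeriv ℝ 2 w x ![bv i, bv j] := by
  rw [iteratedFDeriv_two_apply]
  unfold pd
  have h1 : DifferentiableAt ℝ (fderiv ℝ w) x :=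
    (hw.fderiv_right (m := 1) (by norm_num)).differentiableAt (by norm_num)
  have h2 : HasFDerivAt (fun y => fderiv ℝ w y (bv j))
      ((ContinuousLinearMap.apply ℝ W (bv j)).comp (fderiv ℝ (fderiv ℝ w) x)) x :=
    (ContinuousLinearMap.apply ℝ W (bv j)).hasFDerivAt.comp x h1.hasFDerivAt
  rw [h2.fderiv]
  simp

theorem norm_pd_pd_le {w : E4 → W} {x : E4} (hw : ContDiffAt ℝ 2 w x) (i j : Fin 4) :
    ‖pd i (pd j w) x‖ ≤ ‖iteratedFDeriv ℝ 2 w x‖ := by
  rw [pd_pd_eq hw]
  refine (ContinuousMultilinearMap.le_opNorm _ _).trans ?_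
  simp [Fin.prod_univ_two, norm_bv]

end pdlemmas

section

variable {X : Type} [TopologicalSpace X] {V : Type} [NormedAddCommGroup V] [InnerProductSpace ℝ V]

section op

theorem Model.op_congr (m : Model V) (t : ℝ) {u v : E4 → V} {x : E4}
    (h : u =ᶠ[𝓝 x] v) : m.op t u x = m.op t v x := by
  unfold Model.op
  have h2 : ∀ i j, pd i (pd j u) x = pd i (pd j v) x := fun i j =>
    pd_congr (pd_congr_ev h j) i
  simp only [h2, pd_congr h, h.eq_of_nhds]

/-- The operator of a model is bounded on `C²` functions, locally uniformly in time. -/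
theorem Model.op_bound (m : Model V) (T : ℝ) : ∃ B : ℝ, 0 ≤ B ∧ ∀ t ∈ Icc 0 T, ∀ (x : E4),
    ∀ (C : ℝ) (w : E4 → V), ContDiffAt ℝ 2 w x → (∀ j ≤ 2, ‖iteratedFDeriv ℝ j w x‖ ≤ C) →
      ‖m.op t w x‖ ≤ B * C := by
  let S : ℝ × E4 → ℝ := fun q =>
    (∑ i, ∑ j, ‖m.a q i j‖) + (∑ i, ‖m.b q i‖) + ‖m.c q‖
  have hS : Continuous S := by
    have h1 : ∀ i j, Continuous fun q => m.a q i j := fun i j => (m.a_smooth i j).continuous
    have h2 : ∀ i, Continuous fun q => m.b q i := fun i => (m.b_smooth i).continuous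
    have h3 : Continuous m.c := m.c_smooth.continuous
    fun_prop
  have hK : IsCompact (Icc (0 : ℝ) T ×ˢ Metric.closedBall (0 : E4) 3) :=
    isCompact_Icc.prod (isCompact_closedBall _ _)
  obtain ⟨B0, hB0⟩ := hK.exists_bound_of_continuousOn hS.continuousOn
  let B1 : ℝ := max B0 (∑ i : Fin 4, ∑ j : Fin 4, ‖(1 : Matrix (Fin 4) (Fin 4) ℝ) i j‖)
  have hB1 : 0 ≤ B1 := le_max_of_le_right (by positivity)
  have hSB : ∀ t ∈ Icc 0 T, ∀ x : E4, S (t, x) ≤ B1 := by
    intro t ht x
    rcases le_total ‖x‖ 3 with hx | hx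
    · refine le_trans ?_ (le_max_left _ _)
      refine (le_abs_self _).trans (hB0 (t, x) ⟨ht, ?_⟩)
      simpa using hx
    · refine le_trans (le_of_eq ?_) (le_max_right _ _)
      show (∑ i, ∑ j, ‖m.a (t, x) i j‖) + (∑ i, ‖m.b (t, x) i‖) + ‖m.c (t, x)‖ = _
      rw [m.a_out (t, x) hx, m.c_out (t, x) hx]
      simp [m.b_out (t, x) hx]
  refine ⟨B1, hB1, fun t ht x C w hw hC => ?_⟩
  have hC0 : 0 ≤ C := (norm_nonneg _).trans (hC 0 (by norm_num))
  unfold Model.op
  have e1 : ‖∑ i, ∑ j, m.a (t, x) i j • pd i (pd j w) x‖ ≤ (∑ i, ∑ j, ‖m.a (t, x) i j‖) * C := by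
    refine (norm_sum_le _ _).trans ?_
    rw [Finset.sum_mul]
    refine Finset.sum_le_sum fun i _ => (norm_sum_le _ _).trans ?_
    rw [Finset.sum_mul]
    refine Finset.sum_le_sum fun j _ => ?_
    rw [norm_smul]
    exact mul_le_mul_of_nonneg_left ((norm_pd_pd_le hw i j).trans (hC 2 le_rfl)) (norm_nonneg _)
  have e2 : ‖∑ i, m.b (t, x) i (pd i w x)‖ ≤ (∑ i, ‖m.b (t, x) i‖) * C := by
    refine (norm_sum_le _ _).trans ?_
    rw [Finset.sum_mul]
    refine Finset.sum_le_sum fun i _ => ((m.b (t, x) i).le_opNorm _).trans ?_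
    exact mul_le_mul_of_nonneg_left ((norm_pd_le w x i).trans (hC 1 (by norm_num))) (norm_nonneg _)
  have e3 : ‖m.c (t, x) (w x)‖ ≤ ‖m.c (t, x)‖ * C := by
    refine ((m.c (t, x)).le_opNorm _).trans ?_
    refine mul_le_mul_of_nonneg_left ?_ (norm_nonneg _)
    have := hC 0 (by norm_num)
    rwa [norm_iteratedFDeriv_zero] at this
  calc ‖-(∑ i, ∑ j, m.a (t, x) i j • pd i (pd j w) x) + (∑ i, m.b (t, x) i (pd i w x)) +
        m.c (t, x) (w x)‖
      ≤ ‖∑ i, ∑ j, m.a (t, x) i j • pd i (pd j w) x‖ + ‖∑ i, m.b (t, x) i (pd i w x)‖ +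
        ‖m.c (t, x) (w x)‖ := by
        refine (norm_add_le _ _).trans (add_le_add_left ((norm_add_le _ _).trans ?_) _)
        rw [norm_neg]
    _ ≤ S (t, x) * C := by
        show _ ≤ ((∑ i, ∑ j, ‖m.a (t, x) i j‖) + (∑ i, ‖m.b (t, x) i‖) + ‖m.c (t, x)‖) * C
        linarith [e1, e2, e3]
    _ ≤ B1 * C := mul_le_mul_of_nonneg_right (hSB t ht x) hC0

end op

variable (g : Geom X V)

theorem Geom.ch_source (y : X) : y ∈ (g.psi (g.ch y)).source := (g.exists_chart y).choose_spec.1

theorem Geom.ch_norm (y : X) : ‖g.psi (g.ch y) y‖ < 1 := (g.exists_chart y).choose_spec.2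

theorem Geom.source_ev {i : g.I} {y : X} (hy : y ∈ (g.psi i).source) (hn : ‖g.psi i y‖ < 3 / 2) :
    ∀ᶠ y' in 𝓝 y, y' ∈ (g.psi i).source ∧ ‖g.psi i y'‖ < 3 / 2 := by
  have h1 : ∀ᶠ y' in 𝓝 y, y' ∈ (g.psi i).source := (g.psi i).open_source.mem_nhds hy
  have h2 : ContinuousAt (g.psi i) y := (g.psi i).continuousAt hy
  have h3 : ∀ᶠ y' in 𝓝 y, ‖g.psi i y'‖ < 3 / 2 := h2.norm.eventually_lt_const hn
  exact h1.and h3

/-- In the compact case there are only finitely many charts. -/
theorem Geom.finite_I [CompactSpace X] : Finite g.I := by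
  have h := g.locfin
  have h2 : (Set.univ : Set g.I).Finite := by
    refine (h.finite_nonempty_of_compact).subset fun i _ => ?_
    refine ⟨(g.psi i).symm 0, 0, ?_, rfl⟩
    simp
  exact Set.finite_univ_iff.mp h2

variable {g}

theorem Geom.Nice.contOn {k : ℕ} {T C : ℝ} {u : ℝ → X → V} (h : g.Nice k T C u) :
    ContinuousOn (fun p : ℝ × X => u p.1 p.2) (Icc 0 T ×ˢ univ) := by
  rintro ⟨t, y⟩ ⟨ht, -⟩
  set i := g.ch y with hi
  have hs := g.ch_source y
  have hn := g.ch_norm y
  have hn' : ‖g.psi i y‖ < 3 / 2 := by rw [hi]; linarith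
  have h0 := (h i).2.1 0 (Nat.zero_le _)
  have h1 : ContinuousOn (fun p : ℝ × E4 => etaC p.2 • u p.1 ((g.psi i).symm p.2))
      (Icc 0 T ×ˢ univ) := by
    have h2 := (continuousMultilinearCurryFin0 ℝ E4 V).continuous.comp_continuousOn h0
    refine h2.congr fun p _ => ?_
    simp [iteratedFDeriv_zero_eq_comp]
  have h3 : ContinuousWithinAt (fun p : ℝ × X => (p.1, g.psi i p.2)) (Icc 0 T ×ˢ univ) (t, y) := by
    refine ContinuousAt.continuousWithinAt ?_
    exact continuousAt_fst.prodMk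
      (ContinuousAt.comp (x := (t, y)) (g := g.psi i) (f := Prod.snd)
        ((g.psi i).continuousAt hs) continuousAt_snd)
  have h4 : ContinuousWithinAt
      (fun p : ℝ × X => etaC (g.psi i p.2) • u p.1 ((g.psi i).symm (g.psi i p.2)))
      (Icc 0 T ×ˢ univ) (t, y) := by
    have := (h1 (t, g.psi i y) ⟨ht, mem_univ _⟩).comp (f := fun p : ℝ × X => (p.1, g.psi i p.2))
      (s := Icc 0 T ×ˢ univ) (x := (t, y)) h3 (fun p hp => ⟨hp.1, mem_univ _⟩)
    exact this
  refine h4.congr_of_eventuallyEq ?_ ?_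
  · have h5 := g.source_ev hs (by rwa [← hi])
    have h6 : ∀ᶠ p : ℝ × X in 𝓝 (t, y), p.2 ∈ (g.psi i).source ∧ ‖g.psi i p.2‖ < 3 / 2 :=
      (continuousAt_snd (p := (t, y))).tendsto.eventually h5
    refine (h6.filter_mono nhdsWithin_le_nhds).mono fun p hp => ?_
    show u p.1 p.2 = etaC (g.psi i p.2) • u p.1 ((g.psi i).symm (g.psi i p.2))
    rw [etaC_one hp.2.le, one_smul, (g.psi i).left_inv hp.1]
  · show u t y = etaC (g.psi i y) • u t ((g.psi i).symm (g.psi i y))
    rw [etaC_one hn'.le, one_smul, (g.psi i).left_inv hs]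

theorem Geom.Nice.bound {k : ℕ} {T C : ℝ} {u : ℝ → X → V} (h : g.Nice k T C u) {t : ℝ}
    (ht : t ∈ Icc 0 T) (y : X) : ‖u t y‖ ≤ C := by
  have h0 := (h (g.ch y)).2.2 0 (Nat.zero_le _) t ht (g.psi (g.ch y) y)
  rw [norm_iteratedFDeriv_zero] at h0
  beta_reduce at h0
  rwa [etaC_one (by linarith [g.ch_norm y]), one_smul, (g.psi _).left_inv (g.ch_source y)] at h0

theorem Geom.Nice.cont {k : ℕ} {T C : ℝ} {u : ℝ → X → V} (h : g.Nice k T C u) {t : ℝ}
    (ht : t ∈ Icc 0 T) : Continuous (u t) := by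
  have h1 := h.contOn
  have h2 : ContinuousOn (fun y : X => u t y) univ :=
    h1.comp (f := fun y : X => (t, y)) (by fun_prop) (fun y _ => ⟨ht, mem_univ _⟩)
  exact continuousOn_univ.mp h2

theorem Geom.Nice.c2 {T C : ℝ} {u : ℝ → X → V} (h : g.Nice 2 T C u) {t : ℝ}
    (ht : t ∈ Icc 0 T) : g.C2 (u t) := fun i => (h i).1 t ht

theorem Geom.Nice.nonneg {k : ℕ} {T C : ℝ} {u : ℝ → X → V} (h : g.Nice k T C u) {t : ℝ}
    (ht : t ∈ Icc 0 T) (y : X) : 0 ≤ C := (norm_nonneg _).trans (h.bound ht y)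

theorem Geom.Nice.mono {k l : ℕ} {T T' C C' : ℝ} {u : ℝ → X → V} (h : g.Nice k T C u)
    (hl : l ≤ k) (hT : T' ≤ T) (hC : C ≤ C') : g.Nice l T' C' u := by
  intro i
  obtain ⟨h1, h2, h3⟩ := h i
  have hsub : Icc 0 T' ⊆ Icc 0 T := Icc_subset_Icc_right hT
  exact ⟨fun t ht => (h1 t (hsub ht)).of_le (by exact_mod_cast hl),
    fun j hj => (h2 j (hj.trans hl)).mono (prod_mono hsub le_rfl),
    fun j hj t ht x => (h3 j (hj.trans hl) t (hsub ht) x).trans hC⟩

theorem Geom.Smooth.c2 {f : X → V} (h : g.Smooth f) : g.C2 f := fun i =>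
  (h i).of_le (by norm_cast)

theorem Geom.C2.continuous {f : X → V} (h : g.C2 f) : Continuous f := by
  rw [continuous_iff_continuousAt]
  intro y
  set i := g.ch y with hi
  have hs := g.ch_source y
  have hn := g.ch_norm y
  have h1 : ContinuousAt (fun y' => etaC (g.psi i y') • f ((g.psi i).symm (g.psi i y'))) y :=
    ContinuousAt.comp (x := y) (f := g.psi i) (g := fun x => etaC x • f ((g.psi i).symm x))
      (h i).continuous.continuousAt ((g.psi i).continuousAt hs)
  refine h1.congr ?_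
  have h5 := g.source_ev hs (by linarith)
  filter_upwards [h5] with y' hy'
  rw [etaC_one hy'.2.le, one_smul, (g.psi i).left_inv hy'.1]

theorem Geom.Smooth.continuous {f : X → V} (h : g.Smooth f) : Continuous f := h.c2.continuous

variable (g) in
/-- The operator of the geometry is bounded on `C²` functions. -/
theorem Geom.L_bound [FiniteDimensional ℝ V] (T : ℝ) : ∃ B : ℝ, 0 ≤ B ∧ ∀ t ∈ Icc 0 T,
    ∀ (C : ℝ) (f : X → V), g.C2 f →
      (∀ i, ∀ j ≤ 2, ∀ x, ‖iteratedFDeriv ℝ j (fun x => etaC x • f ((g.psi i).symm x)) x‖ ≤ C) →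
      ∀ y, ‖g.L t f y‖ ≤ B * C := by
  have := g.finJ
  choose B hB0 hB using fun j : g.J => (g.model j).op_bound T
  obtain ⟨M, hM⟩ := (Set.finite_range B).bddAbove
  refine ⟨max M 0, le_max_right _ _, fun t ht C f hf hC y => ?_⟩
  set i := g.ch y with hi
  have hn : ‖g.psi i y‖ < 3 / 2 := by have := g.ch_norm y; rw [hi]; linarith
  have hC0 : 0 ≤ C := (norm_nonneg _).trans (hC i 0 (by norm_num) 0)
  have h1 : g.L t f y = (g.mdl i).op t (fun x => etaC x • f ((g.psi i).symm x)) (g.psi i y) := by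
    unfold Geom.L
    refine Model.op_congr _ _ ?_
    filter_upwards [etaC_ev hn] with z hz
    rw [hz, one_smul]
  rw [h1]
  refine (hB (g.mod i) t ht (g.psi i y) C _ (hf i).contDiffAt (fun j hj => hC i j hj _)).trans ?_
  refine mul_le_mul_of_nonneg_right (le_trans (hM ⟨_, rfl⟩) (le_max_left _ _)) hC0

end

end NRF

end
end

section

/-!
# Module K with the diagonal coefficients (statements)
-/

open scoped Manifold ContDiff Topology
open MeasureTheory Set

noncomputable section

namespace NRF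

open scoped RealInnerProductSpace

variable {X : Type} [TopologicalSpace X] [MeasurableSpace X] {V : Type}
  [NormedAddCommGroup V] [InnerProductSpace ℝ V] [FiniteDimensional ℝ V]

/-- The coefficients `c` of the expansion on the diagonal are those of formal solutions `P`, at the
points where a single chart contributes. -/
structure HeatData.IsDiag (D : HeatData X V) (c : ℕ → X → V →L[ℝ] V)
    (P : D.g.I → ℕ → ℝ → E4 → E4 → (V →L[ℝ] V)) : Prop where
  cont : ∀ w, Continuous (c w)
  formal : ∀ i, (D.g.mdl i).IsFormal (P i)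
  eq : ∀ i, ∀ y ∈ (D.g.psi i).source, (D.g.mdl i).chi (D.g.psi i y) = 1 → ∀ w < 5,
    c w y = (gaussK ((D.g.mdl i).a (0, D.g.psi i y)) 0 / D.dens i (D.g.psi i y)) •
      P i w 0 (D.g.psi i y) 0

/-- K2 with the coefficients. -/
def claimPoleP : Prop :=
  ∀ (X : Type) [TopologicalSpace X] [CompactSpace X] [T2Space X] [MeasurableSpace X] [BorelSpace X]
    (V : Type) [NormedAddCommGroup V] [InnerProductSpace ℝ V] [FiniteDimensional ℝ V]
    (D : HeatData X V) (k : ℕ) (T0 : ℝ), 0 < T0 →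
    ∃ (h e : X → V → ℝ → X → V) (C : ℝ),
      (∀ y v, D.IsApprox T0 y v (h y v) (e y v)) ∧
      (∀ y v w t x, h y (v + w) t x = h y v t x + h y w t x) ∧
      (∀ y (c : ℝ) v t x, h y (c • v) t x = c • h y v t x) ∧
      (∀ y v, D.g.Nice k T0 (C * ‖v‖) (e y v)) ∧
      (∀ y v, ∀ t ∈ Icc 0 T0, ∀ x, ‖e y v t x‖ ≤ C * ‖v‖ * t ^ 2) ∧
      (∀ v, ContinuousOn (fun p : ℝ × X × X => h p.2.2 v p.1 p.2.1) (Ioi 0 ×ˢ univ)) ∧
      (∀ v y, ∀ ε > 0, ∀ᶠ y' in 𝓝 y, D.g.Nice k T0 ε fun t x => e y' v t x - e y v t x) ∧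
      (∀ y v, ∀ t ∈ Ioc 0 T0, ∫ x, ‖h y v t x‖ ∂D.mu ≤ C * ‖v‖) ∧
      (∀ δ > 0, ∃ C', ∀ y v, D.g.Nice k (T0 - δ) (C' * ‖v‖) fun t => h y v (t + δ)) ∧
      ∃ (c : ℕ → X → V →L[ℝ] V) (P : D.g.I → ℕ → ℝ → E4 → E4 → (V →L[ℝ] V)), D.IsDiag c P ∧
        ∀ t ∈ Ioc (0 : ℝ) T0, ∀ y v,
          ‖t ^ 2 • h y v t y - ∑ w ∈ Finset.range 5, Real.sqrt t ^ w • c w y v‖ ≤
            C * ‖v‖ * Real.sqrt t ^ 5

/-- K2' with the coefficients. -/
def claimPole0P : Prop :=
  ∀ (X : Type) [TopologicalSpace X] [CompactSpace X] [T2Space X] [MeasurableSpace X] [BorelSpace X]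
    (V : Type) [NormedAddCommGroup V] [InnerProductSpace ℝ V] [FiniteDimensional ℝ V]
    (D : HeatData X V) (k : ℕ) (T0 : ℝ), 2 ≤ k → 0 < T0 →
    ∃ (h : X → V → ℝ → X → V) (C : ℝ),
      (∀ y v, D.IsApprox T0 y v (h y v) (fun _ _ => 0)) ∧
      (∀ y v w, ∀ t ∈ Ioc 0 T0, ∀ x, h y (v + w) t x = h y v t x + h y w t x) ∧
      (∀ y (c : ℝ) v, ∀ t ∈ Ioc 0 T0, ∀ x, h y (c • v) t x = c • h y v t x) ∧
      (∀ v, ContinuousOn (fun p : ℝ × X × X => h p.2.2 v p.1 p.2.1) (Ioc 0 T0 ×ˢ univ)) ∧
      (∀ y v, ∀ t ∈ Ioc 0 T0, ∫ x, ‖h y v t x‖ ∂D.mu ≤ C * ‖v‖) ∧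
      (∀ δ > 0, ∃ C', ∀ y v, D.g.Nice k (T0 - δ) (C' * ‖v‖) fun t => h y v (t + δ)) ∧
      ∃ (c : ℕ → X → V →L[ℝ] V) (P : D.g.I → ℕ → ℝ → E4 → E4 → (V →L[ℝ] V)), D.IsDiag c P ∧
        ∀ t ∈ Ioc (0 : ℝ) T0, ∀ y v,
          ‖t ^ 2 • h y v t y - ∑ w ∈ Finset.range 5, Real.sqrt t ^ w • c w y v‖ ≤
            C * ‖v‖ * Real.sqrt t ^ 5

/-- K4 with the coefficients. -/
def claimKernelP : Prop :=
  ∀ (X : Type) [TopologicalSpace X] [CompactSpace X] [T2Space X] [MeasurableSpace X] [BorelSpace X]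
    (V : Type) [NormedAddCommGroup V] [InnerProductSpace ℝ V] [FiniteDimensional ℝ V]
    (D : HeatData X V), ∃ (T : ℝ → (X → V) → X → V) (K : ℝ → X → X → V →L[ℝ] V),
      D.IsSemigroup T ∧ D.IsKernel T K ∧
      ∃ (c : ℕ → X → V →L[ℝ] V) (P : D.g.I → ℕ → ℝ → E4 → E4 → (V →L[ℝ] V)) (C : ℝ),
        D.IsDiag c P ∧ ∀ t ∈ Ioc (0 : ℝ) 1, ∀ y,
          ‖t ^ 2 • K t y y - ∑ w ∈ Finset.range 5, Real.sqrt t ^ w • c w y‖ ≤ C * Real.sqrt t ^ 5

end NRF

end
end

section

/-!
# Measures given by densities in charts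
-/

open scoped Manifold ContDiff Topology ENNReal
open MeasureTheory Set

noncomputable section

namespace NRF

section chartMeasure

variable {X : Type} [TopologicalSpace X] [MeasurableSpace X] [BorelSpace X]

/-- The measure with density `d` in the chart `ψ`. -/
def cm (ψ : OpenPartialHomeomorph X E4) (d : E4 → ℝ≥0∞) : Measure X :=
  Measure.map ψ.symm ((volume.restrict ψ.target).withDensity d)

theorem Vol_aemeas (ψ : OpenPartialHomeomorph X E4) (d : E4 → ℝ≥0∞) :
    AEMeasurable ψ.symm ((volume.restrict ψ.target).withDensity d) :=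
  (ψ.continuousOn_symm.aemeasurable ψ.open_target.measurableSet).mono_ac
    (withDensity_absolutelyContinuous _ _)

theorem Vol_cm_apply (ψ : OpenPartialHomeomorph X E4) (d : E4 → ℝ≥0∞) {B : Set X}
    (hB : MeasurableSet B) : cm ψ d B = ∫⁻ y in ψ.target ∩ ψ.symm ⁻¹' B, d y := by
  unfold cm
  rw [Measure.map_apply_of_aemeasurable (Vol_aemeas ψ d) hB,
    ← restrict_withDensity ψ.open_target.measurableSet,
    Measure.restrict_apply' ψ.open_target.measurableSet, withDensity_apply', inter_comm]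

theorem Vol_cm_inter (ψ : OpenPartialHomeomorph X E4) (d : E4 → ℝ≥0∞) {B : Set X}
    (hB : MeasurableSet B) : cm ψ d B = cm ψ d (B ∩ ψ.source) := by
  rw [Vol_cm_apply ψ d hB, Vol_cm_apply ψ d (hB.inter ψ.open_source.measurableSet)]
  congr 2
  ext y
  constructor
  · rintro ⟨h1, h2⟩
    exact ⟨h1, h2, ψ.map_target h1⟩
  · rintro ⟨h1, h2, _⟩
    exact ⟨h1, h2⟩

theorem Vol_meas_pre (ψ : OpenPartialHomeomorph X E4) {B : Set X} (hB : MeasurableSet B) :
    MeasurableSet (ψ.target ∩ ψ.symm ⁻¹' B) := by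
  have h1 : Measurable (ψ.target.domRestrict ψ.symm) :=
    (continuousOn_iff_continuous_domRestrict.1 ψ.continuousOn_symm).measurable
  have h2 := MeasurableSet.subtype_image ψ.open_target.measurableSet (h1 hB)
  convert h2 using 1
  ext y
  constructor
  · rintro ⟨h3, h4⟩
    exact ⟨⟨y, h3⟩, h4, rfl⟩
  · rintro ⟨⟨z, hz⟩, h4, rfl⟩
    exact ⟨hz, h4⟩

/-- Change of variables. -/
theorem Vol_cm_compat (ψ ψ' : OpenPartialHomeomorph X E4) (d d' : E4 → ℝ≥0∞)
    (hdiff : ∀ y ∈ (ψ.symm.trans ψ').source, DifferentiableAt ℝ (ψ.symm.trans ψ') y)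
    (hlaw : ∀ y ∈ (ψ.symm.trans ψ').source,
      d y = ENNReal.ofReal |(fderiv ℝ (ψ.symm.trans ψ') y).det| * d' ((ψ.symm.trans ψ') y))
    {B : Set X} (hB : MeasurableSet B) (h1 : B ⊆ ψ.source) (h2 : B ⊆ ψ'.source) :
    cm ψ d B = cm ψ' d' B := by
  rw [Vol_cm_apply ψ d hB, Vol_cm_apply ψ' d' hB]
  have hS := Vol_meas_pre ψ hB
  have hsub : ψ.target ∩ ψ.symm ⁻¹' B ⊆ (ψ.symm.trans ψ').source := by
    rintro y ⟨hy1, hy2⟩
    rw [OpenPartialHomeomorph.trans_source]
    exact ⟨hy1, h2 hy2⟩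
  have himg : (ψ.symm.trans ψ') '' (ψ.target ∩ ψ.symm ⁻¹' B) = ψ'.target ∩ ψ'.symm ⁻¹' B := by
    ext z
    constructor
    · rintro ⟨y, ⟨hy1, hy2⟩, rfl⟩
      have h3 : ψ.symm y ∈ ψ'.source := h2 hy2
      refine ⟨ψ'.map_source h3, ?_⟩
      show ψ'.symm (ψ' (ψ.symm y)) ∈ B
      rw [ψ'.left_inv h3]
      exact hy2
    · rintro ⟨hz1, hz2⟩
      have h3 : ψ'.symm z ∈ ψ.source := h1 hz2
      refine ⟨ψ (ψ'.symm z), ⟨ψ.map_source h3, ?_⟩, ?_⟩
      · show ψ.symm (ψ (ψ'.symm z)) ∈ B
        rw [ψ.left_inv h3]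
        exact hz2
      · show ψ' (ψ.symm (ψ (ψ'.symm z))) = z
        rw [ψ.left_inv h3, ψ'.right_inv hz1]
  rw [← himg, lintegral_image_eq_lintegral_abs_det_fderiv_mul volume hS
    (fun y hy => (hdiff y (hsub hy)).hasFDerivAt.hasFDerivWithinAt)
    ((ψ.symm.trans ψ').injOn.mono hsub)]
  exact setLIntegral_congr_fun hS fun y hy => hlaw y (hsub hy)

omit [TopologicalSpace X] [BorelSpace X] in
theorem Vol_sum_pieces {n : ℕ} {A : Fin n → Set X} (hA : ∀ i, MeasurableSet (A i))
    (hdisj : Pairwise (Function.onFun Disjoint A)) (hU : ⋃ i, A i = univ) (μ : Measure X)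
    {B : Set X} (hB : MeasurableSet B) : μ B = ∑ i, μ (B ∩ A i) := by
  conv_lhs => rw [← inter_univ B, ← hU, inter_iUnion]
  rw [measure_iUnion, tsum_fintype]
  · intro i j hij
    exact (hdisj hij).mono inter_subset_right inter_subset_right
  · exact fun i => hB.inter (hA i)

variable [ChartedSpace E4 X]

theorem Vol_cover [CompactSpace X] : ∃ (n : ℕ) (c : Fin n → Ch X) (A : Fin n → Set X),
    (∀ i, MeasurableSet (A i)) ∧ Pairwise (Function.onFun Disjoint A) ∧ ⋃ i, A i = univ ∧
    ∀ i, A i ⊆ (c i).1.source := by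
  obtain ⟨t, ht⟩ := isCompact_univ.elim_finite_subcover (fun x : X => (chartAt E4 x).source)
    (fun x => (chartAt E4 x).open_source)
    (fun x _ => mem_iUnion.2 ⟨x, mem_chart_source E4 x⟩)
  set c : Fin t.card → Ch X := fun i => chAt (t.equivFin.symm i).1 with hc
  refine ⟨t.card, c, fun i => (c i).1.source \ ⋃ j : Fin t.card, ⋃ (_ : j < i), (c j).1.source,
    fun i => ?_, ?_, ?_, fun i => sdiff_subset⟩
  · exact (c i).1.open_source.measurableSet.diff
      (MeasurableSet.iUnion fun j => MeasurableSet.iUnion fun _ => (c j).1.open_source.measurableSet)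
  · intro i j hij
    rw [Function.onFun, Set.disjoint_left]
    intro x hx hx'
    rcases lt_or_gt_of_ne hij with h | h
    · exact hx'.2 (mem_iUnion.2 ⟨i, mem_iUnion.2 ⟨h, hx.1⟩⟩)
    · exact hx.2 (mem_iUnion.2 ⟨j, mem_iUnion.2 ⟨h, hx'.1⟩⟩)
  · rw [eq_univ_iff_forall]
    intro x
    have h1 : ∃ i : Fin t.card, x ∈ (c i).1.source := by
      have := ht (mem_univ x)
      simp only [mem_iUnion] at this
      obtain ⟨z, hz, hxz⟩ := this
      refine ⟨t.equivFin ⟨z, hz⟩, ?_⟩
      simp only [hc, Equiv.symm_apply_apply]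
      exact hxz
    classical
    have h2 : (Finset.univ.filter fun i : Fin t.card => x ∈ (c i).1.source).Nonempty := by
      obtain ⟨i, hi⟩ := h1
      exact ⟨i, by simpa using hi⟩
    set i := (Finset.univ.filter fun i : Fin t.card => x ∈ (c i).1.source).min' h2 with hi0
    have hi : x ∈ (c i).1.source := by
      have := Finset.min'_mem _ h2
      rw [← hi0] at this
      simpa using this
    have hmin : ∀ j : Fin t.card, j < i → x ∉ (c j).1.source := by
      intro j hj hx
      have := Finset.min'_le _ j (show j ∈ (Finset.univ.filter fun i : Fin t.card =>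
        x ∈ (c i).1.source) by simpa using hx)
      rw [← hi0] at this
      exact absurd hj (not_lt.2 this)
    refine mem_iUnion.2 ⟨i, hi, ?_⟩
    simp only [mem_iUnion, not_exists]
    exact fun j hj => hmin j hj

/-- The supremum of a compatible family of chart measures, restricted to a chart. -/
theorem Vol_glue [CompactSpace X] (d : Ch X → E4 → ℝ≥0∞)
    (hcomp : ∀ e e' : Ch X, ∀ B : Set X, MeasurableSet B → B ⊆ e.1.source → B ⊆ e'.1.source →
      cm e.1 (d e) B = cm e'.1 (d e') B)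
    (ψ : OpenPartialHomeomorph X E4) (dψ : E4 → ℝ≥0∞)
    (hψ : ∀ e : Ch X, ∀ B : Set X, MeasurableSet B → B ⊆ ψ.source → B ⊆ e.1.source →
      cm ψ dψ B = cm e.1 (d e) B) :
    (⨆ e : Ch X, cm e.1 (d e)).restrict ψ.source = cm ψ dψ := by
  obtain ⟨n, c, A, hA, hdisj, hU, hAc⟩ := Vol_cover (X := X)
  set M : Measure X := ∑ i, (cm (c i).1 (d (c i))).restrict (A i) with hM
  have hMB : ∀ B : Set X, MeasurableSet B → M B = ∑ i, cm (c i).1 (d (c i)) (B ∩ A i) := by
    intro B hB
    rw [hM, Measure.coe_finsetSum, Finset.sum_apply]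
    exact Finset.sum_congr rfl fun i _ => Measure.restrict_apply hB
  have hle : ∀ e : Ch X, cm e.1 (d e) ≤ M := by
    intro e
    rw [Measure.le_iff]
    intro B hB
    rw [hMB B hB, Vol_sum_pieces hA hdisj hU _ hB]
    refine Finset.sum_le_sum fun i _ => ?_
    rw [Vol_cm_inter _ _ (hB.inter (hA i)), hcomp e (c i) _
      ((hB.inter (hA i)).inter e.1.open_source.measurableSet) inter_subset_right
      ((inter_subset_left.trans inter_subset_right).trans (hAc i))]
    exact measure_mono inter_subset_left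
  have hsup : (⨆ e : Ch X, cm e.1 (d e)) = M := by
    refine le_antisymm (iSup_le hle) ?_
    rw [Measure.le_iff]
    intro B hB
    rw [hMB B hB, Vol_sum_pieces hA hdisj hU _ hB]
    exact Finset.sum_le_sum fun i _ => (le_iSup (fun e : Ch X => cm e.1 (d e)) (c i)) _
  rw [hsup]
  ext B hB
  rw [Measure.restrict_apply hB, Vol_cm_inter ψ dψ hB,
    hMB _ (hB.inter ψ.open_source.measurableSet),
    Vol_sum_pieces hA hdisj hU _ (hB.inter ψ.open_source.measurableSet)]
  refine Finset.sum_congr rfl fun i _ => ?_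
  exact (hψ (c i) _ ((hB.inter ψ.open_source.measurableSet).inter (hA i))
    (inter_subset_left.trans inter_subset_right) (inter_subset_right.trans (hAc i))).symm

end chartMeasure

section dens

variable {X : Type} [TopologicalSpace X] [MeasurableSpace X] [BorelSpace X] [ChartedSpace E4 X]

omit [MeasurableSpace X] [BorelSpace X] in
theorem Vol_smooth [IsManifold (𝓡 4) ∞ X] {ψ ψ' : OpenPartialHomeomorph X E4}
    (hψ : ψ ∈ IsManifold.maximalAtlas (𝓡 4) ∞ X) (hψ' : ψ' ∈ IsManifold.maximalAtlas (𝓡 4) ∞ X) :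
    ContDiffOn ℝ ∞ (ψ.symm.trans ψ') (ψ.symm.trans ψ').source :=
  contMDiffOn_iff_contDiffOn.1 (contMDiffOn_of_mem_contDiffGroupoid
    (StructureGroupoid.compatible_of_mem_maximalAtlas hψ hψ'))

/-- The transformation law of a (nonnegative) density. -/
def DensLaw (ψ ψ' : OpenPartialHomeomorph X E4) (D D' : E4 → ℝ) : Prop :=
  ∀ y ∈ (ψ.symm.trans ψ').source, ENNReal.ofReal (D y) =
    ENNReal.ofReal |(fderiv ℝ (ψ.symm.trans ψ') y).det| * ENNReal.ofReal (D' ((ψ.symm.trans ψ') y))

omit [BorelSpace X] in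
theorem Vol_densMeasure (D : Ch X → E4 → ℝ) :
    densMeasure D = ⨆ e : Ch X, cm e.1 (fun y => ENNReal.ofReal (D e y)) := rfl

/-- **General lemma**: `densMeasure D` restricted to a smooth chart. -/
theorem Vol_restrict [CompactSpace X] [IsManifold (𝓡 4) ∞ X] (D : Ch X → E4 → ℝ)
    (hD : ∀ e e' : Ch X, DensLaw e.1 e'.1 (D e) (D e'))
    (ψ : OpenPartialHomeomorph X E4) (hψ : ψ ∈ IsManifold.maximalAtlas (𝓡 4) ∞ X) (Dψ : E4 → ℝ)
    (hDψ : ∀ e : Ch X, DensLaw ψ e.1 Dψ (D e)) :
    (densMeasure D).restrict ψ.source = cm ψ (fun y => ENNReal.ofReal (Dψ y)) := by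
  have hdiff : ∀ φ ∈ IsManifold.maximalAtlas (𝓡 4) ∞ X, ∀ φ' ∈ IsManifold.maximalAtlas (𝓡 4) ∞ X,
      ∀ y ∈ (φ.symm.trans φ').source, DifferentiableAt ℝ (φ.symm.trans φ') y := by
    intro φ h φ' h' y hy
    exact ((Vol_smooth h h' y hy).contDiffAt
      ((φ.symm.trans φ').open_source.mem_nhds hy)).differentiableAt (by simp)
  have hmem : ∀ e : Ch X, e.1 ∈ IsManifold.maximalAtlas (𝓡 4) ∞ X := fun e =>
    IsManifold.subset_maximalAtlas e.2
  rw [Vol_densMeasure]
  refine Vol_glue _ ?_ ψ _ ?_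
  · intro e e' B hB h1 h2
    exact Vol_cm_compat e.1 e'.1 _ _ (hdiff _ (hmem e) _ (hmem e')) (fun y hy => hD e e' y hy)
      hB h1 h2
  · intro e B hB h1 h2
    exact Vol_cm_compat ψ e.1 _ _ (hdiff _ hψ _ (hmem e)) (fun y hy => hDψ e y hy) hB h1 h2

/-- Finiteness of `densMeasure D` for continuous `D` on compact manifolds. -/
theorem Vol_finite [CompactSpace X] [T2Space X] [IsManifold (𝓡 4) ∞ X] 
    (D : Ch X → E4 → ℝ) (hD : ∀ e e' : Ch X, DensLaw e.1 e'.1 (D e) (D e'))
    (hc : ∀ e : Ch X, ContinuousOn (D e) e.1.target) : IsFiniteMeasure (densMeasure D) := by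
  have hmem : ∀ e : Ch X, e.1 ∈ IsManifold.maximalAtlas (𝓡 4) ∞ X := fun e =>
    IsManifold.subset_maximalAtlas e.2
  have hloc : ∀ x : X, ∃ K ∈ 𝓝 x, densMeasure D K < ⊤ := by
    intro x
    obtain ⟨K, hK1, hK2, hK3⟩ := exists_compact_subset (chAt x).1.open_source
      (mem_chart_source E4 x)
    refine ⟨K, mem_interior_iff_mem_nhds.1 hK2, ?_⟩
    have h1 : densMeasure D K = (densMeasure D).restrict (chAt x).1.source K := by
      rw [Measure.restrict_apply hK1.measurableSet, inter_eq_left.2 hK3]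
    rw [h1, Vol_restrict D hD (chAt x).1 (hmem _) (D (chAt x)) (fun e => hD _ e),
      Vol_cm_apply _ _ hK1.measurableSet]
    have h2 : (chAt x).1.target ∩ (chAt x).1.symm ⁻¹' K = (chAt x).1 '' K := by
      ext y
      constructor
      · rintro ⟨hy1, hy2⟩
        exact ⟨_, hy2, (chAt x).1.right_inv hy1⟩
      · rintro ⟨z, hz, rfl⟩
        refine ⟨(chAt x).1.map_source (hK3 hz), ?_⟩
        show (chAt x).1.symm ((chAt x).1 z) ∈ K
        rwa [(chAt x).1.left_inv (hK3 hz)]
    have hKc : IsCompact ((chAt x).1 '' K) := hK1.image_of_continuousOn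
      ((chAt x).1.continuousOn.mono hK3)
    have hsub : (chAt x).1 '' K ⊆ (chAt x).1.target := by
      rintro y ⟨z, hz, rfl⟩
      exact (chAt x).1.map_source (hK3 hz)
    obtain ⟨C, hC⟩ := hKc.exists_bound_of_continuousOn ((hc (chAt x)).mono hsub)
    rw [h2]
    calc ∫⁻ y in (chAt x).1 '' K, ENNReal.ofReal (D (chAt x) y)
        ≤ ∫⁻ _ in (chAt x).1 '' K, ENNReal.ofReal C := by
          refine setLIntegral_mono' hKc.measurableSet fun y hy => ENNReal.ofReal_le_ofReal ?_
          exact (le_abs_self _).trans (hC y hy)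
      _ = ENNReal.ofReal C * volume ((chAt x).1 '' K) := setLIntegral_const _ _
      _ < ⊤ := ENNReal.mul_lt_top ENNReal.ofReal_lt_top hKc.measure_lt_top
  refine ⟨?_⟩
  choose K hK hKf using hloc
  obtain ⟨t, ht⟩ := isCompact_univ.elim_nhds_subcover K fun x _ => hK x
  calc densMeasure D univ ≤ densMeasure D (⋃ x ∈ t, K x) := measure_mono ht.2
    _ ≤ ∑ x ∈ t, densMeasure D (K x) := measure_biUnion_finset_le _ _
    _ < ⊤ := ENNReal.sum_lt_top.2 fun x _ => hKf x

/-- Positivity on nonempty open sets. -/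
theorem Vol_pos [CompactSpace X] [IsManifold (𝓡 4) ∞ X] 
    (D : Ch X → E4 → ℝ) (hD : ∀ e e' : Ch X, DensLaw e.1 e'.1 (D e) (D e'))
    (hc : ∀ e : Ch X, ContinuousOn (D e) e.1.target)
    (hpos : ∀ e : Ch X, ∀ y ∈ e.1.target, 0 < D e y) {V : Set X} (hV : IsOpen V)
    (hne : V.Nonempty) : 0 < densMeasure D V := by
  have hmem : ∀ e : Ch X, e.1 ∈ IsManifold.maximalAtlas (𝓡 4) ∞ X := fun e =>
    IsManifold.subset_maximalAtlas e.2
  obtain ⟨x, hx⟩ := hne
  have h1 : cm (chAt x).1 (fun y => ENNReal.ofReal (D (chAt x) y)) V ≤ densMeasure D V := by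
    rw [← Vol_restrict D hD (chAt x).1 (hmem _) (D (chAt x)) (fun e => hD _ e)]
    exact Measure.restrict_apply_le _ _
  refine lt_of_lt_of_le ?_ h1
  rw [Vol_cm_apply _ _ hV.measurableSet]
  have hO : IsOpen ((chAt x).1.target ∩ (chAt x).1.symm ⁻¹' V) :=
    (chAt x).1.continuousOn_symm.isOpen_inter_preimage (chAt x).1.open_target hV
  have hOne : ((chAt x).1.target ∩ (chAt x).1.symm ⁻¹' V).Nonempty := by
    refine ⟨(chAt x).1 x, (chAt x).1.map_source (mem_chart_source E4 x), ?_⟩
    show (chAt x).1.symm ((chAt x).1 x) ∈ V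
    rw [(chAt x).1.left_inv (mem_chart_source E4 x)]
    exact hx
  have hOpos : 0 < volume ((chAt x).1.target ∩ (chAt x).1.symm ⁻¹' V) := hO.measure_pos _ hOne
  rw [pos_iff_ne_zero]
  intro h0
  have hae : AEMeasurable (fun y => ENNReal.ofReal (D (chAt x) y))
      (volume.restrict ((chAt x).1.target ∩ (chAt x).1.symm ⁻¹' V)) :=
    (((hc (chAt x)).mono inter_subset_left).aemeasurable hO.measurableSet).ennreal_ofReal
  rw [lintegral_eq_zero_iff' hae, Filter.EventuallyEq, ae_restrict_iff' hO.measurableSet] at h0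
  have h2 : volume ((chAt x).1.target ∩ (chAt x).1.symm ⁻¹' V) = 0 := by
    refine measure_mono_null (fun y hy => ?_) (ae_iff.1 h0)
    intro h3
    have h4 := h3 hy
    simp only [Pi.zero_apply, ENNReal.ofReal_eq_zero] at h4
    exact absurd (hpos (chAt x) y hy.1) (not_lt.2 h4)
  exact hOpos.ne' h2

end dens

/-- Determinant of a pull back. -/
theorem Vol_pull_det (φ : E4 → E4) (H : Matrix (Fin 4) (Fin 4) ℝ) (y : E4) :
    (Matrix.of fun i j => ∑ k, ∑ l, (pd i φ y) k * (pd j φ y) l * H k l).det =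
      (fderiv ℝ φ y).det ^ 2 * H.det := by
  set J : Matrix (Fin 4) (Fin 4) ℝ := Matrix.of fun i k => (pd i φ y) k with hJ
  have h1 : (Matrix.of fun i j => ∑ k, ∑ l, (pd i φ y) k * (pd j φ y) l * H k l) =
      J * H * J.transpose := by
    ext i j
    simp only [Matrix.of_apply, Matrix.mul_apply, Matrix.transpose_apply, hJ,
      Finset.sum_mul]
    rw [Finset.sum_comm]
    exact Finset.sum_congr rfl fun k _ => Finset.sum_congr rfl fun l _ => by ring
  have h2 : J.det = (fderiv ℝ φ y).det := by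
    have h3 : J.transpose = LinearMap.toMatrix (EuclideanSpace.basisFun (Fin 4) ℝ).toBasis
        (EuclideanSpace.basisFun (Fin 4) ℝ).toBasis (fderiv ℝ φ y : E4 →ₗ[ℝ] E4) := by
      ext i j
      rw [LinearMap.toMatrix_apply]
      simp [hJ, pd, bv]
    rw [← Matrix.det_transpose, h3, LinearMap.det_toMatrix]
  rw [h1, Matrix.det_mul, Matrix.det_mul, Matrix.det_transpose, h2]
  ring

section metric

variable {X : Type} [TopologicalSpace X] [ChartedSpace E4 X] [IsManifold (𝓡 4) ∞ X]

theorem Vol_mcoef_det (b1 : claimMcoef) (g : Metric X) {ψ ψ' : OpenPartialHomeomorph X E4}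
    (hψ : ψ ∈ SmCh X) (hψ' : ψ' ∈ SmCh X) {y : E4} (hy : y ∈ (ψ.symm.trans ψ').source) :
    (g.mcoef ψ y).det = (fderiv ℝ (ψ.symm.trans ψ') y).det ^ 2 *
      (g.mcoef ψ' ((ψ.symm.trans ψ') y)).det := by
  rw [← Vol_pull_det]
  congr 1
  ext i j
  exact (b1 X g ψ hψ).2.2.2 ψ' hψ' y hy i j

theorem Vol_law (b1 : claimMcoef) (g : Metric X) {ψ ψ' : OpenPartialHomeomorph X E4}
    (hψ : ψ ∈ SmCh X) (hψ' : ψ' ∈ SmCh X) :
    DensLaw ψ ψ' (fun y => Real.sqrt (g.mcoef ψ y).det) (fun y => Real.sqrt (g.mcoef ψ' y).det) := by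
  intro y hy
  beta_reduce
  rw [Vol_mcoef_det b1 g hψ hψ' hy, ← ENNReal.ofReal_mul (abs_nonneg _),
    Real.sqrt_mul (sq_nonneg _), Real.sqrt_sq_eq_abs]

theorem Vol_eq [MeasurableSpace X] [BorelSpace X] (b1 : claimMcoef) (g : Metric X) :
    g.vol = densMeasure (fun (e : Ch X) y => Real.sqrt (g.mcoef e.1 y).det) := by
  unfold Metric.vol densMeasure
  refine iSup_congr fun e => ?_
  congr 1
  refine withDensity_congr_ae ?_
  filter_upwards [ae_restrict_mem e.1.open_target.measurableSet] with y hy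
  rw [(b1 X g e.1 (IsManifold.subset_maximalAtlas e.2)).2.2.1 e y hy]

theorem Vol_cont (b1 : claimMcoef) (g : Metric X) {ψ : OpenPartialHomeomorph X E4}
    (hψ : ψ ∈ SmCh X) :
    ContinuousOn (fun y => Real.sqrt (g.mcoef ψ y).det) ψ.target ∧
    ∀ y ∈ ψ.target, 0 < Real.sqrt (g.mcoef ψ y).det := by
  have hm := b1 X g ψ hψ
  refine ⟨Real.continuous_sqrt.comp_continuousOn ?_, fun y hy =>
    Real.sqrt_pos.2 (hm.2.1 y hy).det_pos⟩
  simp only [Matrix.det_apply]
  refine continuousOn_finsetSum _ fun σ _ => ContinuousOn.const_smul ?_ _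
  exact continuousOn_finsetProd _ fun i _ => (hm.1 _ _).continuousOn

end metric

/-- Integrals in a smooth chart. -/
theorem Vol_integral {X : Type} [TopologicalSpace X] [ChartedSpace E4 X]
    [MeasurableSpace X] [BorelSpace X] {μ : Measure X} {ψ : OpenPartialHomeomorph X E4}
    {D : E4 → ℝ} (hμ : μ.restrict ψ.source = cm ψ fun y => ENNReal.ofReal (D y))
    (hD : ContinuousOn D ψ.target) (hD0 : ∀ y ∈ ψ.target, 0 ≤ D y)
    {F : Type} [NormedAddCommGroup F] [NormedSpace ℝ F] [SecondCountableTopology F]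
    (f : X → F) (hf : ContinuousOn f ψ.source) :
    ∫ x in ψ.source, f x ∂μ = ∫ y in ψ.target, D y • f (ψ.symm y) := by
  have hfm : AEStronglyMeasurable f (μ.restrict ψ.source) :=
    hf.aestronglyMeasurable ψ.open_source.measurableSet
  rw [hμ] at hfm ⊢
  unfold cm at hfm ⊢
  rw [integral_map (Vol_aemeas ψ _) hfm, integral_withDensity_eq_integral_toReal_smul₀
    ((hD.aemeasurable ψ.open_target.measurableSet).ennreal_ofReal)
    (Filter.Eventually.of_forall fun _ => ENNReal.ofReal_lt_top)]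
  refine setIntegral_congr_fun ψ.open_target.measurableSet fun y hy => ?_
  simp only [ENNReal.toReal_ofReal (hD0 y hy)]

theorem thm_Vol (b1 : claimMcoef) : claimVol := by
  intro X _ _ _ _ _ _ _ g
  have hmem : ∀ e : Ch X, e.1 ∈ SmCh X := fun e => IsManifold.subset_maximalAtlas e.2
  have hlaw : ∀ e e' : Ch X, DensLaw e.1 e'.1 (fun y => Real.sqrt (g.mcoef e.1 y).det)
      (fun y => Real.sqrt (g.mcoef e'.1 y).det) := fun e e' => Vol_law b1 g (hmem e) (hmem e')
  rw [Vol_eq b1 g]
  refine ⟨Vol_finite _ hlaw fun e => (Vol_cont b1 g (hmem e)).1, fun V hV hne =>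
    Vol_pos _ hlaw (fun e => (Vol_cont b1 g (hmem e)).1) (fun e => (Vol_cont b1 g (hmem e)).2)
      hV hne, fun ψ hψ => ?_⟩
  have h1 := Vol_restrict _ hlaw ψ hψ _ fun e => Vol_law b1 g hψ (hmem e)
  refine ⟨h1, fun f hf => ?_⟩
  exact Vol_integral h1 (Vol_cont b1 g hψ).1 (fun y hy => ((Vol_cont b1 g hψ).2 y hy).le) f hf

end NRF

end
end

section

/-!
# Module H: assembly
-/

open scoped Manifold ContDiff Topology
open MeasureTheory Set

set_option autoImplicit false

noncomputable section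

namespace NRF.H

lemma asm_ext {X M : Type} [TopologicalSpace X] [AddCommGroup M] [Module ℝ M] {k : ℕ}
    (L1 L2 : Chain k X →ₗ[ℝ] M) (c : Chain k X)
    (h : ∀ s ∈ c.support, L1 (Finsupp.single s 1) = L2 (Finsupp.single s 1)) : L1 c = L2 c := by
  have hc : c = ∑ s ∈ c.support, c s • Finsupp.single s (1 : ℝ) := by
    conv_lhs => rw [← Finsupp.sum_single c]
    rw [Finsupp.sum]
    refine Finset.sum_congr rfl fun s _ => ?_
    rw [Finsupp.smul_single, smul_eq_mul, mul_one]
  rw [hc, map_sum, map_sum]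
  refine Finset.sum_congr rfl fun s hs => ?_
  rw [map_smul, map_smul, h s hs]

lemma asm_bdry_single {X : Type} [TopologicalSpace X] {k : ℕ} (s : Simp (k + 1) X) :
    bdry (Finsupp.single s (1 : ℝ)) = ∑ i : Fin (k + 2), (-1 : ℝ) ^ (i : ℕ) •
      Finsupp.single (s.comp (faceIncl k i)) (1 : ℝ) := by
  simp [bdry]

lemma asm_bdry_map {X : Type} [TopologicalSpace X] (S : (k : ℕ) → Simp k X → Simp k X) {k : ℕ}
    (c : Chain (k + 1) X)
    (h : ∀ s ∈ c.support, ∀ i, S k (s.comp (faceIncl k i)) = (S (k + 1) s).comp (faceIncl k i)) :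
    bdry (Finsupp.mapDomain (S (k + 1)) c) = Finsupp.mapDomain (S k) (bdry c) := by
  have := asm_ext (bdry ∘ₗ Finsupp.lmapDomain ℝ ℝ (S (k + 1)))
    (Finsupp.lmapDomain ℝ ℝ (S k) ∘ₗ bdry) c (fun s hs => by
      simp only [LinearMap.comp_apply, Finsupp.lmapDomain_apply, Finsupp.mapDomain_single]
      rw [asm_bdry_single, asm_bdry_single, Finsupp.mapDomain_finsetSum]
      refine Finset.sum_congr rfl fun i _ => ?_
      rw [Finsupp.mapDomain_smul, Finsupp.mapDomain_single, h s hs i])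
  simpa using this

lemma asm_vertex {k : ℕ} (i : Fin (k + 2)) (j : Fin (k + 1)) :
    faceIncl k i (stdSimplex.vertex j) = stdSimplex.vertex (i.succAbove j) := by
  simp only [faceIncl, ContinuousMap.coe_mk]
  exact stdSimplex.map_vertex _ _

/-- The main theorem of module H from the items. -/
theorem asmH (hMap : claimMapping) (h1 : claimCint)
    (h8 : claimPrismB) (h9 : claimBInv) (h10 : claimWR) (h12 : claimLocFin)
    (h14 : claimWsmooth) (h15 : claimWbound) (h16 : claimPsi) (h18 : claimCut) (h19 : claimSum)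
    (h21 : claimFclosed) (h22 : claimAff) (h22b : claimAffSm) (h23 : claimVolSum)
    (h26 : claimSmoothing) (h27 : claimHomLift) (hLift : claimLiftSimp) (h28 : claimDescend)
    (h29 : claimBdry) (h30 : claimDual) (h31 : claimEquiv) (h32 : claimDeg) (h33 : claimPart) :
    claimSimp := by
  intro X _ _ _ _ _ _ _ _ hor U g K phi hphi
  have hvol : 0 ≤ g.volume := ENNReal.toReal_nonneg
  have hB : 0 ≤ 24 * K ^ 4 := by positivity
  by_cases hne : ∃ c0 : Chain 4 X, IsFundamentalCycle c0
  swap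
  · have : {r : ℝ | ∃ c : Chain 4 X, IsFundamentalCycle c ∧ r = norm1 c} = ∅ := by
      ext r
      simp only [mem_ofPred_eq, mem_empty_iff_false, iff_false]
      rintro ⟨c, hc, _⟩
      exact hne ⟨c, hc⟩
    rw [simplicialVolume, this, Real.sInf_empty]
    positivity
  obtain ⟨c0, hc0⟩ := hne
  obtain ⟨β, hβ1, hβ2, hβ3⟩ := h30 X c0
  have hsv : simplicialVolume X ≤ β c0 := by
    refine hβ3 _ fun b => ?_
    refine csInf_le ⟨0, ?_⟩ ⟨c0 + bdry b, h29.2 X c0 b hc0, rfl⟩
    rintro r ⟨c, _, rfl⟩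
    exact Finset.sum_nonneg fun s _ => abs_nonneg _
  refine hsv.trans ?_
  obtain ⟨r, hr⟩ := h31 X U
  obtain ⟨b, h, hb1, hbinv, hbcoc, hbalt, hbβ⟩ := hMap X U β r hr hβ1 hβ2
  obtain ⟨hinv1, hinv2, hinv3, hinv4⟩ := h9 U.G b hbinv
  -- lifts of simplices
  have hlift : ∀ {k : ℕ} (s : Simp k X), ∃ t : Simp k U.Y, ∀ x, U.p (t x) = s x :=
    fun {k} s => (hLift X U k s).1
  have hfin : ∀ y : U.Y, {a : U.G | phi (a⁻¹ • y) ≠ 0}.Finite := by
    intro y
    obtain ⟨O, hO, hyO, hf⟩ := (h12 X U g K phi hphi).2 {y} isCompact_singleton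
    exact hf.subset fun a ha => ⟨y, hyO rfl, ha⟩
  -- the five cochains
  obtain ⟨B4, hB4⟩ := h28 X U 4 (fun t => b fun i => r (t (stdSimplex.vertex i))) (by
    intro a t t' ht
    simp only [ht, hr]
    exact hbinv a _)
  obtain ⟨W4, hW4⟩ := h28 X U 4
    (fun t => bW b fun a i => phi (a⁻¹ • t (stdSimplex.vertex i))) (by
    intro a t t' ht
    simp only [ht]
    rw [← hinv4 a⁻¹ (fun a' i => phi (a'⁻¹ • t (stdSimplex.vertex i)))]
    congr 1
    funext a' i
    rw [mul_inv_rev, inv_inv, mul_smul])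
  obtain ⟨Hf, hHinv, hHf⟩ := h10 U.Y U.G b phi r hbcoc hbinv hr hfin hphi.sum_one
  obtain ⟨H3, hH3⟩ := h28 X U 3 (fun t => Hf fun i => t (stdSimplex.vertex i)) (by
    intro a t t' ht
    simp only [ht]
    exact hHinv a _)
  obtain ⟨I4, hI4⟩ := h28 X U 4
    (fun t => bint b fun a u => phi (a⁻¹ • t (qS 4 u))) (by
    intro a t t' ht
    simp only [ht]
    rw [← hinv2 a⁻¹ (fun a' u => phi (a'⁻¹ • t (qS 4 u)))]
    congr 1
    funext a' u
    rw [mul_inv_rev, inv_inv, mul_smul])
  obtain ⟨J3, hJ3⟩ := h28 X U 3 (fun t => bJ b fun a x => phi (a⁻¹ • t x)) (by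
    intro a t t' ht
    simp only [ht]
    rw [← hinv3 a⁻¹ (fun a' x => phi (a'⁻¹ • t x))]
    congr 1
    funext a' x
    rw [mul_inv_rev, inv_inv, mul_smul])
  -- faces of lifts
  have hface : ∀ {k : ℕ} (s : Simp (k + 1) X) (t : Simp (k + 1) U.Y), (∀ x, U.p (t x) = s x) →
      ∀ i, ∀ x, U.p ((t.comp (faceIncl k i)) x) = (s.comp (faceIncl k i)) x :=
    fun s t ht i x => ht _
  -- step A
  have hA : β c0 = B4 c0 := by
    have := asm_ext β (B4 + h ∘ₗ bdry) c0 (fun s _ => by
      obtain ⟨t, ht⟩ := hlift s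
      rw [LinearMap.add_apply, hB4 s t ht, hbβ s t ht]
      rfl)
    rw [this, LinearMap.add_apply, LinearMap.comp_apply, hc0.cycle, map_zero, add_zero]
  -- step B
  have hBW : B4 c0 = W4 c0 := by
    have := asm_ext B4 (W4 + H3 ∘ₗ bdry) c0 (fun s _ => by
      obtain ⟨t, ht⟩ := hlift s
      rw [LinearMap.add_apply, hB4 s t ht, hW4 s t ht, LinearMap.comp_apply, asm_bdry_single,
        map_sum, hHf]
      congr 1
      refine Finset.sum_congr rfl fun i _ => ?_
      rw [map_smul, hH3 _ _ (hface s t ht i), smul_eq_mul]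
      congr 2
      funext j
      simp only [ContinuousMap.comp_apply, asm_vertex])
    rw [this, LinearMap.add_apply, LinearMap.comp_apply, hc0.cycle, map_zero, add_zero]
  -- degree data, partition of unity
  obtain ⟨m, ⟨D⟩⟩ := h32 X c0 hc0
  obtain ⟨χ, κ, O, hsm, hχ0, hχ1, hO, hχO, hON, hκN, hκ1⟩ :=
    h33 X m D.N D.N' D.openN D.openN' D.clos D.cover
  -- smoothing
  let V : Set (X × X) := {p | ∀ j, p.2 ∈ closure (D.N' j) → p.1 ∈ D.N j}
  have hVopen : IsOpen V := by
    have : V = ⋂ j, ({p : X × X | p.1 ∈ D.N j} ∪ {p | p.2 ∈ (closure (D.N' j))ᶜ}) := by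
      ext p
      simp only [V, mem_ofPred_eq, mem_iInter, mem_union, mem_compl_iff]
      exact forall_congr' fun j => by tauto
    rw [this]
    exact isOpen_iInter_of_finite fun j => ((D.openN j).preimage continuous_fst).union
      (isClosed_closure.isOpen_compl.preimage continuous_snd)
  have hVdiag : ∀ x, (x, x) ∈ V := fun x j hx => D.clos j hx
  classical
  let A : Finset (Σ k : ℕ, Simp k X) :=
    (c0.support.image fun s => (⟨4, s⟩ : Σ k : ℕ, Simp k X)) ∪
    (Finset.univ.biUnion fun j => (D.d j).support.image fun s => (⟨4, s⟩ : Σ k : ℕ, Simp k X)) ∪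
    (Finset.univ.image fun j => (⟨4, D.s j⟩ : Σ k : ℕ, Simp k X)) ∪
    (Finset.univ.biUnion fun j => (D.b j).support.image fun s => (⟨5, s⟩ : Σ k : ℕ, Simp k X))
  have hAc : ∀ s ∈ c0.support, (⟨4, s⟩ : Σ k : ℕ, Simp k X) ∈ A := by
    intro s hs
    refine Finset.mem_union_left _ (Finset.mem_union_left _ (Finset.mem_union_left _ ?_))
    exact Finset.mem_image_of_mem _ hs
  have hAd : ∀ j, ∀ s ∈ (D.d j).support, (⟨4, s⟩ : Σ k : ℕ, Simp k X) ∈ A := by
    intro j s hs
    refine Finset.mem_union_left _ (Finset.mem_union_left _ (Finset.mem_union_right _ ?_))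
    exact Finset.mem_biUnion.2 ⟨j, Finset.mem_univ _, Finset.mem_image_of_mem _ hs⟩
  have hAs : ∀ j, (⟨4, D.s j⟩ : Σ k : ℕ, Simp k X) ∈ A := by
    intro j
    refine Finset.mem_union_left _ (Finset.mem_union_right _ ?_)
    exact Finset.mem_image.2 ⟨j, Finset.mem_univ _, rfl⟩
  have hAb : ∀ j, ∀ s ∈ (D.b j).support, (⟨5, s⟩ : Σ k : ℕ, Simp k X) ∈ A := by
    intro j s hs
    refine Finset.mem_union_right _ ?_
    exact Finset.mem_biUnion.2 ⟨j, Finset.mem_univ _, Finset.mem_image_of_mem _ hs⟩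
  obtain ⟨S, Hh, hS, hSnat⟩ := h26 X V hVopen hVdiag A
  set c1 : Chain 4 X := Finsupp.mapDomain (S 4) c0 with hc1
  have hc1b : bdry c1 = 0 := by
    rw [hc1, asm_bdry_map S c0 (fun s hs i => hSnat 3 s (hAc s hs) i), hc0.cycle,
      Finsupp.mapDomain_zero]
  -- step D
  have hD : W4 c1 = W4 c0 := by
    have := asm_ext (W4 ∘ₗ Finsupp.lmapDomain ℝ ℝ (S 4)) W4 c0 (fun s hs => by
      obtain ⟨t, ht⟩ := hlift s
      obtain ⟨h1', h2', h3', h4', h5', h6', h7'⟩ := hS 4 s (hAc s hs)
      obtain ⟨t', ht', hv⟩ := h27 X U 4 s (S 4 s) (Hh 4 s) h2' h3' h4' h5' t ht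
      rw [LinearMap.comp_apply, Finsupp.lmapDomain_apply, Finsupp.mapDomain_single,
        hW4 _ _ ht', hW4 _ _ ht]
      simp only [hv])
    simpa [hc1] using this
  -- step E
  have hE : I4 c1 = W4 c1 := by
    have := asm_ext (I4 ∘ₗ Finsupp.lmapDomain ℝ ℝ (S 4))
      ((W4 - J3 ∘ₗ bdry) ∘ₗ Finsupp.lmapDomain ℝ ℝ (S 4)) c0 (fun s hs => by
      obtain ⟨hsm', -⟩ := hS 4 s (hAc s hs)
      obtain ⟨t, ht⟩ := hlift (S 4 s)
      obtain ⟨⟨F, hF⟩, hcd⟩ := h16 X U g K phi hphi 4 (S 4 s) t ht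
      rw [LinearMap.comp_apply, LinearMap.comp_apply, Finsupp.lmapDomain_apply,
        Finsupp.mapDomain_single, hI4 _ _ ht, LinearMap.sub_apply, hW4 _ _ ht,
        LinearMap.comp_apply, asm_bdry_single, map_sum]
      rw [h8 U.G b F (fun a x => phi (a⁻¹ • t x)) hbcoc hbalt (fun a => hcd hsm' a)
        (fun a ha x => (hF x).1 a ha) (fun x => (hF x).2)]
      congr 1
      refine Finset.sum_congr rfl fun i _ => ?_
      rw [map_smul, hJ3 _ _ (hface _ t ht i), smul_eq_mul]
      rfl)
    have h2 : I4 c1 = W4 c1 - J3 (bdry c1) := by simpa [hc1] using this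
    rw [h2, hc1b, map_zero, sub_zero]
  -- the localised cochains
  let f : Fin m → X → ℝ := fun j => cutoff (D.e j) (χ j) (wcoef U b phi (D.e j))
  let q : Fin m → Fin 4 → X → ℝ := fun j k => cutoff (D.e j) (κ j) (fun z => z k)
  have hsuppχ : ∀ j, tsupport (χ j) ⊆ D.N' j := fun j => (hχO j).trans inter_subset_right
  have hN'N : ∀ j, D.N' j ⊆ D.N j := fun j => subset_closure.trans (D.clos j)
  have hsrcχ : ∀ j, tsupport (χ j) ⊆ (D.e j).1.source := fun j =>
    ((hsuppχ j).trans (hN'N j)).trans (D.src j)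
  have hw1 : ∀ e : Ch X, ContDiffOn ℝ 1 (wcoef U b phi e) e.1.target :=
    h14 X U g K b phi hbinv hphi
  have hf1 : ∀ j, ContMDiff (𝓡 4) 𝓘(ℝ, ℝ) 1 (f j) := fun j =>
    h18 X 1 (D.e j) (χ j) _ ((hsm j).1.of_le (by exact_mod_cast le_top)) (hsrcχ j)
      (by exact_mod_cast hw1 (D.e j))
  have hq1 : ∀ j k, ContMDiff (𝓡 4) 𝓘(ℝ, ℝ) ∞ (q j k) := fun j k =>
    h18 X ⊤ (D.e j) (κ j) _ (hsm j).2 ((hκN j).trans (D.src j))
      (by
        have : ContDiff ℝ ∞ (fun z : E4 => z k) := by fun_prop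
        exact this.contDiffOn)
  let Fj : Fin m → Chain 4 X →ₗ[ℝ] ℝ := fun j => Finsupp.linearCombination ℝ fun s => FS (f j) (q j) s
  have hFj : ∀ j s, Fj j (Finsupp.single s 1) = FS (f j) (q j) s := by
    intro j s
    simp [Fj]
  -- vanishing of f outside of closure N'
  have hf0 : ∀ j x, x ∉ closure (D.N' j) → f j x = 0 := by
    intro j x hx
    have : χ j x = 0 := by
      by_contra hne
      exact hx (subset_closure (hsuppχ j (subset_tsupport _ hne)))
    simp only [f, cutoff]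
    by_cases hxs : x ∈ (D.e j).1.source
    · rw [indicator_of_mem hxs, this, zero_mul]
    · rw [indicator_of_notMem hxs]
  -- step F
  have hF : I4 c1 = ∑ j, Fj j c1 := by
    have := asm_ext (I4 ∘ₗ Finsupp.lmapDomain ℝ ℝ (S 4))
      ((∑ j, Fj j) ∘ₗ Finsupp.lmapDomain ℝ ℝ (S 4)) c0 (fun s hs => by
      obtain ⟨hsm', -⟩ := hS 4 s (hAc s hs)
      obtain ⟨t, ht⟩ := hlift (S 4 s)
      rw [LinearMap.comp_apply, LinearMap.comp_apply, Finsupp.lmapDomain_apply,
        Finsupp.mapDomain_single, hI4 _ _ ht, LinearMap.sum_apply]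
      simp only [hFj]
      have hcube : MeasurableSet (cube 4) := measurableSet_Icc
      have h1' : bint b (fun a u => phi (a⁻¹ • t (qS 4 u))) =
          ∫ u in cube 4, ∑ j, f j ((S 4 s) (qS 4 u)) *
            jac (fun k u => q j k ((S 4 s) (qS 4 u))) u := by
        unfold bint
        refine setIntegral_congr_fun hcube fun u hu => ?_
        exact h19 X U g K b phi hbinv hphi m D.e χ κ O hO
          (fun j => (hχO j).trans inter_subset_left) (fun j => (hON j).trans (D.src j)) hκ1 hχ1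
          (S 4 s) t ht hsm' u hu
      rw [h1', integral_finsetSum]
      · rfl
      · intro j _
        refine h1 4 _ _ ?_ ?_
        · exact (hf1 j).continuous.comp_continuousOn hsm'.continuousOn
        · intro k
          have h2 : ContMDiffOn 𝓘(ℝ, Fin 4 → ℝ) 𝓘(ℝ, ℝ) ∞
              (fun u => q j k ((S 4 s) (qS 4 u))) (cube 4) :=
            (hq1 j k).comp_contMDiffOn hsm'
          exact (contMDiffOn_iff_contDiffOn.1 h2).of_le (by exact_mod_cast le_top))
    have h2 : I4 c1 = (∑ j, Fj j) c1 := by simpa [hc1] using this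
    rw [h2, LinearMap.sum_apply]
  -- step G
  have hG : ∀ j, Fj j c1 = FS (f j) (q j) (D.s j) := by
    intro j
    have hrel : c1 - Finsupp.single (S 4 (D.s j)) 1 =
        bdry (Finsupp.mapDomain (S 5) (D.b j)) + Finsupp.mapDomain (S 4) (D.d j) := by
      rw [asm_bdry_map S (D.b j) (fun s hs i => hSnat 4 s (hAb j s hs) i), ← Finsupp.mapDomain_add,
        ← D.rel j, hc1]
      have := (Finsupp.lmapDomain ℝ ℝ (S 4)).map_sub c0 (Finsupp.single (D.s j) 1)
      simp only [Finsupp.lmapDomain_apply, Finsupp.mapDomain_single] at this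
      exact this.symm
    have hbz : Fj j (bdry (Finsupp.mapDomain (S 5) (D.b j))) = 0 := by
      have := asm_ext (Fj j ∘ₗ bdry ∘ₗ Finsupp.lmapDomain ℝ ℝ (S 5)) 0 (D.b j) (fun s hs => by
        obtain ⟨hsm', -⟩ := hS 5 s (hAb j s hs)
        simp only [LinearMap.comp_apply, Finsupp.lmapDomain_apply, Finsupp.mapDomain_single,
          LinearMap.zero_apply]
        rw [asm_bdry_single, map_sum]
        simp only [map_smul, hFj, smul_eq_mul]
        exact (h21 X (f j) (q j) (hf1 j) (hq1 j)).1 (S 5 s) hsm')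
      simpa using this
    have hdz : Fj j (Finsupp.mapDomain (S 4) (D.d j)) = 0 := by
      have := asm_ext (Fj j ∘ₗ Finsupp.lmapDomain ℝ ℝ (S 4)) 0 (D.d j) (fun s hs => by
        obtain ⟨h1', h2', h3', h4', h5', h6', h7'⟩ := hS 4 s (hAd j s hs)
        simp only [LinearMap.comp_apply, Finsupp.lmapDomain_apply, Finsupp.mapDomain_single,
          LinearMap.zero_apply, hFj]
        unfold FS cint
        have : ∀ x, f j ((S 4 s) x) = 0 := by
          intro x
          apply hf0
          intro hx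
          have hV := h6' x 1 ⟨zero_le_one, le_refl _⟩
          rw [h4'] at hV
          have hN := hV j hx
          exact (D.avoid j s hs).le_bot ⟨hN, x, rfl⟩
        simp only [this, zero_mul, integral_zero])
      simpa using this
    have hsz : FS (f j) (q j) (S 4 (D.s j)) = FS (f j) (q j) (D.s j) := by
      obtain ⟨h1', h2', h3', h4', h5', h6', h7'⟩ := hS 4 (D.s j) (hAs j)
      refine (h21 X (f j) (q j) (hf1 j) (hq1 j)).2 (D.s j) (S 4 (D.s j)) (Hh 4 (D.s j))
        (h7' (h22b X (D.e j) (D.p j) (D.s j) (D.tgt j) (D.eq_s j))) h3' h4' ?_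
      intro x hx u hu
      apply hf0
      intro hcl
      exact D.face j x hx (h6' x u hu j hcl)
    have := congrArg (Fj j) hrel
    rw [map_sub, map_add, hbz, hdz, hFj, add_zero, hsz, sub_eq_zero] at this
    exact this
  -- step H
  have hH : ∀ j, FS (f j) (q j) (D.s j) =
      ∫ z in (D.e j).1.target, χ j ((D.e j).1.symm z) * wcoef U b phi (D.e j) z := by
    intro j
    exact h22 X (D.e j) (D.p j) (D.s j) (χ j) (κ j) (O j) (wcoef U b phi (D.e j)) (D.tgt j)
      (D.pos j) (D.eq_s j) (hsm j).1.continuous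
      (fun x hx => D.int j x (hN'N j (hsuppχ j hx))) (hO j)
      ((hχO j).trans inter_subset_left) ((hON j).trans (D.src j)) (hκ1 j)
      (hw1 (D.e j)).continuousOn
  rw [hA, hBW, ← hD, ← hE, hF]
  simp only [hG, hH]
  exact h23 X g m D.e χ (fun j => wcoef U b phi (D.e j)) (24 * K ^ 4) hB
    (fun j => (hsm j).1.continuous) hχ0 hχ1 hsrcχ (fun j => (hw1 (D.e j)).continuousOn)
    (fun j z hz => h15 X U g K b phi hbinv hb1 hphi (D.e j) z hz)

end NRF.H

end
end

section

/-!
# H1: integrability on cubes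
-/

set_option autoImplicit false

open scoped Manifold ContDiff Topology
open MeasureTheory Set

noncomputable section

namespace NRF.H

/-- The interior of the cube is nonempty. -/
theorem cube_interior_nonempty (k : ℕ) : (interior (cube k)).Nonempty := by
  refine ⟨fun _ => 1 / 2, ?_⟩
  rw [mem_interior]
  refine ⟨Set.univ.pi fun _ => Ioo (0 : ℝ) 1, ?_, isOpen_set_pi Set.finite_univ fun _ _ => isOpen_Ioo,
    ?_⟩
  · intro t ht
    exact ⟨fun i => (ht i (Set.mem_univ i)).1.le, fun i => (ht i (Set.mem_univ i)).2.le⟩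
  · intro i _
    constructor <;> norm_num

theorem convex_cube (k : ℕ) : Convex ℝ (cube k) := convex_Icc 0 1

theorem isCompact_cube (k : ℕ) : IsCompact (cube k) := isCompact_Icc

theorem isClosed_cube (k : ℕ) : IsClosed (cube k) := isClosed_Icc

/-- Unique differentiability on the cube. -/
theorem uniqueDiffOn_cube (k : ℕ) : UniqueDiffOn ℝ (cube k) :=
  uniqueDiffOn_convex (convex_cube k) (cube_interior_nonempty k)

/-- Continuity of partial derivatives on the cube. -/
theorem continuousOn_cd {k : ℕ} {f : (Fin k → ℝ) → ℝ} (hf : ContDiffOn ℝ 1 f (cube k)) (i : Fin k) :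
    ContinuousOn (cd f i) (cube k) := by
  have h : ContinuousOn (fderivWithin ℝ f (cube k)) (cube k) :=
    hf.continuousOn_fderivWithin (uniqueDiffOn_cube k) le_rfl
  exact h.clm_apply continuousOn_const

/-- Continuity of the Jacobian determinant on the cube. -/
theorem continuousOn_jac {k : ℕ} {f : Fin k → (Fin k → ℝ) → ℝ}
    (hf : ∀ j, ContDiffOn ℝ 1 (f j) (cube k)) : ContinuousOn (jac f) (cube k) := by
  unfold jac
  simp only [Matrix.det_apply', Matrix.of_apply]
  refine continuousOn_finsetSum _ fun s _ => ContinuousOn.mul continuousOn_const ?_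
  exact continuousOn_finsetProd _ fun i _ => continuousOn_cd (hf i) (s i)

/-- H1: integrability. -/
theorem claimCint_proof : claimCint := by
  intro k f0 f h0 hf
  exact (h0.mul (continuousOn_jac hf)).integrableOn_compact (isCompact_cube k)

end NRF.H

end
end
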