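import Pool.Agent.Work.MP_7f974f_gt.Stmts_K
import Pool.Agent.Work.MP_7f974f_gt.Bd.B02
import Pool.Agent.Work.MP_7f974f_gt.I0
import Pool.Agent.Work.MP_7f974f_gt.Bd.B03
import Pool.Agent.Work.MP_7f974f_gt.Bd.B04
import Pool.Agent.Work.MP_7f974f_gt.I7
import Pool.Agent.Work.MP_7f974f_gt.I7a
import Pool.Agent.Work.MP_7f974f_gt.I7b
import Pool.Agent.Work.MP_7f974f_gt.I8
import Pool.Agent.Work.MP_7f974f_gt.I10
import Pool.Agent.Work.MP_7f974f_gt.I12
import Pool.Agent.Work.MP_7f974f_gt.I13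
import Pool.Agent.Work.MP_7f974f_gt.Stmts_B
import Pool.Agent.Work.MP_7f974f_gt.Stmts_DA
import Pool.Agent.Work.MP_7f974f_gt.Stmts_H

/-! Bundle of small proof modules (one section per former module). -/

section

/-!
# K2': exact solutions of the heat equation with a pole
-/

open scoped Manifold ContDiff Topology RealInnerProductSpace
open MeasureTheory Set Filter

noncomputable section

namespace NRF

section K2pbasic

variable {X : Type} [TopologicalSpace X] {V : Type} [NormedAddCommGroup V] [InnerProductSpace ℝ V]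

theorem K2p_eta {x : E4} (hx : ‖x‖ ≤ 3 / 2) : etaC x = 1 :=
  etaBump.one_of_mem_closedBall (by rw [mem_closedBall_zero_iff]; exact hx)

theorem K2p_ch (g : Geom X V) (y : X) : y ∈ (g.psi (g.ch y)).source ∧ ‖g.psi (g.ch y) y‖ < 1 :=
  (g.exists_chart y).choose_spec

theorem K2p_ch_inv (g : Geom X V) (y : X) : (g.psi (g.ch y)).symm (g.psi (g.ch y) y) = y :=
  (g.psi (g.ch y)).left_inv (K2p_ch g y).1

theorem K2p_nice_mono {g : Geom X V} {k k' : ℕ} {T T' C C' : ℝ} {u : ℝ → X → V}
    (h : g.Nice k T C u) (hk : k' ≤ k) (hT : T' ≤ T) (hC : C ≤ C') : g.Nice k' T' C' u := by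
  intro i
  obtain ⟨h1, h2, h3⟩ := h i
  have hI : Icc 0 T' ⊆ Icc 0 T := Icc_subset_Icc_right hT
  exact ⟨fun t ht => (h1 t (hI ht)).of_le (by exact_mod_cast hk),
    fun j hj => (h2 j (hj.trans hk)).mono (Set.prod_mono hI (Subset.refl _)),
    fun j hj t ht x => (h3 j (hj.trans hk) t (hI ht) x).trans hC⟩

theorem K2p_nice_add {g : Geom X V} {k : ℕ} {T C C' : ℝ} {u u' : ℝ → X → V}
    (h : g.Nice k T C u) (h' : g.Nice k T C' u') :
    g.Nice k T (C + C') fun t x => u t x + u' t x := by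
  intro i
  have := C7a_nice_add (h i) (h' i)
  simpa only [smul_add] using this

theorem K2p_nice_smul {g : Geom X V} {k : ℕ} {T C : ℝ} {u : ℝ → X → V} (c : ℝ)
    (h : g.Nice k T C u) : g.Nice k T (|c| * C) fun t x => c • u t x := by
  intro i
  by_cases hT : (Icc 0 T).Nonempty
  · obtain ⟨t, ht⟩ := hT
    have hC : 0 ≤ C := (norm_nonneg _).trans (C7a_nice_bd (h i) t ht 0)
    have h1 := C7a_nice_clm (h i) (c • ContinuousLinearMap.id ℝ V)
    have h2 : ‖c • ContinuousLinearMap.id ℝ V‖ * C ≤ |c| * C := by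
      gcongr
      rw [norm_smul, Real.norm_eq_abs]
      exact mul_le_of_le_one_right (abs_nonneg _) ContinuousLinearMap.norm_id_le
    have h3 := C7a_nice_mono h1 h2
    refine C7a_nice_congr h3 fun t _ => ?_
    ext1 x
    simp only [smul_apply, ContinuousLinearMap.id_apply]
    rw [smul_comm]
  · rw [not_nonempty_iff_eq_empty] at hT
    refine ⟨fun t ht => ?_, fun j hj => ?_, fun j hj t ht => ?_⟩
    · rw [hT] at ht; exact ht.elim
    · rw [hT, empty_prod]; exact continuousOn_empty _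
    · rw [hT] at ht; exact ht.elim

theorem K2p_nice_neg {g : Geom X V} {k : ℕ} {T C : ℝ} {u : ℝ → X → V}
    (h : g.Nice k T C u) : g.Nice k T C fun t x => -u t x := by
  have := K2p_nice_smul (-1) h
  simpa using this

theorem K2p_nice_shift {g : Geom X V} {k : ℕ} {T C δ : ℝ} {u : ℝ → X → V} (hδ : 0 ≤ δ)
    (h : g.Nice k T C u) : g.Nice k (T - δ) C fun t => u (t + δ) := by
  intro i
  obtain ⟨h1, h2, h3⟩ := h i
  have hI : ∀ t ∈ Icc 0 (T - δ), t + δ ∈ Icc 0 T := by
    rintro t ⟨ha, hb⟩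
    exact ⟨by linarith, by linarith⟩
  refine ⟨fun t ht => h1 _ (hI t ht), fun j hj => ?_, fun j hj t ht x => h3 j hj _ (hI t ht) x⟩
  have h4 : ContinuousOn (fun p : ℝ × E4 => (p.1 + δ, p.2)) (Icc 0 (T - δ) ×ˢ univ) := by
    fun_prop
  exact (h2 j hj).comp h4 fun p hp => mk_mem_prod (hI _ hp.1) (mem_univ _)

theorem K2p_bound {g : Geom X V} {k : ℕ} {T C : ℝ} {u : ℝ → X → V} (h : g.Nice k T C u) {t : ℝ}
    (ht : t ∈ Icc 0 T) (y : X) : ‖u t y‖ ≤ C := by
  have h1 := C7a_nice_bd (h (g.ch y)) t ht (g.psi (g.ch y) y)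
  rwa [K2p_eta (by linarith [(K2p_ch g y).2]), one_smul, K2p_ch_inv] at h1

theorem K2p_eq {g : Geom X V} {u : ℝ → X → V} (i : g.I) (t : ℝ) {x : E4} (hx : ‖x‖ < 3 / 2) :
    (fun z => etaC z • u t ((g.psi i).symm z)) =ᶠ[𝓝 x] fun z => u t ((g.psi i).symm z) := by
  have h1 : Metric.ball (0 : E4) (3 / 2) ∈ 𝓝 x := Metric.isOpen_ball.mem_nhds (by simpa using hx)
  filter_upwards [h1] with z hz
  rw [K2p_eta (le_of_lt (by simpa using hz)), one_smul]

theorem K2p_cd2 {g : Geom X V} {T C : ℝ} {u : ℝ → X → V} (h : g.Nice 2 T C u) {t : ℝ}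
    (ht : t ∈ Icc 0 T) (i : g.I) {x : E4} (hx : ‖x‖ < 3 / 2) :
    ContDiffAt ℝ 2 (fun z => u t ((g.psi i).symm z)) x :=
  (((h i).1 t ht).contDiffAt).congr_of_eventuallyEq (K2p_eq i t hx).symm

theorem K2p_cont {g : Geom X V} {k : ℕ} {T C : ℝ} {u : ℝ → X → V} (h : g.Nice k T C u) :
    ContinuousOn (fun p : ℝ × X => u p.1 p.2) (Icc 0 T ×ˢ univ) := by
  rintro ⟨t, y⟩ ⟨ht, -⟩
  set i := g.ch y with hi
  have h1 := K2p_ch g y
  have hv := C7a_nice_cont (h i)
  have hpsi : ContinuousAt (fun p : ℝ × X => (p.1, g.psi i p.2)) (t, y) :=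
    continuousAt_fst.prodMk
      (ContinuousAt.comp (g := g.psi i) (f := Prod.snd) (((g.psi i).continuousAt h1.1))
        continuousAt_snd)
  have h2 : ContinuousWithinAt (fun p : ℝ × X =>
      etaC (g.psi i p.2) • u p.1 ((g.psi i).symm (g.psi i p.2))) (Icc 0 T ×ˢ univ) (t, y) := by
    have h3 := hv (t, g.psi i y) (mk_mem_prod ht (mem_univ _))
    exact ContinuousWithinAt.comp (f := fun p : ℝ × X => (p.1, g.psi i p.2))
      (g := fun p : ℝ × E4 => etaC p.2 • u p.1 ((g.psi i).symm p.2)) (x := (t, y)) h3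
      hpsi.continuousWithinAt fun p hp => mk_mem_prod hp.1 (mem_univ _)
  have h4 : ∀ᶠ y' in 𝓝 y, y' ∈ (g.psi i).source ∧ ‖g.psi i y'‖ < 3 / 2 := by
    have h5 : ContinuousAt (fun y' => ‖g.psi i y'‖) y := ((g.psi i).continuousAt h1.1).norm
    have ha : ∀ᶠ y' in 𝓝 y, y' ∈ (g.psi i).source := (g.psi i).open_source.mem_nhds h1.1
    exact ha.and (h5.eventually_lt continuousAt_const (by linarith [h1.2]))
  have h5 : ∀ᶠ p : ℝ × X in 𝓝 (t, y), p.2 ∈ (g.psi i).source ∧ ‖g.psi i p.2‖ < 3 / 2 :=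
    Filter.Tendsto.eventually (p := fun y' => y' ∈ (g.psi i).source ∧ ‖g.psi i y'‖ < 3 / 2)
      continuousAt_snd h4
  refine h2.congr_of_eventuallyEq ?_ ?_
  · filter_upwards [nhdsWithin_le_nhds h5] with p hp
    rw [K2p_eta hp.2.le, one_smul, (g.psi i).left_inv hp.1]
  · simp only
    rw [K2p_eta (by linarith [h1.2]), one_smul, (g.psi i).left_inv h1.1]

theorem K2p_cont_slice {g : Geom X V} {k : ℕ} {T C : ℝ} {u : ℝ → X → V} (h : g.Nice k T C u)
    {t : ℝ} (ht : t ∈ Icc 0 T) : Continuous (u t) := by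
  rw [← continuousOn_univ]
  exact ContinuousOn.comp (g := fun p : ℝ × X => u p.1 p.2) (f := fun y : X => (t, y))
    (K2p_cont h) (by fun_prop) fun y _ => mk_mem_prod ht (mem_univ _)

theorem K2p_smooth_cont {g : Geom X V} {f : X → V} (h : g.Smooth f) : Continuous f := by
  rw [continuous_iff_continuousAt]
  intro y
  set i := g.ch y with hi
  have h1 := K2p_ch g y
  have h2 : ContinuousAt (fun y' => etaC (g.psi i y') • f ((g.psi i).symm (g.psi i y'))) y :=
    ContinuousAt.comp (g := fun x => etaC x • f ((g.psi i).symm x)) (f := g.psi i)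
      (h i).continuous.continuousAt ((g.psi i).continuousAt h1.1)
  refine h2.congr ?_
  have h5 : ContinuousAt (fun y' => ‖g.psi i y'‖) y := ((g.psi i).continuousAt h1.1).norm
  filter_upwards [(g.psi i).open_source.mem_nhds h1.1,
    h5.eventually_lt continuousAt_const (show ‖g.psi i y‖ < 3 / 2 by linarith [h1.2])] with y' ha hb
  rw [K2p_eta hb.le, one_smul, (g.psi i).left_inv ha]

/-! ### The operator -/

variable [FiniteDimensional ℝ V]

theorem K2p_pd_pd {f : E4 → V} {x : E4} (hf : ContDiffAt ℝ 2 f x) (i j : Fin 4) :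
    pd i (pd j f) x = fderiv ℝ (fderiv ℝ f) x (bv i) (bv j) := by
  have hd2 : DifferentiableAt ℝ (fderiv ℝ f) x :=
    (hf.fderiv_right (m := 1) (by norm_num)).differentiableAt (by norm_num)
  have h2 : HasFDerivAt (fun y => fderiv ℝ f y (bv j))
      ((ContinuousLinearMap.apply ℝ V (bv j)).comp (fderiv ℝ (fderiv ℝ f) x)) x :=
    (ContinuousLinearMap.apply ℝ V (bv j)).hasFDerivAt.comp x hd2.hasFDerivAt
  unfold pd
  rw [h2.fderiv]
  rfl

/-- The operator in terms of derivatives. -/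
theorem K2p_op_eq (m : Model V) (t : ℝ) {f : E4 → V} {x : E4} (hf : ContDiffAt ℝ 2 f x) :
    m.op t f x = -(∑ i, ∑ j, m.a (t, x) i j • fderiv ℝ (fderiv ℝ f) x (bv i) (bv j)) +
      (∑ i, m.b (t, x) i (fderiv ℝ f x (bv i))) + m.c (t, x) (f x) := by
  unfold Model.op
  simp only [K2p_pd_pd hf]
  rfl

theorem K2p_op_lin (m : Model V) (t : ℝ) {f h : E4 → V} {x : E4} (hf : ContDiffAt ℝ 2 f x)
    (hh : ContDiffAt ℝ 2 h x) (α β : ℝ) :
    m.op t (fun z => α • f z + β • h z) x = α • m.op t f x + β • m.op t h x := by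
  have hs : ContDiffAt ℝ 2 (fun z => α • f z + β • h z) x := (hf.const_smul α).add (hh.const_smul β)
  have ef : ∀ᶠ z in 𝓝 x, ContDiffAt ℝ 2 f z := hf.eventually (by simp)
  have eh : ∀ᶠ z in 𝓝 x, ContDiffAt ℝ 2 h z := hh.eventually (by simp)
  have h1 : fderiv ℝ (fun z => α • f z + β • h z) =ᶠ[𝓝 x]
      fun z => α • fderiv ℝ f z + β • fderiv ℝ h z := by
    filter_upwards [ef, eh] with z hz1 hz2
    have d1 : DifferentiableAt ℝ f z := hz1.differentiableAt (by norm_num)
    have d2 : DifferentiableAt ℝ h z := hz2.differentiableAt (by norm_num)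
    have d3 : HasFDerivAt (fun z => α • f z + β • h z) (α • fderiv ℝ f z + β • fderiv ℝ h z) z :=
      (d1.hasFDerivAt.const_smul α).add (d2.hasFDerivAt.const_smul β)
    exact d3.fderiv
  have b1 : DifferentiableAt ℝ (fderiv ℝ f) x :=
    (hf.fderiv_right (m := 1) (by norm_num)).differentiableAt (by norm_num)
  have b2 : DifferentiableAt ℝ (fderiv ℝ h) x :=
    (hh.fderiv_right (m := 1) (by norm_num)).differentiableAt (by norm_num)
  have h2 : fderiv ℝ (fderiv ℝ (fun z => α • f z + β • h z)) x =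
      α • fderiv ℝ (fderiv ℝ f) x + β • fderiv ℝ (fderiv ℝ h) x := by
    have d3 : HasFDerivAt (fun z => α • fderiv ℝ f z + β • fderiv ℝ h z)
        (α • fderiv ℝ (fderiv ℝ f) x + β • fderiv ℝ (fderiv ℝ h) x) x :=
      (b1.hasFDerivAt.const_smul α).add (b2.hasFDerivAt.const_smul β)
    rw [h1.fderiv_eq, d3.fderiv]
  rw [K2p_op_eq m t hs, K2p_op_eq m t hf, K2p_op_eq m t hh, h2, h1.self_of_nhds]
  simp only [add_apply, smul_apply, map_add, map_smul, smul_add,
    Finset.sum_add_distrib, Finset.smul_sum, smul_neg, neg_add]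
  have e1 : ∀ (c d : ℝ) (w : V), c • d • w = d • c • w := fun c d w => smul_comm c d w
  simp only [e1 _ α, e1 _ β]
  abel

/-- `f` is of class `C²` at the point `y` in the preferred chart. -/
def K2pC (g : Geom X V) (f : X → V) (y : X) : Prop :=
  ContDiffAt ℝ 2 (fun z => f ((g.psi (g.ch y)).symm z)) (g.psi (g.ch y) y)

theorem K2p_L_lin (g : Geom X V) (t : ℝ) {f h : X → V} {y : X} (hf : K2pC g f y)
    (hh : K2pC g h y) (α β : ℝ) :
    g.L t (fun y => α • f y + β • h y) y = α • g.L t f y + β • g.L t h y :=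
  K2p_op_lin _ t hf hh α β

theorem K2p_C_of_nice {g : Geom X V} {k : ℕ} {T C : ℝ} {u : ℝ → X → V} (hk : 2 ≤ k)
    (h : g.Nice k T C u) {t : ℝ} (ht : t ∈ Icc 0 T) (y : X) : K2pC g (u t) y :=
  K2p_cd2 (K2p_nice_mono h hk le_rfl le_rfl) ht _ (by linarith [(K2p_ch g y).2])

theorem K2p_C_lin {g : Geom X V} {f h : X → V} {y : X} (hf : K2pC g f y)
    (hh : K2pC g h y) (α β : ℝ) : K2pC g (fun y => α • f y + β • h y) y :=
  (hf.const_smul α).add (hh.const_smul β)

theorem K2p_norm_bv (i : Fin 4) : ‖bv i‖ = 1 := by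
  simp [bv]

/-- Bound of the operator in terms of the coefficients. -/
theorem K2p_op_bound (m : Model V) (t : ℝ) {f : E4 → V} {x : E4} (hf : ContDiffAt ℝ 2 f x) {A : ℝ}
    (h0 : ‖f x‖ ≤ A) (h1 : ‖fderiv ℝ f x‖ ≤ A) (h2 : ‖fderiv ℝ (fderiv ℝ f) x‖ ≤ A) :
    ‖m.op t f x‖ ≤ ((∑ i, ∑ j, |m.a (t, x) i j|) + (∑ i, ‖m.b (t, x) i‖) + ‖m.c (t, x)‖) * A := by
  rw [K2p_op_eq m t hf, add_mul, add_mul]
  refine (norm_add_le _ _).trans (add_le_add ((norm_add_le _ _).trans (add_le_add ?_ ?_)) ?_)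
  · rw [norm_neg, Finset.sum_mul]
    refine (norm_sum_le _ _).trans (Finset.sum_le_sum fun i _ => ?_)
    rw [Finset.sum_mul]
    refine (norm_sum_le _ _).trans (Finset.sum_le_sum fun j _ => ?_)
    rw [norm_smul, Real.norm_eq_abs]
    gcongr
    calc ‖fderiv ℝ (fderiv ℝ f) x (bv i) (bv j)‖
        ≤ ‖fderiv ℝ (fderiv ℝ f) x (bv i)‖ * ‖bv j‖ := ContinuousLinearMap.le_opNorm _ _
      _ ≤ (‖fderiv ℝ (fderiv ℝ f) x‖ * ‖bv i‖) * ‖bv j‖ := by
          gcongr
          exact ContinuousLinearMap.le_opNorm _ _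
      _ ≤ A := by rw [K2p_norm_bv, K2p_norm_bv, mul_one, mul_one]; exact h2
  · rw [Finset.sum_mul]
    refine (norm_sum_le _ _).trans (Finset.sum_le_sum fun i _ => ?_)
    refine (ContinuousLinearMap.le_opNorm _ _).trans ?_
    gcongr
    refine (ContinuousLinearMap.le_opNorm _ _).trans ?_
    rw [K2p_norm_bv, mul_one]
    exact h1
  · refine (ContinuousLinearMap.le_opNorm _ _).trans ?_
    gcongr

theorem K2p_L_bound (g : Geom X V) : ∃ B : ℝ, 0 ≤ B ∧ ∀ (T C : ℝ) (u : ℝ → X → V),
    g.Nice 2 T C u → ∀ t ∈ Icc 0 T, ∀ y, ‖g.L 0 (u t) y‖ ≤ B * C := by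
  classical
  have := g.finJ
  have := Fintype.ofFinite g.J
  have hj : ∀ j : g.J, ∃ B : ℝ, 0 ≤ B ∧ ∀ x ∈ Metric.closedBall (0 : E4) 1,
      ((∑ i, ∑ l, |(g.model j).a (0, x) i l|) + (∑ i, ‖(g.model j).b (0, x) i‖) +
        ‖(g.model j).c (0, x)‖) ≤ B := by
    intro j
    have hsl : Continuous fun x : E4 => ((0 : ℝ), x) := by fun_prop
    have ha : ∀ k l, Continuous fun x : E4 => (g.model j).a (0, x) k l := fun k l =>
      ((g.model j).a_smooth k l).continuous.comp hsl
    have hb : ∀ k, Continuous fun x : E4 => (g.model j).b (0, x) k := fun k =>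
      ((g.model j).b_smooth k).continuous.comp hsl
    have hc : Continuous fun x : E4 => (g.model j).c (0, x) :=
      (g.model j).c_smooth.continuous.comp hsl
    have hcont : Continuous fun x : E4 => ((∑ i, ∑ l, |(g.model j).a (0, x) i l|) +
        (∑ i, ‖(g.model j).b (0, x) i‖) + ‖(g.model j).c (0, x)‖) := by
      refine ((continuous_finsetSum _ fun k _ => continuous_finsetSum _ fun l _ =>
        (ha k l).abs).add (continuous_finsetSum _ fun k _ => (hb k).norm)).add hc.norm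
    obtain ⟨B, hB⟩ := ((isCompact_closedBall (0 : E4) 1).image hcont).bddAbove
    refine ⟨max B 0, le_max_right _ _, fun x hx => (hB ⟨x, hx, rfl⟩).trans (le_max_left _ _)⟩
  choose B hB0 hB using hj
  refine ⟨∑ j, B j, Finset.sum_nonneg fun j _ => hB0 j, ?_⟩
  intro T C u hu t ht y
  have hch := K2p_ch g y
  set i := g.ch y with hi
  set x := g.psi i y with hx
  have hx1 : ‖x‖ < 3 / 2 := by linarith [hch.2]
  have hcd := K2p_cd2 hu ht i hx1
  have heq := K2p_eq (g := g) (u := u) i t hx1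
  have hC : 0 ≤ C := (norm_nonneg _).trans (K2p_bound hu ht y)
  have e0 : ‖u t ((g.psi i).symm x)‖ ≤ C := K2p_bound hu ht _
  have e1 : ‖fderiv ℝ (fun z => u t ((g.psi i).symm z)) x‖ ≤ C := by
    have h3 := (hu i).2.2 1 (by norm_num) t ht x
    rw [norm_iteratedFDeriv_one, heq.fderiv_eq] at h3
    exact h3
  have e2 : ‖fderiv ℝ (fderiv ℝ (fun z => u t ((g.psi i).symm z))) x‖ ≤ C := by
    have h3 := (hu i).2.2 2 (by norm_num) t ht x
    rw [show (2 : ℕ) = 1 + 1 from rfl, ← norm_iteratedFDeriv_fderiv, norm_iteratedFDeriv_one,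
      heq.fderiv.fderiv_eq] at h3
    exact h3
  refine (K2p_op_bound (g.mdl i) 0 hcd e0 e1 e2).trans ?_
  gcongr
  refine (hB (g.mod i) x (by rw [mem_closedBall_zero_iff]; exact hch.2.le)).trans ?_
  exact Finset.single_le_sum (f := B) (fun j _ => hB0 j) (Finset.mem_univ _)

/-! ### From the integral equation to the differential equation -/

theorem K2p_op_cont {g : Geom X V} (hconst : ∀ j t x, (g.model j).a (t, x) = (g.model j).a (0, x))
    (hconstb : ∀ j t x, (g.model j).b (t, x) = (g.model j).b (0, x))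
    (hconstc : ∀ j t x, (g.model j).c (t, x) = (g.model j).c (0, x))
    {T C : ℝ} {u : ℝ → X → V} (h : g.Nice 2 T C u) (i : g.I) {x : E4} (hx : ‖x‖ < 3 / 2) :
    ContinuousOn (fun τ => (g.mdl i).op τ (fun z => u τ ((g.psi i).symm z)) x) (Icc 0 T) := by
  have h3 : ContinuousOn (fun τ : ℝ => (τ, x)) (Icc 0 T) := by fun_prop
  have hmt : MapsTo (fun τ : ℝ => (τ, x)) (Icc 0 T) (Icc 0 T ×ˢ univ) :=
    fun τ hτ => mk_mem_prod hτ (mem_univ _)
  have k0 : ContinuousOn (fun τ : ℝ => etaC x • u τ ((g.psi i).symm x)) (Icc 0 T) :=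
    ContinuousOn.comp (g := fun p : ℝ × E4 => etaC p.2 • u p.1 ((g.psi i).symm p.2))
      (f := fun τ : ℝ => (τ, x)) (C7a_nice_cont (h i)) h3 hmt
  have k1 : ContinuousOn (fun τ : ℝ => iteratedFDeriv ℝ 1
      (fun z => etaC z • u τ ((g.psi i).symm z)) x) (Icc 0 T) :=
    ContinuousOn.comp (g := fun p : ℝ × E4 => iteratedFDeriv ℝ 1
      (fun z => etaC z • u p.1 ((g.psi i).symm z)) p.2)
      (f := fun τ : ℝ => (τ, x)) ((h i).2.1 1 (by norm_num)) h3 hmt
  have k2 : ContinuousOn (fun τ : ℝ => iteratedFDeriv ℝ 2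
      (fun z => etaC z • u τ ((g.psi i).symm z)) x) (Icc 0 T) :=
    ContinuousOn.comp (g := fun p : ℝ × E4 => iteratedFDeriv ℝ 2
      (fun z => etaC z • u p.1 ((g.psi i).symm z)) p.2)
      (f := fun τ : ℝ => (τ, x)) ((h i).2.1 2 (by norm_num)) h3 hmt
  have h5 : ContinuousOn (fun τ => -(∑ k, ∑ l, (g.mdl i).a (0, x) k l •
      iteratedFDeriv ℝ 2 (fun z => etaC z • u τ ((g.psi i).symm z)) x ![bv k, bv l]) +
      (∑ k, (g.mdl i).b (0, x) k (iteratedFDeriv ℝ 1
        (fun z => etaC z • u τ ((g.psi i).symm z)) x ![bv k])) +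
      (g.mdl i).c (0, x) (etaC x • u τ ((g.psi i).symm x))) (Icc 0 T) := by
    refine ContinuousOn.add (ContinuousOn.add (ContinuousOn.neg ?_) ?_) ?_
    · refine continuousOn_finsetSum _ fun k _ => continuousOn_finsetSum _ fun l _ => ?_
      refine ContinuousOn.const_smul ?_ _
      exact (ContinuousMultilinearMap.apply ℝ (fun _ : Fin 2 => E4) V
        ![bv k, bv l]).continuous.comp_continuousOn k2
    · refine continuousOn_finsetSum _ fun k _ => ?_
      refine ((g.mdl i).b (0, x) k).continuous.comp_continuousOn ?_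
      exact (ContinuousMultilinearMap.apply ℝ (fun _ : Fin 1 => E4) V
        ![bv k]).continuous.comp_continuousOn k1
    · exact ((g.mdl i).c (0, x)).continuous.comp_continuousOn k0
  refine h5.congr fun τ hτ => ?_
  have heq := K2p_eq (g := g) (u := u) i τ hx
  rw [K2p_op_eq _ _ (K2p_cd2 h hτ i hx)]
  have ea : (g.mdl i).a (τ, x) = (g.mdl i).a (0, x) := hconst _ _ _
  have eb : (g.mdl i).b (τ, x) = (g.mdl i).b (0, x) := hconstb _ _ _
  have ec : (g.mdl i).c (τ, x) = (g.mdl i).c (0, x) := hconstc _ _ _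
  rw [ea, eb, ec]
  have e1 : ∀ v, iteratedFDeriv ℝ 1 (fun z => etaC z • u τ ((g.psi i).symm z)) x ![v] =
      fderiv ℝ (fun z => u τ ((g.psi i).symm z)) x v := by
    intro v
    rw [iteratedFDeriv_one_apply, heq.fderiv_eq]
    rfl
  have e2 : ∀ v w, iteratedFDeriv ℝ 2 (fun z => etaC z • u τ ((g.psi i).symm z)) x ![v, w] =
      fderiv ℝ (fderiv ℝ (fun z => u τ ((g.psi i).symm z))) x v w := by
    intro v w
    rw [iteratedFDeriv_two_apply, heq.fderiv.fderiv_eq]
    rfl
  simp only [e1, e2]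
  rw [K2p_eta hx.le, one_smul]

end K2pbasic

section K2pheat

variable {X : Type} [TopologicalSpace X] [MeasurableSpace X] {V : Type}
  [NormedAddCommGroup V] [InnerProductSpace ℝ V] [FiniteDimensional ℝ V]

theorem K2p_op_const (D : HeatData X V) (i : D.g.I) (t : ℝ) (f : E4 → V) (x : E4) :
    (D.g.mdl i).op t f x = (D.g.mdl i).op 0 f x := by
  have ea : (D.g.mdl i).a (t, x) = (D.g.mdl i).a (0, x) := D.a_const _ _ _
  have eb : (D.g.mdl i).b (t, x) = (D.g.mdl i).b (0, x) := D.b_const _ _ _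
  have ec : (D.g.mdl i).c (t, x) = (D.g.mdl i).c (0, x) := D.c_const _ _ _
  unfold Model.op
  rw [ea, eb, ec]

theorem K2p_solves_zero {g : Geom X V} {T : ℝ} (hT : 0 ≤ T) {r U : ℝ → X → V}
    (hS : g.Solves T r U) (y : X) : U 0 y = 0 := by
  have h := hS (g.ch y) 0 ⟨le_rfl, hT⟩ (g.psi (g.ch y) y) (by linarith [(K2p_ch g y).2])
  rw [K2p_ch_inv, intervalIntegral.integral_same] at h
  exact h

theorem K2p_solves_deriv (D : HeatData X V) {k : ℕ} {T C C' : ℝ} {r U : ℝ → X → V}
    (hr : D.g.Nice k T C r) (hU : D.g.Nice 2 T C' U) (hS : D.g.Solves T r U) {t : ℝ}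
    (ht : t ∈ Icc 0 T) (y : X) :
    HasDerivWithinAt (fun s => U s y) (r t y - D.g.L 0 (U t) y) (Icc 0 T) t := by
  set i := D.g.ch y with hi
  set x := D.g.psi i y with hx
  have hx1 : ‖x‖ < 3 / 2 := by linarith [(K2p_ch D.g y).2]
  have hxy : (D.g.psi i).symm x = y := K2p_ch_inv D.g y
  set F : ℝ → V := fun τ => r τ ((D.g.psi i).symm x) -
      (D.g.mdl i).op τ (fun z => U τ ((D.g.psi i).symm z)) x with hF
  have hFc : ContinuousOn F (Icc 0 T) := by
    refine ContinuousOn.sub ?_ (K2p_op_cont D.a_const D.b_const D.c_const hU i hx1)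
    exact ContinuousOn.comp (g := fun p : ℝ × X => r p.1 p.2)
      (f := fun τ : ℝ => (τ, (D.g.psi i).symm x)) (K2p_cont hr) (by fun_prop)
      fun τ hτ => mk_mem_prod hτ (mem_univ _)
  have h1 : IntervalIntegrable F volume 0 t :=
    (hFc.mono (by rw [uIcc_of_le ht.1]; exact Icc_subset_Icc_right ht.2)).intervalIntegrable
  have h3 : StronglyMeasurableAtFilter F (𝓝[Icc 0 T] t) volume :=
    ⟨Icc 0 T, self_mem_nhdsWithin, hFc.aestronglyMeasurable measurableSet_Icc⟩
  have : Fact (t ∈ Icc 0 T) := ⟨ht⟩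
  have h4 := intervalIntegral.integral_hasDerivWithinAt_right (s := Icc 0 T) h1 h3 (hFc t ht)
  have h5 : ∀ s ∈ Icc 0 T, U s y = ∫ τ in (0 : ℝ)..s, F τ := by
    intro s hs
    calc U s y = U s ((D.g.psi i).symm x) := by rw [hxy]
      _ = _ := hS i s hs x hx1
  have h6 : F t = r t y - D.g.L 0 (U t) y := by
    simp only [hF]
    rw [hxy, K2p_op_const]
    rfl
  rw [← h6]
  exact h4.congr (fun s hs => h5 s hs) (h5 t ht)

theorem K2p_sem_zero {D : HeatData X V} {Tm : ℝ → (X → V) → X → V} (hTm : D.IsSemigroup Tm)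
    {t : ℝ} (ht : 0 ≤ t) : Tm t (fun _ => 0) = fun _ => 0 := by
  have hs : D.g.Smooth (fun _ : X => (0 : V)) := by
    intro i
    simp only [smul_zero]
    exact contDiff_const
  have := hTm.smul 0 (fun _ => 0) hs t ht
  simpa using this

theorem K2p_unique {D : HeatData X V} {Tm : ℝ → (X → V) → X → V} (hTm : D.IsSemigroup Tm)
    {T C : ℝ} (hT : 0 < T) {u : ℝ → X → V} (hu : D.g.Nice 2 T C u) (h0 : ∀ y, u 0 y = 0)
    (hd : ∀ t ∈ Icc 0 T, ∀ y, HasDerivWithinAt (fun s => u s y) (-D.g.L 0 (u t) y) (Icc 0 T) t) :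
    ∀ t ∈ Icc 0 T, ∀ y, u t y = 0 := by
  intro t ht y
  have h00 : u 0 = fun _ => 0 := funext h0
  have hs : D.g.Smooth (u 0) := by
    rw [h00]
    intro i
    simp only [smul_zero]
    exact contDiff_const
  have := hTm.unique T C u hT hu hs hd t ht
  rw [this, h00, K2p_sem_zero hTm ht.1]

/-- Linearity of the Duhamel operator. -/
theorem K2p_duh_lin {D : HeatData X V} {Tm : ℝ → (X → V) → X → V} (hTm : D.IsSemigroup Tm)
    {k : ℕ} (hk : 2 ≤ k) {T : ℝ} (hT : 0 < T) {r r1 r2 U U1 U2 : ℝ → X → V}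
    {C C1 C2 A A1 A2 : ℝ} (hr : D.g.Nice k T C r) (hr1 : D.g.Nice k T C1 r1)
    (hr2 : D.g.Nice k T C2 r2) (hU : D.g.Nice k T A U) (hU1 : D.g.Nice k T A1 U1)
    (hU2 : D.g.Nice k T A2 U2) (hS : D.g.Solves T r U) (hS1 : D.g.Solves T r1 U1)
    (hS2 : D.g.Solves T r2 U2) (α β : ℝ)
    (hlin : ∀ t ∈ Icc 0 T, ∀ y, r t y = α • r1 t y + β • r2 t y) :
    ∀ t ∈ Icc 0 T, ∀ y, U t y = α • U1 t y + β • U2 t y := by
  have n0 := K2p_nice_mono hU hk le_rfl le_rfl
  have n1 := K2p_nice_mono hU1 hk le_rfl le_rfl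
  have n2 := K2p_nice_mono hU2 hk le_rfl le_rfl
  have hN := K2p_nice_add n0 (K2p_nice_neg (K2p_nice_add (K2p_nice_smul α n1)
    (K2p_nice_smul β n2)))
  have hz := K2p_unique hTm hT hN ?_ ?_
  · intro t ht y
    have := hz t ht y
    rwa [← sub_eq_add_neg, sub_eq_zero] at this
  · intro y
    rw [K2p_solves_zero hT.le hS, K2p_solves_zero hT.le hS1, K2p_solves_zero hT.le hS2]
    simp
  · intro t ht y
    have d0 := K2p_solves_deriv D hr n0 hS ht y
    have d1 := K2p_solves_deriv D hr1 n1 hS1 ht y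
    have d2 := K2p_solves_deriv D hr2 n2 hS2 ht y
    have d3 := d0.add ((d1.const_smul α).add (d2.const_smul β)).neg
    have c0 := K2p_C_of_nice le_rfl n0 ht y
    have c1 := K2p_C_of_nice le_rfl n1 ht y
    have c2 := K2p_C_of_nice le_rfl n2 ht y
    have e1 := K2p_L_lin D.g 0 c1 c2 α β
    have e2 := K2p_L_lin D.g 0 c0 (K2p_C_lin c1 c2 α β) 1 (-1)
    have e3 : (fun y => U t y + -(α • U1 t y + β • U2 t y)) =
        fun y => (1 : ℝ) • U t y + (-1 : ℝ) • (α • U1 t y + β • U2 t y) := by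
      funext y
      rw [one_smul, neg_smul, one_smul]
    refine d3.congr_deriv ?_
    rw [e3, e2, e1, hlin t ht y]
    simp only [smul_sub, one_smul, neg_smul]
    abel

variable [CompactSpace X] [T2Space X] [BorelSpace X]

theorem K2p_integrable (D : HeatData X V) {f : X → V} (hf : Continuous f) :
    Integrable (fun x => ‖f x‖) D.mu := by
  have := D.fin
  exact hf.norm.integrable_of_hasCompactSupport (HasCompactSupport.of_compactSpace _)

theorem K2p_integral_le (D : HeatData X V) {f : X → V} (hf : Continuous f) {A : ℝ}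
    (h : ∀ x, ‖f x‖ ≤ A) : ∫ x, ‖f x‖ ∂D.mu ≤ A * D.mu.real univ := by
  have := D.fin
  calc ∫ x, ‖f x‖ ∂D.mu ≤ ∫ _x, A ∂D.mu :=
        integral_mono (K2p_integrable D hf) (integrable_const A) h
    _ = A * D.mu.real univ := by rw [integral_const, smul_eq_mul, mul_comm]

end K2pheat

/-- The correction of an approximate solution with a pole, with an arbitrary property `Q` of the
coefficients of the expansion. -/
theorem K2p_gen (h9 : claimDuhamel) (h1 : claimSemigroup)
    (X : Type) [TopologicalSpace X] [CompactSpace X] [T2Space X] [MeasurableSpace X] [BorelSpace X]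
    (V : Type) [NormedAddCommGroup V] [InnerProductSpace ℝ V] [FiniteDimensional ℝ V]
    (D : HeatData X V) (k : ℕ) (T0 : ℝ) (hk : 2 ≤ k) (hT0 : 0 < T0)
    (Q : (ℕ → X → V →L[ℝ] V) → Prop)
    (hpole : ∃ (h e : X → V → ℝ → X → V) (C : ℝ),
      (∀ y v, D.IsApprox T0 y v (h y v) (e y v)) ∧
      (∀ y v w t x, h y (v + w) t x = h y v t x + h y w t x) ∧
      (∀ y (c : ℝ) v t x, h y (c • v) t x = c • h y v t x) ∧
      (∀ y v, D.g.Nice k T0 (C * ‖v‖) (e y v)) ∧
      (∀ y v, ∀ t ∈ Icc 0 T0, ∀ x, ‖e y v t x‖ ≤ C * ‖v‖ * t ^ 2) ∧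
      (∀ v, ContinuousOn (fun p : ℝ × X × X => h p.2.2 v p.1 p.2.1) (Ioi 0 ×ˢ univ)) ∧
      (∀ v y, ∀ ε > 0, ∀ᶠ y' in 𝓝 y, D.g.Nice k T0 ε fun t x => e y' v t x - e y v t x) ∧
      (∀ y v, ∀ t ∈ Ioc 0 T0, ∫ x, ‖h y v t x‖ ∂D.mu ≤ C * ‖v‖) ∧
      (∀ δ > 0, ∃ C', ∀ y v, D.g.Nice k (T0 - δ) (C' * ‖v‖) fun t => h y v (t + δ)) ∧
      ∃ (c : ℕ → X → V →L[ℝ] V), Q c ∧
        ∀ t ∈ Ioc (0 : ℝ) T0, ∀ y v,
          ‖t ^ 2 • h y v t y - ∑ w ∈ Finset.range 5, Real.sqrt t ^ w • c w y v‖ ≤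
            C * ‖v‖ * Real.sqrt t ^ 5) :
    ∃ (h : X → V → ℝ → X → V) (C : ℝ),
      (∀ y v, D.IsApprox T0 y v (h y v) (fun _ _ => 0)) ∧
      (∀ y v w, ∀ t ∈ Ioc 0 T0, ∀ x, h y (v + w) t x = h y v t x + h y w t x) ∧
      (∀ y (c : ℝ) v, ∀ t ∈ Ioc 0 T0, ∀ x, h y (c • v) t x = c • h y v t x) ∧
      (∀ v, ContinuousOn (fun p : ℝ × X × X => h p.2.2 v p.1 p.2.1) (Ioc 0 T0 ×ˢ univ)) ∧
      (∀ y v, ∀ t ∈ Ioc 0 T0, ∫ x, ‖h y v t x‖ ∂D.mu ≤ C * ‖v‖) ∧
      (∀ δ > 0, ∃ C', ∀ y v, D.g.Nice k (T0 - δ) (C' * ‖v‖) fun t => h y v (t + δ)) ∧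
      ∃ (c : ℕ → X → V →L[ℝ] V), Q c ∧
        ∀ t ∈ Ioc (0 : ℝ) T0, ∀ y v,
          ‖t ^ 2 • h y v t y - ∑ w ∈ Finset.range 5, Real.sqrt t ^ w • c w y v‖ ≤
            C * ‖v‖ * Real.sqrt t ^ 5 := by
  obtain ⟨Tm, hTm⟩ := h1 X V D
  obtain ⟨h, e, C0, hA, hadd, hsmul, heN0, heB0, hcont, hecont, hl10, hnice0, c, hc, hexp0⟩ :=
    hpole
  obtain ⟨S, K, hK, hS, -⟩ := h9 X V D.g k T0 hk hT0
  have := D.fin
  -- a nonnegative constant
  set C : ℝ := max C0 0 with hCdef
  have hC : 0 ≤ C := le_max_right _ _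
  have hCC : C0 ≤ C := le_max_left _ _
  have hCv : ∀ v : V, C0 * ‖v‖ ≤ C * ‖v‖ := fun v => by gcongr
  have heN : ∀ y v, D.g.Nice k T0 (C * ‖v‖) (e y v) := fun y v =>
    K2p_nice_mono (heN0 y v) le_rfl le_rfl (hCv v)
  have heB : ∀ y v, ∀ t ∈ Icc 0 T0, ∀ x, ‖e y v t x‖ ≤ C * ‖v‖ * t ^ 2 := fun y v t ht x =>
    (heB0 y v t ht x).trans (mul_le_mul_of_nonneg_right (hCv v) (by positivity))
  -- regularity of `h` at positive times
  have hhC : ∀ y v, ∀ t ∈ Ioc 0 T0, ∀ x, K2pC D.g (h y v t) x := by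
    intro y v t ht x
    obtain ⟨A, hA1⟩ := (hA y v).nice (t / 2) (by linarith [ht.1]) (by linarith [ht.1, ht.2])
    have h3 := K2p_C_of_nice le_rfl hA1 (t := t / 2) ⟨by linarith [ht.1], by linarith [ht.2]⟩ x
    simpa using h3
  have hhcont : ∀ y v, ∀ t ∈ Ioc 0 T0, Continuous (h y v t) := by
    intro y v t ht
    obtain ⟨A, hA1⟩ := (hA y v).nice (t / 2) (by linarith [ht.1]) (by linarith [ht.1, ht.2])
    have h3 := K2p_cont_slice hA1 (t := t / 2) ⟨by linarith [ht.1], by linarith [ht.2]⟩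
    simpa using h3
  -- linearity of `e`
  have he0 : ∀ y v x, e y v 0 x = 0 := by
    intro y v x
    have := heB y v 0 ⟨le_rfl, hT0.le⟩ x
    simpa using this
  have helin : ∀ y (α β : ℝ) v w, ∀ t ∈ Icc 0 T0, ∀ x,
      e y (α • v + β • w) t x = α • e y v t x + β • e y w t x := by
    intro y α β v w t ht x
    rcases eq_or_lt_of_le ht.1 with h0 | h0
    · subst h0
      simp [he0]
    · have ht' : t ∈ Ioc 0 T0 := ⟨h0, ht.2⟩
      have d1 := (hA y (α • v + β • w)).deriv t ht' x
      have d2 := ((hA y v).deriv t ht' x).const_smul α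
      have d3 := ((hA y w).deriv t ht' x).const_smul β
      have d4 := d2.add d3
      have hfun : ∀ s x, h y (α • v + β • w) s x = α • h y v s x + β • h y w s x := by
        intro s x
        rw [hadd, hsmul, hsmul]
      have e1 : (fun s => h y (α • v + β • w) s x) =
          (α • fun s => h y v s x) + (β • fun s => h y w s x) := by
        funext s
        rw [hfun]
        rfl
      rw [e1] at d1
      have e2 : h y (α • v + β • w) t = fun x => α • h y v t x + β • h y w t x := by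
        funext x
        rw [hfun]
      rw [e2, K2p_L_lin D.g 0 (hhC y v t ht' x) (hhC y w t ht' x)] at d1
      have h5 := (uniqueDiffOn_Ioc (0 : ℝ) T0 t ht').eq_deriv _ d1 d4
      simp only [smul_add, smul_neg] at h5
      have h6 : e y (α • v + β • w) t x = (-(α • D.g.L 0 (h y v t) x + β • D.g.L 0 (h y w t) x) +
          e y (α • v + β • w) t x) + (α • D.g.L 0 (h y v t) x + β • D.g.L 0 (h y w t) x) := by
        abel
      rw [h6, h5]
      abel
  -- the correction
  set U : X → V → ℝ → X → V := fun y v => S (fun t x => -e y v t x) with hU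
  have hrN : ∀ y v, D.g.Nice k T0 (C * ‖v‖) (fun t x => -e y v t x) := fun y v =>
    K2p_nice_neg (heN y v)
  have hUN : ∀ y v, D.g.Nice k T0 (K * (C * ‖v‖)) (U y v) := fun y v => (hS _ _ (hrN y v)).1
  have hUS : ∀ y v, D.g.Solves T0 (fun t x => -e y v t x) (U y v) := fun y v =>
    (hS _ _ (hrN y v)).2
  have hUN2 : ∀ y v, D.g.Nice 2 T0 (K * (C * ‖v‖)) (U y v) := fun y v =>
    K2p_nice_mono (hUN y v) hk le_rfl le_rfl
  have hUd : ∀ y v, ∀ t ∈ Icc 0 T0, ∀ x,
      HasDerivWithinAt (fun s => U y v s x) (-e y v t x - D.g.L 0 (U y v t) x) (Icc 0 T0) t :=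
    fun y v t ht x => K2p_solves_deriv D (hrN y v) (hUN2 y v) (hUS y v) ht x
  obtain ⟨B, hB, hLB⟩ := K2p_L_bound D.g
  set M : ℝ := C * T0 ^ 2 + B * (K * C) with hM
  have hM0 : 0 ≤ M := by positivity
  have hUt : ∀ y v, ∀ t ∈ Icc 0 T0, ∀ x, ‖U y v t x‖ ≤ M * ‖v‖ * t := by
    intro y v t ht x
    have h3 := norm_image_sub_le_of_norm_deriv_le_segment' (f := fun s => U y v s x)
      (C := M * ‖v‖) (hUd y v · · x) (fun s hs => ?_) t ht
    · simp only [K2p_solves_zero hT0.le (hUS y v), sub_zero] at h3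
      exact h3
    · have hs' : s ∈ Icc 0 T0 := ⟨hs.1, hs.2.le⟩
      calc ‖-e y v s x - D.g.L 0 (U y v s) x‖ ≤ ‖e y v s x‖ + ‖D.g.L 0 (U y v s) x‖ := by
            rw [← norm_neg (e y v s x)]
            exact norm_sub_le _ _
        _ ≤ C * ‖v‖ * s ^ 2 + B * (K * (C * ‖v‖)) :=
            add_le_add (heB y v s hs' x) (hLB _ _ _ (hUN2 y v) s hs' x)
        _ ≤ C * ‖v‖ * T0 ^ 2 + B * (K * (C * ‖v‖)) := by
            gcongr
            · exact hs.1
            · exact hs.2.le
        _ = M * ‖v‖ := by rw [hM]; ring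
  have hUlin : ∀ y (α β : ℝ) v w, ∀ t ∈ Icc 0 T0, ∀ x,
      U y (α • v + β • w) t x = α • U y v t x + β • U y w t x := by
    intro y α β v w
    refine K2p_duh_lin hTm hk hT0 (hrN _ _) (hrN _ _) (hrN _ _) (hUN _ _) (hUN _ _) (hUN _ _)
      (hUS _ _) (hUS _ _) (hUS _ _) α β ?_
    intro t ht x
    rw [helin y α β v w t ht x]
    simp only [smul_neg, neg_add]
  have hUcont : ∀ y v, ∀ t ∈ Icc 0 T0, Continuous (U y v t) := fun y v t ht =>
    K2p_cont_slice (hUN y v) ht
  have hl : ∀ y v, ∀ t ∈ Ioc 0 T0, ∫ x, ‖h y v t x + U y v t x‖ ∂D.mu ≤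
      ∫ x, ‖h y v t x‖ ∂D.mu + M * ‖v‖ * T0 * D.mu.real univ := by
    intro y v t ht
    have ht' : t ∈ Icc 0 T0 := ⟨ht.1.le, ht.2⟩
    have i1 := K2p_integrable D (hhcont y v t ht)
    have i2 := K2p_integrable D (hUcont y v t ht')
    calc ∫ x, ‖h y v t x + U y v t x‖ ∂D.mu ≤ ∫ x, (‖h y v t x‖ + ‖U y v t x‖) ∂D.mu :=
          integral_mono (K2p_integrable D ((hhcont y v t ht).add (hUcont y v t ht')))
            (i1.add i2) fun x => norm_add_le _ _
      _ = ∫ x, ‖h y v t x‖ ∂D.mu + ∫ x, ‖U y v t x‖ ∂D.mu := integral_add i1 i2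
      _ ≤ _ := by
          gcongr
          refine K2p_integral_le D (hUcont y v t ht') fun x => (hUt y v t ht' x).trans ?_
          gcongr
          exact ht.2
  refine ⟨fun y v t x => h y v t x + U y v t x,
    C + M * T0 * D.mu.real univ + M * Real.sqrt T0, ?_, ?_, ?_, ?_, ?_, ?_, c, hc, ?_⟩
  · -- the exact solution
    intro y v
    refine ⟨?_, ?_, ⟨0, fun t _ x => by simp⟩, continuousOn_const, ?_, ?_⟩
    · intro δ hδ hδT
      obtain ⟨A, hA1⟩ := (hA y v).nice δ hδ hδT
      exact ⟨_, K2p_nice_add hA1 (K2p_nice_shift hδ.le (hUN2 y v))⟩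
    · intro t ht x
      have ht' : t ∈ Icc 0 T0 := ⟨ht.1.le, ht.2⟩
      have d1 := (hA y v).deriv t ht x
      have d2 := (hUd y v t ht' x).mono Ioc_subset_Icc_self
      have c1 := hhC y v t ht x
      have c2 := K2p_C_of_nice hk (hUN y v) ht' x
      have e1 := K2p_L_lin D.g 0 c1 c2 1 1
      simp only [one_smul] at e1
      refine (d1.add d2).congr_deriv ?_
      simp only
      rw [e1]
      abel
    · obtain ⟨A, hA1⟩ := (hA y v).l1
      exact ⟨_, fun t ht => (hl y v t ht).trans (add_le_add (hA1 t ht) le_rfl)⟩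
    · intro f hf
      have hfc := K2p_smooth_cont hf
      obtain ⟨F, hF⟩ := isCompact_univ.exists_bound_of_continuousOn hfc.continuousOn
      have hF' : ∀ x, ‖f x‖ ≤ F := fun x => hF x (mem_univ x)
      have h3 : Tendsto (fun t => ∫ x, ⟪U y v t x, f x⟫ ∂D.mu) (𝓝[>] 0) (𝓝 0) := by
        refine squeeze_zero_norm' (a := fun t => M * ‖v‖ * t * F * D.mu.real univ) ?_ ?_
        · filter_upwards [Ioc_mem_nhdsGT hT0] with t ht
          have ht' : t ∈ Icc 0 T0 := ⟨ht.1.le, ht.2⟩
          refine norm_integral_le_of_norm_le_const (Eventually.of_forall fun x => ?_)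
          refine (norm_inner_le_norm _ _).trans ?_
          exact mul_le_mul (hUt y v t ht' x) (hF' x) (norm_nonneg _)
            ((norm_nonneg _).trans (hUt y v t ht' x))
        · have h4 : Continuous fun t : ℝ => M * ‖v‖ * t * F * D.mu.real univ := by fun_prop
          have h5 := h4.tendsto 0
          simp only [mul_zero, zero_mul] at h5
          exact h5.mono_left nhdsWithin_le_nhds
      have h4 := ((hA y v).init f hf).add h3
      rw [add_zero] at h4
      refine h4.congr' ?_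
      filter_upwards [Ioc_mem_nhdsGT hT0] with t ht
      have ht' : t ∈ Icc 0 T0 := ⟨ht.1.le, ht.2⟩
      have i1 : Integrable (fun x => ⟪h y v t x, f x⟫) D.mu :=
        ((hhcont y v t ht).inner hfc).integrable_of_hasCompactSupport
          (HasCompactSupport.of_compactSpace _)
      have i2 : Integrable (fun x => ⟪U y v t x, f x⟫) D.mu :=
        ((hUcont y v t ht').inner hfc).integrable_of_hasCompactSupport
          (HasCompactSupport.of_compactSpace _)
      rw [← integral_add i1 i2]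
      simp only [inner_add_left]
  · intro y v w t ht x
    have ht' : t ∈ Icc 0 T0 := ⟨ht.1.le, ht.2⟩
    have h3 := hUlin y 1 1 v w t ht' x
    simp only [one_smul] at h3
    simp only
    rw [h3, hadd]
    abel
  · intro y α v t ht x
    have ht' : t ∈ Icc 0 T0 := ⟨ht.1.le, ht.2⟩
    have h3 := hUlin y α 0 v 0 t ht' x
    simp only [zero_smul, add_zero] at h3
    simp only
    rw [h3, hsmul, smul_add]
  · intro v
    refine ((hcont v).mono (Set.prod_mono Ioc_subset_Ioi_self (Subset.refl _))).add ?_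
    rintro ⟨t, x, y⟩ ⟨ht, -⟩
    have ht' : t ∈ Icc 0 T0 := ⟨ht.1.le, ht.2⟩
    have hj := K2p_cont (hUN y v) (t, x) (mk_mem_prod ht' (mem_univ _))
    rw [Metric.continuousWithinAt_iff'] at hj ⊢
    intro ε hε
    have hK1 : 0 < 2 * (K + 1) := by positivity
    have h3 := hecont v y (ε / (2 * (K + 1))) (by positivity)
    have h4 : ∀ᶠ p : ℝ × X × X in 𝓝[Ioc 0 T0 ×ˢ univ] (t, x, y),
        D.g.Nice k T0 (ε / (2 * (K + 1))) fun s z => e p.2.2 v s z - e y v s z := by
      have h5 : Tendsto (fun p : ℝ × X × X => p.2.2) (𝓝 (t, x, y)) (𝓝 y) := by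
        have : Continuous fun p : ℝ × X × X => p.2.2 := by fun_prop
        exact this.tendsto (t, x, y)
      exact nhdsWithin_le_nhds (h5.eventually h3)
    have h6 : ∀ᶠ p : ℝ × X × X in 𝓝[Ioc 0 T0 ×ˢ univ] (t, x, y),
        dist (U y v p.1 p.2.1) (U y v t x) < ε / 2 := by
      have h7 := hj (ε / 2) (by positivity)
      have h8 : Tendsto (fun p : ℝ × X × X => (p.1, p.2.1)) (𝓝[Ioc 0 T0 ×ˢ univ] (t, x, y))
          (𝓝[Icc 0 T0 ×ˢ univ] (t, x)) := by
        refine tendsto_nhdsWithin_of_tendsto_nhds_of_eventually_within _ ?_ ?_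
        · have : Continuous fun p : ℝ × X × X => (p.1, p.2.1) := by fun_prop
          exact (this.tendsto (t, x, y)).mono_left nhdsWithin_le_nhds
        · filter_upwards [self_mem_nhdsWithin] with p hp
          exact mk_mem_prod (Ioc_subset_Icc_self hp.1) (mem_univ _)
      exact h8.eventually h7
    filter_upwards [h4, h6, self_mem_nhdsWithin] with p hp4 hp6 hp
    have hp1 : p.1 ∈ Icc 0 T0 := Ioc_subset_Icc_self hp.1
    obtain ⟨hn, hs⟩ := hS _ _ (K2p_nice_neg hp4)
    have h9 := K2p_duh_lin hTm hk hT0 (K2p_nice_neg hp4) (hrN p.2.2 v) (hrN y v) hn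
      (hUN p.2.2 v) (hUN y v) hs (hUS p.2.2 v) (hUS y v) 1 (-1) (fun s _ z => by
        simp only [one_smul, neg_smul]
        abel) p.1 hp1 p.2.1
    have h10 := K2p_bound hn hp1 p.2.1
    rw [h9, one_smul, neg_smul, one_smul, ← sub_eq_add_neg, ← dist_eq_norm] at h10
    have h11 : K * (ε / (2 * (K + 1))) < ε / 2 := by
      have : K * (ε / (2 * (K + 1))) = ε / 2 * (K / (K + 1)) := by
        field_simp
      rw [this]
      have h12 : K / (K + 1) < 1 := by rw [div_lt_one (by positivity)]; linarith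
      nlinarith
    calc dist (U p.2.2 v p.1 p.2.1) (U y v t x)
        ≤ dist (U p.2.2 v p.1 p.2.1) (U y v p.1 p.2.1) + dist (U y v p.1 p.2.1) (U y v t x) :=
          dist_triangle _ _ _
      _ < ε / 2 + ε / 2 := by linarith
      _ = ε := by ring
  · intro y v t ht
    have h3 : 0 ≤ M * Real.sqrt T0 * ‖v‖ := by positivity
    calc ∫ x, ‖h y v t x + U y v t x‖ ∂D.mu
        ≤ C * ‖v‖ + M * ‖v‖ * T0 * D.mu.real univ :=
          (hl y v t ht).trans (add_le_add ((hl10 y v t ht).trans (hCv v)) le_rfl)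
      _ ≤ C * ‖v‖ + M * ‖v‖ * T0 * D.mu.real univ + M * Real.sqrt T0 * ‖v‖ := by linarith
      _ = (C + M * T0 * D.mu.real univ + M * Real.sqrt T0) * ‖v‖ := by ring
  · intro δ hδ
    obtain ⟨C', hC'⟩ := hnice0 δ hδ
    refine ⟨C' + K * C, fun y v => ?_⟩
    exact K2p_nice_mono (K2p_nice_add (hC' y v) (K2p_nice_shift hδ.le (hUN y v))) le_rfl le_rfl
      (le_of_eq (by ring))
  · intro t ht y v
    have ht' : t ∈ Icc 0 T0 := ⟨ht.1.le, ht.2⟩
    have h3 := hexp0 t ht y v
    have h4 : t ^ 2 * ‖U y v t y‖ ≤ M * Real.sqrt T0 * ‖v‖ * Real.sqrt t ^ 5 := by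
      have h5 : t = Real.sqrt t ^ 2 := (Real.sq_sqrt ht.1.le).symm
      have h6 : Real.sqrt t ≤ Real.sqrt T0 := Real.sqrt_le_sqrt ht.2
      calc t ^ 2 * ‖U y v t y‖ ≤ t ^ 2 * (M * ‖v‖ * t) := by
            gcongr
            exact hUt y v t ht' y
        _ = M * ‖v‖ * t ^ 3 := by ring
        _ = M * ‖v‖ * (Real.sqrt t * Real.sqrt t ^ 5) := by
            conv_lhs => rw [h5]
            ring
        _ ≤ M * ‖v‖ * (Real.sqrt T0 * Real.sqrt t ^ 5) := by gcongr
        _ = _ := by ring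
    have h7 : 0 ≤ M * T0 * D.mu.real univ * ‖v‖ * Real.sqrt t ^ 5 := by positivity
    calc ‖t ^ 2 • (h y v t y + U y v t y) - ∑ w ∈ Finset.range 5, Real.sqrt t ^ w • c w y v‖
        = ‖(t ^ 2 • h y v t y - ∑ w ∈ Finset.range 5, Real.sqrt t ^ w • c w y v) +
            t ^ 2 • U y v t y‖ := by
          congr 1
          rw [smul_add]
          abel
      _ ≤ C0 * ‖v‖ * Real.sqrt t ^ 5 + t ^ 2 * ‖U y v t y‖ := by
          refine (norm_add_le _ _).trans (add_le_add h3 ?_)
          rw [norm_smul, Real.norm_of_nonneg (by positivity)]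
      _ ≤ C * ‖v‖ * Real.sqrt t ^ 5 + M * Real.sqrt T0 * ‖v‖ * Real.sqrt t ^ 5 := by
          gcongr
      _ ≤ (C + M * T0 * D.mu.real univ + M * Real.sqrt T0) * ‖v‖ * Real.sqrt t ^ 5 := by
          linarith

/-- K2'. -/
theorem claimPole0_proof (h2 : claimPole) (h9 : claimDuhamel) (h1 : claimSemigroup) :
    claimPole0 := by
  intro X _ _ _ _ _ V _ _ _ D k T0 hk hT0
  exact K2p_gen h9 h1 X V D k T0 hk hT0 (fun c => ∀ w, Continuous (c w)) (h2 X V D k T0 hT0)

end NRF

end
end

section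

/-!
# Module I: assembly without hypotheses
-/

namespace NRF

theorem prf_Means : claimMeans := claimMeans_proof claimMean_proof
theorem prf_ExtTransfer : claimExtTransfer := claimExtTransfer_proof prf_Means
theorem prf_Sph : claimSph := claimSph_proof claimCube_proof
theorem prf_HAT : claimHAT := claimHAT_proof claimQ_proof prf_Sph
theorem prf_Step : claimStep :=
  claimStep_proof claimExtConn_proof claimExtLift_proof prf_ExtTransfer prf_HAT claimZS_proof
theorem prf_Contr : claimContr :=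
  claimContr_proof claimContrOf_proof claimContrDown_proof prf_Step claimStart_proof
theorem prf_Mapping : claimMapping :=
  claimMapping_proof prf_Contr claimIvanov_proof claimAlt_proof claimLiftSimp_proof

end NRF

end

section

/-!
# B3: `integralTop` is the integral of the density
-/

open scoped Manifold ContDiff Topology ENNReal
open MeasureTheory Set

noncomputable section

namespace NRF

section

variable {X : Type} [TopologicalSpace X] [ChartedSpace E4 X]

/-- The density of a top degree form with respect to a metric. -/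
def B3_f (g : Metric X) (D : Ch X → E4 → ℝ) (x : X) : ℝ :=
  D (chAt x) (chartAt E4 x x) / Real.sqrt (g.coef (chAt x) (chartAt E4 x x)).det

lemma B3_f_chart (ho : OrientedAtlas X) (g : Metric X) (D : Ch X → E4 → ℝ)
    (hD : ∀ e e' : Ch X, ∀ y ∈ (e.1.symm.trans e'.1).source,
      D e y = (fderiv ℝ (e.1.symm.trans e'.1) y).det * D e' ((e.1.symm.trans e'.1) y))
    (e : Ch X) {y : E4} (hy : y ∈ e.1.target) :
    B3_f g D (e.1.symm y) = D e y / Real.sqrt (g.coef e y).det := by
  have hs : y ∈ (e.1.symm.trans (chAt (e.1.symm y)).1).source := by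
    rw [OpenPartialHomeomorph.trans_source]
    exact ⟨hy, mem_chart_source E4 _⟩
  have h1 := B2_det (fderiv ℝ (e.1.symm.trans (chAt (e.1.symm y)).1) y) (g.coef e y)
    (g.coef (chAt (e.1.symm y)) ((e.1.symm.trans (chAt (e.1.symm y)).1) y))
    (fun i j => g.transf e (chAt (e.1.symm y)) y hs i j)
  have h2 := hD e (chAt (e.1.symm y)) y hs
  have h3 := ho e (chAt (e.1.symm y)) y hs
  rw [h1, h2, Real.sqrt_mul (sq_nonneg _), Real.sqrt_sq h3.le, mul_div_mul_left _ _ h3.ne']
  rfl

lemma B3_f_cont (ho : OrientedAtlas X) (g : Metric X) (D : Ch X → E4 → ℝ)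
    (hc : ∀ e : Ch X, ContinuousOn (D e) e.1.target)
    (hD : ∀ e e' : Ch X, ∀ y ∈ (e.1.symm.trans e'.1).source,
      D e y = (fderiv ℝ (e.1.symm.trans e'.1) y).det * D e' ((e.1.symm.trans e'.1) y)) :
    Continuous (B3_f g D) := by
  rw [continuous_iff_continuousAt]
  intro x
  set e := chAt x with he
  have hx : x ∈ e.1.source := mem_chart_source E4 x
  have h1 : ContinuousOn (fun y => Real.sqrt (g.coef e y).det) e.1.target := by
    have h2 : ContinuousOn (fun y => g.coef e y) e.1.target :=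
      continuousOn_pi.2 fun i => continuousOn_pi.2 fun j => (g.smooth e i j).continuousOn
    have h3 : Continuous fun M : Matrix (Fin 4) (Fin 4) ℝ => Real.sqrt M.det :=
      Real.continuous_sqrt.comp (Continuous.matrix_det continuous_id)
    exact h3.comp_continuousOn h2
  have h2 : ContinuousOn (fun y => D e y / Real.sqrt (g.coef e y).det) e.1.target :=
    (hc e).div h1 fun y hy => (Real.sqrt_pos.2 (g.posDef e y hy).det_pos).ne'
  have h3 : ContinuousOn (B3_f g D) e.1.source := by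
    refine (h2.comp e.1.continuousOn fun z hz => e.1.map_source hz).congr fun z hz => ?_
    have := B3_f_chart ho g D hD e (e.1.map_source hz)
    rw [e.1.left_inv hz] at this
    exact this
  exact h3.continuousAt (e.1.open_source.mem_nhds hx)

variable [T2Space X] [CompactSpace X] [IsManifold (𝓡 4) ∞ X] [MeasurableSpace X] [BorelSpace X]

omit [T2Space X] in
lemma B3_dens (h1 : claimMcoef) (ho : OrientedAtlas X) (g : Metric X) (D : Ch X → E4 → ℝ)
    (hc : ∀ e : Ch X, ContinuousOn (D e) e.1.target)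
    (hD : ∀ e e' : Ch X, ∀ y ∈ (e.1.symm.trans e'.1).source,
      D e y = (fderiv ℝ (e.1.symm.trans e'.1) y).det * D e' ((e.1.symm.trans e'.1) y)) :
    densMeasure D = g.vol.withDensity fun x => ENNReal.ofReal (B3_f g D x) := by
  rcases isEmpty_or_nonempty X with hX | hX
  · exact Subsingleton.elim _ _
  obtain ⟨c, hcov⟩ := B2_cover X
  symm
  refine B2_unique (fun e : Ch X => Measure.map e.1.symm
      ((volume.restrict e.1.target).withDensity
        (fun y => ENNReal.ofReal (D e y)))) (fun e => e.1.source)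
      (fun e => e.1.open_source.measurableSet) c hcov _ fun e => ?_
  have hf : Measurable fun x => ENNReal.ofReal (B3_f g D x) :=
    (B3_f_cont ho g D hc hD).measurable.ennreal_ofReal
  rw [restrict_withDensity e.1.open_source.measurableSet, B2_main h1 g (B2_ch_mem e)]
  ext A hA
  have hT := B2_meas_inter e.1 hA
  have hρ : AEMeasurable (B2_rho g e.1) (volume.restrict e.1.target) :=
    ((B2_det_cont h1 g (B2_ch_mem e)).aemeasurable e.1.open_target.measurableSet).ennreal_ofReal
  have hes : AEMeasurable e.1.symm (volume.restrict e.1.target) :=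
    e.1.continuousOn_symm.aemeasurable e.1.open_target.measurableSet
  change _ = B2_cm e.1 (fun y => ENNReal.ofReal (D e y)) A
  rw [B2_cm_apply _ _ hA, withDensity_apply _ hA, ← lintegral_indicator hA]
  unfold B2_cm
  have hg : AEMeasurable (fun y => A.indicator (fun x => ENNReal.ofReal (B3_f g D x))
      (e.1.symm y)) (volume.restrict e.1.target) := (hf.indicator hA).comp_aemeasurable hes
  rw [lintegral_map' (hf.indicator hA).aemeasurable (B2_aemeas e.1 _),
    lintegral_withDensity_eq_lintegral_mul₀ hρ hg]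
  have h5 : ∀ y ∈ e.1.target, (B2_rho g e.1 * fun y => A.indicator
      (fun x => ENNReal.ofReal (B3_f g D x)) (e.1.symm y)) y =
      (e.1.target ∩ e.1.symm ⁻¹' A).indicator (fun y => ENNReal.ofReal (D e y)) y := by
    intro y hy
    simp only [Pi.mul_apply]
    by_cases hyA : e.1.symm y ∈ A
    · rw [indicator_of_mem hyA, indicator_of_mem (show y ∈ e.1.target ∩ e.1.symm ⁻¹' A from
        ⟨hy, hyA⟩), B3_f_chart ho g D hD e hy]
      unfold B2_rho
      have h6 := B2_det_pos h1 g (B2_ch_mem e) hy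
      rw [(h1 X g e.1 (B2_ch_mem e)).2.2.1 e y hy] at h6 ⊢
      rw [← ENNReal.ofReal_mul h6.le]
      congr 1
      field_simp
    · rw [indicator_of_notMem hyA, indicator_of_notMem (fun h => hyA h.2), mul_zero]
  rw [setLIntegral_congr_fun e.1.open_target.measurableSet h5, lintegral_indicator hT,
    Measure.restrict_restrict hT, inter_assoc, inter_comm (e.1.symm ⁻¹' A), ← inter_assoc,
    inter_self]

end

/-- B3: `integralTop` is the integral of the density. -/
theorem claimIntTop_proof (h1 : claimMcoef) (h2 : claimVol) : claimIntTop := by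
  intro X _ _ _ _ _ _ _ ho g D hc hD
  refine ⟨B3_f_cont ho g D hc hD, fun e y hy => B3_f_chart ho g D hD e hy, ?_⟩
  have hfin : IsFiniteMeasure g.vol := (h2 X g).1
  have hcont := B3_f_cont ho g D hc hD
  have hint : Integrable (B3_f g D) g.vol :=
    hcont.integrable_of_hasCompactSupport (HasCompactSupport.of_compactSpace _)
  have h3 := B3_dens h1 ho g D hc hD
  have h4 := B3_dens h1 ho g (fun e y => -D e y) (fun e => (hc e).neg) (by
    intro e e' y hy
    rw [hD e e' y hy]
    ring)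
  unfold integralTop
  rw [h3, h4, withDensity_apply _ MeasurableSet.univ, withDensity_apply _ MeasurableSet.univ,
    Measure.restrict_univ]
  change _ = ∫ x, B3_f g D x ∂g.vol
  rw [integral_eq_lintegral_pos_part_sub_lintegral_neg_part hint]
  have h5 : ∀ x, B3_f g (fun e y => -D e y) x = -B3_f g D x := fun x => neg_div _ _
  simp only [h5]

end NRF

end
end

section

/-!
B6: bounded geometry on a compact manifold.
-/

set_option autoImplicit false

open scoped Manifold ContDiff Topology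
open MeasureTheory Set

noncomputable section

namespace NRF

theorem B6_smooth {X : Type} [TopologicalSpace X] [ChartedSpace E4 X] [IsManifold (𝓡 4) ∞ X]
    {psi psi' : OpenPartialHomeomorph X E4} (h : psi ∈ SmCh X) (h' : psi' ∈ SmCh X) :
    ContDiffOn ℝ ∞ (psi.symm.trans psi') (psi.symm.trans psi').source := by
  rw [← contMDiffOn_iff_contDiffOn]
  have h1 := contMDiffOn_of_mem_maximalAtlas (I := 𝓡 4) (n := ∞) h'
  have h2 := contMDiffOn_symm_of_mem_maximalAtlas (I := 𝓡 4) (n := ∞) h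
  have h4 : (psi.symm.trans psi').source ⊆ psi.target := by
    rw [OpenPartialHomeomorph.trans_source]
    exact inter_subset_left
  have h5 : ContMDiffOn (𝓡 4) (𝓡 4) ∞ psi.symm (psi.symm.trans psi').source := h2.mono h4
  exact h1.comp h5 (by
    intro y hy
    rw [OpenPartialHomeomorph.trans_source] at hy
    exact hy.2)

theorem B6_bound {X : Type} [TopologicalSpace X] [T2Space X] [ChartedSpace E4 X]
    [IsManifold (𝓡 4) ∞ X]
    {psi psi' : OpenPartialHomeomorph X E4} (h : psi ∈ SmCh X) (h' : psi' ∈ SmCh X)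
    (ht : Metric.closedBall 0 3 ⊆ psi.target) (ht' : Metric.closedBall 0 3 ⊆ psi'.target)
    (k : ℕ) : ∃ C : ℝ, ∀ x : E4, ‖x‖ ≤ 2 →
    psi.symm x ∈ psi'.symm '' Metric.closedBall 0 2 →
    ‖iteratedFDeriv ℝ k (psi.symm.trans psi') x‖ ≤ C := by
  have hb : Metric.closedBall (0 : E4) 2 ⊆ Metric.closedBall 0 3 :=
    Metric.closedBall_subset_closedBall (by norm_num)
  have hc1 : IsCompact (psi'.symm '' Metric.closedBall 0 2) :=
    (isCompact_closedBall _ _).image_of_continuousOn
      (psi'.continuousOn_symm.mono (hb.trans ht'))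
  have hcont : ContinuousOn psi.symm (Metric.closedBall (0 : E4) 2) :=
    psi.continuousOn_symm.mono (hb.trans ht)
  have hK : IsCompact (Metric.closedBall (0 : E4) 2 ∩ psi.symm ⁻¹' (psi'.symm '' Metric.closedBall 0 2)) := by
    have := hcont.preimage_isClosed_of_isClosed Metric.isClosed_closedBall hc1.isClosed
    exact (isCompact_closedBall (0 : E4) 2).of_isClosed_subset this inter_subset_left
  have hsub : Metric.closedBall (0 : E4) 2 ∩ psi.symm ⁻¹' (psi'.symm '' Metric.closedBall 0 2) ⊆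
      (psi.symm.trans psi').source := by
    rintro x ⟨hx, z, hz, hzx⟩
    rw [OpenPartialHomeomorph.trans_source]
    refine ⟨ht (hb hx), ?_⟩
    rw [mem_preimage, ← hzx]
    exact psi'.map_target (ht' (hb hz))
  have hcd : ContinuousOn (iteratedFDeriv ℝ k (psi.symm.trans psi')) (psi.symm.trans psi').source :=
    fun x hx => (((B6_smooth h h').contDiffAt ((psi.symm.trans psi').open_source.mem_nhds
      hx)).continuousAt_iteratedFDeriv (by exact_mod_cast le_top)).continuousWithinAt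
  obtain ⟨C, hC⟩ := hK.exists_bound_of_continuousOn (hcd.mono hsub)
  refine ⟨C, fun x hx hx' => hC x ⟨by simpa using hx, hx'⟩⟩

theorem claimGeomX_proof (h5 : claimModelExt) : claimGeomX := by
  intro X _ _ _ _ _ V _ _ _ n psi chi a b c Lop hpsi htar hchi hpart hsm hL
  have hm : ∀ i, ∃ m : Model V, m.chi = chi i ∧ ∀ t, ∀ x ∈ Metric.ball (0 : E4) (5 / 2),
      m.a (t, x) = a i x ∧ m.b (t, x) = b i x ∧ m.c (t, x) = c i x := by
    intro i
    obtain ⟨h1, h2, h3, h4⟩ := hsm i
    have hmaps : MapsTo (fun q : ℝ × E4 => q.2) (univ ×ˢ (psi i).target) (psi i).target :=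
      fun q hq => hq.2
    exact h5 V (psi i).target (fun q => a i q.2) (fun q => b i q.2) (fun q => c i q.2) (chi i)
      (psi i).open_target (htar i) (fun j l => (h1 j l).comp contDiff_snd.contDiffOn hmaps)
      (fun j => (h3 j).comp contDiff_snd.contDiffOn hmaps)
      (h4.comp contDiff_snd.contDiffOn hmaps) (fun t x hx => h2 x hx) (hchi i).1 (hchi i).2.1
      (hchi i).2.2
  choose m hmchi hmc using hm
  -- the operator of the model in terms of `Lop`
  have hop : ∀ i t (x : E4) (f : X → V), x ∈ Metric.ball 0 (5 / 2) →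
      ContDiffAt ℝ 2 (fun w => f ((psi i).symm w)) x →
      (m i).op t (fun w => f ((psi i).symm w)) x = Lop f ((psi i).symm x) := by
    intro i t x f hx hf
    have hx3 : x ∈ (psi i).target :=
      htar i (Metric.ball_subset_closedBall (Metric.ball_subset_ball (by norm_num) hx))
    rw [hL i x hx3 f hf]
    obtain ⟨h1, h2, h3⟩ := hmc i t x hx
    unfold Model.op
    rw [h1, h2, h3]
  let g : Geom X V :=
    { I := Fin (n + 1)
      J := Fin (n + 1)
      finJ := inferInstance
      mod := id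
      model := m
      psi := psi
      target := htar
      locfin := locallyFinite_of_finite _
      mult := ⟨n + 1, fun y => by
        refine (Set.ncard_le_ncard (Set.subset_univ _)).trans ?_
        rw [Set.ncard_univ]; simp⟩
      part := by
        intro y
        rw [finsum_eq_sum_of_fintype]
        simp only [id, hmchi]
        exact hpart y
      trans_smooth := fun i i' => B6_smooth (hpsi i) (hpsi i')
      trans_bound := by
        intro k
        choose C hC using fun i i' => B6_bound (hpsi i) (hpsi i') (htar i) (htar i') k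
        obtain ⟨M, hM⟩ := (Set.finite_range fun p : Fin (n + 1) × Fin (n + 1) => C p.1 p.2).bddAbove
        exact ⟨M, fun i i' x hx hx' => (hC i i' x hx hx').trans (hM ⟨(i, i'), rfl⟩)⟩
      compat := by
        rintro i i' x u t hx ⟨z, hz, hzx⟩ hu
        have hx3 : x ∈ (psi i).target :=
          htar i (Metric.ball_subset_closedBall (Metric.ball_subset_ball (by norm_num) hx))
        have hz3 : z ∈ (psi i').target :=
          htar i' (Metric.ball_subset_closedBall (Metric.ball_subset_ball (by norm_num) hz))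
        have hz' : psi i' ((psi i).symm x) = z := by rw [← hzx, (psi i').right_inv hz3]
        have hsrc : (psi i).symm x ∈ (psi i').source := by
          rw [← hzx]; exact (psi i').map_target hz3
        have hxs : x ∈ ((psi i).symm.trans (psi i')).source := by
          rw [OpenPartialHomeomorph.trans_source]; exact ⟨hx3, hsrc⟩
        have htr : ContDiffAt ℝ 2 (fun w => psi i' ((psi i).symm w)) x :=
          ((B6_smooth (hpsi i) (hpsi i')).contDiffAt
            (((psi i).symm.trans (psi i')).open_source.mem_nhds hxs)).of_le (by norm_cast)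
        have h1 := hop i t x (fun y => u (psi i' y)) hx (hu.comp x htr)
        have h2 : (fun w => u (psi i' ((psi i').symm w))) =ᶠ[𝓝 z] u := by
          filter_upwards [(psi i').open_target.mem_nhds hz3] with w hw
          rw [(psi i').right_inv hw]
        have hu' : ContDiffAt ℝ 2 (fun w => u (psi i' ((psi i').symm w))) z :=
          (hz' ▸ hu).congr_of_eventuallyEq h2
        have h3 := hop i' t z (fun y => u (psi i' y)) hz hu'
        show (m i).op t (fun z => u (psi i' ((psi i).symm z))) x = (m i').op t u _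
        rw [hz', h1, ← hzx, ← h3]
        exact Model.op_congr _ _ h2 }
  refine ⟨g, Equiv.refl _, fun i => rfl, fun i => hmchi i, fun i t x hx => hmc i t x hx⟩

end NRF

end
end

section

/-!
# FR4: `d d = 0` and `δ δ = 0` in an orthonormal frame
-/

noncomputable section

namespace NRF

namespace FR4

open FR5

variable {R : Type} [CommRing R] [Algebra ℝ R]

theorem half_zero {M : Type} [AddCommGroup M] [Module ℝ M] {x : M} (h : x + x = 0) : x = 0 := by
  have h1 : x = (1 / 2 : ℝ) • (x + x) := by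
    rw [← two_smul ℝ x, smul_smul]
    norm_num
  rw [h1, h, smul_zero]

theorem third_zero {M : Type} [AddCommGroup M] [Module ℝ M] {x : M} (h : x + x + x = 0) :
    x = 0 := by
  have h1 : x = (1 / 3 : ℝ) • (x + x + x) := by
    have h2 : x + x + x = (3 : ℝ) • x := by
      module
    rw [h2, smul_smul]
    norm_num
  rw [h1, h, smul_zero]

variable {S : Geo (Fin 4) R} (F : Frame S) (X : Fin 4 → Matrix Lam Lam R)

/-- The contravariant matrices of a family. -/
def xu (i : Fin 4) : Matrix Lam Lam R := ∑ a, F.f i a • X a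

theorem xu_anti (hX : ∀ a b, X a * X b + X b * X a = 0) (i j : Fin 4) :
    xu F X i * xu F X j + xu F X j * xu F X i = 0 := by
  have h1 : ∀ k l, xu F X k * xu F X l = ∑ a, ∑ b, (F.f k a * F.f l b) • (X a * X b) := by
    intro k l
    unfold xu
    rw [Finset.sum_mul_sum]
    refine Finset.sum_congr rfl fun a _ => Finset.sum_congr rfl fun b _ => ?_
    rw [Matrix.smul_mul, Matrix.mul_smul, smul_smul]
  have h2 : xu F X j * xu F X i = ∑ a, ∑ b, (F.f i a * F.f j b) • (X b * X a) := by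
    rw [h1, Finset.sum_comm]
    refine Finset.sum_congr rfl fun a _ => Finset.sum_congr rfl fun b _ => ?_
    rw [mul_comm (F.f j b)]
  rw [h1, h2, ← Finset.sum_add_distrib]
  refine Finset.sum_eq_zero fun a _ => ?_
  rw [← Finset.sum_add_distrib]
  refine Finset.sum_eq_zero fun b _ => ?_
  rw [← smul_add, hX, smul_zero]

theorem der_xu (f1 : claimFR1) (hmap : ∀ (i a : Fin 4), (X a).map (S.D i) = 0)
    (hrc : ∀ A : Matrix (Fin 4) (Fin 4) R, A.transpose = -A → ∀ c : Fin 4,
      rho A * X c - X c * rho A = ∑ a, A a c • X a) (i j : Fin 4) :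
    (xu F X j).map (S.D i) + (rho (F.om i) * xu F X j - xu F X j * rho (F.om i)) =
      -∑ k, S.chr j i k • xu F X k := by
  obtain ⟨hff, -, hsk, -⟩ := f1 (Fin 4) R S F
  have h1 : (xu F X j).map (S.D i) = ∑ b, S.D i (F.f j b) • X b := by
    unfold xu
    rw [map_sum_of]
    refine Finset.sum_congr rfl fun b _ => ?_
    rw [map_smul_of _ _ (hmap i b)]
  have h2 : rho (F.om i) * xu F X j - xu F X j * rho (F.om i) =
      ∑ b, (∑ a, F.f j a * F.om i b a) • X b := by
    unfold xu
    rw [Finset.mul_sum, Finset.sum_mul, ← Finset.sum_sub_distrib]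
    have h3 : ∀ a, rho (F.om i) * F.f j a • X a - F.f j a • X a * rho (F.om i) =
        ∑ b, (F.f j a * F.om i b a) • X b := by
      intro a
      rw [Matrix.mul_smul, Matrix.smul_mul, ← smul_sub, hrc _ (hsk i) a, Finset.smul_sum]
      refine Finset.sum_congr rfl fun b _ => ?_
      rw [smul_smul]
    simp only [h3]
    rw [Finset.sum_comm]
    refine Finset.sum_congr rfl fun b _ => ?_
    rw [Finset.sum_smul]
  have h4 : ∀ b, S.D i (F.f j b) + ∑ a, F.f j a * F.om i b a = -∑ k, S.chr j i k * F.f k b := by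
    intro b
    have h5 : F.f * F.om i = F.f.map (S.D i) + S.chrM i * F.f := by
      unfold Frame.om
      rw [← Matrix.mul_assoc, hff, Matrix.one_mul]
    have h6 := congrFun (congrFun h5 j) b
    rw [Matrix.mul_apply, Matrix.add_apply, Matrix.map_apply, Matrix.mul_apply] at h6
    have h7 : ∑ a, F.f j a * F.om i b a = -∑ a, F.f j a * F.om i a b := by
      rw [← Finset.sum_neg_distrib]
      refine Finset.sum_congr rfl fun a _ => ?_
      have h8 := congrFun (congrFun (hsk i) a) b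
      rw [Matrix.transpose_apply, Matrix.neg_apply] at h8
      rw [h8, mul_neg]
    rw [h7, h6]
    have h9 : ∀ k, S.chrM i j k = S.chr j i k := fun k => rfl
    simp only [h9]
    ring
  rw [h1, h2, ← Finset.sum_add_distrib]
  have h10 : ∀ b, S.D i (F.f j b) • X b + (∑ a, F.f j a * F.om i b a) • X b =
      -∑ k, (S.chr j i k * F.f k b) • X b := by
    intro b
    rw [← add_smul, h4, neg_smul, Finset.sum_smul]
  simp only [h10]
  rw [Finset.sum_neg_distrib, Finset.sum_comm]
  congr 1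
  refine Finset.sum_congr rfl fun k _ => ?_
  unfold xu
  rw [Finset.smul_sum]
  refine Finset.sum_congr rfl fun b _ => ?_
  rw [smul_smul]

theorem sum_xu : ∑ i, ∑ j, xu F X i * xu F X j * rho (F.Om i j) =
    ∑ a, ∑ b, ∑ c, ∑ d, F.R4 a b c d • (X a * X b * eps R c * iot R d) := by
  have h2 : ∀ i j, xu F X i * xu F X j * rho (F.Om i j) = ∑ a, ∑ b, ∑ c, ∑ d,
      (F.f i a * F.f j b * F.Om i j c d) • (X a * X b * eps R c * iot R d) := by
    intro i j
    unfold xu rho
    rw [Finset.sum_mul_sum, Finset.sum_mul]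
    refine Finset.sum_congr rfl fun a _ => ?_
    rw [Finset.sum_mul]
    refine Finset.sum_congr rfl fun b _ => ?_
    rw [Finset.mul_sum]
    refine Finset.sum_congr rfl fun c _ => ?_
    rw [Finset.mul_sum]
    refine Finset.sum_congr rfl fun d _ => ?_
    simp only [Matrix.smul_mul, Matrix.mul_smul, smul_smul, Matrix.mul_assoc]
    congr 1
    ring
  simp only [h2]
  have h3 : ∀ (f : Fin 4 → Fin 4 → Fin 4 → Fin 4 → Fin 4 → Fin 4 → Matrix Lam Lam R),
      ∑ i, ∑ j, ∑ a, ∑ b, ∑ c, ∑ d, f i j a b c d =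
      ∑ a, ∑ b, ∑ c, ∑ d, ∑ i, ∑ j, f i j a b c d := by
    intro f
    have h4 : ∀ (g : Fin 4 → Fin 4 → Fin 4 → Matrix Lam Lam R),
        ∑ i, ∑ j, ∑ a, g i j a = ∑ a, ∑ i, ∑ j, g i j a := by
      intro g
      have h5 : ∀ i, ∑ j, ∑ a, g i j a = ∑ a, ∑ j, g i j a := fun i => Finset.sum_comm
      simp only [h5]
      rw [Finset.sum_comm]
    rw [h4]
    refine Finset.sum_congr rfl fun a _ => ?_
    rw [h4]
    refine Finset.sum_congr rfl fun b _ => ?_
    rw [h4]
    refine Finset.sum_congr rfl fun c _ => ?_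
    rw [h4]
  rw [h3]
  refine Finset.sum_congr rfl fun a _ => Finset.sum_congr rfl fun b _ =>
    Finset.sum_congr rfl fun c _ => Finset.sum_congr rfl fun d _ => ?_
  unfold Frame.R4
  rw [Finset.sum_smul]
  refine Finset.sum_congr rfl fun i _ => ?_
  rw [Finset.sum_smul]

theorem sq_zero (h1 : claimDA1) (f1 : claimFR1) (f3 : claimFR3)
    (hX : ∀ a b, X a * X b + X b * X a = 0)
    (hmap : ∀ (i a : Fin 4), (X a).map (S.D i) = 0)
    (hrc : ∀ A : Matrix (Fin 4) (Fin 4) R, A.transpose = -A → ∀ c : Fin 4,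
      rho A * X c - X c * rho A = ∑ a, A a c • X a)
    (hsum : ∑ a, ∑ b, ∑ c, ∑ d, F.R4 a b c d • (X a * X b * eps R c * iot R d) = 0) :
    (∑ i, mE (xu F X i) * nE F i) * (∑ j, mE (xu F X j) * nE F j) = 0 := by
  obtain ⟨hhs, -, hchr, -, -⟩ := h1 (Fin 4) R S
  have key := alg (fun i => mE (xu F X i)) (nE F) (fun _ _ => 0)
    (fun k i j => sE (S.chr k i j)) (fun i j => mE (rho (F.Om i j)))
    (fun i j => rfl) (fun k i j => by simp only [hchr k i j])
    (fun i j => by
      rw [← mE_mul, ← mE_mul, ← mE_add, xu_anti F X hX, mE_zero]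
      simp)
    (fun i j => by
      rw [nE_mul_mE, der_xu F X f1 hmap hrc, mE_neg, mE_sum]
      simp only [sE_mul_mE]
      abel)
    (fun k i j l => by
      rw [mE_mul_sE, sE_mul_mE])
    (comm_nab F f3)
    (fun k i j => by simp)
  have h6 : ∑ i, ∑ j, mE (xu F X i) * mE (xu F X j) * mE (rho (F.Om i j)) = 0 := by
    have h7 : ∑ i, ∑ j, mE (xu F X i) * mE (xu F X j) * mE (rho (F.Om i j)) =
        mE (∑ i, ∑ j, xu F X i * xu F X j * rho (F.Om i j)) := by
      simp only [mE_sum, mE_mul]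
    rw [h7, sum_xu, hsum, mE_zero]
  rw [h6] at key
  simp only [zero_mul, Finset.sum_const_zero, neg_zero, add_zero] at key
  ext v : 1
  have h8 := congrArg (fun T : AddMonoid.End (Lam → R) => T v) key
  exact half_zero (x := ((∑ i, mE (xu F X i) * nE F i) * (∑ j, mE (xu F X j) * nE F j)) v) h8

theorem op_eq (v : Lam → R) :
    ∑ i, ∑ a, F.f i a • (X a).mulVec (F.nab i v) = (∑ i, mE (xu F X i) * nE F i) v := by
  rw [sum_ap]
  refine Finset.sum_congr rfl fun i _ => ?_
  show ∑ a, F.f i a • (X a).mulVec (F.nab i v) = (xu F X i).mulVec (F.nab i v)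
  unfold xu
  rw [Matrix.sum_mulVec]
  refine Finset.sum_congr rfl fun a _ => ?_
  rw [Matrix.smul_mulVec]

/-- Cyclic reindexing. -/
theorem cyc {M : Type} [AddCommMonoid M] (g : Fin 4 → Fin 4 → Fin 4 → M) :
    ∑ a, ∑ b, ∑ c, g a b c = ∑ a, ∑ b, ∑ c, g b c a := by
  rw [Finset.sum_comm]
  have h2 : ∀ b, ∑ a, ∑ c, g a b c = ∑ c, ∑ a, g a b c := fun b => Finset.sum_comm
  simp only [h2]
  rw [Finset.sum_comm]
  refine Finset.sum_congr rfl fun c _ => ?_
  rw [Finset.sum_comm]

theorem bianchi_sum (Q : Fin 4 → Fin 4 → Fin 4 → R)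
    (hQ : ∀ a b c, Q a b c + Q b c a + Q c a b = 0)
    (hX : ∀ a b, X a * X b + X b * X a = 0) (Z : Matrix Lam Lam R) :
    ∑ a, ∑ b, ∑ c, Q a b c • (X a * X b * X c * Z) = 0 := by
  have hT : ∀ a b c, X a * X b * X c = X b * X c * X a := by
    intro a b c
    have h1 : X a * X b = -(X b * X a) := eq_neg_of_add_eq_zero_left (hX a b)
    have h2 : X a * X c = -(X c * X a) := eq_neg_of_add_eq_zero_left (hX a c)
    rw [h1, Matrix.neg_mul, Matrix.mul_assoc, h2, Matrix.mul_neg, neg_neg, Matrix.mul_assoc]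
  have h1 : ∑ a, ∑ b, ∑ c, Q a b c • (X a * X b * X c * Z) =
      ∑ a, ∑ b, ∑ c, Q b c a • (X a * X b * X c * Z) := by
    rw [cyc]
    refine Finset.sum_congr rfl fun a _ => Finset.sum_congr rfl fun b _ =>
      Finset.sum_congr rfl fun c _ => ?_
    rw [hT a b c]
  have h2 : ∑ a, ∑ b, ∑ c, Q a b c • (X a * X b * X c * Z) =
      ∑ a, ∑ b, ∑ c, Q c a b • (X a * X b * X c * Z) := by
    rw [h1, cyc]
    refine Finset.sum_congr rfl fun a _ => Finset.sum_congr rfl fun b _ =>
      Finset.sum_congr rfl fun c _ => ?_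
    rw [hT a b c]
  apply third_zero
  calc ∑ a, ∑ b, ∑ c, Q a b c • (X a * X b * X c * Z) +
        ∑ a, ∑ b, ∑ c, Q a b c • (X a * X b * X c * Z) +
        ∑ a, ∑ b, ∑ c, Q a b c • (X a * X b * X c * Z)
      = ∑ a, ∑ b, ∑ c, Q a b c • (X a * X b * X c * Z) +
        ∑ a, ∑ b, ∑ c, Q b c a • (X a * X b * X c * Z) +
        ∑ a, ∑ b, ∑ c, Q c a b • (X a * X b * X c * Z) := by rw [← h1, ← h2]
    _ = ∑ a, ∑ b, ∑ c, (Q a b c + Q b c a + Q c a b) • (X a * X b * X c * Z) := by
        simp only [add_smul, Finset.sum_add_distrib]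
    _ = 0 := by simp only [hQ, zero_smul, Finset.sum_const_zero]

end FR4

open FR4 FR5

theorem thm_FR4 (h1 : claimDA1) (h3 : claimDA3) (f1 : claimFR1) (f2 : claimFR2)
    (f3 : claimFR3) : claimFR4 := by
  have _ := h3
  intro R _ _ S F α
  obtain ⟨-, hs1, hs2, hp, hb, -, -, -⟩ := f2 (Fin 4) R S F
  obtain ⟨hee, -, hei, -, -, -, -, -, -, -, -, hre, hri, -, -, -⟩ := f3 R
  have hii : ∀ a b, iot R a * iot R b + iot R b * iot R a = 0 := by
    intro a b
    have h4 := congrArg Matrix.transpose (hee b a)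
    rw [Matrix.transpose_add, Matrix.transpose_mul, Matrix.transpose_mul,
      Matrix.transpose_zero] at h4
    exact h4
  -- the Bianchi identity in the first three indices
  have hB : ∀ a b c d, F.R4 a b c d + F.R4 b c a d + F.R4 c a b d = 0 := by
    intro a b c d
    have e1 : F.R4 a b c d = -F.R4 d c a b := by rw [hs2 a b c d, hp a b d c]
    have e2 : F.R4 b c a d = -F.R4 d a b c := by rw [hs2 b c a d, hp b c d a]
    have e3 : F.R4 c a b d = -F.R4 d b c a := by rw [hs2 c a b d, hp c a d b]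
    rw [e1, e2, e3]
    linear_combination -(hb d c a b)
  have hrc1 : ∀ A : Matrix (Fin 4) (Fin 4) R, A.transpose = -A → ∀ c : Fin 4,
      rho A * eps R c - eps R c * rho A = ∑ a, A a c • eps R a := fun A _ c => hre A c
  have hrc2 : ∀ A : Matrix (Fin 4) (Fin 4) R, A.transpose = -A → ∀ c : Fin 4,
      rho A * iot R c - iot R c * rho A = ∑ a, A a c • iot R a := by
    intro A hA c
    rw [hri A c, ← Finset.sum_neg_distrib]
    refine Finset.sum_congr rfl fun a _ => ?_
    have h5 := congrFun (congrFun hA c) a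
    rw [Matrix.transpose_apply, Matrix.neg_apply] at h5
    rw [h5, neg_smul]
  have hsum1 : ∑ a, ∑ b, ∑ c, ∑ d,
      F.R4 a b c d • (eps R a * eps R b * eps R c * iot R d) = 0 := by
    have h6 : ∑ a, ∑ b, ∑ c, ∑ d, F.R4 a b c d • (eps R a * eps R b * eps R c * iot R d) =
        ∑ d, ∑ a, ∑ b, ∑ c, F.R4 a b c d • (eps R a * eps R b * eps R c * iot R d) := by
      have h7 : ∀ a b, ∑ c, ∑ d, F.R4 a b c d • (eps R a * eps R b * eps R c * iot R d) =
          ∑ d, ∑ c, F.R4 a b c d • (eps R a * eps R b * eps R c * iot R d) :=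
        fun a b => Finset.sum_comm
      simp only [h7]
      have h8 : ∀ a, ∑ b, ∑ d, ∑ c,
          F.R4 a b c d • (eps R a * eps R b * eps R c * iot R d) =
          ∑ d, ∑ b, ∑ c, F.R4 a b c d • (eps R a * eps R b * eps R c * iot R d) :=
        fun a => Finset.sum_comm
      simp only [h8]
      rw [Finset.sum_comm]
    rw [h6]
    refine Finset.sum_eq_zero fun d _ => ?_
    exact bianchi_sum (eps R) (fun a b c => F.R4 a b c d) (fun a b c => hB a b c d) hee _
  have hsum2 : ∑ a, ∑ b, ∑ c, ∑ d,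
      F.R4 a b c d • (iot R a * iot R b * eps R c * iot R d) = 0 := by
    have h9 : ∀ a b, ∑ c, ∑ d, F.R4 a b c d • (iot R a * iot R b * eps R c * iot R d) =
        ∑ c, ∑ d, F.R4 a b c d • (iot R a * iot R b * iot R c * eps R d) := by
      intro a b
      have h10 : ∀ c d, F.R4 a b c d • (iot R a * iot R b * eps R c * iot R d) =
          (if c = d then F.R4 a b c d • (iot R a * iot R b) else 0) +
          F.R4 a b d c • (iot R a * iot R b * iot R d * eps R c) := by
        intro c d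
        have h11 : eps R c * iot R d = (if c = d then 1 else 0) - iot R d * eps R c := by
          rw [← hei c d]
          abel
        rw [Matrix.mul_assoc (iot R a * iot R b), h11, hs2 a b d c, Matrix.mul_sub, smul_sub,
          neg_smul, Matrix.mul_assoc (iot R a * iot R b) (iot R d), sub_eq_add_neg]
        congr 1
        split_ifs with h
        · rw [Matrix.mul_one]
        · rw [Matrix.mul_zero, smul_zero]
      simp only [h10, Finset.sum_add_distrib, Finset.sum_ite_eq, Finset.mem_univ, if_true]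
      have h12 : ∀ c, F.R4 a b c c = 0 := by
        intro c
        apply half_zero
        nth_rewrite 1 [hs2 a b c c]
        ring
      simp only [h12, zero_smul, Finset.sum_const_zero, zero_add]
      rw [Finset.sum_comm]
    simp only [h9]
    have h6 : ∑ a, ∑ b, ∑ c, ∑ d, F.R4 a b c d • (iot R a * iot R b * iot R c * eps R d) =
        ∑ d, ∑ a, ∑ b, ∑ c, F.R4 a b c d • (iot R a * iot R b * iot R c * eps R d) := by
      have h7 : ∀ a b, ∑ c, ∑ d, F.R4 a b c d • (iot R a * iot R b * iot R c * eps R d) =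
          ∑ d, ∑ c, F.R4 a b c d • (iot R a * iot R b * iot R c * eps R d) :=
        fun a b => Finset.sum_comm
      simp only [h7]
      have h8 : ∀ a, ∑ b, ∑ d, ∑ c,
          F.R4 a b c d • (iot R a * iot R b * iot R c * eps R d) =
          ∑ d, ∑ b, ∑ c, F.R4 a b c d • (iot R a * iot R b * iot R c * eps R d) :=
        fun a => Finset.sum_comm
      simp only [h8]
      rw [Finset.sum_comm]
    rw [h6]
    refine Finset.sum_eq_zero fun d _ => ?_
    exact bianchi_sum (iot R) (fun a b c => F.R4 a b c d) (fun a b c => hB a b c d) hii _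
  have z1 := sq_zero F (eps R) h1 f1 f3 hee (fun i a => eps_map _ a) hrc1 hsum1
  have z2 := sq_zero F (iot R) h1 f1 f3 hii (fun i a => iot_map _ a) hrc2 hsum2
  refine ⟨?_, ?_, ?_⟩
  · unfold Frame.dirac Frame.dF Frame.delF
    rw [← sub_eq_add_neg, ← Finset.sum_sub_distrib]
    refine Finset.sum_congr rfl fun i _ => ?_
    rw [← Finset.sum_sub_distrib]
    refine Finset.sum_congr rfl fun a _ => ?_
    rw [← smul_sub, ← Matrix.sub_mulVec]
    rfl
  · have h13 : ∀ v, F.dF v = (∑ i, mE (xu F (eps R) i) * nE F i) v := fun v => op_eq F _ v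
    rw [h13, h13]
    exact congrArg (fun T : AddMonoid.End (Lam → R) => T α) z1
  · have h14 : ∀ v, F.delF v = -((∑ i, mE (xu F (iot R) i) * nE F i) v) := by
      intro v
      rw [← op_eq F (iot R) v]
      rfl
    rw [h14, h14, map_neg, neg_neg]
    exact congrArg (fun T : AddMonoid.End (Lam → R) => T α) z2

end NRF

end
end

section

/-!
# H12: continuity and local finiteness of the translates of `phi`
-/

set_option autoImplicit false

open scoped Manifold ContDiff Topology
open MeasureTheory Set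

noncomputable section

namespace NRF.H

section

variable {X : Type} [TopologicalSpace X] [ChartedSpace E4 X]

/-- A function of class `C²` in lifted charts is continuous. -/
theorem H12_continuous (h : claimLCh) (U : UCover X) (phi : U.Y → ℝ)
    (hs : ∀ c : LCh U, ContDiffOn ℝ 2 (phi ∘ c.psi.symm) c.psi.target) : Continuous phi := by
  rw [continuous_iff_continuousAt]
  intro y
  obtain ⟨c, -, hy, -, -⟩ :=
    (h X U).1 y (chAt (U.p y)) univ isOpen_univ (mem_univ y) (mem_chart_source E4 (U.p y))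
  have h1 : ContinuousAt (phi ∘ c.psi.symm) (c.psi y) :=
    (hs c).continuousOn.continuousAt (c.psi.open_target.mem_nhds (c.psi.map_source hy))
  have h2 : ContinuousAt ((phi ∘ c.psi.symm) ∘ c.psi) y := h1.comp (c.psi.continuousAt hy)
  refine h2.congr ?_
  filter_upwards [c.psi.open_source.mem_nhds hy] with w hw
  simp only [Function.comp_apply, c.psi.left_inv hw]

/-- Two points have neighbourhoods such that at most one translate of the first meets the
second. -/
theorem H12_sep [T2Space X] (h : claimLCh) (U : UCover X) (y d : U.Y) :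
    ∃ O O' : Set U.Y, IsOpen O ∧ y ∈ O ∧ IsOpen O' ∧ d ∈ O' ∧
      {a : U.G | ∃ w ∈ O, a⁻¹ • w ∈ O'}.Finite := by
  have hp : Continuous U.p := U.cov.continuous
  by_cases hyd : U.p y = U.p d
  · obtain ⟨a0, ha0⟩ := U.trans d y hyd.symm
    obtain ⟨c, -, hy, -, hinj⟩ :=
      (h X U).1 y (chAt (U.p y)) univ isOpen_univ (mem_univ y) (mem_chart_source E4 (U.p y))
    refine ⟨c.psi.source, (fun w => a0 • w) ⁻¹' c.psi.source, c.psi.open_source, hy,
      c.psi.open_source.preimage (U.cont_smul a0), ?_, ?_⟩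
    · show a0 • d ∈ c.psi.source
      rw [ha0]
      exact hy
    · refine (finite_singleton a0).subset ?_
      rintro a ⟨w, hw, hw'⟩
      have h1 : a0 • a⁻¹ • w ∈ c.psi.source := hw'
      have h2 : U.p (a0 • a⁻¹ • w) = U.p w := by rw [U.p_smul, U.p_smul]
      have h3 : a0 • a⁻¹ • w = w := hinj _ h1 _ hw h2
      rw [smul_smul] at h3
      have h4 := U.free _ _ h3
      rw [mem_singleton_iff]
      exact (mul_inv_eq_one.1 h4).symm
  · obtain ⟨A, B, hA, hB, hyA, hdB, hAB⟩ := t2_separation hyd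
    refine ⟨U.p ⁻¹' A, U.p ⁻¹' B, hA.preimage hp, hyA, hB.preimage hp, hdB, ?_⟩
    refine finite_empty.subset ?_
    rintro a ⟨w, hw, hw'⟩
    have h1 : U.p (a⁻¹ • w) ∈ B := hw'
    rw [U.p_smul] at h1
    exact (disjoint_left.1 hAB hw h1).elim

/-- A point has a neighbourhood such that finitely many translates meet a compact set. -/
theorem H12_point [T2Space X] (h : claimLCh) (U : UCover X) (y : U.Y) {D : Set U.Y}
    (hD : IsCompact D) :
    ∃ O : Set U.Y, IsOpen O ∧ y ∈ O ∧ {a : U.G | ∃ w ∈ O, a⁻¹ • w ∈ D}.Finite := by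
  refine hD.induction_on (p := fun s => ∃ O : Set U.Y, IsOpen O ∧ y ∈ O ∧
    {a : U.G | ∃ w ∈ O, a⁻¹ • w ∈ s}.Finite) ?_ ?_ ?_ ?_
  · refine ⟨univ, isOpen_univ, mem_univ y, finite_empty.subset ?_⟩
    rintro a ⟨w, -, hw⟩
    exact hw
  · rintro s t hst ⟨O, hO, hy, hf⟩
    refine ⟨O, hO, hy, hf.subset ?_⟩
    rintro a ⟨w, hw, hw'⟩
    exact ⟨w, hw, hst hw'⟩
  · rintro s t ⟨O, hO, hy, hf⟩ ⟨O', hO', hy', hf'⟩
    refine ⟨O ∩ O', hO.inter hO', ⟨hy, hy'⟩, (hf.union hf').subset ?_⟩
    rintro a ⟨w, ⟨hw, hw'⟩, hs | ht⟩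
    · exact Or.inl ⟨w, hw, hs⟩
    · exact Or.inr ⟨w, hw', ht⟩
  · intro d _
    obtain ⟨O, O', hO, hy, hO', hd, hf⟩ := H12_sep h U y d
    exact ⟨O', mem_nhdsWithin_of_mem_nhds (hO'.mem_nhds hd), O, hO, hy, hf⟩

/-- A compact set has a neighbourhood such that finitely many translates meet a compact set. -/
theorem H12_compact [T2Space X] (h : claimLCh) (U : UCover X) {C D : Set U.Y}
    (hC : IsCompact C) (hD : IsCompact D) :
    ∃ O : Set U.Y, IsOpen O ∧ C ⊆ O ∧ {a : U.G | ∃ w ∈ O, a⁻¹ • w ∈ D}.Finite := by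
  refine hC.induction_on (p := fun s => ∃ O : Set U.Y, IsOpen O ∧ s ⊆ O ∧
    {a : U.G | ∃ w ∈ O, a⁻¹ • w ∈ D}.Finite) ?_ ?_ ?_ ?_
  · refine ⟨∅, isOpen_empty, subset_rfl, finite_empty.subset ?_⟩
    rintro a ⟨w, hw, -⟩
    exact hw
  · rintro s t hst ⟨O, hO, hy, hf⟩
    exact ⟨O, hO, hst.trans hy, hf⟩
  · rintro s t ⟨O, hO, hy, hf⟩ ⟨O', hO', hy', hf'⟩
    refine ⟨O ∪ O', hO.union hO', union_subset_union hy hy', (hf.union hf').subset ?_⟩
    rintro a ⟨w, hw | hw, hd⟩
    · exact Or.inl ⟨w, hw, hd⟩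
    · exact Or.inr ⟨w, hw, hd⟩
  · intro y _
    obtain ⟨O, hO, hy, hf⟩ := H12_point h U y hD
    exact ⟨O, mem_nhdsWithin_of_mem_nhds (hO.mem_nhds hy), O, hO, subset_rfl, hf⟩

end

theorem claimLocFin_proof (h : claimLCh) : claimLocFin := by
  intro X _ _ _ U g K phi hphi
  refine ⟨H12_continuous h U phi hphi.smooth, fun C hC => ?_⟩
  obtain ⟨O, hO, hCO, hf⟩ := H12_compact h U hC hphi.supp
  refine ⟨O, hO, hCO, hf.subset ?_⟩
  rintro a ⟨y, hy, hne⟩
  exact ⟨y, hy, subset_tsupport phi hne⟩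

end NRF.H

end
end

section

/-!
# Item H13: the local coefficient does not depend on the lift
-/

open scoped Manifold ContDiff Topology
open MeasureTheory Set

noncomputable section

namespace NRF.H

section

variable {X : Type} [TopologicalSpace X] [ChartedSpace E4 X] {U : UCover X}

/-- The covering map in a lifted chart. -/
theorem H13_p (c : LCh U) {z : E4} (hz : z ∈ c.psi.target) :
    U.p (c.psi.symm z) = c.e.1.symm z := by
  have h1 := c.psi.map_target hz
  have h2 := c.eq _ h1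
  rw [c.psi.right_inv hz] at h2
  have h3 := c.e.1.left_inv (c.mem _ h1)
  rw [← h2] at h3
  exact h3.symm

/-- The target of a lifted chart is contained in the target of the chart. -/
theorem H13_target (c : LCh U) {z : E4} (hz : z ∈ c.psi.target) : z ∈ c.e.1.target := by
  have h1 := c.psi.map_target hz
  have h2 := c.eq _ h1
  rw [c.psi.right_inv hz] at h2
  rw [h2]
  exact c.e.1.map_source (c.mem _ h1)

/-- Two lifted charts over the same chart differ locally by a deck transformation. -/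
theorem H13_eventually (h : claimLCh) (c c0 : LCh U) (he : c.e = c0.e) {z : E4}
    (hz : z ∈ c.psi.target) (hz0 : z ∈ c0.psi.target) :
    ∃ a : U.G, ∀ᶠ w in 𝓝 z, c0.psi.symm w = a • c.psi.symm w := by
  have hp : U.p (c.psi.symm z) = U.p (c0.psi.symm z) := by
    rw [H13_p c hz, H13_p c0 hz0, he]
  obtain ⟨a, ha⟩ := U.trans _ _ hp
  refine ⟨a, ?_⟩
  have hs0 := c0.psi.map_target hz0
  obtain ⟨c1, -, h2, -, h4⟩ := (h X U).1 (c0.psi.symm z) c0.e univ isOpen_univ (mem_univ _)
    (c0.mem _ hs0)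
  have t0 : Filter.Tendsto c0.psi.symm (𝓝 z) (𝓝 (c0.psi.symm z)) :=
    c0.psi.continuousAt_symm hz0
  have t1 : Filter.Tendsto (fun w => a • c.psi.symm w) (𝓝 z) (𝓝 (c0.psi.symm z)) := by
    have := ((U.cont_smul a).continuousAt (x := c.psi.symm z)).tendsto.comp
      (c.psi.continuousAt_symm hz)
    rw [ha] at this
    exact this
  have o1 := c1.psi.open_source.mem_nhds h2
  filter_upwards [t0.eventually_mem o1, t1.eventually_mem o1, c.psi.open_target.mem_nhds hz,
    c0.psi.open_target.mem_nhds hz0] with w w1 w2 w3 w4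
  refine h4 _ w1 _ w2 ?_
  rw [U.p_smul, H13_p c w3, H13_p c0 w4, he]

theorem H13_wloc (h : claimLCh) (b : (Fin 5 → U.G) → ℝ) (phi : U.Y → ℝ)
    (hb : ∀ (g : U.G) v, b (fun i => g * v i) = b v) (c c0 : LCh U) (he : c.e = c0.e) {z : E4}
    (hz : z ∈ c.psi.target) (hz0 : z ∈ c0.psi.target) : wloc U b phi c0 z = wloc U b phi c z := by
  obtain ⟨a, ha⟩ := H13_eventually h c c0 he hz hz0
  unfold wloc
  rw [← finsum_comp_equiv (Equiv.arrowCongr (Equiv.refl (Fin 5)) (Equiv.mulLeft a))]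
  refine finsum_congr fun v => ?_
  have e1 : ∀ i, (Equiv.arrowCongr (Equiv.refl (Fin 5)) (Equiv.mulLeft a)) v i = a * v i :=
    fun i => rfl
  have e2 : b ((Equiv.arrowCongr (Equiv.refl (Fin 5)) (Equiv.mulLeft a)) v) = b v := hb a v
  rw [e2]
  simp only [e1]
  have e3 : ∀ (g : U.G), ∀ᶠ w in 𝓝 z, phi ((a * g)⁻¹ • c0.psi.symm w) =
      phi (g⁻¹ • c.psi.symm w) := by
    intro g
    filter_upwards [ha] with w hw
    rw [hw, mul_inv_rev, mul_smul, inv_smul_smul]
  have e4 : ∀ g : U.G, fderiv ℝ (fun w => phi ((a * g)⁻¹ • c0.psi.symm w)) z =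
      fderiv ℝ (fun w => phi (g⁻¹ • c.psi.symm w)) z := fun g =>
    Filter.EventuallyEq.fderiv_eq (e3 g)
  rw [(e3 (v 0)).self_of_nhds]
  simp only [e4]

end

theorem claimWcoef_proof (h : claimLCh) : claimWcoef := by
  intro X _ _ _ U b phi hb e c he z hz
  classical
  have hex : ∃ c : LCh U, c.e = e ∧ z ∈ c.psi.target := ⟨c, he, hz⟩
  unfold wcoef
  rw [dif_pos hex]
  exact H13_wloc h b phi hb c hex.choose (he.trans hex.choose_spec.1.symm) hz hex.choose_spec.2

end NRF.H

end
end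

section

/-!
# H15: bound for the local coefficient
-/

open scoped Manifold ContDiff Topology
open MeasureTheory Set

noncomputable section

namespace NRF.H

open scoped MatrixOrder in
theorem h15_sqrt {G : Matrix (Fin 4) (Fin 4) ℝ} (hG : G.PosDef) :
    ∃ B : Matrix (Fin 4) (Fin 4) ℝ, G = B.transpose * B := by
  obtain ⟨B, hB⟩ := CStarAlgebra.nonneg_iff_eq_star_mul_self.mp hG.posSemidef.nonneg
  refine ⟨B, ?_⟩
  rw [hB, Matrix.star_eq_conjTranspose, Matrix.conjTranspose_eq_transpose_of_trivial]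

/-- Linear algebra: the sum of the absolute values of the determinants. -/
theorem h15_alg {A : Type} (S : Finset A) (phi : A → ℝ) (L : A → Fin 4 → ℝ)
    (G : Matrix (Fin 4) (Fin 4) ℝ) (K : ℝ) (hG : G.PosDef) (hphi : ∀ a ∈ S, 0 ≤ phi a)
    (hsum : ∑ a ∈ S, phi a ≤ 1)
    (hL : ∀ v : Fin 4 → ℝ, ∑ a ∈ S, |∑ i, v i * L a i| ≤ K * Real.sqrt (∑ i, ∑ j, G i j * v i * v j)) :
    ∑ v ∈ Fintype.piFinset (fun _ : Fin 5 => S),
      phi (v 0) * |Matrix.det (Matrix.of fun i j : Fin 4 => L (v j.succ) i)| ≤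
      24 * K ^ 4 * Real.sqrt G.det := by
  classical
  obtain ⟨B, hB⟩ := h15_sqrt hG
  have hdet : G.det = B.det ^ 2 := by
    rw [hB, Matrix.det_mul, Matrix.det_transpose]
    ring
  have hpos : 0 < G.det := hG.det_pos
  have hB0 : B.det ≠ 0 := by
    intro h
    rw [hdet, h] at hpos
    norm_num at hpos
  have hunit : IsUnit B.det := isUnit_iff_ne_zero.2 hB0
  have hsq : Real.sqrt G.det = |B.det| := by
    rw [hdet, Real.sqrt_sq_eq_abs]
  obtain ⟨E, hE⟩ : ∃ E : Matrix (Fin 4) (Fin 4) ℝ, B * E = 1 := ⟨B⁻¹, Matrix.mul_nonsing_inv B hunit⟩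
  have hEG : E.transpose * G * E = 1 := by
    rw [hB]
    have : E.transpose * (B.transpose * B) * E = (B * E).transpose * (B * E) := by
      rw [Matrix.transpose_mul]
      simp only [Matrix.mul_assoc]
    rw [this, hE]
    simp
  have hdE : B.det * E.det = 1 := by
    rw [← Matrix.det_mul, hE, Matrix.det_one]
  -- the transformed functionals
  have hM : ∀ v : Fin 5 → A, |Matrix.det (Matrix.of fun i j : Fin 4 => L (v j.succ) i)| =
      |B.det| * |Matrix.det (Matrix.of fun k j : Fin 4 => ∑ i, E i k * L (v j.succ) i)| := by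
    intro v
    have : (Matrix.of fun k j : Fin 4 => ∑ i, E i k * L (v j.succ) i) =
        E.transpose * (Matrix.of fun i j : Fin 4 => L (v j.succ) i) := by
      ext k j
      rw [Matrix.mul_apply]
      rfl
    rw [this, Matrix.det_mul, Matrix.det_transpose, abs_mul, ← mul_assoc, ← abs_mul, hdE]
    simp
  have hK : ∀ k : Fin 4, ∑ a ∈ S, |∑ i, E i k * L a i| ≤ K := by
    intro k
    refine (hL (fun i => E i k)).trans ?_
    have : ∑ i, ∑ j, G i j * E i k * E j k = 1 := by
      have h1 := congrFun (congrFun hEG k) k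
      rw [Matrix.one_apply_eq, Matrix.mul_apply] at h1
      rw [← h1, Finset.sum_comm]
      refine Finset.sum_congr rfl fun j _ => ?_
      rw [Matrix.mul_apply, Finset.sum_mul]
      refine Finset.sum_congr rfl fun i _ => ?_
      rw [Matrix.transpose_apply]
      ring
    rw [this, Real.sqrt_one, mul_one]
  have hK0 : 0 ≤ K := (Finset.sum_nonneg fun a _ => abs_nonneg _).trans (hK 0)
  have hdetle : ∀ v : Fin 5 → A,
      |Matrix.det (Matrix.of fun k j : Fin 4 => ∑ i, E i k * L (v j.succ) i)| ≤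
      ∑ σ : Equiv.Perm (Fin 4), ∏ j, |∑ i, E i (σ j) * L (v j.succ) i| := by
    intro v
    rw [Matrix.det_apply]
    refine (Finset.abs_sum_le_sum_abs _ _).trans (Finset.sum_le_sum fun σ _ => ?_)
    rw [Units.smul_def, zsmul_eq_mul, abs_mul, Finset.abs_prod]
    have : |(((Equiv.Perm.sign σ : ℤˣ) : ℤ) : ℝ)| = 1 := by
      rcases Int.units_eq_one_or (Equiv.Perm.sign σ) with h | h <;> simp [h]
    rw [this, one_mul]
    rfl
  have hσ : ∀ σ : Equiv.Perm (Fin 4),
      ∑ v ∈ Fintype.piFinset (fun _ : Fin 5 => S),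
        phi (v 0) * ∏ j : Fin 4, |∑ i, E i (σ j) * L (v j.succ) i| ≤ K ^ 4 := by
    intro σ
    obtain ⟨F, hF0, hF1⟩ : ∃ F : Fin 5 → A → ℝ, (∀ a, F 0 a = phi a) ∧
        ∀ (j : Fin 4) a, F j.succ a = |∑ i, E i (σ j) * L a i| :=
      ⟨Fin.cons phi (fun j a => |∑ i, E i (σ j) * L a i|), fun a => rfl, fun j a => rfl⟩
    have h1 : ∏ l : Fin 5, ∑ a ∈ S, F l a =
        ∑ v ∈ Fintype.piFinset (fun _ : Fin 5 => S), ∏ l, F l (v l) :=
      Finset.prod_univ_sum (fun _ : Fin 5 => S) F
    have h2 : ∑ v ∈ Fintype.piFinset (fun _ : Fin 5 => S),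
        phi (v 0) * ∏ j : Fin 4, |∑ i, E i (σ j) * L (v j.succ) i| =
        (∑ a ∈ S, phi a) * ∏ j : Fin 4, ∑ a ∈ S, |∑ i, E i (σ j) * L a i| := by
      have e1 : ∏ l : Fin 5, ∑ a ∈ S, F l a =
          (∑ a ∈ S, phi a) * ∏ j : Fin 4, ∑ a ∈ S, |∑ i, E i (σ j) * L a i| := by
        rw [Fin.prod_univ_succ (fun l : Fin 5 => ∑ a ∈ S, F l a)]
        simp only [hF0, hF1]
      rw [← e1, h1]
      refine Finset.sum_congr rfl fun v _ => ?_
      rw [Fin.prod_univ_succ (fun l : Fin 5 => F l (v l)), hF0]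
      simp only [hF1]
    rw [h2]
    have h3 : ∏ j : Fin 4, ∑ a ∈ S, |∑ i, E i (σ j) * L a i| ≤ K ^ 4 := by
      refine (Finset.prod_le_prod (fun j _ => Finset.sum_nonneg fun a _ => abs_nonneg _)
        (fun j _ => hK (σ j))).trans ?_
      simp
    have h4 : 0 ≤ ∏ j : Fin 4, ∑ a ∈ S, |∑ i, E i (σ j) * L a i| :=
      Finset.prod_nonneg fun j _ => Finset.sum_nonneg fun a _ => abs_nonneg _
    calc (∑ a ∈ S, phi a) * ∏ j : Fin 4, ∑ a ∈ S, |∑ i, E i (σ j) * L a i|
        ≤ 1 * ∏ j : Fin 4, ∑ a ∈ S, |∑ i, E i (σ j) * L a i| :=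
          mul_le_mul_of_nonneg_right hsum h4
      _ ≤ K ^ 4 := by rw [one_mul]; exact h3
  calc ∑ v ∈ Fintype.piFinset (fun _ : Fin 5 => S),
      phi (v 0) * |Matrix.det (Matrix.of fun i j : Fin 4 => L (v j.succ) i)|
      ≤ ∑ v ∈ Fintype.piFinset (fun _ : Fin 5 => S), ∑ σ : Equiv.Perm (Fin 4), |B.det| *
        (phi (v 0) * ∏ j : Fin 4, |∑ i, E i (σ j) * L (v j.succ) i|) := by
        refine Finset.sum_le_sum fun v hv => ?_
        have hv0 : 0 ≤ phi (v 0) := hphi _ (Fintype.mem_piFinset.1 hv 0)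
        rw [hM v, ← Finset.mul_sum, ← Finset.mul_sum]
        have := mul_le_mul_of_nonneg_left (hdetle v)
          (mul_nonneg (abs_nonneg B.det) hv0)
        nlinarith [this]
    _ = ∑ σ : Equiv.Perm (Fin 4), |B.det| * ∑ v ∈ Fintype.piFinset (fun _ : Fin 5 => S),
        (phi (v 0) * ∏ j : Fin 4, |∑ i, E i (σ j) * L (v j.succ) i|) := by
        rw [Finset.sum_comm]
        simp only [Finset.mul_sum]
    _ ≤ ∑ σ : Equiv.Perm (Fin 4), |B.det| * K ^ 4 :=
        Finset.sum_le_sum fun σ _ => mul_le_mul_of_nonneg_left (hσ σ) (abs_nonneg _)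
    _ = 24 * K ^ 4 * Real.sqrt G.det := by
        rw [hsq, Finset.sum_const, Finset.card_univ, Fintype.card_perm, Fintype.card_fin]
        simp [Nat.factorial]
        ring

section cover

variable {X : Type} [TopologicalSpace X] [ChartedSpace E4 X]

/-- The derivative of a translate of `phi` in a lifted chart. -/
def h15_L (U : UCover X) (phi : U.Y → ℝ) (c : LCh U) (z : E4) (a : U.G) : E4 →L[ℝ] ℝ :=
  fderiv ℝ (fun w => phi (a⁻¹ • c.psi.symm w)) z

/-- Only finitely many translates matter near a point. -/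
theorem h15_fin [T2Space X] (h12 : claimLocFin) (U : UCover X) (g : Metric X) (K : ℝ)
    (phi : U.Y → ℝ) (hphi : IsEqPart U g K phi) (c : LCh U) {z : E4} (hz : z ∈ c.psi.target) :
    ∃ S : Finset U.G, ∀ a, a ∉ S →
      phi (a⁻¹ • c.psi.symm z) = 0 ∧ h15_L U phi c z a = 0 := by
  obtain ⟨_, hloc⟩ := h12 X U g K phi hphi
  obtain ⟨O, hO, hC, hfin⟩ := hloc {c.psi.symm z} isCompact_singleton
  have hzO : c.psi.symm z ∈ O := hC rfl
  refine ⟨hfin.toFinset, fun a ha => ?_⟩
  have h0 : ∀ y ∈ O, phi (a⁻¹ • y) = 0 := by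
    intro y hy
    by_contra hne
    exact ha (hfin.mem_toFinset.2 ⟨y, hy, hne⟩)
  refine ⟨h0 _ hzO, ?_⟩
  have hev : (fun w => phi (a⁻¹ • c.psi.symm w)) =ᶠ[𝓝 z] fun _ => (0 : ℝ) := by
    have hcont : ContinuousAt c.psi.symm z := c.psi.continuousAt_symm hz
    filter_upwards [hcont.preimage_mem_nhds (hO.mem_nhds hzO)] with w hw
    exact h0 _ hw
  unfold h15_L
  rw [hev.fderiv_eq, fderiv_const_apply]

theorem h15_expand (L : E4 →L[ℝ] ℝ) (v : Fin 4 → ℝ) :
    L (WithLp.toLp 2 v) = ∑ i, v i * L (bv i) := by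
  have h : (WithLp.toLp 2 v : E4) = ∑ i, v i • bv i := by
    ext k
    simp only [WithLp.ofLp_sum, WithLp.ofLp_smul, Finset.sum_apply, Pi.smul_apply, bv,
      PiLp.single_apply, smul_eq_mul]
    simp
  rw [h, map_sum]
  exact Finset.sum_congr rfl fun i _ => by rw [map_smul, smul_eq_mul]

theorem h15_wloc [T2Space X] (h12 : claimLocFin) (U : UCover X) (g : Metric X) (K : ℝ)
    (b : (Fin 5 → U.G) → ℝ) (phi : U.Y → ℝ) (hb : BddBy 1 b) (hphi : IsEqPart U g K phi)
    (c : LCh U) {z : E4} (hz : z ∈ c.psi.target) :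
    |wloc U b phi c z| ≤ 24 * K ^ 4 * Real.sqrt (g.coef c.e z).det := by
  classical
  obtain ⟨S, hS⟩ := h15_fin h12 U g K phi hphi c hz
  have hze : z ∈ c.e.1.target := by
    have h1 : c.psi.symm z ∈ c.psi.source := c.psi.map_target hz
    have h2 := c.eq _ h1
    rw [c.psi.right_inv hz] at h2
    rw [h2]
    exact c.e.1.map_source (c.mem _ h1)
  set F : (Fin 5 → U.G) → ℝ := fun v => b v * (phi ((v 0)⁻¹ • c.psi.symm z) *
    Matrix.det (Matrix.of fun i j : Fin 4 =>
      fderiv ℝ (fun w => phi ((v j.succ)⁻¹ • c.psi.symm w)) z (bv i))) with hF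
  have hsupp : Function.support F ⊆ ↑(Fintype.piFinset (fun _ : Fin 5 => S)) := by
    intro v hv
    rw [Finset.mem_coe, Fintype.mem_piFinset]
    intro l
    by_contra hl
    apply hv
    show F v = 0
    revert hl
    refine Fin.cases (fun hl => ?_) (fun j hl => ?_) l
    · rw [hF]
      simp only [(hS _ hl).1, zero_mul, mul_zero]
    · rw [hF]
      have : Matrix.det (Matrix.of fun i j : Fin 4 =>
          fderiv ℝ (fun w => phi ((v j.succ)⁻¹ • c.psi.symm w)) z (bv i)) = 0 := by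
        refine Matrix.det_eq_zero_of_column_eq_zero j fun i => ?_
        have h1 := (hS _ hl).2
        unfold h15_L at h1
        rw [Matrix.of_apply, h1]
        rfl
      simp only [this, mul_zero]
  have hw : wloc U b phi c z = ∑ v ∈ Fintype.piFinset (fun _ : Fin 5 => S), F v := by
    unfold wloc
    exact finsum_eq_sum_of_support_subset F hsupp
  have hle : |wloc U b phi c z| ≤ ∑ v ∈ Fintype.piFinset (fun _ : Fin 5 => S),
      phi ((v 0)⁻¹ • c.psi.symm z) * |Matrix.det (Matrix.of fun i j : Fin 4 =>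
        h15_L U phi c z (v j.succ) (bv i))| := by
    rw [hw]
    refine (Finset.abs_sum_le_sum_abs _ _).trans (Finset.sum_le_sum fun v _ => ?_)
    rw [hF]
    show |b v * (phi ((v 0)⁻¹ • c.psi.symm z) * _)| ≤ _
    rw [abs_mul, abs_mul, abs_of_nonneg (hphi.nonneg _)]
    have h1 := hb.2 v
    have h2 : 0 ≤ phi ((v 0)⁻¹ • c.psi.symm z) * |Matrix.det (Matrix.of fun i j : Fin 4 =>
        h15_L U phi c z (v j.succ) (bv i))| := mul_nonneg (hphi.nonneg _) (abs_nonneg _)
    calc |b v| * _ ≤ 1 * (phi ((v 0)⁻¹ • c.psi.symm z) * |Matrix.det (Matrix.of fun i j : Fin 4 =>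
        h15_L U phi c z (v j.succ) (bv i))|) := mul_le_mul_of_nonneg_right h1 h2
      _ = _ := one_mul _
  refine hle.trans ?_
  refine h15_alg S (fun a => phi (a⁻¹ • c.psi.symm z)) (fun a i => h15_L U phi c z a (bv i))
    (g.coef c.e z) K (g.posDef c.e z hze) (fun a _ => hphi.nonneg _) ?_ ?_
  · have h1 := hphi.sum_one (c.psi.symm z)
    rw [finsum_eq_sum_of_support_subset (s := S)] at h1
    · exact h1.le
    · intro a ha
      by_contra hne
      exact ha (hS a hne).1
  · intro v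
    have h1 := hphi.grad c z hz (WithLp.toLp 2 v)
    rw [finsum_eq_sum_of_support_subset (s := S)] at h1
    · refine le_trans (le_of_eq ?_) h1
      refine Finset.sum_congr rfl fun a _ => ?_
      rw [h15_expand]
      rfl
    · intro a ha
      by_contra hne
      apply ha
      have h2 := (hS a hne).2
      unfold h15_L at h2
      show |(fderiv ℝ (fun w => phi (a⁻¹ • c.psi.symm w)) z) (WithLp.toLp 2 v)| = 0
      rw [h2]
      simp

end cover

theorem claimWbound_proof (_h11 : claimLCh) (h12 : claimLocFin) (_h13 : claimWcoef) :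
    claimWbound := by
  intro X _ _ _ _ U g K b phi _ hb hphi e z hz
  classical
  unfold wcoef
  split_ifs with h
  · have hc := h.choose_spec
    have h1 := h15_wloc h12 U g K b phi hb hphi h.choose hc.2
    rw [hc.1] at h1
    exact h1
  · rw [abs_zero]
    exact mul_nonneg (mul_nonneg (by norm_num) (by positivity)) (Real.sqrt_nonneg _)

end NRF.H

end
end

section

/-!
# H16: the pull back of the partition of unity to a smooth lifted simplex
-/

set_option autoImplicit false

open scoped Manifold ContDiff Topology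
open MeasureTheory Set

noncomputable section

namespace NRF.H

section

variable {X : Type} [TopologicalSpace X] [ChartedSpace E4 X]

/-- A translate of the partition function in a lifted chart is `C²`. -/
theorem H16_smooth (h11 : claimLCh) (U : UCover X) (phi : U.Y → ℝ)
    (hs : ∀ c : LCh U, ContDiffOn ℝ 2 (phi ∘ c.psi.symm) c.psi.target) (c : LCh U) (a : U.G) :
    ContDiffOn ℝ 2 (fun z => phi (a⁻¹ • c.psi.symm z)) c.psi.target := by
  obtain ⟨c', -, ht, hc'⟩ := (h11 X U).2 c a⁻¹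
  have h1 := hs c'
  rw [ht] at h1
  refine h1.congr fun z hz => ?_
  simp only [Function.comp_apply, hc' z hz]

/-- A smooth map from the cube to `X` in a chart. -/
theorem H16_chart [IsManifold (𝓡 4) ∞ X] {k : ℕ} {f : (Fin k → ℝ) → X} (hf : Sm f) (e : Ch X)
    {t0 : Fin k → ℝ} (ht0 : t0 ∈ cube k) (he : f t0 ∈ e.1.source) :
    ContDiffWithinAt ℝ ∞ (fun t => e.1 (f t)) (cube k) t0 := by
  have he' : e.1 ∈ IsManifold.maximalAtlas (𝓡 4) ∞ X :=
    IsManifold.subset_maximalAtlas e.2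
  have h1 : ContMDiffAt (𝓡 4) (𝓡 4) ∞ e.1 (f t0) := contMDiffAt_of_mem_maximalAtlas he' he
  have h2 : ContMDiffWithinAt 𝓘(ℝ, Fin k → ℝ) (𝓡 4) ∞ (e.1 ∘ f) (cube k) t0 :=
    h1.comp_contMDiffWithinAt t0 (hf t0 ht0)
  exact contMDiffWithinAt_iff_contDiffWithinAt.1 h2

end

theorem claimPsi_proof (h11 : claimLCh) (h12 : claimLocFin) (h3 : claimQS) : claimPsi := by
  intro X _ _ _ _ U g K phi hphi k s τ hτ
  refine ⟨?_, fun hs a => ?_⟩
  · obtain ⟨O, -, hO, hf⟩ := (h12 X U g K phi hphi).2 (range τ) (isCompact_range τ.continuous)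
    refine ⟨hf.toFinset, fun x => ?_⟩
    have hx : τ x ∈ O := hO (mem_range_self x)
    have h0 : ∀ a, a ∉ hf.toFinset → phi (a⁻¹ • τ x) = 0 := by
      intro a ha
      by_contra hne
      exact ha ((hf.mem_toFinset).2 ⟨τ x, hx, hne⟩)
    refine ⟨h0, ?_⟩
    rw [← hphi.sum_one (τ x)]
    refine (finsum_eq_sum_of_support_subset _ ?_).symm
    intro a ha
    by_contra hne
    exact ha (h0 a hne)
  · intro t0 ht0
    obtain ⟨c, hce, hy, -, -⟩ := (h11 X U).1 (τ (qS k t0)) (chAt (U.p (τ (qS k t0)))) univ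
      isOpen_univ (mem_univ _) (mem_chart_source E4 _)
    have hE : ContDiffWithinAt ℝ ∞ (fun t => c.e.1 (s (qS k t))) (cube k) t0 := by
      refine H16_chart hs c.e ht0 ?_
      have := c.mem _ hy
      rwa [hτ] at this
    have hval : ∀ t, τ (qS k t) ∈ c.psi.source →
        c.psi (τ (qS k t)) = c.e.1 (s (qS k t)) := by
      intro t ht
      rw [c.eq _ ht, hτ]
    have hcont : Continuous fun t => τ (qS k t) := τ.continuous.comp (h3.2.2.1 k)
    have hnear : ∀ᶠ t in 𝓝[cube k] t0, τ (qS k t) ∈ c.psi.source :=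
      (hcont.continuousAt.eventually (c.psi.open_source.mem_nhds hy)).filter_mono
        nhdsWithin_le_nhds
    have hF : ContDiffAt ℝ 2 (fun z => phi (a⁻¹ • c.psi.symm z)) (c.e.1 (s (qS k t0))) := by
      have h1 := H16_smooth h11 U phi hphi.smooth c a
      have h2 : c.e.1 (s (qS k t0)) ∈ c.psi.target := by
        rw [← hval t0 hy]
        exact c.psi.map_source hy
      exact (h1 _ h2).contDiffAt (c.psi.open_target.mem_nhds h2)
    have hcomp : ContDiffWithinAt ℝ 2
        ((fun z => phi (a⁻¹ • c.psi.symm z)) ∘ fun t => c.e.1 (s (qS k t))) (cube k) t0 :=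
      hF.comp_contDiffWithinAt t0 (hE.of_le (WithTop.coe_le_coe.2 (le_top : (2 : ℕ∞) ≤ ⊤)))
    have hev : (fun t => phi (a⁻¹ • τ (qS k t))) =ᶠ[𝓝[cube k] t0]
        ((fun z => phi (a⁻¹ • c.psi.symm z)) ∘ fun t => c.e.1 (s (qS k t))) := by
      filter_upwards [hnear] with t ht
      simp only [Function.comp_apply, ← hval t ht, c.psi.left_inv ht]
    exact hcomp.congr_of_eventuallyEq hev (hev.self_of_nhdsWithin ht0)

end NRF.H

end
end

section

/-!
# Module H, item H18: cutoff functions are smooth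
-/

open scoped Manifold ContDiff Topology
open MeasureTheory Set

noncomputable section

namespace NRF.H

theorem claimCut_proof : claimCut := by
  intro X _ _ _ _ n e κ F hκ hsupp hF x
  by_cases hx : x ∈ e.1.source
  · -- near `x` the function is `κ * (F ∘ e)`
    have hopen : IsOpen e.1.source := e.1.open_source
    have h1 : ContMDiffAt (𝓡 4) 𝓘(ℝ, ℝ) n (fun y => F (e.1 y)) x := by
      have he : ContMDiffAt (𝓡 4) (𝓡 4) n e.1 x :=
        ((contMDiffOn_of_mem_maximalAtlas (I := 𝓡 4) (n := ∞)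
          (IsManifold.subset_maximalAtlas e.2)).contMDiffAt (hopen.mem_nhds hx)).of_le (by
            exact_mod_cast le_top)
      have hFx : ContMDiffAt (𝓡 4) 𝓘(ℝ, ℝ) n F (e.1 x) :=
        (hF.contDiffAt (e.1.open_target.mem_nhds (e.1.map_source hx))).contMDiffAt
      exact hFx.comp x he
    have h2 : ContMDiffAt (𝓡 4) 𝓘(ℝ, ℝ) n (fun y => κ y * F (e.1 y)) x := (hκ x).mul h1
    refine h2.congr_of_eventuallyEq ?_
    filter_upwards [hopen.mem_nhds hx] with y hy
    unfold cutoff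
    rw [Set.indicator_of_mem hy]
  · have hx' : x ∉ tsupport κ := fun h => hx (hsupp h)
    have h2 : cutoff e κ F =ᶠ[𝓝 x] fun _ => 0 := by
      filter_upwards [(isClosed_tsupport κ).isOpen_compl.mem_nhds hx'] with y hy
      have hy0 : κ y = 0 := image_eq_zero_of_notMem_tsupport hy
      unfold cutoff
      by_cases hys : y ∈ e.1.source
      · rw [Set.indicator_of_mem hys, hy0, zero_mul]
      · rw [Set.indicator_of_notMem hys]
    exact contMDiffAt_const.congr_of_eventuallyEq h2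

end NRF.H

end
end

section

open scoped Manifold ContDiff Topology
open MeasureTheory Set

set_option autoImplicit false

noncomputable section

namespace NRF.H

theorem claimSum_proof (h17 : claimPull) : claimSum := by
  intro X _ _ _ _ U g K b phi hb hphi m e χ κ O hO hχO hOs hκ hχ s τ hτ hs t ht
  have h1 : bform b (fun a t => phi (a⁻¹ • τ (qS 4 t))) t =
      ∑ j, χ j (s (qS 4 t)) * bform b (fun a t => phi (a⁻¹ • τ (qS 4 t))) t := by
    rw [← Finset.sum_mul, hχ, one_mul]
  rw [h1]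
  refine Finset.sum_congr rfl fun j _ => ?_
  by_cases hx : χ j (s (qS 4 t)) = 0
  · have : cutoff (e j) (χ j) (wcoef U b phi (e j)) (s (qS 4 t)) = 0 := by
      simp only [cutoff]
      by_cases hxs : s (qS 4 t) ∈ (e j).1.source
      · rw [indicator_of_mem hxs, hx, zero_mul]
      · rw [indicator_of_notMem hxs]
    rw [hx, this, zero_mul, zero_mul]
  · have hxO : s (qS 4 t) ∈ O j := hχO j (subset_tsupport _ hx)
    have hxs : s (qS 4 t) ∈ (e j).1.source := hOs j hxO
    rw [h17 X U g K b phi hb hphi s τ hτ hs (e j) t ht hxs]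
    simp only [cutoff]
    rw [indicator_of_mem hxs, mul_assoc]
    congr 2
    unfold jac
    congr 1
    ext i k
    simp only [Matrix.of_apply, cd]
    have hcont : ContinuousWithinAt (fun t => s (qS 4 t)) (cube 4) t := (hs t ht).continuousWithinAt
    have hev : (fun t => (e j).1.source.indicator (fun x => κ j x * (e j).1 x k) (s (qS 4 t)))
        =ᶠ[𝓝[cube 4] t] fun t => (e j).1 (s (qS 4 t)) k := by
      filter_upwards [hcont ((hO j).mem_nhds hxO)] with t' ht'
      rw [indicator_of_mem (hOs j ht'), hκ j _ ht', one_mul]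
    rw [hev.fderivWithin_eq (by rw [indicator_of_mem hxs, hκ j _ hxO, one_mul])]

end NRF.H

end
end

section

/-!
# H2: Stokes theorem on cubes
-/

open scoped Manifold ContDiff Topology
open MeasureTheory Set

set_option autoImplicit false

noncomputable section

namespace NRF.H

namespace Stk

theorem interior_cube (k : ℕ) : interior (cube k) = Set.pi univ fun _ => Ioo (0 : ℝ) 1 := by
  rw [show cube k = Set.pi univ fun _ => Icc (0 : ℝ) 1 from (pi_univ_Icc _ _).symm,
    interior_pi_set finite_univ]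
  simp only [interior_Icc]

theorem interior_cube_nonempty (k : ℕ) : (interior (cube k)).Nonempty := by
  rw [interior_cube]
  exact ⟨fun _ => 1 / 2, fun i _ => ⟨by norm_num, by norm_num⟩⟩

theorem uniqueDiffOn_cube (k : ℕ) : UniqueDiffOn ℝ (cube k) :=
  uniqueDiffOn_convex (convex_Icc _ _) (interior_cube_nonempty k)

theorem mem_closure_interior_cube {k : ℕ} {t : Fin k → ℝ} (ht : t ∈ cube k) :
    t ∈ closure (interior (cube k)) := by
  rw [(convex_Icc (𝕜 := ℝ) (0 : Fin k → ℝ) 1).closure_interior_eq_closure_of_nonempty_interior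
    (interior_cube_nonempty k)]
  exact subset_closure ht

theorem isCompact_cube (k : ℕ) : IsCompact (cube k) := isCompact_Icc

theorem cd_contDiffOn {k n : ℕ} {f : (Fin k → ℝ) → ℝ} (hf : ContDiffOn ℝ (n + 1) f (cube k))
    (i : Fin k) : ContDiffOn ℝ n (cd f i) (cube k) :=
  (hf.fderivWithin (uniqueDiffOn_cube k) le_rfl).clm_apply contDiffOn_const

theorem cd_continuousOn {k : ℕ} {f : (Fin k → ℝ) → ℝ} (hf : ContDiffOn ℝ 1 f (cube k))
    (i : Fin k) : ContinuousOn (cd f i) (cube k) :=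
  (cd_contDiffOn (n := 0) (by simpa using hf) i).continuousOn

theorem cd_contDiffOn_one {k : ℕ} {f : (Fin k → ℝ) → ℝ} (hf : ContDiffOn ℝ 2 f (cube k))
    (i : Fin k) : ContDiffOn ℝ 1 (cd f i) (cube k) := by
  have h : ContDiffOn ℝ ((1 : ℕ) + 1) f (cube k) := by
    refine hf.of_le ?_
    norm_num
  exact_mod_cast cd_contDiffOn (n := 1) h i

theorem jac_continuousOn {k : ℕ} {f : Fin k → (Fin k → ℝ) → ℝ}
    (hf : ∀ j, ContDiffOn ℝ 1 (f j) (cube k)) : ContinuousOn (jac f) (cube k) := by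
  have h : ∀ i j, ContinuousOn (fun t => cd (f j) i t) (cube k) := fun i j =>
    cd_continuousOn (hf j) i
  unfold jac
  simp only [Matrix.det_apply]
  refine continuousOn_finsetSum _ fun σ _ => ?_
  refine ContinuousOn.const_smul (continuousOn_finsetProd _ fun i _ => ?_) _
  exact h _ _

/-- The determinant as a continuous multilinear map of the rows. -/
def detM (n : ℕ) : ContinuousMultilinearMap ℝ (fun _ : Fin n => Fin n → ℝ) ℝ :=
  { (Matrix.detRowAlternating (R := ℝ) (n := Fin n)).toMultilinearMap with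
    cont := by
      show Continuous fun m : Fin n → Fin n → ℝ => Matrix.det (Matrix.of m)
      exact Continuous.matrix_det continuous_id }

theorem detM_apply {n : ℕ} (m : Fin n → Fin n → ℝ) : detM n m = Matrix.det (Matrix.of m) := rfl

theorem detM_swap {n : ℕ} (m : Fin n → Fin n → ℝ) {i j : Fin n} (h : i ≠ j) :
    detM n (m ∘ Equiv.swap i j) = - detM n m :=
  (Matrix.detRowAlternating (R := ℝ) (n := Fin n)).map_swap m h

variable {k : ℕ}

/-- The rows `e_i, ∇ f_1, …, ∇ f_k`. -/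
def rows (f : Fin k → (Fin (k + 1) → ℝ) → ℝ) (i : Fin (k + 1)) (t : Fin (k + 1) → ℝ) :
    Fin (k + 1) → Fin (k + 1) → ℝ :=
  Fin.cons (Pi.single i 1) (fun j l => cd (f j) l t)

theorem rows_zero (f : Fin k → (Fin (k + 1) → ℝ) → ℝ) (i : Fin (k + 1)) (t : Fin (k + 1) → ℝ) :
    rows f i t 0 = Pi.single i 1 := rfl

theorem rows_succ (f : Fin k → (Fin (k + 1) → ℝ) → ℝ) (i : Fin (k + 1)) (t : Fin (k + 1) → ℝ)
    (j : Fin k) : rows f i t j.succ = fun l => cd (f j) l t := rfl

/-- The signed minors. -/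
def mnr (f : Fin k → (Fin (k + 1) → ℝ) → ℝ) (i : Fin (k + 1)) (t : Fin (k + 1) → ℝ) : ℝ :=
  detM (k + 1) (rows f i t)

theorem mnr_eq (f : Fin k → (Fin (k + 1) → ℝ) → ℝ) (i : Fin (k + 1)) (t : Fin (k + 1) → ℝ) :
    mnr f i t = (-1 : ℝ) ^ (i : ℕ) *
      Matrix.det (Matrix.of fun a j => cd (f j) (i.succAbove a) t) := by
  unfold mnr
  rw [detM_apply, Matrix.det_succ_row_zero, Finset.sum_eq_single i]
  · have e1 : (Matrix.of (rows f i t)) 0 i = 1 := by
      show rows f i t 0 i = 1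
      rw [rows_zero]
      simp
    rw [e1, mul_one, ← Matrix.det_transpose]
    rfl
  · intro l _ hl
    have e1 : (Matrix.of (rows f i t)) 0 l = 0 := by
      show rows f i t 0 l = 0
      rw [rows_zero]
      simp [hl]
    rw [e1]
    ring
  · intro h
    exact absurd (Finset.mem_univ _) h

theorem jac_cons (f0 : (Fin (k + 1) → ℝ) → ℝ) (f : Fin k → (Fin (k + 1) → ℝ) → ℝ)
    (t : Fin (k + 1) → ℝ) :
    jac (Fin.cons f0 f : Fin (k + 1) → (Fin (k + 1) → ℝ) → ℝ) t =
      ∑ i, cd f0 i t * mnr f i t := by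
  unfold jac
  rw [Matrix.det_succ_column_zero]
  refine Finset.sum_congr rfl fun i _ => ?_
  rw [mnr_eq]
  have e1 : (Matrix.of fun i j => cd ((Fin.cons f0 f : Fin (k + 1) → (Fin (k + 1) → ℝ) → ℝ) j) i t)
      i 0 = cd f0 i t := rfl
  have e2 : (Matrix.of fun i j => cd ((Fin.cons f0 f : Fin (k + 1) → (Fin (k + 1) → ℝ) → ℝ) j) i
      t).submatrix i.succAbove Fin.succ = Matrix.of fun a j => cd (f j) (i.succAbove a) t := rfl
  rw [e1, e2]
  ring

theorem mnr_contDiffOn {f : Fin k → (Fin (k + 1) → ℝ) → ℝ}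
    (hf : ∀ j, ContDiffOn ℝ 2 (f j) (cube (k + 1))) (i : Fin (k + 1)) :
    ContDiffOn ℝ 1 (mnr f i) (cube (k + 1)) := by
  have h : ∀ a b, ContDiffOn ℝ 1 (fun t => rows f i t a b) (cube (k + 1)) := by
    intro a b
    refine Fin.cases ?_ (fun j => ?_) a
    · simp only [rows_zero]
      exact contDiffOn_const
    · simp only [rows_succ]
      exact cd_contDiffOn_one (hf j) b
  have e : mnr f i = fun t => ∑ σ : Equiv.Perm (Fin (k + 1)), Equiv.Perm.sign σ •
      ∏ a, rows f i t (σ a) a := by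
    funext t
    unfold mnr
    rw [detM_apply, Matrix.det_apply]
    rfl
  rw [e]
  refine ContDiffOn.sum fun σ _ => ?_
  refine ContDiffOn.const_smul _ ?_
  exact contDiffOn_prod fun a _ => h _ _

/-- Second partial derivatives. -/
theorem cd_cd {f : (Fin (k + 1) → ℝ) → ℝ} (hf : ContDiffOn ℝ 2 f (cube (k + 1)))
    {t : Fin (k + 1) → ℝ} (ht : t ∈ cube (k + 1)) (l m : Fin (k + 1)) :
    cd (cd f l) m t =
      fderivWithin ℝ (fderivWithin ℝ f (cube (k + 1))) (cube (k + 1)) t (Pi.single m 1)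
        (Pi.single l 1) := by
  have h1 : DifferentiableWithinAt ℝ (fderivWithin ℝ f (cube (k + 1))) (cube (k + 1)) t := by
    have h2 : ContDiffOn ℝ 1 (fderivWithin ℝ f (cube (k + 1))) (cube (k + 1)) :=
      hf.fderivWithin (uniqueDiffOn_cube _) (by norm_num)
    exact (h2 t ht).differentiableWithinAt (by norm_num)
  have h3 := (h1.hasFDerivWithinAt.clm_apply
    (hasFDerivWithinAt_const (Pi.single l (1 : ℝ) : Fin (k + 1) → ℝ) t (cube (k + 1)))).fderivWithin
    (uniqueDiffOn_cube _ t ht)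
  have h4 : fderivWithin ℝ (cd f l) (cube (k + 1)) t = _ := h3
  show fderivWithin ℝ (cd f l) (cube (k + 1)) t (Pi.single m 1) = _
  rw [h4]
  simp

theorem cd_cd_comm {f : (Fin (k + 1) → ℝ) → ℝ} (hf : ContDiffOn ℝ 2 f (cube (k + 1)))
    {t : Fin (k + 1) → ℝ} (ht : t ∈ cube (k + 1)) (l m : Fin (k + 1)) :
    cd (cd f l) m t = cd (cd f m) l t := by
  rw [cd_cd hf ht, cd_cd hf ht]
  exact (hf t ht).isSymmSndFDerivWithinAt (by simp) (uniqueDiffOn_cube _)
    (mem_closure_interior_cube ht) ht _ _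

theorem cd_mnr {f : Fin k → (Fin (k + 1) → ℝ) → ℝ}
    (hf : ∀ j, ContDiffOn ℝ 2 (f j) (cube (k + 1))) {t : Fin (k + 1) → ℝ}
    (ht : t ∈ cube (k + 1)) (i m : Fin (k + 1)) :
    cd (mnr f i) m t = ∑ j : Fin k, detM (k + 1)
      (Function.update (rows f i t) j.succ (fun l => cd (cd (f j) l) m t)) := by
  classical
  let g' : Fin (k + 1) → (Fin (k + 1) → ℝ) →L[ℝ] (Fin (k + 1) → ℝ) :=
    Fin.cons 0 (fun j => ContinuousLinearMap.pi fun l =>
      fderivWithin ℝ (cd (f j) l) (cube (k + 1)) t)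
  have hg : ∀ a, HasFDerivWithinAt (fun t => rows f i t a) (g' a) (cube (k + 1)) t := by
    intro a
    refine Fin.cases ?_ (fun j => ?_) a
    · exact hasFDerivWithinAt_const (Pi.single i (1 : ℝ) : Fin (k + 1) → ℝ) t (cube (k + 1))
    · show HasFDerivWithinAt (fun t => (fun l => cd (f j) l t)) (ContinuousLinearMap.pi fun l =>
        fderivWithin ℝ (cd (f j) l) (cube (k + 1)) t) (cube (k + 1)) t
      rw [hasFDerivWithinAt_pi]
      intro l
      exact (((cd_contDiffOn_one (hf j) l) t ht).differentiableWithinAt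
        (by norm_num)).hasFDerivWithinAt
  have h := (HasFDerivWithinAt.multilinear_comp (detM (k + 1)) hg).fderivWithin
    (uniqueDiffOn_cube _ t ht)
  have h' : fderivWithin ℝ (mnr f i) (cube (k + 1)) t = _ := h
  show fderivWithin ℝ (mnr f i) (cube (k + 1)) t (Pi.single m 1) = _
  rw [h', sum_apply, Fin.sum_univ_succ]
  have h0 : ((detM (k + 1)).toContinuousLinearMap (fun j => rows f i t j) 0 ∘L g' 0)
      (Pi.single m 1) = 0 := by
    have e : g' 0 = 0 := rfl
    rw [e]
    simp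
  rw [h0, zero_add]
  rfl

theorem upd_swap (f : Fin k → (Fin (k + 1) → ℝ) → ℝ) (t : Fin (k + 1) → ℝ) (j : Fin k)
    (i l : Fin (k + 1)) :
    detM (k + 1) (Function.update (rows f l t) j.succ (Pi.single i 1)) =
      - detM (k + 1) (Function.update (rows f i t) j.succ (Pi.single l 1)) := by
  rw [← detM_swap _ (Fin.succ_ne_zero j).symm]
  congr 1
  funext a
  rw [Function.comp_apply]
  by_cases h0 : a = 0
  · subst h0
    rw [Equiv.swap_apply_left, Function.update_self,
      Function.update_of_ne (Fin.succ_ne_zero j).symm, rows_zero]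
  · by_cases h1 : a = j.succ
    · subst h1
      rw [Equiv.swap_apply_right, Function.update_self,
        Function.update_of_ne (Fin.succ_ne_zero j).symm, rows_zero]
    · rw [Equiv.swap_apply_of_ne_of_ne h0 h1, Function.update_of_ne h1, Function.update_of_ne h1]
      obtain ⟨b, rfl⟩ := Fin.exists_succ_eq.2 h0
      rw [rows_succ, rows_succ]

theorem upd_sum (x : Fin (k + 1) → Fin (k + 1) → ℝ) (a : Fin (k + 1)) (v : Fin (k + 1) → ℝ) :
    detM (k + 1) (Function.update x a v) =
      ∑ l, v l * detM (k + 1) (Function.update x a (Pi.single l 1)) := by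
  classical
  have h := ((detM (k + 1)).toContinuousLinearMap x a).toLinearMap.pi_apply_eq_sum_univ v
  have h' : detM (k + 1) (Function.update x a v) = _ := h
  rw [h']
  refine Finset.sum_congr rfl fun l _ => ?_
  rw [smul_eq_mul]
  congr 1
  show detM (k + 1) (Function.update x a (fun j => if l = j then 1 else 0)) = _
  congr 2
  funext j
  rw [Pi.single_apply]
  by_cases h : l = j
  · rw [if_pos h, if_pos h.symm]
  · rw [if_neg h, if_neg (fun h' => h h'.symm)]

theorem sum_cd_mnr {f : Fin k → (Fin (k + 1) → ℝ) → ℝ}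
    (hf : ∀ j, ContDiffOn ℝ 2 (f j) (cube (k + 1))) {t : Fin (k + 1) → ℝ}
    (ht : t ∈ cube (k + 1)) : ∑ i, cd (mnr f i) i t = 0 := by
  simp only [cd_mnr hf ht]
  rw [Finset.sum_comm]
  refine Finset.sum_eq_zero fun j _ => ?_
  simp only [upd_sum _ _ (fun l => cd (cd (f j) l) _ t)]
  set S := ∑ i, ∑ l, cd (cd (f j) l) i t *
    detM (k + 1) (Function.update (rows f i t) j.succ (Pi.single l 1)) with hS
  have h : S = -S := by
    conv_lhs => rw [hS, Finset.sum_comm]
    rw [hS, ← Finset.sum_neg_distrib]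
    refine Finset.sum_congr rfl fun i _ => ?_
    rw [← Finset.sum_neg_distrib]
    refine Finset.sum_congr rfl fun l _ => ?_
    rw [upd_swap, cd_cd_comm (hf j) ht]
    ring
  linarith

theorem cd_mul {f g : (Fin (k + 1) → ℝ) → ℝ} (hf : ContDiffOn ℝ 1 f (cube (k + 1)))
    (hg : ContDiffOn ℝ 1 g (cube (k + 1))) {t : Fin (k + 1) → ℝ} (ht : t ∈ cube (k + 1))
    (i : Fin (k + 1)) :
    cd (fun t => f t * g t) i t = cd f i t * g t + f t * cd g i t := by
  unfold cd
  have h1 := (hf t ht).differentiableWithinAt (by norm_num)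
  have h2 := (hg t ht).differentiableWithinAt (by norm_num)
  rw [fderivWithin_fun_mul (uniqueDiffOn_cube _ t ht) h1 h2]
  simp only [add_apply, smul_apply, smul_eq_mul]
  ring

theorem ins_mem {i : Fin (k + 1)} {c : ℝ} (hc : c ∈ Icc (0 : ℝ) 1) {t : Fin k → ℝ}
    (ht : t ∈ cube k) : ins i c t ∈ cube (k + 1) := by
  constructor
  · intro a
    rcases Fin.eq_self_or_eq_succAbove i a with h | ⟨b, h⟩
    · subst h
      simp only [ins, Fin.insertNth_apply_same]
      exact hc.1
    · subst h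
      simp only [ins, Fin.insertNth_apply_succAbove]
      exact ht.1 b
  · intro a
    rcases Fin.eq_self_or_eq_succAbove i a with h | ⟨b, h⟩
    · subst h
      simp only [ins, Fin.insertNth_apply_same]
      exact hc.2
    · subst h
      simp only [ins, Fin.insertNth_apply_succAbove]
      exact ht.2 b

/-- The linear part of `ins i c`. -/
def insL (i : Fin (k + 1)) : (Fin k → ℝ) →L[ℝ] (Fin (k + 1) → ℝ) :=
  ContinuousLinearMap.pi (i.insertNth 0 (fun a => ContinuousLinearMap.proj a) :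
    Fin (k + 1) → ((Fin k → ℝ) →L[ℝ] ℝ))

theorem hasFDerivAt_ins (i : Fin (k + 1)) (c : ℝ) (t : Fin k → ℝ) :
    HasFDerivAt (ins i c) (insL i) t := by
  rw [hasFDerivAt_pi']
  intro a
  rcases Fin.eq_self_or_eq_succAbove i a with h | ⟨b, h⟩
  · subst h
    have e1 : (fun x : Fin k → ℝ => ins a c x a) = fun _ => c := by
      funext x
      simp [ins]
    have e2 : (ContinuousLinearMap.proj a).comp (insL a) = (0 : (Fin k → ℝ) →L[ℝ] ℝ) := by
      ext x
      simp [insL]
    rw [e1, e2]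
    exact hasFDerivAt_const c t
  · subst h
    have e1 : (fun x : Fin k → ℝ => ins i c x (i.succAbove b)) = fun x => x b := by
      funext x
      simp [ins]
    have e2 : (ContinuousLinearMap.proj (i.succAbove b)).comp (insL i) =
        (ContinuousLinearMap.proj b : (Fin k → ℝ) →L[ℝ] ℝ) := by
      ext x
      simp [insL]
    rw [e1, e2]
    exact hasFDerivAt_apply b t

theorem insL_single (i : Fin (k + 1)) (a : Fin k) :
    insL i (Pi.single a 1) = Pi.single (i.succAbove a) 1 := by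
  funext b
  rcases Fin.eq_self_or_eq_succAbove i b with h | ⟨b, h⟩
  · subst h
    simp [insL, Fin.ne_succAbove]
  · subst h
    simp [insL, Pi.single_apply]

theorem cd_ins {f : (Fin (k + 1) → ℝ) → ℝ} (hf : ContDiffOn ℝ 1 f (cube (k + 1)))
    (i : Fin (k + 1)) {c : ℝ} (hc : c ∈ Icc (0 : ℝ) 1) {t : Fin k → ℝ} (ht : t ∈ cube k)
    (a : Fin k) : cd (fun t => f (ins i c t)) a t = cd f (i.succAbove a) (ins i c t) := by
  have h1 : DifferentiableWithinAt ℝ f (cube (k + 1)) (ins i c t) :=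
    (hf _ (ins_mem hc ht)).differentiableWithinAt (by norm_num)
  have h2 : HasFDerivWithinAt (ins i c) (insL i) (cube k) t :=
    (hasFDerivAt_ins i c t).hasFDerivWithinAt
  have h3 := (h1.hasFDerivWithinAt.comp t h2 (fun x hx => ins_mem hc hx)).fderivWithin
    (uniqueDiffOn_cube k t ht)
  have h4 : fderivWithin ℝ (fun t => f (ins i c t)) (cube k) t = _ := h3
  show fderivWithin ℝ (fun t => f (ins i c t)) (cube k) t (Pi.single a 1) = _
  rw [h4, ContinuousLinearMap.comp_apply, insL_single]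
  rfl

theorem mnr_ins {f : Fin k → (Fin (k + 1) → ℝ) → ℝ}
    (hf : ∀ j, ContDiffOn ℝ 1 (f j) (cube (k + 1))) (i : Fin (k + 1)) {c : ℝ}
    (hc : c ∈ Icc (0 : ℝ) 1) {t : Fin k → ℝ} (ht : t ∈ cube k) :
    mnr f i (ins i c t) = (-1 : ℝ) ^ (i : ℕ) * jac (fun j t => f j (ins i c t)) t := by
  rw [mnr_eq]
  unfold jac
  congr 2
  ext a j
  exact (cd_ins (hf j) i hc ht a).symm

end Stk

open Stk in
theorem claimStokes_proof : claimStokes := by
  intro k f0 f hf0 hf
  have hf1 : ∀ j, ContDiffOn ℝ 1 (f j) (cube (k + 1)) := fun j => (hf j).of_le (by norm_num)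
  have hM := fun i => mnr_contDiffOn hf i
  let V : Fin (k + 1) → (Fin (k + 1) → ℝ) → ℝ := fun i t => f0 t * mnr f i t
  have hV : ∀ i, ContDiffOn ℝ 1 (V i) (cube (k + 1)) := fun i => hf0.mul (hM i)
  have hcV : ∀ i, ∀ t ∈ cube (k + 1), cd (V i) i t = cd f0 i t * mnr f i t +
      f0 t * cd (mnr f i) i t := fun i t ht => cd_mul hf0 (hM i) ht i
  have hdiv : ∀ t ∈ cube (k + 1), jac (Fin.cons f0 f : Fin (k + 1) → (Fin (k + 1) → ℝ) → ℝ) t =
      ∑ i, fderivWithin ℝ (V i) (cube (k + 1)) t (Pi.single i 1) := by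
    intro t ht
    have h : ∑ i, fderivWithin ℝ (V i) (cube (k + 1)) t (Pi.single i 1) =
        ∑ i, cd (V i) i t := rfl
    rw [h, jac_cons]
    have h2 : ∑ i, cd (V i) i t = ∑ i, cd f0 i t * mnr f i t + f0 t * ∑ i, cd (mnr f i) i t := by
      rw [Finset.mul_sum, ← Finset.sum_add_distrib]
      exact Finset.sum_congr rfl fun i _ => hcV i t ht
    rw [h2, sum_cd_mnr hf ht, mul_zero, add_zero]
  rw [setIntegral_congr_fun measurableSet_Icc hdiv]
  have hD := integral_divergence_of_hasFDerivAt_off_countable' (0 : Fin (k + 1) → ℝ) 1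
    (fun i => zero_le_one) V (fun i t => fderivWithin ℝ (V i) (cube (k + 1)) t) ∅ countable_empty
    (fun i => (hV i).continuousOn) (fun x hx i => by
      have hx' : x ∈ interior (cube (k + 1)) := by
        rw [interior_cube]
        exact hx.1
      have h1 : DifferentiableWithinAt ℝ (V i) (cube (k + 1)) x :=
        (hV i x (interior_subset hx')).differentiableWithinAt (by norm_num)
      exact h1.hasFDerivWithinAt.hasFDerivAt (mem_interior_iff_mem_nhds.1 hx')) (by
      refine ContinuousOn.integrableOn_compact (isCompact_cube (k + 1)) ?_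
      exact continuousOn_finsetSum _ fun i _ => cd_continuousOn (hV i) i)
  rw [hD]
  refine Finset.sum_congr rfl fun i _ => ?_
  have key : ∀ c ∈ Icc (0 : ℝ) 1, ∫ x in cube k, V i (ins i c x) =
      (-1 : ℝ) ^ (i : ℕ) * cint (fun t => f0 (ins i c t)) (fun j t => f j (ins i c t)) := by
    intro c hc
    unfold cint
    rw [← integral_const_mul]
    refine setIntegral_congr_fun measurableSet_Icc fun t ht => ?_
    show f0 (ins i c t) * mnr f i (ins i c t) = _
    rw [mnr_ins hf1 i hc ht]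
    ring
  rw [mul_sub, ← key 1 ⟨by norm_num, le_rfl⟩, ← key 0 ⟨le_rfl, by norm_num⟩]
  rfl

end NRF.H

end
end

section

/-!
# H20: five functions on a 4-manifold are dependent
-/

set_option autoImplicit false

open scoped Manifold ContDiff Topology
open MeasureTheory Set

noncomputable section

namespace NRF.H

lemma H20_uniqueDiffOn (k : ℕ) : UniqueDiffOn ℝ (cube k) := by
  have h : (cube k) = Set.pi univ (fun _ : Fin k => Icc (0 : ℝ) 1) := by
    ext t
    simp only [mem_Icc, Set.mem_pi, mem_univ, true_implies, Pi.le_def, Pi.zero_apply,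
      Pi.one_apply]
    exact ⟨fun h i => ⟨h.1 i, h.2 i⟩, fun h => ⟨fun i => (h i).1, fun i => (h i).2⟩⟩
  rw [h]
  exact UniqueDiffOn.univ_pi (fun _ => uniqueDiffOn_Icc one_pos)

theorem claimJac0_proof : claimJac0 := by
  intro X _ _ _ s f hs hf t ht
  have hu : UniqueMDiffWithinAt 𝓘(ℝ, Fin 5 → ℝ) (cube 5) t :=
    (H20_uniqueDiffOn 5).uniqueMDiffOn t ht
  have hsd : MDifferentiableWithinAt 𝓘(ℝ, Fin 5 → ℝ) (𝓡 4) s (cube 5) t :=
    (hs t ht).mdifferentiableWithinAt (by simp)
  -- the derivative of `s` has a kernel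
  obtain ⟨A, hA⟩ : ∃ A : (Fin 5 → ℝ) →L[ℝ] E4,
      A = mfderivWithin 𝓘(ℝ, Fin 5 → ℝ) (𝓡 4) s (cube 5) t := ⟨_, rfl⟩
  have hker : LinearMap.ker (A : (Fin 5 → ℝ) →ₗ[ℝ] E4) ≠ ⊥ := by
    apply LinearMap.ker_ne_bot_of_finrank_lt
    simp
  obtain ⟨w, hw, hw0⟩ := Submodule.exists_mem_ne_zero_of_ne_bot hker
  have hAw : A w = 0 := hw
  have hder : ∀ j, fderivWithin ℝ (fun t => f j (s t)) (cube 5) t w = 0 := by
    intro j
    have hfd : MDifferentiableAt (𝓡 4) 𝓘(ℝ, ℝ) (f j) (s t) :=
      ((hf j) (s t)).mdifferentiableAt one_ne_zero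
    have h1 := mfderiv_comp_mfderivWithin t hfd hsd hu
    have h2 : mfderivWithin 𝓘(ℝ, Fin 5 → ℝ) 𝓘(ℝ, ℝ) (f j ∘ s) (cube 5) t =
        fderivWithin ℝ (f j ∘ s) (cube 5) t := mfderivWithin_eq_fderivWithin
    have h3 : fderivWithin ℝ (f j ∘ s) (cube 5) t w =
        mfderiv (𝓡 4) 𝓘(ℝ, ℝ) (f j) (s t) (A w) := by
      rw [hA]
      exact congrArg (fun L : (Fin 5 → ℝ) →L[ℝ] ℝ => L w) (h2.symm.trans h1)
    rw [hAw] at h3
    exact h3.trans (map_zero _)
  unfold jac
  rw [← Matrix.exists_vecMul_eq_zero_iff]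
  refine ⟨w, hw0, ?_⟩
  funext j
  have h4 : w = ∑ i, w i • (Pi.single i (1 : ℝ) : Fin 5 → ℝ) := by
    funext k
    simp [Finset.sum_apply, Pi.single_apply]
  have h5 := hder j
  rw [h4, map_sum] at h5
  simp only [map_smul, smul_eq_mul] at h5
  simpa [Matrix.vecMul, dotProduct, cd] using h5

end NRF.H

end
end

section

/-!
# H21: the localised cochains are closed
-/

set_option autoImplicit false

open scoped Manifold ContDiff Topology
open MeasureTheory Set

noncomputable section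

namespace NRF.H

lemma H21_face_zero (k : ℕ) (i : Fin (k + 2)) (x : stdSimplex ℝ (Fin (k + 1))) :
    (faceIncl k i x) i = 0 := by
  change (stdSimplex.map i.succAbove x) i = 0
  rw [stdSimplex.map_coe, FunOnFinite.linearMap_apply_apply]
  refine Finset.sum_eq_zero fun j hj => ?_
  exact absurd (Finset.mem_filter.1 hj).2 (Fin.succAbove_ne i j)

lemma H21_contDiffOn {X : Type} [TopologicalSpace X] [ChartedSpace E4 X] {k : ℕ} (n : ℕ∞)
    (f : X → ℝ) (s : (Fin k → ℝ) → X) (hf : ContMDiff (𝓡 4) 𝓘(ℝ, ℝ) n f) (hs : Sm s) :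
    ContDiffOn ℝ n (fun t => f (s t)) (cube k) := by
  have h1 : ContMDiffOn 𝓘(ℝ, Fin k → ℝ) (𝓡 4) n s (cube k) :=
    ContMDiffOn.of_le hs (by exact_mod_cast le_top)
  exact contMDiffOn_iff_contDiffOn.1 (hf.comp_contMDiffOn h1)

lemma H21_jac_zero (h20 : claimJac0) {X : Type} [TopologicalSpace X] [ChartedSpace E4 X]
    [IsManifold (𝓡 4) ∞ X] (f : X → ℝ) (q : Fin 4 → X → ℝ) (hf : ContMDiff (𝓡 4) 𝓘(ℝ, ℝ) 1 f)
    (hq : ∀ j, ContMDiff (𝓡 4) 𝓘(ℝ, ℝ) ∞ (q j)) (s : (Fin 5 → ℝ) → X) (hs : Sm s)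
    (t : Fin 5 → ℝ) (ht : t ∈ cube 5) :
    jac (Fin.cons (fun t => f (s t)) (fun j t => q j (s t)) :
      Fin 5 → (Fin 5 → ℝ) → ℝ) t = 0 := by
  have h1 := h20 X s (Fin.cons f q : Fin 5 → X → ℝ) hs (fun i => by
    refine Fin.cases hf (fun j => ?_) i
    exact (hq j).of_le (by exact_mod_cast le_top)) t ht
  have h2 : (Fin.cons (fun t => f (s t)) (fun j t => q j (s t)) : Fin 5 → (Fin 5 → ℝ) → ℝ) =
      fun j t => (Fin.cons f q : Fin 5 → X → ℝ) j (s t) := by
    funext j
    refine Fin.cases rfl (fun j => rfl) j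
  rw [h2]
  exact h1

theorem claimFclosed_proof (h4 : claimStokesSimp) (h5 : claimStokesPrism) (h20 : claimJac0) :
    claimFclosed := by
  intro X _ _ _ f q hf hq
  constructor
  · intro s hs
    have hs' : Sm fun t => s (qS 5 t) := hs
    have h1 := h4 4 (fun x => f (s x)) (fun j x => q j (s x)) (H21_contDiffOn 1 f _ hf hs')
      (fun j => H21_contDiffOn 2 (q j) _ ((hq j).of_le (by exact_mod_cast le_top)) hs')
    rw [setIntegral_eq_zero_of_forall_eq_zero
      (fun t ht => H21_jac_zero h20 f q hf hq _ hs' t ht)] at h1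
    exact h1.symm
  · intro s s' H hH h0 h1 hv
    have hH' : ∀ g : X → ℝ, (prT fun x u => g (H x u)) =
        fun T : Fin 5 → ℝ => g (prT H T) := fun g => rfl
    have h2 := h5 3 (fun x u => f (H x u)) (fun j x u => q j (H x u))
      (H21_contDiffOn 1 f (prT H) hf hH)
      (fun j => H21_contDiffOn 2 (q j) (prT H) ((hq j).of_le (by exact_mod_cast le_top)) hH)
    have h3 : ∀ t ∈ cube 5, jac (Fin.cons (prT fun x u => f (H x u))
        (fun j => prT fun x u => q j (H x u)) : Fin 5 → (Fin 5 → ℝ) → ℝ) t = 0 :=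
      fun t ht => H21_jac_zero h20 f q hf hq (prT H) hH t ht
    rw [setIntegral_eq_zero_of_forall_eq_zero h3] at h2
    have h6 : ∀ i : Fin 5, cint (prT fun x u => f (H (faceIncl 3 i x) u))
        (fun j => prT fun x u => q j (H (faceIncl 3 i x) u)) = 0 := by
      intro i
      unfold cint
      refine setIntegral_eq_zero_of_forall_eq_zero fun t ht => ?_
      have : (prT fun x u => f (H (faceIncl 3 i x) u)) t = 0 := by
        unfold prT
        refine hv _ ⟨i, H21_face_zero 3 i _⟩ _ ?_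
        exact ⟨ht.1 0, ht.2 0⟩
      rw [this, zero_mul]
    simp only [h6, mul_zero, Finset.sum_const_zero, sub_zero] at h2
    have h7 : cint (fun t => f (H (qS 4 t) 1)) (fun j t => q j (H (qS 4 t) 1)) = FS f q s' := by
      unfold FS
      simp only [h1]
    have h8 : cint (fun t => f (H (qS 4 t) 0)) (fun j t => q j (H (qS 4 t) 0)) = FS f q s := by
      unfold FS
      simp only [h0]
    linarith [h2, h7, h8]

end NRF.H

end
end

section

/-!
# H22: the localised cochain on an affine simplex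
-/

open scoped Manifold ContDiff Topology
open MeasureTheory Set

noncomputable section

namespace NRF.H

/-- The map from the cube to the simplex is surjective. -/
theorem H22_surj (k : ℕ) (x : Fin (k + 1) → ℝ) (hx : x ∈ stdSimplex ℝ (Fin (k + 1))) :
    ∃ t : Fin k → ℝ, (∀ i, 0 ≤ t i ∧ t i ≤ 1) ∧ qR k t = x := by
  induction k with
  | zero =>
    refine ⟨fun i => i.elim0, fun i => i.elim0, ?_⟩
    funext i
    have h1 : x 0 = 1 := by simpa using hx.2
    rw [Subsingleton.elim (α := Fin 1) i 0, h1]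
    rfl
  | succ k ih =>
    have h0 : 0 ≤ x 0 := hx.1 0
    have hs : x 0 + ∑ i : Fin (k + 1), x i.succ = 1 := by
      rw [← Fin.sum_univ_succ]
      exact hx.2
    have hs0 : 0 ≤ ∑ i : Fin (k + 1), x i.succ := Finset.sum_nonneg fun i _ => hx.1 _
    by_cases h1 : x 0 = 1
    · refine ⟨fun _ => 0, fun i => ⟨le_refl _, zero_le_one⟩, ?_⟩
      have hz : ∑ i : Fin (k + 1), x i.succ = 0 := by linarith
      have hz' : ∀ i : Fin (k + 1), x i.succ = 0 := by
        intro i
        exact (Finset.sum_eq_zero_iff_of_nonneg (fun i _ => hx.1 _)).1 hz i (Finset.mem_univ i)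
      funext i
      refine Fin.cases ?_ (fun j => ?_) i
      · simp [qR, h1]
      · simp [qR, hz' j]
    · have hr : 0 < 1 - x 0 := by
        have : x 0 ≤ 1 := by linarith
        have := lt_of_le_of_ne this h1
        linarith
      obtain ⟨t, ht, hq⟩ := ih (fun i => x i.succ / (1 - x 0)) ⟨fun i => div_nonneg (hx.1 _) hr.le, by
        rw [← Finset.sum_div]
        rw [div_eq_one_iff_eq hr.ne']
        linarith⟩
      refine ⟨Fin.cons (1 - x 0) t, ?_, ?_⟩
      · intro i
        refine Fin.cases ?_ (fun j => ?_) i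
        · simp only [Fin.cons_zero]
          exact ⟨hr.le, by linarith⟩
        · simp only [Fin.cons_succ]
          exact ht j
      · funext i
        refine Fin.cases ?_ (fun j => ?_) i
        · simp [qR]
        · simp only [qR, Fin.cons_succ, Fin.cons_zero, Fin.tail_cons]
          rw [hq]
          field_simp

/-- The map from the cube to the simplex is injective on the open cube. -/
theorem H22_inj (k : ℕ) (t t' : Fin k → ℝ) (h : ∀ i, 0 < t i) (h' : ∀ i, 0 < t' i)
    (he : qR k t = qR k t') : t = t' := by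
  induction k with
  | zero => exact Subsingleton.elim _ _
  | succ k ih =>
    have e0 : t 0 = t' 0 := by
      have := congrFun he 0
      simp only [qR, Fin.cons_zero] at this
      linarith
    have e1 : qR k (Fin.tail t) = qR k (Fin.tail t') := by
      funext i
      have := congrFun he i.succ
      simp only [qR, Fin.cons_succ] at this
      rw [← e0] at this
      exact mul_left_cancel₀ (h 0).ne' this
    have e2 := ih (Fin.tail t) (Fin.tail t') (fun i => h i.succ) (fun i => h' i.succ) e1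
    rw [← Fin.cons_self_tail t, ← Fin.cons_self_tail t', e0, e2]

/-- Partial derivatives of the map from the cube to the simplex. -/
def H22Q (t : Fin 4 → ℝ) : Matrix (Fin 4) (Fin 4) ℝ :=
  !![1 - t 1, t 1 * (1 - t 2), t 1 * t 2 * (1 - t 3), t 1 * t 2 * t 3;
     -t 0, t 0 * (1 - t 2), t 0 * t 2 * (1 - t 3), t 0 * t 2 * t 3;
     0, -(t 0 * t 1), t 0 * t 1 * (1 - t 3), t 0 * t 1 * t 3;
     0, 0, -(t 0 * t 1 * t 2), t 0 * t 1 * t 2]

theorem H22Q_det (t : Fin 4 → ℝ) : (H22Q t).det = t 0 ^ 3 * t 1 ^ 2 * t 2 := by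
  simp [H22Q, Matrix.det_succ_row_zero, Fin.sum_univ_succ, Fin.succAbove]
  ring

theorem H22_deriv (t : Fin 4 → ℝ) (l : Fin 4) :
    HasFDerivAt (fun t : Fin 4 → ℝ => qR 4 t l.succ)
      (∑ i, H22Q t i l • (ContinuousLinearMap.proj i : (Fin 4 → ℝ) →L[ℝ] ℝ)) t := by
  have h0 : HasFDerivAt (fun t : Fin 4 → ℝ => t 0)
    (ContinuousLinearMap.proj 0 : (Fin 4 → ℝ) →L[ℝ] ℝ) t := hasFDerivAt_apply 0 t
  have h1 : HasFDerivAt (fun t : Fin 4 → ℝ => t 1)
    (ContinuousLinearMap.proj 1 : (Fin 4 → ℝ) →L[ℝ] ℝ) t := hasFDerivAt_apply 1 t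
  have h2 : HasFDerivAt (fun t : Fin 4 → ℝ => t 2)
    (ContinuousLinearMap.proj 2 : (Fin 4 → ℝ) →L[ℝ] ℝ) t := hasFDerivAt_apply 2 t
  have h3 : HasFDerivAt (fun t : Fin 4 → ℝ => t 3)
    (ContinuousLinearMap.proj 3 : (Fin 4 → ℝ) →L[ℝ] ℝ) t := hasFDerivAt_apply 3 t
  fin_cases l
  · have := h0.mul ((hasFDerivAt_const (1 : ℝ) t).sub h1)
    refine (this.congr_fderiv ?_).congr_of_eventuallyEq (Filter.Eventually.of_forall fun s => ?_)
    · ext v
      simp [H22Q, Fin.sum_univ_succ]
      ring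
    · rfl
  · have := h0.mul (h1.mul ((hasFDerivAt_const (1 : ℝ) t).sub h2))
    refine (this.congr_fderiv ?_).congr_of_eventuallyEq (Filter.Eventually.of_forall fun s => ?_)
    · ext v
      simp [H22Q, Fin.sum_univ_succ]
      ring
    · rfl
  · have := h0.mul (h1.mul (h2.mul ((hasFDerivAt_const (1 : ℝ) t).sub h3)))
    refine (this.congr_fderiv ?_).congr_of_eventuallyEq (Filter.Eventually.of_forall fun s => ?_)
    · ext v
      simp [H22Q, Fin.sum_univ_succ]
      ring
    · rfl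
  · have := h0.mul (h1.mul (h2.mul h3))
    refine (this.congr_fderiv ?_).congr_of_eventuallyEq (Filter.Eventually.of_forall fun s => ?_)
    · ext v
      simp [H22Q, Fin.sum_univ_succ]
      ring
    · change s 0 * (s 1 * (s 2 * (s 3 * 1))) = s 0 * (s 1 * (s 2 * s 3))
      rw [mul_one]

/-- The affine map in coordinates. -/
def H22P (p : Fin 5 → E4) (t : Fin 4 → ℝ) : Fin 4 → ℝ :=
  fun j => p 0 j + ∑ l : Fin 4, qR 4 t l.succ * (p l.succ - p 0) j

/-- Matrix of partial derivatives. -/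
def H22A (p : Fin 5 → E4) (t : Fin 4 → ℝ) : Matrix (Fin 4) (Fin 4) ℝ :=
  H22Q t * (Matrix.of fun i j : Fin 4 => (p j.succ - p 0) i).transpose

/-- The derivative. -/
def H22L (p : Fin 5 → E4) (t : Fin 4 → ℝ) : (Fin 4 → ℝ) →L[ℝ] (Fin 4 → ℝ) :=
  LinearMap.toContinuousLinearMap (Matrix.toLin' (H22A p t).transpose)

theorem H22L_apply (p : Fin 5 → E4) (t v : Fin 4 → ℝ) (j : Fin 4) :
    H22L p t v j = ∑ i, H22A p t i j * v i := rfl

theorem H22L_det (p : Fin 5 → E4) (t : Fin 4 → ℝ) : (H22L p t).det = (H22A p t).det := by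
  unfold H22L ContinuousLinearMap.det
  rw [LinearMap.coe_toContinuousLinearMap, LinearMap.det_toLin', Matrix.det_transpose]

theorem H22A_det (p : Fin 5 → E4) (t : Fin 4 → ℝ) :
    (H22A p t).det = t 0 ^ 3 * t 1 ^ 2 * t 2 *
      Matrix.det (Matrix.of fun i j : Fin 4 => (p j.succ - p 0) i) := by
  unfold H22A
  rw [Matrix.det_mul, Matrix.det_transpose, H22Q_det]

theorem H22P_deriv (p : Fin 5 → E4) (t : Fin 4 → ℝ) : HasFDerivAt (H22P p) (H22L p t) t := by
  rw [hasFDerivAt_pi']
  intro j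
  have h1 : HasFDerivAt (fun t : Fin 4 → ℝ => p 0 j + ∑ l : Fin 4, qR 4 t l.succ * (p l.succ - p 0) j)
      (∑ l : Fin 4, (p l.succ - p 0) j •
        (∑ i, H22Q t i l • (ContinuousLinearMap.proj i : (Fin 4 → ℝ) →L[ℝ] ℝ))) t := by
    refine HasFDerivAt.const_add _ ?_
    refine HasFDerivAt.fun_sum fun l _ => ?_
    exact (H22_deriv t l).mul_const _
  refine h1.congr_fderiv ?_
  ext v
  simp only [ContinuousLinearMap.sum_apply, ContinuousLinearMap.smul_apply,
    ContinuousLinearMap.comp_apply, ContinuousLinearMap.proj_apply, H22L_apply, smul_eq_mul]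
  simp only [H22A, Matrix.mul_apply, Matrix.transpose_apply, Matrix.of_apply, Finset.mul_sum,
    Finset.sum_mul]
  rw [Finset.sum_comm]
  refine Finset.sum_congr rfl fun i _ => Finset.sum_congr rfl fun l _ => ?_
  ring

theorem H22P_eq (p : Fin 5 → E4) (t : Fin 4 → ℝ) :
    (∑ i, qR 4 t i • p i : E4) = WithLp.toLp 2 (H22P p t) := by
  ext j
  have h1 : (∑ i, qR 4 t i • p i : E4) j = ∑ i, qR 4 t i * p i j := by
    simp
  rw [h1]
  have h2 := qR_sum 4 t
  rw [Fin.sum_univ_succ] at h2 ⊢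
  have h3 : qR 4 t 0 = 1 - ∑ l : Fin 4, qR 4 t l.succ := by linarith
  rw [h3]
  change _ = p 0 j + ∑ l : Fin 4, qR 4 t l.succ * (p l.succ - p 0) j
  have h4 : ∀ l : Fin 4, qR 4 t l.succ * (p l.succ - p 0) j =
      qR 4 t l.succ * p l.succ j - qR 4 t l.succ * p 0 j := by
    intro l
    rw [PiLp.sub_apply]
    ring
  simp only [h4, Finset.sum_sub_distrib, ← Finset.sum_mul]
  ring

theorem H22_hull (p : Fin 5 → E4) :
    convexHull ℝ (range p) = (fun x : Fin 5 → ℝ => ∑ i, x i • p i) '' stdSimplex ℝ (Fin 5) := by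
  let f : (Fin 5 → ℝ) →ₗ[ℝ] E4 := Fintype.linearCombination ℝ p
  have hf : ∀ x, f x = ∑ i, x i • p i := fun x => by
    simp [f, Fintype.linearCombination_apply]
  have h1 : (fun x : Fin 5 → ℝ => ∑ i, x i • p i) = f := by
    funext x
    exact (hf x).symm
  rw [h1, ← convexHull_rangle_single_eq_stdSimplex, LinearMap.image_convexHull, ← Set.range_comp]
  congr 2
  funext i
  simp [f, Fintype.linearCombination_apply]

theorem H22_image (p : Fin 5 → E4) :
    H22P p '' cube 4 = WithLp.toLp 2 ⁻¹' convexHull ℝ (range p) := by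
  rw [H22_hull]
  ext y
  constructor
  · rintro ⟨t, ht, rfl⟩
    refine ⟨qR 4 t, ⟨qR_nonneg 4 t fun i => ⟨ht.1 i, ht.2 i⟩, qR_sum 4 t⟩, ?_⟩
    exact H22P_eq p t
  · rintro ⟨x, hx, hxy⟩
    obtain ⟨t, ht, hq⟩ := H22_surj 4 x hx
    refine ⟨t, ⟨fun i => (ht i).1, fun i => (ht i).2⟩, ?_⟩
    have h1 := H22P_eq p t
    rw [hq] at h1
    have h2 : WithLp.toLp 2 (H22P p t) = (WithLp.toLp 2 y : E4) := h1.symm.trans hxy
    exact WithLp.toLp_injective 2 h2

theorem H22_main (p : Fin 5 → E4)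
    (hD : 0 < Matrix.det (Matrix.of fun i j : Fin 4 => (p j.succ - p 0) i))
    (T : Set E4) (hT : IsOpen T) (hpT : convexHull ℝ (range p) ⊆ T) (h : E4 → ℝ)
    (hz : ∀ z ∈ T, z ∉ convexHull ℝ (range p) → h z = 0) :
    ∫ t in cube 4, h (WithLp.toLp 2 (H22P p t)) * (H22A p t).det = ∫ z in T, h z := by
  set U : Set (Fin 4 → ℝ) := Set.pi univ (fun _ => Ioo (0 : ℝ) 1) with hU
  have hUc : U =ᵐ[volume] cube 4 := by
    have := Measure.univ_pi_Ioo_ae_eq_Icc (μ := fun _ : Fin 4 => (volume : Measure ℝ))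
      (f := fun _ => (0 : ℝ)) (g := fun _ => (1 : ℝ))
    exact this
  have hUm : MeasurableSet U := MeasurableSet.univ_pi fun _ => measurableSet_Ioo
  have hUsub : U ⊆ cube 4 := by
    intro t ht
    exact ⟨fun i => (ht i (mem_univ i)).1.le, fun i => (ht i (mem_univ i)).2.le⟩
  -- injectivity
  have hinj : InjOn (H22P p) U := by
    intro t ht t' ht' he
    apply H22_inj 4 t t' (fun i => (ht i (mem_univ i)).1) (fun i => (ht' i (mem_univ i)).1)
    have h1 : (Matrix.of fun i j : Fin 4 => (p j.succ - p 0) i).mulVec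
        (fun l => qR 4 t l.succ - qR 4 t' l.succ) = 0 := by
      funext j
      have h2 := congrFun he j
      simp only [H22P] at h2
      simp only [Matrix.mulVec, dotProduct, Matrix.of_apply, Pi.zero_apply]
      have h3 : ∑ l : Fin 4, (p l.succ - p 0) j * (qR 4 t l.succ - qR 4 t' l.succ) =
          ∑ l : Fin 4, qR 4 t l.succ * (p l.succ - p 0) j -
            ∑ l : Fin 4, qR 4 t' l.succ * (p l.succ - p 0) j := by
        rw [← Finset.sum_sub_distrib]
        exact Finset.sum_congr rfl fun l _ => by ring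
      rw [h3]
      linarith
    have h4 := Matrix.eq_zero_of_mulVec_eq_zero hD.ne' h1
    have h5 : ∀ l : Fin 4, qR 4 t l.succ = qR 4 t' l.succ := by
      intro l
      have := congrFun h4 l
      simp only [Pi.zero_apply] at this
      linarith
    funext i
    refine Fin.cases ?_ (fun j => h5 j) i
    have e1 := qR_sum 4 t
    have e2 := qR_sum 4 t'
    rw [Fin.sum_univ_succ] at e1 e2
    rw [Finset.sum_congr rfl fun l _ => h5 l] at e1
    linarith
  have hcv := integral_image_eq_integral_abs_det_fderiv_smul (volume : Measure (Fin 4 → ℝ)) hUm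
    (fun t _ => (H22P_deriv p t).hasFDerivWithinAt) hinj (fun y => h (WithLp.toLp 2 y))
  -- the left side
  have hL : ∫ t in cube 4, h (WithLp.toLp 2 (H22P p t)) * (H22A p t).det =
      ∫ t in U, |(H22L p t).det| • h (WithLp.toLp 2 (H22P p t)) := by
    rw [← setIntegral_congr_set hUc]
    refine setIntegral_congr_fun hUm fun t ht => ?_
    have h1 : 0 ≤ (H22A p t).det := by
      rw [H22A_det]
      have a0 := (ht 0 (mem_univ 0)).1
      have a1 := (ht 1 (mem_univ 1)).1
      have a2 := (ht 2 (mem_univ 2)).1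
      have : 0 < t 0 ^ 3 * t 1 ^ 2 * t 2 := by positivity
      exact (mul_pos this hD).le
    simp only [H22L_det, abs_of_nonneg h1, smul_eq_mul]
    ring
  rw [hL, ← hcv]
  -- the image of U is almost the hull
  set T' : Set (Fin 4 → ℝ) := WithLp.toLp 2 ⁻¹' T with hT'
  have hcont : Continuous (fun y : Fin 4 → ℝ => (WithLp.toLp 2 y : E4)) := by
    exact PiLp.continuous_toLp 2 _
  have hT'm : MeasurableSet T' := (hT.preimage hcont).measurableSet
  have hT'eq : ∫ z in T, h z = ∫ y in T', h (WithLp.toLp 2 y) := by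
    have := (PiLp.volume_preserving_toLp (Fin 4)).setIntegral_preimage_emb
      (MeasurableEquiv.toLp 2 (Fin 4 → ℝ)).measurableEmbedding h T
    exact this.symm
  rw [hT'eq]
  have himg : H22P p '' U =ᵐ[volume] H22P p '' cube 4 := by
    refine Filter.EventuallyLE.antisymm (LE.le.eventuallyLE (image_mono hUsub)) ?_
    rw [ae_le_set]
    have h1 : H22P p '' cube 4 \ H22P p '' U ⊆ H22P p '' (cube 4 \ U) := by
      rintro _ ⟨⟨t, ht, rfl⟩, hn⟩
      exact ⟨t, ⟨ht, fun hu => hn ⟨t, hu, rfl⟩⟩, rfl⟩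
    refine measure_mono_null h1 ?_
    apply addHaar_image_eq_zero_of_differentiableOn_of_addHaar_eq_zero volume
    · intro t _
      exact (H22P_deriv p t).differentiableAt.differentiableWithinAt
    · exact ae_le_set.1 hUc.symm.le
  rw [setIntegral_congr_set himg]
  symm
  apply setIntegral_eq_of_subset_of_forall_sdiff_eq_zero hT'm
  · rw [H22_image]
    exact preimage_mono hpT
  · intro y hy
    rw [H22_image] at hy
    exact hz _ hy.1 hy.2

theorem H22_udiff : UniqueDiffOn ℝ (cube 4) := by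
  have h : cube 4 = Set.pi univ (fun _ : Fin 4 => Icc (0 : ℝ) 1) := by
    rw [Set.pi_univ_Icc]
    rfl
  rw [h]
  exact UniqueDiffOn.univ_pi fun _ => uniqueDiffOn_Icc zero_lt_one

theorem H22_clamp {k : ℕ} (t : Fin k → ℝ) (ht : t ∈ cube k) : clamp t = t := by
  funext i
  have h0 : 0 ≤ t i := ht.1 i
  have h1 : t i ≤ 1 := ht.2 i
  simp only [clamp]
  rw [min_eq_right h1, max_eq_right h0]

theorem claimAff_proof : claimAff := by
  intro X _ _ _ _ e p s χ κ O F hpT hD hs hχ hsupp hO hχO hOe hκ hF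
  have hz : ∀ z ∈ e.1.target, z ∉ convexHull ℝ (range p) → χ (e.1.symm z) * F z = 0 := by
    intro z hzt hzh
    by_cases h0 : χ (e.1.symm z) = 0
    · rw [h0, zero_mul]
    · exfalso
      apply hzh
      have h1 := hsupp _ (subset_tsupport χ h0)
      rw [e.1.right_inv hzt] at h1
      exact interior_subset h1
  unfold FS cint
  rw [← H22_main p hD e.1.target e.1.open_target hpT (fun z => χ (e.1.symm z) * F z) hz]
  have hmem : ∀ t ∈ cube 4, (WithLp.toLp 2 (H22P p t) : E4) ∈ convexHull ℝ (range p) := by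
    intro t ht
    have h1 : H22P p t ∈ H22P p '' cube 4 := ⟨t, ht, rfl⟩
    rw [H22_image] at h1
    exact h1
  have hst : ∀ t ∈ cube 4, s (qS 4 t) = e.1.symm (WithLp.toLp 2 (H22P p t)) := by
    intro t ht
    rw [hs]
    have h1 : (qS 4 t).1 = qR 4 t := by
      change qR 4 (clamp t) = qR 4 t
      rw [H22_clamp t ht]
    rw [h1, H22P_eq]
  have hcont : ContinuousOn (fun t => e.1.symm (WithLp.toLp 2 (H22P p t))) (cube 4) := by
    refine e.1.continuousOn_symm.comp ?_ (fun t ht => hpT (hmem t ht))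
    refine ((PiLp.continuous_toLp 2 _).comp_continuousOn ?_)
    intro t _
    exact (H22P_deriv p t).continuousAt.continuousWithinAt
  refine setIntegral_congr_fun measurableSet_Icc fun t ht => ?_
  have hzT : (WithLp.toLp 2 (H22P p t) : E4) ∈ e.1.target := hpT (hmem t ht)
  have hxs : e.1.symm (WithLp.toLp 2 (H22P p t)) ∈ e.1.source := e.1.map_target hzT
  have hcut : cutoff e χ F (s (qS 4 t)) =
      χ (e.1.symm (WithLp.toLp 2 (H22P p t))) * F (WithLp.toLp 2 (H22P p t)) := by
    rw [hst t ht]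
    unfold cutoff
    rw [indicator_of_mem hxs, e.1.right_inv hzT]
  simp only [hcut]
  by_cases h0 : χ (e.1.symm (WithLp.toLp 2 (H22P p t))) = 0
  · rw [h0]
    simp
  congr 1
  have hxO : e.1.symm (WithLp.toLp 2 (H22P p t)) ∈ O := hχO (subset_tsupport χ h0)
  have hev : ∀ᶠ t' in 𝓝[cube 4] t, e.1.symm (WithLp.toLp 2 (H22P p t')) ∈ O :=
    (hcont t ht).eventually (hO.mem_nhds hxO)
  unfold jac
  congr 1
  ext i j
  simp only [Matrix.of_apply]
  unfold cd
  have hloc : ∀ t' ∈ cube 4, e.1.symm (WithLp.toLp 2 (H22P p t')) ∈ O →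
      cutoff e κ (fun z => z j) (s (qS 4 t')) = H22P p t' j := by
    intro t' ht' hO'
    rw [hst t' ht']
    unfold cutoff
    rw [indicator_of_mem (hOe hO'), e.1.right_inv (hpT (hmem t' ht')), hκ _ hO', one_mul]
  have heq : (fun t' => cutoff e κ (fun z => z j) (s (qS 4 t'))) =ᶠ[𝓝[cube 4] t]
      (fun t' => H22P p t' j) := by
    filter_upwards [hev, self_mem_nhdsWithin] with t' h1 h2
    exact hloc t' h2 h1
  rw [heq.fderivWithin_eq (hloc t ht hxO)]
  have hd : HasFDerivAt (fun t' => H22P p t' j)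
      ((ContinuousLinearMap.proj j).comp (H22L p t)) t :=
    (hasFDerivAt_pi'.1 (H22P_deriv p t)) j
  rw [hd.hasFDerivWithinAt.fderivWithin (H22_udiff t ht)]
  rw [ContinuousLinearMap.comp_apply, ContinuousLinearMap.proj_apply, H22L_apply]
  rw [Finset.sum_eq_single i]
  · rw [Pi.single_eq_same, mul_one]
  · intro b _ hb
    rw [Pi.single_eq_of_ne hb, mul_zero]
  · intro h
    exact absurd (Finset.mem_univ i) h

end NRF.H

end
end

section

/-!
Item H22b: affine simplices are smooth.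
-/

set_option autoImplicit false

open scoped Manifold ContDiff Topology
open MeasureTheory Set

noncomputable section

namespace NRF.H

lemma H22b_qR (k : ℕ) : ∀ i, ContDiff ℝ ∞ (fun t : Fin k → ℝ => qR k t i) := by
  induction k with
  | zero => intro i; exact contDiff_const
  | succ k ih =>
    intro i
    refine Fin.cases ?_ (fun j => ?_) i
    · simp only [qR, Fin.cons_zero]
      exact contDiff_const.sub (contDiff_apply ℝ ℝ 0)
    · simp only [qR, Fin.cons_succ]
      refine (contDiff_apply ℝ ℝ (0 : Fin (k + 1))).mul ?_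
      have h1 : ContDiff ℝ ∞ (fun t : Fin (k + 1) → ℝ => Fin.tail t) :=
        contDiff_pi.2 fun i => contDiff_apply ℝ ℝ i.succ
      exact (ih j).comp h1

lemma H22b_clamp {k : ℕ} {t : Fin k → ℝ} (ht : t ∈ cube k) : clamp t = t := by
  funext i
  have h0 := ht.1 i
  have h1 := ht.2 i
  simp only [Pi.zero_apply, Pi.one_apply] at h0 h1
  simp [clamp, h0, h1]

/-- Item H22b. -/
theorem claimAffSm_proof : claimAffSm := by
  intro X _ _ _ e p s hp hs
  have hP : ContDiff ℝ ∞ (fun t : Fin 4 → ℝ => ∑ i, qR 4 t i • p i) :=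
    ContDiff.sum fun i _ => (H22b_qR 4 i).smul contDiff_const
  have hsym : ContMDiffOn (𝓡 4) (𝓡 4) ∞ e.1.symm e.1.target :=
    contMDiffOn_symm_of_mem_maximalAtlas (IsManifold.subset_maximalAtlas e.2)
  have hmaps : MapsTo (fun t : Fin 4 → ℝ => ∑ i, qR 4 t i • p i) (cube 4) e.1.target := by
    intro t ht
    apply hp
    refine (convex_convexHull ℝ (range p)).sum_mem (fun i _ => ?_) (qR_sum 4 t)
      (fun i _ => subset_convexHull ℝ _ (mem_range_self i))
    exact qR_nonneg 4 t (fun i => ⟨ht.1 i, ht.2 i⟩) i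
  have h1 : ContMDiffOn 𝓘(ℝ, Fin 4 → ℝ) (𝓡 4) ∞
      (e.1.symm ∘ fun t : Fin 4 → ℝ => ∑ i, qR 4 t i • p i) (cube 4) :=
    hsym.comp hP.contMDiff.contMDiffOn hmaps
  refine h1.congr fun t ht => ?_
  have h2 := hs (qS 4 t)
  rw [h2]
  simp only [Function.comp_apply, qS, H22b_clamp ht]

end NRF.H

end
end
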