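import Pool.Agent.Work.MP_7f974f_gt.Stmts_H

/-! Bundle of small proof modules (one section per former module). -/

section

/-!
# H23: sum of the local integrals
-/

set_option autoImplicit false

open scoped Manifold ContDiff Topology
open MeasureTheory Set

noncomputable section

namespace NRF.H

theorem claimVolSum_proof (hm : claimMcoef) (hv : claimVol) : claimVolSum := by
  intro X _ _ _ _ _ _ _ g m e χ F B hB hχc hχ0 hχ1 hsupp hF hbd
  obtain ⟨hfin, -, hvol⟩ := hv X g
  have hdet : ∀ j, ContinuousOn (fun z => Real.sqrt (g.coef (e j) z).det) (e j).1.target := by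
    intro j
    refine Real.continuous_sqrt.comp_continuousOn ?_
    refine (Continuous.matrix_det (A := fun M : Matrix (Fin 4) (Fin 4) ℝ => M)
      continuous_id).comp_continuousOn ?_
    refine continuousOn_pi.2 fun a => continuousOn_pi.2 fun b => ?_
    exact (g.smooth (e j) a b).continuousOn
  have hint : ∀ j (h : E4 → ℝ), ContinuousOn h (e j).1.target →
      IntegrableOn (fun z => χ j ((e j).1.symm z) * h z) (e j).1.target := by
    intro j h hh
    have hK : IsCompact ((e j).1 '' tsupport (χ j)) :=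
      (isClosed_tsupport _).isCompact.image_of_continuousOn
        ((e j).1.continuousOn.mono (hsupp j))
    have hKt : (e j).1 '' tsupport (χ j) ⊆ (e j).1.target := by
      rintro _ ⟨x, hx, rfl⟩
      exact (e j).1.map_source (hsupp j hx)
    have hc : ContinuousOn (fun z => χ j ((e j).1.symm z) * h z) (e j).1.target :=
      ((hχc j).comp_continuousOn (e j).1.continuousOn_symm).mul hh
    refine ((hc.mono hKt).integrableOn_compact hK).of_forall_sdiff_eq_zero
      (e j).1.open_target.measurableSet ?_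
    rintro z ⟨hz, hzK⟩
    have : χ j ((e j).1.symm z) = 0 := by
      by_contra hne
      exact hzK ⟨(e j).1.symm z, subset_tsupport _ hne, (e j).1.right_inv hz⟩
    simp only [this, zero_mul]
  have hX : ∀ f : X → ℝ, Continuous f → Integrable f g.vol := by
    intro f hf
    obtain ⟨C, hC⟩ := isCompact_univ.exists_bound_of_continuousOn hf.continuousOn
    exact Integrable.of_bound hf.aestronglyMeasurable C
      (Filter.Eventually.of_forall fun y => hC y (mem_univ _))
  have hj : ∀ j, ∫ z in (e j).1.target, χ j ((e j).1.symm z) * F j z ≤ B * ∫ x, χ j x ∂g.vol := by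
    intro j
    have hmem : (e j).1 ∈ SmCh X := IsManifold.subset_maximalAtlas (e j).2
    have h1 := (hvol (e j).1 hmem).2 (χ j) (hχc j).continuousOn
    have h2 : ∫ x in (e j).1.source, χ j x ∂g.vol = ∫ x, χ j x ∂g.vol := by
      refine setIntegral_eq_integral_of_forall_compl_eq_zero fun x hx => ?_
      by_contra hne
      exact hx (hsupp j (subset_tsupport _ hne))
    rw [← h2, h1, ← integral_const_mul]
    refine setIntegral_mono_on (hint j _ (hF j)) ?_ (e j).1.open_target.measurableSet ?_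
    · have h3 := hint j (fun z => B * Real.sqrt (g.coef (e j) z).det)
        (continuousOn_const.mul (hdet j))
      refine h3.congr_fun (fun z hz => ?_) (e j).1.open_target.measurableSet
      show χ j ((e j).1.symm z) * (B * Real.sqrt (g.coef (e j) z).det) =
        B * (Real.sqrt (g.mcoef (e j).1 z).det * χ j ((e j).1.symm z))
      rw [(hm X g (e j).1 hmem).2.2.1 (e j) z hz]
      ring
    · intro z hz
      rw [(hm X g (e j).1 hmem).2.2.1 (e j) z hz]
      have h4 : F j z ≤ B * Real.sqrt (g.coef (e j) z).det :=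
        (le_abs_self _).trans (hbd j z hz)
      calc χ j ((e j).1.symm z) * F j z
          ≤ χ j ((e j).1.symm z) * (B * Real.sqrt (g.coef (e j) z).det) :=
            mul_le_mul_of_nonneg_left h4 (hχ0 j _)
        _ = B * (Real.sqrt (g.coef (e j) z).det * χ j ((e j).1.symm z)) := by ring
  refine (Finset.sum_le_sum fun j _ => hj j).trans (le_of_eq ?_)
  rw [← Finset.mul_sum, ← integral_finsetSum _ fun j _ => hX _ (hχc j)]
  simp only [hχ1, integral_const, smul_eq_mul, mul_one]
  rfl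

end NRF.H

end
end

section

set_option autoImplicit false

/-!
# H24: Bernstein polynomials on the simplex
-/

open scoped Topology ContDiff
open Set

noncomputable section

namespace NRF.H

namespace BernH24

theorem sum_pi {n k : ℕ} (F : Fin (n + 1) → Fin (k + 1) → ℝ) :
    ∑ v : Fin (n + 1) → Fin (k + 1), ∏ l, F l (v l) = ∏ l, ∑ a, F l a := by
  rw [Finset.prod_univ_sum, Fintype.piFinset_univ]

theorem map_val {k l : ℕ} (g : Fin (l + 1) → Fin (k + 1)) (x : stdSimplex ℝ (Fin (l + 1)))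
    (a : Fin (k + 1)) : (stdSimplex.map g x).1 a = ∑ i, if g i = a then x.1 i else 0 := by
  rw [← Finset.sum_filter]
  exact FunOnFinite.linearMap_apply_apply ℝ ℝ g x.1 a

theorem emp_map {k l n : ℕ} (g : Fin (l + 1) → Fin (k + 1)) (w : Fin (n + 1) → Fin (l + 1)) :
    emp (fun j => g (w j)) = stdSimplex.map g (emp w) := by
  apply Subtype.ext
  funext a
  rw [map_val]
  change (∑ j, if g (w j) = a then (1 : ℝ) else 0) / (n + 1) =
    ∑ i, if g i = a then (∑ j, if w j = i then (1 : ℝ) else 0) / (n + 1) else 0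
  have h1 : ∀ i, (if g i = a then (∑ j, if w j = i then (1 : ℝ) else 0) / ((n : ℝ) + 1) else 0) =
      (∑ j, if w j = i then (if g (w j) = a then (1 : ℝ) else 0) else 0) / ((n : ℝ) + 1) := by
    intro i
    split_ifs with h
    · congr 1
      apply Finset.sum_congr rfl
      intro j _
      by_cases hj : w j = i
      · rw [if_pos hj, if_pos hj, hj, if_pos h]
      · rw [if_neg hj, if_neg hj]
    · symm
      rw [Finset.sum_eq_zero, zero_div]
      intro j _
      by_cases hj : w j = i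
      · rw [if_pos hj, hj, if_neg h]
      · rw [if_neg hj]
  rw [Finset.sum_congr rfl fun i _ => h1 i, ← Finset.sum_div, Finset.sum_comm]
  congr 1
  apply Finset.sum_congr rfl
  intro j _
  rw [Finset.sum_ite_eq]
  simp

theorem natur {E : Type} [NormedAddCommGroup E] [NormedSpace ℝ E] {k : ℕ}
    (f : stdSimplex ℝ (Fin (k + 1)) → E) (n l : ℕ) (g : Fin (l + 1) → Fin (k + 1))
    (x : stdSimplex ℝ (Fin (l + 1))) :
    bern n f (stdSimplex.map g x).1 = bern n (fun y => f (stdSimplex.map g y)) x.1 := by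
  unfold bern
  have h1 : ∀ v : Fin (n + 1) → Fin (k + 1), (∏ j, (stdSimplex.map g x).1 (v j)) =
      ∑ w : Fin (n + 1) → Fin (l + 1), if (fun j => g (w j)) = v then ∏ j, x.1 (w j) else 0 := by
    intro v
    have h2 : ∀ j, (stdSimplex.map g x).1 (v j) = ∑ i, if g i = v j then x.1 i else 0 :=
      fun j => map_val g x (v j)
    rw [Finset.prod_congr rfl fun j _ => h2 j, ← sum_pi]
    apply Finset.sum_congr rfl
    intro w _
    by_cases h : (fun j => g (w j)) = v
    · rw [if_pos h]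
      apply Finset.prod_congr rfl
      intro j _
      rw [if_pos (congrFun h j)]
    · rw [if_neg h]
      obtain ⟨j, hj⟩ := Function.ne_iff.1 h
      exact Finset.prod_eq_zero (Finset.mem_univ j) (if_neg hj)
  rw [Finset.sum_congr rfl fun v _ => by rw [h1 v, Finset.sum_smul], Finset.sum_comm]
  apply Finset.sum_congr rfl
  intro w _
  change _ = (∏ j, x.1 (w j)) • f (stdSimplex.map g (emp w))
  rw [← emp_map]
  rw [Finset.sum_eq_single (fun j => g (w j))]
  · rw [if_pos rfl]
  · intro v _ hv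
    rw [if_neg (fun h => hv h.symm), zero_smul]
  · intro h
    exact absurd (Finset.mem_univ _) h

theorem emp_const {k n : ℕ} (i : Fin (k + 1)) :
    emp (fun _ : Fin (n + 1) => i) = stdSimplex.vertex i := by
  apply Subtype.ext
  funext a
  change (∑ j : Fin (n + 1), if i = a then (1 : ℝ) else 0) / (n + 1) = (Pi.single i 1 : _ → ℝ) a
  have h : (n : ℝ) + 1 ≠ 0 := by positivity
  by_cases hi : i = a
  · subst hi
    simp [h]
  · rw [Pi.single_eq_of_ne (fun h => hi h.symm)]
    simp [hi]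

theorem vert {E : Type} [NormedAddCommGroup E] [NormedSpace ℝ E] {k : ℕ}
    (f : stdSimplex ℝ (Fin (k + 1)) → E) (n : ℕ) (i : Fin (k + 1)) :
    bern n f (stdSimplex.vertex i : stdSimplex ℝ (Fin (k + 1))).1 = f (stdSimplex.vertex i) := by
  unfold bern
  rw [Finset.sum_eq_single (fun _ => i)]
  · rw [emp_const]
    have h : (∏ j : Fin (n + 1), (stdSimplex.vertex i : stdSimplex ℝ (Fin (k + 1))).1 i) = 1 := by
      apply Finset.prod_eq_one
      intro j _
      change (Pi.single i 1 : _ → ℝ) i = 1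
      rw [Pi.single_eq_same]
    rw [h, one_smul]
  · intro v _ hv
    obtain ⟨j, hj⟩ := Function.ne_iff.1 hv
    rw [Finset.prod_eq_zero (Finset.mem_univ j), zero_smul]
    change (Pi.single i 1 : _ → ℝ) (v j) = 0
    rw [Pi.single_eq_of_ne hj]
  · intro h
    exact absurd (Finset.mem_univ _) h

/-- The weights. -/
def wt {n k : ℕ} (x : stdSimplex ℝ (Fin (k + 1))) (v : Fin (n + 1) → Fin (k + 1)) : ℝ :=
  ∏ j, x.1 (v j)

theorem wt_nonneg {n k : ℕ} (x : stdSimplex ℝ (Fin (k + 1))) (v : Fin (n + 1) → Fin (k + 1)) :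
    0 ≤ wt x v := Finset.prod_nonneg fun j _ => x.2.1 _

theorem wt_sum {n k : ℕ} (x : stdSimplex ℝ (Fin (k + 1))) :
    ∑ v : Fin (n + 1) → Fin (k + 1), wt x v = 1 := by
  unfold wt
  rw [sum_pi (fun _ a => x.1 a)]
  rw [Finset.prod_congr rfl fun _ _ => x.2.2]
  simp

theorem cross {n k : ℕ} (x : stdSimplex ℝ (Fin (k + 1))) (φ : Fin (k + 1) → ℝ)
    (h0 : ∑ a, x.1 a * φ a = 0) (h1 : ∑ a, x.1 a * (φ a * φ a) ≤ 1) (j j' : Fin (n + 1)) :
    ∑ v : Fin (n + 1) → Fin (k + 1), wt x v * (φ (v j) * φ (v j')) ≤ if j = j' then 1 else 0 := by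
  have e1 : ∀ v : Fin (n + 1) → Fin (k + 1), wt x v * (φ (v j) * φ (v j')) =
      ∏ l, (x.1 (v l) * ((if l = j then φ (v l) else 1) * (if l = j' then φ (v l) else 1))) := by
    intro v
    rw [Finset.prod_mul_distrib, Finset.prod_mul_distrib, Finset.prod_ite_eq',
      Finset.prod_ite_eq', if_pos (Finset.mem_univ _), if_pos (Finset.mem_univ _)]
    rfl
  rw [Finset.sum_congr rfl fun v _ => e1 v,
    sum_pi (fun l a => x.1 a * ((if l = j then φ a else 1) * (if l = j' then φ a else 1)))]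
  by_cases hj : j = j'
  · subst hj
    rw [if_pos rfl]
    apply Finset.prod_le_one
    · intro l _
      apply Finset.sum_nonneg
      intro a _
      apply mul_nonneg (x.2.1 a)
      exact mul_self_nonneg _
    · intro l _
      by_cases hl : l = j
      · simp only [if_pos hl]
        exact h1
      · simp only [if_neg hl, mul_one]
        exact le_of_eq x.2.2
  · rw [if_neg hj]
    apply le_of_eq
    apply Finset.prod_eq_zero (Finset.mem_univ j)
    simp only [if_true, if_neg hj, mul_one]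
    exact h0

theorem var {n k : ℕ} (x : stdSimplex ℝ (Fin (k + 1))) (i : Fin (k + 1)) :
    ∑ v : Fin (n + 1) → Fin (k + 1), wt x v * ((emp v).1 i - x.1 i) ^ 2 ≤ 1 / (n + 1) := by
  have hn : (0 : ℝ) < n + 1 := by positivity
  set φ : Fin (k + 1) → ℝ := fun a => (if a = i then 1 else 0) - x.1 i with hφ
  have hxs : ∑ a, x.1 a = 1 := x.2.2
  have h0 : ∑ a, x.1 a * φ a = 0 := by
    simp only [hφ, mul_sub, mul_ite, mul_one, mul_zero, Finset.sum_sub_distrib]
    rw [← Finset.sum_mul, hxs]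
    simp
  have hx0 : 0 ≤ x.1 i := x.2.1 i
  have hx1 : x.1 i ≤ 1 := by
    rw [← hxs]
    exact Finset.single_le_sum (fun a _ => x.2.1 a) (Finset.mem_univ i)
  have h1 : ∑ a, x.1 a * (φ a * φ a) ≤ 1 := by
    rw [← hxs]
    apply Finset.sum_le_sum
    intro a _
    have h2 : φ a * φ a ≤ 1 := by
      simp only [hφ]
      split_ifs
      · nlinarith
      · nlinarith
    have h3 := x.2.1 a
    nlinarith
  have h2 : ∀ v : Fin (n + 1) → Fin (k + 1), (emp v).1 i - x.1 i = (∑ j, φ (v j)) / (n + 1) := by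
    intro v
    change (∑ j, if v j = i then (1 : ℝ) else 0) / (n + 1) - x.1 i = _
    simp only [hφ, Finset.sum_sub_distrib]
    rw [Finset.sum_const, Finset.card_univ, Fintype.card_fin]
    simp only [nsmul_eq_mul]
    push_cast
    field_simp
  have h3 : ∀ v : Fin (n + 1) → Fin (k + 1), wt x v * ((emp v).1 i - x.1 i) ^ 2 =
      (∑ j, ∑ j', wt x v * (φ (v j) * φ (v j'))) / (n + 1) ^ 2 := by
    intro v
    rw [h2 v, div_pow, sq (∑ j, φ (v j)), Finset.sum_mul_sum]
    simp only [Finset.mul_sum, ← mul_div_assoc]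
  rw [Finset.sum_congr rfl fun v _ => h3 v, ← Finset.sum_div, Finset.sum_comm]
  have h4 : ∑ j : Fin (n + 1), ∑ v : Fin (n + 1) → Fin (k + 1), ∑ j' : Fin (n + 1),
      wt x v * (φ (v j) * φ (v j')) ≤ (n + 1 : ℝ) := by
    have h5 : ∀ j : Fin (n + 1), ∑ v : Fin (n + 1) → Fin (k + 1), ∑ j' : Fin (n + 1),
        wt x v * (φ (v j) * φ (v j')) ≤ 1 := by
      intro j
      rw [Finset.sum_comm]
      refine (Finset.sum_le_sum fun j' _ => cross x φ h0 h1 j j').trans ?_
      rw [Finset.sum_ite_eq, if_pos (Finset.mem_univ _)]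
    refine (Finset.sum_le_sum fun j _ => h5 j).trans ?_
    simp
  rw [div_le_div_iff₀ (by positivity) hn]
  nlinarith

theorem conv {E : Type} [NormedAddCommGroup E] [NormedSpace ℝ E] {k : ℕ}
    (f : stdSimplex ℝ (Fin (k + 1)) → E) (hf : Continuous f) (ε : ℝ) (hε : 0 < ε) :
    ∃ n0 : ℕ, ∀ n, n0 ≤ n → ∀ x : stdSimplex ℝ (Fin (k + 1)), ‖bern n f x.1 - f x‖ < ε := by
  have hcomp : CompactSpace (stdSimplex ℝ (Fin (k + 1))) :=
    isCompact_iff_compactSpace.1 (isCompact_stdSimplex ℝ (Fin (k + 1)))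
  have huc : UniformContinuous f := CompactSpace.uniformContinuous_of_continuous hf
  obtain ⟨η, hη, hfη⟩ := Metric.uniformContinuous_iff.1 huc (ε / 2) (by positivity)
  obtain ⟨M, hM⟩ : ∃ M, ∀ x, ‖f x‖ ≤ M := by
    obtain ⟨M, hM⟩ := (isCompact_range hf.norm).bddAbove
    exact ⟨M, fun x => hM ⟨x, rfl⟩⟩
  have hM0 : 0 ≤ M := (norm_nonneg _).trans (hM (stdSimplex.vertex 0))
  have key : ∀ y x : stdSimplex ℝ (Fin (k + 1)),
      ‖f y - f x‖ ≤ ε / 2 + 2 * M / η ^ 2 * ∑ i, (y.1 i - x.1 i) ^ 2 := by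
    intro y x
    have hs : 0 ≤ ∑ i, (y.1 i - x.1 i) ^ 2 := Finset.sum_nonneg fun i _ => sq_nonneg _
    rcases lt_or_ge (dist y x) η with h | h
    · have h1 := hfη h
      rw [dist_eq_norm] at h1
      have h2 : 0 ≤ 2 * M / η ^ 2 * ∑ i, (y.1 i - x.1 i) ^ 2 := by positivity
      linarith
    · have h1 : ∃ i, η ≤ |y.1 i - x.1 i| := by
        by_contra hcon
        push Not at hcon
        apply absurd h
        rw [not_le]
        change dist y.1 x.1 < η
        rw [dist_pi_lt_iff hη]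
        intro i
        rw [Real.dist_eq]
        exact hcon i
      obtain ⟨i, hi⟩ := h1
      have h2 : η ^ 2 ≤ ∑ i, (y.1 i - x.1 i) ^ 2 := by
        have h3 : (y.1 i - x.1 i) ^ 2 ≤ ∑ i, (y.1 i - x.1 i) ^ 2 :=
          Finset.single_le_sum (f := fun i => (y.1 i - x.1 i) ^ 2)
            (fun i _ => sq_nonneg _) (Finset.mem_univ i)
        have h4 : η ^ 2 ≤ (y.1 i - x.1 i) ^ 2 := by
          rw [← sq_abs (y.1 i - x.1 i)]
          exact pow_le_pow_left₀ hη.le hi 2
        exact h4.trans h3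
      have h5 : ‖f y - f x‖ ≤ 2 * M := by
        have := norm_sub_le (f y) (f x)
        linarith [hM y, hM x]
      have h6 : 2 * M ≤ 2 * M / η ^ 2 * ∑ i, (y.1 i - x.1 i) ^ 2 := by
        rw [div_mul_eq_mul_div, le_div_iff₀ (by positivity)]
        exact mul_le_mul_of_nonneg_left h2 (by positivity)
      linarith
  obtain ⟨n0, hn0⟩ := exists_nat_gt (2 * M / η ^ 2 * (k + 1) / (ε / 2))
  refine ⟨n0, fun n hn x => ?_⟩
  have hnp : (0 : ℝ) < n + 1 := by positivity
  have e1 : bern n f x.1 - f x = ∑ v : Fin (n + 1) → Fin (k + 1), wt x v • (f (emp v) - f x) := by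
    simp only [smul_sub, Finset.sum_sub_distrib]
    rw [← Finset.sum_smul, wt_sum, one_smul]
    rfl
  rw [e1]
  have e2 : ‖∑ v : Fin (n + 1) → Fin (k + 1), wt x v • (f (emp v) - f x)‖ ≤
      ∑ v : Fin (n + 1) → Fin (k + 1), wt x v *
        (ε / 2 + 2 * M / η ^ 2 * ∑ i, ((emp v).1 i - x.1 i) ^ 2) := by
    refine (norm_sum_le _ _).trans (Finset.sum_le_sum fun v _ => ?_)
    rw [norm_smul, Real.norm_eq_abs, abs_of_nonneg (wt_nonneg x v)]
    exact mul_le_mul_of_nonneg_left (key _ _) (wt_nonneg x v)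
  have e3 : ∑ v : Fin (n + 1) → Fin (k + 1), wt x v *
        (ε / 2 + 2 * M / η ^ 2 * ∑ i, ((emp v).1 i - x.1 i) ^ 2) =
      ε / 2 + 2 * M / η ^ 2 * ∑ i, ∑ v : Fin (n + 1) → Fin (k + 1),
        wt x v * ((emp v).1 i - x.1 i) ^ 2 := by
    simp only [mul_add, Finset.sum_add_distrib]
    rw [← Finset.sum_mul, wt_sum, one_mul]
    congr 1
    rw [Finset.sum_comm, Finset.mul_sum]
    apply Finset.sum_congr rfl
    intro v _
    rw [Finset.mul_sum, Finset.mul_sum, Finset.mul_sum]
    apply Finset.sum_congr rfl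
    intro i _
    ring
  have e4 : ∑ i : Fin (k + 1), ∑ v : Fin (n + 1) → Fin (k + 1),
      wt x v * ((emp v).1 i - x.1 i) ^ 2 ≤ (k + 1) / (n + 1) := by
    refine (Finset.sum_le_sum fun i _ => var x i).trans ?_
    simp only [Finset.sum_const, Finset.card_univ, Fintype.card_fin, nsmul_eq_mul]
    push_cast
    rw [mul_one_div]
  have e5 : 2 * M / η ^ 2 * ((k + 1) / (n + 1)) < ε / 2 := by
    rw [← mul_div_assoc, div_lt_iff₀ hnp]
    rw [div_lt_iff₀ (by positivity)] at hn0
    have hn' : (n0 : ℝ) ≤ n := by exact_mod_cast hn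
    nlinarith
  have e6 : 2 * M / η ^ 2 * ∑ i : Fin (k + 1), ∑ v : Fin (n + 1) → Fin (k + 1),
      wt x v * ((emp v).1 i - x.1 i) ^ 2 ≤ 2 * M / η ^ 2 * ((k + 1) / (n + 1)) :=
    mul_le_mul_of_nonneg_left e4 (by positivity)
  rw [e3] at e2
  linarith

end BernH24

open BernH24 in
theorem claimBern_proof : claimBern := by
  intro E _ _ k f hf
  refine ⟨fun n => ?_, fun n l g x => natur f n l g x, fun n i => vert f n i,
    fun ε hε => conv f hf ε hε⟩
  unfold bern
  refine ContDiff.sum fun v _ => ContDiff.smul ?_ contDiff_const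
  exact contDiff_prod fun j _ => contDiff_apply ℝ ℝ (v j)

end NRF.H

end
end

section

/-!
# H25: an embedding with a smooth retraction of a neighbourhood (nearest point map)
-/

open scoped Manifold ContDiff Topology
open MeasureTheory Set Filter

noncomputable section

namespace NRF.H

/-- The implicit equation of the critical points of the distance to `γ`. -/
def h25F {E : Type} [NormedAddCommGroup E] [InnerProductSpace ℝ E] (γ : E4 → E) (p : E × E4) :
    Fin 4 → ℝ := fun i => inner ℝ (p.1 - γ p.2) (fderiv ℝ γ p.2 (bv i))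

theorem h25F_contDiffAt {E : Type} [NormedAddCommGroup E] [InnerProductSpace ℝ E] {γ : E4 → E}
    {y : E4} (hγ : ContDiffAt ℝ ∞ γ y) (q : E) : ContDiffAt ℝ ∞ (h25F γ) (q, y) := by
  refine contDiffAt_pi.2 fun i => ?_
  have h1 : ContDiffAt ℝ ∞ (fun p : E × E4 => γ p.2) (q, y) :=
    ContDiffAt.comp (q, y) (g := γ) (f := Prod.snd) hγ contDiffAt_snd
  have h2 : ContDiffAt ℝ ∞ (fderiv ℝ γ) y := hγ.fderiv_right (by simp)
  have h3 : ContDiffAt ℝ ∞ (fun p : E × E4 => fderiv ℝ γ p.2) (q, y) :=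
    ContDiffAt.comp (q, y) (g := fderiv ℝ γ) (f := Prod.snd) h2 contDiffAt_snd
  exact (contDiffAt_fst.sub h1).inner ℝ (h3.clm_apply contDiffAt_const)

theorem h25_bv (k : E4) : k = ∑ i, k i • bv i := by
  ext j
  simp [bv, Pi.single_apply]

/-- The partial derivative at a point of the image is invertible. -/
theorem h25_inv {E : Type} [NormedAddCommGroup E] [InnerProductSpace ℝ E] {γ : E4 → E}
    {y : E4} (hγ : ContDiffAt ℝ ∞ γ y) (hinj : ∀ k, fderiv ℝ γ y k = 0 → k = 0) :
    ((fderiv ℝ (h25F γ) (γ y, y)).comp (ContinuousLinearMap.inr ℝ E E4)).IsInvertible := by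
  set f' : E × E4 →L[ℝ] E := ContinuousLinearMap.fst ℝ E E4 -
    (fderiv ℝ γ y).comp (ContinuousLinearMap.snd ℝ E E4) with hf'
  have h2 : ContDiffAt ℝ ∞ (fderiv ℝ γ) y := hγ.fderiv_right (by simp)
  have h3 : ContDiffAt ℝ ∞ (fun p : E × E4 => fderiv ℝ γ p.2) (γ y, y) :=
    ContDiffAt.comp (γ y, y) (g := fderiv ℝ γ) (f := Prod.snd) h2 contDiffAt_snd
  have hf : HasFDerivAt (fun p : E × E4 => p.1 - γ p.2) f' (γ y, y) := by
    have h4 : HasFDerivAt γ (fderiv ℝ γ y) ((γ y, y) : E × E4).2 :=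
      (hγ.differentiableAt (by simp)).hasFDerivAt
    exact hasFDerivAt_fst.sub (h4.comp (γ y, y) hasFDerivAt_snd)
  have hg : ∀ i, HasFDerivAt (fun p : E × E4 => fderiv ℝ γ p.2 (bv i))
      (fderiv ℝ (fun p : E × E4 => fderiv ℝ γ p.2 (bv i)) (γ y, y)) (γ y, y) := by
    intro i
    exact ((h3.clm_apply contDiffAt_const).differentiableAt (by simp)).hasFDerivAt
  have hF : HasFDerivAt (h25F γ) (ContinuousLinearMap.pi fun i =>
      (fderivInnerCLM ℝ (γ y - γ y, fderiv ℝ γ y (bv i))).comp (f'.prod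
        (fderiv ℝ (fun p : E × E4 => fderiv ℝ γ p.2 (bv i)) (γ y, y)))) (γ y, y) :=
    hasFDerivAt_pi.2 fun i => hf.inner ℝ (hg i)
  set A := (fderiv ℝ (h25F γ) (γ y, y)).comp (ContinuousLinearMap.inr ℝ E E4) with hA
  have hAk : ∀ k i, A k i = -inner ℝ (fderiv ℝ γ y k) (fderiv ℝ γ y (bv i)) := by
    intro k i
    rw [hA, hF.fderiv]
    simp [hf', fderivInnerCLM_apply, inner_neg_left]
  have hAi : Function.Injective (A : E4 →ₗ[ℝ] (Fin 4 → ℝ)) := by
    rw [injective_iff_map_eq_zero]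
    intro k hk
    apply hinj
    have h4 : ∀ i, inner ℝ (fderiv ℝ γ y k) (fderiv ℝ γ y (bv i)) = 0 := by
      intro i
      have h5 := congrFun hk i
      have h6 : A k i = 0 := h5
      rw [hAk] at h6
      linarith
    have h5 : inner ℝ (fderiv ℝ γ y k) (fderiv ℝ γ y k) = 0 := by
      have h6 : fderiv ℝ γ y k = ∑ i, k i • fderiv ℝ γ y (bv i) := by
        conv_lhs => rw [h25_bv k]
        rw [map_sum]
        simp
      conv_lhs =>
        arg 3
        rw [h6]
      rw [inner_sum]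
      refine Finset.sum_eq_zero fun i _ => ?_
      rw [inner_smul_right, h4, mul_zero]
    exact inner_self_eq_zero.1 h5
  refine ⟨((A : E4 →ₗ[ℝ] (Fin 4 → ℝ)).linearEquivOfInjective hAi (by simp)).toContinuousLinearEquiv,
    ?_⟩
  ext k i
  rfl

/-- The local theorem. -/
theorem h25_local {E : Type} [NormedAddCommGroup E] [InnerProductSpace ℝ E] [CompleteSpace E]
    {γ : E4 → E} {U : Set E4} (hU : IsOpen U) (hγ : ContDiffOn ℝ ∞ γ U) {y0 : E4} (hy0 : y0 ∈ U)
    (hinj : ∀ k, fderiv ℝ γ y0 k = 0 → k = 0) :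
    ∃ Y : E → E4, Y (γ y0) = y0 ∧ (∀ᶠ q in 𝓝 (γ y0), ContDiffAt ℝ ∞ Y q) ∧
      ∀ᶠ p : E × E4 in 𝓝 (γ y0, y0), h25F γ p = 0 → p.2 = Y p.1 := by
  have hγa : ∀ y ∈ U, ContDiffAt ℝ ∞ γ y := fun y hy => hγ.contDiffAt (hU.mem_nhds hy)
  have hFc : ∀ p : E × E4, p.2 ∈ U → ContDiffAt ℝ ∞ (h25F γ) p := fun p hp =>
    h25F_contDiffAt (hγa _ hp) p.1
  have hu0 : ContDiffAt ℝ ∞ (h25F γ) (γ y0, y0) := hFc _ hy0
  have hinv := h25_inv (hγa _ hy0) hinj
  have hF0 : h25F γ (γ y0, y0) = 0 := by
    funext i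
    simp [h25F]
  have hn : (∞ : WithTop ℕ∞) ≠ 0 := by simp
  set ψ := hu0.implicitFunction hn hinv with hψ
  have P0 : ψ (γ y0) = y0 := hu0.implicitFunction_apply_self hn hinv
  have P1 := hu0.eventually_apply_eq_iff_implicitFunction hn hinv
  have P2 := hu0.eventually_apply_implicitFunction hn hinv
  have P3 : ContDiffAt ℝ ∞ ψ (γ y0) := hu0.contDiffAt_implicitFunction hn hinv
  rw [← hψ] at P1 P2
  simp only [hF0] at P1 P2
  refine ⟨ψ, P0, ?_, ?_⟩
  · -- invertibility nearby
    have hc : ContinuousAt (fun u : E × E4 =>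
        (fderiv ℝ (h25F γ) u).comp (ContinuousLinearMap.inr ℝ E E4)) (γ y0, y0) := by
      have h1 : ContDiffAt ℝ ∞ (fderiv ℝ (h25F γ)) (γ y0, y0) := hu0.fderiv_right (by simp)
      exact h1.continuousAt.clm_comp continuousAt_const
    have P4 : ∀ᶠ u : E × E4 in 𝓝 (γ y0, y0),
        ((fderiv ℝ (h25F γ) u).comp (ContinuousLinearMap.inr ℝ E E4)).IsInvertible := by
      refine hc.eventually ?_
      have hinv' := hinv
      obtain ⟨e, he⟩ := hinv'
      change ∀ᶠ A in 𝓝 ((fderiv ℝ (h25F γ) (γ y0, y0)).comp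
        (ContinuousLinearMap.inr ℝ E E4)), A.IsInvertible
      rw [← he]
      exact ContinuousLinearEquiv.nhds e
    have P5 : ∀ᶠ u : E × E4 in 𝓝 (γ y0, y0), u.2 ∈ U :=
      continuousAt_snd.eventually (hU.mem_nhds hy0)
    have hcq : Tendsto (fun q : E => (q, ψ q)) (𝓝 (γ y0)) (𝓝 (γ y0, y0)) := by
      have h1 := (continuousAt_id.prodMk P3.continuousAt : ContinuousAt (fun q : E => (q, ψ q)) _)
      have h2 := h1.tendsto
      simp only [P0] at h2
      exact h2
    have P6 : ∀ᶠ q in 𝓝 (γ y0), ContinuousAt ψ q := by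
      have h1 : ContDiffAt ℝ 1 ψ (γ y0) := P3.of_le (by exact_mod_cast le_top)
      filter_upwards [h1.eventually (by simp)] with q hq using hq.continuousAt
    filter_upwards [hcq.eventually P4, hcq.eventually P5, P6, eventually_eventually_nhds.2 P2]
      with q h4 h5 h6 h7
    have hu := hFc (q, ψ q) h5
    have hF1 : h25F γ (q, ψ q) = 0 := h7.self_of_nhds
    have Q1 := hu.eventually_apply_eq_iff_implicitFunction hn h4
    have Q3 : ContDiffAt ℝ ∞ (hu.implicitFunction hn h4) q := hu.contDiffAt_implicitFunction hn h4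
    have hcq' : Tendsto (fun q' : E => (q', ψ q')) (𝓝 q) (𝓝 (q, ψ q)) :=
      (continuousAt_id.prodMk h6 : ContinuousAt (fun q' : E => (q', ψ q')) q)
    refine Q3.congr_of_eventuallyEq ?_
    filter_upwards [hcq'.eventually Q1, h7] with q' h8 h9
    rw [h9, hF1] at h8
    exact (h8.1 rfl).symm
  · filter_upwards [P1] with p hp h0
    exact (hp.1 h0).symm

/-- H25. -/
theorem claimRetr_proof : claimRetr := by
  intro X _ _ _ _ _ _
  obtain ⟨N, ι, hι, hemb, himm⟩ := exists_embedding_euclidean_of_compact (I := 𝓡 4) (M := X)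
  -- the nearest point map
  have hmin : ∀ q : EuclideanSpace ℝ (Fin N), ∃ x : X, ∀ x' : X, ‖q - ι x‖ ≤ ‖q - ι x'‖ := by
    intro q
    obtain ⟨x, -, hx⟩ := isCompact_univ.exists_isMinOn (f := fun x : X => ‖q - ι x‖)
      univ_nonempty (by have := hemb.continuous; fun_prop)
    exact ⟨x, fun x' => hx (mem_univ x')⟩
  choose r hr using hmin
  have hrι : ∀ x, r (ι x) = x := by
    intro x
    have h1 := hr (ι x) x
    rw [sub_self, norm_zero] at h1
    have h2 : ι x - ι (r (ι x)) = 0 := norm_le_zero_iff.1 h1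
    exact (hemb.injective (sub_eq_zero.1 h2)).symm
  -- continuity at the points of the image
  have hcont : ∀ x0, Tendsto r (𝓝 (ι x0)) (𝓝 x0) := by
    intro x0
    rw [hemb.isInducing.tendsto_nhds_iff]
    rw [tendsto_iff_norm_sub_tendsto_zero]
    have h1 : Tendsto (fun q => 2 * ‖q - ι x0‖) (𝓝 (ι x0)) (𝓝 0) := by
      have h2 : Continuous fun q => 2 * ‖q - ι x0‖ := by fun_prop
      have h3 := h2.tendsto (ι x0)
      simpa using h3
    refine squeeze_zero (fun q => norm_nonneg _) (fun q => ?_) h1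
    have h2 := hr q x0
    calc ‖(ι ∘ r) q - ι x0‖ = ‖(q - ι x0) - (q - ι (r q))‖ := by
          congr 1
          simp
      _ ≤ ‖q - ι x0‖ + ‖q - ι (r q)‖ := norm_sub_le _ _
      _ ≤ 2 * ‖q - ι x0‖ := by linarith
  -- local smoothness
  have hloc : ∀ x0, ∀ᶠ q in 𝓝 (ι x0), ContMDiffAt (𝓡 N) (𝓡 4) ∞ r q := by
    intro x0
    set e := chartAt E4 x0 with he
    set γ : E4 → EuclideanSpace ℝ (Fin N) := fun y => ι (e.symm y) with hγd
    have hγm : ContMDiffOn (𝓡 4) (𝓡 N) ∞ γ e.target :=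
      hι.comp_contMDiffOn (contMDiffOn_chart_symm (I := 𝓡 4) (x := x0))
    have hγ : ContDiffOn ℝ ∞ γ e.target := hγm.contDiffOn
    have hx0 : x0 ∈ e.source := mem_chart_source E4 x0
    have hy0 : e x0 ∈ e.target := e.map_source hx0
    have hγy0 : γ (e x0) = ι x0 := by
      show ι (e.symm (e x0)) = ι x0
      rw [e.left_inv hx0]
    have hinj : ∀ k, fderiv ℝ γ (e x0) k = 0 → k = 0 := by
      intro k hk
      have hd : e.symm.MDifferentiable (𝓡 4) (𝓡 4) :=
        (mdifferentiable_chart (I := 𝓡 4) x0).symm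
      have h1 : MDifferentiableAt (𝓡 4) (𝓡 4) e.symm (e x0) := hd.mdifferentiableAt hy0
      have h2 : MDifferentiableAt (𝓡 4) (𝓡 N) ι (e.symm (e x0)) :=
        (hι.mdifferentiable (by simp)) _
      have h3 := mfderiv_comp (e x0) h2 h1
      have h4 : mfderiv (𝓡 4) (𝓡 N) (ι ∘ e.symm) (e x0) = fderiv ℝ γ (e x0) := mfderiv_eq_fderiv
      rw [h4] at h3
      have h5 : mfderiv (𝓡 4) (𝓡 N) ι (e.symm (e x0))
          (mfderiv (𝓡 4) (𝓡 4) e.symm (e x0) k) = 0 := by
        have h6 := congrArg (fun L => L k) h3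
        exact h6.symm.trans hk
      have h6 : mfderiv (𝓡 4) (𝓡 4) e.symm (e x0) k = 0 := by
        apply himm (e.symm (e x0))
        rw [h5, map_zero]
      have h7 := hd.mfderiv_injective hy0
      have h8 := (mfderiv (𝓡 4) (𝓡 4) e.symm (e x0)).map_zero
      exact h7 (h6.trans h8.symm)
    obtain ⟨Y, hY0, hYs, hYu⟩ := h25_local e.open_target hγ hy0 hinj
    rw [hγy0] at hY0 hYs hYu
    have hre : Tendsto (fun q => (q, e (r q))) (𝓝 (ι x0)) (𝓝 (ι x0, e x0)) := by
      refine tendsto_id.prodMk_nhds ?_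
      exact (e.continuousAt hx0).tendsto.comp (hcont x0)
    have hsrc : ∀ᶠ q in 𝓝 (ι x0), r q ∈ e.source :=
      (hcont x0).eventually (e.open_source.mem_nhds hx0)
    have hYt : ∀ᶠ q in 𝓝 (ι x0), Y q ∈ e.target := by
      have h1 : ContinuousAt Y (ι x0) := hYs.self_of_nhds.continuousAt
      refine h1.eventually ?_
      rw [hY0]
      exact e.open_target.mem_nhds hy0
    have heq : ∀ᶠ q in 𝓝 (ι x0), r q = e.symm (Y q) := by
      filter_upwards [hre.eventually hYu, hsrc] with q h1 h2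
      have h3 : e (r q) ∈ e.target := e.map_source h2
      have h4 : h25F γ (q, e (r q)) = 0 := by
        have hγa : ContDiffAt ℝ ∞ γ (e (r q)) := hγ.contDiffAt (e.open_target.mem_nhds h3)
        have h5 : HasFDerivAt (fun y => q - γ y) (-fderiv ℝ γ (e (r q))) (e (r q)) :=
          (hγa.differentiableAt (by simp)).hasFDerivAt.const_sub q
        have h6 : IsLocalMin (fun y => ‖q - γ y‖ ^ 2) (e (r q)) := by
          refine Eventually.of_forall fun y => ?_
          have h7 : γ (e (r q)) = ι (r q) := by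
            show ι (e.symm (e (r q))) = _
            rw [e.left_inv h2]
          show ‖q - γ (e (r q))‖ ^ 2 ≤ ‖q - γ y‖ ^ 2
          rw [h7]
          exact pow_le_pow_left₀ (norm_nonneg _) (hr q (e.symm y)) 2
        have h8 := h6.hasFDerivAt_eq_zero h5.norm_sq
        funext i
        have h9 := congrArg (fun L => L (bv i)) h8
        simp at h9
        show inner ℝ (q - γ (e (r q))) (fderiv ℝ γ (e (r q)) (bv i)) = 0
        rw [inner_sub_left]
        linarith
      have h5 := h1 h4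
      rw [← h5, e.left_inv h2]
    filter_upwards [hYs, hYt, eventually_eventually_nhds.2 heq] with q h1 h2 h3
    have h4 : ContMDiffAt (𝓡 N) (𝓡 4) ∞ (fun q => e.symm (Y q)) q := by
      have h5 : ContMDiffAt (𝓡 4) (𝓡 4) ∞ e.symm (Y q) :=
        (contMDiffOn_chart_symm (I := 𝓡 4) (x := x0)).contMDiffAt (e.open_target.mem_nhds h2)
      exact ContMDiffAt.comp q h5 h1.contMDiffAt
    exact h4.congr_of_eventuallyEq h3
  -- a uniform neighbourhood
  choose W hW hWo hWm using fun x0 => eventually_nhds_iff.1 (hloc x0)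
  obtain ⟨δ, hδ, hsub⟩ := (isCompact_range hemb.continuous).exists_thickening_subset_open
    (isOpen_iUnion hWo) (by
      rintro _ ⟨x, rfl⟩
      exact mem_iUnion.2 ⟨x, hWm x⟩)
  refine ⟨N, ι, r, δ, hδ, hι, hrι, ?_⟩
  rintro q ⟨x, hx⟩
  have hq : q ∈ Metric.thickening δ (range ι) := by
    rw [Metric.mem_thickening_iff]
    exact ⟨ι x, ⟨x, rfl⟩, by rw [dist_eq_norm]; exact hx⟩
  obtain ⟨x1, hx1⟩ := mem_iUnion.1 (hsub hq)
  exact (hW x1 q hx1).contMDiffWithinAt

end NRF.H

end
end

section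

/-!
# Smoothing of finitely many singular simplices (H26)
Bernstein polynomials of `ι ∘ s`, followed by a smooth retraction of a neighbourhood.
-/

set_option autoImplicit false

open scoped Manifold ContDiff Topology
open MeasureTheory Set

noncomputable section

namespace NRF.H

namespace H26

/-- The uniform neighbourhood on which the retraction stays close. -/
theorem exists_delta {X E : Type} [TopologicalSpace X] [CompactSpace X] [NormedAddCommGroup E]
    (ι : X → E) (hι : Continuous ι) (r : E → X) (δ : ℝ) (hδ : 0 < δ)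
    (hr : ContinuousOn r {q | ∃ x, ‖q - ι x‖ < δ}) (hrι : ∀ x, r (ι x) = x)
    (V : Set (X × X)) (hV : IsOpen V) (hd : ∀ x, (x, x) ∈ V) :
    ∃ δ' : ℝ, 0 < δ' ∧ δ' ≤ δ ∧ ∀ x q, ‖q - ι x‖ < δ' → (x, r q) ∈ V := by
  have hN : IsOpen {q : E | ∃ x, ‖q - ι x‖ < δ} := by
    have : {q : E | ∃ x, ‖q - ι x‖ < δ} = ⋃ x, Metric.ball (ι x) δ := by
      ext q
      simp [dist_eq_norm]
    rw [this]
    exact isOpen_iUnion fun x => Metric.isOpen_ball
  set N : Set E := {q : E | ∃ x, ‖q - ι x‖ < δ} with hNdef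
  have hφc : Continuous fun p : X × E => ι p.1 + p.2 := by fun_prop
  set D : Set (X × E) := (fun p : X × E => ι p.1 + p.2) ⁻¹' N with hD
  have hDo : IsOpen D := hN.preimage hφc
  have hψ : ContinuousOn (fun p : X × E => (p.1, r (ι p.1 + p.2))) D := by
    apply ContinuousOn.prodMk continuous_fst.continuousOn
    exact hr.comp hφc.continuousOn (fun p hp => hp)
  have hW : IsOpen (D ∩ (fun p : X × E => (p.1, r (ι p.1 + p.2))) ⁻¹' V) :=
    hψ.isOpen_inter_preimage hDo hV
  have hsub : (univ : Set X) ×ˢ ({0} : Set E) ⊆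
      D ∩ (fun p : X × E => (p.1, r (ι p.1 + p.2))) ⁻¹' V := by
    rintro ⟨x, v⟩ ⟨_, hv⟩
    rw [mem_singleton_iff] at hv
    simp only at hv
    subst hv
    refine ⟨⟨x, ?_⟩, ?_⟩
    · simpa using hδ
    · show (x, r (ι x + 0)) ∈ V
      rw [add_zero, hrι]
      exact hd x
  obtain ⟨u, v, hu, hv, hu1, hv1, huv⟩ :=
    generalized_tube_lemma isCompact_univ isCompact_singleton hW hsub
  obtain ⟨ε, hε, hball⟩ := Metric.isOpen_iff.1 hv 0 (hv1 rfl)
  refine ⟨min ε δ, lt_min hε hδ, min_le_right _ _, fun x q hq => ?_⟩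
  have h1 : q - ι x ∈ v := by
    apply hball
    rw [Metric.mem_ball, dist_zero_right]
    exact lt_of_lt_of_le hq (min_le_left _ _)
  have h2 := (huv (show (x, q - ι x) ∈ u ×ˢ v from ⟨hu1 (mem_univ x), h1⟩)).2
  have h3 : ι x + (q - ι x) = q := by abel
  have h4 : (x, r (ι x + (q - ι x))) ∈ V := h2
  rwa [h3] at h4

theorem seg_close {E : Type} [NormedAddCommGroup E] [NormedSpace ℝ E] (a b : E) (d u : ℝ)
    (h : ‖b - a‖ < d) (hu : u ∈ Icc (0 : ℝ) 1) : ‖((1 - u) • a + u • b) - a‖ < d := by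
  have e : ((1 - u) • a + u • b) - a = u • (b - a) := by module
  rw [e, norm_smul, Real.norm_eq_abs, abs_of_nonneg hu.1]
  calc u * ‖b - a‖ ≤ 1 * ‖b - a‖ := mul_le_mul_of_nonneg_right hu.2 (norm_nonneg _)
    _ = ‖b - a‖ := one_mul _
    _ < d := h

end H26

open H26

theorem claimSmoothing_proof (h3 : claimQS) (h24 : claimBern) (h25 : claimRetr) :
    claimSmoothing := by
  intro X _ _ _ _ _ _ V hV hd A
  classical
  obtain ⟨hqR, hqS, hqSc, -⟩ := h3
  obtain ⟨N, ι, r, δ, hδ, hι, hrι, hr⟩ := h25 X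
  have hιc : Continuous ι := hι.continuous
  obtain ⟨δ', hδ', hδδ, hVr⟩ := exists_delta ι hιc r δ hδ hr.continuousOn hrι V hV hd
  have hmemN : ∀ (x : X) (q : EuclideanSpace ℝ (Fin N)), ‖q - ι x‖ < δ' →
      q ∈ {q : EuclideanSpace ℝ (Fin N) | ∃ x, ‖q - ι x‖ < δ} := fun x q hq =>
    ⟨x, lt_of_lt_of_le hq hδδ⟩
  have hcont : ∀ (k : ℕ) (s : Simp k X), Continuous fun y => ι (s y) := fun k s =>
    hιc.comp s.continuous
  have hB := fun (k : ℕ) (s : Simp k X) =>
    h24 (EuclideanSpace ℝ (Fin N)) k (fun y => ι (s y)) (hcont k s)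
  -- the degree of the Bernstein polynomials
  have hn : ∃ n, ∀ a ∈ A, ∀ x : stdSimplex ℝ (Fin (a.1 + 1)),
      ‖bern n (fun y => ι (a.2 y)) x.1 - ι (a.2 x)‖ < δ' := by
    have h1 : ∀ a : Σ k : ℕ, Simp k X, ∃ n0, ∀ n, n0 ≤ n →
        ∀ x : stdSimplex ℝ (Fin (a.1 + 1)),
          ‖bern n (fun y => ι (a.2 y)) x.1 - ι (a.2 x)‖ < δ' := fun a =>
      (hB a.1 a.2).2.2.2 δ' hδ'
    choose n0 hn0 using h1
    exact ⟨A.sup n0, fun a ha x => hn0 a _ (Finset.le_sup ha) x⟩
  obtain ⟨n, hn⟩ := hn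
  set B : (k : ℕ) → Simp k X → (Fin (k + 1) → ℝ) → EuclideanSpace ℝ (Fin N) :=
    fun k s x => bern n (fun y => ι (s y)) x with hBdef
  have hBs : ∀ k s, ContDiff ℝ ∞ (B k s) := fun k s => (hB k s).1 n
  have hBc : ∀ (k : ℕ) (s : Simp k X),
      Continuous fun x : stdSimplex ℝ (Fin (k + 1)) => B k s x.1 := fun k s =>
    (hBs k s).continuous.comp continuous_subtype_val
  set good : (k : ℕ) → Simp k X → Prop := fun k s =>
    ∀ x : stdSimplex ℝ (Fin (k + 1)), ‖B k s x.1 - ι (s x)‖ < δ' with hgood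
  have hSc : ∀ (k : ℕ) (s : Simp k X), good k s →
      Continuous fun x : stdSimplex ℝ (Fin (k + 1)) => r (B k s x.1) := by
    intro k s hs
    exact hr.continuousOn.comp_continuous (hBc k s) fun x => hmemN (s x) _ (hs x)
  refine ⟨fun k s => if h : good k s then ⟨fun x => r (B k s x.1), hSc k s h⟩ else s,
    fun k s x u => r ((1 - u) • ι (s x) + u • B k s x.1), ?_, ?_⟩
  · intro k s hs
    have hg : good k s := hn _ hs
    simp only [dif_pos hg, ContinuousMap.coe_mk]
    have hclose : ∀ (x : stdSimplex ℝ (Fin (k + 1))), ∀ u ∈ Icc (0 : ℝ) 1,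
        ‖((1 - u) • ι (s x) + u • B k s x.1) - ι (s x)‖ < δ' := fun x u hu =>
      seg_close _ _ _ _ (hg x) hu
    have hBq : ContDiffOn ℝ ∞ (fun t : Fin k → ℝ => B k s (qS k t).1) (cube k) := by
      have h1 : ContDiff ℝ ∞ fun t : Fin k → ℝ => B k s (qR k t) :=
        (hBs k s).comp (contDiff_pi.2 (hqR k))
      refine h1.contDiffOn.congr fun t ht => ?_
      have : (qS k t).1 = qR k t := funext (hqS k t ht)
      simp only [this]
    refine ⟨?_, ?_, ?_, ?_, ?_, ?_, ?_⟩
    · -- smoothness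
      show ContMDiffOn 𝓘(ℝ, Fin k → ℝ) (𝓡 4) ∞ (fun t => r (B k s (qS k t).1)) (cube k)
      exact hr.comp hBq.contMDiffOn fun t ht => hmemN (s (qS k t)) _ (hg (qS k t))
    · -- continuity of the homotopy
      have h1 : Continuous fun p : stdSimplex ℝ (Fin (k + 1)) × ℝ =>
          (1 - p.2) • ι (s p.1) + p.2 • B k s p.1.1 := by
        have h2 := (hcont k s).comp (continuous_fst (X := stdSimplex ℝ (Fin (k + 1))) (Y := ℝ))
        have h3 := (hBc k s).comp (continuous_fst (X := stdSimplex ℝ (Fin (k + 1))) (Y := ℝ))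
        exact ((continuous_const.sub continuous_snd).smul h2).add (continuous_snd.smul h3)
      exact hr.continuousOn.comp h1.continuousOn fun p hp =>
        hmemN (s p.1) _ (hclose p.1 p.2 hp.2)
    · intro x
      rw [sub_zero, one_smul, zero_smul, add_zero, hrι]
    · intro x
      rw [sub_self, zero_smul, one_smul, zero_add]
    · intro i u _
      have h1 : B k s (stdSimplex.vertex i : stdSimplex ℝ (Fin (k + 1))).1 =
          ι (s (stdSimplex.vertex i)) := (hB k s).2.2.1 n i
      rw [h1, ← add_smul, sub_add_cancel, one_smul, hrι]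
    · intro x u hu
      exact hVr _ _ (hclose x u hu)
    · intro hsm
      show ContMDiffOn 𝓘(ℝ, Fin (k + 1) → ℝ) (𝓡 4) ∞
        (fun T => r ((1 - T 0) • ι (s (qS k (Fin.tail T))) + T 0 • B k s (qS k (Fin.tail T)).1))
        (cube (k + 1))
      have htail : ContDiff ℝ ∞ fun T : Fin (k + 1) → ℝ => Fin.tail T :=
        contDiff_pi.2 fun i => contDiff_apply ℝ ℝ i.succ
      have hzero : ContDiff ℝ ∞ fun T : Fin (k + 1) → ℝ => T 0 := contDiff_apply ℝ ℝ 0
      have hmaps : MapsTo (fun T : Fin (k + 1) → ℝ => Fin.tail T) (cube (k + 1)) (cube k) := by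
        intro T hT
        exact ⟨fun i => hT.1 i.succ, fun i => hT.2 i.succ⟩
      have h1 : ContDiffOn ℝ ∞ (fun t : Fin k → ℝ => ι (s (qS k t))) (cube k) := by
        rw [← contMDiffOn_iff_contDiffOn]
        exact hι.comp_contMDiffOn hsm
      have h2 : ContDiffOn ℝ ∞ (fun T : Fin (k + 1) → ℝ =>
          (1 - T 0) • ι (s (qS k (Fin.tail T))) + T 0 • B k s (qS k (Fin.tail T)).1)
          (cube (k + 1)) := by
        have h3 := h1.comp htail.contDiffOn hmaps
        have h4 := hBq.comp htail.contDiffOn hmaps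
        exact ((contDiff_const.sub hzero).contDiffOn.smul h3).add (hzero.contDiffOn.smul h4)
      exact hr.comp h2.contMDiffOn fun T hT =>
        hmemN (s (qS k (Fin.tail T))) _ (hclose _ _ ⟨hT.1 0, hT.2 0⟩)
  · intro k s hs i
    have hg : good (k + 1) s := hn _ hs
    have hnat : ∀ x : stdSimplex ℝ (Fin (k + 1)),
        B (k + 1) s (faceIncl k i x).1 = B k (s.comp (faceIncl k i)) x.1 := fun x =>
      (hB (k + 1) s).2.1 n k i.succAbove x
    have hg' : good k (s.comp (faceIncl k i)) := by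
      intro x
      rw [← hnat x]
      exact hg (faceIncl k i x)
    simp only [dif_pos hg, dif_pos hg']
    ext x
    show r (B k (s.comp (faceIncl k i)) x.1) = r (B (k + 1) s (faceIncl k i x).1)
    rw [hnat]

end NRF.H

end
end

section

/-!
Item H27: homotopy lifting with fixed vertices.
-/

open scoped Manifold ContDiff Topology unitInterval
open MeasureTheory Set

noncomputable section

namespace NRF.H

/-- Item H27. -/
theorem claimHomLift_proof : claimHomLift := by
  intro X _ U k s s' H hH H0 H1 Hv t ht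
  let F : C(I × stdSimplex ℝ (Fin (k + 1)), X) :=
    ⟨fun q => H q.2 (q.1 : ℝ), by
      have h1 : Continuous fun q : I × stdSimplex ℝ (Fin (k + 1)) =>
          ((q.2, (q.1 : ℝ)) : stdSimplex ℝ (Fin (k + 1)) × ℝ) := by fun_prop
      exact hH.comp_continuous h1 fun q => ⟨mem_univ _, q.1.2⟩⟩
  have F0 : ∀ a, F (0, a) = U.p (t a) := by
    intro a
    simp only [F, ContinuousMap.coe_mk, Set.Icc.coe_zero, H0, ht]
  let L := U.cov.liftHomotopy F t F0
  have hL : ∀ q, U.p (L q) = F q := fun q => congrFun (U.cov.liftHomotopy_lifts F t F0) q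
  have hL0 : ∀ a, L (0, a) = t a := fun a => U.cov.liftHomotopy_zero F t F0 a
  refine ⟨L.comp ((ContinuousMap.const _ (1 : I)).prodMk (ContinuousMap.id _)), fun x => ?_,
    fun i => ?_⟩
  · refine (hL (1, x)).trans ?_
    simp only [F, ContinuousMap.coe_mk, Set.Icc.coe_one, H1]
  · have h := U.cov.eq_of_comp_eq (g₁ := fun u : I => L (u, stdSimplex.vertex i))
      (g₂ := fun _ : I => t (stdSimplex.vertex i))
      (L.continuous.comp (by fun_prop)) continuous_const
      (by
        funext u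
        simp only [Function.comp_apply]
        rw [hL, ht]
        exact Hv i u u.2)
      (0 : I) (hL0 _)
    exact congrFun h 1

end NRF.H

end
end

section

/-!
# Item H28: invariant cochains on the covering descend
-/

set_option autoImplicit false

open scoped Manifold ContDiff Topology
open MeasureTheory Set

noncomputable section

namespace NRF.H

theorem claimDescend_proof (h : claimLiftSimp) : claimDescend := by
  intro X _ U k A hA
  choose t0 ht0 using fun s : Simp k X => (h X U k s).1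
  refine ⟨Finsupp.lsum ℝ fun s : Simp k X => LinearMap.toSpanSingleton ℝ ℝ (A (t0 s)), ?_⟩
  intro s t ht
  obtain ⟨a, ha⟩ := (h X U k s).2 (t0 s) t (ht0 s) ht
  rw [hA a (t0 s) t ha]
  simp

end NRF.H

end
end

section

/-!
Item H29: `∂∂ = 0`, and fundamental cycles can be changed by boundaries.
-/

open scoped Manifold ContDiff Topology
open MeasureTheory Set

noncomputable section

namespace NRF.H

/-- The cancellation of the terms of `∂∂`. -/
lemma h29_alt {M : Type} [AddCommGroup M] [Module ℝ M] (n : ℕ)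
    (φ : Fin (n + 3) → Fin (n + 2) → M)
    (h : ∀ (i : Fin (n + 3)) (j : Fin (n + 2)) (hij : (i : ℕ) ≤ (j : ℕ)),
      φ j.succ (Fin.castLT i (lt_of_le_of_lt hij j.isLt)) = φ i j) :
    ∑ i : Fin (n + 3), ∑ j : Fin (n + 2), ((-1 : ℝ) ^ (i : ℕ) * (-1 : ℝ) ^ (j : ℕ)) • φ i j = 0 := by
  classical
  rw [Finset.sum_comm, ← Finset.sum_product']
  let P := Fin (n + 2) × Fin (n + 3)
  let S : Finset P := Finset.univ.filter fun ij : P => (ij.2 : ℕ) ≤ (ij.1 : ℕ)
  rw [Finset.univ_product_univ, ← Finset.sum_add_sum_compl S, ← eq_neg_iff_add_eq_zero,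
    ← Finset.sum_neg_distrib]
  let ψ : ∀ ij : P, ij ∈ S → P := fun ij hij =>
    (Fin.castLT ij.2 (lt_of_le_of_lt (Finset.mem_filter.mp hij).right (Fin.is_lt ij.1)), ij.1.succ)
  apply Finset.sum_bij ψ
  · intro ij hij
    simp only [S, ψ, Finset.compl_filter, Finset.mem_filter, Finset.mem_univ, true_and,
      Fin.val_succ, Fin.val_castLT] at hij ⊢
    omega
  · rintro ⟨i, j⟩ hij ⟨i', j'⟩ hij' h
    have h1 : (j : ℕ) = (j' : ℕ) := congrArg (fun q : P => (q.1 : ℕ)) h
    have h2 : (i : ℕ) + 1 = (i' : ℕ) + 1 := congrArg (fun q : P => (q.2 : ℕ)) h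
    exact Prod.ext (Fin.ext (by simpa using h2)) (Fin.ext h1)
  · rintro ⟨i', j'⟩ hij'
    simp only [S, Finset.compl_filter, Finset.mem_filter, Finset.mem_univ, true_and,
      not_le] at hij'
    refine ⟨(j'.pred ?_, Fin.castSucc i'), ?_, ?_⟩
    · rintro rfl
      simp only [Fin.val_zero, not_lt_zero] at hij'
    · simp only [S, Finset.mem_filter, Finset.mem_univ, true_and, Fin.val_castSucc, Fin.val_pred]
      omega
    · simp only [ψ, Fin.castLT_castSucc, Fin.succ_pred]
  · rintro ⟨i, j⟩ hij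
    have hij2 : (j : ℕ) ≤ (i : ℕ) := (Finset.mem_filter.mp hij).2
    simp only [ψ, Fin.val_succ, Fin.val_castLT]
    rw [← h j i hij2, ← neg_smul]
    congr 1
    rw [pow_succ]
    ring

lemma h29_bdry_single {Y : Type} [TopologicalSpace Y] {k : ℕ} (s : Simp (k + 1) Y) (a : ℝ) :
    bdry (Finsupp.single s a) =
      a • ∑ i : Fin (k + 2), (-1 : ℝ) ^ (i : ℕ) • Finsupp.single (s.comp (faceIncl k i)) (1 : ℝ) := by
  simp [bdry, LinearMap.toSpanSingleton]

lemma h29_face (k : ℕ) (i : Fin (k + 3)) (j : Fin (k + 2)) (hij : (i : ℕ) ≤ (j : ℕ)) :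
    (faceIncl (k + 1) j.succ).comp
      (faceIncl k (Fin.castLT i (lt_of_le_of_lt hij j.isLt))) =
      (faceIncl (k + 1) i).comp (faceIncl k j) := by
  ext1 x
  simp only [ContinuousMap.comp_apply, faceIncl, ContinuousMap.coe_mk]
  rw [stdSimplex.map_comp_apply, stdSimplex.map_comp_apply]
  congr 1
  funext t
  simp only [Function.comp_apply]
  apply Fin.ext
  simp only [Fin.succAbove, Fin.lt_def, Fin.val_castSucc, Fin.val_castLT, Fin.val_succ]
  split_ifs <;> simp_all <;> omega

/-- `∂∂ = 0`. -/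
lemma h29_bb (X : Type) [TopologicalSpace X] (k : ℕ) (c : Chain (k + 2) X) :
    bdry (bdry c) = 0 := by
  induction c using Finsupp.induction_linear with
  | zero => simp
  | add f g hf hg => rw [map_add, map_add, hf, hg, add_zero]
  | single s a =>
    rw [h29_bdry_single, map_smul, map_sum]
    have : ∑ i : Fin (k + 3), bdry ((-1 : ℝ) ^ (i : ℕ) •
        Finsupp.single (s.comp (faceIncl (k + 1) i)) (1 : ℝ)) =
        ∑ i : Fin (k + 3), ∑ j : Fin (k + 2), ((-1 : ℝ) ^ (i : ℕ) * (-1 : ℝ) ^ (j : ℕ)) •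
          Finsupp.single ((s.comp (faceIncl (k + 1) i)).comp (faceIncl k j)) (1 : ℝ) := by
      refine Finset.sum_congr rfl fun i _ => ?_
      rw [map_smul, h29_bdry_single, one_smul, Finset.smul_sum]
      refine Finset.sum_congr rfl fun j _ => ?_
      rw [smul_smul]
    rw [this, h29_alt k (fun i j => Finsupp.single
      ((s.comp (faceIncl (k + 1) i)).comp (faceIncl k j)) (1 : ℝ)), smul_zero]
    intro i j hij
    congr 1
    rw [ContinuousMap.comp_assoc, ContinuousMap.comp_assoc, h29_face k i j hij]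

/-- Item H29. -/
theorem claimBdry_proof : claimBdry := by
  refine ⟨fun X _ k c => h29_bb X k c, ?_⟩
  intro X _ _ _ _ c b hc
  refine ⟨?_, ?_⟩
  · rw [map_add, hc.cycle, h29_bb, add_zero]
  · intro x e p s h1 h2 h3 h4 h5
    obtain ⟨b', d, h6, h7⟩ := hc.local_deg x e p s h1 h2 h3 h4 h5
    refine ⟨b' + b, d, ?_, h7⟩
    rw [map_add]
    have : c = bdry b' + d + Finsupp.single s 1 := by rw [← h6]; abel
    rw [this]
    abel

end NRF.H

end
end

section

/-!
# Item H30: duality (Hahn-Banach)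
-/

set_option autoImplicit false

noncomputable section

namespace NRF.H

variable {Y : Type} [TopologicalSpace Y] {k : ℕ}

theorem H30_norm1_nonneg (c : Chain k Y) : 0 ≤ norm1 c :=
  Finset.sum_nonneg fun _ _ => abs_nonneg _

theorem H30_norm1_eq (c : Chain k Y) (S : Finset (Simp k Y)) (hS : c.support ⊆ S) :
    norm1 c = ∑ s ∈ S, |c s| := by
  unfold norm1
  exact Finsupp.sum_of_support_subset c hS _ fun _ _ => abs_zero

theorem H30_norm1_add (c d : Chain k Y) : norm1 (c + d) ≤ norm1 c + norm1 d := by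
  classical
  rw [H30_norm1_eq (c + d) (c.support ∪ d.support) Finsupp.support_add,
    H30_norm1_eq c (c.support ∪ d.support) Finset.subset_union_left,
    H30_norm1_eq d (c.support ∪ d.support) Finset.subset_union_right, ← Finset.sum_add_distrib]
  exact Finset.sum_le_sum fun s _ => by
    rw [Finsupp.add_apply]
    exact abs_add_le _ _

theorem H30_norm1_smul (a : ℝ) (c : Chain k Y) : norm1 (a • c) = |a| * norm1 c := by
  rw [H30_norm1_eq (a • c) c.support Finsupp.support_smul,
    H30_norm1_eq c c.support subset_rfl, Finset.mul_sum]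
  exact Finset.sum_congr rfl fun s _ => by rw [Finsupp.smul_apply, smul_eq_mul, abs_mul]

theorem H30_norm1_single (s : Simp k Y) (a : ℝ) : norm1 (Finsupp.single s a) = |a| := by
  unfold norm1
  exact Finsupp.sum_single_index abs_zero

theorem H30_norm1_zero : norm1 (0 : Chain k Y) = 0 := by
  unfold norm1
  exact Finsupp.sum_zero_index

/-- The quotient seminorm. -/
def H30p (c : Chain k Y) : ℝ := ⨅ b : Chain (k + 1) Y, norm1 (c + bdry b)

theorem H30_bdd (c : Chain k Y) :
    BddBelow (Set.range fun b : Chain (k + 1) Y => norm1 (c + bdry b)) :=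
  ⟨0, by rintro _ ⟨b, rfl⟩; exact H30_norm1_nonneg _⟩

theorem H30p_le (c : Chain k Y) (b : Chain (k + 1) Y) : H30p c ≤ norm1 (c + bdry b) :=
  ciInf_le (H30_bdd c) b

theorem H30p_le_norm1 (c : Chain k Y) : H30p c ≤ norm1 c := by
  have := H30p_le c 0
  rwa [map_zero, add_zero] at this

theorem H30p_nonneg (c : Chain k Y) : 0 ≤ H30p c :=
  Real.iInf_nonneg fun _ => H30_norm1_nonneg _

theorem H30p_add (c d : Chain k Y) : H30p (c + d) ≤ H30p c + H30p d := by
  unfold H30p
  refine le_ciInf_add_ciInf fun b b' => ?_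
  refine (H30p_le (c + d) (b + b')).trans ?_
  have e : c + d + bdry (b + b') = (c + bdry b) + (d + bdry b') := by
    rw [map_add]; abel
  rw [e]
  exact H30_norm1_add _ _

theorem H30p_smul_le (a : ℝ) (c : Chain k Y) : H30p (a • c) ≤ |a| * H30p c := by
  unfold H30p
  rw [Real.mul_iInf_of_nonneg (abs_nonneg a)]
  refine le_ciInf fun b => ?_
  refine (H30p_le (a • c) (a • b)).trans (le_of_eq ?_)
  rw [map_smul, ← smul_add, H30_norm1_smul]

theorem H30p_smul (a : ℝ) (c : Chain k Y) : H30p (a • c) = |a| * H30p c := by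
  refine le_antisymm (H30p_smul_le a c) ?_
  rcases eq_or_ne a 0 with rfl | ha
  · rw [abs_zero, zero_mul]
    exact H30p_nonneg _
  · have h := H30p_smul_le a⁻¹ (a • c)
    rw [smul_smul, inv_mul_cancel₀ ha, one_smul, abs_inv] at h
    have ha' : 0 < |a| := abs_pos.mpr ha
    calc |a| * H30p c ≤ |a| * (|a|⁻¹ * H30p (a • c)) := mul_le_mul_of_nonneg_left h ha'.le
      _ = H30p (a • c) := by rw [← mul_assoc, mul_inv_cancel₀ ha'.ne', one_mul]

theorem H30p_bdry (b : Chain (k + 1) Y) : H30p (bdry b) ≤ 0 := by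
  refine (H30p_le (bdry b) (-b)).trans (le_of_eq ?_)
  rw [map_neg, add_neg_cancel, H30_norm1_zero]

/-- Item H30. -/
theorem claimDual_proof : claimDual := by
  intro X _ c
  -- the functional on the line
  obtain ⟨β, hβc, hβ⟩ : ∃ β : Chain 4 X →ₗ[ℝ] ℝ, β c = H30p c ∧ ∀ x, β x ≤ H30p x := by
    rcases eq_or_ne c 0 with rfl | hc
    · refine ⟨0, ?_, fun x => by simpa using H30p_nonneg x⟩
      have h1 := H30p_le_norm1 (0 : Chain 4 X)
      rw [H30_norm1_zero] at h1
      rw [LinearMap.zero_apply]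
      exact le_antisymm (H30p_nonneg _) h1
    · have key : ∀ (a : ℝ) (hx : a • c ∈ (LinearPMap.mkSpanSingleton c (H30p c) hc).domain),
          (LinearPMap.mkSpanSingleton c (H30p c) hc) ⟨a • c, hx⟩ = a • H30p c :=
        fun a hx => LinearPMap.mkSpanSingleton'_apply (σ := RingHom.id ℝ) c (H30p c) _ a hx
      obtain ⟨g, hg1, hg2⟩ := exists_extension_of_le_sublinear
        (LinearPMap.mkSpanSingleton c (H30p c) hc) H30p
        (fun a ha x => by rw [H30p_smul, abs_of_pos ha]) H30p_add (by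
          rintro ⟨x, hx⟩
          obtain ⟨a, rfl⟩ := Submodule.mem_span_singleton.mp hx
          rw [key]
          simp only
          rw [H30p_smul, smul_eq_mul]
          exact mul_le_mul_of_nonneg_right (le_abs_self a) (H30p_nonneg c))
      refine ⟨g, ?_, hg2⟩
      have hm : (1 : ℝ) • c ∈ (LinearPMap.mkSpanSingleton (σ := RingHom.id ℝ) c (H30p c)
          hc).domain := by
        rw [one_smul]
        exact Submodule.mem_span_singleton_self c
      have h1 := hg1 ⟨(1 : ℝ) • c, hm⟩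
      rw [key 1 hm] at h1
      have h2 : g ((1 : ℝ) • c) = (1 : ℝ) • H30p c := h1
      rw [one_smul, one_smul] at h2
      exact h2
  have habs : ∀ x, |β x| ≤ H30p x := by
    intro x
    rw [abs_le]
    refine ⟨?_, hβ x⟩
    have h1 := hβ (-x)
    have h2 := H30p_smul (-1) x
    rw [neg_one_smul, abs_neg, abs_one, one_mul] at h2
    rw [map_neg, h2] at h1
    linarith
  refine ⟨β, fun s => ?_, fun b => ?_, fun B hB => ?_⟩
  · refine (habs _).trans ((H30p_le_norm1 _).trans (le_of_eq ?_))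
    rw [H30_norm1_single, abs_one]
  · have h1 := (habs (bdry b)).trans (H30p_bdry b)
    exact abs_eq_zero.mp (le_antisymm h1 (abs_nonneg _))
  · rw [hβc]
    exact le_ciInf hB

end NRF.H

end
end

section

set_option autoImplicit false

noncomputable section

namespace NRF.H

theorem claimEquiv_proof : claimEquiv := by
  classical
  intro X _ U
  let m : X → U.Y := fun x => (U.surj x).choose
  have hm : ∀ x, U.p (m x) = x := fun x => (U.surj x).choose_spec
  have h : ∀ y : U.Y, ∃ a : U.G, a • m (U.p y) = y := fun y => U.trans _ _ (hm (U.p y))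
  choose r hr using h
  refine ⟨r, fun a y => ?_⟩
  have h1 : r (a • y) • m (U.p y) = a • y := by
    have := hr (a • y)
    rwa [U.p_smul] at this
  have h2 : (a * r y) • m (U.p y) = a • y := by rw [mul_smul, hr]
  have h3 : ((a * r y)⁻¹ * r (a • y)) • m (U.p y) = m (U.p y) := by
    rw [mul_smul, h1, ← h2, inv_smul_smul]
  have h4 := U.free _ _ h3
  exact (inv_mul_eq_one.1 h4).symm

end NRF.H

end
end

section

/-!
# H32: local degree data for a fundamental cycle
-/

open scoped Manifold ContDiff Topology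
open MeasureTheory Set

set_option autoImplicit false

noncomputable section

namespace NRF.H

/-- The vertices of a small simplex around `y`. -/
def H32_p (y : E4) (a : ℝ) : Fin 5 → E4 :=
  Fin.cons (y - a • ∑ i, bv i) (fun i => y - a • ∑ i, bv i + (5 * a) • bv i)

theorem H32_bv (i k : Fin 4) : bv i k = if k = i then 1 else 0 := by
  simp [bv]

theorem H32_ones (k : Fin 4) : (∑ i, bv i : E4) k = 1 := by
  have : (∑ i, bv i : E4) k = ∑ i, bv i k := by
    simp
  rw [this]
  simp [H32_bv]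

theorem H32_p0 (y : E4) (a : ℝ) (k : Fin 4) : H32_p y a 0 k = y k - a := by
  simp only [H32_p, Fin.cons_zero, PiLp.sub_apply, PiLp.smul_apply, smul_eq_mul, H32_ones, mul_one]

theorem H32_ps (y : E4) (a : ℝ) (j k : Fin 4) :
    H32_p y a j.succ k = y k - a + 5 * a * (if k = j then 1 else 0) := by
  simp only [H32_p, Fin.cons_succ, PiLp.sub_apply, PiLp.smul_apply, PiLp.add_apply, smul_eq_mul,
    H32_ones, mul_one, H32_bv]

theorem H32_coord (y : E4) (a : ℝ) (w : Fin 5 → ℝ) (hw : ∑ i, w i = 1) (k : Fin 4) :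
    (∑ i, w i • H32_p y a i : E4) k = y k - a + 5 * a * w k.succ := by
  have h1 : (∑ i, w i • H32_p y a i : E4) k = ∑ i, w i * H32_p y a i k := by
    simp
  rw [h1, Fin.sum_univ_succ, H32_p0]
  simp only [H32_ps]
  rw [Fin.sum_univ_succ] at hw
  have h2 : ∑ j : Fin 4, w j.succ * (y k - a + 5 * a * (if k = j then 1 else 0)) =
      (∑ j : Fin 4, w j.succ) * (y k - a) + 5 * a * w k.succ := by
    rw [Finset.sum_mul]
    simp only [mul_add, Finset.sum_add_distrib]
    congr 1
    have : ∀ j : Fin 4, w j.succ * (5 * a * (if k = j then (1 : ℝ) else 0)) =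
        if k = j then 5 * a * w j.succ else 0 := by
      intro j
      split_ifs <;> ring
    simp only [this]
    rw [Finset.sum_ite_eq]
    simp
  rw [h2, show w 0 = 1 - ∑ j : Fin 4, w j.succ by linarith]
  ring

theorem H32_det (y : E4) {a : ℝ} (ha : 0 < a) :
    0 < Matrix.det (Matrix.of fun i j : Fin 4 => (H32_p y a j.succ - H32_p y a 0) i) := by
  have : (Matrix.of fun i j : Fin 4 => (H32_p y a j.succ - H32_p y a 0) i) =
      Matrix.diagonal (fun _ : Fin 4 => 5 * a) := by
    ext i j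
    rw [Matrix.of_apply, PiLp.sub_apply, H32_p0, H32_ps, Matrix.diagonal_apply]
    split_ifs <;> ring
  rw [this, Matrix.det_diagonal]
  exact Finset.prod_pos (fun _ _ => by positivity)

theorem H32_mem (y : E4) (a : ℝ) (w : Fin 5 → ℝ) (h0 : ∀ i, 0 ≤ w i) (hw : ∑ i, w i = 1) :
    ∑ i, w i • H32_p y a i ∈ convexHull ℝ (range (H32_p y a)) :=
  (convex_convexHull ℝ _).sum_mem (fun i _ => h0 i) hw
    (fun i _ => subset_convexHull ℝ _ (mem_range_self i))

theorem H32_int (y : E4) {a : ℝ} (ha : 0 < a) :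
    y ∈ interior (convexHull ℝ (range (H32_p y a))) := by
  rw [mem_interior_iff_mem_nhds, Metric.mem_nhds_iff]
  refine ⟨a / 4, by positivity, fun z hz => ?_⟩
  have hz' : ∀ k, |z k - y k| < a / 4 := by
    intro k
    have h1 : ‖(z - y) k‖ ≤ ‖z - y‖ := PiLp.norm_apply_le (z - y) k
    rw [mem_ball_iff_norm] at hz
    rw [PiLp.sub_apply, Real.norm_eq_abs] at h1
    linarith
  set w : Fin 5 → ℝ := Fin.cons (1 - ∑ k : Fin 4, (z k - y k + a) / (5 * a))
    (fun k => (z k - y k + a) / (5 * a)) with hw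
  have hsum : ∑ i, w i = 1 := by
    rw [Fin.sum_univ_succ]
    simp only [hw, Fin.cons_zero, Fin.cons_succ]
    ring
  have hs : ∀ k : Fin 4, w k.succ = (z k - y k + a) / (5 * a) := fun k => by
    simp only [hw, Fin.cons_succ]
  have hnn : ∀ i, 0 ≤ w i := by
    intro i
    refine Fin.cases ?_ (fun k => ?_) i
    · simp only [hw, Fin.cons_zero]
      rw [← Finset.sum_div, sub_nonneg, div_le_one (by positivity), Fin.sum_univ_four]
      have h0 := (abs_lt.1 (hz' 0)).2
      have h1 := (abs_lt.1 (hz' 1)).2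
      have h2 := (abs_lt.1 (hz' 2)).2
      have h3 := (abs_lt.1 (hz' 3)).2
      linarith
    · rw [hs]
      have h0 := (abs_lt.1 (hz' k)).1
      exact div_nonneg (by linarith) (by positivity)
  have hz2 : z = ∑ i, w i • H32_p y a i := by
    ext k
    rw [H32_coord y a w hsum k, hs]
    field_simp
    ring
  rw [hz2]
  exact H32_mem y a w hnn hsum

/-- The linear functionals of the faces are nonnegative on the simplex. -/
theorem H32_half (y : E4) {a : ℝ} (ha : 0 < a) {z : E4}
    (hz : z ∈ convexHull ℝ (range (H32_p y a))) :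
    (∀ k, y k - a ≤ z k) ∧ ∑ k, z k ≤ ∑ k, y k + a := by
  constructor
  · intro k
    have hc : Convex ℝ {w : E4 | y k - a ≤ w k} := by
      intro u hu v hv s t hs ht hst
      simp only [mem_ofPred_eq, PiLp.add_apply, PiLp.smul_apply, smul_eq_mul] at *
      have h1 := mul_le_mul_of_nonneg_left hu hs
      have h2 := mul_le_mul_of_nonneg_left hv ht
      have h3 : y k - a = s * (y k - a) + t * (y k - a) := by rw [← add_mul, hst, one_mul]
      linarith
    refine convexHull_min ?_ hc hz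
    rintro _ ⟨i, rfl⟩
    refine Fin.cases ?_ (fun j => ?_) i
    · simp only [mem_ofPred_eq, H32_p0]
      exact le_rfl
    · simp only [mem_ofPred_eq, H32_ps]
      split_ifs <;> linarith
  · have hc : Convex ℝ {w : E4 | ∑ k, w k ≤ ∑ k, y k + a} := by
      intro u hu v hv s t hs ht hst
      simp only [mem_ofPred_eq, PiLp.add_apply, PiLp.smul_apply, smul_eq_mul,
        Finset.sum_add_distrib, ← Finset.mul_sum] at *
      have h1 := mul_le_mul_of_nonneg_left hu hs
      have h2 := mul_le_mul_of_nonneg_left hv ht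
      have h3 : ∑ k, y k + a = s * (∑ k, y k + a) + t * (∑ k, y k + a) := by
        rw [← add_mul, hst, one_mul]
      linarith
    refine convexHull_min ?_ hc hz
    rintro _ ⟨i, rfl⟩
    refine Fin.cases ?_ (fun j => ?_) i
    · simp only [mem_ofPred_eq, H32_p0, Fin.sum_univ_four]
      linarith
    · simp only [mem_ofPred_eq, H32_ps, Finset.sum_add_distrib, Finset.sum_sub_distrib,
        ← Finset.mul_sum, Finset.sum_ite_eq']
      simp
      linarith

/-- Interior points have positive barycentric coordinates. -/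
theorem H32_pos (y : E4) {a : ℝ} (ha : 0 < a) {w : Fin 5 → ℝ} (hw : ∑ i, w i = 1)
    (h : ∑ i, w i • H32_p y a i ∈ interior (convexHull ℝ (range (H32_p y a)))) (i : Fin 5) :
    0 < w i := by
  set z : E4 := ∑ i, w i • H32_p y a i with hz
  rw [mem_interior_iff_mem_nhds, Metric.mem_nhds_iff] at h
  obtain ⟨ε, hε, hb⟩ := h
  have hzk : ∀ k, z k = y k - a + 5 * a * w k.succ := H32_coord y a w hw
  have hn : ∀ (s : ℝ) (k : Fin 4), |s| < ε → z + s • bv k ∈ convexHull ℝ (range (H32_p y a)) := by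
    intro s k hs
    apply hb
    rw [mem_ball_iff_norm, add_sub_cancel_left, norm_smul]
    have : ‖bv k‖ = 1 := by simp [bv]
    rw [this, mul_one]
    exact hs
  have he : |ε / 2| < ε := by rw [abs_of_pos (by positivity)]; linarith
  have he' : |-(ε / 2)| < ε := by rw [abs_neg]; exact he
  refine Fin.cases ?_ (fun k => ?_) i
  · have h1 := (H32_half y ha (hn (ε / 2) 0 he)).2
    have h2 : ∑ k, (z + (ε / 2) • bv 0) k = ∑ k, z k + ε / 2 := by
      simp only [PiLp.add_apply, PiLp.smul_apply, smul_eq_mul, Finset.sum_add_distrib, H32_bv,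
        ← Finset.mul_sum]
      simp
    rw [h2] at h1
    simp only [hzk, Finset.sum_add_distrib, Finset.sum_sub_distrib, ← Finset.mul_sum] at h1
    rw [Fin.sum_univ_succ] at hw
    have h3 : ∑ k : Fin 4, w k.succ = 1 - w 0 := by linarith
    rw [h3] at h1
    simp only [Finset.sum_const, Finset.card_univ, Fintype.card_fin, nsmul_eq_mul] at h1
    norm_num at h1
    by_contra hcon
    push Not at hcon
    nlinarith
  · have h1 := (H32_half y ha (hn (-(ε / 2)) k he')).1 k
    simp only [PiLp.add_apply, PiLp.smul_apply, smul_eq_mul, H32_bv, if_true, hzk] at h1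
    by_contra hcon
    push Not at hcon
    nlinarith

/-- The simplex is small. -/
theorem H32_small (y : E4) {ρ : ℝ} (hρ : 0 < ρ) : ∃ a : ℝ, 0 < a ∧
    convexHull ℝ (range (H32_p y a)) ⊆ Metric.ball y ρ := by
  set M : ℝ := ‖(∑ i, bv i : E4)‖ + 5 with hM
  have hM0 : 0 < M := by positivity
  refine ⟨ρ / (2 * M), by positivity, convexHull_min ?_ (convex_ball y ρ)⟩
  have ha : 0 < ρ / (2 * M) := by positivity
  have haM : ρ / (2 * M) * M = ρ / 2 := by field_simp
  rintro _ ⟨i, rfl⟩
  rw [mem_ball_iff_norm]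
  refine Fin.cases ?_ (fun j => ?_) i
  · have h1 : H32_p y (ρ / (2 * M)) 0 - y = -((ρ / (2 * M)) • ∑ i, bv i) := by
      simp only [H32_p, Fin.cons_zero]
      abel
    rw [h1, norm_neg, norm_smul, Real.norm_eq_abs, abs_of_pos ha]
    nlinarith
  · have h1 : H32_p y (ρ / (2 * M)) j.succ - y =
        -((ρ / (2 * M)) • ∑ i, bv i) + (5 * (ρ / (2 * M))) • bv j := by
      simp only [H32_p, Fin.cons_succ]
      abel
    rw [h1]
    refine lt_of_le_of_lt (norm_add_le _ _) ?_
    have h2 : ‖bv j‖ = 1 := by simp [bv]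
    rw [norm_neg, norm_smul, norm_smul, Real.norm_eq_abs, Real.norm_eq_abs, abs_of_pos ha,
      abs_of_pos (by positivity), h2]
    nlinarith

theorem claimDeg_proof : claimDeg := by
  intro X _ _ _ _ _ _ _ c hc
  classical
  -- the data at a point
  have key : ∀ x : X, ∃ (p : Fin 5 → E4) (s : Simp 4 X) (b : Chain 5 X) (d : Chain 4 X)
      (N N' : Set X), IsOpen N ∧ IsOpen N' ∧ closure N' ⊆ N ∧ x ∈ N' ∧
      N ⊆ (chAt x).1.source ∧ (∀ x' ∈ N, (chAt x).1 x' ∈ interior (convexHull ℝ (range p))) ∧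
      convexHull ℝ (range p) ⊆ (chAt x).1.target ∧
      0 < Matrix.det (Matrix.of fun i k : Fin 4 => (p k.succ - p 0) i) ∧
      (∀ t : stdSimplex ℝ (Fin 5), s t = (chAt x).1.symm (∑ i, t.1 i • p i)) ∧
      c - Finsupp.single s 1 = bdry b + d ∧ (∀ r ∈ d.support, Disjoint N (range r)) ∧
      ∀ t : stdSimplex ℝ (Fin 5), (∃ i, t i = 0) → s t ∉ N := by
    intro x
    set e : Ch X := chAt x with he
    have hxs : x ∈ e.1.source := mem_chart_source E4 x
    set y : E4 := e.1 x with hy
    have hyt : y ∈ e.1.target := e.1.map_source hxs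
    obtain ⟨ρ, hρ, hball⟩ := Metric.isOpen_iff.1 e.1.open_target y hyt
    obtain ⟨a, ha, hsm⟩ := H32_small y hρ
    have htgt : convexHull ℝ (range (H32_p y a)) ⊆ e.1.target := hsm.trans hball
    have hmem : ∀ t : stdSimplex ℝ (Fin 5), ∑ i, t.1 i • H32_p y a i ∈
        convexHull ℝ (range (H32_p y a)) := fun t => H32_mem y a t.1 t.2.1 t.2.2
    set s : Simp 4 X := ⟨fun t => e.1.symm (∑ i, t.1 i • H32_p y a i), by
      refine e.1.continuousOn_symm.comp_continuous ?_ (fun t => htgt (hmem t))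
      refine continuous_finsetSum _ (fun i _ => ?_)
      have h1 : Continuous (fun t : stdSimplex ℝ (Fin 5) => t.1 i) :=
        (continuous_apply i).comp continuous_subtype_val
      exact h1.smul continuous_const⟩ with hs
    have hsv : ∀ t : stdSimplex ℝ (Fin 5), s t = e.1.symm (∑ i, t.1 i • H32_p y a i) :=
      fun t => rfl
    obtain ⟨b, d, hbd, hd⟩ := hc.local_deg x e (H32_p y a) s hxs (H32_int y ha) htgt
      (H32_det y ha) hsv
    set N : Set X := (e.1.source ∩ e.1 ⁻¹' interior (convexHull ℝ (range (H32_p y a)))) ∩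
      (⋃ r ∈ d.support, range r)ᶜ with hN
    have hNo : IsOpen N := by
      apply IsOpen.inter
      · exact e.1.isOpen_inter_preimage isOpen_interior
      · rw [isOpen_compl_iff]
        refine isClosed_biUnion_finset (fun r _ => ?_)
        exact (isCompact_range r.continuous).isClosed
    have hxN : x ∈ N := by
      refine ⟨⟨hxs, H32_int y ha⟩, ?_⟩
      rw [mem_compl_iff, mem_iUnion₂]
      rintro ⟨r, hr, hxr⟩
      exact hd r hr hxr
    obtain ⟨K, hK, hKc, hKN⟩ := exists_mem_nhds_isClosed_subset (hNo.mem_nhds hxN)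
    refine ⟨H32_p y a, s, b, d, N, interior K, hNo, isOpen_interior, ?_, ?_, ?_, ?_, htgt,
      H32_det y ha, hsv, hbd, ?_, ?_⟩
    · exact (closure_minimal interior_subset hKc).trans hKN
    · exact mem_interior_iff_mem_nhds.2 hK
    · exact fun x' hx' => hx'.1.1
    · exact fun x' hx' => hx'.1.2
    · intro r hr
      rw [disjoint_left]
      intro x' hx' hx'r
      exact hx'.2 (mem_iUnion₂.2 ⟨r, hr, hx'r⟩)
    · rintro t ⟨i, hi⟩ htN
      have h1 := htN.1.2
      rw [mem_preimage, hsv, e.1.right_inv (htgt (hmem t))] at h1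
      have h2 := H32_pos y ha t.2.2 h1 i
      exact absurd hi h2.ne'
  choose p s b d N N' k1 k2 k3 k4 k5 k6 k7 k8 k9 k10 k11 k12 using key
  obtain ⟨t, ht⟩ := isCompact_univ.elim_nhds_subcover (fun x => N' x)
    (fun x _ => (k2 x).mem_nhds (k4 x))
  set f : Fin t.card → X := fun j => (t.equivFin.symm j : X) with hf
  refine ⟨t.card, ⟨{
    e := fun j => chAt (f j)
    p := fun j => p (f j)
    s := fun j => s (f j)
    b := fun j => b (f j)
    d := fun j => d (f j)
    N := fun j => N (f j)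
    N' := fun j => N' (f j)
    openN := fun j => k1 _
    openN' := fun j => k2 _
    clos := fun j => k3 _
    cover := ?_
    src := fun j => k5 _
    int := fun j => k6 _
    tgt := fun j => k7 _
    pos := fun j => k8 _
    eq_s := fun j => k9 _
    rel := fun j => k10 _
    avoid := fun j => k11 _
    face := fun j => k12 _ }⟩⟩
  intro x
  have hx := ht.2 (mem_univ x)
  rw [mem_iUnion₂] at hx
  obtain ⟨z, hz, hxz⟩ := hx
  refine ⟨t.equivFin ⟨z, hz⟩, ?_⟩
  simp only [hf, Equiv.symm_apply_apply]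
  exact hxz

end NRF.H

end
end

section

/-!
Item H33: partitions of unity with cutoffs.
-/

set_option autoImplicit false

open scoped Manifold ContDiff Topology
open MeasureTheory Set

noncomputable section

namespace NRF.H

lemma H33_cut {X : Type} [TopologicalSpace X] [T2Space X] [CompactSpace X] [ChartedSpace E4 X]
    [IsManifold (𝓡 4) ∞ X] {N K : Set X} (hN : IsOpen N) (hK : IsClosed K) (h : K ⊆ N) :
    ∃ (κ : X → ℝ) (O : Set X), ContMDiff (𝓡 4) 𝓘(ℝ, ℝ) ∞ κ ∧ IsOpen O ∧ K ⊆ O ∧ O ⊆ N ∧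
      tsupport κ ⊆ N ∧ ∀ x ∈ O, κ x = 1 := by
  obtain ⟨f, h0, h1, -⟩ := exists_contMDiffMap_zero_one_nhds_of_isClosed (𝓡 4) (n := ⊤)
    hN.isClosed_compl hK (disjoint_compl_left_iff_subset.2 h)
  obtain ⟨V, hV, hNV, hV0⟩ := eventually_nhdsSet_iff_exists.1 h0
  obtain ⟨U, hU, hKU, hU1⟩ := eventually_nhdsSet_iff_exists.1 h1
  refine ⟨f, U ∩ N, f.contMDiff, hU.inter hN, subset_inter hKU h, inter_subset_right, ?_,
    fun x hx => hU1 x hx.1⟩
  have h2 : tsupport f ⊆ Vᶜ := by
    refine closure_minimal ?_ hV.isClosed_compl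
    intro x hx hxV
    exact hx (hV0 x hxV)
  exact h2.trans (compl_subset_comm.1 hNV)

/-- Item H33. -/
theorem claimPart_proof : claimPart := by
  intro X _ _ _ _ _ m N N' hN hN' hcl hcov
  obtain ⟨f, hf⟩ := SmoothPartitionOfUnity.exists_isSubordinate (𝓡 4) (isClosed_univ (X := X)) N'
    hN' (fun x _ => mem_iUnion.2 (hcov x))
  have hsub : ∀ j, tsupport (f j) ⊆ N j := fun j =>
    (hf j).trans (subset_closure.trans (hcl j))
  choose κ O h1 h2 h3 h4 h5 h6 using fun j => H33_cut (hN j) (isClosed_tsupport (f j)) (hsub j)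
  refine ⟨fun j => f j, κ, O, fun j => ⟨(f j).contMDiff, h1 j⟩, fun j x => f.nonneg j x,
    fun x => ?_, h2, fun j => subset_inter (h3 j) (hf j), h4, h5, h6⟩
  have := f.sum_eq_one (mem_univ x)
  rwa [finsum_eq_sum_of_fintype] at this

end NRF.H

end
end

section

/-!
# H4: Stokes theorem on simplices
-/

set_option autoImplicit false

open scoped Manifold ContDiff Topology
open MeasureTheory Set

noncomputable section

namespace NRF.H

theorem h4_cd_congr {k : ℕ} {f f' : (Fin k → ℝ) → ℝ} (h : ∀ t ∈ cube k, f t = f' t) (i : Fin k)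
    {t : Fin k → ℝ} (ht : t ∈ cube k) : cd f i t = cd f' i t := by
  unfold cd
  rw [fderivWithin_congr h (h t ht)]

theorem h4_jac_congr {k : ℕ} {f f' : Fin k → (Fin k → ℝ) → ℝ}
    (h : ∀ j, ∀ t ∈ cube k, f j t = f' j t) {t : Fin k → ℝ} (ht : t ∈ cube k) :
    jac f t = jac f' t := by
  unfold jac
  congr 1
  ext i j
  exact h4_cd_congr (h j) i ht

theorem h4_cint_congr {k : ℕ} {f0 f0' : (Fin k → ℝ) → ℝ} {f f' : Fin k → (Fin k → ℝ) → ℝ}
    (h0 : ∀ t ∈ cube k, f0 t = f0' t) (h : ∀ j, ∀ t ∈ cube k, f j t = f' j t) :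
    cint f0 f = cint f0' f' := by
  unfold cint
  refine setIntegral_congr_fun measurableSet_Icc fun t ht => ?_
  show f0 t * jac f t = f0' t * jac f' t
  rw [h0 t ht, h4_jac_congr h ht]

theorem h4_update_mem {k : ℕ} {t : Fin k → ℝ} (ht : t ∈ cube k) (i : Fin k) {a : ℝ}
    (ha : a ∈ Icc (0 : ℝ) 1) : Function.update t i a ∈ cube k := by
  constructor
  · intro j
    by_cases hj : j = i
    · subst hj; simpa using ha.1
    · rw [Function.update_of_ne hj]; exact ht.1 j
  · intro j
    by_cases hj : j = i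
    · subst hj; simpa using ha.2
    · rw [Function.update_of_ne hj]; exact ht.2 j

/-- The partial derivative vanishes in a direction on which the function does not depend. -/
theorem h4_cd_zero {k : ℕ} {f : (Fin k → ℝ) → ℝ} {i : Fin k}
    (h : ∀ t ∈ cube k, ∀ a ∈ Icc (0 : ℝ) 1, f (Function.update t i a) = f t)
    {t : Fin k → ℝ} (ht : t ∈ cube k) : cd f i t = 0 := by
  unfold cd
  by_cases hd : DifferentiableWithinAt ℝ f (cube k) t
  · have h1 : HasDerivWithinAt (fun a : ℝ => Function.update t i a) (Pi.single i 1) (Icc 0 1)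
        (t i) := by
      have := (hasDerivAt_update t i (t i)).hasDerivWithinAt (s := Icc (0 : ℝ) 1)
      exact this
    have h2 : HasFDerivWithinAt f (fderivWithin ℝ f (cube k) t) (cube k)
        (Function.update t i (t i)) := by
      rw [Function.update_eq_self]
      exact hd.hasFDerivWithinAt
    have h3 : HasDerivWithinAt (f ∘ fun a : ℝ => Function.update t i a)
        (fderivWithin ℝ f (cube k) t (Pi.single i 1)) (Icc 0 1) (t i) :=
      h2.comp_hasDerivWithinAt (t i) h1 (fun a ha => h4_update_mem ht i ha)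
    have hti : t i ∈ Icc (0 : ℝ) 1 := ⟨ht.1 i, ht.2 i⟩
    have h4 : HasDerivWithinAt (f ∘ fun a : ℝ => Function.update t i a) 0 (Icc 0 1) (t i) := by
      refine (hasDerivWithinAt_const (t i) (Icc (0 : ℝ) 1) (f t)).congr (fun a ha => ?_) ?_
      · exact h t ht a ha
      · exact h t ht _ hti
    exact (uniqueDiffOn_Icc_zero_one (t i) hti).eq_deriv _ h3 h4
  · rw [fderivWithin_zero_of_not_differentiableWithinAt hd]
    rfl

/-- The integral vanishes if the functions do not depend on one of the coordinates. -/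
theorem h4_cint_zero {k : ℕ} {f0 : (Fin k → ℝ) → ℝ} {f : Fin k → (Fin k → ℝ) → ℝ} (i : Fin k)
    (h : ∀ j, ∀ t ∈ cube k, ∀ a ∈ Icc (0 : ℝ) 1, f j (Function.update t i a) = f j t) :
    cint f0 f = 0 := by
  unfold cint
  refine setIntegral_eq_zero_of_forall_eq_zero fun t ht => ?_
  have : jac f t = 0 := by
    unfold jac
    refine Matrix.det_eq_zero_of_row_eq_zero i fun j => ?_
    exact h4_cd_zero (h j) ht
  rw [this, mul_zero]

theorem claimStokesSimp_proof (h2 : claimStokes) (h3 : claimQS) : claimStokesSimp := by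
  obtain ⟨-, -, -, h3d, h3e, h3f, h3g⟩ := h3
  intro k f0 f hf0 hf
  rw [h2 k (fun t => f0 (qS (k + 1) t)) (fun j t => f j (qS (k + 1) t)) hf0 hf]
  rw [Fin.sum_univ_castSucc (n := k + 1) (fun i : Fin (k + 2) => (-1 : ℝ) ^ (i : ℕ) *
    cint (fun t => f0 (faceIncl k i (qS k t))) (fun j t => f j (faceIncl k i (qS k t))))]
  have hA : ∀ i : Fin (k + 1), cint (fun t => f0 (qS (k + 1) (ins i 1 t)))
      (fun j t => f j (qS (k + 1) (ins i 1 t))) =
      cint (fun t => f0 (faceIncl k i.castSucc (qS k t)))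
        (fun j t => f j (faceIncl k i.castSucc (qS k t))) := by
    intro i
    refine h4_cint_congr (fun t ht => ?_) (fun j t ht => ?_)
    · rw [h3e k t ht i]
    · rw [h3e k t ht i]
  have hB : cint (fun t => f0 (qS (k + 1) (ins (Fin.last k) 0 t)))
      (fun j t => f j (qS (k + 1) (ins (Fin.last k) 0 t))) =
      cint (fun t => f0 (faceIncl k (Fin.last (k + 1)) (qS k t)))
        (fun j t => f j (faceIncl k (Fin.last (k + 1)) (qS k t))) := by
    refine h4_cint_congr (fun t ht => ?_) (fun j t ht => ?_)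
    · rw [h3f k t ht]
    · rw [h3f k t ht]
  have hC : ∀ i : Fin (k + 1), i ≠ Fin.last k → cint (fun t => f0 (qS (k + 1) (ins i 0 t)))
      (fun j t => f j (qS (k + 1) (ins i 0 t))) = 0 := by
    intro i hi
    rcases k with _ | k
    · exact absurd (Fin.ext (by have := i.2; simp only [Fin.val_last]; omega)) hi
    · refine h4_cint_zero (Fin.last k) fun j t ht a ha => ?_
      show f j (qS (k + 1 + 1) (ins i 0 (Function.update t (Fin.last k) a))) =
        f j (qS (k + 1 + 1) (ins i 0 t))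
      rw [h3g k t ht a ha i hi]
  have hS : ∑ i : Fin (k + 1), (-1 : ℝ) ^ (i : ℕ) *
      cint (fun t => f0 (qS (k + 1) (ins i 0 t))) (fun j t => f j (qS (k + 1) (ins i 0 t))) =
      (-1 : ℝ) ^ k * cint (fun t => f0 (faceIncl k (Fin.last (k + 1)) (qS k t)))
        (fun j t => f j (faceIncl k (Fin.last (k + 1)) (qS k t))) := by
    rw [Finset.sum_eq_single (Fin.last k)]
    · rw [hB, Fin.val_last]
    · intro i _ hi
      rw [hC i hi, mul_zero]
    · intro h
      exact absurd (Finset.mem_univ _) h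
  simp only [mul_sub, Finset.sum_sub_distrib, hS, hA, Fin.val_castSucc, Fin.val_last]
  rw [pow_succ]
  ring

end NRF.H

end
end

section

/-!
# Item H6: the closed form of a group cocycle on the 5-cube
-/

set_option autoImplicit false

open scoped Manifold ContDiff Topology
open MeasureTheory Set

noncomputable section

namespace NRF.H

namespace H6

theorem sum_pivot {G : Type} {n : ℕ} (S : Finset G) (i : Fin (n + 1))
    (F : (Fin (n + 1) → G) → ℝ) :
    ∑ v ∈ Fintype.piFinset (fun _ : Fin (n + 1) => S), F v =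
      ∑ u ∈ Fintype.piFinset (fun _ : Fin n => S), ∑ g ∈ S,
        F (i.insertNth (α := fun _ => G) g u) := by
  rw [Finset.sum_comm, ← Finset.sum_product']
  refine Finset.sum_nbij' (fun v => (v i, fun s => v (i.succAbove s)))
    (fun x => i.insertNth (α := fun _ => G) x.1 x.2) ?_ ?_ ?_ ?_ ?_
  · intro v hv
    rw [Fintype.mem_piFinset] at hv
    rw [Finset.mem_product, Fintype.mem_piFinset]
    exact ⟨hv i, fun s => hv (i.succAbove s)⟩
  · intro x hx
    rw [Finset.mem_product, Fintype.mem_piFinset] at hx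
    rw [Fintype.mem_piFinset]
    intro j
    refine Fin.succAboveCases i ?_ (fun s => ?_) j
    · simpa using hx.1
    · simpa using hx.2 s
  · intro v _
    funext j
    refine Fin.succAboveCases i ?_ (fun s => ?_) j
    · simp
    · simp
  · intro x _
    refine Prod.ext ?_ ?_
    · simp
    · funext s
      simp
  · intro v _
    congr 1
    funext j
    refine Fin.succAboveCases i ?_ (fun s => ?_) j
    · simp
    · simp

/-- Sum over one column of the determinant. -/
theorem sum_col {G : Type} {n : ℕ} (S : Finset G) (w : G → Fin (n + 1) → ℝ)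
    (hw : ∑ g ∈ S, w g = 0) (i : Fin (n + 1)) (u : Fin n → G) :
    ∑ g ∈ S, Matrix.det (Matrix.of fun r j : Fin (n + 1) =>
      w (i.insertNth (α := fun _ => G) g u j) r) = 0 := by
  have h : ∀ g, Matrix.det (Matrix.of fun r j : Fin (n + 1) =>
      w (i.insertNth (α := fun _ => G) g u j) r) =
      Matrix.detRowAlternating (R := ℝ) (n := Fin (n + 1))
        (Function.update (i.insertNth (α := fun _ => Fin (n + 1) → ℝ) 0 (fun s => w (u s))) i
          (w g)) := by
    intro g
    rw [← Matrix.det_transpose]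
    show Matrix.det _ = Matrix.det _
    congr 1
    funext j
    refine Fin.succAboveCases i ?_ (fun s => ?_) j
    · funext r
      simp [Matrix.transpose_apply]
    · funext r
      rw [Function.update_of_ne (Fin.succAbove_ne i s)]
      simp [Matrix.transpose_apply]
  rw [Finset.sum_congr rfl fun g _ => h g, ← AlternatingMap.map_update_sum, hw,
    AlternatingMap.map_update_zero]

theorem cocyc_cons {G : Type} (b : (Fin 5 → G) → ℝ) (hb : Cocyc b) (h : G) (v : Fin 5 → G) :
    b v = ∑ i : Fin 5, (-1 : ℝ) ^ (i : ℕ) *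
      b (Fin.cons h (fun s : Fin 4 => v (i.succAbove s)) : Fin 5 → G) := by
  have h1 := hb (Fin.cons h v)
  rw [Fin.sum_univ_succ] at h1
  have h2 : (fun t : Fin 5 => (Fin.cons h v : Fin 6 → G) ((0 : Fin 6).succAbove t)) = v := by
    funext t
    rw [Fin.zero_succAbove, Fin.cons_succ]
  have h3 : ∀ i : Fin 5, (fun t : Fin 5 => (Fin.cons h v : Fin 6 → G) (i.succ.succAbove t)) =
      (Fin.cons h (fun s : Fin 4 => v (i.succAbove s)) : Fin 5 → G) := by
    intro i
    funext t
    refine Fin.cases ?_ (fun s => ?_) t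
    · rw [Fin.succ_succAbove_zero]
      rfl
    · rw [Fin.succ_succAbove_succ, Fin.cons_succ, Fin.cons_succ]
  rw [h2] at h1
  simp only [h3] at h1
  have h4 : ∀ i : Fin 5, (-1 : ℝ) ^ ((i.succ : Fin 6) : ℕ) = -(-1 : ℝ) ^ (i : ℕ) := by
    intro i
    rw [Fin.val_succ, pow_succ]
    ring
  simp only [h4] at h1
  simp only [neg_mul, Finset.sum_neg_distrib] at h1
  simp only [Fin.val_zero, pow_zero, one_mul] at h1
  linarith

/-- The algebraic identity. -/
theorem alg {G : Type} (b : (Fin 5 → G) → ℝ) (hb : Cocyc b) (S : Finset G) (h : G)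
    (w : G → Fin 5 → ℝ) (hw : ∑ g ∈ S, w g = 0) :
    ∑ v ∈ Fintype.piFinset (fun _ : Fin 5 => S),
      b v * Matrix.det (Matrix.of fun r j : Fin 5 => w (v j) r) = 0 := by
  have h1 : ∀ v ∈ Fintype.piFinset (fun _ : Fin 5 => S),
      b v * Matrix.det (Matrix.of fun r j : Fin 5 => w (v j) r) =
      ∑ i : Fin 5, (-1 : ℝ) ^ (i : ℕ) *
        b (Fin.cons h (fun s : Fin 4 => v (i.succAbove s)) : Fin 5 → G) *
        Matrix.det (Matrix.of fun r j : Fin 5 => w (v j) r) := by
    intro v _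
    rw [cocyc_cons b hb h v, Finset.sum_mul]
  rw [Finset.sum_congr rfl h1, Finset.sum_comm]
  refine Finset.sum_eq_zero fun i _ => ?_
  rw [sum_pivot S i]
  refine Finset.sum_eq_zero fun u _ => ?_
  simp only [Fin.insertNth_apply_succAbove]
  rw [← Finset.mul_sum, sum_col S w hw i u, mul_zero]

/-- Vanishing of the partial derivatives of a function vanishing on the cube. -/
theorem cd_zero {k : ℕ} (f : (Fin k → ℝ) → ℝ) (hf : ∀ t ∈ cube k, f t = 0) (i : Fin k)
    (t : Fin k → ℝ) (ht : t ∈ cube k) : cd f i t = 0 := by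
  unfold cd
  rw [fderivWithin_congr (f := fun _ => (0 : ℝ)) (fun x hx => hf x hx) (hf t ht)]
  simp

/-- The finite sum. -/
theorem bform_eq {G : Type} (b : (Fin 5 → G) → ℝ) (S : Finset G) (Φ : G → (Fin 4 → ℝ) → ℝ)
    (h0 : ∀ g, g ∉ S → ∀ t ∈ cube 4, Φ g t = 0) (t : Fin 4 → ℝ) (ht : t ∈ cube 4) :
    bform b Φ t = ∑ v ∈ Fintype.piFinset (fun _ : Fin 5 => S),
      b v * (Φ (v 0) t * jac (fun j : Fin 4 => Φ (v j.succ)) t) := by
  unfold bform
  refine finsum_eq_sum_of_support_subset _ ?_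
  intro v hv
  rw [Finset.mem_coe, Fintype.mem_piFinset]
  intro j
  by_contra hj
  refine hv ?_
  show b v * (Φ (v 0) t * jac (fun j : Fin 4 => Φ (v j.succ)) t) = 0
  revert hj
  refine Fin.cases (fun hj => ?_) (fun s hj => ?_) j
  · rw [h0 _ hj t ht, zero_mul, mul_zero]
  · have : jac (fun j : Fin 4 => Φ (v j.succ)) t = 0 := by
      unfold jac
      refine Matrix.det_eq_zero_of_column_eq_zero s fun i => ?_
      exact cd_zero _ (h0 _ hj) i t ht
    rw [this, mul_zero, mul_zero]

theorem bint_eq (h1 : claimCint) {G : Type} (b : (Fin 5 → G) → ℝ) (S : Finset G)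
    (Φ : G → (Fin 4 → ℝ) → ℝ)
    (h0 : ∀ g, g ∉ S → ∀ t ∈ cube 4, Φ g t = 0) (hc : ∀ g, ContDiffOn ℝ 1 (Φ g) (cube 4)) :
    bint b Φ = ∑ v ∈ Fintype.piFinset (fun _ : Fin 5 => S),
      b v * cint (Φ (v 0)) (fun j : Fin 4 => Φ (v j.succ)) := by
  unfold bint
  rw [setIntegral_congr_fun measurableSet_Icc fun t ht => bform_eq b S Φ h0 t ht,
    integral_finsetSum _ fun v _ => (h1 4 (Φ (v 0)) (fun j : Fin 4 => Φ (v j.succ))
      (hc _).continuousOn (fun j => hc _)).const_mul (b v)]
  refine Finset.sum_congr rfl fun v _ => ?_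
  rw [integral_const_mul]
  rfl

theorem uniqueDiff_cube (k : ℕ) : UniqueDiffOn ℝ (cube k) := by
  have h : cube k = Set.pi univ (fun _ : Fin k => Icc (0 : ℝ) 1) := by
    rw [Set.pi_univ_Icc]
    rfl
  rw [h]
  exact UniqueDiffOn.univ_pi fun _ => uniqueDiffOn_Icc_zero_one

theorem ins_mem {k : ℕ} (i : Fin (k + 1)) (a : ℝ) (ha : a ∈ Icc (0 : ℝ) 1) (t : Fin k → ℝ)
    (ht : t ∈ cube k) : ins i a t ∈ cube (k + 1) := by
  constructor
  · intro j
    unfold ins
    refine Fin.succAboveCases i ?_ (fun s => ?_) j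
    · simpa using ha.1
    · simpa using ht.1 s
  · intro j
    unfold ins
    refine Fin.succAboveCases i ?_ (fun s => ?_) j
    · simpa using ha.2
    · simpa using ht.2 s

theorem ins_smooth {k : ℕ} (i : Fin (k + 1)) (a : ℝ) (n : WithTop ℕ∞) :
    ContDiff ℝ n (ins i a : (Fin k → ℝ) → Fin (k + 1) → ℝ) := by
  rw [contDiff_pi]
  intro j
  unfold ins
  refine Fin.succAboveCases i ?_ (fun s => ?_) j
  · simp only [Fin.insertNth_apply_same]
    exact contDiff_const
  · simp only [Fin.insertNth_apply_succAbove]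
    exact contDiff_apply ℝ ℝ s

end H6

open H6

theorem claimBStokes_proof (h1 : claimCint) (h2 : claimStokes) : claimBStokes := by
  intro G b S Ψ hb hc h0 hsum
  have hI : ∀ (i : Fin 5) (a : ℝ), a ∈ Icc (0 : ℝ) 1 → bint b (fun g t => Ψ g (ins i a t)) =
      ∑ v ∈ Fintype.piFinset (fun _ : Fin 5 => S), b v *
        cint (fun t => Ψ (v 0) (ins i a t)) (fun (j : Fin 4) t => Ψ (v j.succ) (ins i a t)) := by
    intro i a ha
    refine bint_eq h1 b S (fun g t => Ψ g (ins i a t)) ?_ ?_
    · intro g hg t ht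
      exact h0 g hg _ (ins_mem i a ha t ht)
    · intro g
      exact ((hc g).of_le (by norm_num)).comp (ins_smooth i a 1).contDiffOn
        (fun t ht => ins_mem i a ha t ht)
  have hS : ∀ v : Fin 5 → G, ∑ i : Fin 5, (-1 : ℝ) ^ (i : ℕ) *
      (cint (fun t => Ψ (v 0) (ins i 1 t)) (fun (j : Fin 4) t => Ψ (v j.succ) (ins i 1 t)) -
        cint (fun t => Ψ (v 0) (ins i 0 t)) (fun (j : Fin 4) t => Ψ (v j.succ) (ins i 0 t))) =
      ∫ t in cube 5, jac (fun j : Fin 5 => Ψ (v j)) t := by
    intro v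
    have h := h2 4 (Ψ (v 0)) (fun j : Fin 4 => Ψ (v j.succ)) ((hc _).of_le (by norm_num))
      (fun j => hc _)
    have h3 : (Fin.cons (Ψ (v 0)) (fun j : Fin 4 => Ψ (v j.succ)) :
        Fin 5 → (Fin 5 → ℝ) → ℝ) = fun j => Ψ (v j) := by
      funext j
      refine Fin.cases ?_ (fun s => ?_) j
      · rfl
      · rfl
    rw [h3] at h
    exact h.symm
  have hL : ∑ i : Fin 5, (-1 : ℝ) ^ (i : ℕ) * (bint b (fun g t => Ψ g (ins i 1 t)) -
      bint b (fun g t => Ψ g (ins i 0 t))) =
      ∑ v ∈ Fintype.piFinset (fun _ : Fin 5 => S), b v *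
        ∫ t in cube 5, jac (fun j : Fin 5 => Ψ (v j)) t := by
    have e1 : ∀ i : Fin 5, (-1 : ℝ) ^ (i : ℕ) * (bint b (fun g t => Ψ g (ins i 1 t)) -
        bint b (fun g t => Ψ g (ins i 0 t))) =
        ∑ v ∈ Fintype.piFinset (fun _ : Fin 5 => S), b v * ((-1 : ℝ) ^ (i : ℕ) *
          (cint (fun t => Ψ (v 0) (ins i 1 t)) (fun (j : Fin 4) t => Ψ (v j.succ) (ins i 1 t)) -
          cint (fun t => Ψ (v 0) (ins i 0 t))
            (fun (j : Fin 4) t => Ψ (v j.succ) (ins i 0 t)))) := by
      intro i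
      rw [hI i 1 ⟨by norm_num, by norm_num⟩, hI i 0 ⟨by norm_num, by norm_num⟩,
        ← Finset.sum_sub_distrib, Finset.mul_sum]
      refine Finset.sum_congr rfl fun v _ => ?_
      ring
    rw [Finset.sum_congr rfl fun i _ => e1 i, Finset.sum_comm]
    refine Finset.sum_congr rfl fun v _ => ?_
    rw [← Finset.mul_sum, hS v]
  rw [hL]
  -- inside the integral
  have hint : ∀ v : Fin 5 → G, IntegrableOn (fun t => jac (fun j : Fin 5 => Ψ (v j)) t)
      (cube 5) := by
    intro v
    have h := h1 5 (fun _ => 1) (fun j : Fin 5 => Ψ (v j)) continuousOn_const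
      (fun j => (hc _).of_le (by norm_num))
    simpa only [one_mul] using h
  have e2 : ∑ v ∈ Fintype.piFinset (fun _ : Fin 5 => S), b v *
        ∫ t in cube 5, jac (fun j : Fin 5 => Ψ (v j)) t =
      ∫ t in cube 5, ∑ v ∈ Fintype.piFinset (fun _ : Fin 5 => S), b v *
        jac (fun j : Fin 5 => Ψ (v j)) t := by
    rw [integral_finsetSum _ fun v _ => (hint v).const_mul (b v)]
    refine Finset.sum_congr rfl fun v _ => ?_
    rw [integral_const_mul]
  rw [e2]
  refine setIntegral_eq_zero_of_forall_eq_zero fun t ht => ?_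
  -- there is an element in S
  have hne : S.Nonempty := by
    by_contra hn
    rw [Finset.not_nonempty_iff_eq_empty] at hn
    have h := hsum t ht
    rw [hn, Finset.sum_empty] at h
    exact zero_ne_one h
  obtain ⟨h, _⟩ := hne
  have hw : ∑ g ∈ S, (fun i : Fin 5 => cd (Ψ g) i t) = 0 := by
    funext i
    rw [Finset.sum_apply]
    unfold cd
    have hd : ∀ g ∈ S, DifferentiableWithinAt ℝ (Ψ g) (cube 5) t := fun g _ =>
      ((hc g).differentiableOn (by norm_num)) t ht
    have hu : UniqueDiffWithinAt ℝ (cube 5) t := uniqueDiff_cube 5 t ht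
    rw [← _root_.sum_apply]
    rw [← fderivWithin_fun_sum hu hd]
    rw [fderivWithin_congr (f := fun _ => (1 : ℝ)) (fun x hx => hsum x hx) (hsum t ht)]
    simp
  exact alg b hb S h (fun g i => cd (Ψ g) i t) hw

end NRF.H

end
end

section

set_option autoImplicit false

/-!
# H7: the integral for affine functions
-/

open scoped Topology
open MeasureTheory Set

noncomputable section

namespace NRF.H

namespace LinH7

theorem finsum_fn {G : Type} {n : ℕ} (S : Finset G) (F : (Fin n → G) → ℝ)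
    (hF : ∀ v, (∃ i, v i ∉ S) → F v = 0) :
    ∑ᶠ v, F v = ∑ u : Fin n → S, F (fun i => (u i : G)) := by
  classical
  rw [finsum_eq_sum_of_support_subset F (s := Fintype.piFinset fun _ => S)]
  · symm
    refine Finset.sum_bij (fun u _ => fun i => (u i : G)) ?_ ?_ ?_ ?_
    · intro u _
      rw [Fintype.mem_piFinset]
      exact fun i => (u i).2
    · intro u _ u' _ h
      funext i
      exact Subtype.ext (congrFun h i)
    · intro v hv
      rw [Fintype.mem_piFinset] at hv
      exact ⟨fun i => ⟨v i, hv i⟩, Finset.mem_univ _, rfl⟩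
    · intro u _
      rfl
  · intro v hv
    rw [Finset.mem_coe, Fintype.mem_piFinset]
    intro i
    by_contra h
    exact hv (hF v ⟨i, h⟩)

section alg

variable {S : Type} [Fintype S]

theorem sum_reindex (F : (Fin 5 → S) → ℝ) (c : Equiv.Perm (Fin 5)) :
    ∑ u : Fin 5 → S, F (fun i => u (c i)) = ∑ u, F u :=
  Equiv.sum_comp (Equiv.arrowCongr c.symm (Equiv.refl S)) F

/-- The first row expansion. -/
theorem first_row {b : (Fin 5 → S) → ℝ} (hb : Altern b) (R : Fin 5 → S → ℝ) :
    ∑ u : Fin 5 → S, b u * Matrix.det (Matrix.of fun r j : Fin 5 => R r (u j)) =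
      5 * ∑ u : Fin 5 → S, b u * (R 0 (u 0) *
        Matrix.det (Matrix.of fun i j : Fin 4 => R i.succ (u j.succ))) := by
  have h1 : ∀ u : Fin 5 → S, b u * Matrix.det (Matrix.of fun r j : Fin 5 => R r (u j)) =
      ∑ j : Fin 5, b (fun i => u (j.cycleRange.symm i)) * (R 0 (u (j.cycleRange.symm 0)) *
        Matrix.det (Matrix.of fun i l : Fin 4 => R i.succ (u (j.cycleRange.symm l.succ)))) := by
    intro u
    rw [Matrix.det_succ_row_zero, Finset.mul_sum]
    apply Finset.sum_congr rfl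
    intro j _
    rw [hb j.cycleRange.symm u, Equiv.Perm.sign_symm, Fin.sign_cycleRange,
      Fin.cycleRange_symm_zero]
    have h2 : (Matrix.of fun r j : Fin 5 => R r (u j)).submatrix Fin.succ j.succAbove =
        Matrix.of fun i l : Fin 4 => R i.succ (u (j.cycleRange.symm l.succ)) := by
      ext i l
      simp only [Matrix.submatrix_apply, Matrix.of_apply, Fin.cycleRange_symm_succ]
    rw [h2]
    simp only [Matrix.of_apply]
    push_cast
    ring
  rw [Finset.sum_congr rfl fun u _ => h1 u, Finset.sum_comm]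
  have h3 : ∀ j : Fin 5, ∑ u : Fin 5 → S, b (fun i => u (j.cycleRange.symm i)) *
      (R 0 (u (j.cycleRange.symm 0)) *
        Matrix.det (Matrix.of fun i l : Fin 4 => R i.succ (u (j.cycleRange.symm l.succ)))) =
      ∑ u : Fin 5 → S, b u * (R 0 (u 0) *
        Matrix.det (Matrix.of fun i j : Fin 4 => R i.succ (u j.succ))) := fun j =>
    sum_reindex (fun u => b u * (R 0 (u 0) *
        Matrix.det (Matrix.of fun i j : Fin 4 => R i.succ (u j.succ)))) j.cycleRange.symm
  rw [Finset.sum_congr rfl fun j _ => h3 j]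
  simp

theorem full_det {b : (Fin 5 → S) → ℝ} (hb : Altern b) (a : S → Fin 5 → ℝ) :
    ∑ u : Fin 5 → S, b u * Matrix.det (Matrix.of fun i j : Fin 5 => a (u j) i) =
      120 * ∑ u : Fin 5 → S, b u * ∏ i, a (u i) i := by
  have h1 : ∀ u : Fin 5 → S, b u * Matrix.det (Matrix.of fun i j : Fin 5 => a (u j) i) =
      ∑ c : Equiv.Perm (Fin 5), b (fun i => u (c.symm i)) * ∏ i, a (u (c.symm i)) i := by
    intro u
    rw [Matrix.det_apply, Finset.mul_sum]
    apply Finset.sum_congr rfl
    intro c _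
    rw [hb c.symm u, Equiv.Perm.sign_symm]
    have h2 : ∏ i, (Matrix.of fun i j : Fin 5 => a (u j) i) (c i) i =
        ∏ i, a (u (c.symm i)) i := by
      rw [← Equiv.prod_comp c (fun i => a (u (c.symm i)) i)]
      apply Finset.prod_congr rfl
      intro i _
      simp only [Matrix.of_apply, Equiv.symm_apply_apply]
    rw [h2, Units.smul_def, zsmul_eq_mul]
    ring
  rw [Finset.sum_congr rfl fun u _ => h1 u, Finset.sum_comm]
  rw [Finset.sum_congr rfl fun c _ => sum_reindex (fun u => b u * ∏ i, a (u i) i) c.symm]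
  rw [Finset.sum_const, Finset.card_univ, Fintype.card_perm, Fintype.card_fin]
  simp only [nsmul_eq_mul]
  norm_num [Nat.factorial]

theorem alg_main {b : (Fin 5 → S) → ℝ} (hb : Altern b) (a : S → Fin 5 → ℝ)
    (Q : Matrix (Fin 5) (Fin 5) ℝ) :
    ∑ u : Fin 5 → S, b u * ((∑ i, Q 0 i * a (u 0) i) *
        Matrix.det (Matrix.of fun k j : Fin 4 => ∑ i, Q k.succ i * a (u j.succ) i)) =
      24 * Q.det * ∑ u : Fin 5 → S, b u * ∏ i, a (u i) i := by
  have h1 := first_row hb (fun r g => ∑ i, Q r i * a g i)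
  have h2 : ∀ u : Fin 5 → S, Matrix.det (Matrix.of fun r j : Fin 5 => ∑ i, Q r i * a (u j) i) =
      Q.det * Matrix.det (Matrix.of fun i j : Fin 5 => a (u j) i) := by
    intro u
    rw [← Matrix.det_mul]
    rfl
  have h3 : ∑ u : Fin 5 → S,
      b u * Matrix.det (Matrix.of fun r j : Fin 5 => ∑ i, Q r i * a (u j) i) =
      Q.det * (120 * ∑ u : Fin 5 → S, b u * ∏ i, a (u i) i) := by
    rw [← full_det hb a, Finset.mul_sum]
    apply Finset.sum_congr rfl
    intro u _
    rw [h2]
    ring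
  rw [h3] at h1
  linarith

end alg

/-- The coordinates of the standard map. -/
theorem qR4 (t : Fin 4 → ℝ) : qR 4 t = ![1 - t 0, t 0 * (1 - t 1), t 0 * (t 1 * (1 - t 2)),
    t 0 * (t 1 * (t 2 * (1 - t 3))), t 0 * (t 1 * (t 2 * t 3))] := by
  funext i
  fin_cases i
  · rfl
  · rfl
  · rfl
  · rfl
  · change t 0 * (t 1 * (t 2 * (t 3 * 1))) = t 0 * (t 1 * (t 2 * t 3))
    rw [mul_one]

/-- The matrix of the coordinates and their partial derivatives. -/
def QM (t : Fin 4 → ℝ) : Matrix (Fin 5) (Fin 5) ℝ :=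
  !![1 - t 0, t 0 * (1 - t 1), t 0 * (t 1 * (1 - t 2)), t 0 * (t 1 * (t 2 * (1 - t 3))),
      t 0 * (t 1 * (t 2 * t 3));
    -1, 1 - t 1, t 1 * (1 - t 2), t 1 * (t 2 * (1 - t 3)), t 1 * (t 2 * t 3);
    0, - t 0, t 0 * (1 - t 2), t 0 * (t 2 * (1 - t 3)), t 0 * (t 2 * t 3);
    0, 0, - (t 0 * t 1), t 0 * (t 1 * (1 - t 3)), t 0 * (t 1 * t 3);
    0, 0, 0, - (t 0 * (t 1 * t 2)), t 0 * (t 1 * t 2)]

theorem QM_zero (t : Fin 4 → ℝ) (i : Fin 5) : QM t 0 i = qR 4 t i := by
  rw [qR4]
  fin_cases i <;> rfl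

theorem QM_det (t : Fin 4 → ℝ) : (QM t).det = t 0 ^ 3 * t 1 ^ 2 * t 2 := by
  simp [QM, Matrix.det_succ_row_zero, Fin.sum_univ_succ, Fin.succAbove]
  ring

/-- The coordinate projections. -/
abbrev pj (k : Fin 4) : (Fin 4 → ℝ) →L[ℝ] ℝ := ContinuousLinearMap.proj k

theorem hasF (t : Fin 4 → ℝ) (i : Fin 5) :
    HasFDerivAt (fun t : Fin 4 → ℝ => qR 4 t i)
      (QM t 1 i • pj 0 + QM t 2 i • pj 1 + QM t 3 i • pj 2 + QM t 4 i • pj 3) t := by
  have h0 : HasFDerivAt (fun t : Fin 4 → ℝ => t 0) (pj 0) t := hasFDerivAt_apply 0 t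
  have h1 : HasFDerivAt (fun t : Fin 4 → ℝ => t 1) (pj 1) t := hasFDerivAt_apply 1 t
  have h2 : HasFDerivAt (fun t : Fin 4 → ℝ => t 2) (pj 2) t := hasFDerivAt_apply 2 t
  have h3 : HasFDerivAt (fun t : Fin 4 → ℝ => t 3) (pj 3) t := hasFDerivAt_apply 3 t
  simp only [qR4]
  fin_cases i
  · refine (h0.const_sub 1).congr_fderiv ?_
    ext v
    simp [QM]
  · refine (h0.mul (h1.const_sub 1)).congr_fderiv ?_
    ext v
    simp [QM]
    ring
  · refine (h0.mul (h1.mul (h2.const_sub 1))).congr_fderiv ?_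
    ext v
    simp [QM]
    ring
  · refine (h0.mul (h1.mul (h2.mul (h3.const_sub 1)))).congr_fderiv ?_
    ext v
    simp [QM]
    ring
  · refine (h0.mul (h1.mul (h2.mul h3))).congr_fderiv ?_
    ext v
    simp [QM]
    ring

theorem udc : UniqueDiffOn ℝ (cube 4) := by
  have h : cube 4 = Set.pi univ fun _ : Fin 4 => Icc (0 : ℝ) 1 := by
    rw [Set.pi_univ_Icc]
    rfl
  rw [h]
  exact UniqueDiffOn.univ_pi fun _ => uniqueDiffOn_Icc zero_lt_one

theorem clamp_eq (t : Fin 4 → ℝ) (ht : t ∈ cube 4) : clamp t = t := by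
  funext i
  have h0 : 0 ≤ t i := ht.1 i
  have h1 : t i ≤ 1 := ht.2 i
  change max 0 (min 1 (t i)) = t i
  rw [min_eq_right h1, max_eq_right h0]

theorem qS_eq (t : Fin 4 → ℝ) (ht : t ∈ cube 4) (i : Fin 5) : (qS 4 t) i = qR 4 t i := by
  change qR 4 (clamp t) i = qR 4 t i
  rw [clamp_eq t ht]

theorem cd_eq (t : Fin 4 → ℝ) (ht : t ∈ cube 4) (α : Fin 5 → ℝ) (k : Fin 4) :
    cd (fun t => ∑ i, (qS 4 t) i * α i) k t = ∑ i, QM t k.succ i * α i := by
  unfold cd
  have h1 : fderivWithin ℝ (fun t => ∑ i, (qS 4 t) i * α i) (cube 4) t =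
      fderivWithin ℝ (fun t => ∑ i, qR 4 t i * α i) (cube 4) t := by
    apply fderivWithin_congr
    · intro s hs
      exact Finset.sum_congr rfl fun i _ => by rw [qS_eq s hs]
    · exact Finset.sum_congr rfl fun i _ => by rw [qS_eq t ht]
  have h2 : HasFDerivAt (fun t => ∑ i, qR 4 t i * α i)
      (∑ i, α i • (QM t 1 i • pj 0 + QM t 2 i • pj 1 + QM t 3 i • pj 2 + QM t 4 i • pj 3)) t :=
    HasFDerivAt.fun_sum fun i _ => (hasF t i).mul_const (α i)
  rw [h1, h2.hasFDerivWithinAt.fderivWithin (udc t ht), _root_.sum_apply]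
  apply Finset.sum_congr rfl
  intro i _
  fin_cases k <;> simp [mul_comm]

theorem bform_eq {G : Type} (b : (Fin 5 → G) → ℝ) (S : Finset G) (a : G → Fin 5 → ℝ)
    (hb : Altern b) (ha : ∀ g, g ∉ S → a g = 0) (t : Fin 4 → ℝ) (ht : t ∈ cube 4) :
    bform b (fun g t => ∑ i, (qS 4 t) i * a g i) t =
      (24 * (t 0 ^ 3 * t 1 ^ 2 * t 2)) * bW b a := by
  have h1 : bform b (fun g t => ∑ i, (qS 4 t) i * a g i) t =
      ∑ᶠ v : Fin 5 → G, b v * ((∑ i, QM t 0 i * a (v 0) i) *
        Matrix.det (Matrix.of fun k j : Fin 4 => ∑ i, QM t k.succ i * a (v j.succ) i)) := by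
    unfold bform
    apply finsum_congr
    intro v
    congr 2
    · exact Finset.sum_congr rfl fun i _ => by rw [qS_eq t ht, QM_zero]
    · unfold jac
      congr 1
      ext k j
      simp only [Matrix.of_apply]
      exact cd_eq t ht _ k
  have hz : ∀ (g : G) (Q : Fin 5 → ℝ), g ∉ S → ∑ i, Q i * a g i = 0 := by
    intro g Q hg
    rw [ha g hg]
    simp
  rw [h1, finsum_fn S]
  · have hb' : Altern (fun u : Fin 5 → S => b fun i => (u i : G)) := by
      intro s u
      exact hb s fun i => (u i : G)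
    have h2 := alg_main hb' (fun g : S => a (g : G)) (QM t)
    refine h2.trans ?_
    rw [QM_det]
    congr 1
    unfold bW
    rw [finsum_fn S]
    rintro v ⟨i, hi⟩
    rw [Finset.prod_eq_zero (Finset.mem_univ i), mul_zero]
    rw [ha _ hi]
    rfl
  · rintro v ⟨i, hi⟩
    refine Fin.cases (fun hi => ?_) (fun j hi => ?_) i hi
    · rw [hz _ _ hi, zero_mul, mul_zero]
    · have h3 : Matrix.det (Matrix.of fun k j : Fin 4 =>
          ∑ i, QM t k.succ i * a (v j.succ) i) = 0 := by
        apply Matrix.det_eq_zero_of_column_eq_zero j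
        intro k
        exact hz _ _ hi
      rw [h3, mul_zero, mul_zero]

theorem int_eq : ∫ t in cube 4, 24 * (t 0 ^ 3 * t 1 ^ 2 * t 2) = 1 := by
  have h : cube 4 = Set.pi univ fun _ : Fin 4 => Icc (0 : ℝ) 1 := by
    rw [Set.pi_univ_Icc]
    rfl
  have h1 : ∀ t : Fin 4 → ℝ, 24 * (t 0 ^ 3 * t 1 ^ 2 * t 2) =
      24 * ∏ i, (fun (i : Fin 4) (x : ℝ) => x ^ (3 - (i : ℕ))) i (t i) := by
    intro t
    rw [Fin.prod_univ_four]
    have f0 : ((0 : Fin 4) : ℕ) = 0 := rfl
    have f1 : ((1 : Fin 4) : ℕ) = 1 := rfl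
    have f2 : ((2 : Fin 4) : ℕ) = 2 := rfl
    have f3 : ((3 : Fin 4) : ℕ) = 3 := rfl
    simp only [f0, f1, f2, f3]
    ring
  have h3 := integral_fintype_prod_eq_prod (𝕜 := ℝ)
    (fun (i : Fin 4) (x : ℝ) => x ^ (3 - (i : ℕ))) (μ := fun _ => volume.restrict (Icc (0 : ℝ) 1))
  rw [integral_congr_ae (Filter.Eventually.of_forall h1), integral_const_mul, h, volume_pi,
    Measure.restrict_pi_pi]
  refine (congrArg (fun r => 24 * r) h3).trans ?_
  have h2 : ∀ n : ℕ, ∫ x in Icc (0 : ℝ) 1, x ^ n = 1 / (n + 1) := by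
    intro n
    rw [integral_Icc_eq_integral_Ioc, ← intervalIntegral.integral_of_le zero_le_one, integral_pow]
    simp
  rw [Fin.prod_univ_four, h2, h2, h2, h2]
  have f0 : ((0 : Fin 4) : ℕ) = 0 := rfl
  have f1 : ((1 : Fin 4) : ℕ) = 1 := rfl
  have f2 : ((2 : Fin 4) : ℕ) = 2 := rfl
  have f3 : ((3 : Fin 4) : ℕ) = 3 := rfl
  rw [f0, f1, f2, f3]
  norm_num

end LinH7

open LinH7 in
theorem claimBLin_proof : claimBLin := by
  intro G b S a hb ha
  unfold bint
  have h1 : ∫ t in cube 4, bform b (fun g t => ∑ i, (qS 4 t) i * a g i) t =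
      ∫ t in cube 4, (24 * (t 0 ^ 3 * t 1 ^ 2 * t 2)) * bW b a := by
    apply setIntegral_congr_fun measurableSet_Icc
    intro t ht
    exact bform_eq b S a hb ha t ht
  rw [h1, integral_mul_const, int_eq, one_mul]

end NRF.H

end
end

section

/-!
# H8: comparison of the integral of the form with the evaluation at the vertices
-/

open scoped Manifold ContDiff Topology
open MeasureTheory Set

noncomputable section

namespace NRF.H

theorem h8_cd_congr {k : ℕ} {f f' : (Fin k → ℝ) → ℝ} (h : ∀ t ∈ cube k, f t = f' t)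
    (i : Fin k) {t : Fin k → ℝ} (ht : t ∈ cube k) : cd f i t = cd f' i t := by
  unfold cd
  rw [fderivWithin_congr h (h t ht)]

theorem h8_jac_congr {k : ℕ} {f f' : Fin k → (Fin k → ℝ) → ℝ}
    (h : ∀ j, ∀ t ∈ cube k, f j t = f' j t) {t : Fin k → ℝ} (ht : t ∈ cube k) :
    jac f t = jac f' t := by
  unfold jac
  congr 1
  ext i j
  exact h8_cd_congr (h j) i ht

theorem h8_bform_congr {G : Type} (b : (Fin 5 → G) → ℝ) {Ψ Ψ' : G → (Fin 4 → ℝ) → ℝ}
    (h : ∀ g, ∀ t ∈ cube 4, Ψ g t = Ψ' g t) {t : Fin 4 → ℝ} (ht : t ∈ cube 4) :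
    bform b Ψ t = bform b Ψ' t := by
  unfold bform
  refine finsum_congr fun v => ?_
  rw [h _ t ht, h8_jac_congr (fun j => h (v j.succ)) ht]

theorem h8_bint_congr {G : Type} (b : (Fin 5 → G) → ℝ) {Ψ Ψ' : G → (Fin 4 → ℝ) → ℝ}
    (h : ∀ g, ∀ t ∈ cube 4, Ψ g t = Ψ' g t) : bint b Ψ = bint b Ψ' := by
  unfold bint
  exact setIntegral_congr_fun measurableSet_Icc fun t ht => h8_bform_congr b h ht

/-- A function which does not depend on the coordinate `i` has vanishing i-th derivative. -/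
theorem h8_cd_zero {k : ℕ} {f : (Fin k → ℝ) → ℝ} (i : Fin k)
    (h : ∀ t ∈ cube k, ∀ a ∈ Icc (0 : ℝ) 1, f (Function.update t i a) = f t)
    {t : Fin k → ℝ} (ht : t ∈ cube k) : cd f i t = 0 := by
  unfold cd
  by_cases hd : DifferentiableWithinAt ℝ f (cube k) t
  · have h1 := hd.hasFDerivWithinAt
    have hti : t i ∈ Icc (0 : ℝ) 1 := ⟨ht.1 i, ht.2 i⟩
    have hc : HasDerivWithinAt (Function.update t i) (Pi.single i (1 : ℝ)) (Icc (0 : ℝ) 1) (t i) :=
      (hasDerivAt_update t i (t i)).hasDerivWithinAt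
    have hm : MapsTo (Function.update t i) (Icc (0 : ℝ) 1) (cube k) := by
      intro a ha
      refine ⟨fun j => ?_, fun j => ?_⟩
      · by_cases hj : j = i
        · subst hj; simpa using ha.1
        · simpa [Function.update_of_ne hj] using ht.1 j
      · by_cases hj : j = i
        · subst hj; simpa using ha.2
        · simpa [Function.update_of_ne hj] using ht.2 j
    have he : Function.update t i (t i) = t := Function.update_eq_self i t
    have h2 : HasDerivWithinAt (f ∘ Function.update t i)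
        (fderivWithin ℝ f (cube k) t (Pi.single i 1)) (Icc (0 : ℝ) 1) (t i) := by
      refine HasFDerivWithinAt.comp_hasDerivWithinAt (t i) ?_ hc hm
      rw [he]
      exact h1
    have h3 : HasDerivWithinAt (f ∘ Function.update t i) 0 (Icc (0 : ℝ) 1) (t i) := by
      refine (hasDerivWithinAt_const (t i) (Icc (0 : ℝ) 1) (f t)).congr (fun a ha => ?_) ?_
      · exact h t ht a ha
      · show f (Function.update t i (t i)) = f t
        rw [he]
    exact (uniqueDiffOn_Icc (by norm_num : (0 : ℝ) < 1) (t i) hti).eq_deriv _ h2 h3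
  · rw [fderivWithin_zero_of_not_differentiableWithinAt hd]
    rfl

theorem h8_jac_zero {k : ℕ} {f : Fin k → (Fin k → ℝ) → ℝ} (i : Fin k)
    (h : ∀ j, ∀ t ∈ cube k, ∀ a ∈ Icc (0 : ℝ) 1, f j (Function.update t i a) = f j t)
    {t : Fin k → ℝ} (ht : t ∈ cube k) : jac f t = 0 := by
  unfold jac
  refine Matrix.det_eq_zero_of_row_eq_zero i fun j => ?_
  exact h8_cd_zero i (h j) ht

theorem h8_bint_zero {G : Type} (b : (Fin 5 → G) → ℝ) {Ψ : G → (Fin 4 → ℝ) → ℝ} (i : Fin 4)
    (h : ∀ g, ∀ t ∈ cube 4, ∀ a ∈ Icc (0 : ℝ) 1, Ψ g (Function.update t i a) = Ψ g t) :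
    bint b Ψ = 0 := by
  unfold bint
  rw [setIntegral_congr_fun (g := fun _ => (0 : ℝ)) measurableSet_Icc]
  · simp
  · intro t ht
    show bform b Ψ t = 0
    unfold bform
    refine finsum_eq_zero_of_forall_eq_zero fun v => ?_
    rw [h8_jac_zero i (fun j => h (v j.succ)) ht]
    ring

/-- Coordinates of the face inclusion. -/
theorem h8_face_sum {k : ℕ} (i : Fin (k + 2)) (x : stdSimplex ℝ (Fin (k + 1)))
    (w : Fin (k + 2) → ℝ) :
    ∑ l, (faceIncl k i x) l * w l = ∑ l, x l * w (i.succAbove l) := by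
  rw [Fin.sum_univ_succAbove _ i]
  have h0 : (faceIncl k i x) i = 0 := by
    show (stdSimplex.map i.succAbove x) i = 0
    rw [stdSimplex.map_coe, FunOnFinite.linearMap_apply_apply]
    refine Finset.sum_eq_zero fun j hj => ?_
    simp [Fin.succAbove_ne] at hj
  have h1 : ∀ l, (faceIncl k i x) (i.succAbove l) = x l := by
    intro l
    show (stdSimplex.map i.succAbove x) (i.succAbove l) = x l
    rw [stdSimplex.map_coe, FunOnFinite.linearMap_apply_apply]
    rw [Finset.sum_eq_single l]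
    · intro j hj hne
      simp [Fin.succAbove_right_injective.eq_iff] at hj
      exact absurd hj hne
    · intro hl
      simp at hl
  rw [h0, zero_mul, zero_add]
  exact Finset.sum_congr rfl fun l _ => by rw [h1 l]

theorem h8_face_vertex {k : ℕ} (i : Fin (k + 2)) (l : Fin (k + 1)) :
    faceIncl k i (stdSimplex.vertex l) = stdSimplex.vertex (i.succAbove l) := by
  show stdSimplex.map i.succAbove (stdSimplex.vertex l) = _
  rw [stdSimplex.map_vertex]

/-- The interpolation between a function on the simplex and its affine approximation. -/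
def h8Psi (w : stdSimplex ℝ (Fin 5) → ℝ) (T : Fin 5 → ℝ) : ℝ :=
  (1 - T 0) * w (qS 4 (Fin.tail T)) + T 0 * ∑ i, (qS 4 (Fin.tail T)) i * w (stdSimplex.vertex i)

theorem h8_tail_mem {k : ℕ} {T : Fin (k + 1) → ℝ} (hT : T ∈ cube (k + 1)) :
    Fin.tail T ∈ cube k :=
  ⟨fun i => hT.1 i.succ, fun i => hT.2 i.succ⟩

theorem h8_ins_zero (a : ℝ) (t : Fin 4 → ℝ) : ins 0 a t = Fin.cons a t := by
  unfold ins
  rw [Fin.insertNth_zero]
  rfl

theorem h8_ins_succ {k : ℕ} (j : Fin (k + 1)) (a : ℝ) (t : Fin (k + 1) → ℝ) :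
    ins j.succ a t = Fin.cons (t 0) (ins j a (Fin.tail t)) := by
  unfold ins
  conv_lhs => rw [← Fin.cons_self_tail t]
  exact Fin.insertNth_succ_cons j a (t 0) (Fin.tail t)

theorem h8_Psi_cons (w : stdSimplex ℝ (Fin 5) → ℝ) (a : ℝ) (t : Fin 4 → ℝ) :
    h8Psi w (Fin.cons a t) =
      (1 - a) * w (qS 4 t) + a * ∑ i, (qS 4 t) i * w (stdSimplex.vertex i) := by
  unfold h8Psi
  simp only [Fin.cons_zero, Fin.tail_cons]

theorem claimPrismB_proof (h3 : claimQS) (h6 : claimBStokes) (h7 : claimBLin) : claimPrismB := by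
  obtain ⟨q1, q2, q3, q4, q5, q6, q7⟩ := h3
  intro G b S ψ hb hA hreg hS hsum
  -- the value on a face
  have hface : ∀ (i : Fin 5) (g : G) (x : stdSimplex ℝ (Fin 4)) (u : ℝ),
      (1 - u) * ψ g (faceIncl 3 i x) +
        u * ∑ l, (faceIncl 3 i x) l * ψ g (stdSimplex.vertex l) =
      (1 - u) * ψ g (faceIncl 3 i x) +
        u * ∑ l, x l * ψ g (faceIncl 3 i (stdSimplex.vertex l)) := by
    intro i g x u
    rw [h8_face_sum i x (fun l => ψ g (stdSimplex.vertex l))]
    simp only [h8_face_vertex]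
  have hst := h6 G b S (fun g => h8Psi (ψ g)) hb ?_ ?_ ?_
  rotate_left
  · -- regularity
    intro g
    have ht : ContDiff ℝ 2 (fun T : Fin 5 → ℝ => (Fin.tail T : Fin 4 → ℝ)) :=
      contDiff_pi.2 fun i => contDiff_apply ℝ ℝ i.succ
    have hm : MapsTo (fun T : Fin 5 → ℝ => (Fin.tail T : Fin 4 → ℝ)) (cube 5) (cube 4) :=
      fun T hT => h8_tail_mem hT
    have h0 : ContDiffOn ℝ 2 (fun T : Fin 5 → ℝ => T 0) (cube 5) :=
      (contDiff_apply ℝ ℝ (0 : Fin 5)).contDiffOn
    have h1 : ContDiffOn ℝ 2 (fun T : Fin 5 → ℝ => ψ g (qS 4 (Fin.tail T))) (cube 5) :=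
      (hreg g).comp ht.contDiffOn hm
    have h2 : ContDiffOn ℝ 2 (fun T : Fin 5 → ℝ =>
        ∑ i, (qS 4 (Fin.tail T)) i * ψ g (stdSimplex.vertex i)) (cube 5) := by
      refine ContDiffOn.sum fun i _ => ContDiffOn.mul ?_ contDiffOn_const
      refine ContDiffOn.congr (f := fun T : Fin 5 → ℝ => qR 4 (Fin.tail T) i) ?_ ?_
      · have h5 : ContDiff ℝ 2 (fun t : Fin 4 → ℝ => qR 4 t i) := by
          exact_mod_cast contDiff_infty.1 (q1 4 i) 2
        exact (h5.comp ht).contDiffOn
      · intro T hT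
        exact q2 4 _ (h8_tail_mem hT) i
    exact ((contDiffOn_const.sub h0).mul h1).add (h0.mul h2)
  · intro g hg T hT
    show h8Psi (ψ g) T = 0
    unfold h8Psi
    simp [hS g hg]
  · intro T hT
    show ∑ g ∈ S, h8Psi (ψ g) T = 1
    unfold h8Psi
    rw [Finset.sum_add_distrib, ← Finset.mul_sum, ← Finset.mul_sum, hsum, Finset.sum_comm]
    simp only [← Finset.mul_sum, hsum]
    have : ∑ i, (qS 4 (Fin.tail T)) i = 1 := (qS 4 (Fin.tail T)).2.2
    simp only [mul_one]
    rw [this]
    ring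
  -- the faces
  have f01 : bint b (fun g t => h8Psi (ψ g) (ins 0 1 t)) =
      bW b (fun g i => ψ g (stdSimplex.vertex i)) := by
    rw [← h7 G b S (fun g i => ψ g (stdSimplex.vertex i)) hA
      (fun g hg => funext fun i => hS g hg _)]
    refine h8_bint_congr b fun g t _ => ?_
    rw [h8_ins_zero, h8_Psi_cons]
    ring
  have f00 : bint b (fun g t => h8Psi (ψ g) (ins 0 0 t)) = bint b (fun g t => ψ g (qS 4 t)) := by
    refine h8_bint_congr b fun g t _ => ?_
    rw [h8_ins_zero, h8_Psi_cons]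
    ring
  have fj1 : ∀ j : Fin 4, bint b (fun g t => h8Psi (ψ g) (ins j.succ 1 t)) =
      bJ b (fun g x => ψ g (faceIncl 3 j.castSucc x)) := by
    intro j
    unfold bJ
    refine h8_bint_congr b fun g t ht => ?_
    rw [h8_ins_succ, h8_Psi_cons, q5 3 _ (h8_tail_mem ht) j, hface]
    rfl
  have fl0 : bint b (fun g t => h8Psi (ψ g) (ins (Fin.last 3).succ 0 t)) =
      bJ b (fun g x => ψ g (faceIncl 3 (Fin.last 4) x)) := by
    unfold bJ
    refine h8_bint_congr b fun g t ht => ?_
    rw [h8_ins_succ, h8_Psi_cons, q6 3 _ (h8_tail_mem ht), hface]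
    rfl
  have fj0 : ∀ j : Fin 4, j ≠ Fin.last 3 →
      bint b (fun g t => h8Psi (ψ g) (ins j.succ 0 t)) = 0 := by
    intro j hj
    refine h8_bint_zero b (Fin.last 3) fun g t ht a ha => ?_
    have e1 : Fin.tail (Function.update t (Fin.last 3) a) =
        Function.update (Fin.tail t) (Fin.last 2) a := by
      rw [show (Fin.last 3 : Fin 4) = (Fin.last 2).succ from rfl]
      exact Fin.tail_update_succ t (Fin.last 2) a
    have e2 : (Function.update t (Fin.last 3) a) 0 = t 0 :=
      Function.update_of_ne (by decide) _ _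
    rw [h8_ins_succ, h8_ins_succ, h8_Psi_cons, h8_Psi_cons, e1, e2,
      q7 2 _ (h8_tail_mem ht) a ha j hj]
  rw [Fin.sum_univ_succ] at hst
  simp only [Fin.sum_univ_four] at hst
  simp only [Fin.sum_univ_five]
  have e0 := fj1 0
  have e1 := fj1 1
  have e2 := fj1 2
  have e3 := fj1 3
  have z0 := fj0 0 (by decide)
  have z1 := fj0 1 (by decide)
  have z2 := fj0 2 (by decide)
  have z3 := fl0
  rw [show (Fin.last 3 : Fin 4) = 3 from rfl] at z3
  rw [f01, f00, e0, e1, e2, e3, z0, z1, z2, z3] at hst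
  rw [show ((0 : Fin 4).castSucc : Fin 5) = 0 from rfl, show ((1 : Fin 4).castSucc : Fin 5) = 1 from rfl,
    show ((2 : Fin 4).castSucc : Fin 5) = 2 from rfl, show ((3 : Fin 4).castSucc : Fin 5) = 3 from rfl,
    show (Fin.last 4 : Fin 5) = 4 from rfl] at hst
  norm_num [Fin.val_succ] at hst ⊢
  linarith [hst]

end NRF.H

end
end

section

/-!
# Item H9: invariance of the cochains of a group cocycle
-/

open scoped Manifold ContDiff Topology
open MeasureTheory Set

set_option autoImplicit false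

noncomputable section

namespace NRF.H

/-- Left translation of the vertices. -/
def H9_equiv {G : Type} [Group G] (a : G) : (Fin 5 → G) ≃ (Fin 5 → G) where
  toFun v := fun i => a * v i
  invFun v := fun i => a⁻¹ * v i
  left_inv v := by funext i; simp
  right_inv v := by funext i; simp

theorem H9_bform {G : Type} [Group G] (b : (Fin 5 → G) → ℝ)
    (hb : ∀ (g : G) v, b (fun i => g * v i) = b v) (a : G) (Ψ : G → (Fin 4 → ℝ) → ℝ)
    (t : Fin 4 → ℝ) : bform b (fun g => Ψ (a * g)) t = bform b Ψ t := by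
  have h := finsum_comp_equiv (H9_equiv a)
    (f := fun v : Fin 5 → G => b v * (Ψ (v 0) t * jac (fun j : Fin 4 => Ψ (v j.succ)) t))
  unfold bform
  rw [← h]
  refine finsum_congr fun v => ?_
  have h1 : b (H9_equiv a v) = b v := hb a v
  rw [h1]
  rfl

theorem claimBInv_proof : claimBInv := by
  intro G _ b hb
  have h1 := H9_bform b hb
  have h2 : ∀ (a : G) (Ψ : G → (Fin 4 → ℝ) → ℝ), bint b (fun g => Ψ (a * g)) = bint b Ψ := by
    intro a Ψ
    unfold bint
    simp only [h1]
  refine ⟨h1, h2, ?_, ?_⟩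
  · intro a ψ
    exact h2 a (fun g => prT fun x u => (1 - u) * ψ g x + u * ∑ i, x i * ψ g (stdSimplex.vertex i))
  · intro a A
    have h := finsum_comp_equiv (H9_equiv a)
      (f := fun v : Fin 5 → G => b v * ∏ i, A (v i) i)
    unfold bW
    rw [← h]
    refine finsum_congr fun v => ?_
    have h3 : b (H9_equiv a v) = b v := hb a v
    rw [h3]
    rfl

end NRF.H

end
end
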