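import Pool.Agent.Work.MP_7f974f_gt.Bd.B04
import Pool.Agent.Work.MP_7f974f_gt.Bd.B05
import Pool.Agent.Work.MP_7f974f_gt.Stmts_D2
import Pool.Agent.Work.MP_7f974f_gt.Bd.B01
import Pool.Agent.Work.MP_7f974f_gt.Stmts_A

/-! Bundle of small proof modules (one section per former module). -/

section

/-!
# K2' with the coefficients of the expansion on the diagonal
-/

open scoped Manifold ContDiff Topology RealInnerProductSpace
open MeasureTheory Set Filter

noncomputable section

namespace NRF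

/-- K2' with the coefficients. -/
theorem claimPole0P_proof (h2 : claimPoleP) (h9 : claimDuhamel) (h1 : claimSemigroup) :
    claimPole0P := by
  intro X _ _ _ _ _ V _ _ _ D k T0 hk hT0
  obtain ⟨h, e, C, b1, b2, b3, b4, b5, b6, b7, b8, b9, c, P, hP, he⟩ := h2 X V D k T0 hT0
  obtain ⟨h', C', a1, a2, a3, a4, a5, a6, c', ⟨P', hP'⟩, he'⟩ :=
    K2p_gen h9 h1 X V D k T0 hk hT0 (fun c => ∃ P, D.IsDiag c P)
      ⟨h, e, C, b1, b2, b3, b4, b5, b6, b7, b8, b9, c, ⟨P, hP⟩, he⟩
  exact ⟨h', C', a1, a2, a3, a4, a5, a6, c', P', hP', he'⟩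

end NRF

end
end

section

/-!
# K3: pairing of approximate solutions with the heat semigroup
-/

open scoped Manifold ContDiff Topology RealInnerProductSpace
open MeasureTheory Set Filter

noncomputable section

namespace NRF

section

variable {X : Type} [TopologicalSpace X] {V : Type}
  [NormedAddCommGroup V] [InnerProductSpace ℝ V] [FiniteDimensional ℝ V]

/-- `C²` bound for a nice function. -/
theorem Geom.Nice.L_bound {g : Geom X V} {B : ℝ}
    (hB : ∀ t ∈ Icc (0:ℝ) 0, ∀ (C : ℝ) (f : X → V), g.C2 f →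
      (∀ i, ∀ j ≤ 2, ∀ x, ‖iteratedFDeriv ℝ j (fun x => etaC x • f ((g.psi i).symm x)) x‖ ≤ C) →
      ∀ y, ‖g.L t f y‖ ≤ B * C) {T C : ℝ} {u : ℝ → X → V} (h : g.Nice 2 T C u) {t : ℝ}
    (ht : t ∈ Icc 0 T) (y : X) : ‖g.L 0 (u t) y‖ ≤ B * C :=
  hB 0 ⟨le_rfl, le_rfl⟩ C (u t) (h.c2 ht) (fun i j hj x => (h i).2.2 j hj t ht x) y

/-- A derivative in time of continuous functions is strongly measurable. -/
theorem measurable_of_hasDeriv [MeasurableSpace X] [OpensMeasurableSpace X] {u : ℝ → X → ℝ} {d : X → ℝ} {t δ : ℝ}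
    (hδ : 0 < δ) (hu : ∀ s ∈ Ioo (t - δ) (t + δ), Continuous (u s))
    (hd : ∀ y, HasDerivAt (fun s => u s y) (d y) t) : Measurable d := by
  have hcont : ∀ᶠ n : ℕ in atTop, ((n : ℝ) + 1)⁻¹ < δ := by
    have : Tendsto (fun n : ℕ => ((n : ℝ) + 1)⁻¹) atTop (𝓝 0) := by
      have := tendsto_one_div_add_atTop_nhds_zero_nat (𝕜 := ℝ)
      simpa [one_div] using this
    exact this.eventually_lt_const hδ
  obtain ⟨N, hN⟩ := hcont.exists_forall_of_atTop
  let F : ℕ → X → ℝ := fun n y => ((((n + N : ℕ) : ℝ) + 1)⁻¹)⁻¹ •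
    (u (t + (((n + N : ℕ) : ℝ) + 1)⁻¹) y - u t y)
  have hF : ∀ n, Measurable (F n) := by
    intro n
    have h1 := hN (n + N) (Nat.le_add_left _ _)
    have h0 : 0 < (((n + N : ℕ) : ℝ) + 1)⁻¹ := by positivity
    refine Continuous.measurable ?_
    have ha : t + (((n + N : ℕ) : ℝ) + 1)⁻¹ ∈ Ioo (t - δ) (t + δ) := ⟨by linarith, by linarith⟩
    have hb : t ∈ Ioo (t - δ) (t + δ) := ⟨by linarith, by linarith⟩
    exact continuous_const.mul ((hu _ ha).sub (hu _ hb))
  refine measurable_of_tendsto_metrizable hF ?_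
  rw [tendsto_pi_nhds]
  intro y
  have h1 := (hd y).tendsto_slope_zero
  have h2 : Tendsto (fun n : ℕ => (((n + N : ℕ) : ℝ) + 1)⁻¹) atTop (𝓝[≠] 0) := by
    refine tendsto_nhdsWithin_iff.mpr ⟨?_, Eventually.of_forall fun n => ?_⟩
    · have h3 := tendsto_one_div_add_atTop_nhds_zero_nat (𝕜 := ℝ)
      have h4 := (tendsto_add_atTop_iff_nat N).mpr h3
      simpa [one_div] using h4
    · have : (0 : ℝ) < (((n + N : ℕ) : ℝ) + 1)⁻¹ := by positivity
      exact this.ne'
  exact h1.comp h2

end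

theorem claimPairing_proof : claimPairing := by
  intro X _ _ _ _ _ V _ _ _ D T hT T0 y0 v h e hT0 hA f hf t ht
  have : IsFiniteMeasure D.mu := D.fin
  obtain ⟨B, hB0, hB⟩ := D.g.L_bound 0
  obtain ⟨Cf, hCf⟩ := hT.nice f hf 2 T0 hT0
  obtain ⟨E, hE⟩ := hA.bound
  obtain ⟨C1, hC1⟩ := hA.l1
  have ht0 : 0 < t := ht.1
  have htT : t ≤ T0 := ht.2
  have hTsub : ∀ s ∈ Ioc 0 t, t - s ∈ Icc 0 T0 := fun s hs => ⟨by linarith [hs.2], by linarith [hs.1]⟩
  -- continuity and bounds of the functions involved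
  have hcT : ∀ s ∈ Icc 0 T0, Continuous (T s f) := fun s hs => hCf.cont hs
  have hbT : ∀ s ∈ Icc 0 T0, ∀ y, ‖T s f y‖ ≤ Cf := fun s hs y => hCf.bound hs y
  have hbLT : ∀ s ∈ Icc 0 T0, ∀ y, ‖D.g.L 0 (T s f) y‖ ≤ B * Cf := fun s hs y =>
    hCf.L_bound hB hs y
  have hce : ∀ s ∈ Ioc 0 T0, Continuous (e s) := by
    intro s hs
    have h2 : ContinuousOn (fun y : X => e s y) univ :=
      hA.cont.comp (f := fun y : X => (s, y)) (by fun_prop) (fun y _ => ⟨hs, mem_univ _⟩)
    exact continuousOn_univ.mp h2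
  have hch : ∀ s ∈ Ioc 0 T0, Continuous (h s) := by
    intro s hs
    obtain ⟨C, hC⟩ := hA.nice (s / 2) (by linarith [hs.1]) (by linarith [hs.1, hs.2])
    have := hC.cont (t := s / 2) ⟨by linarith [hs.1], by linarith [hs.2]⟩
    simpa using this
  have hc2h : ∀ s ∈ Ioc 0 T0, D.g.C2 (h s) := by
    intro s hs
    obtain ⟨C, hC⟩ := hA.nice (s / 2) (by linarith [hs.1]) (by linarith [hs.1, hs.2])
    have := hC.c2 (t := s / 2) ⟨by linarith [hs.1], by linarith [hs.2]⟩
    simpa using this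
  have hc2T : ∀ s ∈ Icc 0 T0, D.g.C2 (T s f) := fun s hs => hCf.c2 hs
  -- time derivatives
  have hdh : ∀ s ∈ Ioo 0 T0, ∀ y, HasDerivAt (fun s => h s y) (-D.g.L 0 (h s) y + e s y) s :=
    fun s hs y => (hA.deriv s ⟨hs.1, hs.2.le⟩ y).hasDerivAt (Ioc_mem_nhds hs.1 hs.2)
  have hdT : ∀ s, 0 < s → ∀ y, HasDerivAt (fun s => T s f y) (-D.g.L 0 (T s f) y) s :=
    fun s hs y => (hT.deriv f hf s hs.le y).hasDerivAt (Ici_mem_nhds hs)
  have hdTr : ∀ s ∈ Ioo 0 t, ∀ y,
      HasDerivAt (fun s => T (t - s) f y) (D.g.L 0 (T (t - s) f) y) s := by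
    intro s hs y
    have h1 := hdT (t - s) (by linarith [hs.2]) y
    have h2 : HasDerivAt (fun s : ℝ => t - s) (-1) s := by
      simpa using (hasDerivAt_id s).const_sub t
    have h3 : HasDerivAt (fun s => T (t - s) f y) ((-1 : ℝ) • -D.g.L 0 (T (t - s) f) y) s :=
      h1.scomp s h2
    simpa using h3
  -- measurability
  have hmL1 : ∀ s ∈ Ioo 0 t, Measurable fun y => ⟪h s y, D.g.L 0 (T (t - s) f) y⟫ := by
    intro s hs
    have hst : 0 < t - s := by linarith [hs.2]
    have h1 : Measurable fun y => ⟪h s y, -D.g.L 0 (T (t - s) f) y⟫ := by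
      refine measurable_of_hasDeriv (u := fun τ y => ⟪h s y, T τ f y⟫) (t := t - s)
        (δ := min (t - s) s) (lt_min hst hs.1) ?_ ?_
      · intro τ hτ
        have h2 := min_le_left (t - s) s
        have h3 := min_le_right (t - s) s
        exact (hch s ⟨hs.1, by linarith [hs.2]⟩).inner (hcT τ ⟨by linarith [hτ.1], by linarith [hτ.2]⟩)
      · intro y
        have := (hasDerivAt_const (t - s) (h s y)).inner ℝ (hdT (t - s) hst y)
        simpa using this
    have h2 : (fun y => ⟪h s y, D.g.L 0 (T (t - s) f) y⟫) =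
        fun y => -⟪h s y, -D.g.L 0 (T (t - s) f) y⟫ := by
      funext y; rw [inner_neg_right, neg_neg]
    rw [h2]
    exact h1.neg
  have hmL2 : ∀ s ∈ Ioo 0 t, Measurable fun y => ⟪D.g.L 0 (h s) y, T (t - s) f y⟫ := by
    intro s hs
    have hst : 0 < t - s := by linarith [hs.2]
    have h1 : Measurable fun y => ⟪-D.g.L 0 (h s) y + e s y, T (t - s) f y⟫ := by
      refine measurable_of_hasDeriv (u := fun τ y => ⟪h τ y, T (t - s) f y⟫) (t := s)
        (δ := min (t - s) s) (lt_min hst hs.1) ?_ ?_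
      · intro τ hτ
        have h2 := min_le_left (t - s) s
        have h3 := min_le_right (t - s) s
        exact (hch τ ⟨by linarith [hτ.1], by linarith [hτ.2]⟩).inner
          (hcT (t - s) (hTsub s ⟨hs.1, hs.2.le⟩))
      · intro y
        have := (hdh s ⟨hs.1, by linarith [hs.2]⟩ y).inner ℝ
          (hasDerivAt_const s (T (t - s) f y))
        simpa using this
    have h3 : Measurable fun y => ⟪e s y, T (t - s) f y⟫ :=
      ((hce s ⟨hs.1, by linarith [hs.2]⟩).inner (hcT (t - s) (hTsub s ⟨hs.1, hs.2.le⟩))).measurable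
    have h2 : (fun y => ⟪D.g.L 0 (h s) y, T (t - s) f y⟫) =
        fun y => ⟪e s y, T (t - s) f y⟫ - ⟪-D.g.L 0 (h s) y + e s y, T (t - s) f y⟫ := by
      funext y; rw [inner_add_left, inner_neg_left]; ring
    rw [h2]
    exact h3.sub h1
  have hIoc : ∀ s ∈ Ioc 0 t, s ∈ Ioc 0 T0 := fun s hs => ⟨hs.1, hs.2.trans htT⟩
  have hmF : ∀ s ∈ Ioc 0 t, AEStronglyMeasurable (fun y => ⟪h s y, T (t - s) f y⟫) D.mu :=
    fun s hs => ((hch s (hIoc s hs)).inner (hcT (t - s) (hTsub s hs))).aestronglyMeasurable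
  have hmG : ∀ s ∈ Ioc 0 t, AEStronglyMeasurable (fun y => ⟪e s y, T (t - s) f y⟫) D.mu :=
    fun s hs => ((hce s (hIoc s hs)).inner (hcT (t - s) (hTsub s hs))).aestronglyMeasurable
  -- bounds for `h`
  have hbh : ∀ δ, 0 < δ → δ < T0 → ∃ C, 0 ≤ C ∧ ∀ s ∈ Icc δ T0, ∀ y, ‖h s y‖ ≤ C ∧
      ‖D.g.L 0 (h s) y‖ ≤ C := by
    intro δ hδ hδT
    obtain ⟨C, hC⟩ := hA.nice δ hδ hδT
    refine ⟨max C (max (B * C) 0), by simp, fun s hs y => ?_⟩
    have hs' : s - δ ∈ Icc 0 (T0 - δ) := ⟨by linarith [hs.1], by linarith [hs.2]⟩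
    have h1 := hC.bound hs' y
    have h2 := hC.L_bound hB hs' y
    simp only [sub_add_cancel] at h1 h2
    exact ⟨h1.trans (le_max_left _ _), h2.trans ((le_max_left _ _).trans (le_max_right _ _))⟩
  -- the derivative of the pairing
  set F : ℝ → ℝ := fun s => ∫ y, ⟪h s y, T (t - s) f y⟫ ∂D.mu with hF
  set G : ℝ → ℝ := fun s => ∫ y, ⟪e s y, T (t - s) f y⟫ ∂D.mu with hG
  have hE0 : ∀ y : X, 0 ≤ E := fun y => (norm_nonneg _).trans (hE T0 ⟨hT0, le_rfl⟩ y)
  have hCf0 : ∀ y : X, 0 ≤ Cf := fun y => (norm_nonneg _).trans (hbT T0 ⟨hT0.le, le_rfl⟩ y)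
  have hinner : ∀ (a b : V) (p q : ℝ), ‖a‖ ≤ p → ‖b‖ ≤ q → ‖⟪a, b⟫‖ ≤ p * q := by
    intro a b p q h1 h2
    exact (norm_inner_le_norm a b).trans (mul_le_mul h1 h2 (norm_nonneg _) ((norm_nonneg _).trans h1))
  have hderiv : ∀ s ∈ Ioo 0 t, HasDerivAt F (G s) s := by
    intro s hs
    obtain ⟨C, hC0, hC⟩ := hbh (s / 2) (by linarith [hs.1]) (by linarith [hs.1, hs.2])
    have hsT : s ∈ Ioc 0 t := ⟨hs.1, hs.2.le⟩
    have hsTT : s ∈ Ioc 0 T0 := hIoc s hsT
    have key := hasDerivAt_integral_of_dominated_loc_of_deriv_le (μ := D.mu) (x₀ := s)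
      (s := Ioo (s / 2) t) (F := fun s y => ⟪h s y, T (t - s) f y⟫)
      (F' := fun s y => ⟪h s y, D.g.L 0 (T (t - s) f) y⟫ +
        ⟪-D.g.L 0 (h s) y + e s y, T (t - s) f y⟫)
      (bound := fun _ => C * (B * Cf) + (C + E) * Cf)
      (Ioo_mem_nhds (by linarith [hs.1]) hs.2) ?_ ?_ ?_ ?_ ?_ ?_
    · refine key.2.congr_deriv ?_
      have i1 : Integrable (fun y => ⟪h s y, D.g.L 0 (T (t - s) f) y⟫) D.mu := by
        refine Integrable.of_bound (hmL1 s hs).aestronglyMeasurable (C * (B * Cf)) ?_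
        refine Eventually.of_forall fun y => hinner _ _ _ _ (hC s ⟨by linarith [hs.1], hsTT.2⟩ y).1
          (hbLT (t - s) (hTsub s hsT) y)
      have i2 : Integrable (fun y => ⟪D.g.L 0 (h s) y, T (t - s) f y⟫) D.mu := by
        refine Integrable.of_bound (hmL2 s hs).aestronglyMeasurable (C * Cf) ?_
        refine Eventually.of_forall fun y => hinner _ _ _ _ (hC s ⟨by linarith [hs.1], hsTT.2⟩ y).2
          (hbT (t - s) (hTsub s hsT) y)
      have i3 : Integrable (fun y => ⟪e s y, T (t - s) f y⟫) D.mu := by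
        refine Integrable.of_bound (hmG s hsT) (E * Cf) ?_
        exact Eventually.of_forall fun y => hinner _ _ _ _ (hE s hsTT y) (hbT (t - s) (hTsub s hsT) y)
      have hsym := D.symm (h s) (T (t - s) f) (hc2h s hsTT) (hc2T (t - s) (hTsub s hsT))
      have e1 : (fun y => ⟪h s y, D.g.L 0 (T (t - s) f) y⟫ +
          ⟪-D.g.L 0 (h s) y + e s y, T (t - s) f y⟫) =
          fun y => (⟪h s y, D.g.L 0 (T (t - s) f) y⟫ - ⟪D.g.L 0 (h s) y, T (t - s) f y⟫) +
            ⟪e s y, T (t - s) f y⟫ := by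
        funext y; rw [inner_add_left, inner_neg_left]; ring
      show ∫ y, (⟪h s y, D.g.L 0 (T (t - s) f) y⟫ +
          ⟪-D.g.L 0 (h s) y + e s y, T (t - s) f y⟫) ∂D.mu = G s
      have i12 : Integrable (fun y => ⟪h s y, D.g.L 0 (T (t - s) f) y⟫ -
          ⟪D.g.L 0 (h s) y, T (t - s) f y⟫) D.mu := i1.sub i2
      rw [e1, integral_add i12 i3, integral_sub i1 i2, hsym, sub_self, zero_add]
    · filter_upwards [Ioo_mem_nhds hs.1 hs.2] with σ hσ using hmF σ ⟨hσ.1, hσ.2.le⟩
    · refine Integrable.of_bound (hmF s hsT) (C * Cf) ?_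
      exact Eventually.of_forall fun y => hinner _ _ _ _ (hC s ⟨by linarith [hs.1], hsTT.2⟩ y).1
          (hbT (t - s) (hTsub s hsT) y)
    · refine (Measurable.aestronglyMeasurable ?_)
      have e1 : (fun y => ⟪h s y, D.g.L 0 (T (t - s) f) y⟫ +
          ⟪-D.g.L 0 (h s) y + e s y, T (t - s) f y⟫) =
          fun y => (⟪h s y, D.g.L 0 (T (t - s) f) y⟫ - ⟪D.g.L 0 (h s) y, T (t - s) f y⟫) +
            ⟪e s y, T (t - s) f y⟫ := by
        funext y; rw [inner_add_left, inner_neg_left]; ring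
      rw [e1]
      exact ((hmL1 s hs).sub (hmL2 s hs)).add
        ((hce s hsTT).inner (hcT (t - s) (hTsub s hsT))).measurable
    · refine Eventually.of_forall fun y σ hσ => ?_
      have hσ0 : 0 < σ := by linarith [hσ.1, hs.1]
      have hσT : σ ∈ Ioc 0 t := ⟨hσ0, hσ.2.le⟩
      have hσI : σ ∈ Icc (s / 2) T0 := ⟨hσ.1.le, by linarith [hσ.2]⟩
      refine (norm_add_le _ _).trans (add_le_add ?_ ?_)
      · exact hinner _ _ _ _ (hC σ hσI y).1 (hbLT (t - σ) (hTsub σ hσT) y)
      · refine hinner _ _ _ _ ((norm_add_le _ _).trans (add_le_add ?_ (hE σ (hIoc σ hσT) y)))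
          (hbT (t - σ) (hTsub σ hσT) y)
        rw [norm_neg]; exact (hC σ hσI y).2
    · exact integrable_const _
    · refine Eventually.of_forall fun y σ hσ => ?_
      have hσ0 : 0 < σ := by linarith [hσ.1, hs.1]
      exact (hdh σ ⟨hσ0, by linarith [hσ.2]⟩ y).inner ℝ (hdTr σ ⟨hσ0, hσ.2⟩ y)
  have hcontTr : ∀ y, ContinuousOn (fun s => T (t - s) f y) (Icc 0 t) := by
    intro y s hs
    have h1 : ContinuousWithinAt (fun s => T s f y) (Ici 0) (t - s) :=
      (hT.deriv f hf (t - s) (by linarith [hs.2]) y).continuousWithinAt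
    exact h1.comp (f := fun s => t - s) (by fun_prop) (fun σ hσ => by simpa using hσ.2)
  have hcontF : ∀ s0, 0 < s0 → s0 < t → ContinuousOn F (Icc s0 t) := by
    intro s0 hs0 hst
    obtain ⟨C, hC0, hC⟩ := hbh s0 hs0 (by linarith)
    refine continuousOn_of_dominated (bound := fun _ => C * Cf) ?_ ?_ (integrable_const _) ?_
    · intro s hs
      exact hmF s ⟨by linarith [hs.1], hs.2⟩
    · intro s hs
      refine Eventually.of_forall fun y => ?_
      exact hinner _ _ _ _ (hC s ⟨hs.1, hs.2.trans htT⟩ y).1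
        (hbT (t - s) (hTsub s ⟨by linarith [hs.1], hs.2⟩) y)
    · refine Eventually.of_forall fun y => ?_
      have h1 : ContinuousOn (fun s => h s y) (Icc s0 t) := by
        intro s hs
        have h2 := (hA.deriv s ⟨by linarith [hs.1], hs.2.trans htT⟩ y).continuousWithinAt
        exact h2.mono fun σ hσ => ⟨by linarith [hσ.1], hσ.2.trans htT⟩
      exact h1.inner ((hcontTr y).mono (Icc_subset_Icc_left hs0.le))
  have hcontG : ContinuousOn G (Ioc 0 t) := by
    refine continuousOn_of_dominated (bound := fun _ => E * Cf) hmG ?_ (integrable_const _) ?_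
    · intro s hs
      exact Eventually.of_forall fun y => hinner _ _ _ _ (hE s (hIoc s hs) y)
        (hbT (t - s) (hTsub s hs) y)
    · refine Eventually.of_forall fun y => ?_
      have h1 : ContinuousOn (fun s => e s y) (Ioc 0 t) :=
        hA.cont.comp (f := fun s => (s, y)) (by fun_prop) (fun s hs => ⟨hIoc s hs, mem_univ _⟩)
      exact h1.inner ((hcontTr y).mono Ioc_subset_Icc_self)
  have hGint : IntervalIntegrable G volume 0 t := by
    rw [intervalIntegrable_iff_integrableOn_Ioc_of_le ht0.le]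
    have : IsFiniteMeasure (volume.restrict (Ioc 0 t)) := ⟨by simp⟩
    refine Integrable.of_bound (hcontG.aestronglyMeasurable measurableSet_Ioc)
      (E * Cf * D.mu.real univ) ?_
    refine (ae_restrict_iff' measurableSet_Ioc).mpr (Eventually.of_forall fun s hs => ?_)
    refine norm_integral_le_of_norm_le_const (Eventually.of_forall fun y => ?_)
    exact hinner _ _ _ _ (hE s (hIoc s hs) y) (hbT (t - s) (hTsub s hs) y)
  have hFTC : ∀ s0 ∈ Ioo 0 t, F s0 = F t - ∫ s in s0..t, G s := by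
    intro s0 hs0
    have h1 : ∫ s in s0..t, G s = F t - F s0 := by
      refine intervalIntegral.integral_eq_sub_of_hasDerivAt_of_le hs0.2.le (hcontF s0 hs0.1 hs0.2)
        (fun s hs => hderiv s ⟨hs0.1.trans hs.1, hs.2⟩) ?_
      refine hGint.mono_set ?_
      rw [uIcc_of_le hs0.2.le, uIcc_of_le ht0.le]
      exact Icc_subset_Icc_left hs0.1.le
    rw [h1]; ring
  -- passage to the limit
  have hlim1 : Tendsto F (𝓝[>] 0) (𝓝 ⟪v, T t f y0⟫) := by
    have h1 := hA.init (T t f) (hT.smooth t ht0.le f hf)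
    have h2 : Tendsto (fun s => ∫ y, ⟪h s y, T (t - s) f y - T t f y⟫ ∂D.mu) (𝓝[>] 0) (𝓝 0) := by
      have hb : ∀ᶠ s in 𝓝[>] (0 : ℝ), ‖∫ y, ⟪h s y, T (t - s) f y - T t f y⟫ ∂D.mu‖ ≤
          (B * Cf * C1) * s := by
        filter_upwards [Ioo_mem_nhdsGT ht0] with s hs
        have hsT : s ∈ Ioc 0 t := ⟨hs.1, hs.2.le⟩
        have hsTT : s ∈ Ioc 0 T0 := hIoc s hsT
        have hBC : ∀ y : X, 0 ≤ B * Cf := fun y => mul_nonneg hB0 (hCf0 y)
        have hlip : ∀ y, ‖T (t - s) f y - T t f y‖ ≤ B * Cf * s := by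
          intro y
          have := Convex.norm_image_sub_le_of_norm_hasDerivWithin_le (f := fun s => T s f y)
            (f' := fun s => -D.g.L 0 (T s f) y) (C := B * Cf) (s := Icc 0 T0) (x := t) (y := t - s)
            (fun σ hσ => (hT.deriv f hf σ hσ.1 y).mono Icc_subset_Ici_self)
            (fun σ hσ => by rw [norm_neg]; exact hbLT σ hσ y) (convex_Icc _ _)
            ⟨ht0.le, htT⟩ (hTsub s hsT)
          have e1 : ‖t - s - t‖ = s := by
            rw [show t - s - t = -s by ring, norm_neg, Real.norm_of_nonneg hs.1.le]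
          rwa [e1] at this
        obtain ⟨C, hC0, hC⟩ := hbh (s / 2) (by linarith [hs.1]) (by linarith [hs.1, hs.2])
        have hIntn : Integrable (fun y => ‖h s y‖) D.mu := by
          refine Integrable.of_bound (hch s hsTT).norm.aestronglyMeasurable C ?_
          refine Eventually.of_forall fun y => ?_
          rw [norm_norm]
          exact (hC s ⟨by linarith [hs.1], hsTT.2⟩ y).1
        calc ‖∫ y, ⟪h s y, T (t - s) f y - T t f y⟫ ∂D.mu‖
            ≤ ∫ y, ‖h s y‖ * (B * Cf * s) ∂D.mu := by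
              refine norm_integral_le_of_norm_le (hIntn.mul_const _)
                (Eventually.of_forall fun y => ?_)
              exact hinner _ _ _ _ le_rfl (hlip y)
          _ = (∫ y, ‖h s y‖ ∂D.mu) * (B * Cf * s) := by rw [integral_mul_const]
          _ ≤ (B * Cf * C1) * s := by
              rcases isEmpty_or_nonempty X with hX | hX
              · exact (hX.false y0).elim
              · have h3 := hC1 s hsTT
                have h4 : 0 ≤ B * Cf * s := mul_nonneg (hBC y0) hs.1.le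
                nlinarith [mul_le_mul_of_nonneg_right h3 h4]
      have h3 : Tendsto (fun s : ℝ => (B * Cf * C1) * s) (𝓝[>] 0) (𝓝 0) := by
        have : Tendsto (fun s : ℝ => (B * Cf * C1) * s) (𝓝 0) (𝓝 ((B * Cf * C1) * 0)) :=
          tendsto_id.const_mul _
        rw [mul_zero] at this
        exact this.mono_left nhdsWithin_le_nhds
      exact squeeze_zero_norm' hb h3
    have h4 := h1.add h2
    rw [add_zero] at h4
    refine h4.congr' ?_
    filter_upwards [Ioo_mem_nhdsGT ht0] with s hs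
    have hsT : s ∈ Ioc 0 t := ⟨hs.1, hs.2.le⟩
    have hsTT : s ∈ Ioc 0 T0 := hIoc s hsT
    obtain ⟨C, hC0, hC⟩ := hbh (s / 2) (by linarith [hs.1]) (by linarith [hs.1, hs.2])
    have i1 : Integrable (fun y => ⟪h s y, T t f y⟫) D.mu := by
      refine Integrable.of_bound
        ((hch s hsTT).inner (hcT t ⟨ht0.le, htT⟩)).aestronglyMeasurable (C * Cf) ?_
      exact Eventually.of_forall fun y => hinner _ _ _ _ (hC s ⟨by linarith [hs.1], hsTT.2⟩ y).1
        (hbT t ⟨ht0.le, htT⟩ y)
    have i2 : Integrable (fun y => ⟪h s y, T (t - s) f y⟫) D.mu := by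
      refine Integrable.of_bound (hmF s hsT) (C * Cf) ?_
      exact Eventually.of_forall fun y => hinner _ _ _ _ (hC s ⟨by linarith [hs.1], hsTT.2⟩ y).1
        (hbT (t - s) (hTsub s hsT) y)
    have e1 : (fun y => ⟪h s y, T (t - s) f y - T t f y⟫) =
        fun y => ⟪h s y, T (t - s) f y⟫ - ⟪h s y, T t f y⟫ := by
      funext y; rw [inner_sub_right]
    rw [e1, integral_sub i2 i1]
    ring
  have hlim2 : Tendsto (fun s0 => F t - ∫ s in s0..t, G s) (𝓝[>] 0)
      (𝓝 (F t - ∫ s in (0 : ℝ)..t, G s)) := by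
    refine tendsto_const_nhds.sub ?_
    have hI : IntegrableOn G (uIcc 0 t) := by
      rw [uIcc_of_le ht0.le, integrableOn_Icc_iff_integrableOn_Ioc]
      exact (intervalIntegrable_iff_integrableOn_Ioc_of_le ht0.le).mp hGint
    have h1 := intervalIntegral.continuousOn_primitive_interval_left hI 0 left_mem_uIcc
    rw [uIcc_of_le ht0.le] at h1
    refine h1.tendsto.mono_left ?_
    rw [nhdsWithin_Icc_eq_nhdsGE ht0]
    exact nhdsWithin_mono _ Ioi_subset_Ici_self
  have hlim3 : Tendsto F (𝓝[>] 0) (𝓝 (F t - ∫ s in (0 : ℝ)..t, G s)) := by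
    refine hlim2.congr' ?_
    filter_upwards [Ioo_mem_nhdsGT ht0] with s hs using (hFTC s hs).symm
  have hfin := tendsto_nhds_unique hlim1 hlim3
  have hFt : F t = ∫ x, ⟪h t x, f x⟫ ∂D.mu := by
    simp only [hF, sub_self, hT.zero f hf]
  rw [← hFt]
  show F t = ⟪v, T t f y0⟫ + ∫ s in (0 : ℝ)..t, G s
  rw [hfin]; ring

end NRF

end
end

section

/-!
# Module K: the heat kernel with the diagonal coefficients (`claimKernelP`)
-/

open scoped Manifold ContDiff Topology
open MeasureTheory Set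

noncomputable section

namespace NRF

open scoped RealInnerProductSpace

theorem claimPole0_of_P (h : claimPole0P) : claimPole0 := by
  intro X _ _ _ _ _ V _ _ _ D k T0 hk hT0
  obtain ⟨h, C, c1, c2, c3, c4, c5, c6, c, P, hd, c7⟩ := h X V D k T0 hk hT0
  exact ⟨h, C, c1, c2, c3, c4, c5, c6, c, hd.cont, c7⟩

/-- K4 with the coefficients of the expansion on the diagonal. -/
theorem claimKernelP_proof (h1 : claimSemigroup) (h2 : claimPole0P) (h3 : claimPairing) :
    claimKernelP := by
  intro X _ _ _ _ _ V _ _ _ D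
  obtain ⟨T, K, hT, hK⟩ := claimKernel_proof h1 (claimPole0_of_P h2) h3 X V D
  obtain ⟨h, C, c1, c2, c3, c4, c5, c6, c, P, hd, c7⟩ := h2 X V D 2 1 le_rfl one_pos
  refine ⟨T, K, hT, hK, c, P, |C|, hd, fun t ht y => ?_⟩
  have hp : K4Pole D 2 1 h C := ⟨c1, c2, c3, c4, c5, c6, c, hd.cont, c7⟩
  have hKc : Continuous fun p : X × X => K t p.1 p.2 :=
    hK.cont.comp_continuous (f := fun p : X × X => (t, p.1, p.2)) (by fun_prop)
      (fun p => ⟨ht.1, mem_univ _⟩)
  have hKh : ∀ x v, K t x y v = h y v t x := by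
    intro x v
    have e1 : Continuous fun x => K t x y v :=
      (ContinuousLinearMap.apply ℝ V v).continuous.comp
        (hKc.comp (f := fun x => (x, y)) (by fun_prop))
    have e2 : Continuous (h y v t) := (hp.slice ht v).comp (f := fun x => (x, y)) (by fun_prop)
    have := K4_sep D e1 e2 fun f hf => by
      have hfc := K4_smooth_cont D.g hf
      rw [hp.pair h3 hT ht y v hf, hK.repr t ht.1 f hf y]
      have e3 : ∀ x, ⟪K t x y v, f x⟫ = ⟪K t y x (f x), v⟫ := fun x => by
        rw [hK.symm t ht.1 x y v (f x), real_inner_comm]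
      simp only [e3]
      have e4 : Continuous fun x => K t y x (f x) :=
        (hKc.comp (f := fun x => (y, x)) (by fun_prop)).clm_apply hfc
      rw [K4_int_inner D e4 v, real_inner_comm]
    exact congrFun this x
  refine ContinuousLinearMap.opNorm_le_bound _ (by positivity) fun v => ?_
  have h4 := c7 t ht y v
  have h5 : (t ^ 2 • K t y y - ∑ w ∈ Finset.range 5, Real.sqrt t ^ w • c w y) v =
      t ^ 2 • h y v t y - ∑ w ∈ Finset.range 5, Real.sqrt t ^ w • c w y v := by
    rw [← hKh y v]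
    simp
  rw [h5]
  refine h4.trans ?_
  have h6 : C * ‖v‖ * Real.sqrt t ^ 5 ≤ |C| * ‖v‖ * Real.sqrt t ^ 5 := by
    have := le_abs_self C
    gcongr
  calc _ ≤ _ := h6
    _ = _ := by ring

end NRF

end
end

section

/-!
# MS1: McKean-Singer
-/

open scoped Manifold ContDiff Topology RealInnerProductSpace
open MeasureTheory Set

set_option linter.unusedSectionVars false

noncomputable section

namespace NRF

section smooth

variable {X : Type} [TopologicalSpace X] {V : Type} [NormedAddCommGroup V] [InnerProductSpace ℝ V]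

theorem MS1_smooth_zero (g : Geom X V) : g.Smooth fun _ => 0 := by
  intro i
  simp only [smul_zero]
  exact contDiff_const

theorem MS1_smooth_add {g : Geom X V} {f h : X → V} (hf : g.Smooth f) (hh : g.Smooth h) :
    g.Smooth fun y => f y + h y := by
  intro i
  simp only [smul_add]
  exact (hf i).add (hh i)

theorem MS1_smooth_smul {g : Geom X V} {f : X → V} (c : ℝ) (hf : g.Smooth f) :
    g.Smooth fun y => c • f y := by
  intro i
  simp only [smul_comm _ c]
  exact (hf i).const_smul c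

theorem MS1_smooth_sum {g : Geom X V} {α : Type} (s : Finset α) (a : α → ℝ) (f : α → X → V)
    (hf : ∀ i ∈ s, g.Smooth (f i)) : g.Smooth fun y => ∑ i ∈ s, a i • f i y := by
  classical
  induction s using Finset.induction_on with
  | empty => simpa using MS1_smooth_zero g
  | insert i s hi ih =>
    simp only [Finset.sum_insert hi]
    exact MS1_smooth_add (MS1_smooth_smul _ (hf i (Finset.mem_insert_self i s)))
      (ih fun j hj => hf j (Finset.mem_insert_of_mem hj))

end smooth

section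

variable {X : Type} [TopologicalSpace X] [CompactSpace X] [T2Space X] [MeasurableSpace X]
  [BorelSpace X] {V : Type} [NormedAddCommGroup V] [InnerProductSpace ℝ V] [FiniteDimensional ℝ V]

/-- the inner product -/
def MS1ip (D : HeatData X V) (f h : X → V) : ℝ := ∫ y, ⟪f y, h y⟫ ∂D.mu

theorem MS1ip_comm (D : HeatData X V) (f h : X → V) : MS1ip D f h = MS1ip D h f := by
  unfold MS1ip
  simp only [real_inner_comm]

theorem MS1ip_sum (D : HeatData X V) {α : Type} (s : Finset α) (a : α → ℝ) (f : α → X → V)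
    {h : X → V} (hf : ∀ i ∈ s, Continuous (f i)) (hh : Continuous h) :
    MS1ip D (fun y => ∑ i ∈ s, a i • f i y) h = ∑ i ∈ s, a i * MS1ip D (f i) h := by
  unfold MS1ip
  simp only [sum_inner, real_inner_smul_left]
  rw [integral_finsetSum _ fun i hi => (K4_integrable D ((hf i hi).inner hh)).const_mul (a i)]
  refine Finset.sum_congr rfl fun i _ => ?_
  rw [integral_const_mul]

theorem MS1ip_sum_right (D : HeatData X V) {α : Type} (s : Finset α) (a : α → ℝ)
    (f : α → X → V) {h : X → V} (hf : ∀ i ∈ s, Continuous (f i)) (hh : Continuous h) :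
    MS1ip D h (fun y => ∑ i ∈ s, a i • f i y) = ∑ i ∈ s, a i * MS1ip D h (f i) := by
  rw [MS1ip_comm, MS1ip_sum D s a f hf hh]
  refine Finset.sum_congr rfl fun i _ => ?_
  rw [MS1ip_comm]

theorem MS1_Q_sum {D : HeatData X V} {p : X → V →L[ℝ] V} {Q : (X → V) → X → V}
    (hd : D.IsDirac p Q) {α : Type} (s : Finset α) (a : α → ℝ) (f : α → X → V)
    (hf : ∀ i ∈ s, D.g.Smooth (f i)) :
    Q (fun y => ∑ i ∈ s, a i • f i y) = fun y => ∑ i ∈ s, a i • Q (f i) y := by
  classical
  induction s using Finset.induction_on with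
  | empty =>
    have h1 := hd.Q_smul 0 (fun _ => 0) (MS1_smooth_zero D.g)
    simp only [zero_smul] at h1
    simpa using h1
  | insert i s hi ih =>
    simp only [Finset.sum_insert hi]
    rw [hd.Q_add _ _ (MS1_smooth_smul _ (hf i (Finset.mem_insert_self i s)))
      (MS1_smooth_sum s a f fun j hj => hf j (Finset.mem_insert_of_mem hj)),
      hd.Q_smul _ _ (hf i (Finset.mem_insert_self i s)),
      ih fun j hj => hf j (Finset.mem_insert_of_mem hj)]

variable {D : HeatData X V} {T : ℝ → (X → V) → X → V} {K : ℝ → X → X → V →L[ℝ] V}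
  {p : X → V →L[ℝ] V} {Q : (X → V) → X → V} {eps : X → V →L[ℝ] V}
  {ι : Type} {e : ι → X → V} {lam : ι → ℝ}

theorem MS1_fin (he : D.IsEigen T K e lam) (r : ℝ) : {i | lam i = r}.Finite :=
  (he.finite r).subset fun _ hi => le_of_eq hi

/-- the index set of an eigenvalue -/
def MS1F (he : D.IsEigen T K e lam) (r : ℝ) : Finset ι := (MS1_fin he r).toFinset

theorem MS1_memF (he : D.IsEigen T K e lam) {r : ℝ} {i : ι} : i ∈ MS1F he r ↔ lam i = r := by
  simp [MS1F]

theorem MS1_complete (he : D.IsEigen T K e lam) (r : ℝ) {f : X → V} (hf : D.g.Smooth f)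
    (hL : ∀ y, D.g.L 0 f y = r • f y) :
    f = fun y => ∑ i : MS1F he r, MS1ip D f (e i) • e i y := by
  funext y
  rw [he.complete f hf r hL y, finsum_mem_eq_finite_toFinset_sum _ (MS1_fin he r)]
  rw [← Finset.sum_coe_sort (MS1_fin he r).toFinset]
  rfl

theorem MS1_orth (he : D.IsEigen T K e lam) [DecidableEq ι] (i j : ι) :
    MS1ip D (e i) (e j) = if i = j then 1 else 0 := by
  split_ifs with h
  · subst h
    exact he.norm i
  · exact he.orth i j h

/-- matrix of an operator on an eigenspace -/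
def MS1M (he : D.IsEigen T K e lam) (r : ℝ) (A : (X → V) → X → V) :
    Matrix (MS1F he r) (MS1F he r) ℝ :=
  Matrix.of fun i j => MS1ip D (A (e i)) (e j)

theorem MS1_cont (he : D.IsEigen T K e lam) (i : ι) : Continuous (e i) :=
  K4_smooth_cont D.g (he.smooth i)

/-- the multiplication operator -/
def MS1mul (p : X → V →L[ℝ] V) (f : X → V) : X → V := fun y => p y (f y)

theorem MS1_mul_sum (p : X → V →L[ℝ] V) {α : Type} (s : Finset α) (a : α → ℝ) (f : α → X → V) :
    MS1mul p (fun y => ∑ i ∈ s, a i • f i y) = fun y => ∑ i ∈ s, a i • MS1mul p (f i) y := by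
  funext y
  simp only [MS1mul, map_sum, map_smul]

theorem MS1_QQ (he : D.IsEigen T K e lam) (hd : D.IsDirac p Q) (i : ι) :
    Q (Q (e i)) = fun y => lam i • MS1mul p (e i) y := by
  funext y
  rw [← hd.p_L _ (he.smooth i), he.eig, map_smul]
  rfl

theorem MS1_p_expand (he : D.IsEigen T K e lam) (hd : D.IsDirac p Q) (r : ℝ)
    (i : MS1F he r) : MS1mul p (e i) =
      fun y => ∑ j : MS1F he r, MS1M he r (MS1mul p) i j • e j y := by
  have hi : lam i = r := (MS1_memF he).1 i.2
  refine MS1_complete he r (hd.p_smooth _ (he.smooth i)) fun y => ?_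
  have h1 := hd.L_p (e i) (he.smooth i) y
  rw [MS1_QQ he hd, hi] at h1
  exact h1

theorem MS1_Q_expand (he : D.IsEigen T K e lam) (hd : D.IsDirac p Q) (r : ℝ)
    (i : MS1F he r) : Q (e i) =
      fun y => ∑ j : MS1F he r, MS1M he r Q i j • e j y := by
  have hi : lam i = r := (MS1_memF he).1 i.2
  refine MS1_complete he r (hd.Q_smooth _ (he.smooth i)) fun y => ?_
  have h1 := hd.L_p (Q (e i)) (hd.Q_smooth _ (he.smooth i)) y
  have h2 : (fun z => p z (Q (e i) z)) = Q (e i) := by
    funext z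
    exact hd.p_Q _ (he.smooth i) z
  rw [h2, MS1_QQ he hd, hi] at h1
  rw [h1]
  have h3 := hd.Q_smul r (MS1mul p (e i)) (hd.p_smooth _ (he.smooth i))
  rw [h3]
  show r • Q (MS1mul p (e i)) y = _
  have h4 : Q (MS1mul p (e i)) = Q (e i) := hd.Q_p _ (he.smooth i)
  rw [h4]

theorem MS1_sym_p (he : D.IsEigen T K e lam) (hd : D.IsDirac p Q) (r : ℝ)
    (i j : MS1F he r) : MS1M he r (MS1mul p) i j = MS1M he r (MS1mul p) j i := by
  show MS1ip D (MS1mul p (e i)) (e j) = MS1ip D (MS1mul p (e j)) (e i)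
  rw [MS1ip_comm D (MS1mul p (e j))]
  unfold MS1ip MS1mul
  simp only [hd.p_symm]

theorem MS1_sym_Q (he : D.IsEigen T K e lam) (hd : D.IsDirac p Q) (r : ℝ)
    (i j : MS1F he r) : MS1M he r Q i j = MS1M he r Q j i := by
  show MS1ip D (Q (e i)) (e j) = MS1ip D (Q (e j)) (e i)
  rw [MS1ip_comm D (Q (e j))]
  exact hd.Q_symm _ _ (he.smooth i) (he.smooth j)

theorem MS1_Q_sq (he : D.IsEigen T K e lam) (hd : D.IsDirac p Q) (r : ℝ) :
    MS1M he r Q * MS1M he r Q = r • MS1M he r (MS1mul p) := by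
  ext i k
  have hi : lam i = r := (MS1_memF he).1 i.2
  rw [Matrix.mul_apply, Matrix.smul_apply, smul_eq_mul]
  have h1 : MS1ip D (Q (Q (e i))) (e k) = ∑ j, MS1M he r Q i j * MS1M he r Q j k := by
    rw [MS1_Q_expand he hd r i, MS1_Q_sum hd Finset.univ (fun j => MS1M he r Q i j)
      (fun j : MS1F he r => e j) fun j _ => he.smooth j,
      MS1ip_sum D Finset.univ _ (fun j : MS1F he r => Q (e j))
        (fun j _ => K4_smooth_cont D.g (hd.Q_smooth _ (he.smooth j))) (MS1_cont he k)]
    rfl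
  rw [← h1, MS1_QQ he hd, hi]
  have h2 : MS1ip D (fun y => r • MS1mul p (e i) y) (e k) =
      r * MS1ip D (MS1mul p (e i)) (e k) := by
    unfold MS1ip
    simp only [real_inner_smul_left]
    rw [integral_const_mul]
  rw [h2]
  rfl

theorem MS1_p_sq (he : D.IsEigen T K e lam) (hd : D.IsDirac p Q) (r : ℝ) :
    MS1M he r (MS1mul p) * MS1M he r (MS1mul p) = MS1M he r (MS1mul p) := by
  ext i k
  rw [Matrix.mul_apply]
  have h1 : MS1ip D (MS1mul p (MS1mul p (e i))) (e k) =
      ∑ j, MS1M he r (MS1mul p) i j * MS1M he r (MS1mul p) j k := by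
    rw [MS1_p_expand he hd r i, MS1_mul_sum p Finset.univ (fun j => MS1M he r (MS1mul p) i j)
      (fun j : MS1F he r => e j),
      MS1ip_sum D Finset.univ _ (fun j : MS1F he r => MS1mul p (e j))
        (fun j _ => K4_smooth_cont D.g (hd.p_smooth _ (he.smooth j))) (MS1_cont he k)]
    rfl
  rw [← h1]
  have h2 : MS1mul p (MS1mul p (e i)) = MS1mul p (e i) := by
    funext y
    exact hd.p_proj _ _
  rw [h2]
  rfl

theorem MS1_E_p (he : D.IsEigen T K e lam) (hd : D.IsDirac p Q) (ho : D.IsOdd p Q eps)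
    (r : ℝ) : MS1M he r (MS1mul eps) * MS1M he r (MS1mul p) = MS1M he r (MS1mul eps) := by
  ext i j
  rw [Matrix.mul_apply]
  have hc : Continuous (MS1mul eps (e i)) := K4_smooth_cont D.g (ho.smooth _ (he.smooth i))
  have h1 : MS1ip D (MS1mul eps (e i)) (MS1mul p (e j)) =
      ∑ k, MS1M he r (MS1mul eps) i k * MS1M he r (MS1mul p) k j := by
    rw [MS1_p_expand he hd r j, MS1ip_sum_right D Finset.univ _ (fun k : MS1F he r => e k)
      (fun k _ => MS1_cont he k) hc]
    refine Finset.sum_congr rfl fun k _ => ?_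
    rw [MS1_sym_p he hd r j k, mul_comm]
    rfl
  rw [← h1]
  show MS1ip D (MS1mul eps (e i)) (MS1mul p (e j)) = MS1ip D (MS1mul eps (e i)) (e j)
  unfold MS1ip MS1mul
  simp only [← hd.p_symm, ho.p_eps]

theorem MS1_anti (he : D.IsEigen T K e lam) (hd : D.IsDirac p Q) (ho : D.IsOdd p Q eps)
    (r : ℝ) : MS1M he r (MS1mul eps) * MS1M he r Q =
      -(MS1M he r Q * MS1M he r (MS1mul eps)) := by
  ext i j
  rw [Matrix.mul_apply, Matrix.neg_apply, Matrix.mul_apply]
  have hs : D.g.Smooth (MS1mul eps (e i)) := ho.smooth _ (he.smooth i)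
  have hc : Continuous (MS1mul eps (e i)) := K4_smooth_cont D.g hs
  have h1 : MS1ip D (MS1mul eps (e i)) (Q (e j)) =
      ∑ k, MS1M he r (MS1mul eps) i k * MS1M he r Q k j := by
    rw [MS1_Q_expand he hd r j, MS1ip_sum_right D Finset.univ _ (fun k : MS1F he r => e k)
      (fun k _ => MS1_cont he k) hc]
    refine Finset.sum_congr rfl fun k _ => ?_
    rw [MS1_sym_Q he hd r j k, mul_comm]
    rfl
  have h2 : MS1ip D (MS1mul eps (Q (e i))) (e j) =
      ∑ k, MS1M he r Q i k * MS1M he r (MS1mul eps) k j := by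
    rw [MS1_Q_expand he hd r i, MS1_mul_sum eps Finset.univ (fun k => MS1M he r Q i k)
      (fun k : MS1F he r => e k),
      MS1ip_sum D Finset.univ _ (fun k : MS1F he r => MS1mul eps (e k))
        (fun k _ => K4_smooth_cont D.g (ho.smooth _ (he.smooth k))) (MS1_cont he j)]
    rfl
  have h3 : MS1ip D (MS1mul eps (e i)) (Q (e j)) = -MS1ip D (MS1mul eps (Q (e i))) (e j) := by
    have h4 : MS1ip D (MS1mul eps (e i)) (Q (e j)) = MS1ip D (Q (MS1mul eps (e i))) (e j) :=
      (hd.Q_symm _ _ hs (he.smooth j)).symm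
    rw [h4]
    have h5 : Q (MS1mul eps (e i)) = fun y => -MS1mul eps (Q (e i)) y := by
      funext y
      exact ho.anti _ (he.smooth i) y
    rw [h5]
    unfold MS1ip
    simp only [inner_neg_left]
    rw [integral_neg]
  rw [← h1, ← h2, h3]

theorem MS1_trace_zero (he : D.IsEigen T K e lam) (hd : D.IsDirac p Q) (ho : D.IsOdd p Q eps)
    {r : ℝ} (hr : r ≠ 0) : (MS1M he r (MS1mul eps)).trace = 0 := by
  set E := MS1M he r (MS1mul eps)
  set P := MS1M he r (MS1mul p)
  set q := MS1M he r Q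
  have h1 : E * P = E := MS1_E_p he hd ho r
  have h2 : q * q = r • P := MS1_Q_sq he hd r
  have h3 : E * q = -(q * E) := MS1_anti he hd ho r
  have h4 : (E * (q * q)).trace = r * E.trace := by
    rw [h2, Matrix.mul_smul, h1, Matrix.trace_smul, smul_eq_mul]
  have h5 : (E * (q * q)).trace = -(E * (q * q)).trace := by
    have h6 : E * (q * q) = -(q * (E * q)) :=
      calc E * (q * q) = (E * q) * q := (Matrix.mul_assoc _ _ _).symm
        _ = -(q * E) * q := by rw [h3]
        _ = -(q * (E * q)) := by rw [Matrix.neg_mul, Matrix.mul_assoc]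
    have h7 : (q * (E * q)).trace = (E * (q * q)).trace := by
      rw [Matrix.trace_mul_comm, Matrix.mul_assoc]
    conv_lhs => rw [h6, Matrix.trace_neg, h7]
  have h6 : (E * (q * q)).trace = 0 := by linarith
  rw [h6] at h4
  have h7 : r * E.trace = 0 := h4.symm
  rcases mul_eq_zero.1 h7 with h8 | h8
  · exact absurd h8 hr
  · exact h8

end

/-- Summation by fibres with finite sublevel sets. -/
theorem MS1_fibre {ι : Type} {u lam : ι → ℝ} {s : ℝ} (hs : HasSum u s)
    (hfin : ∀ r, {i | lam i ≤ r}.Finite) (F : ℝ → Finset ι)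
    (hF : ∀ r i, i ∈ F r ↔ lam i = r) (hz : ∀ r, r ≠ 0 → ∑ i ∈ F r, u i = 0) :
    s = ∑ i ∈ F 0, u i := by
  classical
  let G : ℕ → Finset ι := fun n => (hfin n).toFinset
  have hG : ∀ n i, i ∈ G n ↔ lam i ≤ n := fun n i => by simp [G]
  have hmono : Monotone G := by
    intro a b hab i hi
    rw [hG] at hi ⊢
    have : (a : ℝ) ≤ b := by exact_mod_cast hab
    linarith
  have hex : ∀ i, ∃ n, i ∈ G n := fun i => by
    obtain ⟨n, hn⟩ := exists_nat_ge (lam i)
    exact ⟨n, (hG n i).2 hn⟩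
  have h1 : Filter.Tendsto G Filter.atTop Filter.atTop :=
    Filter.tendsto_atTop_finset_of_monotone hmono hex
  have h2 : Filter.Tendsto (fun n => ∑ i ∈ G n, u i) Filter.atTop (𝓝 s) := hs.comp h1
  have h3 : ∀ n, ∑ i ∈ G n, u i = ∑ i ∈ F 0, u i := by
    intro n
    rw [← Finset.sum_filter_add_sum_filter_not (G n) (fun i => lam i = 0) u]
    have h4 : (G n).filter (fun i => lam i = 0) = F 0 := by
      ext i
      rw [Finset.mem_filter, hF, hG]
      constructor
      · exact fun h => h.2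
      · intro h
        exact ⟨by rw [h]; positivity, h⟩
    have h5 : ∑ i ∈ (G n).filter (fun i => ¬ lam i = 0), u i = 0 := by
      rw [← Finset.sum_fiberwise_of_maps_to (g := lam)
        (t := ((G n).filter (fun i => ¬ lam i = 0)).image lam)
        (fun i hi => Finset.mem_image_of_mem _ hi)]
      refine Finset.sum_eq_zero fun r hr => ?_
      obtain ⟨i0, hi0, rfl⟩ := Finset.mem_image.1 hr
      rw [Finset.mem_filter, hG] at hi0
      refine (Finset.sum_congr ?_ fun _ _ => rfl).trans (hz (lam i0) hi0.2)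
      ext i
      rw [Finset.mem_filter, Finset.mem_filter, hF, hG]
      constructor
      · exact fun h => h.2
      · intro h
        exact ⟨⟨by rw [h]; exact hi0.1, by rw [h]; exact hi0.2⟩, h⟩
    rw [h4, h5, add_zero]
  simp only [h3] at h2
  exact tendsto_nhds_unique h2 tendsto_const_nhds


section final

variable {X : Type} [TopologicalSpace X] [CompactSpace X] [T2Space X] [MeasurableSpace X]
  [BorelSpace X] {V : Type} [NormedAddCommGroup V] [InnerProductSpace ℝ V] [FiniteDimensional ℝ V]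
  {D : HeatData X V} {T : ℝ → (X → V) → X → V} {K : ℝ → X → X → V →L[ℝ] V}
  {p : X → V →L[ℝ] V} {Q : (X → V) → X → V} {eps : X → V →L[ℝ] V}
  {ι : Type} {e : ι → X → V} {lam : ι → ℝ}

/-- Orthonormal basis of the fixed space of a matrix. -/
theorem MS1_basis {F : Type} [Fintype F] (P : Matrix F F ℝ) :
    ∃ (m : ℕ) (b : Fin m → F → ℝ), (∀ j, ∀ i, ∑ k, b j k * P k i = b j i) ∧
      (∀ i j, ∑ k, b i k * b j k = if i = j then 1 else 0) ∧
      ∀ a : F → ℝ, (∀ i, ∑ k, a k * P k i = a i) →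
        ∀ i, a i = ∑ j, (∑ k, a k * b j k) * b j i := by
  let U : Submodule ℝ (EuclideanSpace ℝ F) :=
    { carrier := {a | ∀ i, ∑ k, a k * P k i = a i}
      add_mem' := by
        intro a b ha hb i
        simp only [PiLp.add_apply, add_mul, Finset.sum_add_distrib]
        rw [ha i, hb i]
      zero_mem' := by
        intro i
        simp
      smul_mem' := by
        intro c a ha i
        simp only [PiLp.smul_apply, smul_eq_mul, mul_assoc]
        rw [← Finset.mul_sum, ha i] }
  let b := stdOrthonormalBasis ℝ U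
  have hin : ∀ x y : EuclideanSpace ℝ F, ⟪x, y⟫ = ∑ k, x k * y k := by
    intro x y
    simp only [PiLp.inner_apply, RCLike.inner_apply, conj_trivial]
    exact Finset.sum_congr rfl fun k _ => mul_comm _ _
  refine ⟨_, fun j => ((b j : U) : EuclideanSpace ℝ F), ?_, ?_, ?_⟩
  · intro j i
    exact (b j).2 i
  · intro i j
    have h1 := orthonormal_iff_ite.1 b.orthonormal i j
    rw [← h1, Submodule.coe_inner, hin]
  · intro a ha i
    let a' : U := ⟨WithLp.toLp 2 a, ha⟩
    have h1 := b.sum_repr' a'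
    have h2 := congrArg (fun z : U => (z : EuclideanSpace ℝ F) i) h1
    simp only [Submodule.coe_sum, Submodule.coe_smul, WithLp.ofLp_sum, WithLp.ofLp_smul,
      Finset.sum_apply, Pi.smul_apply, smul_eq_mul] at h2
    rw [show a i = (a' : EuclideanSpace ℝ F) i from rfl, ← h2]
    refine Finset.sum_congr rfl fun j _ => ?_
    rw [Submodule.coe_inner, hin]
    congr 1
    exact Finset.sum_congr rfl fun k _ => mul_comm _ _

theorem MS1_Q_zero (he : D.IsEigen T K e lam) (hd : D.IsDirac p Q) (i : MS1F he 0) :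
    Q (e i) = fun _ => 0 := by
  have h1 := MS1_Q_sq he hd 0
  rw [zero_smul] at h1
  have h2 : ∀ j, MS1M he 0 Q i j = 0 := by
    intro j
    have h3 := congrFun (congrFun h1 i) i
    rw [Matrix.mul_apply, Matrix.zero_apply] at h3
    have h4 : ∑ j, MS1M he 0 Q i j * MS1M he 0 Q i j = 0 :=
      Eq.trans (Finset.sum_congr rfl fun k _ => by rw [MS1_sym_Q he hd 0 k i]) h3
    have h5 := (Finset.sum_eq_zero_iff_of_nonneg fun k _ =>
      mul_self_nonneg (MS1M he 0 Q i k)).1 h4 j (Finset.mem_univ j)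
    exact mul_self_eq_zero.1 h5
  rw [MS1_Q_expand he hd 0 i]
  funext y
  exact Finset.sum_eq_zero fun j _ => by rw [h2 j, zero_smul]

theorem MS1_main (he : D.IsEigen T K e lam) (hd : D.IsDirac p Q)
    (htr : ∀ t, 0 < t → ∀ A : X → V →L[ℝ] V, Continuous A →
        HasSum (fun i => Real.exp (-lam i * t) * ∫ y, ⟪A y (e i y), e i y⟫ ∂D.mu)
          (∫ y, trC ((A y).comp (K t y y)) ∂D.mu)) :
    ∃ (m : ℕ) (h : Fin m → X → V), (∀ j, D.g.Smooth (h j)) ∧
      (∀ j y, p y (h j y) = h j y) ∧ (∀ j y, Q (h j) y = 0) ∧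
      (∀ i j, ∫ y, ⟪h i y, h j y⟫ ∂D.mu = if i = j then 1 else 0) ∧
      (∀ f, D.g.Smooth f → (∀ y, p y (f y) = f y) → (∀ y, Q f y = 0) →
        ∀ y, f y = ∑ j, (∫ z, ⟪f z, h j z⟫ ∂D.mu) • h j y) ∧
      ∀ eps, D.IsOdd p Q eps → ∀ t, 0 < t →
        ∫ y, trC ((eps y).comp (K t y y)) ∂D.mu = ∑ j, ∫ y, ⟪eps y (h j y), h j y⟫ ∂D.mu := by
  classical
  set P := MS1M he 0 (MS1mul p) with hPdef
  obtain ⟨m, b, hb1, hb2, hb3⟩ := MS1_basis P
  set h : Fin m → X → V := fun j y => ∑ i : MS1F he 0, b j i • e i y with hh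
  have hsm : ∀ j, D.g.Smooth (h j) := fun j =>
    MS1_smooth_sum Finset.univ (b j) (fun i : MS1F he 0 => e i) fun i _ => he.smooth i
  have hcont : ∀ j, Continuous (h j) := fun j => K4_smooth_cont D.g (hsm j)
  have hright : ∀ (f : X → V), Continuous f → ∀ j,
      MS1ip D f (h j) = ∑ i : MS1F he 0, b j i * MS1ip D f (e i) := fun f hf j =>
    MS1ip_sum_right D Finset.univ (b j) (fun i : MS1F he 0 => e i)
      (fun i _ => MS1_cont he i) hf
  refine ⟨m, h, hsm, ?_, ?_, ?_, ?_, ?_⟩
  · intro j y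
    have h1 : MS1mul p (h j) = fun y => ∑ i : MS1F he 0, b j i • MS1mul p (e i) y :=
      MS1_mul_sum p Finset.univ (b j) (fun i : MS1F he 0 => e i)
    have h2 : p y (h j y) = ∑ i : MS1F he 0, b j i • MS1mul p (e i) y := congrFun h1 y
    rw [h2]
    have h3 : ∀ i : MS1F he 0, b j i • MS1mul p (e i) y =
        ∑ k : MS1F he 0, (b j i * P i k) • e k y := by
      intro i
      rw [congrFun (MS1_p_expand he hd 0 i) y, Finset.smul_sum]
      exact Finset.sum_congr rfl fun k _ => by rw [smul_smul]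
    rw [Finset.sum_congr rfl fun i _ => h3 i, Finset.sum_comm]
    refine Finset.sum_congr rfl fun k _ => ?_
    rw [← Finset.sum_smul, hb1 j k]
  · intro j y
    have h1 := MS1_Q_sum hd Finset.univ (b j) (fun i : MS1F he 0 => e i) fun i _ => he.smooth i
    rw [show Q (h j) y = _ from congrFun h1 y]
    refine Finset.sum_eq_zero fun i _ => ?_
    rw [MS1_Q_zero he hd i, smul_zero]
  · intro i j
    show MS1ip D (h i) (h j) = _
    rw [hright _ (hcont i) j, ← hb2 i j]
    refine Finset.sum_congr rfl fun k _ => ?_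
    have h1 : MS1ip D (h i) (e k) = b i k := by
      rw [MS1ip_comm, hright _ (MS1_cont he k) i]
      have h2 : ∀ l : MS1F he 0, b i l * MS1ip D (e k) (e l) = if k = l then b i l else 0 := by
        intro l
        rw [MS1_orth he]
        by_cases hkl : k = l
        · subst hkl
          simp
        · have : ¬ (k : ι) = l := fun h => hkl (Subtype.ext h)
          simp [hkl, this]
      rw [Finset.sum_congr rfl fun l _ => h2 l]
      simp
    rw [h1, mul_comm]
  · intro f hf hpf hQf y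
    have hfc := K4_smooth_cont D.g hf
    have e1 : (fun z => p z (f z)) = f := funext hpf
    have e2 : Q f = fun _ => 0 := funext hQf
    have e3 : Q (fun _ => (0 : V)) = fun _ => 0 := by
      have h1 := hd.Q_smul 0 (fun _ => 0) (MS1_smooth_zero D.g)
      simpa using h1
    have hL : ∀ y, D.g.L 0 f y = (0 : ℝ) • f y := by
      intro y
      have h1 := hd.L_p f hf y
      rw [e1, e2, e3] at h1
      rw [h1, zero_smul]
    have h1 := MS1_complete he 0 hf hL
    set a : MS1F he 0 → ℝ := fun i => MS1ip D f (e i) with ha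
    have h2 : ∀ i, ∑ k, a k * P k i = a i := by
      intro i
      have h3 : MS1mul p f = fun y => ∑ k : MS1F he 0, a k • MS1mul p (e k) y := by
        conv_lhs => rw [h1]
        exact MS1_mul_sum p Finset.univ a (fun i : MS1F he 0 => e i)
      have h4 : MS1ip D (MS1mul p f) (e i) = ∑ k, a k * P k i := by
        rw [h3, MS1ip_sum D Finset.univ a (fun k : MS1F he 0 => MS1mul p (e k))
          (fun k _ => K4_smooth_cont D.g (hd.p_smooth _ (he.smooth k))) (MS1_cont he i)]
        rfl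
      rw [← h4]
      have h5 : MS1mul p f = f := e1
      rw [h5]
    have h3 := hb3 a h2
    have h4 : ∀ j, ∫ z, ⟪f z, h j z⟫ ∂D.mu = ∑ k, a k * b j k := by
      intro j
      have h5 : ∫ z, ⟪f z, h j z⟫ ∂D.mu = MS1ip D f (h j) := rfl
      rw [h5, hright f hfc j]
      exact Finset.sum_congr rfl fun k _ => mul_comm _ _
    rw [congrFun h1 y]
    show ∑ i : MS1F he 0, a i • e i y = _
    have h5 : ∀ i : MS1F he 0, a i • e i y =
        ∑ j, ((∑ k, a k * b j k) * b j i) • e i y := by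
      intro i
      rw [← Finset.sum_smul, ← h3 i]
    rw [Finset.sum_congr rfl fun i _ => h5 i, Finset.sum_comm]
    refine Finset.sum_congr rfl fun j _ => ?_
    rw [h4 j]
    simp only [hh]
    rw [Finset.smul_sum]
    exact Finset.sum_congr rfl fun i _ => by rw [smul_smul]
  · intro eps ho t ht
    have hs := htr t ht eps ho.cont
    have h0 := MS1_fibre hs he.finite (MS1F he) (fun r i => MS1_memF he) (fun r hr => by
      have h1 : ∀ i ∈ MS1F he r, Real.exp (-lam i * t) *
          ∫ y, ⟪eps y (e i y), e i y⟫ ∂D.mu =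
          Real.exp (-r * t) * MS1ip D (MS1mul eps (e i)) (e i) := by
        intro i hi
        rw [(MS1_memF he).1 hi]
        rfl
      rw [Finset.sum_congr rfl h1, ← Finset.mul_sum, ← Finset.sum_coe_sort]
      have h2 : ∑ i : MS1F he r, MS1ip D (MS1mul eps (e i)) (e i) =
          (MS1M he r (MS1mul eps)).trace := rfl
      rw [h2, MS1_trace_zero he hd ho hr, mul_zero])
    rw [h0]
    set E := MS1M he 0 (MS1mul eps) with hE
    have h1 : ∑ i ∈ MS1F he 0, Real.exp (-lam i * t) *
        ∫ y, ⟪eps y (e i y), e i y⟫ ∂D.mu = E.trace := by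
      have h2 : ∀ i ∈ MS1F he 0, Real.exp (-lam i * t) *
          ∫ y, ⟪eps y (e i y), e i y⟫ ∂D.mu = MS1ip D (MS1mul eps (e i)) (e i) := by
        intro i hi
        rw [(MS1_memF he).1 hi, neg_zero, zero_mul, Real.exp_zero, one_mul]
        rfl
      rw [Finset.sum_congr rfl h2, ← Finset.sum_coe_sort]
      rfl
    have hEP : E * P = E := MS1_E_p he hd ho 0
    rw [h1, ← hEP]
    have hP2 : ∀ i k, P i k = ∑ j, b j i * b j k := by
      intro i k
      have h3 := hb3 (fun k => P i k) (fun l => by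
        have h4 := congrFun (congrFun (MS1_p_sq he hd 0) i) l
        rw [Matrix.mul_apply] at h4
        exact h4) k
      rw [h3]
      refine Finset.sum_congr rfl fun j _ => ?_
      congr 1
      rw [← hb1 j i]
      refine Finset.sum_congr rfl fun l _ => ?_
      rw [mul_comm, hPdef, MS1_sym_p he hd 0 i l]
    have h3 : ∀ j, ∫ y, ⟪eps y (h j y), h j y⟫ ∂D.mu =
        ∑ i, ∑ k, b j i * (b j k * E i k) := by
      intro j
      have h4 : ∫ y, ⟪eps y (h j y), h j y⟫ ∂D.mu = MS1ip D (MS1mul eps (h j)) (h j) := rfl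
      have h5 : MS1mul eps (h j) = fun y => ∑ i : MS1F he 0, b j i • MS1mul eps (e i) y :=
        MS1_mul_sum eps Finset.univ (b j) (fun i : MS1F he 0 => e i)
      rw [h4, h5, MS1ip_sum D Finset.univ (b j) (fun i : MS1F he 0 => MS1mul eps (e i))
        (fun i _ => K4_smooth_cont D.g (ho.smooth _ (he.smooth i))) (hcont j)]
      refine Finset.sum_congr rfl fun i _ => ?_
      rw [hright (MS1mul eps (e i)) (K4_smooth_cont D.g (ho.smooth _ (he.smooth i))) j,
        Finset.mul_sum]
      rfl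
    rw [Finset.sum_congr rfl fun j _ => h3 j, Matrix.trace]
    simp only [Matrix.diag_apply, Matrix.mul_apply]
    symm
    rw [Finset.sum_comm]
    refine Finset.sum_congr rfl fun i _ => ?_
    rw [Finset.sum_comm]
    refine Finset.sum_congr rfl fun k _ => ?_
    rw [hP2 k i, Finset.mul_sum]
    refine Finset.sum_congr rfl fun j _ => ?_
    ring

end final

/-- McKean-Singer. -/
theorem thm_MS (h1 : claimEigen) (h2 : claimTrace) : claimMS := by
  intro X _ _ _ _ _ V _ _ _ D T K hT hK p Q hd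
  obtain ⟨ι, e, lam, he⟩ := h1 X V D T K hT hK
  exact MS1_main he hd fun t ht A hA => (h2 X V D T K hT hK ι e lam he t ht).2 A hA

end NRF

end
end

section

/-!
# MS2: solvability of `Q² u = f` on sections
-/

open scoped Manifold ContDiff Topology RealInnerProductSpace
open MeasureTheory Set Filter

noncomputable section

set_option linter.unusedSectionVars false

namespace NRF

section

variable {X : Type} [TopologicalSpace X] [CompactSpace X] [T2Space X] [MeasurableSpace X]
  [BorelSpace X] {V : Type} [NormedAddCommGroup V] [InnerProductSpace ℝ V] [FiniteDimensional ℝ V]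

theorem MS2_cont {g : Geom X V} {f : X → V} (hf : g.Smooth f) : Continuous f := by
  rw [continuous_iff_continuousAt]
  intro y
  obtain ⟨hy1, hy2⟩ := k1_ch g y
  set i := g.ch y
  have h1 : ContDiffAt ℝ ∞ (fun x => f ((g.psi i).symm x)) (g.psi i y) :=
    k1_contDiffAt g le_rfl hf i ((g.psi i).map_source hy1)
  have h2 : ContinuousAt (fun z => f ((g.psi i).symm (g.psi i z))) y :=
    ContinuousAt.comp (f := g.psi i) (g := fun x => f ((g.psi i).symm x)) h1.continuousAt
      ((g.psi i).continuousAt hy1)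
  refine h2.congr ?_
  filter_upwards [(g.psi i).open_source.mem_nhds hy1] with z hz
  rw [(g.psi i).left_inv hz]

/-- A smooth function with zero `L²` norm vanishes. -/
theorem MS2_zero (D : HeatData X V) {f : X → V} (hf : D.g.Smooth f)
    (h : ∫ y, ⟪f y, f y⟫ ∂D.mu = 0) (y : X) : f y = 0 := by
  have hc := MS2_cont hf
  have h1 := k1_full D (F := fun y => ⟪f y, f y⟫) (hc.inner hc)
    (fun y => real_inner_self_nonneg) h y
  exact inner_self_eq_zero.mp h1

end

theorem thm_QQ (h1 : claimEigen) (h2 : claimGreenOp) : claimQQ := by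
  intro X _ _ _ _ _ V _ _ _ D T K hT hK p Q hQ f hf hpf horth
  obtain ⟨ι, e, lam, he⟩ := h1 X V D T K hT hK
  have key : ∀ i, lam i = 0 → ∫ y, ⟪f y, e i y⟫ ∂D.mu = 0 := by
    intro i hi
    have hpe : D.g.Smooth fun y => p y (e i y) := hQ.p_smooth _ (he.smooth i)
    have hQe : D.g.Smooth (Q (e i)) := hQ.Q_smooth _ (he.smooth i)
    have hQQ : ∀ y, Q (Q (e i)) y = 0 := by
      intro y
      rw [← hQ.p_L _ (he.smooth i) y, he.eig i y, hi, zero_smul, map_zero]
    have hQ0 : ∀ y, Q (e i) y = 0 := by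
      refine MS2_zero D hQe ?_
      rw [hQ.Q_symm _ _ (he.smooth i) hQe]
      simp [hQQ]
    have hQp : ∀ y, Q (fun z => p z (e i z)) y = 0 := by
      intro y
      rw [hQ.Q_p _ (he.smooth i)]
      exact hQ0 y
    have h3 := horth _ hpe (fun y => hQ.p_proj y _) hQp
    have h4 : ∀ y, ⟪f y, e i y⟫ = ⟪f y, p y (e i y)⟫ := by
      intro y
      rw [← hQ.p_symm, hpf]
    simp only [h4]
    exact h3
  obtain ⟨v, hv, hLv⟩ := h2 X V D T K hT hK ι e lam he f hf key
  refine ⟨fun y => p y (v y), hQ.p_smooth _ hv, fun y => hQ.p_proj y _, fun y => ?_⟩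
  rw [hQ.Q_p _ hv, ← hQ.p_L _ hv y, hLv y, hpf]

end NRF

end
end

section

/-!
# MS3: the small time limit of the trace
-/

open scoped Manifold ContDiff Topology RealInnerProductSpace
open MeasureTheory Set Filter

noncomputable section

namespace NRF

/-- The trace as a continuous linear map. -/
def MS3_tr (V : Type) [NormedAddCommGroup V] [InnerProductSpace ℝ V] [FiniteDimensional ℝ V] :
    (V →L[ℝ] V) →L[ℝ] ℝ :=
  LinearMap.toContinuousLinearMap ((LinearMap.trace ℝ V).comp (ContinuousLinearMap.coeLM ℝ))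

theorem MS3_tr_apply {V : Type} [NormedAddCommGroup V] [InnerProductSpace ℝ V]
    [FiniteDimensional ℝ V] (A : V →L[ℝ] V) : MS3_tr V A = trC A := rfl

/-- If a polynomial of degree less than `n` is `O(r^n)` on `(0,1]`, it vanishes. -/
theorem MS3_poly (n : ℕ) : ∀ (b : ℕ → ℝ) (C : ℝ),
    (∀ r ∈ Ioc (0 : ℝ) 1, |∑ w ∈ Finset.range n, r ^ w * b w| ≤ C * r ^ n) →
    ∀ w < n, b w = 0 := by
  induction n with
  | zero => intro b C _ w hw; omega
  | succ n ih =>
    intro b C h
    have h0 : b 0 = 0 := by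
      have hc1 : Tendsto (fun r : ℝ => |∑ w ∈ Finset.range (n + 1), r ^ w * b w|) (𝓝[>] 0)
          (𝓝 |∑ w ∈ Finset.range (n + 1), (0 : ℝ) ^ w * b w|) := by
        have : Continuous fun r : ℝ => |∑ w ∈ Finset.range (n + 1), r ^ w * b w| := by fun_prop
        exact (this.tendsto 0).mono_left nhdsWithin_le_nhds
      have hc2 : Tendsto (fun r : ℝ => C * r ^ (n + 1)) (𝓝[>] 0) (𝓝 (C * 0 ^ (n + 1))) := by
        have : Continuous fun r : ℝ => C * r ^ (n + 1) := by fun_prop
        exact (this.tendsto 0).mono_left nhdsWithin_le_nhds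
      have hle : |∑ w ∈ Finset.range (n + 1), (0 : ℝ) ^ w * b w| ≤ C * 0 ^ (n + 1) := by
        refine le_of_tendsto_of_tendsto hc1 hc2 ?_
        filter_upwards [Ioc_mem_nhdsGT (show (0 : ℝ) < 1 by norm_num)] with r hr using h r hr
      rw [Finset.sum_range_succ'] at hle
      simp at hle
      exact hle
    have h1 : ∀ w < n, b (w + 1) = 0 := by
      refine ih (fun w => b (w + 1)) C fun r hr => ?_
      have h2 := h r hr
      rw [Finset.sum_range_succ', h0] at h2
      have h3 : ∑ w ∈ Finset.range n, r ^ (w + 1) * b (w + 1) =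
          r * ∑ w ∈ Finset.range n, r ^ w * b (w + 1) := by
        rw [Finset.mul_sum]
        exact Finset.sum_congr rfl fun w _ => by ring
      rw [h3, mul_zero, add_zero, abs_mul, abs_of_pos hr.1, pow_succ, ← mul_assoc, mul_comm r] at h2
      exact le_of_mul_le_mul_right h2 hr.1
    intro w hw
    rcases w with _ | w
    · exact h0
    · exact h1 w (by omega)

theorem thm_SmallTime : claimSmallTime := by
  intro X _ _ _ _ _ V _ _ _ mu _ k c eps C s hk hc he hb hs
  obtain ⟨E, hE⟩ := isCompact_univ.exists_bound_of_continuousOn he.continuousOn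
  have hE' : ∀ y, ‖eps y‖ ≤ max E 0 := fun y => (hE y (mem_univ y)).trans (le_max_left _ _)
  have hint : ∀ A : X → V →L[ℝ] V, Continuous A →
      Integrable (fun y => trC ((eps y).comp (A y))) mu := by
    intro A hA
    have h1 : Continuous fun y => trC ((eps y).comp (A y)) :=
      (MS3_tr V).continuous.comp (he.clm_comp hA)
    exact h1.integrable_of_hasCompactSupport (HasCompactSupport.of_compactSpace _)
  let a : ℕ → ℝ := fun w => ∫ y, trC ((eps y).comp (c w y)) ∂mu
  let b : ℕ → ℝ := fun w => a w - if w = 4 then s else 0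
  have key : ∀ r ∈ Ioc (0 : ℝ) 1, |∑ w ∈ Finset.range 5, r ^ w * b w| ≤
      (‖MS3_tr V‖ * max E 0 * C * mu.real univ) * r ^ 5 := by
    intro r hr
    have ht : r ^ 2 ∈ Ioc (0 : ℝ) 1 := ⟨by have := hr.1; positivity, pow_le_one₀ hr.1.le hr.2⟩
    have hsq : Real.sqrt (r ^ 2) = r := Real.sqrt_sq hr.1.le
    have hb' := hb _ ht
    rw [hsq] at hb'
    have e1 : ∑ w ∈ Finset.range 5, r ^ w * b w =
        -∫ y, MS3_tr V ((eps y).comp ((r ^ 2) ^ 2 • k (r ^ 2) y -
          ∑ w ∈ Finset.range 5, r ^ w • c w y)) ∂mu := by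
      have e2 : ∀ y, MS3_tr V ((eps y).comp ((r ^ 2) ^ 2 • k (r ^ 2) y -
          ∑ w ∈ Finset.range 5, r ^ w • c w y)) =
          (r ^ 2) ^ 2 * trC ((eps y).comp (k (r ^ 2) y)) -
            ∑ w ∈ Finset.range 5, r ^ w * trC ((eps y).comp (c w y)) := by
        intro y
        rw [ContinuousLinearMap.comp_sub, ContinuousLinearMap.comp_smul,
          ContinuousLinearMap.comp_finsetSum]
        simp only [ContinuousLinearMap.comp_smul, map_sub, map_smul, map_sum, smul_eq_mul,
          MS3_tr_apply]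
      simp only [e2]
      rw [integral_sub ((hint _ (hk _ ht.1)).const_mul _)
        (integrable_finsetSum _ fun w _ => (hint _ (hc w)).const_mul _),
        integral_const_mul, hs _ ht.1, integral_finsetSum _ fun w _ => (hint _ (hc w)).const_mul _]
      simp only [integral_const_mul]
      show ∑ w ∈ Finset.range 5, r ^ w * (a w - if w = 4 then s else 0) = _
      simp only [mul_sub, Finset.sum_sub_distrib]
      have e3 : ∑ w ∈ Finset.range 5, r ^ w * (if w = 4 then s else 0) = r ^ 4 * s := by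
        simp
      rw [e3]
      show _ = -((r ^ 2) ^ 2 * s - ∑ w ∈ Finset.range 5, r ^ w * a w)
      ring
    rw [e1, abs_neg, ← Real.norm_eq_abs]
    refine (norm_integral_le_of_norm_le_const (C := ‖MS3_tr V‖ * (max E 0 * (C * r ^ 5)))
      (Eventually.of_forall fun y => ?_)).trans (le_of_eq (by ring))
    refine ((MS3_tr V).le_opNorm _).trans (mul_le_mul_of_nonneg_left ?_ (norm_nonneg _))
    refine (ContinuousLinearMap.opNorm_comp_le _ _).trans ?_
    exact mul_le_mul (hE' y) (hb' y) (norm_nonneg _) (le_max_right _ _)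
  have := MS3_poly 5 b _ key 4 (by norm_num)
  simp only [b, a, if_true] at this
  linarith

end NRF

end
end

section

/-!
# Module D, item SP1: the heat operators on `L²`
-/

open scoped Manifold ContDiff Topology RealInnerProductSpace BoundedContinuousFunction
open MeasureTheory Set Filter

noncomputable section

namespace NRF

section

variable {X : Type} [TopologicalSpace X] [CompactSpace X] [SecondCountableTopology X]
  [MeasurableSpace X] [BorelSpace X] {V : Type} [NormedAddCommGroup V] [InnerProductSpace ℝ V]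
  [FiniteDimensional ℝ V] {k : X → X → V →L[ℝ] V}

theorem SP1_bound (hk : Continuous fun p : X × X => k p.1 p.2) :
    ∃ M, 0 ≤ M ∧ ∀ x y, ‖k x y‖ ≤ M := by
  obtain ⟨M, hM⟩ := isCompact_univ.exists_bound_of_continuousOn
    (f := fun p : X × X => k p.1 p.2) hk.continuousOn
  refine ⟨max M 0, le_max_right _ _, fun x y => (hM (x, y) (mem_univ _)).trans (le_max_left _ _)⟩

theorem SP1_near (hk : Continuous fun p : X × X => k p.1 p.2) (x0 : X) {ε : ℝ} (hε : 0 < ε) :
    ∀ᶠ x in 𝓝 x0, ∀ y, ‖k x y - k x0 y‖ < ε := by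
  have h1 : Continuous fun p : X × X => ‖k p.1 p.2 - k x0 p.2‖ :=
    (hk.sub (hk.comp (continuous_const.prodMk continuous_snd))).norm
  have h2 : ∀ y : X, ∀ᶠ p : X × X in 𝓝 (x0, y), ‖k p.1 p.2 - k x0 p.2‖ < ε := by
    intro y
    have := h1.continuousAt (x := (x0, y))
    refine this.eventually (gt_mem_nhds ?_)
    simpa using hε
  have h3 : ∀ᶠ p : X × X in 𝓝 x0 ×ˢ ⊤, ‖k p.1 p.2 - k x0 p.2‖ < ε := by
    have := isCompact_univ (X := X)
    have h4 : ∀ᶠ p : X × X in 𝓝 x0 ×ˢ 𝓝ˢ (univ : Set X), ‖k p.1 p.2 - k x0 p.2‖ < ε := by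
      rw [← nhdsSet_singleton, ← isCompact_singleton.nhdsSet_prod_eq isCompact_univ]
      rw [Filter.Eventually, mem_nhdsSet_iff_forall]
      rintro ⟨a, b⟩ ⟨ha, -⟩
      rw [mem_singleton_iff] at ha
      simp only at ha
      subst ha
      exact h2 b
    rw [nhdsSet_univ] at h4
    exact h4
  rw [Filter.eventually_prod_iff] at h3
  obtain ⟨pa, hpa, pb, hpb, h⟩ := h3
  rw [Filter.eventually_top] at hpb
  filter_upwards [hpa] with x hx y
  exact h hx (hpb y)

variable {μ : Measure X} [IsFiniteMeasure μ]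

theorem SP1_meas (hk : Continuous fun p : X × X => k p.1 p.2) {f : X → V}
    (hf : AEStronglyMeasurable f μ) (x : X) : AEStronglyMeasurable (fun y => k x y (f y)) μ := by
  have h1 : Continuous fun y => k x y := hk.comp (continuous_const.prodMk continuous_id)
  have h2 : AEStronglyMeasurable (fun y => (k x y, f y)) μ :=
    h1.aestronglyMeasurable.prodMk hf
  have h3 : Continuous fun p : (V →L[ℝ] V) × V => p.1 p.2 :=
    isBoundedBilinearMap_apply.continuous
  exact h3.comp_aestronglyMeasurable h2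

theorem SP1_integrable (hk : Continuous fun p : X × X => k p.1 p.2) {f : X → V}
    (hf : Integrable f μ) (x : X) : Integrable (fun y => k x y (f y)) μ := by
  obtain ⟨M, -, hM⟩ := SP1_bound hk
  refine (hf.norm.const_mul M).mono' (SP1_meas hk hf.aestronglyMeasurable x) ?_
  refine Eventually.of_forall fun y => ?_
  exact (ContinuousLinearMap.le_opNorm _ _).trans
    (mul_le_mul_of_nonneg_right (hM x y) (norm_nonneg _))

theorem SP1_Lp_integrable (f : Lp V 2 μ) : Integrable f μ :=
  (Lp.memLp f).integrable one_le_two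

variable (V μ) in
theorem SP1_l1 : ∃ c : ℝ, 0 ≤ c ∧ ∀ f : Lp V 2 μ, ∫ y, ‖f y‖ ∂μ ≤ c * ‖f‖ := by
  refine ⟨(μ univ ^ (1 / (1 : ENNReal).toReal - 1 / (2 : ENNReal).toReal)).toReal,
    ENNReal.toReal_nonneg, fun f => ?_⟩
  have h1 : ∫ y, ‖f y‖ ∂μ = (eLpNorm f 1 μ).toReal := by
    rw [integral_norm_eq_lintegral_enorm (Lp.aestronglyMeasurable f),
      eLpNorm_one_eq_lintegral_enorm]
  rw [h1, Lp.norm_def, ← ENNReal.toReal_mul, mul_comm]
  refine ENNReal.toReal_mono ?_
    (eLpNorm_le_eLpNorm_mul_rpow_measure_univ one_le_two (Lp.aestronglyMeasurable f))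
  refine ENNReal.mul_ne_top (Lp.eLpNorm_ne_top f) (ENNReal.rpow_ne_top_of_nonneg ?_
    (measure_ne_top μ _))
  norm_num

theorem SP1_diff (hk : Continuous fun p : X × X => k p.1 p.2) {f : X → V}
    (hf : Integrable f μ) {x x0 : X} {ε : ℝ} (h : ∀ y, ‖k x y - k x0 y‖ < ε) :
    ‖∫ y, k x y (f y) ∂μ - ∫ y, k x0 y (f y) ∂μ‖ ≤ ε * ∫ y, ‖f y‖ ∂μ := by
  rw [← integral_sub (SP1_integrable hk hf x) (SP1_integrable hk hf x0), ← integral_const_mul]
  refine norm_integral_le_of_norm_le (hf.norm.const_mul ε) (Eventually.of_forall fun y => ?_)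
  have : k x y (f y) - k x0 y (f y) = (k x y - k x0 y) (f y) := rfl
  rw [this]
  exact (ContinuousLinearMap.le_opNorm _ _).trans
    (mul_le_mul_of_nonneg_right (h y).le (norm_nonneg _))

theorem SP1_cont (hk : Continuous fun p : X × X => k p.1 p.2) {f : X → V}
    (hf : Integrable f μ) : Continuous fun x => ∫ y, k x y (f y) ∂μ := by
  rw [continuous_iff_continuousAt]
  intro x0
  rw [Metric.continuousAt_iff']
  intro ε hε
  have hI : 0 ≤ ∫ y, ‖f y‖ ∂μ := integral_nonneg fun _ => norm_nonneg _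
  have hpos : 0 < ε / (∫ y, ‖f y‖ ∂μ + 1) := by positivity
  filter_upwards [SP1_near hk x0 hpos] with x hx
  rw [dist_eq_norm]
  refine (SP1_diff hk hf hx).trans_lt ?_
  rw [div_mul_eq_mul_div, div_lt_iff₀ (by linarith)]
  nlinarith

/-- The operator `L² → C(X, V)`. -/
def SP1_B (μ : Measure X) [IsFiniteMeasure μ] (hk : Continuous fun p : X × X => k p.1 p.2) :
    Lp V 2 μ →L[ℝ] (X →ᵇ V) :=
  LinearMap.mkContinuousOfExistsBound
    { toFun := fun f => BoundedContinuousFunction.mkOfCompact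
        ⟨fun x => ∫ y, k x y (f y) ∂μ, SP1_cont hk (SP1_Lp_integrable f)⟩
      map_add' := fun f h => by
        ext x
        simp only [BoundedContinuousFunction.mkOfCompact_apply, ContinuousMap.coe_mk,
          BoundedContinuousFunction.coe_add, Pi.add_apply]
        rw [← integral_add (SP1_integrable hk (SP1_Lp_integrable f) x)
          (SP1_integrable hk (SP1_Lp_integrable h) x)]
        refine integral_congr_ae ?_
        filter_upwards [Lp.coeFn_add f h] with y hy
        rw [hy, Pi.add_apply, map_add]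
      map_smul' := fun c f => by
        ext x
        simp only [BoundedContinuousFunction.mkOfCompact_apply, ContinuousMap.coe_mk,
          BoundedContinuousFunction.coe_smul, RingHom.id_apply]
        rw [← integral_smul]
        refine integral_congr_ae ?_
        filter_upwards [Lp.coeFn_smul c f] with y hy
        rw [hy, Pi.smul_apply, map_smul] }
    (by
      obtain ⟨M, hM0, hM⟩ := SP1_bound hk
      obtain ⟨c, hc0, hc⟩ := SP1_l1 V μ
      refine ⟨M * c, fun f => ?_⟩
      rw [BoundedContinuousFunction.norm_le (by positivity)]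
      intro x
      show ‖∫ y, k x y (f y) ∂μ‖ ≤ _
      refine (norm_integral_le_of_norm_le ((SP1_Lp_integrable f).norm.const_mul M)
        (Eventually.of_forall fun y => (ContinuousLinearMap.le_opNorm _ _).trans
          (mul_le_mul_of_nonneg_right (hM x y) (norm_nonneg _)))).trans ?_
      rw [integral_const_mul, mul_assoc]
      exact mul_le_mul_of_nonneg_left (hc f) hM0)

theorem SP1_B_apply (hk : Continuous fun p : X × X => k p.1 p.2) (f : Lp V 2 μ) (x : X) :
    SP1_B μ hk f x = ∫ y, k x y (f y) ∂μ := rfl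

theorem SP1_B_compact (hk : Continuous fun p : X × X => k p.1 p.2) :
    IsCompactOperator (SP1_B μ hk) := by
  have := FiniteDimensional.proper_real V
  rw [isCompactOperator_iff_exists_mem_nhds_isCompact_closure_image]
  refine ⟨Metric.closedBall 0 1, Metric.closedBall_mem_nhds _ one_pos, ?_⟩
  refine BoundedContinuousFunction.arzela_ascoli (Metric.closedBall 0 ‖SP1_B μ hk‖)
    (isCompact_closedBall _ _) _ ?_ ?_
  · rintro _ x ⟨f, hf, rfl⟩
    rw [mem_closedBall_zero_iff] at hf ⊢
    refine (BoundedContinuousFunction.norm_coe_le_norm _ x).trans ?_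
    refine (ContinuousLinearMap.le_opNorm _ _).trans ?_
    exact mul_le_of_le_one_right (norm_nonneg _) hf
  · intro x0
    rw [Metric.equicontinuousAt_iff_right]
    intro ε hε
    obtain ⟨c, hc0, hc⟩ := SP1_l1 V μ
    have hpos : 0 < ε / (c + 1) := by positivity
    filter_upwards [SP1_near hk x0 hpos] with x hx
    rintro ⟨_, f, hf, rfl⟩
    rw [mem_closedBall_zero_iff] at hf
    show dist (SP1_B μ hk f x0) (SP1_B μ hk f x) < ε
    rw [dist_comm, dist_eq_norm, SP1_B_apply, SP1_B_apply]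
    refine (SP1_diff hk (SP1_Lp_integrable f) hx).trans_lt ?_
    have h1 : ∫ y, ‖f y‖ ∂μ ≤ c := (hc f).trans (by nlinarith)
    rw [div_mul_eq_mul_div, div_lt_iff₀ (by linarith)]
    nlinarith

/-- The operator on `L²`. -/
def SP1_A (μ : Measure X) [IsFiniteMeasure μ] (hk : Continuous fun p : X × X => k p.1 p.2) :
    Lp V 2 μ →L[ℝ] Lp V 2 μ :=
  (BoundedContinuousFunction.toLp 2 μ ℝ).comp (SP1_B μ hk)

theorem SP1_A_apply (hk : Continuous fun p : X × X => k p.1 p.2) (f : Lp V 2 μ) :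
    SP1_A μ hk f =ᵐ[μ] fun x => ∫ y, k x y (f y) ∂μ :=
  BoundedContinuousFunction.coeFn_toLp 2 μ ℝ (SP1_B μ hk f)

theorem SP1_A_compact (hk : Continuous fun p : X × X => k p.1 p.2) :
    IsCompactOperator (SP1_A μ hk) := by
  have h := (SP1_B_compact (μ := μ) hk).clm_comp
    (BoundedContinuousFunction.toLp 2 μ ℝ : (X →ᵇ V) →L[ℝ] Lp V 2 μ)
  exact h

theorem SP1_A_inner (hk : Continuous fun p : X × X => k p.1 p.2) (f h : Lp V 2 μ) :
    ⟪SP1_A μ hk f, h⟫ = ∫ x, (∫ y, ⟪k x y (f y), h x⟫ ∂μ) ∂μ := by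
  have := FiniteDimensional.complete ℝ V
  rw [L2.inner_def]
  refine integral_congr_ae ?_
  filter_upwards [SP1_A_apply hk f] with x hx
  rw [hx, real_inner_comm, ← integral_inner (SP1_integrable hk (SP1_Lp_integrable f) x)]
  simp only [real_inner_comm]

theorem SP1_swap (hk : Continuous fun p : X × X => k p.1 p.2) {f h : X → V}
    (hf : Integrable f μ) (hh : Integrable h μ) :
    ∫ x, (∫ y, ⟪k x y (f y), h x⟫ ∂μ) ∂μ = ∫ y, (∫ x, ⟪k x y (f y), h x⟫ ∂μ) ∂μ := by
  obtain ⟨M, hM0, hM⟩ := SP1_bound hk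
  refine integral_integral_swap ?_
  refine ((hh.norm.mul_prod hf.norm).const_mul M).mono' ?_ ?_
  · have h1 : AEStronglyMeasurable (fun p : X × X => k p.1 p.2) (μ.prod μ) :=
      hk.aestronglyMeasurable
    have h2 : AEStronglyMeasurable (fun p : X × X => f p.2) (μ.prod μ) :=
      hf.aestronglyMeasurable.comp_snd
    have h3 : AEStronglyMeasurable (fun p : X × X => h p.1) (μ.prod μ) :=
      hh.aestronglyMeasurable.comp_fst
    have h4 : Continuous fun p : (V →L[ℝ] V) × V => p.1 p.2 :=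
      isBoundedBilinearMap_apply.continuous
    have h5 : AEStronglyMeasurable (fun p : X × X => k p.1 p.2 (f p.2)) (μ.prod μ) :=
      h4.comp_aestronglyMeasurable (h1.prodMk h2)
    exact h5.inner h3
  · refine Eventually.of_forall fun p => ?_
    simp only [Function.uncurry]
    refine (norm_inner_le_norm _ _).trans ?_
    have h1 : ‖k p.1 p.2 (f p.2)‖ ≤ M * ‖f p.2‖ := (ContinuousLinearMap.le_opNorm _ _).trans
      (mul_le_mul_of_nonneg_right (hM _ _) (norm_nonneg _))
    have h2 := mul_le_mul_of_nonneg_right h1 (norm_nonneg (h p.1))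
    linarith

theorem SP1_A_symm (hk : Continuous fun p : X × X => k p.1 p.2)
    (hs : ∀ x y v w, ⟪k x y v, w⟫ = ⟪v, k y x w⟫) (f h : Lp V 2 μ) :
    ⟪SP1_A μ hk f, h⟫ = ⟪f, SP1_A μ hk h⟫ := by
  rw [SP1_A_inner, SP1_swap hk (SP1_Lp_integrable f) (SP1_Lp_integrable h), real_inner_comm,
    SP1_A_inner]
  refine integral_congr_ae (Eventually.of_forall fun y => ?_)
  refine integral_congr_ae (Eventually.of_forall fun x => ?_)
  simp only
  rw [hs, real_inner_comm]

theorem SP1_A_comp {k1 k2 k3 : X → X → V →L[ℝ] V} (hk1 : Continuous fun p : X × X => k1 p.1 p.2)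
    (hk2 : Continuous fun p : X × X => k2 p.1 p.2) (hk3 : Continuous fun p : X × X => k3 p.1 p.2)
    (hc : ∀ x z v, k3 x z v = ∫ y, k1 x y (k2 y z v) ∂μ) (f : Lp V 2 μ) :
    SP1_A μ hk3 f = SP1_A μ hk1 (SP1_A μ hk2 f) := by
  have := FiniteDimensional.complete ℝ V
  have hf := SP1_Lp_integrable f
  refine Lp.ext ?_
  filter_upwards [SP1_A_apply hk3 f, SP1_A_apply hk1 (SP1_A μ hk2 f)] with x h1 h2
  rw [h1, h2]
  have e1 : ∫ y, k1 x y (SP1_A μ hk2 f y) ∂μ = ∫ y, (∫ z, k1 x y (k2 y z (f z)) ∂μ) ∂μ := by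
    refine integral_congr_ae ?_
    filter_upwards [SP1_A_apply hk2 f] with y hy
    rw [hy, ← ContinuousLinearMap.integral_comp_comm _ (SP1_integrable hk2 hf y)]
  rw [e1]
  obtain ⟨M1, hM10, hM1⟩ := SP1_bound hk1
  obtain ⟨M2, hM20, hM2⟩ := SP1_bound hk2
  rw [integral_integral_swap]
  · refine integral_congr_ae (Eventually.of_forall fun z => ?_)
    exact hc x z (f z)
  · refine (((integrable_const (1 : ℝ)).mul_prod hf.norm).const_mul (M1 * M2)).mono' ?_ ?_
    · have g1 : Continuous fun p : X × X => (k1 x p.1).comp (k2 p.1 p.2) :=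
        ((hk1.comp (continuous_const.prodMk continuous_fst)).clm_comp hk2)
      have g2 : AEStronglyMeasurable (fun p : X × X => f p.2) (μ.prod μ) :=
        hf.aestronglyMeasurable.comp_snd
      have g4 : Continuous fun p : (V →L[ℝ] V) × V => p.1 p.2 :=
        isBoundedBilinearMap_apply.continuous
      exact g4.comp_aestronglyMeasurable (g1.aestronglyMeasurable.prodMk g2)
    · refine Eventually.of_forall fun p => ?_
      simp only [Function.uncurry]
      have h3 : ‖k2 p.1 p.2 (f p.2)‖ ≤ M2 * ‖f p.2‖ := (ContinuousLinearMap.le_opNorm _ _).trans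
        (mul_le_mul_of_nonneg_right (hM2 _ _) (norm_nonneg _))
      have h4 : ‖k1 x p.1 (k2 p.1 p.2 (f p.2))‖ ≤ M1 * ‖k2 p.1 p.2 (f p.2)‖ :=
        (ContinuousLinearMap.le_opNorm _ _).trans
          (mul_le_mul_of_nonneg_right (hM1 _ _) (norm_nonneg _))
      have h5 := mul_le_mul_of_nonneg_left h3 hM10
      rw [one_mul]
      linarith

end

/-- SP1: the heat operators on `L²`. -/
theorem thm_HeatL2 : claimHeatL2 := by
  intro X _ _ _ _ _ V _ _ _ D T K hT hK
  have := D.fin
  have := K4_second D.g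
  have hk : ∀ t : ℝ, 0 < t → Continuous fun p : X × X => K t p.1 p.2 := fun t ht =>
    hK.cont.comp_continuous (f := fun p : X × X => (t, p.1, p.2)) (by fun_prop)
      (fun p => ⟨ht, mem_univ _⟩)
  classical
  set TT : ℝ → Lp V 2 D.mu →L[ℝ] Lp V 2 D.mu := fun t =>
    if ht : 0 < t then SP1_A D.mu (hk t ht) else 0 with hTT
  have hval : ∀ t (ht : 0 < t), TT t = SP1_A D.mu (hk t ht) := fun t ht => by
    rw [hTT]; simp only [dif_pos ht]
  have hsymm : ∀ t, 0 < t → ∀ f h : Lp V 2 D.mu, ⟪TT t f, h⟫ = ⟪f, TT t h⟫ := by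
    intro t ht f h
    rw [hval t ht]
    exact SP1_A_symm (hk t ht) (hK.symm t ht) f h
  have hcomp : ∀ s t, 0 < s → 0 < t → ∀ f, TT (s + t) f = TT s (TT t f) := by
    intro s t hs ht f
    rw [hval s hs, hval t ht, hval (s + t) (add_pos hs ht)]
    exact SP1_A_comp (hk s hs) (hk t ht) _ (hK.comp s t hs ht) f
  refine ⟨TT, ?_, ?_, hsymm, hcomp, ?_⟩
  · intro t ht f
    rw [hval t ht]
    exact SP1_A_apply (hk t ht) f
  · intro t ht
    rw [hval t ht]
    exact SP1_A_compact (hk t ht)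
  · intro t ht f
    have h1 := hcomp (t / 2) (t / 2) (by linarith) (by linarith) f
    rw [add_halves] at h1
    rw [h1, hsymm (t / 2) (by linarith)]
    exact real_inner_self_nonneg

end NRF

end
end

section

/-!
# SP2: eigenfunctions of the heat operator
-/

open scoped Manifold ContDiff Topology RealInnerProductSpace
open MeasureTheory Set Filter

noncomputable section

set_option linter.unusedSectionVars false

namespace NRF

/-! ## Hilbert spaces -/

section hilbert

variable {H : Type} [NormedAddCommGroup H] [InnerProductSpace ℝ H] [CompleteSpace H]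

open Module.End

/-- Parseval for vectors in the closed span of an orthonormal family. -/
theorem sp2_parseval {ι : Type} {b : ι → H} (hb : Orthonormal ℝ b) {x y : H}
    (hx : ∀ f, (∀ i, ⟪b i, f⟫ = 0) → ⟪f, x⟫ = 0)
    (hy : ∀ f, (∀ i, ⟪b i, f⟫ = 0) → ⟪f, y⟫ = 0) :
    HasSum (fun i => ⟪x, b i⟫ * ⟪b i, y⟫) ⟪x, y⟫ := by
  set S : Submodule ℝ H := Submodule.span ℝ (Set.range b) with hS
  set M : Submodule ℝ H := S.topologicalClosure with hM
  have hMc : IsClosed (M : Set H) := S.isClosed_topologicalClosure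
  have : CompleteSpace M := hMc.completeSpace_coe
  have hmem : ∀ {z : H}, (∀ f, (∀ i, ⟪b i, f⟫ = 0) → ⟪f, z⟫ = 0) → z ∈ M := by
    intro z hz
    rw [hM, ← Submodule.orthogonal_orthogonal_eq_closure, Submodule.mem_orthogonal]
    intro f hf
    apply hz f
    intro i
    exact (Submodule.mem_orthogonal S f).1 hf _ (Submodule.subset_span ⟨i, rfl⟩)
  have hbM : ∀ i, b i ∈ M := fun i =>
    S.le_topologicalClosure (Submodule.subset_span ⟨i, rfl⟩)
  set v : ι → M := fun i => ⟨b i, hbM i⟩ with hv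
  have hvo : Orthonormal ℝ v := by
    have h1 : (M.subtypeₗᵢ : M → H) ∘ v = b := rfl
    rw [← h1] at hb
    exact (M.subtypeₗᵢ.orthonormal_comp_iff).1 hb
  have hbot : (Submodule.span ℝ (Set.range v))ᗮ = ⊥ := by
    rw [Submodule.eq_bot_iff]
    intro m hm
    have h1 : ∀ i, ⟪b i, (m : H)⟫ = 0 := by
      intro i
      exact (Submodule.mem_orthogonal _ m).1 hm (v i) (Submodule.subset_span ⟨i, rfl⟩)
    have h2 : (m : H) ∈ Sᗮ := by
      rw [Submodule.mem_orthogonal]
      intro u hu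
      refine Submodule.span_induction (p := fun u _ => ⟪u, (m : H)⟫ = 0) ?_ ?_ ?_ ?_ hu
      · rintro _ ⟨i, rfl⟩
        exact h1 i
      · exact inner_zero_left _
      · intro a c _ _ ha hc
        rw [inner_add_left, ha, hc, add_zero]
      · intro r a _ ha
        rw [inner_smul_left, ha, mul_zero]
    rw [← Submodule.orthogonal_closure] at h2
    have h3 : ⟪(m : H), (m : H)⟫ = 0 := (Submodule.mem_orthogonal _ _).1 h2 _ m.2
    rw [inner_self_eq_zero] at h3
    exact Subtype.ext h3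
  set B := HilbertBasis.mkOfOrthogonalEqBot hvo hbot with hB
  have h4 := B.hasSum_inner_mul_inner ⟨x, hmem hx⟩ ⟨y, hmem hy⟩
  rw [hB, HilbertBasis.coe_mkOfOrthogonalEqBot] at h4
  exact h4

/-- Uniqueness of the positive square root on an eigenvector. -/
theorem sp2_root (S : H →L[ℝ] H) (hpos : ∀ f, 0 ≤ ⟪S f, f⟫) {ν : ℝ} (hν : 0 < ν) {f : H}
    (h : S (S f) = (ν * ν) • f) : S f = ν • f := by
  have h1 : S (S f - ν • f) = -(ν • (S f - ν • f)) := by
    rw [map_sub, map_smul, h, smul_sub, smul_smul]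
    abel
  have h2 := hpos (S f - ν • f)
  rw [h1, inner_neg_left, inner_smul_left] at h2
  have h3 : 0 ≤ ⟪S f - ν • f, S f - ν • f⟫ := real_inner_self_nonneg
  simp only [conj_trivial] at h2
  have h4 : ⟪S f - ν • f, S f - ν • f⟫ = 0 := by nlinarith
  rw [inner_self_eq_zero] at h4
  exact sub_eq_zero.1 h4

variable (A : H →L[ℝ] H)

theorem sp2_fd (hc : IsCompactOperator A) (μ : {μ : ℝ // 0 < μ}) :
    FiniteDimensional ℝ (eigenspace (A : Module.End ℝ H) μ) :=
  ContinuousLinearMap.finite_dimensional_eigenspace hc μ μ.2.ne'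

/-- The index set of the eigenvectors with positive eigenvalue. -/
def sp2_I : Type := Σ μ : {μ : ℝ // 0 < μ}, Fin (Module.finrank ℝ
  (eigenspace (A : Module.End ℝ H) (μ : ℝ)))

/-- The eigenvectors. -/
def sp2_b (hc : IsCompactOperator A) (i : sp2_I A) : H :=
  haveI := sp2_fd A hc i.1
  (stdOrthonormalBasis ℝ (eigenspace (A : Module.End ℝ H) (i.1 : ℝ)) i.2 : H)

theorem sp2_eig (hc : IsCompactOperator A) (i : sp2_I A) :
    A (sp2_b A hc i) = (i.1 : ℝ) • sp2_b A hc i := by
  have := sp2_fd A hc i.1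
  exact mem_eigenspace_iff.1
    (stdOrthonormalBasis ℝ (eigenspace (A : Module.End ℝ H) (i.1 : ℝ)) i.2).2

theorem sp2_orth (hc : IsCompactOperator A) (hs : (A : H →ₗ[ℝ] H).IsSymmetric) :
    Orthonormal ℝ (sp2_b A hc) := by
  have := fun μ => sp2_fd A hc μ
  have h1 := (hs.orthogonalFamily_eigenspaces.comp
    (Subtype.coe_injective : Function.Injective (fun μ : {μ : ℝ // 0 < μ} => (μ : ℝ))))
  exact h1.orthonormal_sigma_orthonormal
    (fun μ => (stdOrthonormalBasis ℝ (eigenspace (A : Module.End ℝ H) (μ : ℝ))).orthonormal)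

/-- Expansion of an eigenvector. -/
theorem sp2_expand (hc : IsCompactOperator A) (μ : {μ : ℝ // 0 < μ}) {f : H}
    (hf : A f = (μ : ℝ) • f) : f = ∑ k, ⟪f, sp2_b A hc ⟨μ, k⟩⟫ • sp2_b A hc ⟨μ, k⟩ := by
  have := sp2_fd A hc μ
  have h1 := (stdOrthonormalBasis ℝ (eigenspace (A : Module.End ℝ H) (μ : ℝ))).sum_repr'
    ⟨f, mem_eigenspace_iff.2 hf⟩
  have h2 := congrArg (Subtype.val) h1
  rw [AddSubmonoidClass.coe_finsetSum] at h2
  refine h2.symm.trans (Finset.sum_congr rfl fun k _ => ?_)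
  rw [real_inner_comm]
  rfl

theorem sp2_perp (hc : IsCompactOperator A) (hs : (A : H →ₗ[ℝ] H).IsSymmetric)
    (hpos : ∀ f, 0 ≤ ⟪A f, f⟫) {f : H} (hf : ∀ i, ⟪sp2_b A hc i, f⟫ = 0) : A f = 0 := by
  have hperp : ∀ μ : ℝ, μ ≠ 0 → ∀ g : H, A g = μ • g → ⟪g, f⟫ = 0 := by
    intro μ hμ g hg
    rcases lt_or_gt_of_ne hμ with h | h
    · have h1 := hpos g
      rw [hg, inner_smul_left] at h1
      simp only [conj_trivial] at h1
      have h3 : 0 ≤ ⟪g, g⟫ := real_inner_self_nonneg
      have h4 : ⟪g, g⟫ = 0 := by nlinarith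
      rw [inner_self_eq_zero] at h4
      rw [h4, inner_zero_left]
    · rw [sp2_expand A hc ⟨μ, h⟩ hg, sum_inner]
      refine Finset.sum_eq_zero fun k _ => ?_
      rw [inner_smul_left, hf, mul_zero]
  have h1 : A f ∈ (⨆ μ, eigenspace (A : Module.End ℝ H) μ)ᗮ := by
    rw [← Submodule.iInf_orthogonal, Submodule.mem_iInf]
    intro μ
    rw [Submodule.mem_orthogonal]
    intro g hg
    have hg' : A g = μ • g := mem_eigenspace_iff.1 hg
    have h2 : ⟪g, A f⟫ = ⟪A g, f⟫ := (hs g f).symm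
    rw [h2, hg', inner_smul_left]
    by_cases hμ : μ = 0
    · simp [hμ]
    · rw [hperp μ hμ g hg', mul_zero]
  rw [ContinuousLinearMap.orthogonalComplement_iSup_eigenspaces_eq_bot hc hs] at h1
  exact (Submodule.mem_bot ℝ).1 h1

end hilbert

/-! ## Basic facts on the heat data -/

section basic

variable {X : Type} [TopologicalSpace X] [CompactSpace X] [T2Space X] [MeasurableSpace X]
  [BorelSpace X] {V : Type} [NormedAddCommGroup V] [InnerProductSpace ℝ V] [FiniteDimensional ℝ V]

theorem sp2_cont {g : Geom X V} {f : X → V} (hf : g.Smooth f) : Continuous f := by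
  obtain ⟨C, hC⟩ := k1_Nice_const g 2 1 hf
  have h1 := k1_cont hC
  exact h1.comp_continuous (f := fun y : X => ((0 : ℝ), y)) (by fun_prop)
    (fun y => ⟨⟨le_rfl, zero_le_one⟩, mem_univ _⟩)

variable (D : HeatData X V)

theorem sp2_memLp {f : X → V} (hf : Continuous f) : MemLp f 2 D.mu := by
  have := D.fin
  obtain ⟨C, hC⟩ := isCompact_univ.exists_bound_of_continuousOn hf.continuousOn
  exact MemLp.of_bound hf.aestronglyMeasurable C (Eventually.of_forall fun x => hC x (mem_univ _))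

/-- Continuous functions which agree almost everywhere agree. -/
theorem sp2_eq {f h : X → V} (hf : Continuous f) (hh : Continuous h) (he : f =ᵐ[D.mu] h) :
    f = h := by
  funext y
  have h1 : ∫ y, ‖f y - h y‖ ^ 2 ∂D.mu = 0 := by
    rw [integral_eq_zero_of_ae]
    filter_upwards [he] with x hx
    simp [hx]
  have h2 := k1_full D (F := fun y => ‖f y - h y‖ ^ 2) (by fun_prop) (fun y => by positivity) h1 y
  rw [pow_eq_zero_iff two_ne_zero, norm_eq_zero] at h2
  exact sub_eq_zero.1 h2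

/-- The class of a continuous function. -/
def sp2_cls {f : X → V} (hf : Continuous f) : Lp V 2 D.mu := (sp2_memLp D hf).toLp f

theorem sp2_cls_ae {f : X → V} (hf : Continuous f) : sp2_cls D hf =ᵐ[D.mu] f :=
  (sp2_memLp D hf).coeFn_toLp

theorem sp2_inner {f h : X → V} {F G : Lp V 2 D.mu} (hf : F =ᵐ[D.mu] f) (hh : G =ᵐ[D.mu] h) :
    ⟪F, G⟫ = ∫ y, ⟪f y, h y⟫ ∂D.mu := by
  rw [L2.inner_def]
  refine integral_congr_ae ?_
  filter_upwards [hf, hh] with y h1 h2
  rw [h1, h2]

variable {D} {T : ℝ → (X → V) → X → V} {K : ℝ → X → X → V →L[ℝ] V}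

theorem sp2_slice (hK : D.IsKernel T K) {t : ℝ} (ht : 0 < t) :
    Continuous fun p : X × X => K t p.1 p.2 :=
  hK.cont.comp_continuous (f := fun p : X × X => (t, p.1, p.2)) (by fun_prop)
    (fun p => ⟨ht, mem_univ _⟩)

theorem sp2_kint (hK : D.IsKernel T K) {t : ℝ} (ht : 0 < t) (x : X) (F : Lp V 2 D.mu) :
    Integrable (fun y => K t x y (F y)) D.mu := by
  have := D.fin
  have h1 : Continuous fun y => K t x y := (sp2_slice hK ht).comp (f := fun y => (x, y)) (by fun_prop)
  obtain ⟨C, hC⟩ := isCompact_univ.exists_bound_of_continuousOn h1.continuousOn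
  have h2 : Integrable (F : X → V) D.mu := (Lp.memLp F).integrable one_le_two
  refine Integrable.mono' (h2.norm.const_mul C) ?_ (Eventually.of_forall fun y => ?_)
  · exact (ContinuousLinearMap.id ℝ (V →L[ℝ] V)).aestronglyMeasurable_comp₂
      h1.aestronglyMeasurable h2.aestronglyMeasurable
  · refine ((K t x y).le_opNorm _).trans ?_
    exact mul_le_mul_of_nonneg_right (hC y (mem_univ _)) (norm_nonneg _)

/-- The function `y ↦ K_t(y, x) v`. -/
theorem sp2_kcont (hK : D.IsKernel T K) {t : ℝ} (ht : 0 < t) (x : X) (v : V) :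
    Continuous fun y => K t y x v :=
  ((sp2_slice hK ht).comp (f := fun y => (y, x)) (by fun_prop)).clm_apply continuous_const

theorem sp2_kinner (hK : D.IsKernel T K) {t : ℝ} (ht : 0 < t) (x : X) (v : V)
    (F : Lp V 2 D.mu) :
    ⟪F, sp2_cls D (sp2_kcont hK ht x v)⟫ = ⟪v, ∫ y, K t x y (F y) ∂D.mu⟫ := by
  have := FiniteDimensional.complete ℝ V
  rw [← integral_inner (sp2_kint hK ht x F) v,
    sp2_inner D (f := F) (Eventually.of_forall fun _ => rfl) (sp2_cls_ae D (sp2_kcont hK ht x v))]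
  refine integral_congr_ae (Eventually.of_forall fun y => ?_)
  show ⟪F y, K t y x v⟫ = ⟪v, K t x y (F y)⟫
  rw [real_inner_comm, hK.symm t ht y x v (F y)]

/-! ### The flow of an eigenfunction -/

theorem sp2_NiceE_tsmul {W : Type} [NormedAddCommGroup W] [NormedSpace ℝ W] {k : ℕ}
    {T C B : ℝ} {u : ℝ → E4 → W} {c : ℝ → ℝ} (hc : Continuous c)
    (hB : ∀ t ∈ Icc 0 T, |c t| ≤ B) (hu : NiceE k T C u) :
    NiceE k T (B * C) fun t x => c t • u t x := by
  have key : ∀ j ≤ k, ∀ t ∈ Icc 0 T, ∀ x, iteratedFDeriv ℝ j (fun x => c t • u t x) x =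
      c t • iteratedFDeriv ℝ j (u t) x := by
    intro j hj t ht x
    have hj' : (j : WithTop ℕ∞) ≤ k := by exact_mod_cast hj
    exact iteratedFDeriv_const_smul_apply ((hu.1 t ht).of_le hj').contDiffAt
  refine ⟨fun t ht => contDiff_const.smul (hu.1 t ht), fun j hj => ?_, fun j hj t ht x => ?_⟩
  · exact ((hc.comp continuous_fst).continuousOn.smul (hu.2.1 j hj)).congr
      fun p hp => key j hj p.1 hp.1 p.2
  · rw [key j hj t ht x, norm_smul, Real.norm_eq_abs]
    exact mul_le_mul (hB t ht) (hu.2.2 j hj t ht x) (norm_nonneg _)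
      ((abs_nonneg _).trans (hB t ht))

theorem sp2_smooth_smul {g : Geom X V} {f : X → V} (c : ℝ) (hf : g.Smooth f) :
    g.Smooth fun y => c • f y := by
  intro i
  have h : ContDiff ℝ ∞ fun x => c • (etaC x • f ((g.psi i).symm x)) :=
    contDiff_const.smul (hf i)
  simp only [smul_comm c] at h
  exact h

theorem sp2_flow (hT : D.IsSemigroup T) {f : X → V} (hf : D.g.Smooth f) {r : ℝ}
    (hr : ∀ y, D.g.L 0 f y = r • f y) {t : ℝ} (ht : 0 ≤ t) :
    T t f = fun y => Real.exp (-r * t) • f y := by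
  obtain ⟨C, hC⟩ := k1_Nice_const D.g 2 (t + 1) hf
  have hce : Continuous fun s : ℝ => Real.exp (-r * s) := by fun_prop
  obtain ⟨B, hB⟩ := (isCompact_Icc (a := (0 : ℝ)) (b := t + 1)).exists_bound_of_continuousOn
    hce.continuousOn
  have hn : D.g.Nice 2 (t + 1) (B * C) fun s y => Real.exp (-r * s) • f y := by
    intro i
    have h := sp2_NiceE_tsmul hce hB (hC i)
    simp only [smul_comm (Real.exp _)] at h
    exact h
  have h0 : (fun y => Real.exp (-r * 0) • f y) = f := by
    funext y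
    simp
  have hu := hT.unique (t + 1) (B * C) (fun s y => Real.exp (-r * s) • f y) (by linarith) hn
    (by rw [h0]; exact hf) ?_ t ⟨ht, by linarith⟩
  · rw [h0] at hu
    exact hu.symm
  · intro s _ y
    have h1 : D.g.L 0 (fun y => Real.exp (-r * s) • f y) y =
        Real.exp (-r * s) • (r • f y) := by
      rw [k1_L_smul D.g 0 _ (k1_smooth_C2 hf) y, hr]
    rw [h1]
    have h2 : HasDerivAt (fun s : ℝ => Real.exp (-r * s)) (Real.exp (-r * s) * (-r * 1)) s :=
      ((hasDerivAt_id s).const_mul (-r)).exp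
    have h3 := (h2.smul_const (f y)).hasDerivWithinAt (s := Icc 0 (t + 1))
    refine h3.congr_deriv ?_
    rw [smul_smul, ← neg_smul]
    congr 1
    ring

/-! ### Smooth representatives -/

/-- The smooth representative of an eigenvector. -/
def sp2_e (D : HeatData X V) (K : ℝ → X → X → V →L[ℝ] V) (μ : ℝ) (F : Lp V 2 D.mu) : X → V :=
  fun x => μ⁻¹ • ∫ y, K 1 x y (F y) ∂D.mu

theorem sp2_e_smooth (hK : D.IsKernel T K) (μ : ℝ) (F : Lp V 2 D.mu) :
    D.g.Smooth (sp2_e D K μ F) :=
  sp2_smooth_smul _ (hK.smoothing 1 one_pos F (Lp.memLp F))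

variable {TT : ℝ → Lp V 2 D.mu →L[ℝ] Lp V 2 D.mu}

theorem sp2_e_ae (hL : D.IsL2 K TT) {μ : ℝ} (hμ : μ ≠ 0) {F : Lp V 2 D.mu}
    (h : TT 1 F = μ • F) : F =ᵐ[D.mu] sp2_e D K μ F := by
  have h1 := hL.repr 1 one_pos F
  rw [h] at h1
  filter_upwards [h1, Lp.coeFn_smul μ F] with y h2 h3
  rw [h3] at h2
  unfold sp2_e
  rw [← h2, Pi.smul_apply, smul_smul, inv_mul_cancel₀ hμ, one_smul]

theorem sp2_kk (hK : D.IsKernel T K) {t : ℝ} (ht : 0 < t) {F : Lp V 2 D.mu} {f : X → V}
    (hf : D.g.Smooth f) (hF : F =ᵐ[D.mu] f) (x : X) : ∫ y, K t x y (F y) ∂D.mu = T t f x := by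
  rw [hK.repr t ht f hf x]
  refine integral_congr_ae ?_
  filter_upwards [hF] with y hy
  rw [hy]

theorem sp2_TT (hK : D.IsKernel T K) (hL : D.IsL2 K TT) {t : ℝ} (ht : 0 < t)
    {F : Lp V 2 D.mu} {f : X → V} (hf : D.g.Smooth f) (hF : F =ᵐ[D.mu] f) :
    TT t F =ᵐ[D.mu] T t f := by
  filter_upwards [hL.repr t ht F] with x hx
  rw [hx, sp2_kk hK ht hf hF]

theorem sp2_half (hL : D.IsL2 K TT) {μ : ℝ} (hμ : 0 < μ) {F : Lp V 2 D.mu}
    (h : TT 1 F = μ • F) (n : ℕ) : TT ((1 / 2 : ℝ) ^ n) F = (μ ^ ((1 / 2 : ℝ) ^ n)) • F := by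
  have := FiniteDimensional.complete ℝ V
  induction n with
  | zero => simpa using h
  | succ n ih =>
    have hs : (0 : ℝ) < (1 / 2 : ℝ) ^ (n + 1) := by positivity
    refine sp2_root (TT ((1 / 2 : ℝ) ^ (n + 1))) (hL.pos _ hs) (Real.rpow_pos_of_pos hμ _) ?_
    rw [← hL.comp _ _ hs hs, ← Real.rpow_add hμ]
    have h1 : (1 / 2 : ℝ) ^ (n + 1) + (1 / 2 : ℝ) ^ (n + 1) = (1 / 2 : ℝ) ^ n := by
      rw [pow_succ]
      ring
    rw [h1, ih]

theorem sp2_zero (hL : D.IsL2 K TT) {F : Lp V 2 D.mu} (h : TT 1 F = 0) {s : ℝ} (hs : 0 < s) :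
    TT s F = 0 := by
  have h1 : ∀ n : ℕ, TT ((1 / 2 : ℝ) ^ n) F = 0 := by
    intro n
    induction n with
    | zero => simpa using h
    | succ n ih =>
      have hp : (0 : ℝ) < (1 / 2 : ℝ) ^ (n + 1) := by positivity
      have h2 : ⟪TT ((1 / 2 : ℝ) ^ (n + 1)) F, TT ((1 / 2 : ℝ) ^ (n + 1)) F⟫ = 0 := by
        rw [hL.symm _ hp, ← hL.comp _ _ hp hp]
        have h3 : (1 / 2 : ℝ) ^ (n + 1) + (1 / 2 : ℝ) ^ (n + 1) = (1 / 2 : ℝ) ^ n := by
          rw [pow_succ]
          ring
        rw [h3, ih, inner_zero_right]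
      exact inner_self_eq_zero.1 h2
  obtain ⟨n, hn⟩ := exists_pow_lt_of_lt_one hs (by norm_num : (1 / 2 : ℝ) < 1)
  have h2 : s = (s - (1 / 2 : ℝ) ^ n) + (1 / 2 : ℝ) ^ n := by ring
  rw [h2, hL.comp _ _ (by linarith) (by positivity), h1, map_zero]

theorem sp2_L (hT : D.IsSemigroup T) (hK : D.IsKernel T K) (hL : D.IsL2 K TT) {μ : ℝ}
    (hμ : 0 < μ) {F : Lp V 2 D.mu} (h : TT 1 F = μ • F) (y : X) :
    D.g.L 0 (sp2_e D K μ F) y = (-Real.log μ) • sp2_e D K μ F y := by
  set e := sp2_e D K μ F with he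
  have hes : D.g.Smooth e := sp2_e_smooth hK μ F
  have hea : F =ᵐ[D.mu] e := sp2_e_ae hL hμ.ne' h
  have hTn : ∀ n : ℕ, T ((1 / 2 : ℝ) ^ n) e = fun y => (μ ^ ((1 / 2 : ℝ) ^ n)) • e y := by
    intro n
    have hp : (0 : ℝ) < (1 / 2 : ℝ) ^ n := by positivity
    refine sp2_eq D (sp2_cont (hT.smooth _ hp.le e hes)) ((sp2_cont hes).const_smul _) ?_
    have h1 := sp2_TT hK hL hp hes hea
    rw [sp2_half hL hμ h n] at h1
    filter_upwards [h1, Lp.coeFn_smul (μ ^ ((1 / 2 : ℝ) ^ n)) F, hea] with z h2 h3 h4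
    rw [← h2, h3, Pi.smul_apply, h4]
  have hd := hT.deriv e hes 0 le_rfl y
  rw [hT.zero e hes] at hd
  have hd1 := hasDerivWithinAt_iff_tendsto_slope.1 hd
  have hd2 : HasDerivAt (fun s : ℝ => (μ ^ s) • e y) ((Real.log μ) • e y) 0 := by
    have h1 := ((hasDerivAt_id (0 : ℝ)).const_rpow hμ).smul_const (e y)
    refine h1.congr_deriv ?_
    simp
  have hd3 := hasDerivWithinAt_iff_tendsto_slope.1 (hd2.hasDerivWithinAt (s := Ici 0))
  have hs : Tendsto (fun n : ℕ => (1 / 2 : ℝ) ^ n) atTop (𝓝[Ici 0 \ {0}] 0) := by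
    refine tendsto_nhdsWithin_iff.2 ⟨tendsto_pow_atTop_nhds_zero_of_lt_one (by norm_num)
      (by norm_num), Eventually.of_forall fun n => ?_⟩
    have hp : (0 : ℝ) < (1 / 2 : ℝ) ^ n := by positivity
    exact ⟨hp.le, hp.ne'⟩
  have h1 := hd1.comp hs
  have h2 := hd3.comp hs
  have h3 : (slope (fun s => T s e y) 0 ∘ fun n : ℕ => (1 / 2 : ℝ) ^ n) =
      (slope (fun s : ℝ => (μ ^ s) • e y) 0 ∘ fun n : ℕ => (1 / 2 : ℝ) ^ n) := by
    funext n
    simp only [Function.comp_apply, slope_def_module]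
    rw [hT.zero e hes, hTn n, Real.rpow_zero, one_smul]
  rw [h3] at h1
  have h4 := tendsto_nhds_unique h1 h2
  rw [neg_smul, ← h4, neg_neg]

end basic

/-- SP2. -/
theorem thm_Eigen (h : claimHeatL2) : claimEigen := by
  intro X _ _ _ _ _ V _ _ _ D T K hT hK
  obtain ⟨TT, hL⟩ := h X V D T K hT hK
  have := FiniteDimensional.complete ℝ V
  have hfin := D.fin
  have hc := hL.compact 1 one_pos
  have hs : (TT 1 : Lp V 2 D.mu →ₗ[ℝ] Lp V 2 D.mu).IsSymmetric :=
    fun f g => hL.symm 1 one_pos f g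
  have hpos := hL.pos 1 one_pos
  set b := sp2_b (TT 1) hc with hbdef
  set e : sp2_I (TT 1) → X → V := fun i => sp2_e D K (i.1 : ℝ) (b i) with hedef
  set lam : sp2_I (TT 1) → ℝ := fun i => -Real.log (i.1 : ℝ) with hlam
  have hμ : ∀ i : sp2_I (TT 1), 0 < (i.1 : ℝ) := fun i => i.1.2
  have hb : ∀ i, TT 1 (b i) = (i.1 : ℝ) • b i := sp2_eig (TT 1) hc
  have he : ∀ i, D.g.Smooth (e i) := fun i => sp2_e_smooth hK _ _
  have hae : ∀ i, b i =ᵐ[D.mu] e i := fun i => sp2_e_ae hL (hμ i).ne' (hb i)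
  have horth : Orthonormal ℝ b := sp2_orth (TT 1) hc hs
  have hnorm : ∀ i, ∫ y, ⟪e i y, e i y⟫ ∂D.mu = 1 := by
    intro i
    rw [← sp2_inner D (hae i) (hae i), real_inner_self_eq_norm_sq, horth.1 i]
    norm_num
  have heig : ∀ i y, D.g.L 0 (e i) y = lam i • e i y :=
    fun i y => sp2_L hT hK hL (hμ i) (hb i) y
  have hnn : ∀ i, 0 ≤ lam i := by
    intro i
    have h1 := D.nonneg (e i) (k1_smooth_C2 (he i))
    simp only [heig, inner_smul_left, conj_trivial] at h1
    rw [integral_const_mul, hnorm, mul_one] at h1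
    exact h1
  have hheat : ∀ i t, 0 ≤ t → ∀ y, T t (e i) y = Real.exp (-lam i * t) • e i y := by
    intro i t ht y
    rw [sp2_flow hT (he i) (heig i) ht]
  -- diagonal
  have hdiag : ∀ t, 0 < t → ∀ x v w,
      HasSum (fun i => Real.exp (-lam i * t) * (⟪v, e i x⟫ * ⟪w, e i x⟫)) ⟪K t x x v, w⟫ := by
    intro t ht x v w
    have ht2 : 0 < t / 2 := by positivity
    have hcl : ∀ (u : V) (f : Lp V 2 D.mu), (∀ i, ⟪b i, f⟫ = 0) →
        ⟪f, sp2_cls D (sp2_kcont hK ht2 x u)⟫ = 0 := by
      intro u f hf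
      rw [sp2_kinner hK ht2 x u f]
      have h1 : TT (t / 2) f = 0 := sp2_zero hL (sp2_perp (TT 1) hc hs hpos hf) ht2
      have h2 : (fun x => ∫ y, K (t / 2) x y (f y) ∂D.mu) = fun _ => 0 := by
        refine sp2_eq D (sp2_cont (hK.smoothing _ ht2 f (Lp.memLp f))) continuous_const ?_
        have h3 := hL.repr _ ht2 f
        rw [h1] at h3
        filter_upwards [h3, Lp.coeFn_zero V 2 D.mu] with y h4 h5
        rw [← h4, h5]
        rfl
      rw [congrFun h2 x, inner_zero_right]
    have h1 := sp2_parseval horth (hcl v) (hcl w)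
    have h2 : ∀ (u : V) i, ⟪b i, sp2_cls D (sp2_kcont hK ht2 x u)⟫ =
        Real.exp (-lam i * (t / 2)) * ⟪u, e i x⟫ := by
      intro u i
      rw [sp2_kinner hK ht2 x u, sp2_kk hK ht2 (he i) (hae i) x, hheat i _ ht2.le,
        inner_smul_right]
    have h3 : ⟪sp2_cls D (sp2_kcont hK ht2 x v), sp2_cls D (sp2_kcont hK ht2 x w)⟫ =
        ⟪K t x x v, w⟫ := by
      rw [sp2_kinner hK ht2 x w, real_inner_comm]
      congr 1
      have h4 := hK.comp (t / 2) (t / 2) ht2 ht2 x x v
      rw [add_halves] at h4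
      rw [h4]
      refine integral_congr_ae ?_
      filter_upwards [sp2_cls_ae D (sp2_kcont hK ht2 x v)] with y hy
      rw [hy]
    rw [h3] at h1
    have h5 : (fun i => Real.exp (-lam i * t) * (⟪v, e i x⟫ * ⟪w, e i x⟫)) =
        fun i => ⟪sp2_cls D (sp2_kcont hK ht2 x v), b i⟫ *
          ⟪b i, sp2_cls D (sp2_kcont hK ht2 x w)⟫ := by
      funext i
      rw [real_inner_comm (b i) (sp2_cls D (sp2_kcont hK ht2 x v)), h2, h2]
      have h6 : Real.exp (-lam i * t) = Real.exp (-lam i * (t / 2)) *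
          Real.exp (-lam i * (t / 2)) := by
        rw [← Real.exp_add]
        congr 1
        ring
      rw [h6]
      ring
    rw [h5]
    exact h1
  refine ⟨sp2_I (TT 1), e, lam, ⟨he, hnorm, ?_, hnn, hheat, heig, hdiag, ?_, ?_⟩⟩
  · intro i j hij
    rw [← sp2_inner D (hae i) (hae j)]
    exact horth.2 hij
  · -- finiteness
    intro r
    set o := stdOrthonormalBasis ℝ V with ho
    set κ : X → ℝ := fun x => ∑ a, ⟪K 1 x x (o a), o a⟫ with hκ
    have hκc : Continuous κ := by
      refine continuous_finsetSum _ fun a _ => ?_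
      have h1 : Continuous fun x => K 1 x x :=
        (sp2_slice hK one_pos).comp (f := fun x => (x, x)) (by fun_prop)
      exact (h1.clm_apply continuous_const).inner continuous_const
    have hec : ∀ i, Continuous fun y => ⟪e i y, e i y⟫ := fun i =>
      (sp2_cont (he i)).inner (sp2_cont (he i))
    have hbd : ∀ F : Finset (sp2_I (TT 1)), ∑ i ∈ F, Real.exp (-lam i * 1) ≤
        ∫ x, κ x ∂D.mu := by
      intro F
      have h1 : ∑ i ∈ F, Real.exp (-lam i * 1) =
          ∫ x, ∑ i ∈ F, Real.exp (-lam i * 1) * ⟪e i x, e i x⟫ ∂D.mu := by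
        rw [integral_finsetSum _ fun i _ => ((k1_integrable D.mu (hec i)).const_mul _)]
        refine Finset.sum_congr rfl fun i _ => ?_
        rw [integral_const_mul, hnorm, mul_one (Real.exp _)]
      rw [h1]
      refine integral_mono ?_ (k1_integrable D.mu hκc) fun x => ?_
      · exact integrable_finsetSum _ fun i _ => (k1_integrable D.mu (hec i)).const_mul _
      · have h2 : ∀ i, ⟪e i x, e i x⟫ = ∑ a, ⟪o a, e i x⟫ * ⟪o a, e i x⟫ := by
          intro i
          rw [← o.sum_inner_mul_inner (e i x) (e i x)]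
          refine Finset.sum_congr rfl fun a _ => ?_
          rw [real_inner_comm]
        simp only [h2, Finset.mul_sum]
        rw [Finset.sum_comm]
        refine Finset.sum_le_sum fun a _ => ?_
        refine sum_le_hasSum F (fun i _ => ?_) (hdiag 1 one_pos x (o a) (o a))
        exact mul_nonneg (Real.exp_pos _).le (mul_self_nonneg _)
    by_contra hinf
    set n : ℕ := ⌈(∫ x, κ x ∂D.mu) * Real.exp r⌉₊ + 1 with hn
    obtain ⟨F, hF, hFc⟩ := Set.Infinite.exists_subset_card_eq hinf n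
    have h1 : (n : ℝ) * Real.exp (-r) ≤ ∑ i ∈ F, Real.exp (-lam i * 1) := by
      rw [← hFc, ← nsmul_eq_mul]
      refine Finset.card_nsmul_le_sum _ _ _ fun i hi => ?_
      have h2 : lam i ≤ r := hF hi
      exact Real.exp_le_exp.2 (by linarith)
    have h2 := h1.trans (hbd F)
    have h3 : (∫ x, κ x ∂D.mu) * Real.exp r < n := by
      rw [hn]
      push_cast
      exact (Nat.le_ceil _).trans_lt (lt_add_one _)
    have h4 := mul_le_mul_of_nonneg_right h2 (Real.exp_pos r).le
    rw [mul_assoc, ← Real.exp_add, neg_add_cancel, Real.exp_zero, mul_one] at h4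
    linarith
  · -- completeness
    intro f hf r hr y
    set μ : {μ : ℝ // 0 < μ} := ⟨Real.exp (-r), Real.exp_pos _⟩ with hμd
    have hfc := sp2_cont hf
    set F := sp2_cls D hfc with hFd
    have hFa : F =ᵐ[D.mu] f := sp2_cls_ae D hfc
    have hTF : TT 1 F = (μ : ℝ) • F := by
      refine Lp.ext ?_
      have h1 := sp2_TT hK hL one_pos hf hFa
      rw [sp2_flow hT hf hr zero_le_one] at h1
      filter_upwards [h1, Lp.coeFn_smul (μ : ℝ) F, hFa] with z h2 h3 h4
      rw [h2, h3, Pi.smul_apply, h4, mul_one]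
    set j : Fin (Module.finrank ℝ (Module.End.eigenspace
      ((TT 1 : Lp V 2 D.mu →L[ℝ] Lp V 2 D.mu) : Module.End ℝ (Lp V 2 D.mu)) (μ : ℝ))) →
        sp2_I (TT 1) := fun k => ⟨μ, k⟩ with hj
    have hjinj : Function.Injective j := by
      intro k k' hkk
      exact eq_of_heq (Sigma.mk.inj_iff.1 hkk).2
    have hset : {i | lam i = r} = Set.range j := by
      ext i
      constructor
      · intro hi
        obtain ⟨⟨m, hm⟩, k⟩ := i
        have h1 : -Real.log m = r := hi
        have h2 : m = Real.exp (-r) := by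
          rw [← h1, neg_neg, Real.exp_log hm]
        subst h2
        exact ⟨k, rfl⟩
      · rintro ⟨k, rfl⟩
        show -Real.log (Real.exp (-r)) = r
        rw [Real.log_exp, neg_neg]
    have hexp := sp2_expand (TT 1) hc μ hTF
    have hsum : ∀ s : Finset (Fin (Module.finrank ℝ (Module.End.eigenspace
        ((TT 1 : Lp V 2 D.mu →L[ℝ] Lp V 2 D.mu) : Module.End ℝ (Lp V 2 D.mu)) (μ : ℝ)))),
        ((∑ k ∈ s, ⟪F, b (j k)⟫ • b (j k) : Lp V 2 D.mu) : X → V) =ᵐ[D.mu]
          fun y => ∑ k ∈ s, (∫ z, ⟪f z, e (j k) z⟫ ∂D.mu) • e (j k) y := by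
      intro s
      induction s using Finset.induction_on with
      | empty =>
        filter_upwards [Lp.coeFn_zero V 2 D.mu] with z hz
        simpa using hz
      | insert a s ha ih =>
        rw [Finset.sum_insert ha]
        filter_upwards [Lp.coeFn_add (⟪F, b (j a)⟫ • b (j a))
          (∑ k ∈ s, ⟪F, b (j k)⟫ • b (j k)), Lp.coeFn_smul ⟪F, b (j a)⟫ (b (j a)),
          hae (j a), ih] with z h1 h2 h3 h4
        rw [h1, Pi.add_apply, h2, Pi.smul_apply, h3, h4, Finset.sum_insert ha,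
          sp2_inner D hFa (hae (j a))]
    have hfin2 : f = fun y => ∑ k, (∫ z, ⟪f z, e (j k) z⟫ ∂D.mu) • e (j k) y := by
      refine sp2_eq D hfc (continuous_finsetSum _ fun k _ =>
        (sp2_cont (he (j k))).const_smul _) ?_
      refine hFa.symm.trans ?_
      rw [hexp]
      exact hsum Finset.univ
    rw [hset, finsum_mem_range hjinj, finsum_eq_sum_of_fintype]
    exact congrFun hfin2 y

end NRF

end
end

section

/-!
# SP3: the trace formula for the heat kernel
-/

open scoped Manifold ContDiff Topology RealInnerProductSpace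
open MeasureTheory Set

noncomputable section

namespace NRF

section

variable {X : Type} [TopologicalSpace X] [MeasurableSpace X] {V : Type}
  [NormedAddCommGroup V] [InnerProductSpace ℝ V] [FiniteDimensional ℝ V]

/-- Pointwise trace formula. -/
theorem SP3_pointwise (D : HeatData X V) (T : ℝ → (X → V) → X → V) (K : ℝ → X → X → V →L[ℝ] V)
    {ι : Type} (e : ι → X → V) (lam : ι → ℝ) (hE : D.IsEigen T K e lam) (t : ℝ) (ht : 0 < t)
    (B : V →L[ℝ] V) (y : X) :
    HasSum (fun i => Real.exp (-lam i * t) * ⟪B (e i y), e i y⟫) (trC (B.comp (K t y y))) := by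
  classical
  let b := stdOrthonormalBasis ℝ V
  have h1 : ∀ a, HasSum (fun i => Real.exp (-lam i * t) *
      (⟪b a, e i y⟫ * ⟪(ContinuousLinearMap.adjoint B) (b a), e i y⟫))
      ⟪K t y y (b a), (ContinuousLinearMap.adjoint B) (b a)⟫ :=
    fun a => hE.diag t ht y (b a) _
  have h2 := hasSum_sum (s := Finset.univ) fun a _ => h1 a
  have e1 : ∑ a, ⟪K t y y (b a), (ContinuousLinearMap.adjoint B) (b a)⟫ =
      trC (B.comp (K t y y)) := by
    unfold trC
    rw [LinearMap.trace_eq_sum_inner _ b]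
    refine Finset.sum_congr rfl fun a _ => ?_
    rw [ContinuousLinearMap.adjoint_inner_right, real_inner_comm]
    rfl
  have e2 : ∀ i, ∑ a, Real.exp (-lam i * t) *
      (⟪b a, e i y⟫ * ⟪(ContinuousLinearMap.adjoint B) (b a), e i y⟫) =
      Real.exp (-lam i * t) * ⟪B (e i y), e i y⟫ := by
    intro i
    rw [← Finset.mul_sum]
    congr 1
    rw [real_inner_comm, ← OrthonormalBasis.sum_inner_mul_inner b (e i y) (B (e i y))]
    refine Finset.sum_congr rfl fun a _ => ?_
    rw [ContinuousLinearMap.adjoint_inner_left, real_inner_comm (e i y) (b a)]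
  rw [e1] at h2
  simp only [e2] at h2
  exact h2

theorem SP3_contK {D : HeatData X V} {T : ℝ → (X → V) → X → V}
    {K : ℝ → X → X → V →L[ℝ] V} (hK : D.IsKernel T K) {t : ℝ} (ht : 0 < t) :
    Continuous fun y => K t y y := by
  have h : Continuous fun y : X => (t, y, y) := by fun_prop
  exact hK.cont.comp_continuous h fun y => ⟨ht, mem_univ _⟩

omit [MeasurableSpace X] in
theorem SP3_contTr {A B : X → V →L[ℝ] V} (hA : Continuous A) (hB : Continuous B) :
    Continuous fun y => trC ((A y).comp (B y)) := by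
  let b := stdOrthonormalBasis ℝ V
  have h : (fun y => trC ((A y).comp (B y))) = fun y => ∑ a, ⟪b a, A y (B y (b a))⟫ := by
    funext y
    unfold trC
    rw [LinearMap.trace_eq_sum_inner _ b]
    rfl
  rw [h]
  fun_prop

theorem SP3_countable {D : HeatData X V} {T : ℝ → (X → V) → X → V}
    {K : ℝ → X → X → V →L[ℝ] V} {ι : Type} {e : ι → X → V} {lam : ι → ℝ}
    (hE : D.IsEigen T K e lam) : Countable ι := by
  rw [← countable_univ_iff]
  have : (univ : Set ι) = ⋃ n : ℕ, {i | lam i ≤ n} := by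
    refine (eq_univ_of_forall fun i => ?_).symm
    obtain ⟨n, hn⟩ := exists_nat_ge (lam i)
    exact mem_iUnion.2 ⟨n, hn⟩
  rw [this]
  exact countable_iUnion fun n => (hE.finite n).countable

end

theorem thm_Trace : claimTrace := by
  intro X _ _ _ _ _ V _ _ _ D T K hT hK ι e lam hE t ht
  have := D.fin
  have hcount : Countable ι := SP3_countable hE
  have hce : ∀ i, Continuous (e i) := fun i => (hE.smooth i).continuous
  have hint : ∀ f : X → ℝ, Continuous f → Integrable f D.mu := by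
    intro f hf
    obtain ⟨C, hC⟩ := isCompact_univ.exists_bound_of_continuousOn hf.continuousOn
    exact Integrable.of_bound hf.aestronglyMeasurable C
      (Filter.Eventually.of_forall fun y => hC y (mem_univ _))
  have hK0 := SP3_contK hK ht
  have hsum : Summable fun i => Real.exp (-lam i * t) := by
    have hcI : Continuous fun _ : X => ContinuousLinearMap.id ℝ V := continuous_const
    refine summable_of_sum_le (c := ∫ y, trC ((ContinuousLinearMap.id ℝ V).comp (K t y y)) ∂D.mu)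
      (fun i => (Real.exp_pos _).le) fun s => ?_
    have e1 : ∑ i ∈ s, Real.exp (-lam i * t) =
        ∫ y, ∑ i ∈ s, Real.exp (-lam i * t) * ⟪e i y, e i y⟫ ∂D.mu := by
      rw [integral_finsetSum]
      · refine Finset.sum_congr rfl fun i _ => ?_
        rw [integral_const_mul, hE.norm i, mul_one]
      · intro i _
        refine hint _ ?_
        have := hce i
        fun_prop
    rw [e1]
    refine integral_mono (hint _ ?_) (hint _ (SP3_contTr hcI hK0)) fun y => ?_
    · refine continuous_finsetSum _ fun i _ => ?_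
      have := hce i
      fun_prop
    · have h := SP3_pointwise D T K e lam hE t ht (ContinuousLinearMap.id ℝ V) y
      refine sum_le_hasSum s (fun i _ => ?_) h
      exact mul_nonneg (Real.exp_pos _).le real_inner_self_nonneg
  refine ⟨hsum, fun A hA => ?_⟩
  obtain ⟨M, hM⟩ := isCompact_univ.exists_bound_of_continuousOn hA.continuousOn
  have hFc : ∀ i, Continuous fun y => Real.exp (-lam i * t) * ⟪A y (e i y), e i y⟫ := by
    intro i
    have := hce i
    fun_prop
  have hFi : ∀ i, Integrable (fun y => Real.exp (-lam i * t) * ⟪A y (e i y), e i y⟫) D.mu :=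
    fun i => hint _ (hFc i)
  have hFn : Summable fun i => ∫ y, ‖Real.exp (-lam i * t) * ⟪A y (e i y), e i y⟫‖ ∂D.mu := by
    refine Summable.of_nonneg_of_le (fun i => integral_nonneg fun y => norm_nonneg _)
      (fun i => ?_) (hsum.mul_left M)
    have e1 : M * Real.exp (-lam i * t) =
        ∫ y, M * (Real.exp (-lam i * t) * ⟪e i y, e i y⟫) ∂D.mu := by
      rw [integral_const_mul, integral_const_mul, hE.norm i, mul_one]
    rw [e1]
    refine integral_mono (hFi i).norm (hint _ ?_) fun y => ?_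
    · have := hce i
      fun_prop
    · show ‖Real.exp (-lam i * t) * ⟪A y (e i y), e i y⟫‖ ≤
        M * (Real.exp (-lam i * t) * ⟪e i y, e i y⟫)
      rw [norm_mul, Real.norm_of_nonneg (Real.exp_pos _).le, mul_left_comm]
      refine mul_le_mul_of_nonneg_left ?_ (Real.exp_pos _).le
      refine (norm_inner_le_norm _ _).trans ?_
      rw [real_inner_self_eq_norm_mul_norm, ← mul_assoc]
      refine mul_le_mul_of_nonneg_right ?_ (norm_nonneg _)
      refine ((A y).le_opNorm _).trans ?_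
      exact mul_le_mul_of_nonneg_right (hM y (mem_univ _)) (norm_nonneg _)
  have h := hasSum_integral_of_summable_integral_norm hFi hFn
  have e2 : (fun y => ∑' i, Real.exp (-lam i * t) * ⟪A y (e i y), e i y⟫) =
      fun y => trC ((A y).comp (K t y y)) := by
    funext y
    exact (SP3_pointwise D T K e lam hE t ht (A y) y).tsum_eq
  rw [e2] at h
  simp only [integral_const_mul] at h
  exact h

end NRF

end
end

section

/-!
# SP4: `1 - T_1 = L ∫_0^1 T_s ds`
-/

open scoped Manifold ContDiff Topology RealInnerProductSpace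
open MeasureTheory Set Filter

noncomputable section

namespace NRF

section

variable {V : Type} [NormedAddCommGroup V] [InnerProductSpace ℝ V] [FiniteDimensional ℝ V]

theorem sp4_integral {w : ℝ → E4 → V} {C : ℝ} {k : ℕ} (hw : NiceE k 1 C w) :
    ContDiff ℝ k (fun x => ∫ s in Ioc (0 : ℝ) 1, w s x) ∧
      ∀ j ≤ k, ∀ x, iteratedFDeriv ℝ j (fun x => ∫ s in Ioc (0 : ℝ) 1, w s x) x =
        ∫ s in Ioc (0 : ℝ) 1, iteratedFDeriv ℝ j (w s) x ∧
        IntegrableOn (fun s => iteratedFDeriv ℝ j (w s) x) (Ioc 0 1) := by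
  have h1 : ∀ᵐ s ∂(volume.restrict (Ioc (0 : ℝ) 1)), ContDiff ℝ k (w s) := by
    filter_upwards [ae_restrict_mem measurableSet_Ioc] with s hs
    exact hw.1 s ⟨hs.1.le, hs.2⟩
  have hc : ∀ j ≤ k, ∀ x, ContinuousOn (fun s => iteratedFDeriv ℝ j (w s) x) (Icc 0 1) := by
    intro j hj x
    have h1 : ContinuousOn (fun s : ℝ => (s, x)) (Icc 0 1) := by fun_prop
    exact (hw.2.1 j hj).comp h1 (fun s hs => ⟨hs, mem_univ _⟩)
  have h2 : ∀ j ≤ k, ∀ x, IntegrableOn (fun s => iteratedFDeriv ℝ j (w s) x) (Ioc (0 : ℝ) 1) :=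
    fun j hj x => ((hc j hj x).integrableOn_Icc).mono_set Ioc_subset_Icc_self
  have h3 : ∀ j ≤ k, ∀ᵐ s ∂(volume.restrict (Ioc (0 : ℝ) 1)), ∀ x,
      ‖iteratedFDeriv ℝ j (w s) x‖ ≤ C := by
    intro j hj
    filter_upwards [ae_restrict_mem measurableSet_Ioc] with s hs x
    exact hw.2.2 j hj s ⟨hs.1.le, hs.2⟩ x
  have h4 : Integrable (fun _ : ℝ => C) (volume.restrict (Ioc (0 : ℝ) 1)) :=
    integrable_const C
  refine ⟨contDiff_integral h1 (fun j hj x => (h2 j hj x).aestronglyMeasurable) h3 h4,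
    fun j hj x => ⟨?_, h2 j hj x⟩⟩
  exact iteratedFDeriv_integral h1 (fun j hj x => (h2 j hj x).aestronglyMeasurable) h3 h4 hj x

omit [FiniteDimensional ℝ V] in
theorem sp4_add3 {μ : Measure ℝ} {A B C : ℝ → V} (hA : Integrable A μ) (hB : Integrable B μ)
    (hC : Integrable C μ) :
    ∫ s, (-A s + B s + C s) ∂μ = -(∫ s, A s ∂μ) + ∫ s, B s ∂μ + ∫ s, C s ∂μ := by
  have h1 : Integrable (fun s => -A s) μ := hA.neg
  have h2 : Integrable (fun s => -A s + B s) μ := h1.add hB
  rw [integral_add h2 hC, integral_add h1 hB, integral_neg]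

theorem sp4_op {w : ℝ → E4 → V} {C : ℝ} (hw : NiceE 2 1 C w) (m : Model V) (t : ℝ) (x : E4) :
    m.op t (fun x => ∫ s in Ioc (0 : ℝ) 1, w s x) x = ∫ s in Ioc (0 : ℝ) 1, m.op t (w s) x := by
  obtain ⟨h1, h2⟩ := sp4_integral hw
  -- values
  have e0 : IntegrableOn (fun s => w s x) (Ioc 0 1) := by
    have h := ((ContinuousMultilinearMap.apply ℝ (fun _ : Fin 0 => E4) V
      (fun _ => 0))).integrable_comp (h2 0 (by norm_num) x).2
    exact h.congr (Eventually.of_forall fun s => by simp)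
  -- first derivatives
  have e1 : ∀ i, IntegrableOn (fun s => pd i (w s) x) (Ioc 0 1) := by
    intro i
    have h := ((ContinuousMultilinearMap.apply ℝ (fun _ : Fin 1 => E4) V
      (fun _ => bv i))).integrable_comp (h2 1 (by norm_num) x).2
    refine h.congr (Eventually.of_forall fun s => ?_)
    exact (k1_pd1 _ _ _).symm
  have f1 : ∀ i, pd i (fun x => ∫ s in Ioc (0 : ℝ) 1, w s x) x =
      ∫ s in Ioc (0 : ℝ) 1, pd i (w s) x := by
    intro i
    rw [k1_pd1, (h2 1 (by norm_num) x).1]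
    have h := ((ContinuousMultilinearMap.apply ℝ (fun _ : Fin 1 => E4) V
      (fun _ => bv i))).integral_comp_comm (h2 1 (by norm_num) x).2
    refine h.symm.trans (integral_congr_ae (Eventually.of_forall fun s => ?_))
    exact (k1_pd1 _ _ _).symm
  -- second derivatives
  have e2 : ∀ i j, IntegrableOn (fun s => pd i (pd j (w s)) x) (Ioc 0 1) := by
    intro i j
    have h := ((ContinuousMultilinearMap.apply ℝ (fun _ : Fin 2 => E4) V
      ![bv i, bv j])).integrable_comp (h2 2 le_rfl x).2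
    refine h.congr ?_
    filter_upwards [ae_restrict_mem measurableSet_Ioc] with s hs
    exact (k1_pd2 (hw.1 s ⟨hs.1.le, hs.2⟩).contDiffAt i j).symm
  have f2 : ∀ i j, pd i (pd j (fun x => ∫ s in Ioc (0 : ℝ) 1, w s x)) x =
      ∫ s in Ioc (0 : ℝ) 1, pd i (pd j (w s)) x := by
    intro i j
    rw [k1_pd2 h1.contDiffAt, (h2 2 le_rfl x).1]
    have h := ((ContinuousMultilinearMap.apply ℝ (fun _ : Fin 2 => E4) V
      ![bv i, bv j])).integral_comp_comm (h2 2 le_rfl x).2
    refine h.symm.trans (integral_congr_ae ?_)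
    filter_upwards [ae_restrict_mem measurableSet_Ioc] with s hs
    exact (k1_pd2 (hw.1 s ⟨hs.1.le, hs.2⟩).contDiffAt i j).symm
  unfold Model.op
  have e2' : ∀ i j, IntegrableOn (fun s => m.a (t, x) i j • pd i (pd j (w s)) x) (Ioc 0 1) :=
    fun i j => (e2 i j).smul (m.a (t, x) i j)
  have e2'' : ∀ i, IntegrableOn (fun s => ∑ j, m.a (t, x) i j • pd i (pd j (w s)) x) (Ioc 0 1) :=
    fun i => integrable_finsetSum _ fun j _ => e2' i j
  have e1' : ∀ i, IntegrableOn (fun s => m.b (t, x) i (pd i (w s) x)) (Ioc 0 1) :=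
    fun i => (m.b (t, x) i).integrable_comp (e1 i)
  have g2 : IntegrableOn (fun s => ∑ i, ∑ j, m.a (t, x) i j • pd i (pd j (w s)) x) (Ioc 0 1) :=
    integrable_finsetSum _ fun i _ => e2'' i
  have g1 : IntegrableOn (fun s => ∑ i, m.b (t, x) i (pd i (w s) x)) (Ioc 0 1) :=
    integrable_finsetSum _ fun i _ => e1' i
  have g0 : IntegrableOn (fun s => m.c (t, x) (w s x)) (Ioc 0 1) :=
    (m.c (t, x)).integrable_comp e0
  have k2 : ∫ s in Ioc (0 : ℝ) 1, ∑ i, ∑ j, m.a (t, x) i j • pd i (pd j (w s)) x =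
      ∑ i, ∑ j, m.a (t, x) i j • ∫ s in Ioc (0 : ℝ) 1, pd i (pd j (w s)) x := by
    refine (integral_finsetSum _ fun i _ => e2'' i).trans ?_
    refine Finset.sum_congr rfl fun i _ => ?_
    refine (integral_finsetSum _ fun j _ => e2' i j).trans ?_
    exact Finset.sum_congr rfl fun j _ => integral_smul _ _
  have k1 : ∫ s in Ioc (0 : ℝ) 1, ∑ i, m.b (t, x) i (pd i (w s) x) =
      ∑ i, m.b (t, x) i (∫ s in Ioc (0 : ℝ) 1, pd i (w s) x) := by
    refine (integral_finsetSum _ fun i _ => e1' i).trans ?_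
    exact Finset.sum_congr rfl fun i _ => (m.b (t, x) i).integral_comp_comm (e1 i)
  have k0 : ∫ s in Ioc (0 : ℝ) 1, m.c (t, x) (w s x) = m.c (t, x) (∫ s in Ioc (0 : ℝ) 1, w s x) :=
    (m.c (t, x)).integral_comp_comm e0
  rw [sp4_add3 g2 g1 g0, k2, k1, k0]
  simp only [f1, f2]

end

/-- SP4: `1 - T_1` is in the range of the operator. -/
theorem thm_IntT : claimIntT := by
  intro X _ _ _ _ _ V _ _ _ D T hT f hf
  have : CompleteSpace V := FiniteDimensional.complete ℝ V
  let u : X → V := fun y => ∫ s in Ioc (0 : ℝ) 1, T s f y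
  have hu : ∀ i x, etaC x • u ((D.g.psi i).symm x) =
      ∫ s in Ioc (0 : ℝ) 1, etaC x • T s f ((D.g.psi i).symm x) := by
    intro i x
    exact (integral_smul _ _).symm
  refine ⟨u, ?_, fun y => ?_⟩
  · intro i
    rw [contDiff_infty]
    intro k
    obtain ⟨C, hC⟩ := hT.nice f hf k 1 one_pos
    have h := (sp4_integral (hC i)).1
    simp only [hu]
    exact h
  · obtain ⟨C, hC⟩ := hT.nice f hf 2 1 one_pos
    obtain ⟨hy1, hy2⟩ := k1_ch D.g y
    set i := D.g.ch y with hi
    set x := D.g.psi i y with hx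
    have hev : (fun z => u ((D.g.psi i).symm z)) =ᶠ[𝓝 x]
        fun z => ∫ s in Ioc (0 : ℝ) 1, etaC z • T s f ((D.g.psi i).symm z) := by
      filter_upwards [k1_eta_ev (x := x) (by linarith)] with z hz
      rw [← hu, hz, one_smul]
    have h1 : D.g.L 0 u y = ∫ s in Ioc (0 : ℝ) 1, D.g.L 0 (T s f) y := by
      rw [k1_L_at, k1_op_congr _ _ hev, sp4_op (hC i)]
      refine integral_congr_ae (Eventually.of_forall fun s => ?_)
      show (D.g.mdl i).op 0 (fun z => etaC z • T s f ((D.g.psi i).symm z)) x =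
        (D.g.mdl i).op 0 (fun z => T s f ((D.g.psi i).symm z)) x
      refine k1_op_congr _ _ ?_
      filter_upwards [k1_eta_ev (x := x) (by linarith)] with z hz
      rw [hz, one_smul]
    have hcL : ContinuousOn (fun s => D.g.L 0 (T s f) y) (Icc 0 1) := by
      have h := k1_L_cont (u := fun t => T t f) 0 hC
      exact k1_slice' (φ := fun s y => D.g.L 0 (T s f) y) h y
    have hcT : ContinuousOn (fun s => T s f y) (Icc 0 1) := by
      have h := k1_cont (u := fun t => T t f) hC
      exact k1_slice' (φ := fun s y => T s f y) h y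
    have h2 : ∫ s in (0 : ℝ)..1, -D.g.L 0 (T s f) y = T 1 f y - T 0 f y := by
      refine intervalIntegral.integral_eq_sub_of_hasDeriv_right (E := V)
        (f := fun s => T s f y) (f' := fun s => -D.g.L 0 (T s f) y) ?_ ?_ ?_
      · rwa [uIcc_of_le zero_le_one]
      · intro s hs
        rw [min_eq_left zero_le_one, max_eq_right zero_le_one] at hs
        exact (hT.deriv f hf s hs.1.le y).mono (fun z hz => (hs.1.trans hz).le)
      · refine ContinuousOn.intervalIntegrable ?_
        rw [uIcc_of_le zero_le_one]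
        exact hcL.neg
    rw [hT.zero f hf] at h2
    rw [h1, ← intervalIntegral.integral_of_le zero_le_one]
    rw [intervalIntegral.integral_neg] at h2
    rw [← neg_sub (T 1 f y) (f y), ← h2, neg_neg]

end NRF

end
end

section

/-!
# Item SP5: the Green operator
-/

open scoped Manifold ContDiff Topology RealInnerProductSpace
open MeasureTheory Set

noncomputable section

namespace NRF

/-- Fredholm alternative for compact symmetric operators. -/
theorem SP5_fred {H : Type*} [NormedAddCommGroup H] [InnerProductSpace ℝ H] [CompleteSpace H]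
    (A : H →L[ℝ] H) (hA : IsCompactOperator A) (hs : ∀ x y, ⟪A x, y⟫ = ⟪x, A y⟫) (F : H)
    (hF : ∀ β, A β = β → ⟪β, F⟫ = 0) : ∃ β, β - A β = F := by
  let N : Submodule ℝ H := LinearMap.ker ((A - 1 : H →L[ℝ] H) : H →ₗ[ℝ] H)
  have hN : ∀ x, x ∈ N ↔ A x = x := by
    intro x
    rw [LinearMap.mem_ker]
    simp [sub_eq_zero]
  have hM : ∀ x ∈ Nᗮ, A x ∈ Nᗮ := by
    intro x hx
    rw [Submodule.mem_orthogonal] at hx ⊢
    intro y hy
    rw [← hs, (hN y).1 hy]
    exact hx y hy
  have hMl : ∀ x ∈ Nᗮ, (A : H →ₗ[ℝ] H) x ∈ Nᗮ := hM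
  let S : Nᗮ →L[ℝ] Nᗮ := (A.comp Nᗮ.subtypeL).codRestrict Nᗮ fun x => hM x x.2
  have hS : IsCompactOperator S := by
    have h := IsCompactOperator.restrict' (f := (A : H →ₗ[ℝ] H)) hA hMl
    exact h
  have hSv : ∀ x : Nᗮ, ((S x : Nᗮ) : H) = A x := fun x => rfl
  rcases IsCompactOperator.hasEigenvalue_or_mem_resolventSet hS (one_ne_zero (α := ℝ)) with h | h
  · exfalso
    obtain ⟨v, hv⟩ := h.exists_hasEigenvector
    have h1 : S v = v := by
      have := hv.apply_eq_smul
      rw [one_smul] at this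
      exact this
    have h2 : A (v : H) = v := by
      rw [← hSv, h1]
    have h3 : (v : H) ∈ N := (hN _).2 h2
    have h4 := (Submodule.mem_orthogonal N (v : H)).1 v.2 _ h3
    have h5 : (v : H) = 0 := inner_self_eq_zero.1 h4
    exact hv.2 (Subtype.ext h5)
  · rw [spectrum.mem_resolventSet_iff] at h
    obtain ⟨B, hB⟩ := h.exists_right_inv
    have hFm : F ∈ Nᗮ := by
      rw [Submodule.mem_orthogonal]
      intro y hy
      exact hF y ((hN y).1 hy)
    refine ⟨(B ⟨F, hFm⟩ : Nᗮ), ?_⟩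
    have h1 := congrArg (fun Z : Nᗮ →L[ℝ] Nᗮ => ((Z ⟨F, hFm⟩ : Nᗮ) : H)) hB
    simp only [map_one] at h1
    exact h1

section
variable {X : Type} [TopologicalSpace X] [CompactSpace X] [T2Space X] [MeasurableSpace X]
  [BorelSpace X] {V : Type} [NormedAddCommGroup V] [InnerProductSpace ℝ V] [FiniteDimensional ℝ V]

theorem SP5_add {g : Geom X V} {f h : X → V} (hf : g.Smooth f) (hh : g.Smooth h) :
    g.Smooth fun y => f y + h y := by
  intro i
  have := (hf i).add (hh i)
  simpa only [smul_add] using this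

theorem SP5_memLp {D : HeatData X V} {f : X → V} (hf : D.g.Smooth f) : MemLp f 2 D.mu := by
  have := D.fin
  obtain ⟨C, hC⟩ := isCompact_univ.exists_bound_of_continuousOn hf.continuous.continuousOn
  exact MemLp.of_bound hf.continuous.aestronglyMeasurable C (ae_of_all _ fun x => hC x (mem_univ x))

theorem SP5_int_inner {D : HeatData X V} {f h : X → V} (hf : D.g.Smooth f) (hh : D.g.Smooth h) :
    Integrable (fun y => ⟪f y, h y⟫) D.mu := by
  have := D.fin
  have hc : Continuous fun y => ⟪f y, h y⟫ := hf.continuous.inner hh.continuous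
  obtain ⟨C, hC⟩ := isCompact_univ.exists_bound_of_continuousOn hc.continuousOn
  exact Integrable.of_bound hc.aestronglyMeasurable C (ae_of_all _ fun x => hC x (mem_univ x))

/-- Functions fixed by the heat semigroup at time 1 are harmonic. -/
theorem SP5_fix (D : HeatData X V) {T : ℝ → (X → V) → X → V} {K : ℝ → X → X → V →L[ℝ] V}
    (hT : D.IsSemigroup T) (hK : D.IsKernel T K) {b : X → V} (hb : D.g.Smooth b)
    (hfix : ∀ x, T 1 b x = b x) : ∀ y, D.g.L 0 b y = 0 := by
  have hfix' : T 1 b = b := funext hfix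
  have hsm : ∀ s, 0 ≤ s → D.g.Smooth (T s b) := fun s hs => hT.smooth s hs b hb
  have hn : ∀ s ∈ Icc (0 : ℝ) 1, ∫ y, ‖T s b y‖ ^ 2 ∂D.mu = ∫ y, ‖b y‖ ^ 2 ∂D.mu := by
    intro s hs
    refine le_antisymm (hT.contr b hb s hs.1) ?_
    have h1 : T 1 b = T (1 - s) (T s b) := by
      have h := hT.comp b hb (1 - s) s (by linarith [hs.2]) hs.1
      rw [sub_add_cancel] at h
      exact h
    have h2 := hT.contr (T s b) (hsm s hs.1) (1 - s) (by linarith [hs.2])
    rw [← h1, hfix'] at h2
    exact h2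
  have hin : ∀ s ∈ Icc (0 : ℝ) 1, ∫ y, ⟪T s b y, b y⟫ ∂D.mu = ∫ y, ‖b y‖ ^ 2 ∂D.mu := by
    intro s hs
    have h0 : 0 ≤ s / 2 := by linarith [hs.1]
    have h1 : T s b = T (s / 2) (T (s / 2) b) := by
      have h := hT.comp b hb (s / 2) (s / 2) h0 h0
      rw [add_halves] at h
      exact h
    rw [h1, hT.symm (T (s / 2) b) b (hsm _ h0) hb (s / 2) h0]
    simp only [real_inner_self_eq_norm_sq]
    exact hn _ ⟨h0, by linarith [hs.2]⟩
  have hae : ∀ s ∈ Icc (0 : ℝ) 1, T s b =ᵐ[D.mu] b := by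
    intro s hs
    have hs1 := hsm s hs.1
    have e : ∀ y, ‖T s b y - b y‖ ^ 2 = ⟪T s b y, T s b y⟫ - 2 * ⟪T s b y, b y⟫ + ⟪b y, b y⟫ := by
      intro y
      rw [← real_inner_self_eq_norm_sq, inner_sub_left, inner_sub_right, inner_sub_right,
        real_inner_comm (T s b y) (b y)]
      ring
    have hi1 : Integrable (fun y => ⟪T s b y, T s b y⟫ - 2 * ⟪T s b y, b y⟫) D.mu :=
      (SP5_int_inner hs1 hs1).sub ((SP5_int_inner hs1 hb).const_mul 2)
    have hi : Integrable (fun y => ‖T s b y - b y‖ ^ 2) D.mu := by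
      simp only [e]
      exact hi1.add (SP5_int_inner hb hb)
    have h0 : ∫ y, ‖T s b y - b y‖ ^ 2 ∂D.mu = 0 := by
      simp only [e]
      rw [integral_add hi1 (SP5_int_inner hb hb), integral_sub (SP5_int_inner hs1 hs1)
        ((SP5_int_inner hs1 hb).const_mul 2), integral_const_mul, hin s hs]
      simp only [real_inner_self_eq_norm_sq]
      rw [hn s hs]
      ring
    have h1 := (integral_eq_zero_iff_of_nonneg (fun y => sq_nonneg _) hi).1 h0
    filter_upwards [h1] with y hy
    have h2 : ‖T s b y - b y‖ = 0 := by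
      have : ‖T s b y - b y‖ ^ 2 = 0 := hy
      exact pow_eq_zero_iff (two_ne_zero) |>.1 this
    exact sub_eq_zero.1 (norm_eq_zero.1 h2)
  have hconst : ∀ r ∈ Icc (1 : ℝ) 2, ∀ x, T r b x = b x := by
    intro r hr x
    have hs : r - 1 ∈ Icc (0 : ℝ) 1 := ⟨by linarith [hr.1], by linarith [hr.2]⟩
    have h1 : T r b = T 1 (T (r - 1) b) := by
      have h := hT.comp b hb 1 (r - 1) zero_le_one hs.1
      rw [add_sub_cancel] at h
      exact h
    rw [h1, hK.repr 1 one_pos _ (hsm _ hs.1), ← hfix x, hK.repr 1 one_pos _ hb]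
    refine integral_congr_ae ?_
    filter_upwards [hae _ hs] with y hy
    rw [hy]
  intro y
  have h1 := (hT.deriv b hb 1 zero_le_one y).mono
    (show Icc (1 : ℝ) 2 ⊆ Ici 0 from fun r hr => mem_Ici.2 (by linarith [hr.1]))
  have h2 : HasDerivWithinAt (fun s => T s b y) 0 (Icc 1 2) 1 := by
    refine (hasDerivWithinAt_const 1 (Icc (1 : ℝ) 2) (b y)).congr (fun r hr => hconst r hr y)
      (hconst 1 ⟨le_rfl, by norm_num⟩ y)
  have h3 := UniqueDiffWithinAt.eq_deriv (Icc (1 : ℝ) 2)
    (uniqueDiffOn_Icc (by norm_num : (1 : ℝ) < 2) 1 ⟨le_rfl, by norm_num⟩) h1 h2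
  rw [hfix'] at h3
  exact neg_eq_zero.1 h3

/-- Orthogonality to the eigenfunctions of eigenvalue zero and to harmonic functions. -/
theorem SP5_orth (D : HeatData X V) {T : ℝ → (X → V) → X → V} {K : ℝ → X → X → V →L[ℝ] V}
    {ι : Type} {e : ι → X → V} {lam : ι → ℝ} (hE : D.IsEigen T K e lam) {f b : X → V}
    (hf : D.g.Smooth f) (hb : D.g.Smooth b) (hL : ∀ y, D.g.L 0 b y = 0)
    (hfe : ∀ i, lam i = 0 → ∫ y, ⟪f y, e i y⟫ ∂D.mu = 0) : ∫ y, ⟪b y, f y⟫ ∂D.mu = 0 := by
  have hfin : {i | lam i = 0}.Finite := (hE.finite 0).subset fun i hi => le_of_eq hi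
  have h1 := hE.complete b hb 0 (fun y => by rw [hL y, zero_smul])
  have h2 : ∀ y, ⟪b y, f y⟫ = ∑ i ∈ hfin.toFinset,
      (∫ z, ⟪b z, e i z⟫ ∂D.mu) * ⟪f y, e i y⟫ := by
    intro y
    rw [real_inner_comm]
    conv_lhs => rw [h1 y]
    rw [finsum_mem_eq_finite_toFinset_sum _ hfin, inner_sum]
    refine Finset.sum_congr rfl fun i _ => ?_
    rw [inner_smul_right]
  simp only [h2]
  rw [integral_finsetSum _ fun i _ => (SP5_int_inner hf (hE.smooth i)).const_mul _]
  refine Finset.sum_eq_zero fun i hi => ?_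
  rw [integral_const_mul, hfe i (hfin.mem_toFinset.1 hi), mul_zero]

end

theorem thm_GreenOp (h1 : claimHeatL2) (h4 : claimIntT) : claimGreenOp := by
  intro X _ _ _ _ _ V _ _ _ D T K hT hK ι e lam hE f hf hfe
  have := D.fin
  obtain ⟨TT, hTT⟩ := h1 X V D T K hT hK
  have hfm := SP5_memLp hf
  obtain ⟨β, hβ⟩ := SP5_fred (TT 1) (hTT.compact 1 one_pos) (hTT.symm 1 one_pos) (hfm.toLp f) (by
    intro β hβ
    have hbs := hK.smoothing 1 one_pos β (Lp.memLp β)
    have hae : (β : X → V) =ᵐ[D.mu] fun x => ∫ y, K 1 x y (β y) ∂D.mu := by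
      have h := hTT.repr 1 one_pos β
      rw [hβ] at h
      exact h
    have hfix : ∀ x, T 1 (fun x => ∫ y, K 1 x y (β y) ∂D.mu) x = ∫ y, K 1 x y (β y) ∂D.mu := by
      intro x
      rw [hK.repr 1 one_pos _ hbs]
      refine integral_congr_ae ?_
      filter_upwards [hae] with y hy
      rw [← hy]
    have h2 := SP5_orth D hE hf hbs (SP5_fix D hT hK hbs hfix) hfe
    rw [L2.inner_def]
    rw [← h2]
    refine integral_congr_ae ?_
    filter_upwards [hae, hfm.coeFn_toLp] with y hy hy2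
    rw [hy2, ← hy])
  have hbs := hK.smoothing 1 one_pos β (Lp.memLp β)
  have hbs2 := SP5_add hf hbs
  have hae : (β : X → V) =ᵐ[D.mu] fun x => f x + ∫ y, K 1 x y (β y) ∂D.mu := by
    have h := hTT.repr 1 one_pos β
    have h2 : β = hfm.toLp f + TT 1 β := by rw [← hβ]; abel
    have h3 := Lp.coeFn_add (hfm.toLp f) (TT 1 β)
    rw [← h2] at h3
    filter_upwards [h, h3, hfm.coeFn_toLp] with y hy hy2 hy3
    rw [hy2, Pi.add_apply, hy3, hy]
  obtain ⟨u, hu, hLu⟩ := h4 X V D T hT _ hbs2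
  refine ⟨u, hu, fun y => ?_⟩
  rw [hLu y, hK.repr 1 one_pos _ hbs2]
  have h5 : ∫ z, K 1 y z (f z + ∫ w, K 1 z w (β w) ∂D.mu) ∂D.mu = ∫ z, K 1 y z (β z) ∂D.mu := by
    refine integral_congr_ae ?_
    filter_upwards [hae] with z hz
    rw [hz]
  rw [h5, add_sub_cancel_right]

end NRF

end
end

section

/-!
FC1: existence of smooth positively oriented orthonormal frames (Gram-Schmidt).
-/

set_option autoImplicit false

open scoped Manifold ContDiff Topology Matrix
open MeasureTheory Set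

namespace NRF

theorem FC1_B_smooth {U : Set E4} {G : E4 → Matrix (Fin 4) (Fin 4) ℝ} (hG : MetOn U G)
    {u v : E4 → Fin 4 → ℝ} (hu : ∀ k, ContDiffOn ℝ ∞ (fun y => u y k) U)
    (hv : ∀ k, ContDiffOn ℝ ∞ (fun y => v y k) U) :
    ContDiffOn ℝ ∞ (fun y => u y ⬝ᵥ (G y).mulVec (v y)) U := by
  simp only [dotProduct, Matrix.mulVec]
  exact ContDiffOn.sum fun k _ => (hu k).mul (ContDiffOn.sum fun l _ => (hG.smooth k l).mul (hv l))

theorem FC1_symm {U : Set E4} {G : E4 → Matrix (Fin 4) (Fin 4) ℝ} (hG : MetOn U G)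
    {y : E4} (hy : y ∈ U) (u v : Fin 4 → ℝ) :
    u ⬝ᵥ (G y).mulVec v = v ⬝ᵥ (G y).mulVec u := by
  have h1 : (G y).transpose = G y := by
    have := (hG.posDef y hy).isHermitian
    rw [Matrix.IsHermitian, Matrix.conjTranspose_eq_transpose_of_trivial] at this
    exact this
  rw [Matrix.dotProduct_mulVec, ← Matrix.mulVec_transpose, h1, dotProduct_comm]

theorem FC1_pos {U : Set E4} {G : E4 → Matrix (Fin 4) (Fin 4) ℝ} (hG : MetOn U G)
    {y : E4} (hy : y ∈ U) {u : Fin 4 → ℝ} (hu : u ≠ 0) : 0 < u ⬝ᵥ (G y).mulVec u := by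
  have := (hG.posDef y hy).dotProduct_mulVec_pos hu
  simpa using this

theorem FC1_step {U : Set E4} {G : E4 → Matrix (Fin 4) (Fin 4) ℝ} (hG : MetOn U G) (m : ℕ) :
    m ≤ 4 → ∃ v : Fin 4 → E4 → Fin 4 → ℝ, (∀ a k, ContDiffOn ℝ ∞ (fun y => v a y k) U) ∧
      (∀ a b : Fin 4, (a : ℕ) < m → (b : ℕ) < m → ∀ y ∈ U,
        v a y ⬝ᵥ (G y).mulVec (v b y) = if a = b then 1 else 0) ∧
      (∀ a : Fin 4, (a : ℕ) < m → ∀ y ∈ U, 0 < v a y a ∧ ∀ k, a < k → v a y k = 0) := by
  induction m with
  | zero =>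
    intro _
    exact ⟨fun _ _ _ => 0, fun _ _ => contDiffOn_const, fun a b h => absurd h (by omega),
      fun a h => absurd h (by omega)⟩
  | succ m ih =>
    intro hm
    obtain ⟨v, h1, h2, h3⟩ := ih (by omega)
    set a₀ : Fin 4 := ⟨m, by omega⟩ with ha₀
    set S : Finset (Fin 4) := Finset.univ.filter fun b : Fin 4 => (b : ℕ) < m with hS
    have hSm : ∀ b, b ∈ S ↔ (b : ℕ) < m := fun b => by simp [hS]
    set e : Fin 4 → ℝ := Pi.single a₀ 1 with he
    set w : E4 → Fin 4 → ℝ := fun y =>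
      e - ∑ b ∈ S, (e ⬝ᵥ (G y).mulVec (v b y)) • v b y with hw
    have hws : ∀ k, ContDiffOn ℝ ∞ (fun y => w y k) U := by
      intro k
      simp only [hw, Pi.sub_apply, Finset.sum_apply, Pi.smul_apply, smul_eq_mul]
      refine contDiffOn_const.sub (ContDiffOn.sum fun b _ => ?_)
      exact (FC1_B_smooth hG (u := fun _ => e) (fun _ => contDiffOn_const) (h1 b)).mul (h1 b k)
    have hwa : ∀ y ∈ U, w y a₀ = 1 := by
      intro y hy
      simp only [hw, Pi.sub_apply, Finset.sum_apply, Pi.smul_apply, smul_eq_mul]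
      rw [Finset.sum_eq_zero, he, Pi.single_eq_same, sub_zero]
      intro b hb
      have hb' := (hSm b).1 hb
      rw [(h3 b hb' y hy).2 a₀ (Fin.lt_def.2 (by simpa [ha₀] using hb')), mul_zero]
    have hwk : ∀ y ∈ U, ∀ k, a₀ < k → w y k = 0 := by
      intro y hy k hk
      simp only [hw, Pi.sub_apply, Finset.sum_apply, Pi.smul_apply, smul_eq_mul]
      rw [Finset.sum_eq_zero, he, Pi.single_eq_of_ne hk.ne', sub_zero]
      intro b hb
      have hb' := (hSm b).1 hb
      have : b < k := by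
        have : (m : ℕ) < k := by simpa [ha₀, Fin.lt_def] using hk
        exact Fin.lt_def.2 (by omega)
      rw [(h3 b hb' y hy).2 k this, mul_zero]
    have hwo : ∀ y ∈ U, ∀ b : Fin 4, (b : ℕ) < m → w y ⬝ᵥ (G y).mulVec (v b y) = 0 := by
      intro y hy b hb
      simp only [hw]
      rw [sub_dotProduct, sum_dotProduct, Finset.sum_eq_single b]
      · rw [smul_dotProduct, h2 b b hb hb y hy]
        simp
      · intro c hc hcb
        rw [smul_dotProduct, h2 c b ((hSm c).1 hc) hb y hy, if_neg hcb, smul_zero]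
      · intro hb2
        exact absurd ((hSm b).2 hb) hb2
    have hN : ∀ y ∈ U, 0 < w y ⬝ᵥ (G y).mulVec (w y) := by
      intro y hy
      refine FC1_pos hG hy fun h0 => ?_
      have := hwa y hy
      rw [h0] at this
      simp at this
    set N : E4 → ℝ := fun y => w y ⬝ᵥ (G y).mulVec (w y) with hNdef
    have hNs : ContDiffOn ℝ ∞ (fun y => (√(N y))⁻¹) U :=
      ((FC1_B_smooth hG hws hws).sqrt fun y hy => (hN y hy).ne').inv
        fun y hy => (Real.sqrt_pos.2 (hN y hy)).ne'
    refine ⟨Function.update v a₀ fun y => (√(N y))⁻¹ • w y, ?_, ?_, ?_⟩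
    · intro a k
      by_cases ha : a = a₀
      · subst ha
        simp only [Function.update_self, Pi.smul_apply, smul_eq_mul]
        exact hNs.mul (hws k)
      · simp only [Function.update_of_ne ha]
        exact h1 a k
    · intro a b ha hb y hy
      by_cases ha0 : a = a₀
      · by_cases hb0 : b = a₀
        · rw [ha0, hb0, Function.update_self, if_pos rfl, smul_dotProduct, Matrix.mulVec_smul,
            dotProduct_smul]
          have h4 := Real.mul_self_sqrt (hN y hy).le
          have h5 := Real.sqrt_pos.2 (hN y hy)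
          change (√(N y))⁻¹ • (√(N y))⁻¹ • N y = 1
          change √(N y) * √(N y) = N y at h4
          change 0 < √(N y) at h5
          rw [smul_eq_mul, smul_eq_mul]
          nth_rewrite 3 [← h4]
          field_simp
        · have hb' : (b : ℕ) < m := by
            have : (b : ℕ) ≠ m := fun h => hb0 (Fin.ext h)
            omega
          rw [ha0, Function.update_self, Function.update_of_ne hb0, smul_dotProduct,
            hwo y hy b hb', smul_zero, if_neg (Ne.symm hb0)]
      · have ha' : (a : ℕ) < m := by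
          have : (a : ℕ) ≠ m := fun h => ha0 (Fin.ext h)
          omega
        by_cases hb0 : b = a₀
        · rw [hb0, Function.update_self, Function.update_of_ne ha0, FC1_symm hG hy,
            smul_dotProduct, hwo y hy a ha', smul_zero, if_neg ha0]
        · have hb' : (b : ℕ) < m := by
            have : (b : ℕ) ≠ m := fun h => hb0 (Fin.ext h)
            omega
          rw [Function.update_of_ne ha0, Function.update_of_ne hb0]
          exact h2 a b ha' hb' y hy
    · intro a ha y hy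
      by_cases ha0 : a = a₀
      · rw [ha0, Function.update_self]
        refine ⟨?_, fun k hk => ?_⟩
        · rw [Pi.smul_apply, hwa y hy, smul_eq_mul, mul_one]
          exact inv_pos.2 (Real.sqrt_pos.2 (hN y hy))
        · rw [Pi.smul_apply, hwk y hy k hk, smul_zero]
      · have ha' : (a : ℕ) < m := by
          have : (a : ℕ) ≠ m := fun h => ha0 (Fin.ext h)
          omega
        rw [Function.update_of_ne ha0]
        exact h3 a ha' y hy

theorem thm_FC1 : claimFC1 := by
  intro U G hG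
  obtain ⟨v, h1, h2, h3⟩ := FC1_step hG 4 le_rfl
  refine ⟨fun y => Matrix.of fun k a => v a y k, hG, fun i j => h1 j i, fun y hy => ?_,
    fun y hy => ?_⟩
  · ext a b
    rw [Matrix.one_apply, ← h2 a b a.2 b.2 y hy, Matrix.mul_assoc, Matrix.mul_apply]
    simp only [Matrix.transpose_apply, Matrix.of_apply, Matrix.mul_apply, dotProduct,
      Matrix.mulVec]
  · have ht : Matrix.BlockTriangular (Matrix.of fun k a => v a y k) id := by
      intro k a hak
      exact (h3 a a.2 y hy).2 k hak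
    rw [Matrix.det_of_isUpperTriangular ht]
    exact Finset.prod_pos fun a _ => (h3 a a.2 y hy).1

end NRF

end

section

/-!
# Item FC4: the exterior derivative in an orthonormal frame
-/

open scoped Manifold ContDiff Topology
open MeasureTheory Set

noncomputable section

namespace NRF

/-! ### Combinatorics of increasing enumerations -/

/-- Removing one element from a finite set in terms of the increasing enumeration. -/
theorem FC4_erase {s : Finset (Fin 4)} {k : ℕ} (h : s.card = k + 1) (j : Fin (k + 1))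
    (h' : (s.erase (s.orderEmbOfFin h j)).card = k) (l : Fin k) :
    (s.erase (s.orderEmbOfFin h j)).orderEmbOfFin h' l = s.orderEmbOfFin h (j.succAbove l) := by
  have := Finset.orderEmbOfFin_unique h' (f := fun l => s.orderEmbOfFin h (j.succAbove l))
    (fun x => Finset.mem_erase.2 ⟨fun he => Fin.succAbove_ne j x
      ((s.orderEmbOfFin h).injective he), s.orderEmbOfFin_mem h _⟩)
    ((s.orderEmbOfFin h).strictMono.comp (Fin.strictMono_succAbove j))
  exact (congrFun this l).symm

/-- The position of an element in the increasing enumeration. -/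
theorem FC4_pos {s : Finset (Fin 4)} {k : ℕ} (h : s.card = k) (j : Fin k) :
    ((s.erase (s.orderEmbOfFin h j)).filter (· < s.orderEmbOfFin h j)).card = j := by
  have h1 : (s.erase (s.orderEmbOfFin h j)).filter (· < s.orderEmbOfFin h j) =
      (Finset.Iio j).map (s.orderEmbOfFin h).toEmbedding := by
    ext x
    simp only [Finset.mem_filter, Finset.mem_erase, Finset.mem_map, Finset.mem_Iio,
      RelEmbedding.coe_toEmbedding]
    constructor
    · rintro ⟨⟨_, hx⟩, hlt⟩
      have : x ∈ Set.range (s.orderEmbOfFin h) := by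
        rw [Finset.range_orderEmbOfFin]; exact hx
      obtain ⟨i, rfl⟩ := this
      exact ⟨i, (s.orderEmbOfFin h).lt_iff_lt.1 hlt, rfl⟩
    · rintro ⟨i, hi, rfl⟩
      have := (s.orderEmbOfFin h).lt_iff_lt.2 hi
      exact ⟨⟨ne_of_lt this, s.orderEmbOfFin_mem h _⟩, this⟩
  rw [h1, Finset.card_map, Fin.card_Iio]

/-- Sums over a finite set in terms of the increasing enumeration. -/
theorem FC4_sum {s : Finset (Fin 4)} {k : ℕ} (h : s.card = k) (g : Fin 4 → ℝ) :
    ∑ a ∈ s, g a = ∑ j, g (s.orderEmbOfFin h j) := by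
  conv_lhs => rw [← Finset.map_orderEmbOfFin_univ s h]
  rw [Finset.sum_map]
  rfl

/-! ### Exterior multiplication and contraction of components -/

theorem FC4_eps (a : Fin 4) (α : Lam → ℝ) (s : Lam) : (eps ℝ a).mulVec α s =
    if a ∈ s then (-1) ^ ((s.erase a).filter (· < a)).card * α (s.erase a) else 0 := by
  unfold Matrix.mulVec dotProduct
  by_cases ha : a ∈ s
  · rw [if_pos ha, Finset.sum_eq_single (s.erase a)]
    · simp [eps, epsZ, Finset.insert_erase ha]
    · intro u _ hu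
      have : ¬ (a ∉ u ∧ s = insert a u) := by
        rintro ⟨h1, rfl⟩
        exact hu (Finset.erase_insert h1).symm
      simp only [eps, epsZ, Matrix.map_apply, Matrix.of_apply]
      rw [if_neg this]
      simp
    · intro h
      exact absurd (Finset.mem_univ _) h
  · rw [if_neg ha]
    refine Finset.sum_eq_zero fun u _ => ?_
    have : ¬ (a ∉ u ∧ s = insert a u) := by
      rintro ⟨h1, rfl⟩
      exact ha (Finset.mem_insert_self _ _)
    simp only [eps, epsZ, Matrix.map_apply, Matrix.of_apply]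
    rw [if_neg this]
    simp

theorem FC4_iot (a : Fin 4) (α : Lam → ℝ) (u : Lam) : (iot ℝ a).mulVec α u =
    if a ∉ u then (-1) ^ (u.filter (· < a)).card * α (insert a u) else 0 := by
  unfold Matrix.mulVec dotProduct
  by_cases ha : a ∉ u
  · rw [if_pos ha, Finset.sum_eq_single (insert a u)]
    · simp [iot, eps, epsZ, ha]
    · intro t _ ht
      have : ¬ (a ∉ u ∧ t = insert a u) := fun h => ht h.2
      simp only [iot, eps, epsZ, Matrix.transpose_apply, Matrix.map_apply, Matrix.of_apply]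
      rw [if_neg this]
      simp
    · intro h
      exact absurd (Finset.mem_univ _) h
  · rw [if_neg ha]
    refine Finset.sum_eq_zero fun t _ => ?_
    have : ¬ (a ∉ u ∧ t = insert a u) := fun h => ha h.1
    simp only [iot, eps, epsZ, Matrix.transpose_apply, Matrix.map_apply, Matrix.of_apply]
    rw [if_neg this]
    simp

/-! ### Components of a form at a point -/

/-- Components of an alternating form on the vectors `b 0, ..., b 3`. -/
def FC4_C (b : Fin 4 → E4) {k : ℕ} (η : E4 [⋀^Fin k]→L[ℝ] ℝ) : Lam → ℝ :=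
  fun s => if h : s.card = k then η (fun j => b (s.orderEmbOfFin h j)) else 0

theorem FC4_C_sum_eps (b : Fin 4 → E4) (c : Fin 4 → Fin 4 → ℝ)
    (hb : ∀ a, b a = ∑ i, c i a • bv i) {k : ℕ} (L : E4 →L[ℝ] E4 [⋀^Fin k]→L[ℝ] ℝ) :
    ∑ i, ∑ a, c i a • (eps ℝ a).mulVec (FC4_C b (L (bv i))) =
      FC4_C b (ContinuousAlternatingMap.alternatizeUncurryFin L) := by
  funext s
  simp only [Finset.sum_apply, Pi.smul_apply, smul_eq_mul, FC4_eps]
  have h1 : ∀ i, (∑ a, c i a * if a ∈ s then (-1) ^ ((s.erase a).filter (· < a)).card *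
      FC4_C b (L (bv i)) (s.erase a) else 0) =
      ∑ a ∈ s, c i a * ((-1) ^ ((s.erase a).filter (· < a)).card *
        FC4_C b (L (bv i)) (s.erase a)) := by
    intro i
    rw [← Finset.sum_filter_add_sum_filter_not Finset.univ (· ∈ s)]
    rw [Finset.sum_congr rfl (g := fun a => c i a * ((-1) ^ ((s.erase a).filter (· < a)).card *
        FC4_C b (L (bv i)) (s.erase a))) (fun a ha => by
          rw [if_pos (Finset.mem_filter.1 ha).2])]
    rw [Finset.sum_eq_zero (s := Finset.univ.filter (· ∉ s)) (fun a ha => by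
      rw [if_neg (Finset.mem_filter.1 ha).2, mul_zero])]
    rw [add_zero]
    congr 1
    ext a
    simp
  simp only [h1]
  by_cases h : s.card = k + 1
  · have h2 : FC4_C b (ContinuousAlternatingMap.alternatizeUncurryFin L) s =
        ∑ j : Fin (k + 1), (-1 : ℝ) ^ (j : ℕ) * L (b (s.orderEmbOfFin h j))
          (fun l => b (s.orderEmbOfFin h (j.succAbove l))) := by
      unfold FC4_C
      rw [dif_pos h, ContinuousAlternatingMap.alternatizeUncurryFin_apply]
      refine Finset.sum_congr rfl fun j _ => ?_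
      rw [zsmul_eq_mul]
      push_cast
      rfl
    rw [h2]
    have h3 : ∀ i, (∑ a ∈ s, c i a * ((-1) ^ ((s.erase a).filter (· < a)).card *
        FC4_C b (L (bv i)) (s.erase a))) =
        ∑ j : Fin (k + 1), c i (s.orderEmbOfFin h j) * ((-1 : ℝ) ^ (j : ℕ) *
          L (bv i) (fun l => b (s.orderEmbOfFin h (j.succAbove l)))) := by
      intro i
      rw [FC4_sum h]
      refine Finset.sum_congr rfl fun j _ => ?_
      have h' : (s.erase (s.orderEmbOfFin h j)).card = k := by
        rw [Finset.card_erase_of_mem (s.orderEmbOfFin_mem h j), h]; rfl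
      rw [FC4_pos h j]
      congr 2
      unfold FC4_C
      rw [dif_pos h']
      simp only [FC4_erase h j h']
    simp only [h3]
    rw [Finset.sum_comm]
    refine Finset.sum_congr rfl fun j _ => ?_
    rw [hb (s.orderEmbOfFin h j), map_sum]
    simp only [map_smul, ContinuousAlternatingMap.sum_apply, ContinuousAlternatingMap.smul_apply,
      smul_eq_mul]
    rw [Finset.mul_sum]
    refine Finset.sum_congr rfl fun i _ => ?_
    ring
  · have h2 : FC4_C b (ContinuousAlternatingMap.alternatizeUncurryFin L) s = 0 := by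
      unfold FC4_C
      rw [dif_neg h]
    rw [h2]
    refine Finset.sum_eq_zero fun i _ => Finset.sum_eq_zero fun a ha => ?_
    have h' : (s.erase a).card ≠ k := by
      rw [Finset.card_erase_of_mem ha]
      have := Finset.card_pos.2 ⟨a, ha⟩
      omega
    unfold FC4_C
    rw [dif_neg h', mul_zero, mul_zero]

theorem FC4_C_iot (b : Fin 4 → E4) {m : ℕ} (W : E4 [⋀^Fin (m + 1)]→L[ℝ] ℝ) (c : Fin 4)
    (u : Lam) (hu : u.card = m) : (iot ℝ c).mulVec (FC4_C b W) u =
      W (Matrix.vecCons (b c) fun l => b (u.orderEmbOfFin hu l)) := by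
  rw [FC4_iot]
  by_cases hc : c ∈ u
  · rw [if_neg (by simpa using hc)]
    have : c ∈ Set.range (u.orderEmbOfFin hu) := by
      rw [Finset.range_orderEmbOfFin]; exact hc
    obtain ⟨l, hl⟩ := this
    symm
    apply W.map_eq_zero_of_eq _ (i := 0) (j := l.succ)
    · simp [hl]
    · exact (Fin.succ_ne_zero l).symm
  · rw [if_pos hc]
    have hcard : (insert c u).card = m + 1 := by rw [Finset.card_insert_of_notMem hc, hu]
    have hmem : c ∈ Set.range ((insert c u).orderEmbOfFin hcard) := by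
      rw [Finset.range_orderEmbOfFin]; exact Finset.mem_insert_self _ _
    obtain ⟨p, hp⟩ := hmem
    have hpos := FC4_pos hcard p
    rw [hp, Finset.erase_insert hc] at hpos
    rw [hpos]
    unfold FC4_C
    rw [dif_pos hcard]
    have h1 : (fun j => b ((insert c u).orderEmbOfFin hcard j)) =
        p.insertNth (α := fun _ => E4) (b c) fun l => b (u.orderEmbOfFin hu l) := by
      funext j
      rcases Fin.eq_self_or_eq_succAbove p j with rfl | ⟨l, rfl⟩
      · rw [Fin.insertNth_apply_same, hp]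
      · rw [Fin.insertNth_apply_succAbove]
        have h2 : ((insert c u).erase ((insert c u).orderEmbOfFin hcard p)).card = m := by
          rw [hp, Finset.erase_insert hc, hu]
        rw [← FC4_erase hcard p h2 l]
        congr 1
        simp only [hp, Finset.erase_insert hc]
    rw [h1, ContinuousAlternatingMap.map_insertNth, zsmul_eq_mul, ← mul_assoc]
    push_cast
    rw [← mul_pow]
    simp

theorem FC4_C_rho (b : Fin 4 → E4) (A : Matrix (Fin 4) (Fin 4) ℝ) {k : ℕ}
    (W : E4 [⋀^Fin k]→L[ℝ] ℝ) (s : Lam) : (rho A).mulVec (FC4_C b W) s =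
      if h : s.card = k then ∑ j : Fin k, ∑ c, A (s.orderEmbOfFin h j) c *
        W (Function.update (fun j => b (s.orderEmbOfFin h j)) j (b c)) else 0 := by
  have h0 : (rho A).mulVec (FC4_C b W) s = ∑ a ∈ s, ∑ c, A a c *
      ((-1) ^ ((s.erase a).filter (· < a)).card * (iot ℝ c).mulVec (FC4_C b W) (s.erase a)) := by
    unfold rho
    rw [Matrix.sum_mulVec, Finset.sum_apply]
    simp only [Matrix.sum_mulVec, Finset.sum_apply, Matrix.smul_mulVec, Pi.smul_apply,
      smul_eq_mul, ← Matrix.mulVec_mulVec, FC4_eps]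
    rw [← Finset.sum_filter_add_sum_filter_not Finset.univ (· ∈ s)]
    rw [Finset.sum_congr rfl (g := fun a => ∑ c, A a c *
      ((-1) ^ ((s.erase a).filter (· < a)).card *
        (iot ℝ c).mulVec (FC4_C b W) (s.erase a))) (fun a ha => by
          simp only [if_pos (Finset.mem_filter.1 ha).2])]
    rw [Finset.sum_eq_zero (s := Finset.univ.filter (· ∉ s)) (fun a ha => by
      simp only [if_neg (Finset.mem_filter.1 ha).2, mul_zero, Finset.sum_const_zero])]
    rw [add_zero]
    congr 1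
    ext a
    simp
  rw [h0]
  by_cases h : s.card = k
  · rw [dif_pos h, FC4_sum h]
    refine Finset.sum_congr rfl fun j _ => Finset.sum_congr rfl fun c _ => ?_
    congr 1
    obtain ⟨m, rfl⟩ : ∃ m, k = m + 1 := ⟨k - 1, by have := j.pos; omega⟩
    have h' : (s.erase (s.orderEmbOfFin h j)).card = m := by
      rw [Finset.card_erase_of_mem (s.orderEmbOfFin_mem h j), h]; rfl
    rw [FC4_C_iot b W c _ h', FC4_pos h j]
    have h1 := ContinuousAlternatingMap.map_insertNth W j (b c)
      (fun l => b (s.orderEmbOfFin h (j.succAbove l)))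
    simp only [FC4_erase h j h']
    rw [zsmul_eq_mul] at h1
    push_cast at h1
    rw [← h1]
    congr 1
    funext l
    rcases Fin.eq_self_or_eq_succAbove j l with rfl | ⟨l, rfl⟩
    · simp
    · simp [Fin.succAbove_ne]
  · rw [dif_neg h]
    refine Finset.sum_eq_zero fun a ha => Finset.sum_eq_zero fun c _ => ?_
    rw [FC4_iot]
    by_cases hc : c ∉ s.erase a
    · have h2 : (insert c (s.erase a)).card ≠ k := by
        rw [Finset.card_insert_of_notMem hc, Finset.card_erase_of_mem ha]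
        have := Finset.card_pos.2 ⟨a, ha⟩
        omega
      rw [if_pos hc]
      unfold FC4_C
      rw [dif_neg h2]
      simp
    · rw [if_neg hc]
      simp

/-! ### The Christoffel symbols -/

theorem FC4_chr_symm {U : Set E4} {G : E4 → Matrix (Fin 4) (Fin 4) ℝ} (hG : MetOn U G) {y : E4}
    (hy : y ∈ U) (k i j : Fin 4) : chr G k i j y = chr G k j i y := by
  have hs : ∀ l i j, pd l (fun z => G z i j) y = pd l (fun z => G z j i) y := by
    intro l i j
    unfold pd
    have : (fun z => G z i j) =ᶠ[𝓝 y] fun z => G z j i := by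
      filter_upwards [hG.isOpen.mem_nhds hy] with z hz
      have := (hG.posDef z hz).1
      have h2 := congrFun (congrFun this i) j
      rw [Matrix.conjTranspose_apply] at h2
      simpa using h2.symm
    rw [this.fderiv_eq]
  unfold chr
  congr 1
  refine Finset.sum_congr rfl fun l _ => ?_
  rw [hs l i j]
  ring

/-- The Christoffel symbols as a bilinear map. -/
def FC4_Gam (G : E4 → Matrix (Fin 4) (Fin 4) ℝ) (y : E4) : E4 →L[ℝ] E4 →L[ℝ] E4 :=
  ∑ i, ∑ j, ∑ k, chr G k i j y •
    ((EuclideanSpace.proj i : E4 →L[ℝ] ℝ).smulRight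
      ((EuclideanSpace.proj j : E4 →L[ℝ] ℝ).smulRight (bv k)))

theorem FC4_Gam_apply (G : E4 → Matrix (Fin 4) (Fin 4) ℝ) (y u v : E4) :
    FC4_Gam G y u v = ∑ i, ∑ j, ∑ k, (chr G k i j y * (u i * v j)) • bv k := by
  have hp : ∀ (i : Fin 4) (u : E4), (EuclideanSpace.proj i : E4 →L[ℝ] ℝ) u = u i :=
    fun _ _ => rfl
  unfold FC4_Gam
  simp only [sum_apply, smul_apply, ContinuousLinearMap.smulRight_apply, hp, smul_smul,
    mul_assoc]

theorem FC4_Gam_symm {U : Set E4} {G : E4 → Matrix (Fin 4) (Fin 4) ℝ} (hG : MetOn U G) {y : E4}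
    (hy : y ∈ U) (u v : E4) : FC4_Gam G y u v = FC4_Gam G y v u := by
  rw [FC4_Gam_apply, FC4_Gam_apply, Finset.sum_comm]
  refine Finset.sum_congr rfl fun i _ => Finset.sum_congr rfl fun j _ =>
    Finset.sum_congr rfl fun k _ => ?_
  rw [FC4_chr_symm hG hy k j i]
  congr 1
  ring

theorem FC4_bv (i j : Fin 4) : (bv i : E4) j = if j = i then 1 else 0 := by
  unfold bv
  simp

theorem FC4_Gam_bv (G : E4 → Matrix (Fin 4) (Fin 4) ℝ) (y v : E4) (i : Fin 4) :
    FC4_Gam G y (bv i) v = ∑ k, (∑ j, chr G k i j y * v j) • bv k := by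
  rw [FC4_Gam_apply, Finset.sum_eq_single i]
  · rw [Finset.sum_comm]
    refine Finset.sum_congr rfl fun k _ => ?_
    rw [Finset.sum_smul]
    refine Finset.sum_congr rfl fun j _ => ?_
    rw [FC4_bv, if_pos rfl, one_mul]
  · intro b _ hb
    refine Finset.sum_eq_zero fun j _ => Finset.sum_eq_zero fun k _ => ?_
    rw [FC4_bv, if_neg hb]
    simp
  · intro h
    exact absurd (Finset.mem_univ _) h

theorem FC4_fvec_apply (f : E4 → Matrix (Fin 4) (Fin 4) ℝ) (a : Fin 4) (y : E4) (j : Fin 4) :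
    (fvec f a y) j = f y j a := by
  unfold fvec
  have : (∑ k, f y k a • bv k : E4) j = ∑ k, (f y k a • bv k : E4) j := by
    simp
  rw [this, Finset.sum_eq_single j]
  · simp [FC4_bv]
  · intro b _ hb
    simp [FC4_bv, hb.symm]
  · intro h
    exact absurd (Finset.mem_univ _) h

theorem FC4_diff {U : Set E4} {G f : E4 → Matrix (Fin 4) (Fin 4) ℝ} (hf : FrameOn U G f) {y : E4}
    (hy : y ∈ U) (k a : Fin 4) : DifferentiableAt ℝ (fun z => f z k a) y :=
  ((hf.smooth k a).contDiffAt (hf.met.isOpen.mem_nhds hy)).differentiableAt (by simp)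

theorem FC4_fvec_diff {U : Set E4} {G f : E4 → Matrix (Fin 4) (Fin 4) ℝ} (hf : FrameOn U G f)
    {y : E4} (hy : y ∈ U) (a : Fin 4) : DifferentiableAt ℝ (fun z => fvec f a z) y := by
  unfold fvec
  exact DifferentiableAt.fun_sum fun k _ => (FC4_diff hf hy k a).smul_const _

theorem FC4_fvec_fderiv {U : Set E4} {G f : E4 → Matrix (Fin 4) (Fin 4) ℝ} (hf : FrameOn U G f)
    {y : E4} (hy : y ∈ U) (a i : Fin 4) : fderiv ℝ (fun z => fvec f a z) y (bv i) =
      ∑ k, pd i (fun z => f z k a) y • bv k := by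
  unfold fvec
  rw [fderiv_fun_sum fun k _ => (FC4_diff hf hy k a).smul_const _]
  rw [sum_apply]
  refine Finset.sum_congr rfl fun k _ => ?_
  rw [fderiv_smul_const (FC4_diff hf hy k a)]
  rfl

/-- The connection matrices express the covariant derivative of the frame. -/
theorem FC4_conn {U : Set E4} {G f : E4 → Matrix (Fin 4) (Fin 4) ℝ} (hf : FrameOn U G f)
    {y : E4} (hy : y ∈ U) (a i : Fin 4) :
    ∑ c, omC G f i y c a • fvec f c y =
      fderiv ℝ (fun z => fvec f a z) y (bv i) + FC4_Gam G y (bv i) (fvec f a y) := by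
  rw [FC4_fvec_fderiv hf hy, FC4_Gam_bv, ← Finset.sum_add_distrib]
  have hdet : IsUnit (f y).det := (hf.det_pos y hy).ne'.isUnit
  have h1 : f y * omC G f i y = (Matrix.of fun k a => pd i (fun z => f z k a) y) +
    (Matrix.of fun k j => chr G k i j y) * f y := by
    unfold omC
    rw [← Matrix.mul_assoc, Matrix.mul_nonsing_inv _ hdet, Matrix.one_mul]
  have h2 : ∑ c, omC G f i y c a • fvec f c y = ∑ k, (f y * omC G f i y) k a • bv k := by
    unfold fvec
    simp only [Finset.smul_sum, smul_smul]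
    rw [Finset.sum_comm]
    refine Finset.sum_congr rfl fun k _ => ?_
    rw [Matrix.mul_apply, Finset.sum_smul]
    refine Finset.sum_congr rfl fun c _ => ?_
    rw [mul_comm]
  rw [h2, h1]
  refine Finset.sum_congr rfl fun k _ => ?_
  rw [← add_smul]
  congr 1
  rw [Matrix.add_apply, Matrix.mul_apply]
  simp only [Matrix.of_apply, FC4_fvec_apply]

/-- The covariant derivative of a form, as an alternating form. -/
def FC4_nab (G : E4 → Matrix (Fin 4) (Fin 4) ℝ) {k : ℕ} (w : E4 → E4 [⋀^Fin k]→L[ℝ] ℝ) (y : E4) :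
    E4 →L[ℝ] E4 [⋀^Fin k]→L[ℝ] ℝ :=
  fderiv ℝ w y - (w y).fderivCompContinuousLinearMap (ContinuousLinearMap.id ℝ E4) ∘L FC4_Gam G y

theorem FC4_nabC {U : Set E4} {G f : E4 → Matrix (Fin 4) (Fin 4) ℝ} (hf : FrameOn U G f)
    {y : E4} (hy : y ∈ U) (hskew : ∀ i, (omC G f i y).transpose = -omC G f i y) {k : ℕ}
    (w : E4 → E4 [⋀^Fin k]→L[ℝ] ℝ) (hw : DifferentiableAt ℝ w y) (i : Fin 4) :
    nabC G f i (comp f w) y = FC4_C (fun a => fvec f a y) (FC4_nab G w y (bv i)) := by
  funext s
  have hc : comp f w y = FC4_C (fun a => fvec f a y) (w y) := rfl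
  unfold nabC
  rw [Pi.add_apply, hc, FC4_C_rho]
  by_cases h : s.card = k
  · rw [dif_pos h]
    have h1 : (fun z => comp f w z s) =
        fun z => w z (fun j => fvec f (s.orderEmbOfFin h j) z) := by
      funext z
      unfold comp
      rw [dif_pos h]
    rw [h1]
    have h2 : pd i (fun z => w z (fun j => fvec f (s.orderEmbOfFin h j) z)) y =
        fderiv ℝ w y (bv i) (fun j => fvec f (s.orderEmbOfFin h j) y) +
        ∑ j, w y (Function.update (fun j => fvec f (s.orderEmbOfFin h j) y) j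
          (fderiv ℝ (fun z => fvec f (s.orderEmbOfFin h j) z) y (bv i))) := by
      unfold pd
      exact fderiv_continuousAlternatingMap_apply_apply
        (g := fun j z => fvec f (s.orderEmbOfFin h j) z) hw
        (fun j => FC4_fvec_diff hf hy _) (bv i)
    rw [h2]
    have h3 : FC4_C (fun a => fvec f a y) (FC4_nab G w y (bv i)) s =
        fderiv ℝ w y (bv i) (fun j => fvec f (s.orderEmbOfFin h j) y) -
        ∑ j, w y (Function.update (fun j => fvec f (s.orderEmbOfFin h j) y) j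
          (FC4_Gam G y (bv i) (fvec f (s.orderEmbOfFin h j) y))) := by
      unfold FC4_C FC4_nab
      rw [dif_pos h]
      simp only [sub_apply, ContinuousAlternatingMap.sub_apply,
        ContinuousLinearMap.comp_apply,
        ContinuousAlternatingMap.fderivCompContinuousLinearMap_apply]
      congr 1
      refine Finset.sum_congr rfl fun j _ => ?_
      congr 1
      funext l
      by_cases hl : l = j
      · subst hl
        simp
      · simp [hl]
    rw [h3, sub_eq_add_neg, add_assoc]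
    congr 1
    rw [← Finset.sum_add_distrib, ← Finset.sum_neg_distrib]
    refine Finset.sum_congr rfl fun j _ => ?_
    have h4 : (∑ c, omC G f i y (s.orderEmbOfFin h j) c *
        w y (Function.update (fun j => fvec f (s.orderEmbOfFin h j) y) j (fvec f c y))) =
        w y (Function.update (fun j => fvec f (s.orderEmbOfFin h j) y) j
          (∑ c, omC G f i y (s.orderEmbOfFin h j) c • fvec f c y)) := by
      have h7 := (w y).toAlternatingMap.map_update_sum Finset.univ j
        (fun c => omC G f i y (s.orderEmbOfFin h j) c • fvec f c y)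
        (fun j => fvec f (s.orderEmbOfFin h j) y)
      refine Eq.trans ?_ h7.symm
      refine Finset.sum_congr rfl fun c _ => ?_
      change _ = w y (Function.update (fun j => fvec f (s.orderEmbOfFin h j) y) j
        (omC G f i y (s.orderEmbOfFin h j) c • fvec f c y))
      rw [ContinuousAlternatingMap.map_update_smul, smul_eq_mul]
    rw [h4, ← ContinuousAlternatingMap.map_update_add]
    have h5 : (∑ c, omC G f i y (s.orderEmbOfFin h j) c • fvec f c y) =
        -(fderiv ℝ (fun z => fvec f (s.orderEmbOfFin h j) z) y (bv i) +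
          FC4_Gam G y (bv i) (fvec f (s.orderEmbOfFin h j) y)) := by
      rw [← FC4_conn hf hy, ← Finset.sum_neg_distrib]
      refine Finset.sum_congr rfl fun c _ => ?_
      have := congrFun (congrFun (hskew i) c) (s.orderEmbOfFin h j)
      rw [Matrix.transpose_apply, Matrix.neg_apply] at this
      rw [this, neg_smul]
    rw [h5]
    have h6 : fderiv ℝ (fun z => fvec f (s.orderEmbOfFin h j) z) y (bv i) +
        -(fderiv ℝ (fun z => fvec f (s.orderEmbOfFin h j) z) y (bv i) +
          FC4_Gam G y (bv i) (fvec f (s.orderEmbOfFin h j) y)) =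
        (-1 : ℝ) • FC4_Gam G y (bv i) (fvec f (s.orderEmbOfFin h j) y) := by
      rw [neg_smul, one_smul]
      abel
    rw [h6, ContinuousAlternatingMap.map_update_smul, smul_eq_mul]
    ring
  · rw [dif_neg h]
    have h1 : (fun z => comp f w z s) = fun _ => 0 := by
      funext z
      unfold comp
      rw [dif_neg h]
    rw [h1]
    unfold FC4_C pd
    rw [dif_neg h]
    simp

/-- Item FC4. -/
theorem thm_FC4 (h2 : claimFC2) : claimFC4 := by
  intro U G f hf k w y hy hw
  have hskew := ((h2 U G f hf).2.2 y hy).1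
  have hL : ContinuousAlternatingMap.alternatizeUncurryFin (FC4_nab G w y) = extDeriv w y := by
    unfold FC4_nab extDeriv
    rw [← ContinuousAlternatingMap.alternatizeUncurryFinCLM_apply, map_sub,
      ContinuousAlternatingMap.alternatizeUncurryFinCLM_apply,
      ContinuousAlternatingMap.alternatizeUncurryFinCLM_apply,
      ContinuousAlternatingMap.alternatizeUncurryFin_fderivCompContinuousLinearMap_eq_zero
        (w y) (ContinuousLinearMap.id ℝ E4) (FC4_Gam_symm hf.met hy), sub_zero]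
  have hc : comp f (extDeriv w) y = FC4_C (fun a => fvec f a y) (extDeriv w y) := rfl
  rw [hc, ← hL, ← FC4_C_sum_eps (fun a => fvec f a y) (fun i a => f y i a) (fun a => rfl)]
  unfold dFC
  simp only [FC4_nabC hf hy hskew w hw]

end NRF

end
end

section

/-!
FC5: special coordinates and frame at a point.
-/

set_option autoImplicit false

open scoped Manifold ContDiff Topology Matrix
open MeasureTheory Set

noncomputable section

namespace NRF

theorem FC5_pd_mul {f g : E4 → ℝ} {z : E4} (hf : DifferentiableAt ℝ f z)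
    (hg : DifferentiableAt ℝ g z) (i : Fin 4) :
    pd i (fun w => f w * g w) z = pd i f z * g z + f z * pd i g z := by
  have h := (hf.hasFDerivAt.mul hg.hasFDerivAt).fderiv
  unfold pd
  change (fderiv ℝ (f * g) z) (bv i) = _
  rw [h]
  change f z * (fderiv ℝ g z) (bv i) + g z * (fderiv ℝ f z) (bv i) = _
  ring

theorem FC5_pd_add {f g : E4 → ℝ} {z : E4} (hf : DifferentiableAt ℝ f z)
    (hg : DifferentiableAt ℝ g z) (i : Fin 4) :
    pd i (fun w => f w + g w) z = pd i f z + pd i g z := by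
  have h := (hf.hasFDerivAt.add hg.hasFDerivAt).fderiv
  unfold pd
  change (fderiv ℝ (f + g) z) (bv i) = _
  rw [h]
  rfl

theorem FC5_pd_sub {f g : E4 → ℝ} {z : E4} (hf : DifferentiableAt ℝ f z)
    (hg : DifferentiableAt ℝ g z) (i : Fin 4) :
    pd i (fun w => f w - g w) z = pd i f z - pd i g z := by
  have h := (hf.hasFDerivAt.sub hg.hasFDerivAt).fderiv
  unfold pd
  change (fderiv ℝ (f - g) z) (bv i) = _
  rw [h]
  rfl

theorem FC5_pd_const (c : ℝ) (z : E4) (i : Fin 4) : pd i (fun _ : E4 => c) z = 0 := by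
  unfold pd
  simp

theorem FC5_pd_sum {ι : Type} {s : Finset ι} {f : ι → E4 → ℝ} {z : E4}
    (h : ∀ k ∈ s, DifferentiableAt ℝ (f k) z) (i : Fin 4) :
    DifferentiableAt ℝ (fun w => ∑ k ∈ s, f k w) z ∧
      pd i (fun w => ∑ k ∈ s, f k w) z = ∑ k ∈ s, pd i (f k) z := by
  classical
  induction s using Finset.induction_on with
  | empty =>
    simp only [Finset.sum_empty]
    exact ⟨differentiableAt_const _, FC5_pd_const 0 z i⟩
  | insert a s ha ih =>
    obtain ⟨h1, h2⟩ := ih fun k hk => h k (Finset.mem_insert_of_mem hk)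
    simp only [Finset.sum_insert ha]
    refine ⟨(h a (Finset.mem_insert_self a s)).add h1, ?_⟩
    rw [FC5_pd_add (h a (Finset.mem_insert_self a s)) h1, h2]

/-- a matrix function with entries differentiable at `z` and partial derivatives `F'` -/
def FC5D (F : E4 → Matrix (Fin 4) (Fin 4) ℝ) (F' : Fin 4 → Matrix (Fin 4) (Fin 4) ℝ) (z : E4) :
    Prop :=
  (∀ a b, DifferentiableAt ℝ (fun w => F w a b) z) ∧
    ∀ i a b, pd i (fun w => F w a b) z = F' i a b

theorem FC5D.mul {F H : E4 → Matrix (Fin 4) (Fin 4) ℝ} {F' H' : Fin 4 → Matrix (Fin 4) (Fin 4) ℝ}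
    {z : E4} (hF : FC5D F F' z) (hH : FC5D H H' z) :
    FC5D (fun w => F w * H w) (fun i => F' i * H z + F z * H' i) z := by
  refine ⟨fun a b => ?_, fun i a b => ?_⟩
  · simp only [Matrix.mul_apply]
    exact (FC5_pd_sum (fun k _ => (hF.1 a k).mul (hH.1 k b)) 0).1
  · simp only [Matrix.mul_apply, Matrix.add_apply]
    rw [(FC5_pd_sum (s := Finset.univ) (f := fun k w => F w a k * H w k b)
      (fun k _ => (hF.1 a k).mul (hH.1 k b)) i).2, ← Finset.sum_add_distrib]
    refine Finset.sum_congr rfl fun k _ => ?_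
    rw [FC5_pd_mul (hF.1 a k) (hH.1 k b), hF.2, hH.2]

theorem FC5D.add {F H : E4 → Matrix (Fin 4) (Fin 4) ℝ} {F' H' : Fin 4 → Matrix (Fin 4) (Fin 4) ℝ}
    {z : E4} (hF : FC5D F F' z) (hH : FC5D H H' z) :
    FC5D (fun w => F w + H w) (fun i => F' i + H' i) z := by
  refine ⟨fun a b => ?_, fun i a b => ?_⟩
  · simp only [Matrix.add_apply]
    exact (hF.1 a b).add (hH.1 a b)
  · simp only [Matrix.add_apply]
    rw [FC5_pd_add (hF.1 a b) (hH.1 a b), hF.2, hH.2]

theorem FC5D.sub {F H : E4 → Matrix (Fin 4) (Fin 4) ℝ} {F' H' : Fin 4 → Matrix (Fin 4) (Fin 4) ℝ}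
    {z : E4} (hF : FC5D F F' z) (hH : FC5D H H' z) :
    FC5D (fun w => F w - H w) (fun i => F' i - H' i) z := by
  refine ⟨fun a b => ?_, fun i a b => ?_⟩
  · simp only [Matrix.sub_apply]
    exact (hF.1 a b).sub (hH.1 a b)
  · simp only [Matrix.sub_apply]
    rw [FC5_pd_sub (hF.1 a b) (hH.1 a b), hF.2, hH.2]

theorem FC5D.const (C : Matrix (Fin 4) (Fin 4) ℝ) (z : E4) : FC5D (fun _ => C) 0 z := by
  refine ⟨fun a b => differentiableAt_const _, fun i a b => ?_⟩
  unfold pd
  simp

theorem FC5D.transpose {F : E4 → Matrix (Fin 4) (Fin 4) ℝ}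
    {F' : Fin 4 → Matrix (Fin 4) (Fin 4) ℝ} {z : E4} (hF : FC5D F F' z) :
    FC5D (fun w => (F w).transpose) (fun i => (F' i).transpose) z :=
  ⟨fun a b => hF.1 b a, fun i a b => hF.2 i b a⟩

theorem FC5D.unique {F : E4 → Matrix (Fin 4) (Fin 4) ℝ}
    {F' F'' : Fin 4 → Matrix (Fin 4) (Fin 4) ℝ} {z : E4} (h : FC5D F F' z) (h' : FC5D F F'' z) :
    F' = F'' := by
  funext i
  ext a b
  rw [← h.2, ← h'.2]

theorem FC5D.congr {F H : E4 → Matrix (Fin 4) (Fin 4) ℝ}
    {F' : Fin 4 → Matrix (Fin 4) (Fin 4) ℝ} {z : E4} (h : FC5D F F' z) (he : F =ᶠ[𝓝 z] H) :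
    FC5D H F' z := by
  refine ⟨fun a b => ?_, fun i a b => ?_⟩
  · refine (h.1 a b).congr_of_eventuallyEq ?_
    filter_upwards [he] with w hw
    rw [hw]
  · rw [← h.2 i a b]
    unfold pd
    have : (fun w => H w a b) =ᶠ[𝓝 z] (fun w => F w a b) := by
      filter_upwards [he] with w hw
      rw [hw]
    rw [this.fderiv_eq]

theorem FC5D.of_smooth {F : E4 → Matrix (Fin 4) (Fin 4) ℝ} {U : Set E4} (hU : IsOpen U)
    (hF : ∀ i j, ContDiffOn ℝ ∞ (fun y => F y i j) U) {z : E4} (hz : z ∈ U) :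
    FC5D F (fun i => Matrix.of fun a b => pd i (fun w => F w a b) z) z :=
  ⟨fun a b => ((hF a b).differentiableOn (by simp)).differentiableAt (hU.mem_nhds hz),
    fun _ _ _ => rfl⟩

theorem FC5_smooth_mul {F H : E4 → Matrix (Fin 4) (Fin 4) ℝ} {U : Set E4}
    (hF : ∀ i j, ContDiffOn ℝ ∞ (fun y => F y i j) U)
    (hH : ∀ i j, ContDiffOn ℝ ∞ (fun y => H y i j) U) (i j : Fin 4) :
    ContDiffOn ℝ ∞ (fun y => (F y * H y) i j) U := by
  simp only [Matrix.mul_apply]
  exact ContDiffOn.sum fun k _ => (hF i k).mul (hH k j)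

theorem FC5_smooth_det {F : E4 → Matrix (Fin 4) (Fin 4) ℝ} {U : Set E4}
    (hF : ∀ i j, ContDiffOn ℝ ∞ (fun y => F y i j) U) :
    ContDiffOn ℝ ∞ (fun y => (F y).det) U := by
  simp only [Matrix.det_apply]
  refine ContDiffOn.sum fun σ _ => ?_
  exact ContDiffOn.const_smul _ (contDiffOn_prod fun k _ => hF _ _)

theorem FC5_smooth_inv {F : E4 → Matrix (Fin 4) (Fin 4) ℝ} {U : Set E4}
    (hF : ∀ i j, ContDiffOn ℝ ∞ (fun y => F y i j) U) (hd : ∀ y ∈ U, (F y).det ≠ 0)
    (i j : Fin 4) :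
    ContDiffOn ℝ ∞ (fun y => (F y)⁻¹ i j) U := by
  have hadj : ContDiffOn ℝ ∞ (fun y => (F y).adjugate i j) U := by
    simp only [Matrix.adjugate_apply, Matrix.det_apply]
    refine ContDiffOn.sum fun σ _ => ?_
    refine ContDiffOn.const_smul _ (contDiffOn_prod fun k _ => ?_)
    by_cases hk : σ k = j
    · simp only [Matrix.updateRow_apply, hk, if_true]
      exact contDiffOn_const
    · simp only [Matrix.updateRow_apply, hk, if_false]
      exact hF _ _
  have : ∀ y ∈ U, (F y)⁻¹ i j = ((F y).det)⁻¹ * (F y).adjugate i j := by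
    intro y _
    rw [Matrix.inv_def, Ring.inverse_eq_inv']
    rfl
  refine ContDiffOn.congr ?_ this
  exact ((FC5_smooth_det hF).inv hd).mul hadj

/-! ### The Cayley transform -/

theorem FC5_det_ne {B : Matrix (Fin 4) (Fin 4) ℝ} (hB : B.transpose = -B) : (1 + B).det ≠ 0 := by
  intro h0
  obtain ⟨v, hv, h1⟩ := Matrix.exists_mulVec_eq_zero_iff.2 h0
  have h2 : v ⬝ᵥ B.mulVec v = 0 := by
    have : v ⬝ᵥ B.mulVec v = -(v ⬝ᵥ B.mulVec v) := by
      conv_lhs => rw [Matrix.dotProduct_mulVec, ← Matrix.mulVec_transpose, hB, Matrix.neg_mulVec,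
        neg_dotProduct, dotProduct_comm]
    linarith
  have h3 : v ⬝ᵥ (1 + B).mulVec v = 0 := by rw [h1, dotProduct_zero]
  rw [Matrix.add_mulVec, Matrix.one_mulVec, dotProduct_add, h2, add_zero] at h3
  exact hv (dotProduct_self_eq_zero.1 h3)

/-- Cayley transform -/
def FC5cay (B : Matrix (Fin 4) (Fin 4) ℝ) : Matrix (Fin 4) (Fin 4) ℝ := (1 - B) * (1 + B)⁻¹

theorem FC5_transpose {B : Matrix (Fin 4) (Fin 4) ℝ} (hB : B.transpose = -B) :
    (1 + B).transpose = 1 - B := by
  rw [Matrix.transpose_add, Matrix.transpose_one, hB, sub_eq_add_neg]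

theorem FC5_transpose' {B : Matrix (Fin 4) (Fin 4) ℝ} (hB : B.transpose = -B) :
    (1 - B).transpose = 1 + B := by
  rw [Matrix.transpose_sub, Matrix.transpose_one, hB, sub_neg_eq_add]

theorem FC5cay_mul {B : Matrix (Fin 4) (Fin 4) ℝ} (hB : B.transpose = -B) :
    FC5cay B * (1 + B) = 1 - B := by
  unfold FC5cay
  rw [Matrix.mul_assoc, Matrix.nonsing_inv_mul _ (FC5_det_ne hB).isUnit, Matrix.mul_one]

theorem FC5cay_orth {B : Matrix (Fin 4) (Fin 4) ℝ} (hB : B.transpose = -B) :
    (FC5cay B).transpose * FC5cay B = 1 := by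
  have h1 := (FC5_det_ne hB).isUnit
  have h2 : IsUnit (1 - B).det := by
    rw [← FC5_transpose hB, Matrix.det_transpose]; exact h1
  have h3 : (FC5cay B).transpose = (1 - B)⁻¹ * (1 + B) := by
    unfold FC5cay
    rw [Matrix.transpose_mul, Matrix.transpose_nonsing_inv, FC5_transpose hB, FC5_transpose' hB]
  have h4 : (1 + B) * (1 - B) = (1 - B) * (1 + B) := by
    noncomm_ring
  unfold FC5cay at h3 ⊢
  rw [h3]
  calc (1 - B)⁻¹ * (1 + B) * ((1 - B) * (1 + B)⁻¹)
      = (1 - B)⁻¹ * ((1 + B) * (1 - B)) * (1 + B)⁻¹ := by simp only [Matrix.mul_assoc]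
    _ = ((1 - B)⁻¹ * (1 - B)) * ((1 + B) * (1 + B)⁻¹) := by
        rw [h4]; simp only [Matrix.mul_assoc]
    _ = 1 := by
        rw [Matrix.nonsing_inv_mul _ h2, Matrix.mul_nonsing_inv _ h1, Matrix.one_mul]

theorem FC5cay_det {B : Matrix (Fin 4) (Fin 4) ℝ} (hB : B.transpose = -B) :
    (FC5cay B).det = 1 := by
  have h := congrArg Matrix.det (FC5cay_mul hB)
  rw [Matrix.det_mul] at h
  have h2 : (1 - B).det = (1 + B).det := by
    rw [← FC5_transpose hB, Matrix.det_transpose]
  rw [h2] at h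
  exact mul_right_cancel₀ (FC5_det_ne hB) (by rw [h, one_mul])

/-- the linear family of matrices with coefficients `S` -/
def FC5lin (S : Fin 4 → Matrix (Fin 4) (Fin 4) ℝ) (z : E4) : Matrix (Fin 4) (Fin 4) ℝ :=
  Matrix.of fun a b => ∑ m, S m a b * z m

theorem FC5_pd_coord (i m : Fin 4) (z : E4) :
    DifferentiableAt ℝ (fun w : E4 => w m) z ∧
      pd i (fun w : E4 => w m) z = if i = m then 1 else 0 := by
  have h : HasFDerivAt (fun w : E4 => w m) (EuclideanSpace.proj m : E4 →L[ℝ] ℝ) z :=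
    (EuclideanSpace.proj m : E4 →L[ℝ] ℝ).hasFDerivAt
  refine ⟨h.differentiableAt, ?_⟩
  unfold pd
  rw [h.fderiv]
  change (bv i) m = _
  unfold bv
  by_cases him : i = m
  · subst him; simp
  · rw [if_neg him]
    have : m ≠ i := fun h => him h.symm
    simp [this]

theorem FC5lin_D (S : Fin 4 → Matrix (Fin 4) (Fin 4) ℝ) (z : E4) : FC5D (FC5lin S) S z := by
  refine ⟨fun a b => ?_, fun i a b => ?_⟩
  · simp only [FC5lin, Matrix.of_apply]
    exact (FC5_pd_sum (fun m _ => (differentiableAt_const _).mul (FC5_pd_coord 0 m z).1) 0).1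
  · simp only [FC5lin, Matrix.of_apply]
    rw [(FC5_pd_sum (s := Finset.univ) (f := fun m w => S m a b * w m)
      (fun m _ => (differentiableAt_const _).mul (FC5_pd_coord 0 m z).1) i).2]
    have : ∀ m, pd i (fun w : E4 => S m a b * w m) z = if i = m then S m a b else 0 := by
      intro m
      rw [FC5_pd_mul (differentiableAt_const _) (FC5_pd_coord 0 m z).1, FC5_pd_const,
        (FC5_pd_coord i m z).2]
      split_ifs <;> simp
    simp only [this]
    rw [Finset.sum_ite_eq]
    simp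

theorem FC5lin_smooth (S : Fin 4 → Matrix (Fin 4) (Fin 4) ℝ) (U : Set E4) (i j : Fin 4) :
    ContDiffOn ℝ ∞ (fun y => FC5lin S y i j) U := by
  simp only [FC5lin, Matrix.of_apply]
  refine ContDiffOn.sum fun m _ => contDiffOn_const.mul ?_
  exact (EuclideanSpace.proj m : E4 →L[ℝ] ℝ).contDiff.contDiffOn

theorem FC5lin_zero (S : Fin 4 → Matrix (Fin 4) (Fin 4) ℝ) : FC5lin S 0 = 0 := by
  ext a b
  simp [FC5lin]

theorem FC5lin_skew (S : Fin 4 → Matrix (Fin 4) (Fin 4) ℝ) (hS : ∀ m, (S m).transpose = -S m)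
    (z : E4) : (FC5lin S z).transpose = -FC5lin S z := by
  ext a b
  simp only [FC5lin, Matrix.transpose_apply, Matrix.of_apply, Matrix.neg_apply]
  rw [← Finset.sum_neg_distrib]
  refine Finset.sum_congr rfl fun m _ => ?_
  have := congrFun (congrFun (hS m) a) b
  simp only [Matrix.transpose_apply, Matrix.neg_apply] at this
  rw [this, neg_mul]

/-! ### The quadratic coordinate change -/

theorem FC5_pd_comp {φ : E4 → E4} {z : E4} (h : DifferentiableAt ℝ φ z) (i k : Fin 4) :
    (pd i φ z) k = pd i (fun w => φ w k) z := by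
  have h1 : HasFDerivAt (fun w => φ w k)
      ((EuclideanSpace.proj k : E4 →L[ℝ] ℝ).comp (fderiv ℝ φ z)) z :=
    (EuclideanSpace.proj k : E4 →L[ℝ] ℝ).hasFDerivAt.comp z h.hasFDerivAt
  unfold pd
  rw [h1.fderiv]
  rfl

theorem FC5_det (L : E4 →L[ℝ] E4) : L.det = (Matrix.of fun k i => (L (bv i)) k).det := by
  have h := LinearMap.det_toMatrix (EuclideanSpace.basisFun (Fin 4) ℝ).toBasis
    (L : E4 →ₗ[ℝ] E4)
  unfold ContinuousLinearMap.det
  rw [← h]
  congr 1

/-- the quadratic map with linear part `A` and quadratic part given by `C` -/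
def FC5phi (y0 : E4) (A : Matrix (Fin 4) (Fin 4) ℝ) (C : Fin 4 → Matrix (Fin 4) (Fin 4) ℝ)
    (z : E4) : E4 :=
  WithLp.toLp 2 fun k => y0 k + ∑ j, A k j * (z j + (1 / 2) * ∑ i, FC5lin C z j i * z i)

theorem FC5phi_apply (y0 : E4) (A : Matrix (Fin 4) (Fin 4) ℝ)
    (C : Fin 4 → Matrix (Fin 4) (Fin 4) ℝ) (z : E4) (k : Fin 4) :
    FC5phi y0 A C z k = y0 k + ∑ j, A k j * (z j + (1 / 2) * ∑ i, FC5lin C z j i * z i) := rfl

theorem FC5phi_zero (y0 : E4) (A : Matrix (Fin 4) (Fin 4) ℝ)
    (C : Fin 4 → Matrix (Fin 4) (Fin 4) ℝ) : FC5phi y0 A C 0 = y0 := by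
  ext k
  rw [FC5phi_apply]
  simp

theorem FC5phi_smooth (y0 : E4) (A : Matrix (Fin 4) (Fin 4) ℝ)
    (C : Fin 4 → Matrix (Fin 4) (Fin 4) ℝ) : ContDiff ℝ ∞ (FC5phi y0 A C) := by
  rw [contDiff_euclidean]
  intro k
  simp only [FC5phi_apply]
  have hc : ∀ m, ContDiff ℝ ∞ (fun y : E4 => y m) := fun m =>
    (EuclideanSpace.proj m : E4 →L[ℝ] ℝ).contDiff
  refine contDiff_const.add (ContDiff.sum fun j _ => contDiff_const.mul ((hc j).add
    (contDiff_const.mul (ContDiff.sum fun i _ => ?_))))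
  refine ContDiff.mul ?_ (hc i)
  rw [← contDiffOn_univ]
  exact FC5lin_smooth C univ j i

theorem FC5phi_pd (y0 : E4) (A : Matrix (Fin 4) (Fin 4) ℝ)
    (C : Fin 4 → Matrix (Fin 4) (Fin 4) ℝ) (hC : ∀ m j i, C m j i = C i j m) (z : E4)
    (i k : Fin 4) : (pd i (FC5phi y0 A C) z) k = (A * (1 + FC5lin C z)) k i := by
  rw [FC5_pd_comp ((FC5phi_smooth y0 A C).differentiable (by simp) z)]
  simp only [FC5phi_apply]
  have hN : ∀ j l, DifferentiableAt ℝ (fun w => FC5lin C w j l) z ∧
      ∀ i, pd i (fun w => FC5lin C w j l) z = C i j l :=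
    fun j l => ⟨(FC5lin_D C z).1 j l, fun i => (FC5lin_D C z).2 i j l⟩
  have hq : ∀ j, DifferentiableAt ℝ (fun w : E4 => ∑ l, FC5lin C w j l * w l) z ∧
      pd i (fun w : E4 => ∑ l, FC5lin C w j l * w l) z = 2 * FC5lin C z j i := by
    intro j
    obtain ⟨h1, h2⟩ := FC5_pd_sum (s := Finset.univ) (f := fun l w => FC5lin C w j l * w l)
      (fun l _ => (hN j l).1.mul (FC5_pd_coord 0 l z).1) i
    refine ⟨h1, h2.trans ?_⟩
    have h3 : ∀ l, pd i (fun w : E4 => FC5lin C w j l * w l) z =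
        C i j l * z l + if i = l then FC5lin C z j l else 0 := by
      intro l
      rw [FC5_pd_mul (hN j l).1 (FC5_pd_coord 0 l z).1, (hN j l).2, (FC5_pd_coord i l z).2]
      split_ifs <;> simp
    simp only [h3]
    rw [Finset.sum_add_distrib, Finset.sum_ite_eq, if_pos (Finset.mem_univ i), two_mul]
    congr 1
    simp only [FC5lin, Matrix.of_apply]
    exact Finset.sum_congr rfl fun l _ => by rw [hC i j l]
  have hr : ∀ j, DifferentiableAt ℝ
      (fun w : E4 => A k j * (w j + (1 / 2) * ∑ l, FC5lin C w j l * w l)) z ∧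
      pd i (fun w : E4 => A k j * (w j + (1 / 2) * ∑ l, FC5lin C w j l * w l)) z =
        A k j * ((if i = j then 1 else 0) + FC5lin C z j i) := by
    intro j
    have d1 := (FC5_pd_coord i j z)
    have d2 : DifferentiableAt ℝ (fun w : E4 => (1 / 2 : ℝ) * ∑ l, FC5lin C w j l * w l) z :=
      (differentiableAt_const _).mul (hq j).1
    have d3 : DifferentiableAt ℝ
        (fun w : E4 => w j + (1 / 2 : ℝ) * ∑ l, FC5lin C w j l * w l) z := d1.1.add d2
    refine ⟨(differentiableAt_const _).mul d3, ?_⟩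
    rw [FC5_pd_mul (differentiableAt_const _) d3, FC5_pd_const, zero_mul, zero_add,
      FC5_pd_add d1.1 d2, d1.2, FC5_pd_mul (differentiableAt_const _) (hq j).1, FC5_pd_const,
      (hq j).2]
    ring
  obtain ⟨h4, h5⟩ := FC5_pd_sum (s := Finset.univ)
    (f := fun j (w : E4) => A k j * (w j + (1 / 2) * ∑ l, FC5lin C w j l * w l))
    (fun j _ => (hr j).1) i
  rw [FC5_pd_add (differentiableAt_const _) h4, FC5_pd_const, zero_add, h5, Matrix.mul_apply]
  refine Finset.sum_congr rfl fun j _ => ?_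
  rw [(hr j).2, Matrix.add_apply, Matrix.one_apply]
  congr 2
  by_cases h : i = j
  · rw [if_pos h, if_pos h.symm]
  · rw [if_neg h, if_neg fun h' => h h'.symm]

theorem FC5_pullM (φ : E4 → E4) (G : E4 → Matrix (Fin 4) (Fin 4) ℝ) (y : E4) :
    pullM φ G y = (Matrix.of fun k i => (pd i φ y) k).transpose * G (φ y) *
      (Matrix.of fun k i => (pd i φ y) k) := by
  ext i j
  simp only [pullM, Matrix.of_apply, Matrix.mul_apply, Matrix.transpose_apply]
  rw [Finset.sum_comm]
  refine Finset.sum_congr rfl fun l _ => ?_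
  rw [Finset.sum_mul]
  refine Finset.sum_congr rfl fun k _ => ?_
  ring

/-- existence of the coordinate change with vanishing first derivatives of the metric -/
theorem FC5_coord {U : Set E4} {G : E4 → Matrix (Fin 4) (Fin 4) ℝ} (hG : MetOn U G) {y0 : E4}
    (hy0 : y0 ∈ U) (A : Matrix (Fin 4) (Fin 4) ℝ) (hA : A.transpose * G y0 * A = 1) :
    ∃ φ : E4 → E4, ContDiff ℝ ∞ φ ∧ φ 0 = y0 ∧ (fderiv ℝ φ 0).det = A.det ∧
      pullM φ G 0 = 1 ∧ FC5D (pullM φ G) 0 0 := by
  -- the vectors `A_m`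
  set dG : Fin 4 → Matrix (Fin 4) (Fin 4) ℝ := fun m => Matrix.of fun k l =>
    fderiv ℝ (fun y => G y k l) y0 (WithLp.toLp 2 fun k => A k m) with hdG
  have hsym : ∀ y ∈ U, ∀ k l, G y k l = G y l k := by
    intro y hy k l
    have := (hG.posDef y hy).isHermitian.apply k l
    simpa using this.symm
  have hdGs : ∀ m, (dG m).transpose = dG m := by
    intro m
    ext k l
    simp only [hdG, Matrix.transpose_apply, Matrix.of_apply]
    have : (fun y => G y l k) =ᶠ[𝓝 y0] fun y => G y k l := by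
      filter_upwards [hG.isOpen.mem_nhds hy0] with y hy
      exact hsym y hy l k
    rw [this.fderiv_eq]
  set T : Fin 4 → Matrix (Fin 4) (Fin 4) ℝ := fun m => A.transpose * dG m * A with hT
  have hTs : ∀ m i j, T m i j = T m j i := by
    intro m i j
    have : (T m).transpose = T m := by
      simp only [hT]
      rw [Matrix.transpose_mul, Matrix.transpose_mul, Matrix.transpose_transpose, hdGs,
        Matrix.mul_assoc]
    exact congrFun (congrFun this j) i
  set C : Fin 4 → Matrix (Fin 4) (Fin 4) ℝ := fun m => Matrix.of fun j i =>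
    -(1 / 2) * (T m i j + T i m j - T j m i) with hC
  have hCs : ∀ m j i, C m j i = C i j m := by
    intro m j i
    simp only [hC, Matrix.of_apply]
    rw [hTs j m i]
    ring
  have hCT : ∀ m, (C m).transpose + T m + C m = 0 := by
    intro m
    ext i j
    simp only [hC, Matrix.add_apply, Matrix.transpose_apply, Matrix.of_apply, Matrix.zero_apply]
    rw [hTs m j i, hTs i m j, hTs j m i, hTs i j m, hTs j i m]
    ring
  have hφ0 := FC5phi_zero y0 A C
  have hφs := FC5phi_smooth y0 A C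
  set φ := FC5phi y0 A C with hφ
  have hJ : ∀ z, (Matrix.of fun k i => (pd i φ z) k) = A * (1 + FC5lin C z) := by
    intro z
    ext k i
    exact FC5phi_pd y0 A C hCs z i k
  have hJ0 : (Matrix.of fun k i => (pd i φ 0) k) = A := by
    rw [hJ, FC5lin_zero, add_zero, Matrix.mul_one]
  have hpull : pullM φ G = fun z => (A * (1 + FC5lin C z)).transpose * G (φ z) *
      (A * (1 + FC5lin C z)) := by
    funext z
    rw [FC5_pullM, hJ]
  refine ⟨φ, hφs, hφ0, ?_, ?_, ?_⟩
  · rw [FC5_det]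
    exact congrArg Matrix.det hJ0
  · rw [FC5_pullM, hJ0, hφ0, hA]
  · -- the derivative
    have hφd : HasFDerivAt φ (fderiv ℝ φ 0) 0 := (hφs.differentiable (by simp) 0).hasFDerivAt
    have hpdφ : ∀ m, fderiv ℝ φ 0 (bv m) = WithLp.toLp 2 fun k => A k m := by
      intro m
      ext k
      exact congrFun (congrFun hJ0 k) m
    have d1 : FC5D (fun z => G (φ z)) dG 0 := by
      have hk : ∀ k l, HasFDerivAt (fun z => G (φ z) k l)
          ((fderiv ℝ (fun y => G y k l) y0).comp (fderiv ℝ φ 0)) 0 := by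
        intro k l
        have h1 : HasFDerivAt (fun y => G y k l) (fderiv ℝ (fun y => G y k l) y0) (φ 0) := by
          rw [hφ0]
          exact (((hG.smooth k l).differentiableOn (by simp)).differentiableAt
            (hG.isOpen.mem_nhds hy0)).hasFDerivAt
        exact h1.comp 0 hφd
      refine ⟨fun k l => (hk k l).differentiableAt, fun m k l => ?_⟩
      unfold pd
      rw [(hk k l).fderiv, ContinuousLinearMap.comp_apply, hpdφ]
      rfl
    have d2 : FC5D (fun z => A * (1 + FC5lin C z)) (fun m => A * C m) 0 := by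
      have := (FC5D.const A 0).mul ((FC5D.const 1 0).add (FC5lin_D C 0))
      have e : (fun i => (0 : Fin 4 → Matrix (Fin 4) (Fin 4) ℝ) i * (1 + FC5lin C 0) +
          A * ((0 : Fin 4 → Matrix (Fin 4) (Fin 4) ℝ) i + C i)) = fun m => A * C m := by
        funext m
        simp
      rwa [e] at this
    have d3 := (d2.transpose.mul d1).mul d2
    rw [hpull]
    have e : (fun i => ((A * C i).transpose * G (φ 0) + (A * (1 + FC5lin C 0)).transpose * dG i) *
        (A * (1 + FC5lin C 0)) + (A * (1 + FC5lin C 0)).transpose * G (φ 0) * (A * C i)) =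
        (0 : Fin 4 → Matrix (Fin 4) (Fin 4) ℝ) := by
      funext m
      rw [FC5lin_zero, add_zero, Matrix.mul_one, hφ0]
      calc ((A * C m).transpose * G y0 + A.transpose * dG m) * A +
            A.transpose * G y0 * (A * C m)
          = (C m).transpose * (A.transpose * G y0 * A) + T m + (A.transpose * G y0 * A) * C m := by
            simp only [hT, Matrix.transpose_mul, Matrix.add_mul, Matrix.mul_assoc]
        _ = 0 := by rw [hA, Matrix.mul_one, Matrix.one_mul, hCT]
    rw [e] at d3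
    exact d3

/-- existence of a frame with vanishing first derivatives -/
theorem FC5_frame (c1 : claimFC1) {U : Set E4} {G : E4 → Matrix (Fin 4) (Fin 4) ℝ}
    (hG : MetOn U G) (h0 : (0 : E4) ∈ U) (hG0 : G 0 = 1) (hG' : FC5D G 0 0) :
    ∃ f, FrameOn U G f ∧ f 0 = 1 ∧ FC5D f 0 0 := by
  obtain ⟨f0, hf0⟩ := c1 U G hG
  set O := f0 0 with hO
  have hO1 : O.transpose * O = 1 := by
    have := hf0.orth 0 h0
    rwa [hG0, Matrix.mul_one] at this
  have hO2 : O * O.transpose = 1 := mul_eq_one_comm.1 hO1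
  set f1 : E4 → Matrix (Fin 4) (Fin 4) ℝ := fun z => f0 z * O.transpose with hf1
  have hf1s : ∀ i j, ContDiffOn ℝ ∞ (fun y => f1 y i j) U :=
    FC5_smooth_mul hf0.smooth fun i j => contDiffOn_const
  have hf1o : ∀ y ∈ U, (f1 y).transpose * G y * f1 y = 1 := by
    intro y hy
    have := hf0.orth y hy
    simp only [hf1]
    calc (f0 y * O.transpose).transpose * G y * (f0 y * O.transpose)
        = O * ((f0 y).transpose * G y * f0 y) * O.transpose := by
          simp only [Matrix.transpose_mul, Matrix.transpose_transpose, Matrix.mul_assoc]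
      _ = 1 := by rw [this, Matrix.mul_one, hO2]
  have hf10 : f1 0 = 1 := by
    simp only [hf1]
    exact hO2
  have hf1d : ∀ y ∈ U, 0 < (f1 y).det := by
    intro y hy
    simp only [hf1]
    rw [Matrix.det_mul, Matrix.det_transpose]
    exact mul_pos (hf0.det_pos y hy) (hf0.det_pos 0 h0)
  set S : Fin 4 → Matrix (Fin 4) (Fin 4) ℝ :=
    fun m => Matrix.of fun a b => pd m (fun w => f1 w a b) 0 with hS
  have hD1 : FC5D f1 S 0 := FC5D.of_smooth hG.isOpen hf1s h0
  have hSs : ∀ m, (S m).transpose = -S m := by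
    intro m
    have h1 := (hD1.transpose.mul hG').mul hD1
    have h2 : FC5D (fun w => (f1 w).transpose * G w * f1 w) 0 0 := by
      refine (FC5D.const 1 0).congr ?_
      filter_upwards [hG.isOpen.mem_nhds h0] with y hy
      exact (hf1o y hy).symm
    have h3 := congrFun (h1.unique h2) m
    simp only [hG0, hf10, Matrix.transpose_one, Matrix.mul_one, Matrix.one_mul, Pi.zero_apply,
      add_zero] at h3
    exact eq_neg_of_add_eq_zero_left h3
  set R : Fin 4 → Matrix (Fin 4) (Fin 4) ℝ := fun m => (1 / 2 : ℝ) • S m with hR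
  have hRs : ∀ m, (R m).transpose = -R m := by
    intro m
    simp only [hR, Matrix.transpose_smul, hSs, smul_neg]
  have hBs := FC5lin_skew R hRs
  set Q : E4 → Matrix (Fin 4) (Fin 4) ℝ := fun z => FC5cay (FC5lin R z) with hQ
  have hQs : ∀ i j, ContDiffOn ℝ ∞ (fun y => Q y i j) U := by
    have h1 : ∀ i j, ContDiffOn ℝ ∞ (fun y => (1 - FC5lin R y) i j) U := fun i j => by
      simp only [Matrix.sub_apply]
      exact contDiffOn_const.sub (FC5lin_smooth R U i j)
    have h2 : ∀ i j, ContDiffOn ℝ ∞ (fun y => (1 + FC5lin R y) i j) U := fun i j => by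
      simp only [Matrix.add_apply]
      exact contDiffOn_const.add (FC5lin_smooth R U i j)
    exact FC5_smooth_mul h1 (FC5_smooth_inv h2 fun y _ => FC5_det_ne (hBs y))
  have hQ0 : Q 0 = 1 := by
    simp only [hQ, FC5lin_zero, FC5cay]
    simp
  have hQD : FC5D Q (fun m => -S m) 0 := by
    have h1 := FC5D.of_smooth hG.isOpen hQs h0
    have h2 := h1.mul ((FC5D.const 1 0).add (FC5lin_D R 0))
    have h3 : FC5D (fun w => Q w * (1 + FC5lin R w)) (fun i => (0 : Fin 4 → Matrix (Fin 4)
        (Fin 4) ℝ) i - R i) 0 := by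
      refine ((FC5D.const 1 0).sub (FC5lin_D R 0)).congr ?_
      filter_upwards with y
      exact (FC5cay_mul (hBs y)).symm
    have h4 := h2.unique h3
    have h5 : (fun i => Matrix.of fun a b => pd i (fun w => Q w a b) 0) = fun m => -S m := by
      funext m
      have h6 := congrFun h4 m
      simp only [hQ0, FC5lin_zero, add_zero, Matrix.mul_one, Matrix.one_mul, Pi.zero_apply,
        zero_add, zero_sub] at h6
      rw [eq_sub_of_add_eq h6]
      simp only [hR]
      rw [← neg_smul, ← sub_smul]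
      norm_num
    rw [h5] at h1
    exact h1
  refine ⟨fun z => f1 z * Q z, ⟨hG, FC5_smooth_mul hf1s hQs, ?_, ?_⟩, ?_, ?_⟩
  · intro y hy
    calc (f1 y * Q y).transpose * G y * (f1 y * Q y)
        = (Q y).transpose * ((f1 y).transpose * G y * f1 y) * Q y := by
          simp only [Matrix.transpose_mul, Matrix.mul_assoc]
      _ = 1 := by rw [hf1o y hy, Matrix.mul_one]; exact FC5cay_orth (hBs y)
  · intro y hy
    rw [Matrix.det_mul]
    have : (Q y).det = 1 := FC5cay_det (hBs y)
    rw [this, mul_one]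
    exact hf1d y hy
  · change f1 0 * Q 0 = 1
    rw [hf10, hQ0, Matrix.mul_one]
  · have := hD1.mul hQD
    have e : (fun i => S i * Q 0 + f1 0 * -S i) = (0 : Fin 4 → Matrix (Fin 4) (Fin 4) ℝ) := by
      funext m
      rw [hf10, hQ0, Matrix.mul_one, Matrix.one_mul, add_neg_cancel]
      rfl
    rwa [e] at this

theorem thm_FC5 (h1 : claimL1) (c1 : claimFC1) (_c2 : claimFC2) : claimFC5 := by
  intro U G hG y0 hy0
  obtain ⟨F, hF⟩ := c1 U G hG
  obtain ⟨φ, hφs, hφ0, hφd, hφ1, hφD⟩ := FC5_coord hG hy0 (F y0) (hF.orth y0 hy0)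
  have hdet : 0 < (fderiv ℝ φ 0).det := by rw [hφd]; exact hF.det_pos y0 hy0
  have hder : HasFDerivAt φ
      (((fderiv ℝ φ 0).toContinuousLinearEquivOfDetNeZero hdet.ne' : E4 ≃L[ℝ] E4) :
        E4 →L[ℝ] E4) 0 := by
    rw [ContinuousLinearMap.coe_toContinuousLinearEquivOfDetNeZero]
    exact (hφs.differentiable (by simp) 0).hasFDerivAt
  set e := hφs.contDiffAt.toOpenPartialHomeomorph φ hder (by simp) with he
  have hecoe : (e : E4 → E4) = φ := rfl
  have he0 : (0 : E4) ∈ e.source := hφs.contDiffAt.mem_toOpenPartialHomeomorph_source hder (by simp)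
  have hcont : Continuous fun z => (fderiv ℝ φ z).det :=
    ContinuousLinearMap.continuous_det.comp (hφs.continuous_fderiv (by simp))
  set S : Set E4 := {z | 0 < (fderiv ℝ φ z).det} ∩ φ ⁻¹' U with hS
  have hSo : IsOpen S := (isOpen_lt continuous_const hcont).inter
    (hG.isOpen.preimage hφs.continuous)
  have h0S : (0 : E4) ∈ S := ⟨hdet, by rw [mem_preimage, hφ0]; exact hy0⟩
  set ψ := e.restrOpen S hSo with hψ
  have hψc : (ψ : E4 → E4) = φ := rfl
  have hsrc : ψ.source = e.source ∩ S := rfl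
  have hmaps : MapsTo φ ψ.source U := fun z hz => hz.2.2
  have hdets : ∀ z ∈ ψ.source, 0 < (fderiv ℝ φ z).det := fun z hz => hz.2.1
  obtain ⟨hM, _⟩ := h1 ψ.source U φ G ψ.open_source hG hmaps hφs.contDiffOn
    fun z hz => (hdets z hz).ne'
  obtain ⟨f, hf, hf0, hfD⟩ := FC5_frame c1 hM ⟨he0, h0S⟩ hφ1 hφD
  refine ⟨ψ, f, ⟨he0, h0S⟩, ?_, ?_, ?_, ?_, ?_, ?_, ?_, ?_, hf0, ?_, ?_⟩
  · rw [hψc]; exact hφ0
  · intro y hy
    have h2 := ψ.map_target hy
    have h3 := ψ.right_inv hy
    rw [← h3, hψc]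
    exact hmaps h2
  · rw [hψc]; exact hφs.contDiffOn
  · intro y hy
    have h2 := hdets _ (ψ.map_target hy)
    refine ContDiffAt.contDiffWithinAt ?_
    refine ψ.contDiffAt_symm hy
      (f₀' := (fderiv ℝ φ (ψ.symm y)).toContinuousLinearEquivOfDetNeZero h2.ne') ?_ ?_
    · rw [ContinuousLinearMap.coe_toContinuousLinearEquivOfDetNeZero, hψc]
      exact (hφs.differentiable (by simp) _).hasFDerivAt
    · rw [hψc]
      exact hφs.contDiffAt
  · rw [hψc]; exact hdets
  · rw [hψc]; exact hf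
  · rw [hψc]; exact hφ1
  · rw [hψc]; exact hφD.2
  · exact hfD.2
  · intro i
    rw [hψc]
    have e1 : (Matrix.of fun k a => pd i (fun z => f z k a) 0) = 0 := by
      ext k a
      exact hfD.2 i k a
    have e2 : (Matrix.of fun k j => chr (pullM φ G) k i j 0) = 0 := by
      ext k j
      simp only [Matrix.of_apply, Matrix.zero_apply, chr]
      rw [Finset.sum_eq_zero, mul_zero]
      intro l _
      rw [hφD.2 i j l, hφD.2 j i l, hφD.2 l i j]
      simp
    unfold omC
    rw [e1, e2, Matrix.zero_mul, add_zero, Matrix.mul_zero]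

end NRF

end
end

section

/-!
# Bridge for frames: `FrameOn` gives a `Frame` over the ring of smooth functions
-/

open scoped Manifold ContDiff Topology
open MeasureTheory Set

noncomputable section

namespace NRF

/-! ### Smooth inverse matrices -/

theorem FrB_smooth_inv {W : Type} [NormedAddCommGroup W] [NormedSpace ℝ W] {Ω : Set W}
    {M : W → Matrix (Fin 4) (Fin 4) ℝ} (h : ∀ i j, ContDiffOn ℝ ∞ (fun p => M p i j) Ω)
    (hd : ∀ p ∈ Ω, (M p).det ≠ 0) (i j : Fin 4) : ContDiffOn ℝ ∞ (fun p => (M p)⁻¹ i j) Ω := by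
  have hdet : ContDiffOn ℝ ∞ (fun p => (M p).det) Ω := by
    simp only [Matrix.det_apply]
    refine ContDiffOn.sum fun σ _ => ?_
    refine ContDiffOn.const_smul _ (contDiffOn_prod fun k _ => h _ _)
  have hadj : ContDiffOn ℝ ∞ (fun p => (M p).adjugate i j) Ω := by
    simp only [Matrix.adjugate_apply, Matrix.det_apply]
    refine ContDiffOn.sum fun σ _ => ?_
    refine ContDiffOn.const_smul _ (contDiffOn_prod fun k _ => ?_)
    by_cases hk : σ k = j
    · simp only [Matrix.updateRow_apply, hk, if_true]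
      exact contDiffOn_const
    · simp only [Matrix.updateRow_apply, hk, if_false]
      exact h _ _
  have : ∀ p ∈ Ω, (M p)⁻¹ i j = ((M p).det)⁻¹ * (M p).adjugate i j := by
    intro p _
    rw [Matrix.inv_def, Ring.inverse_eq_inv']
    rfl
  refine ContDiffOn.congr ?_ this
  exact (hdet.inv hd).mul hadj

/-! ### Naturality of the exterior algebra under ring homomorphisms -/

section
variable {R R' : Type} [CommRing R] [CommRing R'] (φ : R →+* R')

theorem FrB_eps_map (a : Fin 4) : (eps R a).map φ = eps R' a := by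
  ext s t
  simp [eps]

theorem FrB_iot_map (a : Fin 4) : (iot R a).map φ = iot R' a := by
  ext s t
  simp [iot, eps]

theorem FrB_clf_map (a : Fin 4) : (clf R a).map φ = clf R' a := by
  ext s t
  simp [clf, iot, eps]

theorem FrB_rho_map (A : Matrix (Fin 4) (Fin 4) R) : (rho A).map φ = rho (A.map φ) := by
  have h : ∀ M : Matrix Lam Lam R, M.map φ = φ.mapMatrix M := fun M => rfl
  unfold rho
  rw [h, map_sum]
  refine Finset.sum_congr rfl fun a _ => ?_
  rw [map_sum]
  refine Finset.sum_congr rfl fun b _ => ?_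
  have h2 : φ.mapMatrix (A a b • (eps R a * iot R b)) =
      φ (A a b) • φ.mapMatrix (eps R a * iot R b) := by
    ext s t
    exact map_mul φ (A a b) ((eps R a * iot R b) s t)
  rw [h2, map_mul, ← h, ← h, FrB_eps_map, FrB_iot_map]
  rfl

end

/-! ### Representation of matrices and vectors -/

section
variable {Ω : Set (ℝ × E4)} {l m n : Type}

/-- A matrix over `SF Ω` represents a matrix valued function. -/
def RepM (A : Matrix m n (SF Ω)) (A' : E4 → Matrix m n ℝ) : Prop :=
  ∀ i j, Rep (A i j) fun _ y => A' y i j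

/-- A vector over `SF Ω` represents a vector valued function. -/
def RepV (v : n → SF Ω) (v' : E4 → n → ℝ) : Prop := ∀ i, Rep (v i) fun _ y => v' y i

theorem RepM.add {A B : Matrix m n (SF Ω)} {A' B' : E4 → Matrix m n ℝ} (hA : RepM A A')
    (hB : RepM B B') : RepM (A + B) (fun y => A' y + B' y) := fun i j => (hA i j).add (hB i j)

theorem RepM.sub {A B : Matrix m n (SF Ω)} {A' B' : E4 → Matrix m n ℝ} (hA : RepM A A')
    (hB : RepM B B') : RepM (A - B) (fun y => A' y - B' y) := fun i j => (hA i j).sub (hB i j)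

theorem RepM.mul [Fintype m] {A : Matrix l m (SF Ω)} {B : Matrix m n (SF Ω)}
    {A' : E4 → Matrix l m ℝ} {B' : E4 → Matrix m n ℝ} (hA : RepM A A')
    (hB : RepM B B') : RepM (A * B) (fun y => A' y * B' y) :=
  fun i j => Rep.sum fun k _ => (hA i k).mul (hB k j)

theorem RepM.transpose {A : Matrix m n (SF Ω)} {A' : E4 → Matrix m n ℝ} (hA : RepM A A') :
    RepM A.transpose (fun y => (A' y).transpose) := fun i j => hA j i

theorem RepM.mulVec [Fintype n] {A : Matrix m n (SF Ω)} {A' : E4 → Matrix m n ℝ}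
    {v : n → SF Ω} {v' : E4 → n → ℝ} (hA : RepM A A') (hv : RepV v v') :
    RepV (A.mulVec v) (fun y => (A' y).mulVec (v' y)) :=
  fun i => Rep.sum fun k _ => (hA i k).mul (hv k)

theorem RepM.eval {A : Matrix m n (SF Ω)} {A' : E4 → Matrix m n ℝ} (hA : RepM A A') (p : Ω) :
    A.map (SF.ev p) = A' p.1.2 := by
  ext i j
  exact hA i j p

theorem RepV.add {v w : n → SF Ω} {v' w' : E4 → n → ℝ} (hv : RepV v v') (hw : RepV w w') :
    RepV (v + w) (fun y => v' y + w' y) := fun i => (hv i).add (hw i)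

theorem RepV.sub {v w : n → SF Ω} {v' w' : E4 → n → ℝ} (hv : RepV v v') (hw : RepV w w') :
    RepV (v - w) (fun y => v' y - w' y) := fun i => (hv i).sub (hw i)

theorem Rep.neg {f : SF Ω} {F : ℝ → E4 → ℝ} (h : Rep f F) : Rep (-f) (fun t y => -F t y) :=
  fun p => by
    have := h p
    simp_all

theorem RepV.neg {v : n → SF Ω} {v' : E4 → n → ℝ} (hv : RepV v v') :
    RepV (-v) (fun y => -v' y) := fun i => (hv i).neg

theorem RepV.smul {r : SF Ω} {r' : E4 → ℝ} {v : n → SF Ω} {v' : E4 → n → ℝ}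
    (hr : Rep r fun _ y => r' y) (hv : RepV v v') :
    RepV (r • v) (fun y => r' y • v' y) := fun i => hr.mul (hv i)

theorem RepV.sum {ι : Type} {s : Finset ι} {v : ι → n → SF Ω} {v' : ι → E4 → n → ℝ}
    (hv : ∀ i ∈ s, RepV (v i) (v' i)) :
    RepV (∑ i ∈ s, v i) (fun y => ∑ i ∈ s, v' i y) := by
  intro j p
  have h := Rep.sum (s := s) (f := fun i => v i j) (F := fun i _ y => v' i y j)
    (fun i hi => hv i hi j) p
  have e1 : (∑ i ∈ s, v i) j = ∑ i ∈ s, v i j := Finset.sum_apply _ _ _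
  have e2 : (∑ i ∈ s, v' i p.1.2) j = ∑ i ∈ s, v' i p.1.2 j := Finset.sum_apply _ _ _
  change ((∑ i ∈ s, v i) j).1 p = (∑ i ∈ s, v' i p.1.2) j
  rw [e1, e2]
  exact h

theorem RepM.of_map {A : Matrix m n (SF Ω)} {A' : E4 → Matrix m n ℝ}
    (h : ∀ p : Ω, A.map (SF.ev p) = A' p.1.2) : RepM A A' := by
  intro i j p
  exact congrFun (congrFun (h p) i) j

theorem RepM.eps (a : Fin 4) : RepM (NRF.eps (SF Ω) a) (fun _ => NRF.eps ℝ a) :=
  RepM.of_map fun p => FrB_eps_map ((SF.ev p : SF Ω →ₐ[ℝ] ℝ) : SF Ω →+* ℝ) a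

theorem RepM.iot (a : Fin 4) : RepM (NRF.iot (SF Ω) a) (fun _ => NRF.iot ℝ a) :=
  RepM.of_map fun p => FrB_iot_map ((SF.ev p : SF Ω →ₐ[ℝ] ℝ) : SF Ω →+* ℝ) a

theorem RepM.clf (a : Fin 4) : RepM (NRF.clf (SF Ω) a) (fun _ => NRF.clf ℝ a) :=
  RepM.of_map fun p => FrB_clf_map ((SF.ev p : SF Ω →ₐ[ℝ] ℝ) : SF Ω →+* ℝ) a

theorem RepM.rho {A : Matrix (Fin 4) (Fin 4) (SF Ω)} {A' : E4 → Matrix (Fin 4) (Fin 4) ℝ}
    (h : RepM A A') : RepM (NRF.rho A) (fun y => NRF.rho (A' y)) :=
  RepM.of_map fun p => by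
    have := FrB_rho_map ((SF.ev p : SF Ω →ₐ[ℝ] ℝ) : SF Ω →+* ℝ) A
    have e : A.map ((SF.ev p : SF Ω →ₐ[ℝ] ℝ) : SF Ω →+* ℝ) = A' p.1.2 := h.eval p
    rw [e] at this
    exact this

/-- Evaluation of an identity between scalars. -/
theorem Rep.eq_of_eq {f f' : SF Ω} {F F' : ℝ → E4 → ℝ} (h : Rep f F) (h' : Rep f' F')
    (e : f = f') (p : Ω) : F p.1.1 p.1.2 = F' p.1.1 p.1.2 := by
  rw [← h p, ← h' p, e]

end

/-! ### The frame -/

section
variable {U : Set E4} {G f : E4 → Matrix (Fin 4) (Fin 4) ℝ} (hf : FrameOn U G f)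
include hf

theorem FrameOn.smooth_f (i j : Fin 4) :
    ContDiffOn ℝ ∞ (fun p : ℝ × E4 => f p.2 i j) (univ ×ˢ U) :=
  (hf.smooth i j).comp contDiffOn_snd fun _ hp => hp.2

theorem FrameOn.smooth_fi (i j : Fin 4) :
    ContDiffOn ℝ ∞ (fun p : ℝ × E4 => (f p.2)⁻¹ i j) (univ ×ˢ U) :=
  FrB_smooth_inv hf.smooth_f (fun p hp => (hf.det_pos p.2 hp.2).ne') i j

/-- The smooth metric of a frame. -/
theorem FrameOn.sm : SmoothMet (univ ×ˢ U) (fun _ => G) := smoothMet_static hf.met

/-- The algebraic frame. -/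
def FrameOn.fr : Frame hf.sm.geo where
  f := Matrix.of fun i j => SF.mk' _ (hf.smooth_f i j)
  fi := Matrix.of fun i j => SF.mk' _ (hf.smooth_fi i j)
  inv := by
    have h1 : RepM (Matrix.of fun i j => SF.mk' _ (hf.smooth_fi i j)) (fun y => (f y)⁻¹) :=
      fun i j p => rfl
    have h2 : RepM (Matrix.of fun i j => SF.mk' _ (hf.smooth_f i j)) f := fun i j p => rfl
    ext1 i j
    refine SF.ext_val fun p => ?_
    have hd : IsUnit (f p.1.2).det := (hf.det_pos p.1.2 p.2.2).ne'.isUnit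
    have e1 : ((f p.1.2)⁻¹ * f p.1.2) i j = ((1 : Matrix (Fin 4) (Fin 4) (SF (univ ×ˢ U))) i j).1 p := by
      rw [Matrix.nonsing_inv_mul _ hd, Matrix.one_apply, Matrix.one_apply]
      split_ifs <;> rfl
    exact (h1.mul h2 i j p).trans e1
  orth := by
    have h2 : RepM (Matrix.of fun i j => SF.mk' _ (hf.smooth_f i j)) f := fun i j p => rfl
    have h3 : RepM hf.sm.geo.g G := fun i j p => rfl
    ext1 i j
    refine SF.ext_val fun p => ?_
    have e1 : ((f p.1.2).transpose * G p.1.2 * f p.1.2) i j =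
        ((1 : Matrix (Fin 4) (Fin 4) (SF (univ ×ˢ U))) i j).1 p := by
      rw [hf.orth p.1.2 p.2.2, Matrix.one_apply, Matrix.one_apply]
      split_ifs <;> rfl
    exact (((h2.transpose.mul h3).mul h2) i j p).trans e1

theorem FrameOn.rep_f : RepM hf.fr.f f := fun _ _ _ => rfl

theorem FrameOn.rep_fi : RepM hf.fr.fi (fun y => (f y)⁻¹) := fun _ _ _ => rfl

theorem FrameOn.rep_om (i : Fin 4) : RepM (hf.fr.om i) (omC G f i) :=
  hf.rep_fi.mul (RepM.add (A' := fun y => Matrix.of fun k a => pd i (fun z => f z k a) y)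
    (fun k a => (hf.rep_f k a).D hf.sm i)
    (RepM.mul (A' := fun y => Matrix.of fun k j => NRF.chr G k i j y)
      (fun k j => Rep.chr hf.sm k i j) hf.rep_f))

theorem FrameOn.rep_Om (i j : Fin 4) : RepM (hf.fr.Om i j) (OmC G f i j) :=
  RepM.sub (RepM.add (RepM.sub
    (A' := fun y => Matrix.of fun a b => pd i (fun z => omC G f j z a b) y)
    (B' := fun y => Matrix.of fun a b => pd j (fun z => omC G f i z a b) y)
    (fun a b => (hf.rep_om j a b).D hf.sm i)
    (fun a b => (hf.rep_om i a b).D hf.sm j))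
    ((hf.rep_om i).mul (hf.rep_om j))) ((hf.rep_om j).mul (hf.rep_om i))

theorem FrameOn.rep_R4 (a b c d : Fin 4) :
    Rep (hf.fr.R4 a b c d) (fun _ y => R4C G f a b c d y) :=
  Rep.sum fun i _ => Rep.sum fun j _ =>
    ((hf.rep_f i a).mul (hf.rep_f j b)).mul (hf.rep_Om i j c d)

theorem FrameOn.rep_nab (i : Fin 4) {α : Lam → SF (univ ×ˢ U)} {α' : E4 → Lam → ℝ}
    (h : RepV α α') : RepV (hf.fr.nab i α) (nabC G f i α') :=
  RepV.add (v' := fun y s => pd i (fun z => α' z s) y) (fun s => (h s).D hf.sm i)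
    ((hf.rep_om i).rho.mulVec h)

theorem FrameOn.rep_dF {α : Lam → SF (univ ×ˢ U)} {α' : E4 → Lam → ℝ}
    (h : RepV α α') : RepV (hf.fr.dF α) (dFC G f α') :=
  RepV.sum fun i _ => RepV.sum fun a _ =>
    RepV.smul (hf.rep_f i a) ((RepM.eps a).mulVec (hf.rep_nab i h))

theorem FrameOn.rep_delF {α : Lam → SF (univ ×ˢ U)} {α' : E4 → Lam → ℝ}
    (h : RepV α α') : RepV (hf.fr.delF α) (delFC G f α') :=
  RepV.neg (RepV.sum fun i _ => RepV.sum fun a _ =>
    RepV.smul (hf.rep_f i a) ((RepM.iot a).mulVec (hf.rep_nab i h)))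

theorem FrameOn.rep_dirac {α : Lam → SF (univ ×ˢ U)} {α' : E4 → Lam → ℝ}
    (h : RepV α α') : RepV (hf.fr.dirac α) (diracC G f α') :=
  RepV.sum fun i _ => RepV.sum fun a _ =>
    RepV.smul (hf.rep_f i a) ((RepM.clf a).mulVec (hf.rep_nab i h))

omit hf in
/-- Smoothness of a static represented function. -/
theorem FrB_contDiffOn {F : SF (univ ×ˢ U : Set (ℝ × E4))} {F' : E4 → ℝ}
    (h : Rep F fun _ y => F' y) : ContDiffOn ℝ ∞ F' U := by
  have h1 := h.contDiffOn
  have h2 : ContDiffOn ℝ ∞ (fun y : E4 => ((0 : ℝ), y)) U :=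
    contDiffOn_const.prodMk contDiffOn_id
  exact h1.comp h2 fun y hy => ⟨mem_univ _, hy⟩

/-- The point over `y`. -/
def FrB_pt (y : E4) (hy : y ∈ U) : (univ ×ˢ U : Set (ℝ × E4)) := ⟨(0, y), mem_univ _, hy⟩

end

end NRF

end
end

section

/-!
# Green's formula on a closed manifold
-/

open scoped Manifold ContDiff Topology
open MeasureTheory Set

noncomputable section

namespace NRF

/-! ### Euclidean part -/

lemma green_pd_contDiffOn {U : Set E4} (hU : IsOpen U) {f : E4 → ℝ} {m n : ℕ∞ω}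
    (hf : ContDiffOn ℝ n f U) (hmn : m + 1 ≤ n) (k : Fin 4) : ContDiffOn ℝ m (pd k f) U :=
  (hf.fderiv_of_isOpen hU hmn).clm_apply contDiffOn_const

lemma green_pd_contOn {U : Set E4} (hU : IsOpen U) {f : E4 → ℝ}
    (hf : ContDiffOn ℝ 1 f U) (k : Fin 4) : ContinuousOn (pd k f) U :=
  (green_pd_contDiffOn hU hf (m := 0) (by norm_num) k).continuousOn

lemma green_lapl_contOn (l5 : claimL5) {U : Set E4} {G : E4 → Matrix (Fin 4) (Fin 4) ℝ}
    (hG : MetOn U G) {u : E4 → ℝ} (hu : ContDiffOn ℝ 2 u U) : ContinuousOn (laplC G u) U := by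
  obtain ⟨h1, h2, -, -, -, -, -⟩ := l5.2 U G hG
  unfold laplC hessC
  refine continuousOn_finsetSum _ fun i _ => continuousOn_finsetSum _ fun j _ => ?_
  refine (h1 i j).continuousOn.mul (ContinuousOn.sub ?_ ?_)
  · exact green_pd_contOn hG.isOpen (green_pd_contDiffOn hG.isOpen hu (m := 1) (by norm_num) j) i
  · refine continuousOn_finsetSum _ fun k _ => (h2 k i j).continuousOn.mul ?_
    exact green_pd_contOn hG.isOpen (hu.of_le (by norm_num)) k

lemma green_gradIn_contOn (l5 : claimL5) {U : Set E4} {G : E4 → Matrix (Fin 4) (Fin 4) ℝ}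
    (hG : MetOn U G) {u v : E4 → ℝ} (hu : ContDiffOn ℝ 1 u U) (hv : ContDiffOn ℝ 1 v U) :
    ContinuousOn (gradInC G u v) U := by
  obtain ⟨h1, -, -, -, -, -, -⟩ := l5.2 U G hG
  unfold gradInC
  refine continuousOn_finsetSum _ fun i _ => continuousOn_finsetSum _ fun j _ => ?_
  exact (h1 i j).continuousOn.mul
    ((green_pd_contOn hG.isOpen hu i).mul (green_pd_contOn hG.isOpen hv j))

/-- Green's formula in an open set, for a `C¹` function `w` with compact support in it. -/
lemma green_local (l4 : claimL4) (l5 : claimL5) (dv : claimDiv0) {U : Set E4}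
    {G : E4 → Matrix (Fin 4) (Fin 4) ℝ} (hG : MetOn U G) {u w : E4 → ℝ}
    (hu : ContDiffOn ℝ 2 u U) (hw : ContDiffOn ℝ 1 w U) {K : Set E4} (hK : IsCompact K)
    (hKU : K ⊆ U) (hw0 : ∀ y ∈ U, y ∉ K → w y = 0) :
    ∫ y in U, Real.sqrt (G y).det * (w y * laplC G u y + gradInC G w u y) = 0 := by
  obtain ⟨h1, -, -, -, -, h6, -⟩ := l5.2 U G hG
  have hUo := hG.isOpen
  -- the vector field
  obtain ⟨F, hF⟩ : ∃ F : Fin 4 → E4 → ℝ, F = fun k z =>
    Real.sqrt (G z).det * ∑ l, (G z)⁻¹ k l * pd l u z := ⟨_, rfl⟩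
  have hFc : ∀ k, ContDiffOn ℝ 1 (F k) U := fun k => by
    rw [hF]
    refine (h6.of_le (by simp)).mul (ContDiffOn.sum fun l _ => ?_)
    exact ((h1 k l).of_le (by simp)).mul
      (green_pd_contDiffOn hUo hu (m := 1) (by norm_num) l)
  obtain ⟨P, hP⟩ : ∃ P : Fin 4 → E4 → ℝ, P = fun k => U.indicator fun z => w z * F k z :=
    ⟨_, rfl⟩
  have hPU : ∀ k, ∀ y ∈ U, P k =ᶠ[𝓝 y] fun z => w z * F k z := by
    intro k y hy
    filter_upwards [hUo.mem_nhds hy] with z hz
    rw [hP]
    exact indicator_of_mem hz _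
  have hP0 : ∀ k, ∀ z, z ∉ K → P k z = 0 := by
    intro k z hz
    rw [hP]
    by_cases hzU : z ∈ U
    · simp only
      rw [indicator_of_mem hzU, hw0 z hzU hz, zero_mul]
    · exact indicator_of_notMem hzU _
  have hPK : ∀ k, ∀ y, y ∉ U → P k =ᶠ[𝓝 y] fun _ => 0 := by
    intro k y hy
    filter_upwards [hK.isClosed.isOpen_compl.mem_nhds fun h => hy (hKU h)] with z hz
    exact hP0 k z hz
  have hPc : ∀ k, ContDiff ℝ 1 (P k) := by
    intro k
    rw [contDiff_iff_contDiffAt]
    intro y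
    by_cases hy : y ∈ U
    · exact (((hw y hy).contDiffAt (hUo.mem_nhds hy)).mul
        (((hFc k) y hy).contDiffAt (hUo.mem_nhds hy))).congr_of_eventuallyEq (hPU k y hy)
    · exact contDiffAt_const.congr_of_eventuallyEq (hPK k y hy)
  have hPs : ∀ k, HasCompactSupport (P k) := fun k =>
    HasCompactSupport.of_support_subset_isCompact hK fun z hz => by
      by_contra h
      exact hz (hP0 k z h)
  have hdiv := dv P hPc hPs
  have hfull : ∫ y in U, ∑ k, pd k (P k) y = ∫ y, ∑ k, pd k (P k) y := by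
    refine setIntegral_eq_integral_of_forall_compl_eq_zero fun y hy => ?_
    refine Finset.sum_eq_zero fun k _ => ?_
    unfold pd
    rw [(hPK k y hy).fderiv_eq]
    simp
  rw [← hfull] at hdiv
  rw [← hdiv]
  refine setIntegral_congr_fun hUo.measurableSet fun y hy => ?_
  have hwd : DifferentiableAt ℝ w y :=
    ((hw y hy).contDiffAt (hUo.mem_nhds hy)).differentiableAt (by norm_num)
  have hFd : ∀ k, DifferentiableAt ℝ (F k) y := fun k =>
    (((hFc k) y hy).contDiffAt (hUo.mem_nhds hy)).differentiableAt (by norm_num)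
  have h2 : ∀ k, pd k (P k) y = pd k w y * F k y + w y * pd k (F k) y := by
    intro k
    unfold pd
    rw [(hPU k y hy).fderiv_eq, fderiv_fun_mul hwd (hFd k)]
    simp
    ring
  simp_rw [h2]
  rw [Finset.sum_add_distrib, ← Finset.mul_sum]
  have h3 : ∑ k, pd k (F k) y = Real.sqrt (G y).det * laplC G u y := by
    rw [hF]
    exact l4 U G u hG y hy ((hu y hy).contDiffAt (hUo.mem_nhds hy))
  have h4 : ∑ k, pd k w y * F k y = Real.sqrt (G y).det * gradInC G w u y := by
    rw [hF]
    unfold gradInC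
    rw [Finset.mul_sum]
    refine Finset.sum_congr rfl fun k _ => ?_
    simp only
    rw [Finset.mul_sum, Finset.mul_sum, Finset.mul_sum]
    refine Finset.sum_congr rfl fun l _ => ?_
    ring
  rw [h3, h4]
  ring

/-! ### On the manifold -/

section
variable {X : Type} [TopologicalSpace X] [ChartedSpace E4 X] [IsManifold (𝓡 4) ∞ X]

omit [IsManifold (𝓡 4) ∞ X] in
lemma green_read {n : ℕ∞ω} (hn : n ≤ ∞) {u : X → ℝ} (hu : ContMDiff (𝓡 4) 𝓘(ℝ, ℝ) n u)
    {ψ : OpenPartialHomeomorph X E4} (hψ : ψ ∈ IsManifold.maximalAtlas (𝓡 4) ∞ X) :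
    ContDiffOn ℝ n (u ∘ ψ.symm) ψ.target := by
  have h1 : ContMDiffOn (𝓡 4) (𝓡 4) ∞ ψ.symm ψ.target :=
    contMDiffOn_symm_of_mem_maximalAtlas hψ
  have h2 : ContMDiffOn (𝓡 4) 𝓘(ℝ, ℝ) n (u ∘ ψ.symm) ψ.target :=
    hu.comp_contMDiffOn (h1.of_le hn)
  exact contMDiffOn_iff_contDiffOn.1 h2

lemma green_chart_mem (x : X) : chartAt E4 x ∈ IsManifold.maximalAtlas (𝓡 4) ∞ X :=
  IsManifold.subset_maximalAtlas (chart_mem_atlas E4 x)

lemma green_lapl_cont (n1 : claimN1) (n2 : claimN2) (l5 : claimL5) (g : Metric X) {u : X → ℝ}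
    (hu : ContMDiff (𝓡 4) 𝓘(ℝ, ℝ) 2 u) : Continuous (g.lapl u) := by
  rw [continuous_iff_continuousAt]
  intro x
  have hψ := green_chart_mem x
  have hr := green_read (n := 2) (by norm_cast) hu hψ
  have h1 : ContinuousOn (laplC (g.mcoef (chartAt E4 x)) (u ∘ (chartAt E4 x).symm))
      (chartAt E4 x).target := green_lapl_contOn l5 ((n1 X g).2.1 _ hψ) hr
  have h2 : ContinuousOn (fun z => laplC (g.mcoef (chartAt E4 x)) (u ∘ (chartAt E4 x).symm)
      (chartAt E4 x z)) (chartAt E4 x).source :=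
    h1.comp (chartAt E4 x).continuousOn (chartAt E4 x).mapsTo
  have h3 : g.lapl u =ᶠ[𝓝 x] fun z => laplC (g.mcoef (chartAt E4 x))
      (u ∘ (chartAt E4 x).symm) (chartAt E4 x z) := by
    filter_upwards [(chartAt E4 x).open_source.mem_nhds (mem_chart_source E4 x)] with z hz
    have hz' := (chartAt E4 x).map_source hz
    exact (n2 X g _ hψ z hz).2.2.1 u
      ((hr _ hz').contDiffAt ((chartAt E4 x).open_target.mem_nhds hz'))
  exact (h2.continuousAt ((chartAt E4 x).open_source.mem_nhds (mem_chart_source E4 x))).congr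
    h3.symm

lemma green_gradIn_read (n2 : claimN2) (g : Metric X) {u v : X → ℝ}
    (hu : ContMDiff (𝓡 4) 𝓘(ℝ, ℝ) 1 u) (hv : ContMDiff (𝓡 4) 𝓘(ℝ, ℝ) 1 v)
    {ψ : OpenPartialHomeomorph X E4} (hψ : ψ ∈ IsManifold.maximalAtlas (𝓡 4) ∞ X) {z : X}
    (hz : z ∈ ψ.source) :
    g.gradIn u v z = gradInC (g.mcoef ψ) (u ∘ ψ.symm) (v ∘ ψ.symm) (ψ z) := by
  have hz' := ψ.map_source hz
  exact (n2 X g _ hψ z hz).2.2.2.1 u v
    ((((green_read (n := 1) (by norm_cast) hu hψ) _ hz').contDiffAt
      (ψ.open_target.mem_nhds hz')).differentiableAt (by norm_num))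
    ((((green_read (n := 1) (by norm_cast) hv hψ) _ hz').contDiffAt
      (ψ.open_target.mem_nhds hz')).differentiableAt (by norm_num))

lemma green_gradIn_cont (n1 : claimN1) (n2 : claimN2) (l5 : claimL5) (g : Metric X)
    {u v : X → ℝ} (hu : ContMDiff (𝓡 4) 𝓘(ℝ, ℝ) 1 u) (hv : ContMDiff (𝓡 4) 𝓘(ℝ, ℝ) 1 v) :
    Continuous (g.gradIn u v) := by
  rw [continuous_iff_continuousAt]
  intro x
  have hψ := green_chart_mem x
  have h1 : ContinuousOn (gradInC (g.mcoef (chartAt E4 x)) (u ∘ (chartAt E4 x).symm)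
      (v ∘ (chartAt E4 x).symm)) (chartAt E4 x).target :=
    green_gradIn_contOn l5 ((n1 X g).2.1 _ hψ) (green_read (n := 1) (by norm_cast) hu hψ)
      (green_read (n := 1) (by norm_cast) hv hψ)
  have h2 : ContinuousOn (fun z => gradInC (g.mcoef (chartAt E4 x)) (u ∘ (chartAt E4 x).symm)
      (v ∘ (chartAt E4 x).symm) (chartAt E4 x z)) (chartAt E4 x).source :=
    h1.comp (chartAt E4 x).continuousOn (chartAt E4 x).mapsTo
  have h3 : g.gradIn u v =ᶠ[𝓝 x] fun z => gradInC (g.mcoef (chartAt E4 x))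
      (u ∘ (chartAt E4 x).symm) (v ∘ (chartAt E4 x).symm) (chartAt E4 x z) := by
    filter_upwards [(chartAt E4 x).open_source.mem_nhds (mem_chart_source E4 x)] with z hz
    exact green_gradIn_read n2 g hu hv hψ hz
  exact (h2.continuousAt ((chartAt E4 x).open_source.mem_nhds (mem_chart_source E4 x))).congr
    h3.symm

end

section
variable {X : Type} [TopologicalSpace X] [T2Space X] [CompactSpace X] [ChartedSpace E4 X]
  [IsManifold (𝓡 4) ∞ X] [MeasurableSpace X] [BorelSpace X]

/-- Green's formula for a function with support in one chart -/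
lemma green_chart (v : claimVol) (n1 : claimN1) (n2 : claimN2) (l4 : claimL4) (l5 : claimL5)
    (dv : claimDiv0) (g : Metric X) {u w : X → ℝ} (hu : ContMDiff (𝓡 4) 𝓘(ℝ, ℝ) 2 u)
    (hw : ContMDiff (𝓡 4) 𝓘(ℝ, ℝ) 1 w) {ψ : OpenPartialHomeomorph X E4}
    (hψ : ψ ∈ IsManifold.maximalAtlas (𝓡 4) ∞ X) (hsupp : tsupport w ⊆ ψ.source) :
    ∫ x, (w x * g.lapl u x + g.gradIn w u x) ∂g.vol = 0 := by
  have hu1 : ContMDiff (𝓡 4) 𝓘(ℝ, ℝ) 1 u := hu.of_le (by norm_num)
  have hcont : Continuous fun x => w x * g.lapl u x + g.gradIn w u x :=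
    (hw.continuous.mul (green_lapl_cont n1 n2 l5 g hu)).add
      (green_gradIn_cont n1 n2 l5 g hw hu1)
  have hzero : ∀ x, x ∉ ψ.source → w x * g.lapl u x + g.gradIn w u x = 0 := by
    intro x hx
    have hx' : x ∉ tsupport w := fun h => hx (hsupp h)
    have h1 : w =ᶠ[𝓝 x] fun _ => 0 := notMem_tsupport_iff_eventuallyEq.1 hx'
    have h2 : w x = 0 := h1.self_of_nhds
    have hc : ContinuousAt (chartAt E4 x).symm (chartAt E4 x x) :=
      (chartAt E4 x).continuousAt_symm (mem_chart_target E4 x)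
    have h3 : (w ∘ (chartAt E4 x).symm) =ᶠ[𝓝 (chartAt E4 x x)] fun _ => 0 := by
      have h4 : Filter.Tendsto (chartAt E4 x).symm (𝓝 (chartAt E4 x x)) (𝓝 x) := by
        have := hc.tendsto
        rwa [(chartAt E4 x).left_inv (mem_chart_source E4 x)] at this
      exact h4.eventually h1
    have h5 : g.gradIn w u x = 0 := by
      unfold Metric.gradIn gradInC pd
      rw [h3.fderiv_eq]
      simp
    rw [h2, h5]; ring
  rw [← setIntegral_eq_integral_of_forall_compl_eq_zero (s := ψ.source) fun x hx => hzero x hx]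
  rw [((v X g).2.2 ψ hψ).2 _ hcont.continuousOn]
  have hK : IsCompact (ψ '' tsupport w) :=
    (isClosed_tsupport w).isCompact.image_of_continuousOn (ψ.continuousOn.mono hsupp)
  have hKt : ψ '' tsupport w ⊆ ψ.target := by
    rintro _ ⟨x, hx, rfl⟩
    exact ψ.map_source (hsupp hx)
  have hloc := green_local l4 l5 dv ((n1 X g).2.1 _ hψ) (green_read (n := 2) (by norm_cast) hu hψ)
    (green_read (n := 1) (by norm_cast) hw hψ) hK hKt (by
      intro y hy hyK
      by_contra h
      apply hyK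
      refine ⟨ψ.symm y, subset_tsupport w h, ψ.right_inv hy⟩)
  rw [← hloc]
  refine setIntegral_congr_fun ψ.open_target.measurableSet fun y hy => ?_
  have hy' := ψ.map_target hy
  have e1 : g.lapl u (ψ.symm y) = laplC (g.mcoef ψ) (u ∘ ψ.symm) y := by
    have := (n2 X g _ hψ _ hy').2.2.1 u (by
      rw [ψ.right_inv hy]
      exact ((green_read (n := 2) (by norm_cast) hu hψ) _ hy).contDiffAt
        (ψ.open_target.mem_nhds hy))
    rwa [ψ.right_inv hy] at this
  have e2 : g.gradIn w u (ψ.symm y) = gradInC (g.mcoef ψ) (w ∘ ψ.symm) (u ∘ ψ.symm) y := by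
    have := green_gradIn_read n2 g hw hu1 hψ hy'
    rwa [ψ.right_inv hy] at this
  rw [e1, e2]
  rfl

theorem thm_Green (v : claimVol) (n1 : claimN1) (n2 : claimN2) (l4 : claimL4) (l5 : claimL5)
    (dv : claimDiv0) : claimGreen := by
  intro X _ _ _ _ _ _ _ g u w hu hw
  have hu1 : ContMDiff (𝓡 4) 𝓘(ℝ, ℝ) 1 u := hu.of_le (by norm_num)
  have hfin : IsFiniteMeasure g.vol := (v X g).1
  have hlc := green_lapl_cont n1 n2 l5 g hu
  have hgc := green_gradIn_cont n1 n2 l5 g hw hu1
  have hint : ∀ f : X → ℝ, Continuous f → Integrable f g.vol := fun f hf =>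
    hf.integrable_of_hasCompactSupport (HasCompactSupport.of_compactSpace f)
  -- a finite smooth partition of unity
  obtain ⟨t, ht⟩ := CompactSpace.elim_nhds_subcover (fun x : X => (chartAt E4 x).source)
    fun x => (chartAt E4 x).open_source.mem_nhds (mem_chart_source E4 x)
  obtain ⟨f, hf⟩ := SmoothPartitionOfUnity.exists_isSubordinate (𝓡 4) (s := (univ : Set X))
    isClosed_univ (fun i : t => (chartAt E4 (i : X)).source)
    (fun i => (chartAt E4 (i : X)).open_source) (by
      intro x _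
      have hx : x ∈ ⋃ y ∈ t, (chartAt E4 y).source := by
        rw [ht]; exact mem_univ x
      obtain ⟨y, hy, hxy⟩ := mem_iUnion₂.1 hx
      exact mem_iUnion.2 ⟨⟨y, hy⟩, hxy⟩)
  have hsum : ∀ x, ∑ i, f i x = 1 := fun x => by
    have := f.sum_eq_one (mem_univ x)
    rwa [finsum_eq_sum_of_fintype] at this
  have hfc : ∀ i, ContMDiff (𝓡 4) 𝓘(ℝ, ℝ) 1 (fun x => f i x) := fun i =>
    (f i).contMDiff.of_le (by norm_cast)
  have hwi : ∀ i, ContMDiff (𝓡 4) 𝓘(ℝ, ℝ) 1 (fun x => f i x * w x) := fun i =>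
    (hfc i).mul hw
  have hpiece : ∀ i, ∫ x, ((f i x * w x) * g.lapl u x + g.gradIn (fun x => f i x * w x) u x)
      ∂g.vol = 0 := fun i =>
    green_chart v n1 n2 l4 l5 dv g hu (hwi i) (green_chart_mem (i : X))
      ((tsupport_mul_subset_left).trans (hf i))
  have hgr : ∀ x, ∑ i, g.gradIn (fun x => f i x * w x) u x = g.gradIn w u x := by
    intro x
    unfold Metric.gradIn gradInC
    rw [Finset.sum_comm]
    refine Finset.sum_congr rfl fun k _ => ?_
    rw [Finset.sum_comm]
    refine Finset.sum_congr rfl fun l _ => ?_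
    rw [← Finset.mul_sum, ← Finset.sum_mul]
    congr 2
    have hd : ∀ i ∈ (Finset.univ : Finset t), DifferentiableAt ℝ
        ((fun x => f i x * w x) ∘ (chartAt E4 x).symm) (chartAt E4 x x) := fun i _ =>
      (((green_read (n := 1) (by norm_cast) (hwi i) (green_chart_mem x)) _
        (mem_chart_target E4 x)).contDiffAt ((chartAt E4 x).open_target.mem_nhds
          (mem_chart_target E4 x))).differentiableAt (by norm_num)
    have h1 : ∑ i, pd k ((fun x => f i x * w x) ∘ (chartAt E4 x).symm) (chartAt E4 x x) =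
        pd k (fun z => ∑ i, ((fun x => f i x * w x) ∘ (chartAt E4 x).symm) z)
          (chartAt E4 x x) := by
      unfold pd
      rw [fderiv_fun_sum hd]
      simp
    rw [h1]
    congr 1
    funext z
    show ∑ i, f i ((chartAt E4 x).symm z) * w ((chartAt E4 x).symm z) = _
    rw [← Finset.sum_mul, hsum, one_mul]
    rfl
  have htot : ∫ x, (w x * g.lapl u x + g.gradIn w u x) ∂g.vol = 0 := by
    have h1 : ∀ x, w x * g.lapl u x + g.gradIn w u x =
        ∑ i, ((f i x * w x) * g.lapl u x + g.gradIn (fun x => f i x * w x) u x) := by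
      intro x
      rw [Finset.sum_add_distrib, hgr, ← Finset.sum_mul, ← Finset.sum_mul, hsum, one_mul]
    simp_rw [h1]
    rw [integral_finsetSum]
    · exact Finset.sum_eq_zero fun i _ => hpiece i
    · intro i _
      exact hint _ (((hwi i).continuous.mul hlc).add
        (green_gradIn_cont n1 n2 l5 g (hwi i) hu1))
  have hi1 : Integrable (fun x => w x * g.lapl u x) g.vol := hint _ (hw.continuous.mul hlc)
  rw [integral_add hi1 (hint _ hgc)] at htot
  linarith

end

end NRF

end
end
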