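import Pool.Agent.Work.MP_7f974f_gt.Bd.B05
import Pool.Agent.Work.MP_7f974f_gt.Bd.B06
import Pool.Agent.Work.MP_7f974f_gt.K2b
import Pool.Agent.Work.MP_7f974f_gt.Stmts_A
import Pool.Agent.Work.MP_7f974f_gt.Bd.B03

/-! Bundle of small proof modules (one section per former module). -/

section

/-!
# Item H14: regularity of the local coefficient
-/

open scoped Manifold ContDiff Topology
open MeasureTheory Set

noncomputable section

namespace NRF.H

section

variable {X : Type} [TopologicalSpace X] [ChartedSpace E4 X] {U : UCover X}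

/-- Lifted chart over a given chart at a given point of the target. -/
theorem H14_lift (h11 : claimLCh) (e : Ch X) {z : E4} (hz : z ∈ e.1.target) (y : U.Y)
    (hy : U.p y = e.1.symm z) (O : Set U.Y) (hO : IsOpen O) (hyO : y ∈ O) :
    ∃ c : LCh U, c.e = e ∧ y ∈ c.psi.source ∧ c.psi.source ⊆ O ∧ z ∈ c.psi.target ∧
      c.psi.symm z = y := by
  have hs : U.p y ∈ e.1.source := by
    rw [hy]
    exact e.1.map_target hz
  obtain ⟨c, h1, h2, h3, -⟩ := (h11 X U).1 y e O hO hyO hs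
  have h4 : c.psi y = z := by
    rw [c.eq y h2, h1, hy, e.1.right_inv hz]
  refine ⟨c, h1, h2, h3, ?_, ?_⟩
  · rw [← h4]
    exact c.psi.map_source h2
  · rw [← h4]
    exact c.psi.left_inv h2

/-- The translates of the partition function in a lifted chart are twice differentiable. -/
theorem H14_smooth (h11 : claimLCh) {g : Metric X} {K : ℝ} {phi : U.Y → ℝ}
    (hphi : IsEqPart U g K phi) (c : LCh U) (a : U.G) :
    ContDiffOn ℝ 2 (fun w => phi (a • c.psi.symm w)) c.psi.target := by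
  obtain ⟨c', -, h2, h3⟩ := (h11 X U).2 c a
  have h4 := hphi.smooth c'
  rw [h2] at h4
  exact h4.congr fun z hz => by
    show phi (a • c.psi.symm z) = phi (c'.psi.symm z)
    rw [h3 z hz]

/-- Determinants of continuously differentiable functions. -/
theorem H14_det {M : E4 → Matrix (Fin 4) (Fin 4) ℝ} {s : Set E4} {n : WithTop ℕ∞}
    (hM : ∀ i j, ContDiffOn ℝ n (fun y => M y i j) s) : ContDiffOn ℝ n (fun y => (M y).det) s := by
  simp only [Matrix.det_apply]
  refine ContDiffOn.sum fun σ _ => ?_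
  exact ContDiffOn.const_smul _ (contDiffOn_prod fun k _ => hM _ _)

/-- Each term of the local coefficient is continuously differentiable. -/
theorem H14_term (h11 : claimLCh) {g : Metric X} {K : ℝ} {phi : U.Y → ℝ}
    (hphi : IsEqPart U g K phi) (b : (Fin 5 → U.G) → ℝ) (c : LCh U) (v : Fin 5 → U.G) :
    ContDiffOn ℝ 1 (fun z => b v * (phi ((v 0)⁻¹ • c.psi.symm z) *
      Matrix.det (Matrix.of fun i j : Fin 4 =>
        fderiv ℝ (fun w => phi ((v j.succ)⁻¹ • c.psi.symm w)) z (bv i)))) c.psi.target := by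
  refine contDiffOn_const.mul (((H14_smooth h11 hphi c _).of_le (by norm_num)).mul
    (H14_det fun i j => ?_))
  simp only [Matrix.of_apply]
  exact ((H14_smooth h11 hphi c (v j.succ)⁻¹).fderiv_of_isOpen c.psi.open_target
    (m := 1) (by norm_num)).clm_apply contDiffOn_const

end

theorem claimWsmooth_proof (h11 : claimLCh) (h12 : claimLocFin) (h13 : claimWcoef) :
    claimWsmooth := by
  intro X _ _ _ _ U g K b phi hb hphi e z hz
  classical
  obtain ⟨y, hy⟩ := U.surj (e.1.symm z)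
  obtain ⟨O, hO, hyO, hfin⟩ := (h12 X U g K phi hphi).2 {y} isCompact_singleton
  obtain ⟨c, h1, h2, h3, h4, h5⟩ := H14_lift h11 e hz y hy O hO (hyO rfl)
  set S : Finset U.G := hfin.toFinset with hS
  have hSmem : ∀ a, a ∉ S → ∀ y ∈ O, phi (a⁻¹ • y) = 0 := by
    intro a ha y hy
    by_contra hne
    exact ha (hfin.mem_toFinset.2 ⟨y, hy, hne⟩)
  have key : ∀ w ∈ c.psi.target, wcoef U b phi e w = ∑ v ∈ Fintype.piFinset (fun _ : Fin 5 => S),
      b v * (phi ((v 0)⁻¹ • c.psi.symm w) * Matrix.det (Matrix.of fun i j : Fin 4 =>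
        fderiv ℝ (fun w => phi ((v j.succ)⁻¹ • c.psi.symm w)) w (bv i))) := by
    intro w hw
    rw [h13 X U b phi hb e c h1 w hw]
    unfold wloc
    refine finsum_eq_sum_of_support_subset _ fun v hv => ?_
    by_contra hv'
    refine hv ?_
    have : ∃ i, v i ∉ S := by
      by_contra hcon
      push Not at hcon
      exact hv' (by simpa using hcon)
    obtain ⟨i, hi⟩ := this
    change b v * (phi ((v 0)⁻¹ • c.psi.symm w) * Matrix.det (Matrix.of fun i j : Fin 4 =>
        fderiv ℝ (fun w => phi ((v j.succ)⁻¹ • c.psi.symm w)) w (bv i))) = 0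
    rcases Fin.eq_zero_or_eq_succ i with h0 | ⟨j, hj⟩
    · subst h0
      rw [hSmem _ hi _ (h3 (c.psi.map_target hw))]
      ring
    · subst hj
      have hz0 : (fun w => phi ((v j.succ)⁻¹ • c.psi.symm w)) =ᶠ[𝓝 w] fun _ => 0 := by
        filter_upwards [c.psi.open_target.mem_nhds hw] with w' hw'
        exact hSmem _ hi _ (h3 (c.psi.map_target hw'))
      have hdet : Matrix.det (Matrix.of fun i j : Fin 4 =>
          fderiv ℝ (fun w => phi ((v j.succ)⁻¹ • c.psi.symm w)) w (bv i)) = 0 := by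
        refine Matrix.det_eq_zero_of_column_eq_zero j fun i => ?_
        show fderiv ℝ (fun w => phi ((v j.succ)⁻¹ • c.psi.symm w)) w (bv i) = 0
        rw [hz0.fderiv_eq]
        simp
      rw [hdet]
      ring
  have hsum : ContDiffOn ℝ 1 (wcoef U b phi e) c.psi.target :=
    (ContDiffOn.sum fun v _ => H14_term h11 hphi b c v).congr key
  exact ((hsum z h4).contDiffAt (c.psi.open_target.mem_nhds h4)).contDiffWithinAt

end NRF.H

end
end

section

/-!
# H5: Stokes theorem on prisms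
-/

set_option autoImplicit false

open scoped Manifold ContDiff Topology
open MeasureTheory Set

noncomputable section

namespace NRF.H

theorem h5_tail_mem {k : ℕ} {T : Fin (k + 1) → ℝ} (hT : T ∈ cube (k + 1)) :
    Fin.tail T ∈ cube k :=
  ⟨fun i => hT.1 i.succ, fun i => hT.2 i.succ⟩

theorem h5_prT_zero {β : Type} {k : ℕ} (F : stdSimplex ℝ (Fin (k + 2)) → ℝ → β) (a : ℝ)
    (t : Fin (k + 1) → ℝ) : prT F (ins 0 a t) = F (qS (k + 1) t) a := by
  have h : ins 0 a t = Fin.cons a t := by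
    unfold ins
    exact Fin.insertNth_zero' a t
  unfold prT
  rw [h, Fin.tail_cons, Fin.cons_zero]

theorem h5_prT_succ {β : Type} {k : ℕ} (F : stdSimplex ℝ (Fin (k + 2)) → ℝ → β)
    (i : Fin (k + 1)) (a : ℝ) (T : Fin (k + 1) → ℝ) :
    prT F (ins i.succ a T) = F (qS (k + 1) (ins i a (Fin.tail T))) (T 0) := by
  have h : ins i.succ a T = Fin.cons (T 0) (ins i a (Fin.tail T)) := by
    unfold ins
    conv_lhs => rw [← Fin.cons_self_tail T]
    rw [Fin.insertNth_succ_cons]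
  unfold prT
  rw [h, Fin.tail_cons, Fin.cons_zero]

theorem h5_tail_update {k : ℕ} (T : Fin (k + 2) → ℝ) (a : ℝ) :
    Fin.tail (Function.update T (Fin.last (k + 1)) a) =
      Function.update (Fin.tail T) (Fin.last k) a := by
  rw [← Fin.succ_last, Fin.tail_update_succ]

theorem claimStokesPrism_proof (h2 : claimStokes) (h3 : claimQS) : claimStokesPrism := by
  obtain ⟨-, -, -, h3d, h3e, h3f, h3g⟩ := h3
  intro k f0 f hf0 hf
  rw [h2 (k + 1) (prT f0) (fun j => prT (f j)) hf0 hf]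
  rw [Fin.sum_univ_succ]
  have h0 : ∀ a : ℝ, cint (fun t => prT f0 (ins 0 a t)) (fun j t => prT (f j) (ins 0 a t)) =
      cint (fun t => f0 (qS (k + 1) t) a) (fun j t => f j (qS (k + 1) t) a) := by
    intro a
    refine h4_cint_congr (fun t _ => ?_) (fun j t _ => ?_)
    · exact h5_prT_zero f0 a t
    · exact h5_prT_zero (f j) a t
  rw [Fin.sum_univ_castSucc (n := k + 1) (fun i : Fin (k + 2) => (-1 : ℝ) ^ (i : ℕ) *
    cint (prT fun x u => f0 (faceIncl k i x) u) (fun j => prT fun x u => f j (faceIncl k i x) u))]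
  have hA : ∀ i : Fin (k + 1), cint (fun t => prT f0 (ins i.succ 1 t))
      (fun j t => prT (f j) (ins i.succ 1 t)) =
      cint (prT fun x u => f0 (faceIncl k i.castSucc x) u)
        (fun j => prT fun x u => f j (faceIncl k i.castSucc x) u) := by
    intro i
    refine h4_cint_congr (fun t ht => ?_) (fun j t ht => ?_)
    · rw [h5_prT_succ, h3e k _ (h5_tail_mem ht) i]
      rfl
    · rw [h5_prT_succ, h3e k _ (h5_tail_mem ht) i]
      rfl
  have hB : cint (fun t => prT f0 (ins (Fin.last k).succ 0 t))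
      (fun j t => prT (f j) (ins (Fin.last k).succ 0 t)) =
      cint (prT fun x u => f0 (faceIncl k (Fin.last (k + 1)) x) u)
        (fun j => prT fun x u => f j (faceIncl k (Fin.last (k + 1)) x) u) := by
    refine h4_cint_congr (fun t ht => ?_) (fun j t ht => ?_)
    · rw [h5_prT_succ, h3f k _ (h5_tail_mem ht)]
      rfl
    · rw [h5_prT_succ, h3f k _ (h5_tail_mem ht)]
      rfl
  have hC : ∀ i : Fin (k + 1), i ≠ Fin.last k → cint (fun t => prT f0 (ins i.succ 0 t))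
      (fun j t => prT (f j) (ins i.succ 0 t)) = 0 := by
    intro i hi
    rcases k with _ | k
    · exact absurd (Fin.ext (by have := i.2; simp only [Fin.val_last]; omega)) hi
    · refine h4_cint_zero (Fin.last (k + 1)) fun j t ht a ha => ?_
      rw [h5_prT_succ, h5_prT_succ, h5_tail_update, h3g k _ (h5_tail_mem ht) a ha i hi]
      congr 1
  have hS : ∑ i : Fin (k + 1), (-1 : ℝ) ^ (i.succ : ℕ) *
      cint (fun t => prT f0 (ins i.succ 0 t)) (fun j t => prT (f j) (ins i.succ 0 t)) =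
      -((-1 : ℝ) ^ k * cint (prT fun x u => f0 (faceIncl k (Fin.last (k + 1)) x) u)
        (fun j => prT fun x u => f j (faceIncl k (Fin.last (k + 1)) x) u)) := by
    rw [Finset.sum_eq_single (Fin.last k)]
    · rw [hB, Fin.val_succ, Fin.val_last, pow_succ]
      ring
    · intro i _ hi
      rw [hC i hi, mul_zero]
    · intro h
      exact absurd (Finset.mem_univ _) h
  simp only [mul_sub, Finset.sum_sub_distrib, hS, hA, h0, Fin.val_castSucc, Fin.val_last,
    Fin.val_zero, pow_zero, one_mul]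
  simp only [Fin.val_succ, pow_succ, mul_neg, mul_one, neg_mul, Finset.sum_neg_distrib]
  ring

end NRF.H

end
end

section

/-!
# K2: the parametrix with a pole, integrals
-/

open scoped ContDiff Topology RealInnerProductSpace
open MeasureTheory Set Filter

noncomputable section

set_option linter.unusedSectionVars false

namespace NRF

namespace K2

section euclid

variable {V : Type} [NormedAddCommGroup V] [InnerProductSpace ℝ V] [FiniteDimensional ℝ V]

/-- Change of variables. -/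
theorem cov {F : Type*} [NormedAddCommGroup F] [NormedSpace ℝ F] (f : E4 → F) (z : E4) {r : ℝ}
    (hr : 0 < r) : ∫ x, (r ^ 4)⁻¹ • f (r⁻¹ • (x - z)) = ∫ ζ, f ζ := by
  have h1 : ∫ x, f (r⁻¹ • (x - z)) = ∫ x, f (r⁻¹ • x) :=
    integral_sub_right_eq_self (fun x => f (r⁻¹ • x)) z
  have h2 : ∫ x, f (r⁻¹ • x) = |r ^ 4| • ∫ x, f x := by
    have := Measure.integral_comp_inv_smul (volume : Measure E4) f r
    rwa [finrank_euclideanSpace_fin] at this
  rw [integral_smul, h1, h2, abs_of_pos (by positivity), smul_smul,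
    inv_mul_cancel₀ (by positivity), one_smul]

theorem H_bd {H : KP → (V →L[ℝ] V)} (hH : RD H) (T : ℝ) :
    ∃ C : ℝ, 0 ≤ C ∧ ∀ (r : ℝ) (z ζ : E4), |r| ≤ T → ‖z‖ ≤ 1 →
      ‖H (0, r, z, ζ)‖ ≤ C * C7a_b ζ := by
  obtain ⟨C, hC⟩ := hH.2 0 6 (max 1 T)
  refine ⟨|C|, abs_nonneg _, fun r z ζ hr hz => ?_⟩
  refine C7a_b_le ζ ?_
  have h := hC 0 r z ζ (by rw [abs_zero]; positivity) (hr.trans (le_max_right _ _))
    (hz.trans (le_max_left _ _))
  rw [norm_iteratedFDeriv_zero] at h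
  exact h.trans (le_abs_self C)

theorem int_ku_le {H : KP → (V →L[ℝ] V)} (hH : RD H) (T : ℝ) :
    ∃ C : ℝ, 0 ≤ C ∧ ∀ (z : E4) (w : V) (t : ℝ), 0 < t → t ≤ T → ‖z‖ ≤ 1 →
      ∫ x, ‖ku H z w t x‖ ≤ C * ‖w‖ := by
  obtain ⟨C, hC0, hC⟩ := H_bd hH (Real.sqrt T)
  refine ⟨C * ∫ ζ, C7a_b ζ, mul_nonneg hC0 (integral_nonneg C7a_b_nonneg),
    fun z w t ht htT hz => ?_⟩
  have hr : 0 < Real.sqrt t := Real.sqrt_pos.2 ht
  have h1 : ∀ x, ‖ku H z w t x‖ = (Real.sqrt t ^ 4)⁻¹ •
      (fun ζ => ‖H (0, Real.sqrt t, z, ζ) w‖) ((Real.sqrt t)⁻¹ • (x - z)) := by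
    intro x
    rw [ku, norm_smul, Real.norm_of_nonneg (by positivity), smul_eq_mul]
  have h2 : ∫ x, ‖ku H z w t x‖ = ∫ ζ, ‖H (0, Real.sqrt t, z, ζ) w‖ := by
    rw [← cov (fun ζ => ‖H (0, Real.sqrt t, z, ζ) w‖) z hr]
    exact integral_congr_ae (Eventually.of_forall h1)
  rw [h2]
  calc ∫ ζ, ‖H (0, Real.sqrt t, z, ζ) w‖ ≤ ∫ ζ, C * C7a_b ζ * ‖w‖ := by
        refine integral_mono_of_nonneg (Eventually.of_forall fun _ => norm_nonneg _)
          ((C7a_b_int.const_mul C).mul_const _) (Eventually.of_forall fun ζ => ?_)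
        refine ((H (0, Real.sqrt t, z, ζ)).le_opNorm w).trans ?_
        simp only
        gcongr
        exact hC _ z ζ (by rw [abs_of_pos hr]; exact Real.sqrt_le_sqrt htT) hz
    _ = C * (∫ ζ, C7a_b ζ) * ‖w‖ := by
        rw [integral_mul_const, integral_const_mul]

theorem integrable_H {H : KP → (V →L[ℝ] V)} (hH : RD H) (r : ℝ) {z : E4} (hz : ‖z‖ ≤ 1) :
    Integrable fun ζ => H (0, r, z, ζ) := by
  obtain ⟨C, hC0, hC⟩ := H_bd hH |r|
  refine (C7a_b_int.const_mul C).mono' ?_ (Eventually.of_forall fun ζ => hC r z ζ le_rfl hz)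
  exact (hH.1.continuous.comp (by fun_prop : Continuous fun ζ : E4 =>
    (((0 : ℝ), r, z, ζ) : KP))).aestronglyMeasurable

/-- The initial value. -/
theorem tendsto_ku {H : KP → (V →L[ℝ] V)} (hH : RD H) {z : E4} (hz : ‖z‖ ≤ 1) (w : V)
    {F : E4 → V} (hF : Continuous F) {B : ℝ} (hB : ∀ x, ‖F x‖ ≤ B) :
    Tendsto (fun t => ∫ x, ⟪ku H z w t x, F x⟫) (𝓝[>] 0)
      (𝓝 ⟪(∫ ζ, H (0, 0, z, ζ)) w, F z⟫) := by
  have hB0 : 0 ≤ B := (norm_nonneg _).trans (hB 0)
  obtain ⟨C, hC0, hC⟩ := H_bd hH 1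
  have h1 : ∀ t, 0 < t → ∫ x, ⟪ku H z w t x, F x⟫ =
      ∫ ζ, ⟪H (0, Real.sqrt t, z, ζ) w, F (z + Real.sqrt t • ζ)⟫ := by
    intro t ht
    have hr : 0 < Real.sqrt t := Real.sqrt_pos.2 ht
    rw [← cov (fun ζ => ⟪H (0, Real.sqrt t, z, ζ) w, F (z + Real.sqrt t • ζ)⟫) z hr]
    refine integral_congr_ae (Eventually.of_forall fun x => ?_)
    have hx : z + Real.sqrt t • (Real.sqrt t)⁻¹ • (x - z) = x := by
      rw [smul_smul, mul_inv_cancel₀ hr.ne', one_smul, add_sub_cancel]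
    simp only [hx, ku, inner_smul_left, smul_eq_mul]
    rfl
  have h2 : ⟪(∫ ζ, H (0, 0, z, ζ)) w, F z⟫ = ∫ ζ, ⟪H (0, 0, z, ζ) w, F z⟫ := by
    rw [ContinuousLinearMap.integral_apply (integrable_H hH 0 hz) w]
    have h3 : Integrable fun ζ => H (0, 0, z, ζ) w :=
      (ContinuousLinearMap.apply ℝ V w).integrable_comp (integrable_H hH 0 hz)
    rw [real_inner_comm, ← integral_inner h3]
    refine integral_congr_ae (Eventually.of_forall fun x => ?_)
    exact real_inner_comm _ _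
  rw [h2]
  have h3 : Tendsto (fun t => ∫ ζ, ⟪H (0, Real.sqrt t, z, ζ) w, F (z + Real.sqrt t • ζ)⟫)
      (𝓝[>] 0) (𝓝 (∫ ζ, ⟪H (0, 0, z, ζ) w, F z⟫)) := by
    refine tendsto_integral_filter_of_dominated_convergence (fun ζ => C * C7a_b ζ * ‖w‖ * B)
      (Eventually.of_forall fun t => ?_) ?_ ?_ (Eventually.of_forall fun ζ => ?_)
    · have c1 : Continuous fun ζ : E4 => H (0, Real.sqrt t, z, ζ) :=
        hH.1.continuous.comp (by fun_prop : Continuous fun ζ : E4 =>
          (((0 : ℝ), Real.sqrt t, z, ζ) : KP))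
      have c2 : Continuous fun ζ : E4 => F (z + Real.sqrt t • ζ) := hF.comp (by fun_prop)
      exact ((c1.clm_apply continuous_const).inner c2).aestronglyMeasurable
    · have e1 : ∀ᶠ t : ℝ in 𝓝[>] 0, t ≤ 1 :=
        mem_nhdsWithin_of_mem_nhds (Iic_mem_nhds one_pos)
      filter_upwards [e1] with t ht
      refine Eventually.of_forall fun ζ => ?_
      refine (norm_inner_le_norm _ _).trans ?_
      have h5 : ‖H (0, Real.sqrt t, z, ζ) w‖ ≤ C * C7a_b ζ * ‖w‖ := by
        refine ((H (0, Real.sqrt t, z, ζ)).le_opNorm w).trans ?_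
        gcongr
        refine hC _ z ζ ?_ hz
        rw [abs_of_nonneg (Real.sqrt_nonneg _)]
        exact Real.sqrt_le_one.2 ht
      have h6 : 0 ≤ C * C7a_b ζ * ‖w‖ := (norm_nonneg _).trans h5
      gcongr
      exact hB _
    · exact ((C7a_b_int.const_mul C).mul_const _).mul_const _
    · have c1 : Continuous fun t : ℝ => H (0, Real.sqrt t, z, ζ) :=
        hH.1.continuous.comp (by fun_prop : Continuous fun t : ℝ =>
          (((0 : ℝ), Real.sqrt t, z, ζ) : KP))
      have c2 : Continuous fun t : ℝ => F (z + Real.sqrt t • ζ) := hF.comp (by fun_prop)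
      have c3 : Continuous fun t : ℝ => ⟪H (0, Real.sqrt t, z, ζ) w, F (z + Real.sqrt t • ζ)⟫ :=
        (c1.clm_apply continuous_const).inner c2
      have c4 := c3.continuousAt (x := (0 : ℝ))
      have c5 : Tendsto (fun t : ℝ => ⟪H (0, Real.sqrt t, z, ζ) w, F (z + Real.sqrt t • ζ)⟫)
          (𝓝 0) (𝓝 ⟪H (0, Real.sqrt 0, z, ζ) w, F (z + Real.sqrt 0 • ζ)⟫) := c4
      rw [Real.sqrt_zero, zero_smul, add_zero] at c5
      exact c5.mono_left nhdsWithin_le_nhds
  refine h3.congr' ?_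
  filter_upwards [self_mem_nhdsWithin] with t ht
  exact (h1 t ht).symm

end euclid

section manifold

variable {X : Type} [TopologicalSpace X] {V : Type} [NormedAddCommGroup V] [InnerProductSpace ℝ V]
  [FiniteDimensional ℝ V]

variable {g : Geom X V} {Hf : g.I → KP → (V →L[ℝ] V)} {θ : g.I → E4 → ℝ}

theorem lift_cont [T2Space X] {i : g.I} {u : E4 → V} (hc : Continuous u)
    (hu : ∀ x, 2 ≤ ‖x‖ → u x = 0) : Continuous (lift g i u) := by
  rw [continuous_iff_continuousAt]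
  intro x
  by_cases hx : x ∈ (g.psi i).source
  · have h2 : ContinuousAt (fun x => u (g.psi i x)) x :=
      hc.continuousAt.comp ((g.psi i).continuousAt hx)
    refine h2.congr ?_
    filter_upwards [(g.psi i).open_source.mem_nhds hx] with p hp
    rw [lift, indicator_of_mem hp]
  · have hx2 : x ∉ Kc g i := fun h => hx (Kc_sub_source g i h)
    refine (continuousAt_const (y := (0 : V))).congr ?_
    filter_upwards [(isClosed_Kc g i).isOpen_compl.mem_nhds hx2] with p hp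
    exact (lift_zero hu hp).symm

theorem smooth_cont {f : X → V} (hf : g.Smooth f) : Continuous f := by
  rw [continuous_iff_continuousAt]
  intro x
  have hx := (ch_mem g x).1
  have hn := (ch_mem g x).2
  have h1 : ContinuousAt (fun p => (fun z => etaC z • f ((g.psi (g.ch x)).symm z))
      (g.psi (g.ch x) p)) x :=
    (hf (g.ch x)).continuous.continuousAt.comp ((g.psi (g.ch x)).continuousAt hx)
  refine h1.congr ?_
  have h2 : ∀ᶠ p in 𝓝 x, ‖g.psi (g.ch x) p‖ < 1 :=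
    (continuous_norm.continuousAt.comp ((g.psi (g.ch x)).continuousAt hx)).eventually
      (gt_mem_nhds hn)
  filter_upwards [(g.psi (g.ch x)).open_source.mem_nhds hx, h2] with p hp hp2
  have h3 : etaC (g.psi (g.ch x) p) = 1 := by
    unfold etaC
    apply etaBump.one_of_mem_closedBall
    rw [mem_closedBall_zero_iff]
    show _ ≤ (3 / 2 : ℝ)
    linarith
  simp only [h3, one_smul, (g.psi (g.ch x)).left_inv hp]

/-- A cutoff which is one on the ball of radius two. -/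
def etaD : ContDiffBump (0 : E4) := ⟨2, 5 / 2, by norm_num, by norm_num⟩

/-- The test function in the chart `i`, with the density. -/
def Ft (g : Geom X V) (i : g.I) (dens : E4 → ℝ) (f : X → V) (x : E4) : V :=
  etaD x • (dens x • f ((g.psi i).symm x))

theorem Ft_cont {i : g.I} {dens : E4 → ℝ} (hd : ContinuousOn dens (Metric.ball 0 3)) {f : X → V}
    (hf : Continuous f) : Continuous (Ft g i dens f) := by
  rw [continuous_iff_continuousAt]
  intro x
  by_cases hx : ‖x‖ < 3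
  · have hm : x ∈ Metric.ball (0 : E4) 3 := mem_ball_zero_iff.2 hx
    have h1 : ContinuousAt dens x := hd.continuousAt (Metric.isOpen_ball.mem_nhds hm)
    have h2 : ContinuousAt (g.psi i).symm x :=
      (g.psi i).continuousAt_symm (g.target i (Metric.ball_subset_closedBall hm))
    exact etaD.continuous.continuousAt.smul (h1.smul (hf.continuousAt.comp h2))
  · have h1 : ∀ᶠ z in 𝓝 x, 5 / 2 < ‖z‖ :=
      continuous_norm.continuousAt.eventually (lt_mem_nhds (by linarith : (5 : ℝ) / 2 < ‖x‖))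
    refine (continuousAt_const (y := (0 : V))).congr ?_
    filter_upwards [h1] with z hz
    have h2 : etaD z = 0 := etaD.zero_of_le_dist (by rw [dist_zero_right]; exact hz.le)
    rw [Ft, h2, zero_smul]

theorem Ft_bdd {i : g.I} {dens : E4 → ℝ} (hd : ContinuousOn dens (Metric.ball 0 3)) {f : X → V}
    (hf : Continuous f) : ∃ B : ℝ, ∀ x, ‖Ft g i dens f x‖ ≤ B := by
  obtain ⟨B, hB⟩ := (isCompact_closedBall (0 : E4) 3).exists_bound_of_continuousOn
    (Ft_cont (g := g) (i := i) hd hf).continuousOn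
  refine ⟨max B 0, fun x => ?_⟩
  by_cases hx : ‖x‖ ≤ 3
  · exact (hB x (mem_closedBall_zero_iff.2 hx)).trans (le_max_left _ _)
  · have h2 : etaD x = 0 := etaD.zero_of_le_dist (by
      rw [dist_zero_right]
      show (5 / 2 : ℝ) ≤ ‖x‖
      linarith)
    rw [Ft, h2, zero_smul, norm_zero]
    exact le_max_right _ _

theorem lift_symm {i : g.I} (u : E4 → V) {x : E4} (hx : x ∈ Metric.ball (0 : E4) 3) :
    lift g i u ((g.psi i).symm x) = u x := by
  have h := g.target i (Metric.ball_subset_closedBall hx)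
  rw [lift, indicator_of_mem ((g.psi i).map_target h), (g.psi i).right_inv h]

end manifold

section measure

variable {X : Type} [TopologicalSpace X] [CompactSpace X] [T2Space X] [MeasurableSpace X]
  [BorelSpace X] {V : Type} [NormedAddCommGroup V] [InnerProductSpace ℝ V]
  [FiniteDimensional ℝ V]

variable (D : HeatData X V) {Hf : D.g.I → KP → (V →L[ℝ] V)} {θ : D.g.I → E4 → ℝ}

theorem integrable_of_cont {W : Type*} [NormedAddCommGroup W] {f : X → W} (hf : Continuous f) :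
    Integrable f D.mu := by
  have := D.fin
  exact hf.integrable_of_hasCompactSupport (HasCompactSupport.of_compactSpace f)

/-- Integral of a norm. -/
theorem int_lift_norm {i : D.g.I} {u : E4 → V} (hc : Continuous u)
    (hu : ∀ x, 2 ≤ ‖x‖ → u x = 0) {Δ : ℝ} (hΔ : ∀ x, ‖x‖ ≤ 2 → D.dens i x ≤ Δ) (hΔ0 : 0 ≤ Δ) :
    ∫ x, ‖lift D.g i u x‖ ∂D.mu ≤ Δ * ∫ x, ‖u x‖ := by
  have h1 := D.dens_eq i (fun x => ‖lift D.g i u x‖) (lift_cont hc hu).norm
    (fun y hy => by rw [lift_zero hu hy, norm_zero])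
  rw [h1]
  have hui : Integrable fun x => ‖u x‖ := by
    refine (hc.norm).integrable_of_hasCompactSupport ?_
    refine HasCompactSupport.intro (isCompact_closedBall (0 : E4) 2) fun x hx => ?_
    rw [mem_closedBall_zero_iff, not_le] at hx
    rw [hu x hx.le, norm_zero]
  calc ∫ x in Metric.ball 0 3, ‖lift D.g i u ((D.g.psi i).symm x)‖ * D.dens i x ≤
        ∫ x in Metric.ball (0 : E4) 3, Δ * ‖u x‖ := by
        refine integral_mono_of_nonneg ?_ (hui.const_mul Δ).integrableOn ?_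
        · filter_upwards [ae_restrict_mem measurableSet_ball] with x hx
          exact mul_nonneg (norm_nonneg _) (D.dens_pos i x hx).le
        · filter_upwards [ae_restrict_mem measurableSet_ball] with x hx
          rw [lift_symm u hx]
          rcases le_or_gt ‖x‖ 2 with h | h
          · rw [mul_comm]
            exact mul_le_mul_of_nonneg_right (hΔ x h) (norm_nonneg _)
          · rw [hu x h.le, norm_zero, zero_mul, mul_zero]
    _ ≤ ∫ x, Δ * ‖u x‖ := setIntegral_le_integral (hui.const_mul Δ)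
        (Eventually.of_forall fun x => mul_nonneg hΔ0 (norm_nonneg _))
    _ = _ := integral_const_mul _ _

/-- Integral of a scalar product. -/
theorem int_lift_inner {i : D.g.I} {u : E4 → V} (hc : Continuous u)
    (hu : ∀ x, 2 ≤ ‖x‖ → u x = 0) {f : X → V} (hf : Continuous f) :
    ∫ x, ⟪lift D.g i u x, f x⟫ ∂D.mu = ∫ x, ⟪u x, Ft D.g i (D.dens i) f x⟫ := by
  have h1 := D.dens_eq i (fun x => ⟪lift D.g i u x, f x⟫) ((lift_cont hc hu).inner hf)
    (fun y hy => by rw [lift_zero hu hy, inner_zero_left])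
  rw [h1]
  have h2 : ∫ x, ⟪u x, Ft D.g i (D.dens i) f x⟫ =
      ∫ x in Metric.ball 0 3, ⟪u x, Ft D.g i (D.dens i) f x⟫ := by
    symm
    refine setIntegral_eq_integral_of_forall_compl_eq_zero fun x hx => ?_
    rw [mem_ball_zero_iff, not_lt] at hx
    rw [hu x (by linarith), inner_zero_left]
  rw [h2]
  refine setIntegral_congr_fun measurableSet_ball fun x hx => ?_
  rw [lift_symm u hx]
  rcases le_or_gt 2 ‖x‖ with h | h
  · rw [hu x h, inner_zero_left, inner_zero_left, zero_mul]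
  · have h3 : etaD x = 1 := etaD.one_of_mem_closedBall (by
      rw [mem_closedBall_zero_iff]; exact h.le)
    rw [Ft, h3, one_smul, inner_smul_right, mul_comm]

end measure

end K2

end NRF

end
end

section

/-!
# L0: the coordinate expressions are local
-/

open scoped Manifold ContDiff Topology
open MeasureTheory Set

noncomputable section

namespace NRF

theorem L0_pd {F : Type*} [NormedAddCommGroup F] [NormedSpace ℝ F] {U : Set E4} (hU : IsOpen U)
    {f g : E4 → F} (h : EqOn f g U) (i : Fin 4) : EqOn (pd i f) (pd i g) U := by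
  intro y hy
  unfold pd
  rw [(h.eventuallyEq_of_mem (hU.mem_nhds hy)).fderiv_eq]

theorem thm_L0 : claimL0 := by
  intro U G G' u u' v v' hU hG hu hv
  have hchr : ∀ k i j, EqOn (chr G k i j) (chr G' k i j) U := by
    intro k i j y hy
    have e : ∀ a b c : Fin 4, pd a (fun z => G z b c) y = pd a (fun z => G' z b c) y :=
      fun a b c => L0_pd hU (fun z hz => by rw [hG hz]) a hy
    simp only [chr, e, hG hy]
  have hric : ∀ i j, EqOn (ricci G i j) (ricci G' i j) U := by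
    intro i j y hy
    have e1 : ∀ a k b c : Fin 4, pd a (chr G k b c) y = pd a (chr G' k b c) y :=
      fun a k b c => L0_pd hU (hchr k b c) a hy
    simp only [ricci, e1, hchr _ _ _ hy]
  have hscal : EqOn (scalC G) (scalC G') U := by
    intro y hy
    simp only [scalC, hric _ _ hy, hG hy]
  have hhess : ∀ i j, EqOn (hessC G u i j) (hessC G' u' i j) U := by
    intro i j y hy
    have e1 : ∀ a, EqOn (pd a u) (pd a u') U := fun a => L0_pd hU hu a
    have e2 : pd i (pd j u) y = pd i (pd j u') y := L0_pd hU (e1 j) i hy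
    simp only [hessC, e2, hchr _ _ _ hy, e1 _ hy]
  intro y hy
  refine ⟨fun k i j => hchr k i j hy, fun i j => hric i j hy, hscal hy, ?_,
    fun i j => hhess i j hy, ?_, ?_⟩
  · simp only [ric0SqC, hric _ _ hy, hG hy, hscal hy]
  · simp only [laplC, hhess _ _ hy, hG hy]
  · simp only [gradInC, hG hy, L0_pd hU hu _ hy, L0_pd hU hv _ hy]

end NRF

end
end

section

/-!
# L1: naturality under coordinate changes
-/

open scoped Manifold ContDiff Topology
open Set

noncomputable section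

namespace NRF

/-- The matrix of first derivatives. -/
def L1_J (φ : E4 → E4) (y : E4) : Matrix (Fin 4) (Fin 4) ℝ := Matrix.of fun i k => (pd i φ y) k

theorem L1_det (L : E4 →L[ℝ] E4) :
    (Matrix.of fun i k => (L (bv i)) k : Matrix (Fin 4) (Fin 4) ℝ).det = L.det := by
  have h := LinearMap.det_toMatrix (EuclideanSpace.basisFun (Fin 4) ℝ).toBasis (L : E4 →ₗ[ℝ] E4)
  rw [ContinuousLinearMap.det, ← h, ← Matrix.det_transpose]
  congr 1

theorem L1_J_det (φ : E4 → E4) (y : E4) : (L1_J φ y).det = (fderiv ℝ φ y).det :=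
  L1_det (fderiv ℝ φ y)

theorem L1_pull (φ : E4 → E4) (G : E4 → Matrix (Fin 4) (Fin 4) ℝ) (y : E4) :
    pullM φ G y = L1_J φ y * G (φ y) * (L1_J φ y).transpose := by
  ext i j
  simp only [pullM, L1_J, Matrix.of_apply, Matrix.mul_apply, Matrix.transpose_apply]
  rw [Finset.sum_comm]
  refine Finset.sum_congr rfl fun l _ => ?_
  rw [Finset.sum_mul]
  refine Finset.sum_congr rfl fun k _ => ?_
  ring

theorem L1_pd_smooth {U : Set E4} {φ : E4 → E4} (hU : IsOpen U) (hφ : ContDiffOn ℝ ∞ φ U)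
    (i k : Fin 4) : ContDiffOn ℝ ∞ (fun y => (pd i φ y) k) U := by
  have h1 : ContDiffOn ℝ ∞ (fun y => fderiv ℝ φ y (bv i)) U :=
    (hφ.fderiv_of_isOpen hU (by simp)).clm_apply contDiffOn_const
  exact (EuclideanSpace.proj k : E4 →L[ℝ] ℝ).contDiff.comp_contDiffOn h1

theorem L1_met {U V : Set E4} {φ : E4 → E4} {G : E4 → Matrix (Fin 4) (Fin 4) ℝ} (hU : IsOpen U)
    (hG : MetOn V G) (hm : MapsTo φ U V) (hφ : ContDiffOn ℝ ∞ φ U)
    (hd : ∀ y ∈ U, (fderiv ℝ φ y).det ≠ 0) : MetOn U (pullM φ G) where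
  isOpen := hU
  smooth := by
    intro i j
    simp only [pullM, Matrix.of_apply]
    refine ContDiffOn.sum fun k _ => ContDiffOn.sum fun l _ => ?_
    exact ((L1_pd_smooth hU hφ i k).mul (L1_pd_smooth hU hφ j l)).mul
      ((hG.smooth k l).comp hφ hm)
  posDef := by
    intro y hy
    rw [L1_pull]
    have h1 := hG.posDef _ (hm hy)
    have h2 : IsUnit (L1_J φ y) := by
      rw [Matrix.isUnit_iff_isUnit_det, L1_J_det]
      exact (hd y hy).isUnit
    have h3 := h1.mul_mul_conjTranspose_same (B := L1_J φ y)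
      (Matrix.vecMul_injective_of_isUnit h2)
    rwa [Matrix.conjTranspose_eq_transpose_of_trivial] at h3

/-! ### The homomorphism -/

/-- The map of space time. -/
def L1_Phi (φ : E4 → E4) (p : ℝ × E4) : ℝ × E4 := (p.1, φ p.2)

theorem L1_Phi_smooth {U : Set E4} {φ : E4 → E4} (hφ : ContDiffOn ℝ ∞ φ U) :
    ContDiffOn ℝ ∞ (L1_Phi φ) ((univ : Set ℝ) ×ˢ U) :=
  contDiffOn_fst.prodMk (hφ.comp contDiffOn_snd fun _ hp => hp.2)

theorem L1_Phi_maps {U V : Set E4} {φ : E4 → E4} (hm : MapsTo φ U V) :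
    MapsTo (L1_Phi φ) ((univ : Set ℝ) ×ˢ U) ((univ : Set ℝ) ×ˢ V) :=
  fun _ hp => ⟨mem_univ _, hm hp.2⟩

/-- Composition with the coordinate change. -/
def L1_psi {U V : Set E4} (φ : E4 → E4) (hm : MapsTo φ U V) (hφ : ContDiffOn ℝ ∞ φ U) :
    SF ((univ : Set ℝ) ×ˢ V) →ₐ[ℝ] SF ((univ : Set ℝ) ×ˢ U) where
  toFun f := ⟨fun p => f.1 ⟨L1_Phi φ p.1, L1_Phi_maps hm p.2⟩, by
    change ContDiffOn ℝ ∞ (ext0 _ _) _
    refine (f.2.comp (L1_Phi_smooth hφ) (L1_Phi_maps hm)).congr fun p hp => ?_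
    rw [ext0_mem _ hp, Function.comp_apply, ext0_mem _ (L1_Phi_maps hm hp)]⟩
  map_one' := rfl
  map_mul' := fun _ _ => rfl
  map_zero' := rfl
  map_add' := fun _ _ => rfl
  commutes' := fun _ => rfl

theorem L1_psi_apply {U V : Set E4} (φ : E4 → E4) (hm : MapsTo φ U V)
    (hφ : ContDiffOn ℝ ∞ φ U) (f : SF ((univ : Set ℝ) ×ˢ V)) (p : ((univ : Set ℝ) ×ˢ U : Set _)) :
    (L1_psi φ hm hφ f).1 p = f.1 ⟨L1_Phi φ p.1, L1_Phi_maps hm p.2⟩ := rfl

theorem L1_expand (w : E4) : ((0, w) : ℝ × E4) = ∑ i, w i • sv i := by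
  have h : w = ∑ i, w i • bv i := by
    ext j
    simp [bv, Pi.single_apply]
  ext j
  · simp [sv, Prod.fst_sum]
  · conv_lhs => rw [h]
    simp [sv, Prod.snd_sum]

theorem L1_chain {U V : Set E4} (hU : IsOpen U) (hV : IsOpen V) (φ : E4 → E4)
    (hm : MapsTo φ U V) (hφ : ContDiffOn ℝ ∞ φ U) (a : Fin 4) (u : SF ((univ : Set ℝ) ×ˢ V))
    (p : ((univ : Set ℝ) ×ˢ U : Set _)) :
    (dirD (isOpen_univ.prod hU) (sv a) (L1_psi φ hm hφ u)).1 p =
      ∑ i, (pd a φ p.1.2) i * (dirD (isOpen_univ.prod hV) (sv i) u).1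
        ⟨L1_Phi φ p.1, L1_Phi_maps hm p.2⟩ := by
  have hU' : IsOpen ((univ : Set ℝ) ×ˢ U) := isOpen_univ.prod hU
  have hV' : IsOpen ((univ : Set ℝ) ×ˢ V) := isOpen_univ.prod hV
  simp only [dirD_apply]
  have e1 : ext0 ((univ : Set ℝ) ×ˢ U) (L1_psi φ hm hφ u).1 =ᶠ[𝓝 p.1]
      (ext0 ((univ : Set ℝ) ×ˢ V) u.1) ∘ L1_Phi φ := by
    filter_upwards [hU'.mem_nhds p.2] with q hq
    rw [ext0_mem _ hq, Function.comp_apply, ext0_mem _ (L1_Phi_maps hm hq), L1_psi_apply]
  have hφd : DifferentiableAt ℝ φ p.1.2 :=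
    (hφ.differentiableOn (by simp)).differentiableAt (hU.mem_nhds p.2.2)
  have e2 : HasFDerivAt (L1_Phi φ) ((ContinuousLinearMap.fst ℝ ℝ E4).prod
      ((fderiv ℝ φ p.1.2).comp (ContinuousLinearMap.snd ℝ ℝ E4))) p.1 :=
    hasFDerivAt_fst.prodMk (hφd.hasFDerivAt.comp p.1 hasFDerivAt_snd)
  have e3 := (SF.diffAt hV' u (L1_Phi_maps hm p.2)).hasFDerivAt.comp p.1 e2
  rw [e1.fderiv_eq, e3.fderiv]
  have e4 : ((ContinuousLinearMap.fst ℝ ℝ E4).prod
      ((fderiv ℝ φ p.1.2).comp (ContinuousLinearMap.snd ℝ ℝ E4))) (sv a) =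
      ∑ i, (pd a φ p.1.2) i • sv i := by
    rw [← L1_expand]
    simp [sv, pd]
  rw [ContinuousLinearMap.comp_apply, e4, map_sum]
  simp only [map_smul, smul_eq_mul]

/-! ### The Jacobi matrix over the ring of smooth functions -/

theorem L1_smooth_inv {W : Type} [NormedAddCommGroup W] [NormedSpace ℝ W] {Ω : Set W}
    {M : W → Matrix (Fin 4) (Fin 4) ℝ} (hM : ∀ i j, ContDiffOn ℝ ∞ (fun p => M p i j) Ω)
    (hd : ∀ p ∈ Ω, (M p).det ≠ 0) (i j : Fin 4) :
    ContDiffOn ℝ ∞ (fun p => (M p)⁻¹ i j) Ω := by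
  have hdet : ContDiffOn ℝ ∞ (fun p => (M p).det) Ω := by
    simp only [Matrix.det_apply]
    refine ContDiffOn.sum fun σ _ => ?_
    refine ContDiffOn.const_smul _ (contDiffOn_prod fun k _ => hM _ _)
  have hadj : ContDiffOn ℝ ∞ (fun p => (M p).adjugate i j) Ω := by
    simp only [Matrix.adjugate_apply, Matrix.det_apply]
    refine ContDiffOn.sum fun σ _ => ?_
    refine ContDiffOn.const_smul _ (contDiffOn_prod fun k _ => ?_)
    by_cases hk : σ k = j
    · simp only [Matrix.updateRow_apply, hk, if_true]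
      exact contDiffOn_const
    · simp only [Matrix.updateRow_apply, hk, if_false]
      exact hM _ _
  have : ∀ p ∈ Ω, (M p)⁻¹ i j = ((M p).det)⁻¹ * (M p).adjugate i j := by
    intro p _
    rw [Matrix.inv_def, Ring.inverse_eq_inv']
    rfl
  refine ContDiffOn.congr ?_ this
  exact (hdet.inv fun p hp => hd p hp).mul hadj

theorem L1_pd_smooth' {U : Set E4} {φ : E4 → E4} (hU : IsOpen U) (hφ : ContDiffOn ℝ ∞ φ U)
    (i k : Fin 4) :
    ContDiffOn ℝ ∞ (fun p : ℝ × E4 => (pd i φ p.2) k) ((univ : Set ℝ) ×ˢ U) :=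
  (L1_pd_smooth hU hφ i k).comp contDiffOn_snd fun _ hp => hp.2

theorem L1_sum_val {Ω : Set (ℝ × E4)} {ι : Type} [Fintype ι] (f : ι → SF Ω) (p : Ω) :
    (∑ i, f i : SF Ω).1 p = ∑ i, (f i).1 p := by
  rw [← SF.ev_apply, map_sum]
  rfl

/-- Evaluation of the algebraic identities. -/
theorem L1_alg (h8 : claimDA8) {U V : Set E4} {φ : E4 → E4}
    {G : E4 → Matrix (Fin 4) (Fin 4) ℝ} (hU : IsOpen U)
    (hG : MetOn V G) (hm : MapsTo φ U V) (hφ : ContDiffOn ℝ ∞ φ U)
    (hd : ∀ y ∈ U, (fderiv ℝ φ y).det ≠ 0) {y : E4} (hy : y ∈ U) :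
    (∀ i j, ricci (pullM φ G) i j y = pullM φ (ricM G) y i j) ∧
      scalC (pullM φ G) y = scalC G (φ y) ∧
      in2 (pullM φ G y)⁻¹ (ricM (pullM φ G) y) (ricM (pullM φ G) y) =
        in2 (G (φ y))⁻¹ (ricM G (φ y)) (ricM G (φ y)) ∧
      (∀ u, ContDiff ℝ ∞ u → laplC (pullM φ G) (u ∘ φ) y = laplC G u (φ y)) ∧
      (∀ u v, ContDiff ℝ ∞ u → ContDiff ℝ ∞ v →
        gradInC (pullM φ G) (u ∘ φ) (v ∘ φ) y = gradInC G u v (φ y)) := by
  have hS := smoothMet_static hG
  have hS' := smoothMet_static (L1_met hU hG hm hφ hd)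
  set J : Matrix (Fin 4) (Fin 4) (SF ((univ : Set ℝ) ×ˢ U)) :=
    Matrix.of fun a i => SF.mk' _ (L1_pd_smooth' hU hφ a i) with hJ
  have hJdet : ∀ p ∈ ((univ : Set ℝ) ×ˢ U), (L1_J φ p.2).det ≠ 0 := by
    intro p hp
    rw [L1_J_det]
    exact hd p.2 hp.2
  set K : Matrix (Fin 4) (Fin 4) (SF ((univ : Set ℝ) ×ˢ U)) :=
    Matrix.of fun i a => SF.mk' _ (L1_smooth_inv (M := fun p : ℝ × E4 => L1_J φ p.2)
      (fun i j => L1_pd_smooth' hU hφ i j) hJdet i a) with hK
  have hKJ : K * J = 1 := by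
    ext1 i j
    refine SF.ext_val fun p => ?_
    have hu : IsUnit (L1_J φ p.1.2).det := (hJdet p.1 p.2).isUnit
    have := congrFun (congrFun (Matrix.nonsing_inv_mul _ hu) i) j
    rw [Matrix.mul_apply] at this ⊢
    rw [L1_sum_val]
    have e1 : ∀ k, (K i k * J k j : SF ((univ : Set ℝ) ×ˢ U)).1 p =
        (L1_J φ p.1.2)⁻¹ i k * L1_J φ p.1.2 k j := fun k => rfl
    simp only [e1]
    rw [this, Matrix.one_apply, Matrix.one_apply]
    split_ifs <;> rfl
  have hcomp : ∀ i, ContDiffOn ℝ ∞ (fun p : ℝ × E4 => (φ p.2) i) ((univ : Set ℝ) ×ˢ U) :=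
    fun i => ((EuclideanSpace.proj i : E4 →L[ℝ] ℝ).contDiff.comp_contDiffOn hφ).comp
      contDiffOn_snd fun _ hp => hp.2
  have hJD : ∀ a i, J a i = hS'.geo.D a (SF.mk' _ (hcomp i)) := by
    intro a i
    refine SF.ext_val fun p => ?_
    have h1 := Rep.D hS' (Rep.mk' (F := fun _ z => (φ z) i) (hcomp i)) a p
    rw [h1]
    have hφd : DifferentiableAt ℝ φ p.1.2 :=
      (hφ.differentiableOn (by simp)).differentiableAt (hU.mem_nhds p.2.2)
    have h2 := ((EuclideanSpace.proj i : E4 →L[ℝ] ℝ).hasFDerivAt (x := φ p.1.2)).comp p.1.2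
      hφd.hasFDerivAt
    have h3 : pd a (fun z => (φ z) i) p.1.2 = (pd a φ p.1.2) i := by
      unfold pd
      have : (fun z => (φ z) i) = (EuclideanSpace.proj i : E4 →L[ℝ] ℝ) ∘ φ := rfl
      rw [this, h2.fderiv]
      rfl
    exact h3.symm
  obtain ⟨r1, r2, r3, r4, r5⟩ := h8 (Fin 4) _ _ hS.geo hS'.geo (L1_psi φ hm hφ) J K hKJ
    (by
      intro a u
      refine SF.ext_val fun p => ?_
      rw [L1_sum_val]
      exact L1_chain hU hG.isOpen φ hm hφ a u p)
    (by
      intro a b i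
      rw [hJD, hJD]
      exact hS'.geo.comm _ _ _)
    (by
      intro a b
      refine SF.ext_val fun p => ?_
      rw [L1_sum_val]
      simp only [L1_sum_val]
      rfl)
  set p : ((univ : Set ℝ) ×ˢ U : Set _) := ⟨(0, y), mem_univ _, hy⟩ with hp
  set q : ((univ : Set ℝ) ×ˢ V : Set _) := ⟨(0, φ y), mem_univ _, hm hy⟩ with hq
  have hval : ∀ f : SF ((univ : Set ℝ) ×ˢ V), (L1_psi φ hm hφ f).1 p = f.1 q := fun f => rfl
  refine ⟨?_, ?_, ?_, ?_, ?_⟩
  · intro i j
    have h1 := Rep.ric hS' i j p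
    rw [r1 i j, L1_sum_val] at h1
    simp only [L1_sum_val] at h1
    refine h1.symm.trans ?_
    simp only [pullM, Matrix.of_apply]
    refine Finset.sum_congr rfl fun k _ => Finset.sum_congr rfl fun l _ => ?_
    have h2 := Rep.ric hS k l q
    change (pd i φ y) k * (pd j φ y) l * (hS.geo.ric k l).1 q = _
    rw [h2]
    rfl
  · have h1 := Rep.scal hS' p
    rw [r2, hval, Rep.scal hS q] at h1
    exact h1.symm
  · have h1 := Rep.inner2 hS' (A := fun _ z => ricM (pullM φ G) z)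
      (B := fun _ z => ricM (pullM φ G) z) (fun i j => Rep.ric hS' i j)
      (fun i j => Rep.ric hS' i j) p
    have h2 := Rep.inner2 hS (A := fun _ z => ricM G z)
      (B := fun _ z => ricM G z) (fun i j => Rep.ric hS i j) (fun i j => Rep.ric hS i j) q
    have h3 := congrArg (fun f : SF ((univ : Set ℝ) ×ˢ U) => f.1 p) r5
    simp only [hval] at h3
    exact h1.symm.trans (h3.trans h2)
  · intro u hu
    have cu : ContDiffOn ℝ ∞ (fun p : ℝ × E4 => u p.2) ((univ : Set ℝ) ×ˢ V) :=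
      (hu.comp contDiff_snd).contDiffOn
    have ru : Rep (SF.mk' _ cu) (fun _ => u) := fun _ => rfl
    have ru' : Rep (L1_psi φ hm hφ (SF.mk' _ cu)) (fun _ => u ∘ φ) := fun _ => rfl
    have h1 := Rep.lap hS' ru' p
    have h2 := Rep.lap hS ru q
    have h3 := congrArg (fun f : SF ((univ : Set ℝ) ×ˢ U) => f.1 p) (r3 (SF.mk' _ cu))
    simp only [hval] at h3
    exact h1.symm.trans (h3.trans h2)
  · intro u v hu hv
    have cu : ContDiffOn ℝ ∞ (fun p : ℝ × E4 => u p.2) ((univ : Set ℝ) ×ˢ V) :=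
      (hu.comp contDiff_snd).contDiffOn
    have ru : Rep (SF.mk' _ cu) (fun _ => u) := fun _ => rfl
    have ru' : Rep (L1_psi φ hm hφ (SF.mk' _ cu)) (fun _ => u ∘ φ) := fun _ => rfl
    have cv : ContDiffOn ℝ ∞ (fun p : ℝ × E4 => v p.2) ((univ : Set ℝ) ×ˢ V) :=
      (hv.comp contDiff_snd).contDiffOn
    have rv : Rep (SF.mk' _ cv) (fun _ => v) := fun _ => rfl
    have rv' : Rep (L1_psi φ hm hφ (SF.mk' _ cv)) (fun _ => v ∘ φ) := fun _ => rfl
    have h1 := Rep.grad2 hS' ru' rv' p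
    have h2 := Rep.grad2 hS ru rv q
    have h3 := congrArg (fun f : SF ((univ : Set ℝ) ×ˢ U) => f.1 p)
      (r4 (SF.mk' _ cu) (SF.mk' _ cv))
    simp only [hval] at h3
    exact h1.symm.trans (h3.trans h2)

/-! ### Jets -/

theorem L1_chain1 {φ : E4 → E4} {w : E4 → ℝ} {y : E4} (hφ : DifferentiableAt ℝ φ y)
    (hw : DifferentiableAt ℝ w (φ y)) (a : Fin 4) :
    pd a (w ∘ φ) y = ∑ i, (pd a φ y) i * pd i w (φ y) := by
  unfold pd
  rw [fderiv_comp y hw hφ, ContinuousLinearMap.comp_apply]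
  have h : fderiv ℝ φ y (bv a) = ∑ i, (fderiv ℝ φ y (bv a)) i • bv i := by
    ext j
    simp [bv, Pi.single_apply]
  conv_lhs => rw [h]
  rw [map_sum]
  simp only [map_smul, smul_eq_mul]

theorem L1_pd_differentiable {w : E4 → ℝ} {z : E4} (hw : ContDiffAt ℝ 2 w z) (i : Fin 4) :
    DifferentiableAt ℝ (pd i w) z := by
  have h1 : ContDiffAt ℝ 1 (fderiv ℝ w) z := hw.fderiv_right (by norm_num)
  have h2 : ContDiffAt ℝ 1 (fun y => fderiv ℝ w y (bv i)) z := h1.clm_apply contDiffAt_const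
  exact h2.differentiableAt (by norm_num)

theorem L1_chain2 {U : Set E4} {φ : E4 → E4} {w : E4 → ℝ} {y : E4} (hU : IsOpen U)
    (hφ : ContDiffOn ℝ ∞ φ U) (hy : y ∈ U) (hw : ContDiffAt ℝ 2 w (φ y)) (a b : Fin 4) :
    pd a (pd b (w ∘ φ)) y = ∑ i, (pd a (fun z => (pd b φ z) i) y * pd i w (φ y) +
      (pd b φ y) i * ∑ j, (pd a φ y) j * pd j (pd i w) (φ y)) := by
  have hφd : ∀ z ∈ U, DifferentiableAt ℝ φ z := fun z hz =>
    (hφ.differentiableOn (by simp)).differentiableAt (hU.mem_nhds hz)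
  have hev : ∀ᶠ z in 𝓝 y, DifferentiableAt ℝ w (φ z) := by
    have h1 : ∀ᶠ x in 𝓝 (φ y), DifferentiableAt ℝ w x := by
      have h2 := hw.eventually (by norm_num)
      filter_upwards [h2] with x hx
      exact hx.differentiableAt (by norm_num)
    exact (hφd y hy).continuousAt.eventually h1
  have e1 : pd b (w ∘ φ) =ᶠ[𝓝 y] fun z => ∑ i, (pd b φ z) i * pd i w (φ z) := by
    filter_upwards [hev, hU.mem_nhds hy] with z hz hzU
    exact L1_chain1 (hφd z hzU) hz b
  have e2 : pd a (pd b (w ∘ φ)) y = pd a (fun z => ∑ i, (pd b φ z) i * pd i w (φ z)) y := by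
    unfold pd at e1 ⊢
    rw [e1.fderiv_eq]
  rw [e2]
  have d1 : ∀ i, DifferentiableAt ℝ (fun z => (pd b φ z) i) y := fun i =>
    ((L1_pd_smooth hU hφ b i).differentiableOn (by simp)).differentiableAt (hU.mem_nhds hy)
  have d2 : ∀ i, DifferentiableAt ℝ (pd i w ∘ φ) y := fun i =>
    (L1_pd_differentiable hw i).comp y (hφd y hy)
  have h3 : HasFDerivAt (fun z => ∑ i, (pd b φ z) i * (pd i w ∘ φ) z)
      (∑ i, ((pd b φ y) i • fderiv ℝ (pd i w ∘ φ) y +
        (pd i w ∘ φ) y • fderiv ℝ (fun z => (pd b φ z) i) y)) y :=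
    HasFDerivAt.fun_sum fun i _ => (d1 i).hasFDerivAt.mul (d2 i).hasFDerivAt
  have h4 : pd a (fun z => ∑ i, (pd b φ z) i * pd i w (φ z)) y =
      (∑ i, ((pd b φ y) i • fderiv ℝ (pd i w ∘ φ) y +
        (pd i w ∘ φ) y • fderiv ℝ (fun z => (pd b φ z) i) y)) (bv a) := by
    unfold pd
    exact congrArg (fun L : E4 →L[ℝ] ℝ => L (bv a)) h3.fderiv
  rw [h4, sum_apply]
  refine Finset.sum_congr rfl fun i _ => ?_
  have h5 := L1_chain1 (hφd y hy) (L1_pd_differentiable hw i) a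
  rw [← h5]
  simp only [add_apply, smul_apply, smul_eq_mul, Function.comp_apply]
  unfold pd
  ring

theorem thm_L1 (h8 : claimDA8) (hj : claimJet) : claimL1 := by
  intro U V φ G hU hG hm hφ hd
  refine ⟨L1_met hU hG hm hφ hd, fun y hy => ?_⟩
  obtain ⟨r1, r2, r3, r4, r5⟩ := L1_alg h8 hU hG hm hφ hd hy
  have hφd : DifferentiableAt ℝ φ y :=
    (hφ.differentiableOn (by simp)).differentiableAt (hU.mem_nhds hy)
  refine ⟨?_, r1, r2, ?_, ?_, ?_⟩
  · rw [L1_pull, Matrix.det_mul, Matrix.det_mul, Matrix.det_transpose, L1_J_det]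
    ring
  · rw [ric0SqC_eq, ric0SqC_eq, r2, r3]
  · intro u hu
    obtain ⟨v, hv, -, hv1, hv2⟩ := hj.1 u (φ y) hu
    have hv' : ContDiffAt ℝ 2 v (φ y) := by
      exact_mod_cast (contDiff_infty.1 hv 2).contDiffAt
    have e1 : ∀ a, pd a (u ∘ φ) y = pd a (v ∘ φ) y := by
      intro a
      rw [L1_chain1 hφd (hu.differentiableAt (by norm_num)),
        L1_chain1 hφd (hv'.differentiableAt (by norm_num))]
      simp only [hv1]
    have e2 : ∀ a b, pd a (pd b (u ∘ φ)) y = pd a (pd b (v ∘ φ)) y := by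
      intro a b
      rw [L1_chain2 hU hφ hy hu, L1_chain2 hU hφ hy hv']
      simp only [hv1, hv2]
    have e3 : laplC (pullM φ G) (u ∘ φ) y = laplC (pullM φ G) (v ∘ φ) y := by
      unfold laplC hessC
      simp only [e1, e2]
    have e4 : laplC G u (φ y) = laplC G v (φ y) := by
      unfold laplC hessC
      simp only [hv1, hv2]
    rw [e3, e4, r4 v hv]
  · intro u v hu hv
    have e1 : ∀ w : E4 → ℝ, DifferentiableAt ℝ w (φ y) →
        ∀ a, pd a (w ∘ φ) y = pd a ((fun z => fderiv ℝ w (φ y) z) ∘ φ) y := by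
      intro w hw a
      rw [L1_chain1 hφd hw, L1_chain1 hφd (fderiv ℝ w (φ y)).differentiableAt]
      refine Finset.sum_congr rfl fun i _ => ?_
      congr 1
      unfold pd
      rw [ContinuousLinearMap.fderiv]
    have e2 : ∀ w : E4 → ℝ, ∀ a, pd a w (φ y) = pd a (fun z => fderiv ℝ w (φ y) z) (φ y) := by
      intro w a
      unfold pd
      rw [ContinuousLinearMap.fderiv]
    have h1 := r5 (fun z => fderiv ℝ u (φ y) z) (fun z => fderiv ℝ v (φ y) z)
      (fderiv ℝ u (φ y)).contDiff (fderiv ℝ v (φ y)).contDiff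
    have h2 : gradInC (pullM φ G) (u ∘ φ) (v ∘ φ) y =
        gradInC (pullM φ G) ((fun z => fderiv ℝ u (φ y) z) ∘ φ)
          ((fun z => fderiv ℝ v (φ y) z) ∘ φ) y := by
      unfold gradInC
      simp only [e1 u hu, e1 v hv]
    have h3 : gradInC G u v (φ y) = gradInC G (fun z => fderiv ℝ u (φ y) z)
        (fun z => fderiv ℝ v (φ y) z) (φ y) := by
      unfold gradInC
      refine Finset.sum_congr rfl fun i _ => Finset.sum_congr rfl fun j _ => ?_
      rw [e2 u, e2 v]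
    rw [h2, h1, h3]

end NRF

end
end

section

/-!
# Item L3: positivity of the inner product of 2-tensors, symmetry of the Ricci tensor
-/

open scoped Manifold ContDiff Topology Matrix
open MeasureTheory Set

noncomputable section

namespace NRF

theorem L3_in2_eq (H A B : Matrix (Fin 4) (Fin 4) ℝ) :
    in2 H A B = ∑ k, ∑ l, (Hᵀ * A * H) k l * B k l := by
  have h1 : ∀ k l, (Hᵀ * A * H) k l * B k l =
      ∑ i, ∑ j, H i k * H j l * (A i j * B k l) := by
    intro k l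
    simp only [Matrix.mul_apply, Matrix.transpose_apply, Finset.sum_mul]
    rw [Finset.sum_comm]
    refine Finset.sum_congr rfl fun i _ => Finset.sum_congr rfl fun j _ => ?_
    ring
  simp only [h1]
  unfold in2
  calc ∑ i, ∑ j, ∑ k, ∑ l, H i k * H j l * (A i j * B k l)
      = ∑ i, ∑ k, ∑ j, ∑ l, H i k * H j l * (A i j * B k l) :=
        Finset.sum_congr rfl fun i _ => Finset.sum_comm
    _ = ∑ k, ∑ i, ∑ j, ∑ l, H i k * H j l * (A i j * B k l) := Finset.sum_comm
    _ = ∑ k, ∑ i, ∑ l, ∑ j, H i k * H j l * (A i j * B k l) :=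
        Finset.sum_congr rfl fun k _ => Finset.sum_congr rfl fun i _ => Finset.sum_comm
    _ = ∑ k, ∑ l, ∑ i, ∑ j, H i k * H j l * (A i j * B k l) :=
        Finset.sum_congr rfl fun k _ => Finset.sum_comm

theorem L3_sum_mul_eq_trace (A B : Matrix (Fin 4) (Fin 4) ℝ) :
    ∑ k, ∑ l, A k l * B k l = (A * Bᵀ).trace := by
  simp only [Matrix.trace, Matrix.diag_apply, Matrix.mul_apply, Matrix.transpose_apply]

open scoped MatrixOrder in
theorem L3_factor {H : Matrix (Fin 4) (Fin 4) ℝ} (hH : H.PosDef) :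
    ∃ B : Matrix (Fin 4) (Fin 4) ℝ, H = Bᵀ * B := by
  obtain ⟨B, hB⟩ := CStarAlgebra.nonneg_iff_eq_star_mul_self.mp hH.posSemidef.nonneg
  refine ⟨B, ?_⟩
  rw [hB, Matrix.star_eq_conjTranspose, Matrix.conjTranspose_eq_transpose_of_trivial]

theorem L3_in2_sq (B A : Matrix (Fin 4) (Fin 4) ℝ) :
    in2 (Bᵀ * B) A A = ∑ a, ∑ b, (B * A * Bᵀ) a b ^ 2 := by
  rw [L3_in2_eq, L3_sum_mul_eq_trace]
  simp only [pow_two]
  rw [L3_sum_mul_eq_trace]
  simp only [Matrix.transpose_mul, Matrix.transpose_transpose]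
  have e1 : Bᵀ * B * A * (Bᵀ * B) * Aᵀ = Bᵀ * (B * A * Bᵀ * (B * Aᵀ)) := by
    simp only [Matrix.mul_assoc]
  rw [e1, Matrix.trace_mul_comm]
  simp only [Matrix.mul_assoc]

theorem L3_tr_eq (B A : Matrix (Fin 4) (Fin 4) ℝ) :
    ∑ i, ∑ j, (Bᵀ * B) i j * A i j = ∑ a, (B * A * Bᵀ) a a := by
  rw [L3_sum_mul_eq_trace]
  have e2 : ∑ a, (B * A * Bᵀ) a a = (B * A * Bᵀ).trace := rfl
  rw [e2, ← Matrix.trace_transpose (B * A * Bᵀ)]
  simp only [Matrix.transpose_mul, Matrix.transpose_transpose]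
  rw [Matrix.mul_assoc, Matrix.trace_mul_comm, Matrix.mul_assoc]

theorem L3_pos (H A : Matrix (Fin 4) (Fin 4) ℝ) (hH : H.PosDef) : 0 ≤ in2 H A A ∧
    (∑ i, ∑ j, H i j * A i j) ^ 2 ≤ 4 * in2 H A A := by
  obtain ⟨B, rfl⟩ := L3_factor hH
  rw [L3_in2_sq, L3_tr_eq]
  refine ⟨Finset.sum_nonneg fun a _ => Finset.sum_nonneg fun b _ => sq_nonneg _, ?_⟩
  have h1 : (∑ a, (B * A * Bᵀ) a a) ^ 2 ≤ 4 * ∑ a, ((B * A * Bᵀ) a a) ^ 2 := by
    have := sq_sum_le_card_mul_sum_sq (s := (Finset.univ : Finset (Fin 4)))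
      (f := fun a => (B * A * Bᵀ) a a)
    simpa using this
  refine h1.trans ?_
  gcongr with a _
  exact Finset.single_le_sum (f := fun b => (B * A * Bᵀ) a b ^ 2)
    (fun b _ => sq_nonneg _) (Finset.mem_univ a)

theorem L3_vec (H : Matrix (Fin 4) (Fin 4) ℝ) (v : Fin 4 → ℝ) (hH : H.PosDef) :
    0 ≤ ∑ i, ∑ j, H i j * (v i * v j) := by
  obtain ⟨B, rfl⟩ := L3_factor hH
  have e : ∑ i, ∑ j, (Bᵀ * B) i j * (v i * v j) = ∑ a, (∑ i, B a i * v i) ^ 2 := by
    simp only [Matrix.mul_apply, Matrix.transpose_apply, Finset.sum_mul, pow_two, Finset.mul_sum]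
    calc ∑ i, ∑ j, ∑ a, B a i * B a j * (v i * v j)
        = ∑ i, ∑ a, ∑ j, B a i * B a j * (v i * v j) :=
          Finset.sum_congr rfl fun i _ => Finset.sum_comm
      _ = ∑ a, ∑ i, ∑ j, B a i * B a j * (v i * v j) := Finset.sum_comm
      _ = _ := by
          refine Finset.sum_congr rfl fun a _ => ?_
          rw [Finset.sum_comm]
          refine Finset.sum_congr rfl fun i _ => Finset.sum_congr rfl fun j _ => ?_
          ring
  rw [e]
  exact Finset.sum_nonneg fun a _ => sq_nonneg _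

theorem thm_L3 (h3 : claimDA3) : claimL3 := by
  refine ⟨fun H A hH => L3_pos H A hH, fun H v hH => L3_vec H v hH, ?_⟩
  intro U G hG y hy
  constructor
  · intro i j
    have hS := smoothMet_static hG
    have h := (h3 (Fin 4) (SF (univ ×ˢ U)) hS.geo).2.2.2.2.2 i j
    have hp : ((0 : ℝ), y) ∈ (univ ×ˢ U : Set (ℝ × E4)) := ⟨mem_univ _, hy⟩
    have e1 := Rep.ric hS i j ⟨((0 : ℝ), y), hp⟩
    have e2 := Rep.ric hS j i ⟨((0 : ℝ), y), hp⟩
    rw [h] at e1
    exact e1.symm.trans e2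
  · rw [ric0SqC_eq]
    have h := (L3_pos (G y)⁻¹ (ricM G y) (hG.posDef y hy).inv).2
    have e : scalC G y = ∑ i, ∑ j, (G y)⁻¹ i j * ricM G y i j := rfl
    rw [e]
    linarith

end NRF

end
end

section

/-!
# Item L5: smoothness of the coordinate expressions
-/

open scoped Manifold ContDiff Topology
open MeasureTheory Set

noncomputable section

namespace NRF

theorem L5_det {Ω : Set (ℝ × E4)} {G : ℝ → E4 → Matrix (Fin 4) (Fin 4) ℝ} (hG : SmoothMet Ω G) :
    ContDiffOn ℝ ∞ (fun p : ℝ × E4 => (G p.1 p.2).det) Ω := by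
  simp only [Matrix.det_apply]
  refine ContDiffOn.sum fun σ _ => ?_
  exact ContDiffOn.const_smul _ (contDiffOn_prod fun k _ => hG.smooth _ _)

theorem L5_ric0 {Ω : Set (ℝ × E4)} {G : ℝ → E4 → Matrix (Fin 4) (Fin 4) ℝ}
    (hG : SmoothMet Ω G) :
    ContDiffOn ℝ ∞ (fun p : ℝ × E4 => ric0SqC (G p.1) p.2) Ω := by
  have h1 := (Rep.inner2 hG (A := fun t y => ricM (G t) y) (B := fun t y => ricM (G t) y)
    (fun i j => Rep.ric hG i j) (fun i j => Rep.ric hG i j)).contDiffOn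
  have h2 := (Rep.scal hG).contDiffOn
  have h3 : (fun p : ℝ × E4 => ric0SqC (G p.1) p.2) = fun p : ℝ × E4 =>
      in2 (G p.1 p.2)⁻¹ (ricM (G p.1) p.2) (ricM (G p.1) p.2) -
        (scalC (G p.1) p.2) ^ 2 / 4 := by
    funext p
    exact ric0SqC_eq (G p.1) p.2
  rw [h3]
  exact h1.sub ((h2.pow 2).div_const 4)

theorem L5_time (Ω : Set (ℝ × E4)) (G : ℝ → E4 → Matrix (Fin 4) (Fin 4) ℝ)
    (hG : SmoothMet Ω G) :
    (∀ i j, ContDiffOn ℝ ∞ (fun p : ℝ × E4 => (G p.1 p.2)⁻¹ i j) Ω) ∧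
    (∀ k i j, ContDiffOn ℝ ∞ (fun p : ℝ × E4 => chr (G p.1) k i j p.2) Ω) ∧
    (∀ i j, ContDiffOn ℝ ∞ (fun p : ℝ × E4 => ricci (G p.1) i j p.2) Ω) ∧
    ContDiffOn ℝ ∞ (fun p : ℝ × E4 => scalC (G p.1) p.2) Ω ∧
    ContDiffOn ℝ ∞ (fun p : ℝ × E4 => ric0SqC (G p.1) p.2) Ω ∧
    ContDiffOn ℝ ∞ (fun p : ℝ × E4 => Real.sqrt (G p.1 p.2).det) Ω :=
  ⟨fun i j => hG.smooth_inv i j, fun k i j => (Rep.chr hG k i j).contDiffOn,
    fun i j => (Rep.ric hG i j).contDiffOn, (Rep.scal hG).contDiffOn, L5_ric0 hG,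
    (L5_det hG).sqrt fun p hp => (hG.det_pos hp).ne'⟩

/-- restriction of a smooth function on space time to the time slice `0` -/
theorem L5_slice {U : Set E4} {F : ℝ → E4 → ℝ}
    (h : ContDiffOn ℝ ∞ (fun p : ℝ × E4 => F p.1 p.2) (univ ×ˢ U)) :
    ContDiffOn ℝ ∞ (F 0) U := by
  have h1 : ContDiffOn ℝ ∞ (fun y : E4 => ((0 : ℝ), y)) U :=
    (contDiff_const.prodMk contDiff_id).contDiffOn
  exact h.comp h1 fun y hy => ⟨mem_univ _, hy⟩

theorem L5_stat {U : Set E4} {u : E4 → ℝ} (hu : ContDiffOn ℝ ∞ u U) :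
    ContDiffOn ℝ ∞ (fun p : ℝ × E4 => u p.2) (univ ×ˢ U) :=
  hu.comp contDiffOn_snd fun _ hp => hp.2

theorem thm_L5 : claimL5 := by
  refine ⟨L5_time, ?_⟩
  intro U G hU
  have hG := smoothMet_static hU
  obtain ⟨h1, h2, h3, h4, h5, h6⟩ := L5_time _ _ hG
  refine ⟨fun i j => L5_slice (F := fun _ y => (G y)⁻¹ i j) (h1 i j),
    fun k i j => L5_slice (F := fun _ y => chr G k i j y) (h2 k i j),
    fun i j => L5_slice (F := fun _ y => ricci G i j y) (h3 i j),
    L5_slice (F := fun _ y => scalC G y) h4, L5_slice (F := fun _ y => ric0SqC G y) h5,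
    L5_slice (F := fun _ y => Real.sqrt (G y).det) h6, ?_⟩
  intro u v hu hv
  have ru : Rep (SF.mk' (fun p : ℝ × E4 => u p.2) (L5_stat hu)) (fun _ => u) := fun _ => rfl
  have rv : Rep (SF.mk' (fun p : ℝ × E4 => v p.2) (L5_stat hv)) (fun _ => v) := fun _ => rfl
  exact ⟨L5_slice (F := fun _ y => laplC G u y) (Rep.lap hG ru).contDiffOn,
    L5_slice (F := fun _ y => gradInC G u v y) (Rep.grad2 hG ru rv).contDiffOn⟩

end NRF

end
end

section

/-!
# LF2: evolution of the scalar curvature at function level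
-/

open scoped Manifold ContDiff Topology
open MeasureTheory Set

noncomputable section

namespace NRF

/-- The ring element which represents the function `c` of the flow equation. -/
def LF2_cc {Ω : Set (ℝ × E4)} {G : ℝ → E4 → Matrix (Fin 4) (Fin 4) ℝ} (hG : SmoothMet Ω G) :
    SF Ω :=
  (1 / 4 : ℝ) • ∑ i, ∑ j, hG.geo.h i j * (hG.T (hG.geo.g i j) + (2 : ℝ) • hG.geo.ric i j)

theorem LF2_T_g {Ω : Set (ℝ × E4)} {G : ℝ → E4 → Matrix (Fin 4) (Fin 4) ℝ} {c : ℝ → ℝ}
    (hF : FlowOn Ω G c) (i j : Fin 4) (p : Ω) :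
    (hF.met.T (hF.met.geo.g i j)).1 p =
      -2 * ricci (G p.1.1) i j p.1.2 + c p.1.1 * G p.1.1 p.1.2 i j :=
  ((Rep.g hF.met i j).T hF.met p).unique (hF.eqn p.1 p.2 i j)

theorem LF2_tr {M : Matrix (Fin 4) (Fin 4) ℝ} (h : M.PosDef) :
    ∑ i, ∑ j, M⁻¹ i j * M i j = 4 := by
  have hd : IsUnit M.det := h.det_pos.ne'.isUnit
  have h1 : ∀ i, ∑ j, M⁻¹ i j * M i j = 1 := by
    intro i
    have h2 := congrFun (congrFun (Matrix.nonsing_inv_mul M hd) i) i
    rw [Matrix.mul_apply, Matrix.one_apply_eq] at h2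
    rw [← h2]
    refine Finset.sum_congr rfl fun j _ => ?_
    have h3 := h.isHermitian.apply i j
    simp only [star_trivial] at h3
    rw [h3]
  simp [h1]

theorem LF2_cc_apply {Ω : Set (ℝ × E4)} {G : ℝ → E4 → Matrix (Fin 4) (Fin 4) ℝ} {c : ℝ → ℝ}
    (hF : FlowOn Ω G c) : Rep (LF2_cc hF.met) (fun t _ => c t) := by
  intro p
  have e1 : (LF2_cc hF.met).1 p = (1 / 4) * ∑ i, ∑ j, (G p.1.1 p.1.2)⁻¹ i j *
      ((hF.met.T (hF.met.geo.g i j)).1 p + 2 * ricci (G p.1.1) i j p.1.2) := by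
    unfold LF2_cc
    rw [← SF.ev_apply, map_smul, map_sum, smul_eq_mul]
    congr 1
    refine Finset.sum_congr rfl fun i _ => ?_
    rw [map_sum]
    refine Finset.sum_congr rfl fun j _ => ?_
    rw [map_mul, map_add, map_smul, smul_eq_mul]
    simp only [SF.ev_apply]
    rw [Rep.h hF.met i j p, Rep.ric hF.met i j p]
  rw [e1]
  simp only [LF2_T_g hF]
  have e2 : ∀ i j : Fin 4, (G p.1.1 p.1.2)⁻¹ i j *
      (-2 * ricci (G p.1.1) i j p.1.2 + c p.1.1 * G p.1.1 p.1.2 i j +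
        2 * ricci (G p.1.1) i j p.1.2) =
      c p.1.1 * ((G p.1.1 p.1.2)⁻¹ i j * G p.1.1 p.1.2 i j) := fun i j => by ring
  simp only [e2, ← Finset.mul_sum]
  rw [LF2_tr (hF.met.posDef p.1 p.2)]
  ring

theorem thm_LF2 (h6 : claimDA6c) : claimLF2 := by
  intro Ω G c hF p hp
  set P : Ω := ⟨p, hp⟩
  have hcc := LF2_cc_apply hF
  have h0 : ∀ i, hF.met.geo.D i (LF2_cc hF.met) = 0 := by
    intro i
    refine SF.ext_val fun q => ?_
    rw [hcc.D hF.met i q]
    simp [pd]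
  have hTg : ∀ i j, hF.met.T (hF.met.geo.g i j) =
      (-2 : ℝ) • hF.met.geo.ric i j + LF2_cc hF.met * hF.met.geo.g i j := by
    intro i j
    refine SF.ext_val fun q => ?_
    rw [LF2_T_g hF i j q]
    simp only [Subalgebra.coe_add, Subalgebra.coe_smul, Subalgebra.coe_mul, Pi.add_apply,
      Pi.smul_apply, Pi.mul_apply, smul_eq_mul]
    rw [Rep.ric hF.met i j q, hcc q, Rep.g hF.met i j q]
  have h := h6 (Fin 4) (SF Ω) hF.met.geo hF.met.T (LF2_cc hF.met) hF.met.T_comm h0 hTg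
  have h1 := (Rep.scal hF.met).T hF.met P
  rw [h] at h1
  have e3 : (hF.met.geo.lap hF.met.geo.scal +
      (2 : ℝ) • hF.met.geo.inner2 hF.met.geo.ric hF.met.geo.ric -
      LF2_cc hF.met * hF.met.geo.scal).1 P =
      laplC (G p.1) (scalC (G p.1)) p.2 + 2 * ric0SqC (G p.1) p.2 +
        (scalC (G p.1) p.2) ^ 2 / 2 - c p.1 * scalC (G p.1) p.2 := by
    have r1 := (Rep.scal hF.met).lap hF.met P
    have r2 : (hF.met.geo.inner2 hF.met.geo.ric hF.met.geo.ric).1 P =
        in2 (G p.1 p.2)⁻¹ (ricM (G p.1) p.2) (ricM (G p.1) p.2) :=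
      Rep.inner2 hF.met (A := fun t y => ricM (G t) y) (B := fun t y => ricM (G t) y)
        (fun i j => Rep.ric hF.met i j) (fun i j => Rep.ric hF.met i j) P
    have r3 := Rep.scal hF.met P
    have r4 := hcc P
    simp only [Subalgebra.coe_add, Subalgebra.coe_sub, Subalgebra.coe_smul, Subalgebra.coe_mul,
      Pi.add_apply, Pi.sub_apply, Pi.smul_apply, Pi.mul_apply, smul_eq_mul]
    rw [r1, r2, r3, r4, ric0SqC_eq]
    change laplC (G p.1) (scalC (G p.1)) p.2 + _ - c p.1 * scalC (G p.1) p.2 = _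
    ring
  rw [e3] at h1
  exact h1

end NRF

end
end

section

/-!
# Evolution of `|∇u|²` for a solution of the heat equation along the flow
-/

open scoped Manifold ContDiff Topology
open Set

noncomputable section

namespace NRF

namespace LF3

variable {Ω : Set (ℝ × E4)}

/-- Space derivative of a slice. -/
theorem slice_pd (hΩ : IsOpen Ω) {f : ℝ × E4 → ℝ} (hf : DifferentiableOn ℝ f Ω)
    {t : ℝ} {y : E4} (hp : (t, y) ∈ Ω) (i : Fin 4) :
    pd i (fun z => f (t, z)) y = fderiv ℝ f (t, y) (sv i) := by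
  have hd : DifferentiableAt ℝ f (t, y) := hf.differentiableAt (hΩ.mem_nhds hp)
  have h1 : HasFDerivAt (fun z : E4 => (t, z)) (ContinuousLinearMap.inr ℝ ℝ E4) y :=
    hasFDerivAt_prodMk_right t y
  have := (hd.hasFDerivAt.comp y h1).fderiv
  unfold pd
  have e : (fun z => f (t, z)) = f ∘ fun z => (t, z) := rfl
  rw [e, this]
  simp [sv]

/-- Time derivative of a slice. -/
theorem slice_T {f : ℝ × E4 → ℝ} {t : ℝ} {y : E4} (hd : DifferentiableAt ℝ f (t, y)) :
    HasDerivAt (fun s => f (s, y)) (fderiv ℝ f (t, y) tv) t := by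
  have h1 : HasFDerivAt (fun s : ℝ => (s, y)) (ContinuousLinearMap.inl ℝ ℝ E4) t :=
    hasFDerivAt_prodMk_left t y
  have h2 := (hd.hasFDerivAt.comp t h1).hasDerivAt
  have e : ((fderiv ℝ f (t, y)).comp (ContinuousLinearMap.inl ℝ ℝ E4)) 1 =
      fderiv ℝ f (t, y) tv := by simp [tv]
  rw [e] at h2
  exact h2

/-- Time derivative of the space derivatives. -/
theorem deriv_pd (hΩ : IsOpen Ω) {u L : ℝ → E4 → ℝ}
    (hu : ContDiffOn ℝ 3 (fun p : ℝ × E4 => u p.1 p.2) Ω)
    (hL : ∀ p ∈ Ω, HasDerivAt (fun s => u s p.2) (L p.1 p.2) p.1)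
    {t : ℝ} {y : E4} (hp : (t, y) ∈ Ω) (i : Fin 4) :
    HasDerivAt (fun s => pd i (u s) y) (pd i (L t) y) t := by
  set f : ℝ × E4 → ℝ := fun p => u p.1 p.2 with hf
  have hd1 : DifferentiableOn ℝ f Ω := hu.differentiableOn (by norm_num)
  have hd2 : ContDiffOn ℝ 2 (fderiv ℝ f) Ω := hu.fderiv_of_isOpen hΩ (by norm_num)
  have hd : DifferentiableAt ℝ (fderiv ℝ f) (t, y) :=
    (hd2.differentiableOn (by norm_num)).differentiableAt (hΩ.mem_nhds hp)
  have hv : ∀ v w : ℝ × E4, fderiv ℝ (fun q => fderiv ℝ f q v) (t, y) w =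
      fderiv ℝ (fderiv ℝ f) (t, y) w v := by
    intro v w
    have := (hd.hasFDerivAt.clm_apply (hasFDerivAt_const v (t, y))).fderiv
    rw [this]
    simp
  have hdv : ∀ v : ℝ × E4, DifferentiableAt ℝ (fun q => fderiv ℝ f q v) (t, y) := fun v =>
    hd.clm_apply (differentiableAt_const v)
  have hdvO : ∀ v : ℝ × E4, DifferentiableOn ℝ (fun q => fderiv ℝ f q v) Ω := fun v q hq =>
    (((hd2.differentiableOn (by norm_num)).differentiableAt (hΩ.mem_nhds hq)).clm_apply
      (differentiableAt_const v)).differentiableWithinAt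
  have hsymm : fderiv ℝ (fderiv ℝ f) (t, y) tv (sv i) =
      fderiv ℝ (fderiv ℝ f) (t, y) (sv i) tv :=
    ((hu.contDiffAt (hΩ.mem_nhds hp)).isSymmSndFDerivAt (by
      simp only [minSmoothness_of_isRCLikeNormedField]
      norm_num)) tv (sv i)
  have h1 : HasDerivAt (fun s => fderiv ℝ f (s, y) (sv i))
      (fderiv ℝ (fun q => fderiv ℝ f q (sv i)) (t, y) tv) t := slice_T (hdv (sv i))
  have h2 : pd i (L t) y = fderiv ℝ (fun q => fderiv ℝ f q (sv i)) (t, y) tv := by
    rw [hv, hsymm, ← hv, ← slice_pd hΩ (hdvO tv) hp i]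
    unfold pd
    have hev : L t =ᶠ[𝓝 y] fun z => fderiv ℝ f (t, z) tv := by
      have hc : ContinuousAt (fun z : E4 => (t, z)) y := by fun_prop
      filter_upwards [hc.preimage_mem_nhds (hΩ.mem_nhds hp)] with z hz
      exact (hL (t, z) hz).unique (slice_T (hd1.differentiableAt (hΩ.mem_nhds hz)))
    rw [hev.fderiv_eq]
  rw [h2]
  refine h1.congr_of_eventuallyEq ?_
  have hc : ContinuousAt (fun s : ℝ => (s, y)) t := by fun_prop
  filter_upwards [hc.preimage_mem_nhds (hΩ.mem_nhds hp)] with s hs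
  exact slice_pd hΩ hd1 hs i

/-- Algebra: the quadratic form of the derivative of the inverse matrix. -/
theorem alg (h R g : Matrix (Fin 4) (Fin 4) ℝ) (c : ℝ) (p : Fin 4 → ℝ)
    (hs : ∀ i j, h i j = h j i) (hg : h * g = 1) :
    ∑ i, ∑ j, (-∑ a, ∑ b, h i a * (-2 * R a b + c * g a b) * h b j) * (p i * p j) =
      2 * in2 h R (Matrix.of fun i j => p i * p j) - c * ∑ i, ∑ j, h i j * (p i * p j) := by
  have e1 : ∀ i j, ∑ a, ∑ b, h i a * (-2 * R a b + c * g a b) * h b j =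
      -2 * ∑ a, ∑ b, h i a * R a b * h b j + c * h i j := by
    intro i j
    have e2 : ∑ a, ∑ b, h i a * g a b * h b j = h i j := by
      have : (h * g * h) i j = h i j := by rw [hg, Matrix.one_mul]
      rw [Matrix.mul_apply] at this
      rw [← this, Finset.sum_comm]
      refine Finset.sum_congr rfl fun b _ => ?_
      rw [Matrix.mul_apply, Finset.sum_mul]
    rw [← e2, Finset.mul_sum, Finset.mul_sum, ← Finset.sum_add_distrib]
    refine Finset.sum_congr rfl fun a _ => ?_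
    rw [Finset.mul_sum, Finset.mul_sum, ← Finset.sum_add_distrib]
    refine Finset.sum_congr rfl fun b _ => ?_
    ring
  have e3 : in2 h R (Matrix.of fun i j => p i * p j) =
      ∑ i, ∑ j, (∑ a, ∑ b, h i a * R a b * h b j) * (p i * p j) := by
    have s1 : ∀ F : Fin 4 → Fin 4 → Fin 4 → Fin 4 → ℝ,
        ∑ i, ∑ j, ∑ a, ∑ b, F i j a b = ∑ a, ∑ b, ∑ i, ∑ j, F i j a b := by
      intro F
      calc ∑ i, ∑ j, ∑ a, ∑ b, F i j a b = ∑ i, ∑ a, ∑ j, ∑ b, F i j a b :=
            Finset.sum_congr rfl fun i _ => Finset.sum_comm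
        _ = ∑ a, ∑ i, ∑ j, ∑ b, F i j a b := Finset.sum_comm
        _ = ∑ a, ∑ i, ∑ b, ∑ j, F i j a b :=
            Finset.sum_congr rfl fun a _ => Finset.sum_congr rfl fun i _ => Finset.sum_comm
        _ = ∑ a, ∑ b, ∑ i, ∑ j, F i j a b :=
            Finset.sum_congr rfl fun a _ => Finset.sum_comm
    unfold in2
    simp only [Finset.sum_mul, Matrix.of_apply]
    rw [s1]
    refine Finset.sum_congr rfl fun i _ => Finset.sum_congr rfl fun j _ =>
      Finset.sum_congr rfl fun a _ => Finset.sum_congr rfl fun b _ => ?_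
    rw [hs a i]
    ring
  rw [e3]
  have e4 : ∀ S : Fin 4 → Fin 4 → ℝ,
      ∑ i, ∑ j, (-(-2 * S i j + c * h i j)) * (p i * p j) =
        2 * ∑ i, ∑ j, S i j * (p i * p j) - c * ∑ i, ∑ j, h i j * (p i * p j) := by
    intro S
    simp only [Finset.mul_sum, ← Finset.sum_sub_distrib]
    refine Finset.sum_congr rfl fun i _ => Finset.sum_congr rfl fun j _ => ?_
    ring
  rw [← e4]
  refine Finset.sum_congr rfl fun i _ => Finset.sum_congr rfl fun j _ => ?_
  rw [e1]

/-- Derivative of the inverse matrix along the flow. -/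
theorem deriv_inv {G : ℝ → E4 → Matrix (Fin 4) (Fin 4) ℝ} {c : ℝ → ℝ} (hF : FlowOn Ω G c)
    {t : ℝ} {y : E4} (hp : (t, y) ∈ Ω) (i j : Fin 4) :
    HasDerivAt (fun s => (G s y)⁻¹ i j)
      (-∑ a, ∑ b, (G t y)⁻¹ i a * (-2 * ricM (G t) y a b + c t * G t y a b) * (G t y)⁻¹ b j) t := by
  have hG := hF.met
  have h2 := Rep.T hG (Rep.h hG i j) ⟨(t, y), hp⟩
  rw [DA1_Dh_mat] at h2
  have e1 : ∀ i j, (hG.T (hG.geo.g i j)).1 ⟨(t, y), hp⟩ =
      -2 * ricci (G t) i j y + c t * G t y i j := fun i j =>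
    (Rep.T hG (Rep.g hG i j) ⟨(t, y), hp⟩).unique (hF.eqn (t, y) hp i j)
  have e2 : (-∑ a, ∑ b, hG.geo.h i a * hG.T (hG.geo.g a b) * hG.geo.h b j).1 ⟨(t, y), hp⟩ =
      -∑ a, ∑ b, (G t y)⁻¹ i a * (-2 * ricM (G t) y a b + c t * G t y a b) * (G t y)⁻¹ b j := by
    rw [← SF.ev_apply, map_neg, map_sum]
    congr 1
    refine Finset.sum_congr rfl fun a _ => ?_
    rw [map_sum]
    refine Finset.sum_congr rfl fun b _ => ?_
    rw [map_mul, map_mul, SF.ev_apply, SF.ev_apply, SF.ev_apply, e1]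
    rfl
  rw [e2] at h2
  exact h2

end LF3

open LF3 in
theorem thm_LF3 (hb : claimL2) (h3 : claimL3) : claimLF3 := by
  intro Ω G c u hF hu hL p hp
  obtain ⟨t, y⟩ := p
  have hG := hF.met
  have hO := hG.isOpen
  have hdu : ∀ i, HasDerivAt (fun s => pd i (u s) y) (pd i (laplC (G t) (u t)) y) t := fun i =>
    deriv_pd (L := fun s z => laplC (G s) (u s) z) hO hu hL hp i
  have hPD : (G t y).PosDef := hG.posDef (t, y) hp
  have hsymG : ∀ i j, G t y i j = G t y j i := fun i j => by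
    simpa using (hPD.isHermitian.apply i j).symm
  have hinvPD : ((G t y)⁻¹).PosDef := hPD.inv
  have hsym : ∀ i j, (G t y)⁻¹ i j = (G t y)⁻¹ j i := fun i j => by
    simpa using (hinvPD.isHermitian.apply i j).symm
  have hmul : (G t y)⁻¹ * G t y = 1 :=
    Matrix.nonsing_inv_mul _ (hG.det_pos hp).ne'.isUnit
  refine ⟨∑ i, ∑ j, ((-∑ a, ∑ b, (G t y)⁻¹ i a *
      (-2 * ricM (G t) y a b + c t * G t y a b) * (G t y)⁻¹ b j) * (pd i (u t) y * pd j (u t) y) +
      (G t y)⁻¹ i j * (pd i (laplC (G t) (u t)) y * pd j (u t) y +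
        pd i (u t) y * pd j (laplC (G t) (u t)) y)), ?_, ?_⟩
  · have e : (fun s => gradSqC (G s) (u s) y) =
        fun s => ∑ i, ∑ j, (G s y)⁻¹ i j * (pd i (u s) y * pd j (u s) y) := rfl
    change HasDerivAt (fun s => gradSqC (G s) (u s) y) _ t
    rw [e]
    refine HasDerivAt.fun_sum fun i _ => HasDerivAt.fun_sum fun j _ => ?_
    exact (deriv_inv hF hp i j).fun_mul ((hdu i).fun_mul (hdu j))
  · set U : Set E4 := {z | (t, z) ∈ Ω} with hU
    have hUo : IsOpen U := hO.preimage (by fun_prop : Continuous fun z : E4 => (t, z))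
    have hM : MetOn U (G t) := by
      refine ⟨hUo, fun i j => ?_, fun z hz => hG.posDef (t, z) hz⟩
      have : ContDiffOn ℝ ∞ (fun z : E4 => (t, z)) U :=
        (contDiff_const.prodMk contDiff_id).contDiffOn
      exact (hG.smooth i j).comp this fun z hz => hz
    have hut : ContDiffAt ℝ 3 (u t) y := by
      have h1 : ContDiffAt ℝ 3 (fun p : ℝ × E4 => u p.1 p.2) (t, y) :=
        hu.contDiffAt (hO.mem_nhds hp)
      have h2 : ContDiffAt ℝ 3 (fun z : E4 => (t, z)) y :=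
        (contDiff_const.prodMk contDiff_id).contDiffAt
      exact h1.comp y h2
    have hB := hb U (G t) (u t) hM y hp hut
    have hpos := (h3.1 (G t y)⁻¹ (hessM (G t) (u t) y) hinvPD).1
    have halg := alg (G t y)⁻¹ (ricM (G t) y) (G t y) (c t) (fun i => pd i (u t) y) hsym hmul
    have e1 : ∑ i, ∑ j, (G t y)⁻¹ i j * (pd i (laplC (G t) (u t)) y * pd j (u t) y +
        pd i (u t) y * pd j (laplC (G t) (u t)) y) =
        2 * gradInC (G t) (u t) (laplC (G t) (u t)) y := by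
      have e2 : ∑ i, ∑ j, (G t y)⁻¹ i j * (pd i (laplC (G t) (u t)) y * pd j (u t) y) =
          gradInC (G t) (u t) (laplC (G t) (u t)) y := by
        unfold gradInC
        rw [Finset.sum_comm]
        refine Finset.sum_congr rfl fun i _ => Finset.sum_congr rfl fun j _ => ?_
        rw [hsym j i]
        ring
      simp only [mul_add, Finset.sum_add_distrib]
      rw [e2, two_mul]
      rfl
    simp only [Finset.sum_add_distrib]
    change _ ≤ laplC (G t) (gradSqC (G t) (u t)) y - c t * gradSqC (G t) (u t) y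
    rw [halg, e1, hB]
    have e3 : gradSqC (G t) (u t) y =
        ∑ i, ∑ j, (G t y)⁻¹ i j * (pd i (u t) y * pd j (u t) y) := rfl
    rw [e3]
    linarith

end NRF

end
end

section

/-!
N0: coordinate changes of charts of the maximal atlas.
-/

set_option autoImplicit false

open scoped Manifold ContDiff Topology
open MeasureTheory Set

namespace NRF

theorem N0_smooth {X : Type} [TopologicalSpace X] [ChartedSpace E4 X] [IsManifold (𝓡 4) ∞ X]
    {psi psi' : OpenPartialHomeomorph X E4} (h : psi ∈ IsManifold.maximalAtlas (𝓡 4) ∞ X)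
    (h' : psi' ∈ IsManifold.maximalAtlas (𝓡 4) ∞ X) :
    ContDiffOn ℝ ∞ (psi.symm.trans psi') (psi.symm.trans psi').source := by
  rw [← contMDiffOn_iff_contDiffOn]
  have h1 := contMDiffOn_of_mem_maximalAtlas (I := 𝓡 4) (n := ∞) h'
  have h2 := contMDiffOn_symm_of_mem_maximalAtlas (I := 𝓡 4) (n := ∞) h
  have h4 : (psi.symm.trans psi').source ⊆ psi.target := by
    rw [OpenPartialHomeomorph.trans_source]
    exact inter_subset_left
  have h5 : ContMDiffOn (𝓡 4) (𝓡 4) ∞ psi.symm (psi.symm.trans psi').source := h2.mono h4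
  exact h1.comp h5 (by
    intro y hy
    rw [OpenPartialHomeomorph.trans_source] at hy
    exact hy.2)

theorem thm_N0 : claimN0 := by
  intro X _ _ _ psi h psi' h'
  refine ⟨N0_smooth h h', fun y hy => ?_⟩
  have h1 := N0_smooth h h'
  have h2 := N0_smooth h' h
  have hy2 : (psi.symm.trans psi') y ∈ (psi'.symm.trans psi).source := by
    rw [OpenPartialHomeomorph.trans_source] at hy ⊢
    refine ⟨psi'.map_source hy.2, ?_⟩
    have : psi'.symm ((psi.symm.trans psi') y) = psi.symm y := psi'.left_inv hy.2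
    rw [mem_preimage, this]
    exact psi.map_target hy.1
  have d1 : DifferentiableAt ℝ (psi.symm.trans psi') y :=
    ((h1 y hy).contDiffAt ((psi.symm.trans psi').open_source.mem_nhds hy)).differentiableAt
      (by simp)
  have d2 : DifferentiableAt ℝ (psi'.symm.trans psi) ((psi.symm.trans psi') y) :=
    ((h2 _ hy2).contDiffAt ((psi'.symm.trans psi).open_source.mem_nhds hy2)).differentiableAt
      (by simp)
  have h3 : (fun z => (psi'.symm.trans psi) ((psi.symm.trans psi') z)) =ᶠ[𝓝 y] fun z => z := by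
    filter_upwards [(psi.symm.trans psi').open_source.mem_nhds hy] with z hz
    rw [OpenPartialHomeomorph.trans_source] at hz
    show psi (psi'.symm (psi' (psi.symm z))) = z
    rw [psi'.left_inv hz.2]
    exact psi.right_inv hz.1
  have h4 := (d2.hasFDerivAt.comp y d1.hasFDerivAt).congr_of_eventuallyEq h3.symm
  have h5 := h4.unique (hasFDerivAt_id y)
  have h6 := congrArg ContinuousLinearMap.det h5
  intro h7
  rw [ContinuousLinearMap.det, ContinuousLinearMap.toLinearMap_comp, LinearMap.det_comp] at h6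
  have h8 : LinearMap.det (fderiv ℝ (psi.symm.trans psi') y : E4 →ₗ[ℝ] E4) = 0 := h7
  rw [h8, mul_zero] at h6
  simp [ContinuousLinearMap.det] at h6

end NRF

end

section

open scoped Manifold ContDiff Topology
open MeasureTheory Set

namespace NRF

theorem thm_N1 (b1 : claimMcoef) : claimN1 := by
  intro X _ _ _ g
  refine ⟨?_, ?_, ?_⟩
  · intro e y hy
    exact (b1 X g e.1 (IsManifold.subset_maximalAtlas e.2)).2.2.1 e y hy
  · intro ψ hψ
    obtain ⟨h1, h2, -, -⟩ := b1 X g ψ hψ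
    exact ⟨ψ.open_target, h1, h2⟩
  · intro ψ hψ ψ' hψ' y hy
    obtain ⟨-, -, -, h4⟩ := b1 X g ψ hψ
    ext i j
    exact h4 ψ' hψ' y hy i j

end NRF

end

section

/-!
# Item N2: the scalar functions of a metric in charts of the maximal atlas
-/

open scoped Manifold ContDiff Topology
open MeasureTheory Set

noncomputable section

namespace NRF

theorem thm_N2 (n0 : claimN0) (n1 : claimN1) (h0 : claimL0) (h1 : claimL1) : claimN2 := by
  intro X _ _ _ g ψ hψ x hx
  set e : OpenPartialHomeomorph X E4 := chartAt E4 x with he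
  have heat : e ∈ IsManifold.maximalAtlas (𝓡 4) ∞ X :=
    IsManifold.chart_mem_maximalAtlas x
  have hxe : x ∈ e.source := mem_chart_source E4 x
  obtain ⟨m1, m2, m3⟩ := n1 X g
  obtain ⟨c1, c2⟩ := n0 X e heat ψ hψ
  set φ : OpenPartialHomeomorph E4 E4 := e.symm.trans ψ with hφ
  set U : Set E4 := φ.source with hU
  have hUo : IsOpen U := φ.open_source
  have hsrc : ∀ y ∈ U, y ∈ e.target ∧ e.symm y ∈ ψ.source := by
    intro y hy
    have hy' : y ∈ (e.symm.trans ψ).source := hy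
    rw [OpenPartialHomeomorph.trans_source] at hy'
    exact ⟨by simpa using hy'.1, hy'.2⟩
  have hφy : ∀ y, φ y = ψ (e.symm y) := fun y => rfl
  have hy0 : e x ∈ U := by
    show e x ∈ (e.symm.trans ψ).source
    rw [OpenPartialHomeomorph.trans_source]
    refine ⟨by simpa using e.map_source hxe, ?_⟩
    show e.symm (e x) ∈ ψ.source
    rw [e.left_inv hxe]
    exact hx
  have hφ0 : φ (e x) = ψ x := by
    rw [hφy, e.left_inv hxe]
  have hmaps : MapsTo φ U ψ.target := by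
    intro y hy
    rw [hφy]
    exact ψ.map_source (hsrc y hy).2
  obtain ⟨hM, hN⟩ := h1 U ψ.target φ (g.mcoef ψ) hUo (m2 ψ hψ) hmaps c1 c2
  obtain ⟨-, -, k1, k2, k3, k4⟩ := hN (e x) hy0
  rw [hφ0] at k1 k2 k3 k4
  have hEq : EqOn (g.coef (chAt x)) (pullM φ (g.mcoef ψ)) U := by
    intro y hy
    have a1 := m1 (chAt x) y (hsrc y hy).1
    have a2 := m3 e heat ψ hψ y hy
    rw [← a1]
    exact a2
  have hu : ∀ u : X → ℝ, EqOn (u ∘ e.symm) ((u ∘ ψ.symm) ∘ φ) U := by
    intro u y hy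
    show u (e.symm y) = u (ψ.symm (φ y))
    rw [hφy, ψ.left_inv (hsrc y hy).2]
  have hL := fun u v : X → ℝ => h0 U (g.coef (chAt x)) (pullM φ (g.mcoef ψ)) (u ∘ e.symm)
    ((u ∘ ψ.symm) ∘ φ) (v ∘ e.symm) ((v ∘ ψ.symm) ∘ φ) hUo hEq (hu u) (hu v) (e x) hy0
  refine ⟨?_, ?_, ?_, ?_, ?_⟩
  · exact (hL (fun _ => 0) (fun _ => 0)).2.2.1.trans k1
  · exact (hL (fun _ => 0) (fun _ => 0)).2.2.2.1.trans k2
  · intro u hu2
    exact (hL u u).2.2.2.2.2.1.trans (k3 _ hu2)
  · intro u v hud hvd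
    exact (hL u v).2.2.2.2.2.2.trans (k4 _ _ hud hvd)
  · intro u hud
    exact (hL u u).2.2.2.2.2.2.trans (k4 _ _ hud hud)

end NRF

end
end

section

/-!
# Item N3: smoothness of the scalar functions of a metric
-/

open scoped Manifold ContDiff Topology
open MeasureTheory Set

noncomputable section

namespace NRF

section

variable {X : Type} [TopologicalSpace X] [ChartedSpace E4 X]

/-- A function which near `x` is a smooth function of the coordinates is smooth at `x`. -/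
theorem N3_smoothAt {ψ : OpenPartialHomeomorph X E4}
    (hψ : ψ ∈ IsManifold.maximalAtlas (𝓡 4) ∞ X) {x : X} (hx : x ∈ ψ.source) {f : X → ℝ}
    {F : E4 → ℝ} (hF : ContDiffOn ℝ ∞ F ψ.target) (h : ∀ z ∈ ψ.source, f z = F (ψ z)) :
    ContMDiffAt (𝓡 4) 𝓘(ℝ, ℝ) ∞ f x := by
  have h1 : ContMDiffAt (𝓡 4) (𝓡 4) ∞ ψ x :=
    contMDiffAt_of_mem_maximalAtlas (I := 𝓡 4) (n := ∞) hψ hx
  have h2 : ContMDiffAt (𝓡 4) 𝓘(ℝ, ℝ) ∞ F (ψ x) :=
    ((hF _ (ψ.map_source hx)).contDiffAt
      (ψ.open_target.mem_nhds (ψ.map_source hx))).contMDiffAt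
  have h3 : ContMDiffAt (𝓡 4) 𝓘(ℝ, ℝ) ∞ (F ∘ ψ) x := h2.comp x h1
  refine h3.congr_of_eventuallyEq ?_
  filter_upwards [ψ.open_source.mem_nhds hx] with z hz
  exact h z hz

/-- A smooth function in a chart. -/
theorem N3_smoothOn {ψ : OpenPartialHomeomorph X E4}
    (hψ : ψ ∈ IsManifold.maximalAtlas (𝓡 4) ∞ X) {u : X → ℝ}
    (hu : ContMDiff (𝓡 4) 𝓘(ℝ, ℝ) ∞ u) : ContDiffOn ℝ ∞ (u ∘ ψ.symm) ψ.target := by
  rw [← contMDiffOn_iff_contDiffOn]
  have h2 := contMDiffOn_symm_of_mem_maximalAtlas (I := 𝓡 4) (n := ∞) hψ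
  exact hu.comp_contMDiffOn h2

end

theorem thm_N3 (n2 : claimN2) (n1 : claimN1) (h5 : claimL5) (h3 : claimL3) : claimN3 := by
  intro X _ _ _ g
  obtain ⟨-, hmet, -⟩ := n1 X g
  have hch : ∀ x : X, chartAt E4 x ∈ IsManifold.maximalAtlas (𝓡 4) ∞ X := fun x =>
    IsManifold.chart_mem_maximalAtlas x
  have hsrc : ∀ x : X, x ∈ (chartAt E4 x).source := fun x => mem_chart_source E4 x
  refine ⟨?_, ?_, ?_, ?_⟩
  · intro x
    obtain ⟨-, -, -, h, -⟩ := h5.2 _ _ (hmet _ (hch x))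
    exact N3_smoothAt (hch x) (hsrc x) h fun z hz => (n2 X g _ (hch x) z hz).1
  · intro x
    obtain ⟨-, -, -, -, h, -⟩ := h5.2 _ _ (hmet _ (hch x))
    exact N3_smoothAt (hch x) (hsrc x) h fun z hz => (n2 X g _ (hch x) z hz).2.1
  · intro x
    rw [(n2 X g _ (hch x) x (hsrc x)).2.1]
    exact (h3.2.2 _ _ (hmet _ (hch x)) _ ((chartAt E4 x).map_source (hsrc x))).2
  · intro u v hu hv
    have hgrad : ∀ w w' : X → ℝ, ContMDiff (𝓡 4) 𝓘(ℝ, ℝ) ∞ w →
        ContMDiff (𝓡 4) 𝓘(ℝ, ℝ) ∞ w' → ContMDiff (𝓡 4) 𝓘(ℝ, ℝ) ∞ (g.gradIn w w') := by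
      intro w w' hw hw' x
      have hws := N3_smoothOn (hch x) hw
      have hws' := N3_smoothOn (hch x) hw'
      obtain ⟨-, -, -, -, -, -, h⟩ := h5.2 _ _ (hmet _ (hch x))
      refine N3_smoothAt (hch x) (hsrc x) (h _ _ hws hws').2 fun z hz => ?_
      have hn := (chartAt E4 x).open_target.mem_nhds ((chartAt E4 x).map_source hz)
      exact (n2 X g _ (hch x) z hz).2.2.2.1 w w'
        (((hws _ ((chartAt E4 x).map_source hz)).contDiffAt hn).differentiableAt (by simp))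
        (((hws' _ ((chartAt E4 x).map_source hz)).contDiffAt hn).differentiableAt (by simp))
    refine ⟨?_, hgrad u v hu hv, hgrad u u hu hu, ?_⟩
    · intro x
      have hus := N3_smoothOn (hch x) hu
      obtain ⟨-, -, -, -, -, -, h⟩ := h5.2 _ _ (hmet _ (hch x))
      refine N3_smoothAt (hch x) (hsrc x) (h _ _ hus hus).1 fun z hz => ?_
      have hn := (chartAt E4 x).open_target.mem_nhds ((chartAt E4 x).map_source hz)
      exact (n2 X g _ (hch x) z hz).2.2.1 u
        (contDiffAt_infty.1 ((hus _ ((chartAt E4 x).map_source hz)).contDiffAt hn) 2)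
    · intro x
      have hpd : (g.coef (chAt x) (chartAt E4 x x)).PosDef :=
        g.posDef (chAt x) _ ((chartAt E4 x).map_source (hsrc x))
      exact h3.2.1 _ (fun i => pd i (u ∘ (chartAt E4 x).symm) (chartAt E4 x x)) hpd.inv

end NRF

end
end

section

open scoped Manifold ContDiff Topology
open MeasureTheory Set

namespace NRF

/-- The interface `claimNat` of `Stmts_B.lean` from module A. -/
theorem claimNat_proof (l0 : claimL0) (l1 : claimL1) : claimNat := by
  intro G G' τ U U' hU hU' hτ hm hs hp hd hG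
  have hM : MetOn U' G' := ⟨hU', hs, hp⟩
  obtain ⟨-, h1⟩ := l1 U U' τ G' hU hM hm hτ hd
  have he : EqOn G (pullM τ G') U := by
    intro y hy
    ext i j
    rw [hG y hy i j]
    rfl
  refine ⟨fun y hy => ?_, fun y hy => ?_, fun y hy i j => ?_, fun u y hy hu => ?_⟩
  · obtain ⟨-, -, h3, -⟩ := l0 U G (pullM τ G') 0 0 0 0 hU he (fun _ _ => rfl) (fun _ _ => rfl) y hy
    rw [h3]
    exact (h1 y hy).2.2.1
  · obtain ⟨-, -, -, h4, -⟩ :=
      l0 U G (pullM τ G') 0 0 0 0 hU he (fun _ _ => rfl) (fun _ _ => rfl) y hy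
    rw [h4]
    exact (h1 y hy).2.2.2.1
  · obtain ⟨-, h2, -⟩ := l0 U G (pullM τ G') 0 0 0 0 hU he (fun _ _ => rfl) (fun _ _ => rfl) y hy
    rw [h2, (h1 y hy).2.1 i j]
    rfl
  · obtain ⟨-, -, -, -, -, -, h7⟩ := l0 U G (pullM τ G') (u ∘ τ) (u ∘ τ) (u ∘ τ) (u ∘ τ) hU he
      (fun _ _ => rfl) (fun _ _ => rfl) y hy
    have h8 := (h1 y hy).2.2.2.2.2 u u hu hu
    rw [← gradInC_self, ← gradInC_self]
    exact h7.trans h8

end NRF

end

section

open scoped Manifold ContDiff Topology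
open MeasureTheory Set

namespace NRF

theorem thm_ScalCh (n2 : claimN2) (n3 : claimN3) : claimScalCh := by
  intro X _ _ _ g
  obtain ⟨h1, h2, -, -⟩ := n3 X g
  refine ⟨?_, h1.continuous, h2.continuous⟩
  intro ψ hψ y hy
  have hx : ψ.symm y ∈ ψ.source := ψ.map_target hy
  obtain ⟨a1, a2, -, -, a5⟩ := n2 X g ψ hψ (ψ.symm y) hx
  have hr : ψ (ψ.symm y) = y := ψ.right_inv hy
  rw [hr] at a1 a2 a5
  exact ⟨a1, a2, fun u hu => a5 u hu⟩

end NRF

end

section

/-!
# Module F: facts on the normalised Ricci flow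
Everything for positive times only.
-/

open scoped Manifold ContDiff Topology
open MeasureTheory Set

noncomputable section

namespace NRF

/-- The flow in a chart of the maximal atlas (positive times). -/
def claimF0 : Prop :=
  ∀ (X : Type) [TopologicalSpace X] [ChartedSpace E4 X] [IsManifold (𝓡 4) ∞ X]
    [MeasurableSpace X] [BorelSpace X] (g : ℝ → Metric X), IsNormalizedRicciFlow g →
    ∀ ψ ∈ IsManifold.maximalAtlas (𝓡 4) ∞ X,
      FlowOn (Ioi 0 ×ˢ ψ.target) (fun t => (g t).mcoef ψ) (fun t => (g t).meanScal / 2)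

/-- A function on `(0,∞) × X` is smooth in all charts. -/
def SmoothTX {X : Type} [TopologicalSpace X] [ChartedSpace E4 X] (n : ℕ∞ω) (F : ℝ → X → ℝ) : Prop :=
  ∀ e : Ch X, ContDiffOn ℝ n (fun p : ℝ × E4 => F p.1 (e.1.symm p.2)) (Ioi 0 ×ˢ e.1.target)

/-- Scalar functions along the flow: smoothness and the evolution of the scalar curvature. -/
def claimF1 : Prop :=
  ∀ (X : Type) [TopologicalSpace X] [ChartedSpace E4 X] [IsManifold (𝓡 4) ∞ X]
    [MeasurableSpace X] [BorelSpace X] (g : ℝ → Metric X), IsNormalizedRicciFlow g →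
    SmoothTX ∞ (fun t => (g t).scal) ∧ SmoothTX ∞ (fun t => (g t).ric0Sq) ∧
    ∀ t > 0, ∀ x, HasDerivAt (fun s => (g s).scal x)
      ((g t).lapl (g t).scal x + 2 * (g t).ric0Sq x +
        (g t).scal x * ((g t).scal x - (g t).meanScal) / 2) t

/-- Continuity on `(0,∞) × X` and slices of a function smooth in all charts. -/
def claimF2 : Prop :=
  ∀ (X : Type) [TopologicalSpace X] [ChartedSpace E4 X] [IsManifold (𝓡 4) ∞ X]
    (F : ℝ → X → ℝ) (n : ℕ∞ω), SmoothTX n F →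
    ContinuousOn (fun p : ℝ × X => F p.1 p.2) (Ioi 0 ×ˢ univ) ∧
    (∀ t > 0, ContMDiff (𝓡 4) 𝓘(ℝ, ℝ) n (F t)) ∧
    (∀ x, ContDiffOn ℝ n (fun t => F t x) (Ioi 0)) ∧
    (n = ∞ → SmoothTX ∞ (fun t x => deriv (fun s => F s x) t))

/-- Derivative of integrals along the flow. -/
def claimF3 : Prop :=
  ∀ (X : Type) [TopologicalSpace X] [T2Space X] [CompactSpace X] [ChartedSpace E4 X]
    [IsManifold (𝓡 4) ∞ X] [MeasurableSpace X] [BorelSpace X] (g : ℝ → Metric X),
    IsNormalizedRicciFlow g → ∀ F : ℝ → X → ℝ, SmoothTX ∞ F →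
    ∀ t > 0, HasDerivAt (fun s => ∫ x, F s x ∂(g s).vol)
      (∫ x, (deriv (fun s => F s x) t + ((g t).meanScal - (g t).scal x) * F t x) ∂(g t).vol) t

/-- Volume, mean scalar curvature and its integrals along the flow. -/
def claimF4 : Prop :=
  ∀ (X : Type) [TopologicalSpace X] [T2Space X] [CompactSpace X] [ConnectedSpace X]
    [ChartedSpace E4 X] [IsManifold (𝓡 4) ∞ X] [MeasurableSpace X] [BorelSpace X]
    (g : ℝ → Metric X), IsNormalizedRicciFlow g →
    (∀ t > 0, (g t).volume = (g 1).volume) ∧ 0 < (g 1).volume ∧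
    (∀ t > 0, ∫ x, (g t).scal x ∂(g t).vol = (g t).meanScal * (g 1).volume) ∧
    ContinuousOn (fun t => (g t).meanScal) (Ioi 0) ∧
    ContinuousOn (fun t => ∫ x, (g t).ric0Sq x ∂(g t).vol) (Ioi 0) ∧
    ContinuousOn (fun t => ∫ x, ((g t).scal x - (g t).meanScal) ^ 2 ∂(g t).vol) (Ioi 0) ∧
    ∀ t > 0, HasDerivAt (fun s => ∫ x, (g s).scal x ∂(g s).vol)
      (2 * ∫ x, (g t).ric0Sq x ∂(g t).vol -
        (1 / 2) * ∫ x, ((g t).scal x - (g t).meanScal) ^ 2 ∂(g t).vol) t

/-- Laplacian at a minimum. -/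
def claimF5 : Prop :=
  ∀ (X : Type) [TopologicalSpace X] [ChartedSpace E4 X] [IsManifold (𝓡 4) ∞ X] (g : Metric X)
    (u : X → ℝ) (x : X), ContMDiff (𝓡 4) 𝓘(ℝ, ℝ) ∞ u → (∀ z, u x ≤ u z) → 0 ≤ g.lapl u x

/-- Abstract minimum principle (Hamilton's trick): lower bound for the growth of
`m t = min_x S (t, x)`. -/
def claimF6 : Prop :=
  ∀ (X : Type) [TopologicalSpace X] [CompactSpace X] [Nonempty X] (S S' : ℝ → X → ℝ)
    (f : ℝ → ℝ), ContinuousOn (fun p : ℝ × X => S p.1 p.2) (Ioi 0 ×ˢ univ) →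
    (∀ t > 0, ∀ x, HasDerivAt (fun s => S s x) (S' t x) t) → ContinuousOn f (Ioi 0) →
    (∀ t > 0, ∀ x, (∀ z, S t x ≤ S t z) → f t ≤ S' t x) →
    ContinuousOn (fun t => ⨅ x, S t x) (Ioi 0) ∧
    ∀ a b, 0 < a → a ≤ b → (∫ t in a..b, f t) ≤ (⨅ x, S b x) - ⨅ x, S a x

/-- `min s ≤ λ_g` and `λ_g vol^(1/2) ≤ λ-bar`. -/
def claimF7 : Prop :=
  ∀ (X : Type) [TopologicalSpace X] [T2Space X] [CompactSpace X] [ConnectedSpace X]
    [ChartedSpace E4 X] [IsManifold (𝓡 4) ∞ X] [MeasurableSpace X] [BorelSpace X],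
    lamBar X < 0 → ∃ ε > 0, ∀ g : Metric X, (⨅ x, g.scal x) * Real.sqrt g.volume ≤ -ε

/-- Real analysis: the final step. `V` volume, `C` the bound of `|s|`, `m` minimum, `sb` mean,
`q` the integral of `|Ric₀|²`, `v` the integral of `(s - sb)²`, `I` the integral of `s`. -/
def claimF8 : Prop :=
  ∀ (V C c : ℝ) (m sb q v I : ℝ → ℝ), 0 < V → 0 < c →
    ContinuousOn m (Ioi 0) → ContinuousOn sb (Ioi 0) → ContinuousOn q (Ioi 0) →
    ContinuousOn v (Ioi 0) →
    (∀ t > 0, -C ≤ m t ∧ m t ≤ -c ∧ m t ≤ sb t ∧ 0 ≤ q t ∧ I t = sb t * V ∧ |I t| ≤ C * V ∧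
      v t ≤ 4 * C * V * (sb t - m t)) →
    (∀ a b, 0 < a → a ≤ b → (∫ t in a..b, c / 2 * (sb t - m t)) ≤ m b - m a) →
    (∀ t > 0, HasDerivAt I (2 * q t - (1 / 2) * v t) t) →
    ∃ m0 : ℝ, m0 < 0 ∧ (∀ ε > 0, ∃ t0 > 0, ∀ t, t0 ≤ t → m0 - ε ≤ sb t) ∧
      (∀ ε > 0, ∃ t, 0 < t ∧ |sb t - m0| < ε ∧ q t < ε)

/-- Facts about the normalised Ricci flow, positive times (`claimFlow` of `Top.lean`). -/
def claimFlowPos : Prop :=
  ∀ (X : Type) [TopologicalSpace X] [T2Space X] [CompactSpace X] [ConnectedSpace X]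
    [ChartedSpace E4 X] [IsManifold (𝓡 4) ∞ X] [MeasurableSpace X] [BorelSpace X],
    OrientedAtlas X → lamBar X < 0 → ∀ g : ℝ → Metric X, IsQuasiNonSingular g →
    ∃ V m : ℝ, 0 < V ∧ m < 0 ∧ (∀ t, 0 < t → (g t).volume = V) ∧
      (∀ ε > 0, ∃ t0 > 0, ∀ t, t0 ≤ t → m - ε ≤ (g t).meanScal) ∧
      (∀ ε > 0, ∃ t, 0 < t ∧ |(g t).meanScal - m| < ε ∧ ∫ x, (g t).ric0Sq x ∂(g t).vol < ε)

end NRF

end
end
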