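import Pool.Agent.Work.MP_7f974f_gt.Stmts_D1
import Pool.Agent.Work.MP_7f974f_gt.Bd.B03
import Pool.Agent.Work.MP_7f974f_gt.Stmts_E
import Pool.Agent.Work.MP_7f974f_gt.LF1
import Pool.Agent.Work.MP_7f974f_gt.Stmts_E2

/-! Bundle of small proof modules (one section per former module). -/

section

/-!
# Item D1a: the matrix of all minors
-/

set_option autoImplicit false

noncomputable section

namespace NRF

section D1a

variable {R : Type} [CommRing R]

theorem D1a_LamM_of_card (A : Matrix (Fin 4) (Fin 4) R) (s t : Lam) (k : ℕ) (h1 : s.card = k)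
    (h2 : t.card = k) :
    LamM A s t = (A.submatrix (s.orderEmbOfFin h1) (t.orderEmbOfFin h2)).det := by
  subst h1
  simp only [LamM, Matrix.of_apply]
  rw [dif_pos h2.symm]

theorem D1a_LamM_ne (A : Matrix (Fin 4) (Fin 4) R) (s t : Lam) (h : s.card ≠ t.card) :
    LamM A s t = 0 := by
  simp [LamM, h]

theorem D1a_eps_apply (a : Fin 4) (s t : Lam) :
    eps R a s t = if a ∉ t ∧ s = insert a t then (-1) ^ (t.filter (· < a)).card else 0 := by
  simp only [eps, epsZ, Matrix.map_apply, Matrix.of_apply]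
  split_ifs
  · push_cast; rfl
  · simp

theorem D1a_mul_eps (M : Matrix Lam Lam R) (a : Fin 4) (s t : Lam) :
    (M * eps R a) s t =
      if a ∈ t then 0 else (-1) ^ (t.filter (· < a)).card * M s (insert a t) := by
  rw [Matrix.mul_apply]
  by_cases h : a ∈ t
  · rw [if_pos h]
    apply Finset.sum_eq_zero
    intro u _
    rw [D1a_eps_apply, if_neg (fun h' => h'.1 h), mul_zero]
  · rw [if_neg h, Finset.sum_eq_single (insert a t)]
    · rw [D1a_eps_apply, if_pos ⟨h, rfl⟩, mul_comm]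
    · intro u _ hu
      rw [D1a_eps_apply, if_neg (fun h' => hu h'.2), mul_zero]
    · intro h'; exact absurd (Finset.mem_univ _) h'

theorem D1a_eps_mul (M : Matrix Lam Lam R) (b : Fin 4) (s t : Lam) :
    (eps R b * M) s t =
      if b ∈ s then (-1) ^ ((s.erase b).filter (· < b)).card * M (s.erase b) t else 0 := by
  rw [Matrix.mul_apply]
  by_cases h : b ∈ s
  · rw [if_pos h, Finset.sum_eq_single (s.erase b)]
    · rw [D1a_eps_apply, if_pos ⟨Finset.notMem_erase b s, (Finset.insert_erase h).symm⟩]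
    · intro u _ hu
      rw [D1a_eps_apply, if_neg, zero_mul]
      rintro ⟨h1, h2⟩
      apply hu
      rw [h2, Finset.erase_insert h1]
    · intro h'; exact absurd (Finset.mem_univ _) h'
  · rw [if_neg h]
    apply Finset.sum_eq_zero
    intro u _
    rw [D1a_eps_apply, if_neg, zero_mul]
    rintro ⟨h1, h2⟩
    apply h
    rw [h2]
    exact Finset.mem_insert_self _ _

theorem D1a_card_erase {s : Lam} {k : ℕ} (h : s.card = k + 1) (i : Fin (k + 1)) :
    (s.erase (s.orderEmbOfFin h i)).card = k := by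
  rw [Finset.card_erase_of_mem (Finset.orderEmbOfFin_mem s h i), h]
  rfl

theorem D1a_emb_erase {s : Lam} {k : ℕ} (h : s.card = k + 1) (i : Fin (k + 1)) :
    ((s.erase (s.orderEmbOfFin h i)).orderEmbOfFin (D1a_card_erase h i) : Fin k → Fin 4) =
      fun x => s.orderEmbOfFin h (i.succAbove x) := by
  symm
  apply Finset.orderEmbOfFin_unique
  · intro x
    rw [Finset.mem_erase]
    refine ⟨?_, Finset.orderEmbOfFin_mem s h _⟩
    intro h'
    exact Fin.succAbove_ne i x ((s.orderEmbOfFin h).injective h')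
  · intro x y hxy
    exact (s.orderEmbOfFin h).strictMono (Fin.strictMono_succAbove i hxy)

theorem D1a_rank {s : Lam} {k : ℕ} (h : s.card = k + 1) (i : Fin (k + 1)) :
    ((s.erase (s.orderEmbOfFin h i)).filter (· < s.orderEmbOfFin h i)).card = (i : ℕ) := by
  have h1 : (s.erase (s.orderEmbOfFin h i)).filter (· < s.orderEmbOfFin h i) =
      (Finset.Iio i).map (s.orderEmbOfFin h).toEmbedding := by
    ext x
    simp only [Finset.mem_filter, Finset.mem_erase, Finset.mem_map, Finset.mem_Iio,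
      RelEmbedding.coe_toEmbedding]
    constructor
    · rintro ⟨⟨_, hx⟩, hlt⟩
      have : x ∈ Set.range (s.orderEmbOfFin h) := by
        rw [Finset.range_orderEmbOfFin]; exact hx
      obtain ⟨j, rfl⟩ := this
      exact ⟨j, (s.orderEmbOfFin h).lt_iff_lt.1 hlt, rfl⟩
    · rintro ⟨j, hj, rfl⟩
      have hlt := (s.orderEmbOfFin h).strictMono hj
      exact ⟨⟨ne_of_lt hlt, Finset.orderEmbOfFin_mem s h j⟩, hlt⟩
  rw [h1, Finset.card_map, Fin.card_Iio]

/-- sums over the members of a set as sums over positions -/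
theorem D1a_sum {s : Lam} {k : ℕ} (h : s.card = k + 1) (F : Fin 4 → R) :
    ∑ b ∈ s, F b = ∑ i : Fin (k + 1), F (s.orderEmbOfFin h i) := by
  rw [← Finset.sum_coe_sort]
  exact (Fintype.sum_equiv (s.orderIsoOfFin h).toEquiv _ _ (fun i => rfl)).symm

/-- the right hand side of (4) -/
theorem D1a_rhs (A : Matrix (Fin 4) (Fin 4) R) (a : Fin 4) (s t : Lam) :
    ((∑ b, A b a • eps R b) * LamM A) s t =
      ∑ b ∈ s, A b a * ((-1) ^ ((s.erase b).filter (· < b)).card * LamM A (s.erase b) t) := by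
  rw [Finset.sum_mul, Matrix.sum_apply]
  simp only [Matrix.smul_mul, Matrix.smul_apply, D1a_eps_mul, smul_eq_mul]
  rw [← Finset.sum_filter_add_sum_filter_not Finset.univ (fun b => b ∈ s)]
  have h1 : (Finset.univ : Finset (Fin 4)).filter (fun b => b ∈ s) = s := by
    ext x; simp
  rw [h1]
  have h2 : ∑ x ∈ (Finset.univ : Finset (Fin 4)).filter (fun b => ¬ b ∈ s),
      A x a * (if x ∈ s then (-1) ^ ((s.erase x).filter (· < x)).card * LamM A (s.erase x) t
        else 0) = 0 := by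
    apply Finset.sum_eq_zero
    intro x hx
    rw [Finset.mem_filter] at hx
    rw [if_neg hx.2, mul_zero]
  rw [h2, add_zero]
  apply Finset.sum_congr rfl
  intro x hx
  rw [if_pos hx]

/-- the right hand side as a determinant -/
theorem D1a_rhs_det (A : Matrix (Fin 4) (Fin 4) R) (a : Fin 4) (s t : Lam) (k : ℕ)
    (h1 : s.card = k + 1) (h2 : t.card = k) :
    ((∑ b, A b a • eps R b) * LamM A) s t =
      ∑ i : Fin (k + 1), (-1) ^ (i : ℕ) * A (s.orderEmbOfFin h1 i) a *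
        (A.submatrix (fun x => s.orderEmbOfFin h1 (i.succAbove x)) (t.orderEmbOfFin h2)).det := by
  rw [D1a_rhs, D1a_sum h1]
  apply Finset.sum_congr rfl
  intro i _
  rw [D1a_rank h1 i, D1a_LamM_of_card A _ t k (D1a_card_erase h1 i) h2, D1a_emb_erase h1 i]
  ring

theorem D1a_four (A : Matrix (Fin 4) (Fin 4) R) (a : Fin 4) :
    LamM A * eps R a = (∑ b, A b a • eps R b) * LamM A := by
  ext s t
  rw [D1a_mul_eps]
  by_cases hc : s.card = t.card + 1
  · by_cases ha : a ∈ t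
    · rw [if_pos ha, D1a_rhs_det A a s t t.card hc rfl]
      -- determinant with two equal columns
      have h3 := Matrix.det_succ_column_zero
        (A.submatrix (s.orderEmbOfFin hc) (Fin.cons a (t.orderEmbOfFin rfl) : Fin (t.card + 1) → Fin 4))
      have h4 : (A.submatrix (s.orderEmbOfFin hc)
          (Fin.cons a (t.orderEmbOfFin rfl) : Fin (t.card + 1) → Fin 4)).det = 0 := by
        have : a ∈ Set.range (t.orderEmbOfFin rfl) := by
          rw [Finset.range_orderEmbOfFin]; exact ha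
        obtain ⟨j, hj⟩ := this
        refine Matrix.det_zero_of_column_eq (Fin.succ_ne_zero j).symm ?_
        intro i
        simp [Matrix.submatrix_apply, hj]
      rw [h4] at h3
      rw [h3]
      apply Finset.sum_congr rfl
      intro i _
      rfl
    · rw [if_neg ha, D1a_rhs_det A a s t t.card hc rfl]
      have hc2 : (insert a t).card = t.card + 1 := Finset.card_insert_of_notMem ha
      have : a ∈ Set.range ((insert a t).orderEmbOfFin hc2) := by
        rw [Finset.range_orderEmbOfFin]; exact Finset.mem_coe.2 (Finset.mem_insert_self a t)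
      obtain ⟨j, hj⟩ := this
      have hr := D1a_rank hc2 j
      rw [hj, Finset.erase_insert ha] at hr
      rw [hr, D1a_LamM_of_card A s (insert a t) _ hc hc2, Matrix.det_succ_column _ j,
        Finset.mul_sum]
      apply Finset.sum_congr rfl
      intro i _
      have he : (fun x => (insert a t).orderEmbOfFin hc2 (j.succAbove x)) =
          (t.orderEmbOfFin rfl : Fin t.card → Fin 4) := by
        apply Finset.orderEmbOfFin_unique
        · intro x
          have hx := Finset.orderEmbOfFin_mem (insert a t) hc2 (j.succAbove x)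
          rw [Finset.mem_insert] at hx
          rcases hx with hx | hx
          · exfalso
            exact Fin.succAbove_ne j x
              (((insert a t).orderEmbOfFin hc2).injective (hx.trans hj.symm))
          · exact hx
        · intro x y hxy
          exact ((insert a t).orderEmbOfFin hc2).strictMono (Fin.strictMono_succAbove j hxy)
      have hsub : ((A.submatrix (s.orderEmbOfFin hc) ((insert a t).orderEmbOfFin hc2)).submatrix
          i.succAbove j.succAbove) =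
          A.submatrix (fun x => s.orderEmbOfFin hc (i.succAbove x)) (t.orderEmbOfFin rfl) := by
        rw [← he]; rfl
      rw [hsub, Matrix.submatrix_apply, hj, pow_add]
      have hs : ((-1 : R) ^ (j : ℕ)) * (-1) ^ (j : ℕ) = 1 := by
        rw [← mul_pow]; simp
      linear_combination ((-1 : R) ^ (i : ℕ) * A (s.orderEmbOfFin hc i) a *
        (A.submatrix (fun x => s.orderEmbOfFin hc (i.succAbove x)) (t.orderEmbOfFin rfl)).det) * hs
  · have h0 : ((∑ b, A b a • eps R b) * LamM A) s t = 0 := by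
      rw [D1a_rhs]
      apply Finset.sum_eq_zero
      intro b hb
      rw [D1a_LamM_ne, mul_zero, mul_zero]
      rw [Finset.card_erase_of_mem hb]
      have : 0 < s.card := Finset.card_pos.2 ⟨b, hb⟩
      omega
    rw [h0]
    split_ifs with ha
    · rfl
    · rw [D1a_LamM_ne, mul_zero]
      rw [Finset.card_insert_of_notMem ha]
      exact hc

/-- uniqueness -/
theorem D1a_uniq (M1 M2 : Matrix Lam Lam R) (C : Matrix (Fin 4) (Fin 4) R)
    (h0 : ∀ s, M1 s ∅ = M2 s ∅) (h1 : ∀ a, M1 * eps R a = (∑ b, C b a • eps R b) * M1)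
    (h2 : ∀ a, M2 * eps R a = (∑ b, C b a • eps R b) * M2) : M1 = M2 := by
  have key : ∀ n : ℕ, ∀ t : Lam, t.card = n → ∀ s, M1 s t = M2 s t := by
    intro n
    induction n with
    | zero =>
      intro t ht s
      rw [Finset.card_eq_zero.1 ht]
      exact h0 s
    | succ n ih =>
      intro t ht s
      have hne : t.Nonempty := Finset.card_pos.1 (by omega)
      set a := t.min' hne with ha
      have hat : a ∈ t := Finset.min'_mem t hne
      have hc : (t.erase a).card = n := by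
        rw [Finset.card_erase_of_mem hat, ht]; rfl
      have hn : a ∉ t.erase a := Finset.notMem_erase a t
      have e1 := D1a_mul_eps M1 a s (t.erase a)
      have e2 := D1a_mul_eps M2 a s (t.erase a)
      rw [if_neg hn, Finset.insert_erase hat] at e1 e2
      have hf : (t.erase a).filter (· < a) = ∅ := by
        rw [Finset.filter_eq_empty_iff]
        intro x hx
        rw [not_lt]
        exact Finset.min'_le t x (Finset.mem_of_mem_erase hx)
      rw [hf, Finset.card_empty, pow_zero, one_mul] at e1 e2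
      rw [← e1, ← e2, h1, h2, Matrix.mul_apply, Matrix.mul_apply]
      apply Finset.sum_congr rfl
      intro u _
      rw [ih (t.erase a) hc u]
  ext s t
  exact key t.card t rfl s

theorem D1a_empty (A : Matrix (Fin 4) (Fin 4) R) (s : Lam) :
    LamM A s ∅ = if s = ∅ then 1 else 0 := by
  by_cases h : s = ∅
  · subst h
    rw [if_pos rfl, D1a_LamM_of_card A ∅ ∅ 0 rfl rfl, Matrix.det_fin_zero]
  · rw [if_neg h, D1a_LamM_ne]
    rw [Finset.card_empty]
    intro h'
    exact h (Finset.card_eq_zero.1 h')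

theorem D1a_one : LamM (1 : Matrix (Fin 4) (Fin 4) R) = 1 := by
  refine D1a_uniq _ _ 1 ?_ (fun a => D1a_four 1 a) ?_
  · intro s
    rw [D1a_empty, Matrix.one_apply]
  · intro a
    rw [one_mul, mul_one]
    rw [Finset.sum_eq_single a]
    · simp
    · intro b _ hb
      rw [Matrix.one_apply_ne hb, zero_smul]
    · intro h; exact absurd (Finset.mem_univ _) h

theorem D1a_mul (A B : Matrix (Fin 4) (Fin 4) R) : LamM (A * B) = LamM A * LamM B := by
  refine D1a_uniq _ _ (A * B) ?_ (fun a => D1a_four (A * B) a) ?_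
  · intro s
    rw [D1a_empty, Matrix.mul_apply, Finset.sum_eq_single ∅]
    · rw [D1a_empty, D1a_empty, if_pos rfl, mul_one]
    · intro u _ hu
      rw [D1a_empty B, if_neg hu, mul_zero]
    · intro h; exact absurd (Finset.mem_univ _) h
  · intro a
    rw [Matrix.mul_assoc, D1a_four B a, ← Matrix.mul_assoc, Finset.mul_sum]
    have h1 : ∀ c : Fin 4, LamM A * B c a • eps R c =
        (∑ b, (A b c * B c a) • eps R b) * LamM A := by
      intro c
      rw [Matrix.mul_smul, D1a_four A c, ← Matrix.smul_mul, Finset.smul_sum]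
      congr 1
      apply Finset.sum_congr rfl
      intro b _
      rw [smul_smul, mul_comm]
    rw [Finset.sum_congr rfl (fun c _ => h1 c), ← Finset.sum_mul, Matrix.mul_assoc]
    congr 1
    rw [Finset.sum_comm]
    apply Finset.sum_congr rfl
    intro b _
    rw [← Finset.sum_smul, Matrix.mul_apply]

theorem D1a_transpose (A : Matrix (Fin 4) (Fin 4) R) :
    LamM A.transpose = (LamM A).transpose := by
  ext s t
  rw [Matrix.transpose_apply]
  by_cases h : s.card = t.card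
  · rw [D1a_LamM_of_card _ s t t.card h rfl, D1a_LamM_of_card _ t s t.card rfl h,
      ← Matrix.det_transpose]
    rfl
  · rw [D1a_LamM_ne _ s t h, D1a_LamM_ne _ t s (Ne.symm h)]

theorem D1a_diag (A : Matrix (Fin 4) (Fin 4) R) (g : ℕ → R) :
    LamM A * (Matrix.diagonal fun s : Lam => g s.card) =
      (Matrix.diagonal fun s : Lam => g s.card) * LamM A := by
  ext s t
  rw [Matrix.mul_diagonal, Matrix.diagonal_mul]
  by_cases h : s.card = t.card
  · rw [h, mul_comm]
  · rw [D1a_LamM_ne _ s t h, zero_mul, mul_zero]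

end D1a

theorem thm_LamA : claimLamA := by
  intro R _
  refine ⟨D1a_one, D1a_mul, D1a_transpose, D1a_four, ?_, ?_⟩
  · intro A k
    exact D1a_diag A (fun n => if n = k then 1 else 0)
  · intro A
    exact D1a_diag A (fun n => (-1) ^ n)

end NRF

end
end

section

/-!
# Item D1b: orthogonal matrices on the exterior and Clifford algebra
-/

noncomputable section

namespace NRF

open Matrix Finset

section

variable (R : Type) [CommRing R]

/-- The second Clifford multiplication `ε_a + ι_a`. -/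
def D1b_hc (a : Fin 4) : Matrix Lam Lam R := eps R a + iot R a

theorem D1b_hc_clf (a b : Fin 4) : clf R b * D1b_hc R a = -(D1b_hc R a * clf R b) := by
  have h1 := FR3_ee R a b
  have h2 := FR3_ii R a b
  have h3 := FR3_ei R a b
  have h4 := FR3_ei R b a
  have h5 : D1b_hc R a * clf R b + clf R b * D1b_hc R a =
      (eps R a * eps R b + eps R b * eps R a) - (iot R a * iot R b + iot R b * iot R a)
      - (eps R a * iot R b + iot R b * eps R a) + (eps R b * iot R a + iot R a * eps R b) := by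
    unfold D1b_hc clf
    noncomm_ring
  have h6 : D1b_hc R a * clf R b + clf R b * D1b_hc R a = 0 := by
    rw [h5, h1, h2, h3, h4]
    by_cases h : a = b
    · subst h
      simp
    · rw [if_neg h, if_neg (Ne.symm h)]
      simp
  exact eq_neg_of_add_eq_zero_right h6

theorem D1b_hc_gam (a : Fin 4) : gam R * D1b_hc R a = D1b_hc R a * gam R :=
  FR3_move (D1b_hc R a) (clf R 0) (clf R 1) (clf R 2) (clf R 3) (D1b_hc_clf R a 0)
    (D1b_hc_clf R a 1) (D1b_hc_clf R a 2) (D1b_hc_clf R a 3)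

variable {R}

theorem D1b_mul_eps (M : Matrix Lam Lam R) (b : Fin 4) (s t : Lam) (hb : b ∉ t) :
    (M * eps R b) s t = M s (insert b t) * (-1) ^ (t.filter (· < b)).card := by
  rw [Matrix.mul_apply, Finset.sum_eq_single (insert b t)]
  · simp [eps, epsZ, hb]
  · intro u _ hu
    simp [eps, epsZ, hu]
  · intro h
    exact absurd (Finset.mem_univ _) h

theorem D1b_mul_iot (M : Matrix Lam Lam R) (b : Fin 4) (s t : Lam) (hb : b ∉ t) :
    (M * iot R b) s t = 0 := by
  rw [Matrix.mul_apply]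
  refine Finset.sum_eq_zero fun u _ => ?_
  have : ¬ (b ∉ u ∧ t = insert b u) := by
    rintro ⟨h1, rfl⟩
    exact hb (Finset.mem_insert_self _ _)
  have h2 : iot R b u t = 0 := by
    simp only [iot, eps, Matrix.transpose_apply, Matrix.map_apply, epsZ, Matrix.of_apply]
    rw [if_neg this, Int.cast_zero]
  rw [h2, mul_zero]

theorem D1b_mul_clf (M : Matrix Lam Lam R) (b : Fin 4) (s t : Lam) (hb : b ∉ t) :
    (M * clf R b) s t = M s (insert b t) * (-1) ^ (t.filter (· < b)).card := by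
  rw [clf, mul_sub, Matrix.sub_apply, D1b_mul_eps M b s t hb, D1b_mul_iot M b s t hb, sub_zero]

theorem D1b_mul_hc (M : Matrix Lam Lam R) (b : Fin 4) (s t : Lam) (hb : b ∉ t) :
    (M * D1b_hc R b) s t = M s (insert b t) * (-1) ^ (t.filter (· < b)).card := by
  rw [D1b_hc, mul_add, Matrix.add_apply, D1b_mul_eps M b s t hb, D1b_mul_iot M b s t hb, add_zero]

/-- A matrix which intertwines the second Clifford multiplication with something and kills the
vacuum is zero. -/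
theorem D1b_zero (M : Matrix Lam Lam R) (U : Fin 4 → Matrix Lam Lam R)
    (hM : ∀ a, M * D1b_hc R a = U a * M) (h0 : ∀ s, M s ∅ = 0) : M = 0 := by
  have key : ∀ t : Lam, ∀ s, M s t = 0 := by
    intro t
    induction t using Finset.induction_on with
    | empty => exact h0
    | insert a t hat ih =>
      intro s
      have h1 : (M * D1b_hc R a) s t = 0 := by
        rw [hM, Matrix.mul_apply]
        exact Finset.sum_eq_zero fun u _ => by rw [ih u, mul_zero]
      rw [D1b_mul_hc M a s t hat] at h1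
      have h2 : IsUnit ((-1 : R) ^ (t.filter (· < a)).card) := (isUnit_one.neg).pow _
      exact (h2.mul_left_eq_zero).mp h1
  ext s t
  exact key t s

theorem D1b_gam_empty (s : Lam) : gam R s ∅ = if s = Finset.univ then 1 else 0 := by
  have h3 : gam R s ∅ = (clf R 0 * clf R 1 * clf R 2) s {3} := by
    rw [gam, D1b_mul_clf _ _ _ _ (by decide)]
    simp
  have h2 : (clf R 0 * clf R 1 * clf R 2) s {3} = (clf R 0 * clf R 1) s {2, 3} := by
    rw [D1b_mul_clf _ _ _ _ (by decide)]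
    have : (Finset.filter (· < (2 : Fin 4)) {3}).card = 0 := by decide
    rw [this, pow_zero, mul_one]
  have h1 : (clf R 0 * clf R 1) s {2, 3} = clf R 0 s {1, 2, 3} := by
    rw [D1b_mul_clf _ _ _ _ (by decide)]
    have : (Finset.filter (· < (1 : Fin 4)) {2, 3}).card = 0 := by decide
    rw [this, pow_zero, mul_one]
  have h0 : clf R 0 s {1, 2, 3} = (1 : Matrix Lam Lam R) s Finset.univ := by
    rw [← one_mul (clf R 0), D1b_mul_clf _ _ _ _ (by decide)]
    have : (Finset.filter (· < (0 : Fin 4)) {1, 2, 3}).card = 0 := by decide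
    rw [this, pow_zero, mul_one]
    rfl
  rw [h3, h2, h1, h0, Matrix.one_apply]

theorem D1b_LamM_empty (A : Matrix (Fin 4) (Fin 4) R) (s : Lam) :
    LamM A s ∅ = if s = ∅ then 1 else 0 := by
  by_cases hs : s = ∅
  · subst hs
    rw [if_pos rfl]
    unfold LamM
    rw [Matrix.of_apply, dif_pos rfl]
    have : IsEmpty (Fin (∅ : Lam).card) := by
      rw [Finset.card_empty]
      infer_instance
    exact Matrix.det_isEmpty
  · rw [if_neg hs]
    unfold LamM
    rw [Matrix.of_apply, dif_neg]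
    rw [Finset.card_empty]
    intro h
    exact hs (Finset.card_eq_zero.mp h)

theorem D1b_LamM_univ (A : Matrix (Fin 4) (Fin 4) R) (s : Lam) :
    LamM A s Finset.univ = if s = Finset.univ then A.det else 0 := by
  by_cases hs : s = Finset.univ
  · subst hs
    rw [if_pos rfl]
    unfold LamM
    rw [Matrix.of_apply, dif_pos rfl]
    have hb : Function.Bijective ((Finset.univ : Lam).orderEmbOfFin rfl) := by
      rw [Fintype.bijective_iff_injective_and_card]
      exact ⟨((Finset.univ : Lam).orderEmbOfFin rfl).injective, by simp⟩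
    exact Matrix.det_submatrix_equiv_self (Equiv.ofBijective _ hb) A
  · rw [if_neg hs]
    unfold LamM
    rw [Matrix.of_apply, dif_neg]
    intro h
    exact hs ((Finset.card_eq_iff_eq_univ s).mp (by rw [h, Finset.card_univ]))

end

/-- Item D1b. -/
theorem thm_LamB (h : claimLamA) : claimLamB := by
  intro R _ _ A hA
  obtain ⟨l1, lmul, lT, leps, -, -⟩ := h R
  have hA' : A * A.transpose = 1 := mul_eq_one_comm.mp hA
  have e1 : (LamM A).transpose * LamM A = 1 := by rw [← lT, ← lmul, hA, l1]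
  have e2 : LamM A * (LamM A).transpose = 1 := by rw [← lT, ← lmul, hA', l1]
  have e3 : ∀ a, LamM A * iot R a = (∑ b, A b a • iot R b) * LamM A := by
    intro a
    have h1 := congrArg Matrix.transpose (leps A a)
    rw [Matrix.transpose_mul, Matrix.transpose_mul, Matrix.transpose_sum] at h1
    simp only [Matrix.transpose_smul] at h1
    have h2 : iot R a * (LamM A).transpose = (LamM A).transpose * ∑ b, A b a • iot R b := h1
    calc LamM A * iot R a = LamM A * (iot R a * (LamM A).transpose) * LamM A := by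
          rw [mul_assoc, mul_assoc, e1, mul_one]
      _ = (LamM A * (LamM A).transpose) * (∑ b, A b a • iot R b) * LamM A := by
          rw [h2]; simp only [mul_assoc]
      _ = (∑ b, A b a • iot R b) * LamM A := by rw [e2, one_mul]
  have e4 : ∀ a, LamM A * clf R a = (∑ b, A b a • clf R b) * LamM A := by
    intro a
    have h1 : ∑ b, A b a • clf R b = ∑ b, A b a • eps R b - ∑ b, A b a • iot R b := by
      rw [← Finset.sum_sub_distrib]
      exact Finset.sum_congr rfl fun b _ => by rw [clf, smul_sub]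
    rw [h1, sub_mul, ← leps, ← e3, clf, mul_sub]
  refine ⟨e1, e2, e3, e4, fun hdet => ?_⟩
  have e5 : ∀ a, LamM A * D1b_hc R a = (∑ b, A b a • D1b_hc R b) * LamM A := by
    intro a
    have h1 : ∑ b, A b a • D1b_hc R b = ∑ b, A b a • eps R b + ∑ b, A b a • iot R b := by
      rw [← Finset.sum_add_distrib]
      exact Finset.sum_congr rfl fun b _ => by rw [D1b_hc, smul_add]
    rw [h1, add_mul, ← leps, ← e3, D1b_hc, mul_add]
  have e6 : ∀ a, gam R * (∑ b, A b a • D1b_hc R b) = (∑ b, A b a • D1b_hc R b) * gam R := by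
    intro a
    rw [Finset.mul_sum, Finset.sum_mul]
    exact Finset.sum_congr rfl fun b _ => by
      rw [mul_smul_comm, smul_mul_assoc, D1b_hc_gam]
  rw [← sub_eq_zero]
  refine D1b_zero _ (fun a => ∑ b, A b a • D1b_hc R b) (fun a => ?_) (fun s => ?_)
  · rw [sub_mul, mul_sub, mul_assoc, D1b_hc_gam, ← mul_assoc, e5, mul_assoc, mul_assoc (gam R), e5,
      ← mul_assoc (gam R), e6, mul_assoc]
  · rw [Matrix.sub_apply, Matrix.mul_apply, Matrix.mul_apply,
      Finset.sum_eq_single (Finset.univ : Lam), Finset.sum_eq_single (∅ : Lam)]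
    · rw [D1b_gam_empty, D1b_LamM_univ, D1b_LamM_empty, D1b_gam_empty, hdet]
      simp
    · intro u _ hu
      rw [D1b_LamM_empty, if_neg hu, mul_zero]
    · intro hn
      exact absurd (Finset.mem_univ _) hn
    · intro u _ hu
      rw [D1b_gam_empty, if_neg hu, mul_zero]
    · intro hn
      exact absurd (Finset.mem_univ _) hn

end NRF

end
end

section

/-!
# Module E, item E1: coefficients of a model from its operator
-/

open scoped Manifold ContDiff Topology RealInnerProductSpace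
open MeasureTheory Set

noncomputable section

namespace NRF

theorem EI1_pd_const {F : Type} [NormedAddCommGroup F] [NormedSpace ℝ F] (i : Fin 4) (v : F)
    (y : E4) : pd i (fun _ => v) y = 0 := by
  unfold pd
  rw [fderiv_const_apply]
  rfl

theorem EI1_bv (i j : Fin 4) : (bv j : E4) i = if i = j then 1 else 0 := by
  unfold bv
  simp

theorem EI1_lin_hasFDerivAt {F : Type} [NormedAddCommGroup F] [NormedSpace ℝ F] (i : Fin 4)
    (z y : E4) (v : F) : HasFDerivAt (fun x : E4 => (x i - z i) • v)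
      ((EuclideanSpace.proj i : E4 →L[ℝ] ℝ).smulRight v) y := by
  have h1 : HasFDerivAt (fun x : E4 => x i - z i) (EuclideanSpace.proj i : E4 →L[ℝ] ℝ) y :=
    ((EuclideanSpace.proj i : E4 →L[ℝ] ℝ).hasFDerivAt).sub_const _
  exact h1.smul_const v

theorem EI1_pd_lin {F : Type} [NormedAddCommGroup F] [NormedSpace ℝ F] (i j : Fin 4)
    (z y : E4) (v : F) : pd j (fun x : E4 => (x i - z i) • v) y =
      (if i = j then (1 : ℝ) else 0) • v := by
  unfold pd
  rw [(EI1_lin_hasFDerivAt i z y v).fderiv]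
  simp [EI1_bv]

theorem EI1_contDiff_lin {F : Type} [NormedAddCommGroup F] [NormedSpace ℝ F] (i : Fin 4)
    (z : E4) (v : F) : ContDiff ℝ 2 (fun x : E4 => (x i - z i) • v) := by
  have h1 : ContDiff ℝ 2 (fun x : E4 => x i) := (EuclideanSpace.proj i : E4 →L[ℝ] ℝ).contDiff
  exact (h1.sub contDiff_const).smul contDiff_const

variable {V : Type} [NormedAddCommGroup V] [InnerProductSpace ℝ V] [FiniteDimensional ℝ V]

omit [FiniteDimensional ℝ V] in
theorem EI1_pd_apply {A : E4 → V →L[ℝ] V} {z : E4} (hA : DifferentiableAt ℝ A z) (k : Fin 4)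
    (v : V) : pd k (fun y => A y v) z = pd k A z v := by
  unfold pd
  have h1 : HasFDerivAt (fun y => A y v) ((fderiv ℝ A z).flip v) z := by
    have := hA.hasFDerivAt.clm_apply (hasFDerivAt_const v z)
    simpa using this
  rw [h1.fderiv]
  rfl

omit [FiniteDimensional ℝ V] in
theorem EI1_pd_mul {A : E4 → V →L[ℝ] V} {z : E4} (hA : DifferentiableAt ℝ A z) (i k : Fin 4)
    (v : V) : pd k (fun y => A y ((y i - z i) • v)) z = (if i = k then (1 : ℝ) else 0) • A z v := by
  unfold pd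
  have h1 := hA.hasFDerivAt.clm_apply (EI1_lin_hasFDerivAt i z z v)
  rw [h1.fderiv]
  simp only [sub_self, zero_smul, map_zero, add_zero, ContinuousLinearMap.comp_apply,
    ContinuousLinearMap.smulRight_apply, map_smul]
  congr 1
  exact EI1_bv i k

/-- Item E1. -/
theorem thm_OpCoef : claimOpCoef := by
  intro V _ _ _ m κ δ G A W hL hop t z hz
  obtain ⟨ha, hu⟩ := hop t z hz
  have hAd : ∀ i, DifferentiableAt ℝ (A i) z := fun i =>
    ((hL.A_smooth i).contDiffAt (Metric.isOpen_ball.mem_nhds hz)).differentiableAt (by simp)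
  have hsym : ∀ i j, (G z)⁻¹ i j = (G z)⁻¹ j i := by
    intro i j
    have h1 := (hL.met.posDef z hz).isHermitian.inv
    have h2 := h1.apply j i
    simpa using h2
  constructor
  · intro i
    ext v
    have h1 := hu (fun x : E4 => (x i - z i) • v) (EI1_contDiff_lin i z v).contDiffAt
    have e0 : ∀ j, pd j (fun x : E4 => (x i - z i) • v) =
        fun _ => (if i = j then (1 : ℝ) else 0) • v := fun j =>
      funext fun y => EI1_pd_lin i j z y v
    have l1 : m.op t (fun x : E4 => (x i - z i) • v) z = m.b (t, z) i v := by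
      unfold Model.op
      simp only [e0, EI1_pd_const, smul_zero, Finset.sum_const_zero, neg_zero, zero_add,
        sub_self, zero_smul, map_zero, add_zero]
      rw [Finset.sum_eq_single i]
      · simp
      · intro j _ hj
        simp [hj.symm]
      · simp
    have n1 : ∀ j y, nabE A j (fun x : E4 => (x i - z i) • v) y =
        (if i = j then (1 : ℝ) else 0) • v + A j y ((y i - z i) • v) := by
      intro j y
      unfold nabE
      rw [EI1_pd_lin]
    have n2 : ∀ j, nabE A j (fun x : E4 => (x i - z i) • v) z =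
        (if i = j then (1 : ℝ) else 0) • v := by
      intro j
      rw [n1]
      simp
    have n3 : ∀ k l, nabE A k (nabE A l (fun x : E4 => (x i - z i) • v)) z =
        (if i = k then (1 : ℝ) else 0) • A l z v + (if i = l then (1 : ℝ) else 0) • A k z v := by
      intro k l
      have e1 : nabE A l (fun x : E4 => (x i - z i) • v) = fun y =>
          (if i = l then (1 : ℝ) else 0) • v + A l y ((y i - z i) • v) := funext (n1 l)
      rw [e1]
      unfold nabE
      have hd : DifferentiableAt ℝ (fun y => A l y ((y i - z i) • v)) z :=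
        ((hAd l).hasFDerivAt.clm_apply (EI1_lin_hasFDerivAt i z z v)).differentiableAt
      have e2 : pd k (fun y => (if i = l then (1 : ℝ) else 0) • v + A l y ((y i - z i) • v)) z =
          pd k (fun y => A l y ((y i - z i) • v)) z := by
        unfold pd
        rw [fderiv_const_add]
      rw [e2, EI1_pd_mul (hAd l)]
      simp only [sub_self, zero_smul, map_zero, add_zero, map_smul]
    rw [l1] at h1
    rw [h1]
    simp only [n3, n2, sub_self, zero_smul, map_zero, add_zero]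
    simp only [add_apply, neg_apply,
      sum_apply, smul_apply, ContinuousLinearMap.id_apply]
    have s1 : ∑ k, ∑ l, (G z)⁻¹ k l • ((if i = k then (1 : ℝ) else 0) • A l z v +
        (if i = l then (1 : ℝ) else 0) • A k z v -
        ∑ j, chr G j k l z • (if i = j then (1 : ℝ) else 0) • v) =
        (∑ l, (G z)⁻¹ i l • A l z v) + (∑ k, (G z)⁻¹ k i • A k z v) -
        (∑ k, ∑ l, (G z)⁻¹ k l * chr G i k l z) • v := by
      have t1 : ∀ k l, (G z)⁻¹ k l • ((if i = k then (1 : ℝ) else 0) • A l z v +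
          (if i = l then (1 : ℝ) else 0) • A k z v -
          ∑ j, chr G j k l z • (if i = j then (1 : ℝ) else 0) • v) =
          (if i = k then (G z)⁻¹ k l • A l z v else 0) +
          (if i = l then (G z)⁻¹ k l • A k z v else 0) -
          ((G z)⁻¹ k l * chr G i k l z) • v := by
        intro k l
        have t2 : ∑ j, chr G j k l z • (if i = j then (1 : ℝ) else 0) • v = chr G i k l z • v := by
          rw [Finset.sum_eq_single i]
          · simp
          · intro j _ hj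
            simp [hj.symm]
          · simp
        rw [t2, smul_sub, smul_add, smul_smul ((G z)⁻¹ k l) (chr G i k l z)]
        congr 1
        congr 1
        · split_ifs <;> simp
        · split_ifs <;> simp
      simp only [t1, Finset.sum_sub_distrib, Finset.sum_add_distrib]
      congr 1
      · congr 1
        · rw [Finset.sum_eq_single i]
          · simp
          · intro k _ hk
            simp [hk.symm]
          · simp
        · refine Finset.sum_congr rfl fun k _ => ?_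
          rw [Finset.sum_ite_eq]
          simp
      · simp only [Finset.sum_smul]
    rw [s1]
    have s2 : ∑ l, (G z)⁻¹ i l • A l z v = ∑ k, (G z)⁻¹ k i • A k z v :=
      Finset.sum_congr rfl fun k _ => by rw [hsym i k]
    rw [s2]
    have s3 : ∑ k, (2 * (G z)⁻¹ k i) • A k z v =
        (∑ k, (G z)⁻¹ k i • A k z v) + ∑ k, (G z)⁻¹ k i • A k z v := by
      rw [← Finset.sum_add_distrib]
      refine Finset.sum_congr rfl fun k _ => ?_
      rw [two_mul, add_smul]
    rw [s3]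
    abel
  · ext v
    have h1 := hu (fun _ : E4 => v) contDiffAt_const
    have e0 : ∀ j, pd j (fun _ : E4 => v) = fun _ => 0 := fun j =>
      funext fun y => EI1_pd_const j v y
    have l1 : m.op t (fun _ : E4 => v) z = m.c (t, z) v := by
      unfold Model.op
      simp only [e0, EI1_pd_const, smul_zero, Finset.sum_const_zero, neg_zero, zero_add,
        map_zero]
    have n1 : ∀ j, nabE A j (fun _ : E4 => v) = fun y => A j y v := by
      intro j
      funext y
      unfold nabE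
      rw [EI1_pd_const, zero_add]
    have n3 : ∀ k l, nabE A k (nabE A l (fun _ : E4 => v)) z =
        pd k (A l) z v + A k z (A l z v) := by
      intro k l
      rw [n1 l]
      unfold nabE
      rw [EI1_pd_apply (hAd l)]
    rw [l1] at h1
    rw [h1]
    simp only [n3]
    simp only [n1]
    simp only [sub_apply, add_apply,
      sum_apply, smul_apply,
      ContinuousLinearMap.comp_apply]
    abel

end NRF

end
end

section

/-!
# Divergence form of the Laplacian
-/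

open scoped Manifold ContDiff Topology
open Set

noncomputable section

namespace NRF

namespace L4

theorem pd_diff {u : E4 → ℝ} {y : E4} (h : ContDiffAt ℝ 2 u y) (l : Fin 4) :
    DifferentiableAt ℝ (pd l u) y :=
  ((h.fderiv_right (m := 1) (by norm_num)).differentiableAt (by norm_num)).clm_apply
    (differentiableAt_const _)

theorem pd_mul {f g : E4 → ℝ} {z : E4} (hf : DifferentiableAt ℝ f z) (hg : DifferentiableAt ℝ g z)
    (i : Fin 4) : pd i (fun x => f x * g x) z = f z * pd i g z + pd i f z * g z := by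
  unfold pd
  rw [fderiv_fun_mul hf hg]
  simp only [add_apply, smul_apply, smul_eq_mul]
  ring

theorem pd_sum {f : Fin 4 → E4 → ℝ} {z : E4} (hf : ∀ l, DifferentiableAt ℝ (f l) z)
    (i : Fin 4) : pd i (fun x => ∑ l, f l x) z = ∑ l, pd i (f l) z := by
  unfold pd
  rw [fderiv_fun_sum fun l _ => hf l, sum_apply]

/-- The left side in terms of the 2-jet. -/
theorem lhs (s : E4 → ℝ) (H : E4 → Matrix (Fin 4) (Fin 4) ℝ) (u : E4 → ℝ) (y : E4)
    (hs : DifferentiableAt ℝ s y) (hH : ∀ k l, DifferentiableAt ℝ (fun z => H z k l) y)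
    (hu : ContDiffAt ℝ 2 u y) (k : Fin 4) :
    pd k (fun z => s z * ∑ l, H z k l * pd l u z) y =
      s y * (∑ l, (H y k l * pd k (pd l u) y + pd k (fun z => H z k l) y * pd l u y)) +
        pd k s y * ∑ l, H y k l * pd l u y := by
  have h1 : ∀ l, DifferentiableAt ℝ (fun z => H z k l * pd l u z) y := fun l =>
    (hH k l).mul (pd_diff hu l)
  rw [pd_mul (g := fun z => ∑ l, H z k l * pd l u z) hs (DifferentiableAt.fun_sum fun l _ => h1 l),
    pd_sum h1]
  simp only [pd_mul (hH k _) (pd_diff hu _)]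

end L4

open L4 LF1 in
theorem thm_L4 (h7 : claimDA7) (hj : claimJet) : claimL4 := by
  intro U G u hM y hy hu
  obtain ⟨v, hv, hv0, hv1, hv2⟩ := hj.1 u y hu
  have hG := smoothMet_static hM
  have hUy : U ∈ 𝓝 y := hM.isOpen.mem_nhds hy
  have h0 : ((0 : ℝ), y) ∈ (univ ×ˢ U : Set (ℝ × E4)) := ⟨mem_univ _, hy⟩
  have hincl : ContDiffOn ℝ ∞ (fun z : E4 => ((0 : ℝ), z)) U := (contDiff_prodMk_right _).contDiffOn
  have hmap : MapsTo (fun z : E4 => ((0 : ℝ), z)) U (univ ×ˢ U) := fun z hz => ⟨mem_univ _, hz⟩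
  have ds : DifferentiableAt ℝ (fun z => Real.sqrt (G z).det) y :=
    ((((sqrt_smooth hG).comp hincl hmap).differentiableOn (by simp)).differentiableAt hUy)
  have dH : ∀ k l, DifferentiableAt ℝ (fun z => (G z)⁻¹ k l) y := fun k l =>
    ((((hG.smooth_inv k l).comp hincl hmap).differentiableOn (by simp)).differentiableAt hUy)
  have hv' : ContDiffAt ℝ 2 v y := (hv.of_le (by
    exact ENat.LEInfty.out)).contDiffAt
  have e1 : ∑ k, pd k (fun z => Real.sqrt (G z).det * ∑ l, (G z)⁻¹ k l * pd l u z) y =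
      ∑ k, pd k (fun z => Real.sqrt (G z).det * ∑ l, (G z)⁻¹ k l * pd l v z) y := by
    refine Finset.sum_congr rfl fun k _ => ?_
    rw [lhs _ (fun z => (G z)⁻¹) u y ds dH hu k, lhs _ (fun z => (G z)⁻¹) v y ds dH hv' k]
    simp only [hv1, hv2]
  have e2 : laplC G u y = laplC G v y := by
    unfold laplC hessC
    simp only [hv1, hv2]
  rw [e1, e2]
  have hvs : ContDiffOn ℝ ∞ (fun p : ℝ × E4 => v p.2) (univ ×ˢ U) :=
    (hv.comp contDiff_snd).contDiffOn
  have rv : Rep (Ω := univ ×ˢ U) (SF.mk' _ hvs) (fun _ z => v z) := fun _ => rfl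
  have k1 := (h7 (Fin 4) (SF (univ ×ˢ U)) hG.geo (w hG) (w' hG) (ww hG) (ww' hG)).2.1
    (SF.mk' _ hvs)
  have r1 : Rep (∑ k, hG.geo.D k (w hG * ∑ l, hG.geo.h k l * hG.geo.D l (SF.mk' _ hvs)))
      (fun _ y => ∑ k, pd k (fun z => Real.sqrt (G z).det * ∑ l, (G z)⁻¹ k l * pd l v z) y) :=
    Rep.sum fun k _ => Rep.D hG ((repw hG).mul (Rep.sum fun l _ =>
      (Rep.h hG k l).mul (Rep.D hG rv l))) k
  have r2 : Rep (w hG * hG.geo.lap (SF.mk' _ hvs))
      (fun _ y => Real.sqrt (G y).det * laplC G v y) := (repw hG).mul (Rep.lap hG rv)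
  have a1 := r1 ⟨_, h0⟩
  have a2 := r2 ⟨_, h0⟩
  rw [k1] at a1
  exact a1.symm.trans a2

end NRF

end
end

section

/-!
# Item D4: divergence identities for `d + δ` and for `d`
-/

open scoped Manifold ContDiff Topology RealInnerProductSpace
open MeasureTheory Set

noncomputable section

namespace NRF

/-! ### Partial derivatives of pairings -/

theorem D4_pd_sum {ι : Type} (s : Finset ι) {f : ι → E4 → ℝ} {z : E4}
    (hf : ∀ l ∈ s, DifferentiableAt ℝ (f l) z) (i : Fin 4) :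
    pd i (fun x => ∑ l ∈ s, f l x) z = ∑ l ∈ s, pd i (f l) z := by
  unfold pd
  rw [fderiv_fun_sum hf, sum_apply]

theorem D4_pd_const_mul {f : E4 → ℝ} {z : E4} (c : ℝ) (hf : DifferentiableAt ℝ f z) (i : Fin 4) :
    pd i (fun x => c * f x) z = c * pd i f z := by
  have h := L4.pd_mul (f := fun _ => c) (g := f) (z := z) (differentiableAt_const c) hf i
  rw [h]
  have h0 : pd i (fun _ : E4 => c) z = 0 := by
    unfold pd
    simp
  rw [h0, zero_mul, add_zero]

/-- Partial derivatives of a vector valued function. -/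
def D4_pdv (i : Fin 4) (α : E4 → Lam → ℝ) (y : E4) : Lam → ℝ := fun s => pd i (fun z => α z s) y

theorem D4_diff_mulVec {M : Matrix Lam Lam ℝ} {α : E4 → Lam → ℝ} {y : E4}
    (ha : ∀ s, DifferentiableAt ℝ (fun z => α z s) y) (s : Lam) :
    DifferentiableAt ℝ (fun z => (M.mulVec (α z)) s) y := by
  have : (fun z => (M.mulVec (α z)) s) = fun z => ∑ t, M s t * α z t := rfl
  rw [this]
  exact DifferentiableAt.fun_sum (A := fun t z => M s t * α z t) fun t _ => (ha t).const_mul _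

theorem D4_pd_mulVec {M : Matrix Lam Lam ℝ} {α : E4 → Lam → ℝ} {y : E4}
    (ha : ∀ s, DifferentiableAt ℝ (fun z => α z s) y) (s : Lam) (i : Fin 4) :
    pd i (fun z => (M.mulVec (α z)) s) y = (M.mulVec (D4_pdv i α y)) s := by
  have : (fun z => (M.mulVec (α z)) s) = fun z => ∑ t, M s t * α z t := rfl
  rw [this, D4_pd_sum (f := fun t z => M s t * α z t) Finset.univ (fun t _ => (ha t).const_mul _)]
  change _ = ∑ t, M s t * D4_pdv i α y t
  refine Finset.sum_congr rfl fun t _ => ?_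
  exact D4_pd_const_mul _ (ha t) i

theorem D4_diff_dot {α β : E4 → Lam → ℝ} {y : E4}
    (ha : ∀ s, DifferentiableAt ℝ (fun z => α z s) y)
    (hb : ∀ s, DifferentiableAt ℝ (fun z => β z s) y) :
    DifferentiableAt ℝ (fun z => α z ⬝ᵥ β z) y := by
  have : (fun z => α z ⬝ᵥ β z) = fun z => ∑ s, α z s * β z s := rfl
  rw [this]
  exact DifferentiableAt.fun_sum fun s _ => (ha s).mul (hb s)

theorem D4_pd_dot {α β : E4 → Lam → ℝ} {y : E4}
    (ha : ∀ s, DifferentiableAt ℝ (fun z => α z s) y)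
    (hb : ∀ s, DifferentiableAt ℝ (fun z => β z s) y) (i : Fin 4) :
    pd i (fun z => α z ⬝ᵥ β z) y = D4_pdv i α y ⬝ᵥ β y + α y ⬝ᵥ D4_pdv i β y := by
  have : (fun z => α z ⬝ᵥ β z) = fun z => ∑ s, α z s * β z s := rfl
  rw [this, D4_pd_sum (f := fun s z => α z s * β z s) Finset.univ (fun s _ => (ha s).mul (hb s))]
  simp only [dotProduct, ← Finset.sum_add_distrib]
  refine Finset.sum_congr rfl fun s _ => ?_
  rw [L4.pd_mul (ha s) (hb s)]
  unfold D4_pdv
  ring

/-! ### The algebra at a point -/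

section alg

variable {M : Fin 4 → Matrix Lam Lam ℝ}

theorem D4_comm (hM : ∀ A : Matrix (Fin 4) (Fin 4) ℝ, A.transpose = -A → ∀ c : Fin 4,
      rho A * M c - M c * rho A = ∑ a, A a c • M a)
    (hr : ∀ A : Matrix (Fin 4) (Fin 4) ℝ, (rho A).transpose = rho A.transpose)
    (om : Matrix (Fin 4) (Fin 4) ℝ) (hom : om.transpose = -om) (a : Fin 4) (α β : Lam → ℝ) :
    (M a).mulVec ((rho om).mulVec α) ⬝ᵥ β + (M a).mulVec α ⬝ᵥ (rho om).mulVec β =
      -∑ b, om b a * ((M b).mulVec α ⬝ᵥ β) := by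
  have hneg : rho (-om) = -rho om := by
    unfold rho
    simp [Finset.sum_neg_distrib]
  have h1 : (M a).mulVec α ⬝ᵥ (rho om).mulVec β = -((rho om).mulVec ((M a).mulVec α) ⬝ᵥ β) := by
    rw [Matrix.dotProduct_mulVec, ← Matrix.mulVec_transpose, hr, hom, hneg, Matrix.neg_mulVec,
      neg_dotProduct]
  have h2 : (M a).mulVec ((rho om).mulVec α) ⬝ᵥ β - (rho om).mulVec ((M a).mulVec α) ⬝ᵥ β =
      -((∑ b, om b a • M b).mulVec α ⬝ᵥ β) := by
    rw [← hM om hom a, Matrix.sub_mulVec, Matrix.mulVec_mulVec, Matrix.mulVec_mulVec,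
      sub_dotProduct]
    ring
  have h3 : (∑ b, om b a • M b).mulVec α ⬝ᵥ β = ∑ b, om b a * ((M b).mulVec α ⬝ᵥ β) := by
    rw [Matrix.sum_mulVec, sum_dotProduct]
    refine Finset.sum_congr rfl fun b _ => ?_
    rw [Matrix.smul_mulVec, smul_dotProduct, smul_eq_mul]
  rw [h1, ← sub_eq_add_neg, h2, h3]

theorem D4_alg (hM : ∀ A : Matrix (Fin 4) (Fin 4) ℝ, A.transpose = -A → ∀ c : Fin 4,
      rho A * M c - M c * rho A = ∑ a, A a c • M a)
    (hr : ∀ A : Matrix (Fin 4) (Fin 4) ℝ, (rho A).transpose = rho A.transpose)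
    (F : Matrix (Fin 4) (Fin 4) ℝ) (om : Matrix (Fin 4) (Fin 4) ℝ)
    (hom : om.transpose = -om) (α β dα dβ : Lam → ℝ) (i : Fin 4) :
    ∑ a, F i a * ((M a).mulVec (dα + (rho om).mulVec α) ⬝ᵥ β +
        (M a).mulVec α ⬝ᵥ (dβ + (rho om).mulVec β)) =
      ∑ a, (F i a * ((M a).mulVec dα ⬝ᵥ β + (M a).mulVec α ⬝ᵥ dβ) +
        (F * om) i a * ((M a).mulVec α ⬝ᵥ β)) := by
  have h1 : ∀ a, F i a * ((M a).mulVec (dα + (rho om).mulVec α) ⬝ᵥ β +
        (M a).mulVec α ⬝ᵥ (dβ + (rho om).mulVec β)) =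
      F i a * ((M a).mulVec dα ⬝ᵥ β + (M a).mulVec α ⬝ᵥ dβ) -
        ∑ b, F i a * (om b a * ((M b).mulVec α ⬝ᵥ β)) := by
    intro a
    have h := D4_comm hM hr om hom a α β
    rw [Matrix.mulVec_add, add_dotProduct, dotProduct_add, ← Finset.mul_sum]
    linear_combination F i a * h
  simp only [h1]
  rw [Finset.sum_sub_distrib, Finset.sum_add_distrib, sub_eq_add_neg]
  congr 1
  have hsk : ∀ a b, om a b = -om b a := by
    intro a b
    have := congrFun (congrFun hom b) a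
    simpa using this
  rw [Finset.sum_comm, ← Finset.sum_neg_distrib]
  refine Finset.sum_congr rfl fun b _ => ?_
  rw [Matrix.mul_apply, Finset.sum_mul, ← Finset.sum_neg_distrib]
  refine Finset.sum_congr rfl fun a _ => ?_
  rw [hsk a b]
  ring

end alg

/-! ### The divergence identity -/

theorem D4_sqrt {U : Set E4} {G : E4 → Matrix (Fin 4) (Fin 4) ℝ} (hM : MetOn U G) {y : E4}
    (hy : y ∈ U) :
    DifferentiableAt ℝ (fun z => Real.sqrt (G z).det) y ∧
      ∀ k, pd k (fun z => Real.sqrt (G z).det) y =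
        Real.sqrt (G y).det * ∑ i, chr G i i k y := by
  have hG := smoothMet_static hM
  have hUy : U ∈ 𝓝 y := hM.isOpen.mem_nhds hy
  have h0 : ((0 : ℝ), y) ∈ (univ ×ˢ U : Set (ℝ × E4)) := ⟨mem_univ _, hy⟩
  have hincl : ContDiffOn ℝ ∞ (fun z : E4 => ((0 : ℝ), z)) U := (contDiff_prodMk_right _).contDiffOn
  have hmap : MapsTo (fun z : E4 => ((0 : ℝ), z)) U (univ ×ˢ U) := fun z hz => ⟨mem_univ _, hz⟩
  refine ⟨((((LF1.sqrt_smooth hG).comp hincl hmap).differentiableOn (by simp)).differentiableAt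
    hUy), fun k => ?_⟩
  have k1 := (thm_DA7 thm_DA1 (Fin 4) (SF (univ ×ˢ U)) hG.geo (LF1.w hG) (LF1.w' hG) (LF1.ww hG)
    (LF1.ww' hG)).1 k
  have r1 : Rep (hG.geo.D k (LF1.w hG)) (fun _ y => pd k (fun z => Real.sqrt (G z).det) y) :=
    Rep.D hG (LF1.repw hG) k
  have r2 : Rep (LF1.w hG * ∑ i, hG.geo.chr i i k)
      (fun _ y => Real.sqrt (G y).det * ∑ i, chr G i i k y) :=
    (LF1.repw hG).mul (Rep.sum fun i _ => Rep.chr hG i i k)
  have a1 := r1 ⟨_, h0⟩
  have a2 := r2 ⟨_, h0⟩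
  rw [k1] at a1
  exact a1.symm.trans a2

theorem D4_pd_frame {U : Set E4} {G f : E4 → Matrix (Fin 4) (Fin 4) ℝ} (hf : FrameOn U G f)
    {y : E4} (hy : y ∈ U) (i k a : Fin 4) :
    pd i (fun z => f z k a) y = (f y * omC G f i y) k a - ∑ j, chr G k i j y * f y j a := by
  have hd : IsUnit (f y).det := (hf.det_pos y hy).ne'.isUnit
  have h := Matrix.mul_nonsing_inv_cancel_left (f y)
    ((Matrix.of fun k a => pd i (fun z => f z k a) y) +
      (Matrix.of fun k j => chr G k i j y) * f y) hd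
  have h2 : (f y * omC G f i y) k a = pd i (fun z => f z k a) y +
      ∑ j, chr G k i j y * f y j a := by
    unfold omC
    rw [h, Matrix.add_apply, Matrix.mul_apply]
    rfl
  rw [h2]
  ring

theorem D4_main (f2 : claimFC2) {M : Fin 4 → Matrix Lam Lam ℝ}
    (hM : ∀ A : Matrix (Fin 4) (Fin 4) ℝ, A.transpose = -A → ∀ c : Fin 4,
      rho A * M c - M c * rho A = ∑ a, A a c • M a)
    (hr : ∀ A : Matrix (Fin 4) (Fin 4) ℝ, (rho A).transpose = rho A.transpose)
    {U : Set E4} {G f : E4 → Matrix (Fin 4) (Fin 4) ℝ} (hf : FrameOn U G f)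
    {α β : E4 → Lam → ℝ} {y : E4} (hy : y ∈ U)
    (ha : ∀ s, DifferentiableAt ℝ (fun z => α z s) y)
    (hb : ∀ s, DifferentiableAt ℝ (fun z => β z s) y) :
    ∑ i, pd i (fun z => Real.sqrt (G z).det *
        ∑ a, f z i a * ((M a).mulVec (α z) ⬝ᵥ β z)) y =
      Real.sqrt (G y).det * ∑ i, ∑ a, f y i a *
        ((M a).mulVec (nabC G f i α y) ⬝ᵥ β y + (M a).mulVec (α y) ⬝ᵥ nabC G f i β y) := by
  obtain ⟨hw, hwd⟩ := D4_sqrt hf.met hy
  have hUy : U ∈ 𝓝 y := hf.met.isOpen.mem_nhds hy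
  have hfd : ∀ i a, DifferentiableAt ℝ (fun z => f z i a) y := fun i a =>
    ((hf.smooth i a).differentiableOn (by simp)).differentiableAt hUy
  have hP : ∀ a, DifferentiableAt ℝ (fun z => (M a).mulVec (α z) ⬝ᵥ β z) y := fun a =>
    D4_diff_dot (α := fun z => (M a).mulVec (α z)) (D4_diff_mulVec ha) hb
  have hdP : ∀ i a, pd i (fun z => (M a).mulVec (α z) ⬝ᵥ β z) y =
      (M a).mulVec (D4_pdv i α y) ⬝ᵥ β y + (M a).mulVec (α y) ⬝ᵥ D4_pdv i β y := by
    intro i a
    rw [D4_pd_dot (α := fun z => (M a).mulVec (α z)) (D4_diff_mulVec ha) hb]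
    have : D4_pdv i (fun z => (M a).mulVec (α z)) y = (M a).mulVec (D4_pdv i α y) := by
      ext s
      exact D4_pd_mulVec ha s i
    rw [this]
  have hprod : ∀ i a, DifferentiableAt ℝ (fun z => f z i a * ((M a).mulVec (α z) ⬝ᵥ β z)) y :=
    fun i a => (hfd i a).mul (hP a)
  have hskew : ∀ i, (omC G f i y).transpose = -omC G f i y := (f2 U G f hf).2.2 y hy |>.1
  have e1 : ∀ i, pd i (fun z => Real.sqrt (G z).det *
        ∑ a, f z i a * ((M a).mulVec (α z) ⬝ᵥ β z)) y =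
      Real.sqrt (G y).det * (∑ a, f y i a *
        ((M a).mulVec (nabC G f i α y) ⬝ᵥ β y + (M a).mulVec (α y) ⬝ᵥ nabC G f i β y)) +
      Real.sqrt (G y).det * ((∑ a, ∑ k, chr G k k i y * f y i a * ((M a).mulVec (α y) ⬝ᵥ β y)) -
        ∑ a, ∑ j, chr G i i j y * f y j a * ((M a).mulVec (α y) ⬝ᵥ β y)) := by
    intro i
    rw [L4.pd_mul hw (DifferentiableAt.fun_sum fun a _ => hprod i a), hwd,
      D4_pd_sum Finset.univ (fun a _ => hprod i a)]
    have e2 : ∀ a, pd i (fun z => f z i a * ((M a).mulVec (α z) ⬝ᵥ β z)) y =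
        (f y i a * ((M a).mulVec (D4_pdv i α y) ⬝ᵥ β y + (M a).mulVec (α y) ⬝ᵥ D4_pdv i β y) +
          (f y * omC G f i y) i a * ((M a).mulVec (α y) ⬝ᵥ β y)) -
        ∑ j, chr G i i j y * f y j a * ((M a).mulVec (α y) ⬝ᵥ β y) := by
      intro a
      rw [L4.pd_mul (hfd i a) (hP a), hdP, D4_pd_frame hf hy, ← Finset.sum_mul]
      ring
    simp only [e2]
    rw [Finset.sum_sub_distrib, ← D4_alg hM hr (f y) (omC G f i y) (hskew i) (α y) (β y)
      (D4_pdv i α y) (D4_pdv i β y) i]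
    have e3 : ∑ a, ∑ k, chr G k k i y * f y i a * ((M a).mulVec (α y) ⬝ᵥ β y) =
        (∑ k, chr G k k i y) * ∑ a, f y i a * ((M a).mulVec (α y) ⬝ᵥ β y) := by
      rw [Finset.mul_sum]
      refine Finset.sum_congr rfl fun a _ => ?_
      rw [Finset.sum_mul]
      refine Finset.sum_congr rfl fun k _ => ?_
      ring
    rw [e3]
    have e4 : nabC G f i α y = D4_pdv i α y + (rho (omC G f i y)).mulVec (α y) := rfl
    have e5 : nabC G f i β y = D4_pdv i β y + (rho (omC G f i y)).mulVec (β y) := rfl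
    rw [e4, e5]
    ring
  simp only [e1]
  rw [Finset.sum_add_distrib, ← Finset.mul_sum, ← Finset.mul_sum, Finset.sum_sub_distrib]
  have e6 : ∑ i, ∑ a, ∑ k, chr G k k i y * f y i a * ((M a).mulVec (α y) ⬝ᵥ β y) =
      ∑ i, ∑ a, ∑ j, chr G i i j y * f y j a * ((M a).mulVec (α y) ⬝ᵥ β y) := by
    have e7 : ∀ i, ∑ a, ∑ k, chr G k k i y * f y i a * ((M a).mulVec (α y) ⬝ᵥ β y) =
        ∑ k, ∑ a, chr G k k i y * f y i a * ((M a).mulVec (α y) ⬝ᵥ β y) :=
      fun i => Finset.sum_comm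
    simp only [e7]
    rw [Finset.sum_comm]
    refine Finset.sum_congr rfl fun k _ => ?_
    rw [Finset.sum_comm]
  rw [e6, sub_self, mul_zero, add_zero]

theorem thm_DivD (f2 : claimFC2) (f3 : claimFR3) : claimDivD := by
  intro U G f hf α β y hy ha hb
  obtain ⟨-, -, -, -, -, -, -, -, -, -, -, c1, -, c3, -, c5⟩ := f3 ℝ
  constructor
  · rw [D4_main f2 c3 c5 hf hy ha hb]
    congr 1
    unfold diracC
    rw [sum_dotProduct, dotProduct_sum, ← Finset.sum_sub_distrib]
    refine Finset.sum_congr rfl fun i _ => ?_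
    rw [sum_dotProduct, dotProduct_sum, ← Finset.sum_sub_distrib]
    refine Finset.sum_congr rfl fun a _ => ?_
    have ht : (clf ℝ a).transpose = -clf ℝ a := by
      unfold clf iot
      simp
    have h1 : (clf ℝ a).mulVec (α y) ⬝ᵥ nabC G f i β y =
        -(α y ⬝ᵥ (clf ℝ a).mulVec (nabC G f i β y)) := by
      rw [dotProduct_comm (α y), dotProduct_comm _ (nabC G f i β y), Matrix.dotProduct_mulVec,
        ← Matrix.mulVec_transpose, ht, Matrix.neg_mulVec, neg_dotProduct]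
    rw [smul_dotProduct, dotProduct_smul, h1, smul_eq_mul, smul_eq_mul]
    ring
  · rw [D4_main f2 (fun A _ c => c1 A c) c5 hf hy ha hb]
    congr 1
    unfold dFC delFC
    rw [sum_dotProduct, dotProduct_neg, dotProduct_sum, sub_neg_eq_add,
      ← Finset.sum_add_distrib]
    refine Finset.sum_congr rfl fun i _ => ?_
    rw [sum_dotProduct, dotProduct_sum, ← Finset.sum_add_distrib]
    refine Finset.sum_congr rfl fun a _ => ?_
    have h1 : (eps ℝ a).mulVec (α y) ⬝ᵥ nabC G f i β y =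
        α y ⬝ᵥ (iot ℝ a).mulVec (nabC G f i β y) := by
      rw [dotProduct_comm (α y), dotProduct_comm _ (nabC G f i β y), Matrix.dotProduct_mulVec,
        ← Matrix.mulVec_transpose]
      rfl
    rw [smul_dotProduct, dotProduct_smul, h1, smul_eq_mul, smul_eq_mul]
    ring

end NRF

end
end

section

/-!
# Module E, item E10: the equation for `l (P 4)` at the pole
-/

open scoped Manifold ContDiff Topology RealInnerProductSpace
open MeasureTheory Set

noncomputable section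

namespace NRF

section EI10a

variable {W W' : Type} [NormedAddCommGroup W] [NormedSpace ℝ W] [NormedAddCommGroup W']
  [NormedSpace ℝ W']

theorem EI10_pd_smooth {f : E4 → W} (hf : ContDiff ℝ ∞ f) (i : Fin 4) :
    ContDiff ℝ ∞ (pd i f) := by
  have h : ContDiff ℝ ∞ (fderiv ℝ f) := hf.fderiv_right (m := ∞) (by simp)
  exact h.clm_apply contDiff_const

theorem EI10_diff {f : E4 → W} (hf : ContDiff ℝ ∞ f) (z : E4) : DifferentiableAt ℝ f z :=
  (hf.differentiable (by simp)).differentiableAt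

theorem EI10_pd_clm (L : W →L[ℝ] W') {f : E4 → W} (hf : ContDiff ℝ ∞ f) (i : Fin 4) :
    pd i (fun z => L (f z)) = fun z => L (pd i f z) := by
  funext z
  have h := (L.hasFDerivAt.comp z (EI10_diff hf z).hasFDerivAt).fderiv
  have h2 : fderiv ℝ (fun z => L (f z)) z = L.comp (fderiv ℝ f z) := h
  simp only [pd]
  rw [h2]
  rfl

theorem EI10_coord_smooth (i : Fin 4) : ContDiff ℝ ∞ (fun z : E4 => z i) := by
  fun_prop

theorem EI10_polF_smooth {f : E4 → W} (h : IsPolF f) : ContDiff ℝ ∞ f := by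
  obtain ⟨A, p, hp⟩ := h
  have : f = fun z => ∑ α ∈ A, (∏ i, z i ^ α i) • p α := funext hp
  rw [this]
  refine ContDiff.sum fun α _ => ?_
  refine ContDiff.smul ?_ contDiff_const
  exact contDiff_prod fun i _ => (EI10_coord_smooth i).pow _

theorem EI10_cjD_smooth {f : E4 → W} (hf : ContDiff ℝ ∞ f) (κ : ℝ) (i : Fin 4) :
    ContDiff ℝ ∞ (cjD κ i f) := by
  have h1 := EI10_pd_smooth hf i
  have h2 : ContDiff ℝ ∞ (fun z : E4 => (z i / (2 * κ)) • f z) :=
    ((EI10_coord_smooth i).div_const _).smul hf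
  exact h1.sub h2

theorem EI10_cjD_clm (L : W →L[ℝ] W') {f : E4 → W} (hf : ContDiff ℝ ∞ f) (κ : ℝ) (i : Fin 4) :
    cjD κ i (fun z => L (f z)) = fun z => L (cjD κ i f z) := by
  funext z
  simp only [cjD]
  rw [EI10_pd_clm L hf i, map_sub, map_smul]

theorem EI10_opA_clm (L : W →L[ℝ] W') {f : E4 → W} (hf : ContDiff ℝ ∞ f) (κ : ℝ) (w : ℕ)
    (z : E4) : opA κ w (fun z => L (f z)) z = L (opA κ w f z) := by
  have h := (L.hasFDerivAt.comp z (EI10_diff hf z).hasFDerivAt).fderiv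
  have h2 : fderiv ℝ (fun z => L (f z)) z = L.comp (fderiv ℝ f z) := h
  have h3 : ∀ i, pd i (pd i (fun z => L (f z))) z = L (pd i (pd i f) z) := by
    intro i
    rw [EI10_pd_clm L hf i, EI10_pd_clm L (EI10_pd_smooth hf i) i]
  simp only [opA, h2, h3]
  rw [map_sub, map_smul, map_smul, map_add, map_smul, map_sum]
  rfl

theorem EI10_cjD_zero (κ : ℝ) (i : Fin 4) (z : E4) : cjD κ i (fun _ : E4 => (0 : W)) z = 0 := by
  simp [cjD, pd]

theorem EI10_cjD_add {f g : E4 → W} (hf : ContDiff ℝ ∞ f) (hg : ContDiff ℝ ∞ g) (κ : ℝ)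
    (i : Fin 4) (z : E4) :
    cjD κ i (fun z => f z + g z) z = cjD κ i f z + cjD κ i g z := by
  simp only [cjD, pd]
  have h : fderiv ℝ (fun z => f z + g z) z = fderiv ℝ f z + fderiv ℝ g z :=
    fderiv_add (EI10_diff hf z) (EI10_diff hg z)
  rw [h, smul_add, _root_.add_apply]
  abel

end EI10a

section EI10b

variable {V : Type} [NormedAddCommGroup V] [InnerProductSpace ℝ V]

/-- Derivative of a product of coordinates. -/
theorem EI10_pd_quad (i a b : Fin 4) (z : E4) :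
    pd i (fun z : E4 => z a * z b) z = (if a = i then z b else 0) + (if b = i then z a else 0) := by
  have ha : HasFDerivAt (fun z : E4 => z a) (EuclideanSpace.proj a : E4 →L[ℝ] ℝ) z :=
    (EuclideanSpace.proj a : E4 →L[ℝ] ℝ).hasFDerivAt
  have hb : HasFDerivAt (fun z : E4 => z b) (EuclideanSpace.proj b : E4 →L[ℝ] ℝ) z :=
    (EuclideanSpace.proj b : E4 →L[ℝ] ℝ).hasFDerivAt
  have h := (ha.mul hb).fderiv
  have h2 : fderiv ℝ (fun z : E4 => z a * z b) z = z a • (EuclideanSpace.proj b : E4 →L[ℝ] ℝ) +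
    z b • (EuclideanSpace.proj a : E4 →L[ℝ] ℝ) := h
  have hbv : ∀ a : Fin 4, (EuclideanSpace.proj a : E4 →L[ℝ] ℝ) (bv i) =
      if a = i then (1 : ℝ) else 0 := by
    intro a
    simp [bv]
  simp only [pd, h2]
  change z a * (EuclideanSpace.proj b : E4 →L[ℝ] ℝ) (bv i) +
    z b * (EuclideanSpace.proj a : E4 →L[ℝ] ℝ) (bv i) = _
  rw [hbv, hbv]
  simp only [mul_ite, mul_one, mul_zero]
  ring

/-- The quadratic form. -/
def EI10_Q (B : Fin 4 → Fin 4 → V →L[ℝ] V) (z : E4) : V →L[ℝ] V :=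
  ∑ i, ∑ j, (z i * z j) • B i j

theorem EI10_Q_smooth (B : Fin 4 → Fin 4 → V →L[ℝ] V) : ContDiff ℝ ∞ (EI10_Q B) := by
  unfold EI10_Q
  refine ContDiff.sum fun i _ => ContDiff.sum fun j _ => ?_
  exact ((EI10_coord_smooth i).mul (EI10_coord_smooth j)).smul contDiff_const

theorem EI10_pd_Q (B : Fin 4 → Fin 4 → V →L[ℝ] V) (r : Fin 4) (z : E4) :
    pd r (EI10_Q B) z = ∑ j, z j • (B r j + B j r) := by
  have h1 : HasFDerivAt (EI10_Q B) (∑ i, ∑ j,
      (fderiv ℝ (fun z : E4 => z i * z j) z).smulRight (B i j)) z := by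
    unfold EI10_Q
    refine HasFDerivAt.fun_sum fun i _ => HasFDerivAt.fun_sum fun j _ => ?_
    have h2 : DifferentiableAt ℝ (fun z : E4 => z i * z j) z :=
      EI10_diff ((EI10_coord_smooth i).mul (EI10_coord_smooth j)) z
    exact h2.hasFDerivAt.smul_const (B i j)
  simp only [pd]
  rw [h1.fderiv]
  have h3 : ∀ i j, fderiv ℝ (fun z : E4 => z i * z j) z (bv r) =
      (if i = r then z j else 0) + (if j = r then z i else 0) := fun i j => EI10_pd_quad r i j z
  simp only [_root_.sum_apply, ContinuousLinearMap.smulRight_apply, h3, add_smul,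
    Finset.sum_add_distrib, ite_smul, zero_smul]
  simp only [smul_add, Finset.sum_add_distrib]
  congr 1
  · rw [Finset.sum_comm]
    simp
  · simp

/-- The bilinear form `(X, Y) ↦ l (X ∘ Y)`. -/
def EI10_bf (l : (V →L[ℝ] V) →ₗ[ℝ] ℝ) : (V →L[ℝ] V) →ₗ[ℝ] (V →L[ℝ] V) →ₗ[ℝ] ℝ :=
  LinearMap.mk₂ ℝ (fun X Y => l (X.comp Y))
    (fun X X' Y => by rw [ContinuousLinearMap.add_comp, map_add])
    (fun c X Y => by rw [ContinuousLinearMap.smul_comp, map_smul])
    (fun X Y Y' => by rw [ContinuousLinearMap.comp_add, map_add])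
    (fun c X Y => by rw [ContinuousLinearMap.comp_smul, map_smul])

theorem EI10_bf_apply (l : (V →L[ℝ] V) →ₗ[ℝ] ℝ) (X Y : V →L[ℝ] V) :
    l (X.comp Y) = EI10_bf l X Y := rfl

/-- The algebra of the expansion. -/
theorem EI10_algebra (b : (V →L[ℝ] V) →ₗ[ℝ] (V →L[ℝ] V) →ₗ[ℝ] ℝ) (κ : ℝ)
    (B : Fin 4 → Fin 4 → V →L[ℝ] V) (W0 : V →L[ℝ] V) (z : E4) :
    κ * (∑ k, b (∑ j, z j • B j k) (∑ j, z j • B j k)) -
      κ * (∑ k, b (∑ j, z j • B j k) (∑ j, z j • (B k j + B j k))) +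
      (1 / 2) * b (EI10_Q B z) (EI10_Q B z) + b (EI10_Q B z) W0 + (1 / 2) * b W0 (EI10_Q B z) +
      b W0 W0 - κ / 2 * b (∑ k, B k k) (EI10_Q B z) - κ * b (∑ k, B k k) W0 =
    (b W0 W0 - κ * ∑ k, b (B k k) W0) +
        (∑ i, ∑ j, (κ * (∑ k, b (B i k) (B j k)) -
          κ * (∑ k, b (B i k) (B k j + B j k)) + b (B i j) W0 +
          (1 / 2) * b W0 (B i j) - κ / 2 * ∑ k, b (B k k) (B i j)) * (z i * z j)) +
        ∑ i, ∑ j, ∑ k, ∑ r, ((1 / 2) * b (B i j) (B k r)) * (z i * z j * (z k * z r)) := by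
  have e1 : ∑ k, b (∑ j, z j • B j k) (∑ j, z j • B j k) =
      ∑ i, ∑ j, (∑ k, b (B i k) (B j k)) * (z i * z j) := by
    have h : ∀ k, b (∑ j, z j • B j k) (∑ j, z j • B j k) =
        ∑ i, ∑ j, b (B i k) (B j k) * (z i * z j) := by
      intro k
      rw [map_sum b, LinearMap.sum_apply]
      refine Finset.sum_congr rfl fun i _ => ?_
      rw [map_sum]
      refine Finset.sum_congr rfl fun j _ => ?_
      rw [map_smul, map_smul, LinearMap.smul_apply, smul_eq_mul, smul_eq_mul]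
      ring
    simp only [h]
    rw [Finset.sum_comm]
    refine Finset.sum_congr rfl fun i _ => ?_
    rw [Finset.sum_comm]
    refine Finset.sum_congr rfl fun j _ => ?_
    rw [Finset.sum_mul]
  have e2 : ∑ k, b (∑ j, z j • B j k) (∑ j, z j • (B k j + B j k)) =
      ∑ i, ∑ j, (∑ k, b (B i k) (B k j + B j k)) * (z i * z j) := by
    have h : ∀ k, b (∑ j, z j • B j k) (∑ j, z j • (B k j + B j k)) =
        ∑ i, ∑ j, b (B i k) (B k j + B j k) * (z i * z j) := by
      intro k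
      rw [map_sum b, LinearMap.sum_apply]
      refine Finset.sum_congr rfl fun i _ => ?_
      rw [map_sum]
      refine Finset.sum_congr rfl fun j _ => ?_
      rw [map_smul, map_smul, LinearMap.smul_apply, smul_eq_mul, smul_eq_mul]
      ring
    simp only [h]
    rw [Finset.sum_comm]
    refine Finset.sum_congr rfl fun i _ => ?_
    rw [Finset.sum_comm]
    refine Finset.sum_congr rfl fun j _ => ?_
    rw [Finset.sum_mul]
  have e3 : ∀ Y, b (EI10_Q B z) Y = ∑ i, ∑ j, b (B i j) Y * (z i * z j) := by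
    intro Y
    unfold EI10_Q
    rw [map_sum, LinearMap.sum_apply]
    refine Finset.sum_congr rfl fun i _ => ?_
    rw [map_sum, LinearMap.sum_apply]
    refine Finset.sum_congr rfl fun j _ => ?_
    rw [map_smul, LinearMap.smul_apply, smul_eq_mul]
    ring
  have e4 : ∀ X, b X (EI10_Q B z) = ∑ i, ∑ j, b X (B i j) * (z i * z j) := by
    intro X
    unfold EI10_Q
    rw [map_sum]
    refine Finset.sum_congr rfl fun i _ => ?_
    rw [map_sum]
    refine Finset.sum_congr rfl fun j _ => ?_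
    rw [map_smul, smul_eq_mul]
    ring
  have e5 : ∀ Y, b (∑ k, B k k) Y = ∑ k, b (B k k) Y := by
    intro Y
    rw [map_sum, LinearMap.sum_apply]
  have e6 : b (EI10_Q B z) (EI10_Q B z) =
      ∑ i, ∑ j, ∑ k, ∑ r, (b (B i j) (B k r)) * (z i * z j * (z k * z r)) := by
    rw [e3]
    refine Finset.sum_congr rfl fun i _ => Finset.sum_congr rfl fun j _ => ?_
    rw [e4, Finset.sum_mul]
    refine Finset.sum_congr rfl fun k _ => ?_
    rw [Finset.sum_mul]
    refine Finset.sum_congr rfl fun r _ => ?_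
    ring
  have e7 : ∑ i, ∑ j, ∑ k, ∑ r, ((1 / 2) * b (B i j) (B k r)) * (z i * z j * (z k * z r)) =
      (1 / 2) * b (EI10_Q B z) (EI10_Q B z) := by
    rw [e6]
    simp only [Finset.mul_sum]
    refine Finset.sum_congr rfl fun i _ => Finset.sum_congr rfl fun j _ =>
      Finset.sum_congr rfl fun k _ => Finset.sum_congr rfl fun r _ => ?_
    ring
  have e8 : (∑ i, ∑ j, (κ * (∑ k, b (B i k) (B j k)) -
          κ * (∑ k, b (B i k) (B k j + B j k)) + b (B i j) W0 +
          (1 / 2) * b W0 (B i j) - κ / 2 * ∑ k, b (B k k) (B i j)) * (z i * z j)) =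
      κ * (∑ k, b (∑ j, z j • B j k) (∑ j, z j • B j k)) -
      κ * (∑ k, b (∑ j, z j • B j k) (∑ j, z j • (B k j + B j k))) + b (EI10_Q B z) W0 +
      (1 / 2) * b W0 (EI10_Q B z) - κ / 2 * b (∑ k, B k k) (EI10_Q B z) := by
    have g : ∀ F1 F2 F3 F4 F5 : Fin 4 → Fin 4 → ℝ,
        ∑ i, ∑ j, (κ * F1 i j - κ * F2 i j + F3 i j + (1 / 2) * F4 i j - κ / 2 * F5 i j) *
          (z i * z j) = κ * (∑ i, ∑ j, F1 i j * (z i * z j)) -
          κ * (∑ i, ∑ j, F2 i j * (z i * z j)) + (∑ i, ∑ j, F3 i j * (z i * z j)) +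
          (1 / 2) * (∑ i, ∑ j, F4 i j * (z i * z j)) -
          κ / 2 * (∑ i, ∑ j, F5 i j * (z i * z j)) := by
      intro F1 F2 F3 F4 F5
      simp only [Finset.mul_sum, ← Finset.sum_add_distrib, ← Finset.sum_sub_distrib]
      refine Finset.sum_congr rfl fun i _ => Finset.sum_congr rfl fun j _ => ?_
      ring
    rw [e1, e2, e3 W0, e4 W0, e4 (∑ k, B k k)]
    simp only [e5]
    exact g (fun i j => ∑ k, b (B i k) (B j k)) (fun i j => ∑ k, b (B i k) (B k j + B j k))
      (fun i j => b (B i j) W0) (fun i j => b W0 (B i j)) (fun i j => ∑ k, b (B k k) (B i j))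
  rw [e7, e8, e5 W0]
  ring

end EI10b

theorem thm_P4E (h2 : claimConj) : claimP4E := by
  intro V _ _ _ m κ B W0 l β T P hP hP1 p hp hP2 z
  obtain ⟨hpoly, hrec⟩ := h2 V m κ T.kpos T.a0 P hP
  -- the continuous functional
  set L : (V →L[ℝ] V) →L[ℝ] ℝ := LinearMap.toContinuousLinearMap l with hL
  have hLl : ∀ X, L X = l X := fun X => rfl
  have hlid : ∀ t : ℝ, l (t • ContinuousLinearMap.id ℝ V) = 0 := by
    intro t
    rw [map_smul, T.l1, smul_zero]
  -- smoothness
  have hX : ContDiff ℝ ∞ (fun z => -((1 / 2 : ℝ) • EI10_Q B z) - W0) :=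
    ((EI10_Q_smooth B).const_smul _).neg.sub contDiff_const
  have hpid : ContDiff ℝ ∞ (fun z => p z • ContinuousLinearMap.id ℝ V) :=
    hp.smul contDiff_const
  have hP2' : P 2 0 0 = fun z => p z • ContinuousLinearMap.id ℝ V +
      (-((1 / 2 : ℝ) • EI10_Q B z) - W0) := by
    funext x
    rw [hP2 x, EI10_Q]
    abel
  have hP0 : P 0 0 0 = fun _ => ContinuousLinearMap.id ℝ V := by
    funext x
    exact hP.zero 0 0 x
  have hP1' : P 1 0 0 = fun _ => 0 := by
    funext x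
    exact hP1 x
  have s2 : ContDiff ℝ ∞ (P 2 0 0) := EI10_polF_smooth (hpoly 2)
  have s0 : ContDiff ℝ ∞ (P 0 0 0) := EI10_polF_smooth (hpoly 0)
  have s4 : ContDiff ℝ ∞ (P 4 0 0) := EI10_polF_smooth (hpoly 4)
  -- multiples of the identity
  have hid : ∀ (q : E4 → ℝ), ContDiff ℝ ∞ q → ∀ i x,
      cjD κ i (fun x => q x • ContinuousLinearMap.id ℝ V) x =
        cjD κ i q x • ContinuousLinearMap.id ℝ V := by
    intro q hq i x
    have h := EI10_cjD_clm (ContinuousLinearMap.toSpanSingleton ℝ (ContinuousLinearMap.id ℝ V))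
      hq κ i
    exact congrFun h x
  -- second derivatives of functions killed by `l`
  have hkill : ∀ f : E4 → (V →L[ℝ] V), ContDiff ℝ ∞ f → (∀ x, l (f x) = 0) → ∀ i j x,
      l (cjD κ i (cjD κ j f) x) = 0 := by
    intro f hf hl i j x
    have e1 := EI10_cjD_clm L hf κ j
    have e2 := EI10_cjD_clm L (EI10_cjD_smooth hf κ j) κ i
    have e3 : (fun z => L (f z)) = fun _ => 0 := funext hl
    rw [e3] at e1
    have e4 : cjD κ j (fun _ : E4 => (0 : ℝ)) = fun _ => 0 := funext (EI10_cjD_zero κ j)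
    rw [← hLl]
    have e5 := congrFun e2 x
    rw [← e1, e4, EI10_cjD_zero] at e5
    exact e5.symm
  have l2 : ∀ x, l (P 2 0 0 x) = 0 := by
    intro x
    rw [hP2 x, map_sub, map_sub, hlid, map_smul, map_sum, T.lW]
    simp only [map_sum, map_smul, T.lB, smul_zero, Finset.sum_const_zero, sub_zero]
  have l0 : ∀ x, l (P 0 0 0 x) = 0 := by
    intro x
    rw [hP0]
    exact T.l1
  -- the term of P 0
  have T0 : l (m.opC κ 4 (P 0 0 0) z) =
      -(κ * ∑ k, l ((∑ j, z j • B j k).comp (∑ j, z j • B j k))) := by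
    simp only [Model.opC]
    rw [map_add, map_add, map_neg, map_sum]
    have t1 : ∀ i, l (∑ j, tayC (fun q => m.a q i j) 4 0 0 z •
        cjD κ i (cjD κ j (P 0 0 0)) z) = 0 := by
      intro i
      rw [map_sum]
      refine Finset.sum_eq_zero fun j _ => ?_
      rw [map_smul, hkill _ s0 l0, smul_zero]
    have t2 : l (∑ i, (tayC (fun q => m.b q i) (4 - 1) 0 0 z).comp (cjD κ i (P 0 0 0) z)) = 0 := by
      rw [map_sum]
      refine Finset.sum_eq_zero fun i _ => ?_
      have e1 : cjD κ i (P 0 0 0) z = cjD κ i (fun _ : E4 => (1 : ℝ)) z •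
          ContinuousLinearMap.id ℝ V := by
        rw [← hid _ contDiff_const, hP0]
        simp only [one_smul]
      rw [e1, ContinuousLinearMap.comp_smul, map_smul, ContinuousLinearMap.comp_id]
      have e2 := T.b3 i z
      rw [show (4 - 1 : ℕ) = 3 from rfl, e2, smul_zero]
    have t3 : (if 2 ≤ 4 then (tayC m.c (4 - 2) 0 0 z).comp (P 0 0 0 z) else 0) =
        tayC m.c 2 0 0 z := by
      rw [if_pos (by norm_num), hP0]
      exact ContinuousLinearMap.comp_id _
    rw [Finset.sum_eq_zero fun i _ => t1 i, t2, t3, T.c2]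
    ring
  -- the term of P 1
  have T1 : m.opC κ 3 (P 1 0 0) z = 0 := by
    have e4 : ∀ i, cjD κ i (fun _ : E4 => (0 : V →L[ℝ] V)) = fun _ => 0 :=
      fun i => funext (EI10_cjD_zero κ i)
    simp only [Model.opC, hP1', e4]
    simp
  -- the term of P 3
  have T3 : m.opC κ 1 (P 3 0 0) z = 0 := by
    simp only [Model.opC]
    have a1 := T.a1
    have b0 := T.b0
    simp only [a1, zero_smul, Finset.sum_const_zero, neg_zero, zero_add, Nat.sub_self, b0,
      ContinuousLinearMap.zero_comp]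
    simp
  -- the term of P 2
  have hcj : ∀ i, cjD κ i (P 2 0 0) z = cjD κ i p z • ContinuousLinearMap.id ℝ V +
      (-((1 / 2 : ℝ) • ∑ j, z j • (B i j + B j i)) -
        (z i / (2 * κ)) • (-((1 / 2 : ℝ) • EI10_Q B z) - W0)) := by
    intro i
    rw [hP2', EI10_cjD_add hpid hX, hid p hp]
    congr 1
    simp only [cjD]
    congr 1
    have h1 : HasFDerivAt (fun z => -((1 / 2 : ℝ) • EI10_Q B z) - W0)
        (-((1 / 2 : ℝ) • fderiv ℝ (EI10_Q B) z)) z :=
      (((EI10_diff (EI10_Q_smooth B) z).hasFDerivAt.const_smul (1 / 2 : ℝ)).neg).sub_const W0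
    simp only [pd]
    rw [h1.fderiv]
    have h3 := EI10_pd_Q B i z
    simp only [pd] at h3
    rw [← h3]
    rfl
  have T2 : l (m.opC κ 2 (P 2 0 0) z) =
      κ * (∑ k, l ((∑ j, z j • B j k).comp (∑ j, z j • (B k j + B j k)))) +
      l ((EI10_Q B z).comp (-((1 / 2 : ℝ) • EI10_Q B z) - W0)) +
      l ((W0 - κ • ∑ k, B k k).comp (-((1 / 2 : ℝ) • EI10_Q B z) - W0)) := by
    simp only [Model.opC]
    rw [map_add, map_add, map_neg, map_sum]
    have t1 : ∀ i, l (∑ j, tayC (fun q => m.a q i j) 2 0 0 z •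
        cjD κ i (cjD κ j (P 2 0 0)) z) = 0 := by
      intro i
      rw [map_sum]
      refine Finset.sum_eq_zero fun j _ => ?_
      rw [map_smul, hkill _ s2 l2, smul_zero]
    have t3 : l (if 2 ≤ 2 then (tayC m.c (2 - 2) 0 0 z).comp (P 2 0 0 z) else 0) =
        l ((W0 - κ • ∑ k, B k k).comp (-((1 / 2 : ℝ) • EI10_Q B z) - W0)) := by
      rw [if_pos le_rfl, show (2 - 2 : ℕ) = 0 from rfl, T.c0, hP2']
      simp only []
      rw [ContinuousLinearMap.comp_add, ContinuousLinearMap.comp_smul,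
        ContinuousLinearMap.comp_id, map_add, map_smul, map_sub, map_smul, map_sum, T.lW]
      simp only [T.lB, Finset.sum_const_zero, smul_zero, sub_zero, zero_add]
    have t2 : l (∑ i, (tayC (fun q => m.b q i) (2 - 1) 0 0 z).comp (cjD κ i (P 2 0 0) z)) =
        κ * (∑ k, l ((∑ j, z j • B j k).comp (∑ j, z j • (B k j + B j k)))) +
      l ((EI10_Q B z).comp (-((1 / 2 : ℝ) • EI10_Q B z) - W0)) := by
      have u1 : ∀ i, l ((tayC (fun q => m.b q i) (2 - 1) 0 0 z).comp (cjD κ i (P 2 0 0) z)) =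
          κ * l ((∑ j, z j • B j i).comp (∑ j, z j • (B i j + B j i))) +
          z i * l ((∑ j, z j • B j i).comp (-((1 / 2 : ℝ) • EI10_Q B z) - W0)) := by
        intro i
        rw [show (2 - 1 : ℕ) = 1 from rfl, T.b1, hcj i]
        set X := -((1 / 2 : ℝ) • EI10_Q B z) - W0 with hXd
        set Y := ∑ j, z j • (B i j + B j i) with hYd
        set Z := ∑ j, z j • B j i with hZd
        have hlZ : l Z = 0 := by
          rw [hZd, map_sum]
          refine Finset.sum_eq_zero fun j _ => ?_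
          rw [map_smul, T.lB, smul_zero]
        have hlX : l X = 0 := by
          have := l2 z
          rw [hP2'] at this
          simp only [map_add, hlid, zero_add] at this
          exact this
        have hlY : l Y = 0 := by
          rw [hYd, map_sum]
          refine Finset.sum_eq_zero fun j _ => ?_
          rw [map_smul, map_add, T.lB, T.lB, add_zero, smul_zero]
        have hk : κ ≠ 0 := T.kpos.ne'
        simp only [EI10_bf_apply]
        simp only [map_add, map_sub, map_neg, map_smul, LinearMap.add_apply, LinearMap.sub_apply,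
          LinearMap.neg_apply, LinearMap.smul_apply, smul_eq_mul]
        have v1 : EI10_bf l (ContinuousLinearMap.id ℝ V) (ContinuousLinearMap.id ℝ V) = 0 := by
          rw [← EI10_bf_apply]; exact T.l1
        have v2 : ∀ U, EI10_bf l (ContinuousLinearMap.id ℝ V) U = l U := by
          intro U
          rw [← EI10_bf_apply, ContinuousLinearMap.id_comp]
        have v3 : ∀ U, EI10_bf l U (ContinuousLinearMap.id ℝ V) = l U := by
          intro U
          rw [← EI10_bf_apply, ContinuousLinearMap.comp_id]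
        rw [v1, v2 Y, v2 X, v3 Z, hlX, hlY, hlZ]
        field_simp
        ring
      rw [map_sum, Finset.sum_congr rfl fun i _ => u1 i, Finset.sum_add_distrib, ← Finset.mul_sum]
      congr 1
      have u2 : ∑ i, z i • ∑ j, z j • B j i = EI10_Q B z := by
        unfold EI10_Q
        simp only [Finset.smul_sum, smul_smul]
        rw [Finset.sum_comm]
        refine Finset.sum_congr rfl fun i _ => Finset.sum_congr rfl fun j _ => ?_
        rw [mul_comm]
      rw [← u2]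
      simp only [EI10_bf_apply]
      rw [map_sum (EI10_bf l), LinearMap.sum_apply]
      refine Finset.sum_congr rfl fun i _ => ?_
      rw [map_smul (EI10_bf l), LinearMap.smul_apply, smul_eq_mul, u2]
    rw [Finset.sum_eq_zero fun i _ => t1 i, t2, t3]
    ring
  -- assembly
  have hz := hrec 4 z
  simp only [Finset.sum_range_succ, Finset.sum_range_zero, zero_add] at hz
  rw [show (4 - 0 : ℕ) = 4 from rfl, show (4 - 1 : ℕ) = 3 from rfl, show (4 - 2 : ℕ) = 2 from rfl,
    show (4 - 3 : ℕ) = 1 from rfl, T1, T3, add_zero, add_zero] at hz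
  have hz' := congrArg l hz
  rw [map_add, map_add, T0, T2, map_zero] at hz'
  have hop : opA κ 4 (fun z => l (P 4 0 0 z)) z = l (opA κ 4 (P 4 0 0) z) :=
    EI10_opA_clm L s4 κ 4 z
  have alg := EI10_algebra (EI10_bf l) κ B W0 z
  simp only [EI10_bf_apply] at hz' ⊢
  rw [hop, ← alg]
  simp only [map_sub, map_neg, map_smul, LinearMap.sub_apply, LinearMap.neg_apply,
    LinearMap.smul_apply, smul_eq_mul] at hz'
  linarith

end NRF

end
end

section

/-!
# Item EI11: traces with the square of the action of a skew matrix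
-/

noncomputable section

namespace NRF

open Matrix Finset

/-- The row operator of the multiplication by `ε_a` on the right. -/
def EI11_e (a : Fin 4) (f : Lam → ℤ) (t : Lam) : ℤ :=
  if a ∉ t then f (insert a t) * (-1) ^ (t.filter (· < a)).card else 0

/-- The row operator of the multiplication by `ι_a` on the right. -/
def EI11_i (a : Fin 4) (f : Lam → ℤ) (t : Lam) : ℤ :=
  if a ∈ t then f (t.erase a) * (-1) ^ ((t.erase a).filter (· < a)).card else 0

/-- The row operator of the multiplication by `c_a` on the right. -/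
def EI11_c (a : Fin 4) (f : Lam → ℤ) (t : Lam) : ℤ :=
  if a ∈ t then -(f (t.erase a) * (-1) ^ ((t.erase a).filter (· < a)).card)
  else f (insert a t) * (-1) ^ (t.filter (· < a)).card

theorem EI11_mul_e (M : Matrix Lam Lam ℤ) (a : Fin 4) (s : Lam) :
    (M * epsZ a) s = EI11_e a (M s) := by
  funext t
  rw [FR3_mul_epsZ]
  rfl

theorem EI11_mul_i (M : Matrix Lam Lam ℤ) (a : Fin 4) (s : Lam) :
    (M * (epsZ a)ᵀ) s = EI11_i a (M s) := by
  funext t
  rw [FR3_mul_iotZ]
  rfl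

theorem EI11_mul_c (M : Matrix Lam Lam ℤ) (a : Fin 4) (s : Lam) :
    (M * (epsZ a - (epsZ a)ᵀ)) s = EI11_c a (M s) := by
  funext t
  rw [Matrix.mul_sub, Matrix.sub_apply, FR3_mul_epsZ, FR3_mul_iotZ]
  unfold EI11_c
  by_cases h : a ∈ t
  · simp [h]
  · simp [h]

/-- Row of the identity matrix. -/
def EI11_d (s t : Lam) : ℤ := if s = t then 1 else 0

/-- The integer version of `gam`. -/
def EI11_gZ : Matrix Lam Lam ℤ :=
  1 * (epsZ 0 - (epsZ 0)ᵀ) * (epsZ 1 - (epsZ 1)ᵀ) * (epsZ 2 - (epsZ 2)ᵀ) * (epsZ 3 - (epsZ 3)ᵀ)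

/-- The integer version of `evenOdd`. -/
def EI11_oZ : Matrix Lam Lam ℤ := Matrix.diagonal fun s => (-1) ^ s.card

theorem EI11_gam : gam ℝ = (Int.castRingHom ℝ).mapMatrix EI11_gZ := by
  have h : ∀ a, clf ℝ a = (Int.castRingHom ℝ).mapMatrix (epsZ a - (epsZ a)ᵀ) := by
    intro a
    rw [map_sub]
    rfl
  unfold gam EI11_gZ
  rw [h, h, h, h, one_mul, ← map_mul, ← map_mul, ← map_mul]

theorem EI11_odd : evenOdd ℝ = (Int.castRingHom ℝ).mapMatrix EI11_oZ := by
  ext s t
  simp only [evenOdd, EI11_oZ, RingHom.mapMatrix_apply, Matrix.map_apply]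
  by_cases h : s = t
  · subst h
    simp
  · simp [Matrix.diagonal_apply_ne _ h]

/-- The trace of a word. -/
def EI11_T (M : Matrix Lam Lam ℤ) (a b c d : Fin 4) : ℤ :=
  (M * epsZ a * (epsZ b)ᵀ * epsZ c * (epsZ d)ᵀ).trace

theorem EI11_T_eq (M : Matrix Lam Lam ℤ) (a b c d : Fin 4) :
    EI11_T M a b c d = ∑ s : Lam, EI11_i d (EI11_e c (EI11_i b (EI11_e a (M s)))) s := by
  unfold EI11_T Matrix.trace
  refine Finset.sum_congr rfl fun s _ => ?_
  rw [Matrix.diag_apply, EI11_mul_i, EI11_mul_e, EI11_mul_i, EI11_mul_e]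

/-- The sign of a quadruple of indices, times twelve. -/
def EI11_s (a b c d : Fin 4) : ℤ :=
  ((b.val : ℤ) - a.val) * ((c.val : ℤ) - a.val) * ((d.val : ℤ) - a.val) *
    ((c.val : ℤ) - b.val) * ((d.val : ℤ) - b.val) * ((d.val : ℤ) - c.val)

theorem EI11_odd_aux : ∀ a b c d : Fin 4,
    ∑ s : Lam, EI11_i d (EI11_e c (EI11_i b (EI11_e a
      (fun t => if s = t then (-1) ^ s.card else 0)))) s = 0 := by
  decide +kernel

theorem EI11_gam_aux : ∀ a b c d : Fin 4,
    12 * ∑ s : Lam, EI11_i d (EI11_e c (EI11_i b (EI11_e a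
      (EI11_c 3 (EI11_c 2 (EI11_c 1 (EI11_c 0 (EI11_d s)))))))) s = EI11_s a b c d := by
  decide +kernel

theorem EI11_odd_T (a b c d : Fin 4) : EI11_T EI11_oZ a b c d = 0 := by
  rw [EI11_T_eq, ← EI11_odd_aux a b c d]
  refine Finset.sum_congr rfl fun s _ => ?_
  have : EI11_oZ s = fun t => if s = t then (-1) ^ s.card else 0 := by
    funext t
    unfold EI11_oZ
    rw [Matrix.diagonal_apply]
  rw [this]

theorem EI11_gam_row (s : Lam) :
    EI11_gZ s = EI11_c 3 (EI11_c 2 (EI11_c 1 (EI11_c 0 (EI11_d s)))) := by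
  have h1 : (1 : Matrix Lam Lam ℤ) s = EI11_d s := by
    funext t
    unfold EI11_d
    rw [Matrix.one_apply]
  unfold EI11_gZ
  rw [EI11_mul_c, EI11_mul_c, EI11_mul_c, EI11_mul_c, h1]

theorem EI11_gam_T (a b c d : Fin 4) : 12 * EI11_T EI11_gZ a b c d = EI11_s a b c d := by
  rw [EI11_T_eq, ← EI11_gam_aux a b c d]
  simp only [EI11_gam_row]

theorem EI11_word (M : Matrix Lam Lam ℤ) (a b c d : Fin 4) :
    ((Int.castRingHom ℝ).mapMatrix M * ((eps ℝ a * iot ℝ b) * (eps ℝ c * iot ℝ d))).trace =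
      (EI11_T M a b c d : ℝ) := by
  have h : (Int.castRingHom ℝ).mapMatrix M * ((eps ℝ a * iot ℝ b) * (eps ℝ c * iot ℝ d)) =
      (Int.castRingHom ℝ).mapMatrix (M * epsZ a * (epsZ b)ᵀ * epsZ c * (epsZ d)ᵀ) := by
    rw [FR3_eps_eq, FR3_eps_eq, FR3_iot_eq, FR3_iot_eq]
    simp only [map_mul, mul_assoc]
  rw [h]
  unfold EI11_T Matrix.trace
  rw [Int.cast_sum]
  rfl

theorem EI11_sw (F : Fin 4 → Fin 4 → Fin 4 → Fin 4 → ℝ) :
    ∑ x, ∑ y, ∑ a, ∑ b, F a b x y = ∑ a, ∑ b, ∑ x, ∑ y, F a b x y := by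
  calc ∑ x, ∑ y, ∑ a, ∑ b, F a b x y = ∑ x, ∑ a, ∑ y, ∑ b, F a b x y :=
        Finset.sum_congr rfl fun x _ => Finset.sum_comm
    _ = ∑ a, ∑ x, ∑ y, ∑ b, F a b x y := Finset.sum_comm
    _ = ∑ a, ∑ x, ∑ b, ∑ y, F a b x y :=
        Finset.sum_congr rfl fun a _ => Finset.sum_congr rfl fun x _ => Finset.sum_comm
    _ = ∑ a, ∑ b, ∑ x, ∑ y, F a b x y := Finset.sum_congr rfl fun a _ => Finset.sum_comm

theorem EI11_expand (M : Matrix Lam Lam ℤ) (A : Matrix (Fin 4) (Fin 4) ℝ) :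
    ((Int.castRingHom ℝ).mapMatrix M * (rho A * rho A)).trace =
      ∑ a, ∑ b, ∑ c, ∑ d, A a b * A c d * (EI11_T M a b c d : ℝ) := by
  unfold rho
  simp only [Finset.sum_mul, Finset.mul_sum, Matrix.trace_sum]
  have key : ∀ a b c d : Fin 4, ((Int.castRingHom ℝ).mapMatrix M *
      (A a b • (eps ℝ a * iot ℝ b) * A c d • (eps ℝ c * iot ℝ d))).trace =
      A a b * A c d * (EI11_T M a b c d : ℝ) := by
    intro a b c d
    rw [← EI11_word, smul_mul_smul_comm, mul_smul_comm, Matrix.trace_smul, smul_eq_mul]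
  simp only [key]
  exact EI11_sw (fun a b c d => A a b * A c d * (EI11_T M a b c d : ℝ))

theorem thm_TrRho : claimTrRho := by
  intro A hA
  have hs : ∀ a b, A b a = -A a b := by
    intro a b
    have := congrFun (congrFun hA a) b
    simpa using this
  constructor
  · rw [EI11_odd, EI11_expand]
    simp only [EI11_odd_T, Int.cast_zero, mul_zero, Finset.sum_const_zero]
  · rw [EI11_gam, EI11_expand]
    have hT : ∀ a b c d : Fin 4, (EI11_T EI11_gZ a b c d : ℝ) = (EI11_s a b c d : ℝ) / 12 := by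
      intro a b c d
      rw [← EI11_gam_T]
      push_cast
      ring
    simp only [hT]
    have h00 : A 0 0 = 0 := by linarith [hs 0 0]
    have h11 : A 1 1 = 0 := by linarith [hs 1 1]
    have h22 : A 2 2 = 0 := by linarith [hs 2 2]
    have h33 : A 3 3 = 0 := by linarith [hs 3 3]
    have h10 := hs 0 1
    have h20 := hs 0 2
    have h30 := hs 0 3
    have h21 := hs 1 2
    have h31 := hs 1 3
    have h32 := hs 2 3
    simp only [Fin.sum_univ_four, pf2, h00, h11, h22, h33, h10, h20, h30, h21, h31, h32]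
    norm_num [EI11_s]
    ring

end NRF

end
end

section

/-!
# Items E12, E13: tables of traces of Clifford words
Signed permutations of the 16 basis forms are computed with natural numbers (bit masks).
-/

noncomputable section

namespace NRF

open Matrix Finset

/-! ### Signed permutations -/

/-- Bit mask of a subset. -/
def EI12_code (s : Lam) : ℕ :=
  (if (0 : Fin 4) ∈ s then 1 else 0) + (if (1 : Fin 4) ∈ s then 2 else 0) +
  (if (2 : Fin 4) ∈ s then 4 else 0) + (if (3 : Fin 4) ∈ s then 8 else 0)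

theorem EI12_code_lt : ∀ s : Lam, EI12_code s < 16 := by decide +kernel

theorem EI12_code_inj : ∀ s t : Lam, EI12_code s = EI12_code t → s = t := by decide +kernel

theorem EI12_code_surj : ∀ n < 16, ∃ s : Lam, EI12_code s = n := by decide +kernel

theorem EI12_code_image : (Finset.univ : Finset Lam).image EI12_code = Finset.range 16 := by
  decide +kernel

/-- sign of a boolean -/
def EI12_sg (b : Bool) : ℤ := match b with
  | true => -1
  | false => 1

theorem EI12_sg_xor (a b : Bool) : EI12_sg (xor a b) = EI12_sg a * EI12_sg b := by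
  cases a <;> cases b <;> rfl

/-- The integer matrix `M` is the signed permutation `f`. -/
def EI12_Rep (M : Matrix Lam Lam ℤ) (f : ℕ → Bool × ℕ) : Prop :=
  (∀ n < 16, (f n).2 < 16) ∧
  ∀ s t : Lam, M s t = if EI12_code s = (f (EI12_code t)).2 then
    EI12_sg (f (EI12_code t)).1 else 0

/-- composition -/
def EI12_comp (f g : ℕ → Bool × ℕ) (n : ℕ) : Bool × ℕ :=
  (xor (f (g n).2).1 (g n).1, (f (g n).2).2)

theorem EI12_rep_mul {M N : Matrix Lam Lam ℤ} {f g : ℕ → Bool × ℕ} (hf : EI12_Rep M f)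
    (hg : EI12_Rep N g) : EI12_Rep (M * N) (EI12_comp f g) := by
  refine ⟨fun n hn => hf.1 _ (hg.1 n hn), ?_⟩
  intro s t
  obtain ⟨u, hu⟩ := EI12_code_surj _ (hg.1 _ (EI12_code_lt t))
  rw [Matrix.mul_apply, Finset.sum_eq_single u]
  · rw [hg.2 u t, if_pos hu, hf.2 s u, hu]
    unfold EI12_comp
    simp only [EI12_sg_xor]
    split_ifs
    · rfl
    · rw [zero_mul]
  · intro v _ hv
    rw [hg.2 v t, if_neg, mul_zero]
    intro h
    exact hv (EI12_code_inj _ _ (h.trans hu.symm))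
  · intro h
    exact absurd (Finset.mem_univ _) h

/-- the trace of a signed permutation -/
def EI12_tr (f : ℕ → Bool × ℕ) : ℤ :=
  ((List.range 16).map fun n => bif Nat.beq n (f n).2 then EI12_sg (f n).1 else 0).sum

theorem EI12_trace {M : Matrix Lam Lam ℤ} {f : ℕ → Bool × ℕ} (hf : EI12_Rep M f) :
    M.trace = EI12_tr f := by
  have h1 : M.trace = ∑ t : Lam, (fun n => if n = (f n).2 then EI12_sg (f n).1 else 0)
      (EI12_code t) := by
    unfold Matrix.trace
    refine Finset.sum_congr rfl fun t _ => ?_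
    rw [Matrix.diag_apply, hf.2 t t]
  rw [h1, ← Finset.sum_image (f := fun n => if n = (f n).2 then EI12_sg (f n).1 else 0)
    (fun a _ b _ h => EI12_code_inj a b h), EI12_code_image]
  unfold EI12_tr
  have h2 : ∀ F : ℕ → ℤ, ((List.range 16).map F).sum = ∑ n ∈ Finset.range 16, F n :=
    fun F => rfl
  rw [h2]
  refine Finset.sum_congr rfl fun n _ => ?_
  by_cases h : n = (f n).2
  · have h3 : Nat.beq n (f n).2 = true := by rw [Nat.beq_eq]; exact h
    rw [if_pos h, h3, cond_true]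
  · have h3 : Nat.beq n (f n).2 = false := by
      rw [Bool.eq_false_iff, Ne, Nat.beq_eq]; exact h
    rw [if_neg h, h3, cond_false]

/-- parity of the bits below `a` -/
def EI12_par (a n : ℕ) : Bool :=
  let m := n % 2 ^ a
  Nat.beq m 1 || Nat.beq m 2 || Nat.beq m 4 || Nat.beq m 7

/-- bit -/
def EI12_bit (a n : ℕ) : Bool := Nat.beq ((n / 2 ^ a) % 2) 1

/-- the signed permutation of the Clifford multiplication (`k = true`) and of the other
Clifford multiplication (`k = false`) -/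
def EI12_act (k : Bool) (a n : ℕ) : Bool × ℕ :=
  bif EI12_bit a n then (xor k (EI12_par a n), n - 2 ^ a) else (EI12_par a n, n + 2 ^ a)

/-- `c_a` -/
def EI12_c (a : Fin 4) : Matrix Lam Lam ℤ := epsZ a - (epsZ a)ᵀ

/-- the other Clifford multiplication -/
def EI12_h (a : Fin 4) : Matrix Lam Lam ℤ := epsZ a + (epsZ a)ᵀ

theorem EI12_rep_c (a : Fin 4) : EI12_Rep (EI12_c a) (EI12_act true a) := by
  constructor
  · revert a; decide +kernel
  · revert a; 
    have h : ∀ a : Fin 4, ∀ s t : Lam, epsZ a s t - epsZ a t s =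
      if EI12_code s = (EI12_act true a (EI12_code t)).2 then
        EI12_sg (EI12_act true a (EI12_code t)).1 else 0 := by decide +kernel
    exact h

theorem EI12_rep_h (a : Fin 4) : EI12_Rep (EI12_h a) (EI12_act false a) := by
  constructor
  · revert a; decide +kernel
  · revert a; 
    have h : ∀ a : Fin 4, ∀ s t : Lam, epsZ a s t + epsZ a t s =
      if EI12_code s = (EI12_act false a (EI12_code t)).2 then
        EI12_sg (EI12_act false a (EI12_code t)).1 else 0 := by decide +kernel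
    exact h

/-! ### The words -/

/-- first element of a pair -/
def EI12_p : Fin 6 → Fin 4 := ![0, 0, 0, 1, 1, 2]

/-- second element of a pair -/
def EI12_q : Fin 6 → Fin 4 := ![1, 2, 3, 2, 3, 3]

/-- signed permutation of `E_i F_j` -/
def EI12_w (i j : Fin 6) : ℕ → Bool × ℕ :=
  EI12_comp (EI12_comp (EI12_comp (EI12_act true (EI12_p i)) (EI12_act true (EI12_q i)))
    (EI12_act false (EI12_p j))) (EI12_act false (EI12_q j))

/-- signed permutation of `evenOdd` -/
def EI12_eo (n : ℕ) : Bool × ℕ :=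
  (xor (xor (EI12_bit 0 n) (EI12_bit 1 n)) (xor (EI12_bit 2 n) (EI12_bit 3 n)), n)

/-- signs -/
def EI12_s : Fin 6 → ℤ := ![1, -1, 1, 1, -1, 1]

set_option maxRecDepth 100000 in
theorem EI12_tab : ∀ i j k l : Fin 6,
    EI12_tr (EI12_comp EI12_eo (EI12_comp (EI12_w i j) (EI12_w k l))) =
      if k = Fin.rev i ∧ l = Fin.rev j then 16 * (EI12_s i * EI12_s j) else 0 := by
  decide +kernel

theorem EI12_tab1 : ∀ i j : Fin 6,
    EI12_tr (EI12_comp EI12_eo (EI12_w i j)) = 0 := by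
  decide +kernel

theorem EI12_tab0 : EI12_tr EI12_eo = 0 := by
  decide +kernel

theorem EI12_rep_eo : EI12_Rep (evenOdd ℤ) EI12_eo := by
  constructor
  · intro n hn
    exact hn
  · have h : ∀ s t : Lam, (if s = t then (-1 : ℤ) ^ s.card else 0) =
      if EI12_code s = (EI12_eo (EI12_code t)).2 then
        EI12_sg (EI12_eo (EI12_code t)).1 else 0 := by decide +kernel
    intro s t
    rw [← h s t]
    unfold evenOdd
    rw [Matrix.diagonal_apply]

/-- `E_i` over the integers -/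
def EI12_E (i : Fin 6) : Matrix Lam Lam ℤ := EI12_c (EI12_p i) * EI12_c (EI12_q i)

/-- `F_j` over the integers -/
def EI12_F (j : Fin 6) : Matrix Lam Lam ℤ := EI12_h (EI12_p j) * EI12_h (EI12_q j)

theorem EI12_rep_w (i j : Fin 6) : EI12_Rep (EI12_E i * EI12_F j) (EI12_w i j) := by
  have h := EI12_rep_mul (EI12_rep_mul (EI12_rep_mul (EI12_rep_c (EI12_p i))
    (EI12_rep_c (EI12_q i))) (EI12_rep_h (EI12_p j))) (EI12_rep_h (EI12_q j))
  unfold EI12_E EI12_F
  rw [← Matrix.mul_assoc]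
  exact h

/-! ### The curvature term -/

/-- cast to real matrices -/
def EI12_R (M : Matrix Lam Lam ℤ) : Matrix Lam Lam ℝ := (Int.castRingHom ℝ).mapMatrix M

theorem EI12_R_mul (M N : Matrix Lam Lam ℤ) : EI12_R (M * N) = EI12_R M * EI12_R N :=
  map_mul _ _ _

theorem EI12_R_trace (M : Matrix Lam Lam ℤ) : (EI12_R M).trace = (M.trace : ℝ) := by
  unfold EI12_R Matrix.trace
  simp [RingHom.mapMatrix_apply, Matrix.map_apply]

theorem EI12_R_eo : EI12_R (evenOdd ℤ) = evenOdd ℝ := by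
  unfold EI12_R evenOdd
  ext s t
  simp [RingHom.mapMatrix_apply, Matrix.map_apply, Matrix.diagonal_apply]

theorem EI12_R_c (a : Fin 4) : EI12_R (EI12_c a) = clf ℝ a := by
  unfold EI12_R EI12_c clf
  rw [map_sub]
  rfl

theorem EI12_R_h (a : Fin 4) : EI12_R (EI12_h a) = eps ℝ a + iot ℝ a := by
  unfold EI12_R EI12_h
  rw [map_add]
  rfl

end NRF

end
end

section

/-!
# E14: the inequality for curvature tensors
-/

set_option linter.unusedSimpArgs false

open scoped Manifold ContDiff Topology RealInnerProductSpace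
open MeasureTheory Set

noncomputable section

namespace NRF

section

variable {Q : Fin 4 → Fin 4 → Fin 4 → Fin 4 → ℝ}

theorem EI14_z1 (h : IsCurv Q) (a c d : Fin 4) : Q a a c d = 0 := by
  have := h.anti1 a a c d
  linarith

theorem EI14_z2 (h : IsCurv Q) (a b c : Fin 4) : Q a b c c = 0 := by
  have := h.anti2 a b c c
  linarith

theorem EI14_tab (h : IsCurv Q) :
    Q 0 1 1 0 = -Q 0 1 0 1 ∧
    Q 0 1 2 0 = -Q 0 1 0 2 ∧
    Q 0 1 2 1 = -Q 0 1 1 2 ∧
    Q 0 1 2 3 = Q 0 2 1 3 - Q 0 3 1 2 ∧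
    Q 0 1 3 0 = -Q 0 1 0 3 ∧
    Q 0 1 3 1 = -Q 0 1 1 3 ∧
    Q 0 1 3 2 = -(Q 0 2 1 3 - Q 0 3 1 2) ∧
    Q 0 2 0 1 = Q 0 1 0 2 ∧
    Q 0 2 1 0 = -Q 0 1 0 2 ∧
    Q 0 2 2 0 = -Q 0 2 0 2 ∧
    Q 0 2 2 1 = -Q 0 2 1 2 ∧
    Q 0 2 3 0 = -Q 0 2 0 3 ∧
    Q 0 2 3 1 = -Q 0 2 1 3 ∧
    Q 0 2 3 2 = -Q 0 2 2 3 ∧
    Q 0 3 0 1 = Q 0 1 0 3 ∧
    Q 0 3 0 2 = Q 0 2 0 3 ∧
    Q 0 3 1 0 = -Q 0 1 0 3 ∧
    Q 0 3 2 0 = -Q 0 2 0 3 ∧
    Q 0 3 2 1 = -Q 0 3 1 2 ∧
    Q 0 3 3 0 = -Q 0 3 0 3 ∧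
    Q 0 3 3 1 = -Q 0 3 1 3 ∧
    Q 0 3 3 2 = -Q 0 3 2 3 ∧
    Q 1 0 0 1 = -Q 0 1 0 1 ∧
    Q 1 0 0 2 = -Q 0 1 0 2 ∧
    Q 1 0 0 3 = -Q 0 1 0 3 ∧
    Q 1 0 1 0 = Q 0 1 0 1 ∧
    Q 1 0 1 2 = -Q 0 1 1 2 ∧
    Q 1 0 1 3 = -Q 0 1 1 3 ∧
    Q 1 0 2 0 = Q 0 1 0 2 ∧
    Q 1 0 2 1 = Q 0 1 1 2 ∧
    Q 1 0 2 3 = -(Q 0 2 1 3 - Q 0 3 1 2) ∧
    Q 1 0 3 0 = Q 0 1 0 3 ∧
    Q 1 0 3 1 = Q 0 1 1 3 ∧
    Q 1 0 3 2 = Q 0 2 1 3 - Q 0 3 1 2 ∧
    Q 1 2 0 1 = Q 0 1 1 2 ∧
    Q 1 2 0 2 = Q 0 2 1 2 ∧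
    Q 1 2 0 3 = Q 0 3 1 2 ∧
    Q 1 2 1 0 = -Q 0 1 1 2 ∧
    Q 1 2 2 0 = -Q 0 2 1 2 ∧
    Q 1 2 2 1 = -Q 1 2 1 2 ∧
    Q 1 2 3 0 = -Q 0 3 1 2 ∧
    Q 1 2 3 1 = -Q 1 2 1 3 ∧
    Q 1 2 3 2 = -Q 1 2 2 3 ∧
    Q 1 3 0 1 = Q 0 1 1 3 ∧
    Q 1 3 0 2 = Q 0 2 1 3 ∧
    Q 1 3 0 3 = Q 0 3 1 3 ∧
    Q 1 3 1 0 = -Q 0 1 1 3 ∧
    Q 1 3 1 2 = Q 1 2 1 3 ∧
    Q 1 3 2 0 = -Q 0 2 1 3 ∧
    Q 1 3 2 1 = -Q 1 2 1 3 ∧
    Q 1 3 3 0 = -Q 0 3 1 3 ∧
    Q 1 3 3 1 = -Q 1 3 1 3 ∧
    Q 1 3 3 2 = -Q 1 3 2 3 ∧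
    Q 2 0 0 1 = -Q 0 1 0 2 ∧
    Q 2 0 0 2 = -Q 0 2 0 2 ∧
    Q 2 0 0 3 = -Q 0 2 0 3 ∧
    Q 2 0 1 0 = Q 0 1 0 2 ∧
    Q 2 0 1 2 = -Q 0 2 1 2 ∧
    Q 2 0 1 3 = -Q 0 2 1 3 ∧
    Q 2 0 2 0 = Q 0 2 0 2 ∧
    Q 2 0 2 1 = Q 0 2 1 2 ∧
    Q 2 0 2 3 = -Q 0 2 2 3 ∧
    Q 2 0 3 0 = Q 0 2 0 3 ∧
    Q 2 0 3 1 = Q 0 2 1 3 ∧
    Q 2 0 3 2 = Q 0 2 2 3 ∧
    Q 2 1 0 1 = -Q 0 1 1 2 ∧
    Q 2 1 0 2 = -Q 0 2 1 2 ∧
    Q 2 1 0 3 = -Q 0 3 1 2 ∧
    Q 2 1 1 0 = Q 0 1 1 2 ∧
    Q 2 1 1 2 = -Q 1 2 1 2 ∧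
    Q 2 1 1 3 = -Q 1 2 1 3 ∧
    Q 2 1 2 0 = Q 0 2 1 2 ∧
    Q 2 1 2 1 = Q 1 2 1 2 ∧
    Q 2 1 2 3 = -Q 1 2 2 3 ∧
    Q 2 1 3 0 = Q 0 3 1 2 ∧
    Q 2 1 3 1 = Q 1 2 1 3 ∧
    Q 2 1 3 2 = Q 1 2 2 3 ∧
    Q 2 3 0 1 = Q 0 2 1 3 - Q 0 3 1 2 ∧
    Q 2 3 0 2 = Q 0 2 2 3 ∧
    Q 2 3 0 3 = Q 0 3 2 3 ∧
    Q 2 3 1 0 = -(Q 0 2 1 3 - Q 0 3 1 2) ∧
    Q 2 3 1 2 = Q 1 2 2 3 ∧
    Q 2 3 1 3 = Q 1 3 2 3 ∧
    Q 2 3 2 0 = -Q 0 2 2 3 ∧
    Q 2 3 2 1 = -Q 1 2 2 3 ∧
    Q 2 3 3 0 = -Q 0 3 2 3 ∧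
    Q 2 3 3 1 = -Q 1 3 2 3 ∧
    Q 2 3 3 2 = -Q 2 3 2 3 ∧
    Q 3 0 0 1 = -Q 0 1 0 3 ∧
    Q 3 0 0 2 = -Q 0 2 0 3 ∧
    Q 3 0 0 3 = -Q 0 3 0 3 ∧
    Q 3 0 1 0 = Q 0 1 0 3 ∧
    Q 3 0 1 2 = -Q 0 3 1 2 ∧
    Q 3 0 1 3 = -Q 0 3 1 3 ∧
    Q 3 0 2 0 = Q 0 2 0 3 ∧
    Q 3 0 2 1 = Q 0 3 1 2 ∧
    Q 3 0 2 3 = -Q 0 3 2 3 ∧
    Q 3 0 3 0 = Q 0 3 0 3 ∧
    Q 3 0 3 1 = Q 0 3 1 3 ∧
    Q 3 0 3 2 = Q 0 3 2 3 ∧
    Q 3 1 0 1 = -Q 0 1 1 3 ∧
    Q 3 1 0 2 = -Q 0 2 1 3 ∧
    Q 3 1 0 3 = -Q 0 3 1 3 ∧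
    Q 3 1 1 0 = Q 0 1 1 3 ∧
    Q 3 1 1 2 = -Q 1 2 1 3 ∧
    Q 3 1 1 3 = -Q 1 3 1 3 ∧
    Q 3 1 2 0 = Q 0 2 1 3 ∧
    Q 3 1 2 1 = Q 1 2 1 3 ∧
    Q 3 1 2 3 = -Q 1 3 2 3 ∧
    Q 3 1 3 0 = Q 0 3 1 3 ∧
    Q 3 1 3 1 = Q 1 3 1 3 ∧
    Q 3 1 3 2 = Q 1 3 2 3 ∧
    Q 3 2 0 1 = -(Q 0 2 1 3 - Q 0 3 1 2) ∧
    Q 3 2 0 2 = -Q 0 2 2 3 ∧
    Q 3 2 0 3 = -Q 0 3 2 3 ∧
    Q 3 2 1 0 = Q 0 2 1 3 - Q 0 3 1 2 ∧
    Q 3 2 1 2 = -Q 1 2 2 3 ∧
    Q 3 2 1 3 = -Q 1 3 2 3 ∧
    Q 3 2 2 0 = Q 0 2 2 3 ∧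
    Q 3 2 2 1 = Q 1 2 2 3 ∧
    Q 3 2 2 3 = -Q 2 3 2 3 ∧
    Q 3 2 3 0 = Q 0 3 2 3 ∧
    Q 3 2 3 1 = Q 1 3 2 3 ∧
    Q 3 2 3 2 = Q 2 3 2 3 := by
  refine ⟨?_, ?_, ?_, ?_, ?_, ?_, ?_, ?_, ?_, ?_, ?_, ?_, ?_, ?_, ?_, ?_, ?_, ?_, ?_, ?_, ?_, ?_, ?_, ?_, ?_, ?_, ?_, ?_, ?_, ?_, ?_, ?_, ?_, ?_, ?_, ?_, ?_, ?_, ?_, ?_, ?_, ?_, ?_, ?_, ?_, ?_, ?_, ?_, ?_, ?_, ?_, ?_, ?_, ?_, ?_, ?_, ?_, ?_, ?_, ?_, ?_, ?_, ?_, ?_, ?_, ?_, ?_, ?_, ?_, ?_, ?_, ?_, ?_, ?_, ?_, ?_, ?_, ?_, ?_, ?_, ?_, ?_, ?_, ?_, ?_, ?_, ?_, ?_, ?_, ?_, ?_, ?_, ?_, ?_, ?_, ?_, ?_, ?_, ?_, ?_, ?_, ?_, ?_, ?_, ?_, ?_, ?_, ?_, ?_, ?_, ?_, ?_, ?_, ?_, ?_, ?_, ?_, ?_, ?_, ?_, ?_, ?_, ?_, ?_⟩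
  · linarith [h.anti2 0 1 1 0]
  · linarith [h.anti2 0 1 2 0]
  · linarith [h.anti2 0 1 2 1]
  · linarith [h.bianchi 0 1 2 3, h.anti2 0 2 3 1]
  · linarith [h.anti2 0 1 3 0]
  · linarith [h.anti2 0 1 3 1]
  · linarith [h.anti2 0 1 3 2, h.bianchi 0 1 2 3, h.anti2 0 2 3 1]
  · linarith [h.pair 0 2 0 1]
  · linarith [h.anti2 0 2 1 0, h.pair 0 2 0 1]
  · linarith [h.anti2 0 2 2 0]
  · linarith [h.anti2 0 2 2 1]
  · linarith [h.anti2 0 2 3 0]
  · linarith [h.anti2 0 2 3 1]
  · linarith [h.anti2 0 2 3 2]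
  · linarith [h.pair 0 3 0 1]
  · linarith [h.pair 0 3 0 2]
  · linarith [h.anti2 0 3 1 0, h.pair 0 3 0 1]
  · linarith [h.anti2 0 3 2 0, h.pair 0 3 0 2]
  · linarith [h.anti2 0 3 2 1]
  · linarith [h.anti2 0 3 3 0]
  · linarith [h.anti2 0 3 3 1]
  · linarith [h.anti2 0 3 3 2]
  · linarith [h.anti1 1 0 0 1]
  · linarith [h.anti1 1 0 0 2]
  · linarith [h.anti1 1 0 0 3]
  · linarith [h.anti1 1 0 1 0, h.anti2 0 1 1 0]
  · linarith [h.anti1 1 0 1 2]
  · linarith [h.anti1 1 0 1 3]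
  · linarith [h.anti1 1 0 2 0, h.anti2 0 1 2 0]
  · linarith [h.anti1 1 0 2 1, h.anti2 0 1 2 1]
  · linarith [h.anti1 1 0 2 3, h.bianchi 0 1 2 3, h.anti2 0 2 3 1]
  · linarith [h.anti1 1 0 3 0, h.anti2 0 1 3 0]
  · linarith [h.anti1 1 0 3 1, h.anti2 0 1 3 1]
  · linarith [h.anti1 1 0 3 2, h.anti2 0 1 3 2, h.bianchi 0 1 2 3, h.anti2 0 2 3 1]
  · linarith [h.pair 1 2 0 1]
  · linarith [h.pair 1 2 0 2]
  · linarith [h.pair 1 2 0 3]
  · linarith [h.anti2 1 2 1 0, h.pair 1 2 0 1]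
  · linarith [h.anti2 1 2 2 0, h.pair 1 2 0 2]
  · linarith [h.anti2 1 2 2 1]
  · linarith [h.anti2 1 2 3 0, h.pair 1 2 0 3]
  · linarith [h.anti2 1 2 3 1]
  · linarith [h.anti2 1 2 3 2]
  · linarith [h.pair 1 3 0 1]
  · linarith [h.pair 1 3 0 2]
  · linarith [h.pair 1 3 0 3]
  · linarith [h.anti2 1 3 1 0, h.pair 1 3 0 1]
  · linarith [h.pair 1 3 1 2]
  · linarith [h.anti2 1 3 2 0, h.pair 1 3 0 2]
  · linarith [h.anti2 1 3 2 1, h.pair 1 3 1 2]
  · linarith [h.anti2 1 3 3 0, h.pair 1 3 0 3]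
  · linarith [h.anti2 1 3 3 1]
  · linarith [h.anti2 1 3 3 2]
  · linarith [h.anti1 2 0 0 1, h.pair 0 2 0 1]
  · linarith [h.anti1 2 0 0 2]
  · linarith [h.anti1 2 0 0 3]
  · linarith [h.anti1 2 0 1 0, h.anti2 0 2 1 0, h.pair 0 2 0 1]
  · linarith [h.anti1 2 0 1 2]
  · linarith [h.anti1 2 0 1 3]
  · linarith [h.anti1 2 0 2 0, h.anti2 0 2 2 0]
  · linarith [h.anti1 2 0 2 1, h.anti2 0 2 2 1]
  · linarith [h.anti1 2 0 2 3]
  · linarith [h.anti1 2 0 3 0, h.anti2 0 2 3 0]
  · linarith [h.anti1 2 0 3 1, h.anti2 0 2 3 1]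
  · linarith [h.anti1 2 0 3 2, h.anti2 0 2 3 2]
  · linarith [h.anti1 2 1 0 1, h.pair 1 2 0 1]
  · linarith [h.anti1 2 1 0 2, h.pair 1 2 0 2]
  · linarith [h.anti1 2 1 0 3, h.pair 1 2 0 3]
  · linarith [h.anti1 2 1 1 0, h.anti2 1 2 1 0, h.pair 1 2 0 1]
  · linarith [h.anti1 2 1 1 2]
  · linarith [h.anti1 2 1 1 3]
  · linarith [h.anti1 2 1 2 0, h.anti2 1 2 2 0, h.pair 1 2 0 2]
  · linarith [h.anti1 2 1 2 1, h.anti2 1 2 2 1]
  · linarith [h.anti1 2 1 2 3]
  · linarith [h.anti1 2 1 3 0, h.anti2 1 2 3 0, h.pair 1 2 0 3]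
  · linarith [h.anti1 2 1 3 1, h.anti2 1 2 3 1]
  · linarith [h.anti1 2 1 3 2, h.anti2 1 2 3 2]
  · linarith [h.pair 2 3 0 1, h.bianchi 0 1 2 3, h.anti2 0 2 3 1]
  · linarith [h.pair 2 3 0 2]
  · linarith [h.pair 2 3 0 3]
  · linarith [h.anti2 2 3 1 0, h.pair 2 3 0 1, h.bianchi 0 1 2 3, h.anti2 0 2 3 1]
  · linarith [h.pair 2 3 1 2]
  · linarith [h.pair 2 3 1 3]
  · linarith [h.anti2 2 3 2 0, h.pair 2 3 0 2]
  · linarith [h.anti2 2 3 2 1, h.pair 2 3 1 2]
  · linarith [h.anti2 2 3 3 0, h.pair 2 3 0 3]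
  · linarith [h.anti2 2 3 3 1, h.pair 2 3 1 3]
  · linarith [h.anti2 2 3 3 2]
  · linarith [h.anti1 3 0 0 1, h.pair 0 3 0 1]
  · linarith [h.anti1 3 0 0 2, h.pair 0 3 0 2]
  · linarith [h.anti1 3 0 0 3]
  · linarith [h.anti1 3 0 1 0, h.anti2 0 3 1 0, h.pair 0 3 0 1]
  · linarith [h.anti1 3 0 1 2]
  · linarith [h.anti1 3 0 1 3]
  · linarith [h.anti1 3 0 2 0, h.anti2 0 3 2 0, h.pair 0 3 0 2]
  · linarith [h.anti1 3 0 2 1, h.anti2 0 3 2 1]
  · linarith [h.anti1 3 0 2 3]
  · linarith [h.anti1 3 0 3 0, h.anti2 0 3 3 0]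
  · linarith [h.anti1 3 0 3 1, h.anti2 0 3 3 1]
  · linarith [h.anti1 3 0 3 2, h.anti2 0 3 3 2]
  · linarith [h.anti1 3 1 0 1, h.pair 1 3 0 1]
  · linarith [h.anti1 3 1 0 2, h.pair 1 3 0 2]
  · linarith [h.anti1 3 1 0 3, h.pair 1 3 0 3]
  · linarith [h.anti1 3 1 1 0, h.anti2 1 3 1 0, h.pair 1 3 0 1]
  · linarith [h.anti1 3 1 1 2, h.pair 1 3 1 2]
  · linarith [h.anti1 3 1 1 3]
  · linarith [h.anti1 3 1 2 0, h.anti2 1 3 2 0, h.pair 1 3 0 2]
  · linarith [h.anti1 3 1 2 1, h.anti2 1 3 2 1, h.pair 1 3 1 2]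
  · linarith [h.anti1 3 1 2 3]
  · linarith [h.anti1 3 1 3 0, h.anti2 1 3 3 0, h.pair 1 3 0 3]
  · linarith [h.anti1 3 1 3 1, h.anti2 1 3 3 1]
  · linarith [h.anti1 3 1 3 2, h.anti2 1 3 3 2]
  · linarith [h.anti1 3 2 0 1, h.pair 2 3 0 1, h.bianchi 0 1 2 3, h.anti2 0 2 3 1]
  · linarith [h.anti1 3 2 0 2, h.pair 2 3 0 2]
  · linarith [h.anti1 3 2 0 3, h.pair 2 3 0 3]
  · linarith [h.anti1 3 2 1 0, h.anti2 2 3 1 0, h.pair 2 3 0 1, h.bianchi 0 1 2 3, h.anti2 0 2 3 1]
  · linarith [h.anti1 3 2 1 2, h.pair 2 3 1 2]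
  · linarith [h.anti1 3 2 1 3, h.pair 2 3 1 3]
  · linarith [h.anti1 3 2 2 0, h.anti2 2 3 2 0, h.pair 2 3 0 2]
  · linarith [h.anti1 3 2 2 1, h.anti2 2 3 2 1, h.pair 2 3 1 2]
  · linarith [h.anti1 3 2 2 3]
  · linarith [h.anti1 3 2 3 0, h.anti2 2 3 3 0, h.pair 2 3 0 3]
  · linarith [h.anti1 3 2 3 1, h.anti2 2 3 3 1, h.pair 2 3 1 3]
  · linarith [h.anti1 3 2 3 2, h.anti2 2 3 3 2]

theorem thm_CurvIneq : claimCurvIneq := by
  intro Q h σ hσ
  obtain ⟨e0, e1, e2, e3, e4, e5, e6, e7, e8, e9, e10, e11, e12, e13, e14, e15, e16, e17, e18, e19, e20, e21, e22, e23, e24, e25, e26, e27, e28, e29, e30, e31, e32, e33, e34, e35, e36, e37, e38, e39, e40, e41, e42, e43, e44, e45, e46, e47, e48, e49, e50, e51, e52, e53, e54, e55, e56, e57, e58, e59, e60, e61, e62, e63, e64, e65, e66, e67, e68, e69, e70, e71, e72, e73, e74, e75, e76, e77, e78, e79, e80, e81, e82, e83, e84, e85, e86, e87, e88, e89, e90, e91, e92, e93, e94, e95, e96, e97, e98, e99, e100, e101,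 e102, e103, e104, e105, e106, e107, e108, e109, e110, e111, e112, e113, e114, e115, e116, e117, e118, e119, e120, e121, e122, e123⟩ := EI14_tab h
  simp only [Fin.sum_univ_four, pf2, EI14_z1 h, EI14_z2 h, e0, e1, e2, e3, e4, e5, e6, e7, e8, e9, e10, e11, e12, e13, e14, e15, e16, e17, e18, e19, e20, e21, e22, e23, e24, e25, e26, e27, e28, e29, e30, e31, e32, e33, e34, e35, e36, e37, e38, e39, e40, e41, e42, e43, e44, e45, e46, e47, e48, e49, e50, e51, e52, e53, e54, e55, e56, e57, e58, e59, e60, e61, e62, e63, e64, e65, e66, e67, e68, e69, e70, e71, e72, e73, e74, e75, e76, e77, e78, e79, e80, e81, e82, e83, e84, e85, e86, e87, e88, e89, e90, e91, e92, e93, e94, e95, e96, e97, e98, e99, e100, e101, e102, e103, e104, e105, e106, e107, e108, e109, e110, e111, e112, e113, e114, e115, e116, e117, e118, e119, e120, e121, e122, e123]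
  generalize Q 0 1 0 1 = q0101
  generalize Q 0 1 0 2 = q0102
  generalize Q 0 1 0 3 = q0103
  generalize Q 0 1 1 2 = q0112
  generalize Q 0 1 1 3 = q0113
  generalize Q 0 2 0 2 = q0202
  generalize Q 0 2 0 3 = q0203
  generalize Q 0 2 1 2 = q0212
  generalize Q 0 2 1 3 = q0213
  generalize Q 0 2 2 3 = q0223
  generalize Q 0 3 0 3 = q0303
  generalize Q 0 3 1 2 = q0312
  generalize Q 0 3 1 3 = q0313
  generalize Q 0 3 2 3 = q0323
  generalize Q 1 2 1 2 = q1212
  generalize Q 1 2 1 3 = q1213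
  generalize Q 1 2 2 3 = q1223
  generalize Q 1 3 1 3 = q1313
  generalize Q 1 3 2 3 = q1323
  generalize Q 2 3 2 3 = q2323
  rcases hσ with rfl | rfl
  · have s1 := sq_nonneg ((q0101 - (q0213 - q0312) - (q0213 - q0312) + q2323) - (q0202 + q0213 + q0213 + q1313))
    have s2 := sq_nonneg ((q0101 - (q0213 - q0312) - (q0213 - q0312) + q2323) - (q0303 - q0312 - q0312 + q1212))
    have s3 := sq_nonneg ((q0202 + q0213 + q0213 + q1313) - (q0303 - q0312 - q0312 + q1212))
    have s4 := sq_nonneg (q0102 + q0113 - q0223 - q1323)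
    have s5 := sq_nonneg (q0103 - q0112 - q0323 + q1223)
    have s6 := sq_nonneg (q0203 - q0212 + q0313 - q1213)
    linarith [s1, s2, s3, s4, s5, s6]
  · have s1 := sq_nonneg ((q0101 + (q0213 - q0312) + (q0213 - q0312) + q2323) - (q0202 - q0213 - q0213 + q1313))
    have s2 := sq_nonneg ((q0101 + (q0213 - q0312) + (q0213 - q0312) + q2323) - (q0303 + q0312 + q0312 + q1212))
    have s3 := sq_nonneg ((q0202 - q0213 - q0213 + q1313) - (q0303 + q0312 + q0312 + q1212))
    have s4 := sq_nonneg (q0102 - q0113 + q0223 - q1323)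
    have s5 := sq_nonneg (q0103 + q0112 + q0323 + q1223)
    have s6 := sq_nonneg (q0203 + q0212 - q0313 - q1213)
    linarith [s1, s2, s3, s4, s5, s6]

end

end NRF

end
end
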