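import Pool.Agent.Work.MP_7f974f_gt.Stmts_D1
import Pool.Agent.Work.MP_7f974f_gt.Bd.B07
import Pool.Agent.Work.MP_7f974f_gt.Bd.B08
import Pool.Agent.Work.MP_7f974f_gt.Bd.B04
import Pool.Agent.Work.MP_7f974f_gt.Bd.B01
import Pool.Agent.Work.MP_7f974f_gt.Bd.B02
import Pool.Agent.Work.MP_7f974f_gt.Bd.B03

/-! Bundle of small proof modules (one section per former module). -/

section

/-!
# Item D2: frame components of alternating forms
-/

open scoped Manifold ContDiff Topology RealInnerProductSpace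
open MeasureTheory Set

noncomputable section

namespace NRF

/-! ### Expansion of an alternating map in minors -/

/-- Injective functions with a given image are compositions of the increasing enumeration with
a permutation. -/
theorem D2_sum_perm {k : ℕ} (t : Finset (Fin 4)) (h : t.card = k) (g : (Fin k → Fin 4) → ℝ) :
    ∑ r ∈ (Finset.univ : Finset (Fin k → Fin 4)).filter
      (fun r => Function.Injective r ∧ Finset.univ.image r = t), g r =
      ∑ σ : Equiv.Perm (Fin k), g (fun j => t.orderEmbOfFin h (σ j)) := by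
  symm
  refine Finset.sum_bij (fun σ _ j => t.orderEmbOfFin h (σ j)) ?_ ?_ ?_ ?_
  · intro σ _
    rw [Finset.mem_filter]
    refine ⟨Finset.mem_univ _, (t.orderEmbOfFin h).injective.comp σ.injective, ?_⟩
    have h1 : (fun j => t.orderEmbOfFin h (σ j)) = (t.orderEmbOfFin h) ∘ σ := rfl
    rw [h1, ← Finset.image_image, Finset.image_univ_equiv]
    exact Finset.image_orderEmbOfFin_univ t h
  · intro σ _ τ _ hst
    ext j
    have := congrFun hst j
    exact congrArg Fin.val ((t.orderEmbOfFin h).injective this)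
  · intro r hr
    rw [Finset.mem_filter] at hr
    obtain ⟨-, hinj, him⟩ := hr
    have hmem : ∀ j, r j ∈ t := fun j => by
      rw [← him]; exact Finset.mem_image_of_mem _ (Finset.mem_univ j)
    set f : Fin k → Fin k := fun j => (t.orderIsoOfFin h).symm ⟨r j, hmem j⟩ with hf
    have hfi : Function.Injective f := by
      intro a b hab
      have := (t.orderIsoOfFin h).symm.injective hab
      exact hinj (congrArg Subtype.val this)
    refine ⟨Equiv.ofBijective f (Finite.injective_iff_bijective.1 hfi), Finset.mem_univ _, ?_⟩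
    funext j
    change t.orderEmbOfFin h (f j) = r j
    have : ((t.orderIsoOfFin h) (f j) : Fin 4) = r j := by
      rw [hf]; simp
    rw [← this]
    exact (Finset.coe_orderIsoOfFin_apply t h (f j)).symm
  · intro σ _
    rfl

/-- Expansion of an alternating map in minors. -/
theorem D2_expand {M : Type*} [AddCommGroup M] [Module ℝ M] {k : ℕ}
    (w : M [⋀^Fin k]→ₗ[ℝ] ℝ) (c : Fin 4 → Fin k → ℝ) (v : Fin 4 → M) :
    w (fun j => ∑ b, c b j • v b) = ∑ t : Finset (Fin 4), if h : t.card = k then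
      (Matrix.of fun i j => c (t.orderEmbOfFin h i) j).det *
        w (fun j => v (t.orderEmbOfFin h j)) else 0 := by
  have h1 : w (fun j => ∑ b, c b j • v b) =
      ∑ r : Fin k → Fin 4, (∏ j, c (r j) j) * w (fun j => v (r j)) := by
    have := w.toMultilinearMap.map_sum (fun j b => c b j • v b)
    refine this.trans (Finset.sum_congr rfl fun r _ => ?_)
    have h2 := w.toMultilinearMap.map_smul_univ (fun j => c (r j) j) (fun j => v (r j))
    exact h2
  rw [h1]
  -- only injective functions contribute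
  have h2 : ∑ r : Fin k → Fin 4, (∏ j, c (r j) j) * w (fun j => v (r j)) =
      ∑ r ∈ (Finset.univ : Finset (Fin k → Fin 4)).filter (fun r => Function.Injective r),
        (∏ j, c (r j) j) * w (fun j => v (r j)) := by
    symm
    refine Finset.sum_subset (Finset.filter_subset _ _) fun r _ hr => ?_
    rw [Finset.mem_filter, not_and] at hr
    have h3 : ¬ Function.Injective fun j => v (r j) := fun hi =>
      hr (Finset.mem_univ _) fun a b hab => hi (by simp only [hab])
    rw [w.map_eq_zero_of_not_injective _ h3, mul_zero]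
  rw [h2, ← Finset.sum_fiberwise _ (fun r => Finset.univ.image r)]
  refine Finset.sum_congr rfl fun t _ => ?_
  rw [Finset.filter_filter]
  by_cases h : t.card = k
  · rw [dif_pos h, D2_sum_perm t h (fun r => (∏ j, c (r j) j) * w (fun j => v (r j))),
      Matrix.det_apply, Finset.sum_mul]
    refine Finset.sum_congr rfl fun σ _ => ?_
    have h3 := w.map_perm (fun j => v (t.orderEmbOfFin h j)) σ
    have h4 : (fun j => v (t.orderEmbOfFin h (σ j))) =
      (fun j => v (t.orderEmbOfFin h j)) ∘ σ := rfl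
    rw [h4, h3]
    simp only [Matrix.of_apply, Units.smul_def, zsmul_eq_mul]
    ring
  · rw [dif_neg h]
    refine Finset.sum_eq_zero fun r hr => ?_
    rw [Finset.mem_filter] at hr
    obtain ⟨-, hinj, him⟩ := hr
    exfalso
    apply h
    rw [← him, Finset.card_image_of_injective _ hinj, Finset.card_univ, Fintype.card_fin]

/-! ### Part 1 -/

theorem D2_fvec_mul (F O : Matrix (Fin 4) (Fin 4) ℝ) (a : Fin 4) :
    fvec (fun _ => F * O) a 0 = ∑ b, O b a • fvec (fun _ => F) b 0 := by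
  unfold fvec
  simp only [Finset.smul_sum, smul_smul]
  rw [Finset.sum_comm]
  refine Finset.sum_congr rfl fun k _ => ?_
  rw [Matrix.mul_apply, Finset.sum_smul]
  refine Finset.sum_congr rfl fun b _ => ?_
  rw [mul_comm]

theorem D2_part1 (k : ℕ) (F O : Matrix (Fin 4) (Fin 4) ℝ) (w : E4 [⋀^Fin k]→L[ℝ] ℝ) :
    compP (F * O) w = (LamM O).transpose.mulVec (compP F w) := by
  funext s
  unfold Matrix.mulVec dotProduct
  by_cases h : s.card = k
  · subst h
    have h1 : compP (F * O) w s = w.toAlternatingMap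
        (fun j => ∑ b, O b (s.orderEmbOfFin rfl j) • fvec (fun _ => F) b 0) := by
      unfold compP comp
      rw [dif_pos rfl]
      simp only [D2_fvec_mul]
      rfl
    rw [h1, D2_expand w.toAlternatingMap (fun b j => O b (s.orderEmbOfFin rfl j))]
    refine Finset.sum_congr rfl fun t _ => ?_
    change _ = LamM O t s * compP F w t
    unfold LamM compP comp
    rw [Matrix.of_apply]
    by_cases ht : t.card = s.card
    · rw [dif_pos ht, dif_pos ht, dif_pos ht]
      congr 1
      -- reindex the minor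
      rw [← Matrix.det_submatrix_equiv_self (finCongr ht)]
      congr 1
    · rw [dif_neg ht, dif_neg ht, zero_mul]
  · have h1 : compP (F * O) w s = 0 := by
      unfold compP comp
      rw [dif_neg h]
    rw [h1]
    symm
    refine Finset.sum_eq_zero fun t _ => ?_
    change LamM O t s * compP F w t = 0
    unfold LamM
    rw [Matrix.of_apply]
    by_cases ht : t.card = s.card
    · have h2 : compP F w t = 0 := by
        unfold compP comp
        rw [dif_neg (by rw [ht]; exact h)]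
      rw [h2, mul_zero]
    · rw [dif_neg ht, zero_mul]

/-! ### Part 2 -/

theorem D2_part2 (k : ℕ) (F : Matrix (Fin 4) (Fin 4) ℝ) (w : E4 [⋀^Fin k]→L[ℝ] ℝ)
    (A : E4 →L[ℝ] E4) : compP F (w.compContinuousLinearMap A) =
      compP ((Matrix.of fun i j => (A (bv j)) i) * F) w := by
  have h1 : ∀ a, A (fvec (fun _ => F) a 0) =
      fvec (fun _ => (Matrix.of fun i j => (A (bv j)) i) * F) a 0 := by
    intro a
    ext j
    rw [FC4_fvec_apply, Matrix.mul_apply]
    unfold fvec
    rw [map_sum]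
    simp only [map_smul]
    have : (∑ k, F k a • A (bv k) : E4) j = ∑ k, (F k a • A (bv k) : E4) j := by simp
    rw [this]
    refine Finset.sum_congr rfl fun k _ => ?_
    simp [mul_comm]
  funext s
  unfold compP comp
  by_cases h : s.card = k
  · rw [dif_pos h, dif_pos h]
    simp only [← h1]
    rfl
  · rw [dif_neg h, dif_neg h]

/-! ### Part 3 -/

/-- The coordinates with indices in `s`. -/
def D2_L {k : ℕ} (s : Finset (Fin 4)) (h : s.card = k) : E4 →L[ℝ] (Fin k → ℝ) :=
  ContinuousLinearMap.pi fun i => (EuclideanSpace.proj (s.orderEmbOfFin h i) : E4 →L[ℝ] ℝ)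

/-- The determinant as a continuous alternating map in the rows. -/
def D2_det (k : ℕ) : (Fin k → ℝ) [⋀^Fin k]→L[ℝ] ℝ where
  toContinuousMultilinearMap :=
    { toMultilinearMap := (Matrix.detRowAlternating (n := Fin k) (R := ℝ)).toMultilinearMap
      cont := by
        change Continuous fun m : Fin k → Fin k → ℝ => Matrix.det (Matrix.of m)
        exact Continuous.matrix_det continuous_id }
  map_eq_zero_of_eq' := fun v i j hv hij =>
    (Matrix.detRowAlternating (n := Fin k) (R := ℝ)).map_eq_zero_of_eq v hv hij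

/-- The basic `k`-form of the index set `s`. -/
def D2_th {k : ℕ} (s : Finset (Fin 4)) (h : s.card = k) : E4 [⋀^Fin k]→L[ℝ] ℝ :=
  (D2_det k).compContinuousLinearMap (D2_L s h)

theorem D2_th_apply {k : ℕ} (s : Finset (Fin 4)) (h : s.card = k) (v : Fin k → E4) :
    D2_th s h v = (Matrix.of fun j i => (v j) (s.orderEmbOfFin h i)).det := rfl

theorem D2_fvec_one (a : Fin 4) : fvec (fun _ => (1 : Matrix (Fin 4) (Fin 4) ℝ)) a 0 = bv a := by
  unfold fvec
  rw [Finset.sum_eq_single a]
  · change (1 : Matrix (Fin 4) (Fin 4) ℝ) a a • bv a = bv a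
    rw [Matrix.one_apply_eq, one_smul]
  · intro b _ hb
    change (1 : Matrix (Fin 4) (Fin 4) ℝ) b a • bv b = 0
    rw [Matrix.one_apply_ne hb, zero_smul]
  · intro h
    exact absurd (Finset.mem_univ _) h

theorem D2_compP_one {k : ℕ} (w : E4 [⋀^Fin k]→L[ℝ] ℝ) (t : Lam) (h : t.card = k) :
    compP 1 w t = w (fun j => bv (t.orderEmbOfFin h j)) := by
  unfold compP comp
  rw [dif_pos h]
  simp only [D2_fvec_one]

theorem D2_th_basis {k : ℕ} (s t : Finset (Fin 4)) (hs : s.card = k) (ht : t.card = k) :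
    D2_th s hs (fun j => bv (t.orderEmbOfFin ht j)) = if s = t then 1 else 0 := by
  rw [D2_th_apply]
  by_cases hst : s = t
  · subst hst
    rw [if_pos rfl]
    have : (Matrix.of fun j i => (bv (s.orderEmbOfFin ht j) : E4) (s.orderEmbOfFin hs i)) =
        (1 : Matrix (Fin k) (Fin k) ℝ) := by
      ext j i
      rw [Matrix.of_apply, FC4_bv, Matrix.one_apply]
      by_cases hij : j = i
      · subst hij
        rw [if_pos rfl, if_pos rfl]
      · rw [if_neg hij, if_neg]
        intro he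
        exact hij ((s.orderEmbOfFin hs).injective he).symm
    rw [this, Matrix.det_one]
  · rw [if_neg hst]
    obtain ⟨x, hxt, hxs⟩ : ∃ x ∈ t, x ∉ s := by
      by_contra hc
      push Not at hc
      exact hst (Finset.eq_of_subset_of_card_le hc (by rw [hs, ht])).symm
    obtain ⟨j, hj⟩ : x ∈ Set.range (t.orderEmbOfFin ht) := by
      rw [Finset.range_orderEmbOfFin]; exact hxt
    refine Matrix.det_eq_zero_of_row_eq_zero j fun i => ?_
    rw [Matrix.of_apply, FC4_bv, if_neg]
    intro he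
    apply hxs
    rw [← hj, ← he]
    exact s.orderEmbOfFin_mem hs i

/-- The form with given components. -/
def D2_uc (k : ℕ) : (Lam → ℝ) →ₗ[ℝ] (E4 [⋀^Fin k]→L[ℝ] ℝ) where
  toFun α := ∑ s : Finset (Fin 4), if h : s.card = k then α s • D2_th s h else 0
  map_add' α β := by
    rw [← Finset.sum_add_distrib]
    refine Finset.sum_congr rfl fun s _ => ?_
    by_cases h : s.card = k
    · rw [dif_pos h, dif_pos h, dif_pos h, Pi.add_apply, add_smul]
    · rw [dif_neg h, dif_neg h, dif_neg h, add_zero]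
  map_smul' c α := by
    rw [Finset.smul_sum]
    refine Finset.sum_congr rfl fun s _ => ?_
    by_cases h : s.card = k
    · rw [dif_pos h, dif_pos h, Pi.smul_apply, smul_assoc]; rfl
    · rw [dif_neg h, dif_neg h, smul_zero]

theorem D2_compP_uc (k : ℕ) (α : Lam → ℝ) : compP 1 (D2_uc k α) = (degP ℝ k).mulVec α := by
  funext t
  unfold degP
  rw [Matrix.mulVec_diagonal]
  by_cases ht : t.card = k
  · rw [D2_compP_one _ _ ht, if_pos ht, one_mul]
    unfold D2_uc
    change (∑ s : Finset (Fin 4), if h : s.card = k then α s • D2_th s h else 0) _ = _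
    rw [ContinuousAlternatingMap.sum_apply, Finset.sum_eq_single t]
    · rw [dif_pos ht, ContinuousAlternatingMap.smul_apply, D2_th_basis, if_pos rfl, smul_eq_mul,
        mul_one]
    · intro s _ hst
      by_cases hs : s.card = k
      · rw [dif_pos hs, ContinuousAlternatingMap.smul_apply, D2_th_basis, if_neg hst, smul_zero]
      · rw [dif_neg hs]; rfl
    · intro h
      exact absurd (Finset.mem_univ _) h
  · rw [if_neg ht, zero_mul]
    unfold compP comp
    rw [dif_neg ht]

theorem D2_ext {k : ℕ} (w w' : E4 [⋀^Fin k]→L[ℝ] ℝ) (h : compP 1 w = compP 1 w') : w = w' := by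
  ext v
  have hv : v = fun j => ∑ b, (v j) b • (bv b : E4) := by
    funext j
    ext i
    have h1 : (∑ b, (v j) b • (bv b : E4) : E4) i = ∑ b, ((v j) b • (bv b : E4) : E4) i := by simp
    rw [h1, Finset.sum_eq_single i]
    · simp [FC4_bv]
    · intro b _ hb
      simp [FC4_bv, hb.symm]
    · intro hh
      exact absurd (Finset.mem_univ _) hh
  have key : ∀ u : E4 [⋀^Fin k]→L[ℝ] ℝ, u v = ∑ t : Finset (Fin 4), if h : t.card = k then
      (Matrix.of fun i j => (v j) (t.orderEmbOfFin h i)).det * compP 1 u t else 0 := by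
    intro u
    have h1 := D2_expand u.toAlternatingMap (fun b j => (v j) b) (fun b => bv b)
    rw [← hv] at h1
    refine (h1 : u v = _).trans (Finset.sum_congr rfl fun t _ => ?_)
    by_cases ht : t.card = k
    · rw [dif_pos ht, dif_pos ht, D2_compP_one _ _ ht]
      rfl
    · rw [dif_neg ht, dif_neg ht]
  rw [key w, key w', h]

theorem D2_uc_compP {k : ℕ} (w : E4 [⋀^Fin k]→L[ℝ] ℝ) : D2_uc k (compP 1 w) = w := by
  apply D2_ext
  rw [D2_compP_uc]
  funext t
  unfold degP
  rw [Matrix.mulVec_diagonal]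
  by_cases ht : t.card = k
  · rw [if_pos ht, one_mul]
  · rw [if_neg ht, zero_mul]
    unfold compP comp
    rw [dif_neg ht]

/-- Item D2. -/
theorem thm_Comp : claimComp :=
  ⟨D2_part1, D2_part2, fun k => ⟨D2_uc k, D2_uc_compP, D2_compP_uc k⟩⟩

end NRF

end
end

section

/-!
# F0: the flow in charts of the maximal atlas
-/

open scoped Manifold ContDiff Topology
open MeasureTheory Set

noncomputable section

namespace NRF

theorem F0_metOn {X : Type} [TopologicalSpace X] [ChartedSpace E4 X] (g : Metric X) (e : Ch X) :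
    MetOn e.1.target (g.coef e) :=
  ⟨e.1.open_target, g.smooth e, g.posDef e⟩

/-- Local form of the coefficients. -/
theorem F0_local (n1 : claimN1) {X : Type} [TopologicalSpace X] [ChartedSpace E4 X]
    [IsManifold (𝓡 4) ∞ X] {ψ : OpenPartialHomeomorph X E4}
    (hψ : ψ ∈ IsManifold.maximalAtlas (𝓡 4) ∞ X) (g : Metric X) (e : Ch X) (y : E4)
    (hy : y ∈ (ψ.symm.trans e.1).source) :
    g.mcoef ψ y = pullM (ψ.symm.trans e.1) (g.coef e) y := by
  have he : e.1 ∈ IsManifold.maximalAtlas (𝓡 4) ∞ X :=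
    IsManifold.subset_maximalAtlas e.2
  rw [(n1 X g).2.2 ψ hψ e.1 he y hy]
  have h1 : (ψ.symm.trans e.1) y ∈ e.1.target := by
    have := (ψ.symm.trans e.1).map_source hy
    exact (OpenPartialHomeomorph.trans_target ψ.symm e.1 ▸ this).1
  have h2 := (n1 X g).1 e ((ψ.symm.trans e.1) y) h1
  unfold pullM
  rw [h2]

theorem thm_F0 (n0 : claimN0) (n1 : claimN1) (h1 : claimL1) (h0 : claimL0) : claimF0 := by
  intro X _ _ _ _ _ g hg ψ hψ
  -- the local chart
  have hloc : ∀ y ∈ ψ.target, y ∈ (ψ.symm.trans (chAt (ψ.symm y)).1).source := by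
    intro y hy
    rw [OpenPartialHomeomorph.trans_source]
    exact ⟨hy, mem_chart_source E4 (ψ.symm y)⟩
  have hφt : ∀ (e : Ch X), ∀ y ∈ (ψ.symm.trans e.1).source,
      (ψ.symm.trans e.1) y ∈ e.1.target := by
    intro e y hy
    have := (ψ.symm.trans e.1).map_source hy
    exact (OpenPartialHomeomorph.trans_target ψ.symm e.1 ▸ this).1
  have hmax : ∀ e : Ch X, e.1 ∈ IsManifold.maximalAtlas (𝓡 4) ∞ X := fun e =>
    IsManifold.subset_maximalAtlas e.2
  refine ⟨⟨isOpen_Ioi.prod ψ.open_target, fun i j => ?_, fun p hp => ?_⟩, fun p hp i j => ?_⟩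
  · intro p hp
    set e : Ch X := chAt (ψ.symm p.2) with he
    set φ := ψ.symm.trans e.1 with hφ
    have hpW : p.2 ∈ φ.source := hloc p.2 hp.2
    have hφs : ContDiffOn ℝ ∞ φ φ.source := (n0 X ψ hψ e.1 (hmax e)).1
    have hpd : ∀ i, ContDiffOn ℝ ∞ (pd i φ) φ.source := by
      intro i
      have h2 : ContDiffOn ℝ ∞ (fderiv ℝ φ) φ.source :=
        hφs.fderiv_of_isOpen φ.open_source (by simp)
      exact h2.clm_apply contDiffOn_const
    have hkey : ContDiffOn ℝ ∞ (fun q : ℝ × E4 => ∑ k, ∑ l, (pd i φ q.2) k * (pd j φ q.2) l *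
        (g q.1).coef e (φ q.2) k l) (Ioi 0 ×ˢ φ.source) := by
      refine ContDiffOn.sum fun k _ => ContDiffOn.sum fun l _ => ?_
      have hsnd : ContDiffOn ℝ ∞ (fun q : ℝ × E4 => q.2) (Ioi (0 : ℝ) ×ˢ φ.source) :=
        contDiffOn_snd
      have hm : MapsTo (fun q : ℝ × E4 => q.2) (Ioi (0 : ℝ) ×ˢ φ.source) φ.source :=
        fun q hq => hq.2
      have hcomp : ∀ (f : E4 → E4) (m : Fin 4), ContDiffOn ℝ ∞ f φ.source →
          ContDiffOn ℝ ∞ (fun q : ℝ × E4 => (f q.2) m) (Ioi (0 : ℝ) ×ˢ φ.source) := by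
        intro f m hf
        have h3 : ContDiffOn ℝ ∞ (fun q : ℝ × E4 => f q.2) (Ioi (0 : ℝ) ×ˢ φ.source) :=
          hf.comp hsnd hm
        exact (EuclideanSpace.proj (𝕜 := ℝ) m).contDiff.comp_contDiffOn h3
      refine ((hcomp _ k (hpd i)).mul (hcomp _ l (hpd j))).mul ?_
      have h4 : ContDiffOn ℝ ∞ (fun q : ℝ × E4 => ((q.1, φ q.2) : ℝ × E4))
          (Ioi (0 : ℝ) ×ˢ φ.source) :=
        contDiffOn_fst.prodMk (hφs.comp hsnd hm)
      exact (hg.smooth e k l).comp h4 fun q hq => ⟨mem_Ici.2 (le_of_lt hq.1), hφt e _ hq.2⟩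
    have hnhds : Ioi (0 : ℝ) ×ˢ φ.source ∈ 𝓝 p :=
      (isOpen_Ioi.prod φ.open_source).mem_nhds ⟨hp.1, hpW⟩
    have h5 : ContDiffAt ℝ ∞ (fun q : ℝ × E4 => (g q.1).mcoef ψ q.2 i j) p := by
      refine (hkey.contDiffAt hnhds).congr_of_eventuallyEq ?_
      filter_upwards [hnhds] with q hq
      rw [F0_local n1 hψ (g q.1) e q.2 hq.2]
      rfl
    exact h5.contDiffWithinAt
  · exact ((n1 X (g p.1)).2.1 ψ hψ).posDef p.2 hp.2
  · obtain ⟨t, y⟩ := p
    have ht : 0 < t := hp.1
    have hy : y ∈ ψ.target := hp.2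
    set e : Ch X := chAt (ψ.symm y) with he
    set φ := ψ.symm.trans e.1 with hφ
    have hyW : y ∈ φ.source := hloc y hy
    show HasDerivAt (fun s => (g s).mcoef ψ y i j)
      (-2 * ricci ((g t).mcoef ψ) i j y + (g t).meanScal / 2 * (g t).mcoef ψ y i j) t
    have hfun : (fun s => (g s).mcoef ψ y i j) = fun s => ∑ k, ∑ l, (pd i φ y) k *
        (pd j φ y) l * (g s).coef e (φ y) k l := by
      funext s
      rw [F0_local n1 hψ (g s) e y hyW]
      rfl
    have hder : HasDerivAt (fun s => (g s).mcoef ψ y i j) (∑ k, ∑ l, (pd i φ y) k *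
        (pd j φ y) l * (-2 * ricci ((g t).coef e) k l (φ y) +
          (1 / 2) * (g t).meanScal * (g t).coef e (φ y) k l)) t := by
      rw [hfun]
      refine HasDerivAt.fun_sum fun k _ => HasDerivAt.fun_sum fun l _ => ?_
      have h2 := hg.eqn t ht.le e (φ y) (hφt e y hyW) k l
      exact (h2.hasDerivAt (Ici_mem_nhds ht)).const_mul _
    have hric : ricci ((g t).mcoef ψ) i j y = pullM φ (ricM ((g t).coef e)) y i j := by
      have h3 := (h0 φ.source ((g t).mcoef ψ) (pullM φ ((g t).coef e)) 0 0 0 0 φ.open_source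
        (fun z hz => F0_local n1 hψ (g t) e z hz) (fun _ _ => rfl) (fun _ _ => rfl) y hyW).2.1 i j
      rw [h3]
      exact (((h1 φ.source e.1.target φ ((g t).coef e) φ.open_source (F0_metOn (g t) e)
        (fun z hz => hφt e z hz) (n0 X ψ hψ e.1 (hmax e)).1 (n0 X ψ hψ e.1 (hmax e)).2).2 y
          hyW).2.1) i j
    have hcoef : (g t).mcoef ψ y i j = pullM φ ((g t).coef e) y i j := by
      rw [F0_local n1 hψ (g t) e y hyW]
    rw [hric, hcoef]
    convert hder using 1
    unfold pullM ricM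
    simp only [Matrix.of_apply, Finset.mul_sum]
    rw [← Finset.sum_add_distrib]
    refine Finset.sum_congr rfl fun k _ => ?_
    rw [← Finset.sum_add_distrib]
    refine Finset.sum_congr rfl fun l _ => ?_
    ring

end NRF

end
end

section

/-!
# Item F1: the scalar curvature along the flow
-/

open scoped Manifold ContDiff Topology
open MeasureTheory Set

noncomputable section

namespace NRF

theorem F1_ch {X : Type} [TopologicalSpace X] [ChartedSpace E4 X] [IsManifold (𝓡 4) ∞ X]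
    (e : Ch X) : e.1 ∈ IsManifold.maximalAtlas (𝓡 4) ∞ X :=
  IsManifold.subset_maximalAtlas e.2

theorem thm_F1 (f0 : claimF0) (n2 : claimN2) (l2 : claimLF2) (l5 : claimL5) (l0 : claimL0) :
    claimF1 := by
  intro X _ _ _ _ _ g hg
  have key : ∀ e : Ch X, ∀ t : ℝ, ∀ y ∈ e.1.target,
      (g t).scal (e.1.symm y) = scalC ((g t).mcoef e.1) y ∧
      (g t).ric0Sq (e.1.symm y) = ric0SqC ((g t).mcoef e.1) y := by
    intro e t y hy
    have h := n2 X (g t) e.1 (F1_ch e) (e.1.symm y) (e.1.map_target hy)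
    rw [e.1.right_inv hy] at h
    exact ⟨h.1, h.2.1⟩
  refine ⟨fun e => ?_, fun e => ?_, fun t ht x => ?_⟩
  · have h1 := (l5.1 _ _ (f0 X g hg e.1 (F1_ch e)).met).2.2.2.1
    exact h1.congr fun p hp => (key e p.1 p.2 hp.2).1
  · have h1 := (l5.1 _ _ (f0 X g hg e.1 (F1_ch e)).met).2.2.2.2.1
    exact h1.congr fun p hp => (key e p.1 p.2 hp.2).2
  · have hx : x ∈ (chartAt E4 x).source := mem_chart_source E4 x
    have hy : chartAt E4 x x ∈ (chartAt E4 x).target := (chartAt E4 x).map_source hx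
    have hm : chartAt E4 x ∈ IsManifold.maximalAtlas (𝓡 4) ∞ X :=
      IsManifold.chart_mem_maximalAtlas x
    have hF := f0 X g hg (chartAt E4 x) hm
    have hp : ((t, chartAt E4 x x) : ℝ × E4) ∈ Ioi (0 : ℝ) ×ˢ (chartAt E4 x).target := ⟨ht, hy⟩
    have hd := l2 _ _ _ hF (t, chartAt E4 x x) hp
    have hs : ∀ s, (g s).scal x = scalC ((g s).mcoef (chartAt E4 x)) (chartAt E4 x x) :=
      fun s => (n2 X (g s) _ hm x hx).1
    have hr : (g t).ric0Sq x = ric0SqC ((g t).mcoef (chartAt E4 x)) (chartAt E4 x x) :=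
      (n2 X (g t) _ hm x hx).2.1
    -- the function in the chart
    have heq : EqOn ((g t).scal ∘ (chartAt E4 x).symm) (scalC ((g t).mcoef (chartAt E4 x)))
        (chartAt E4 x).target := fun y hy => (key (chAt x) t y hy).1
    have hsm : ContDiffOn ℝ ∞ (scalC ((g t).mcoef (chartAt E4 x))) (chartAt E4 x).target := by
      have h1 := (l5.1 _ _ hF.met).2.2.2.1
      have h2 : ContDiffOn ℝ ∞ (fun y : E4 => (t, y)) (chartAt E4 x).target :=
        (contDiff_const.prodMk contDiff_id).contDiffOn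
      have h3 := h1.comp h2 fun y hy => ⟨ht, hy⟩
      exact h3.congr fun y _ => rfl
    have hopen := (chartAt E4 x).open_target
    have hcd : ContDiffAt ℝ 2 ((g t).scal ∘ (chartAt E4 x).symm) (chartAt E4 x x) := by
      have h1 := (hsm.congr heq).contDiffAt (hopen.mem_nhds hy)
      exact h1.of_le (by
        have : (2 : ℕ∞ω) = ((2 : ℕ∞) : ℕ∞ω) := rfl
        rw [this]
        exact WithTop.coe_le_coe.mpr le_top)
    have hl : (g t).lapl (g t).scal x = laplC ((g t).mcoef (chartAt E4 x))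
        (scalC ((g t).mcoef (chartAt E4 x))) (chartAt E4 x x) := by
      rw [(n2 X (g t) _ hm x hx).2.2.1 _ hcd]
      exact (l0 _ _ _ _ _ (fun _ => 0) (fun _ => 0) hopen (fun _ _ => rfl) heq (fun _ _ => rfl)
        _ hy).2.2.2.2.2.1
    have hfun : (fun s => (g s).scal x) =
        fun s => scalC ((g s).mcoef (chartAt E4 x)) (chartAt E4 x x) := funext hs
    rw [hfun, hl, hr, hs t]
    convert hd using 1
    ring

end NRF

end
end

section

/-!
# Item F2: functions smooth in all charts on `(0,∞) × X`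
-/

open scoped Manifold ContDiff Topology
open MeasureTheory Set

noncomputable section

namespace NRF

section
variable {X : Type} [TopologicalSpace X] [ChartedSpace E4 X]

theorem F2_isOpen (e : Ch X) : IsOpen (Ioi (0 : ℝ) ×ˢ e.1.target) :=
  isOpen_Ioi.prod e.1.open_target

theorem F2_cont {F : ℝ → X → ℝ} {n : ℕ∞ω} (h : SmoothTX n F) :
    ContinuousOn (fun p : ℝ × X => F p.1 p.2) (Ioi 0 ×ˢ univ) := by
  rintro ⟨t, x⟩ ⟨ht, -⟩
  refine ContinuousAt.continuousWithinAt ?_
  set e := chartAt E4 x with he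
  have hx : x ∈ e.source := mem_chart_source E4 x
  have hmem : (t, e x) ∈ Ioi (0 : ℝ) ×ˢ e.target := ⟨ht, e.map_source hx⟩
  have h1 : ContinuousAt (fun p : ℝ × E4 => F p.1 (e.symm p.2)) (t, e x) :=
    (h (chAt x)).continuousOn.continuousAt ((F2_isOpen (chAt x)).mem_nhds hmem)
  have h2 : ContinuousAt (fun p : ℝ × X => (p.1, e p.2)) (t, x) := by
    refine ContinuousAt.prodMk continuousAt_fst ?_
    exact ContinuousAt.comp (g := e) (f := fun p : ℝ × X => p.2) (x := (t, x))
      (e.continuousAt hx) continuousAt_snd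
  have h3 : ContinuousAt (fun p : ℝ × X => F p.1 (e.symm (e p.2))) (t, x) :=
    ContinuousAt.comp (g := fun p : ℝ × E4 => F p.1 (e.symm p.2))
      (f := fun p : ℝ × X => (p.1, e p.2)) (x := (t, x)) h1 h2
  refine h3.congr ?_
  have h4 : ∀ᶠ p : ℝ × X in 𝓝 (t, x), p.2 ∈ e.source :=
    continuousAt_snd.eventually (e.open_source.mem_nhds hx)
  filter_upwards [h4] with p hp
  rw [e.left_inv hp]

theorem F2_slice {F : ℝ → X → ℝ} {n : ℕ∞ω} (h : SmoothTX n F) {t : ℝ} (ht : 0 < t) :
    ContMDiff (𝓡 4) 𝓘(ℝ, ℝ) n (F t) := by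
  intro x
  set e := chartAt E4 x with he
  have hx : x ∈ e.source := mem_chart_source E4 x
  have hmem : (t, e x) ∈ Ioi (0 : ℝ) ×ˢ e.target := ⟨ht, e.map_source hx⟩
  have h1 : ContDiffAt ℝ n (fun p : ℝ × E4 => F p.1 (e.symm p.2)) (t, e x) :=
    (h (chAt x)).contDiffAt ((F2_isOpen (chAt x)).mem_nhds hmem)
  have h2 : ContDiffAt ℝ n (fun y : E4 => F t (e.symm y)) (e x) :=
    ContDiffAt.comp (g := fun p : ℝ × E4 => F p.1 (e.symm p.2)) (f := fun y : E4 => (t, y))
      (e x) h1 (contDiffAt_const.prodMk contDiffAt_id)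
  rw [contMDiffAt_iff]
  constructor
  · have hc := F2_cont h
    have h3 : ContinuousAt (fun p : ℝ × X => F p.1 p.2) (t, x) :=
      hc.continuousAt ((isOpen_Ioi.prod isOpen_univ).mem_nhds ⟨ht, mem_univ _⟩)
    exact ContinuousAt.comp (g := fun p : ℝ × X => F p.1 p.2) (f := fun z : X => (t, z))
      (x := x) h3 (by fun_prop)
  · have h4 := h2.contDiffWithinAt (s := univ)
    simpa only [extChartAt_model_space_eq_id, PartialEquiv.refl_coe, Function.id_comp,
      modelWithCornersSelf_coe, range_id, extChartAt_coe_symm, extChartAt_coe, Function.comp_def,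
      modelWithCornersSelf_coe_symm, id] using h4

theorem F2_time {F : ℝ → X → ℝ} {n : ℕ∞ω} (h : SmoothTX n F) (x : X) :
    ContDiffOn ℝ n (fun t => F t x) (Ioi 0) := by
  set e := chartAt E4 x with he
  have hx : x ∈ e.source := mem_chart_source E4 x
  have h1 : ContDiffOn ℝ n (fun p : ℝ × E4 => F p.1 (e.symm p.2)) (Ioi 0 ×ˢ e.target) :=
    h (chAt x)
  have h2 : ContDiffOn ℝ n (fun t : ℝ => (t, e x)) (Ioi 0) :=
    contDiffOn_id.prodMk contDiffOn_const
  have h3 : MapsTo (fun t : ℝ => (t, e x)) (Ioi 0) (Ioi 0 ×ˢ e.target) :=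
    fun t ht => ⟨ht, e.map_source hx⟩
  have h4 := h1.comp h2 h3
  refine h4.congr fun t _ => ?_
  simp only [Function.comp_apply, e.left_inv hx]

theorem F2_deriv {F : ℝ → X → ℝ} (h : SmoothTX ∞ F) :
    SmoothTX ∞ (fun t x => deriv (fun s => F s x) t) := by
  intro e
  have hsm := SF.smooth_fderiv (F2_isOpen e) (h e) tv
  refine hsm.congr ?_
  rintro ⟨t, y⟩ hp
  exact (hasDerivAt_slice (F2_isOpen e) (h e) hp).deriv

end

theorem thm_F2 : claimF2 := by
  intro X _ _ _ F n h
  refine ⟨F2_cont h, fun t ht => F2_slice h ht, fun x => F2_time h x, ?_⟩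
  rintro rfl
  exact F2_deriv h

end NRF

end
end

section

/-!
F3: derivative of integrals along the normalised Ricci flow.
-/

set_option autoImplicit false

open scoped Manifold ContDiff Topology
open MeasureTheory Set

namespace NRF

/-- Differentiation under the integral sign on a compact subset of a chart. -/
theorem F3_local {O K : Set E4} (hO : IsOpen O) (hK : IsCompact K) (hKO : K ⊆ O)
    (P : ℝ → E4 → ℝ) (hP : ContDiffOn ℝ 1 (fun p : ℝ × E4 => P p.1 p.2) (Ioi 0 ×ˢ O))
    (r : E4 → ℝ) (hr : ContinuousOn r K) {t : ℝ} (ht : 0 < t) :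
    HasDerivAt (fun s => ∫ y in K, P s y * r y) (∫ y in K, deriv (fun s => P s y) t * r y) t := by
  have hopen : IsOpen (Ioi (0 : ℝ) ×ˢ O) := isOpen_Ioi.prod hO
  have hder : ∀ s : ℝ, 0 < s → ∀ y ∈ O, HasDerivAt (fun s => P s y)
      (fderiv ℝ (fun p : ℝ × E4 => P p.1 p.2) (s, y) (1, 0)) s := by
    intro s hs y hy
    have hd : DifferentiableAt ℝ (fun p : ℝ × E4 => P p.1 p.2) (s, y) :=
      (hP.contDiffAt (hopen.mem_nhds (mk_mem_prod (mem_Ioi.2 hs) hy))).differentiableAt
        (by norm_num)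
    exact hd.hasFDerivAt.comp_hasDerivAt s ((hasDerivAt_id s).prodMk (hasDerivAt_const s y))
  have hcont : ContinuousOn (fun p : ℝ × E4 =>
      fderiv ℝ (fun p : ℝ × E4 => P p.1 p.2) p (1, 0)) (Ioi 0 ×ˢ O) :=
    (hP.continuousOn_fderiv_of_isOpen hopen le_rfl).clm_apply continuousOn_const
  have hsub : Icc (t / 2) (2 * t) ×ˢ K ⊆ Ioi 0 ×ˢ O := by
    refine prod_mono (fun s hs => ?_) hKO
    have := hs.1
    exact mem_Ioi.2 (by linarith)
  obtain ⟨C, hC⟩ := (isCompact_Icc.prod hK).exists_bound_of_continuousOn (hcont.mono hsub)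
  obtain ⟨R, hR⟩ := hK.exists_bound_of_continuousOn hr
  have slice : ∀ {f : ℝ × E4 → ℝ}, ContinuousOn f (Ioi 0 ×ˢ O) → ∀ s : ℝ, 0 < s →
      ContinuousOn (fun y => f (s, y)) K := by
    intro f hf s hs
    exact hf.comp (by fun_prop) fun y hy => mk_mem_prod (mem_Ioi.2 hs) (hKO hy)
  have hKm := hK.measurableSet
  have key := (hasDerivAt_integral_of_dominated_loc_of_deriv_le (μ := volume.restrict K)
    (F := fun s y => P s y * r y) (x₀ := t) (s := Ioo (t / 2) (2 * t))
    (bound := fun _ => C * R)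
    (F' := fun s y => fderiv ℝ (fun p : ℝ × E4 => P p.1 p.2) (s, y) (1, 0) * r y)
    (Ioo_mem_nhds (by linarith) (by linarith))
    (by
      filter_upwards [Ioi_mem_nhds ht] with s hs
      exact ((slice hP.continuousOn s hs).mul hr).aestronglyMeasurable hKm)
    (((slice hP.continuousOn t ht).mul hr).integrableOn_compact hK)
    (((slice hcont t ht).mul hr).aestronglyMeasurable hKm)
    ((ae_restrict_iff' hKm).2 (ae_of_all _ fun y hy s hs => by
      rw [norm_mul]
      have h1 := hC (s, y) (mk_mem_prod (Ioo_subset_Icc_self hs) hy)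
      exact mul_le_mul h1 (hR y hy) (norm_nonneg _) ((norm_nonneg _).trans h1)))
    (integrableOn_const (hK.measure_lt_top.ne))
    ((ae_restrict_iff' hKm).2 (ae_of_all _ fun y hy s hs =>
      (hder s (by have := hs.1; linarith) y (hKO hy)).mul_const (r y)))).2
  refine key.congr_deriv ?_
  refine setIntegral_congr_fun hKm fun y hy => ?_
  show _ * r y = _ * r y
  rw [(hder t ht y (hKO hy)).deriv]

section glob

variable {X : Type} [TopologicalSpace X] [T2Space X] [CompactSpace X] [ChartedSpace E4 X]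
  [IsManifold (𝓡 4) ∞ X] [MeasurableSpace X] [BorelSpace X]

omit [IsManifold (𝓡 4) ∞ X] [MeasurableSpace X] [BorelSpace X] in
/-- A finite continuous partition of unity subordinate to charts. -/
theorem F3_pou : ∃ (m : ℕ) (e : Fin m → Ch X) (f : Fin m → X → ℝ), (∀ i, Continuous (f i)) ∧
    (∀ i, tsupport (f i) ⊆ (e i).1.source) ∧ ∀ x, ∑ i, f i x = 1 := by
  classical
  obtain ⟨T, hT⟩ := isCompact_univ.elim_finite_subcover (fun x : X => (chartAt E4 x).source)
    (fun x => (chartAt E4 x).open_source) (fun x _ => mem_iUnion.2 ⟨x, mem_chart_source E4 x⟩)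
  obtain ⟨F, hF⟩ := PartitionOfUnity.exists_isSubordinate (s := (univ : Set X)) isClosed_univ
    (fun i : {x // x ∈ T} => (chartAt E4 i.1).source) (fun i => (chartAt E4 i.1).open_source)
    (fun x _ => by
      obtain ⟨y, hy, hx⟩ := mem_iUnion₂.1 (hT (mem_univ x))
      exact mem_iUnion.2 ⟨⟨y, hy⟩, hx⟩)
  let ε := (Fintype.equivFin {x // x ∈ T}).symm
  refine ⟨Fintype.card {x // x ∈ T}, fun i => chAt (ε i).1, fun i => F (ε i),
    fun i => (F (ε i)).continuous, fun i => hF (ε i), fun x => ?_⟩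
  have h1 := F.sum_eq_one (mem_univ x)
  rw [finsum_eq_sum_of_fintype] at h1
  rw [← h1]
  exact Equiv.sum_comp ε (fun i => F i x)

/-- Localisation of an integral. -/
theorem F3_split (v : claimVol) {m : ℕ} (e : Fin m → Ch X) (f : Fin m → X → ℝ)
    (hf : ∀ i, Continuous (f i)) (hs : ∀ i, tsupport (f i) ⊆ (e i).1.source)
    (h1 : ∀ x, ∑ i, f i x = 1) (g : Metric X) (φ : X → ℝ) (hφ : Continuous φ) :
    ∫ x, φ x ∂g.vol = ∑ i, ∫ y in (e i).1 '' tsupport (f i),
      Real.sqrt (g.mcoef (e i).1 y).det * (f i ((e i).1.symm y) * φ ((e i).1.symm y)) := by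
  obtain ⟨hfin, -, hch⟩ := v X g
  have hint : ∀ ψ : X → ℝ, Continuous ψ → Integrable ψ g.vol := by
    intro ψ hψ
    have h1 : IntegrableOn ψ univ g.vol := hψ.continuousOn.integrableOn_compact isCompact_univ
    rwa [integrableOn_univ] at h1
  have e1 : ∫ x, φ x ∂g.vol = ∑ i, ∫ x, f i x * φ x ∂g.vol := by
    have hi : ∀ i ∈ Finset.univ, Integrable (fun x => f i x * φ x) g.vol :=
      fun i _ => hint _ ((hf i).mul hφ)
    rw [← integral_finsetSum _ hi]
    refine integral_congr_ae (ae_of_all _ fun x => ?_)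
    show φ x = ∑ i, f i x * φ x
    rw [← Finset.sum_mul, h1 x, one_mul]
  rw [e1]
  refine Finset.sum_congr rfl fun i _ => ?_
  have hmem : (e i).1 ∈ SmCh X := IsManifold.subset_maximalAtlas (e i).2
  have hz : ∀ x, x ∉ (e i).1.source → f i x = 0 := fun x hx =>
    image_eq_zero_of_notMem_tsupport fun h => hx (hs i h)
  have hc : ContinuousOn (fun x => f i x * φ x) (e i).1.source := ((hf i).mul hφ).continuousOn
  rw [← setIntegral_eq_integral_of_forall_compl_eq_zero (s := (e i).1.source)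
    (fun x hx => by rw [hz x hx, zero_mul]), ((hch (e i).1 hmem).2 _ hc)]
  have hsub : (e i).1 '' tsupport (f i) ⊆ (e i).1.target := by
    rintro _ ⟨x, hx, rfl⟩
    exact (e i).1.map_source (hs i hx)
  refine (setIntegral_eq_of_subset_of_forall_sdiff_eq_zero (e i).1.open_target.measurableSet hsub
    fun y hy => ?_)
  have h3 : f i ((e i).1.symm y) = 0 := by
    refine image_eq_zero_of_notMem_tsupport fun h => hy.2 ⟨_, h, ?_⟩
    exact (e i).1.right_inv hy.1
  rw [h3, zero_mul, mul_zero]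

end glob

theorem thm_F3 (v : claimVol) (f0 : claimF0) (sc : claimScalCh) (l1 : claimLF1)
    (l5 : claimL5) (f2 : claimF2) : claimF3 := by
  intro X _ _ _ _ _ _ _ g hg F hF t ht
  obtain ⟨m, e, f, hf, hs, h1⟩ := F3_pou (X := X)
  have hmem : ∀ i, (e i).1 ∈ SmCh X := fun i => IsManifold.subset_maximalAtlas (e i).2
  obtain ⟨-, hFc, -, hFd⟩ := f2 X F ∞ hF
  obtain ⟨-, hF'c, -, -⟩ := f2 X (fun t x => deriv (fun s => F s x) t) ∞ (hFd rfl)
  obtain ⟨hscal, hsc, -⟩ := sc X (g t)
  have hsub : ∀ i, (e i).1 '' tsupport (f i) ⊆ (e i).1.target := by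
    rintro i _ ⟨x, hx, rfl⟩
    exact (e i).1.map_source (hs i hx)
  have hK : ∀ i, IsCompact ((e i).1 '' tsupport (f i)) := fun i =>
    ((isClosed_tsupport (f i)).isCompact).image_of_continuousOn
      ((e i).1.continuousOn.mono (hs i))
  have hev : (fun s => ∫ x, F s x ∂(g s).vol) =ᶠ[𝓝 t] fun s => ∑ i, ∫ y in (e i).1 '' tsupport (f i),
      (Real.sqrt ((g s).mcoef (e i).1 y).det * F s ((e i).1.symm y)) * f i ((e i).1.symm y) := by
    filter_upwards [Ioi_mem_nhds ht] with s hs'
    rw [F3_split v e f hf hs h1 (g s) (F s) (hFc s hs').continuous]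
    refine Finset.sum_congr rfl fun i _ => ?_
    refine integral_congr_ae (ae_of_all _ fun y => ?_)
    show Real.sqrt ((g s).mcoef (e i).1 y).det * (f i ((e i).1.symm y) * F s ((e i).1.symm y)) = _
    ring
  refine HasDerivAt.congr_of_eventuallyEq ?_ hev
  rw [F3_split v e f hf hs h1 (g t)
    (fun x => deriv (fun s => F s x) t + ((g t).meanScal - (g t).scal x) * F t x)
    ((hF'c t ht).continuous.add ((continuous_const.sub hsc).mul (hFc t ht).continuous))]
  refine HasDerivAt.fun_sum fun i _ => ?_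
  have hflow := f0 X g hg (e i).1 (hmem i)
  have hsq : ContDiffOn ℝ ∞ (fun p : ℝ × E4 => Real.sqrt ((g p.1).mcoef (e i).1 p.2).det)
      (Ioi 0 ×ˢ (e i).1.target) := (l5.1 _ _ hflow.met).2.2.2.2.2
  have hFi : ContDiffOn ℝ ∞ (fun p : ℝ × E4 => F p.1 ((e i).1.symm p.2))
      (Ioi 0 ×ˢ (e i).1.target) := hF (e i)
  have hr : ContinuousOn (fun y => f i ((e i).1.symm y)) ((e i).1 '' tsupport (f i)) :=
    (hf i).comp_continuousOn ((e i).1.continuousOn_symm.mono (hsub i))
  have h2 := F3_local (e i).1.open_target (hK i) (hsub i)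
    (fun s y => Real.sqrt ((g s).mcoef (e i).1 y).det * F s ((e i).1.symm y))
    ((hsq.mul hFi).of_le (by norm_num)) (fun y => f i ((e i).1.symm y)) hr ht
  refine h2.congr_deriv ?_
  refine setIntegral_congr_fun (hK i).measurableSet fun y hy => ?_
  have hyT := hsub i hy
  have hp : ((t, y) : ℝ × E4) ∈ Ioi 0 ×ˢ (e i).1.target := mk_mem_prod (mem_Ioi.2 ht) hyT
  have d1 := l1 _ _ _ hflow (t, y) hp
  have d2 : HasDerivAt (fun s => F s ((e i).1.symm y))
      (deriv (fun s => F s ((e i).1.symm y)) t) t := by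
    have hopen : IsOpen (Ioi (0 : ℝ) ×ˢ (e i).1.target) := isOpen_Ioi.prod (e i).1.open_target
    have hd : DifferentiableAt ℝ (fun p : ℝ × E4 => F p.1 ((e i).1.symm p.2)) (t, y) :=
      (hFi.contDiffAt (hopen.mem_nhds hp)).differentiableAt (by norm_num)
    exact (hd.hasFDerivAt.comp_hasDerivAt t
      ((hasDerivAt_id t).prodMk (hasDerivAt_const t y))).differentiableAt.hasDerivAt
  have d3 := (d1.mul d2).deriv
  have e3 : (g t).scal ((e i).1.symm y) = scalC ((g t).mcoef (e i).1) y :=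
    (hscal _ (hmem i) y hyT).1
  show deriv (fun s => Real.sqrt ((g s).mcoef (e i).1 y).det * F s ((e i).1.symm y)) t *
    f i ((e i).1.symm y) = _
  have e4 : deriv (fun s => Real.sqrt ((g s).mcoef (e i).1 y).det * F s ((e i).1.symm y)) t =
    (2 * ((g t).meanScal / 2) - scalC ((g t).mcoef (e i).1) y) *
      Real.sqrt ((g t).mcoef (e i).1 y).det * F t ((e i).1.symm y) +
      Real.sqrt ((g t).mcoef (e i).1 y).det * deriv (fun s => F s ((e i).1.symm y)) t := d3
  rw [e4, e3]
  ring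

end NRF

end

section

/-!
# Item F4: volume and total scalar curvature along the flow
-/

open scoped Manifold ContDiff Topology
open MeasureTheory Set

noncomputable section

namespace NRF

theorem F4_int {X : Type} [TopologicalSpace X] [T2Space X] [CompactSpace X] [MeasurableSpace X]
    [BorelSpace X] (μ : Measure X) [IsFiniteMeasure μ] {f : X → ℝ} (hf : Continuous f) :
    Integrable f μ :=
  hf.integrable_of_hasCompactSupport (HasCompactSupport.of_compactSpace f)

theorem F4_const {X : Type} [TopologicalSpace X] [ChartedSpace E4 X] (c : ℝ) :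
    SmoothTX (X := X) ∞ (fun _ _ => c) := fun _ => contDiffOn_const

theorem F4_gradIn_const {X : Type} [TopologicalSpace X] [ChartedSpace E4 X] (g : Metric X)
    (c : ℝ) (u : X → ℝ) (x : X) : g.gradIn (fun _ => c) u x = 0 := by
  have h : ∀ (i : Fin 4) (y : E4), pd i ((fun _ : X => c) ∘ (chartAt E4 x).symm) y = 0 := by
    intro i y
    have h1 : ((fun _ : X => c) ∘ (chartAt E4 x).symm) = fun _ => c := rfl
    unfold pd
    rw [h1, fderiv_const_apply]
    rfl
  unfold Metric.gradIn gradInC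
  simp only [h, zero_mul, mul_zero, Finset.sum_const_zero]

theorem thm_F4 (v : claimVol) (f1 : claimF1) (f3 : claimF3) (gr : claimGreen) (n3 : claimN3) :
    claimF4 := by
  intro X _ _ _ _ _ _ _ _ g hg
  have hfin : ∀ t, IsFiniteMeasure (g t).vol := fun t => (v X (g t)).1
  have hcs : ∀ t, Continuous (g t).scal := fun t => (n3 X (g t)).1.continuous
  have hcr : ∀ t, Continuous (g t).ric0Sq := fun t => (n3 X (g t)).2.1.continuous
  have hvol1 : ∀ t, (∫ _x : X, (1 : ℝ) ∂(g t).vol) = (g t).volume := by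
    intro t
    rw [integral_const, smul_eq_mul, mul_one]
    rfl
  have hconst : ∀ (t c : ℝ), (∫ _x : X, c ∂(g t).vol) = c * (g t).volume := by
    intro t c
    rw [integral_const, smul_eq_mul, mul_comm]
    rfl
  have hpos : ∀ t, 0 < (g t).volume := by
    intro t
    have h1 := (v X (g t)).2.1 univ isOpen_univ univ_nonempty
    haveI := hfin t
    exact ENNReal.toReal_pos h1.ne' (measure_ne_top _ _)
  have hmean : ∀ t, (∫ x, (g t).scal x ∂(g t).vol) = (g t).meanScal * (g t).volume := by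
    intro t
    unfold Metric.meanScal
    rw [div_mul_cancel₀ _ (hpos t).ne']
  -- the volume
  have hdv : ∀ t > 0, HasDerivAt (fun s => (g s).volume) 0 t := by
    intro t ht
    haveI := hfin t
    have h1 := f3 X g hg (fun _ _ => 1) (F4_const 1) t ht
    have h2 : (fun s => ∫ _x : X, (1 : ℝ) ∂(g s).vol) = fun s => (g s).volume := funext hvol1
    have h3 : (∫ x : X, (deriv (fun _ : ℝ => (1 : ℝ)) t +
        ((g t).meanScal - (g t).scal x) * 1) ∂(g t).vol) = 0 := by
      simp only [deriv_const, zero_add, mul_one]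
      rw [integral_sub (integrable_const _) (F4_int _ (hcs t)), hconst, hmean, sub_self]
    rw [h2, h3] at h1
    exact h1
  have hV : ∀ t > 0, (g t).volume = (g 1).volume := by
    intro t ht
    refine isOpen_Ioi.is_const_of_deriv_eq_zero (s := Ioi (0 : ℝ)) isPreconnected_Ioi
      (fun s hs => (hdv s hs).differentiableAt.differentiableWithinAt)
      (fun s hs => (hdv s hs).deriv) ht (mem_Ioi.mpr one_pos)
  obtain ⟨hS1, hS2, hS3⟩ := f1 X g hg
  have hS4 : SmoothTX ∞ (fun t x => (g t).scal x ^ 2) := fun e => (hS1 e).pow 2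
  have hcont : ∀ F : ℝ → X → ℝ, SmoothTX ∞ F →
      ContinuousOn (fun t => ∫ x, F t x ∂(g t).vol) (Ioi 0) := fun F hF t ht =>
    (f3 X g hg F hF t ht).continuousAt.continuousWithinAt
  have hI1 : ∀ t > 0, (∫ x, (g t).scal x ∂(g t).vol) = (g t).meanScal * (g 1).volume := by
    intro t ht
    rw [hmean, hV t ht]
  have hcm : ContinuousOn (fun t => (g t).meanScal) (Ioi 0) := by
    have h1 := (hcont _ hS1).div_const (g 1).volume
    refine h1.congr fun t ht => ?_
    beta_reduce
    rw [hI1 t ht, mul_div_cancel_right₀ _ (hpos 1).ne']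
  have hsq : ∀ t > 0, (∫ x, ((g t).scal x - (g t).meanScal) ^ 2 ∂(g t).vol) =
      (∫ x, (g t).scal x ^ 2 ∂(g t).vol) - (g t).meanScal ^ 2 * (g 1).volume := by
    intro t ht
    haveI := hfin t
    have h1 : ∀ x, ((g t).scal x - (g t).meanScal) ^ 2 =
        (g t).scal x ^ 2 - 2 * (g t).meanScal * (g t).scal x + (g t).meanScal ^ 2 := by
      intro x
      ring
    simp only [h1]
    have i1 : Integrable (fun x => (g t).scal x ^ 2) (g t).vol := F4_int _ ((hcs t).pow 2)
    have i2 : Integrable (fun x => 2 * (g t).meanScal * (g t).scal x) (g t).vol :=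
      F4_int _ (continuous_const.mul (hcs t))
    have i3 : Integrable (fun x => (g t).scal x ^ 2 - 2 * (g t).meanScal * (g t).scal x)
        (g t).vol := i1.sub i2
    rw [integral_add i3 (integrable_const _), integral_sub i1 i2, hconst,
      integral_const_mul, hI1 t ht, hV t ht]
    ring
  refine ⟨hV, hpos 1, hI1, hcm, hcont _ hS2, ?_, ?_⟩
  · have h1 := (hcont _ hS4).sub ((hcm.pow 2).mul (continuousOn_const (c := (g 1).volume)))
    exact h1.congr fun t ht => hsq t ht
  · intro t ht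
    haveI := hfin t
    have h1 := f3 X g hg _ hS1 t ht
    have h2 : ∀ x, deriv (fun s => (g s).scal x) t + ((g t).meanScal - (g t).scal x) *
        (g t).scal x = (g t).lapl (g t).scal x + (2 * (g t).ric0Sq x -
          (1 / 2) * ((g t).scal x - (g t).meanScal) ^ 2 -
          (1 / 2) * (g t).meanScal * ((g t).scal x - (g t).meanScal)) := by
      intro x
      rw [(hS3 t ht x).deriv]
      ring
    have hn3 := n3 X (g t)
    have hcl : Continuous ((g t).lapl (g t).scal) :=
      (hn3.2.2.2 _ _ hn3.1 hn3.1).1.continuous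
    have h3 : (∫ x, (g t).lapl (g t).scal x ∂(g t).vol) = 0 := by
      have h4 := gr X (g t) (g t).scal (fun _ => 1)
        (hn3.1.of_le (by
          have : (2 : ℕ∞ω) = ((2 : ℕ∞) : ℕ∞ω) := rfl
          rw [this]
          exact WithTop.coe_le_coe.mpr le_top)) contMDiff_const
      simp only [one_mul, F4_gradIn_const, integral_zero, neg_zero] at h4
      exact h4
    have i0 : Integrable (fun x => (g t).lapl (g t).scal x) (g t).vol := F4_int _ hcl
    have i1 : Integrable (fun x => 2 * (g t).ric0Sq x) (g t).vol :=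
      F4_int _ (continuous_const.mul (hcr t))
    have c2 : Continuous (fun x => ((g t).scal x - (g t).meanScal)) :=
      (hcs t).sub continuous_const
    have i2 : Integrable (fun x => (1 / 2) * ((g t).scal x - (g t).meanScal) ^ 2) (g t).vol :=
      F4_int _ (continuous_const.mul (c2.pow 2))
    have i3 : Integrable (fun x => (1 / 2) * (g t).meanScal * ((g t).scal x - (g t).meanScal))
        (g t).vol := F4_int _ (continuous_const.mul c2)
    have h5 : (∫ x, ((g t).scal x - (g t).meanScal) ∂(g t).vol) = 0 := by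
      rw [integral_sub (F4_int _ (hcs t)) (integrable_const _), hconst, hmean, sub_self]
    have h6 : (∫ x, (deriv (fun s => (g s).scal x) t + ((g t).meanScal - (g t).scal x) *
        (g t).scal x) ∂(g t).vol) = 2 * ∫ x, (g t).ric0Sq x ∂(g t).vol -
        (1 / 2) * ∫ x, ((g t).scal x - (g t).meanScal) ^ 2 ∂(g t).vol := by
      simp only [h2]
      have i4 : Integrable (fun x => 2 * (g t).ric0Sq x -
          (1 / 2) * ((g t).scal x - (g t).meanScal) ^ 2) (g t).vol := i1.sub i2
      have i5 : Integrable (fun x => 2 * (g t).ric0Sq x -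
          (1 / 2) * ((g t).scal x - (g t).meanScal) ^ 2 -
          (1 / 2) * (g t).meanScal * ((g t).scal x - (g t).meanScal)) (g t).vol := i4.sub i3
      rw [integral_add i0 i5, integral_sub i4 i3, integral_sub i1 i2, h3,
        integral_const_mul, integral_const_mul, integral_const_mul, h5]
      ring
    rw [h6] at h1
    exact h1

end NRF

end
end

section

/-!
# Item F5: the Laplacian at a minimum is nonnegative
-/

open scoped Manifold ContDiff Topology Matrix
open MeasureTheory Set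

noncomputable section

namespace NRF

/-- Second derivatives at a local minimum are nonnegative. -/
theorem F5_hess_nonneg {w : E4 → ℝ} {y : E4} (hw : ContDiffAt ℝ 2 w y) (hmin : IsLocalMin w y)
    (v : E4) : 0 ≤ fderiv ℝ (fderiv ℝ w) y v v := by
  by_contra hneg
  push Not at hneg
  set f : ℝ → ℝ := fun t => w (y + t • v) with hf
  have hline : Continuous fun t : ℝ => y + t • v := by fun_prop
  have hl0 : y + (0 : ℝ) • v = y := by simp
  have hlt : Filter.Tendsto (fun t : ℝ => y + t • v) (𝓝 0) (𝓝 y) := by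
    have := hline.tendsto 0
    simpa using this
  -- first derivative
  have hdiff : ∀ᶠ z in 𝓝 y, DifferentiableAt ℝ w z := by
    have h1 : ∀ᶠ z in 𝓝 y, ContDiffAt ℝ 2 w z := hw.eventually (by simp)
    filter_upwards [h1] with z hz
    exact hz.differentiableAt (by simp)
  have hd1 : ∀ᶠ t in 𝓝 (0 : ℝ), HasDerivAt f (fderiv ℝ w (y + t • v) v) t := by
    filter_upwards [hlt.eventually hdiff] with t ht
    have h2 : HasDerivAt (fun s : ℝ => y + s • v) v t := by
      have := ((hasDerivAt_id t).smul_const v).const_add y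
      simpa using this
    exact ht.hasFDerivAt.comp_hasDerivAt t h2
  have hderiv : deriv f =ᶠ[𝓝 0] fun t => fderiv ℝ w (y + t • v) v := by
    filter_upwards [hd1] with t ht
    exact ht.deriv
  have hfd : DifferentiableAt ℝ (fderiv ℝ w) y := by
    have h3 : ContDiffAt ℝ 1 (fderiv ℝ w) y := hw.fderiv_right (m := 1) (by norm_num)
    exact h3.differentiableAt (by simp)
  have hd2 : HasDerivAt (deriv f) (fderiv ℝ (fderiv ℝ w) y v v) 0 := by
    have h2 : HasDerivAt (fun s : ℝ => y + s • v) v 0 := by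
      have := ((hasDerivAt_id (0 : ℝ)).smul_const v).const_add y
      simpa using this
    have h4 : HasFDerivAt (fderiv ℝ w) (fderiv ℝ (fderiv ℝ w) y) (y + (0 : ℝ) • v) := by
      rw [hl0]; exact hfd.hasFDerivAt
    have h5 : HasDerivAt (fun t : ℝ => fderiv ℝ w (y + t • v)) (fderiv ℝ (fderiv ℝ w) y v) 0 :=
      h4.comp_hasDerivAt 0 h2
    have h6 : HasDerivAt (fun t : ℝ => fderiv ℝ w (y + t • v) v)
        (fderiv ℝ (fderiv ℝ w) y v v) 0 := by
      have := h5.clm_apply (hasDerivAt_const (0 : ℝ) v)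
      simpa using this
    exact h6.congr_of_eventuallyEq hderiv
  have hloc : IsLocalMin f 0 := by
    have h7 : ∀ᶠ z in 𝓝 y, w y ≤ w z := hmin
    have h8 : ∀ᶠ t in 𝓝 (0 : ℝ), f 0 ≤ f t := by
      filter_upwards [hlt.eventually h7] with t ht
      simpa [hf] using ht
    exact h8
  have hd0 : deriv f 0 = 0 := hloc.deriv_eq_zero
  have hcont : ContinuousAt f 0 := hd1.self_of_nhds.continuousAt
  have hmax : IsLocalMax f 0 := by
    refine isLocalMax_of_deriv_deriv_neg ?_ hd0 hcont
    rw [hd2.deriv]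
    exact hneg
  have hconst : f =ᶠ[𝓝 0] fun _ => f 0 := by
    have ha : ∀ᶠ t in 𝓝 (0 : ℝ), f 0 ≤ f t := hloc
    have hb : ∀ᶠ t in 𝓝 (0 : ℝ), f t ≤ f 0 := hmax
    filter_upwards [ha, hb] with t h1 h2
    exact le_antisymm h2 h1
  have hz : deriv f =ᶠ[𝓝 0] fun _ => (0 : ℝ) := by
    have := hconst.deriv
    simpa using this
  have hzz : deriv (deriv f) 0 = 0 := by
    rw [hz.deriv_eq]
    simp
  rw [hd2.deriv] at hzz
  rw [hzz] at hneg
  exact lt_irrefl _ hneg

theorem F5_pd_pd {w : E4 → ℝ} {y : E4} (hw : ContDiffAt ℝ 2 w y) (i j : Fin 4) :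
    pd i (pd j w) y = fderiv ℝ (fderiv ℝ w) y (bv i) (bv j) := by
  have hfd : DifferentiableAt ℝ (fderiv ℝ w) y := by
    have h3 : ContDiffAt ℝ 1 (fderiv ℝ w) y := hw.fderiv_right (m := 1) (by norm_num)
    exact h3.differentiableAt (by simp)
  have := (hfd.hasFDerivAt.clm_apply (hasFDerivAt_const (bv j) y)).fderiv
  unfold pd
  rw [this]
  simp

/-- The Laplacian in coordinates at a local minimum. -/
theorem F5_laplC_nonneg (G : E4 → Matrix (Fin 4) (Fin 4) ℝ) {w : E4 → ℝ} {y : E4}
    (hG : (G y).PosDef) (hw : ContDiffAt ℝ 2 w y) (hmin : IsLocalMin w y) :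
    0 ≤ laplC G w y := by
  obtain ⟨B, hB⟩ := L3_factor hG.inv
  have h0 : ∀ k, pd k w y = 0 := by
    intro k
    unfold pd
    rw [hmin.fderiv_eq_zero]
    simp
  have hess : ∀ i j, hessC G w i j y = fderiv ℝ (fderiv ℝ w) y (bv i) (bv j) := by
    intro i j
    unfold hessC
    simp only [h0, mul_zero, Finset.sum_const_zero, sub_zero]
    exact F5_pd_pd hw i j
  unfold laplC
  simp only [hess]
  rw [hB]
  set L := fderiv ℝ (fderiv ℝ w) y with hL
  have e : ∑ i, ∑ j, (Bᵀ * B) i j * L (bv i) (bv j) =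
      ∑ a, L (∑ i, B a i • bv i) (∑ j, B a j • bv j) := by
    simp only [Matrix.mul_apply, Matrix.transpose_apply, Finset.sum_mul, map_sum, map_smul,
      ContinuousLinearMap.sum_apply, smul_apply, smul_eq_mul, Finset.mul_sum]
    calc ∑ i, ∑ j, ∑ a, B a i * B a j * L (bv i) (bv j)
        = ∑ i, ∑ a, ∑ j, B a i * B a j * L (bv i) (bv j) :=
          Finset.sum_congr rfl fun i _ => Finset.sum_comm
      _ = ∑ a, ∑ i, ∑ j, B a i * B a j * L (bv i) (bv j) := Finset.sum_comm
      _ = _ := by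
          refine Finset.sum_congr rfl fun a _ => ?_
          rw [Finset.sum_comm]
          refine Finset.sum_congr rfl fun i _ => Finset.sum_congr rfl fun j _ => ?_
          ring
  rw [e]
  exact Finset.sum_nonneg fun a _ => F5_hess_nonneg hw hmin _

theorem thm_F5 : claimF5 := by
  intro X _ _ _ g u x hu hmin
  set e := chartAt E4 x with he
  have hx : x ∈ e.source := mem_chart_source E4 x
  have hex : e x ∈ e.target := e.map_source hx
  have hsm : ContMDiffOn (𝓡 4) 𝓘(ℝ, ℝ) ∞ (u ∘ e.symm) e.target :=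
    hu.comp_contMDiffOn (contMDiffOn_chart_symm)
  have hsm2 : ContDiffOn ℝ ∞ (u ∘ e.symm) e.target := contMDiffOn_iff_contDiffOn.1 hsm
  have hw : ContDiffAt ℝ 2 (u ∘ e.symm) (e x) :=
    (hsm2.contDiffAt (e.open_target.mem_nhds hex)).of_le ENat.LEInfty.out
  have hloc : IsLocalMin (u ∘ e.symm) (e x) := by
    refine Filter.Eventually.of_forall fun z => ?_
    simp only [Function.comp_apply, e.left_inv hx]
    exact hmin _
  exact F5_laplC_nonneg (g.coef (chAt x)) (g.posDef (chAt x) (e x) hex) hw hloc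

end NRF

end
end

section

/-!
# F6: the minimum principle (Hamilton's trick)
-/

open scoped Manifold ContDiff Topology
open MeasureTheory Set

noncomputable section

namespace NRF

lemma f6_bddBelow {X : Type} [TopologicalSpace X] [CompactSpace X] {S : ℝ → X → ℝ}
    (hS : ContinuousOn (fun p : ℝ × X => S p.1 p.2) (Ioi 0 ×ˢ univ)) {t : ℝ} (ht : 0 < t) :
    Continuous (S t) := by
  have h1 : Continuous fun x : X => ((t, x) : ℝ × X) := by fun_prop
  have h2 := hS.comp_continuous h1 (fun x => ⟨ht, trivial⟩)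
  exact h2

lemma f6_continuousOn {X : Type} [TopologicalSpace X] [CompactSpace X] {S : ℝ → X → ℝ}
    (hS : ContinuousOn (fun p : ℝ × X => S p.1 p.2) (Ioi 0 ×ˢ univ)) :
    ContinuousOn (fun t => ⨅ x, S t x) (Ioi 0) := by
  rw [continuousOn_iff_continuous_domRestrict]
  have h1 : Continuous (fun p : Ioi (0 : ℝ) × X => S p.1 p.2) := by
    have h2 : Continuous fun p : Ioi (0 : ℝ) × X => (((p.1 : ℝ), p.2) : ℝ × X) := by fun_prop
    exact hS.comp_continuous h2 (fun p => ⟨p.1.2, trivial⟩)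
  have h3 := IsCompact.continuous_sInf (f := fun (t : Ioi (0 : ℝ)) x => S t x)
    (isCompact_univ : IsCompact (univ : Set X)) h1
  have h4 : (Ioi (0 : ℝ)).domRestrict (fun t => ⨅ x, S t x) =
      fun t : Ioi (0 : ℝ) => sInf ((fun x => S t x) '' univ) := by
    funext t
    rw [image_univ]
    rfl
  rw [h4]
  exact h3

lemma f6_left {F : ℝ → ℝ} {d t : ℝ} (h : HasDerivAt F d t) (hd : 0 < d) {a : ℝ} (ha : a < t) :
    ∃ s, a < s ∧ s < t ∧ F s < F t := by
  have h1 := (hasDerivAt_iff_tendsto_slope.1 h).eventually (lt_mem_nhds hd)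
  have h2 : ∀ᶠ s in 𝓝[<] t, 0 < slope F t s :=
    h1.filter_mono (nhdsWithin_mono _ fun s hs => ne_of_lt hs)
  have h3 : ∀ᶠ s in 𝓝[<] t, s ∈ Ioo a t := Ioo_mem_nhdsLT ha
  obtain ⟨s, hs1, hs2⟩ := (h2.and h3).exists
  refine ⟨s, hs2.1, hs2.2, ?_⟩
  rw [slope_def_field] at hs1
  have h4 : s - t < 0 := sub_neg.2 hs2.2
  have h5 : F s - F t < 0 := by
    by_contra hcon
    push Not at hcon
    have := div_nonpos_of_nonneg_of_nonpos hcon h4.le
    linarith
  linarith

theorem thm_F6 : claimF6 := by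
  intro X _ _ _ S S' f hS hS' hf hmin
  refine ⟨f6_continuousOn hS, ?_⟩
  intro a b ha hab
  set m : ℝ → ℝ := fun t => ⨅ x, S t x with hm
  have hmc : ContinuousOn m (Ioi 0) := f6_continuousOn hS
  have hbdd : ∀ t, 0 < t → BddBelow (range (S t)) := fun t ht =>
    (isCompact_range (f6_bddBelow hS ht)).bddBelow
  have hint : ∀ s t, 0 < s → 0 < t → IntervalIntegrable f volume s t := by
    intro s t hs ht
    refine (hf.mono ?_).intervalIntegrable
    intro x hx
    exact lt_of_lt_of_le (lt_min hs ht) hx.1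
  have hFd : ∀ t, 0 < t → HasDerivAt (fun u => ∫ x in a..u, f x) (f t) t := by
    intro t ht
    exact intervalIntegral.integral_hasDerivAt_right (hint a t ha ht)
      (hf.stronglyMeasurableAtFilter isOpen_Ioi t ht) (hf.continuousAt (Ioi_mem_nhds ht))
  have key : ∀ ε > 0, m a ≤ m b - (∫ x in a..b, f x) + ε * (b - a) := by
    intro ε hε
    set Y : ℝ → ℝ := fun t => m t - (∫ x in a..t, f x) + ε * (t - a) with hY
    have hYc : ContinuousOn Y (Icc a b) := by
      have h1 : ContinuousOn m (Icc a b) := hmc.mono fun t ht => lt_of_lt_of_le ha ht.1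
      have h2 : ContinuousOn (fun t => ∫ x in a..t, f x) (Icc a b) := fun t ht =>
        (hFd t (lt_of_lt_of_le ha ht.1)).continuousAt.continuousWithinAt
      exact (h1.sub h2).add (by fun_prop)
    have hAc : IsCompact {t ∈ Icc a b | Y t ≤ Y b} := by
      have h1 : IsClosed {t ∈ Icc a b | Y t ≤ Y b} := by
        have := hYc.preimage_isClosed_of_isClosed isClosed_Icc (isClosed_Iic (a := Y b))
        exact this
      exact isCompact_Icc.of_isClosed_subset h1 fun t ht => ht.1
    obtain ⟨t1, ht1, hleast⟩ := hAc.exists_isLeast ⟨b, ⟨hab, le_rfl⟩, le_rfl⟩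
    rcases eq_or_lt_of_le ht1.1.1 with h | h
    · have h1 := ht1.2
      rw [← h] at h1
      have h2 : Y a = m a := by simp [hY]
      rw [h2] at h1
      exact h1
    · exfalso
      have ht1pos : 0 < t1 := lt_trans ha h
      obtain ⟨x0, hx0⟩ : ∃ x0, ∀ z, S t1 x0 ≤ S t1 z := by
        obtain ⟨x0, -, h2⟩ := isCompact_univ.exists_isMinOn
          (univ_nonempty (α := X)) (f6_bddBelow hS ht1pos).continuousOn
        exact ⟨x0, fun z => h2 (mem_univ z)⟩
      have hd : HasDerivAt (fun s => S s x0 - (∫ x in a..s, f x) + ε * (s - a))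
          (S' t1 x0 - f t1 + ε * 1) t1 :=
        ((hS' t1 ht1pos x0).sub (hFd t1 ht1pos)).add
          (((hasDerivAt_id t1).sub_const a).const_mul ε)
      have hdpos : 0 < S' t1 x0 - f t1 + ε * 1 := by
        have := hmin t1 ht1pos x0 hx0
        linarith
      obtain ⟨s, hs1, hs2, hs3⟩ := f6_left hd hdpos h
      have hspos : 0 < s := lt_trans ha hs1
      have h3 : m s ≤ S s x0 := ciInf_le (hbdd s hspos) x0
      have h4 : m t1 = S t1 x0 :=
        le_antisymm (ciInf_le (hbdd t1 ht1pos) x0) (le_ciInf hx0)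
      have h5 : Y s < Y t1 := by
        simp only [hY]
        rw [h4]
        linarith
      have h6 : t1 ≤ s := hleast ⟨⟨hs1.le, hs2.le.trans ht1.1.2⟩, h5.le.trans ht1.2⟩
      exact absurd hs2 (not_lt.2 h6)
  have hfin : m a ≤ m b - ∫ x in a..b, f x := by
    refine le_of_forall_pos_le_add fun ε hε => ?_
    have h1 := key (ε / (b - a + 1)) (div_pos hε (by linarith))
    have h2 : ε / (b - a + 1) * (b - a) ≤ ε := by
      have h3 : 0 < b - a + 1 := by linarith
      rw [div_mul_eq_mul_div, div_le_iff₀ h3]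
      nlinarith
    linarith
  linarith

end NRF

end

end

section

/-!
F7: `min s ≤ λ_g` and the consequence of `λ-bar < 0`.
-/

set_option autoImplicit false

open scoped Manifold ContDiff Topology
open MeasureTheory Set

namespace NRF

theorem F7_inf_le (v : claimVol) (n3 : claimN3) (X : Type) [TopologicalSpace X] [T2Space X]
    [CompactSpace X] [Nonempty X] [ChartedSpace E4 X] [IsManifold (𝓡 4) ∞ X]
    [MeasurableSpace X] [BorelSpace X] (g : Metric X) : (⨅ x, g.scal x) ≤ g.lam := by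
  obtain ⟨hfin, hpos, -⟩ := v X g
  obtain ⟨hs, -, -, hg⟩ := n3 X g
  have : Measure.IsOpenPosMeasure g.vol := ⟨fun U hU hne => (hpos U hU hne).ne'⟩
  have hsc : Continuous g.scal := hs.continuous
  have hbdd : BddBelow (range g.scal) := (isCompact_range hsc).bddBelow
  have hint : ∀ f : X → ℝ, Continuous f → Integrable f g.vol := by
    intro f hf
    have h1 : IntegrableOn f univ g.vol := hf.continuousOn.integrableOn_compact isCompact_univ
    rwa [integrableOn_univ] at h1
  unfold Metric.lam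
  refine le_csInf ⟨_, fun _ => (1 : ℝ), contMDiff_const, ?_, rfl⟩ ?_
  · intro h
    have := congrFun h (Classical.arbitrary X)
    simp at this
  · rintro r ⟨u, hu, hu0, rfl⟩
    have huc : Continuous u := hu.continuous
    have hgu := (hg u u hu hu).2.2
    have hgc : Continuous (g.gradSq u) := hgu.1.continuous
    have h2 : 0 < ∫ x, u x ^ 2 ∂g.vol := by
      refine (huc.pow 2).integral_pos_of_hasCompactSupport_nonneg_nonzero
        (HasCompactSupport.of_compactSpace _) (fun x => sq_nonneg _) (x := ?_) ?_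
      · exact (Function.ne_iff.1 hu0).choose
      · exact pow_ne_zero 2 (Function.ne_iff.1 hu0).choose_spec
    rw [le_div_iff₀ h2, ← integral_const_mul]
    refine integral_mono ((hint _ (huc.pow 2)).const_mul _)
      ((hint _ (hsc.mul (huc.pow 2))).add ((hint _ hgc).const_mul 4)) fun x => ?_
    have h3 : (⨅ x, g.scal x) ≤ g.scal x := ciInf_le hbdd x
    have h4 := hgu.2 x
    have h5 := mul_le_mul_of_nonneg_right h3 (sq_nonneg (u x))
    show (⨅ x, g.scal x) * u x ^ 2 ≤ g.scal x * u x ^ 2 + 4 * g.gradSq u x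
    linarith

theorem thm_F7 (v : claimVol) (n3 : claimN3) : claimF7 := by
  intro X _ _ _ _ _ _ _ _ hX
  obtain ⟨r, hr1, hr2⟩ := EReal.lt_iff_exists_real_btwn.1 hX
  have hr0 : r < 0 := by exact_mod_cast hr2
  refine ⟨-r, by linarith, fun g => ?_⟩
  have h1 : ((g.lam * Real.sqrt g.volume : ℝ) : EReal) ≤ lamBar X :=
    le_iSup (fun g : Metric X => ((g.lam * Real.sqrt g.volume : ℝ) : EReal)) g
  have h2 : g.lam * Real.sqrt g.volume < r := by exact_mod_cast h1.trans_lt hr1
  have h3 := F7_inf_le v n3 X g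
  have h4 := mul_le_mul_of_nonneg_right h3 (Real.sqrt_nonneg g.volume)
  linarith

end NRF

end

section

/-!
# F8: real analysis, choice of good times
-/

open scoped Manifold ContDiff Topology
open MeasureTheory Set

noncomputable section

namespace NRF

lemma f8_intervalIntegrable {f : ℝ → ℝ} (hf : ContinuousOn f (Ioi 0)) {a b : ℝ} (ha : 0 < a)
    (hb : 0 < b) : IntervalIntegrable f volume a b := by
  refine (hf.mono ?_).intervalIntegrable
  intro x hx
  have h1 := hx.1
  have h2 : 0 < min a b := lt_min ha hb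
  exact lt_of_lt_of_le h2 h1

theorem thm_F8 : claimF8 := by
  intro V C c m sb q v I hV hc hm hsb hq hv hall hgrow hI
  have hmono : ∀ a b, 0 < a → a ≤ b → m a ≤ m b := by
    intro a b ha hab
    have h1 := hgrow a b ha hab
    have h2 : 0 ≤ ∫ t in a..b, c / 2 * (sb t - m t) := by
      refine intervalIntegral.integral_nonneg hab fun t ht => ?_
      have h3 := (hall t (lt_of_lt_of_le ha ht.1)).2.2.1
      have h4 : 0 ≤ sb t - m t := sub_nonneg.2 h3
      positivity
    linarith
  have hC : c ≤ C := by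
    have h := hall 1 one_pos
    linarith [h.1, h.2.1]
  have hC0 : 0 < C := lt_of_lt_of_le hc hC
  set m0 : ℝ := sSup (m '' Ici 1) with hm0
  have hbdd : BddAbove (m '' Ici 1) := by
    refine ⟨-c, ?_⟩
    rintro _ ⟨t, ht, rfl⟩
    exact (hall t (lt_of_lt_of_le one_pos ht)).2.1
  have hne : (m '' Ici 1).Nonempty := ⟨m 1, 1, Set.mem_Ici.2 le_rfl, rfl⟩
  have hle : ∀ t, 0 < t → m t ≤ m0 := by
    intro t ht
    have h1 : m t ≤ m (max t 1) := hmono t _ ht (le_max_left _ _)
    exact h1.trans (le_csSup hbdd ⟨max t 1, Set.mem_Ici.2 (le_max_right _ _), rfl⟩)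
  have hm0c : m0 ≤ -c := by
    refine csSup_le hne ?_
    rintro _ ⟨t, ht, rfl⟩
    exact (hall t (lt_of_lt_of_le one_pos ht)).2.1
  have hconv : ∀ ε > 0, ∃ t0, 1 ≤ t0 ∧ ∀ t, t0 ≤ t → m0 - ε < m t := by
    intro ε hε
    obtain ⟨_, ⟨t0, ht0, rfl⟩, h1⟩ := exists_lt_of_lt_csSup hne (show m0 - ε < m0 by linarith)
    exact ⟨t0, ht0, fun t ht => lt_of_lt_of_le h1
      (hmono t0 t (lt_of_lt_of_le one_pos ht0) ht)⟩
  refine ⟨m0, by linarith, ?_, ?_⟩
  · intro ε hε
    obtain ⟨t0, ht0, h1⟩ := hconv ε hε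
    exact ⟨t0, lt_of_lt_of_le one_pos ht0, fun t ht =>
      ((h1 t ht).le).trans (hall t (by linarith)).2.2.1⟩
  · -- the bound of the integral
    set K : ℝ := 2 / c * (m0 + C) + (C * V + C * V * (2 / c * (m0 + C))) with hK
    have hK1 : ∀ T, 1 ≤ T → ∫ t in (1 : ℝ)..T, (sb t - m t) ≤ 2 / c * (m0 + C) := by
      intro T hT
      have h1 := hgrow 1 T one_pos hT
      rw [intervalIntegral.integral_const_mul] at h1
      have h2 := hle T (by linarith)
      have h3 := (hall 1 one_pos).1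
      have h4 : c / 2 * ∫ t in (1 : ℝ)..T, (sb t - m t) ≤ m0 + C := by linarith
      calc ∫ t in (1 : ℝ)..T, (sb t - m t)
          = 2 / c * (c / 2 * ∫ t in (1 : ℝ)..T, (sb t - m t)) := by
            field_simp
        _ ≤ 2 / c * (m0 + C) := mul_le_mul_of_nonneg_left h4 (by positivity)
    have hK2 : ∀ T, 1 ≤ T → ∫ t in (1 : ℝ)..T, q t ≤
        C * V + C * V * (2 / c * (m0 + C)) := by
      intro T hT
      have hT0 : 0 < T := by linarith
      have iq := f8_intervalIntegrable hq one_pos hT0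
      have iv := f8_intervalIntegrable hv one_pos hT0
      have is := f8_intervalIntegrable (hsb.sub hm) one_pos hT0
      have h1 : ∫ t in (1 : ℝ)..T, (2 * q t - (1 / 2) * v t) = I T - I 1 := by
        refine intervalIntegral.integral_eq_sub_of_hasDerivAt (fun t ht => ?_)
          ((iq.const_mul 2).sub (iv.const_mul (1 / 2)))
        rw [uIcc_of_le hT] at ht
        exact hI t (by linarith [ht.1])
      rw [intervalIntegral.integral_sub (iq.const_mul 2) (iv.const_mul (1 / 2)),
        intervalIntegral.integral_const_mul, intervalIntegral.integral_const_mul] at h1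
      have h2 : ∫ t in (1 : ℝ)..T, v t ≤ ∫ t in (1 : ℝ)..T, 4 * C * V * (sb t - m t) := by
        refine intervalIntegral.integral_mono_on hT iv (is.const_mul _) fun t ht => ?_
        exact (hall t (by linarith [ht.1])).2.2.2.2.2.2
      rw [intervalIntegral.integral_const_mul] at h2
      have h3 := hK1 T hT
      have h4 : 4 * C * V * ∫ t in (1 : ℝ)..T, (sb t - m t) ≤
          4 * C * V * (2 / c * (m0 + C)) := mul_le_mul_of_nonneg_left h3 (by positivity)
      have h5 := (hall T hT0).2.2.2.2.2.1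
      have h6 := (hall 1 one_pos).2.2.2.2.2.1
      have h7 := abs_le.1 h5
      have h8 := abs_le.1 h6
      linarith [h7.2, h8.1]
    have hK3 : ∀ T, 1 ≤ T → ∫ t in (1 : ℝ)..T, (q t + (sb t - m t)) ≤ K := by
      intro T hT
      have hT0 : 0 < T := by linarith
      have iq := f8_intervalIntegrable hq one_pos hT0
      have is : IntervalIntegrable (fun t => sb t - m t) volume 1 T :=
        f8_intervalIntegrable (hsb.sub hm) one_pos hT0
      rw [intervalIntegral.integral_add iq is]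
      have := hK1 T hT
      have := hK2 T hT
      linarith
    intro ε hε
    obtain ⟨t0, ht0, h1⟩ := hconv (ε / 2) (by linarith)
    by_contra hcon
    push Not at hcon
    have hbig : ∀ t, t0 ≤ t → ε / 2 ≤ q t + (sb t - m t) := by
      intro t ht
      by_contra hlt
      push Not at hlt
      have ht' : 0 < t := by linarith
      have h2 := hall t ht'
      have h3 := h1 t ht
      have h4 := hle t ht'
      have h5 : |sb t - m0| < ε := by
        rw [abs_lt]
        constructor <;> linarith [h2.2.2.1, h2.2.2.2.1]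
      have h6 := hcon t ht' h5
      linarith [h2.2.2.1]
    set T : ℝ := t0 + (2 / ε) * (K + 1) with hT
    have hK0 : 0 ≤ K := by
      have := hK3 1 le_rfl
      simpa using this
    have hTt : t0 ≤ T := by
      rw [hT]
      have : 0 ≤ (2 / ε) * (K + 1) := by positivity
      linarith
    have h2 := hK3 T (ht0.trans hTt)
    have i1 := f8_intervalIntegrable (hq.add (hsb.sub hm)) one_pos
      (show (0 : ℝ) < t0 by linarith)
    have i2 := f8_intervalIntegrable (hq.add (hsb.sub hm)) (show (0 : ℝ) < t0 by linarith)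
      (show (0 : ℝ) < T by linarith)
    have h3 : ∫ t in (1 : ℝ)..T, (q t + (sb t - m t)) =
        (∫ t in (1 : ℝ)..t0, (q t + (sb t - m t))) + ∫ t in t0..T, (q t + (sb t - m t)) :=
      (intervalIntegral.integral_add_adjacent_intervals i1 i2).symm
    have h4 : 0 ≤ ∫ t in (1 : ℝ)..t0, (q t + (sb t - m t)) := by
      refine intervalIntegral.integral_nonneg ht0 fun t ht => ?_
      have h5 := hall t (by linarith [ht.1])
      linarith [h5.2.2.1, h5.2.2.2.1]
    have h5 : ∫ _ in t0..T, (ε / 2) ≤ ∫ t in t0..T, (q t + (sb t - m t)) := by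
      refine intervalIntegral.integral_mono_on hTt (by simp) i2 fun t ht => ?_
      exact hbig t ht.1
    rw [intervalIntegral.integral_const, smul_eq_mul] at h5
    have h6 : (T - t0) * (ε / 2) = K + 1 := by
      rw [hT]
      field_simp
      ring
    linarith

end NRF

end

end

section

/-!
F9: assembly of module F.
-/

set_option autoImplicit false

open scoped Manifold ContDiff Topology
open MeasureTheory Set

namespace NRF

/-- integral inequalities for a bounded function -/
theorem F9_int {X : Type} [MeasurableSpace X] (μ : Measure X) [IsFiniteMeasure μ] {s : X → ℝ}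
    (hs : Integrable s μ) (hs2 : ∀ k : ℝ, Integrable (fun x => (s x - k) ^ 2) μ) {V C m sb : ℝ}
    (hV : μ.real univ = V) (hV0 : 0 < V) (hI : ∫ x, s x ∂μ = sb * V) (hC : ∀ x, |s x| ≤ C)
    (hm : ∀ x, m ≤ s x) :
    m ≤ sb ∧ |sb * V| ≤ C * V ∧ ∫ x, (s x - sb) ^ 2 ∂μ ≤ 4 * C * V * (sb - m) := by
  have h1 : m * V ≤ sb * V := by
    rw [← hI]
    have : ∫ _, m ∂μ ≤ ∫ x, s x ∂μ := integral_mono (integrable_const _) hs hm
    rwa [integral_const, hV, smul_eq_mul, mul_comm] at this
  have h2 : m ≤ sb := le_of_mul_le_mul_right h1 hV0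
  have h3 : |sb * V| ≤ C * V := by
    rw [← hI]
    have h := norm_integral_le_of_norm_le_const (μ := μ) (f := s) (C := C)
      (Filter.Eventually.of_forall fun x => by
        rw [Real.norm_eq_abs]
        exact hC x)
    rwa [hV, Real.norm_eq_abs] at h
  have h4 : |sb| ≤ C := by
    rw [abs_mul, abs_of_pos hV0] at h3
    exact le_of_mul_le_mul_right h3 hV0
  have hC0 : 0 ≤ C := (abs_nonneg _).trans h4
  refine ⟨h2, h3, ?_⟩
  have h5 : ∀ x, (s x - sb) ^ 2 ≤ 2 * C * ((s x - m) + (sb - m)) := by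
    intro x
    have a1 := abs_le.1 (hC x)
    have a2 := abs_le.1 h4
    have a3 := hm x
    have a4 : |s x - sb| ≤ 2 * C := by
      rw [abs_le]
      constructor <;> linarith
    have a5 : |s x - sb| ≤ (s x - m) + (sb - m) := by
      rw [abs_le]
      constructor <;> linarith
    calc (s x - sb) ^ 2 = |s x - sb| * |s x - sb| := by rw [← sq_abs, sq]
      _ ≤ 2 * C * ((s x - m) + (sb - m)) := mul_le_mul a4 a5 (abs_nonneg _) (by linarith)
  have h6 : ∫ x, (s x - sb) ^ 2 ∂μ ≤ ∫ x, 2 * C * ((s x - m) + (sb - m)) ∂μ :=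
    integral_mono (hs2 sb) (((hs.sub (integrable_const _)).add (integrable_const _)).const_mul _) h5
  refine h6.trans (le_of_eq ?_)
  have e1 : ∀ x, 2 * C * ((s x - m) + (sb - m)) = 2 * C * s x + 2 * C * (sb - 2 * m) := fun x => by
    ring
  simp only [e1]
  rw [integral_add (hs.const_mul _) (integrable_const _), integral_const_mul, integral_const, hV,
    hI, smul_eq_mul]
  ring

theorem thm_F9 (f1 : claimF1) (f2 : claimF2) (f4 : claimF4) (f5 : claimF5) (f6 : claimF6)
    (f7 : claimF7) (f8 : claimF8) (v : claimVol) (n3 : claimN3) : claimFlowPos := by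
  intro X _ _ _ _ _ _ _ _ _ hlam g hg
  obtain ⟨hfl, C0, hC0⟩ := hg
  obtain ⟨g1, g2, g3, g4, g5, g6, g7⟩ := f4 X g hfl
  obtain ⟨s1, -, s3⟩ := f1 X g hfl
  obtain ⟨k1, k2, -, -⟩ := f2 X (fun t => (g t).scal) ∞ s1
  obtain ⟨ε, hε, hlow⟩ := f7 X hlam
  set V : ℝ := (g 1).volume with hV
  have hsV : 0 < Real.sqrt V := Real.sqrt_pos.2 g2
  have hCb : ∀ t > 0, ∀ x, |(g t).scal x| ≤ C0 := fun t ht x => hC0 t (le_of_lt ht) x
  have hcont : ∀ t > 0, Continuous (g t).scal := fun t ht => (k2 t ht).continuous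
  have hbdd : ∀ t > 0, BddBelow (range (g t).scal) := fun t ht =>
    (isCompact_range (hcont t ht)).bddBelow
  have hmle : ∀ t > 0, ∀ x, (⨅ x, (g t).scal x) ≤ (g t).scal x := fun t ht x =>
    ciInf_le (hbdd t ht) x
  have hfin : ∀ t, IsFiniteMeasure (g t).vol := fun t => (v X (g t)).1
  have hint : ∀ t, ∀ f : X → ℝ, Continuous f → Integrable f (g t).vol := by
    intro t f hf
    have := hfin t
    have h1 : IntegrableOn f univ (g t).vol := hf.continuousOn.integrableOn_compact isCompact_univ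
    rwa [integrableOn_univ] at h1
  have hmain : ∀ t > 0, (⨅ x, (g t).scal x) ≤ (g t).meanScal ∧
      |(g t).meanScal * V| ≤ C0 * V ∧
      ∫ x, ((g t).scal x - (g t).meanScal) ^ 2 ∂(g t).vol ≤
        4 * C0 * V * ((g t).meanScal - ⨅ x, (g t).scal x) := by
    intro t ht
    have := hfin t
    exact F9_int (g t).vol (hint t _ (hcont t ht))
      (fun k => hint t _ (((hcont t ht).sub continuous_const).pow 2)) (g1 t ht) g2 (g3 t ht)
      (hCb t ht) (hmle t ht)
  have hmc : ∀ t > 0, (⨅ x, (g t).scal x) ≤ -(ε / Real.sqrt V) := by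
    intro t ht
    have h1 := hlow (g t)
    rw [g1 t ht] at h1
    rw [← neg_div, le_div_iff₀ hsV]
    exact h1
  have hc : 0 < ε / Real.sqrt V := by positivity
  -- value of the derivative at a minimum
  have hder : ∀ t > 0, ∀ x, (∀ z, (g t).scal x ≤ (g t).scal z) →
      (g t).scal x * ((g t).scal x - (g t).meanScal) / 2 ≤
      (g t).lapl (g t).scal x + 2 * (g t).ric0Sq x +
        (g t).scal x * ((g t).scal x - (g t).meanScal) / 2 := by
    intro t ht x hx
    have h1 := f5 X (g t) (g t).scal x (n3 X (g t)).1 hx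
    have h2 := (n3 X (g t)).2.2.1 x
    linarith
  have hminv : ∀ t > 0, ∀ x, (∀ z, (g t).scal x ≤ (g t).scal z) →
      (g t).scal x = ⨅ x, (g t).scal x := fun t ht x hx =>
    le_antisymm (le_ciInf hx) (hmle t ht x)
  have hC00 : 0 ≤ C0 := by
    obtain ⟨x⟩ : Nonempty X := inferInstance
    exact (abs_nonneg _).trans (hCb 1 one_pos x)
  have hsbC : ∀ t > 0, |(g t).meanScal| ≤ C0 := by
    intro t ht
    have h := (hmain t ht).2.1
    rw [abs_mul, abs_of_pos g2] at h
    exact le_of_mul_le_mul_right h g2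
  have hmcont := (f6 X (fun t x => (g t).scal x) (fun t x => (g t).lapl (g t).scal x +
      2 * (g t).ric0Sq x + (g t).scal x * ((g t).scal x - (g t).meanScal) / 2)
    (fun _ => -C0 ^ 2) k1 s3 continuousOn_const (fun t ht x hx => by
      refine le_trans ?_ (hder t ht x hx)
      have h1 := abs_le.1 (hCb t ht x)
      have h2 := abs_le.1 (hsbC t ht)
      nlinarith)).1
  have hgrow := (f6 X (fun t x => (g t).scal x) (fun t x => (g t).lapl (g t).scal x +
      2 * (g t).ric0Sq x + (g t).scal x * ((g t).scal x - (g t).meanScal) / 2)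
    (fun t => (ε / Real.sqrt V) / 2 * ((g t).meanScal - ⨅ x, (g t).scal x)) k1 s3
    (continuousOn_const.mul (g4.sub hmcont)) (fun t ht x hx => by
      refine le_trans ?_ (hder t ht x hx)
      have h1 := hminv t ht x hx
      have h2 := hmc t ht
      have h3 := (hmain t ht).1
      rw [← h1] at h2 h3 ⊢
      nlinarith)).2
  obtain ⟨m0, r1, r2, r3⟩ := f8 V C0 (ε / Real.sqrt V) (fun t => ⨅ x, (g t).scal x)
    (fun t => (g t).meanScal) (fun t => ∫ x, (g t).ric0Sq x ∂(g t).vol)
    (fun t => ∫ x, ((g t).scal x - (g t).meanScal) ^ 2 ∂(g t).vol)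
    (fun t => ∫ x, (g t).scal x ∂(g t).vol) g2 hc hmcont g4 g5 g6
    (fun t ht => ⟨le_ciInf fun x => (abs_le.1 (hCb t ht x)).1, hmc t ht, (hmain t ht).1,
      integral_nonneg fun x => (n3 X (g t)).2.2.1 x, g3 t ht, by
        rw [g3 t ht]
        exact (hmain t ht).2.1, (hmain t ht).2.2⟩) hgrow g7
  exact ⟨V, m0, g2, r1, g1, r2, r3⟩

end NRF

end

section

/-!
# Item FC2: connection and curvature in frames
-/

open scoped Manifold ContDiff Topology
open MeasureTheory Set

noncomputable section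

namespace NRF

theorem thm_FC2 (f1 : claimFR1) (f2 : claimFR2) : claimFC2 := by
  intro U G f hf
  obtain ⟨-, a2, a3, -⟩ := f1 _ _ hf.sm.geo hf.fr
  obtain ⟨-, b2, b3, b4, b5, -, b7, b8⟩ := f2 _ _ hf.sm.geo hf.fr
  refine ⟨fun i a b => FrB_contDiffOn (hf.rep_om i a b),
    fun a b c d => FrB_contDiffOn (hf.rep_R4 a b c d), fun y hy => ?_⟩
  have hd : IsUnit (f y).det := (hf.det_pos y hy).ne'.isUnit
  have hf1 : f y * (f y)⁻¹ = 1 := Matrix.mul_nonsing_inv _ hd
  refine ⟨?_, ?_, ?_, ?_, ?_, ?_, ?_, ?_, ?_⟩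
  · intro i
    ext a b
    have := Rep.eq_of_eq (hf.rep_om i b a) (hf.rep_om i a b).neg
      (congrFun (congrFun (a3 i) a) b) (FrB_pt y hy)
    exact this
  · ext a b
    exact Rep.eq_of_eq (Rep.h hf.sm a b) ((hf.rep_f.mul hf.rep_f.transpose) a b)
      (congrFun (congrFun a2 a) b) (FrB_pt y hy)
  · intro a b c d
    exact Rep.eq_of_eq (hf.rep_R4 a b c d) (hf.rep_R4 b a c d).neg (b2 a b c d) (FrB_pt y hy)
  · intro a b c d
    exact Rep.eq_of_eq (hf.rep_R4 a b c d) (hf.rep_R4 a b d c).neg (b3 a b c d) (FrB_pt y hy)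
  · intro a b c d
    exact Rep.eq_of_eq (hf.rep_R4 a b c d) (hf.rep_R4 c d a b) (b4 a b c d) (FrB_pt y hy)
  · intro a b c d
    exact Rep.eq_of_eq (((hf.rep_R4 a b c d).add (hf.rep_R4 a c d b)).add (hf.rep_R4 a d b c))
      (Rep.mk' (F := fun _ _ => (0 : ℝ)) contDiffOn_const)
      ((b5 a b c d).trans (SF.ext_val fun _ => rfl)) (FrB_pt y hy)
  · intro i j
    ext c d
    rw [Matrix.of_apply]
    have h1 : ∀ a b, (f y)⁻¹ a i * (f y)⁻¹ b j * R4C G f a b c d y =
        ∑ i', ∑ j', (f y i' a * (f y)⁻¹ a i) * ((f y j' b * (f y)⁻¹ b j) * OmC G f i' j' y c d) := by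
      intro a b
      unfold R4C
      rw [Finset.mul_sum]
      refine Finset.sum_congr rfl fun i' _ => ?_
      rw [Finset.mul_sum]
      refine Finset.sum_congr rfl fun j' _ => ?_
      ring
    simp only [h1]
    have h2 : ∀ i' i, ∑ a, f y i' a * (f y)⁻¹ a i = if i' = i then 1 else 0 := by
      intro i' i
      have := congrFun (congrFun hf1 i') i
      rw [Matrix.mul_apply, Matrix.one_apply] at this
      exact this
    have h3 : ∑ a, ∑ b, ∑ i', ∑ j', (f y i' a * (f y)⁻¹ a i) *
        ((f y j' b * (f y)⁻¹ b j) * OmC G f i' j' y c d) =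
        ∑ i', ∑ j', (∑ a, f y i' a * (f y)⁻¹ a i) * ((∑ b, f y j' b * (f y)⁻¹ b j) *
          OmC G f i' j' y c d) := by
      simp only [Finset.sum_mul, Finset.mul_sum]
      have e1 : ∀ a, ∑ b, ∑ i', ∑ j', (f y i' a * (f y)⁻¹ a i) *
          ((f y j' b * (f y)⁻¹ b j) * OmC G f i' j' y c d) =
          ∑ i', ∑ j', ∑ b, (f y i' a * (f y)⁻¹ a i) *
          ((f y j' b * (f y)⁻¹ b j) * OmC G f i' j' y c d) := by
        intro a
        rw [Finset.sum_comm]
        refine Finset.sum_congr rfl fun i' _ => ?_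
        rw [Finset.sum_comm]
      simp only [e1]
      rw [Finset.sum_comm]
      refine Finset.sum_congr rfl fun i' _ => ?_
      rw [Finset.sum_comm]
      refine Finset.sum_congr rfl fun j' _ => ?_
      rw [Finset.sum_comm]
    rw [h3]
    simp only [h2]
    simp
  · exact Rep.eq_of_eq (Rep.scal hf.sm)
      (Rep.sum fun a _ => Rep.sum fun k _ => hf.rep_R4 k a k a) b7 (FrB_pt y hy)
  · have h1 := Rep.eq_of_eq (Rep.inner2 hf.sm (A := fun _ => ricM G) (B := fun _ => ricM G)
      (fun i j => Rep.ric hf.sm i j) (fun i j => Rep.ric hf.sm i j))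
      (Rep.sum fun a _ => Rep.sum fun b _ =>
        (Rep.sum fun k _ => hf.rep_R4 k a k b).mul (Rep.sum fun k _ => hf.rep_R4 k a k b))
      (b8.trans (Finset.sum_congr rfl fun a _ => Finset.sum_congr rfl fun b _ => pow_two _))
      (FrB_pt y hy)
    rw [ric0SqC_eq]
    have h2 : in2 (G y)⁻¹ (ricM G y) (ricM G y) =
        ∑ a, ∑ b, (∑ k, R4C G f k a k b y) * (∑ k, R4C G f k a k b y) := h1
    rw [h2]
    simp only [pow_two]

end NRF

end
end

section

/-!
# Item FC3: `d`, `δ`, `D` and the Weitzenböck formula at function level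
-/

open scoped Manifold ContDiff Topology
open MeasureTheory Set

noncomputable section

namespace NRF

/-! ### One-jets of functions -/

/-- Two functions with the same 1-jet at `y`. -/
def FC3_J (u v : E4 → ℝ) (y : E4) : Prop :=
  DifferentiableAt ℝ u y ∧ DifferentiableAt ℝ v y ∧ u y = v y ∧ ∀ i, pd i u y = pd i v y

theorem FC3_pd_add {u v : E4 → ℝ} {y : E4} (hu : DifferentiableAt ℝ u y)
    (hv : DifferentiableAt ℝ v y) (i : Fin 4) :
    pd i (fun z => u z + v z) y = pd i u y + pd i v y := by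
  unfold pd
  have h := (hu.hasFDerivAt.add hv.hasFDerivAt).fderiv
  have e : (fun z => u z + v z) = u + v := rfl
  rw [e, h]
  rfl

theorem FC3_pd_mul {u v : E4 → ℝ} {y : E4} (hu : DifferentiableAt ℝ u y)
    (hv : DifferentiableAt ℝ v y) (i : Fin 4) :
    pd i (fun z => u z * v z) y = u y * pd i v y + v y * pd i u y := by
  unfold pd
  have h := (hu.hasFDerivAt.mul hv.hasFDerivAt).fderiv
  have e : (fun z => u z * v z) = u * v := rfl
  rw [e, h]
  rfl

theorem FC3_J.add {u v u' v' : E4 → ℝ} {y : E4} (h : FC3_J u v y) (h' : FC3_J u' v' y) :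
    FC3_J (fun z => u z + u' z) (fun z => v z + v' z) y := by
  obtain ⟨a1, a2, a3, a4⟩ := h
  obtain ⟨b1, b2, b3, b4⟩ := h'
  refine ⟨a1.add b1, a2.add b2, ?_, fun i => ?_⟩
  · show u y + u' y = v y + v' y
    rw [a3, b3]
  · rw [FC3_pd_add a1 b1, FC3_pd_add a2 b2, a4, b4]

theorem FC3_J.mul {a u v : E4 → ℝ} {y : E4} (ha : DifferentiableAt ℝ a y) (h : FC3_J u v y) :
    FC3_J (fun z => a z * u z) (fun z => a z * v z) y := by
  obtain ⟨a1, a2, a3, a4⟩ := h
  refine ⟨ha.mul a1, ha.mul a2, ?_, fun i => ?_⟩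
  · show a y * u y = a y * v y
    rw [a3]
  · rw [FC3_pd_mul ha a1, FC3_pd_mul ha a2, a4, a3]

theorem FC3_J.zero (y : E4) : FC3_J (fun _ => 0) (fun _ => 0) y :=
  ⟨differentiableAt_const _, differentiableAt_const _, rfl, fun _ => rfl⟩

theorem FC3_J.sum {ι : Type} {s : Finset ι} {u v : ι → E4 → ℝ} {y : E4}
    (h : ∀ i ∈ s, FC3_J (u i) (v i) y) :
    FC3_J (fun z => ∑ i ∈ s, u i z) (fun z => ∑ i ∈ s, v i z) y := by
  classical
  induction s using Finset.induction_on with
  | empty => simpa using FC3_J.zero y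
  | insert a s ha ih =>
    simp only [Finset.sum_insert ha]
    exact (h a (Finset.mem_insert_self _ _)).add
      (ih fun i hi => h i (Finset.mem_insert_of_mem hi))

/-- Two vector valued functions with the same 1-jet. -/
def FC3_V1 (α β : E4 → Lam → ℝ) (y : E4) : Prop :=
  ∀ s, FC3_J (fun z => α z s) (fun z => β z s) y

/-- Two vector valued functions with the same 2-jet. -/
def FC3_V2 (α β : E4 → Lam → ℝ) (y : E4) : Prop :=
  FC3_V1 α β y ∧ ∀ i s, FC3_J (fun z => pd i (fun w => α w s) z) (fun z => pd i (fun w => β w s) z) y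

theorem FC3_V1.eq {α β : E4 → Lam → ℝ} {y : E4} (h : FC3_V1 α β y) : α y = β y :=
  funext fun s => (h s).2.2.1

section
variable {U : Set E4} {G f : E4 → Matrix (Fin 4) (Fin 4) ℝ}

/-- The operator `∑ f^i_a E_a ∇_i`. -/
def FC3_T (G f : E4 → Matrix (Fin 4) (Fin 4) ℝ) (E : Fin 4 → Matrix Lam Lam ℝ)
    (α : E4 → Lam → ℝ) (y : E4) : Lam → ℝ :=
  ∑ i, ∑ a, f y i a • (E a).mulVec (nabC G f i α y)

theorem FC3_T_apply (E : Fin 4 → Matrix Lam Lam ℝ) (α : E4 → Lam → ℝ) (y : E4) (s : Lam) :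
    FC3_T G f E α y s = ∑ i, ∑ a, f y i a * ∑ t, E a s t * nabC G f i α y t := by
  unfold FC3_T
  simp only [Finset.sum_apply]
  rfl

theorem FC3_nab0 {α β : E4 → Lam → ℝ} {y : E4} (h : FC3_V1 α β y) (i : Fin 4) :
    nabC G f i α y = nabC G f i β y := by
  unfold nabC
  rw [h.eq]
  congr 1
  funext s
  exact (h s).2.2.2 i

theorem FC3_T0 (E : Fin 4 → Matrix Lam Lam ℝ) {α β : E4 → Lam → ℝ} {y : E4}
    (h : FC3_V1 α β y) : FC3_T G f E α y = FC3_T G f E β y := by
  unfold FC3_T
  simp only [FC3_nab0 h]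

theorem FC3_nab1 (hf : FrameOn U G f) {α β : E4 → Lam → ℝ} {y : E4} (hy : y ∈ U)
    (h : FC3_V2 α β y) (i : Fin 4) : FC3_V1 (nabC G f i α) (nabC G f i β) y := by
  intro s
  have h0 : ∀ t, DifferentiableAt ℝ (fun z => rho (omC G f i z) s t) y := by
    intro t
    have h1 : ContDiffOn ℝ ∞ (fun z => rho (omC G f i z) s t) U :=
      FrB_contDiffOn ((hf.rep_om i).rho s t)
    exact (h1.differentiableOn (by simp)).differentiableAt (hf.met.isOpen.mem_nhds hy)
  exact (h.2 i s).add (FC3_J.sum (s := Finset.univ)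
    (u := fun t z => rho (omC G f i z) s t * α z t)
    (v := fun t z => rho (omC G f i z) s t * β z t) fun t _ => FC3_J.mul (h0 t) (h.1 t))

theorem FC3_T1 (hf : FrameOn U G f) (E : Fin 4 → Matrix Lam Lam ℝ) {α β : E4 → Lam → ℝ}
    {y : E4} (hy : y ∈ U) (h : FC3_V2 α β y) : FC3_V1 (FC3_T G f E α) (FC3_T G f E β) y := by
  intro s
  simp only [FC3_T_apply]
  refine FC3_J.sum fun i _ => FC3_J.sum fun a _ => FC3_J.mul ?_ (FC3_J.sum fun t _ =>
    FC3_J.mul (differentiableAt_const _) (FC3_nab1 hf hy h i t))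
  exact ((hf.smooth i a).differentiableOn (by simp)).differentiableAt
    (hf.met.isOpen.mem_nhds hy)

theorem FC3_TT (hf : FrameOn U G f) (E E' : Fin 4 → Matrix Lam Lam ℝ) {α β : E4 → Lam → ℝ}
    {y : E4} (hy : y ∈ U) (h : FC3_V2 α β y) :
    FC3_T G f E (FC3_T G f E' α) y = FC3_T G f E (FC3_T G f E' β) y :=
  FC3_T0 E (FC3_T1 hf E' hy h)

theorem FC3_nabnab (hf : FrameOn U G f) {α β : E4 → Lam → ℝ}
    {y : E4} (hy : y ∈ U) (h : FC3_V2 α β y) (i j : Fin 4) :
    nabC G f i (nabC G f j α) y = nabC G f i (nabC G f j β) y :=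
  FC3_nab0 (FC3_nab1 hf hy h j) i

theorem FC3_diffAt_pd {u : E4 → ℝ} {y : E4} (hu : ContDiffAt ℝ 2 u y) (i : Fin 4) :
    DifferentiableAt ℝ (fun z => pd i u z) y := by
  have h1 : ContDiffAt ℝ 1 (fderiv ℝ u) y := hu.fderiv_right (m := 1) (by norm_num)
  exact (h1.differentiableAt (by norm_num)).clm_apply (differentiableAt_const _)

theorem FC3_exists (hj : claimJet) {α : E4 → Lam → ℝ} {y : E4}
    (hα : ∀ s, ContDiffAt ℝ 2 (fun z => α z s) y) :
    ∃ β : E4 → Lam → ℝ, (∀ s, ContDiff ℝ ∞ fun z => β z s) ∧ FC3_V2 α β y := by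
  choose v hv using fun s => hj.1 (fun z => α z s) y (hα s)
  refine ⟨fun z s => v s z, fun s => (hv s).1, fun s => ?_, fun i s => ?_⟩
  · exact ⟨(hα s).differentiableAt (by norm_num), ((hv s).1.differentiable (by simp)) y,
      (hv s).2.1.symm, fun i => ((hv s).2.2.1 i).symm⟩
  · refine ⟨FC3_diffAt_pd (hα s) i, FC3_diffAt_pd (contDiff_infty.1 (hv s).1 2).contDiffAt i, ((hv s).2.2.1 i).symm, fun j => ((hv s).2.2.2 j i).symm⟩

theorem FC3_neg (E : Fin 4 → Matrix Lam Lam ℝ) (α : E4 → Lam → ℝ) (y : E4) :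
    FC3_T G f E (fun z => -α z) y = -FC3_T G f E α y := by
  have h1 : ∀ i, nabC G f i (fun z => -α z) y = -nabC G f i α y := by
    intro i
    unfold nabC
    rw [neg_add, ← Matrix.mulVec_neg]
    congr 1
    funext s
    show pd i (fun z => -(α z s)) y = -pd i (fun z => α z s) y
    unfold pd
    rw [fderiv_fun_neg]
    rfl
  unfold FC3_T
  simp only [h1, Matrix.mulVec_neg, smul_neg, Finset.sum_neg_distrib]

end

/-! ### Naturality of the curvature term -/

section
variable {Ω : Set (ℝ × E4)}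

theorem FC3_weitz {Q : Fin 4 → Fin 4 → Fin 4 → Fin 4 → SF Ω}
    {Q' : Fin 4 → Fin 4 → Fin 4 → Fin 4 → E4 → ℝ}
    (h : ∀ a b c d, Rep (Q a b c d) fun _ y => Q' a b c d y) :
    RepM (weitz Q) (fun y => weitz (fun a b c d => Q' a b c d y)) := by
  refine RepM.of_map fun p => ?_
  set φ : SF Ω →ₐ[ℝ] ℝ := SF.ev p
  have e : ∀ M : Matrix Lam Lam (SF Ω), M.map φ = φ.mapMatrix M := fun M => rfl
  unfold weitz
  rw [e, map_smul, map_sum]
  congr 1
  refine Finset.sum_congr rfl fun a _ => ?_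
  rw [map_sum]
  refine Finset.sum_congr rfl fun b _ => ?_
  rw [map_sum]
  refine Finset.sum_congr rfl fun c _ => ?_
  rw [map_sum]
  refine Finset.sum_congr rfl fun d _ => ?_
  have h2 : φ.mapMatrix (Q a b c d • (clf (SF Ω) a * clf (SF Ω) b * eps (SF Ω) c * iot (SF Ω) d)) =
      φ (Q a b c d) • φ.mapMatrix (clf (SF Ω) a * clf (SF Ω) b * eps (SF Ω) c * iot (SF Ω) d) := by
    ext s t
    exact map_mul φ _ _
  have h3 : φ (Q a b c d) = Q' a b c d p.1.2 := h a b c d p
  have c1 : ∀ a, φ.mapMatrix (clf (SF Ω) a) = clf ℝ a := fun a =>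
    FrB_clf_map (φ : SF Ω →+* ℝ) a
  have c2 : ∀ a, φ.mapMatrix (eps (SF Ω) a) = eps ℝ a := fun a =>
    FrB_eps_map (φ : SF Ω →+* ℝ) a
  have c3 : ∀ a, φ.mapMatrix (iot (SF Ω) a) = iot ℝ a := fun a =>
    FrB_iot_map (φ : SF Ω →+* ℝ) a
  rw [h2, h3, map_mul, map_mul, map_mul, c1, c1, c2, c3]

end

theorem FC3_dirac_eq (G f : E4 → Matrix (Fin 4) (Fin 4) ℝ) (α : E4 → Lam → ℝ) (y : E4) :
    diracC G f α y = dFC G f α y + delFC G f α y := by
  unfold diracC dFC delFC clf
  rw [← sub_eq_add_neg, ← Finset.sum_sub_distrib]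
  refine Finset.sum_congr rfl fun i _ => ?_
  rw [← Finset.sum_sub_distrib]
  refine Finset.sum_congr rfl fun a _ => ?_
  rw [Matrix.sub_mulVec, smul_sub]

theorem thm_FC3 (f4 : claimFR4) (f5 : claimFR5) (hj : claimJet) : claimFC3 := by
  intro U G f hf
  refine ⟨?_, FC3_dirac_eq G f, ?_⟩
  · intro α hα s
    have hs : ∀ s, ContDiffOn ℝ ∞ (fun p : ℝ × E4 => α p.2 s) (univ ×ˢ U) := fun s =>
      (hα s).comp contDiffOn_snd fun _ hp => hp.2
    have hB : RepV (Ω := univ ×ˢ U) (fun s => SF.mk' _ (hs s)) α := fun s p => rfl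
    exact ⟨fun i => FrB_contDiffOn (hf.rep_nab i hB s), FrB_contDiffOn (hf.rep_dF hB s),
      FrB_contDiffOn (hf.rep_delF hB s), FrB_contDiffOn (hf.rep_dirac hB s)⟩
  · intro α y hy hα
    obtain ⟨β, hβ, hJ⟩ := FC3_exists hj hα
    have hs : ∀ s, ContDiffOn ℝ ∞ (fun p : ℝ × E4 => β p.2 s) (univ ×ˢ U) := fun s =>
      ((hβ s).comp contDiff_snd).contDiffOn
    set B : Lam → SF (univ ×ˢ U : Set (ℝ × E4)) := fun s => SF.mk' _ (hs s) with hBdef
    have hB : RepV (Ω := univ ×ˢ U) B β := fun s p => rfl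
    obtain ⟨-, g2, g3⟩ := f4 _ hf.sm.geo hf.fr B
    have g4 := f5 _ hf.sm.geo hf.fr B
    have d1 : dFC G f (dFC G f α) y = dFC G f (dFC G f β) y := FC3_TT hf (eps ℝ) (eps ℝ) hy hJ
    have d2 : diracC G f (diracC G f α) y = diracC G f (diracC G f β) y :=
      FC3_TT hf (clf ℝ) (clf ℝ) hy hJ
    have d3 : ∀ γ : E4 → Lam → ℝ, delFC G f (delFC G f γ) y =
        FC3_T G f (iot ℝ) (FC3_T G f (iot ℝ) γ) y := by
      intro γ
      have e1 : delFC G f γ = fun z => -FC3_T G f (iot ℝ) γ z := rfl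
      rw [e1]
      show -FC3_T G f (iot ℝ) (fun z => -FC3_T G f (iot ℝ) γ z) y = _
      rw [FC3_neg, neg_neg]
    refine ⟨?_, ?_, ?_⟩
    · rw [d1]
      funext s
      have := (hf.rep_dF (hf.rep_dF hB)) s (FrB_pt y hy)
      rw [g2] at this
      exact this.symm
    · rw [d3, FC3_TT hf (iot ℝ) (iot ℝ) hy hJ, ← d3]
      funext s
      have := (hf.rep_delF (hf.rep_delF hB)) s (FrB_pt y hy)
      rw [g3] at this
      exact this.symm
    · rw [d2]
      simp only [FC3_nabnab hf hy hJ, FC3_nab0 hJ.1]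
      rw [hJ.1.eq]
      have hR : RepV (-(∑ i, ∑ j, hf.sm.geo.h i j • (hf.fr.nab i (hf.fr.nab j B) -
          ∑ k, hf.sm.geo.chr k i j • hf.fr.nab k B)) + (weitz hf.fr.R4).mulVec B)
          (fun y => -(∑ i, ∑ j, (G y)⁻¹ i j • (nabC G f i (nabC G f j β) y -
          ∑ k, chr G k i j y • nabC G f k β y)) +
          (weitz (fun a b c d => R4C G f a b c d y)).mulVec (β y)) := by
        refine RepV.add (RepV.neg (RepV.sum fun i _ => RepV.sum fun j _ =>
          RepV.smul (Rep.h hf.sm i j) (RepV.sub (hf.rep_nab i (hf.rep_nab j hB))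
            (RepV.sum fun k _ => RepV.smul (Rep.chr hf.sm k i j) (hf.rep_nab k hB))))) ?_
        exact RepM.mulVec (FC3_weitz hf.rep_R4) hB
      funext s
      have h1 := (hf.rep_dirac (hf.rep_dirac hB)) s (FrB_pt y hy)
      have h2 := hR s (FrB_pt y hy)
      rw [g4] at h1
      exact h1.symm.trans h2

end NRF

end
end

section

/-!
# Item H17: pull back of the 4-form to a smooth simplex
-/

open scoped Manifold ContDiff Topology
open MeasureTheory Set

noncomputable section

namespace NRF.H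

theorem H17_cube (k : ℕ) : UniqueDiffOn ℝ (cube k) := by
  have : cube k = Set.pi univ fun _ : Fin k => Icc (0 : ℝ) 1 := by
    rw [Set.pi_univ_Icc]
    rfl
  rw [this]
  exact UniqueDiffOn.univ_pi fun _ => uniqueDiffOn_Icc zero_lt_one

theorem H17_qR (k : ℕ) : ∀ i, Continuous fun t : Fin k → ℝ => qR k t i := by
  induction k with
  | zero => intro i; exact continuous_const
  | succ k ih =>
    intro i
    refine Fin.cases ?_ (fun j => ?_) i
    · simp only [qR, Fin.cons_zero]
      exact continuous_const.sub (continuous_apply 0)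
    · simp only [qR, Fin.cons_succ]
      refine (continuous_apply 0).mul ((ih j).comp ?_)
      exact continuous_pi fun l => continuous_apply l.succ

theorem H17_qS (k : ℕ) : Continuous (qS k) := by
  refine Continuous.subtype_mk (continuous_pi fun i => ?_) _
  refine (H17_qR k i).comp (continuous_pi fun j => ?_)
  exact continuous_const.max (continuous_const.min (continuous_apply j))

/-- Expansion of a linear map on `E4`. -/
theorem H17_expand (L : E4 →L[ℝ] ℝ) (w : E4) : L w = ∑ k, w k * L (bv k) := by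
  have h : w = ∑ k, w k • bv k := by
    ext j
    simp [bv, Pi.single_apply]
  conv_lhs => rw [h]
  simp

theorem claimPull_proof (h11 : claimLCh) (_h12 : claimLocFin) (h13 : claimWcoef) :
    claimPull := by
  intro X _ _ _ _ U g K b phi hb hphi s τ hτ hs e t ht hse
  set y : U.Y := τ (qS 4 t) with hy
  set E : (Fin 4 → ℝ) → E4 := fun t' => e.1 (s (qS 4 t')) with hE
  have hzt : E t ∈ e.1.target := e.1.map_source hse
  have hpy : U.p y = e.1.symm (E t) := by
    rw [hy, hτ]
    exact (e.1.left_inv hse).symm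
  obtain ⟨c, h1, h2, -, h4, h5⟩ := H14_lift h11 e hzt y hpy univ isOpen_univ (mem_univ _)
  -- smoothness of E
  have hEd : DifferentiableWithinAt ℝ E (cube 4) t := by
    have a1 : ContMDiffAt (𝓡 4) (𝓡 4) ∞ e.1 (s (qS 4 t)) :=
      contMDiffAt_of_mem_maximalAtlas (IsManifold.subset_maximalAtlas e.2) hse
    have a2 : ContMDiffWithinAt 𝓘(ℝ, Fin 4 → ℝ) (𝓡 4) ∞ (fun t => s (qS 4 t)) (cube 4) t :=
      hs t ht
    have a3 : ContMDiffWithinAt 𝓘(ℝ, Fin 4 → ℝ) (𝓡 4) ∞ E (cube 4) t :=
      a1.comp_contMDiffWithinAt t a2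
    have a4 : ContDiffWithinAt ℝ ∞ E (cube 4) t := contMDiffWithinAt_iff_contDiffWithinAt.1 a3
    exact a4.differentiableWithinAt (by simp)
  have hu : UniqueDiffWithinAt ℝ (cube 4) t := H17_cube 4 t ht
  -- the lift near t
  have hτc : Continuous fun t' => τ (qS 4 t') := τ.continuous.comp (H17_qS 4)
  have hnear : ∀ᶠ t' in 𝓝[cube 4] t, τ (qS 4 t') = c.psi.symm (E t') := by
    have o1 : ∀ᶠ t' in 𝓝[cube 4] t, τ (qS 4 t') ∈ c.psi.source :=
      nhdsWithin_le_nhds (hτc.continuousAt.eventually_mem (c.psi.open_source.mem_nhds h2))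
    filter_upwards [o1] with t' ht'
    have h6 := c.eq _ ht'
    rw [hτ, h1] at h6
    have h7 := c.psi.left_inv ht'
    rw [h6] at h7
    exact h7.symm
  have hF : ∀ a : U.G, DifferentiableAt ℝ (fun w => phi (a • c.psi.symm w)) (E t) := fun a =>
    ((H14_smooth h11 hphi c a).differentiableOn (by norm_num)).differentiableAt
      (c.psi.open_target.mem_nhds h4)
  have hcd : ∀ (a : U.G) (i : Fin 4), cd (fun t' => phi (a⁻¹ • τ (qS 4 t'))) i t =
      ∑ k, cd (fun t' => E t' k) i t *
        fderiv ℝ (fun w => phi (a⁻¹ • c.psi.symm w)) (E t) (bv k) := by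
    intro a i
    have g1 : (fun t' => phi (a⁻¹ • τ (qS 4 t'))) =ᶠ[𝓝[cube 4] t]
        fun t' => phi (a⁻¹ • c.psi.symm (E t')) := by
      filter_upwards [hnear] with t' ht'
      rw [ht']
    have g2 : fderivWithin ℝ (fun t' => phi (a⁻¹ • τ (qS 4 t'))) (cube 4) t =
        fderivWithin ℝ (fun t' => phi (a⁻¹ • c.psi.symm (E t'))) (cube 4) t :=
      g1.fderivWithin_eq_of_mem ht
    have g3 : fderivWithin ℝ (fun t' => phi (a⁻¹ • c.psi.symm (E t'))) (cube 4) t =
        (fderiv ℝ (fun w => phi (a⁻¹ • c.psi.symm w)) (E t)).comp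
          (fderivWithin ℝ E (cube 4) t) :=
      ((hF a⁻¹).hasFDerivAt.comp_hasFDerivWithinAt t hEd.hasFDerivWithinAt).fderivWithin hu
    unfold cd
    rw [g2, g3, ContinuousLinearMap.comp_apply, H17_expand]
    refine Finset.sum_congr rfl fun k _ => ?_
    congr 1
    have g4 : fderivWithin ℝ (fun t' => E t' k) (cube 4) t =
        (EuclideanSpace.proj k : E4 →L[ℝ] ℝ).comp (fderivWithin ℝ E (cube 4) t) :=
      ((EuclideanSpace.proj k : E4 →L[ℝ] ℝ).hasFDerivAt.comp_hasFDerivWithinAt t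
        hEd.hasFDerivWithinAt).fderivWithin hu
    rw [g4]
    rfl
  have hjac : ∀ v : Fin 5 → U.G, jac (fun j : Fin 4 => fun t' =>
      phi ((v j.succ)⁻¹ • τ (qS 4 t'))) t = jac (fun j t' => E t' j) t *
        Matrix.det (Matrix.of fun i j : Fin 4 =>
          fderiv ℝ (fun w => phi ((v j.succ)⁻¹ • c.psi.symm w)) (E t) (bv i)) := by
    intro v
    unfold jac
    rw [← Matrix.det_mul]
    congr 1
    ext i j
    rw [Matrix.mul_apply]
    simp only [Matrix.of_apply]
    exact hcd (v j.succ) i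
  rw [h13 X U b phi hb e c h1 (E t) h4]
  unfold bform wloc
  rw [mul_comm, ← smul_eq_mul, smul_finsum]
  refine finsum_congr fun v => ?_
  rw [hjac v, h5, smul_eq_mul]
  ring

end NRF.H

end
end

section

/-!
# K2: the parametrix with a pole, assembly
-/

open scoped ContDiff Topology RealInnerProductSpace
open MeasureTheory Set Filter

noncomputable section

set_option linter.unusedSectionVars false

namespace NRF

namespace K2

section measure

variable {X : Type} [TopologicalSpace X] [CompactSpace X] [T2Space X] [MeasurableSpace X]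
  [BorelSpace X] {V : Type} [NormedAddCommGroup V] [InnerProductSpace ℝ V]
  [FiniteDimensional ℝ V]

variable (D : HeatData X V) {Hf : D.g.I → KP → (V →L[ℝ] V)} {θ : D.g.I → E4 → ℝ}

theorem ku_zero_z {H : KP → (V →L[ℝ] V)} (hS : KSupp H) {z : E4} (hz : 1 ≤ ‖z‖) (w : V) (t : ℝ)
    (x : E4) : ku H z w t x = 0 := by
  rw [ku, hS.1 (0, Real.sqrt t, z, _) hz]
  simp

theorem hU_cases (hS : ∀ i, KSupp (Hf i)) (i : D.g.I) (y : X) (v : V) :
    (y ∈ (D.g.psi i).source ∧ ‖D.g.psi i y‖ < 1 ∧ ∀ t, hU D.g Hf θ i y v t =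
      ku (Hf i) (D.g.psi i y) (θ i (D.g.psi i y) • v) t) ∨
    ((y ∈ (D.g.psi i).source → 1 ≤ ‖D.g.psi i y‖) ∧ ∀ t, hU D.g Hf θ i y v t = fun _ => 0) := by
  by_cases hy : y ∈ (D.g.psi i).source
  · rcases lt_or_ge ‖D.g.psi i y‖ 1 with h | h
    · refine Or.inl ⟨hy, h, fun t => ?_⟩
      funext z
      rw [hU, indicator_of_mem hy]
    · refine Or.inr ⟨fun _ => h, fun t => ?_⟩
      funext z
      rw [hU, indicator_of_mem hy, ku_zero_z (hS i) h]
  · refine Or.inr ⟨fun h => absurd h hy, fun t => ?_⟩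
    funext z
    rw [hU, indicator_of_notMem hy]

theorem exists_dens_bound (i : D.g.I) : ∃ Δ : ℝ, 0 ≤ Δ ∧ ∀ x, ‖x‖ ≤ 2 → D.dens i x ≤ Δ := by
  have h1 : ContinuousOn (D.dens i) (Metric.closedBall 0 2) :=
    (D.dens_smooth i).continuousOn.mono (Metric.closedBall_subset_ball (by norm_num))
  obtain ⟨B, hB⟩ := (isCompact_closedBall (0 : E4) 2).exists_bound_of_continuousOn h1
  refine ⟨|B|, abs_nonneg _, fun x hx => ?_⟩
  exact ((Real.le_norm_self _).trans (hB x (mem_closedBall_zero_iff.2 hx))).trans (le_abs_self B)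

theorem hU_cont (hH : ∀ i, RD (Hf i)) (i : D.g.I) (y : X) (v : V) (t : ℝ) :
    Continuous (hU D.g Hf θ i y v t) := (hU_cd hH i y v t).continuous

/-- The `L¹` bound. -/
theorem hs_l1 (M : ℕ) (hH : ∀ i, RD (Hf i)) (hS : ∀ i, KSupp (Hf i))
    (hθ : ∀ i, Continuous (θ i)) (T0 : ℝ) :
    ∃ C : ℝ, 0 ≤ C ∧ ∀ (y : X) (v : V), ∀ t ∈ Ioc 0 T0,
      ∫ x, ‖hs D.g M Hf θ y v t x‖ ∂D.mu ≤ C * ‖v‖ := by
  have := finite_I D.g
  have := Fintype.ofFinite D.g.I
  have h1 : ∀ i : D.g.I, ∃ C : ℝ, 0 ≤ C ∧ ∀ (y : X) (v : V), ∀ t ∈ Ioc 0 T0,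
      ∫ x, ‖lift D.g i (hU D.g Hf θ i y v t) x‖ ∂D.mu ≤ C * ‖v‖ := by
    intro i
    obtain ⟨Δ, hΔ0, hΔ⟩ := exists_dens_bound D i
    obtain ⟨C, hC0, hC⟩ := int_ku_le (hH i) T0
    obtain ⟨Θ, hΘ0, hΘ⟩ := exists_theta_bound (hθ i)
    refine ⟨Δ * (C * Θ), by positivity, fun y v t ht => ?_⟩
    refine (int_lift_norm D (hU_cont D hH i y v t)
      (fun x hx => hU_supp hS i y v ht.1 hx) hΔ hΔ0).trans ?_
    rw [mul_assoc]
    gcongr
    rcases hU_cases D (θ := θ) hS i y v with h | h
    · rw [h.2.2 t]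
      refine (hC _ _ t ht.1 ht.2 h.2.1.le).trans ?_
      rw [mul_assoc]
      gcongr
      rw [norm_smul, Real.norm_eq_abs]
      gcongr
      exact hΘ _ h.2.1.le
    · rw [h.2 t]
      simp only [norm_zero, integral_zero]
      positivity
  choose C hC0 hC using h1
  refine ⟨∑ i, C i, Finset.sum_nonneg fun i _ => hC0 i, fun y v t ht => ?_⟩
  have hint : ∀ i, Integrable (fun x => ‖lift D.g i (hU D.g Hf θ i y v t) x‖) D.mu := fun i =>
    integrable_of_cont D (lift_cont (hU_cont D hH i y v t)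
      (fun x hx => hU_supp hS i y v ht.1 hx)).norm
  calc ∫ x, ‖hs D.g M Hf θ y v t x‖ ∂D.mu ≤
        ∫ x, ∑ i, ‖lift D.g i (hU D.g Hf θ i y v t) x‖ ∂D.mu := by
        refine integral_mono_of_nonneg (Eventually.of_forall fun _ => norm_nonneg _)
          (integrable_finsetSum _ fun i _ => hint i) (Eventually.of_forall fun x => ?_)
        simp only [hs_eq y v ht.1 x]
        exact norm_sum_le _ _
    _ = ∑ i, ∫ x, ‖lift D.g i (hU D.g Hf θ i y v t) x‖ ∂D.mu :=
        integral_finsetSum _ fun i _ => hint i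
    _ ≤ ∑ i, C i * ‖v‖ := Finset.sum_le_sum fun i _ => hC i y v t ht
    _ = _ := by rw [Finset.sum_mul]

/-- The initial value. -/
theorem hs_init (M : ℕ) (hH : ∀ i, RD (Hf i)) (hS : ∀ i, KSupp (Hf i))
    (hI : ∀ i y, ∫ z, Hf i (0, 0, y, z) = (D.g.mdl i).chi y • ContinuousLinearMap.id ℝ V)
    (hd : ∀ i z, ‖z‖ ≤ 1 → θ i z * D.dens i z = 1) (y : X) (v : V) {f : X → V}
    (hf : D.g.Smooth f) :
    Tendsto (fun t => ∫ x, ⟪hs D.g M Hf θ y v t x, f x⟫ ∂D.mu) (𝓝[>] 0) (𝓝 ⟪v, f y⟫) := by
  have := finite_I D.g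
  have := Fintype.ofFinite D.g.I
  have hfc := smooth_cont hf
  have h1 : ∀ i : D.g.I, Tendsto
      (fun t => ∫ x, ⟪lift D.g i (hU D.g Hf θ i y v t) x, f x⟫ ∂D.mu) (𝓝[>] 0)
      (𝓝 ((D.g.psi i).source.indicator (fun y => (D.g.mdl i).chi (D.g.psi i y)) y *
        ⟪v, f y⟫)) := by
    intro i
    have hdc : ContinuousOn (D.dens i) (Metric.ball 0 3) := (D.dens_smooth i).continuousOn
    rcases hU_cases D (θ := θ) hS i y v with h | h
    · obtain ⟨B, hB⟩ := Ft_bdd (g := D.g) (i := i) hdc hfc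
      have h2 := tendsto_ku (hH i) h.2.1.le (θ i (D.g.psi i y) • v)
        (Ft_cont (g := D.g) (i := i) hdc hfc) hB
      have h3 : ⟪(∫ ζ, Hf i (0, 0, D.g.psi i y, ζ)) (θ i (D.g.psi i y) • v),
          Ft D.g i (D.dens i) f (D.g.psi i y)⟫ =
          (D.g.psi i).source.indicator (fun y => (D.g.mdl i).chi (D.g.psi i y)) y * ⟪v, f y⟫ := by
        have h4 : etaD (D.g.psi i y) = 1 := etaD.one_of_mem_closedBall (by
          rw [mem_closedBall_zero_iff]
          show _ ≤ (2 : ℝ)
          linarith [h.2.1])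
        rw [hI, indicator_of_mem h.1, Ft, h4, one_smul, (D.g.psi i).left_inv h.1]
        simp only [smul_apply, ContinuousLinearMap.id_apply, inner_smul_left, inner_smul_right,
          conj_trivial]
        have h5 := hd i _ h.2.1.le
        linear_combination ((D.g.mdl i).chi (D.g.psi i y) * ⟪v, f y⟫) * h5
      rw [h3] at h2
      refine h2.congr' ?_
      filter_upwards [self_mem_nhdsWithin] with t ht
      rw [int_lift_inner D (hU_cont D hH i y v t) (fun x hx => hU_supp hS i y v ht hx) hfc,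
        h.2.2 t]
    · have h3 : (D.g.psi i).source.indicator (fun y => (D.g.mdl i).chi (D.g.psi i y)) y = 0 := by
        by_cases hy : y ∈ (D.g.psi i).source
        · rw [indicator_of_mem hy]
          exact (D.g.mdl i).chi_supp _ (h.1 hy)
        · exact indicator_of_notMem hy _
      rw [h3, zero_mul]
      have h4 : ∀ t, ∫ x, ⟪lift D.g i (hU D.g Hf θ i y v t) x, f x⟫ ∂D.mu = 0 := by
        intro t
        have h5 : ∀ x, lift D.g i (hU D.g Hf θ i y v t) x = 0 := by
          intro x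
          rw [h.2 t, lift]
          by_cases hx : x ∈ (D.g.psi i).source
          · rw [indicator_of_mem hx]
          · rw [indicator_of_notMem hx]
        simp only [h5, inner_zero_left, integral_zero]
      simp only [h4]
      exact tendsto_const_nhds
  have h2 := tendsto_finsetSum (Finset.univ : Finset D.g.I) fun i _ => h1 i
  have h3 : ∑ i, (D.g.psi i).source.indicator (fun y => (D.g.mdl i).chi (D.g.psi i y)) y *
      ⟪v, f y⟫ = ⟪v, f y⟫ := by
    rw [← Finset.sum_mul]
    have h4 := D.g.part y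
    rw [finsum_eq_sum_of_fintype] at h4
    have h5 : ∑ i, (D.g.psi i).source.indicator (fun y => (D.g.mdl i).chi (D.g.psi i y)) y = 1 := h4
    rw [h5, one_mul]
  rw [h3] at h2
  refine h2.congr' ?_
  filter_upwards [self_mem_nhdsWithin] with t ht
  have hint : ∀ i, Integrable (fun x => ⟪lift D.g i (hU D.g Hf θ i y v t) x, f x⟫) D.mu := fun i =>
    integrable_of_cont D ((lift_cont (hU_cont D hH i y v t)
      (fun x hx => hU_supp hS i y v ht hx)).inner hfc)
  rw [← integral_finsetSum _ fun i _ => hint i]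
  refine integral_congr_ae (Eventually.of_forall fun x => ?_)
  simp only
  rw [hs_eq y v ht x, sum_inner]

end measure

section final

variable {X : Type} [TopologicalSpace X] {V : Type} [NormedAddCommGroup V] [InnerProductSpace ℝ V]
  [FiniteDimensional ℝ V]

/-- Continuity of functions carried by a chart, general target. -/
theorem ind_cont [T2Space X] (g : Geom X V) (i : g.I) {W : Type*} [NormedAddCommGroup W]
    {u : E4 → W} (hc : Continuous u) (hu : ∀ x, 2 ≤ ‖x‖ → u x = 0) :
    Continuous fun x => (g.psi i).source.indicator (fun x => u (g.psi i x)) x := by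
  rw [continuous_iff_continuousAt]
  intro x
  by_cases hx : x ∈ (g.psi i).source
  · have h2 : ContinuousAt (fun x => u (g.psi i x)) x :=
      hc.continuousAt.comp ((g.psi i).continuousAt hx)
    refine h2.congr ?_
    filter_upwards [(g.psi i).open_source.mem_nhds hx] with p hp
    rw [indicator_of_mem hp]
  · have hx2 : x ∉ Kc g i := fun h => hx (Kc_sub_source g i h)
    refine (continuousAt_const (y := (0 : W))).congr ?_
    filter_upwards [(isClosed_Kc g i).isOpen_compl.mem_nhds hx2] with p hp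
    by_cases h : p ∈ (g.psi i).source
    · rw [indicator_of_mem h, hu _ (notMem_Kc g h hp).le]
    · rw [indicator_of_notMem h]

/-- The weight. -/
theorem theta_cont {dens : E4 → ℝ} (hd : ContinuousOn dens (Metric.ball 0 3))
    (hp : ∀ x ∈ Metric.ball (0 : E4) 3, 0 < dens x) :
    Continuous fun z => etaD z * (dens z)⁻¹ := by
  rw [continuous_iff_continuousAt]
  intro x
  by_cases hx : ‖x‖ < 3
  · have hm : x ∈ Metric.ball (0 : E4) 3 := mem_ball_zero_iff.2 hx
    have h1 : ContinuousAt dens x := hd.continuousAt (Metric.isOpen_ball.mem_nhds hm)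
    exact etaD.continuous.continuousAt.mul (h1.inv₀ (hp x hm).ne')
  · have h1 : ∀ᶠ z in 𝓝 x, 5 / 2 < ‖z‖ :=
      continuous_norm.continuousAt.eventually (lt_mem_nhds (by linarith : (5 : ℝ) / 2 < ‖x‖))
    refine (continuousAt_const (y := (0 : ℝ))).congr ?_
    filter_upwards [h1] with z hz
    have h2 : etaD z = 0 := etaD.zero_of_le_dist (by rw [dist_zero_right]; exact hz.le)
    rw [h2, zero_mul]

theorem theta_mul {dens : E4 → ℝ} (hp : ∀ x ∈ Metric.ball (0 : E4) 3, 0 < dens x) {z : E4}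
    (hz : ‖z‖ ≤ 1) : etaD z * (dens z)⁻¹ * dens z = 1 := by
  have h4 : etaD z = 1 := etaD.one_of_mem_closedBall (by
    rw [mem_closedBall_zero_iff]
    show _ ≤ (2 : ℝ)
    linarith)
  have h5 := hp z (mem_ball_zero_iff.2 (by linarith))
  rw [h4, one_mul, inv_mul_cancel₀ h5.ne']

/-- Multiplication by a function of time and shift. -/
theorem nice_shift {k : ℕ} {T δ C B : ℝ} {u : ℝ → E4 → V} (h : NiceE k T C u) (hδ : 0 < δ)
    {c : ℝ → ℝ} (hc : ContinuousOn c (Ioi 0)) (hB : ∀ t, δ ≤ t → |c t| ≤ B) :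
    NiceE k (T - δ) (B * C) fun t x => c (t + δ) • u (t + δ) x := by
  have hm : ∀ t ∈ Icc 0 (T - δ), t + δ ∈ Icc 0 T := fun t ht =>
    ⟨by linarith [ht.1], by linarith [ht.2]⟩
  have e : ∀ j ≤ k, ∀ t ∈ Icc 0 (T - δ), ∀ x,
      iteratedFDeriv ℝ j (fun x => c (t + δ) • u (t + δ) x) x =
      c (t + δ) • iteratedFDeriv ℝ j (u (t + δ)) x := fun j hj t ht x =>
    iteratedFDeriv_const_smul_apply' (((h.1 _ (hm t ht)).of_le (by exact_mod_cast hj)).contDiffAt)
  refine ⟨fun t ht => contDiff_const.smul (h.1 _ (hm t ht)), fun j hj => ?_,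
    fun j hj t ht x => ?_⟩
  · have h1 : ContinuousOn (fun p : ℝ × E4 => iteratedFDeriv ℝ j (u (p.1 + δ)) p.2)
        (Icc 0 (T - δ) ×ˢ univ) :=
      (h.2.1 j hj).comp (f := fun p : ℝ × E4 => (p.1 + δ, p.2)) (by fun_prop)
        fun p hp => ⟨hm p.1 hp.1, mem_univ _⟩
    have h2 : ContinuousOn (fun p : ℝ × E4 => c (p.1 + δ)) (Icc 0 (T - δ) ×ˢ univ) :=
      hc.comp (f := fun p : ℝ × E4 => p.1 + δ) (by fun_prop)
        fun p hp => by
          have := hp.1.1
          show 0 < p.1 + δ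
          linarith
    refine (h2.smul h1).congr fun p hp => ?_
    exact e j hj p.1 hp.1 p.2
  · rw [e j hj t ht x, norm_smul, Real.norm_eq_abs]
    have h1 := h.2.2 j hj _ (hm t ht) x
    exact mul_le_mul (hB _ (by linarith [ht.1])) h1 (norm_nonneg _)
      ((abs_nonneg _).trans (hB δ le_rfl))

theorem hs_nice (g : Geom X V) {M : ℕ} {Hf : g.I → KP → (V →L[ℝ] V)} {θ : g.I → E4 → ℝ}
    {k : ℕ} {T0 C : ℝ}
    (hC : ∀ (y : X) (v : V), g.Nice k T0 (C * ‖v‖) (S g M Hf θ y v)) {δ : ℝ} (hδ : 0 < δ) (y : X)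
    (v : V) : g.Nice k (T0 - δ) ((Real.sqrt δ ^ (4 + M))⁻¹ * C * ‖v‖)
      fun t => hs g M Hf θ y v (t + δ) := by
  intro i
  have hB : ∀ t, δ ≤ t → |(fun t => (Real.sqrt t ^ (4 + M))⁻¹) t| ≤ (Real.sqrt δ ^ (4 + M))⁻¹ := by
    intro t ht
    have hδ' : 0 < Real.sqrt δ := Real.sqrt_pos.2 hδ
    have h1 : Real.sqrt δ ≤ Real.sqrt t := Real.sqrt_le_sqrt ht
    simp only
    rw [abs_of_nonneg (by positivity)]
    gcongr
  have hc : ContinuousOn (fun t => (Real.sqrt t ^ (4 + M))⁻¹) (Ioi 0) := by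
    refine ContinuousOn.inv₀ (by fun_prop) fun t ht => ?_
    exact pow_ne_zero _ (Real.sqrt_pos.2 ht).ne'
  have h := nice_shift (hC y v i) hδ hc hB
  rw [← mul_assoc] at h
  have e : (fun (t : ℝ) (x : E4) => (fun t => (Real.sqrt t ^ (4 + M))⁻¹) (t + δ) •
      etaC x • S g M Hf θ y v (t + δ) ((g.psi i).symm x)) =
      fun t x => etaC x • hs g M Hf θ y v (t + δ) ((g.psi i).symm x) := by
    funext t x
    simp only [hs]
    rw [smul_comm]
  rw [e] at h
  exact h

theorem nice_mono (g : Geom X V) {k : ℕ} {T C C' : ℝ} {u : ℝ → X → V} (h : g.Nice k T C u)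
    (hC : C ≤ C') : g.Nice k T C' u := fun i => C7_NiceE_mono (h i) hC

/-- The coefficient of the diagonal expansion. -/
def cw (g : Geom X V) [Fintype g.I] (P : g.J → ℕ → ℝ → E4 → E4 → (V →L[ℝ] V))
    (θ : g.I → E4 → ℝ) (w : ℕ) (y : X) : V →L[ℝ] V :=
  ∑ i, (g.psi i).source.indicator (fun y => (fun z => (θ i z * (g.mdl i).chi z *
    gaussK ((g.mdl i).a (0, z)) 0) • P (g.mod i) w 0 z 0) (g.psi i y)) y

theorem cw_cont [T2Space X] (g : Geom X V) [Fintype g.I]
    {P : g.J → ℕ → ℝ → E4 → E4 → (V →L[ℝ] V)} (hP : ∀ j, (g.model j).IsFormal (P j))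
    {θ : g.I → E4 → ℝ} (hθ : ∀ i, Continuous (θ i)) (w : ℕ) : Continuous (cw g P θ w) := by
  refine continuous_finsetSum _ fun i _ => ?_
  refine ind_cont g i (u := fun z => (θ i z * (g.mdl i).chi z *
    gaussK ((g.mdl i).a (0, z)) 0) • P (g.mod i) w 0 z 0) ?_ fun z hz => ?_
  · have h1 : Continuous fun z : E4 => gaussK ((g.mdl i).a (0, z)) 0 := by
      have := (claimGauss_proof.1 (g.mdl i).a (g.mdl i).a_smooth (g.mdl i).a_pos).1.continuous
      exact this.comp (by fun_prop : Continuous fun z : E4 => (((0 : ℝ), (0 : ℝ), z, (0 : E4)) : KP))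
    have h2 : Continuous fun z : E4 => P (g.mod i) w 0 z 0 := by
      have := ((hP (g.mod i)).poly w).pg.1.continuous
      exact this.comp (by fun_prop : Continuous fun z : E4 => (((0 : ℝ), (0 : ℝ), z, (0 : E4)) : KP))
    exact (((hθ i).mul (g.mdl i).chi_smooth.continuous).mul h1).smul h2
  · rw [(g.mdl i).chi_supp z (by linarith), mul_zero, zero_mul, zero_smul]

/-- The coefficient at a point where a single chart contributes. -/
theorem cw_eq [CompactSpace X] (g : Geom X V) [Fintype g.I]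
    (P : g.J → ℕ → ℝ → E4 → E4 → (V →L[ℝ] V)) {θ : g.I → E4 → ℝ} (w : ℕ) {i : g.I} {y : X}
    (hy : y ∈ (g.psi i).source) (h1 : (g.mdl i).chi (g.psi i y) = 1) :
    cw g P θ w y = (θ i (g.psi i y) * gaussK ((g.mdl i).a (0, g.psi i y)) 0) •
      P (g.mod i) w 0 (g.psi i y) 0 := by
  classical
  have h4 := g.part y
  rw [finsum_eq_sum_of_fintype] at h4
  have hnn : ∀ l, 0 ≤ (g.psi l).source.indicator
      (fun y => (g.model (g.mod l)).chi (g.psi l y)) y :=
    fun l => indicator_nonneg (fun y _ => (g.model (g.mod l)).chi_nonneg _) y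
  have hi1 : (g.psi i).source.indicator
      (fun y => (g.model (g.mod i)).chi (g.psi i y)) y = 1 := by
    rw [indicator_of_mem hy]
    exact h1
  have h5 : ∀ l, l ≠ i → (g.psi l).source.indicator
      (fun y => (g.model (g.mod l)).chi (g.psi l y)) y = 0 := by
    intro l hl
    have h6 := Finset.add_sum_erase Finset.univ (fun l => (g.psi l).source.indicator
      (fun y => (g.model (g.mod l)).chi (g.psi l y)) y) (Finset.mem_univ i)
    have h7 : ∑ l ∈ Finset.univ.erase i, (g.psi l).source.indicator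
      (fun y => (g.model (g.mod l)).chi (g.psi l y)) y = 0 := by
      simp only [h4, hi1] at h6
      linarith
    exact (Finset.sum_eq_zero_iff_of_nonneg fun l _ => hnn l).1 h7 l
      (Finset.mem_erase.2 ⟨hl, Finset.mem_univ l⟩)
  rw [cw, Finset.sum_eq_single i]
  · rw [indicator_of_mem hy]
    simp only [h1, mul_one]
  · intro l _ hl
    by_cases hyl : y ∈ (g.psi l).source
    · have h6 := h5 l hl
      rw [indicator_of_mem hyl] at h6
      have h7 : (g.mdl l).chi (g.psi l y) = 0 := h6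
      rw [indicator_of_mem hyl]
      simp only [h7, mul_zero, zero_mul, zero_smul]
    · exact indicator_of_notMem hyl _
  · exact fun h => absurd (Finset.mem_univ i) h

theorem etaC_chi (m : Model V) (z : E4) : etaC z * m.chi z = m.chi z := by
  rcases lt_or_ge ‖z‖ 1 with h | h
  · have h3 : etaC z = 1 := by
      unfold etaC
      apply etaBump.one_of_mem_closedBall
      rw [mem_closedBall_zero_iff]
      show _ ≤ (3 / 2 : ℝ)
      linarith
    rw [h3, one_mul]
  · rw [m.chi_supp z h, mul_zero]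

/-- The expansion on the diagonal. -/
theorem hs_diag [CompactSpace X] [T2Space X] (g : Geom X V) [Fintype g.I]
    (P : g.J → ℕ → ℝ → E4 → E4 → (V →L[ℝ] V)) (θ : g.I → E4 → ℝ) (N M : ℕ) (y : X) (v : V) {t : ℝ}
    (ht : 0 < t) :
    t ^ 2 • hs g M (fun i => (g.mdl i).kerH (P (g.mod i)) N) θ y v t y =
      ∑ w ∈ Finset.range (N + 1), Real.sqrt t ^ w • cw g P θ w y v := by
  have hr : 0 < Real.sqrt t := Real.sqrt_pos.2 ht
  have ht2 : t ^ 2 = Real.sqrt t ^ 4 := by
    have := Real.sq_sqrt ht.le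
    calc t ^ 2 = (Real.sqrt t ^ 2) ^ 2 := by rw [this]
      _ = _ := by ring
  rw [hs_eq y v ht]
  simp only [cw, sum_apply, Finset.smul_sum]
  rw [Finset.sum_comm]
  refine Finset.sum_congr rfl fun i _ => ?_
  by_cases hy : y ∈ (g.psi i).source
  · simp only [lift, hU, indicator_of_mem hy, ku, sub_self, smul_zero, Model.kerH, add_zero]
    rw [etaC_chi, smul_smul, ht2, mul_inv_cancel₀ (by positivity), one_smul]
    simp only [smul_apply, sum_apply, map_smul, Finset.smul_sum, smul_smul]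
    refine Finset.sum_congr rfl fun w _ => ?_
    congr 1
    ring
  · simp only [lift, indicator_of_notMem hy, smul_zero, zero_apply, Finset.sum_const_zero]

end final

end K2

open K2 in
/-- K2 with the diagonal coefficients. -/
theorem claimPoleP_proof (h3 : claimFormal) (h5 : claimParam) (h8 : claimPatch) : claimPoleP := by
  intro X _ _ _ _ _ V _ _ _ D k T0 hT0
  have := finite_I D.g
  have := Fintype.ofFinite D.g.I
  have hP := fun j => h3 V (D.g.model j)
  choose P hP using hP
  set N : ℕ := max k 2 + 12 with hN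
  have hk2 : k ≤ max k 2 := le_max_left _ _
  have h22 : 2 ≤ max k 2 := le_max_right _ _
  set M : ℕ := N - 5 with hM
  have hMk : k < M := by omega
  have hM2 : 2 < M := by omega
  have hM9 : 9 ≤ M := by omega
  set H : D.g.I → KP → (V →L[ℝ] V) := fun i => (D.g.mdl i).kerH (P (D.g.mod i)) N with hHdef
  have hpar := fun i : D.g.I => h5 V (D.g.mdl i) (P (D.g.mod i)) (hP (D.g.mod i)) N
  have hHR : ∀ i, RD (H i) := fun i => (hpar i).1
  have hHS : ∀ i, KSupp (H i) := fun i => C7_kerH_supp _ _ _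
  have hHI : ∀ i y, ∫ z, H i (0, 0, y, z) = (D.g.mdl i).chi y • ContinuousLinearMap.id ℝ V :=
    fun i y => (hpar i).2.1 0 y
  have hH' := fun i => (hpar i).2.2
  choose H' hR' hz' hx' hL using hH'
  have hS' : ∀ i, KSupp (H' i) := fun i => ⟨hz' i, hx' i⟩
  set θ : D.g.I → E4 → ℝ := fun i z => etaD z * (D.dens i z)⁻¹ with hθdef
  have hθ : ∀ i, Continuous (θ i) := fun i =>
    theta_cont (D.dens_smooth i).continuousOn (D.dens_pos i)
  have hθd : ∀ i z, ‖z‖ ≤ 1 → θ i z * D.dens i z = 1 := fun i z hz => theta_mul (D.dens_pos i) hz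
  obtain ⟨C1, hC10, hC1⟩ := nice_S (g := D.g) h8 hR' hS' hθ hMk T0
  obtain ⟨C2, hC20, hC2⟩ := norm_S_le (g := D.g) (M := M) hR' hS' hθ T0
  obtain ⟨C3, hC30, hC3⟩ := hs_l1 D M hHR hHS hθ T0
  obtain ⟨C5, hC50, hC5⟩ := nice_S (g := D.g) h8 hHR hHS hθ hMk T0
  obtain ⟨C6, hC60, hC6⟩ := nice_S (g := D.g) h8 hHR hHS hθ hM2 T0
  have hcc : ∀ w, Continuous (cw D.g P θ w) := fun w => cw_cont D.g hP hθ w
  have hcb : ∀ w, ∃ B : ℝ, 0 ≤ B ∧ ∀ y, ‖cw D.g P θ w y‖ ≤ B := by
    intro w
    obtain ⟨B, hB⟩ := isCompact_univ.exists_bound_of_continuousOn (hcc w).continuousOn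
    exact ⟨|B|, abs_nonneg _, fun y => (hB y (mem_univ _)).trans (le_abs_self _)⟩
  choose B hB0 hB using hcb
  set C4 : ℝ := ∑ w ∈ Finset.Ico 5 (N + 1), Real.sqrt T0 ^ (w - 5) * B w with hC4
  have hC40 : 0 ≤ C4 := Finset.sum_nonneg fun w _ => mul_nonneg (by positivity) (hB0 w)
  have hA : 0 ≤ C2 * Real.sqrt T0 ^ (M - 4) := by positivity
  set C : ℝ := C1 + C2 * Real.sqrt T0 ^ (M - 4) + C3 + C4 with hCdef
  refine ⟨hs D.g M H θ, S D.g M H' θ, C, fun y v => ?_, ?_, ?_, fun y v => ?_, fun y v t ht x => ?_,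
    fun v => ?_, fun v y ε hε => ?_, fun y v t ht => ?_, fun δ hδ => ?_, cw D.g P θ,
    fun i => P (D.g.mod i), ⟨hcc, fun i => hP (D.g.mod i), fun i y hy h1 w _ => ?_⟩,
    fun t ht y v => ?_⟩
  · refine ⟨fun δ hδ _ => ⟨_, hs_nice D.g hC6 hδ y v⟩, fun t ht x => ?_, ?_, ?_, ?_, ?_⟩
    · have h1 := hs_deriv (g := D.g) (M := M) (θ := θ) hHR hHS (by omega : 6 ≤ N) hL y v ht.1 x
      have h2 : D.g.L t (hs D.g M H θ y v t) x = D.g.L 0 (hs D.g M H θ y v t) x :=
        op_const _ (D.a_const _) (D.b_const _) (D.c_const _) t _ _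
      rw [← h2]
      exact h1.hasDerivWithinAt
    · refine ⟨C2 * ‖v‖ * Real.sqrt T0 ^ M, fun t ht x => ?_⟩
      refine (hC2 y v t x ht.2).trans ?_
      gcongr
      exact ht.2
    · exact ((cont_S (g := D.g) hR' hS' (by omega : 0 < M) hθ v).comp
        (f := fun p : ℝ × X => (p.1, p.2, y)) (by fun_prop)).continuousOn
    · exact ⟨C3 * ‖v‖, fun t ht => hC3 y v t ht⟩
    · exact fun f hf => hs_init D M hHR hHS hHI hθd y v hf
  · intro y v w t x
    simp only [hs]
    rw [S_add, smul_add]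
  · intro y c v t x
    simp only [hs]
    rw [S_smul, smul_comm]
  · refine nice_mono D.g (hC1 y v) ?_
    gcongr
    linarith
  · refine (hC2 y v t x ht.2).trans ?_
    have h1 : Real.sqrt t ^ M = Real.sqrt t ^ (M - 4) * t ^ 2 := by
      have h2 := Real.sq_sqrt ht.1
      calc Real.sqrt t ^ M = Real.sqrt t ^ (M - 4) * (Real.sqrt t ^ 2) ^ 2 := by
            rw [← pow_mul, ← pow_add]
            congr 1
        _ = _ := by rw [h2]
    have h2 : Real.sqrt t ^ (M - 4) ≤ Real.sqrt T0 ^ (M - 4) := by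
      gcongr
      exact ht.2
    calc C2 * ‖v‖ * Real.sqrt t ^ M = C2 * ‖v‖ * (Real.sqrt t ^ (M - 4) * t ^ 2) := by rw [h1]
      _ ≤ C2 * ‖v‖ * (Real.sqrt T0 ^ (M - 4) * t ^ 2) := by gcongr
      _ = (C2 * Real.sqrt T0 ^ (M - 4)) * ‖v‖ * t ^ 2 := by ring
      _ ≤ _ := by
        gcongr
        linarith
  · have h1 := cont_S (g := D.g) hHR hHS (by omega : 0 < M) hθ v
    have hc : ContinuousOn (fun p : ℝ × X × X => (Real.sqrt p.1 ^ (4 + M))⁻¹) (Ioi 0 ×ˢ univ) := by
      refine ContinuousOn.inv₀ (by fun_prop) fun p hp => ?_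
      exact pow_ne_zero _ (Real.sqrt_pos.2 hp.1).ne'
    exact hc.smul h1.continuousOn
  · exact nice_S_sub (g := D.g) h8 hR' hS' hθ hMk T0 v y hε
  · refine (hC3 y v t ht).trans ?_
    gcongr
    linarith
  · refine ⟨(Real.sqrt δ ^ (4 + M))⁻¹ * C5, fun y v => hs_nice D.g hC5 hδ y v⟩
  · rw [cw_eq D.g P w hy h1]
    congr 1
    have hn : ‖D.g.psi i y‖ < 1 := by
      by_contra hcon
      have := (D.g.mdl i).chi_supp _ (not_lt.1 hcon)
      rw [this] at h1
      exact zero_ne_one h1
    have h4 : etaD (D.g.psi i y) = 1 := etaD.one_of_mem_closedBall (by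
      rw [mem_closedBall_zero_iff]
      show _ ≤ (2 : ℝ)
      linarith)
    simp only [hθdef, h4, one_mul]
    rw [div_eq_inv_mul]
  · rw [hs_diag D.g P θ N M y v ht.1]
    have h1 : ∑ w ∈ Finset.range (N + 1), Real.sqrt t ^ w • cw D.g P θ w y v -
        ∑ w ∈ Finset.range 5, Real.sqrt t ^ w • cw D.g P θ w y v =
        ∑ w ∈ Finset.Ico 5 (N + 1), Real.sqrt t ^ w • cw D.g P θ w y v := by
      rw [sub_eq_iff_eq_add', Finset.sum_range_add_sum_Ico _ (by omega)]
    rw [h1]
    refine (norm_sum_le _ _).trans ?_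
    calc ∑ w ∈ Finset.Ico 5 (N + 1), ‖Real.sqrt t ^ w • cw D.g P θ w y v‖ ≤
          ∑ w ∈ Finset.Ico 5 (N + 1), (Real.sqrt T0 ^ (w - 5) * B w) * (‖v‖ * Real.sqrt t ^ 5) := by
          refine Finset.sum_le_sum fun w hw => ?_
          have hw5 := (Finset.mem_Ico.1 hw).1
          have h2 : Real.sqrt t ^ w = Real.sqrt t ^ (w - 5) * Real.sqrt t ^ 5 := by
            rw [← pow_add]; congr 1; omega
          have h3 : Real.sqrt t ^ (w - 5) ≤ Real.sqrt T0 ^ (w - 5) := by
            gcongr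
            exact ht.2
          rw [norm_smul, norm_pow, Real.norm_of_nonneg (Real.sqrt_nonneg _), h2]
          calc Real.sqrt t ^ (w - 5) * Real.sqrt t ^ 5 * ‖cw D.g P θ w y v‖ ≤
                Real.sqrt T0 ^ (w - 5) * Real.sqrt t ^ 5 * (B w * ‖v‖) := by
                gcongr
                exact (ContinuousLinearMap.le_opNorm _ _).trans (by
                  gcongr
                  exact hB w y)
            _ = _ := by ring
      _ = C4 * ‖v‖ * Real.sqrt t ^ 5 := by
          rw [hC4, ← Finset.sum_mul]; ring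
      _ ≤ _ := by
          gcongr
          linarith

/-- K2. -/
theorem claimPole_proof (h3 : claimFormal) (h5 : claimParam) (h8 : claimPatch) : claimPole := by
  intro X _ _ _ _ _ V _ _ _ D k T0 hT0
  obtain ⟨h, e, C, a1, a2, a3, a4, a5, a6, a7, a8, a9, c, P, hc, hest⟩ :=
    claimPoleP_proof h3 h5 h8 X V D k T0 hT0
  exact ⟨h, e, C, a1, a2, a3, a4, a5, a6, a7, a8, a9, c, hc.cont, hest⟩

end NRF

end
end

section

/-!
# Item D3a: degree and volume element against `d`, `δ`, `D`
-/

open scoped Manifold ContDiff Topology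
open MeasureTheory Set

noncomputable section

namespace NRF

/-! ### Constant matrices -/

section
variable (R : Type) [CommRing R]

theorem D3a_epsP (a : Fin 4) (k : ℕ) : eps R a * degP R k = degP R (k + 1) * eps R a := by
  ext s t
  unfold degP
  rw [Matrix.diagonal_mul, Matrix.mul_diagonal]
  by_cases h : a ∉ t ∧ s = insert a t
  · obtain ⟨h1, rfl⟩ := h
    rw [Finset.card_insert_of_notMem h1]
    by_cases hk : t.card = k
    · rw [if_pos hk, if_pos (by omega)]
      ring
    · rw [if_neg hk, if_neg (by omega)]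
      ring
  · have h0 : eps R a s t = 0 := by
      simp [eps, epsZ, h]
    rw [h0]
    ring

theorem D3a_P0eps (a : Fin 4) : degP R 0 * eps R a = 0 := by
  ext s t
  unfold degP
  rw [Matrix.diagonal_mul, Matrix.zero_apply]
  by_cases h : a ∉ t ∧ s = insert a t
  · obtain ⟨h1, rfl⟩ := h
    rw [Finset.card_insert_of_notMem h1, if_neg (by omega)]
    ring
  · have h0 : eps R a s t = 0 := by
      simp [eps, epsZ, h]
    rw [h0]
    ring

theorem D3a_degP_T (k : ℕ) : (degP R k).transpose = degP R k := Matrix.diagonal_transpose _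

theorem D3a_iotP (a : Fin 4) (k : ℕ) : iot R a * degP R (k + 1) = degP R k * iot R a := by
  have h := congrArg Matrix.transpose (D3a_epsP R a k)
  rw [Matrix.transpose_mul, Matrix.transpose_mul, D3a_degP_T, D3a_degP_T] at h
  exact h.symm

theorem D3a_iotP0 (a : Fin 4) : iot R a * degP R 0 = 0 := by
  have h := congrArg Matrix.transpose (D3a_P0eps R a)
  rw [Matrix.transpose_mul, D3a_degP_T, Matrix.transpose_zero] at h
  exact h

theorem D3a_rhoP (A : Matrix (Fin 4) (Fin 4) R) (k : ℕ) :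
    rho A * degP R k = degP R k * rho A := by
  unfold rho
  simp only [Finset.mul_sum, Finset.sum_mul]
  refine Finset.sum_congr rfl fun a _ => Finset.sum_congr rfl fun b _ => ?_
  rw [mul_smul_comm, smul_mul_assoc]
  congr 1
  cases k with
  | zero => rw [mul_assoc, D3a_iotP0, ← mul_assoc, D3a_P0eps, mul_zero, zero_mul]
  | succ k => rw [mul_assoc, D3a_iotP, ← mul_assoc, D3a_epsP, mul_assoc]

theorem D3a_gh (a : Fin 4) :
    gam R * (eps R a + iot R a) = (eps R a + iot R a) * gam R := by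
  have hanti : ∀ b, clf R b * (eps R a + iot R a) = -((eps R a + iot R a) * clf R b) := by
    intro b
    have f1 := FR3_ee R b a
    have f2 := FR3_ii R b a
    have f3 := FR3_ei R b a
    have f4 := FR3_ei R a b
    have f5 : clf R b * (eps R a + iot R a) + (eps R a + iot R a) * clf R b =
        (eps R b * eps R a + eps R a * eps R b) - (iot R b * iot R a + iot R a * iot R b) +
        (eps R b * iot R a + iot R a * eps R b) - (eps R a * iot R b + iot R b * eps R a) := by
      unfold clf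
      noncomm_ring
    rw [f1, f2, f3, f4] at f5
    refine eq_neg_of_add_eq_zero_left ?_
    rw [f5]
    by_cases h : b = a
    · rw [if_pos h, if_pos h.symm]; simp
    · rw [if_neg h, if_neg (Ne.symm h)]; simp
  have h0 : ∀ b, clf R b * (eps R a + iot R a) = -((eps R a + iot R a) * clf R b) := hanti
  unfold gam
  exact FR3_move _ _ _ _ _ (h0 0) (h0 1) (h0 2) (h0 3)

end

section
variable (R : Type) [CommRing R] [Algebra ℝ R]

theorem D3a_two {x : Matrix Lam Lam R} (hx : x + x = 0) : x = 0 := by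
  have h3 : ((1 / 2 : ℝ)) • (x + x) = x := by
    rw [← two_smul ℝ, smul_smul]
    norm_num
  rw [← h3, hx, smul_zero]

theorem D3a_epsg (a : Fin 4) : eps R a * gam R = gam R * iot R a := by
  have h1 := D3a_gh R a
  have h2 := FR3_gc R a
  refine sub_eq_zero.1 (D3a_two R ?_)
  have h3 : eps R a * gam R - gam R * iot R a + (eps R a * gam R - gam R * iot R a) =
      ((eps R a + iot R a) * gam R - gam R * (eps R a + iot R a)) +
      (gam R * clf R a + clf R a * gam R) := by
    unfold clf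
    noncomm_ring
  rw [h3, h1, h2]
  simp

theorem D3a_iotg (a : Fin 4) : iot R a * gam R = gam R * eps R a := by
  have h1 := D3a_gh R a
  have h2 := FR3_gc R a
  refine sub_eq_zero.1 (D3a_two R ?_)
  have h3 : iot R a * gam R - gam R * eps R a + (iot R a * gam R - gam R * eps R a) =
      ((eps R a + iot R a) * gam R - gam R * (eps R a + iot R a)) -
      (gam R * clf R a + clf R a * gam R) := by
    unfold clf
    noncomm_ring
  rw [h3, h1, h2]
  simp

end

/-! ### Covariant derivatives -/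

theorem D3a_pd_const_mul {u : E4 → ℝ} {y : E4} (hu : DifferentiableAt ℝ u y) (c : ℝ) (i : Fin 4) :
    pd i (fun z => c * u z) y = c * pd i u y := by
  rw [FC3_pd_mul (differentiableAt_const c) hu]
  have : pd i (fun _ : E4 => c) y = 0 := by
    unfold pd
    simp
  rw [this, mul_zero, add_zero]

theorem D3a_pd_sum {ι : Type} (s : Finset ι) (u : ι → E4 → ℝ) {y : E4}
    (hu : ∀ t ∈ s, DifferentiableAt ℝ (u t) y) (i : Fin 4) :
    pd i (fun z => ∑ t ∈ s, u t z) y = ∑ t ∈ s, pd i (u t) y := by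
  unfold pd
  rw [fderiv_fun_sum hu]
  simp

theorem D3a_nab (G f : E4 → Matrix (Fin 4) (Fin 4) ℝ) (M : Matrix Lam Lam ℝ) (i : Fin 4)
    (α : E4 → Lam → ℝ) (y : E4) (hα : ∀ s, DifferentiableAt ℝ (fun z => α z s) y)
    (hM : rho (omC G f i y) * M = M * rho (omC G f i y)) :
    nabC G f i (fun z => M.mulVec (α z)) y = M.mulVec (nabC G f i α y) := by
  unfold nabC
  rw [Matrix.mulVec_mulVec, Matrix.mulVec_add, Matrix.mulVec_mulVec, hM]
  congr 1
  funext s
  show pd i (fun z => ∑ t, M s t * α z t) y = ∑ t, M s t * pd i (fun z => α z t) y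
  rw [D3a_pd_sum _ _ fun t _ => (hα t).const_mul (M s t)]
  exact Finset.sum_congr rfl fun t _ => D3a_pd_const_mul (hα t) _ i

theorem D3a_T (G f : E4 → Matrix (Fin 4) (Fin 4) ℝ) (E E' : Fin 4 → Matrix Lam Lam ℝ)
    (M M' : Matrix Lam Lam ℝ) (α : E4 → Lam → ℝ) (y : E4)
    (hα : ∀ s, DifferentiableAt ℝ (fun z => α z s) y)
    (hM : ∀ i, rho (omC G f i y) * M = M * rho (omC G f i y))
    (hE : ∀ a, E a * M = M' * E' a) :
    FC3_T G f E (fun z => M.mulVec (α z)) y = M'.mulVec (FC3_T G f E' α y) := by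
  unfold FC3_T
  simp only [Matrix.mulVec_sum, Matrix.mulVec_smul, Matrix.mulVec_mulVec]
  refine Finset.sum_congr rfl fun i _ => Finset.sum_congr rfl fun a _ => ?_
  rw [D3a_nab G f M i α y hα (hM i), Matrix.mulVec_mulVec, hE]

theorem D3a_dFC (G f : E4 → Matrix (Fin 4) (Fin 4) ℝ) (α : E4 → Lam → ℝ) (y : E4) :
    dFC G f α y = FC3_T G f (eps ℝ) α y := rfl

theorem D3a_delFC (G f : E4 → Matrix (Fin 4) (Fin 4) ℝ) (α : E4 → Lam → ℝ) (y : E4) :
    delFC G f α y = -FC3_T G f (iot ℝ) α y := rfl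

theorem D3a_diracC (G f : E4 → Matrix (Fin 4) (Fin 4) ℝ) (α : E4 → Lam → ℝ) (y : E4) :
    diracC G f α y = FC3_T G f (clf ℝ) α y := rfl

theorem thm_DegD (f2 : claimFC2) (_f3 : claimFR3) : claimDegD := by
  intro U G f hf α y hy hα
  have hsk : ∀ i, (omC G f i y).transpose = -omC G f i y := ((f2 U G f hf).2.2 y hy).1
  have hP : ∀ k i, rho (omC G f i y) * degP ℝ k = degP ℝ k * rho (omC G f i y) := fun k i =>
    D3a_rhoP ℝ _ k
  have hg : ∀ i, rho (omC G f i y) * gam ℝ = gam ℝ * rho (omC G f i y) := fun i =>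
    (FR3_grho _ (hsk i)).symm
  have ho : ∀ i, rho (omC G f i y) * evenOdd ℝ = evenOdd ℝ * rho (omC G f i y) := fun i =>
    (FR3_orho _).symm
  refine ⟨fun k => ?_, fun k => ?_, ?_, ?_, ?_, ?_⟩
  · simp only [D3a_dFC]
    exact D3a_T G f _ _ _ _ α y hα (hP k) fun a => D3a_epsP ℝ a k
  · simp only [D3a_delFC]
    rw [D3a_T G f _ (iot ℝ) _ (degP ℝ k) α y hα (hP (k + 1)) fun a => D3a_iotP ℝ a k,
      Matrix.mulVec_neg]
  · rw [D3a_dFC, D3a_delFC, D3a_T G f _ (iot ℝ) _ (gam ℝ) α y hα hg fun a => D3a_epsg ℝ a,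
      Matrix.mulVec_neg, neg_neg]
  · rw [D3a_dFC, D3a_delFC, D3a_T G f _ (eps ℝ) _ (gam ℝ) α y hα hg fun a => D3a_iotg ℝ a]
  · rw [D3a_diracC, D3a_diracC, D3a_T G f _ (clf ℝ) _ (-gam ℝ) α y hα hg fun a => by
      rw [neg_mul, FR3_gc, neg_neg], Matrix.neg_mulVec]
  · rw [D3a_diracC, D3a_diracC, D3a_T G f _ (clf ℝ) _ (-evenOdd ℝ) α y hα ho fun a => by
      rw [neg_mul, FR3_oc, neg_neg], Matrix.neg_mulVec]

end NRF

end
end
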