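import Pool.Agent.Work.MP_7f974f_gt.Stmts_E2
import Pool.Agent.Work.MP_7f974f_gt.Bd.B03
import Pool.Agent.Work.MP_7f974f_gt.Stmts_D4
import Pool.Agent.Work.MP_7f974f_gt.Bd.B09
import Pool.Agent.Work.MP_7f974f_gt.Bd.B04

/-! Bundle of small proof modules (one section per former module). -/

section

/-!
# Items E15, E16: assembly of the local computation
-/

open scoped Manifold ContDiff Topology RealInnerProductSpace
open MeasureTheory Set

noncomputable section

namespace NRF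

theorem AsmE_isPolF_comp {V : Type} [NormedAddCommGroup V] [InnerProductSpace ℝ V]
    (l : (V →L[ℝ] V) →ₗ[ℝ] ℝ) (f : E4 → (V →L[ℝ] V)) (hf : IsPolF f) :
    IsPolF fun z => l (f z) := by
  obtain ⟨A, p, h⟩ := hf
  refine ⟨A, fun α => l (p α), fun z => ?_⟩
  change l (f z) = _
  rw [h z, map_sum]
  exact Finset.sum_congr rfl fun α _ => l.map_smul _ _

theorem AsmE_alg {V : Type} [NormedAddCommGroup V] [InnerProductSpace ℝ V]
    (l : (V →L[ℝ] V) →ₗ[ℝ] ℝ) (κ : ℝ) (B : Fin 4 → Fin 4 → (V →L[ℝ] V)) (W0 : V →L[ℝ] V)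
    (hc : ∀ j k, l ((B j k).comp W0) = l (W0.comp (B j k))) :
    (l (W0.comp W0) - κ * ∑ k, l ((B k k).comp W0)) / 2 + κ / 3 * (∑ i,
        (κ * (∑ k, l ((B i k).comp (B i k))) -
          κ * (∑ k, l ((B i k).comp (B k i + B i k))) + l ((B i i).comp W0) +
          (1 / 2) * l (W0.comp (B i i)) - κ / 2 * ∑ k, l ((B k k).comp (B i i)))) +
      κ ^ 2 / 3 * (∑ i, ∑ j, ((1 / 2) * l ((B i i).comp (B j j)) +
        (1 / 2) * l ((B i j).comp (B i j)) + (1 / 2) * l ((B i j).comp (B j i)))) =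
    (1 / 2) * l (W0.comp W0) + (κ ^ 2 / 12) * ∑ i, ∑ j,
        l ((B i j - B j i).comp (B i j - B j i)) := by
  have hsub : ∀ i j, l ((B i j - B j i).comp (B i j - B j i)) =
      l ((B i j).comp (B i j)) - l ((B i j).comp (B j i)) - l ((B j i).comp (B i j)) +
        l ((B j i).comp (B j i)) := by
    intro i j
    rw [← map_sub, ← map_sub, ← map_add]
    congr 1
    ext v
    simp only [ContinuousLinearMap.comp_apply, sub_apply,
      add_apply, map_sub]
    abel
  have hadd : ∀ i k j : Fin 4, l ((B i k).comp (B k j + B j k)) =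
      l ((B i k).comp (B k j)) + l ((B i k).comp (B j k)) := by
    intro i k j
    rw [← map_add]
    congr 1
    ext v
    simp only [ContinuousLinearMap.comp_apply, add_apply, map_add]
  simp only [hsub, hadd, hc]
  have h3 : ∑ i : Fin 4, ∑ j : Fin 4, l ((B j i).comp (B i j)) =
      ∑ i : Fin 4, ∑ j : Fin 4, l ((B i j).comp (B j i)) := Finset.sum_comm
  have h5 : ∑ i : Fin 4, ∑ j : Fin 4, l ((B j i).comp (B j i)) =
      ∑ i : Fin 4, ∑ j : Fin 4, l ((B i j).comp (B i j)) := Finset.sum_comm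
  have h7 : ∑ i : Fin 4, ∑ j : Fin 4, l ((B j j).comp (B i i)) =
      ∑ i : Fin 4, ∑ j : Fin 4, l ((B i i).comp (B j j)) := Finset.sum_comm
  simp only [Finset.sum_add_distrib, Finset.sum_sub_distrib, ← Finset.mul_sum, h3, h5, h7]
  ring

/-- E15. -/
theorem thm_AsmE : claimAsmE := by
  intro hO hV hC hT h2 h4 V _ _ _ m κ δ G A W l hL hF hop P hP
  have hcoef := hO V m κ δ G A W hL hop
  obtain ⟨β, hD⟩ := hT V m κ δ G A W l hL hF fun t z hz =>
    ⟨(hop t z hz).1, (hcoef t z hz).1, (hcoef t z hz).2⟩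
  obtain ⟨hP1, p, hp, hP2⟩ := h2 V m κ _ _ l β hD P hP
  have h44 := h4 V m κ _ _ l β hD P hP hP1 p hp hP2
  have hval := hV κ _ _ _ (fun z => l (P 4 0 0 z))
    (AsmE_isPolF_comp l _ ((hC V m κ hD.kpos hD.a0 P hP).1 4)) h44
  rw [hval]
  exact AsmE_alg l κ (fun j k => pd j (A k) 0) (W 0) hD.comm

/-- E16. -/
theorem thm_AsmE3 : claimAsmE3 := by
  intro hR h1 h2 hI Q hQ σ hσ
  refine (hI Q hQ σ hσ).trans (le_of_eq ?_)
  have hA : ∀ a b, (Matrix.of fun c d => Q a b c d).transpose =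
      -(Matrix.of fun c d => Q a b c d) := by
    intro a b
    ext c d
    simp only [Matrix.transpose_apply, Matrix.of_apply, Matrix.neg_apply]
    rw [hQ.anti2 a b d c]
  have e1 : (evenOdd ℝ * p4Q Q).trace = (1 / 2) * (evenOdd ℝ * (weitz Q * weitz Q)).trace := by
    simp only [p4Q, Matrix.mul_add, Matrix.mul_smul, Matrix.mul_sum, Matrix.trace_add,
      Matrix.trace_smul, Matrix.trace_sum, (hR _ (hA _ _)).1, smul_eq_mul]
    simp
  have e2 : (gam ℝ * p4Q Q).trace = (1 / 2) * (gam ℝ * (weitz Q * weitz Q)).trace +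
      (1 / 3) * ∑ a, ∑ b, pf2 (fun c d => Q a b c d) (fun c d => Q a b c d) := by
    simp only [p4Q, Matrix.mul_add, Matrix.mul_smul, Matrix.mul_sum, Matrix.trace_add,
      Matrix.trace_smul, Matrix.trace_sum, (hR _ (hA _ _)).2, smul_eq_mul]
    simp only [← Finset.mul_sum]
    have h0 : (∑ a, ∑ b, pf2 (Matrix.of fun c d => Q a b c d) (Matrix.of fun c d => Q a b c d)) =
      ∑ a, ∑ b, pf2 (fun c d => Q a b c d) (fun c d => Q a b c d) := rfl
    rw [h0]
    ring
  have e3 : ∀ a b, pf2 (fun c d => Q a b c d) (fun c d => Q a b c d) =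
      pf2 (fun c d => Q c d a b) (fun c d => Q c d a b) := by
    intro a b
    simp only [pf2]
    rw [hQ.pair a b 0 1, hQ.pair a b 0 2, hQ.pair a b 0 3, hQ.pair a b 1 2, hQ.pair a b 1 3,
      hQ.pair a b 2 3]
  have e4 : (∑ a, ∑ b, pf2 (fun c d => Q a b c d) (fun c d => Q a b c d)) =
      ∑ a, ∑ b, pf2 (fun c d => Q c d a b) (fun c d => Q c d a b) :=
    Finset.sum_congr rfl fun a _ => Finset.sum_congr rfl fun b _ => e3 a b
  rw [e1, e2, h1 Q hQ, h2 Q hQ, e4]
  ring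

end NRF

end
end

section

/-!
# Item E3a: vanishing traces on the exterior algebra
-/

set_option autoImplicit false

noncomputable section

namespace NRF

open Matrix Finset

abbrev E3aM : Type := Matrix Lam Lam ℝ

theorem E3a_tr0 {M g : E3aM} (h : g * M = -(M * g)) (hg : g * g = 1 ∨ g * g = -1) :
    M.trace = 0 := by
  have h1 : (M * (g * g)).trace = 0 := by
    have h2 : (M * (g * g)).trace = -(M * (g * g)).trace := by
      calc (M * (g * g)).trace = ((M * g) * g).trace := by rw [mul_assoc]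
        _ = (g * (M * g)).trace := Matrix.trace_mul_comm _ _
        _ = ((g * M) * g).trace := by rw [mul_assoc]
        _ = (-(M * g) * g).trace := by rw [h]
        _ = -(M * (g * g)).trace := by rw [neg_mul, Matrix.trace_neg, mul_assoc]
    linarith
  rcases hg with hg | hg
  · rwa [hg, mul_one] at h1
  · rw [hg, mul_neg, mul_one, Matrix.trace_neg] at h1
    linarith

/-- The second Clifford multiplication. -/
def E3a_hat (a : Fin 4) : E3aM := eps ℝ a + iot ℝ a

theorem E3a_hat2 (a : Fin 4) : E3a_hat a * E3a_hat a = 1 := by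
  have h3 := FR3_ei ℝ a a
  rw [if_pos rfl] at h3
  have h5 : E3a_hat a * E3a_hat a = eps ℝ a * eps ℝ a + iot ℝ a * iot ℝ a
      + (eps ℝ a * iot ℝ a + iot ℝ a * eps ℝ a) := by
    unfold E3a_hat
    noncomm_ring
  rw [h5, FR3_e2, FR3_i2, h3]
  simp

theorem E3a_hat_eps {a b : Fin 4} (h : a ≠ b) :
    eps ℝ b * E3a_hat a = -(E3a_hat a * eps ℝ b) := by
  have h1 := FR3_ee ℝ a b
  have h2 := FR3_ei ℝ b a
  rw [if_neg (Ne.symm h)] at h2
  apply eq_neg_of_add_eq_zero_left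
  have h5 : eps ℝ b * E3a_hat a + E3a_hat a * eps ℝ b =
      (eps ℝ a * eps ℝ b + eps ℝ b * eps ℝ a) + (eps ℝ b * iot ℝ a + iot ℝ a * eps ℝ b) := by
    unfold E3a_hat
    noncomm_ring
  rw [h5, h1, h2, add_zero]

theorem E3a_hat_iot {a b : Fin 4} (h : a ≠ b) :
    iot ℝ b * E3a_hat a = -(E3a_hat a * iot ℝ b) := by
  have h1 := FR3_ii ℝ a b
  have h2 := FR3_ei ℝ a b
  rw [if_neg h] at h2
  apply eq_neg_of_add_eq_zero_left
  have h5 : iot ℝ b * E3a_hat a + E3a_hat a * iot ℝ b =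
      (iot ℝ a * iot ℝ b + iot ℝ b * iot ℝ a) + (eps ℝ a * iot ℝ b + iot ℝ b * eps ℝ a) := by
    unfold E3a_hat
    noncomm_ring
  rw [h5, h1, h2, add_zero]

theorem E3a_hat_clf (a b : Fin 4) : clf ℝ b * E3a_hat a = -(E3a_hat a * clf ℝ b) := by
  have f1 := FR3_ee ℝ a b
  have f2 := FR3_ii ℝ a b
  have f3 := FR3_ei ℝ a b
  have f4 := FR3_ei ℝ b a
  have f5 : clf ℝ b * E3a_hat a + E3a_hat a * clf ℝ b =
      (eps ℝ a * eps ℝ b + eps ℝ b * eps ℝ a) - (iot ℝ a * iot ℝ b + iot ℝ b * iot ℝ a)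
      - (eps ℝ a * iot ℝ b + iot ℝ b * eps ℝ a) + (eps ℝ b * iot ℝ a + iot ℝ a * eps ℝ b) := by
    unfold clf E3a_hat
    noncomm_ring
  rw [f1, f2, f3, f4] at f5
  apply eq_neg_of_add_eq_zero_left
  rw [f5]
  by_cases h : a = b
  · subst h
    simp
  · rw [if_neg h, if_neg (Ne.symm h)]
    simp

theorem E3a_hat_hat {a b : Fin 4} (h : a ≠ b) :
    E3a_hat b * E3a_hat a = -(E3a_hat a * E3a_hat b) := by
  have h1 := E3a_hat_eps h
  have h2 := E3a_hat_iot h
  rw [show E3a_hat b = eps ℝ b + iot ℝ b from rfl, add_mul, h1, h2, mul_add]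
  abel

theorem E3a_clf_eps {a b : Fin 4} (h : a ≠ b) :
    eps ℝ b * clf ℝ a = -(clf ℝ a * eps ℝ b) := by
  have h1 := FR3_ee ℝ a b
  have h2 := FR3_ei ℝ b a
  rw [if_neg (Ne.symm h)] at h2
  apply eq_neg_of_add_eq_zero_left
  have h5 : eps ℝ b * clf ℝ a + clf ℝ a * eps ℝ b =
      (eps ℝ a * eps ℝ b + eps ℝ b * eps ℝ a) - (eps ℝ b * iot ℝ a + iot ℝ a * eps ℝ b) := by
    unfold clf
    noncomm_ring
  rw [h5, h1, h2, sub_zero]

theorem E3a_clf_iot {a b : Fin 4} (h : a ≠ b) :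
    iot ℝ b * clf ℝ a = -(clf ℝ a * iot ℝ b) := by
  have h1 := FR3_ii ℝ a b
  have h2 := FR3_ei ℝ a b
  rw [if_neg h] at h2
  apply eq_neg_of_add_eq_zero_left
  have h5 : iot ℝ b * clf ℝ a + clf ℝ a * iot ℝ b =
      (eps ℝ a * iot ℝ b + iot ℝ b * eps ℝ a) - (iot ℝ a * iot ℝ b + iot ℝ b * iot ℝ a) := by
    unfold clf
    noncomm_ring
  rw [h5, h1, h2, sub_zero]

theorem E3a_odd_hat (a : Fin 4) :
    E3a_hat a * evenOdd ℝ = -(evenOdd ℝ * E3a_hat a) := by
  unfold E3a_hat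
  rw [mul_add, FR3_oe, FR3_oi]
  noncomm_ring

theorem E3a_gam_hat (a : Fin 4) : E3a_hat a * gam ℝ = gam ℝ * E3a_hat a :=
  (FR3_move (E3a_hat a) _ _ _ _ (E3a_hat_clf a 0) (E3a_hat_clf a 1) (E3a_hat_clf a 2)
    (E3a_hat_clf a 3)).symm

theorem E3a_exE : ∀ a b c d : Fin 4, (a ≠ b ∧ a ≠ c ∧ a ≠ d ∧ b ≠ c ∧ b ≠ d ∧ c ≠ d) ∨
    ∃ e, e ≠ a ∧ e ≠ b ∧ e ≠ c ∧ e ≠ d := by decide

theorem E3a_ex2 : ∀ c d : Fin 4, ∃ e, e ≠ c ∧ e ≠ d := by decide

/-- Anticommuting factor and commuting factor. -/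
theorem E3a_anti {X P g : E3aM} (h1 : g * X = -(X * g)) (h2 : P * g = g * P) :
    g * (X * P) = -((X * P) * g) := by
  rw [← mul_assoc, h1, neg_mul, mul_assoc, ← h2, mul_assoc]

theorem E3a_anti' {X P g : E3aM} (h1 : g * X = X * g) (h2 : P * g = -(g * P)) :
    g * (X * P) = -((X * P) * g) := by
  rw [← mul_assoc, h1, mul_assoc, mul_assoc, h2, mul_neg, neg_neg]

/-- Moving past a product of four elements, three of them anticommuting. -/
theorem E3a_move3 (x y0 y1 y2 y3 : E3aM) (h0 : y0 * x = -(x * y0))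
    (h1 : y1 * x = -(x * y1)) (h2 : y2 * x = x * y2) (h3 : y3 * x = -(x * y3)) :
    y0 * y1 * y2 * y3 * x = -(x * (y0 * y1 * y2 * y3)) := by
  calc y0 * y1 * y2 * y3 * x = y0 * y1 * y2 * (y3 * x) := by noncomm_ring
    _ = -(y0 * y1 * (y2 * x) * y3) := by rw [h3]; noncomm_ring
    _ = -(y0 * (y1 * x) * y2 * y3) := by rw [h2]; noncomm_ring
    _ = (y0 * x) * y1 * y2 * y3 := by rw [h1]; noncomm_ring
    _ = -(x * (y0 * y1 * y2 * y3)) := by rw [h0]; noncomm_ring

theorem E3a_move3' (x y0 y1 y2 y3 : E3aM) (h0 : y0 * x = -(x * y0))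
    (h1 : y1 * x = -(x * y1)) (h2 : y2 * x = -(x * y2)) (h3 : y3 * x = x * y3) :
    y0 * y1 * y2 * y3 * x = -(x * (y0 * y1 * y2 * y3)) := by
  calc y0 * y1 * y2 * y3 * x = y0 * y1 * y2 * (y3 * x) := by noncomm_ring
    _ = y0 * y1 * (y2 * x) * y3 := by rw [h3]; noncomm_ring
    _ = -(y0 * (y1 * x) * y2 * y3) := by rw [h2]; noncomm_ring
    _ = (y0 * x) * y1 * y2 * y3 := by rw [h1]; noncomm_ring
    _ = -(x * (y0 * y1 * y2 * y3)) := by rw [h0]; noncomm_ring

theorem E3a_odd4 (a b c d : Fin 4) :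
    (evenOdd ℝ * (clf ℝ a * clf ℝ b * eps ℝ c * iot ℝ d)).trace = 0 := by
  obtain ⟨e, hc, hd⟩ := E3a_ex2 c d
  refine E3a_tr0 (g := E3a_hat e) (E3a_anti (E3a_odd_hat e) ?_) (Or.inl (E3a_hat2 e))
  exact FR3_move _ _ _ _ _ (E3a_hat_clf e a) (E3a_hat_clf e b) (E3a_hat_eps hc) (E3a_hat_iot hd)

theorem E3a_cgam (e : Fin 4) : clf ℝ e * gam ℝ = -(gam ℝ * clf ℝ e) := by
  rw [FR3_gc, neg_neg]

/-- The trace of `gam` times four Clifford multiplications. -/
def E3a_g (a b c d : Fin 4) : ℝ :=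
  (gam ℝ * (clf ℝ a * clf ℝ b * clf ℝ c * clf ℝ d)).trace

theorem E3a_g0 {a b c d e : Fin 4} (ha : e ≠ a) (hb : e ≠ b) (hc : e ≠ c) (hd : e ≠ d) :
    E3a_g a b c d = 0 :=
  E3a_tr0 (g := clf ℝ e) (E3a_anti (E3a_cgam e) (FR3_move _ _ _ _ _ (FR3_anti ℝ ha.symm)
    (FR3_anti ℝ hb.symm) (FR3_anti ℝ hc.symm) (FR3_anti ℝ hd.symm))) (Or.inr (FR3_c2 ℝ e))

theorem E3a_f0 {a b c d e : Fin 4} (ha : e ≠ a) (hb : e ≠ b) (hc : e ≠ c) (hd : e ≠ d) :
    (gam ℝ * (clf ℝ a * clf ℝ b * eps ℝ c * iot ℝ d)).trace = 0 :=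
  E3a_tr0 (g := clf ℝ e) (E3a_anti (E3a_cgam e) (FR3_move _ _ _ _ _ (FR3_anti ℝ ha.symm)
    (FR3_anti ℝ hb.symm) (E3a_clf_eps hc) (E3a_clf_iot hd))) (Or.inr (FR3_c2 ℝ e))

/-- The trace with `gam` in terms of `E3a_g`, distinct indices. -/
theorem E3a_f {a b c d : Fin 4} (hcd : c ≠ d) :
    4 * (gam ℝ * (clf ℝ a * clf ℝ b * eps ℝ c * iot ℝ d)).trace = -E3a_g a b c d := by
  have h4 : (4 : ℝ) • (gam ℝ * (clf ℝ a * clf ℝ b * eps ℝ c * iot ℝ d)) =
      gam ℝ * (clf ℝ a * clf ℝ b * clf ℝ c * E3a_hat d) -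
      gam ℝ * (clf ℝ a * clf ℝ b * clf ℝ c * clf ℝ d) +
      gam ℝ * (clf ℝ a * clf ℝ b * E3a_hat c * E3a_hat d) -
      gam ℝ * (clf ℝ a * clf ℝ b * E3a_hat c * clf ℝ d) := by
    have e1 : (2 : ℝ) • eps ℝ c = clf ℝ c + E3a_hat c := by
      unfold clf E3a_hat
      rw [two_smul]
      abel
    have e2 : (2 : ℝ) • iot ℝ d = E3a_hat d - clf ℝ d := by
      unfold clf E3a_hat
      rw [two_smul]
      abel
    have e3 : (4 : ℝ) • (gam ℝ * (clf ℝ a * clf ℝ b * eps ℝ c * iot ℝ d)) =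
        gam ℝ * (clf ℝ a * clf ℝ b * ((2 : ℝ) • eps ℝ c) * ((2 : ℝ) • iot ℝ d)) := by
      simp only [mul_smul_comm, smul_mul_assoc, smul_smul]
      norm_num
    rw [e3, e1, e2]
    noncomm_ring
  have h5 := congrArg Matrix.trace h4
  rw [Matrix.trace_smul, Matrix.trace_sub, Matrix.trace_add, Matrix.trace_sub, smul_eq_mul] at h5
  have t1 : (gam ℝ * (clf ℝ a * clf ℝ b * clf ℝ c * E3a_hat d)).trace = 0 :=
    E3a_tr0 (g := E3a_hat d) (E3a_anti' (E3a_gam_hat d) (E3a_move3' _ _ _ _ _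
      (E3a_hat_clf d a) (E3a_hat_clf d b) (E3a_hat_clf d c) rfl)) (Or.inl (E3a_hat2 d))
  have t2 : (gam ℝ * (clf ℝ a * clf ℝ b * E3a_hat c * E3a_hat d)).trace = 0 :=
    E3a_tr0 (g := E3a_hat c) (E3a_anti' (E3a_gam_hat c) (E3a_move3 _ _ _ _ _
      (E3a_hat_clf c a) (E3a_hat_clf c b) rfl (E3a_hat_hat hcd))) (Or.inl (E3a_hat2 c))
  have t3 : (gam ℝ * (clf ℝ a * clf ℝ b * E3a_hat c * clf ℝ d)).trace = 0 :=
    E3a_tr0 (g := E3a_hat c) (E3a_anti' (E3a_gam_hat c) (E3a_move3 _ _ _ _ _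
      (E3a_hat_clf c a) (E3a_hat_clf c b) rfl (E3a_hat_clf c d))) (Or.inl (E3a_hat2 c))
  rw [t1, t2, t3] at h5
  unfold E3a_g
  linarith

theorem E3a_gcyc (a b c d : Fin 4) : E3a_g a b c d = E3a_g a c d b := by
  rcases E3a_exE a b c d with ⟨-, -, -, hbc, hbd, -⟩ | ⟨e, ha, hb, hc, hd⟩
  · unfold E3a_g
    congr 2
    have h1 := FR3_anti ℝ hbc
    have h2 := FR3_anti ℝ hbd
    calc clf ℝ a * clf ℝ b * clf ℝ c * clf ℝ d = clf ℝ a * (clf ℝ b * clf ℝ c) * clf ℝ d := by
          noncomm_ring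
      _ = -(clf ℝ a * clf ℝ c * (clf ℝ b * clf ℝ d)) := by rw [h1]; noncomm_ring
      _ = clf ℝ a * clf ℝ c * clf ℝ d * clf ℝ b := by rw [h2]; noncomm_ring
  · rw [E3a_g0 ha hb hc hd, E3a_g0 ha hc hd hb]

/-- Commutation under the trace. -/
theorem E3a_comm {X R W : E3aM} (h : X * R = R * X) : (X * (R * W)).trace = (X * (W * R)).trace := by
  rw [← mul_assoc, h, mul_assoc, Matrix.trace_mul_comm, mul_assoc]

theorem E3a_cT (a : Fin 4) : (clf ℝ a)ᵀ = -clf ℝ a := by
  unfold clf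
  rw [Matrix.transpose_sub]
  show iot ℝ a - (eps ℝ a)ᵀᵀ = _
  rw [Matrix.transpose_transpose, neg_sub]

theorem E3a_gamT : (gam ℝ)ᵀ = gam ℝ := by
  unfold gam
  rw [Matrix.transpose_mul, Matrix.transpose_mul, Matrix.transpose_mul, E3a_cT, E3a_cT, E3a_cT,
    E3a_cT]
  have a10 := FR3_anti ℝ (a := 1) (b := 0) (by decide)
  have a20 := FR3_anti ℝ (a := 2) (b := 0) (by decide)
  have a30 := FR3_anti ℝ (a := 3) (b := 0) (by decide)
  have a21 := FR3_anti ℝ (a := 2) (b := 1) (by decide)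
  have a31 := FR3_anti ℝ (a := 3) (b := 1) (by decide)
  have a32 := FR3_anti ℝ (a := 3) (b := 2) (by decide)
  generalize clf ℝ 0 = x0 at *
  generalize clf ℝ 1 = x1 at *
  generalize clf ℝ 2 = x2 at *
  generalize clf ℝ 3 = x3 at *
  calc -x3 * (-x2 * (-x1 * -x0)) = (x3 * x2) * (x1 * x0) := by noncomm_ring
    _ = x2 * x3 * (x0 * x1) := by rw [a32, a10]; noncomm_ring
    _ = x2 * (x3 * x0) * x1 := by noncomm_ring
    _ = -(x2 * x0 * (x3 * x1)) := by rw [a30]; noncomm_ring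
    _ = (x2 * x0) * x1 * x3 := by rw [a31]; noncomm_ring
    _ = -(x0 * (x2 * x1) * x3) := by rw [a20]; noncomm_ring
    _ = x0 * x1 * x2 * x3 := by rw [a21]; noncomm_ring

theorem E3a_trho {X : E3aM} (hX : Xᵀ = X) {A : Matrix (Fin 4) (Fin 4) ℝ}
    (hA : A.transpose = -A) : (X * rho A).trace = 0 := by
  have h1 : (rho A)ᵀ = -rho A := by
    rw [FR3_rho_T, hA]
    unfold rho
    simp only [Matrix.neg_apply, neg_smul, Finset.sum_neg_distrib]
  have h2 : (X * rho A).trace = -(X * rho A).trace := by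
    calc (X * rho A).trace = ((X * rho A)ᵀ).trace := (Matrix.trace_transpose _).symm
      _ = ((rho A)ᵀ * Xᵀ).trace := by rw [Matrix.transpose_mul]
      _ = -(rho A * X).trace := by rw [h1, hX, neg_mul, Matrix.trace_neg]
      _ = -(X * rho A).trace := by rw [Matrix.trace_mul_comm]
  linarith

theorem E3a_weitz (X : E3aM) (Q : Fin 4 → Fin 4 → Fin 4 → Fin 4 → ℝ) :
    (X * weitz Q).trace = (1 / 2) * ∑ a, ∑ b, ∑ c, ∑ d, Q a b c d *
      (X * (clf ℝ a * clf ℝ b * eps ℝ c * iot ℝ d)).trace := by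
  unfold weitz
  rw [mul_smul_comm, Matrix.trace_smul, smul_eq_mul]
  congr 1
  simp only [Finset.mul_sum, Matrix.trace_sum, mul_smul_comm, Matrix.trace_smul, smul_eq_mul]

theorem thm_E3a (_f3 : claimFR3) : claimE3a := by
  have ho : (evenOdd ℝ).trace = 0 := E3a_tr0 (g := clf ℝ 0)
    (by rw [FR3_oc, neg_neg]) (Or.inr (FR3_c2 ℝ 0))
  have hg : (gam ℝ).trace = 0 := E3a_tr0 (g := clf ℝ 0) (E3a_cgam 0) (Or.inr (FR3_c2 ℝ 0))
  have hoT : (evenOdd ℝ)ᵀ = evenOdd ℝ := Matrix.diagonal_transpose _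
  refine ⟨ho, hg, fun A hA => ⟨E3a_trho hoT hA, E3a_trho E3a_gamT hA⟩, fun Q hQ => ⟨?_, ?_, ?_⟩⟩
  · rw [E3a_weitz]
    simp only [E3a_odd4, mul_zero, Finset.sum_const_zero]
  · rw [E3a_weitz]
    have key : ∀ a b c d, Q a b c d * (gam ℝ * (clf ℝ a * clf ℝ b * eps ℝ c * iot ℝ d)).trace =
        -(1 / 4) * (Q a b c d * E3a_g a b c d) := by
      intro a b c d
      by_cases hcd : c = d
      · subst hcd
        have h0 : Q a b c c = 0 := by
          have := hQ.anti2 a b c c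
          linarith
        rw [h0]
        ring
      · have := E3a_f (a := a) (b := b) hcd
        linear_combination (Q a b c d / 4) * this
    simp only [key]
    simp only [← Finset.mul_sum]
    have hS : ∑ a, ∑ b, ∑ c, ∑ d, Q a b c d * E3a_g a b c d = 0 := by
      have h1 : ∀ a, ∑ b, ∑ c, ∑ d, Q a b c d * E3a_g a b c d =
          ∑ b, ∑ c, ∑ d, Q a c d b * E3a_g a b c d := by
        intro a
        calc ∑ b, ∑ c, ∑ d, Q a b c d * E3a_g a b c d
            = ∑ c, ∑ d, ∑ b, Q a c d b * E3a_g a c d b := rfl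
          _ = ∑ c, ∑ b, ∑ d, Q a c d b * E3a_g a c d b :=
              Finset.sum_congr rfl fun c _ => Finset.sum_comm
          _ = ∑ b, ∑ c, ∑ d, Q a c d b * E3a_g a c d b := Finset.sum_comm
          _ = ∑ b, ∑ c, ∑ d, Q a c d b * E3a_g a b c d := by
              refine Finset.sum_congr rfl fun b _ => Finset.sum_congr rfl fun c _ =>
                Finset.sum_congr rfl fun d _ => ?_
              rw [E3a_gcyc a b c d]
      have h2 : ∀ a, ∑ b, ∑ c, ∑ d, Q a b c d * E3a_g a b c d =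
          ∑ b, ∑ c, ∑ d, Q a d b c * E3a_g a b c d := by
        intro a
        rw [h1 a]
        calc ∑ b, ∑ c, ∑ d, Q a c d b * E3a_g a b c d
            = ∑ c, ∑ d, ∑ b, Q a d b c * E3a_g a c d b := rfl
          _ = ∑ c, ∑ b, ∑ d, Q a d b c * E3a_g a c d b :=
              Finset.sum_congr rfl fun c _ => Finset.sum_comm
          _ = ∑ b, ∑ c, ∑ d, Q a d b c * E3a_g a c d b := Finset.sum_comm
          _ = ∑ b, ∑ c, ∑ d, Q a d b c * E3a_g a b c d := by
              refine Finset.sum_congr rfl fun b _ => Finset.sum_congr rfl fun c _ =>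
                Finset.sum_congr rfl fun d _ => ?_
              rw [E3a_gcyc a b c d]
      have h3 : ∀ a, 3 * ∑ b, ∑ c, ∑ d, Q a b c d * E3a_g a b c d = 0 := by
        intro a
        have h4 : 3 * ∑ b, ∑ c, ∑ d, Q a b c d * E3a_g a b c d =
            ∑ b, ∑ c, ∑ d, (Q a b c d + Q a c d b + Q a d b c) * E3a_g a b c d := by
          simp only [add_mul, Finset.sum_add_distrib]
          rw [← h1 a, ← h2 a]
          ring
        rw [h4]
        simp only [hQ.bianchi, zero_mul, Finset.sum_const_zero]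
      refine Finset.sum_eq_zero fun a _ => ?_
      have := h3 a
      linarith
    rw [hS]
    ring
  · intro A hA
    exact ⟨E3a_comm (FR3_orho A), E3a_comm (FR3_grho A hA)⟩

end NRF

end
end

section

/-!
# E4: uniqueness of polynomial solutions of `(w + z ∂_z)/2 - κ Δ`, `w ≥ 1`
-/

open scoped Manifold ContDiff Topology RealInnerProductSpace
open MeasureTheory Set

noncomputable section

namespace NRF

open MvPolynomial in
theorem EI4_coeff_euler (P : MvPolynomial (Fin 4) ℝ) (i : Fin 4) (m : Fin 4 →₀ ℕ) :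
    coeff m (X i * pderiv i P) = coeff m P * (m i : ℝ) := by
  classical
  rw [coeff_X_mul']
  by_cases h : i ∈ m.support
  · rw [if_pos h, coeff_pderiv]
    have h1 : m i ≠ 0 := Finsupp.mem_support_iff.1 h
    have h2 : m - Finsupp.single i 1 + Finsupp.single i 1 = m := by
      ext j
      by_cases hj : i = j
      · subst hj
        simp only [Finsupp.coe_add, Finsupp.coe_tsub, Pi.add_apply, Pi.sub_apply,
          Finsupp.single_eq_same]
        omega
      · simp [Finsupp.single_eq_of_ne' hj]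
    rw [h2]
    congr 1
    simp only [Finsupp.coe_tsub, Pi.sub_apply, Finsupp.single_eq_same]
    have : ((m i - 1 : ℕ) : ℝ) + 1 = ((m i - 1 + 1 : ℕ) : ℝ) := by push_cast; ring
    rw [this]
    congr 1
    omega
  · rw [if_neg h]
    have h1 : m i = 0 := Finsupp.notMem_support_iff.1 h
    rw [h1]
    simp

open MvPolynomial in
theorem EI4_alg (κ : ℝ) (w : ℕ) (hw : 1 ≤ w) (P : MvPolynomial (Fin 4) ℝ)
    (h : C (1 / 2 : ℝ) * (C (w : ℝ) * P + ∑ i, X i * pderiv i P) -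
      C κ * ∑ i, pderiv i (pderiv i P) = 0) : P = 0 := by
  classical
  by_contra hP
  have hne : P.support.Nonempty := by
    rw [Finset.nonempty_iff_ne_empty]
    intro h0
    exact hP (support_eq_empty.1 h0)
  obtain ⟨m, hm, hmax⟩ := P.support.exists_max_image (fun m => ∑ i, m i) hne
  have hc : coeff m P ≠ 0 := mem_support_iff.1 hm
  have h1 := congrArg (coeff m) h
  rw [coeff_sub, coeff_C_mul, coeff_add, coeff_C_mul, coeff_sum, coeff_C_mul, coeff_sum,
    coeff_zero] at h1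
  have h2 : ∀ i, coeff m (pderiv i (pderiv i P)) = 0 := by
    intro i
    rw [coeff_pderiv, coeff_pderiv]
    have h3 : coeff (m + Finsupp.single i 1 + Finsupp.single i 1) P = 0 := by
      by_contra h4
      have h5 := hmax _ (mem_support_iff.2 h4)
      simp only [Finsupp.coe_add, Pi.add_apply, Finset.sum_add_distrib] at h5
      have h6 : ∑ j, (Finsupp.single i 1 : Fin 4 →₀ ℕ) j = 1 := by
        rw [Finset.sum_eq_single i]
        · simp
        · intro j _ hj
          exact Finsupp.single_eq_of_ne hj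
        · intro h
          exact absurd (Finset.mem_univ i) h
      omega
    rw [h3]
    ring
  have h3 : ∑ i, coeff m (X i * pderiv i P) = coeff m P * ∑ i, (m i : ℝ) := by
    rw [Finset.mul_sum]
    exact Finset.sum_congr rfl fun i _ => EI4_coeff_euler P i m
  rw [h3, Finset.sum_congr rfl fun i _ => h2 i, Finset.sum_const_zero, mul_zero, sub_zero] at h1
  have h4 : coeff m P * ((w : ℝ) + ∑ i, (m i : ℝ)) = 0 := by
    linarith
  rcases mul_eq_zero.1 h4 with h5 | h5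
  · exact hc h5
  · have h6 : (1 : ℝ) ≤ w := by exact_mod_cast hw
    have h7 : 0 ≤ ∑ i, (m i : ℝ) := Finset.sum_nonneg fun i _ => Nat.cast_nonneg _
    linarith

/-- The polynomial function. -/
def EI4_ev (P : MvPolynomial (Fin 4) ℝ) (z : E4) : ℝ := MvPolynomial.eval (fun i => z i) P

open MvPolynomial in
theorem EI4_hasFDeriv (P : MvPolynomial (Fin 4) ℝ) : ∀ z : E4,
    HasFDerivAt (EI4_ev P) (∑ i, EI4_ev (pderiv i P) z • (EuclideanSpace.proj i : E4 →L[ℝ] ℝ)) z := by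
  induction P using MvPolynomial.induction_on with
  | C a =>
    intro z
    have h1 : EI4_ev (C a) = fun _ => a := by
      funext z
      simp [EI4_ev]
    rw [h1]
    simp only [pderiv_C]
    have h2 : ∑ i : Fin 4, EI4_ev 0 z • (EuclideanSpace.proj i : E4 →L[ℝ] ℝ) = 0 :=
      Finset.sum_eq_zero fun i _ => by simp [EI4_ev]
    rw [h2]
    exact hasFDerivAt_const a z
  | add p q hp hq =>
    intro z
    have h1 : EI4_ev (p + q) = fun z => EI4_ev p z + EI4_ev q z := by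
      funext z
      simp [EI4_ev]
    rw [h1]
    refine ((hp z).add (hq z)).congr_fderiv ?_
    rw [← Finset.sum_add_distrib]
    refine Finset.sum_congr rfl fun i _ => ?_
    rw [← add_smul]
    congr 1
    simp [EI4_ev]
  | mul_X p n hp =>
    intro z
    have h1 : EI4_ev (p * X n) = fun z => EI4_ev p z * z n := by
      funext z
      simp [EI4_ev]
    rw [h1]
    have h2 : HasFDerivAt (fun z : E4 => z n) (EuclideanSpace.proj n : E4 →L[ℝ] ℝ) z :=
      (EuclideanSpace.proj n : E4 →L[ℝ] ℝ).hasFDerivAt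
    refine ((hp z).mul h2).congr_fderiv ?_
    have h3 : ∀ i, EI4_ev (pderiv i (p * X n)) z =
        EI4_ev (pderiv i p) z * z n + EI4_ev p z * (if i = n then 1 else 0) := by
      intro i
      simp only [EI4_ev, Derivation.leibniz, smul_eq_mul, map_add, map_mul, eval_X, pderiv_X]
      by_cases hi : i = n
      · subst hi
        simp
        ring
      · simp [hi, Pi.single_apply, Ne.symm hi]
        ring
    simp only [h3, add_smul, Finset.sum_add_distrib]
    rw [add_comm]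
    congr 1
    · rw [Finset.smul_sum]
      refine Finset.sum_congr rfl fun i _ => ?_
      rw [smul_smul, mul_comm]
    · rw [Finset.sum_eq_single n]
      · simp
      · intro i _ hi
        simp [hi]
      · intro h
        exact absurd (Finset.mem_univ n) h

theorem EI4_pd (P : MvPolynomial (Fin 4) ℝ) (i : Fin 4) :
    pd i (EI4_ev P) = EI4_ev (MvPolynomial.pderiv i P) := by
  funext z
  unfold pd
  rw [(EI4_hasFDeriv P z).fderiv, ContinuousLinearMap.sum_apply, Finset.sum_eq_single i]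
  · simp [bv]
  · intro j _ hj
    simp [bv, hj]
  · intro h
    exact absurd (Finset.mem_univ i) h

theorem EI4_fderiv (P : MvPolynomial (Fin 4) ℝ) (z : E4) :
    fderiv ℝ (EI4_ev P) z z = ∑ i, z i * EI4_ev (MvPolynomial.pderiv i P) z := by
  rw [(EI4_hasFDeriv P z).fderiv, ContinuousLinearMap.sum_apply]
  refine Finset.sum_congr rfl fun i _ => ?_
  simp [mul_comm]

theorem EI4_real (κ : ℝ) (w : ℕ) (hw : 1 ≤ w) (P : MvPolynomial (Fin 4) ℝ)
    (h : ∀ z, opA κ w (EI4_ev P) z = 0) : P = 0 := by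
  refine EI4_alg κ w hw P ?_
  refine MvPolynomial.funext fun x => ?_
  have h1 := h (WithLp.toLp 2 x)
  unfold opA at h1
  rw [EI4_fderiv] at h1
  simp only [EI4_pd, smul_eq_mul] at h1
  simp only [EI4_ev] at h1
  simp only [map_sub, map_mul, map_add, map_sum, MvPolynomial.eval_C, MvPolynomial.eval_X,
    map_zero]
  exact h1

/-- E4. -/
theorem thm_PolUniq : claimPolUniq := by
  intro W _ _ κ w f hw hf h z
  refine NormedSpace.eq_zero_of_forall_dual_eq_zero ℝ fun φ => ?_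
  obtain ⟨A, p, hfp⟩ := hf
  have hsm : ContDiff ℝ ∞ f := by
    have h1 : f = fun z => ∑ α ∈ A, (∏ i, z i ^ α i) • p α := funext hfp
    rw [h1]
    refine ContDiff.sum fun α _ => ContDiff.smul ?_ contDiff_const
    refine contDiff_prod fun i _ => ContDiff.pow ?_ _
    exact (EuclideanSpace.proj i : E4 →L[ℝ] ℝ).contDiff
  set P : MvPolynomial (Fin 4) ℝ :=
    ∑ α ∈ A, MvPolynomial.monomial (Finsupp.equivFunOnFinite.symm α) (φ (p α)) with hP
  have hev : EI4_ev P = fun z => φ (f z) := by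
    funext z
    rw [hfp z, map_sum, EI4_ev, hP, map_sum]
    refine Finset.sum_congr rfl fun α _ => ?_
    rw [MvPolynomial.eval_monomial, map_smul, smul_eq_mul, mul_comm,
      Finsupp.prod_fintype _ _ (fun i => pow_zero _)]
    rfl
  have hpd : ∀ (g : E4 → W), ContDiff ℝ ∞ g → ∀ i, pd i (fun z => φ (g z)) =
      fun z => φ (pd i g z) := by
    intro g hg i
    funext z
    unfold pd
    have h1 : HasFDerivAt (fun z => φ (g z)) (φ.comp (fderiv ℝ g z)) z :=
      φ.hasFDerivAt.comp z ((hg.differentiable (by simp)) z).hasFDerivAt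
    rw [h1.fderiv]
    rfl
  have hop : ∀ z, opA κ w (EI4_ev P) z = 0 := by
    intro z
    have h1 := congrArg φ (h z)
    rw [map_zero] at h1
    rw [← h1, hev]
    unfold opA
    have h2 : fderiv ℝ (fun z => φ (f z)) z z = φ (fderiv ℝ f z z) := by
      have h1 : HasFDerivAt (fun z => φ (f z)) (φ.comp (fderiv ℝ f z)) z :=
        φ.hasFDerivAt.comp z ((hsm.differentiable (by simp)) z).hasFDerivAt
      rw [h1.fderiv]
      rfl
    have h3 : ∀ i, pd i (pd i fun z => φ (f z)) z = φ (pd i (pd i f) z) := by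
      intro i
      rw [hpd f hsm i]
      have h4 : ContDiff ℝ ∞ (pd i f) := by
        unfold pd
        exact (hsm.fderiv_right (m := ∞) (by simp)).clm_apply contDiff_const
      rw [hpd _ h4 i]
    rw [h2]
    simp only [h3, map_sub, map_smul, map_add, map_sum]
  have h0 := EI4_real κ w hw P hop
  have h1 := congrFun hev z
  rw [h0] at h1
  rw [← h1]
  simp [EI4_ev]

end NRF

end
end

section

/-!
# Module E, item E6: calculus with the Gaussian
-/

open scoped Manifold ContDiff Topology RealInnerProductSpace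
open MeasureTheory Set

noncomputable section

namespace NRF

/-- The Gaussian in terms of the norm. -/
theorem gaussC_eq (κ : ℝ) (hκ : 0 < κ) : ∃ C : ℝ, 0 < C ∧
    gaussK (κ • (1 : Matrix (Fin 4) (Fin 4) ℝ)) =
      fun z : E4 => C * Real.exp (-(κ⁻¹ / 4) * ‖z‖ ^ 2) := by
  have hinv : (κ • (1 : Matrix (Fin 4) (Fin 4) ℝ))⁻¹ = κ⁻¹ • (1 : Matrix (Fin 4) (Fin 4) ℝ) := by
    apply Matrix.inv_eq_right_inv
    rw [smul_mul_smul_comm, mul_one, mul_inv_cancel₀ hκ.ne', one_smul]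
  have hdet : (κ • (1 : Matrix (Fin 4) (Fin 4) ℝ)).det = κ ^ 4 := by
    rw [Matrix.det_smul, Matrix.det_one, mul_one, Fintype.card_fin]
  refine ⟨((4 * Real.pi) ^ 2 * Real.sqrt (κ ^ 4))⁻¹, by positivity, ?_⟩
  funext z
  unfold gaussK
  rw [hinv, hdet]
  congr 2
  have h1 : (∑ i, ∑ j, (κ⁻¹ • (1 : Matrix (Fin 4) (Fin 4) ℝ)) i j * z i * z j) =
      κ⁻¹ * ‖z‖ ^ 2 := by
    rw [EuclideanSpace.norm_sq_eq, Finset.mul_sum]
    refine Finset.sum_congr rfl fun i _ => ?_
    rw [Finset.sum_eq_single i]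
    · rw [Matrix.smul_apply, Matrix.one_apply_eq, smul_eq_mul, Real.norm_eq_abs, sq_abs]
      ring
    · intro j _ hj
      rw [Matrix.smul_apply, Matrix.one_apply_ne hj.symm, smul_zero]
      ring
    · intro h
      exact absurd (Finset.mem_univ i) h
  rw [h1]
  ring

/-- The derivative of a Gaussian on an inner product space. -/
theorem gaussC_deriv {E : Type*} [NormedAddCommGroup E] [InnerProductSpace ℝ E] (C a : ℝ)
    (z : E) : HasFDerivAt (fun z : E => C * Real.exp (a * ‖z‖ ^ 2))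
      ((C * Real.exp (a * ‖z‖ ^ 2) * (2 * a)) • innerSL ℝ z) z := by
  have h1 := (hasStrictFDerivAt_norm_sq z).hasFDerivAt
  have h2 := ((h1.const_mul a).exp).const_mul C
  have h3 : (C * Real.exp (a * ‖z‖ ^ 2) * (2 * a)) • innerSL ℝ z =
      C • Real.exp (a * ‖z‖ ^ 2) • a • 2 • (innerSL ℝ) z := by
    rw [two_smul, ← two_smul ℝ, smul_smul, smul_smul, smul_smul]
    congr 1
    ring
  rw [h3]
  exact h2

section

variable {E : Type*} [NormedAddCommGroup E] [InnerProductSpace ℝ E]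
  {W : Type*} [NormedAddCommGroup W] [NormedSpace ℝ W]

theorem gaussC_smul (C a : ℝ) (f : E → W) (z : E) (hf : DifferentiableAt ℝ f z) (v : E) :
    fderiv ℝ (fun x => (C * Real.exp (a * ‖x‖ ^ 2)) • f x) z v =
      (C * Real.exp (a * ‖z‖ ^ 2)) • (fderiv ℝ f z v + (2 * a * inner ℝ z v) • f z) := by
  have h1 : HasFDerivAt (fun x => (C * Real.exp (a * ‖x‖ ^ 2)) • f x) _ z :=
    (gaussC_deriv C a z).smul hf.hasFDerivAt
  rw [h1.fderiv]
  simp only [add_apply, smul_apply,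
    ContinuousLinearMap.smulRight_apply, innerSL_apply_apply, smul_eq_mul, smul_add, smul_smul]
  congr 2
  ring

end

theorem gaussC_inner (z : E4) (i : Fin 4) : inner ℝ z (bv i) = z i := by
  unfold bv
  rw [EuclideanSpace.inner_single_right]
  simp

theorem gaussC_sum (z : E4) : z = ∑ i, z i • bv i := by
  ext j
  rw [WithLp.ofLp_sum, Finset.sum_apply]
  simp only [PiLp.smul_apply, bv, smul_eq_mul]
  rw [Finset.sum_eq_single j]
  · simp
  · intro i _ hi
    simp [hi.symm]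
  · intro h
    exact absurd (Finset.mem_univ j) h

section

variable {W : Type} [NormedAddCommGroup W] [NormedSpace ℝ W]

theorem gaussC_euler (f : E4 → W) (z : E4) : ∑ i, z i • pd i f z = fderiv ℝ f z z := by
  conv_rhs => rw [gaussC_sum z]
  rw [map_sum]
  refine Finset.sum_congr rfl fun i _ => ?_
  rw [map_smul]
  rw [← gaussC_sum z]
  rfl

theorem gaussC_pd (C κ : ℝ) (f : E4 → W) (hf : ContDiff ℝ ∞ f) (i : Fin 4)
    (z : E4) : pd i (fun x => (C * Real.exp (-(κ⁻¹ / 4) * ‖x‖ ^ 2)) • f x) z =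
      (C * Real.exp (-(κ⁻¹ / 4) * ‖z‖ ^ 2)) • cjD κ i f z := by
  have hd : DifferentiableAt ℝ f z := (hf.differentiable (by simp)).differentiableAt
  unfold pd cjD
  rw [gaussC_smul C (-(κ⁻¹ / 4)) f z hd (bv i), gaussC_inner]
  congr 1
  rw [sub_eq_add_neg, ← neg_smul]
  congr 2
  have h1 : z i / (2 * κ) = z i * (2⁻¹ * κ⁻¹) := by rw [div_eq_mul_inv, mul_inv]
  rw [h1]
  ring

theorem gaussC_pdsm (f : E4 → W) (hf : ContDiff ℝ ∞ f) (i : Fin 4) :
    ContDiff ℝ ∞ (pd i f) := by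
  unfold pd
  exact (hf.fderiv_right (m := ∞) (by simp)).clm_apply contDiff_const

theorem gaussC_coord (κ : ℝ) (i : Fin 4) : ContDiff ℝ ∞ (fun z : E4 => z i / (2 * κ)) := by
  have h : ContDiff ℝ ∞ (fun z : E4 => (EuclideanSpace.proj i : E4 →L[ℝ] ℝ) z) :=
    (EuclideanSpace.proj i : E4 →L[ℝ] ℝ).contDiff
  exact h.div_const _

theorem gaussC_cjsm (κ : ℝ) (f : E4 → W) (hf : ContDiff ℝ ∞ f) (i : Fin 4) :
    ContDiff ℝ ∞ (cjD κ i f) := by
  unfold cjD
  exact (gaussC_pdsm f hf i).sub ((gaussC_coord κ i).smul hf)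

theorem gaussC_cjcj (κ : ℝ) (f : E4 → W) (hf : ContDiff ℝ ∞ f) (i : Fin 4)
    (z : E4) : cjD κ i (cjD κ i f) z = pd i (pd i f) z - (1 / (2 * κ)) • f z
      - (2 * (z i / (2 * κ))) • pd i f z + (z i / (2 * κ)) ^ 2 • f z := by
  have hd : DifferentiableAt ℝ f z := (hf.differentiable (by simp)).differentiableAt
  have hd1 : DifferentiableAt ℝ (pd i f) z :=
    ((gaussC_pdsm f hf i).differentiable (by simp)).differentiableAt
  have hp : HasFDerivAt (fun z : E4 => z i / (2 * κ))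
      ((2 * κ)⁻¹ • (EuclideanSpace.proj i : E4 →L[ℝ] ℝ)) z := by
    have h : HasFDerivAt (fun z : E4 => (EuclideanSpace.proj i : E4 →L[ℝ] ℝ) z)
      (EuclideanSpace.proj i : E4 →L[ℝ] ℝ) z := (EuclideanSpace.proj i : E4 →L[ℝ] ℝ).hasFDerivAt
    exact h.mul_const _ |>.congr_fderiv rfl
  have h1 : pd i (cjD κ i f) z = pd i (pd i f) z - ((1 / (2 * κ)) • f z +
      (z i / (2 * κ)) • pd i f z) := by
    have h2 : HasFDerivAt (cjD κ i f) (fderiv ℝ (pd i f) z - ((z i / (2 * κ)) • fderiv ℝ f z +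
        ((2 * κ)⁻¹ • (EuclideanSpace.proj i : E4 →L[ℝ] ℝ)).smulRight (f z))) z :=
      hd1.hasFDerivAt.sub (hp.smul hd.hasFDerivAt)
    unfold pd
    unfold pd at h2
    rw [h2.fderiv]
    simp only [sub_apply, add_apply, smul_apply,
      ContinuousLinearMap.smulRight_apply, smul_eq_mul]
    have h3 : (EuclideanSpace.proj i : E4 →L[ℝ] ℝ) (bv i) = 1 := by
      simp [bv]
    rw [h3, mul_one, one_div, add_comm]
  unfold cjD at h1 ⊢
  rw [h1]
  module

end

theorem thm_GaussC : claimGaussC := by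
  intro W _ _ κ f hκ hf z
  obtain ⟨C, hC, hg⟩ := gaussC_eq κ hκ
  rw [hg]
  have h1 : ∀ i (f : E4 → W), ContDiff ℝ ∞ f →
      pd i (fun x => (C * Real.exp (-(κ⁻¹ / 4) * ‖x‖ ^ 2)) • f x) =
      fun z => (C * Real.exp (-(κ⁻¹ / 4) * ‖z‖ ^ 2)) • cjD κ i f z :=
    fun i f hf => funext fun z => gaussC_pd C κ f hf i z
  have h2 : ∀ i j, pd i (pd j fun x => (C * Real.exp (-(κ⁻¹ / 4) * ‖x‖ ^ 2)) • f x) z =
      (C * Real.exp (-(κ⁻¹ / 4) * ‖z‖ ^ 2)) • cjD κ i (cjD κ j f) z := by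
    intro i j
    rw [h1 j f hf, h1 i (cjD κ j f) (gaussC_cjsm κ f hf j)]
  refine ⟨by positivity, fun i => ?_, h2, fun w => ?_⟩
  · rw [h1 i f hf]
  · simp only [h2]
    have hd : DifferentiableAt ℝ f z := (hf.differentiable (by simp)).differentiableAt
    rw [gaussC_smul C (-(κ⁻¹ / 4)) f z hd z]
    set G := C * Real.exp (-(κ⁻¹ / 4) * ‖z‖ ^ 2) with hG
    have h3 : ∑ i, ∑ j, (κ • (1 : Matrix (Fin 4) (Fin 4) ℝ)) i j • G • cjD κ i (cjD κ j f) z =
        G • κ • ∑ i, cjD κ i (cjD κ i f) z := by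
      rw [Finset.smul_sum, Finset.smul_sum]
      refine Finset.sum_congr rfl fun i _ => ?_
      rw [Finset.sum_eq_single i]
      · rw [Matrix.smul_apply, Matrix.one_apply_eq, smul_eq_mul, mul_one, smul_comm]
      · intro j _ hj
        rw [Matrix.smul_apply, Matrix.one_apply_ne hj.symm, smul_zero, zero_smul]
      · intro h
        exact absurd (Finset.mem_univ i) h
    rw [h3]
    have h4 : ∑ i, cjD κ i (cjD κ i f) z = (∑ i, pd i (pd i f) z) - (4 * (1 / (2 * κ))) • f z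
        - (1 / κ) • fderiv ℝ f z z + (‖z‖ ^ 2 / (4 * κ ^ 2)) • f z := by
      have h5 : ‖z‖ ^ 2 = ∑ i, z i ^ 2 := by
        rw [EuclideanSpace.norm_sq_eq]
        refine Finset.sum_congr rfl fun i _ => ?_
        rw [Real.norm_eq_abs, sq_abs]
      rw [← gaussC_euler f z, h5, Finset.smul_sum, Finset.sum_div, Finset.sum_smul]
      simp only [gaussC_cjcj κ f hf, Finset.sum_add_distrib, Finset.sum_sub_distrib]
      congr 1
      · congr 1
        · congr 1
          rw [Finset.sum_const, Finset.card_univ, Fintype.card_fin, ← Nat.cast_smul_eq_nsmul ℝ,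
            smul_smul]
          norm_num
        · refine Finset.sum_congr rfl fun i _ => ?_
          rw [smul_smul]
          congr 1
          field_simp
      · refine Finset.sum_congr rfl fun i _ => ?_
        congr 1
        field_simp
        ring
    rw [h4]
    unfold opA
    have h6 : inner ℝ z z = ‖z‖ ^ 2 := real_inner_self_eq_norm_sq z
    rw [h6]
    set n := ‖z‖ ^ 2 with hn
    set F := f z with hF
    set D := fderiv ℝ f z z with hD
    set Δ := ∑ i, pd i (pd i f) z with hΔ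
    have e1 : κ • (Δ - (4 * (1 / (2 * κ))) • F - (1 / κ) • D + (n / (4 * κ ^ 2)) • F) =
        κ • Δ - (2 : ℝ) • F - D + (n / (4 * κ)) • F := by
      rw [smul_add, smul_sub, smul_sub, smul_smul, smul_smul, smul_smul]
      have a1 : κ * (4 * (1 / (2 * κ))) = 2 := by field_simp; norm_num
      have a2 : κ * (1 / κ) = 1 := by field_simp
      have a3 : κ * (n / (4 * κ ^ 2)) = n / (4 * κ) := by field_simp
      rw [a1, a2, a3, one_smul]
    rw [e1]
    have a4 : 2 * -(κ⁻¹ / 4) * n = -(2 * (n / (4 * κ))) := by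
      rw [div_eq_mul_inv, div_eq_mul_inv, mul_inv]
      ring
    rw [a4]
    module

end NRF

end
end

section

/-!
# Module E, item E7: the recursion of a formal solution at the pole, without the Gaussian
-/

open scoped Manifold ContDiff Topology RealInnerProductSpace
open MeasureTheory Set

noncomputable section

namespace NRF

theorem EI7_contDiff {W : Type} [NormedAddCommGroup W] [NormedSpace ℝ W] {f : E4 → W}
    (h : IsPolF f) : ContDiff ℝ ∞ f := by
  obtain ⟨A, p, hp⟩ := h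
  have e : f = fun z => ∑ α ∈ A, (∏ i, z i ^ α i) • p α := funext hp
  rw [e]
  refine ContDiff.sum fun α _ => ContDiff.smul ?_ contDiff_const
  exact contDiff_prod fun i _ => ((EuclideanSpace.proj i : E4 →L[ℝ] ℝ).contDiff).pow _

theorem EI7_opTay {V : Type} [NormedAddCommGroup V] [InnerProductSpace ℝ V]
    [FiniteDimensional ℝ V] (h : claimGaussC) (m : Model V) (κ : ℝ) (hκ : 0 < κ) (j : ℕ)
    (f : E4 → (V →L[ℝ] V)) (hf : ContDiff ℝ ∞ f) (z : E4) :
    m.opTay j (fun x => gaussK (κ • (1 : Matrix (Fin 4) (Fin 4) ℝ)) x • f x) 0 0 z =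
      gaussK (κ • (1 : Matrix (Fin 4) (Fin 4) ℝ)) z • m.opC κ j f z := by
  obtain ⟨-, h1, h2, -⟩ := h (V →L[ℝ] V) κ f hκ hf z
  set g := gaussK (κ • (1 : Matrix (Fin 4) (Fin 4) ℝ)) with hg
  unfold Model.opTay Model.opC
  rw [smul_add, smul_add, smul_neg, Finset.smul_sum, Finset.smul_sum]
  congr 1
  · congr 1
    · congr 1
      refine Finset.sum_congr rfl fun i _ => ?_
      rw [Finset.smul_sum]
      refine Finset.sum_congr rfl fun l _ => ?_
      rw [h2 i l, smul_comm]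
    · refine Finset.sum_congr rfl fun i _ => ?_
      rw [h1 i]
      exact ContinuousLinearMap.comp_smul _ _ _
  · split_ifs
    · exact ContinuousLinearMap.comp_smul _ _ _
    · rw [smul_zero]

/-- Item E7. -/
theorem thm_Conj (h : claimGaussC) : claimConj := by
  intro V _ _ _ m κ hκ ha P hP
  have hpol : ∀ w, IsPolF (P w 0 0) := by
    intro w
    obtain ⟨A, p, -, hp⟩ := hP.poly w
    exact ⟨A, fun α => p α (0, 0), fun z => hp 0 0 z⟩
  refine ⟨hpol, fun w z => ?_⟩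
  have h1 := hP.recur w 0 0 z
  rw [ha] at h1
  obtain ⟨h0, -, -, h3⟩ := h (V →L[ℝ] V) κ (P w 0 0) hκ (EI7_contDiff (hpol w)) z
  rw [h3 w] at h1
  have h4 : ∑ k ∈ Finset.range w, m.opTay (w - k)
      (fun x => gaussK (κ • (1 : Matrix (Fin 4) (Fin 4) ℝ)) x • P k 0 0 x) 0 0 z =
      gaussK (κ • (1 : Matrix (Fin 4) (Fin 4) ℝ)) z •
        ∑ k ∈ Finset.range w, m.opC κ (w - k) (P k 0 0) z := by
    rw [Finset.smul_sum]
    exact Finset.sum_congr rfl fun k _ =>
      EI7_opTay h m κ hκ (w - k) (P k 0 0) (EI7_contDiff (hpol k)) z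
  rw [h4, ← smul_add] at h1
  exact (smul_eq_zero.mp h1).resolve_left h0.ne'

end NRF

end
end

section

/-!
# E8: Taylor coefficients at the pole
-/

open scoped Manifold ContDiff Topology RealInnerProductSpace
open MeasureTheory Set Filter

noncomputable section

set_option linter.unusedSectionVars false

namespace NRF

section E8gen

variable {W : Type} [NormedAddCommGroup W] [NormedSpace ℝ W]

theorem E8_expand (z : E4) : z = ∑ j, z j • bv j := by
  ext i
  simp [bv, Pi.single_apply]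

theorem E8_apply (L : E4 →L[ℝ] W) (z : E4) : L z = ∑ j, z j • L (bv j) := by
  conv_lhs => rw [E8_expand z]
  rw [map_sum]
  simp only [map_smul]

theorem E8_clm_zero {L : E4 →L[ℝ] W} (h : ∀ j, L (bv j) = 0) : L = 0 := by
  ext z
  rw [E8_apply L z]
  simp [h]

theorem E8_fderiv_apply (F : E4 → W) (x z : E4) : fderiv ℝ F x z = ∑ j, z j • pd j F x :=
  E8_apply _ z

theorem E8_ev {δ : ℝ} (hδ : 0 < δ) (z : E4) : ∀ᶠ r : ℝ in 𝓝 0, r • z ∈ Metric.ball (0 : E4) δ := by
  have h1 : Continuous fun r : ℝ => r • z := by fun_prop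
  exact h1.continuousAt.preimage_mem_nhds (by
    rw [zero_smul]
    exact Metric.ball_mem_nhds 0 hδ)

theorem E8_tay {f : ℝ × E4 → W} {F : E4 → W} {δ : ℝ} (hδ : 0 < δ)
    (h : ∀ t, ∀ y ∈ Metric.ball (0 : E4) δ, f (t, y) = F y) (j : ℕ) (z : E4) :
    tayC f j 0 0 z = (1 / (j.factorial : ℝ)) • iteratedDeriv j (fun r : ℝ => F (r • z)) 0 := by
  unfold tayC
  congr 1
  apply Filter.EventuallyEq.iteratedDeriv_eq
  filter_upwards [E8_ev hδ z] with r hr
  rw [zero_add, zero_add, h _ _ hr]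

theorem E8_tay0 (f : ℝ × E4 → W) (z : E4) : tayC f 0 0 0 z = f (0, 0) := by
  unfold tayC
  simp

theorem E8_line {F : E4 → W} {F' : E4 →L[ℝ] W} (h : HasFDerivAt F F' 0) (z : E4) :
    HasDerivAt (fun r : ℝ => F (r • z)) (F' z) 0 := by
  have h1 : HasDerivAt (fun r : ℝ => r • z) z 0 := by
    simpa using (hasDerivAt_id (0 : ℝ)).smul_const z
  have h2 : HasFDerivAt F F' ((0 : ℝ) • z) := by rwa [zero_smul]
  exact h2.comp_hasDerivAt (0 : ℝ) h1

theorem E8_tay1 {f : ℝ × E4 → W} {F : E4 → W} {F' : E4 →L[ℝ] W} {δ : ℝ} (hδ : 0 < δ)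
    (h : ∀ t, ∀ y ∈ Metric.ball (0 : E4) δ, f (t, y) = F y) (hF : HasFDerivAt F F' 0) (z : E4) :
    tayC f 1 0 0 z = F' z := by
  rw [E8_tay hδ h, iteratedDeriv_one, (E8_line hF z).deriv]
  simp

/-- Linear functionals and Taylor coefficients. -/
theorem E8_tayL {W' : Type} [NormedAddCommGroup W'] [NormedSpace ℝ W'] (L : W →L[ℝ] W')
    {f : ℝ × E4 → W} (hf : ContDiff ℝ ∞ f) (j : ℕ) (z : E4) :
    L (tayC f j 0 0 z) = tayC (fun q => L (f q)) j 0 0 z := by
  have h1 : ContDiff ℝ ∞ (fun r : ℝ => f (0 + r ^ 2, 0 + r • z)) := by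
    refine hf.comp ?_
    fun_prop
  unfold tayC
  rw [map_smul]
  congr 1
  rw [iteratedDeriv_eq_iteratedFDeriv, iteratedDeriv_eq_iteratedFDeriv]
  have h2 := L.iteratedFDeriv_comp_left (x := (0 : ℝ)) (n := (∞ : WithTop ℕ∞)) h1.contDiffAt
    (i := j) (by exact_mod_cast le_top)
  have h3 : (fun r : ℝ => L (f (0 + r ^ 2, 0 + r • z))) =
      (L ∘ fun r : ℝ => f (0 + r ^ 2, 0 + r • z)) := rfl
  rw [h3, h2]
  rfl

/-- Second derivative of a product of two functions vanishing at `0`. -/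
theorem E8_bil2 {E1 E2 : Type} [NormedAddCommGroup E1] [NormedSpace ℝ E1] [NormedAddCommGroup E2]
    [NormedSpace ℝ E2] (B : E1 →L[ℝ] E2 →L[ℝ] W) {v : ℝ → E1} {w : ℝ → E2}
    (hv : ContDiffAt ℝ 2 v 0) (hw : ContDiffAt ℝ 2 w 0) (v0 : v 0 = 0) (w0 : w 0 = 0) :
    iteratedDeriv 2 (fun r => B (v r) (w r)) 0 = (2 : ℝ) • B (deriv v 0) (deriv w 0) := by
  have hv1 : ∀ᶠ r in 𝓝 (0 : ℝ), DifferentiableAt ℝ v r :=
    (hv.eventually (by simp)).mono fun r h => h.differentiableAt (by norm_num)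
  have hw1 : ∀ᶠ r in 𝓝 (0 : ℝ), DifferentiableAt ℝ w r :=
    (hw.eventually (by simp)).mono fun r h => h.differentiableAt (by norm_num)
  have hv2 : DifferentiableAt ℝ (deriv v) 0 :=
    ((hv.fderiv_right (m := 1) (by norm_num)).clm_apply (contDiffAt_const (c := (1 : ℝ)))
      ).differentiableAt (by norm_num)
  have hw2 : DifferentiableAt ℝ (deriv w) 0 :=
    ((hw.fderiv_right (m := 1) (by norm_num)).clm_apply (contDiffAt_const (c := (1 : ℝ)))
      ).differentiableAt (by norm_num)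
  have h1 : deriv (fun r => B (v r) (w r)) =ᶠ[𝓝 0]
      fun r => B (v r) (deriv w r) + B (deriv v r) (w r) := by
    filter_upwards [hv1, hw1] with r a b
    exact (ContinuousLinearMap.hasDerivAt_of_bilinear (B := B) (fun _ => a.hasDerivAt)
      (fun _ => b.hasDerivAt)).deriv
  have h2 : HasDerivAt (fun r => B (v r) (deriv w r) + B (deriv v r) (w r))
      ((B (v 0) (deriv (deriv w) 0) + B (deriv v 0) (deriv w 0)) +
        (B (deriv v 0) (deriv w 0) + B (deriv (deriv v) 0) (w 0))) 0 :=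
    (ContinuousLinearMap.hasDerivAt_of_bilinear (B := B)
      (fun _ => hv1.self_of_nhds.hasDerivAt) (fun _ => hw2.hasDerivAt)).add
    (ContinuousLinearMap.hasDerivAt_of_bilinear (B := B)
      (fun _ => hv2.hasDerivAt) (fun _ => hw1.self_of_nhds.hasDerivAt))
  rw [iteratedDeriv_succ, iteratedDeriv_one, h1.deriv_eq, h2.deriv, v0, w0, two_smul]
  simp

end E8gen

section E8main

variable {V : Type} [NormedAddCommGroup V] [InnerProductSpace ℝ V] [FiniteDimensional ℝ V]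

/-- The inverse matrix and its first derivatives at the pole. -/
theorem E8_inv {m : Model V} {κ δ : ℝ} {G : E4 → Matrix (Fin 4) (Fin 4) ℝ}
    {A : Fin 4 → E4 → V →L[ℝ] V} {W : E4 → V →L[ℝ] V} (hD : LocData κ δ G A W)
    (ha : ∀ t, ∀ z ∈ Metric.ball (0 : E4) δ, m.a (t, z) = (G z)⁻¹) :
    (m.a (0, 0) = κ • (1 : Matrix (Fin 4) (Fin 4) ℝ)) ∧
    ∀ i j, HasFDerivAt (fun y => m.a (0, y) i j) (0 : E4 →L[ℝ] ℝ) 0 := by
  have hκ : κ ≠ 0 := hD.kpos.ne'
  have h0 : (0 : E4) ∈ Metric.ball (0 : E4) δ := by simpa using hD.dpos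
  have hb : ∀ᶠ y in 𝓝 (0 : E4), y ∈ Metric.ball (0 : E4) δ := Metric.isOpen_ball.mem_nhds h0
  have a0 : m.a (0, 0) = κ • (1 : Matrix (Fin 4) (Fin 4) ℝ) := by
    rw [ha 0 0 h0, hD.G0]
    refine Matrix.inv_eq_left_inv ?_
    rw [smul_mul_smul_comm, mul_one, mul_inv_cancel₀ hκ, one_smul]
  refine ⟨a0, ?_⟩
  have hα : ∀ i j, HasFDerivAt (fun y => m.a (0, y) i j) (fderiv ℝ (fun y => m.a (0, y) i j) 0)
      0 := by
    intro i j
    have h1 : ContDiff ℝ ∞ (fun y : E4 => m.a (0, y) i j) :=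
      (m.a_smooth i j).comp (contDiff_const.prodMk contDiff_id)
    exact (h1.differentiable (by simp) 0).hasFDerivAt
  have hG : ∀ i j, HasFDerivAt (fun y => G y i j) (0 : E4 →L[ℝ] ℝ) 0 := by
    intro i j
    have h1 : DifferentiableAt ℝ (fun y => G y i j) 0 :=
      ((hD.met.smooth i j).contDiffAt (hD.met.isOpen.mem_nhds h0)).differentiableAt (by simp)
    have h2 : fderiv ℝ (fun y => G y i j) 0 = 0 := E8_clm_zero fun k => hD.dG0 k i j
    rw [← h2]
    exact h1.hasFDerivAt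
  intro i j
  have h1 : HasFDerivAt (fun y => ∑ k, G y i k * m.a (0, y) k j)
      (∑ k, (G 0 i k • fderiv ℝ (fun y => m.a (0, y) k j) 0 + m.a (0, 0) k j • (0 : E4 →L[ℝ] ℝ)))
      0 := HasFDerivAt.fun_sum fun k _ => (hG i k).mul (hα k j)
  have h2 : (fun y => ∑ k, G y i k * m.a (0, y) k j) =ᶠ[𝓝 0]
      fun _ => (1 : Matrix (Fin 4) (Fin 4) ℝ) i j := by
    filter_upwards [hb] with y hy
    rw [ha 0 y hy, ← Matrix.mul_apply,
      Matrix.mul_nonsing_inv _ ((Matrix.isUnit_iff_isUnit_det _).1 (hD.met.posDef y hy).isUnit)]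
  have h3 := h1.unique ((hasFDerivAt_const ((1 : Matrix (Fin 4) (Fin 4) ℝ) i j)
    (0 : E4)).congr_of_eventuallyEq h2)
  have h4 : κ⁻¹ • fderiv ℝ (fun y => m.a (0, y) i j) 0 = 0 := by
    rw [← h3, hD.G0]
    simp [Matrix.one_apply]
  have h5 : fderiv ℝ (fun y => m.a (0, y) i j) 0 = 0 := by
    rcases smul_eq_zero.1 h4 with h | h
    · exact absurd h (inv_ne_zero hκ)
    · exact h
  rw [← h5]
  exact hα i j

theorem E8_pdiff {G : E4 → Matrix (Fin 4) (Fin 4) ℝ} {δ : ℝ} (hG : MetOn (Metric.ball 0 δ) G)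
    (hδ : 0 < δ) (k i j : Fin 4) : DifferentiableAt ℝ (pd k fun z => G z i j) 0 := by
  have h0 : (0 : E4) ∈ Metric.ball (0 : E4) δ := by simpa using hδ
  have h1 : ContDiffAt ℝ ∞ (fun y => G y i j) 0 :=
    (hG.smooth i j).contDiffAt (hG.isOpen.mem_nhds h0)
  have h2 : ContDiffAt ℝ ∞ (pd k fun z => G z i j) 0 := by
    unfold pd
    exact (h1.fderiv_right (m := ∞) (by simp)).clm_apply contDiffAt_const
  exact h2.differentiableAt (by simp)

/-- The contracted Christoffel symbols are differentiable. -/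
theorem E8_phi {m : Model V} {κ δ : ℝ} {G : E4 → Matrix (Fin 4) (Fin 4) ℝ}
    {A : Fin 4 → E4 → V →L[ℝ] V} {W : E4 → V →L[ℝ] V} (hD : LocData κ δ G A W)
    (ha : ∀ t, ∀ z ∈ Metric.ball (0 : E4) δ, m.a (t, z) = (G z)⁻¹) (j : Fin 4) :
    DifferentiableAt ℝ (fun y => ∑ k, ∑ l, (G y)⁻¹ k l * chr G j k l y) 0 := by
  have h0 : (0 : E4) ∈ Metric.ball (0 : E4) δ := by simpa using hD.dpos
  have hb : ∀ᶠ y in 𝓝 (0 : E4), y ∈ Metric.ball (0 : E4) δ := Metric.isOpen_ball.mem_nhds h0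
  have hA := (E8_inv hD ha).2
  have hα : ∀ i j, DifferentiableAt ℝ (fun y => m.a (0, y) i j) 0 :=
    fun i j => (hA i j).differentiableAt
  have hp := E8_pdiff hD.met hD.dpos
  have h1 : DifferentiableAt ℝ (fun y => ∑ k, ∑ l, m.a (0, y) k l * ((1 / 2) *
      ∑ r, m.a (0, y) j r * (pd k (fun z => G z l r) y + pd l (fun z => G z k r) y -
        pd r (fun z => G z k l) y))) 0 := by
    refine DifferentiableAt.fun_sum fun k _ => DifferentiableAt.fun_sum fun l _ => ?_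
    refine (hα k l).mul (DifferentiableAt.const_mul ?_ _)
    exact DifferentiableAt.fun_sum fun r _ =>
      (hα j r).mul (((hp k l r).add (hp l k r)).sub (hp r k l))
  refine h1.congr_of_eventuallyEq ?_
  filter_upwards [hb] with y hy
  simp only [chr, ha 0 y hy]

theorem thm_TayE : claimTayE := by
  intro V _ _ _ m κ δ G A W l hD hl hm
  have hκ : κ ≠ 0 := hD.kpos.ne'
  have hδ := hD.dpos
  have h0 : (0 : E4) ∈ Metric.ball (0 : E4) δ := by simpa using hδ
  have ha : ∀ t, ∀ z ∈ Metric.ball (0 : E4) δ, m.a (t, z) = (G z)⁻¹ :=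
    fun t z hz => (hm t z hz).1
  obtain ⟨a0, da⟩ := E8_inv hD ha
  set L : (V →L[ℝ] V) →L[ℝ] ℝ := LinearMap.toContinuousLinearMap l with hL
  have hLl : ∀ X, L X = l X := fun X => rfl
  have hAs : ∀ i, ∀ y ∈ Metric.ball (0 : E4) δ, ContDiffAt ℝ ∞ (A i) y := fun i y hy =>
    (hD.A_smooth i).contDiffAt (Metric.isOpen_ball.mem_nhds hy)
  have hAd : ∀ i, HasFDerivAt (A i) (fderiv ℝ (A i) 0) 0 := fun i =>
    ((hAs i 0 h0).differentiableAt (by simp)).hasFDerivAt
  have hφ := E8_phi hD ha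
  -- the functional on derivatives of the connection
  have hlpd : ∀ k i, ∀ y ∈ Metric.ball (0 : E4) δ, l (pd k (A i) y) = 0 := by
    intro k i y hy
    have h1 : HasFDerivAt (fun z => L (A i z)) (L.comp (fderiv ℝ (A i) y)) y :=
      L.hasFDerivAt.comp y ((hAs i y hy).differentiableAt (by simp)).hasFDerivAt
    have h2 : (fun z => L (A i z)) =ᶠ[𝓝 y] fun _ => (0 : ℝ) := by
      filter_upwards [Metric.isOpen_ball.mem_nhds hy] with z hz
      exact hl.onA i z hz
    have h3 := h1.unique ((hasFDerivAt_const (0 : ℝ) y).congr_of_eventuallyEq h2)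
    have h4 := congrArg (fun M : E4 →L[ℝ] ℝ => M (bv k)) h3
    exact h4
  refine ⟨fun j z => fderiv ℝ (fun y => ∑ k, ∑ l, (G y)⁻¹ k l * chr G j k l y) 0 z, ?_⟩
  have hchr0 : ∀ j k i, chr G j k i 0 = 0 := by
    intro j k i
    unfold chr
    simp [hD.dG0]
  have lcomp : ∀ t, ∀ y ∈ Metric.ball (0 : E4) δ, L (m.c (t, y)) =
      -∑ k, ∑ i, m.a (0, y) k i * l ((A k y).comp (A i y)) := by
    intro t y hy
    rw [hLl, (hm t y hy).2.2, map_sub, hl.onW y hy, zero_sub, map_sum]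
    congr 1
    refine Finset.sum_congr rfl fun k _ => ?_
    rw [map_sum]
    refine Finset.sum_congr rfl fun i _ => ?_
    rw [map_smul, map_sub, map_add, hlpd k i y hy, zero_add, map_sum, ha 0 y hy]
    simp [hl.onA _ y hy]
  refine
    { kpos := hD.kpos
      a0 := a0
      a1 := ?_
      b0 := ?_
      b1 := ?_
      b3 := ?_
      c0 := ?_
      c2 := ?_
      l1 := hl.one
      lB := fun j k => hlpd j k 0 h0
      lW := hl.onW 0 h0
      comm := ?_ }
  · intro i j z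
    have h1 : HasFDerivAt (fun y => (G y)⁻¹ i j) (0 : E4 →L[ℝ] ℝ) 0 := by
      refine (da i j).congr_of_eventuallyEq ?_
      filter_upwards [Metric.isOpen_ball.mem_nhds h0] with y hy
      rw [ha 0 y hy]
    rw [E8_tay1 hδ (F := fun y => (G y)⁻¹ i j) (fun t y hy => by rw [ha t y hy]) h1]
    rfl
  · intro i z
    rw [E8_tay0, (hm 0 0 h0).2.1 i]
    simp [hD.A0, hchr0]
  · intro i z
    have h1 : HasFDerivAt (fun y => -(∑ k, (2 * m.a (0, y) k i) • A k y) +
        (∑ k, ∑ r, (G y)⁻¹ k r * chr G i k r y) • ContinuousLinearMap.id ℝ V)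
        (-(∑ k, ((2 * m.a (0, 0) k i) • fderiv ℝ (A k) 0 +
          ((2 : ℝ) • (0 : E4 →L[ℝ] ℝ)).smulRight (A k 0))) +
        (fderiv ℝ (fun y => ∑ k, ∑ r, (G y)⁻¹ k r * chr G i k r y) 0).smulRight
          (ContinuousLinearMap.id ℝ V)) 0 := by
      refine HasFDerivAt.add (HasFDerivAt.neg (HasFDerivAt.fun_sum fun k _ => ?_)) ?_
      · exact ((da k i).const_mul 2).fun_smul (hAd k)
      · exact (hφ i).hasFDerivAt.smul_const (ContinuousLinearMap.id ℝ V)
    have hs : (∑ k, ((2 * m.a (0, 0) k i) • fderiv ℝ (A k) 0 +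
        ((2 : ℝ) • (0 : E4 →L[ℝ] ℝ)).smulRight (A k 0))) = (2 * κ) • fderiv ℝ (A i) 0 := by
      rw [Finset.sum_eq_single i]
      · simp [a0, hD.A0]
      · intro k _ hk
        have e1 : m.a (0, 0) k i = 0 := by
          rw [a0]
          simp [Matrix.one_apply_ne hk]
        ext v w
        simp [e1]
      · intro h
        exact absurd (Finset.mem_univ i) h
    rw [hs] at h1
    have h2 : (fun y => -(∑ k, (2 * (G y)⁻¹ k i) • A k y) +
        (∑ k, ∑ r, (G y)⁻¹ k r * chr G i k r y) • ContinuousLinearMap.id ℝ V) =ᶠ[𝓝 0]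
        fun y => -(∑ k, (2 * m.a (0, y) k i) • A k y) +
        (∑ k, ∑ r, (G y)⁻¹ k r * chr G i k r y) • ContinuousLinearMap.id ℝ V := by
      filter_upwards [Metric.isOpen_ball.mem_nhds h0] with y hy
      rw [ha 0 y hy]
    rw [E8_tay1 hδ (fun t y hy => (hm t y hy).2.1 i) (h1.congr_of_eventuallyEq h2)]
    change (-((2 * κ) • fderiv ℝ (A i) 0) +
        (fderiv ℝ (fun y => ∑ k, ∑ r, (G y)⁻¹ k r * chr G i k r y) 0).smulRight
          (ContinuousLinearMap.id ℝ V)) z =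
      fderiv ℝ (fun y => ∑ k, ∑ r, (G y)⁻¹ k r * chr G i k r y) 0 z •
        ContinuousLinearMap.id ℝ V - (2 * κ) • ∑ j, z j • pd j (A i) 0
    rw [← E8_fderiv_apply (A i) 0 z, add_apply, neg_apply, smul_apply,
      ContinuousLinearMap.smulRight_apply]
    abel
  · intro i z
    rw [← hLl, E8_tayL L (m.b_smooth i)]
    rw [E8_tay hδ (F := fun _ => (0 : ℝ))]
    · simp
    · intro t y hy
      rw [hLl, (hm t y hy).2.1 i, map_add, map_neg, map_sum, map_smul, hl.one]
      simp [hl.onA _ y hy]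
  · intro z
    rw [E8_tay0, (hm 0 0 h0).2.2, ← ha 0 0 h0, a0]
    simp [hD.A0, Matrix.one_apply, Finset.smul_sum]
  · intro z
    set bk : Fin 4 → V →L[ℝ] V := fun k => ∑ j, z j • pd j (A k) 0 with hbk
    have hbk' : ∀ k, fderiv ℝ (A k) 0 z = bk k := fun k => E8_fderiv_apply (A k) 0 z
    let B : (V →L[ℝ] V) →L[ℝ] (V →L[ℝ] V) →L[ℝ] ℝ :=
      (ContinuousLinearMap.compL ℝ (V →L[ℝ] V) (V →L[ℝ] V) ℝ L).comp
        (ContinuousLinearMap.compL ℝ V V V)
    have hB : ∀ X Y, B X Y = l (X.comp Y) := fun X Y => rfl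
    have hline : ContDiffAt ℝ 2 (fun r : ℝ => r • z) 0 :=
      contDiffAt_id.smul contDiffAt_const
    have hAr : ∀ k, ContDiffAt ℝ 2 (fun r : ℝ => A k (r • z)) 0 := by
      intro k
      have h1 : ContDiffAt ℝ 2 (A k) ((0 : ℝ) • z) := by
        rw [zero_smul]
        exact (hAs k 0 h0).of_le (by norm_cast)
      exact h1.comp (0 : ℝ) hline
    have har : ∀ k i, ContDiffAt ℝ 2 (fun r : ℝ => m.a (0, r • z) k i) 0 := by
      intro k i
      have h1 : ContDiff ℝ ∞ (fun r : ℝ => m.a (0, r • z) k i) :=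
        (m.a_smooth k i).comp (by fun_prop)
      exact (h1.of_le (by norm_cast)).contDiffAt
    have hdA : ∀ k, HasDerivAt (fun r : ℝ => A k (r • z)) (bk k) 0 := by
      intro k
      rw [← hbk' k]
      exact E8_line (hAd k) z
    have hda : ∀ k i, HasDerivAt (fun r : ℝ => m.a (0, r • z) k i) 0 0 := by
      intro k i
      simpa using E8_line (da k i) z
    have key : ∀ k i, iteratedDeriv 2
        (fun r : ℝ => B (m.a (0, r • z) k i • A k (r • z)) (A i (r • z))) 0 =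
        2 * ((κ • (1 : Matrix (Fin 4) (Fin 4) ℝ)) k i * l ((bk k).comp (bk i))) := by
      intro k i
      have hv : HasDerivAt (fun r : ℝ => m.a (0, r • z) k i • A k (r • z))
          ((κ • (1 : Matrix (Fin 4) (Fin 4) ℝ)) k i • bk k) 0 := by
        have := (hda k i).fun_smul (hdA k)
        simpa [a0] using this
      have hvc : ContDiffAt ℝ 2 (fun r : ℝ => m.a (0, r • z) k i • A k (r • z)) 0 :=
        (har k i).smul (hAr k)
      have e := E8_bil2 B (v := fun r : ℝ => m.a (0, r • z) k i • A k (r • z))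
        (w := fun r : ℝ => A i (r • z)) hvc (hAr i) (by simp [hD.A0]) (by simp [hD.A0])
      rw [hv.deriv, (hdA i).deriv, hB] at e
      rw [e]
      simp only [ContinuousLinearMap.smul_comp, map_smul, smul_eq_mul]
    rw [← hLl, E8_tayL L m.c_smooth, E8_tay hδ
      (F := fun y => -∑ k, ∑ i, B (m.a (0, y) k i • A k y) (A i y))]
    · rw [iteratedDeriv_fun_neg, iteratedDeriv_fun_sum]
      · have h5 : ∀ k ∈ (Finset.univ : Finset (Fin 4)),
            iteratedDeriv 2 (fun r : ℝ => ∑ i, B (m.a (0, r • z) k i • A k (r • z)) (A i (r • z)))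
              0 = 2 * (κ * l ((bk k).comp (bk k))) := by
          intro k _
          rw [iteratedDeriv_fun_sum]
          · simp only [key]
            rw [← Finset.mul_sum]
            simp [Matrix.one_apply]
          · intro i _
            exact (B.isBoundedBilinearMap.contDiff.contDiffAt (n := 2)).comp (0 : ℝ)
              (((har k i).smul (hAr k)).prodMk (hAr i))
        rw [Finset.sum_congr rfl h5, ← Finset.mul_sum, ← Finset.mul_sum]
        change _ = -(κ * ∑ k, l ((bk k).comp (bk k)))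
        simp [Nat.factorial]
      · intro k _
        refine ContDiffAt.sum fun i _ => ?_
        exact (B.isBoundedBilinearMap.contDiff.contDiffAt (n := 2)).comp (0 : ℝ)
          (((har k i).smul (hAr k)).prodMk (hAr i))
    · intro t y hy
      rw [lcomp t y hy]
      congr 1
      refine Finset.sum_congr rfl fun k _ => Finset.sum_congr rfl fun i _ => ?_
      rw [hB]
      simp only [ContinuousLinearMap.smul_comp, map_smul, smul_eq_mul]
  · intro j k
    have h1 : HasFDerivAt (fun y => L ((A k y).comp (W 0))) _ 0 :=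
      L.hasFDerivAt.comp 0 (((hAd k).clm_comp (hasFDerivAt_const (W 0) (0 : E4))))
    have h2 : HasFDerivAt (fun y => L ((W 0).comp (A k y))) _ 0 :=
      L.hasFDerivAt.comp 0 (((hasFDerivAt_const (W 0) (0 : E4)).clm_comp (hAd k)))
    have h3 : (fun y => L ((A k y).comp (W 0))) =ᶠ[𝓝 0] fun y => L ((W 0).comp (A k y)) := by
      filter_upwards [Metric.isOpen_ball.mem_nhds h0] with y hy
      exact hl.comm k y hy 0 h0
    have h4 := h1.unique (h2.congr_of_eventuallyEq h3)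
    have h5 := congrArg (fun M : E4 →L[ℝ] ℝ => M (bv j)) h4
    simp at h5
    exact h5

end E8main

end NRF

end
end

section

/-!
G0: `C^k` functions in charts of the maximal atlas.
-/

set_option autoImplicit false

open scoped Manifold ContDiff Topology
open MeasureTheory Set

namespace NRF

theorem G0_at {X : Type} [TopologicalSpace X] [ChartedSpace E4 X] [IsManifold (𝓡 4) ∞ X]
    {W : Type} [NormedAddCommGroup W] [NormedSpace ℝ W] {k : WithTop ℕ∞} (hk : k ≤ ∞) (u : X → W)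
    {psi : OpenPartialHomeomorph X E4} (h : psi ∈ SmCh X) {x : X} (hx : x ∈ psi.source) :
    ContMDiffAt (𝓡 4) (modelWithCornersSelf ℝ W) k u x ↔
      ContDiffAt ℝ k (fun z => u (psi.symm z)) (psi x) := by
  have h1 : ContMDiffAt (𝓡 4) (𝓡 4) k psi x :=
    (contMDiffAt_of_mem_maximalAtlas (I := 𝓡 4) (n := ∞) h hx).of_le hk
  have h2 : ContMDiffAt (𝓡 4) (𝓡 4) k psi.symm (psi x) :=
    (contMDiffAt_symm_of_mem_maximalAtlas (I := 𝓡 4) (n := ∞) h (psi.map_source hx)).of_le hk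
  constructor
  · intro hu
    rw [← contMDiffAt_iff_contDiffAt]
    have hu' : ContMDiffAt (𝓡 4) (modelWithCornersSelf ℝ W) k u (psi.symm (psi x)) := by
      rw [psi.left_inv hx]
      exact hu
    exact hu'.comp (psi x) h2
  · intro hu
    rw [← contMDiffAt_iff_contDiffAt] at hu
    have h3 : ContMDiffAt (𝓡 4) (modelWithCornersSelf ℝ W) k
        (fun y => u (psi.symm (psi y))) x := hu.comp x h1
    refine h3.congr_of_eventuallyEq ?_
    filter_upwards [psi.open_source.mem_nhds hx] with y hy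
    rw [psi.left_inv hy]

theorem thm_Ck : claimCk := by
  intro X _ _ _ W _ _ k u hk
  refine ⟨⟨fun h x => ?_, fun h x psi hpsi hx => (G0_at hk u hpsi hx).1 (h x)⟩, ?_⟩
  · have hc : chartAt E4 x ∈ SmCh X := IsManifold.chart_mem_maximalAtlas x
    exact (G0_at hk u hc (mem_chart_source E4 x)).2
      (h x (chartAt E4 x) hc (mem_chart_source E4 x))
  · intro psi hpsi x hx hu psi' hpsi' hx'
    exact (G0_at hk u hpsi' hx').1 ((G0_at hk u hpsi hx).2 hu)

end NRF

end

section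

/-!
G1: transition matrices of orthonormal frames.
-/

set_option autoImplicit false

open scoped Manifold ContDiff Topology
open MeasureTheory Set

namespace NRF

theorem G1_vec (v : E4) : v = ∑ k, v k • bv k := by
  ext i
  simp [bv, Finset.sum_apply, Pi.single_apply]

theorem G1_chain {φ' φ : E4 → E4} {y : E4} (h' : DifferentiableAt ℝ φ' (φ y))
    (h : DifferentiableAt ℝ φ y) : jacM (fun z => φ' (φ z)) y = jacM φ' (φ y) * jacM φ y := by
  ext k i
  have h1 : fderiv ℝ (fun z => φ' (φ z)) y = (fderiv ℝ φ' (φ y)).comp (fderiv ℝ φ y) :=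
    fderiv_comp y h' h
  simp only [jacM, pd, Matrix.of_apply, Matrix.mul_apply, h1, ContinuousLinearMap.comp_apply]
  conv_lhs => rw [G1_vec (fderiv ℝ φ y (bv i))]
  simp only [map_sum, map_smul, WithLp.ofLp_sum, WithLp.ofLp_smul, Finset.sum_apply,
    Pi.smul_apply, smul_eq_mul]
  refine Finset.sum_congr rfl fun l _ => mul_comm _ _

theorem G1_congr {φ φ' : E4 → E4} {y : E4} (h : φ =ᶠ[𝓝 y] φ') : jacM φ y = jacM φ' y := by
  ext k i
  simp only [jacM, pd, Matrix.of_apply, h.fderiv_eq]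

theorem G1_id (y : E4) : jacM (fun z => z) y = 1 := by
  ext k i
  simp only [jacM, pd, Matrix.of_apply, fderiv_fun_id, ContinuousLinearMap.id_apply, bv,
    PiLp.single_apply, Matrix.one_apply]

section charts

variable {X : Type} [TopologicalSpace X]

/-- coordinate changes compose -/
theorem G1_trans (a b c : OpenPartialHomeomorph X E4) {x : X} (ha : x ∈ a.source)
    (hb : x ∈ b.source) :
    (fun z => (b.symm.trans c) ((a.symm.trans b) z)) =ᶠ[𝓝 (a x)] (a.symm.trans c) := by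
  have h1 : a x ∈ (a.symm.trans b).source := by
    rw [OpenPartialHomeomorph.trans_source]
    refine ⟨a.map_source ha, ?_⟩
    rw [mem_preimage, a.left_inv ha]; exact hb
  filter_upwards [(a.symm.trans b).open_source.mem_nhds h1] with z hz
  rw [OpenPartialHomeomorph.trans_source] at hz
  show c (b.symm (b (a.symm z))) = c (a.symm z)
  rw [b.left_inv hz.2]

theorem G1_mem (a b : OpenPartialHomeomorph X E4) {x : X} (ha : x ∈ a.source)
    (hb : x ∈ b.source) : a x ∈ (a.symm.trans b).source := by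
  rw [OpenPartialHomeomorph.trans_source]
  refine ⟨a.map_source ha, ?_⟩
  rw [mem_preimage, a.left_inv ha]; exact hb

theorem G1_val (a b : OpenPartialHomeomorph X E4) {x : X} (ha : x ∈ a.source) :
    (a.symm.trans b) (a x) = b x := by
  show b (a.symm (a x)) = b x
  rw [a.left_inv ha]

theorem G1_mem' (a b : OpenPartialHomeomorph X E4) {y : E4} (hy : y ∈ (a.symm.trans b).source) :
    a.symm y ∈ a.source ∧ a.symm y ∈ b.source ∧ a (a.symm y) = y := by
  rw [OpenPartialHomeomorph.trans_source] at hy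
  exact ⟨a.map_target hy.1, hy.2, a.right_inv hy.1⟩

variable [ChartedSpace E4 X] [IsManifold (𝓡 4) ∞ X]

theorem G1_diff (n0 : claimN0) {a b : OpenPartialHomeomorph X E4} (ha : a ∈ SmCh X)
    (hb : b ∈ SmCh X) {y : E4} (hy : y ∈ (a.symm.trans b).source) :
    DifferentiableAt ℝ (a.symm.trans b) y :=
  (((n0 X a ha b hb).1 y hy).contDiffAt ((a.symm.trans b).open_source.mem_nhds hy)).differentiableAt
    (by simp)

theorem G1_pos (n0 : claimN0) {a b : OpenPartialHomeomorph X E4} (ha : a ∈ SmCh X)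
    (hb : b ∈ SmCh X) (pa : PosCh a) (pb : PosCh b) {y : E4}
    (hy : y ∈ (a.symm.trans b).source) : 0 < (fderiv ℝ (a.symm.trans b) y).det := by
  obtain ⟨h1, h2, h3⟩ := G1_mem' a b hy
  set x := a.symm y with hx
  set e := chAt x with he
  have hex : x ∈ e.1.source := mem_chart_source E4 x
  have hae := G1_mem a e.1 h1 hex
  have hbe := G1_mem b e.1 h2 hex
  have p1 := pa e (a x) hae
  have p2 := pb e (b x) hbe
  have d1 := G1_diff n0 ha hb hy
  have he' : e.1 ∈ SmCh X := IsManifold.subset_maximalAtlas e.2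
  have d2 := G1_diff n0 hb he' hbe
  have hv : (a.symm.trans b) y = b x := by rw [← h3]; exact G1_val a b h1
  have h5 : fderiv ℝ (fun z => (b.symm.trans e.1) ((a.symm.trans b) z)) y =
      (fderiv ℝ (b.symm.trans e.1) ((a.symm.trans b) y)).comp (fderiv ℝ (a.symm.trans b) y) :=
    fderiv_comp y (by rw [hv]; exact d2) d1
  have h6 := G1_trans a b e.1 h1 h2
  rw [h3] at h6 p1
  rw [h6.fderiv_eq, hv] at h5
  rw [h5] at p1
  have h7 : ((fderiv ℝ (b.symm.trans e.1) (b x)).comp (fderiv ℝ (a.symm.trans b) y)).det =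
      (fderiv ℝ (b.symm.trans e.1) (b x)).det * (fderiv ℝ (a.symm.trans b) y).det := by
    rw [ContinuousLinearMap.det, ContinuousLinearMap.toLinearMap_comp, LinearMap.det_comp]
  rw [h7] at p1
  exact (pos_iff_pos_of_mul_pos p1).1 p2

end charts

section frames

variable {X : Type} [TopologicalSpace X] [ChartedSpace E4 X] [IsManifold (𝓡 4) ∞ X]
  {g : Metric X}

theorem G1_nat (n0 : claimN0) (n1 : claimN1) (nd : claimNatD) (c c' : FChart X g) :
    (∀ a b, ContDiffOn ℝ ∞ (fun y => frO (c'.psi.symm.trans c.psi) c'.f c.f y a b)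
      (c'.psi.symm.trans c.psi).source) ∧
    ∀ y ∈ (c'.psi.symm.trans c.psi).source,
      (frO (c'.psi.symm.trans c.psi) c'.f c.f y).transpose *
        frO (c'.psi.symm.trans c.psi) c'.f c.f y = 1 ∧
      (frO (c'.psi.symm.trans c.psi) c'.f c.f y).det = 1 := by
  have hsub : (c'.psi.symm.trans c.psi).source ⊆ c'.psi.target := by
    rw [OpenPartialHomeomorph.trans_source]; exact inter_subset_left
  have hF : FrameOn (c'.psi.symm.trans c.psi).source (g.mcoef c'.psi) c'.f :=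
    ⟨⟨(c'.psi.symm.trans c.psi).open_source, fun i j => (c'.frame.met.smooth i j).mono hsub,
      fun y hy => c'.frame.met.posDef y (hsub hy)⟩,
      fun i j => (c'.frame.smooth i j).mono hsub, fun y hy => c'.frame.orth y (hsub hy),
      fun y hy => c'.frame.det_pos y (hsub hy)⟩
  have h := nd (c'.psi.symm.trans c.psi).source c.psi.target (c'.psi.symm.trans c.psi)
    (g.mcoef c'.psi) (g.mcoef c.psi) c'.f c.f hF c.frame (n0 X _ c'.sm _ c.sm).1
    (fun y hy => c.psi.map_source (G1_mem' _ _ hy).2.1)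
    (fun y hy => G1_pos n0 c'.sm c.sm c'.pos c.pos hy)
    (fun y hy => (n1 X g).2.2 _ c'.sm _ c.sm y hy)
  exact ⟨h.1, fun y hy => ⟨(h.2 y hy).1, (h.2 y hy).2.1⟩⟩

omit [IsManifold (𝓡 4) ∞ X] in
theorem G1_unit (c : FChart X g) {x : X} (hx : x ∈ c.psi.source) :
    IsUnit (c.f (c.psi x)).det :=
  (c.frame.det_pos _ (c.psi.map_source hx)).ne'.isUnit

theorem G1_cocycle (n0 : claimN0) (c c' c'' : FChart X g) {x : X} (hx : x ∈ c.psi.source)
    (hx' : x ∈ c'.psi.source) (hx'' : x ∈ c''.psi.source) :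
    c.O c' x * c'.O c'' x = c.O c'' x := by
  have d1 := G1_diff n0 c''.sm c'.sm (G1_mem c''.psi c'.psi hx'' hx')
  have d2 := G1_diff n0 c'.sm c.sm (G1_mem c'.psi c.psi hx' hx)
  have v1 := G1_val c''.psi c'.psi hx''
  have v2 := G1_val c'.psi c.psi hx'
  have v3 := G1_val c''.psi c.psi hx''
  have h1 : jacM (fun z => (c'.psi.symm.trans c.psi) ((c''.psi.symm.trans c'.psi) z))
      (c''.psi x) = jacM (c'.psi.symm.trans c.psi) ((c''.psi.symm.trans c'.psi) (c''.psi x)) *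
        jacM (c''.psi.symm.trans c'.psi) (c''.psi x) :=
    G1_chain (by rw [v1]; exact d2) d1
  rw [G1_congr (G1_trans c''.psi c'.psi c.psi hx'' hx'), v1] at h1
  have hu := G1_unit c' hx'
  unfold FChart.O frO
  rw [v1, v2, v3, h1]
  calc (c.f (c.psi x))⁻¹ * jacM (c'.psi.symm.trans c.psi) (c'.psi x) * c'.f (c'.psi x) *
        ((c'.f (c'.psi x))⁻¹ * jacM (c''.psi.symm.trans c'.psi) (c''.psi x) * c''.f (c''.psi x))
      = (c.f (c.psi x))⁻¹ * jacM (c'.psi.symm.trans c.psi) (c'.psi x) *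
        (c'.f (c'.psi x) * (c'.f (c'.psi x))⁻¹) *
        (jacM (c''.psi.symm.trans c'.psi) (c''.psi x) * c''.f (c''.psi x)) := by
        simp only [Matrix.mul_assoc]
    _ = _ := by
        rw [Matrix.mul_nonsing_inv _ hu, Matrix.mul_one]
        simp only [Matrix.mul_assoc]

theorem G1_self (c : FChart X g) {x : X} (hx : x ∈ c.psi.source) : c.O c x = 1 := by
  have h1 : (c.psi.symm.trans c.psi) =ᶠ[𝓝 (c.psi x)] fun z => z := by
    filter_upwards [c.psi.open_target.mem_nhds (c.psi.map_source hx)] with z hz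
    exact c.psi.right_inv hz
  unfold FChart.O frO
  rw [G1_congr h1, G1_id, G1_val c.psi c.psi hx, Matrix.mul_one,
    Matrix.nonsing_inv_mul _ (G1_unit c hx)]

end frames

theorem thm_FCh (n1 : claimN1) (n0 : claimN0) (nd : claimNatD) : claimFCh := by
  intro X _ _ _ _ g c c'
  refine ⟨?_, fun x hx => G1_self c hx, ?_, ?_⟩
  · rintro x ⟨hx, hx'⟩
    have h1 := (G1_nat n0 n1 nd c c').2 (c'.psi x) (G1_mem c'.psi c.psi hx' hx)
    have h2 : c.O c' x * c'.O c x = 1 := by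
      rw [G1_cocycle n0 c c' c hx hx' hx, G1_self c hx]
    refine ⟨h1.1, h1.2, ?_, fun c'' hx'' => G1_cocycle n0 c c' c'' hx hx' hx''⟩
    have h3 : (c.O c' x).transpose * c.O c' x = 1 := h1.1
    calc c'.O c x = ((c.O c' x).transpose * c.O c' x) * c'.O c x := by rw [h3, Matrix.one_mul]
      _ = (c.O c' x).transpose * (c.O c' x * c'.O c x) := by rw [Matrix.mul_assoc]
      _ = _ := by rw [h2, Matrix.mul_one]
  · intro a b
    have h1 := (G1_nat n0 n1 nd c c').1 a b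
    have h2 := (n0 X _ c.sm _ c'.sm).1
    have h3 := h1.comp h2 (fun z hz => by
      obtain ⟨m1, m2, m3⟩ := G1_mem' _ _ hz
      exact G1_mem c'.psi c.psi m2 m1)
    exact h3
  · intro z hz
    exact ⟨(n1 X g).2.2 _ c.sm _ c'.sm z hz, G1_pos n0 c.sm c'.sm c.pos c'.pos hz⟩

end NRF

end

section

/-!
# G2: existence of finite atlases with frames
-/

set_option autoImplicit false

open scoped Manifold ContDiff Topology
open MeasureTheory Set

noncomputable section

namespace NRF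

/-- The charts of an oriented atlas are positively oriented. -/
theorem G2_posCh {X : Type} [TopologicalSpace X] [ChartedSpace E4 X] (hor : OrientedAtlas X)
    (x : X) : PosCh (chartAt E4 x) :=
  fun e y hy => hor (chAt x) e y hy

/-- The charts of the atlas are smooth charts. -/
theorem G2_smCh {X : Type} [TopologicalSpace X] [ChartedSpace E4 X] [IsManifold (𝓡 4) ∞ X]
    (x : X) : chartAt E4 x ∈ SmCh X :=
  IsManifold.chart_mem_maximalAtlas x

/-- Around every point there is a positively oriented smooth chart centred at the point whose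
target contains the closed ball of radius `3`. -/
theorem G2_chart (b4' : claimScaled) {X : Type} [TopologicalSpace X] [ChartedSpace E4 X]
    [IsManifold (𝓡 4) ∞ X] (hor : OrientedAtlas X) (x : X) :
    ∃ psi ∈ {psi : OpenPartialHomeomorph X E4 | psi ∈ SmCh X ∧ PosCh psi},
      x ∈ psi.source ∧ psi x = 0 ∧ Metric.closedBall 0 3 ⊆ psi.target := by
  obtain ⟨c, psi', hc, hsm, hx, -, -, h0, hb, hpos⟩ :=
    b4' X (chartAt E4 x) (G2_smCh x) x (mem_chart_source E4 x) univ isOpen_univ (mem_univ x)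
  exact ⟨psi', ⟨hsm, hpos (G2_posCh hor x)⟩, hx, h0, hb⟩

/-- A finite atlas with frames from the data given by `claimAtlas`. -/
theorem G2_mk {X : Type} [TopologicalSpace X] [ChartedSpace E4 X]
    [IsManifold (𝓡 4) ∞ X] (g : Metric X) {n : ℕ}
    (psi : Fin (n + 1) → OpenPartialHomeomorph X E4) (chi rho : Fin (n + 1) → E4 → ℝ)
    (hS : ∀ i, psi i ∈ SmCh X ∧ PosCh (psi i))
    (hb : ∀ i, Metric.closedBall 0 3 ⊆ (psi i).target)
    (h : ∀ i, ContDiff ℝ ∞ (chi i) ∧ ContDiff ℝ ∞ (rho i) ∧ (∀ z, 0 ≤ chi i z) ∧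
        (∀ z, 0 ≤ rho i z) ∧ ∀ z, 1 ≤ ‖z‖ → chi i z = 0 ∧ rho i z = 0)
    (h1 : ∀ x : X, ∑ i, (psi i).source.indicator (fun x => chi i (psi i x)) x = 1)
    (h2 : ∀ x : X, ∑ i, (psi i).source.indicator (fun x => rho i (psi i x) ^ 2) x = 1)
    (f : Fin (n + 1) → E4 → Matrix (Fin 4) (Fin 4) ℝ)
    (hf : ∀ i, FrameOn (psi i).target (g.mcoef (psi i)) (f i)) :
    ∃ A : FAtlas X g n, (∀ i, (A.c i).psi = psi i ∧ (A.c i).f = f i) ∧ A.chi = chi ∧
      A.rho = rho :=
  ⟨{ c := fun i => ⟨psi i, f i, (hS i).1, (hS i).2, hf i⟩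
     ball := hb
     chi := chi
     rho := rho
     chi_smooth := fun i => (h i).1
     rho_smooth := fun i => (h i).2.1
     chi_nonneg := fun i => (h i).2.2.1
     rho_nonneg := fun i => (h i).2.2.2.1
     chi_supp := fun i z hz => ((h i).2.2.2.2 z hz).1
     rho_supp := fun i z hz => ((h i).2.2.2.2 z hz).2
     chi_sum := h1
     rho_sum := h2 }, fun _ => ⟨rfl, rfl⟩, rfl, rfl⟩

/-- Frames exist in every smooth chart. -/
theorem G2_frame (f1 : claimFC1) (n1 : claimN1) {X : Type} [TopologicalSpace X]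
    [ChartedSpace E4 X] [IsManifold (𝓡 4) ∞ X] (g : Metric X)
    (psi : OpenPartialHomeomorph X E4) (h : psi ∈ SmCh X) :
    ∃ f, FrameOn psi.target (g.mcoef psi) f :=
  f1 _ _ ((n1 X g).2.1 psi h)

theorem thm_FAt (b4 : claimAtlas) (b4' : claimScaled) (f1 : claimFC1) (n1 : claimN1) :
    claimFAt := by
  intro X _ _ _ _ _ _ hor g
  obtain ⟨x0⟩ : Nonempty X := inferInstance
  obtain ⟨psi0, hp0, -, -, hp3⟩ := G2_chart b4' hor x0
  obtain ⟨n, psi, chi, rho, -, hS, hb, h, -, h1, h2⟩ :=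
    b4 X {psi : OpenPartialHomeomorph X E4 | psi ∈ SmCh X ∧ PosCh psi} (fun _ hp => hp.1)
      (G2_chart b4' hor) psi0 hp0 hp3
  choose f hf using fun i => G2_frame f1 n1 g (psi i) (hS i).1
  obtain ⟨A, -⟩ := G2_mk g psi chi rho hS hb h h1 h2 f hf
  exact ⟨n, ⟨A⟩⟩

end NRF

end
end

section

/-!
# G4b: first properties of `d`, `δ`, `D` on the trivial bundle
-/

open scoped Manifold ContDiff Topology RealInnerProductSpace
open MeasureTheory Set

noncomputable section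

namespace NRF

section loc

variable {G f : E4 → Matrix (Fin 4) (Fin 4) ℝ} {α β : E4 → Lam → ℝ} {y : E4}

theorem G4b_pd_congr {φ ψ : E4 → ℝ} (h : ∀ᶠ z in 𝓝 y, φ z = ψ z) (i : Fin 4) :
    pd i φ y = pd i ψ y := by
  unfold pd
  rw [Filter.EventuallyEq.fderiv_eq h]

theorem G4b_nabC_congr (h : ∀ᶠ z in 𝓝 y, α z = β z) (i : Fin 4) :
    nabC G f i α y = nabC G f i β y := by
  unfold nabC
  rw [h.self_of_nhds]
  congr 1
  funext s
  exact G4b_pd_congr (h.mono fun z hz => by rw [hz]) i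

theorem G4b_congr (h : ∀ᶠ z in 𝓝 y, α z = β z) :
    diracC G f α y = diracC G f β y ∧ dFC G f α y = dFC G f β y ∧
      delFC G f α y = delFC G f β y := by
  unfold diracC dFC delFC
  simp only [G4b_nabC_congr h]
  exact ⟨trivial, trivial, trivial⟩

theorem G4b_nabC_add (hα : ∀ s, DifferentiableAt ℝ (fun z => α z s) y)
    (hβ : ∀ s, DifferentiableAt ℝ (fun z => β z s) y) (i : Fin 4) :
    nabC G f i (fun z => α z + β z) y = nabC G f i α y + nabC G f i β y := by
  unfold nabC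
  have h1 : ∀ s, pd i (fun z => (α z + β z) s) y =
      pd i (fun z => α z s) y + pd i (fun z => β z s) y := by
    intro s
    unfold pd
    have : (fun z => (α z + β z) s) = (fun z => α z s) + (fun z => β z s) := rfl
    rw [this, fderiv_add (hα s) (hβ s)]
    rfl
  simp only [h1, Matrix.mulVec_add]
  funext s
  simp only [Pi.add_apply]
  ring

theorem G4b_nabC_smul (hα : ∀ s, DifferentiableAt ℝ (fun z => α z s) y) (r : ℝ) (i : Fin 4) :
    nabC G f i (fun z => r • α z) y = r • nabC G f i α y := by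
  unfold nabC
  have h1 : ∀ s, pd i (fun z => (r • α z) s) y = r • pd i (fun z => α z s) y := by
    intro s
    unfold pd
    have : (fun z => (r • α z) s) = r • (fun z => α z s) := rfl
    rw [this, fderiv_const_smul (hα s)]
    rfl
  simp only [h1, Matrix.mulVec_smul]
  funext s
  simp only [Pi.add_apply, Pi.smul_apply, smul_add]

theorem G4b_add (hα : ∀ s, DifferentiableAt ℝ (fun z => α z s) y)
    (hβ : ∀ s, DifferentiableAt ℝ (fun z => β z s) y) :
    diracC G f (fun z => α z + β z) y = diracC G f α y + diracC G f β y ∧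
      dFC G f (fun z => α z + β z) y = dFC G f α y + dFC G f β y ∧
      delFC G f (fun z => α z + β z) y = delFC G f α y + delFC G f β y := by
  unfold diracC dFC delFC
  simp only [G4b_nabC_add hα hβ, Matrix.mulVec_add, smul_add, Finset.sum_add_distrib, neg_add]
  exact ⟨trivial, trivial, trivial⟩

theorem G4b_smul (hα : ∀ s, DifferentiableAt ℝ (fun z => α z s) y) (r : ℝ) :
    diracC G f (fun z => r • α z) y = r • diracC G f α y ∧
      dFC G f (fun z => r • α z) y = r • dFC G f α y ∧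
      delFC G f (fun z => r • α z) y = r • delFC G f α y := by
  unfold diracC dFC delFC
  simp only [G4b_nabC_smul hα, Matrix.mulVec_smul, Finset.smul_sum, smul_neg, smul_comm r]
  exact ⟨trivial, trivial, trivial⟩

/-- Regularity of `d`, `δ`, `D` in a chart. -/
theorem G4b_reg (f3 : claimFC3) {U : Set E4} (hF : FrameOn U G f) (hy : y ∈ U) (k : ℕ)
    (hα : ∀ s, ContDiffAt ℝ (k + 1) (fun z => α z s) y) (s : Lam) :
    ContDiffAt ℝ k (fun z => diracC G f α z s) y ∧ ContDiffAt ℝ k (fun z => dFC G f α z s) y ∧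
      ContDiffAt ℝ k (fun z => delFC G f α z s) y := by
  have hU : U ∈ 𝓝 y := hF.met.isOpen.mem_nhds hy
  have hk : ((k : ℕ) : WithTop ℕ∞) ≤ ∞ := by exact_mod_cast le_top
  have hR : ∀ i s t, ContDiffAt ℝ k (fun z => rho (omC G f i z) s t) y := by
    intro i s t
    have h1 := (((f3 U G f hF).1 (fun _ => Pi.single t 1)
      (fun s => contDiffOn_const)) s).1 i
    have h2 : (fun z => nabC G f i (fun _ => Pi.single t 1) z s) =
        fun z => rho (omC G f i z) s t := by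
      funext z
      unfold nabC
      simp [pd]
    rw [h2] at h1
    exact (h1.contDiffAt hU).of_le hk
  have hf : ∀ i a, ContDiffAt ℝ k (fun z => f z i a) y := fun i a =>
    ((hF.smooth i a).contDiffAt hU).of_le hk
  have hN : ∀ i s, ContDiffAt ℝ k (fun z => nabC G f i α z s) y := by
    intro i s
    have h1 : (fun z => nabC G f i α z s) = fun z => pd i (fun z => α z s) z +
        ∑ t, rho (omC G f i z) s t * α z t := by
      funext z
      rfl
    rw [h1]
    refine ContDiffAt.add ?_ (ContDiffAt.sum fun t _ => (hR i s t).mul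
      ((hα t).of_le (by exact_mod_cast Nat.le_succ k)))
    exact ((hα s).fderiv_right le_rfl).clm_apply contDiffAt_const
  refine ⟨?_, ?_, ?_⟩
  · have h1 : (fun z => diracC G f α z s) = fun z => ∑ i, ∑ a, f z i a *
        ∑ t, clf ℝ a s t * nabC G f i α z t := by
      funext z
      unfold diracC
      simp only [Finset.sum_apply, Pi.smul_apply, smul_eq_mul]
      rfl
    rw [h1]
    exact ContDiffAt.sum fun i _ => ContDiffAt.sum fun a _ => (hf i a).mul
      (ContDiffAt.sum fun t _ => contDiffAt_const.mul (hN i t))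
  · have h1 : (fun z => dFC G f α z s) = fun z => ∑ i, ∑ a, f z i a *
        ∑ t, eps ℝ a s t * nabC G f i α z t := by
      funext z
      unfold dFC
      simp only [Finset.sum_apply, Pi.smul_apply, smul_eq_mul]
      rfl
    rw [h1]
    exact ContDiffAt.sum fun i _ => ContDiffAt.sum fun a _ => (hf i a).mul
      (ContDiffAt.sum fun t _ => contDiffAt_const.mul (hN i t))
  · have h1 : (fun z => delFC G f α z s) = fun z => -∑ i, ∑ a, f z i a *
        ∑ t, iot ℝ a s t * nabC G f i α z t := by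
      funext z
      unfold delFC
      simp only [Pi.neg_apply, Finset.sum_apply, Pi.smul_apply, smul_eq_mul]
      rfl
    rw [h1]
    exact (ContDiffAt.sum fun i _ => ContDiffAt.sum fun a _ => (hf i a).mul
      (ContDiffAt.sum fun t _ => contDiffAt_const.mul (hN i t))).neg

end loc

section emb

variable {X : Type} [TopologicalSpace X] [ChartedSpace E4 X] {g : Metric X} {n : ℕ}
  (A : FAtlas X g n)

theorem G4b_emb_add (c : FChart X g) (x : X) (α β : Lam → ℝ) :
    A.emb c x (α + β) = A.emb c x α + A.emb c x β := by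
  unfold FAtlas.emb
  rw [Matrix.mulVec_add, WithLp.toLp_add]

theorem G4b_emb_smul (c : FChart X g) (x : X) (r : ℝ) (α : Lam → ℝ) :
    A.emb c x (r • α) = r • A.emb c x α := by
  unfold FAtlas.emb
  rw [Matrix.mulVec_smul, WithLp.toLp_smul]

theorem G4b_emb_neg (c : FChart X g) (x : X) (α : Lam → ℝ) :
    A.emb c x (-α) = -A.emb c x α := by
  have h := G4b_emb_smul A c x (-1) α
  simpa using h

theorem G4b_emb_zero (c : FChart X g) (x : X) : A.emb c x 0 = 0 := by
  have h := G4b_emb_smul A c x 0 0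
  simpa using h

theorem G4b_loc_add (c : FChart X g) (u v : X → VV n) (z : E4) :
    A.loc c (fun y => u y + v y) z = A.loc c u z + A.loc c v z := by
  unfold FAtlas.loc
  rw [WithLp.ofLp_add, Matrix.mulVec_add]

theorem G4b_loc_smul (c : FChart X g) (r : ℝ) (u : X → VV n) (z : E4) :
    A.loc c (fun y => r • u y) z = r • A.loc c u z := by
  unfold FAtlas.loc
  rw [WithLp.ofLp_smul, Matrix.mulVec_smul]

theorem G4b_clm_emb (c : FChart X g) (x : X) (M : Matrix Lam Lam ℝ)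
    (hB : A.Bm c x * (A.Bm c x).transpose = 1) (α : Lam → ℝ) :
    Matrix.toEuclideanCLM (𝕜 := ℝ) ((A.Bm c x).transpose * M * A.Bm c x) (A.emb c x α) =
      A.emb c x (M.mulVec α) := by
  unfold FAtlas.emb
  rw [Matrix.toEuclideanCLM_toLp, Matrix.mulVec_mulVec, Matrix.mul_assoc, hB, Matrix.mul_one,
    Matrix.mulVec_mulVec]

theorem G4b_cx_mem (x : X) : x ∈ (A.cx x).psi.source := (A.exists_index x).choose_spec.1

/-- Regularity of the components. -/
theorem G4b_loc_reg (c : FChart X g)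
    (hB : ∀ s q, ContDiffOn ℝ ∞ (fun z => A.Bm c (c.psi.symm z) s q) c.psi.target)
    {z0 : E4} (hz : z0 ∈ c.psi.target) {k : WithTop ℕ∞} (hk : k ≤ ∞) (u : X → VV n)
    (hu : ContDiffAt ℝ k (fun z => u (c.psi.symm z)) z0) (s : Lam) :
    ContDiffAt ℝ k (fun z => A.loc c u z s) z0 := by
  have hT : c.psi.target ∈ 𝓝 z0 := c.psi.open_target.mem_nhds hz
  have h1 : (fun z => A.loc c u z s) = fun z => ∑ q, A.Bm c (c.psi.symm z) s q *
      (u (c.psi.symm z)) q := by
    funext z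
    rfl
  rw [h1]
  exact ContDiffAt.sum fun q _ => (((hB s q).contDiffAt hT).of_le hk).mul
    (contDiffAt_euclidean.1 hu q)

/-- Regularity of the vectors with given components. -/
theorem G4b_emb_reg (c : FChart X g)
    (hB : ∀ s q, ContDiffOn ℝ ∞ (fun z => A.Bm c (c.psi.symm z) s q) c.psi.target)
    {z0 : E4} (hz : z0 ∈ c.psi.target) {k : WithTop ℕ∞} (hk : k ≤ ∞) (α : E4 → Lam → ℝ)
    (hα : ∀ s, ContDiffAt ℝ k (fun z => α z s) z0) :
    ContDiffAt ℝ k (fun z => A.emb c (c.psi.symm z) (α z)) z0 := by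
  have hT : c.psi.target ∈ 𝓝 z0 := c.psi.open_target.mem_nhds hz
  rw [contDiffAt_euclidean]
  intro q
  have h1 : (fun z => A.emb c (c.psi.symm z) (α z) q) = fun z =>
      ∑ s, A.Bm c (c.psi.symm z) s q * α z s := by
    funext z
    rfl
  rw [h1]
  exact ContDiffAt.sum fun s _ => (((hB s q).contDiffAt hT).of_le hk).mul (hα s)

end emb

/-- `C^1` at a point implies `C^1` nearby. -/
theorem G4b_near (ck : claimCk) {X : Type} [TopologicalSpace X] [ChartedSpace E4 X]
    [IsManifold (𝓡 4) ∞ X] {W : Type} [NormedAddCommGroup W] [NormedSpace ℝ W] (k : ℕ)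
    (u : X → W) {psi : OpenPartialHomeomorph X E4} (hpsi : psi ∈ SmCh X) {x : X}
    (hx : x ∈ psi.source) (hu : CkAt k u x) :
    ∀ᶠ z in 𝓝 (psi x), z ∈ psi.target ∧ CkAt k u (psi.symm z) := by
  have hk : ((k : ℕ) : WithTop ℕ∞) ≤ ∞ := by exact_mod_cast le_top
  have h1 := (hu psi hpsi hx).eventually (by simp)
  filter_upwards [h1, psi.open_target.mem_nhds (psi.map_source hx)] with z hz hT
  refine ⟨hT, (ck X W k u hk).2 psi hpsi (psi.symm z) (psi.map_target hT) ?_⟩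
  rw [psi.right_inv hT]
  exact hz

theorem G4b_mono {X : Type} [TopologicalSpace X] [ChartedSpace E4 X] {W : Type}
    [NormedAddCommGroup W] [NormedSpace ℝ W] {k k' : WithTop ℕ∞} (h : k ≤ k') {u : X → W} {x : X}
    (hu : CkAt k' u x) : CkAt k u x := fun psi hpsi hx => (hu psi hpsi hx).of_le h

/-- The operators in the chart near the point. -/
theorem G4b_chart (h1 : claimOpV1) (ck : claimCk) {X : Type} [TopologicalSpace X] [T2Space X]
    [CompactSpace X] [ChartedSpace E4 X] [IsManifold (𝓡 4) ∞ X] (hO : OrientedAtlas X)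
    {g : Metric X} {n : ℕ} (A : FAtlas X g n) (c : FChart X g) (u : X → VV n) (x : X)
    (hx : x ∈ c.psi.source) (hu : CkAt 1 u x) :
    ∀ᶠ z in 𝓝 (c.psi x), z ∈ c.psi.target ∧
      A.dirV u (c.psi.symm z) = A.emb c (c.psi.symm z) (diracC c.G c.f (A.loc c u) z) ∧
      A.dV u (c.psi.symm z) = A.emb c (c.psi.symm z) (dFC c.G c.f (A.loc c u) z) ∧
      A.delV u (c.psi.symm z) = A.emb c (c.psi.symm z) (delFC c.G c.f (A.loc c u) z) ∧
      A.loc c (A.dirV u) z = diracC c.G c.f (A.loc c u) z ∧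
      A.loc c (A.dV u) z = dFC c.G c.f (A.loc c u) z ∧
      A.loc c (A.delV u) z = delFC c.G c.f (A.loc c u) z := by
  have hu1 : CkAt ((1 : ℕ) : WithTop ℕ∞) u x := by rw [Nat.cast_one]; exact hu
  filter_upwards [G4b_near ck 1 u c.sm hx hu1] with z hz
  obtain ⟨hT, hz1⟩ := hz
  rw [Nat.cast_one] at hz1
  obtain ⟨a1, a2, a3, a4, a5, a6⟩ :=
    h1 X hO g n A u (c.psi.symm z) hz1 c (c.psi.map_target hT)
  rw [c.psi.right_inv hT] at a1 a2 a3 a4 a5 a6
  exact ⟨hT, a1, a2, a3, a4, a5, a6⟩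

/-- Regularity of the operators. -/
theorem G4b_regV (h1 : claimOpV1) (he : claimEmb) (f3 : claimFC3) (ck : claimCk) {X : Type}
    [TopologicalSpace X] [T2Space X] [CompactSpace X] [ChartedSpace E4 X] [IsManifold (𝓡 4) ∞ X]
    (hO : OrientedAtlas X) {g : Metric X} {n : ℕ} (A : FAtlas X g n) (u : X → VV n) (x : X)
    (k : ℕ) (hu : CkAt (k + 1) u x) :
    CkAt k (A.dirV u) x ∧ CkAt k (A.dV u) x ∧ CkAt k (A.delV u) x := by
  have hk : ((k : ℕ) : WithTop ℕ∞) ≤ ∞ := by exact_mod_cast le_top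
  have hk1 : ((k : WithTop ℕ∞) + 1) ≤ ∞ := by exact_mod_cast le_top
  have hx := G4b_cx_mem A x
  set c := A.cx x with hc
  have hT := c.psi.map_source hx
  obtain ⟨e1, -⟩ := he X hO g n A
  have hB := (e1 c).2.1
  have near := G4b_chart h1 ck hO A c u x hx (G4b_mono le_add_self hu)
  have hl := G4b_loc_reg A c hB hT hk1 u (hu c.psi c.sm hx)
  have hr := G4b_reg f3 c.frame hT k hl
  refine ⟨?_, ?_, ?_⟩
  · refine (ck X _ k _ hk).2 c.psi c.sm x hx ?_
    refine (G4b_emb_reg A c hB hT hk _ (fun s => (hr s).1)).congr_of_eventuallyEq ?_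
    filter_upwards [near] with z hz
    exact hz.2.1
  · refine (ck X _ k _ hk).2 c.psi c.sm x hx ?_
    refine (G4b_emb_reg A c hB hT hk _ (fun s => (hr s).2.1)).congr_of_eventuallyEq ?_
    filter_upwards [near] with z hz
    exact hz.2.2.1
  · refine (ck X _ k _ hk).2 c.psi c.sm x hx ?_
    refine (G4b_emb_reg A c hB hT hk _ (fun s => (hr s).2.2)).congr_of_eventuallyEq ?_
    filter_upwards [near] with z hz
    exact hz.2.2.2.1

/-- G4b: first properties of `d`, `δ`, `D` on the trivial bundle. -/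
theorem thm_OpV (h1 : claimOpV1) (he : claimEmb) (dg : claimDegD) (f3 : claimFC3)
    (ck : claimCk) : claimOpV := by
  intro X _ _ _ _ _ hO g n A u x hu
  obtain ⟨e1, ⟨i1, iE, iG, iP⟩, e3, -⟩ := he X hO g n A
  have hx := G4b_cx_mem A x
  have hT := (A.cx x).psi.map_source hx
  have hB1 := (e1 (A.cx x)).1 x hx
  have hB2 := (e1 (A.cx x)).2.1
  have hL : (A.cx x).psi.symm ((A.cx x).psi x) = x := (A.cx x).psi.left_inv hx
  have le1 : (1 : WithTop ℕ∞) ≤ ∞ := by exact_mod_cast le_top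
  have dif : ∀ v : X → VV n, CkAt 1 v x → ∀ s,
      DifferentiableAt ℝ (fun z => A.loc (A.cx x) v z s) ((A.cx x).psi x) := fun v hv s =>
    (G4b_loc_reg A (A.cx x) hB2 hT le1 v (hv _ (A.cx x).sm hx) s).differentiableAt one_ne_zero
  have locM : ∀ M, LamInv M → ∀ v : X → VV n, ∀ᶠ z in 𝓝 ((A.cx x).psi x),
      A.loc (A.cx x) (fun y => A.mulV M y (v y)) z = M.mulVec (A.loc (A.cx x) v z) := by
    intro M hM v
    filter_upwards [(A.cx x).psi.open_target.mem_nhds hT] with z hz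
    have := ((e3 M hM).1 (A.cx x) ((A.cx x).psi.symm z) ((A.cx x).psi.map_target hz)).2 v
    rwa [(A.cx x).psi.right_inv hz] at this
  have mulE : ∀ M, LamInv M → ∀ α, A.mulV M x (A.emb (A.cx x) x α) =
      A.emb (A.cx x) x (M.mulVec α) := by
    intro M hM α
    rw [((e3 M hM).1 (A.cx x) x hx).1, G4b_clm_emb A (A.cx x) x M hB1]
  have pE : ∀ α, A.pV x (A.emb (A.cx x) x α) = A.emb (A.cx x) x α := by
    intro α
    have := mulE 1 i1 α
    rwa [Matrix.one_mulVec] at this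
  have locP : ∀ v : X → VV n, ∀ᶠ z in 𝓝 ((A.cx x).psi x),
      A.loc (A.cx x) (fun y => A.pV y (v y)) z = A.loc (A.cx x) v z := by
    intro v
    filter_upwards [locM 1 i1 v] with z hz
    rw [Matrix.one_mulVec] at hz
    exact hz
  have regV := fun k hk => G4b_regV h1 he f3 ck hO A u x k hk
  refine ⟨h1 X hO g n A u x hu, ?_, pE _, pE _, pE _, ?_, ?_, ?_, ?_, ?_, regV, ?_, ?_, ?_, ?_,
    ?_, ?_, ?_⟩
  · unfold FAtlas.dirV FAtlas.dV FAtlas.delV
    rw [show diracC (A.cx x).G (A.cx x).f (A.loc (A.cx x) u) ((A.cx x).psi x) = _ from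
      (f3 _ _ _ (A.cx x).frame).2.1 _ _, G4b_emb_add]
    rfl
  · unfold FAtlas.dirV
    rw [(G4b_congr (locP u)).1]
  · unfold FAtlas.dV
    rw [(G4b_congr (locP u)).2.1]
  · unfold FAtlas.delV
    rw [(G4b_congr (locP u)).2.2]
  · intro v hv
    have h2 : A.loc (A.cx x) (fun y => u y + v y) = fun z => A.loc (A.cx x) u z +
        A.loc (A.cx x) v z := funext fun z => G4b_loc_add A (A.cx x) u v z
    obtain ⟨a1, a2, a3⟩ := G4b_add (G := (A.cx x).G) (f := (A.cx x).f) (dif u hu) (dif v hv)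
    unfold FAtlas.dirV FAtlas.dV FAtlas.delV
    rw [h2, a1, a2, a3, G4b_emb_add, G4b_emb_add, G4b_emb_add]
    exact ⟨rfl, rfl, rfl⟩
  · intro r
    have h2 : A.loc (A.cx x) (fun y => r • u y) = fun z => r • A.loc (A.cx x) u z :=
      funext fun z => G4b_loc_smul A (A.cx x) r u z
    obtain ⟨a1, a2, a3⟩ := G4b_smul (G := (A.cx x).G) (f := (A.cx x).f) (dif u hu) r
    unfold FAtlas.dirV FAtlas.dV FAtlas.delV
    rw [h2, a1, a2, a3, G4b_emb_smul, G4b_emb_smul, G4b_emb_smul]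
    exact ⟨rfl, rfl, rfl⟩
  · intro h8
    have h9 : ∀ k : ℕ, CkAt k (A.dirV u) x ∧ CkAt k (A.dV u) x ∧ CkAt k (A.delV u) x :=
      fun k => regV k (G4b_mono (by exact_mod_cast le_top) h8)
    refine ⟨fun psi hpsi hxp => contDiffAt_infty.2 fun k => (h9 k).1 psi hpsi hxp,
      fun psi hpsi hxp => contDiffAt_infty.2 fun k => (h9 k).2.1 psi hpsi hxp,
      fun psi hpsi hxp => contDiffAt_infty.2 fun k => (h9 k).2.2 psi hpsi hxp⟩
  · intro h8
    have le2 : (2 : WithTop ℕ∞) ≤ ∞ := by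
      have : ((2 : ℕ∞) : WithTop ℕ∞) ≤ ((⊤ : ℕ∞) : WithTop ℕ∞) := WithTop.coe_le_coe.2 le_top
      exact this
    have hr := G4b_loc_reg A (A.cx x) hB2 hT le2 u (h8 _ (A.cx x).sm hx)
    have near := G4b_chart h1 ck hO A (A.cx x) u x hx hu
    obtain ⟨d1, d2, -⟩ := (f3 _ _ _ (A.cx x).frame).2.2 (A.loc (A.cx x) u) _ hT hr
    constructor
    · change A.emb (A.cx x) x (dFC (A.cx x).G (A.cx x).f (A.loc (A.cx x) (A.dV u))
        ((A.cx x).psi x)) = 0
      rw [(G4b_congr (near.mono fun z hz => hz.2.2.2.2.2.1)).2.1]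
      rw [show dFC (A.cx x).G (A.cx x).f (dFC (A.cx x).G (A.cx x).f
        (A.loc (A.cx x) u)) ((A.cx x).psi x) = 0 from d1, G4b_emb_zero]
    · change A.emb (A.cx x) x (delFC (A.cx x).G (A.cx x).f (A.loc (A.cx x) (A.delV u))
        ((A.cx x).psi x)) = 0
      rw [(G4b_congr (near.mono fun z hz => hz.2.2.2.2.2.2)).2.2]
      rw [show delFC (A.cx x).G (A.cx x).f (delFC (A.cx x).G (A.cx x).f
        (A.loc (A.cx x) u)) ((A.cx x).psi x) = 0 from d2, G4b_emb_zero]
  · intro k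
    obtain ⟨a1, -⟩ := dg _ _ _ (A.cx x).frame (A.loc (A.cx x) u) _ hT (dif u hu)
    unfold FAtlas.dV
    rw [(G4b_congr (locM _ (iP k) u)).2.1]
    rw [show dFC (A.cx x).G (A.cx x).f (fun z => (degP ℝ k).mulVec (A.loc (A.cx x) u z))
      ((A.cx x).psi x) = _ from a1 k, mulE _ (iP (k + 1))]
    rfl
  · obtain ⟨-, -, -, -, -, a1⟩ := dg _ _ _ (A.cx x).frame (A.loc (A.cx x) u) _ hT (dif u hu)
    unfold FAtlas.dirV
    rw [(G4b_congr (locM _ iE u)).1]
    rw [show diracC (A.cx x).G (A.cx x).f (fun z => (evenOdd ℝ).mulVec (A.loc (A.cx x) u z))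
      ((A.cx x).psi x) = _ from a1, mulE _ iE, G4b_emb_neg]
    rfl
  · obtain ⟨-, -, -, -, a1, -⟩ := dg _ _ _ (A.cx x).frame (A.loc (A.cx x) u) _ hT (dif u hu)
    unfold FAtlas.dirV
    rw [(G4b_congr (locM _ iG u)).1]
    rw [show diracC (A.cx x).G (A.cx x).f (fun z => (gam ℝ).mulVec (A.loc (A.cx x) u z))
      ((A.cx x).psi x) = _ from a1, mulE _ iG, G4b_emb_neg]
    rfl
  · obtain ⟨-, -, a1, -⟩ := dg _ _ _ (A.cx x).frame (A.loc (A.cx x) u) _ hT (dif u hu)
    unfold FAtlas.dV FAtlas.delV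
    rw [(G4b_congr (locM _ iG u)).2.1]
    rw [show dFC (A.cx x).G (A.cx x).f (fun z => (gam ℝ).mulVec (A.loc (A.cx x) u z))
      ((A.cx x).psi x) = _ from a1, mulE _ iG, G4b_emb_neg]
    rfl
  · obtain ⟨-, -, -, a1, -⟩ := dg _ _ _ (A.cx x).frame (A.loc (A.cx x) u) _ hT (dif u hu)
    unfold FAtlas.dV FAtlas.delV
    rw [(G4b_congr (locM _ iG u)).2.2]
    rw [show delFC (A.cx x).G (A.cx x).f (fun z => (gam ℝ).mulVec (A.loc (A.cx x) u z))
      ((A.cx x).psi x) = _ from a1, mulE _ iG, G4b_emb_neg]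
    rfl

end NRF

end
end

section

/-!
# Module D, item G6': the operator `LV` in the first chart, where `rho 0 = 1`
-/

open scoped Manifold ContDiff Topology RealInnerProductSpace
open MeasureTheory Set

noncomputable section

namespace NRF

/-! ### Locality -/

theorem G6p_pd_congr {F : Type*} [NormedAddCommGroup F] [NormedSpace ℝ F] {f g : E4 → F} {z : E4}
    (h : f =ᶠ[𝓝 z] g) (i : Fin 4) : pd i f z = pd i g z := by
  unfold pd
  rw [h.fderiv_eq]

theorem G6p_pd_congr' {F : Type*} [NormedAddCommGroup F] [NormedSpace ℝ F] {f g : E4 → F} {z : E4}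
    (h : f =ᶠ[𝓝 z] g) (i : Fin 4) : pd i f =ᶠ[𝓝 z] pd i g := by
  filter_upwards [h.eventuallyEq_nhds] with y hy
  exact G6p_pd_congr hy i

theorem G6p_nabC_congr {G f : E4 → Matrix (Fin 4) (Fin 4) ℝ} {α β : E4 → Lam → ℝ} {z : E4}
    (h : α =ᶠ[𝓝 z] β) (i : Fin 4) : nabC G f i α z = nabC G f i β z := by
  unfold nabC
  rw [h.eq_of_nhds]
  congr 1
  funext s
  refine G6p_pd_congr ?_ i
  filter_upwards [h] with y hy
  rw [hy]

theorem G6p_diracC_congr {G f : E4 → Matrix (Fin 4) (Fin 4) ℝ} {α β : E4 → Lam → ℝ} {z : E4}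
    (h : α =ᶠ[𝓝 z] β) : diracC G f α z = diracC G f β z := by
  unfold diracC
  refine Finset.sum_congr rfl fun i _ => Finset.sum_congr rfl fun a _ => ?_
  rw [G6p_nabC_congr h i]

theorem G6p_laplC_congr {G : E4 → Matrix (Fin 4) (Fin 4) ℝ} {u v : E4 → ℝ} {z : E4}
    (h : u =ᶠ[𝓝 z] v) : laplC G u z = laplC G v z := by
  unfold laplC hessC
  refine Finset.sum_congr rfl fun i _ => Finset.sum_congr rfl fun j _ => ?_
  rw [G6p_pd_congr (G6p_pd_congr' h j) i]
  congr 2
  exact Finset.sum_congr rfl fun k _ => by rw [G6p_pd_congr h k]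

/-! ### Components -/

theorem G6p_pd_comp {n : ℕ} {u : E4 → VV n} {z : E4} (hu : DifferentiableAt ℝ u z) (i : Fin 4)
    (q : Fin (n + 1) × Lam) : (pd i u z) q = pd i (fun y => u y q) z := by
  have h := (((EuclideanSpace.proj q : VV n →L[ℝ] ℝ).hasFDerivAt (x := u z)).comp z
    hu.hasFDerivAt).fderiv
  unfold pd
  have h2 : fderiv ℝ (fun y => u y q) z = (EuclideanSpace.proj q : VV n →L[ℝ] ℝ).comp
    (fderiv ℝ u z) := h
  rw [h2]
  rfl

theorem G6p_blk {n : ℕ} (M : Matrix Lam Lam ℝ) (v : VV n) (q : Fin (n + 1) × Lam) :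
    blk n M v q = if q.1 = 0 then M.mulVec (fun s => v (0, s)) q.2 else 0 := by
  unfold blk
  show (Matrix.mulVec _ (WithLp.ofLp v)) q = _
  simp only [Matrix.mulVec, dotProduct, Matrix.of_apply]
  rw [Fintype.sum_prod_type, Finset.sum_eq_single (0 : Fin (n + 1))]
  · by_cases hq : q.1 = 0
    · simp only [hq, and_self, if_true]
    · simp only [hq, false_and, if_false, zero_mul, Finset.sum_const_zero]
  · intro b _ hb
    refine Finset.sum_eq_zero fun s _ => ?_
    simp only [hb, and_false, if_false, zero_mul]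
  · intro h
    exact absurd (Finset.mem_univ _) h

/-- The first block. -/
def G6p_b0 {n : ℕ} (u : E4 → VV n) (z : E4) : Lam → ℝ := fun s => u z (0, s)

theorem G6p_nabB0 {n : ℕ} {G f : E4 → Matrix (Fin 4) (Fin 4) ℝ} {u : E4 → VV n} {z : E4}
    (hu : DifferentiableAt ℝ u z) (i : Fin 4) :
    (fun s => nabB G f i u z (0, s)) = nabC G f i (G6p_b0 u) z := by
  funext s
  unfold nabB nabC
  show (pd i u z) (0, s) + blk n (rho (omC G f i z)) (u z) (0, s) = _
  rw [G6p_pd_comp hu, G6p_blk, if_pos rfl]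
  rfl

theorem G6p_nabBj {n : ℕ} {G f : E4 → Matrix (Fin 4) (Fin 4) ℝ} {u : E4 → VV n} {z : E4}
    (hu : DifferentiableAt ℝ u z) (i : Fin 4) (q : Fin (n + 1) × Lam) (hq : q.1 ≠ 0) :
    nabB G f i u z q = pd i (fun y => u y q) z := by
  unfold nabB
  show (pd i u z) q + blk n (rho (omC G f i z)) (u z) q = _
  rw [G6p_pd_comp hu, G6p_blk, if_neg hq, add_zero]

theorem G6p_pd_contDiff {F : Type*} [NormedAddCommGroup F] [NormedSpace ℝ F] {u : E4 → F} {z : E4}
    (hu : ContDiffAt ℝ 2 u z) (i : Fin 4) : ContDiffAt ℝ 1 (pd i u) z := by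
  have h : ContDiffAt ℝ 1 (fderiv ℝ u) z := hu.fderiv_right (m := 1) (by norm_num)
  exact h.clm_apply contDiffAt_const

theorem G6p_rho {om : E4 → Matrix (Fin 4) (Fin 4) ℝ} {z : E4} {k : WithTop ℕ∞}
    (h : ∀ a b, ContDiffAt ℝ k (fun y => om y a b) z) (s t : Lam) :
    ContDiffAt ℝ k (fun y => rho (om y) s t) z := by
  unfold rho
  simp only [Matrix.sum_apply, Matrix.smul_apply, smul_eq_mul]
  refine ContDiffAt.sum fun a _ => ContDiffAt.sum fun b _ => ?_
  exact (h a b).mul contDiffAt_const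

theorem G6p_nabC_contDiff {G f : E4 → Matrix (Fin 4) (Fin 4) ℝ} {α : E4 → Lam → ℝ} {z : E4}
    (hom : ∀ i a b, ContDiffAt ℝ 1 (fun y => omC G f i y a b) z)
    (hα : ∀ s, ContDiffAt ℝ 2 (fun y => α y s) z) (i : Fin 4) (s : Lam) :
    ContDiffAt ℝ 1 (fun y => nabC G f i α y s) z := by
  unfold nabC
  show ContDiffAt ℝ 1 (fun y => pd i (fun z => α z s) y +
    ∑ t, rho (omC G f i y) s t * α y t) z
  refine (G6p_pd_contDiff (hα s) i).add (ContDiffAt.sum fun t _ => ?_)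
  exact (G6p_rho (hom i) s t).mul ((hα t).of_le (by norm_num))

theorem G6p_diracC_contDiff {G f : E4 → Matrix (Fin 4) (Fin 4) ℝ} {α : E4 → Lam → ℝ} {z : E4}
    (hf : ∀ i a, ContDiffAt ℝ 1 (fun y => f y i a) z)
    (hom : ∀ i a b, ContDiffAt ℝ 1 (fun y => omC G f i y a b) z)
    (hα : ∀ s, ContDiffAt ℝ 2 (fun y => α y s) z) (s : Lam) :
    ContDiffAt ℝ 1 (fun y => diracC G f α y s) z := by
  unfold diracC
  simp only [Finset.sum_apply, Pi.smul_apply, smul_eq_mul]
  refine ContDiffAt.sum fun i _ => ContDiffAt.sum fun a _ => (hf i a).mul ?_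
  show ContDiffAt ℝ 1 (fun y => ∑ t, clf ℝ a s t * nabC G f i α y t) z
  exact ContDiffAt.sum fun t _ => contDiffAt_const.mul (G6p_nabC_contDiff hom hα i t)

theorem G6p_nabB_contDiff {n : ℕ} {G f : E4 → Matrix (Fin 4) (Fin 4) ℝ} {u : E4 → VV n} {z : E4}
    (hom : ∀ i a b, ContDiffAt ℝ 1 (fun y => omC G f i y a b) z)
    (hu : ContDiffAt ℝ 2 u z) (i : Fin 4) : DifferentiableAt ℝ (nabB G f i u) z := by
  have h1 : ∀ᶠ y in 𝓝 z, DifferentiableAt ℝ u y := by
    filter_upwards [hu.eventually (by norm_num)] with y hy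
    exact hy.differentiableAt (by norm_num)
  have hα : ∀ q, ContDiffAt ℝ 2 (fun y => u y q) z := fun q =>
    (EuclideanSpace.proj q : VV n →L[ℝ] ℝ).contDiff.contDiffAt.comp z hu
  have h2 : ContDiffAt ℝ 1 (nabB G f i u) z := by
    rw [contDiffAt_euclidean]
    intro q
    by_cases hq : q.1 = 0
    · have h3 : (fun y => nabB G f i u y q) =ᶠ[𝓝 z] fun y => nabC G f i (G6p_b0 u) y q.2 := by
        filter_upwards [h1] with y hy
        have := congrFun (G6p_nabB0 (G := G) (f := f) hy i) q.2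
        rw [← this]
        obtain ⟨q1, q2⟩ := q
        simp only at hq
        subst hq
        rfl
      exact (G6p_nabC_contDiff hom (fun s => hα (0, s)) i q.2).congr_of_eventuallyEq h3
    · have h3 : (fun y => nabB G f i u y q) =ᶠ[𝓝 z] fun y => pd i (fun y => u y q) y := by
        filter_upwards [h1] with y hy
        exact G6p_nabBj hy i q hq
      exact (G6p_pd_contDiff (hα q) i).congr_of_eventuallyEq h3
  exact h2.differentiableAt (by norm_num)

/-! ### The operator in Euclidean terms -/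

/-- The right hand side of the claim, first block. -/
theorem G6p_rhs0 {n : ℕ} {G f : E4 → Matrix (Fin 4) (Fin 4) ℝ} {u : E4 → VV n} {z : E4}
    (hom : ∀ i a b, ContDiffAt ℝ 1 (fun y => omC G f i y a b) z) (hu : ContDiffAt ℝ 2 u z)
    (k l : Fin 4) (s : Lam) :
    nabB G f k (nabB G f l u) z (0, s) = nabC G f k (nabC G f l (G6p_b0 u)) z s := by
  have h1 : ∀ᶠ y in 𝓝 z, DifferentiableAt ℝ u y := by
    filter_upwards [hu.eventually (by norm_num)] with y hy
    exact hy.differentiableAt (by norm_num)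
  have h2 := congrFun (G6p_nabB0 (G := G) (f := f) (G6p_nabB_contDiff hom hu l) k) s
  rw [h2]
  have h3 : G6p_b0 (nabB G f l u) =ᶠ[𝓝 z] nabC G f l (G6p_b0 u) := by
    filter_upwards [h1] with y hy
    exact G6p_nabB0 hy l
  rw [G6p_nabC_congr h3 k]

theorem G6p_rhsj {n : ℕ} {G f : E4 → Matrix (Fin 4) (Fin 4) ℝ} {u : E4 → VV n} {z : E4}
    (hom : ∀ i a b, ContDiffAt ℝ 1 (fun y => omC G f i y a b) z) (hu : ContDiffAt ℝ 2 u z)
    (k l : Fin 4) (q : Fin (n + 1) × Lam) (hq : q.1 ≠ 0) :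
    nabB G f k (nabB G f l u) z q = pd k (pd l fun y => u y q) z := by
  have h1 : ∀ᶠ y in 𝓝 z, DifferentiableAt ℝ u y := by
    filter_upwards [hu.eventually (by norm_num)] with y hy
    exact hy.differentiableAt (by norm_num)
  rw [G6p_nabBj (G6p_nabB_contDiff hom hu l) k q hq]
  refine G6p_pd_congr ?_ k
  filter_upwards [h1] with y hy
  exact G6p_nabBj hy l q hq

/-! ### The atlas near the point -/

section

variable {X : Type} [TopologicalSpace X] [ChartedSpace E4 X] {g : Metric X} {n : ℕ}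

theorem G6p_mem (A : FAtlas X g n) {δ : ℝ} (hδ : δ ≤ 1) {z : E4} (hz : ‖z‖ < δ) :
    z ∈ (A.c 0).psi.target :=
  A.ball 0 (mem_closedBall_zero_iff.2 (by linarith))

theorem G6p_rhoX (A : FAtlas X g n) {δ : ℝ} (hδ : δ ≤ 1)
    (hρ : ∀ z : E4, ‖z‖ < δ → A.rho 0 z = 1) {z : E4} (hz : ‖z‖ < δ) (j : Fin (n + 1)) :
    A.rhoX j ((A.c 0).psi.symm z) = if j = 0 then 1 else 0 := by
  have hzt := G6p_mem A hδ hz
  have hxs : (A.c 0).psi.symm z ∈ (A.c 0).psi.source := (A.c 0).psi.map_target hzt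
  have h0 : A.rhoX 0 ((A.c 0).psi.symm z) = 1 := by
    unfold FAtlas.rhoX
    rw [Set.indicator_of_mem hxs, (A.c 0).psi.right_inv hzt]
    exact hρ z hz
  by_cases hj : j = 0
  · rw [if_pos hj, hj, h0]
  · rw [if_neg hj]
    have h1 := A.rho_sum ((A.c 0).psi.symm z)
    have h2 : ∀ i, (A.c i).psi.source.indicator (fun x => A.rho i ((A.c i).psi x) ^ 2)
        ((A.c 0).psi.symm z) = A.rhoX i ((A.c 0).psi.symm z) ^ 2 := by
      intro i
      unfold FAtlas.rhoX
      by_cases hi : (A.c 0).psi.symm z ∈ (A.c i).psi.source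
      · rw [Set.indicator_of_mem hi, Set.indicator_of_mem hi]
      · rw [Set.indicator_of_notMem hi, Set.indicator_of_notMem hi]
        norm_num
    simp only [h2] at h1
    rw [← Finset.add_sum_erase Finset.univ _ (Finset.mem_univ (0 : Fin (n + 1))), h0] at h1
    have h3 : ∑ i ∈ Finset.univ.erase (0 : Fin (n + 1)), A.rhoX i ((A.c 0).psi.symm z) ^ 2 = 0 := by
      linarith
    have h4 := (Finset.sum_eq_zero_iff_of_nonneg (fun i _ => sq_nonneg _)).1 h3 j
      (Finset.mem_erase.2 ⟨hj, Finset.mem_univ j⟩)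
    exact pow_eq_zero_iff (two_ne_zero) |>.1 h4

theorem G6p_Bm (A : FAtlas X g n) (hO : ∀ x ∈ (A.c 0).psi.source, (A.c 0).O (A.c 0) x = 1)
    (hL : LamM (1 : Matrix (Fin 4) (Fin 4) ℝ) = 1) {δ : ℝ} (hδ : δ ≤ 1)
    (hρ : ∀ z : E4, ‖z‖ < δ → A.rho 0 z = 1) {z : E4} (hz : ‖z‖ < δ) :
    A.Bm (A.c 0) ((A.c 0).psi.symm z) =
      Matrix.of fun s q => if q.1 = 0 then (1 : Matrix Lam Lam ℝ) s q.2 else 0 := by
  have hzt := G6p_mem A hδ hz
  have hxs : (A.c 0).psi.symm z ∈ (A.c 0).psi.source := (A.c 0).psi.map_target hzt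
  ext s q
  unfold FAtlas.Bm
  simp only [Matrix.of_apply]
  rw [G6p_rhoX A hδ hρ hz]
  by_cases hq : q.1 = 0
  · rw [if_pos hq, if_pos hq, hq, hO _ hxs, hL, one_mul]
  · rw [if_neg hq, if_neg hq, zero_mul]

theorem G6p_loc (A : FAtlas X g n) (hO : ∀ x ∈ (A.c 0).psi.source, (A.c 0).O (A.c 0) x = 1)
    (hL : LamM (1 : Matrix (Fin 4) (Fin 4) ℝ) = 1) {δ : ℝ} (hδ : δ ≤ 1)
    (hρ : ∀ z : E4, ‖z‖ < δ → A.rho 0 z = 1) {z : E4} (hz : ‖z‖ < δ) (w : X → VV n) :
    A.loc (A.c 0) w z = fun s => w ((A.c 0).psi.symm z) (0, s) := by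
  unfold FAtlas.loc
  rw [G6p_Bm A hO hL hδ hρ hz]
  funext s
  simp only [Matrix.mulVec, dotProduct, Matrix.of_apply]
  rw [Fintype.sum_prod_type, Finset.sum_eq_single (0 : Fin (n + 1))]
  · simp only [if_true]
    rw [Finset.sum_eq_single s]
    · rw [Matrix.one_apply_eq, one_mul]
    · intro b _ hb
      rw [Matrix.one_apply_ne hb.symm, zero_mul]
    · intro h
      exact absurd (Finset.mem_univ _) h
  · intro b _ hb
    refine Finset.sum_eq_zero fun t _ => ?_
    simp only [hb, if_false, zero_mul]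
  · intro h
    exact absurd (Finset.mem_univ _) h

theorem G6p_emb (A : FAtlas X g n) (hO : ∀ x ∈ (A.c 0).psi.source, (A.c 0).O (A.c 0) x = 1)
    (hL : LamM (1 : Matrix (Fin 4) (Fin 4) ℝ) = 1) {δ : ℝ} (hδ : δ ≤ 1)
    (hρ : ∀ z : E4, ‖z‖ < δ → A.rho 0 z = 1) {z : E4} (hz : ‖z‖ < δ) (a : Lam → ℝ)
    (q : Fin (n + 1) × Lam) :
    A.emb (A.c 0) ((A.c 0).psi.symm z) a q = if q.1 = 0 then a q.2 else 0 := by
  unfold FAtlas.emb
  rw [G6p_Bm A hO hL hδ hρ hz]
  show (Matrix.mulVec _ a) q = _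
  simp only [Matrix.mulVec, dotProduct, Matrix.of_apply, Matrix.transpose_apply]
  by_cases hq : q.1 = 0
  · simp only [hq, if_true]
    rw [Finset.sum_eq_single q.2]
    · rw [Matrix.one_apply_eq, one_mul]
    · intro b _ hb
      rw [Matrix.one_apply_ne hb, zero_mul]
    · intro h
      exact absurd (Finset.mem_univ _) h
  · simp only [hq, if_false, zero_mul, Finset.sum_const_zero]

theorem G6p_blk_eq (A : FAtlas X g n) (hO : ∀ x ∈ (A.c 0).psi.source, (A.c 0).O (A.c 0) x = 1)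
    (hL : LamM (1 : Matrix (Fin 4) (Fin 4) ℝ) = 1) {δ : ℝ} (hδ : δ ≤ 1)
    (hρ : ∀ z : E4, ‖z‖ < δ → A.rho 0 z = 1) {z : E4} (hz : ‖z‖ < δ) (M : Matrix Lam Lam ℝ) :
    Matrix.toEuclideanCLM (𝕜 := ℝ) ((A.Bm (A.c 0) ((A.c 0).psi.symm z)).transpose * M *
      A.Bm (A.c 0) ((A.c 0).psi.symm z)) = blk n M := by
  unfold blk
  congr 1
  rw [G6p_Bm A hO hL hδ hρ hz]
  ext p q
  rw [Matrix.mul_assoc, Matrix.mul_apply]
  simp only [Matrix.transpose_apply, Matrix.of_apply, Matrix.mul_apply]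
  by_cases hp : p.1 = 0
  · by_cases hq : q.1 = 0
    · simp only [hp, hq, if_true, and_self]
      rw [Finset.sum_eq_single p.2]
      · rw [Matrix.one_apply_eq, one_mul, Finset.sum_eq_single q.2]
        · rw [Matrix.one_apply_eq, mul_one]
        · intro b _ hb
          rw [Matrix.one_apply_ne hb, mul_zero]
        · intro h
          exact absurd (Finset.mem_univ _) h
      · intro b _ hb
        rw [Matrix.one_apply_ne hb, zero_mul]
      · intro h
        exact absurd (Finset.mem_univ _) h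
    · simp only [hq, if_false, and_false, mul_zero, Finset.sum_const_zero]
  · simp only [hp, if_false, false_and, zero_mul, Finset.sum_const_zero]

end

theorem thm_LocV0 (h : claimOpV1) (he : claimEmb) (hf : claimFCh) (f2 : claimFC2) (f3 : claimFC3)
    (n2 : claimN2) (ck : claimCk) : claimLocV0 := by
  intro X _ _ _ _ _ hor g n A δ hδ0 hδ hρ z hz
  have hO : ∀ x ∈ (A.c 0).psi.source, (A.c 0).O (A.c 0) x = 1 :=
    (hf X hor g (A.c 0) (A.c 0)).2.1
  have hzt := G6p_mem A hδ hz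
  have hxs : (A.c 0).psi.symm z ∈ (A.c 0).psi.source := (A.c 0).psi.map_target hzt
  obtain ⟨e1, -, e3, -⟩ := he X hor g n A
  have hL : LamM (1 : Matrix (Fin 4) (Fin 4) ℝ) = 1 := by
    obtain ⟨e11, -, e13⟩ := e1 (A.c 0)
    have h1 := e13 (A.c 0) _ ⟨hxs, hxs⟩
    rw [hO _ hxs] at h1
    have h2 := congrArg (fun M => M * (A.Bm (A.c 0) ((A.c 0).psi.symm z)).transpose) h1
    rw [Matrix.mul_assoc, e11 _ hxs, Matrix.mul_one] at h2
    exact h2.symm
  have hmul : ∀ z : E4, ‖z‖ < δ → ∀ M, LamInv M → A.mulV M ((A.c 0).psi.symm z) = blk n M := by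
    intro z hz M hM
    have hxs : (A.c 0).psi.symm z ∈ (A.c 0).psi.source :=
      (A.c 0).psi.map_target (G6p_mem A hδ hz)
    rw [((e3 M hM).1 (A.c 0) _ hxs).1, G6p_blk_eq A hO hL hδ hρ hz]
  refine ⟨hmul z hz, fun u hu => ?_⟩
  have hL1 : LamInv 1 := (he X hor g n A).2.1.1
  set w : X → VV n := fun y => u ((A.c 0).psi y) with hw
  have hfr : FrameOn (A.c 0).psi.target (A.c 0).G (A.c 0).f := (A.c 0).frame
  have hto : IsOpen (A.c 0).psi.target := (A.c 0).psi.open_target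
  have htn : (A.c 0).psi.target ∈ 𝓝 z := hto.mem_nhds hzt
  -- smooth data
  have hfs : ∀ i a, ContDiffAt ℝ 1 (fun y => (A.c 0).f y i a) z := fun i a =>
    ((hfr.smooth i a).contDiffAt htn).of_le (by norm_num)
  have hom : ∀ i a b, ContDiffAt ℝ 1 (fun y => omC (A.c 0).G (A.c 0).f i y a b) z := fun i a b =>
    (((f2 _ _ _ hfr).1 i a b).contDiffAt htn).of_le (by norm_num)
  -- points near `z`
  have hball : ∀ᶠ y in 𝓝 z, ‖y‖ < δ := (isOpen_lt continuous_norm continuous_const).mem_nhds hz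
  have hws : ∀ y : E4, ‖y‖ < δ → w ((A.c 0).psi.symm y) = u y := by
    intro y hy
    show u ((A.c 0).psi ((A.c 0).psi.symm y)) = u y
    rw [(A.c 0).psi.right_inv (G6p_mem A hδ hy)]
  have hwu : ∀ z : E4, ‖z‖ < δ → (fun y => w ((A.c 0).psi.symm y)) =ᶠ[𝓝 z] u := by
    intro z hz
    filter_upwards [(isOpen_lt continuous_norm continuous_const).mem_nhds hz] with y hy
    exact hws y hy
  have hck : ∀ y : E4, ‖y‖ < δ → ∀ k : WithTop ℕ∞, k ≤ ∞ → ∀ v : X → VV n,
      ContDiffAt ℝ k (fun y => v ((A.c 0).psi.symm y)) y → CkAt k v ((A.c 0).psi.symm y) := by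
    intro y hy k hk v hv
    have hyt := G6p_mem A hδ hy
    refine (ck X (VV n) k v hk).2 (A.c 0).psi (A.c 0).sm _ ((A.c 0).psi.map_target hyt) ?_
    rw [(A.c 0).psi.right_inv hyt]
    exact hv
  have hα : ∀ q, ContDiffAt ℝ 2 (fun y => u y q) z := fun q =>
    (EuclideanSpace.proj q : VV n →L[ℝ] ℝ).contDiff.contDiffAt.comp z hu
  have hloc : A.loc (A.c 0) w =ᶠ[𝓝 z] G6p_b0 u := by
    filter_upwards [hball] with y hy
    rw [G6p_loc A hO hL hδ hρ hy, hws y hy]
    rfl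
  -- first application of `D`
  have hnear : ∀ᶠ y in 𝓝 z, ‖y‖ < δ ∧ ContDiffAt ℝ 1 u y := by
    filter_upwards [hball, (hu.of_le (m := 1) (by norm_num)).eventually (by norm_num)] with y hy hy'
    exact ⟨hy, hy'⟩
  have hD1 : ∀ᶠ y in 𝓝 z, A.dirV w ((A.c 0).psi.symm y) =
      A.emb (A.c 0) ((A.c 0).psi.symm y) (diracC (A.c 0).G (A.c 0).f (G6p_b0 u) y) ∧
      A.loc (A.c 0) (A.dirV w) y = diracC (A.c 0).G (A.c 0).f (G6p_b0 u) y := by
    filter_upwards [hnear, hloc.eventuallyEq_nhds] with y hy hly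
    have hyt := G6p_mem A hδ hy.1
    have hy1 : CkAt 1 w ((A.c 0).psi.symm y) :=
      hck y hy.1 1 (by norm_num) w (hy.2.congr_of_eventuallyEq (hwu y hy.1))
    obtain ⟨o1, -, -, o4, -, -⟩ := h X hor g n A w _ hy1 (A.c 0) ((A.c 0).psi.map_target hyt)
    rw [(A.c 0).psi.right_inv hyt] at o1 o4
    rw [G6p_diracC_congr hly] at o1 o4
    exact ⟨o1, o4⟩
  -- `D w` is `C¹`
  have hDC : CkAt 1 (A.dirV w) ((A.c 0).psi.symm z) := by
    refine hck z hz 1 (by norm_num) _ ?_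
    rw [contDiffAt_euclidean]
    intro q
    have h5 : (fun y => A.dirV w ((A.c 0).psi.symm y) q) =ᶠ[𝓝 z] fun y =>
        if q.1 = 0 then diracC (A.c 0).G (A.c 0).f (G6p_b0 u) y q.2 else 0 := by
      filter_upwards [hD1, hball] with y hy hyb
      rw [hy.1, G6p_emb A hO hL hδ hρ hyb]
    refine ContDiffAt.congr_of_eventuallyEq ?_ h5
    by_cases hq : q.1 = 0
    · simp only [hq, if_true]
      exact G6p_diracC_contDiff hfs hom (fun s => hα (0, s)) q.2
    · simp only [hq, if_false]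
      exact contDiffAt_const
  have hDD : A.dirV (A.dirV w) ((A.c 0).psi.symm z) = A.emb (A.c 0) ((A.c 0).psi.symm z)
      (diracC (A.c 0).G (A.c 0).f (diracC (A.c 0).G (A.c 0).f (G6p_b0 u)) z) := by
    obtain ⟨o1, -⟩ := h X hor g n A (A.dirV w) _ hDC (A.c 0) hxs
    rw [o1, (A.c 0).psi.right_inv hzt]
    congr 1
    refine G6p_diracC_congr ?_
    filter_upwards [hD1] with y hy
    exact hy.2
  have hW := ((f3 _ _ _ hfr).2.2 (G6p_b0 u) z hzt (fun s => hα (0, s))).2.2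
  -- the complement
  have hq : ∀ v : X → VV n, ∀ y : E4, ‖y‖ < δ → ∀ q : Fin (n + 1) × Lam,
      A.qV v ((A.c 0).psi.symm y) q = if q.1 = 0 then 0 else v ((A.c 0).psi.symm y) q := by
    intro v y hy q
    have h6 : A.pV ((A.c 0).psi.symm y) = blk n 1 := hmul y hy 1 hL1
    unfold FAtlas.qV
    rw [h6]
    show v ((A.c 0).psi.symm y) q - blk n 1 (v ((A.c 0).psi.symm y)) q = _
    rw [G6p_blk, Matrix.one_mulVec]
    by_cases hq : q.1 = 0
    · obtain ⟨q1, q2⟩ := q
      simp only at hq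
      subst hq
      simp
    · rw [if_neg hq, if_neg hq, sub_zero]
  have hlap : ∀ q : Fin (n + 1) × Lam, q.1 ≠ 0 →
      A.lapV (A.qV w) ((A.c 0).psi.symm z) q = laplC (A.c 0).G (fun y => u y q) z := by
    intro q hq0
    show g.lapl (fun y => A.qV w y q) ((A.c 0).psi.symm z) = _
    have h7 : ((fun y => A.qV w y q) ∘ (A.c 0).psi.symm) =ᶠ[𝓝 z] fun y => u y q := by
      filter_upwards [hball] with y hy
      show A.qV w ((A.c 0).psi.symm y) q = u y q
      rw [hq w y hy q, if_neg hq0, hws y hy]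
    have h8 := (n2 X g (A.c 0).psi (A.c 0).sm _ hxs).2.2.1 (fun y => A.qV w y q)
    rw [(A.c 0).psi.right_inv hzt] at h8
    rw [h8 ((hα q).congr_of_eventuallyEq h7)]
    exact G6p_laplC_congr h7
  -- comparison of the components
  apply WithLp.ofLp_injective
  funext q
  show (A.LV w ((A.c 0).psi.symm z)) q = _
  have hLV : (A.LV w ((A.c 0).psi.symm z)) q =
      A.dirV (A.dirV w) ((A.c 0).psi.symm z) q - A.qV (A.lapV (A.qV w)) ((A.c 0).psi.symm z) q :=
    rfl
  rw [hLV, hDD, G6p_emb A hO hL hδ hρ hz, hq _ z hz q]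
  have hcomp : (-(∑ k, ∑ l, ((A.c 0).G z)⁻¹ k l • (nabB (A.c 0).G (A.c 0).f k
            (nabB (A.c 0).G (A.c 0).f l u) z -
              ∑ m, chr (A.c 0).G m k l z • nabB (A.c 0).G (A.c 0).f m u z)) +
            blk n (weitz (fun a b c d => R4C (A.c 0).G (A.c 0).f a b c d z)) (u z)) q =
      -(∑ k, ∑ l, ((A.c 0).G z)⁻¹ k l * (nabB (A.c 0).G (A.c 0).f k
            (nabB (A.c 0).G (A.c 0).f l u) z q -
              ∑ m, chr (A.c 0).G m k l z * nabB (A.c 0).G (A.c 0).f m u z q)) +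
            blk n (weitz (fun a b c d => R4C (A.c 0).G (A.c 0).f a b c d z)) (u z) q := by
    simp only [PiLp.add_apply, PiLp.neg_apply, WithLp.ofLp_sum, Finset.sum_apply,
      PiLp.smul_apply, PiLp.sub_apply, smul_eq_mul]
  show _ = (-(∑ k, ∑ l, ((A.c 0).G z)⁻¹ k l • (nabB (A.c 0).G (A.c 0).f k
            (nabB (A.c 0).G (A.c 0).f l u) z -
              ∑ m, chr (A.c 0).G m k l z • nabB (A.c 0).G (A.c 0).f m u z)) +
            blk n (weitz (fun a b c d => R4C (A.c 0).G (A.c 0).f a b c d z)) (u z)) q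
  rw [hcomp, G6p_blk]
  have hud : DifferentiableAt ℝ u z := hu.differentiableAt (by norm_num)
  by_cases hq0 : q.1 = 0
  · obtain ⟨q1, s⟩ := q
    simp only at hq0
    subst hq0
    rw [if_pos rfl, if_pos rfl, if_pos rfl, sub_zero, hW]
    simp only [Pi.add_apply, Pi.neg_apply, Finset.sum_apply, Pi.smul_apply, Pi.sub_apply,
      smul_eq_mul]
    congr 1
    congr 1
    refine Finset.sum_congr rfl fun k _ => Finset.sum_congr rfl fun l _ => ?_
    rw [G6p_rhs0 hom hu k l s]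
    congr 2
    refine Finset.sum_congr rfl fun m _ => ?_
    rw [← congrFun (G6p_nabB0 (G := (A.c 0).G) (f := (A.c 0).f) hud m) s]
  · rw [if_neg hq0, if_neg hq0, if_neg hq0, zero_sub, add_zero, hlap q hq0]
    congr 1
    unfold laplC hessC
    refine Finset.sum_congr rfl fun k _ => Finset.sum_congr rfl fun l _ => ?_
    rw [G6p_rhsj hom hu k l q hq0]
    congr 2
    refine Finset.sum_congr rfl fun m _ => ?_
    rw [G6p_nabBj hud m q hq0]

end NRF

end
end

section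

/-!
# Item G8: `d + δ` is a square root of the operator `LV` on forms
-/

open scoped Manifold ContDiff Topology RealInnerProductSpace
open MeasureTheory Set

noncomputable section

namespace NRF

theorem G8_clf_T (R : Type) [CommRing R] (a : Fin 4) : (clf R a).transpose = -clf R a := by
  unfold clf iot
  rw [Matrix.transpose_sub, Matrix.transpose_transpose, neg_sub]

theorem G8_gam_T (f3 : claimFR3) : (gam ℝ).transpose = gam ℝ := by
  obtain ⟨-, -, -, hc, -⟩ := f3 ℝ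
  have anti : ∀ a b : Fin 4, a ≠ b → clf ℝ a * clf ℝ b = -(clf ℝ b * clf ℝ a) := by
    intro a b hab
    have h := hc a b
    rw [if_neg hab] at h
    exact eq_neg_of_add_eq_zero_left h
  unfold gam
  rw [Matrix.transpose_mul, Matrix.transpose_mul, Matrix.transpose_mul, G8_clf_T, G8_clf_T,
    G8_clf_T, G8_clf_T]
  have h10 := anti 1 0 (by decide)
  have h20 := anti 2 0 (by decide)
  have h30 := anti 3 0 (by decide)
  have h21 := anti 2 1 (by decide)
  have h31 := anti 3 1 (by decide)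
  have h32 := anti 3 2 (by decide)
  simp only [neg_mul, mul_neg, neg_neg]
  -- c3 (c2 (c1 c0))
  calc clf ℝ 3 * (clf ℝ 2 * (clf ℝ 1 * clf ℝ 0))
      = -(clf ℝ 3 * ((clf ℝ 2 * clf ℝ 0) * clf ℝ 1)) := by
        rw [h10, Matrix.mul_neg, Matrix.mul_neg, Matrix.mul_assoc]
    _ = (clf ℝ 3 * clf ℝ 0) * (clf ℝ 2 * clf ℝ 1) := by
        rw [h20, Matrix.neg_mul, Matrix.mul_neg, neg_neg, Matrix.mul_assoc, Matrix.mul_assoc]
    _ = clf ℝ 0 * ((clf ℝ 3 * clf ℝ 1) * clf ℝ 2) := by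
        rw [h30, h21, Matrix.neg_mul, Matrix.mul_neg, neg_neg, Matrix.mul_assoc, Matrix.mul_assoc]
    _ = clf ℝ 0 * clf ℝ 1 * clf ℝ 2 * clf ℝ 3 := by
        rw [h31, Matrix.neg_mul, Matrix.mul_assoc, h32]
        simp only [Matrix.mul_assoc, Matrix.mul_neg, neg_neg]

theorem G8_evenOdd_T : (evenOdd ℝ).transpose = evenOdd ℝ := Matrix.diagonal_transpose _

theorem G8_pd_zero (i : Fin 4) (y : E4) : pd i (fun _ : E4 => (0 : ℝ)) y = 0 := by
  unfold pd
  simp

theorem G8_lapl_zero {X : Type} [TopologicalSpace X] [ChartedSpace E4 X] (g : Metric X) (x : X) :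
    g.lapl (fun _ => 0) x = 0 := by
  have h : ((fun _ => 0 : X → ℝ) ∘ (chartAt E4 x).symm) = fun _ => (0 : ℝ) := rfl
  have h1 : ∀ i : Fin 4, pd i (fun _ : E4 => (0 : ℝ)) = fun _ => 0 := fun i =>
    funext (G8_pd_zero i)
  unfold Metric.lapl
  rw [h]
  unfold laplC hessC
  simp [h1]

theorem thm_DirV (s : claimSymV) (o : claimOpV) (he : claimEmb) (f3 : claimFR3) : claimDirV := by
  intro X _ _ _ _ _ _ _ hor g n A D hF
  obtain ⟨-, ⟨L1, Leo, Lgam, -⟩, E3, E4'⟩ := he X hor g n A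
  have hsm : ∀ f, D.g.Smooth f ↔ CkX ∞ f := hF.smooth
  have hle1 : (1 : WithTop ℕ∞) ≤ ∞ := by exact_mod_cast le_top
  have hle2 : (2 : WithTop ℕ∞) ≤ ∞ := by
    have h : ((2 : ℕ∞) : WithTop ℕ∞) ≤ ((⊤ : ℕ∞) : WithTop ℕ∞) := WithTop.coe_le_coe.2 le_top
    exact h
  have mono : ∀ {k l : WithTop ℕ∞}, k ≤ l → ∀ {u : X → VV n} {x : X}, CkAt l u x → CkAt k u x :=
    fun hkl u x h psi hp hx => (h psi hp hx).of_le hkl
  have monoX : ∀ {k l : WithTop ℕ∞}, k ≤ l → ∀ {u : X → VV n}, CkX l u → CkX k u :=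
    fun hkl u h x => mono hkl (h x)
  obtain ⟨-, -, -, P1, P2, P3⟩ := E3 1 L1
  have hpp : ∀ x v, A.pV x (A.pV x v) = A.pV x v := P1
  have hpsym : ∀ x v w, ⟪A.pV x v, w⟫ = ⟪v, A.pV x w⟫ := by
    intro x v w
    have := E4' 1 x v w
    rwa [Matrix.transpose_one] at this
  have hps : ∀ f : X → VV n, CkX ∞ f → CkX ∞ fun y => A.pV y (f y) := fun f hf x =>
    P3 ∞ f x le_rfl (hf x)
  have hQs : ∀ f : X → VV n, CkX ∞ f → CkX ∞ (A.dirV f) := by
    intro f hf x
    obtain ⟨-, -, -, -, -, -, -, -, -, -, -, h, -⟩ := o X hor g n A f x (mono hle1 (hf x))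
    exact (h (hf x)).1
  have hQp : ∀ f : X → VV n, CkX ∞ f → A.dirV (fun y => A.pV y (f y)) = A.dirV f := by
    intro f hf
    funext x
    obtain ⟨-, -, -, -, -, h, -⟩ := o X hor g n A f x (mono hle1 (hf x))
    exact h
  have hpQ : ∀ f : X → VV n, CkX ∞ f → ∀ x, A.pV x (A.dirV f x) = A.dirV f x := by
    intro f hf x
    obtain ⟨-, -, h, -⟩ := o X hor g n A f x (mono hle1 (hf x))
    exact h
  have hqp : ∀ f : X → VV n, A.qV (fun y => A.pV y (f y)) = fun _ => 0 := by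
    intro f
    funext x
    unfold FAtlas.qV
    rw [hpp, sub_self]
  have hlap0 : A.lapV (fun _ : X => (0 : VV n)) = fun _ => 0 := by
    funext x
    unfold FAtlas.lapV
    have h : ∀ q : Fin (n + 1) × Lam, g.lapl (fun y : X => (0 : VV n) q) x = 0 := fun q =>
      G8_lapl_zero g x
    simp only [h]
    rfl
  have hq0 : A.qV (fun _ : X => (0 : VV n)) = fun _ => 0 := by
    funext x
    unfold FAtlas.qV
    rw [map_zero, sub_zero]
  have hLp : ∀ f : X → VV n, CkX ∞ f → ∀ x,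
      A.LV (fun y => A.pV y (f y)) x = A.dirV (A.dirV f) x := by
    intro f hf x
    unfold FAtlas.LV
    rw [hqp, hlap0, hq0, sub_zero, hQp f hf]
  have hpL : ∀ f : X → VV n, CkX ∞ f → ∀ x, A.pV x (A.LV f x) = A.dirV (A.dirV f) x := by
    intro f hf x
    unfold FAtlas.LV FAtlas.qV
    rw [map_sub, map_sub, hpp, sub_self, sub_zero]
    exact hpQ _ (hQs f hf) x
  have hodd : ∀ M : Matrix Lam Lam ℝ, LamInv M → M.transpose = M →
      (∀ f : X → VV n, CkX ∞ f → ∀ x,
        A.dirV (fun y => A.mulV M y (f y)) x = -A.mulV M x (A.dirV f x)) →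
      D.IsOdd A.pV A.dirV (A.mulV M) := by
    intro M hM hMT hanti
    obtain ⟨-, -, M3, M4, M5, M6⟩ := E3 M hM
    exact
      { cont := M3
        smooth := fun f hf => (hsm _).2 fun x => M6 ∞ f x le_rfl ((hsm f).1 hf x)
        symm := fun x v w => by
          have := E4' M x v w
          rwa [hMT] at this
        eps_p := M5
        p_eps := M4
        anti := fun f hf x => hanti f ((hsm f).1 hf) x }
  refine ⟨?_, ?_, ?_⟩
  · exact
      { p_smooth := fun f hf => (hsm _).2 (hps f ((hsm f).1 hf))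
        p_proj := hpp
        p_symm := hpsym
        Q_smooth := fun f hf => (hsm _).2 (hQs f ((hsm f).1 hf))
        Q_add := fun f h hf hh => by
          funext x
          obtain ⟨-, -, -, -, -, -, -, -, h9, -⟩ := o X hor g n A f x (mono hle1 ((hsm f).1 hf x))
          exact (h9 h (mono hle1 ((hsm h).1 hh x))).1
        Q_smul := fun c f hf => by
          funext x
          obtain ⟨-, -, -, -, -, -, -, -, -, h10, -⟩ :=
            o X hor g n A f x (mono hle1 ((hsm f).1 hf x))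
          exact (h10 c).1
        Q_symm := fun f h hf hh => by
          rw [hF.mu]
          exact (s X hor g n A f h (monoX hle1 ((hsm f).1 hf)) (monoX hle1 ((hsm h).1 hh))).1
        Q_p := fun f hf => hQp f ((hsm f).1 hf)
        p_Q := fun f hf => hpQ f ((hsm f).1 hf)
        L_p := fun f hf x => by
          rw [hF.L _ (monoX hle2 (hps f ((hsm f).1 hf)))]
          exact hLp f ((hsm f).1 hf) x
        p_L := fun f hf x => by
          rw [hF.L _ (monoX hle2 ((hsm f).1 hf))]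
          exact hpL f ((hsm f).1 hf) x }
  · refine hodd _ Leo G8_evenOdd_T fun f hf x => ?_
    obtain ⟨-, -, -, -, -, -, -, -, -, -, -, -, -, -, h, -⟩ :=
      o X hor g n A f x (mono hle1 (hf x))
    exact h
  · refine hodd _ Lgam (G8_gam_T f3) fun f hf x => ?_
    obtain ⟨-, -, -, -, -, -, -, -, -, -, -, -, -, -, -, h, -⟩ :=
      o X hor g n A f x (mono hle1 (hf x))
    exact h

end NRF

end
end

section

/-!
# Bochner formula for `C³` functions
-/

open scoped Manifold ContDiff Topology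
open Set

noncomputable section

namespace NRF

namespace L2

/-- Same 1-jet at `y`. -/
structure Eq1 (f g : E4 → ℝ) (y : E4) : Prop where
  df : DifferentiableAt ℝ f y
  dg : DifferentiableAt ℝ g y
  e0 : f y = g y
  e1 : ∀ i, pd i f y = pd i g y

theorem pd_add {f g : E4 → ℝ} {z : E4} (hf : DifferentiableAt ℝ f z) (hg : DifferentiableAt ℝ g z)
    (i : Fin 4) : pd i (fun x => f x + g x) z = pd i f z + pd i g z := by
  unfold pd
  rw [fderiv_fun_add hf hg]
  rfl

theorem pd_sub {f g : E4 → ℝ} {z : E4} (hf : DifferentiableAt ℝ f z) (hg : DifferentiableAt ℝ g z)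
    (i : Fin 4) : pd i (fun x => f x - g x) z = pd i f z - pd i g z := by
  unfold pd
  rw [fderiv_fun_sub hf hg]
  rfl

namespace Eq1
variable {f g f' g' : E4 → ℝ} {y : E4}

theorem refl (h : DifferentiableAt ℝ f y) : Eq1 f f y := ⟨h, h, rfl, fun _ => rfl⟩

theorem mul (h : Eq1 f g y) (h' : Eq1 f' g' y) : Eq1 (fun z => f z * f' z) (fun z => g z * g' z) y :=
  ⟨h.df.mul h'.df, h.dg.mul h'.dg, by rw [h.e0, h'.e0], fun i => by
    rw [L4.pd_mul h.df h'.df, L4.pd_mul h.dg h'.dg, h.e0, h'.e0, h.e1, h'.e1]⟩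

theorem sub (h : Eq1 f g y) (h' : Eq1 f' g' y) : Eq1 (fun z => f z - f' z) (fun z => g z - g' z) y :=
  ⟨h.df.sub h'.df, h.dg.sub h'.dg, by rw [h.e0, h'.e0], fun i => by
    rw [pd_sub h.df h'.df, pd_sub h.dg h'.dg, h.e1, h'.e1]⟩

theorem add (h : Eq1 f g y) (h' : Eq1 f' g' y) : Eq1 (fun z => f z + f' z) (fun z => g z + g' z) y :=
  ⟨h.df.add h'.df, h.dg.add h'.dg, by rw [h.e0, h'.e0], fun i => by
    rw [pd_add h.df h'.df, pd_add h.dg h'.dg, h.e1, h'.e1]⟩

theorem sum {f g : Fin 4 → E4 → ℝ} (h : ∀ i, Eq1 (f i) (g i) y) :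
    Eq1 (fun z => ∑ i, f i z) (fun z => ∑ i, g i z) y :=
  ⟨DifferentiableAt.fun_sum fun i _ => (h i).df, DifferentiableAt.fun_sum fun i _ => (h i).dg,
    Finset.sum_congr rfl fun i _ => (h i).e0, fun i => by
      rw [L4.pd_sum fun l => (h l).df, L4.pd_sum fun l => (h l).dg]
      exact Finset.sum_congr rfl fun l _ => (h l).e1 i⟩

end Eq1

/-- Same 2-jet at `y`, for `C²` functions. -/
structure Eq2 (f g : E4 → ℝ) (y : E4) : Prop where
  cf : ContDiffAt ℝ 2 f y
  cg : ContDiffAt ℝ 2 g y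
  e0 : f y = g y
  e1 : ∀ i, pd i f y = pd i g y
  e2 : ∀ i j, pd i (pd j f) y = pd i (pd j g) y

theorem pd_mul2 {f g : E4 → ℝ} {y : E4} (hf : ContDiffAt ℝ 2 f y) (hg : ContDiffAt ℝ 2 g y)
    (i j : Fin 4) : pd i (pd j fun z => f z * g z) y =
      (f y * pd i (pd j g) y + pd i f y * pd j g y) +
        (pd j f y * pd i g y + pd i (pd j f) y * g y) := by
  have hf1 : ∀ᶠ z in 𝓝 y, ContDiffAt ℝ 2 f z := hf.eventually (by simp)
  have hg1 : ∀ᶠ z in 𝓝 y, ContDiffAt ℝ 2 g z := hg.eventually (by simp)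
  have h1 : (pd j fun z => f z * g z) =ᶠ[𝓝 y] fun z => f z * pd j g z + pd j f z * g z := by
    filter_upwards [hf1, hg1] with z a b
    exact L4.pd_mul (a.differentiableAt (by norm_num)) (b.differentiableAt (by norm_num)) j
  have e : pd i (pd j fun z => f z * g z) y = pd i (fun z => f z * pd j g z + pd j f z * g z) y := by
    unfold pd at h1 ⊢
    rw [h1.fderiv_eq]
  have df := hf.differentiableAt (by norm_num)
  have dg := hg.differentiableAt (by norm_num)
  rw [e, pd_add (f := fun z => f z * pd j g z) (g := fun z => pd j f z * g z)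
      (df.mul (L4.pd_diff hg j)) ((L4.pd_diff hf j).mul dg),
    L4.pd_mul df (L4.pd_diff hg j), L4.pd_mul (L4.pd_diff hf j) dg]

theorem pd_add2 {f g : E4 → ℝ} {y : E4} (hf : ContDiffAt ℝ 2 f y) (hg : ContDiffAt ℝ 2 g y)
    (i j : Fin 4) : pd i (pd j fun z => f z + g z) y = pd i (pd j f) y + pd i (pd j g) y := by
  have hf1 : ∀ᶠ z in 𝓝 y, ContDiffAt ℝ 2 f z := hf.eventually (by simp)
  have hg1 : ∀ᶠ z in 𝓝 y, ContDiffAt ℝ 2 g z := hg.eventually (by simp)
  have h1 : (pd j fun z => f z + g z) =ᶠ[𝓝 y] fun z => pd j f z + pd j g z := by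
    filter_upwards [hf1, hg1] with z a b
    exact pd_add (a.differentiableAt (by norm_num)) (b.differentiableAt (by norm_num)) j
  have e : pd i (pd j fun z => f z + g z) y = pd i (fun z => pd j f z + pd j g z) y := by
    unfold pd at h1 ⊢
    rw [h1.fderiv_eq]
  rw [e, pd_add (L4.pd_diff hf j) (L4.pd_diff hg j)]

namespace Eq2
variable {f g f' g' : E4 → ℝ} {y : E4}

theorem refl (h : ContDiffAt ℝ 2 f y) : Eq2 f f y := ⟨h, h, rfl, fun _ => rfl, fun _ _ => rfl⟩

theorem eq1 (h : Eq2 f g y) : Eq1 f g y :=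
  ⟨h.cf.differentiableAt (by norm_num), h.cg.differentiableAt (by norm_num), h.e0, h.e1⟩

theorem mul (h : Eq2 f g y) (h' : Eq2 f' g' y) :
    Eq2 (fun z => f z * f' z) (fun z => g z * g' z) y :=
  ⟨h.cf.mul h'.cf, h.cg.mul h'.cg, by rw [h.e0, h'.e0], (h.eq1.mul h'.eq1).e1, fun i j => by
    rw [pd_mul2 h.cf h'.cf, pd_mul2 h.cg h'.cg]
    simp only [h.e0, h'.e0, h.e1, h'.e1, h.e2, h'.e2]⟩

theorem add (h : Eq2 f g y) (h' : Eq2 f' g' y) :
    Eq2 (fun z => f z + f' z) (fun z => g z + g' z) y :=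
  ⟨h.cf.add h'.cf, h.cg.add h'.cg, by rw [h.e0, h'.e0], (h.eq1.add h'.eq1).e1, fun i j => by
    rw [pd_add2 h.cf h'.cf, pd_add2 h.cg h'.cg]
    simp only [h.e2, h'.e2]⟩

theorem sum {f g : Fin 4 → E4 → ℝ} (h : ∀ i, Eq2 (f i) (g i) y) :
    Eq2 (fun z => ∑ i, f i z) (fun z => ∑ i, g i z) y := by
  simp only [Fin.sum_univ_four]
  exact (((h 0).add (h 1)).add (h 2)).add (h 3)

end Eq2

theorem chr_diff {U : Set E4} {G : E4 → Matrix (Fin 4) (Fin 4) ℝ} (hM : MetOn U G) {y : E4}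
    (hy : y ∈ U) (k i j : Fin 4) : DifferentiableAt ℝ (chr G k i j) y := by
  have hG := smoothMet_static hM
  have hUy : U ∈ 𝓝 y := hM.isOpen.mem_nhds hy
  have hincl : ContDiffOn ℝ ∞ (fun z : E4 => ((0 : ℝ), z)) U := (contDiff_prodMk_right _).contDiffOn
  have hmap : MapsTo (fun z : E4 => ((0 : ℝ), z)) U (univ ×ˢ U) := fun z hz => ⟨mem_univ _, hz⟩
  exact ((((Rep.chr hG k i j).contDiffOn.comp hincl hmap).differentiableOn
    (by simp)).differentiableAt hUy)

theorem inv_c2 {U : Set E4} {G : E4 → Matrix (Fin 4) (Fin 4) ℝ} (hM : MetOn U G) {y : E4}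
    (hy : y ∈ U) (k l : Fin 4) : ContDiffAt ℝ 2 (fun z => (G z)⁻¹ k l) y := by
  have hG := smoothMet_static hM
  have hUy : U ∈ 𝓝 y := hM.isOpen.mem_nhds hy
  have hincl : ContDiffOn ℝ ∞ (fun z : E4 => ((0 : ℝ), z)) U := (contDiff_prodMk_right _).contDiffOn
  have hmap : MapsTo (fun z : E4 => ((0 : ℝ), z)) U (univ ×ˢ U) := fun z hz => ⟨mem_univ _, hz⟩
  exact (((hG.smooth_inv k l).comp hincl hmap).contDiffAt hUy).of_le ENat.LEInfty.out

/-- The 1-jet of the Laplacian depends on the 3-jet. -/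
theorem lap_eq1 {U : Set E4} {G : E4 → Matrix (Fin 4) (Fin 4) ℝ} (hM : MetOn U G) {y : E4}
    (hy : y ∈ U) {u v : E4 → ℝ} (h2 : ∀ k, Eq2 (pd k u) (pd k v) y) :
    Eq1 (laplC G u) (laplC G v) y := by
  have h1 : ∀ i j, Eq1 (pd i (pd j u)) (pd i (pd j v)) y := fun i j =>
    ⟨L4.pd_diff (h2 j).cf i, L4.pd_diff (h2 j).cg i, (h2 j).e1 i, fun k => (h2 j).e2 k i⟩
  unfold laplC hessC
  exact Eq1.sum fun i => Eq1.sum fun j => (Eq1.refl ((inv_c2 hM hy i j).differentiableAt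
    (by norm_num))).mul ((h1 i j).sub (Eq1.sum fun k => (Eq1.refl (chr_diff hM hy k i j)).mul
      (h2 k).eq1))

theorem grad_eq2 {U : Set E4} {G : E4 → Matrix (Fin 4) (Fin 4) ℝ} (hM : MetOn U G) {y : E4}
    (hy : y ∈ U) {u v : E4 → ℝ} (h2 : ∀ k, Eq2 (pd k u) (pd k v) y) :
    Eq2 (gradSqC G u) (gradSqC G v) y := by
  unfold gradSqC
  exact Eq2.sum fun i => Eq2.sum fun j => (Eq2.refl (inv_c2 hM hy i j)).mul ((h2 i).mul (h2 j))

theorem lap_congr {G : E4 → Matrix (Fin 4) (Fin 4) ℝ} {y : E4} {f g : E4 → ℝ}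
    (e1 : ∀ i, pd i f y = pd i g y) (e2 : ∀ i j, pd i (pd j f) y = pd i (pd j g) y) :
    laplC G f y = laplC G g y := by
  unfold laplC hessC
  simp only [e1, e2]

end L2

open L2 in
theorem thm_L2 (h5 : claimDA5) (hj : claimJet) : claimL2 := by
  intro U G u hM y hy hu
  obtain ⟨v, hv, hv0, hv1, hv2, hv3⟩ := hj.2 u y hu
  have hv' : ContDiffAt ℝ 3 v y := (hv.of_le ENat.LEInfty.out).contDiffAt
  have h2 : ∀ k, Eq2 (pd k u) (pd k v) y := fun k =>
    ⟨(hu.fderiv_right (by norm_num)).clm_apply contDiffAt_const,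
      (hv'.fderiv_right (by norm_num)).clm_apply contDiffAt_const,
      (hv1 k).symm, fun i => (hv2 i k).symm, fun i j => (hv3 i j k).symm⟩
  have g2 := grad_eq2 hM hy h2
  have l1 := lap_eq1 hM hy h2
  have a1 : laplC G (gradSqC G u) y = laplC G (gradSqC G v) y := lap_congr g2.e1 g2.e2
  have a2 : hessM G u y = hessM G v y := by
    unfold hessM hessC
    simp only [hv1, hv2]
  have a3 : gradInC G u (laplC G u) y = gradInC G v (laplC G v) y := by
    unfold gradInC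
    simp only [hv1, l1.e1]
  rw [a1, a2, a3]
  simp only [← hv1]
  have hG := smoothMet_static hM
  have h0 : ((0 : ℝ), y) ∈ (univ ×ˢ U : Set (ℝ × E4)) := ⟨mem_univ _, hy⟩
  have hvs : ContDiffOn ℝ ∞ (fun p : ℝ × E4 => v p.2) (univ ×ˢ U) :=
    (hv.comp contDiff_snd).contDiffOn
  have rv : Rep (Ω := univ ×ˢ U) (SF.mk' _ hvs) (fun _ z => v z) := fun _ => rfl
  have k1 := h5 (Fin 4) (SF (univ ×ˢ U)) hG.geo (SF.mk' _ hvs)
  have r1 := Rep.lap hG (Rep.grad2 hG rv rv)
  have r2 := (((Rep.inner2 hG (A := fun _ y => hessM G v y) (B := fun _ y => hessM G v y)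
    (fun i j => Rep.hess hG rv i j) (fun i j => Rep.hess hG rv i j)).smul 2).add
    ((Rep.grad2 hG rv (Rep.lap hG rv)).smul 2)).add
    ((Rep.sum (s := Finset.univ) fun i _ => Rep.sum (s := Finset.univ) fun j _ =>
      Rep.sum (s := Finset.univ) fun k _ => Rep.sum (s := Finset.univ) fun l _ =>
      ((Rep.h hG i k).mul (Rep.h hG j l)).mul ((Rep.ric hG i j).mul
        ((Rep.D hG rv k).mul (Rep.D hG rv l)))).smul 2)
  have b1 := r1 ⟨_, h0⟩
  have b2 := r2 ⟨_, h0⟩
  rw [k1] at b1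
  exact b1.symm.trans b2

end NRF

end
end

section

/-!
# Module D, part 5: differential forms as sections, Betti numbers, signature
-/

open scoped Manifold ContDiff Topology RealInnerProductSpace
open MeasureTheory Set

noncomputable section

namespace NRF

section

variable {X : Type} [TopologicalSpace X] [ChartedSpace E4 X]

/-- A form in an arbitrary smooth chart. -/
def mform {k : ℕ} (w : Ch X → E4 → E4 [⋀^Fin k]→L[ℝ] ℝ) (psi : OpenPartialHomeomorph X E4)
    (y : E4) : E4 [⋀^Fin k]→L[ℝ] ℝ :=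
  (w (chAt (psi.symm y)) ((chartAt E4 (psi.symm y)) (psi.symm y))).compContinuousLinearMap
    (fderiv ℝ (psi.symm.trans (chartAt E4 (psi.symm y))) y)

/-- The function with values in the trivial bundle given by a form. -/
def FAtlas.toV {g : Metric X} {n : ℕ} (A : FAtlas X g n) {k : ℕ}
    (w : Ch X → E4 → E4 [⋀^Fin k]→L[ℝ] ℝ) (x : X) : VV n :=
  A.emb (A.cx x) x (comp (A.cx x).f (mform w (A.cx x).psi) ((A.cx x).psi x))

/-- `v` is the exterior derivative of `w`. -/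
def IsExt {k : ℕ} (w : Ch X → E4 → E4 [⋀^Fin k]→L[ℝ] ℝ)
    (v : Ch X → E4 → E4 [⋀^Fin (k + 1)]→L[ℝ] ℝ) : Prop :=
  ∀ e : Ch X, ∀ y ∈ e.1.target, v e y = extDeriv (w e) y

end

/-- F1: forms in smooth charts. -/
def claimMform : Prop :=
  ∀ (X : Type) [TopologicalSpace X] [ChartedSpace E4 X] [IsManifold (𝓡 4) ∞ X] (k : ℕ),
    ∀ w ∈ Forms X k,
      (∀ e : Ch X, ∀ y ∈ e.1.target, mform w e.1 y = w e y) ∧
      (∀ psi ∈ SmCh X, ContDiffOn ℝ ∞ (mform w psi) psi.target) ∧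
      (∀ psi ∈ SmCh X, ∀ psi' ∈ SmCh X, ∀ y ∈ (psi.symm.trans psi').source,
        mform w psi y = (mform w psi' ((psi.symm.trans psi') y)).compContinuousLinearMap
          (fderiv ℝ (psi.symm.trans psi') y)) ∧
      (∃ v ∈ Forms X (k + 1), IsExt w v) ∧
      ∀ v ∈ Forms X (k + 1), IsExt w v →
        ∀ psi ∈ SmCh X, ∀ y ∈ psi.target, mform v psi y = extDeriv (mform w psi) y

/-- F2: forms as sections. -/
def claimToV : Prop :=
  ∀ (X : Type) [TopologicalSpace X] [T2Space X] [CompactSpace X]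
    [ChartedSpace E4 X] [IsManifold (𝓡 4) ∞ X], OrientedAtlas X → ∀ (g : Metric X) (n : ℕ)
    (A : FAtlas X g n) (k : ℕ), ∀ w ∈ Forms X k,
      (∀ c : FChart X g, ∀ x ∈ c.psi.source,
        A.toV w x = A.emb c x (comp c.f (mform w c.psi) (c.psi x)) ∧
        A.loc c (A.toV w) (c.psi x) = comp c.f (mform w c.psi) (c.psi x)) ∧
      A.toV w ∈ A.Sec ∧ (∀ x, A.mulV (degP ℝ k) x (A.toV w x) = A.toV w x) ∧
      (∀ w' ∈ Forms X k, A.toV (w + w') = A.toV w + A.toV w') ∧
      (∀ r : ℝ, A.toV (r • w) = r • A.toV w) ∧ (A.toV w = 0 → w = 0) ∧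
      ∀ v ∈ Forms X (k + 1), IsExt w v → A.toV v = A.dV (A.toV w)

/-- F3: every section of degree `k` is a form. -/
def claimFromV : Prop :=
  ∀ (X : Type) [TopologicalSpace X] [T2Space X] [CompactSpace X]
    [ChartedSpace E4 X] [IsManifold (𝓡 4) ∞ X], OrientedAtlas X → ∀ (g : Metric X) (n : ℕ)
    (A : FAtlas X g n) (k : ℕ), ∀ u ∈ A.Sec, (∀ x, A.mulV (degP ℝ k) x (u x) = u x) →
      ∃ w ∈ Forms X k, A.toV w = u

/-- F4: the intersection form. -/
def claimWedge : Prop :=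
  ∀ (X : Type) [TopologicalSpace X] [T2Space X] [CompactSpace X]
    [ChartedSpace E4 X] [IsManifold (𝓡 4) ∞ X] [MeasurableSpace X] [BorelSpace X],
    OrientedAtlas X → ∀ (g : Metric X) (n : ℕ) (A : FAtlas X g n), ∀ w ∈ Forms X 2,
      interForm w = -∫ x, ⟪A.toV w x, A.mulV (gam ℝ) x (A.toV w x)⟫ ∂g.vol

/-- The Hodge complex of the sections. -/
structure FAtlas.IsHodge {X : Type} [TopologicalSpace X] [ChartedSpace E4 X] [MeasurableSpace X]
    [BorelSpace X] {g : Metric X} {n : ℕ} (A : FAtlas X g n) (H : AHodge A.Sec) : Prop where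
  B : ∀ u v : A.Sec, H.B u v = ∫ x, ⟪(u : X → VV n) x, (v : X → VV n) x⟫ ∂g.vol
  d : ∀ (u : A.Sec) x, (H.d u : X → VV n) x = A.dV u x
  del : ∀ (u : A.Sec) x, (H.del u : X → VV n) x = A.delV u x
  N : ∀ (k : ℕ) (u : A.Sec) x, (H.N k u : X → VV n) x = A.mulV (degP ℝ k) x ((u : X → VV n) x)
  star : ∀ (u : A.Sec) x, (H.star u : X → VV n) x = -A.mulV (gam ℝ) x ((u : X → VV n) x)

/-- F5: the sections form an abstract Hodge complex. -/
def claimAHX : Prop :=
  ∀ (X : Type) [TopologicalSpace X] [T2Space X] [CompactSpace X] [ConnectedSpace X]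
    [ChartedSpace E4 X] [IsManifold (𝓡 4) ∞ X] [MeasurableSpace X] [BorelSpace X],
    OrientedAtlas X → ∀ (g : Metric X) (n : ℕ) (A : FAtlas X g n),
    ∃ H : AHodge A.Sec, A.IsHodge H

/-- F6: Betti numbers and signature by harmonic sections. -/
def claimBettiX : Prop :=
  ∀ (X : Type) [TopologicalSpace X] [T2Space X] [CompactSpace X] [ConnectedSpace X]
    [ChartedSpace E4 X] [IsManifold (𝓡 4) ∞ X] [MeasurableSpace X] [BorelSpace X],
    OrientedAtlas X → ∀ (g : Metric X) (n : ℕ) (A : FAtlas X g n) (H : AHodge A.Sec), A.IsHodge H →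
    (∀ k, betti X k = Module.finrank ℝ (H.harmK k)) ∧
    bPlus X = Module.finrank ℝ (H.harmPM 1) ∧ bMinus X = Module.finrank ℝ (H.harmPM (-1))

/-- F7: Euler characteristic and signature by the heat kernel. -/
def claimChiTau : Prop :=
  ∀ (X : Type) [TopologicalSpace X] [T2Space X] [CompactSpace X] [ConnectedSpace X]
    [ChartedSpace E4 X] [IsManifold (𝓡 4) ∞ X] [MeasurableSpace X] [BorelSpace X],
    OrientedAtlas X → ∀ (g : Metric X) (n : ℕ) (A : FAtlas X g n) (D : HeatData X (VV n))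
    (T : ℝ → (X → VV n) → X → VV n) (K : ℝ → X → X → VV n →L[ℝ] VV n), A.Fits D →
    D.IsSemigroup T → D.IsKernel T K → ∀ t, 0 < t →
      ∫ x, trC ((A.mulV (evenOdd ℝ) x).comp (K t x x)) ∂g.vol = (eulerChar X : ℝ) ∧
      -∫ x, trC ((A.mulV (gam ℝ) x).comp (K t x x)) ∂g.vol = (signature X : ℝ)

end NRF

end
end

section

/-!
# Item E12: the supertrace of the square of the curvature term
-/

noncomputable section

namespace NRF

open Matrix Finset

/-- Sums over pairs. -/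
theorem EI12_skew {M : Type} [AddCommGroup M] [Module ℝ M] (f : Fin 4 → Fin 4 → ℝ)
    (hf : ∀ c d, f c d = -f d c) (g : Fin 4 → Fin 4 → M) :
    ∑ c, ∑ d, f c d • g c d = ∑ j : Fin 6, f (EI12_p j) (EI12_q j) •
      (g (EI12_p j) (EI12_q j) - g (EI12_q j) (EI12_p j)) := by
  have h0 : ∀ c, f c c = 0 := fun c => by have := hf c c; linarith
  have p0 : EI12_p 0 = 0 := rfl
  have p1 : EI12_p 1 = 0 := rfl
  have p2 : EI12_p 2 = 0 := rfl
  have p3 : EI12_p 3 = 1 := rfl
  have p4 : EI12_p 4 = 1 := rfl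
  have p5 : EI12_p 5 = 2 := rfl
  have q0 : EI12_q 0 = 1 := rfl
  have q1 : EI12_q 1 = 2 := rfl
  have q2 : EI12_q 2 = 3 := rfl
  have q3 : EI12_q 3 = 2 := rfl
  have q4 : EI12_q 4 = 3 := rfl
  have q5 : EI12_q 5 = 3 := rfl
  simp only [Fin.sum_univ_four, Fin.sum_univ_six, p0, p1, p2, p3, p4, p5, q0, q1, q2, q3, q4, q5]
  simp only [h0, hf 1 0, hf 2 0, hf 3 0, hf 2 1, hf 3 1, hf 3 2]
  module

/-- The curvature term in terms of pairs. -/
theorem EI12_weitz (Q : Fin 4 → Fin 4 → Fin 4 → Fin 4 → ℝ) (hQ : IsCurv Q) :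
    weitz Q = ∑ i : Fin 6, ∑ j : Fin 6,
      Q (EI12_p i) (EI12_q i) (EI12_p j) (EI12_q j) •
        (clf ℝ (EI12_p i) * clf ℝ (EI12_q i) *
          (eps ℝ (EI12_p j) * iot ℝ (EI12_q j) - eps ℝ (EI12_q j) * iot ℝ (EI12_p j))) := by
  have hpq : ∀ i, EI12_p i ≠ EI12_q i := by decide
  have h1 : ∀ a b, ∑ c, ∑ d, Q a b c d • (clf ℝ a * clf ℝ b * eps ℝ c * iot ℝ d) =
      ∑ j : Fin 6, Q a b (EI12_p j) (EI12_q j) • (clf ℝ a * clf ℝ b *
        (eps ℝ (EI12_p j) * iot ℝ (EI12_q j) - eps ℝ (EI12_q j) * iot ℝ (EI12_p j))) := by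
    intro a b
    rw [EI12_skew (fun c d => Q a b c d) (fun c d => hQ.anti2 a b c d)]
    refine Finset.sum_congr rfl fun j _ => ?_
    rw [mul_sub, Matrix.mul_assoc (clf ℝ a * clf ℝ b), Matrix.mul_assoc (clf ℝ a * clf ℝ b)]
  unfold weitz
  simp only [h1]
  have h2 : ∀ j : Fin 6, (∑ a, ∑ b, Q a b (EI12_p j) (EI12_q j) • (clf ℝ a * clf ℝ b *
        (eps ℝ (EI12_p j) * iot ℝ (EI12_q j) - eps ℝ (EI12_q j) * iot ℝ (EI12_p j)))) =
      ∑ i : Fin 6, Q (EI12_p i) (EI12_q i) (EI12_p j) (EI12_q j) • ((2 : ℝ) •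
        (clf ℝ (EI12_p i) * clf ℝ (EI12_q i) *
          (eps ℝ (EI12_p j) * iot ℝ (EI12_q j) - eps ℝ (EI12_q j) * iot ℝ (EI12_p j)))) := by
    intro j
    rw [EI12_skew (fun a b => Q a b (EI12_p j) (EI12_q j)) (fun a b => hQ.anti1 a b _ _)]
    refine Finset.sum_congr rfl fun i _ => ?_
    congr 1
    rw [FR3_anti ℝ (hpq i).symm, neg_mul, sub_neg_eq_add, two_smul]
  have h3 : ∑ a, ∑ b, ∑ j : Fin 6, Q a b (EI12_p j) (EI12_q j) • (clf ℝ a * clf ℝ b *
        (eps ℝ (EI12_p j) * iot ℝ (EI12_q j) - eps ℝ (EI12_q j) * iot ℝ (EI12_p j))) =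
      ∑ j : Fin 6, ∑ a, ∑ b, Q a b (EI12_p j) (EI12_q j) • (clf ℝ a * clf ℝ b *
        (eps ℝ (EI12_p j) * iot ℝ (EI12_q j) - eps ℝ (EI12_q j) * iot ℝ (EI12_p j))) := by
    rw [Finset.sum_comm]
    rw [Finset.sum_congr rfl fun b _ => Finset.sum_comm]
    rw [Finset.sum_comm]
    refine Finset.sum_congr rfl fun j _ => ?_
    rw [Finset.sum_comm]
  rw [h3, Finset.sum_congr rfl fun j _ => h2 j, Finset.sum_comm, Finset.smul_sum]
  refine Finset.sum_congr rfl fun i _ => ?_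
  rw [Finset.smul_sum]
  refine Finset.sum_congr rfl fun j _ => ?_
  module

/-- `E_i` -/
def EI12_ER (i : Fin 6) : Matrix Lam Lam ℝ := clf ℝ (EI12_p i) * clf ℝ (EI12_q i)

/-- `F_j` -/
def EI12_FR (j : Fin 6) : Matrix Lam Lam ℝ :=
  (eps ℝ (EI12_p j) + iot ℝ (EI12_p j)) * (eps ℝ (EI12_q j) + iot ℝ (EI12_q j))

/-- the curvature operator -/
def EI12_Q (Q : Fin 4 → Fin 4 → Fin 4 → Fin 4 → ℝ) (i j : Fin 6) : ℝ :=
  Q (EI12_p i) (EI12_q i) (EI12_p j) (EI12_q j)

theorem EI12_G (j : Fin 6) :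
    eps ℝ (EI12_p j) * iot ℝ (EI12_q j) - eps ℝ (EI12_q j) * iot ℝ (EI12_p j) =
      (1 / 2 : ℝ) • (EI12_FR j - EI12_ER j) := by
  have hpq : EI12_p j ≠ EI12_q j := by revert j; decide
  have h1 := FR3_ei ℝ (EI12_q j) (EI12_p j)
  rw [if_neg hpq.symm] at h1
  have h2 : iot ℝ (EI12_p j) * eps ℝ (EI12_q j) = -(eps ℝ (EI12_q j) * iot ℝ (EI12_p j)) :=
    eq_neg_of_add_eq_zero_right h1
  unfold EI12_FR EI12_ER clf
  simp only [add_mul, mul_add, sub_mul, mul_sub, h2]
  module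

/-- signed permutation of `E_i E_j` -/
def EI12_ww (i j : Fin 6) : ℕ → Bool × ℕ :=
  EI12_comp (EI12_comp (EI12_act true (EI12_p i)) (EI12_act true (EI12_q i)))
    (EI12_comp (EI12_act true (EI12_p j)) (EI12_act true (EI12_q j)))

/-- signed permutation of `gam` -/
def EI12_gm : ℕ → Bool × ℕ :=
  EI12_comp (EI12_comp (EI12_comp (EI12_act true 0) (EI12_act true 1)) (EI12_act true 2))
    (EI12_act true 3)

/-- `gam` over the integers -/
def EI12_gamZ : Matrix Lam Lam ℤ := EI12_c 0 * EI12_c 1 * EI12_c 2 * EI12_c 3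

theorem EI12_rep_gam : EI12_Rep EI12_gamZ EI12_gm :=
  EI12_rep_mul (EI12_rep_mul (EI12_rep_mul (EI12_rep_c 0) (EI12_rep_c 1)) (EI12_rep_c 2))
    (EI12_rep_c 3)

theorem EI12_R_gam : EI12_R EI12_gamZ = gam ℝ := by
  unfold EI12_gamZ gam
  rw [EI12_R_mul, EI12_R_mul, EI12_R_mul, EI12_R_c, EI12_R_c, EI12_R_c, EI12_R_c]

theorem EI12_rep_E (i : Fin 6) : EI12_Rep (EI12_E i)
    (EI12_comp (EI12_act true (EI12_p i)) (EI12_act true (EI12_q i))) :=
  EI12_rep_mul (EI12_rep_c _) (EI12_rep_c _)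

theorem EI12_rep_ww (i j : Fin 6) : EI12_Rep (EI12_E i * EI12_E j) (EI12_ww i j) :=
  EI12_rep_mul (EI12_rep_E i) (EI12_rep_E j)

theorem EI12_tabEE : ∀ i j : Fin 6, ∀ m < 16, ∀ n < 16,
    (if m = (EI12_ww i j n).2 then EI12_sg (EI12_ww i j n).1 else 0) +
    (if m = (EI12_ww j i n).2 then EI12_sg (EI12_ww j i n).1 else 0) =
    (if i = j then (-2 : ℤ) else 0) * (if m = n then 1 else 0) +
      (if j = Fin.rev i then (2 * EI12_s i) else 0) *
        (if m = (EI12_gm n).2 then EI12_sg (EI12_gm n).1 else 0) := by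
  decide +kernel

theorem EI12_EEZ (i j : Fin 6) : EI12_E i * EI12_E j + EI12_E j * EI12_E i =
    (if i = j then (-2 : ℤ) else 0) • (1 : Matrix Lam Lam ℤ) +
      (if j = Fin.rev i then (2 * EI12_s i) else 0) • EI12_gamZ := by
  ext s t
  rw [Matrix.add_apply, Matrix.add_apply, Matrix.smul_apply, Matrix.smul_apply,
    (EI12_rep_ww i j).2 s t, (EI12_rep_ww j i).2 s t, EI12_rep_gam.2 s t, smul_eq_mul,
    smul_eq_mul, Matrix.one_apply]
  rw [EI12_tabEE i j _ (EI12_code_lt s) _ (EI12_code_lt t)]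
  congr 2
  by_cases h : s = t
  · rw [h, if_pos rfl, if_pos rfl]
  · rw [if_neg h, if_neg (fun h' => h (EI12_code_inj s t h'))]

theorem EI12_R_E (i : Fin 6) : EI12_R (EI12_E i) = EI12_ER i := by
  unfold EI12_E EI12_ER
  rw [EI12_R_mul, EI12_R_c, EI12_R_c]

theorem EI12_R_F (i : Fin 6) : EI12_R (EI12_F i) = EI12_FR i := by
  unfold EI12_F EI12_FR
  rw [EI12_R_mul, EI12_R_h, EI12_R_h]

/-- the product of two pairs, symmetrised -/
theorem EI12_EE (i j : Fin 6) : EI12_ER i * EI12_ER j + EI12_ER j * EI12_ER i =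
    (if i = j then (-2 : ℝ) else 0) • (1 : Matrix Lam Lam ℝ) +
      (if j = Fin.rev i then (2 * (EI12_s i : ℝ)) else 0) • gam ℝ := by
  have h := congrArg EI12_R (EI12_EEZ i j)
  have hadd : ∀ M N : Matrix Lam Lam ℤ, EI12_R (M + N) = EI12_R M + EI12_R N :=
    fun M N => map_add _ _ _
  have hsmul : ∀ (c : ℤ) (M : Matrix Lam Lam ℤ), EI12_R (c • M) = (c : ℝ) • EI12_R M := by
    intro c M
    ext s t
    simp only [EI12_R, RingHom.mapMatrix_apply, Matrix.map_apply, Matrix.smul_apply,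
      smul_eq_mul, Int.coe_castRingHom]
    exact Int.cast_mul _ _
  have hone : EI12_R 1 = 1 := map_one _
  rw [hadd, hadd, hsmul, hsmul, EI12_R_mul, EI12_R_mul, EI12_R_E, EI12_R_E, EI12_R_gam, hone] at h
  rw [h]
  congr 2
  · split_ifs <;> simp
  · split_ifs <;> simp

/-- The double sum of the products is scalar. -/
theorem EI12_S (Q : Fin 4 → Fin 4 → Fin 4 → Fin 4 → ℝ) (hQ : IsCurv Q) :
    ∑ i, ∑ j, EI12_Q Q i j • (EI12_ER i * EI12_ER j) =
      (-∑ i, EI12_Q Q i i) • (1 : Matrix Lam Lam ℝ) := by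
  have hsymm : ∀ i j, EI12_Q Q i j = EI12_Q Q j i := fun i j => hQ.pair _ _ _ _
  have h1 : (2 : ℝ) • ∑ i, ∑ j, EI12_Q Q i j • (EI12_ER i * EI12_ER j) =
      ∑ i, ∑ j, EI12_Q Q i j • (EI12_ER i * EI12_ER j + EI12_ER j * EI12_ER i) := by
    have e1 : ∑ i, ∑ j, EI12_Q Q i j • (EI12_ER i * EI12_ER j) =
        ∑ i, ∑ j, EI12_Q Q i j • (EI12_ER j * EI12_ER i) := by
      rw [Finset.sum_comm]
      refine Finset.sum_congr rfl fun i _ => Finset.sum_congr rfl fun j _ => ?_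
      rw [hsymm j i]
    rw [two_smul]
    nth_rewrite 2 [e1]
    rw [← Finset.sum_add_distrib]
    refine Finset.sum_congr rfl fun i _ => ?_
    rw [← Finset.sum_add_distrib]
    refine Finset.sum_congr rfl fun j _ => ?_
    rw [smul_add]
  have h2 : ∑ i, ∑ j, EI12_Q Q i j • (EI12_ER i * EI12_ER j + EI12_ER j * EI12_ER i) =
      (∑ i, (-2 * EI12_Q Q i i)) • (1 : Matrix Lam Lam ℝ) +
        (∑ i, 2 * (EI12_s i : ℝ) * EI12_Q Q i (Fin.rev i)) • gam ℝ := by
    simp only [EI12_EE, smul_add, Finset.sum_add_distrib, smul_smul]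
    congr 1
    · rw [Finset.sum_smul]
      refine Finset.sum_congr rfl fun i _ => ?_
      rw [Finset.sum_eq_single i]
      · rw [if_pos rfl, mul_comm]
      · intro j _ hj
        rw [if_neg hj.symm, mul_zero, zero_smul]
      · intro h
        exact absurd (Finset.mem_univ _) h
    · rw [Finset.sum_smul]
      refine Finset.sum_congr rfl fun i _ => ?_
      rw [Finset.sum_eq_single (Fin.rev i)]
      · rw [if_pos rfl, mul_comm]
      · intro j _ hj
        rw [if_neg hj, mul_zero, zero_smul]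
      · intro h
        exact absurd (Finset.mem_univ _) h
  have h3 : ∑ i, 2 * (EI12_s i : ℝ) * EI12_Q Q i (Fin.rev i) = 0 := by
    have e1 : EI12_Q Q 0 5 = Q 0 1 2 3 := rfl
    have e2 : EI12_Q Q 1 4 = Q 0 2 1 3 := rfl
    have e3 : EI12_Q Q 2 3 = Q 0 3 1 2 := rfl
    have b := hQ.bianchi 0 1 2 3
    have b2 := hQ.anti2 0 2 3 1
    simp only [Fin.sum_univ_six]
    have r0 : Fin.rev (0 : Fin 6) = 5 := rfl
    have r1 : Fin.rev (1 : Fin 6) = 4 := rfl
    have r2 : Fin.rev (2 : Fin 6) = 3 := rfl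
    have r3 : Fin.rev (3 : Fin 6) = 2 := rfl
    have r4 : Fin.rev (4 : Fin 6) = 1 := rfl
    have r5 : Fin.rev (5 : Fin 6) = 0 := rfl
    rw [r0, r1, r2, r3, r4, r5, hsymm 3 2, hsymm 4 1, hsymm 5 0, e1, e2, e3]
    have s0 : EI12_s 0 = 1 := rfl
    have s1 : EI12_s 1 = -1 := rfl
    have s2 : EI12_s 2 = 1 := rfl
    have s3 : EI12_s 3 = 1 := rfl
    have s4 : EI12_s 4 = -1 := rfl
    have s5 : EI12_s 5 = 1 := rfl
    rw [s0, s1, s2, s3, s4, s5]
    push_cast
    linarith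
  rw [h2, h3, zero_smul, add_zero] at h1
  have h4 : ∑ i, ∑ j, EI12_Q Q i j • (EI12_ER i * EI12_ER j) =
      (1 / 2 : ℝ) • ((2 : ℝ) • ∑ i, ∑ j, EI12_Q Q i j • (EI12_ER i * EI12_ER j)) := by
    rw [smul_smul]
    norm_num
  rw [h4, h1, smul_smul, ← Finset.mul_sum]
  congr 1
  ring

/-- The curvature term as a Clifford expression. -/
theorem EI12_weitz2 (Q : Fin 4 → Fin 4 → Fin 4 → Fin 4 → ℝ) (hQ : IsCurv Q) :
    weitz Q = (1 / 2 : ℝ) • (∑ i, ∑ j, EI12_Q Q i j • (EI12_ER i * EI12_FR j)) +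
      ((∑ i, EI12_Q Q i i) / 2) • (1 : Matrix Lam Lam ℝ) := by
  have h1 : weitz Q = (1 / 2 : ℝ) • (∑ i, ∑ j, EI12_Q Q i j • (EI12_ER i * EI12_FR j)) -
      (1 / 2 : ℝ) • (∑ i, ∑ j, EI12_Q Q i j • (EI12_ER i * EI12_ER j)) := by
    rw [EI12_weitz Q hQ, Finset.smul_sum, Finset.smul_sum, ← Finset.sum_sub_distrib]
    refine Finset.sum_congr rfl fun i _ => ?_
    rw [Finset.smul_sum, Finset.smul_sum, ← Finset.sum_sub_distrib]
    refine Finset.sum_congr rfl fun j _ => ?_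
    rw [EI12_G]
    unfold EI12_Q EI12_ER
    rw [mul_smul_comm, mul_sub]
    module
  rw [h1, EI12_S Q hQ]
  module

/-- trace of the square -/
theorem EI12_traceSq (Q : Fin 4 → Fin 4 → Fin 4 → Fin 4 → ℝ) (hQ : IsCurv Q)
    (X : Matrix Lam Lam ℝ) (h0 : X.trace = 0)
    (h1 : ∀ i j, (X * (EI12_ER i * EI12_FR j)).trace = 0) :
    (X * (weitz Q * weitz Q)).trace = (1 / 4) * ∑ i, ∑ j, ∑ k, ∑ l,
      EI12_Q Q i j * EI12_Q Q k l *
        (X * ((EI12_ER i * EI12_FR j) * (EI12_ER k * EI12_FR l))).trace := by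
  set K := ∑ i, ∑ j, EI12_Q Q i j • (EI12_ER i * EI12_FR j) with hK
  set c := ∑ i, EI12_Q Q i i with hc
  have hw : weitz Q = (1 / 2 : ℝ) • K + (c / 2) • (1 : Matrix Lam Lam ℝ) := EI12_weitz2 Q hQ
  have hXK : (X * K).trace = 0 := by
    rw [hK]
    simp only [Finset.mul_sum, Matrix.trace_sum, Matrix.mul_smul, Matrix.trace_smul, h1]
    simp
  have hXKK : (X * (K * K)).trace = ∑ i, ∑ j, ∑ k, ∑ l,
      EI12_Q Q i j * EI12_Q Q k l *
        (X * ((EI12_ER i * EI12_FR j) * (EI12_ER k * EI12_FR l))).trace := by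
    have e1 : K * K = ∑ i, ∑ j, ∑ k, ∑ l, (EI12_Q Q i j * EI12_Q Q k l) •
        ((EI12_ER i * EI12_FR j) * (EI12_ER k * EI12_FR l)) := by
      nth_rewrite 1 [hK]
      rw [Finset.sum_mul]
      refine Finset.sum_congr rfl fun i _ => ?_
      rw [Finset.sum_mul]
      refine Finset.sum_congr rfl fun j _ => ?_
      rw [hK, Finset.mul_sum]
      refine Finset.sum_congr rfl fun k _ => ?_
      rw [Finset.mul_sum]
      refine Finset.sum_congr rfl fun l _ => ?_
      rw [Matrix.smul_mul, Matrix.mul_smul, smul_smul]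
    rw [e1]
    simp only [Finset.mul_sum, Matrix.trace_sum, Matrix.mul_smul, Matrix.trace_smul, smul_eq_mul]
  rw [hw, ← hXKK]
  have h2 : X * (((1 / 2 : ℝ) • K + (c / 2) • (1 : Matrix Lam Lam ℝ)) *
      ((1 / 2 : ℝ) • K + (c / 2) • (1 : Matrix Lam Lam ℝ))) =
      (1 / 4 : ℝ) • (X * (K * K)) + (c / 2) • (X * K) + (c ^ 2 / 4) • X := by
    simp only [mul_add, add_mul, Matrix.mul_smul, Matrix.smul_mul, mul_one, one_mul,
      smul_smul]
    module
  rw [h2, Matrix.trace_add, Matrix.trace_add, Matrix.trace_smul, Matrix.trace_smul,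
    Matrix.trace_smul, hXK, h0]
  simp

theorem EI12_tr0 : (evenOdd ℝ).trace = 0 := by
  rw [← EI12_R_eo, EI12_R_trace, EI12_trace EI12_rep_eo, EI12_tab0, Int.cast_zero]

theorem EI12_tr1 (i j : Fin 6) : (evenOdd ℝ * (EI12_ER i * EI12_FR j)).trace = 0 := by
  rw [← EI12_R_eo, ← EI12_R_E, ← EI12_R_F, ← EI12_R_mul, ← EI12_R_mul, EI12_R_trace,
    EI12_trace (EI12_rep_mul EI12_rep_eo (EI12_rep_w i j)), EI12_tab1, Int.cast_zero]

theorem EI12_tr2 (i j k l : Fin 6) :
    (evenOdd ℝ * ((EI12_ER i * EI12_FR j) * (EI12_ER k * EI12_FR l))).trace =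
      if k = Fin.rev i ∧ l = Fin.rev j then 16 * ((EI12_s i : ℝ) * EI12_s j) else 0 := by
  rw [← EI12_R_eo, ← EI12_R_E, ← EI12_R_F, ← EI12_R_E, ← EI12_R_F, ← EI12_R_mul, ← EI12_R_mul,
    ← EI12_R_mul, ← EI12_R_mul, EI12_R_trace,
    EI12_trace (EI12_rep_mul EI12_rep_eo (EI12_rep_mul (EI12_rep_w i j) (EI12_rep_w k l))),
    EI12_tab]
  split_ifs
  · push_cast
    ring
  · exact Int.cast_zero

theorem thm_TrW1 : claimTrW1 := by
  intro Q hQ
  have h : (evenOdd ℝ * (weitz Q * weitz Q)).trace = (1 / 4) * ∑ i, ∑ j,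
      EI12_Q Q i j * EI12_Q Q (Fin.rev i) (Fin.rev j) *
        (16 * ((EI12_s i : ℝ) * EI12_s j)) := by
    rw [EI12_traceSq Q hQ (evenOdd ℝ) EI12_tr0 EI12_tr1]
    congr 1
    refine Finset.sum_congr rfl fun i _ => Finset.sum_congr rfl fun j _ => ?_
    rw [Finset.sum_eq_single (Fin.rev i)]
    · rw [Finset.sum_eq_single (Fin.rev j)]
      · rw [EI12_tr2, if_pos ⟨rfl, rfl⟩]
      · intro l _ hl
        rw [EI12_tr2, if_neg (fun h => hl h.2), mul_zero]
      · intro h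
        exact absurd (Finset.mem_univ _) h
    · intro k _ hk
      refine Finset.sum_eq_zero fun l _ => ?_
      rw [EI12_tr2, if_neg (fun h => hk h.1), mul_zero]
    · intro h
      exact absurd (Finset.mem_univ _) h
  rw [h]
  have r0 : Fin.rev (0 : Fin 6) = 5 := rfl
  have r1 : Fin.rev (1 : Fin 6) = 4 := rfl
  have r2 : Fin.rev (2 : Fin 6) = 3 := rfl
  have r3 : Fin.rev (3 : Fin 6) = 2 := rfl
  have r4 : Fin.rev (4 : Fin 6) = 1 := rfl
  have r5 : Fin.rev (5 : Fin 6) = 0 := rfl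
  have s0 : EI12_s 0 = 1 := rfl
  have s1 : EI12_s 1 = -1 := rfl
  have s2 : EI12_s 2 = 1 := rfl
  have s3 : EI12_s 3 = 1 := rfl
  have s4 : EI12_s 4 = -1 := rfl
  have s5 : EI12_s 5 = 1 := rfl
  have p0 : EI12_p 0 = 0 := rfl
  have p1 : EI12_p 1 = 0 := rfl
  have p2 : EI12_p 2 = 0 := rfl
  have p3 : EI12_p 3 = 1 := rfl
  have p4 : EI12_p 4 = 1 := rfl
  have p5 : EI12_p 5 = 2 := rfl
  have q0 : EI12_q 0 = 1 := rfl
  have q1 : EI12_q 1 = 2 := rfl
  have q2 : EI12_q 2 = 3 := rfl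
  have q3 : EI12_q 3 = 2 := rfl
  have q4 : EI12_q 4 = 3 := rfl
  have q5 : EI12_q 5 = 3 := rfl
  simp only [Fin.sum_univ_six, EI12_Q, pf2, r0, r1, r2, r3, r4, r5, s0, s1, s2, s3, s4, s5,
    p0, p1, p2, p3, p4, p5, q0, q1, q2, q3, q4, q5]
  push_cast
  ring

end NRF

end
end
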