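import Pool.Agent.Work.MP_7f974f_gt.Stmts_D4
import Pool.Agent.Work.MP_7f974f_gt.Bd.B08
import Pool.Agent.Work.MP_7f974f_gt.Bd.B07
import Pool.Agent.Work.MP_7f974f_gt.Bd.B04
import Pool.Agent.Work.MP_7f974f_gt.Stmts_G
import Pool.Agent.Work.MP_7f974f_gt.Bd.B05
import Pool.Agent.Work.MP_7f974f_gt.Bd.B10
import Pool.Agent.Work.MP_7f974f_gt.Bd.B01
import Pool.Agent.Work.MP_7f974f_gt.Bd.B02
import Pool.Agent.Work.MP_7f974f_gt.C9
import Pool.Agent.Work.MP_7f974f_gt.Stmts_K
import Pool.Agent.Work.MP_7f974f_gt.B1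

/-! Bundle of small proof modules (one section per former module). -/

section

/-!
G3: the embedding of the exterior bundle into a trivial bundle.
-/

set_option autoImplicit false

open scoped Manifold ContDiff Topology RealInnerProductSpace
open MeasureTheory Set

noncomputable section

namespace NRF

/-! ## Algebra -/

theorem G3_LamM_entry (A : E4 → Matrix (Fin 4) (Fin 4) ℝ) (k : WithTop ℕ∞) (z : E4)
    (h : ∀ a b, ContDiffAt ℝ k (fun w => A w a b) z) (s t : Lam) :
    ContDiffAt ℝ k (fun w => LamM (A w) s t) z := by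
  unfold LamM
  by_cases hc : s.card = t.card
  · simp only [Matrix.of_apply, dif_pos hc]
    simp only [Matrix.det_apply]
    refine ContDiffAt.sum fun σ _ => ?_
    refine ContDiffAt.const_smul _ ?_
    refine contDiffAt_prod fun i _ => ?_
    exact h _ _
  · simp only [Matrix.of_apply, dif_neg hc]
    exact contDiffAt_const

theorem G3_inv (la : claimLamA) (lb : claimLamB) :
    LamInv 1 ∧ LamInv (evenOdd ℝ) ∧ LamInv (gam ℝ) ∧ ∀ k, LamInv (degP ℝ k) := by
  refine ⟨fun O _ _ => by rw [mul_one, one_mul], fun O _ _ => (la ℝ).2.2.2.2.2 O,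
    fun O h1 h2 => (lb ℝ O h1).2.2.2.2 h2, fun k O _ _ => (la ℝ).2.2.2.2.1 O k⟩

theorem G3_conj (lb : claimLamB) (O : Matrix (Fin 4) (Fin 4) ℝ) (h1 : O.transpose * O = 1)
    (h2 : O.det = 1) (M : Matrix Lam Lam ℝ) (hM : LamInv M) :
    (LamM O).transpose * M * LamM O = M := by
  rw [Matrix.mul_assoc, ← hM O h1 h2, ← Matrix.mul_assoc, (lb ℝ O h1).1, one_mul]

section

variable {X : Type} [TopologicalSpace X] [ChartedSpace E4 X] {g : Metric X} {n : ℕ}
  (A : FAtlas X g n)

theorem G3_rho_of_mem (j : Fin (n + 1)) (x : X) (h : x ∈ (A.c j).psi.source) :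
    A.rhoX j x = A.rho j ((A.c j).psi x) := by
  unfold FAtlas.rhoX
  rw [Set.indicator_of_mem h]

theorem G3_rho_of_notMem (j : Fin (n + 1)) (x : X) (h : x ∉ (A.c j).psi.source) :
    A.rhoX j x = 0 := by
  unfold FAtlas.rhoX
  rw [Set.indicator_of_notMem h]

theorem G3_rho_sum (x : X) : ∑ j, A.rhoX j x ^ 2 = 1 := by
  rw [← A.rho_sum x]
  refine Finset.sum_congr rfl fun j _ => ?_
  by_cases h : x ∈ (A.c j).psi.source
  · rw [G3_rho_of_mem A j x h, Set.indicator_of_mem h]
  · rw [G3_rho_of_notMem A j x h, Set.indicator_of_notMem h]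
    norm_num

theorem G3_cx_mem (x : X) : x ∈ (A.cx x).psi.source :=
  (A.exists_index x).choose_spec.1

theorem G3_mul_transpose [IsManifold (𝓡 4) ∞ X] (fc : claimFCh) (lb : claimLamB)
    (hX : OrientedAtlas X) (c : FChart X g) (x : X) (hx : x ∈ c.psi.source) :
    A.Bm c x * (A.Bm c x).transpose = 1 := by
  ext s t
  rw [Matrix.mul_apply, Fintype.sum_prod_type]
  have h1 : ∀ j : Fin (n + 1), ∑ r : Lam, A.Bm c x s (j, r) * (A.Bm c x).transpose (j, r) t =
      A.rhoX j x ^ 2 * (1 : Matrix Lam Lam ℝ) s t := by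
    intro j
    by_cases h : x ∈ (A.c j).psi.source
    · have h2 := ((fc X hX g c (A.c j)).1 x ⟨hx, h⟩).1
      have h3 := (lb ℝ _ h2).2.1
      rw [← h3, Matrix.mul_apply, Finset.mul_sum]
      refine Finset.sum_congr rfl fun r _ => ?_
      simp only [FAtlas.Bm, Matrix.transpose_apply, Matrix.of_apply]
      ring
    · have h2 := G3_rho_of_notMem A j x h
      simp only [FAtlas.Bm, Matrix.transpose_apply, Matrix.of_apply, h2]
      simp
  rw [Finset.sum_congr rfl fun j _ => h1 j, ← Finset.sum_mul, G3_rho_sum, one_mul]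

theorem G3_change [IsManifold (𝓡 4) ∞ X] (fc : claimFCh) (la : claimLamA)
    (hX : OrientedAtlas X) (c c' : FChart X g) (x : X)
    (hx : x ∈ c.psi.source ∩ c'.psi.source) :
    A.Bm c' x = LamM (c'.O c x) * A.Bm c x := by
  ext s ⟨j, t⟩
  rw [Matrix.mul_apply]
  simp only [FAtlas.Bm, Matrix.of_apply]
  by_cases h : x ∈ (A.c j).psi.source
  · have h2 := ((fc X hX g c' c).1 x ⟨hx.2, hx.1⟩).2.2.2 (A.c j) h
    rw [← h2, (la ℝ).2.1, Matrix.mul_apply, Finset.mul_sum]
    refine Finset.sum_congr rfl fun r _ => ?_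
    ring
  · rw [G3_rho_of_notMem A j x h]
    simp

theorem G3_compact_pre [T2Space X] (j : Fin (n + 1)) :
    IsClosed ((A.c j).psi.symm '' Metric.closedBall (0 : E4) 1) := by
  have h1 : Metric.closedBall (0 : E4) 1 ⊆ (A.c j).psi.target :=
    (Metric.closedBall_subset_closedBall (by norm_num)).trans (A.ball j)
  exact ((isCompact_closedBall (0 : E4) 1).image_of_continuousOn
    ((A.c j).psi.continuousOn_symm.mono h1)).isClosed

theorem G3_rho_near [T2Space X] (j : Fin (n + 1)) (x : X) (h : x ∉ (A.c j).psi.source) :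
    ∀ᶠ y in 𝓝 x, A.rhoX j y = 0 := by
  have h1 : Metric.closedBall (0 : E4) 1 ⊆ (A.c j).psi.target :=
    (Metric.closedBall_subset_closedBall (by norm_num)).trans (A.ball j)
  have h2 : x ∉ (A.c j).psi.symm '' Metric.closedBall (0 : E4) 1 := by
    rintro ⟨w, hw, rfl⟩
    exact h ((A.c j).psi.map_target (h1 hw))
  filter_upwards [(G3_compact_pre A j).isOpen_compl.mem_nhds h2] with y hy
  by_cases h3 : y ∈ (A.c j).psi.source
  · rw [G3_rho_of_mem A j y h3]
    refine A.rho_supp j _ ?_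
    by_contra h4
    push Not at h4
    refine hy ⟨(A.c j).psi y, ?_, (A.c j).psi.left_inv h3⟩
    rw [mem_closedBall_zero_iff]
    exact h4.le
  · exact G3_rho_of_notMem A j y h3

theorem G3_Bm_contDiffAt [T2Space X] [IsManifold (𝓡 4) ∞ X] (fc : claimFCh)
    (hX : OrientedAtlas X) (c : FChart X g) (s : Lam) (q : Fin (n + 1) × Lam) (z : E4)
    (hz : z ∈ c.psi.target) :
    ContDiffAt ℝ ∞ (fun z => A.Bm c (c.psi.symm z) s q) z := by
  obtain ⟨j, t⟩ := q
  simp only [FAtlas.Bm, Matrix.of_apply]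
  by_cases h : c.psi.symm z ∈ (A.c j).psi.source
  · have hz2 : z ∈ (c.psi.symm.trans (A.c j).psi).source := by
      rw [OpenPartialHomeomorph.trans_source]
      exact ⟨hz, h⟩
    have ho := (c.psi.symm.trans (A.c j).psi).open_source.mem_nhds hz2
    refine ContDiffAt.mul ?_ ?_
    · have h1 : (fun w => A.rhoX j (c.psi.symm w)) =ᶠ[𝓝 z]
          fun w => A.rho j ((c.psi.symm.trans (A.c j).psi) w) := by
        filter_upwards [ho] with w hw
        rw [OpenPartialHomeomorph.trans_source] at hw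
        rw [G3_rho_of_mem A j _ hw.2]
        rfl
      refine ContDiffAt.congr_of_eventuallyEq ?_ h1
      exact (A.rho_smooth j).contDiffAt.comp z
        (((thm_N0 X c.psi c.sm (A.c j).psi (A.c j).sm).1 z hz2).contDiffAt ho)
    · refine G3_LamM_entry _ ∞ z (fun a b => ?_) s t
      exact ((fc X hX g c (A.c j)).2.2.1 a b z hz2).contDiffAt ho
  · have h1 := (c.psi.symm.continuousAt hz).eventually (G3_rho_near A j _ h)
    refine ContDiffAt.congr_of_eventuallyEq (contDiffAt_const (c := (0 : ℝ))) ?_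
    filter_upwards [h1] with w hw
    rw [hw, zero_mul]

/-- The matrix of `mulV` in any chart. -/
theorem G3_mulV [IsManifold (𝓡 4) ∞ X] (fc : claimFCh) (la : claimLamA) (lb : claimLamB)
    (hX : OrientedAtlas X) (M : Matrix Lam Lam ℝ) (hM : LamInv M) (c : FChart X g) (x : X)
    (hx : x ∈ c.psi.source) :
    A.mulV M x = Matrix.toEuclideanCLM (𝕜 := ℝ) ((A.Bm c x).transpose * M * A.Bm c x) := by
  unfold FAtlas.mulV
  have h1 := G3_change A fc la hX c (A.cx x) x ⟨hx, G3_cx_mem A x⟩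
  have h2 := (fc X hX g (A.cx x) c).1 x ⟨G3_cx_mem A x, hx⟩
  have h3 := G3_conj lb _ h2.1 h2.2.1 M hM
  refine congrArg _ ?_
  rw [h1, Matrix.transpose_mul]
  calc (A.Bm c x).transpose * (LamM ((A.cx x).O c x)).transpose * M *
        (LamM ((A.cx x).O c x) * A.Bm c x)
      = (A.Bm c x).transpose * ((LamM ((A.cx x).O c x)).transpose * M *
        LamM ((A.cx x).O c x)) * A.Bm c x := by simp only [Matrix.mul_assoc]
    _ = _ := by rw [h3]

theorem G3_loc [IsManifold (𝓡 4) ∞ X] (fc : claimFCh) (la : claimLamA) (lb : claimLamB)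
    (hX : OrientedAtlas X) (M : Matrix Lam Lam ℝ) (hM : LamInv M) (c : FChart X g) (x : X)
    (hx : x ∈ c.psi.source) (u : X → VV n) :
    A.loc c (fun y => A.mulV M y (u y)) (c.psi x) = M.mulVec (A.loc c u (c.psi x)) := by
  unfold FAtlas.loc
  simp only [c.psi.left_inv hx]
  rw [G3_mulV A fc la lb hX M hM c x hx, Matrix.ofLp_toEuclideanCLM, Matrix.mulVec_mulVec,
    Matrix.mulVec_mulVec]
  congr 1
  rw [← Matrix.mul_assoc, ← Matrix.mul_assoc, G3_mul_transpose A fc lb hX c x hx, one_mul]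

theorem G3_mulV_mulV [IsManifold (𝓡 4) ∞ X] (fc : claimFCh) (lb : claimLamB)
    (hX : OrientedAtlas X) (M M' : Matrix Lam Lam ℝ) (x : X) (v : VV n) :
    A.mulV M x (A.mulV M' x v) = A.mulV (M * M') x v := by
  have h1 := G3_mul_transpose A fc lb hX (A.cx x) x (G3_cx_mem A x)
  unfold FAtlas.mulV
  rw [← mul_apply_eq_comp, ← map_mul]
  refine congrArg (fun N => (Matrix.toEuclideanCLM (𝕜 := ℝ) N) v) ?_
  calc (A.Bm (A.cx x) x).transpose * M * A.Bm (A.cx x) x *
        ((A.Bm (A.cx x) x).transpose * M' * A.Bm (A.cx x) x)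
      = (A.Bm (A.cx x) x).transpose * M * (A.Bm (A.cx x) x * (A.Bm (A.cx x) x).transpose) * M' *
        A.Bm (A.cx x) x := by simp only [Matrix.mul_assoc]
    _ = _ := by rw [h1, Matrix.mul_one, Matrix.mul_assoc _ M M']

theorem G3_adj (M : Matrix Lam Lam ℝ) (x : X) (v w : VV n) :
    ⟪A.mulV M x v, w⟫ = ⟪v, A.mulV M.transpose x w⟫ := by
  unfold FAtlas.mulV
  rw [real_inner_comm, Matrix.inner_toEuclideanCLM, Matrix.inner_toEuclideanCLM]
  have h1 : (A.Bm (A.cx x) x).transpose * M.transpose * A.Bm (A.cx x) x =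
      ((A.Bm (A.cx x) x).transpose * M * A.Bm (A.cx x) x).transpose := by
    rw [Matrix.transpose_mul, Matrix.transpose_mul, Matrix.transpose_transpose, Matrix.mul_assoc]
  rw [h1, Matrix.mulVec_transpose, dotProduct_comm (WithLp.ofLp v), ← Matrix.dotProduct_mulVec]

theorem G3_Ck [T2Space X] [IsManifold (𝓡 4) ∞ X] (fc : claimFCh) (la : claimLamA)
    (lb : claimLamB) (ck : claimCk) (hX : OrientedAtlas X) (M : Matrix Lam Lam ℝ)
    (hM : LamInv M) (k : WithTop ℕ∞) (u : X → VV n) (x : X) (hk : k ≤ ∞) (hu : CkAt k u x) :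
    CkAt k (fun y => A.mulV M y (u y)) x := by
  have hx := G3_cx_mem A x
  refine (ck X (VV n) k _ hk).2 (A.cx x).psi (A.cx x).sm x hx ?_
  have hu2 := hu (A.cx x).psi (A.cx x).sm hx
  rw [contDiffAt_euclidean] at hu2 ⊢
  intro q
  have ht : (A.cx x).psi x ∈ (A.cx x).psi.target := (A.cx x).psi.map_source hx
  have h1 : (fun z => (A.mulV M ((A.cx x).psi.symm z) (u ((A.cx x).psi.symm z))) q)
      =ᶠ[𝓝 ((A.cx x).psi x)] fun z => ∑ q', (∑ t, (∑ s, A.Bm (A.cx x) ((A.cx x).psi.symm z) s q *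
        M s t) * A.Bm (A.cx x) ((A.cx x).psi.symm z) t q') * (u ((A.cx x).psi.symm z)) q' := by
    filter_upwards [(A.cx x).psi.open_target.mem_nhds ht] with z hz
    rw [G3_mulV A fc la lb hX M hM (A.cx x) _ ((A.cx x).psi.map_target hz)]
    rw [Matrix.ofLp_toEuclideanCLM]
    simp only [Matrix.mulVec, dotProduct, Matrix.mul_apply, Matrix.transpose_apply]
  refine ContDiffAt.congr_of_eventuallyEq ?_ h1
  have hB : ∀ s q', ContDiffAt ℝ k (fun z => A.Bm (A.cx x) ((A.cx x).psi.symm z) s q')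
      ((A.cx x).psi x) := fun s q' =>
    (G3_Bm_contDiffAt A fc hX (A.cx x) s q' _ ht).of_le hk
  refine ContDiffAt.sum fun q' _ => ContDiffAt.mul ?_ (hu2 q')
  refine ContDiffAt.sum fun t _ => ContDiffAt.mul ?_ (hB t q')
  exact ContDiffAt.sum fun s _ => ContDiffAt.mul (hB s q) contDiffAt_const

theorem G3_cont [T2Space X] [IsManifold (𝓡 4) ∞ X] (fc : claimFCh) (la : claimLamA)
    (lb : claimLamB) (ck : claimCk) (hX : OrientedAtlas X) (M : Matrix Lam Lam ℝ)
    (hM : LamInv M) : Continuous (A.mulV M) := by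
  rw [continuous_clm_apply]
  intro v
  exact ((ck X (VV n) 0 (fun y => A.mulV M y v) (by simp)).1.1 fun x =>
    G3_Ck A fc la lb ck hX M hM 0 (fun _ => v) x (by simp)
      fun psi hpsi hx => contDiffAt_const).continuous

end

theorem thm_Emb (h : claimFCh) (la : claimLamA) (lb : claimLamB) (_f3 : claimFR3)
    (ck : claimCk) : claimEmb := by
  intro X _ _ _ _ _ hX g n A
  refine ⟨fun c => ⟨fun x hx => G3_mul_transpose A h lb hX c x hx, fun s q z hz =>
    (G3_Bm_contDiffAt A h hX c s q z hz).contDiffWithinAt, fun c' x hx =>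
    G3_change A h la hX c c' x hx⟩, G3_inv la lb, fun M hM => ⟨fun c x hx =>
      ⟨G3_mulV A h la lb hX M hM c x hx, fun u => G3_loc A h la lb hX M hM c x hx u⟩,
      fun M' _ x v => G3_mulV_mulV A h lb hX M M' x v, G3_cont A h la lb ck hX M hM,
      fun x v => ?_, fun x v => ?_, fun k u x hk hu => G3_Ck A h la lb ck hX M hM k u x hk hu⟩,
    fun M x v w => G3_adj A M x v w⟩
  · unfold FAtlas.pV
    rw [G3_mulV_mulV A h lb hX, one_mul]
  · unfold FAtlas.pV
    rw [G3_mulV_mulV A h lb hX, mul_one]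

end NRF

end
end

section

/-!
G4a: the operators `d`, `δ`, `d + δ` on the trivial bundle do not depend on the chart.
-/

set_option autoImplicit false

open scoped Manifold ContDiff Topology RealInnerProductSpace
open MeasureTheory Set

noncomputable section

namespace NRF

/-! ### The operators depend only on the germ -/

theorem G4a_nabC_congr {G f : E4 → Matrix (Fin 4) (Fin 4) ℝ} {α β : E4 → Lam → ℝ} {y : E4}
    (h : α =ᶠ[𝓝 y] β) (i : Fin 4) : nabC G f i α y = nabC G f i β y := by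
  unfold nabC pd
  have h1 : ∀ s, fderiv ℝ (fun z => α z s) y = fderiv ℝ (fun z => β z s) y := fun s =>
    Filter.EventuallyEq.fderiv_eq (h.mono fun z hz => congrFun hz s)
  rw [h.eq_of_nhds]
  simp only [h1]

theorem G4a_diracC_congr {G f : E4 → Matrix (Fin 4) (Fin 4) ℝ} {α β : E4 → Lam → ℝ} {y : E4}
    (h : α =ᶠ[𝓝 y] β) : diracC G f α y = diracC G f β y := by
  unfold diracC
  simp only [G4a_nabC_congr h]

theorem G4a_dFC_congr {G f : E4 → Matrix (Fin 4) (Fin 4) ℝ} {α β : E4 → Lam → ℝ} {y : E4}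
    (h : α =ᶠ[𝓝 y] β) : dFC G f α y = dFC G f β y := by
  unfold dFC
  simp only [G4a_nabC_congr h]

theorem G4a_delFC_congr {G f : E4 → Matrix (Fin 4) (Fin 4) ℝ} {α β : E4 → Lam → ℝ} {y : E4}
    (h : α =ᶠ[𝓝 y] β) : delFC G f α y = delFC G f β y := by
  unfold delFC
  simp only [G4a_nabC_congr h]

/-! ### Regularity of the components -/

section

variable {X : Type} [TopologicalSpace X] [T2Space X] [CompactSpace X] [ChartedSpace E4 X]
  [IsManifold (𝓡 4) ∞ X] {g : Metric X} {n : ℕ} (A : FAtlas X g n)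

omit [T2Space X] [CompactSpace X] [IsManifold (𝓡 4) ∞ X] in
theorem G4a_loc_apply (c : FChart X g) (u : X → VV n) (z : E4) (s : Lam) :
    A.loc c u z s = ∑ q, A.Bm c (c.psi.symm z) s q * u (c.psi.symm z) q := rfl

/-- Components of a `C^k` function are `C^k`. -/
theorem G4a_loc_ck (ho : OrientedAtlas X) (he : claimEmb) {k : WithTop ℕ∞} (hk : k ≤ ∞)
    (c : FChart X g) {x : X} (hx : x ∈ c.psi.source) {u : X → VV n} (hu : CkAt k u x) :
    ContDiffAt ℝ k (A.loc c u) (c.psi x) := by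
  have h1 := ((he X ho g n A).1 c).2.1
  have h2 := hu c.psi c.sm hx
  rw [contDiffAt_pi]
  intro s
  have h3 : (fun z => A.loc c u z s) =
      fun z => ∑ q, A.Bm c (c.psi.symm z) s q * u (c.psi.symm z) q := rfl
  rw [h3]
  refine ContDiffAt.sum fun q _ => ContDiffAt.mul ?_ ?_
  · exact ((h1 s q).contDiffAt
      (c.psi.open_target.mem_nhds (c.psi.map_source hx))).of_le hk
  · exact (contDiffAt_euclidean.1 h2) q

theorem G4a_loc_diff (ho : OrientedAtlas X) (he : claimEmb)
    (c : FChart X g) {x : X} (hx : x ∈ c.psi.source) {u : X → VV n} (hu : CkAt 1 u x) (s : Lam) :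
    DifferentiableAt ℝ (fun z => A.loc c u z s) (c.psi x) :=
  ((contDiffAt_pi.1 (G4a_loc_ck A ho he (by exact_mod_cast le_top) c hx hu)) s).differentiableAt
    one_ne_zero

/-- Transformation of the components. -/
theorem G4a_loc_trans (ho : OrientedAtlas X) (h : claimFCh) (he : claimEmb) (la : claimLamA)
    (c c' : FChart X g) {x : X} (hx : x ∈ c.psi.source) (hx' : x ∈ c'.psi.source)
    (u : X → VV n) :
    A.loc c' u =ᶠ[𝓝 (c'.psi x)] fun z =>
      (LamM (frO (c'.psi.symm.trans c.psi) c'.f c.f z)).transpose.mulVec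
        (A.loc c u ((c'.psi.symm.trans c.psi) z)) := by
  have hz : c'.psi x ∈ (c'.psi.symm.trans c.psi).source := by
    rw [OpenPartialHomeomorph.trans_source]
    refine ⟨c'.psi.map_source hx', ?_⟩
    rw [mem_preimage, c'.psi.left_inv hx']
    exact hx
  filter_upwards [(c'.psi.symm.trans c.psi).open_source.mem_nhds hz] with z hz
  rw [OpenPartialHomeomorph.trans_source] at hz
  have hy' : c'.psi.symm z ∈ c'.psi.source := c'.psi.map_target hz.1
  have hy : c'.psi.symm z ∈ c.psi.source := hz.2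
  have h1 := ((he X ho g n A).1 c).2.2 c' _ ⟨hy, hy'⟩
  have h2 := ((h X ho g c c').1 _ ⟨hy, hy'⟩).2.2.1
  have h3 : frO (c'.psi.symm.trans c.psi) c'.f c.f z = c.O c' (c'.psi.symm z) := by
    unfold FChart.O
    rw [c'.psi.right_inv hz.1]
  have h4 : c.psi.symm ((c'.psi.symm.trans c.psi) z) = c'.psi.symm z := c.psi.left_inv hy
  rw [h3, ← (la ℝ).2.2.1, ← h2]
  unfold FAtlas.loc
  rw [h4, h1, Matrix.mulVec_mulVec]

/-- Transformation of the operators. -/
theorem G4a_trans (ho : OrientedAtlas X) (h : claimFCh) (he : claimEmb) (nd : claimNatD)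
    (la : claimLamA) (c c' : FChart X g) {x : X} (hx : x ∈ c.psi.source)
    (hx' : x ∈ c'.psi.source) {u : X → VV n} (hu : CkAt 1 u x) :
    dFC c'.G c'.f (A.loc c' u) (c'.psi x) =
        (LamM (c'.O c x)).mulVec (dFC c.G c.f (A.loc c u) (c.psi x)) ∧
      delFC c'.G c'.f (A.loc c' u) (c'.psi x) =
        (LamM (c'.O c x)).mulVec (delFC c.G c.f (A.loc c u) (c.psi x)) ∧
      diracC c'.G c'.f (A.loc c' u) (c'.psi x) =
        (LamM (c'.O c x)).mulVec (diracC c.G c.f (A.loc c u) (c.psi x)) := by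
  have hz : c'.psi x ∈ (c'.psi.symm.trans c.psi).source := by
    rw [OpenPartialHomeomorph.trans_source]
    refine ⟨c'.psi.map_source hx', ?_⟩
    rw [mem_preimage, c'.psi.left_inv hx']
    exact hx
  have hsub : (c'.psi.symm.trans c.psi).source ⊆ c'.psi.target := by
    rw [OpenPartialHomeomorph.trans_source]
    exact inter_subset_left
  have hF : FrameOn (c'.psi.symm.trans c.psi).source c'.G c'.f :=
    { met := ⟨(c'.psi.symm.trans c.psi).open_source,
        fun i j => (c'.frame.met.smooth i j).mono hsub,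
        fun y hy => c'.frame.met.posDef y (hsub hy)⟩
      smooth := fun i j => (c'.frame.smooth i j).mono hsub
      orth := fun y hy => c'.frame.orth y (hsub hy)
      det_pos := fun y hy => c'.frame.det_pos y (hsub hy) }
  have hmap : MapsTo (c'.psi.symm.trans c.psi) (c'.psi.symm.trans c.psi).source c.psi.target := by
    intro y hy
    have h1 := (c'.psi.symm.trans c.psi).map_source hy
    rw [OpenPartialHomeomorph.trans_target] at h1
    exact h1.1
  have key := nd (c'.psi.symm.trans c.psi).source c.psi.target (c'.psi.symm.trans c.psi)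
    c'.G c.G c'.f c.f hF c.frame (N0_smooth c'.sm c.sm) hmap
    (fun y hy => ((h X ho g c' c).2.2.2 y hy).2) (fun y hy => ((h X ho g c' c).2.2.2 y hy).1)
  have hphi : (c'.psi.symm.trans c.psi) (c'.psi x) = c.psi x :=
    congrArg c.psi (c'.psi.left_inv hx')
  obtain ⟨-, -, h5⟩ := key.2 _ hz
  obtain ⟨k1, k2, k3⟩ := h5 (A.loc c u) (by
    rw [hphi]
    exact fun s => G4a_loc_diff A ho he c hx hu s)
  have h2 := ((h X ho g c c').1 _ ⟨hx, hx'⟩).2.2.1
  have h3 : (LamM (frO (c'.psi.symm.trans c.psi) c'.f c.f (c'.psi x))).transpose =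
      LamM (c'.O c x) := by
    rw [h2, (la ℝ).2.2.1]
    rfl
  have hg := G4a_loc_trans A ho h he la c c' hx hx' u
  rw [h3, hphi] at k1 k2 k3
  exact ⟨(G4a_dFC_congr hg).trans k1, (G4a_delFC_congr hg).trans k2,
    (G4a_diracC_congr hg).trans k3⟩

/-- The embedding does not depend on the chart. -/
theorem G4a_emb_trans (ho : OrientedAtlas X) (h : claimFCh) (he : claimEmb) (lb : claimLamB)
    (c c' : FChart X g) {x : X} (hx : x ∈ c.psi.source)
    (hx' : x ∈ c'.psi.source) (β : Lam → ℝ) :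
    A.emb c' x ((LamM (c'.O c x)).mulVec β) = A.emb c x β := by
  have h1 := ((he X ho g n A).1 c).2.2 c' _ ⟨hx, hx'⟩
  have h2 := ((h X ho g c' c).1 _ ⟨hx', hx⟩).1
  have h3 := (lb ℝ (c'.O c x) h2).1
  unfold FAtlas.emb
  rw [h1, Matrix.transpose_mul, Matrix.mulVec_mulVec, Matrix.mul_assoc, h3, Matrix.mul_one]

theorem G4a_loc_emb (ho : OrientedAtlas X) (he : claimEmb) (c : FChart X g) {x : X}
    (hx : x ∈ c.psi.source) {v : X → VV n} {β : Lam → ℝ} (hv : v x = A.emb c x β) :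
    A.loc c v (c.psi x) = β := by
  have h1 := ((he X ho g n A).1 c).1 x hx
  unfold FAtlas.loc
  rw [c.psi.left_inv hx, hv]
  unfold FAtlas.emb
  rw [Matrix.mulVec_mulVec, h1, Matrix.one_mulVec]

omit [T2Space X] [CompactSpace X] [IsManifold (𝓡 4) ∞ X] in
theorem G4a_cx_mem (x : X) : x ∈ (A.cx x).psi.source := (A.exists_index x).choose_spec.1

end

theorem thm_OpV1 (h : claimFCh) (he : claimEmb) (nd : claimNatD) (_ck : claimCk)
    (la : claimLamA) (lb : claimLamB) : claimOpV1 := by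
  intro X _ _ _ _ _ ho g n A u x hu c hx
  obtain ⟨k1, k2, k3⟩ := G4a_trans A ho h he nd la c (A.cx x) hx (G4a_cx_mem A x) hu
  have h1 : A.dirV u x = A.emb c x (diracC c.G c.f (A.loc c u) (c.psi x)) := by
    rw [← G4a_emb_trans A ho h he lb c (A.cx x) hx (G4a_cx_mem A x), ← k3]
    rfl
  have h2 : A.dV u x = A.emb c x (dFC c.G c.f (A.loc c u) (c.psi x)) := by
    rw [← G4a_emb_trans A ho h he lb c (A.cx x) hx (G4a_cx_mem A x), ← k1]
    rfl
  have h3 : A.delV u x = A.emb c x (delFC c.G c.f (A.loc c u) (c.psi x)) := by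
    rw [← G4a_emb_trans A ho h he lb c (A.cx x) hx (G4a_cx_mem A x), ← k2]
    rfl
  exact ⟨h1, h2, h3, G4a_loc_emb A ho he c hx h1, G4a_loc_emb A ho he c hx h2,
    G4a_loc_emb A ho he c hx h3⟩

end NRF

end
end

section

/-!
# G5: integration by parts for `d + δ` and for `d`
-/

open scoped Manifold ContDiff Topology RealInnerProductSpace
open MeasureTheory Set

noncomputable section

namespace NRF

/-! ### Euclidean part -/

/-- The divergence theorem for a `C¹` vector field on an open set, which vanishes outside of a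
compact subset. -/
lemma G5_div_local (dv : claimDiv0) {U : Set E4} (hUo : IsOpen U) {W : Fin 4 → E4 → ℝ}
    (hW : ∀ k, ContDiffOn ℝ 1 (W k) U) {K : Set E4} (hK : IsCompact K) (hKU : K ⊆ U)
    (hW0 : ∀ k, ∀ y ∈ U, y ∉ K → W k y = 0) :
    ∫ y in U, ∑ k, pd k (W k) y = 0 := by
  obtain ⟨P, hP⟩ : ∃ P : Fin 4 → E4 → ℝ, P = fun k => U.indicator (W k) := ⟨_, rfl⟩
  have hPU : ∀ k, ∀ y ∈ U, P k =ᶠ[𝓝 y] W k := by
    intro k y hy
    filter_upwards [hUo.mem_nhds hy] with z hz
    rw [hP]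
    exact indicator_of_mem hz _
  have hP0 : ∀ k, ∀ z, z ∉ K → P k z = 0 := by
    intro k z hz
    rw [hP]
    by_cases hzU : z ∈ U
    · simp only
      rw [indicator_of_mem hzU, hW0 k z hzU hz]
    · exact indicator_of_notMem hzU _
  have hPK : ∀ k, ∀ y, y ∉ U → P k =ᶠ[𝓝 y] fun _ => 0 := by
    intro k y hy
    filter_upwards [hK.isClosed.isOpen_compl.mem_nhds fun h => hy (hKU h)] with z hz
    exact hP0 k z hz
  have hPc : ∀ k, ContDiff ℝ 1 (P k) := by
    intro k
    rw [contDiff_iff_contDiffAt]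
    intro y
    by_cases hy : y ∈ U
    · exact (((hW k) y hy).contDiffAt (hUo.mem_nhds hy)).congr_of_eventuallyEq (hPU k y hy)
    · exact contDiffAt_const.congr_of_eventuallyEq (hPK k y hy)
  have hPs : ∀ k, HasCompactSupport (P k) := fun k =>
    HasCompactSupport.of_support_subset_isCompact hK fun z hz => by
      by_contra h
      exact hz (hP0 k z h)
  have hdiv := dv P hPc hPs
  have hfull : ∫ y in U, ∑ k, pd k (P k) y = ∫ y, ∑ k, pd k (P k) y := by
    refine setIntegral_eq_integral_of_forall_compl_eq_zero fun y hy => ?_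
    refine Finset.sum_eq_zero fun k _ => ?_
    unfold pd
    rw [(hPK k y hy).fderiv_eq]
    simp
  rw [← hfull] at hdiv
  rw [← hdiv]
  refine setIntegral_congr_fun hUo.measurableSet fun y hy => ?_
  refine Finset.sum_congr rfl fun k _ => ?_
  unfold pd
  rw [(hPU k y hy).fderiv_eq]

lemma G5_nab_zero {G f : E4 → Matrix (Fin 4) (Fin 4) ℝ} {α : E4 → Lam → ℝ} {y : E4}
    (h : ∀ᶠ z in 𝓝 y, α z = 0) (i : Fin 4) : nabC G f i α y = 0 := by
  have h0 : α y = 0 := h.self_of_nhds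
  unfold nabC
  rw [h0, Matrix.mulVec_zero, add_zero]
  funext s
  have h1 : (fun z => α z s) =ᶠ[𝓝 y] fun _ => 0 := by
    filter_upwards [h] with z hz
    rw [hz]
    rfl
  unfold pd
  rw [h1.fderiv_eq]
  simp

lemma G5_dirac_zero {G f : E4 → Matrix (Fin 4) (Fin 4) ℝ} {α : E4 → Lam → ℝ} {y : E4}
    (h : ∀ᶠ z in 𝓝 y, α z = 0) : diracC G f α y = 0 := by
  unfold diracC
  refine Finset.sum_eq_zero fun i _ => Finset.sum_eq_zero fun a _ => ?_
  rw [G5_nab_zero h, Matrix.mulVec_zero, smul_zero]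

lemma G5_del_zero {G f : E4 → Matrix (Fin 4) (Fin 4) ℝ} {α : E4 → Lam → ℝ} {y : E4}
    (h : ∀ᶠ z in 𝓝 y, α z = 0) : delFC G f α y = 0 := by
  unfold delFC
  rw [neg_eq_zero]
  refine Finset.sum_eq_zero fun i _ => Finset.sum_eq_zero fun a _ => ?_
  rw [G5_nab_zero h, Matrix.mulVec_zero, smul_zero]

/-! ### On the manifold -/

section
variable {X : Type} [TopologicalSpace X] [ChartedSpace E4 X] {g : Metric X} {n : ℕ}

lemma G5_inner_emb (A : FAtlas X g n) (c : FChart X g) (x : X) (α : Lam → ℝ) (w : VV n) :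
    ⟪A.emb c x α, w⟫ = α ⬝ᵥ (A.Bm c x).mulVec (WithLp.ofLp w) := by
  rw [EuclideanSpace.inner_eq_star_dotProduct]
  unfold FAtlas.emb
  rw [star_trivial]
  show WithLp.ofLp w ⬝ᵥ (A.Bm c x).transpose.mulVec α = _
  rw [Matrix.dotProduct_mulVec, Matrix.vecMul_transpose, dotProduct_comm]

lemma G5_inner_emb' (A : FAtlas X g n) (c : FChart X g) (x : X) (α : Lam → ℝ) (w : VV n) :
    ⟪w, A.emb c x α⟫ = (A.Bm c x).mulVec (WithLp.ofLp w) ⬝ᵥ α := by
  rw [real_inner_comm, G5_inner_emb, dotProduct_comm]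

lemma G5_loc_zero (A : FAtlas X g n) (c : FChart X g) {v : X → VV n} {x : X}
    (hx : x ∈ c.psi.source) (h : ∀ᶠ z in 𝓝 x, v z = 0) :
    ∀ᶠ z in 𝓝 (c.psi x), A.loc c v z = 0 := by
  have hc : ContinuousAt c.psi.symm (c.psi x) := c.psi.continuousAt_symm (c.psi.map_source hx)
  have ht : Filter.Tendsto c.psi.symm (𝓝 (c.psi x)) (𝓝 x) := by
    have := hc.tendsto
    rwa [c.psi.left_inv hx] at this
  filter_upwards [ht.eventually h] with z hz
  unfold FAtlas.loc
  rw [hz]
  exact Matrix.mulVec_zero _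

lemma G5_emb_zero (A : FAtlas X g n) (c : FChart X g) (x : X) : A.emb c x 0 = 0 := by
  unfold FAtlas.emb
  rw [Matrix.mulVec_zero]
  rfl

lemma G5_cx_mem (A : FAtlas X g n) (x : X) : x ∈ (A.cx x).psi.source :=
  (A.exists_index x).choose_spec.1

lemma G5_dirV_zero (A : FAtlas X g n) {v : X → VV n} {x : X} (h : ∀ᶠ z in 𝓝 x, v z = 0) :
    A.dirV v x = 0 := by
  unfold FAtlas.dirV
  rw [G5_dirac_zero (G5_loc_zero A _ (G5_cx_mem A x) h), G5_emb_zero]

lemma G5_delV_zero (A : FAtlas X g n) {v : X → VV n} {x : X} (h : ∀ᶠ z in 𝓝 x, v z = 0) :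
    A.delV v x = 0 := by
  unfold FAtlas.delV
  rw [G5_del_zero (G5_loc_zero A _ (G5_cx_mem A x) h), G5_emb_zero]

lemma G5_cont [IsManifold (𝓡 4) ∞ X] {W : Type} [NormedAddCommGroup W] [NormedSpace ℝ W]
    {u : X → W} (hu : CkX 0 u) : Continuous u := by
  rw [continuous_iff_continuousAt]
  intro x
  have h1 := hu x (chartAt E4 x) (green_chart_mem x) (mem_chart_source E4 x)
  have h2 : ContinuousAt (fun z => u ((chartAt E4 x).symm z)) (chartAt E4 x x) :=
    h1.continuousAt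
  have h3 : ContinuousAt (chartAt E4 x) x := (chartAt E4 x).continuousAt (mem_chart_source E4 x)
  have h4 : ContinuousAt (fun y => u ((chartAt E4 x).symm (chartAt E4 x y))) x :=
    ContinuousAt.comp (f := chartAt E4 x) (g := fun z => u ((chartAt E4 x).symm z)) h2 h3
  refine h4.congr ?_
  filter_upwards [(chartAt E4 x).open_source.mem_nhds (mem_chart_source E4 x)] with y hy
  rw [(chartAt E4 x).left_inv hy]

lemma G5_read {W : Type} [NormedAddCommGroup W] [NormedSpace ℝ W] {k : WithTop ℕ∞}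
    {u : X → W} (hu : CkX k u) {psi : OpenPartialHomeomorph X E4} (hpsi : psi ∈ SmCh X) :
    ContDiffOn ℝ k (fun z => u (psi.symm z)) psi.target := by
  intro y hy
  have h := hu (psi.symm y) psi hpsi (psi.map_target hy)
  rw [psi.right_inv hy] at h
  exact h.contDiffWithinAt

end

section
variable {X : Type} [TopologicalSpace X] [T2Space X] [CompactSpace X] [ChartedSpace E4 X]
  [IsManifold (𝓡 4) ∞ X] [MeasurableSpace X] [BorelSpace X] {g : Metric X} {n : ℕ}

/-- Integration by parts for a function with support in one chart. -/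
lemma G5_chart (hv : claimVol) (he : claimEmb) (l5 : claimL5) (d0 : claimDiv0)
    (ho : OrientedAtlas X) (A : FAtlas X g n) (P Q : (X → VV n) → X → VV n) (c : FChart X g)
    (PC QC : (E4 → Lam → ℝ) → E4 → Lam → ℝ) (M : Fin 4 → Matrix Lam Lam ℝ) {u v : X → VV n}
    (hu1 : CkX 1 u) (hv1 : CkX 1 v) (hPu : Continuous (P u)) (hQv : Continuous (Q v))
    (hP : ∀ x ∈ c.psi.source, P u x = A.emb c x (PC (A.loc c u) (c.psi x)))
    (hQ : ∀ x ∈ c.psi.source, Q v x = A.emb c x (QC (A.loc c v) (c.psi x)))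
    (hQ0 : ∀ x, (∀ᶠ z in 𝓝 x, v z = 0) → Q v x = 0)
    (hdiv : ∀ (α β : E4 → Lam → ℝ), ∀ y ∈ c.psi.target,
      (∀ s, DifferentiableAt ℝ (fun z => α z s) y) →
      (∀ s, DifferentiableAt ℝ (fun z => β z s) y) →
      ∑ i, pd i (fun z => Real.sqrt (c.G z).det *
        ∑ a, c.f z i a * ((M a).mulVec (α z) ⬝ᵥ β z)) y =
          Real.sqrt (c.G y).det * (PC α y ⬝ᵥ β y - α y ⬝ᵥ QC β y))
    (hsupp : tsupport v ⊆ c.psi.source) :
    ∫ x, ⟪P u x, v x⟫ ∂g.vol = ∫ x, ⟪u x, Q v x⟫ ∂g.vol := by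
  have hfin : IsFiniteMeasure g.vol := (hv X g).1
  have huc : Continuous u := G5_cont fun x psi hpsi hx => (hu1 x psi hpsi hx).of_le (by norm_num)
  have hvc : Continuous v := G5_cont fun x psi hpsi hx => (hv1 x psi hpsi hx).of_le (by norm_num)
  have hint : ∀ f : X → ℝ, Continuous f → Integrable f g.vol := fun f hf =>
    hf.integrable_of_hasCompactSupport (HasCompactSupport.of_compactSpace f)
  have hc1 : Continuous fun x => ⟪P u x, v x⟫ := hPu.inner hvc
  have hc2 : Continuous fun x => ⟪u x, Q v x⟫ := huc.inner hQv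
  rw [← sub_eq_zero, ← integral_sub (hint _ hc1) (hint _ hc2)]
  have hzero : ∀ x, x ∉ c.psi.source → ⟪P u x, v x⟫ - ⟪u x, Q v x⟫ = 0 := by
    intro x hx
    have hx' : x ∉ tsupport v := fun h => hx (hsupp h)
    have h1 : v =ᶠ[𝓝 x] fun _ => 0 := notMem_tsupport_iff_eventuallyEq.1 hx'
    have h2 : v x = 0 := h1.self_of_nhds
    rw [h2, hQ0 x h1, inner_zero_right, inner_zero_right, sub_zero]
  rw [← setIntegral_eq_integral_of_forall_compl_eq_zero (s := c.psi.source) fun x hx => hzero x hx]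
  have hc3 : Continuous fun x => ⟪P u x, v x⟫ - ⟪u x, Q v x⟫ := hc1.sub hc2
  rw [((hv X g).2.2 c.psi c.sm).2 _ hc3.continuousOn]
  -- local data
  have hαβ : ∀ w : X → VV n, CkX 1 w → ∀ s, ContDiffOn ℝ 1 (fun z => A.loc c w z s) c.psi.target := by
    intro w hw s
    have hwr := G5_read hw c.sm
    have hB := ((he X ho g n A).1 c).2.1 s
    show ContDiffOn ℝ 1 (fun z => ∑ q, A.Bm c (c.psi.symm z) s q *
      (WithLp.ofLp (w (c.psi.symm z))) q) c.psi.target
    refine ContDiffOn.sum fun q _ => ((hB q).of_le (by simp)).mul ?_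
    exact (contDiffOn_euclidean.1 hwr) q
  have hαd : ∀ w : X → VV n, CkX 1 w → ∀ y ∈ c.psi.target, ∀ s,
      DifferentiableAt ℝ (fun z => A.loc c w z s) y := fun w hw y hy s =>
    (((hαβ w hw s) y hy).contDiffAt (c.psi.open_target.mem_nhds hy)).differentiableAt
      (by norm_num)
  have hK : IsCompact (c.psi '' tsupport v) :=
    (isClosed_tsupport v).isCompact.image_of_continuousOn (c.psi.continuousOn.mono hsupp)
  have hKt : c.psi '' tsupport v ⊆ c.psi.target := by
    rintro _ ⟨x, hx, rfl⟩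
    exact c.psi.map_source (hsupp hx)
  have hsq : ContDiffOn ℝ ∞ (fun y => Real.sqrt (c.G y).det) c.psi.target :=
    (l5.2 c.psi.target c.G c.frame.met).2.2.2.2.2.1
  have hloc := G5_div_local d0 (U := c.psi.target) c.psi.open_target
    (W := fun i z => Real.sqrt (c.G z).det *
      ∑ a, c.f z i a * ((M a).mulVec (A.loc c u z) ⬝ᵥ A.loc c v z)) (by
      intro i
      refine (hsq.of_le (by simp)).mul (ContDiffOn.sum fun a _ => ?_)
      refine ((c.frame.smooth i a).of_le (by simp)).mul ?_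
      show ContDiffOn ℝ 1 (fun z => ∑ s, (∑ t, M a s t * A.loc c u z t) * A.loc c v z s)
        c.psi.target
      refine ContDiffOn.sum fun s _ => ContDiffOn.mul (ContDiffOn.sum fun t _ => ?_)
        (hαβ v hv1 s)
      exact contDiffOn_const.mul (hαβ u hu1 t)) hK hKt (by
      intro i y hy hyK
      have h0 : v (c.psi.symm y) = 0 := by
        by_contra h
        apply hyK
        exact ⟨c.psi.symm y, subset_tsupport v h, c.psi.right_inv hy⟩
      have h1 : A.loc c v y = 0 := by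
        unfold FAtlas.loc
        rw [h0]
        exact Matrix.mulVec_zero _
      show Real.sqrt (c.G y).det *
        ∑ a, c.f y i a * ((M a).mulVec (A.loc c u y) ⬝ᵥ A.loc c v y) = 0
      rw [h1, Finset.sum_eq_zero, mul_zero]
      intro a _
      rw [dotProduct_zero, mul_zero])
  rw [← hloc]
  refine setIntegral_congr_fun c.psi.open_target.measurableSet fun y hy => ?_
  have hy' := c.psi.map_target hy
  refine Eq.trans ?_ (hdiv _ _ y hy (hαd u hu1 y hy) (hαd v hv1 y hy)).symm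
  show Real.sqrt (g.mcoef c.psi y).det * (⟪P u (c.psi.symm y), v (c.psi.symm y)⟫ -
    ⟪u (c.psi.symm y), Q v (c.psi.symm y)⟫) = _
  rw [hP _ hy', hQ _ hy', c.psi.right_inv hy, G5_inner_emb, G5_inner_emb']
  rfl

/-- From one chart to the whole manifold. -/
lemma G5_glob (hvol : claimVol) (A : FAtlas X g n) (P Q : (X → VV n) → X → VV n)
    (hPc : ∀ u, CkX 1 u → Continuous (P u)) (hQc : ∀ u, CkX 1 u → Continuous (Q u))
    (hQadd : ∀ u v, CkX 1 u → CkX 1 v → ∀ x, Q (fun y => u y + v y) x = Q u x + Q v x)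
    (hloc : ∀ c : FChart X g, ∀ u v, CkX 1 u → CkX 1 v → tsupport v ⊆ c.psi.source →
      ∫ x, ⟪P u x, v x⟫ ∂g.vol = ∫ x, ⟪u x, Q v x⟫ ∂g.vol)
    {u v : X → VV n} (hu1 : CkX 1 u) (hv1 : CkX 1 v) :
    ∫ x, ⟪P u x, v x⟫ ∂g.vol = ∫ x, ⟪u x, Q v x⟫ ∂g.vol := by
  have hfin : IsFiniteMeasure g.vol := (hvol X g).1
  have hcont : ∀ w : X → VV n, CkX 1 w → Continuous w := fun w hw =>
    G5_cont fun x psi hpsi hx => (hw x psi hpsi hx).of_le (by norm_num)
  have hint : ∀ f : X → ℝ, Continuous f → Integrable f g.vol := fun f hf =>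
    hf.integrable_of_hasCompactSupport (HasCompactSupport.of_compactSpace f)
  obtain ⟨f, hf⟩ := SmoothPartitionOfUnity.exists_isSubordinate (𝓡 4) (s := (univ : Set X))
    isClosed_univ (fun i : Fin (n + 1) => (A.c i).psi.source)
    (fun i => (A.c i).psi.open_source) (by
      intro x _
      obtain ⟨i, hi, -⟩ := A.exists_index x
      exact mem_iUnion.2 ⟨i, hi⟩)
  have hsum : ∀ x, ∑ i, f i x = 1 := fun x => by
    have := f.sum_eq_one (mem_univ x)
    rwa [finsum_eq_sum_of_fintype] at this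
  have hfc : ∀ i, ContMDiff (𝓡 4) 𝓘(ℝ, ℝ) 1 (fun x => f i x) := fun i =>
    (f i).contMDiff.of_le (by norm_cast)
  have hwi : ∀ i, CkX 1 (fun x => f i x • v x) := by
    intro i x psi hpsi hx
    have h1 := (((green_read (n := 1) (by norm_cast) (hfc i) hpsi) _
      (psi.map_source hx)).contDiffAt (psi.open_target.mem_nhds (psi.map_source hx)))
    exact h1.smul (hv1 x psi hpsi hx)
  have hpiece : ∀ i, ∫ x, ⟪P u x, f i x • v x⟫ ∂g.vol =
      ∫ x, ⟪u x, Q (fun x => f i x • v x) x⟫ ∂g.vol := fun i =>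
    hloc (A.c i) u _ hu1 (hwi i) ((tsupport_smul_subset_left _ _).trans (hf i))
  have hz : CkX 1 (fun _ : X => (0 : VV n)) := fun x psi hpsi hx => contDiffAt_const
  have hQsum : ∀ s : Finset (Fin (n + 1)), CkX 1 (fun x => ∑ i ∈ s, f i x • v x) ∧
      ∀ x, Q (fun x => ∑ i ∈ s, f i x • v x) x = ∑ i ∈ s, Q (fun x => f i x • v x) x := by
    classical
    intro s
    induction s using Finset.induction_on with
    | empty =>
      simp only [Finset.sum_empty]
      refine ⟨hz, fun x => ?_⟩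
      have h := hQadd _ _ hz hz x
      simp only [add_zero] at h
      exact left_eq_add.1 h
    | insert a s ha ih =>
      simp only [Finset.sum_insert ha]
      refine ⟨fun x psi hpsi hx => (hwi a x psi hpsi hx).add (ih.1 x psi hpsi hx), fun x => ?_⟩
      rw [hQadd _ _ (hwi a) ih.1 x, ih.2 x]
  have hvv : (fun x => ∑ i, f i x • v x) = v := by
    funext x
    rw [← Finset.sum_smul, hsum, one_smul]
  have hQv : ∀ x, Q v x = ∑ i, Q (fun x => f i x • v x) x := by
    intro x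
    have := (hQsum Finset.univ).2 x
    rwa [hvv] at this
  calc ∫ x, ⟪P u x, v x⟫ ∂g.vol = ∫ x, ∑ i, ⟪P u x, f i x • v x⟫ ∂g.vol := by
        refine integral_congr_ae (Filter.Eventually.of_forall fun x => ?_)
        simp only
        rw [← inner_sum, ← Finset.sum_smul, hsum, one_smul]
    _ = ∑ i, ∫ x, ⟪P u x, f i x • v x⟫ ∂g.vol := by
        rw [integral_finsetSum]
        intro i _
        exact hint _ ((hPc u hu1).inner (hcont _ (hwi i)))
    _ = ∑ i, ∫ x, ⟪u x, Q (fun x => f i x • v x) x⟫ ∂g.vol :=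
        Finset.sum_congr rfl fun i _ => hpiece i
    _ = ∫ x, ∑ i, ⟪u x, Q (fun x => f i x • v x) x⟫ ∂g.vol := by
        rw [integral_finsetSum]
        intro i _
        exact hint _ ((hcont u hu1).inner (hQc _ (hwi i)))
    _ = ∫ x, ⟪u x, Q v x⟫ ∂g.vol := by
        refine integral_congr_ae (Filter.Eventually.of_forall fun x => ?_)
        simp only
        rw [← inner_sum, hQv x]

end

theorem thm_SymV (h : claimOpV) (he : claimEmb) (dd : claimDivD) (d0 : claimDiv0) (v : claimVol)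
    (l5 : claimL5) : claimSymV := by
  intro X _ _ _ _ _ _ _ ho g n A u w hu hw
  have h01 : ∀ w : X → VV n, CkX 1 w → ∀ x, CkAt (((0 : ℕ) : WithTop ℕ∞) + 1) w x := by
    intro w hw x
    have e : (((0 : ℕ) : WithTop ℕ∞) + 1) = 1 := by norm_num
    rw [e]
    exact hw x
  have hdc : ∀ w, CkX 1 w → Continuous (A.dirV w) := fun w hw => G5_cont fun x => by
    have h1 := ((h X ho g n A w x (hw x)).2.2.2.2.2.2.2.2.2.2.1 0 (h01 w hw x)).1
    simpa using h1
  have hdV : ∀ w, CkX 1 w → Continuous (A.dV w) := fun w hw => G5_cont fun x => by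
    have h1 := ((h X ho g n A w x (hw x)).2.2.2.2.2.2.2.2.2.2.1 0 (h01 w hw x)).2.1
    simpa using h1
  have hdl : ∀ w, CkX 1 w → Continuous (A.delV w) := fun w hw => G5_cont fun x => by
    have h1 := ((h X ho g n A w x (hw x)).2.2.2.2.2.2.2.2.2.2.1 0 (h01 w hw x)).2.2
    simpa using h1
  constructor
  · refine G5_glob v A A.dirV A.dirV hdc hdc ?_ ?_ hu hw
    · intro a b ha hb x
      exact ((h X ho g n A a x (ha x)).2.2.2.2.2.2.2.2.1 b (hb x)).1
    · intro c a b ha hb hs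
      exact G5_chart v he l5 d0 ho A A.dirV A.dirV c (diracC c.G c.f) (diracC c.G c.f) (clf ℝ)
        ha hb (hdc a ha) (hdc b hb)
        (fun x hx => ((h X ho g n A a x (ha x)).1 c hx).1)
        (fun x hx => ((h X ho g n A b x (hb x)).1 c hx).1)
        (fun x hx => G5_dirV_zero A hx)
        (fun α β y hy hα hβ => (dd c.psi.target c.G c.f c.frame α β y hy hα hβ).1) hs
  · refine G5_glob v A A.dV A.delV hdV hdl ?_ ?_ hu hw
    · intro a b ha hb x
      exact ((h X ho g n A a x (ha x)).2.2.2.2.2.2.2.2.1 b (hb x)).2.2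
    · intro c a b ha hb hs
      exact G5_chart v he l5 d0 ho A A.dV A.delV c (dFC c.G c.f) (delFC c.G c.f) (eps ℝ)
        ha hb (hdV a ha) (hdl b hb)
        (fun x hx => ((h X ho g n A a x (ha x)).1 c hx).2.1)
        (fun x hx => ((h X ho g n A b x (hb x)).1 c hx).2.2.1)
        (fun x hx => G5_delV_zero A hx)
        (fun α β y hy hα hβ => (dd c.psi.target c.G c.f c.frame α β y hy hα hβ).2) hs

end NRF

end
end

section

/-!
# G7: the heat data of `(d + δ)²`
-/

set_option autoImplicit false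

open scoped Manifold ContDiff Topology RealInnerProductSpace
open MeasureTheory Set

noncomputable section

namespace NRF

/-! ### Freezing the time -/

section freeze

variable {V : Type} [NormedAddCommGroup V] [InnerProductSpace ℝ V]

/-- The model with coefficients frozen at time `0`. -/
def G7_freezeM (m : Model V) : Model V where
  a := fun q => m.a (0, q.2)
  b := fun q => m.b (0, q.2)
  c := fun q => m.c (0, q.2)
  chi := m.chi
  a_smooth := fun i j => (m.a_smooth i j).comp (contDiff_const.prodMk contDiff_snd)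
  b_smooth := fun i => (m.b_smooth i).comp (contDiff_const.prodMk contDiff_snd)
  c_smooth := m.c_smooth.comp (contDiff_const.prodMk contDiff_snd)
  chi_smooth := m.chi_smooth
  a_pos := fun _ => m.a_pos _
  a_out := fun q hq => m.a_out (0, q.2) hq
  b_out := fun q hq => m.b_out (0, q.2) hq
  c_out := fun q hq => m.c_out (0, q.2) hq
  chi_nonneg := m.chi_nonneg
  chi_supp := m.chi_supp

/-- The geometry with all the models frozen at time `0`. -/
def G7_freeze {X : Type} [TopologicalSpace X] (g : Geom X V) : Geom X V where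
  I := g.I
  J := g.J
  finJ := g.finJ
  mod := g.mod
  model := fun j => G7_freezeM (g.model j)
  psi := g.psi
  target := g.target
  locfin := g.locfin
  mult := g.mult
  part := g.part
  trans_smooth := g.trans_smooth
  trans_bound := g.trans_bound
  compat := fun i i' x u _ hx h hu => g.compat i i' x u 0 hx h hu

end freeze

theorem G7_etaC_zero {x : E4} (hx : 2 ≤ ‖x‖) : etaC x = 0 := by
  refine etaBump.zero_of_le_dist ?_
  simpa [dist_zero_right, etaBump] using hx

/-! ### Regularity classes -/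

section ck

variable {X : Type} [TopologicalSpace X] [ChartedSpace E4 X] [IsManifold (𝓡 4) ∞ X]
  {V : Type} [NormedAddCommGroup V] [InnerProductSpace ℝ V]

theorem G7_ck (ck : claimCk) (g : Geom X V) (hg : ∀ i, g.psi i ∈ SmCh X) (k : WithTop ℕ∞)
    (hk : k ≤ ∞) (f : X → V) :
    (∀ i, ContDiff ℝ k fun x => etaC x • f ((g.psi i).symm x)) ↔ CkX k f := by
  constructor
  · intro h y
    have hs := g.ch_source y
    have hn := g.ch_norm y
    refine (ck X V k f hk).2 (g.psi (g.ch y)) (hg _) y hs ?_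
    refine (h (g.ch y)).contDiffAt.congr_of_eventuallyEq ?_
    filter_upwards [etaC_ev (x := g.psi (g.ch y) y) (by linarith)] with z hz
    rw [hz, one_smul]
  · intro h i
    rw [contDiff_iff_contDiffAt]
    intro x
    by_cases hx : x ∈ (g.psi i).target
    · have h1 := h ((g.psi i).symm x) (g.psi i) (hg i) ((g.psi i).map_target hx)
      rw [(g.psi i).right_inv hx] at h1
      exact (etaC_smooth.of_le hk).contDiffAt.smul h1
    · have h2 : 2 < ‖x‖ := by
        by_contra h3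
        push Not at h3
        refine hx (g.target i ?_)
        rw [mem_closedBall_zero_iff]
        linarith
      have h4 : (fun x => etaC x • f ((g.psi i).symm x)) =ᶠ[𝓝 x] fun _ => 0 := by
        have h5 : ∀ᶠ z : E4 in 𝓝 x, 2 < ‖z‖ :=
          continuous_norm.continuousAt.eventually_const_lt h2
        filter_upwards [h5] with z hz
        rw [G7_etaC_zero hz.le, zero_smul]
      exact contDiffAt_const.congr_of_eventuallyEq h4

theorem G7_cont (ck : claimCk) {W : Type} [NormedAddCommGroup W] [NormedSpace ℝ W] {f : X → W}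
    (h : CkX 0 f) : Continuous f :=
  ((ck X W 0 f (by simp)).1.1 h).continuous

omit [IsManifold (𝓡 4) ∞ X] in
theorem G7_ck_le {W : Type} [NormedAddCommGroup W] [NormedSpace ℝ W] {f : X → W}
    {k l : WithTop ℕ∞} (hl : l ≤ k) (h : CkX k f) : CkX l f :=
  fun x psi hpsi hx => (h x psi hpsi hx).of_le hl

theorem G7_comp (ck : claimCk) {n : ℕ} {k : WithTop ℕ∞} (hk : k ≤ ∞) {u : X → VV n}
    (hu : CkX k u) (q : Fin (n + 1) × Lam) : ContMDiff (𝓡 4) 𝓘(ℝ, ℝ) k (fun y => u y q) :=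
  (ck X ℝ k _ hk).1.1 fun x psi hpsi hx => (contDiffAt_euclidean.1 (hu x psi hpsi hx)) q

end ck

/-! ### Gradients -/

section grad

variable {X : Type} [TopologicalSpace X] [ChartedSpace E4 X]

theorem G7_grad_symm (g : Metric X) (u v : X → ℝ) (x : X) : g.gradIn u v x = g.gradIn v u x := by
  unfold Metric.gradIn gradInC
  have hp : (g.coef (chAt x) (chartAt E4 x x)).PosDef :=
    g.posDef (chAt x) _ (mem_chart_target E4 x)
  have hs : ∀ i j, (g.coef (chAt x) (chartAt E4 x x))⁻¹ i j =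
      (g.coef (chAt x) (chartAt E4 x x))⁻¹ j i := by
    intro i j
    have := hp.inv.isHermitian.apply j i
    simpa using this
  rw [Finset.sum_comm]
  refine Finset.sum_congr rfl fun i _ => Finset.sum_congr rfl fun j _ => ?_
  rw [hs j i]
  ring

theorem G7_grad_nonneg (l3 : claimL3) (g : Metric X) (u : X → ℝ) (x : X) :
    0 ≤ g.gradIn u u x := by
  unfold Metric.gradIn gradInC
  have hp : (g.coef (chAt x) (chartAt E4 x x)).PosDef :=
    g.posDef (chAt x) _ (mem_chart_target E4 x)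
  exact l3.2.1 _ (fun i => pd i (u ∘ (chartAt E4 x).symm) (chartAt E4 x x)) hp.inv

end grad

/-! ### The quadratic form of the operator -/

section form

variable {X : Type} [TopologicalSpace X] [T2Space X] [CompactSpace X] [ChartedSpace E4 X]
  [IsManifold (𝓡 4) ∞ X] [MeasurableSpace X] [BorelSpace X]

theorem G7_lap (gr : claimGreen) (v : claimVol) (n1 : claimN1) (n2 : claimN2) (l5 : claimL5)
    (ck : claimCk) {g : Metric X} {n : ℕ} (A : FAtlas X g n) {u w : X → VV n} (hu : CkX 2 u)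
    (hw : CkX 1 w) :
    Integrable (fun x => ⟪A.lapV u x, w x⟫) g.vol ∧
    ∫ x, ⟪A.lapV u x, w x⟫ ∂g.vol =
      -∑ q, ∫ x, g.gradIn (fun y => w y q) (fun y => u y q) x ∂g.vol := by
  have hfin : IsFiniteMeasure g.vol := (v X g).1
  have hint : ∀ f : X → ℝ, Continuous f → Integrable f g.vol := fun f hf =>
    hf.integrable_of_hasCompactSupport (HasCompactSupport.of_compactSpace f)
  have hu' : ∀ q, ContMDiff (𝓡 4) 𝓘(ℝ, ℝ) 2 (fun y => u y q) := fun q =>
    G7_comp ck (by norm_cast) hu q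
  have hw' : ∀ q, ContMDiff (𝓡 4) 𝓘(ℝ, ℝ) 1 (fun y => w y q) := fun q =>
    G7_comp ck (by norm_cast) hw q
  have hc : ∀ q, Continuous fun x => w x q * g.lapl (fun y => u y q) x := fun q =>
    (hw' q).continuous.mul (green_lapl_cont n1 n2 l5 g (hu' q))
  have e : (fun x => ⟪A.lapV u x, w x⟫) = fun x => ∑ q, w x q * g.lapl (fun y => u y q) x := by
    funext x
    rw [PiLp.inner_apply]
    refine Finset.sum_congr rfl fun q _ => ?_
    show ⟪g.lapl (fun y => u y q) x, w x q⟫ = _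
    simp
  rw [e]
  refine ⟨hint _ (continuous_finsetSum _ fun q _ => hc q), ?_⟩
  rw [integral_finsetSum _ fun q _ => hint _ (hc q), ← Finset.sum_neg_distrib]
  exact Finset.sum_congr rfl fun q _ => gr X g _ _ (hu' q) (hw' q)

omit [MeasurableSpace X] [BorelSpace X] in
theorem G7_q_symm (he : claimEmb) (hO : OrientedAtlas X) {g : Metric X} {n : ℕ}
    (A : FAtlas X g n) (u w : X → VV n) (x : X) : ⟪A.qV u x, w x⟫ = ⟪u x, A.qV w x⟫ := by
  unfold FAtlas.qV
  rw [inner_sub_left, inner_sub_right]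
  refine congrArg₂ HSub.hSub rfl ?_
  have := (he X hO g n A).2.2.2 1 x (u x) (w x)
  rw [Matrix.transpose_one] at this
  exact this

omit [MeasurableSpace X] [BorelSpace X] in
theorem G7_q_ck (he : claimEmb) (hO : OrientedAtlas X) {g : Metric X} {n : ℕ}
    (A : FAtlas X g n) {k : WithTop ℕ∞} (hk : k ≤ ∞) {u : X → VV n} (hu : CkX k u) :
    CkX k (A.qV u) := by
  intro x psi hpsi hx
  have h1 := (he X hO g n A).2.1.1
  have h2 := ((he X hO g n A).2.2.1 1 h1).2.2.2.2.2 k u x hk (hu x)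
  exact (hu x psi hpsi hx).sub (h2 psi hpsi hx)

theorem G7_form (s : claimSymV) (o : claimOpV) (he : claimEmb) (gr : claimGreen) (v : claimVol)
    (n1 : claimN1) (n2 : claimN2) (l5 : claimL5) (ck : claimCk) (hO : OrientedAtlas X)
    {g : Metric X} {n : ℕ} (A : FAtlas X g n) {f h : X → VV n} (hf : CkX 2 f) (hh : CkX 2 h) :
    ∫ x, ⟪A.LV f x, h x⟫ ∂g.vol = ∫ x, ⟪A.dirV f x, A.dirV h x⟫ ∂g.vol +
      ∑ q, ∫ x, g.gradIn (fun y => A.qV h y q) (fun y => A.qV f y q) x ∂g.vol := by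
  have hfin : IsFiniteMeasure g.vol := (v X g).1
  have hint : ∀ f : X → ℝ, Continuous f → Integrable f g.vol := fun f hf =>
    hf.integrable_of_hasCompactSupport (HasCompactSupport.of_compactSpace f)
  have h21 : (1 : WithTop ℕ∞) ≤ 2 := by norm_num
  have hdf : CkX 1 (A.dirV f) := fun x =>
    ((o X hO g n A f x (G7_ck_le h21 hf x)).2.2.2.2.2.2.2.2.2.2.1 1
      (by simpa [one_add_one_eq_two] using hf x)).1
  have hddf : CkX 0 (A.dirV (A.dirV f)) := fun x => by
    have := ((o X hO g n A (A.dirV f) x (hdf x)).2.2.2.2.2.2.2.2.2.2.1 0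
      (by simpa using hdf x)).1
    simpa using this
  have hh1 := G7_ck_le h21 hh
  have hc1 : Continuous (A.dirV (A.dirV f)) := G7_cont ck hddf
  have hc2 : Continuous h := G7_cont ck (G7_ck_le (by norm_num) hh)
  have hi1 : Integrable (fun x => ⟪A.dirV (A.dirV f) x, h x⟫) g.vol := hint _ (hc1.inner hc2)
  obtain ⟨hi2, hl⟩ := G7_lap gr v n1 n2 l5 ck A (G7_q_ck he hO A (by norm_cast) hf)
    (G7_ck_le h21 (G7_q_ck he hO A (by norm_cast) hh))
  have e : (fun x => ⟪A.LV f x, h x⟫) = fun x => ⟪A.dirV (A.dirV f) x, h x⟫ -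
      ⟪A.lapV (A.qV f) x, A.qV h x⟫ := by
    funext x
    rw [← G7_q_symm he hO A (A.lapV (A.qV f)) h x, ← inner_sub_left]
    rfl
  rw [e, integral_sub hi1 hi2, hl, (s X hO g n A (A.dirV f) h hdf hh1).1]
  ring

end form

/-! ### The theorem -/

theorem thm_HeatV (l : claimLocV) (s : claimSymV) (o : claimOpV) (he : claimEmb)
    (gx : claimGeomX) (gr : claimGreen) (v : claimVol) (n1 : claimN1) (l5 : claimL5)
    (ck : claimCk) (n2 : claimN2) (l3 : claimL3) : claimHeatV := by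
  intro X _ _ _ _ _ _ _ _ hO g n A
  choose b cc hb hcc hL using fun i => l X hO g n A (A.c i)
  have hmet : ∀ i, MetOn (A.c i).psi.target (A.c i).G := fun i =>
    (n1 X g).2.1 _ (A.c i).sm
  have hl5 := fun i => l5.2 _ _ (hmet i)
  obtain ⟨g0, ι, hpsi, hchi, hmod⟩ := gx X (VV n) n (fun i => (A.c i).psi) A.chi
    (fun i z => ((A.c i).G z)⁻¹) b cc A.LV (fun i => (A.c i).sm) A.ball
    (fun i => ⟨A.chi_smooth i, A.chi_nonneg i, A.chi_supp i⟩) A.chi_sum
    (fun i => ⟨fun j k => (hl5 i).1 j k, fun z hz => ((hmet i).posDef z hz).inv, hb i, hcc i⟩)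
    (fun i z hz f hf => hL i z hz f hf)
  -- the operator of the frozen models
  have hop : ∀ (i : g0.I) (t : ℝ) (x : E4), x ∈ Metric.ball 0 (5 / 2) → ∀ f : X → VV n,
      ContDiffAt ℝ 2 (fun w => f ((g0.psi i).symm w)) x →
      (G7_freezeM (g0.mdl i)).op t (fun w => f ((g0.psi i).symm w)) x =
        A.LV f ((g0.psi i).symm x) := by
    intro i t x hx f hf
    obtain ⟨h1, h2, h3⟩ := hmod i 0 x hx
    have hx3 : x ∈ (A.c (ι i)).psi.target :=
      A.ball _ (Metric.ball_subset_closedBall (Metric.ball_subset_ball (by norm_num) hx))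
    rw [hpsi i] at hf ⊢
    rw [hL (ι i) x hx3 f hf]
    show -(∑ j, ∑ k, (g0.mdl i).a (0, x) j k •
      pd j (pd k fun w => f ((A.c (ι i)).psi.symm w)) x) +
        (∑ j, (g0.mdl i).b (0, x) j (pd j (fun w => f ((A.c (ι i)).psi.symm w)) x)) +
          (g0.mdl i).c (0, x) (f ((A.c (ι i)).psi.symm x)) = _
    rw [h1, h2, h3]
  have hg : ∀ i, (G7_freeze g0).psi i ∈ SmCh X := fun i => by
    show g0.psi i ∈ SmCh X
    rw [hpsi i]
    exact (A.c (ι i)).sm
  have hLL : ∀ f, CkX 2 f → ∀ y, (G7_freeze g0).L 0 f y = A.LV f y := by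
    intro f hf y
    have hs : y ∈ (g0.psi ((G7_freeze g0).ch y)).source := (G7_freeze g0).ch_source y
    have hn : ‖g0.psi ((G7_freeze g0).ch y) y‖ < 1 := (G7_freeze g0).ch_norm y
    show (G7_freezeM (g0.mdl ((G7_freeze g0).ch y))).op 0
      (fun z => f ((g0.psi ((G7_freeze g0).ch y)).symm z)) (g0.psi ((G7_freeze g0).ch y) y) = _
    rw [hop _ 0 _ (by rw [mem_ball_zero_iff]; linarith) f (hf y _ (hg _) hs),
      (g0.psi _).left_inv hs]
  have hC2 : ∀ f, (G7_freeze g0).C2 f ↔ CkX 2 f := fun f =>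
    G7_ck ck (G7_freeze g0) hg 2 (by norm_cast) f
  have hsub : ∀ i, Metric.ball (0 : E4) 3 ⊆ (A.c i).psi.target := fun i =>
    Metric.ball_subset_closedBall.trans (A.ball i)
  let D : HeatData X (VV n) :=
    { g := G7_freeze g0
      mu := g.vol
      fin := (v X g).1
      a_const := fun _ _ _ => rfl
      b_const := fun _ _ _ => rfl
      c_const := fun _ _ _ => rfl
      dens := fun i x => Real.sqrt ((A.c (ι i)).G x).det
      dens_smooth := fun i => ((hl5 (ι i)).2.2.2.2.2.1).mono (hsub _)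
      dens_pos := fun i x hx => Real.sqrt_pos.2 (((hmet (ι i)).posDef x (hsub _ hx)).det_pos)
      dens_eq := by
        intro i f hf h0
        have hpi : (G7_freeze g0).psi i = (A.c (ι i)).psi := hpsi i
        rw [hpi] at h0 ⊢
        have hb2 : Metric.closedBall (0 : E4) 2 ⊆ (A.c (ι i)).psi.target :=
          (Metric.closedBall_subset_closedBall (by norm_num)).trans (A.ball _)
        rw [← setIntegral_eq_integral_of_forall_compl_eq_zero (s := (A.c (ι i)).psi.source)
          (fun y hy => h0 y (by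
            rintro ⟨z, hz, rfl⟩
            exact hy ((A.c (ι i)).psi.map_target (hb2 hz))))]
        rw [((v X g).2.2 _ (A.c (ι i)).sm).2 f hf.continuousOn]
        have h1 : ∀ y ∈ (A.c (ι i)).psi.target \ Metric.ball (0 : E4) 3,
            Real.sqrt (g.mcoef (A.c (ι i)).psi y).det * f ((A.c (ι i)).psi.symm y) = 0 := by
          rintro y ⟨hy, hy3⟩
          rw [h0, mul_zero]
          rintro ⟨z, hz, hzy⟩
          have : z = y := (A.c (ι i)).psi.symm.injOn (hb2 hz) hy hzy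
          subst this
          refine hy3 ?_
          rw [mem_ball_zero_iff]
          rw [mem_closedBall_zero_iff] at hz
          linarith
        rw [setIntegral_eq_of_subset_of_forall_sdiff_eq_zero
          (A.c (ι i)).psi.open_target.measurableSet (hsub _) h1]
        exact integral_congr_ae (Filter.Eventually.of_forall fun y => mul_comm _ _)
      symm := by
        intro f h hf hh
        have hf' := (hC2 f).1 hf
        have hh' := (hC2 h).1 hh
        simp only [hLL f hf', hLL h hh']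
        have e1 := G7_form s o he gr v n1 n2 l5 ck hO A hf' hh'
        have e2 := G7_form s o he gr v n1 n2 l5 ck hO A hh' hf'
        have e3 : ∫ y, ⟪f y, A.LV h y⟫ ∂g.vol = ∫ y, ⟪A.LV h y, f y⟫ ∂g.vol :=
          integral_congr_ae (Filter.Eventually.of_forall fun y => real_inner_comm _ _)
        rw [e3, e1, e2]
        refine congrArg₂ HAdd.hAdd ?_ ?_
        · exact integral_congr_ae (Filter.Eventually.of_forall fun y => real_inner_comm _ _)
        · refine Finset.sum_congr rfl fun q _ => ?_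
          exact integral_congr_ae (Filter.Eventually.of_forall fun y => G7_grad_symm g _ _ _)
      nonneg := by
        intro f hf
        have hf' := (hC2 f).1 hf
        simp only [hLL f hf']
        rw [G7_form s o he gr v n1 n2 l5 ck hO A hf' hf']
        refine add_nonneg (integral_nonneg fun y => real_inner_self_nonneg) ?_
        exact Finset.sum_nonneg fun q _ => integral_nonneg fun y => G7_grad_nonneg l3 g _ _ }
  refine ⟨D, ⟨rfl, fun f => G7_ck ck (G7_freeze g0) hg ∞ le_rfl f, hC2, hLL, ι.symm 0, ?_, ?_, ?_,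
    ?_⟩⟩
  · show g0.psi (ι.symm 0) = _
    rw [hpsi, ι.apply_symm_apply]
  · show (g0.mdl (ι.symm 0)).chi = _
    rw [hchi, ι.apply_symm_apply]
  · intro x _
    show Real.sqrt ((A.c (ι (ι.symm 0))).G x).det = _
    rw [ι.apply_symm_apply]
  · intro t x hx
    have hx3 : x ∈ (A.c 0).psi.target :=
      A.ball _ (Metric.ball_subset_closedBall (Metric.ball_subset_ball (by norm_num) hx))
    refine ⟨?_, fun u hu => ?_⟩
    · show (g0.mdl (ι.symm 0)).a (0, x) = _
      rw [(hmod _ 0 x hx).1, ι.apply_symm_apply]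
    · have hp0 : g0.psi (ι.symm 0) = (A.c 0).psi := by rw [hpsi, ι.apply_symm_apply]
      have h2 : (fun w => u ((A.c 0).psi ((A.c 0).psi.symm w))) =ᶠ[𝓝 x] u := by
        filter_upwards [(A.c 0).psi.open_target.mem_nhds hx3] with w hw
        rw [(A.c 0).psi.right_inv hw]
      have h3 := hop (ι.symm 0) t x hx (fun y => u ((A.c 0).psi y)) (by
        rw [hp0]
        exact hu.congr_of_eventuallyEq h2)
      rw [hp0] at h3
      rw [← h3]
      exact Model.op_congr _ _ h2.symm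

end NRF

end
end

section

/-!
# Item Ga: evolution of `|∇u|²` for a solution of the heat equation along the flow, pointwise
-/

open scoped Manifold ContDiff Topology
open Set

noncomputable section

namespace NRF

open LF3 in
theorem claimLF3p_proof (hb : claimL2) (h3 : claimL3) : claimLF3p := by
  intro Ω G c u t y S hF hp hut hdu
  have hG := hF.met
  have hO := hG.isOpen
  have hPD : (G t y).PosDef := hG.posDef (t, y) hp
  have hsymG : ∀ i j, G t y i j = G t y j i := fun i j => by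
    simpa using (hPD.isHermitian.apply i j).symm
  have hinvPD : ((G t y)⁻¹).PosDef := hPD.inv
  have hsym : ∀ i j, (G t y)⁻¹ i j = (G t y)⁻¹ j i := fun i j => by
    simpa using (hinvPD.isHermitian.apply i j).symm
  have hmul : (G t y)⁻¹ * G t y = 1 :=
    Matrix.nonsing_inv_mul _ (hG.det_pos hp).ne'.isUnit
  refine ⟨∑ i, ∑ j, ((-∑ a, ∑ b, (G t y)⁻¹ i a *
      (-2 * ricM (G t) y a b + c t * G t y a b) * (G t y)⁻¹ b j) * (pd i (u t) y * pd j (u t) y) +
      (G t y)⁻¹ i j * (pd i (laplC (G t) (u t)) y * pd j (u t) y +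
        pd i (u t) y * pd j (laplC (G t) (u t)) y)), ?_, ?_⟩
  · have e : (fun s => gradSqC (G s) (u s) y) =
        fun s => ∑ i, ∑ j, (G s y)⁻¹ i j * (pd i (u s) y * pd j (u s) y) := rfl
    rw [e]
    refine HasDerivWithinAt.fun_sum fun i _ => HasDerivWithinAt.fun_sum fun j _ => ?_
    exact (deriv_inv hF hp i j).hasDerivWithinAt.fun_mul ((hdu i).fun_mul (hdu j))
  · set U : Set E4 := {z | (t, z) ∈ Ω} with hU
    have hUo : IsOpen U := hO.preimage (by fun_prop : Continuous fun z : E4 => (t, z))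
    have hM : MetOn U (G t) := by
      refine ⟨hUo, fun i j => ?_, fun z hz => hG.posDef (t, z) hz⟩
      have : ContDiffOn ℝ ∞ (fun z : E4 => (t, z)) U :=
        (contDiff_const.prodMk contDiff_id).contDiffOn
      exact (hG.smooth i j).comp this fun z hz => hz
    have hB := hb U (G t) (u t) hM y hp hut
    have hpos := (h3.1 (G t y)⁻¹ (hessM (G t) (u t) y) hinvPD).1
    have halg := alg (G t y)⁻¹ (ricM (G t) y) (G t y) (c t) (fun i => pd i (u t) y) hsym hmul
    have e1 : ∑ i, ∑ j, (G t y)⁻¹ i j * (pd i (laplC (G t) (u t)) y * pd j (u t) y +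
        pd i (u t) y * pd j (laplC (G t) (u t)) y) =
        2 * gradInC (G t) (u t) (laplC (G t) (u t)) y := by
      have e2 : ∑ i, ∑ j, (G t y)⁻¹ i j * (pd i (laplC (G t) (u t)) y * pd j (u t) y) =
          gradInC (G t) (u t) (laplC (G t) (u t)) y := by
        unfold gradInC
        rw [Finset.sum_comm]
        refine Finset.sum_congr rfl fun i _ => Finset.sum_congr rfl fun j _ => ?_
        rw [hsym j i]
        ring
      simp only [mul_add, Finset.sum_add_distrib]
      rw [e2, two_mul]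
      rfl
    simp only [Finset.sum_add_distrib]
    rw [halg, e1, hB]
    have e3 : gradSqC (G t) (u t) y =
        ∑ i, ∑ j, (G t y)⁻¹ i j * (pd i (u t) y * pd j (u t) y) := rfl
    rw [e3]
    linarith

end NRF

end
end

section

/-!
# Gb: bounded geometry on the universal covering
-/

set_option autoImplicit false

open scoped Manifold ContDiff Topology
open MeasureTheory Set

noncomputable section

namespace NRF

/-! ## Smooth families of metrics in smooth charts -/

theorem Gb_smoothMet (n0 : claimN0) (n1 : claimN1) {X : Type} [TopologicalSpace X]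
    [ChartedSpace E4 X] [IsManifold (𝓡 4) ∞ X] {h : ℝ → Metric X} (hh : SmoothFam h)
    {ψ : OpenPartialHomeomorph X E4} (hψ : ψ ∈ SmCh X) :
    SmoothMet (univ ×ˢ ψ.target) (fun t => (h t).mcoef ψ) := by
  have hloc : ∀ y ∈ ψ.target, y ∈ (ψ.symm.trans (chAt (ψ.symm y)).1).source := by
    intro y hy
    rw [OpenPartialHomeomorph.trans_source]
    exact ⟨hy, mem_chart_source E4 (ψ.symm y)⟩
  have hφt : ∀ (e : Ch X), ∀ y ∈ (ψ.symm.trans e.1).source,
      (ψ.symm.trans e.1) y ∈ e.1.target := by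
    intro e y hy
    have := (ψ.symm.trans e.1).map_source hy
    exact (OpenPartialHomeomorph.trans_target ψ.symm e.1 ▸ this).1
  have hmax : ∀ e : Ch X, e.1 ∈ IsManifold.maximalAtlas (𝓡 4) ∞ X := fun e =>
    IsManifold.subset_maximalAtlas e.2
  refine ⟨isOpen_univ.prod ψ.open_target, fun i j => ?_, fun p hp => ?_⟩
  · intro p hp
    set e : Ch X := chAt (ψ.symm p.2) with he
    set φ := ψ.symm.trans e.1 with hφ
    have hpW : p.2 ∈ φ.source := hloc p.2 hp.2
    have hφs : ContDiffOn ℝ ∞ φ φ.source := (n0 X ψ hψ e.1 (hmax e)).1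
    have hpd : ∀ i, ContDiffOn ℝ ∞ (pd i φ) φ.source := by
      intro i
      have h2 : ContDiffOn ℝ ∞ (fderiv ℝ φ) φ.source :=
        hφs.fderiv_of_isOpen φ.open_source (by simp)
      exact h2.clm_apply contDiffOn_const
    have hkey : ContDiffOn ℝ ∞ (fun q : ℝ × E4 => ∑ k, ∑ l, (pd i φ q.2) k * (pd j φ q.2) l *
        (h q.1).coef e (φ q.2) k l) (univ ×ˢ φ.source) := by
      refine ContDiffOn.sum fun k _ => ContDiffOn.sum fun l _ => ?_
      have hsnd : ContDiffOn ℝ ∞ (fun q : ℝ × E4 => q.2) ((univ : Set ℝ) ×ˢ φ.source) :=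
        contDiffOn_snd
      have hm : MapsTo (fun q : ℝ × E4 => q.2) ((univ : Set ℝ) ×ˢ φ.source) φ.source :=
        fun q hq => hq.2
      have hcomp : ∀ (f : E4 → E4) (m : Fin 4), ContDiffOn ℝ ∞ f φ.source →
          ContDiffOn ℝ ∞ (fun q : ℝ × E4 => (f q.2) m) ((univ : Set ℝ) ×ˢ φ.source) := by
        intro f m hf
        have h3 : ContDiffOn ℝ ∞ (fun q : ℝ × E4 => f q.2) ((univ : Set ℝ) ×ˢ φ.source) :=
          hf.comp hsnd hm
        exact (EuclideanSpace.proj (𝕜 := ℝ) m).contDiff.comp_contDiffOn h3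
      refine ((hcomp _ k (hpd i)).mul (hcomp _ l (hpd j))).mul ?_
      have h4 : ContDiffOn ℝ ∞ (fun q : ℝ × E4 => ((q.1, φ q.2) : ℝ × E4))
          ((univ : Set ℝ) ×ˢ φ.source) :=
        contDiffOn_fst.prodMk (hφs.comp hsnd hm)
      exact (hh e k l).comp h4 fun q hq => ⟨mem_univ _, hφt e _ hq.2⟩
    have hnhds : (univ : Set ℝ) ×ˢ φ.source ∈ 𝓝 p :=
      (isOpen_univ.prod φ.open_source).mem_nhds ⟨hp.1, hpW⟩
    have h5 : ContDiffAt ℝ ∞ (fun q : ℝ × E4 => (h q.1).mcoef ψ q.2 i j) p := by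
      refine (hkey.contDiffAt hnhds).congr_of_eventuallyEq ?_
      filter_upwards [hnhds] with q hq
      rw [F0_local n1 hψ (h q.1) e q.2 hq.2]
      rfl
    exact h5.contDiffWithinAt
  · exact ((n1 X (h p.1)).2.1 ψ hψ).posDef p.2 hp.2

/-- The local model of the Laplacian in a smooth chart. -/
theorem Gb_model (n0 : claimN0) (n1 : claimN1) (l5 : claimL5) (h5 : claimModelExt)
    {X : Type} [TopologicalSpace X] [ChartedSpace E4 X] [IsManifold (𝓡 4) ∞ X]
    {h : ℝ → Metric X} (hh : SmoothFam h)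
    {ψ : OpenPartialHomeomorph X E4} (hψ : ψ ∈ SmCh X) (ht : Metric.closedBall 0 3 ⊆ ψ.target)
    {chi : E4 → ℝ} (hc : ContDiff ℝ ∞ chi) (hc0 : ∀ z, 0 ≤ chi z)
    (hc1 : ∀ z, 1 ≤ ‖z‖ → chi z = 0) :
    ∃ m : Model ℝ, m.chi = chi ∧ (∀ q, m.c q = 0) ∧ ∀ t, ∀ x ∈ Metric.ball (0 : E4) (5 / 2),
      ∀ u : E4 → ℝ, m.op t u x = -laplC ((h t).mcoef ψ) u x := by
  have hG := Gb_smoothMet n0 n1 hh hψ
  obtain ⟨hinv, hchr, -⟩ := l5.1 _ _ hG
  obtain ⟨m, hm1, hm2⟩ := h5 ℝ ψ.target (fun q => ((h q.1).mcoef ψ q.2)⁻¹)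
    (fun q l => (∑ i, ∑ j, ((h q.1).mcoef ψ q.2)⁻¹ i j * chr ((h q.1).mcoef ψ) l i j q.2) •
      ContinuousLinearMap.id ℝ ℝ) (fun _ => 0) chi ψ.open_target ht
    (fun i j => hinv i j)
    (fun l => (ContDiffOn.sum fun i _ => ContDiffOn.sum fun j _ =>
      (hinv i j).mul (hchr l i j)).smul contDiffOn_const)
    contDiffOn_const
    (fun t x hx => (hG.posDef (t, x) ⟨mem_univ _, hx⟩).inv) hc hc0 hc1
  refine ⟨{ m with c := fun _ => 0, c_smooth := contDiff_const, c_out := fun _ _ => rfl },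
    hm1, fun _ => rfl, fun t x hx u => ?_⟩
  obtain ⟨e1, e2, -⟩ := hm2 t x hx
  show -(∑ i, ∑ j, m.a (t, x) i j • pd i (pd j u) x) + (∑ i, m.b (t, x) i (pd i u x)) +
    (0 : ℝ →L[ℝ] ℝ) (u x) = _
  rw [e1, e2]
  unfold laplC hessC
  simp only [smul_eq_mul, ContinuousLinearMap.smul_apply, ContinuousLinearMap.id_apply,
    ContinuousLinearMap.zero_apply, add_zero, mul_sub, Finset.sum_sub_distrib, neg_sub]
  have e3 : ∑ l, (∑ i, ∑ j, ((h t).mcoef ψ x)⁻¹ i j * chr ((h t).mcoef ψ) l i j x) * pd l u x =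
      ∑ i, ∑ j, ((h t).mcoef ψ x)⁻¹ i j * ∑ k, chr ((h t).mcoef ψ) k i j x * pd k u x := by
    simp only [Finset.sum_mul, Finset.mul_sum]
    rw [Finset.sum_comm]
    refine Finset.sum_congr rfl fun i _ => ?_
    rw [Finset.sum_comm]
    refine Finset.sum_congr rfl fun j _ => Finset.sum_congr rfl fun k _ => ?_
    ring
  rw [e3]
  ring

/-! ## Lifted charts -/

section lift

variable {X : Type} [TopologicalSpace X] (U : UCover X)

/-- The homeomorphism given by a deck transformation. -/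
def Gb_act (a : U.G) : U.Y ≃ₜ U.Y where
  toFun y := a • y
  invFun y := a⁻¹ • y
  left_inv y := inv_smul_smul a y
  right_inv y := smul_inv_smul a y
  continuous_toFun := U.cont_smul a
  continuous_invFun := U.cont_smul a⁻¹

/-- Translate of a chart. -/
def Gb_ch (s : OpenPartialHomeomorph U.Y E4) (a : U.G) : OpenPartialHomeomorph U.Y E4 :=
  (Gb_act U a).symm.transOpenPartialHomeomorph s

/-- `s` is a lift of `psi`. -/
structure GbLift (psi : OpenPartialHomeomorph X E4) (s : OpenPartialHomeomorph U.Y E4) :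
    Prop where
  tgt : s.target = psi.target
  src : ∀ y ∈ s.source, U.p y ∈ psi.source ∧ s y = psi (U.p y)

variable {U}

theorem GbLift.ch {psi : OpenPartialHomeomorph X E4} {s : OpenPartialHomeomorph U.Y E4}
    (h : GbLift U psi s) (a : U.G) : GbLift U psi (Gb_ch U s a) := by
  refine ⟨h.tgt, fun y hy => ?_⟩
  have h1 := h.src (a⁻¹ • y) hy
  rw [U.p_smul] at h1
  exact h1

theorem GbLift.p_symm {psi : OpenPartialHomeomorph X E4} {s : OpenPartialHomeomorph U.Y E4}
    (h : GbLift U psi s) {x : E4} (hx : x ∈ psi.target) : U.p (s.symm x) = psi.symm x := by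
  have hx' : x ∈ s.target := by rw [h.tgt]; exact hx
  obtain ⟨h1, h2⟩ := h.src _ (s.map_target hx')
  rw [s.right_inv hx'] at h2
  rw [h2, psi.left_inv h1, ← h2]

theorem GbLift.inj {psi : OpenPartialHomeomorph X E4} {s : OpenPartialHomeomorph U.Y E4}
    (h : GbLift U psi s) {y y' : U.Y} (hy : y ∈ s.source) (hy' : y' ∈ s.source)
    (hp : U.p y = U.p y') : y = y' := by
  refine s.injOn hy hy' ?_
  rw [(h.src y hy).2, (h.src y' hy').2, hp]

theorem GbLift.ex {psi : OpenPartialHomeomorph X E4} {s : OpenPartialHomeomorph U.Y E4}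
    (h : GbLift U psi s) {y : U.Y} (hy : U.p y ∈ psi.source) : ∃ a : U.G, a⁻¹ • y ∈ s.source := by
  have hx : psi (U.p y) ∈ psi.target := psi.map_source hy
  have hx' : psi (U.p y) ∈ s.target := by rw [h.tgt]; exact hx
  have h1 : U.p (s.symm (psi (U.p y))) = U.p y := by
    rw [h.p_symm hx, psi.left_inv hy]
  obtain ⟨a, ha⟩ := U.trans _ _ h1
  refine ⟨a, ?_⟩
  rw [← ha, inv_smul_smul]
  exact s.map_target hx'

/-- Uniqueness of the translate. -/
theorem GbLift.uniq {psi : OpenPartialHomeomorph X E4} {s : OpenPartialHomeomorph U.Y E4}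
    (h : GbLift U psi s) {y : U.Y} {a b : U.G} (ha : a⁻¹ • y ∈ s.source)
    (hb : b⁻¹ • y ∈ s.source) : a = b := by
  have h1 : a⁻¹ • y = b⁻¹ • y := h.inj ha hb (by rw [U.p_smul, U.p_smul])
  have h2 : (b * a⁻¹) • y = y := by
    rw [mul_smul, h1, smul_inv_smul]
  have h3 := U.free _ _ h2
  rw [mul_inv_eq_one] at h3
  exact h3.symm

theorem GbLift.symm_mem {psi : OpenPartialHomeomorph X E4} {s : OpenPartialHomeomorph U.Y E4}
    (h : GbLift U psi s) {x : E4} (hx : x ∈ psi.target) : s.symm x ∈ s.source :=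
  s.map_target (by rw [h.tgt]; exact hx)

/-- Transition of lifts. -/
theorem GbLift.trans {psi psi' : OpenPartialHomeomorph X E4}
    {s s' : OpenPartialHomeomorph U.Y E4} (h : GbLift U psi s) (h' : GbLift U psi' s') :
    (s.symm.trans s').source ⊆ (psi.symm.trans psi').source ∧
    ∀ x ∈ (s.symm.trans s').source, (s.symm.trans s') x = (psi.symm.trans psi') x := by
  have key : ∀ x ∈ (s.symm.trans s').source, x ∈ psi.target ∧ U.p (s.symm x) = psi.symm x ∧
      U.p (s.symm x) ∈ psi'.source ∧ s' (s.symm x) = psi' (U.p (s.symm x)) := by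
    intro x hx
    rw [OpenPartialHomeomorph.trans_source] at hx
    have h1 : x ∈ psi.target := by rw [← h.tgt]; exact hx.1
    have h2 := h'.src _ hx.2
    exact ⟨h1, h.p_symm h1, h2.1, h2.2⟩
  refine ⟨fun x hx => ?_, fun x hx => ?_⟩
  · obtain ⟨h1, h2, h3, h4⟩ := key x hx
    rw [OpenPartialHomeomorph.trans_source]
    refine ⟨h1, ?_⟩
    show psi.symm x ∈ psi'.source
    rw [← h2]
    exact h3
  · obtain ⟨h1, h2, h3, h4⟩ := key x hx
    show s' (s.symm x) = psi' (psi.symm x)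
    rw [h4, h2]

/-- Existence of lifts of small charts. -/
theorem Gb_exLift (h4s : claimScaled) [ChartedSpace E4 X] [IsManifold (𝓡 4) ∞ X] (x : X) :
    ∃ psi ∈ SmCh X, (∃ s, GbLift U psi s) ∧ x ∈ psi.source ∧ psi x = 0 ∧
      Metric.closedBall 0 3 ⊆ psi.target := by
  obtain ⟨y0, hy0⟩ := U.surj x
  obtain ⟨φ, hφ, hpφ⟩ := U.cov.isLocalHomeomorph y0
  have hxφ : x ∈ φ.target := by
    have h1 := φ.map_source hφ
    rw [← hpφ, hy0] at h1
    exact h1
  obtain ⟨c, psi, -, h1, h2, h3, -, h4, h5, -⟩ := h4s X (chartAt E4 x)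
    (IsManifold.subset_maximalAtlas (chart_mem_atlas E4 x)) x (mem_chart_source E4 x) φ.target
    φ.open_target hxφ
  refine ⟨psi, h1, ⟨φ.trans psi, ?_, ?_⟩, h2, h4, h5⟩
  · rw [OpenPartialHomeomorph.trans_target]
    refine inter_eq_left.mpr fun z hz => ?_
    exact (h3 (psi.map_target hz)).2
  · intro y hy
    rw [OpenPartialHomeomorph.trans_source] at hy
    have h6 : φ y = U.p y := by rw [hpφ]
    have h7 : φ y ∈ psi.source := hy.2
    rw [h6] at h7
    refine ⟨h7, ?_⟩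
    show psi (φ y) = _
    rw [h6]

/-! ## Local finiteness -/

theorem Gb_sep [T2Space X] (y y' : U.Y) : ∃ N ∈ 𝓝 y, ∃ N' ∈ 𝓝 y',
    {a : U.G | ((fun z => a • z) '' N' ∩ N).Nonempty}.Finite := by
  have hcont : Continuous U.p := U.cov.continuous
  by_cases hp : U.p y = U.p y'
  · obtain ⟨b, hb⟩ := U.trans _ _ hp.symm
    obtain ⟨φ, hφ, hpφ⟩ := U.cov.isLocalHomeomorph y
    refine ⟨φ.source, φ.open_source.mem_nhds hφ, (fun z => b • z) ⁻¹' φ.source, ?_, ?_⟩
    · refine (φ.open_source.preimage (U.cont_smul b)).mem_nhds ?_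
      show b • y' ∈ φ.source
      rw [hb]
      exact hφ
    · refine Set.Finite.subset (Set.finite_singleton b) ?_
      rintro a ⟨_, ⟨z, hz, rfl⟩, hz2⟩
      have h1 : φ (b • z) = φ (a • z) := by
        rw [← hpφ, U.p_smul, U.p_smul]
      have h2 : b • z = a • z := φ.injOn hz hz2 h1
      have h3 : (a⁻¹ * b) • z = z := by rw [mul_smul, h2, inv_smul_smul]
      have h4 := U.free _ _ h3
      rw [inv_mul_eq_one] at h4
      exact h4
  · obtain ⟨W, W', hW, hW', hyW, hyW', hd⟩ := t2_separation hp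
    refine ⟨U.p ⁻¹' W, (hW.preimage hcont).mem_nhds hyW, U.p ⁻¹' W',
      (hW'.preimage hcont).mem_nhds hyW', ?_⟩
    refine Set.Finite.subset Set.finite_empty ?_
    rintro a ⟨_, ⟨z, hz, rfl⟩, hz2⟩
    have h1 : U.p (a • z) ∈ W := hz2
    rw [U.p_smul] at h1
    exact (Set.disjoint_left.1 hd h1 hz).elim

theorem Gb_locfin [T2Space X] {C : Set U.Y} (hC : IsCompact C) (y : U.Y) : ∃ N ∈ 𝓝 y,
    {a : U.G | ((fun z => a • z) '' C ∩ N).Nonempty}.Finite := by
  refine hC.induction_on (p := fun C => ∃ N ∈ 𝓝 y,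
    {a : U.G | ((fun z => a • z) '' C ∩ N).Nonempty}.Finite) ?_ ?_ ?_ ?_
  · exact ⟨univ, Filter.univ_mem, by simp⟩
  · rintro s t hst ⟨N, hN, hf⟩
    refine ⟨N, hN, hf.subset fun a ha => ?_⟩
    exact ha.mono (inter_subset_inter_left _ (image_mono hst))
  · rintro s t ⟨N, hN, hf⟩ ⟨N', hN', hf'⟩
    refine ⟨N ∩ N', Filter.inter_mem hN hN', (hf.union hf').subset ?_⟩
    rintro a ⟨_, ⟨z, hz, rfl⟩, hz2⟩
    rcases hz with hz | hz
    · exact Or.inl ⟨_, ⟨z, hz, rfl⟩, hz2.1⟩
    · exact Or.inr ⟨_, ⟨z, hz, rfl⟩, hz2.2⟩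
  · intro y' _
    obtain ⟨N, hN, N', hN', hf⟩ := Gb_sep (U := U) y y'
    exact ⟨N', mem_nhdsWithin_of_mem_nhds hN', N, hN, hf⟩

end lift

/-! ## The geometry -/

theorem claimGeomCov_proof (h4 : claimAtlas) (h4s : claimScaled) (h5 : claimModelExt)
    (n0 : claimN0) (n1 : claimN1) (l0 : claimL0) (l1 : claimL1) (l5 : claimL5) :
    claimGeomCov := by
  classical
  intro X _ _ _ _ _ _ U h hh
  -- the charts
  let S : Set (OpenPartialHomeomorph X E4) := {psi | psi ∈ SmCh X ∧ ∃ s, GbLift U psi s}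
  have hSex : ∀ x : X, ∃ psi ∈ S, x ∈ psi.source ∧ psi x = 0 ∧
      Metric.closedBall 0 3 ⊆ psi.target := by
    intro x
    obtain ⟨psi, h1, h2, h3⟩ := Gb_exLift (U := U) h4s x
    exact ⟨psi, ⟨h1, h2⟩, h3⟩
  obtain ⟨x0⟩ : Nonempty X := inferInstance
  obtain ⟨psi0, hpsi0, -, -, hb0⟩ := hSex x0
  obtain ⟨n, psi, chi, rho, -, hpsiS, htar, hchi, -, hpart, -⟩ :=
    h4 X S (fun _ hp => hp.1) hSex psi0 hpsi0 hb0
  have hpsi : ∀ j, psi j ∈ SmCh X := fun j => (hpsiS j).1
  choose s hs using fun j => (hpsiS j).2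
  -- the models
  choose m hmchi hmc hmop using fun j => Gb_model n0 n1 l5 h5 hh (hpsi j) (htar j)
    (hchi j).1 (hchi j).2.2.1 (fun z hz => ((hchi j).2.2.2.2 z hz).1)
  have hlift : ∀ (a : U.G) j, GbLift U (psi j) (Gb_ch U (s j) a) := fun a j => (hs j).ch a
  have h23 : Metric.closedBall (0 : E4) 2 ⊆ Metric.closedBall 0 3 :=
    Metric.closedBall_subset_closedBall (by norm_num)
  have h523 : Metric.ball (0 : E4) (5 / 2) ⊆ Metric.closedBall 0 3 :=
    (Metric.ball_subset_ball (by norm_num)).trans Metric.ball_subset_closedBall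
  have hcomp : ∀ j, IsCompact ((s j).symm '' Metric.closedBall 0 2) := fun j =>
    (isCompact_closedBall _ _).image_of_continuousOn ((s j).continuousOn_symm.mono (by
      rw [(hs j).tgt]; exact h23.trans (htar j)))
  -- the multiplicity
  have huniq : ∀ (y : U.Y) (a b : U.G) (j), y ∈ (Gb_ch U (s j) a).symm '' Metric.closedBall 0 2 →
      y ∈ (Gb_ch U (s j) b).symm '' Metric.closedBall 0 2 → a = b := by
    intro y a b j ha hb
    have key : ∀ c : U.G, y ∈ (Gb_ch U (s j) c).symm '' Metric.closedBall 0 2 →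
        c⁻¹ • y ∈ (s j).source := by
      rintro c ⟨z, hz, rfl⟩
      exact (hlift c j).symm_mem (htar j (h23 hz))
    exact (hs j).uniq (key a ha) (key b hb)
  let γ : Geom U.Y ℝ :=
    { I := U.G × Fin (n + 1)
      J := Fin (n + 1)
      finJ := inferInstance
      mod := Prod.snd
      model := m
      psi := fun i => Gb_ch U (s i.2) i.1
      target := by
        intro i
        rw [(hlift i.1 i.2).tgt]
        exact htar i.2
      locfin := by
        intro y
        choose N hN hf using fun j => Gb_locfin (U := U) (hcomp j) y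
        refine ⟨⋂ j, N j, (Filter.iInter_mem).mpr hN, ?_⟩
        refine (Set.finite_iUnion fun j => (hf j).image fun a => (a, j)).subset ?_
        rintro ⟨a, j⟩ ⟨w, ⟨z, hz, hzw⟩, hw2⟩
        refine mem_iUnion.2 ⟨j, a, ?_, rfl⟩
        refine ⟨w, ⟨(s j).symm z, ⟨z, hz, rfl⟩, hzw⟩, ?_⟩
        exact mem_iInter.1 hw2 j
      mult := by
        refine ⟨n + 1, fun y => ?_⟩
        have h1 := Set.ncard_le_ncard_of_injOn (s := {i : U.G × Fin (n + 1) |
          y ∈ (Gb_ch U (s i.2) i.1).symm '' Metric.closedBall 0 2})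
          (t := (univ : Set (Fin (n + 1)))) Prod.snd (fun _ _ => mem_univ _) (by
            rintro ⟨a, j⟩ ha ⟨b, j'⟩ hb hab
            obtain rfl : j = j' := hab
            rw [huniq y a b j ha hb]) (Set.toFinite _)
        refine h1.trans ?_
        rw [Set.ncard_univ]
        simp
      part := by
        intro y
        have hex : ∀ j, ∃ a : U.G, ∀ b : U.G, b⁻¹ • y ∈ (s j).source → b = a := by
          intro j
          by_cases hj : ∃ a : U.G, a⁻¹ • y ∈ (s j).source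
          · obtain ⟨a, ha⟩ := hj
            exact ⟨a, fun b hb => (hs j).uniq hb ha⟩
          · exact ⟨1, fun b hb => (hj ⟨b, hb⟩).elim⟩
        choose a ha using hex
        have hval : ∀ j, (Gb_ch U (s j) (a j)).source.indicator
            (fun y => (m j).chi (Gb_ch U (s j) (a j) y)) y =
            (psi j).source.indicator (fun x => chi j (psi j x)) (U.p y) := by
          intro j
          rw [hmchi j]
          by_cases hj : U.p y ∈ (psi j).source
          · obtain ⟨b, hb⟩ := (hs j).ex hj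
            have hb2 : y ∈ (Gb_ch U (s j) (a j)).source := by
              rw [← ha j b hb]
              exact hb
            rw [indicator_of_mem hj, indicator_of_mem hb2, ((hlift (a j) j).src y hb2).2]
          · have hb2 : y ∉ (Gb_ch U (s j) (a j)).source := fun hy =>
              hj ((hlift (a j) j).src y hy).1
            rw [indicator_of_notMem hj, indicator_of_notMem hb2]
        rw [finsum_eq_sum_of_support_subset _ (s := Finset.univ.image fun j => (a j, j)),
          Finset.sum_image]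
        · simp only [hval]
          exact hpart (U.p y)
        · rintro j - j' - hjj
          exact (Prod.ext_iff.1 hjj).2
        · rintro ⟨b, j⟩ hbj
          rw [Function.mem_support] at hbj
          have h1 : y ∈ (Gb_ch U (s j) b).source := by
            by_contra h2
            exact hbj (indicator_of_notMem h2 _)
          have h2 : b = a j := ha j b h1
          simp only [Finset.coe_image, Finset.coe_univ, image_univ, mem_range]
          exact ⟨j, by rw [h2]⟩
      trans_smooth := by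
        intro i i'
        obtain ⟨h1, h2⟩ := (hlift i.1 i.2).trans (hlift i'.1 i'.2)
        exact ((B6_smooth (hpsi i.2) (hpsi i'.2)).mono h1).congr h2
      trans_bound := by
        intro k
        choose C hC using fun j j' => B6_bound (hpsi j) (hpsi j') (htar j) (htar j') k
        obtain ⟨M, hM⟩ := (Set.finite_range fun p : Fin (n + 1) × Fin (n + 1) => C p.1 p.2).bddAbove
        refine ⟨M, fun i i' x hx hx' => ?_⟩
        refine le_trans ?_ (hM ⟨(i.2, i'.2), rfl⟩)
        have hxt : x ∈ (psi i.2).target := htar _ (by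
          rw [mem_closedBall_zero_iff]; linarith)
        have hxs : x ∈ ((Gb_ch U (s i.2) i.1).symm.trans (Gb_ch U (s i'.2) i'.1)).source := by
          rw [OpenPartialHomeomorph.trans_source]
          refine ⟨?_, ?_⟩
          · show x ∈ (Gb_ch U (s i.2) i.1).target
            rw [(hlift i.1 i.2).tgt]
            exact hxt
          · obtain ⟨z, hz, hzx⟩ := hx'
            rw [mem_preimage, ← hzx]
            exact (hlift i'.1 i'.2).symm_mem (htar _ (h23 hz))
        obtain ⟨h1, h2⟩ := (hlift i.1 i.2).trans (hlift i'.1 i'.2)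
        have h3 : ((Gb_ch U (s i.2) i.1).symm.trans (Gb_ch U (s i'.2) i'.1) : E4 → E4) =ᶠ[𝓝 x]
            ((psi i.2).symm.trans (psi i'.2) : E4 → E4) := by
          filter_upwards [((Gb_ch U (s i.2) i.1).symm.trans
            (Gb_ch U (s i'.2) i'.1)).open_source.mem_nhds hxs] with w hw
          exact h2 w hw
        have h4 : iteratedFDeriv ℝ k ((Gb_ch U (s i.2) i.1).symm.trans (Gb_ch U (s i'.2) i'.1)) x =
            iteratedFDeriv ℝ k ((psi i.2).symm.trans (psi i'.2)) x :=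
          (h3.iteratedFDeriv ℝ k).eq_of_nhds
        rw [h4]
        refine hC i.2 i'.2 x hx ?_
        obtain ⟨z, hz, hzx⟩ := hx'
        refine ⟨z, hz, ?_⟩
        rw [← (hlift i'.1 i'.2).p_symm (htar _ (h23 hz)), ← (hlift i.1 i.2).p_symm hxt, hzx]
      compat := by
        rintro i i' x u t hx ⟨z, hz, hzx⟩ hu
        have hxt : x ∈ (psi i.2).target := htar _ (h523 hx)
        have hzt : z ∈ (psi i'.2).target := htar _ (h523 hz)
        have hxs : x ∈ ((Gb_ch U (s i.2) i.1).symm.trans (Gb_ch U (s i'.2) i'.1)).source := by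
          rw [OpenPartialHomeomorph.trans_source]
          refine ⟨?_, ?_⟩
          · show x ∈ (Gb_ch U (s i.2) i.1).target
            rw [(hlift i.1 i.2).tgt]
            exact hxt
          · rw [mem_preimage, ← hzx]
            exact (hlift i'.1 i'.2).symm_mem hzt
        obtain ⟨h1, h2⟩ := (hlift i.1 i.2).trans (hlift i'.1 i'.2)
        have hz' : Gb_ch U (s i'.2) i'.1 ((Gb_ch U (s i.2) i.1).symm x) = z := by
          rw [← hzx]
          exact (Gb_ch U (s i'.2) i'.1).right_inv (by rw [(hlift i'.1 i'.2).tgt]; exact hzt)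
        set τ := (psi i.2).symm.trans (psi i'.2) with hτ
        have hτx : τ x = z := by
          rw [← h2 x hxs]; exact hz'
        have hxτ : x ∈ τ.source := h1 hxs
        have hev : (fun w => u (Gb_ch U (s i'.2) i'.1 ((Gb_ch U (s i.2) i.1).symm w))) =ᶠ[𝓝 x]
            u ∘ τ := by
          filter_upwards [((Gb_ch U (s i.2) i.1).symm.trans
            (Gb_ch U (s i'.2) i'.1)).open_source.mem_nhds hxs] with w hw
          show u _ = u (τ w)
          rw [← h2 w hw]
          rfl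
        show (m i.2).op t (fun w => u (Gb_ch U (s i'.2) i'.1 ((Gb_ch U (s i.2) i.1).symm w))) x =
          (m i'.2).op t u (Gb_ch U (s i'.2) i'.1 ((Gb_ch U (s i.2) i.1).symm x))
        rw [hz', Model.op_congr _ _ hev, hmop i.2 t x hx, hmop i'.2 t z hz]
        have hτs := n0 X (psi i.2) (hpsi i.2) (psi i'.2) (hpsi i'.2)
        have hmaps : MapsTo τ τ.source (psi i'.2).target := fun w hw =>
          (OpenPartialHomeomorph.trans_target (psi i.2).symm (psi i'.2) ▸ τ.map_source hw).1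
        have e1 : laplC ((h t).mcoef (psi i.2)) (u ∘ τ) x =
            laplC (pullM τ ((h t).mcoef (psi i'.2))) (u ∘ τ) x :=
          (l0 τ.source _ _ (u ∘ τ) (u ∘ τ) 0 0 τ.open_source
            (fun w hw => (n1 X (h t)).2.2 (psi i.2) (hpsi i.2) (psi i'.2) (hpsi i'.2) w hw)
            (fun _ _ => rfl) (fun _ _ => rfl) x hxτ).2.2.2.2.2.1
        have e2 := ((l1 τ.source (psi i'.2).target τ ((h t).mcoef (psi i'.2)) τ.open_source
          ((n1 X (h t)).2.1 (psi i'.2) (hpsi i'.2)) hmaps hτs.1 hτs.2).2 x hxτ).2.2.2.2.1 u (by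
            rw [hτx, ← hz']; exact hu)
        rw [e1, e2, hτx] }
  refine ⟨{
    γ := γ
    n := n
    idx := Equiv.refl _
    base := psi
    base_mem := hpsi
    c0 := fun i q => hmc i.2 q
    lift := fun i y hy => (hlift i.1 i.2).src y hy
    tgt := fun i => (hlift i.1 i.2).tgt
    mod_eq := fun a b j => rfl
    act := fun a b j x _ => mul_smul a b _
    op := fun i t x hx u _ => hmop i.2 t x hx u }⟩

end NRF

end
end

section

/-!
# Gc: a smooth equivariant partition of unity on the universal covering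
-/

open scoped Manifold ContDiff Topology
open MeasureTheory Set

noncomputable section

namespace NRF

/-! ## Cauchy-Schwarz -/

theorem Gc_cs {G : Matrix (Fin 4) (Fin 4) ℝ} (hG : G.PosDef) (p v : Fin 4 → ℝ) :
    (∑ i, p i * v i) ^ 2 ≤ (∑ i, ∑ j, G⁻¹ i j * (p i * p j)) * ∑ i, ∑ j, G i j * v i * v j := by
  have hdet : IsUnit G.det := hG.det_pos.ne'.isUnit
  have hsymm : G.transpose = G := by
    have := hG.isHermitian
    rwa [Matrix.IsHermitian, Matrix.conjTranspose_eq_transpose_of_trivial] at this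
  have e1 : ∀ x : Fin 4 → ℝ, ∑ i, ∑ j, G i j * x i * x j = x ⬝ᵥ G.mulVec x := by
    intro x
    simp only [dotProduct, Matrix.mulVec, Finset.mul_sum]
    refine Finset.sum_congr rfl fun i _ => Finset.sum_congr rfl fun j _ => by ring
  have e2 : ∑ i, ∑ j, G⁻¹ i j * (p i * p j) = p ⬝ᵥ G⁻¹.mulVec p := by
    simp only [dotProduct, Matrix.mulVec, Finset.mul_sum]
    refine Finset.sum_congr rfl fun i _ => Finset.sum_congr rfl fun j _ => by ring
  have e3 : ∑ i, p i * v i = p ⬝ᵥ v := rfl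
  rw [e1, e2, e3]
  have hq : ∀ x : Fin 4 → ℝ, 0 ≤ x ⬝ᵥ G.mulVec x := by
    intro x
    have := hG.posSemidef.dotProduct_mulVec_nonneg x
    simpa using this
  have hpos : ∀ t : ℝ, 0 ≤ (p ⬝ᵥ G⁻¹.mulVec p) * (t * t) + (-(2 * (p ⬝ᵥ v))) * t +
      v ⬝ᵥ G.mulVec v := by
    intro t
    have h1 := hq (v - t • G⁻¹.mulVec p)
    have h2 : G.mulVec (v - t • G⁻¹.mulVec p) = G.mulVec v - t • p := by
      rw [Matrix.mulVec_sub, Matrix.mulVec_smul, Matrix.mulVec_mulVec, Matrix.mul_nonsing_inv G hdet,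
        Matrix.one_mulVec]
    have h3 : G⁻¹.mulVec p ⬝ᵥ G.mulVec v = p ⬝ᵥ v := by
      rw [Matrix.dotProduct_mulVec, ← Matrix.mulVec_transpose, hsymm, Matrix.mulVec_mulVec,
        Matrix.mul_nonsing_inv G hdet, Matrix.one_mulVec]
    have h4 : G⁻¹.mulVec p ⬝ᵥ p = p ⬝ᵥ G⁻¹.mulVec p := dotProduct_comm _ _
    rw [h2, sub_dotProduct, dotProduct_sub, dotProduct_sub, smul_dotProduct, smul_dotProduct,
      dotProduct_smul, dotProduct_smul, h3, h4, dotProduct_comm v p] at h1
    simp only [smul_eq_mul] at h1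
    linarith
  have hd := discrim_le_zero hpos
  rw [discrim] at hd
  nlinarith

theorem Gc_fderiv_sum (u : E4 → ℝ) (z v : E4) : fderiv ℝ u z v = ∑ i, pd i u z * v i := by
  have h1 : v = ∑ i, v i • bv i := by
    ext j
    simp [bv, Pi.single_apply]
  conv_lhs => rw [h1]
  rw [map_sum]
  refine Finset.sum_congr rfl fun i _ => ?_
  rw [map_smul, smul_eq_mul, mul_comm]
  rfl

theorem Gc_bound {G : E4 → Matrix (Fin 4) (Fin 4) ℝ} {z : E4} (hG : (G z).PosDef) (u : E4 → ℝ)
    {M : ℝ} (hM : 0 ≤ M) (h : gradSqC G u z ≤ M ^ 2) (v : E4) :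
    |fderiv ℝ u z v| ≤ M * Real.sqrt (∑ i, ∑ j, G z i j * v i * v j) := by
  have h1 := Gc_cs hG (fun i => pd i u z) v
  have h2 : 0 ≤ ∑ i, ∑ j, G z i j * v i * v j := by
    have := hG.posSemidef.dotProduct_mulVec_nonneg v.ofLp
    refine le_of_le_of_eq this ?_
    simp only [dotProduct, Matrix.mulVec, Finset.mul_sum, star_trivial]
    refine Finset.sum_congr rfl fun i _ => Finset.sum_congr rfl fun j _ => by ring
  rw [Gc_fderiv_sum]
  refine abs_le_of_sq_le_sq ?_ (by positivity)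
  rw [mul_pow, Real.sq_sqrt h2]
  exact h1.trans (mul_le_mul_of_nonneg_right h h2)

/-! ## Charts -/

theorem Gc_at {X : Type} [TopologicalSpace X] [ChartedSpace E4 X] [IsManifold (𝓡 4) ∞ X]
    (u : X → ℝ) {psi : OpenPartialHomeomorph X E4} (h : psi ∈ SmCh X) {x : X}
    (hx : x ∈ psi.source) (hu : ContDiffAt ℝ ∞ (fun z => u (psi.symm z)) (psi x)) :
    ContMDiffAt (𝓡 4) 𝓘(ℝ, ℝ) ∞ u x := by
  have h1 : ContMDiffAt (𝓡 4) (𝓡 4) ∞ psi x := contMDiffAt_of_mem_maximalAtlas h hx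
  rw [← contMDiffAt_iff_contDiffAt] at hu
  have h3 : ContMDiffAt (𝓡 4) 𝓘(ℝ, ℝ) ∞ (fun y => u (psi.symm (psi y))) x := hu.comp x h1
  refine h3.congr_of_eventuallyEq ?_
  filter_upwards [psi.open_source.mem_nhds hx] with y hy
  rw [psi.left_inv hy]

theorem Gc_at' {X : Type} [TopologicalSpace X] [ChartedSpace E4 X] [IsManifold (𝓡 4) ∞ X]
    (u : X → ℝ) {psi : OpenPartialHomeomorph X E4} (h : psi ∈ SmCh X) {z : E4}
    (hz : z ∈ psi.target) (hu : ContMDiff (𝓡 4) 𝓘(ℝ, ℝ) ∞ u) :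
    ContDiffAt ℝ ∞ (fun z => u (psi.symm z)) z := by
  have h2 : ContMDiffAt (𝓡 4) (𝓡 4) ∞ psi.symm z := contMDiffAt_symm_of_mem_maximalAtlas h hz
  rw [← contMDiffAt_iff_contDiffAt]
  exact (hu (psi.symm z)).comp z h2

section

variable {X : Type} [TopologicalSpace X] [ChartedSpace E4 X] {U : UCover X} {h : ℝ → Metric X}
  (Γ : GeomCov U h)

/-- The cutoff functions. -/
def Gc_chi (j : Fin (Γ.n + 1)) : E4 → ℝ := (Γ.γ.mdl (Γ.idx.symm (1, j))).chi

theorem Gc_chi_eq (i : Γ.γ.I) : (Γ.γ.mdl i).chi = Gc_chi Γ (Γ.idx i).2 := by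
  have h1 := Γ.mod_eq (Γ.idx i).1 1 (Γ.idx i).2
  have h2 : Γ.idx.symm ((Γ.idx i).1, (Γ.idx i).2) = i := Γ.idx.symm_apply_apply i
  rw [h2] at h1
  unfold Gc_chi Geom.mdl
  rw [← h1]

/-- The function `χ_j` on `X`. -/
def Gc_F (j : Fin (Γ.n + 1)) (x : X) : ℝ :=
  (Γ.base j).source.indicator (fun x => Gc_chi Γ j (Γ.base j x)) x

/-- The function `χ_j` on `Y` in the chart `i`. -/
def Gc_S (i : Γ.γ.I) (y : U.Y) : ℝ :=
  (Γ.γ.psi i).source.indicator (fun y => Gc_chi Γ (Γ.idx i).2 (Γ.γ.psi i y)) y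

theorem Gc_S_nonneg (i : Γ.γ.I) (y : U.Y) : 0 ≤ Gc_S Γ i y :=
  Set.indicator_nonneg (fun _ _ => (Γ.γ.mdl (Γ.idx.symm (1, (Γ.idx i).2))).chi_nonneg _) y

theorem Gc_chi_supp (j : Fin (Γ.n + 1)) (z : E4) (hz : 1 ≤ ‖z‖) : Gc_chi Γ j z = 0 :=
  (Γ.γ.mdl (Γ.idx.symm (1, j))).chi_supp z hz

theorem Gc_target (i : Γ.γ.I) : Metric.closedBall 0 1 ⊆ (Γ.γ.psi i).target :=
  (Metric.closedBall_subset_closedBall (by norm_num)).trans (Γ.γ.target i)

theorem Gc_btarget (j : Fin (Γ.n + 1)) : Metric.closedBall 0 1 ⊆ (Γ.base j).target := by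
  have h1 := Gc_target Γ (Γ.idx.symm (1, j))
  rw [Γ.tgt, Equiv.apply_symm_apply] at h1
  exact h1

theorem Gc_S_zero (i : Γ.γ.I) (y : U.Y) (hy : y ∉ (Γ.γ.psi i).symm '' Metric.closedBall 0 1) :
    Gc_S Γ i y = 0 := by
  unfold Gc_S
  by_cases h1 : y ∈ (Γ.γ.psi i).source
  · rw [Set.indicator_of_mem h1]
    refine Gc_chi_supp Γ _ _ ?_
    by_contra h2
    push Not at h2
    exact hy ⟨Γ.γ.psi i y, by simpa using h2.le, (Γ.γ.psi i).left_inv h1⟩
  · exact Set.indicator_of_notMem h1 _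

theorem Gc_F_zero (j : Fin (Γ.n + 1)) (x : X)
    (hx : x ∉ (Γ.base j).symm '' Metric.closedBall 0 1) : Gc_F Γ j x = 0 := by
  unfold Gc_F
  by_cases h1 : x ∈ (Γ.base j).source
  · rw [Set.indicator_of_mem h1]
    refine Gc_chi_supp Γ _ _ ?_
    by_contra h2
    push Not at h2
    exact hx ⟨Γ.base j x, by simpa using h2.le, (Γ.base j).left_inv h1⟩
  · exact Set.indicator_of_notMem h1 _

theorem Gc_K_compact (i : Γ.γ.I) : IsCompact ((Γ.γ.psi i).symm '' Metric.closedBall 0 1) :=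
  (isCompact_closedBall 0 1).image_of_continuousOn
    ((Γ.γ.psi i).continuousOn_symm.mono (Gc_target Γ i))

theorem Gc_KX_compact (j : Fin (Γ.n + 1)) : IsCompact ((Γ.base j).symm '' Metric.closedBall 0 1) :=
  (isCompact_closedBall 0 1).image_of_continuousOn
    ((Γ.base j).continuousOn_symm.mono (Gc_btarget Γ j))

/-- Sources of translated charts. -/
theorem Gc_source (a : U.G) (j : Fin (Γ.n + 1)) (y : U.Y) :
    y ∈ (Γ.γ.psi (Γ.idx.symm (a, j))).source ↔
      a⁻¹ • y ∈ (Γ.γ.psi (Γ.idx.symm (1, j))).source := by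
  have t1 : (Γ.γ.psi (Γ.idx.symm (a, j))).target = (Γ.base j).target := by
    rw [Γ.tgt, Equiv.apply_symm_apply]
  have t2 : (Γ.γ.psi (Γ.idx.symm (1, j))).target = (Γ.base j).target := by
    rw [Γ.tgt, Equiv.apply_symm_apply]
  constructor
  · intro hy
    have hx := (Γ.γ.psi (Γ.idx.symm (a, j))).map_source hy
    rw [t1] at hx
    have h1 := Γ.act a 1 j _ hx
    rw [mul_one, (Γ.γ.psi (Γ.idx.symm (a, j))).left_inv hy] at h1
    have h2 : a⁻¹ • y = (Γ.γ.psi (Γ.idx.symm (1, j))).symm (Γ.γ.psi (Γ.idx.symm (a, j)) y) := by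
      conv_lhs => rw [h1]
      rw [inv_smul_smul]
    rw [h2]
    exact (Γ.γ.psi (Γ.idx.symm (1, j))).map_target (by rw [t2]; exact hx)
  · intro hy
    have hx := (Γ.γ.psi (Γ.idx.symm (1, j))).map_source hy
    rw [t2] at hx
    have h1 := Γ.act a 1 j _ hx
    rw [mul_one, (Γ.γ.psi (Γ.idx.symm (1, j))).left_inv hy, smul_inv_smul] at h1
    rw [← h1]
    exact (Γ.γ.psi (Γ.idx.symm (a, j))).map_target (by rw [t1]; exact hx)

theorem Gc_S_act (a : U.G) (j : Fin (Γ.n + 1)) (y : U.Y) :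
    Gc_S Γ (Γ.idx.symm (a, j)) y = Gc_S Γ (Γ.idx.symm (1, j)) (a⁻¹ • y) := by
  unfold Gc_S
  by_cases hy : y ∈ (Γ.γ.psi (Γ.idx.symm (a, j))).source
  · have hy' := (Gc_source Γ a j y).1 hy
    rw [Set.indicator_of_mem hy, Set.indicator_of_mem hy', (Γ.lift _ y hy).2,
      (Γ.lift _ _ hy').2, U.p_smul, Equiv.apply_symm_apply, Equiv.apply_symm_apply]
  · have hy' := fun hh => hy ((Gc_source Γ a j y).2 hh)
    rw [Set.indicator_of_notMem hy, Set.indicator_of_notMem hy']

/-- The partition function. -/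
def Gc_phi (y : U.Y) : ℝ := ∑ j, Gc_S Γ (Γ.idx.symm (1, j)) y

theorem Gc_fin (y : U.Y) : {i | y ∈ (Γ.γ.psi i).symm '' Metric.closedBall 0 2}.Finite :=
  Γ.γ.locfin.point_finite y

theorem Gc_sub (i : Γ.γ.I) (y : U.Y) (hy : Gc_S Γ i y ≠ 0) :
    y ∈ (Γ.γ.psi i).symm '' Metric.closedBall 0 2 := by
  have h1 : y ∈ (Γ.γ.psi i).symm '' Metric.closedBall 0 1 := by
    by_contra h2
    exact hy (Gc_S_zero Γ i y h2)
  exact Set.image_mono (Metric.closedBall_subset_closedBall (by norm_num)) h1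

theorem Gc_sum (σ : U.G → ℝ) (y : U.Y) :
    ∑ᶠ i, σ (Γ.idx i).1 * Gc_S Γ i y = ∑ᶠ a : U.G, σ a * Gc_phi Γ (a⁻¹ • y) := by
  have hs : (Function.support fun i => σ (Γ.idx i).1 * Gc_S Γ i y).Finite := by
    refine (Gc_fin Γ y).subset fun i hi => Gc_sub Γ i y ?_
    intro h0
    exact hi (by simp [h0])
  have h1 : ∑ᶠ i, σ (Γ.idx i).1 * Gc_S Γ i y =
      ∑ᶠ q : U.G × Fin (Γ.n + 1), σ q.1 * Gc_S Γ (Γ.idx.symm q) y := by
    rw [← finsum_comp_equiv Γ.idx]
    refine finsum_congr fun i => ?_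
    rw [Equiv.symm_apply_apply]
  have hs' : (Function.support fun q : U.G × Fin (Γ.n + 1) =>
      σ q.1 * Gc_S Γ (Γ.idx.symm q) y).Finite := by
    refine (hs.image Γ.idx).subset fun q hq => ⟨Γ.idx.symm q, ?_, Γ.idx.apply_symm_apply q⟩
    rw [Function.mem_support, Equiv.apply_symm_apply]
    exact hq
  rw [h1, finsum_curry _ hs']
  refine finsum_congr fun a => ?_
  rw [finsum_eq_sum_of_fintype, Gc_phi, Finset.mul_sum]
  refine Finset.sum_congr rfl fun j _ => ?_
  rw [Gc_S_act]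

theorem Gc_sum_one (y : U.Y) : ∑ᶠ a : U.G, Gc_phi Γ (a⁻¹ • y) = 1 := by
  have h1 := Gc_sum Γ (fun _ => 1) y
  simp only [one_mul] at h1
  rw [← h1, ← Γ.γ.part y]
  refine finsum_congr fun i => ?_
  unfold Gc_S
  have h2 := Gc_chi_eq Γ i
  unfold Geom.mdl at h2
  rw [h2]

theorem Gc_phi_nonneg (y : U.Y) : 0 ≤ Gc_phi Γ y := Finset.sum_nonneg fun _ _ => Gc_S_nonneg Γ _ y

theorem Gc_phi_supp : HasCompactSupport (Gc_phi Γ) := by
  refine HasCompactSupport.intro (isCompact_iUnion fun j : Fin (Γ.n + 1) =>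
    Gc_K_compact Γ (Γ.idx.symm (1, j))) ?_
  intro y hy
  refine Finset.sum_eq_zero fun j _ => Gc_S_zero Γ _ y fun h1 => hy ?_
  exact mem_iUnion.2 ⟨j, h1⟩

/-! ## Smoothness -/

theorem Gc_F_smooth [T2Space X] [IsManifold (𝓡 4) ∞ X] (j : Fin (Γ.n + 1)) :
    ContMDiff (𝓡 4) 𝓘(ℝ, ℝ) ∞ (Gc_F Γ j) := by
  intro x
  by_cases hx : x ∈ (Γ.base j).source
  · refine Gc_at _ (Γ.base_mem j) hx ?_
    have h1 : ContDiffAt ℝ ∞ (Gc_chi Γ j) (Γ.base j x) :=
      (Γ.γ.mdl (Γ.idx.symm (1, j))).chi_smooth.contDiffAt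
    refine h1.congr_of_eventuallyEq ?_
    filter_upwards [(Γ.base j).open_target.mem_nhds ((Γ.base j).map_source hx)] with w hw
    unfold Gc_F
    rw [Set.indicator_of_mem ((Γ.base j).map_target hw), (Γ.base j).right_inv hw]
  · have h1 : x ∉ (Γ.base j).symm '' Metric.closedBall 0 1 := by
      rintro ⟨z, hz, rfl⟩
      exact hx ((Γ.base j).map_target (Gc_btarget Γ j hz))
    have h2 : ContMDiffAt (𝓡 4) 𝓘(ℝ, ℝ) ∞ (fun _ : X => (0 : ℝ)) x := contMDiffAt_const
    refine h2.congr_of_eventuallyEq ?_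
    filter_upwards [(Gc_KX_compact Γ j).isClosed.isOpen_compl.mem_nhds h1] with w hw
    exact Gc_F_zero Γ j w hw

/-- The terms in a lifted chart. -/
theorem Gc_term (c : LCh U) (i : Γ.γ.I) {z : E4} (hz : z ∈ c.psi.target) :
    (c.psi.symm z ∉ (Γ.γ.psi i).symm '' Metric.closedBall 0 1 →
      (fun w => Gc_S Γ i (c.psi.symm w)) =ᶠ[𝓝 z] fun _ => 0) ∧
    (c.psi.symm z ∈ (Γ.γ.psi i).symm '' Metric.closedBall 0 1 →
      (fun w => Gc_S Γ i (c.psi.symm w)) =ᶠ[𝓝 z] fun w => Gc_F Γ (Γ.idx i).2 (c.e.1.symm w)) := by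
  have hc := c.psi.continuousAt_symm hz
  constructor
  · intro h1
    filter_upwards [hc.tendsto.eventually_mem
      ((Gc_K_compact Γ i).isClosed.isOpen_compl.mem_nhds h1)] with w hw
    exact Gc_S_zero Γ i _ hw
  · rintro ⟨x, hx, hxz⟩
    have h1 : c.psi.symm z ∈ (Γ.γ.psi i).source := by
      rw [← hxz]
      exact (Γ.γ.psi i).map_target (Gc_target Γ i hx)
    filter_upwards [hc.tendsto.eventually_mem ((Γ.γ.psi i).open_source.mem_nhds h1),
      c.psi.open_target.mem_nhds hz] with w hw hw'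
    have h2 : U.p (c.psi.symm w) = c.e.1.symm w := by
      have h1 := c.psi.map_target hw'
      have h2 := c.eq _ h1
      rw [c.psi.right_inv hw'] at h2
      have h3 := c.e.1.left_inv (c.mem _ h1)
      rw [← h2] at h3
      exact h3.symm
    unfold Gc_S Gc_F
    rw [Set.indicator_of_mem hw, (Γ.lift i _ hw).2, ← h2,
      Set.indicator_of_mem (Γ.lift i _ hw).1]

theorem Gc_ctarget (c : LCh U) {z : E4} (hz : z ∈ c.psi.target) : z ∈ c.e.1.target := by
  have h1 := c.psi.map_target hz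
  have h2 := c.eq _ h1
  rw [c.psi.right_inv hz] at h2
  rw [h2]
  exact c.e.1.map_source (c.mem _ h1)

theorem Gc_term_smooth [T2Space X] [IsManifold (𝓡 4) ∞ X] (c : LCh U) (i : Γ.γ.I) {z : E4}
    (hz : z ∈ c.psi.target) : ContDiffAt ℝ ∞ (fun w => Gc_S Γ i (c.psi.symm w)) z := by
  by_cases h1 : c.psi.symm z ∈ (Γ.γ.psi i).symm '' Metric.closedBall 0 1
  · refine ContDiffAt.congr_of_eventuallyEq ?_ ((Gc_term Γ c i hz).2 h1)
    exact Gc_at' _ (IsManifold.subset_maximalAtlas c.e.2) (Gc_ctarget c hz) (Gc_F_smooth Γ _)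
  · exact (contDiffAt_const (c := (0 : ℝ))).congr_of_eventuallyEq ((Gc_term Γ c i hz).1 h1)

/-- Bound for the derivative of a smooth function on `X`. -/
theorem Gc_const [T2Space X] [CompactSpace X] [IsManifold (𝓡 4) ∞ X] (n1 : claimN1)
    (n2 : claimN2) (n3 : claimN3) (g : Metric X) (u : X → ℝ)
    (hu : ContMDiff (𝓡 4) 𝓘(ℝ, ℝ) ∞ u) : ∃ M : ℝ, 0 ≤ M ∧ ∀ e : Ch X, ∀ z ∈ e.1.target,
      ∀ v : E4, |fderiv ℝ (fun w => u (e.1.symm w)) z v| ≤
        M * Real.sqrt (∑ i, ∑ j, g.coef e z i j * v i * v j) := by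
  obtain ⟨-, -, h3, -⟩ := (n3 X g).2.2.2 u u hu hu
  obtain ⟨C, hC⟩ := isCompact_univ.exists_bound_of_continuousOn h3.continuous.continuousOn
  refine ⟨Real.sqrt (max C 0), Real.sqrt_nonneg _, fun e z hz v => ?_⟩
  have hsm : e.1 ∈ SmCh X := IsManifold.subset_maximalAtlas e.2
  have hd : DifferentiableAt ℝ (u ∘ e.1.symm) z :=
    (Gc_at' u hsm hz hu).differentiableAt (by simp)
  have h4 := (n2 X g e.1 hsm (e.1.symm z) (e.1.map_target hz)).2.2.2.2 u
    (by rw [e.1.right_inv hz]; exact hd)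
  rw [e.1.right_inv hz] at h4
  have h5 := hC (e.1.symm z) (mem_univ _)
  rw [Real.norm_eq_abs] at h5
  have h6 : gradSqC (g.mcoef e.1) (u ∘ e.1.symm) z ≤ Real.sqrt (max C 0) ^ 2 := by
    rw [← h4, Real.sq_sqrt (le_max_right _ _)]
    exact (le_abs_self _).trans (h5.trans (le_max_left _ _))
  have h7 := Gc_bound (((n1 X g).2.1 e.1 hsm).posDef z hz) (u ∘ e.1.symm) (Real.sqrt_nonneg _) h6 v
  rw [(n1 X g).1 e z hz] at h7
  exact h7


/-- Bounded derivatives of the cutoff functions. -/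
theorem Gc_chi_bound (k : ℕ) : ∃ B : ℝ, 0 ≤ B ∧ ∀ j, ∀ m ≤ k, ∀ x,
    ‖iteratedFDeriv ℝ m (Gc_chi Γ j) x‖ ≤ B := by
  have h1 : ∀ j : Fin (Γ.n + 1), ∀ m : ℕ, ∃ B : ℝ, ∀ x, ‖iteratedFDeriv ℝ m (Gc_chi Γ j) x‖ ≤ B := by
    intro j m
    have hs : HasCompactSupport (Gc_chi Γ j) := by
      refine HasCompactSupport.intro (isCompact_closedBall (0 : E4) 1) fun x hx => ?_
      refine Gc_chi_supp Γ j x ?_
      rw [Metric.mem_closedBall, dist_zero_right, not_le] at hx
      exact hx.le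
    have hc : Continuous (iteratedFDeriv ℝ m (Gc_chi Γ j)) :=
      (Γ.γ.mdl (Γ.idx.symm (1, j))).chi_smooth.continuous_iteratedFDeriv
        (by exact_mod_cast le_top)
    exact hc.bounded_above_of_compact_support (hs.iteratedFDeriv m)
  choose B hB using h1
  refine ⟨∑ j, ∑ m ∈ Finset.range (k + 1), |B j m|, by positivity, fun j m hm x => ?_⟩
  refine (hB j m x).trans ((le_abs_self _).trans ?_)
  refine le_trans ?_ (Finset.single_le_sum (f := fun j => ∑ m ∈ Finset.range (k + 1), |B j m|)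
    (fun j _ => Finset.sum_nonneg fun _ _ => abs_nonneg _) (Finset.mem_univ j))
  exact Finset.single_le_sum (f := fun m => |B j m|) (fun _ _ => abs_nonneg _)
    (Finset.mem_range.2 (Nat.lt_succ_of_le hm))

end

/-- G2. -/
theorem claimPart0_proof (h8 : claimPatch) (n1 : claimN1) (n2 : claimN2) (n3 : claimN3) :
    claimPart0 := by
  intro X _ _ _ _ _ _ U h Γ g
  classical
  -- constants
  have hM := fun j => Gc_const n1 n2 n3 g (Gc_F Γ j) (Gc_F_smooth Γ j)
  choose M hM0 hM using hM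
  obtain ⟨N0, hN0⟩ := Γ.γ.mult
  set M1 : ℝ := ∑ j, M j with hM1
  have hM1' : ∀ j, M j ≤ M1 := fun j =>
    Finset.single_le_sum (fun j _ => hM0 j) (Finset.mem_univ j)
  have hM10 : 0 ≤ M1 := Finset.sum_nonneg fun j _ => hM0 j
  refine ⟨Gc_phi Γ, N0 * M1, ⟨?_, Gc_phi_supp Γ, Gc_phi_nonneg Γ, Gc_sum_one Γ, ?_⟩, ?_, ?_⟩
  · intro c z hz
    have h1 : ContDiffAt ℝ ∞ (fun w => ∑ j, Gc_S Γ (Γ.idx.symm (1, j)) (c.psi.symm w)) z :=
      ContDiffAt.sum fun j _ => Gc_term_smooth Γ c _ hz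
    have h2le : (2 : WithTop ℕ∞) ≤ ∞ := by
      have : ((2 : ℕ∞) : WithTop ℕ∞) ≤ ((⊤ : ℕ∞) : WithTop ℕ∞) := WithTop.coe_le_coe.2 le_top
      exact this
    exact (h1.of_le h2le).contDiffWithinAt
  · intro c z hz v
    set R : ℝ := Real.sqrt (∑ i, ∑ j, g.coef c.e z i j * v i * v j) with hR
    have hR0 : 0 ≤ R := Real.sqrt_nonneg _
    set s : Finset Γ.γ.I := (Gc_fin Γ (c.psi.symm z)).toFinset with hs
    -- one term
    have hterm : ∀ i, |fderiv ℝ (fun w => Gc_S Γ i (c.psi.symm w)) z v| ≤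
        if i ∈ s then M1 * R else 0 := by
      intro i
      by_cases hi : c.psi.symm z ∈ (Γ.γ.psi i).symm '' Metric.closedBall 0 1
      · have hi' : i ∈ s := by
          rw [hs, Set.Finite.mem_toFinset]
          exact Set.image_mono (Metric.closedBall_subset_closedBall (by norm_num)) hi
        rw [if_pos hi', ((Gc_term Γ c i hz).2 hi).fderiv_eq]
        exact (hM (Γ.idx i).2 c.e z (Gc_ctarget c hz) v).trans
          (mul_le_mul_of_nonneg_right (hM1' _) hR0)
      · rw [((Gc_term Γ c i hz).1 hi).fderiv_eq]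
        have : (0 : ℝ) ≤ if i ∈ s then M1 * R else 0 := by
          split_ifs
          · positivity
          · exact le_refl _
        simpa using this
    have hphi : ∀ a : U.G, |fderiv ℝ (fun w => Gc_phi Γ (a⁻¹ • c.psi.symm w)) z v| ≤
        ∑ j, if Γ.idx.symm (a, j) ∈ s then M1 * R else 0 := by
      intro a
      have e1 : (fun w => Gc_phi Γ (a⁻¹ • c.psi.symm w)) =
          fun w => ∑ j, Gc_S Γ (Γ.idx.symm (a, j)) (c.psi.symm w) := by
        funext w
        unfold Gc_phi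
        refine Finset.sum_congr rfl fun j _ => ?_
        rw [Gc_S_act Γ a j]
      have e2 : fderiv ℝ (fun w => Gc_phi Γ (a⁻¹ • c.psi.symm w)) z =
          ∑ j, fderiv ℝ (fun w => Gc_S Γ (Γ.idx.symm (a, j)) (c.psi.symm w)) z := by
        rw [e1, fderiv_fun_sum]
        intro j _
        exact (Gc_term_smooth Γ c _ hz).differentiableAt (by simp)
      rw [e2, ContinuousLinearMap.sum_apply]
      exact (Finset.abs_sum_le_sum_abs _ _).trans (Finset.sum_le_sum fun j _ => hterm _)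
    -- the sum over the group
    set t : Finset U.G := s.image fun i => (Γ.idx i).1 with ht
    have hzero : ∀ a ∉ t, ∀ j, Γ.idx.symm (a, j) ∉ s := by
      intro a ha j hj
      refine ha ?_
      rw [ht, Finset.mem_image]
      exact ⟨_, hj, by rw [Equiv.apply_symm_apply]⟩
    have hsupp : (Function.support fun a : U.G =>
        |fderiv ℝ (fun w => Gc_phi Γ (a⁻¹ • c.psi.symm w)) z v|) ⊆ t := by
      intro a ha
      by_contra hat
      refine ha (le_antisymm ((hphi a).trans (le_of_eq ?_)) (abs_nonneg _))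
      exact Finset.sum_eq_zero fun j _ => if_neg (hzero a hat j)
    rw [finsum_eq_sum_of_support_subset _ hsupp]
    refine (Finset.sum_le_sum fun a _ => hphi a).trans ?_
    rw [← Finset.sum_product' (f := fun a j => if Γ.idx.symm (a, j) ∈ s then M1 * R else 0)]
    rw [← Finset.sum_filter, Finset.sum_const, nsmul_eq_mul]
    have hcard : (Finset.filter (fun x : U.G × Fin (Γ.n + 1) => Γ.idx.symm (x.1, x.2) ∈ s)
        (t ×ˢ Finset.univ)).card ≤ N0 := by
      have h1 : (Finset.filter (fun x : U.G × Fin (Γ.n + 1) => Γ.idx.symm (x.1, x.2) ∈ s)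
          (t ×ˢ Finset.univ)).card ≤ s.card := by
        refine Finset.card_le_card_of_injOn (fun x => Γ.idx.symm x) ?_ ?_
        · intro x hx
          exact (Finset.mem_filter.1 hx).2
        · intro x _ y _ hxy
          exact Γ.idx.symm.injective hxy
      refine h1.trans ?_
      have h2 := hN0 (c.psi.symm z)
      rwa [Set.ncard_eq_toFinset_card _ (Gc_fin Γ (c.psi.symm z))] at h2
    calc _ ≤ (N0 : ℝ) * (M1 * R) :=
          mul_le_mul_of_nonneg_right (by exact_mod_cast hcard) (by positivity)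
      _ = N0 * M1 * R := by ring
  · intro D hD
    obtain ⟨O, -, hDO, hfin⟩ := H.H12_compact H.claimLCh_proof U hD (Gc_phi_supp Γ)
    refine hfin.subset ?_
    rintro a ⟨y, hy, hne⟩
    exact ⟨y, hDO hy, subset_tsupport _ hne⟩
  · intro k T
    obtain ⟨K, hK0, hK⟩ := h8 U.Y ℝ Γ.γ k T
    obtain ⟨B, hB0, hB⟩ := Gc_chi_bound Γ k
    refine ⟨K * B, fun σ hσ => ?_⟩
    have h1 := hK B (fun i _ x => σ (Γ.idx i).1 * Gc_chi Γ (Γ.idx i).2 x) hB0 ?_ ?_
    · have e1 : (fun (_ : ℝ) (y : U.Y) => ∑ᶠ a : U.G, σ a * Gc_phi Γ (a⁻¹ • y)) =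
          fun (_ : ℝ) y => ∑ᶠ i, (Γ.γ.psi i).source.indicator
            (fun y => σ (Γ.idx i).1 * Gc_chi Γ (Γ.idx i).2 (Γ.γ.psi i y)) y := by
        funext _ y
        rw [← Gc_sum]
        refine finsum_congr fun i => ?_
        unfold Gc_S
        by_cases hy : y ∈ (Γ.γ.psi i).source
        · rw [Set.indicator_of_mem hy, Set.indicator_of_mem hy]
        · rw [Set.indicator_of_notMem hy, Set.indicator_of_notMem hy, mul_zero]
      rw [e1]
      exact h1
    · intro i
      have hsm : ContDiff ℝ ∞ (Gc_chi Γ (Γ.idx i).2) :=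
        (Γ.γ.mdl (Γ.idx.symm (1, (Γ.idx i).2))).chi_smooth
      have hsm' : ContDiff ℝ ∞ (fun x => σ (Γ.idx i).1 * Gc_chi Γ (Γ.idx i).2 x) :=
        contDiff_const.mul hsm
      refine ⟨fun t _ => hsm'.of_le (by exact_mod_cast le_top), fun j _ => ?_, fun j hj t _ x => ?_⟩
      · exact ((hsm'.continuous_iteratedFDeriv (m := j) (by exact_mod_cast le_top)).comp
          continuous_snd).continuousOn
      · have e2 : (fun x => σ (Γ.idx i).1 * Gc_chi Γ (Γ.idx i).2 x) =
            σ (Γ.idx i).1 • Gc_chi Γ (Γ.idx i).2 := rfl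
        rw [e2, iteratedFDeriv_const_smul_apply (hsm.of_le (by exact_mod_cast le_top)).contDiffAt,
          norm_smul, Real.norm_eq_abs]
        calc _ ≤ 1 * B := mul_le_mul (hσ _) (hB _ j hj x) (norm_nonneg _) zero_le_one
          _ = B := one_mul B
    · intro i t x hx
      rw [Gc_chi_supp Γ _ x (by linarith), mul_zero]

end NRF

end
end

section

/-!
# Gd: existence and tail estimate of solutions with initial values
-/

open scoped Manifold ContDiff Topology
open MeasureTheory Set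

noncomputable section

namespace NRF

/-! ## Products of nice functions -/

theorem Gd_nice_bil (k : ℕ) : ∀ {W W' W'' : Type} [NormedAddCommGroup W] [NormedSpace ℝ W]
    [NormedAddCommGroup W'] [NormedSpace ℝ W'] [NormedAddCommGroup W''] [NormedSpace ℝ W'']
    (B : W →L[ℝ] W' →L[ℝ] W'') {T C D : ℝ} {u : ℝ → E4 → W} {w : ℝ → E4 → W'}, 0 ≤ C → 0 ≤ D →
    NiceE k T C u → NiceE k T D w → NiceE k T (‖B‖ * 2 ^ k * C * D) fun t x => B (u t x) (w t x) := by
  induction k with
  | zero =>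
    intro W W' W'' _ _ _ _ _ _ B T C D u w hC hD hu hw
    refine C7a_nice_zero ?_ fun t ht x => ?_
    · exact B.isBoundedBilinearMap.continuous.comp_continuousOn
        ((C7a_nice_cont hu).prodMk (C7a_nice_cont hw))
    · rw [pow_zero, mul_one]
      refine (B.le_opNorm₂ _ _).trans ?_
      gcongr
      · exact C7a_nice_bd hu t ht x
      · exact C7a_nice_bd hw t ht x
  | succ k ih =>
    intro W W' W'' _ _ _ _ _ _ B T C D u w hC hD hu hw
    obtain ⟨hu1, hu2⟩ := C7a_nice_fderiv hu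
    obtain ⟨hw1, hw2⟩ := C7a_nice_fderiv hw
    refine C7a_nice_succ ?_ (fun t ht x => ?_) (fun t ht => ?_) ?_
    · exact B.isBoundedBilinearMap.continuous.comp_continuousOn
        ((C7a_nice_cont hu).prodMk (C7a_nice_cont hw))
    · have h1 : (1 : ℝ) ≤ 2 ^ (k + 1) := one_le_pow₀ (by norm_num)
      calc ‖B (u t x) (w t x)‖ ≤ ‖B‖ * ‖u t x‖ * ‖w t x‖ := B.le_opNorm₂ _ _
        _ ≤ ‖B‖ * C * D := by
          gcongr
          · exact C7a_nice_bd hu t ht x
          · exact C7a_nice_bd hw t ht x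
        _ = ‖B‖ * 1 * C * D := by ring
        _ ≤ ‖B‖ * 2 ^ (k + 1) * C * D := by gcongr
    · exact B.isBoundedBilinearMap.differentiable.comp ((hu1 t ht).prodMk (hw1 t ht))
    · have h1 := ih (B.precompR E4) hC hD (k1_NiceE_le hu (Nat.le_succ k)) hw2
      have h2 := ih (B.precompL E4) hC hD hu2 (k1_NiceE_le hw (Nat.le_succ k))
      have h3 := C7a_nice_add h1 h2
      refine C7a_nice_mono (C7a_nice_congr h3 fun t ht => ?_) ?_
      · funext x
        exact (B.fderiv_of_bilinear (hu1 t ht x) (hw1 t ht x)).symm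
      · have e1 := B.norm_precompR_le E4
        have e2 := B.norm_precompL_le E4
        have h0 : 0 ≤ 2 ^ k * C * D := by positivity
        have e3 := mul_le_mul_of_nonneg_right e1 h0
        have e4 := mul_le_mul_of_nonneg_right e2 h0
        have e5 : ‖B‖ * 2 ^ (k + 1) * C * D = ‖B‖ * (2 ^ k * C * D) + ‖B‖ * (2 ^ k * C * D) := by
          ring
        rw [e5]
        refine le_trans (le_of_eq ?_) (add_le_add e3 e4)
        ring

/-- Smooth coefficients of bounded support are nice. -/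
theorem Gd_nice_coef (k : ℕ) : ∀ {W : Type} [NormedAddCommGroup W] [NormedSpace ℝ W]
    (A : ℝ × E4 → W), ContDiff ℝ ∞ A → (∀ q : ℝ × E4, 2 < ‖q.2‖ → A q = 0) → ∀ T : ℝ,
    ∃ K : ℝ, 0 ≤ K ∧ NiceE k T K fun t x => A (t, x) := by
  have hbd : ∀ {W : Type} [NormedAddCommGroup W] [NormedSpace ℝ W]
      (A : ℝ × E4 → W), Continuous A → (∀ q : ℝ × E4, 2 < ‖q.2‖ → A q = 0) → ∀ T : ℝ,
      ∃ K : ℝ, 0 ≤ K ∧ ∀ t ∈ Icc 0 T, ∀ x, ‖A (t, x)‖ ≤ K := by
    intro W _ _ A hA h0 T
    have hK : IsCompact (Icc (0 : ℝ) T ×ˢ Metric.closedBall (0 : E4) 2) :=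
      isCompact_Icc.prod (isCompact_closedBall _ _)
    obtain ⟨B0, hB0⟩ := hK.exists_bound_of_continuousOn hA.continuousOn
    refine ⟨max B0 0, le_max_right _ _, fun t ht x => ?_⟩
    rcases le_or_gt ‖x‖ 2 with hx | hx
    · exact (hB0 (t, x) ⟨ht, by simpa using hx⟩).trans (le_max_left _ _)
    · rw [h0 (t, x) hx, norm_zero]
      exact le_max_right _ _
  induction k with
  | zero =>
    intro W _ _ A hA h0 T
    obtain ⟨K, hK, hb⟩ := hbd A hA.continuous h0 T
    exact ⟨K, hK, C7a_nice_zero hA.continuous.continuousOn hb⟩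
  | succ k ih =>
    intro W _ _ A hA h0 T
    obtain ⟨K, hK, hb⟩ := hbd A hA.continuous h0 T
    have hd : Differentiable ℝ A := hA.differentiable (by simp)
    set L : (ℝ × E4 →L[ℝ] W) →L[ℝ] (E4 →L[ℝ] W) :=
      (ContinuousLinearMap.compL ℝ E4 (ℝ × E4) W).flip (ContinuousLinearMap.inr ℝ ℝ E4) with hL
    have hA' : ContDiff ℝ ∞ (fun q => L (fderiv ℝ A q)) :=
      L.contDiff.comp (hA.fderiv_right (m := ∞) (by simp))
    have h0' : ∀ q : ℝ × E4, 2 < ‖q.2‖ → L (fderiv ℝ A q) = 0 := by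
      intro q hq
      have hev : A =ᶠ[𝓝 q] fun _ => 0 := by
        have ho : IsOpen {q : ℝ × E4 | 2 < ‖q.2‖} :=
          isOpen_lt continuous_const (continuous_norm.comp continuous_snd)
        filter_upwards [ho.mem_nhds hq] with p hp using h0 p hp
      rw [hev.fderiv_eq]
      simp
    obtain ⟨K', hK', hn⟩ := ih (fun q => L (fderiv ℝ A q)) hA' h0' T
    refine ⟨max K K', hK.trans (le_max_left _ _), C7a_nice_succ hA.continuous.continuousOn
      (fun t ht x => (hb t ht x).trans (le_max_left _ _)) (fun t _ => ?_) ?_⟩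
    · exact hd.comp (by fun_prop : Differentiable ℝ fun x : E4 => (t, x))
    · refine C7a_nice_mono (C7a_nice_congr hn fun t _ => ?_) (le_max_right _ _)
      funext x
      have h1 : HasFDerivAt (fun x : E4 => (t, x)) (ContinuousLinearMap.inr ℝ ℝ E4) x :=
        hasFDerivAt_prodMk_right t x
      have h2 : HasFDerivAt (fun x : E4 => A (t, x))
          ((fderiv ℝ A (t, x)).comp (ContinuousLinearMap.inr ℝ ℝ E4)) x :=
        (hd (t, x)).hasFDerivAt.comp x h1
      rw [h2.fderiv]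
      rfl

section op

variable {V : Type} [NormedAddCommGroup V] [InnerProductSpace ℝ V] [FiniteDimensional ℝ V]

omit [FiniteDimensional ℝ V] in
/-- The operator of a model, cut off. -/
theorem Gd_op_nice (m : Model V) (k : ℕ) (T : ℝ) : ∃ K : ℝ, 0 ≤ K ∧ ∀ (C : ℝ) (w : ℝ → E4 → V),
    0 ≤ C → NiceE (k + 2) T C w → NiceE k T (K * C) fun t x => -(m.chi x • m.op t (w t) x) := by
  have hchi : ContDiff ℝ ∞ (fun q : ℝ × E4 => m.chi q.2) := m.chi_smooth.comp contDiff_snd
  have hc0 : ∀ q : ℝ × E4, 2 < ‖q.2‖ → m.chi q.2 = 0 := fun q hq => m.chi_supp _ (by linarith)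
  have ha : ∀ i j, ∃ K : ℝ, 0 ≤ K ∧ NiceE k T K fun t x => m.chi x * m.a (t, x) i j := by
    intro i j
    exact Gd_nice_coef k (fun q => m.chi q.2 * m.a q i j) (hchi.mul (m.a_smooth i j))
      (fun q hq => by rw [hc0 q hq, zero_mul]) T
  have hb : ∀ i, ∃ K : ℝ, 0 ≤ K ∧ NiceE k T K fun t x => -(m.chi x • m.b (t, x) i) := by
    intro i
    exact Gd_nice_coef k (fun q => -(m.chi q.2 • m.b q i)) (hchi.smul (m.b_smooth i)).neg
      (fun q hq => by rw [hc0 q hq, zero_smul, neg_zero]) T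
  have hc : ∃ K : ℝ, 0 ≤ K ∧ NiceE k T K fun t x => -(m.chi x • m.c (t, x)) :=
    Gd_nice_coef k (fun q => -(m.chi q.2 • m.c q)) (hchi.smul m.c_smooth).neg
      (fun q hq => by rw [hc0 q hq, zero_smul, neg_zero]) T
  choose Ka hKa ha using ha
  choose Kb hKb hb using hb
  obtain ⟨Kc, hKc, hc⟩ := hc
  set P : ℝ := ‖(ContinuousLinearMap.lsmul ℝ ℝ : ℝ →L[ℝ] V →L[ℝ] V)‖ * 2 ^ k with hP
  set R : ℝ := ‖(ContinuousLinearMap.id ℝ (V →L[ℝ] V))‖ * 2 ^ k with hR
  have hP0 : 0 ≤ P := by positivity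
  have hR0 : 0 ≤ R := by positivity
  refine ⟨(∑ i, ∑ j, P * Ka i j) + (∑ i, R * Kb i) + R * Kc, ?_, fun C w hC hw => ?_⟩
  · exact add_nonneg (add_nonneg (Finset.sum_nonneg fun i _ => Finset.sum_nonneg fun j _ =>
      mul_nonneg hP0 (hKa i j)) (Finset.sum_nonneg fun i _ => mul_nonneg hR0 (hKb i)))
      (mul_nonneg hR0 hKc)
  · have h2 : ∀ i j, NiceE k T (P * Ka i j * C)
        fun t x => (m.chi x * m.a (t, x) i j) • pd i (pd j (w t)) x := by
      intro i j
      exact Gd_nice_bil k (ContinuousLinearMap.lsmul ℝ ℝ : ℝ →L[ℝ] V →L[ℝ] V) (hKa i j) hC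
        (ha i j) (C7a_nice_pd hC (C7a_nice_pd hC hw j) i)
    have h1 : ∀ i, NiceE k T (R * Kb i * C)
        fun t x => (-(m.chi x • m.b (t, x) i)) (pd i (w t) x) := by
      intro i
      exact Gd_nice_bil k (ContinuousLinearMap.id ℝ (V →L[ℝ] V)) (hKb i) hC (hb i)
        (C7a_nice_pd hC (k1_NiceE_le hw (by omega)) i)
    have h0 : NiceE k T (R * Kc * C) fun t x => (-(m.chi x • m.c (t, x))) (w t x) :=
      Gd_nice_bil k (ContinuousLinearMap.id ℝ (V →L[ℝ] V)) hKc hC hc
        (k1_NiceE_le hw (by omega))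
    have hs2 := C7a_nice_sum Finset.univ (fun i _ => C7a_nice_sum Finset.univ
      (fun j _ => h2 i j))
    have hs1 := C7a_nice_sum Finset.univ (fun i _ => h1 i)
    refine C7a_nice_mono (C7a_nice_congr (C7a_nice_add (C7a_nice_add hs2 hs1) h0)
      fun t _ => ?_) ?_
    · funext x
      simp only [Model.op, smul_add, smul_neg, neg_add, neg_neg, Finset.smul_sum, smul_smul,
        neg_apply, smul_apply, Finset.sum_neg_distrib]
    · apply le_of_eq
      simp only [add_mul, Finset.sum_mul]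

end op

section main

variable {Y : Type} [TopologicalSpace Y]

/-- The operators of all the charts, uniformly. -/
theorem Gd_op_unif (γ : Geom Y ℝ) (k : ℕ) (T : ℝ) : ∃ K : ℝ, 0 ≤ K ∧ ∀ (i : γ.I) (C : ℝ)
    (w : ℝ → E4 → ℝ), 0 ≤ C → NiceE (k + 2) T C w →
      NiceE k T (K * C) fun t x => -((γ.mdl i).chi x • (γ.mdl i).op t (w t) x) := by
  have := γ.finJ
  choose K hK hn using fun j : γ.J => Gd_op_nice (γ.model j) k T
  obtain ⟨M, hM⟩ := (Set.finite_range K).bddAbove
  refine ⟨max M 0, le_max_right _ _, fun i C w hC hw => ?_⟩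
  refine C7a_nice_mono (hn (γ.mod i) C w hC hw) ?_
  exact mul_le_mul_of_nonneg_right ((hM ⟨γ.mod i, rfl⟩).trans (le_max_left _ _)) hC

/-- The right hand side `-L F`. -/
def Gd_r (γ : Geom Y ℝ) (F : Y → ℝ) (t : ℝ) (y : Y) : ℝ := -γ.L t F y

theorem Gd_C2 {γ : Geom Y ℝ} {k : ℕ} {T C : ℝ} {F : Y → ℝ} (hT : 0 < T)
    (hF : γ.Nice (k + 2) T C (fun _ => F)) : γ.C2 F :=
  k1_Nice_C2 (u := fun _ => F) (k1_Nice_le hF (by omega)) (left_mem_Icc.2 hT.le)

theorem Gd_r_eq {γ : Geom Y ℝ} {F : Y → ℝ} (hF : γ.C2 F) (t : ℝ) (i : γ.I) {x : E4}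
    (hx : ‖x‖ < 5 / 2) :
    Gd_r γ F t ((γ.psi i).symm x) = -(γ.mdl i).op t (fun z => F ((γ.psi i).symm z)) x := by
  rw [Gd_r, k1_L γ t hF i hx]

theorem Gd_r_nice [T2Space Y] (h8 : claimPatch) (γ : Geom Y ℝ) (k : ℕ) {T : ℝ} (hT : 0 < T) :
    ∃ K : ℝ, 0 ≤ K ∧ ∀ (C : ℝ) (F : Y → ℝ), 0 ≤ C → γ.Nice (k + 2) T C (fun _ => F) →
      γ.Nice k T (K * C) (Gd_r γ F) := by
  obtain ⟨K8, hK8, h8'⟩ := h8 Y ℝ γ k T
  obtain ⟨Ko, hKo, ho⟩ := Gd_op_unif γ k T
  refine ⟨K8 * Ko, mul_nonneg hK8 hKo, fun C F hC hF => ?_⟩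
  have hF2 := Gd_C2 hT hF
  set v : γ.I → ℝ → E4 → ℝ := fun i t x =>
    -((γ.mdl i).chi x • (γ.mdl i).op t (fun x => etaC x • F ((γ.psi i).symm x)) x) with hv
  have hv0 : ∀ i t x, 2 ≤ ‖x‖ → v i t x = 0 := by
    intro i t x hx
    have : (γ.mdl i).chi x = 0 := (γ.mdl i).chi_supp x (by linarith)
    simp only [hv, this, zero_smul, neg_zero]
  have h1 := h8' (Ko * C) v (mul_nonneg hKo hC)
    (fun i => ho i C (fun _ x => etaC x • F ((γ.psi i).symm x)) hC (hF i)) hv0
  rw [← mul_assoc] at h1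
  have h2 : (fun t y => ∑ᶠ i, (γ.psi i).source.indicator (fun y => v i t (γ.psi i y)) y) =
      Gd_r γ F := by
    funext t y
    have h3 := C9.patch_eq γ v t (fun i x => hv0 i t x) y
    have h4 : ∀ i ∈ C9.chs γ y, v i t (γ.psi i y) = (γ.mdl i).chi (γ.psi i y) * Gd_r γ F t y := by
      intro i hi
      have hs : y ∈ (γ.psi i).source := (C9.mem_cb_iff.1 (C9.mem_chs.1 hi)).1
      rcases lt_or_ge ‖γ.psi i y‖ 1 with hn | hn
      · have h5 : Gd_r γ F t y = -(γ.mdl i).op t (fun z => F ((γ.psi i).symm z)) (γ.psi i y) := by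
          have := Gd_r_eq hF2 t i (x := γ.psi i y) (by linarith)
          rw [(γ.psi i).left_inv hs] at this
          exact this
        have h6 : (γ.mdl i).op t (fun x => etaC x • F ((γ.psi i).symm x)) (γ.psi i y) =
            (γ.mdl i).op t (fun z => F ((γ.psi i).symm z)) (γ.psi i y) := by
          refine k1_op_congr _ _ ?_
          filter_upwards [k1_eta_ev (show ‖γ.psi i y‖ < 3 / 2 by linarith)] with z hz
          rw [hz, one_smul]
        show -((γ.mdl i).chi (γ.psi i y) •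
          (γ.mdl i).op t (fun x => etaC x • F ((γ.psi i).symm x)) (γ.psi i y)) = _
        rw [h6, h5, smul_eq_mul]
        ring
      · have : (γ.mdl i).chi (γ.psi i y) = 0 := (γ.mdl i).chi_supp _ hn
        simp only [hv, this, zero_smul, neg_zero, zero_mul]
    show C9.patch γ v t y = _
    rw [h3, Finset.sum_congr rfl h4, ← Finset.sum_mul, C9.sum_chi, one_mul]
  rw [h2] at h1
  exact h1

/-- `-L F` vanishes where `F` vanishes nearby. -/
theorem Gd_r_zero (γ : Geom Y ℝ) {F : Y → ℝ} {y : Y} (h : ∀ᶠ y' in 𝓝 y, F y' = 0) (t : ℝ) :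
    Gd_r γ F t y = 0 := by
  rw [Gd_r, k1_L_at]
  have hs := (k1_ch γ y).1
  have hyt := (γ.psi (γ.ch y)).map_source hs
  have hc : ContinuousAt (γ.psi (γ.ch y)).symm (γ.psi (γ.ch y) y) :=
    (γ.psi (γ.ch y)).continuousAt_symm hyt
  have h1 : (fun z => F ((γ.psi (γ.ch y)).symm z)) =ᶠ[𝓝 (γ.psi (γ.ch y) y)]
      fun _ => (0 : ℝ) • (0 : ℝ) := by
    have h2 : ∀ᶠ y' in 𝓝 ((γ.psi (γ.ch y)).symm (γ.psi (γ.ch y) y)), F y' = 0 := by
      rw [(γ.psi (γ.ch y)).left_inv hs]
      exact h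
    filter_upwards [hc.eventually h2] with z hz
    rw [hz, zero_smul]
  rw [k1_op_congr _ _ h1, k1_op_smul (u := fun _ => (0 : ℝ)) _ _ _ contDiffAt_const, zero_smul,
    neg_zero]

end main

/-- Existence and tail estimate of solutions with initial values. -/
theorem claimSolEx_proof (h8 : claimPatch) (h9 : claimDuhamel) (hA : claimSolAlg) :
    claimSolEx := by
  intro Y _ _ γ hc0 k T C hk hT hC
  obtain ⟨S, K9, hK9, hS, hTail⟩ := h9 Y ℝ γ k T hk hT
  obtain ⟨K8, hK8, h8'⟩ := Gd_r_nice h8 γ k hT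
  have key : ∀ F, γ.Nice (k + 2) T C (fun _ => F) →
      Sol γ k T (C + K9 * (K8 * C)) F (fun t y => F y + S (Gd_r γ F) t y) := by
    intro F hF
    have hF2 := Gd_C2 hT hF
    obtain ⟨hN, hSol⟩ := hS _ _ (h8' C F hC hF)
    refine ⟨k1_Nice_add (k1_Nice_le hF (by omega)) hN, fun i t ht x hx => ?_⟩
    have h1 := hSol i t ht x hx
    show F ((γ.psi i).symm x) + S (Gd_r γ F) t ((γ.psi i).symm x) = _
    rw [h1, sub_eq_add_neg, ← intervalIntegral.integral_neg]
    congr 1
    refine intervalIntegral.integral_congr fun τ hτ => ?_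
    rw [uIcc_of_le ht.1] at hτ
    have hτT : τ ∈ Icc 0 T := ⟨hτ.1, hτ.2.trans ht.2⟩
    have hxt : x ∈ (γ.psi i).target := k1_target γ i (by linarith)
    have c1 : ContDiffAt ℝ 2 (fun z => F ((γ.psi i).symm z)) x :=
      k1_contDiffAt γ k1_two_le hF2 i hxt
    have c2 : ContDiffAt ℝ 2 (fun z => S (Gd_r γ F) τ ((γ.psi i).symm z)) x :=
      k1_contDiffAt γ k1_two_le (k1_Nice_C2 (k1_Nice_le hN hk) hτT) i hxt
    show Gd_r γ F τ ((γ.psi i).symm x) - _ =
      -(γ.mdl i).op τ (fun z => F ((γ.psi i).symm z) + S (Gd_r γ F) τ ((γ.psi i).symm z)) x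
    rw [k1_op_add _ _ c1 c2, Gd_r_eq hF2 τ i (by linarith)]
    ring
  have hC' : 0 ≤ C + K9 * (K8 * C) := by positivity
  refine ⟨C + K9 * (K8 * C), hC', fun F hF => ⟨_, key F hF⟩, fun D hD δ hδ => ?_⟩
  obtain ⟨D', hD', htail⟩ := hTail D hD δ hδ (K8 * C)
  refine ⟨C9.nb γ D ∪ C9.nb γ D', (C9.isCompact_nb hD).union (C9.isCompact_nb hD'),
    fun F hF hF0 u hu i t ht x hx hxD j hj => ?_⟩
  have hr := h8' C F hC hF
  have hr0 : ∀ t ∈ Icc 0 T, ∀ y ∈ D', Gd_r γ F t y = 0 := by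
    intro t _ y hy
    refine Gd_r_zero γ ?_ t
    filter_upwards [C9.nb_mem_nhds (g := γ) hy] with y' hy'
    exact hF0 y' (Or.inr hy')
  have hb := htail (Gd_r γ F) hr hr0 i t ht x hx hxD j hj
  have hu2 : ∀ t ∈ Icc 0 T, ∀ y, u t y = F y + S (Gd_r γ F) t y :=
    (hA Y γ hc0 k T hk hT).2.2.1 _ _ F _ _ hu (key F hF)
  have hxt : x ∈ (γ.psi i).target := k1_target γ i (by linarith)
  have hev : (fun z => u t ((γ.psi i).symm z)) =ᶠ[𝓝 x]
      fun z => S (Gd_r γ F) t ((γ.psi i).symm z) := by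
    have hc : ContinuousAt (γ.psi i).symm x := (γ.psi i).continuousAt_symm hxt
    filter_upwards [hc.eventually (C9.nb_mem_nhds (g := γ) hxD)] with z hz
    rw [hu2 t ht, hF0 _ (Or.inl hz), zero_add]
  rw [(hev.iteratedFDeriv ℝ j).eq_of_nhds]
  exact hb

end NRF

end
end

section

/-!
# Ge: sums, multiples and uniqueness of solutions
-/

open scoped Manifold ContDiff Topology
open MeasureTheory Set Filter

noncomputable section

namespace NRF

/-- Continuity in time of the operator applied to a nice function. -/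
theorem Ge_op_cont {Y : Type} [TopologicalSpace Y] {g : Geom Y ℝ} {T C : ℝ} {u : ℝ → Y → ℝ}
    (h : g.Nice 2 T C u) (i : g.I) {x : E4} (hx : ‖x‖ < 3 / 2) :
    ContinuousOn (fun τ => (g.mdl i).op τ (fun z => u τ ((g.psi i).symm z)) x) (Icc 0 T) := by
  have h3 : ContinuousOn (fun τ : ℝ => (τ, x)) (Icc 0 T) := by fun_prop
  have hmt : MapsTo (fun τ : ℝ => (τ, x)) (Icc 0 T) (Icc 0 T ×ˢ univ) :=
    fun τ hτ => mk_mem_prod hτ (mem_univ _)
  have k0 : ContinuousOn (fun τ : ℝ => etaC x • u τ ((g.psi i).symm x)) (Icc 0 T) :=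
    ContinuousOn.comp (g := fun p : ℝ × E4 => etaC p.2 • u p.1 ((g.psi i).symm p.2))
      (f := fun τ : ℝ => (τ, x)) (C7a_nice_cont (h i)) h3 hmt
  have k1 : ContinuousOn (fun τ : ℝ => iteratedFDeriv ℝ 1
      (fun z => etaC z • u τ ((g.psi i).symm z)) x) (Icc 0 T) :=
    ContinuousOn.comp (g := fun p : ℝ × E4 => iteratedFDeriv ℝ 1
      (fun z => etaC z • u p.1 ((g.psi i).symm z)) p.2)
      (f := fun τ : ℝ => (τ, x)) ((h i).2.1 1 (by norm_num)) h3 hmt
  have k2 : ContinuousOn (fun τ : ℝ => iteratedFDeriv ℝ 2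
      (fun z => etaC z • u τ ((g.psi i).symm z)) x) (Icc 0 T) :=
    ContinuousOn.comp (g := fun p : ℝ × E4 => iteratedFDeriv ℝ 2
      (fun z => etaC z • u p.1 ((g.psi i).symm z)) p.2)
      (f := fun τ : ℝ => (τ, x)) ((h i).2.1 2 (by norm_num)) h3 hmt
  have hsl : Continuous fun τ : ℝ => (τ, x) := by fun_prop
  have ha : ∀ k l, Continuous fun τ : ℝ => (g.mdl i).a (τ, x) k l := fun k l =>
    ((g.mdl i).a_smooth k l).continuous.comp hsl
  have hb : ∀ k, Continuous fun τ : ℝ => (g.mdl i).b (τ, x) k := fun k =>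
    ((g.mdl i).b_smooth k).continuous.comp hsl
  have hcc : Continuous fun τ : ℝ => (g.mdl i).c (τ, x) :=
    ((g.mdl i).c_smooth).continuous.comp hsl
  have h5 : ContinuousOn (fun τ => -(∑ k, ∑ l, (g.mdl i).a (τ, x) k l •
      iteratedFDeriv ℝ 2 (fun z => etaC z • u τ ((g.psi i).symm z)) x ![bv k, bv l]) +
      (∑ k, (g.mdl i).b (τ, x) k (iteratedFDeriv ℝ 1
        (fun z => etaC z • u τ ((g.psi i).symm z)) x ![bv k])) +
      (g.mdl i).c (τ, x) (etaC x • u τ ((g.psi i).symm x))) (Icc 0 T) := by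
    refine ContinuousOn.add (ContinuousOn.add (ContinuousOn.neg ?_) ?_) ?_
    · refine continuousOn_finsetSum _ fun k _ => continuousOn_finsetSum _ fun l _ => ?_
      refine (ha k l).continuousOn.smul ?_
      exact (ContinuousMultilinearMap.apply ℝ (fun _ : Fin 2 => E4) ℝ
        ![bv k, bv l]).continuous.comp_continuousOn k2
    · refine continuousOn_finsetSum _ fun k _ => ?_
      refine (hb k).continuousOn.clm_apply ?_
      exact (ContinuousMultilinearMap.apply ℝ (fun _ : Fin 1 => E4) ℝ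
        ![bv k]).continuous.comp_continuousOn k1
    · exact hcc.continuousOn.clm_apply k0
  refine h5.congr fun τ hτ => ?_
  have heq := K2p_eq (g := g) (u := u) i τ hx
  rw [K2p_op_eq _ _ (K2p_cd2 h hτ i hx)]
  have e1 : ∀ v, iteratedFDeriv ℝ 1 (fun z => etaC z • u τ ((g.psi i).symm z)) x ![v] =
      fderiv ℝ (fun z => u τ ((g.psi i).symm z)) x v := by
    intro v
    rw [iteratedFDeriv_one_apply, heq.fderiv_eq]
    rfl
  have e2 : ∀ v w, iteratedFDeriv ℝ 2 (fun z => etaC z • u τ ((g.psi i).symm z)) x ![v, w] =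
      fderiv ℝ (fderiv ℝ (fun z => u τ ((g.psi i).symm z))) x v w := by
    intro v w
    rw [iteratedFDeriv_two_apply, heq.fderiv.fderiv_eq]
    rfl
  simp only [e1, e2]
  rw [K2p_eta hx.le, one_smul]

theorem Ge_integrable {Y : Type} [TopologicalSpace Y] {g : Geom Y ℝ} {T C : ℝ} {u : ℝ → Y → ℝ}
    (h : g.Nice 2 T C u) (i : g.I) {x : E4} (hx : ‖x‖ < 3 / 2) {t : ℝ} (ht : t ∈ Icc 0 T) :
    IntervalIntegrable (fun τ => (g.mdl i).op τ (fun z => u τ ((g.psi i).symm z)) x)
      volume 0 t :=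
  ((Ge_op_cont h i hx).mono (by
    rw [uIcc_of_le ht.1]; exact Icc_subset_Icc_right ht.2)).intervalIntegrable

theorem Ge_nice2 {Y : Type} [TopologicalSpace Y] {g : Geom Y ℝ} {k : ℕ} {T C : ℝ}
    {F : Y → ℝ} {u : ℝ → Y → ℝ} (hk : 2 ≤ k) (h : Sol g k T C F u) : g.Nice 2 T C u :=
  K2p_nice_mono h.nice hk le_rfl le_rfl

theorem Ge_add {Y : Type} [TopologicalSpace Y] {γ : Geom Y ℝ} {k : ℕ} {T : ℝ} (hk : 2 ≤ k)
    (C C' : ℝ) (F F' : Y → ℝ) (u u' : ℝ → Y → ℝ) (h : Sol γ k T C F u) (h' : Sol γ k T C' F' u') :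
    Sol γ k T (C + C') (fun y => F y + F' y) (fun t y => u t y + u' t y) := by
  refine ⟨K2p_nice_add h.nice h'.nice, fun i t ht x hx => ?_⟩
  have h1 := h.eqn i t ht x hx
  have h2 := h'.eqn i t ht x hx
  have h3 : ∫ τ in (0 : ℝ)..t, (γ.mdl i).op τ
      (fun z => u τ ((γ.psi i).symm z) + u' τ ((γ.psi i).symm z)) x =
      (∫ τ in (0 : ℝ)..t, (γ.mdl i).op τ (fun z => u τ ((γ.psi i).symm z)) x) +
        ∫ τ in (0 : ℝ)..t, (γ.mdl i).op τ (fun z => u' τ ((γ.psi i).symm z)) x := by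
    rw [← intervalIntegral.integral_add (Ge_integrable (Ge_nice2 hk h) i hx ht)
      (Ge_integrable (Ge_nice2 hk h') i hx ht)]
    refine intervalIntegral.integral_congr fun τ hτ => ?_
    rw [uIcc_of_le ht.1] at hτ
    have hτ2 : τ ∈ Icc 0 T := ⟨hτ.1, hτ.2.trans ht.2⟩
    have h4 := K2p_op_lin (γ.mdl i) τ (K2p_cd2 (Ge_nice2 hk h) hτ2 i hx)
      (K2p_cd2 (Ge_nice2 hk h') hτ2 i hx) 1 1
    simpa only [one_smul] using h4
  rw [h3]
  simp only [h1, h2]
  ring

theorem Ge_smul {Y : Type} [TopologicalSpace Y] {γ : Geom Y ℝ} (hc : ∀ i q, (γ.mdl i).c q = 0)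
    {k : ℕ} {T : ℝ} (hk : 2 ≤ k)
    (C : ℝ) (F : Y → ℝ) (u : ℝ → Y → ℝ) (c : ℝ) (h : Sol γ k T C F u) :
    Sol γ k T (|c| * C) (fun y => c * F y) (fun t y => c * u t y) := by
  refine ⟨?_, fun i t ht x hx => ?_⟩
  · have := K2p_nice_smul c h.nice
    simpa only [smul_eq_mul] using this
  have h1 := h.eqn i t ht x hx
  have h3 : ∫ τ in (0 : ℝ)..t, (γ.mdl i).op τ (fun z => c * u τ ((γ.psi i).symm z)) x =
      c * ∫ τ in (0 : ℝ)..t, (γ.mdl i).op τ (fun z => u τ ((γ.psi i).symm z)) x := by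
    rw [← intervalIntegral.integral_const_mul]
    refine intervalIntegral.integral_congr fun τ hτ => ?_
    rw [uIcc_of_le ht.1] at hτ
    have hτ2 : τ ∈ Icc 0 T := ⟨hτ.1, hτ.2.trans ht.2⟩
    exact C11_op_mul (γ.mdl i) (hc i) τ (K2p_cd2 (Ge_nice2 hk h) hτ2 i hx) c
  rw [h3, h1]
  ring

theorem Ge_eta_bound (k : ℕ) : ∃ C : ℝ, ∀ j ≤ k, ∀ x, ‖iteratedFDeriv ℝ j etaC x‖ ≤ C := by
  have h1 : ∀ j : ℕ, ∃ C : ℝ, ∀ x, ‖iteratedFDeriv ℝ j etaC x‖ ≤ C := by
    intro j
    have h2 : HasCompactSupport etaC := etaBump.hasCompactSupport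
    have h3 : HasCompactSupport (iteratedFDeriv ℝ j etaC) := h2.iteratedFDeriv j
    have h4 : Continuous (iteratedFDeriv ℝ j etaC) :=
      etaC_smooth.continuous_iteratedFDeriv (by exact_mod_cast le_top)
    exact h4.bounded_above_of_compact_support h3
  choose B hB using h1
  refine ⟨∑ j ∈ Finset.range (k + 1), B j, fun j hj x => (hB j x).trans ?_⟩
  exact Finset.single_le_sum (f := B) (fun l _ => (norm_nonneg _).trans (hB l 0))
    (Finset.mem_range.2 (by omega))

theorem Ge_one {Y : Type} [TopologicalSpace Y] {γ : Geom Y ℝ} (hc : ∀ i q, (γ.mdl i).c q = 0)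
    (k : ℕ) (T : ℝ) : ∃ C, Sol γ k T C (fun _ => 1) (fun _ _ => 1) := by
  obtain ⟨C, hC⟩ := Ge_eta_bound k
  refine ⟨C, fun i => ?_, fun i t ht x hx => ?_⟩
  · have h0 : (fun (_ : ℝ) (x : E4) => etaC x • (1 : ℝ)) = fun _ => etaC := by
      funext t x
      simp
    rw [h0]
    refine ⟨fun t _ => etaC_smooth.of_le (by exact_mod_cast le_top), fun j hj => ?_,
      fun j hj t _ x => hC j hj x⟩
    have h4 : Continuous (iteratedFDeriv ℝ j etaC) :=
      etaC_smooth.continuous_iteratedFDeriv (by exact_mod_cast le_top)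
    exact (h4.comp continuous_snd).continuousOn
  · have h1 : ∀ τ, (γ.mdl i).op τ (fun _ => (1 : ℝ)) x = 0 := by
      intro τ
      unfold Model.op
      have e1 : ∀ l (w : E4), pd l (fun _ : E4 => (1 : ℝ)) w = 0 := by
        intro l w
        unfold pd
        simp
      have e2 : ∀ l, pd l (fun _ : E4 => (1 : ℝ)) = fun _ => 0 := fun l => funext (e1 l)
      have e3 : ∀ l (w : E4), pd l (fun _ : E4 => (0 : ℝ)) w = 0 := by
        intro l w
        unfold pd
        simp
      simp only [e2, e3, hc]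
      simp
    simp only [h1]
    simp

theorem claimSolAlg_proof (h11 : claimUniq) : claimSolAlg := by
  intro Y _ _ γ hc k T hk hT
  refine ⟨Ge_add hk, Ge_smul hc hk, ?_, Ge_one hc k T⟩
  intro C C' F u u' h h' t ht y
  have h1 := Ge_add hk _ _ _ _ _ _ h (Ge_smul hc hk _ _ _ (-1) h')
  have h2 := h11 Y γ hc T _ hT _ (Ge_nice2 hk h1) (by
    intro i t ht x hx
    have h3 := h1.eqn i t ht x hx
    simp only at h3 ⊢
    rw [h3]
    simp only [zero_sub, intervalIntegral.integral_neg]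
    ring) t ht y
  linarith

end NRF

end
end

section

/-!
# Gf: regularity in time of solutions
-/

open scoped Manifold ContDiff Topology
open MeasureTheory Set Filter

noncomputable section

set_option linter.unusedSectionVars false

namespace NRF

section GfCalc

variable {W W' W'' : Type} [NormedAddCommGroup W] [NormedSpace ℝ W] [NormedAddCommGroup W']
  [NormedSpace ℝ W'] [NormedAddCommGroup W''] [NormedSpace ℝ W'']

/-- Functions on `[0,T] × ℝ⁴`, `C¹` in space and jointly continuous with their space derivative. -/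
structure GfC1 (T : ℝ) (f : ℝ → E4 → W) : Prop where
  diff : ∀ t ∈ Icc 0 T, Differentiable ℝ (f t)
  cont0 : ContinuousOn (fun p : ℝ × E4 => f p.1 p.2) (Icc 0 T ×ˢ univ)
  cont1 : ContinuousOn (fun p : ℝ × E4 => fderiv ℝ (f p.1) p.2) (Icc 0 T ×ˢ univ)

theorem GfC1.congr {T : ℝ} {f g : ℝ → E4 → W} (h : GfC1 T f) (e : ∀ t ∈ Icc 0 T, g t = f t) :
    GfC1 T g where
  diff t ht := by rw [e t ht]; exact h.diff t ht
  cont0 := h.cont0.congr fun p hp => by rw [e p.1 hp.1]
  cont1 := h.cont1.congr fun p hp => by rw [e p.1 hp.1]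

theorem GfC1.add {T : ℝ} {f g : ℝ → E4 → W} (hf : GfC1 T f) (hg : GfC1 T g) :
    GfC1 T (fun t x => f t x + g t x) where
  diff t ht := (hf.diff t ht).add (hg.diff t ht)
  cont0 := hf.cont0.add hg.cont0
  cont1 := (hf.cont1.add hg.cont1).congr fun p hp =>
    fderiv_fun_add (hf.diff p.1 hp.1 p.2) (hg.diff p.1 hp.1 p.2)

theorem GfC1.neg {T : ℝ} {f : ℝ → E4 → W} (hf : GfC1 T f) : GfC1 T (fun t x => -f t x) where
  diff t ht := (hf.diff t ht).neg
  cont0 := hf.cont0.neg
  cont1 := hf.cont1.neg.congr fun _ _ => fderiv_fun_neg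

theorem GfC1.zero (T : ℝ) : GfC1 T (fun _ _ => (0 : W)) where
  diff _ _ := differentiable_const _
  cont0 := continuousOn_const
  cont1 := by
    have : (fun p : ℝ × E4 => fderiv ℝ ((fun _ _ => (0 : W)) p.1 : E4 → W) p.2) =
        fun _ => 0 := by
      funext p; simp
    rw [this]
    exact continuousOn_const

theorem GfC1.sum {T : ℝ} {ι : Type} (s : Finset ι) {f : ι → ℝ → E4 → W}
    (hf : ∀ i ∈ s, GfC1 T (f i)) : GfC1 T (fun t x => ∑ i ∈ s, f i t x) := by
  classical
  induction s using Finset.induction_on with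
  | empty => simpa using GfC1.zero T
  | insert a s ha ih =>
    have h1 := (hf a (Finset.mem_insert_self a s)).add
      (ih fun i hi => hf i (Finset.mem_insert_of_mem hi))
    refine h1.congr fun t _ => ?_
    funext x
    rw [Finset.sum_insert ha]

theorem GfC1.bil {T : ℝ} (B : W →L[ℝ] W' →L[ℝ] W'') {f : ℝ → E4 → W} {g : ℝ → E4 → W'}
    (hf : GfC1 T f) (hg : GfC1 T g) : GfC1 T (fun t x => B (f t x) (g t x)) where
  diff t ht x := (B.hasFDerivAt_of_bilinear (hf.diff t ht x).hasFDerivAt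
    (hg.diff t ht x).hasFDerivAt).differentiableAt
  cont0 := (B.continuous.comp_continuousOn hf.cont0).clm_apply hg.cont0
  cont1 := by
    have h1 : ContinuousOn (fun p : ℝ × E4 => B.precompR E4 (f p.1 p.2) (fderiv ℝ (g p.1) p.2) +
        B.precompL E4 (fderiv ℝ (f p.1) p.2) (g p.1 p.2)) (Icc 0 T ×ˢ univ) :=
      (((B.precompR E4).continuous.comp_continuousOn hf.cont0).clm_apply hg.cont1).add
        (((B.precompL E4).continuous.comp_continuousOn hf.cont1).clm_apply hg.cont0)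
    refine h1.congr fun p hp => ?_
    exact (B.hasFDerivAt_of_bilinear (hf.diff p.1 hp.1 p.2).hasFDerivAt
      (hg.diff p.1 hp.1 p.2).hasFDerivAt).fderiv

theorem GfC1.clm {T : ℝ} (L : W →L[ℝ] W') {f : ℝ → E4 → W} (hf : GfC1 T f) :
    GfC1 T (fun t x => L (f t x)) where
  diff t ht := L.differentiable.comp (hf.diff t ht)
  cont0 := L.continuous.comp_continuousOn hf.cont0
  cont1 := by
    have h1 : ContinuousOn (fun p : ℝ × E4 => L.comp (fderiv ℝ (f p.1) p.2)) (Icc 0 T ×ˢ univ) :=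
      continuousOn_const.clm_comp hf.cont1
    refine h1.congr fun p hp => ?_
    exact (L.hasFDerivAt.comp p.2 (hf.diff p.1 hp.1 p.2).hasFDerivAt).fderiv

theorem GfC1.of_smooth (T : ℝ) {f : ℝ × E4 → W} (hf : ContDiff ℝ ∞ f) :
    GfC1 T (fun t x => f (t, x)) where
  diff t _ := (hf.differentiable (by simp)).comp
    ((differentiable_const t).prodMk differentiable_id)
  cont0 := hf.continuous.continuousOn
  cont1 := by
    have h0 : ∀ p : ℝ × E4, fderiv ℝ (fun x => f (p.1, x)) p.2 =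
        (fderiv ℝ f p).comp (ContinuousLinearMap.inr ℝ ℝ E4) := by
      intro p
      have h1 : HasFDerivAt f (fderiv ℝ f (p.1, p.2)) (p.1, p.2) :=
        (hf.differentiable (by simp) _).hasFDerivAt
      exact (h1.comp p.2 (hasFDerivAt_prodMk_right p.1 p.2)).fderiv
    have h1 : Continuous (fun p : ℝ × E4 =>
        (fderiv ℝ f p).comp (ContinuousLinearMap.inr ℝ ℝ E4)) :=
      (hf.continuous_fderiv (by simp)).clm_comp continuous_const
    exact h1.continuousOn.congr fun p _ => h0 p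

theorem GfC1.of_nice {k : ℕ} {T C : ℝ} {w : ℝ → E4 → W} (hk : 1 ≤ k) (h : NiceE k T C w) :
    GfC1 T w where
  diff t ht := (h.1 t ht).differentiable (by
    simp only [ne_eq, Nat.cast_eq_zero]; omega)
  cont0 := k1_NiceE_cont h
  cont1 := by
    have h1 := (continuousMultilinearCurryFin1 ℝ E4 W).continuous.comp_continuousOn (h.2.1 1 hk)
    refine h1.congr fun p _ => ?_
    ext v
    simp [iteratedFDeriv_one_apply]

theorem Gf_nice_fderiv {k : ℕ} {T C : ℝ} {w : ℝ → E4 → W} (h : NiceE (k + 1) T C w) :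
    NiceE k T C (fun t => fderiv ℝ (w t)) := by
  refine ⟨fun t ht => (h.1 t ht).fderiv_right (by norm_cast), fun j hj => ?_,
    fun j hj t ht x => ?_⟩
  · have h1 := (continuousMultilinearCurryRightEquiv' ℝ j E4 W).continuous.comp_continuousOn
      (h.2.1 (j + 1) (by omega))
    refine h1.congr fun p _ => ?_
    simp only [Function.comp_apply]
    rw [iteratedFDeriv_succ_eq_comp_right]
    simp
  · rw [norm_iteratedFDeriv_fderiv]
    exact h.2.2 (j + 1) (by omega) t ht x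

theorem Gf_pd1 {k : ℕ} {T C : ℝ} {w : ℝ → E4 → W} (hk : 2 ≤ k) (h : NiceE k T C w) (i : Fin 4) :
    GfC1 T (fun t => pd i (w t)) := by
  have h1 : NiceE 1 T C (fun t => fderiv ℝ (w t)) := Gf_nice_fderiv (k1_NiceE_le h hk)
  exact (GfC1.of_nice le_rfl h1).clm (ContinuousLinearMap.apply ℝ W (bv i))

theorem Gf_pd2 {k : ℕ} {T C : ℝ} {w : ℝ → E4 → W} (hk : 3 ≤ k) (h : NiceE k T C w)
    (i j : Fin 4) : GfC1 T (fun t => pd i (pd j (w t))) := by
  have h1 : NiceE 2 T C (fun t => fderiv ℝ (w t)) := Gf_nice_fderiv (k1_NiceE_le h hk)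
  have h2 : NiceE 1 T C (fun t => fderiv ℝ (fderiv ℝ (w t))) := Gf_nice_fderiv h1
  have h3 := ((GfC1.of_nice le_rfl h2).clm (ContinuousLinearMap.apply ℝ (E4 →L[ℝ] W) (bv i))).clm
    (ContinuousLinearMap.apply ℝ W (bv j))
  refine h3.congr fun t ht => ?_
  funext x
  have hd : DifferentiableAt ℝ (fderiv ℝ (w t)) x :=
    ((h1.1 t ht).differentiable (by norm_num)) x
  have h4 : HasFDerivAt (fun y => fderiv ℝ (w t) y (bv j))
      ((ContinuousLinearMap.apply ℝ W (bv j)).comp (fderiv ℝ (fderiv ℝ (w t)) x)) x :=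
    (ContinuousLinearMap.apply ℝ W (bv j)).hasFDerivAt.comp x hd.hasFDerivAt
  unfold pd
  rw [h4.fderiv]
  rfl

/-- Differentiation under the integral sign. -/
theorem GfC1.integral [CompleteSpace W] {T : ℝ} {f : ℝ → E4 → W} (hf : GfC1 T f) {t : ℝ}
    (ht : t ∈ Icc 0 T) (x : E4) :
    HasFDerivAt (fun z => ∫ τ in (0 : ℝ)..t, f τ z) (∫ τ in (0 : ℝ)..t, fderiv ℝ (f τ) x) x := by
  obtain ⟨C, hC⟩ := ((isCompact_Icc (a := (0 : ℝ)) (b := T)).prod
    (isCompact_closedBall x 1)).exists_bound_of_continuousOn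
    (hf.cont1.mono (prod_mono le_rfl (subset_univ _)))
  have hsub : uIoc (0 : ℝ) t ⊆ Icc 0 T := by
    rw [uIoc_of_le ht.1]
    exact fun s hs => ⟨hs.1.le, hs.2.trans ht.2⟩
  have hsub' : uIcc (0 : ℝ) t ⊆ Icc 0 T := by
    rw [uIcc_of_le ht.1]
    exact Icc_subset_Icc_right ht.2
  have c0 : ∀ z : E4, ContinuousOn (fun τ => f τ z) (Icc 0 T) := fun z =>
    hf.cont0.comp (f := fun τ : ℝ => (τ, z)) (by fun_prop) (fun τ hτ => ⟨hτ, mem_univ _⟩)
  have c1 : ContinuousOn (fun τ => fderiv ℝ (f τ) x) (Icc 0 T) :=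
    hf.cont1.comp (f := fun τ : ℝ => (τ, x)) (by fun_prop) (fun τ hτ => ⟨hτ, mem_univ _⟩)
  refine intervalIntegral.hasFDerivAt_integral_of_dominated_of_fderiv_le
    (F' := fun z τ => fderiv ℝ (f τ) z)
    (bound := fun _ => C) (s := Metric.closedBall x 1) (Metric.closedBall_mem_nhds x one_pos)
    ?_ ?_ ?_ ?_ ?_ ?_
  · refine Filter.Eventually.of_forall fun z => ?_
    exact ((c0 z).mono hsub).aestronglyMeasurable measurableSet_uIoc
  · exact ((c0 x).mono hsub').intervalIntegrable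
  · exact (c1.mono hsub).aestronglyMeasurable measurableSet_uIoc
  · exact Filter.Eventually.of_forall fun τ hτ z hz => hC (τ, z) ⟨hsub hτ, hz⟩
  · exact intervalIntegrable_const
  · exact Filter.Eventually.of_forall fun τ hτ z _ => (hf.diff τ (hsub hτ) z).hasFDerivAt

end GfCalc

section GfOp

variable {V : Type} [NormedAddCommGroup V] [InnerProductSpace ℝ V] [FiniteDimensional ℝ V]

/-- Continuity of the operator in time and space. -/
theorem Gf_op_cont (m : Model V) {T C : ℝ} {u : ℝ → E4 → V} (h : NiceE 2 T C u) :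
    ContinuousOn (fun p : ℝ × E4 => m.op p.1 (u p.1) p.2) (Icc 0 T ×ˢ univ) := by
  have e1 : ∀ i k, ContinuousOn (fun p : ℝ × E4 => m.a (p.1, p.2) i k) (Icc 0 T ×ˢ univ) :=
    fun i k => (m.a_smooth i k).continuous.continuousOn
  have e2 : ∀ i, ContinuousOn (fun p : ℝ × E4 => m.b (p.1, p.2) i) (Icc 0 T ×ˢ univ) :=
    fun i => (m.b_smooth i).continuous.continuousOn
  have e3 : ContinuousOn (fun p : ℝ × E4 => m.c (p.1, p.2)) (Icc 0 T ×ˢ univ) :=
    m.c_smooth.continuous.continuousOn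
  have f1 : ∀ i, ContinuousOn (fun p : ℝ × E4 => pd i (u p.1) p.2) (Icc 0 T ×ˢ univ) :=
    fun i => (Gf_pd1 le_rfl h i).cont0
  have f2 : ∀ i j, ContinuousOn (fun p : ℝ × E4 => pd i (pd j (u p.1)) p.2)
      (Icc 0 T ×ˢ univ) := by
    intro i j
    exact (Gf_pd1 le_rfl h j).cont1.clm_apply continuousOn_const
  unfold Model.op
  refine ContinuousOn.add (ContinuousOn.add (ContinuousOn.neg ?_) ?_) ?_
  · exact continuousOn_finsetSum _ fun i _ => continuousOn_finsetSum _ fun k _ =>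
      (e1 i k).smul (f2 i k)
  · exact continuousOn_finsetSum _ fun i _ => (e2 i).clm_apply (f1 i)
  · exact e3.clm_apply (k1_NiceE_cont h)

/-- The operator on `C³` functions. -/
theorem Gf_op_C1 (m : Model V) {k : ℕ} {T C : ℝ} {u : ℝ → E4 → V} (hk : 3 ≤ k)
    (h : NiceE k T C u) : GfC1 T (fun t x => m.op t (u t) x) := by
  have e1 : ∀ i k, GfC1 T (fun t x => m.a (t, x) i k) := fun i k =>
    GfC1.of_smooth T (m.a_smooth i k)
  have e2 : ∀ i, GfC1 T (fun t x => m.b (t, x) i) := fun i => GfC1.of_smooth T (m.b_smooth i)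
  have e3 : GfC1 T (fun t x => m.c (t, x)) := GfC1.of_smooth T m.c_smooth
  unfold Model.op
  refine GfC1.add (GfC1.add (GfC1.neg ?_) ?_) ?_
  · exact GfC1.sum _ fun i _ => GfC1.sum _ fun j _ =>
      (e1 i j).bil (ContinuousLinearMap.lsmul ℝ ℝ) (Gf_pd2 hk h i j)
  · exact GfC1.sum _ fun i _ => (e2 i).bil (ContinuousLinearMap.id ℝ (V →L[ℝ] V))
      (Gf_pd1 (by omega) h i)
  · exact e3.bil (ContinuousLinearMap.id ℝ (V →L[ℝ] V)) (GfC1.of_nice (by omega) h)

end GfOp

theorem claimSolTime_proof : claimSolTime := by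
  intro Y _ _ γ k T C F u hk hT hu
  have hT0 : (0 : ℝ) ∈ Icc 0 T := ⟨le_rfl, hT.le⟩
  refine ⟨fun y => ?_, fun t ht y => ?_, fun i => ?_⟩
  · obtain ⟨i, hs, hn⟩ := γ.exists_chart y
    have h1 := hu.eqn i 0 hT0 (γ.psi i y) (by linarith)
    rw [(γ.psi i).left_inv hs, intervalIntegral.integral_same, sub_zero] at h1
    exact h1
  · have := hu.nice.bound ht y
    rwa [Real.norm_eq_abs] at this
  · set w : ℝ → E4 → ℝ := fun t x => etaC x • u t ((γ.psi i).symm x) with hw
    have hN : NiceE k T C w := hu.nice i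
    have hN2 : NiceE 2 T C w := k1_NiceE_le hN hk
    have hb : ∀ x ∈ Metric.ball (0 : E4) (3 / 2), ‖x‖ < 3 / 2 := fun x hx => by simpa using hx
    have ev : ∀ t, ∀ x ∈ Metric.ball (0 : E4) (3 / 2),
        (fun z => u t ((γ.psi i).symm z)) =ᶠ[𝓝 x] w t := by
      intro t x hx
      filter_upwards [k1_eta_ev (hb x hx)] with z hz
      simp only [hw, hz, one_smul]
    have eq0 : ∀ t, ∀ x ∈ Metric.ball (0 : E4) (3 / 2), u t ((γ.psi i).symm x) = w t x :=
      fun t x hx => (ev t x hx).self_of_nhds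
    have eqp : ∀ l t, ∀ x ∈ Metric.ball (0 : E4) (3 / 2),
        pd l (fun z => u t ((γ.psi i).symm z)) x = pd l (w t) x :=
      fun l t x hx => (k1_pd_congr (ev t x hx) l).self_of_nhds
    have eqop : ∀ t, ∀ x ∈ Metric.ball (0 : E4) (3 / 2),
        (γ.mdl i).op t (fun z => u t ((γ.psi i).symm z)) x = (γ.mdl i).op t (w t) x :=
      fun t x hx => k1_op_congr _ _ (ev t x hx)
    have sub : (Icc 0 T ×ˢ Metric.ball (0 : E4) (3 / 2)) ⊆ Icc 0 T ×ˢ univ :=
      prod_mono le_rfl (subset_univ _)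
    have Acont : ContinuousOn (fun p : ℝ × E4 => (γ.mdl i).op p.1 (w p.1) p.2)
        (Icc 0 T ×ˢ univ) := Gf_op_cont _ hN2
    -- the equation for `w`
    have eqn : ∀ t ∈ Icc 0 T, ∀ x ∈ Metric.ball (0 : E4) (3 / 2),
        w t x = w 0 x - ∫ τ in (0 : ℝ)..t, (γ.mdl i).op τ (w τ) x := by
      intro t ht x hx
      have h1 := hu.eqn i t ht x (hb x hx)
      have h2 := hu.eqn i 0 hT0 x (hb x hx)
      rw [intervalIntegral.integral_same, sub_zero] at h2
      rw [← eq0 t x hx, ← eq0 0 x hx, h1, h2]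
      congr 1
      exact intervalIntegral.integral_congr fun τ _ => eqop τ x hx
    refine ⟨fun t ht => ?_, ?_, fun l => ?_, fun l t ht x hx => ?_, fun t ht x hx => ?_,
      fun hk3 l t ht x hx => ?_⟩
    · exact (hN.1 t ht).contDiffOn.congr fun x hx => eq0 t x hx
    · exact ((k1_NiceE_cont hN).mono sub).congr fun p hp => eq0 p.1 p.2 hp.2
    · exact ((Gf_pd1 le_rfl hN2 l).cont0.mono sub).congr fun p hp => eqp l p.1 p.2 hp.2
    · rw [eqp l t x hx, ← Real.norm_eq_abs]
      exact (norm_pd_le _ _ _).trans (hN.2.2 1 (by omega) t ht x)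
    · have hG : ContinuousOn (fun τ => (γ.mdl i).op τ (w τ) x) (Icc 0 T) :=
        Acont.comp (f := fun τ : ℝ => (τ, x)) (by fun_prop) (fun τ hτ => ⟨hτ, mem_univ _⟩)
      have h1 := (k1_ftc hG ht).const_sub (w 0 x)
      rw [eqop t x hx]
      refine h1.congr (fun s hs => ?_) ?_
      · rw [eq0 s x hx, eqn s hs x hx]
      · rw [eq0 t x hx, eqn t ht x hx]
    · have hA : GfC1 T (fun t x => (γ.mdl i).op t (w t) x) := Gf_op_C1 _ hk3 hN
      have hG : ContinuousOn (fun τ => pd l (fun z => (γ.mdl i).op τ (w τ) z) x) (Icc 0 T) :=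
        (hA.cont1.clm_apply continuousOn_const).comp (f := fun τ : ℝ => (τ, x)) (by fun_prop)
          (fun τ hτ => ⟨hτ, mem_univ _⟩)
      have hev : ∀ᶠ z in 𝓝 x, z ∈ Metric.ball (0 : E4) (3 / 2) := Metric.isOpen_ball.mem_nhds hx
      have key : ∀ s ∈ Icc 0 T, pd l (w s) x =
          pd l (w 0) x - ∫ τ in (0 : ℝ)..s, pd l (fun z => (γ.mdl i).op τ (w τ) z) x := by
        intro s hs
        have h1 : w s =ᶠ[𝓝 x] fun z => w 0 z - ∫ τ in (0 : ℝ)..s, (γ.mdl i).op τ (w τ) z := by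
          filter_upwards [hev] with z hz using eqn s hs z hz
        have h2 : HasFDerivAt (fun z => w 0 z - ∫ τ in (0 : ℝ)..s, (γ.mdl i).op τ (w τ) z)
            (fderiv ℝ (w 0) x - ∫ τ in (0 : ℝ)..s,
              fderiv ℝ (fun z => (γ.mdl i).op τ (w τ) z) x) x :=
          (((GfC1.of_nice (by omega) hN).diff 0 hT0 x).hasFDerivAt).sub (hA.integral hs x)
        have h3 : IntervalIntegrable (fun τ => fderiv ℝ (fun z => (γ.mdl i).op τ (w τ) z) x)
            volume 0 s := by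
          refine ContinuousOn.intervalIntegrable ?_
          rw [uIcc_of_le hs.1]
          exact (hA.cont1.comp (f := fun τ : ℝ => (τ, x)) (by fun_prop)
            (fun τ hτ => ⟨hτ, mem_univ _⟩)).mono (Icc_subset_Icc_right hs.2)
        rw [(k1_pd_congr h1 l).self_of_nhds]
        unfold pd
        rw [h2.fderiv, sub_apply,
          ContinuousLinearMap.intervalIntegral_apply h3]
      have h1 := (k1_ftc hG ht).const_sub (pd l (w 0) x)
      have h4 : pd l (fun w_1 => (γ.mdl i).op t (fun z => u t ((γ.psi i).symm z)) w_1) x =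
          pd l (fun z => (γ.mdl i).op t (w t) z) x := by
        refine (k1_pd_congr ?_ l).self_of_nhds
        filter_upwards [hev] with z hz using eqop t z hz
      rw [h4]
      refine h1.congr (fun s hs => ?_) ?_
      · rw [eqp l s x hx, key s hs]
      · rw [eqp l t x hx, key t ht]

end NRF

end
end

section

/-!
# Item Gg: maximum principle for solutions
-/

open scoped Manifold ContDiff Topology
open MeasureTheory Set

noncomputable section

namespace NRF

lemma Gg_within {f : ℝ → ℝ} {d T t : ℝ} (h : HasDerivWithinAt f d (Icc 0 T) t)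
    (ht : t ∈ Ioc 0 T) : HasDerivWithinAt f d (Iic t) t := by
  have h1 : HasDerivWithinAt f d (Icc 0 t) t := h.mono (Icc_subset_Icc_right ht.2)
  refine h1.mono_of_mem_nhdsWithin ?_
  exact Icc_mem_nhdsLE ht.1

lemma Gg_pd_neg (i : Fin 4) (v : E4 → ℝ) : pd i (fun z => -v z) = fun z => -pd i v z := by
  funext x
  unfold pd
  rw [fderiv_fun_neg]
  rfl

lemma Gg_op_neg (m : Model ℝ) (t : ℝ) (v : E4 → ℝ) (x : E4) :
    m.op t (fun z => -v z) x = -m.op t v x := by
  unfold Model.op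
  simp only [Gg_pd_neg, smul_neg, map_neg, Finset.sum_neg_distrib]
  ring

theorem claimSolMax_proof (h10 : claimMax) (ht : claimSolTime) : claimSolMax := by
  intro Y _ _ γ hc k T C F u hk hT hsol M
  obtain ⟨h0, hb, hreg⟩ := ht Y γ k T C F u hk hT hsol
  constructor
  · intro hF
    refine h10 Y γ hc T hT u C M (fun t htt y => (abs_le.1 (hb t htt y)).2)
      (fun i => (hreg i).2.1) (fun i t htt x hx => ⟨?_, ?_⟩) (fun y => by rw [h0]; exact hF y)
    · have := (hreg i).1 t ⟨htt.1.le, htt.2⟩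
      exact ((this x hx).contDiffAt (Metric.isOpen_ball.mem_nhds hx)).of_le (by exact_mod_cast hk)
    · exact ⟨_, Gg_within ((hreg i).2.2.2.2.1 t ⟨htt.1.le, htt.2⟩ x hx) htt, le_rfl⟩
  · intro hF t htt y
    have hop : ∀ i t (v : E4 → ℝ) (x : E4),
        (γ.mdl i).op t (fun z => -v z) x = -(γ.mdl i).op t v x := fun i t v x => Gg_op_neg _ t v x
    have := h10 Y γ hc T hT (fun t y => -u t y) C (-M)
      (fun t htt y => by linarith [(abs_le.1 (hb t htt y)).1])
      (fun i => (hreg i).2.1.neg) (fun i t htt x hx => ⟨?_, ?_⟩)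
      (fun y => by rw [h0]; exact neg_le_neg (hF y)) t htt y
    · linarith
    · have := (hreg i).1 t ⟨htt.1.le, htt.2⟩
      exact (((this x hx).contDiffAt (Metric.isOpen_ball.mem_nhds hx)).of_le
        (by exact_mod_cast hk)).neg
    · refine ⟨_, (Gg_within ((hreg i).2.2.2.2.1 t ⟨htt.1.le, htt.2⟩ x hx) htt).neg, ?_⟩
      rw [hop]

end NRF

end
end

section

/-!
# Gh: equivariance of solutions
-/

open scoped Manifold ContDiff Topology
open MeasureTheory Set Filter

noncomputable section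

namespace NRF

theorem claimSolEquiv_proof : claimSolEquiv := by
  intro X _ _ _ U h Γ k T C F u a hu
  -- the translated chart
  have key : ∀ i : Γ.γ.I, ∃ i' : Γ.γ.I, Γ.γ.mdl i' = Γ.γ.mdl i ∧
      ∀ x : E4, ‖x‖ ≤ 3 → a⁻¹ • (Γ.γ.psi i).symm x = (Γ.γ.psi i').symm x := by
    intro i
    obtain ⟨⟨b, j⟩, rfl⟩ := Γ.idx.symm.surjective i
    refine ⟨Γ.idx.symm (a⁻¹ * b, j), ?_, fun x hx => ?_⟩
    · unfold Geom.mdl
      rw [Γ.mod_eq (a⁻¹ * b) b j]
    · have h1 : x ∈ (Γ.base j).target := by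
        have h2 := Γ.γ.target (Γ.idx.symm (b, j)) (show x ∈ Metric.closedBall (0 : E4) 3 by
          rwa [mem_closedBall_zero_iff])
        rw [Γ.tgt] at h2
        simpa using h2
      exact (Γ.act a⁻¹ b j x h1).symm
  refine ⟨fun i => ?_, fun i t ht x hx => ?_⟩
  · obtain ⟨i', -, h2⟩ := key i
    have h3 : (fun (t : ℝ) (x : E4) => etaC x • u t (a⁻¹ • (Γ.γ.psi i).symm x)) =
        fun (t : ℝ) (x : E4) => etaC x • u t ((Γ.γ.psi i').symm x) := by
      funext t x
      by_cases hx : ‖x‖ ≤ 3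
      · rw [h2 x hx]
      · have : etaC x = 0 := by
          refine etaBump.zero_of_le_dist ?_
          rw [dist_zero_right]
          have h5 : etaBump.rOut = 2 := rfl
          rw [h5]
          linarith [not_le.1 hx]
        rw [this, zero_smul, zero_smul]
    rw [h3]
    exact hu.nice i'
  · obtain ⟨i', h1, h2⟩ := key i
    have hx3 : ‖x‖ ≤ 3 := by linarith
    have h3 := hu.eqn i' t ht x hx
    simp only [h2 x hx3]
    rw [h3, h1]
    congr 1
    refine intervalIntegral.integral_congr fun τ _ => ?_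
    refine Model.op_congr _ _ ?_
    have h4 : Metric.ball (0 : E4) 3 ∈ 𝓝 x :=
      Metric.isOpen_ball.mem_nhds (by rw [mem_ball_zero_iff]; linarith)
    filter_upwards [h4] with z hz
    rw [h2 z (by rw [mem_ball_zero_iff] at hz; exact hz.le)]

end NRF

end
end

section

/-!
# Module G: the family of metrics
-/

open scoped Manifold ContDiff Topology
open MeasureTheory Set

noncomputable section

namespace NRF

theorem claimTheta_proof : claimTheta := by
  intro X _ _ _ _ _ g hg t0 ht0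
  let c : ℝ := t0 / 4
  let lam : ℝ → ℝ := fun t => Real.smoothTransition (1 + 2 * t / t0)
  let th : ℝ → ℝ := fun t => c + (t0 + t - c) * lam t
  have hlam_s : ContDiff ℝ ∞ lam :=
    Real.smoothTransition.contDiff.comp (by fun_prop)
  have hth_s : ContDiff ℝ ∞ th := by
    have h1 : ContDiff ℝ ∞ (fun t : ℝ => t0 + t - c) := by fun_prop
    exact contDiff_const.add (h1.mul hlam_s)
  have hth_pos : ∀ t, 0 ≤ th t := by
    intro t
    have h0 : 0 ≤ lam t := Real.smoothTransition.nonneg _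
    have h1 : lam t ≤ 1 := Real.smoothTransition.le_one _
    by_cases ht : 1 + 2 * t / t0 ≤ 0
    · have h2 : lam t = 0 := Real.smoothTransition.zero_of_nonpos ht
      simp only [th, c, h2]
      linarith
    · rw [not_le] at ht
      have h3 : -(t0 / 2) < t := by
        have h4 : -1 < 2 * t / t0 := by linarith
        rw [lt_div_iff₀ ht0] at h4
        linarith
      have h5 : 0 ≤ (t0 + t - c) * lam t := mul_nonneg (by simp only [c]; linarith) h0
      simp only [th]
      have h6 : 0 < c := by simp only [c]; linarith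
      linarith
  refine ⟨fun t => g (th t), ?_, ?_⟩
  · intro e i j
    have h := hg.smooth e i j
    have h2 : ContDiffOn ℝ ∞ (fun p : ℝ × E4 => ((th p.1, p.2) : ℝ × E4)) (univ ×ˢ e.1.target) :=
      ((hth_s.comp contDiff_fst).prodMk contDiff_snd).contDiffOn
    exact h.comp h2 fun p hp => ⟨hth_pos p.1, hp.2⟩
  · intro t ht
    have h2 : lam t = 1 := Real.smoothTransition.one_of_one_le (by
      have : 0 ≤ 2 * t / t0 := by positivity
      linarith)
    have h3 : th t = t0 + t := by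
      simp only [th, h2]
      ring
    simp only [h3]

end NRF

end
end

section

/-!
# Item Gk: from the charts of the geometry to lifted charts
-/

open scoped Manifold ContDiff Topology
open MeasureTheory Set

noncomputable section

namespace NRF

/-! ### Linear algebra -/

theorem Gk_CS {G : Matrix (Fin 4) (Fin 4) ℝ} (hG : G.PosDef) (p w : Fin 4 → ℝ) :
    (p ⬝ᵥ w) ^ 2 ≤ (p ⬝ᵥ G⁻¹.mulVec p) * (w ⬝ᵥ G.mulVec w) := by
  have hu : IsUnit G.det := hG.det_pos.ne'.isUnit
  have hT : G.transpose = G := by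
    have := hG.isHermitian
    rwa [Matrix.IsHermitian, Matrix.conjTranspose_eq_transpose_of_trivial] at this
  set a := G⁻¹.mulVec p with ha
  have hGa : G.mulVec a = p := by
    rw [ha, Matrix.mulVec_mulVec, Matrix.mul_nonsing_inv _ hu, Matrix.one_mulVec]
  have hsym : a ⬝ᵥ G.mulVec w = p ⬝ᵥ w := by
    rw [Matrix.dotProduct_mulVec, ← Matrix.mulVec_transpose, hT, hGa]
  have hnn : ∀ v : Fin 4 → ℝ, 0 ≤ v ⬝ᵥ G.mulVec v := by
    intro v
    by_cases hv : v = 0
    · subst hv; simp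
    · have := hG.dotProduct_mulVec_pos hv
      simpa using this.le
  have key : ∀ t : ℝ, 0 ≤ (w ⬝ᵥ G.mulVec w) * (t * t) + (2 * (p ⬝ᵥ w)) * t + p ⬝ᵥ a := by
    intro t
    have h := hnn (a + t • w)
    have e : (a + t • w) ⬝ᵥ G.mulVec (a + t • w) =
        (w ⬝ᵥ G.mulVec w) * (t * t) + (2 * (p ⬝ᵥ w)) * t + p ⬝ᵥ a := by
      rw [Matrix.mulVec_add, Matrix.mulVec_smul, hGa]
      simp only [add_dotProduct, dotProduct_add, smul_dotProduct, dotProduct_smul, smul_eq_mul]
      rw [hsym, dotProduct_comm a p, dotProduct_comm w p]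
      ring
    rwa [e] at h
  have hd := discrim_le_zero key
  unfold discrim at hd
  nlinarith

theorem Gk_quad (G : Matrix (Fin 4) (Fin 4) ℝ) (v : Fin 4 → ℝ) :
    v ⬝ᵥ G.mulVec v = ∑ i, ∑ j, G i j * v i * v j := by
  unfold Matrix.mulVec dotProduct
  refine Finset.sum_congr rfl fun i _ => ?_
  rw [Finset.mul_sum]
  refine Finset.sum_congr rfl fun j _ => ?_
  ring

theorem Gk_gradSqC (G : E4 → Matrix (Fin 4) (Fin 4) ℝ) (u : E4 → ℝ) (y : E4) :
    gradSqC G u y = (fun i => pd i u y) ⬝ᵥ (G y)⁻¹.mulVec (fun i => pd i u y) := by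
  rw [Gk_quad]
  unfold gradSqC
  refine Finset.sum_congr rfl fun i _ => Finset.sum_congr rfl fun j _ => ?_
  ring

theorem Gk_swap (T : Fin 4 → Fin 4 → Fin 4 → Fin 4 → ℝ) :
    ∑ i, ∑ j, ∑ k, ∑ l, T i j k l = ∑ k, ∑ l, ∑ i, ∑ j, T i j k l := by
  have e1 : ∀ i, ∑ j, ∑ k, ∑ l, T i j k l = ∑ k, ∑ l, ∑ j, T i j k l := by
    intro i
    rw [Finset.sum_comm]
    exact Finset.sum_congr rfl fun k _ => Finset.sum_comm
  rw [Finset.sum_congr rfl fun i _ => e1 i, Finset.sum_comm]
  exact Finset.sum_congr rfl fun k _ => Finset.sum_comm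

/-- Expansion of a vector. -/
theorem Gk_expand (w : E4) : w = ∑ k, w k • bv k := by
  ext j
  simp [bv, Pi.single_apply]

theorem Gk_expandL {F : Type} [NormedAddCommGroup F] [NormedSpace ℝ F] (L : E4 →L[ℝ] F) (w : E4) :
    L w = ∑ k, w k • L (bv k) := by
  conv_lhs => rw [Gk_expand w]
  simp

/-! ### Charts -/

section

variable {X : Type} [TopologicalSpace X] [ChartedSpace E4 X] {U : UCover X}

theorem Gk_p (c : LCh U) {z : E4} (hz : z ∈ c.psi.target) :
    U.p (c.psi.symm z) = c.e.1.symm z := by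
  have h1 := c.psi.map_target hz
  have h2 := c.eq _ h1
  rw [c.psi.right_inv hz] at h2
  have h3 := c.e.1.left_inv (c.mem _ h1)
  rw [← h2] at h3
  exact h3.symm

theorem Gk_target (c : LCh U) {z : E4} (hz : z ∈ c.psi.target) : z ∈ c.e.1.target := by
  have h1 := c.psi.map_target hz
  have h2 := c.eq _ h1
  rw [c.psi.right_inv hz] at h2
  rw [h2]
  exact c.e.1.map_source (c.mem _ h1)

variable {h : ℝ → Metric X} (Γ : GeomCov U h)

/-- The coordinate change from a lifted chart to a chart of the geometry. -/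
theorem Gk_change (c : LCh U) {z : E4} (hz : z ∈ c.psi.target) (i : Γ.γ.I)
    (hi : c.psi.symm z ∈ (Γ.γ.psi i).source) :
    z ∈ (c.e.1.symm.trans (Γ.base (Γ.idx i).2)).source ∧
    (c.e.1.symm.trans (Γ.base (Γ.idx i).2)) z = Γ.γ.psi i (c.psi.symm z) ∧
    ∀ᶠ w in 𝓝 z, c.psi.symm w =
      (Γ.γ.psi i).symm ((c.e.1.symm.trans (Γ.base (Γ.idx i).2)) w) := by
  have hB := Γ.lift i _ hi
  rw [Gk_p c hz] at hB
  refine ⟨?_, ?_, ?_⟩
  · rw [OpenPartialHomeomorph.trans_source]
    exact ⟨Gk_target c hz, hB.1⟩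
  · exact hB.2.symm
  · have t0 : Filter.Tendsto c.psi.symm (𝓝 z) (𝓝 (c.psi.symm z)) := c.psi.continuousAt_symm hz
    filter_upwards [t0.eventually_mem ((Γ.γ.psi i).open_source.mem_nhds hi),
      c.psi.open_target.mem_nhds hz] with w w1 w2
    have h1 := (Γ.lift i _ w1).2
    rw [Gk_p c w2] at h1
    show c.psi.symm w = (Γ.γ.psi i).symm (Γ.base (Γ.idx i).2 (c.e.1.symm w))
    rw [← h1, (Γ.γ.psi i).left_inv w1]

variable [IsManifold (𝓡 4) ∞ X]

theorem Gk_smooth (e : Ch X) (i : Γ.γ.I) :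
    ContDiffOn ℝ ∞ (e.1.symm.trans (Γ.base (Γ.idx i).2))
      (e.1.symm.trans (Γ.base (Γ.idx i).2)).source :=
  N0_smooth (IsManifold.subset_maximalAtlas e.2) (Γ.base_mem _)

end

/-- Part 3: boundedness of the inverse matrices. -/
theorem Gk_part3 {X : Type} [TopologicalSpace X] [ChartedSpace E4 X] [IsManifold (𝓡 4) ∞ X]
    {U : UCover X} {h : ℝ → Metric X} (Γ : GeomCov U h) (g : Metric X) :
    ∃ M : ℝ, 0 ≤ M ∧ ∀ i (v : E4 → ℝ), ∀ x ∈ Metric.ball (0 : E4) (3 / 2),
      gradSqC (g.mcoef (Γ.base (Γ.idx i).2)) v x ≤ M ^ 2 * ‖fderiv ℝ v x‖ ^ 2 := by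
  have hsub : ∀ j, Metric.closedBall (0 : E4) (3 / 2) ⊆ (Γ.base j).target := by
    intro j
    have h1 := Γ.γ.target (Γ.idx.symm (1, j))
    rw [Γ.tgt, Equiv.apply_symm_apply] at h1
    exact (Metric.closedBall_subset_closedBall (by norm_num)).trans h1
  have hbd : ∀ (j : Fin (Γ.n + 1)) (k l : Fin 4), ∃ C : ℝ,
      ∀ x ∈ Metric.closedBall (0 : E4) (3 / 2), |(g.mcoef (Γ.base j) x)⁻¹ k l| ≤ C := by
    intro j k l
    obtain ⟨m1, m2, -, -⟩ := claimMcoef_proof X g (Γ.base j) (Γ.base_mem j)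
    have hc : ContinuousOn (fun x => (g.mcoef (Γ.base j) x)⁻¹ k l)
        (Metric.closedBall (0 : E4) (3 / 2)) :=
      ((L1_smooth_inv m1 (fun p hp => (m2 p hp).det_pos.ne') k l).continuousOn).mono (hsub j)
    obtain ⟨C, hC⟩ := (isCompact_closedBall (0 : E4) (3 / 2)).exists_bound_of_continuousOn hc
    exact ⟨C, fun x hx => hC x hx⟩
  choose C hC using hbd
  set S : ℝ := ∑ j, ∑ k, ∑ l, |C j k l| with hS
  have hS0 : 0 ≤ S := Finset.sum_nonneg fun j _ => Finset.sum_nonneg fun k _ =>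
    Finset.sum_nonneg fun l _ => abs_nonneg _
  refine ⟨1 + S, by linarith, fun i v x hx => ?_⟩
  set j := (Γ.idx i).2 with hj
  have hx' : x ∈ Metric.closedBall (0 : E4) (3 / 2) := Metric.ball_subset_closedBall hx
  have hpd : ∀ k, |pd k v x| ≤ ‖fderiv ℝ v x‖ := by
    intro k
    have h1 := (fderiv ℝ v x).le_opNorm (bv k)
    have h2 : ‖bv k‖ = 1 := by simp [bv]
    rw [h2, mul_one] at h1
    exact h1
  have hN : 0 ≤ ‖fderiv ℝ v x‖ := norm_nonneg _
  calc gradSqC (g.mcoef (Γ.base j)) v x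
      ≤ ∑ k, ∑ l, |C j k l| * ‖fderiv ℝ v x‖ ^ 2 := by
        unfold gradSqC
        refine Finset.sum_le_sum fun k _ => Finset.sum_le_sum fun l _ => ?_
        refine (le_abs_self _).trans ?_
        rw [abs_mul, abs_mul, pow_two]
        refine mul_le_mul ((hC j k l x hx').trans (le_abs_self _))
          (mul_le_mul (hpd k) (hpd l) (abs_nonneg _) hN) (by positivity) (abs_nonneg _)
    _ = (∑ k, ∑ l, |C j k l|) * ‖fderiv ℝ v x‖ ^ 2 := by
        simp only [Finset.sum_mul]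
    _ ≤ S * ‖fderiv ℝ v x‖ ^ 2 := by
        refine mul_le_mul_of_nonneg_right ?_ (by positivity)
        rw [hS]
        exact Finset.single_le_sum (f := fun j => ∑ k, ∑ l, |C j k l|)
          (fun j _ => Finset.sum_nonneg fun k _ => Finset.sum_nonneg fun l _ => abs_nonneg _)
          (Finset.mem_univ j)
    _ ≤ (1 + S) ^ 2 * ‖fderiv ℝ v x‖ ^ 2 := by
        refine mul_le_mul_of_nonneg_right ?_ (by positivity)
        nlinarith

theorem claimChartEst_proof : claimChartEst := by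
  intro X _ _ _ _ _ _ U h Γ g
  refine ⟨?_, ?_, Gk_part3 Γ g⟩
  · intro v hv c z hz
    obtain ⟨i, hi, hi1⟩ := Γ.γ.exists_chart (c.psi.symm z)
    obtain ⟨s1, s2, s3⟩ := Gk_change Γ c hz i hi
    have h1 : ContDiffAt ℝ ∞ (c.e.1.symm.trans (Γ.base (Γ.idx i).2)) z :=
      (Gk_smooth Γ c.e i).contDiffAt
        ((c.e.1.symm.trans (Γ.base (Γ.idx i).2)).open_source.mem_nhds s1)
    have h2 : ContDiffAt ℝ 2 (fun z => v ((Γ.γ.psi i).symm z))
        ((c.e.1.symm.trans (Γ.base (Γ.idx i).2)) z) := by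
      rw [s2]
      exact (hv i).contDiffAt (Metric.isOpen_ball.mem_nhds (by
        rw [Metric.mem_ball, dist_zero_right]
        linarith))
    have h3 : ContDiffAt ℝ 2 (v ∘ c.psi.symm) z := by
      refine (h2.comp z (contDiffAt_infty.1 h1 2)).congr_of_eventuallyEq ?_
      filter_upwards [s3] with w hw
      show v (c.psi.symm w) = v ((Γ.γ.psi i).symm _)
      rw [hw]
    exact h3.contDiffWithinAt
  · intro v M hM c z hz hyp w
    obtain ⟨i, hi, hi1⟩ := Γ.γ.exists_chart (c.psi.symm z)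
    obtain ⟨s1, s2, s3⟩ := Gk_change Γ c hz i hi
    set B := Γ.base (Γ.idx i).2 with hB
    set τ := c.e.1.symm.trans B with hτ
    have h1 : ContDiffAt ℝ ∞ τ z := (Gk_smooth Γ c.e i).contDiffAt (τ.open_source.mem_nhds s1)
    have hball : τ z ∈ Metric.ball (0 : E4) (3 / 2) := by
      rw [s2, Metric.mem_ball, dist_zero_right]
      linarith
    have hxy : (Γ.γ.psi i).symm (τ z) = c.psi.symm z := by
      rw [s2, (Γ.γ.psi i).left_inv hi]
    obtain ⟨hd, hg⟩ := hyp i (τ z) hball hxy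
    set u : E4 → ℝ := fun w => v ((Γ.γ.psi i).symm w) with hu
    -- derivative of the composition
    have e1 : fderiv ℝ (fun r => v (c.psi.symm r)) z = (fderiv ℝ u (τ z)).comp (fderiv ℝ τ z) := by
      have e2 : (fun r => v (c.psi.symm r)) =ᶠ[𝓝 z] fun r => u (τ r) := by
        filter_upwards [s3] with w hw
        rw [hu]
        simp only
        rw [hw]
      rw [e2.fderiv_eq]
      exact fderiv_comp z hd (h1.differentiableAt (by simp))
    -- the metric
    obtain ⟨-, m2, -, -⟩ := claimMcoef_proof X g B (Γ.base_mem _)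
    obtain ⟨-, -, n3, n4⟩ := claimMcoef_proof X g c.e.1 (IsManifold.subset_maximalAtlas c.e.2)
    have hzt := Gk_target c hz
    have hτt : τ z ∈ B.target := by
      have := s1
      rw [hτ, OpenPartialHomeomorph.trans_source] at this
      exact B.map_source this.2
    have hG := n4 B (Γ.base_mem _) z s1
    rw [n3 c.e z hzt] at hG
    have hpos := m2 _ hτt
    set G' := g.mcoef B (τ z) with hG'
    set w' : Fin 4 → ℝ := fun k => (fderiv ℝ τ z w) k with hw'
    have hw'e : ∀ k, w' k = ∑ i, w i * (pd i τ z) k := by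
      intro k
      show (fderiv ℝ τ z w) k = _
      rw [Gk_expandL (fderiv ℝ τ z) w]
      simp [pd]
    have hquad : ∑ i, ∑ j, g.coef c.e z i j * w i * w j = w' ⬝ᵥ G'.mulVec w' := by
      rw [Gk_quad]
      have a1 : ∀ i j : Fin 4, g.coef c.e z i j * w i * w j =
          ∑ k, ∑ l, (pd i τ z) k * (pd j τ z) l * G' k l * w i * w j := by
        intro i j
        rw [hG i j, Finset.sum_mul, Finset.sum_mul]
        refine Finset.sum_congr rfl fun k _ => ?_
        rw [Finset.sum_mul, Finset.sum_mul]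
      have a2 : ∀ k l : Fin 4, G' k l * w' k * w' l =
          ∑ i, ∑ j, (pd i τ z) k * (pd j τ z) l * G' k l * w i * w j := by
        intro k l
        rw [hw'e k, hw'e l, mul_assoc, Finset.sum_mul_sum, Finset.mul_sum]
        refine Finset.sum_congr rfl fun i _ => ?_
        rw [Finset.mul_sum]
        refine Finset.sum_congr rfl fun j _ => ?_
        ring
      rw [Finset.sum_congr rfl fun i _ => Finset.sum_congr rfl fun j _ => a1 i j,
        Finset.sum_congr rfl fun k _ => Finset.sum_congr rfl fun l _ => a2 k l]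
      exact Gk_swap fun i j k l => (pd i τ z) k * (pd j τ z) l * G' k l * w i * w j
    have hval : fderiv ℝ (fun r => v (c.psi.symm r)) z w = (fun k => pd k u (τ z)) ⬝ᵥ w' := by
      rw [e1, ContinuousLinearMap.comp_apply, Gk_expandL (fderiv ℝ u (τ z))]
      unfold dotProduct
      refine Finset.sum_congr rfl fun k _ => ?_
      rw [smul_eq_mul, mul_comm]
      rfl
    have hCS := Gk_CS hpos (fun k => pd k u (τ z)) w'
    rw [← Gk_gradSqC, ← hquad, ← hval] at hCS
    have hQ : 0 ≤ ∑ i, ∑ j, g.coef c.e z i j * w i * w j := by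
      rw [hquad]
      by_cases h0 : w' = 0
      · rw [h0]; simp
      · have := hpos.dotProduct_mulVec_pos h0
        simpa using this.le
    have hfin : (fderiv ℝ (fun r => v (c.psi.symm r)) z w) ^ 2 ≤
        (M * Real.sqrt (∑ i, ∑ j, g.coef c.e z i j * w i * w j)) ^ 2 := by
      rw [mul_pow, Real.sq_sqrt hQ]
      exact hCS.trans (mul_le_mul_of_nonneg_right hg hQ)
    exact abs_le_of_sq_le_sq hfin (by positivity)

end NRF

end
end

section

/-!
# Module G, G8: the heat flow of a partition of unity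
-/

set_option autoImplicit false

open scoped Manifold ContDiff Topology
open MeasureTheory Set

noncomputable section

namespace NRF

/-! ### Elementary lemmas -/

theorem Gl_sign {ι : Type} (A : Finset ι) (f : ι → ℝ) :
    ∃ s : ι → ℝ, (∀ a, |s a| ≤ 1) ∧ ∑ a ∈ A, |f a| = ∑ a ∈ A, s a * f a := by
  refine ⟨fun a => if 0 ≤ f a then 1 else -1, fun a => ?_, Finset.sum_congr rfl fun a _ => ?_⟩
  · by_cases h : 0 ≤ f a <;> simp [h]
  · by_cases h : 0 ≤ f a
    · simp [h, abs_of_nonneg h]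
    · show |f a| = (if 0 ≤ f a then 1 else -1) * f a
      rw [if_neg h, abs_of_neg (not_le.1 h)]
      ring

theorem Gl_fderiv_sum {ι : Type} (A : Finset ι) (s : ι → ℝ) (f : ι → E4 → ℝ) (z w : E4)
    (hf : ∀ a ∈ A, DifferentiableAt ℝ (f a) z) :
    fderiv ℝ (fun r => ∑ a ∈ A, s a * f a r) z w = ∑ a ∈ A, s a * fderiv ℝ (f a) z w := by
  have h1 : HasFDerivAt (fun r => ∑ a ∈ A, s a * f a r) (∑ a ∈ A, s a • fderiv ℝ (f a) z) z :=
    HasFDerivAt.fun_sum fun a ha => (hf a ha).hasFDerivAt.const_mul (s a)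
  rw [h1.fderiv, _root_.sum_apply]
  rfl

theorem Gl_niceE_mono {k : ℕ} {T C C' : ℝ} {u : ℝ → E4 → ℝ} (h : NiceE k T C u) (hC : C ≤ C') :
    NiceE k T C' u :=
  ⟨h.1, h.2.1, fun j hj t ht x => (h.2.2 j hj t ht x).trans hC⟩

theorem Gl_cover {Y : Type} [TopologicalSpace Y] (γ : Geom Y ℝ) (y : Y) :
    ∃ (i : γ.I) (x : E4), x ∈ Metric.ball (0 : E4) (3 / 2) ∧ (γ.psi i).symm x = y := by
  have h1 := γ.part y
  have h2 : ∃ i, (γ.psi i).source.indicator
      (fun y => (γ.model (γ.mod i)).chi (γ.psi i y)) y ≠ 0 := by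
    by_contra hcon
    push Not at hcon
    simp only [hcon, finsum_zero] at h1
    exact zero_ne_one h1
  obtain ⟨i, hi⟩ := h2
  have hsrc : y ∈ (γ.psi i).source := by
    by_contra hcon
    exact hi (indicator_of_notMem hcon _)
  rw [indicator_of_mem hsrc] at hi
  refine ⟨i, γ.psi i y, ?_, (γ.psi i).left_inv hsrc⟩
  rw [Metric.mem_ball, dist_zero_right]
  by_contra hcon
  exact hi ((γ.model (γ.mod i)).chi_supp _ (by linarith [not_lt.1 hcon]))

theorem Gl_aK_pos {κ T : ℝ} (hκ : 0 < κ) (hT : 0 < T) : 0 < aK κ T := by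
  unfold aK
  have h1 : Real.exp (-κ * T / 2) < 1 := by
    rw [Real.exp_lt_one_iff]
    have : 0 < κ * T := mul_pos hκ hT
    linarith
  have h2 : 0 < 4 / κ := by positivity
  exact mul_pos h2 (by linarith)

theorem Gl_rpow {a : ℝ} (ha : 0 < a) : (a ^ (-(1 / 2) : ℝ)) ^ 2 = a⁻¹ := by
  rw [← Real.rpow_natCast, ← Real.rpow_mul ha.le]
  norm_num
  exact Real.rpow_neg_one a

/-! ### Finite combinations of translates -/

section

variable {X : Type} [TopologicalSpace X] [ChartedSpace E4 X] [IsManifold (𝓡 4) ∞ X]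
  {U : UCover X} {h : ℝ → Metric X}

theorem Gl_sum (halg : claimSolAlg) (heq : claimSolEquiv) (Γ : GeomCov U h) {T C : ℝ}
    (hT : 0 < T) {F : U.Y → ℝ} {u : ℝ → U.Y → ℝ} (hu : Sol Γ.γ 4 T C F u) (A : Finset U.G)
    (s : U.G → ℝ) :
    ∃ C', Sol Γ.γ 4 T C' (fun y => ∑ a ∈ A, s a * F (a⁻¹ • y))
      (fun t y => ∑ a ∈ A, s a * u t (a⁻¹ • y)) := by
  classical
  obtain ⟨hadd, hsmul, -, -⟩ := halg U.Y Γ.γ Γ.c0 4 T (by norm_num) hT
  induction A using Finset.induction_on with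
  | empty =>
    refine ⟨|0| * C, ?_⟩
    have h1 := hsmul C F u 0 hu
    simpa using h1
  | insert b A hb ih =>
    obtain ⟨C1, h1⟩ := ih
    have h2 := hsmul _ _ _ (s b) (heq X U h Γ 4 T C F u b hu)
    refine ⟨|s b| * C + C1, ?_⟩
    have h3 := hadd _ _ _ _ _ _ h2 h1
    simpa only [Finset.sum_insert hb] using h3

/-- The values of a solution whose initial value is a finite combination of translates. -/
theorem Gl_val (halg : claimSolAlg) (heq : claimSolEquiv) (Γ : GeomCov U h) {T C C' : ℝ}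
    (hT : 0 < T) {F : U.Y → ℝ} {u v : ℝ → U.Y → ℝ} (hu : Sol Γ.γ 4 T C F u) (A : Finset U.G)
    (s : U.G → ℝ) (hv : Sol Γ.γ 4 T C' (fun y => ∑ a ∈ A, s a * F (a⁻¹ • y)) v) (y : U.Y) :
    v T y = ∑ a ∈ A, s a * u T (a⁻¹ • y) := by
  obtain ⟨C1, h1⟩ := Gl_sum halg heq Γ hT hu A s
  obtain ⟨-, -, huniq, -⟩ := halg U.Y Γ.γ Γ.c0 4 T (by norm_num) hT
  exact huniq _ _ _ _ _ hv h1 T ⟨hT.le, le_rfl⟩ y

/-- The same for the complement. -/
theorem Gl_val' (halg : claimSolAlg) (heq : claimSolEquiv) (Γ : GeomCov U h) {T C C' : ℝ}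
    (hT : 0 < T) {F : U.Y → ℝ} {u v : ℝ → U.Y → ℝ} (hu : Sol Γ.γ 4 T C F u) (A : Finset U.G)
    (hv : Sol Γ.γ 4 T C' (fun y => 1 - ∑ a ∈ A, F (a⁻¹ • y)) v) (y : U.Y) :
    v T y = 1 - ∑ a ∈ A, u T (a⁻¹ • y) := by
  obtain ⟨C1, h1⟩ := Gl_sum halg heq Γ hT hu A (fun _ => -1)
  obtain ⟨hadd, -, huniq, C2, hone⟩ := halg U.Y Γ.γ Γ.c0 4 T (by norm_num) hT
  have h2 := hadd _ _ _ _ _ _ hone h1
  have h3 : (fun y => (1 : ℝ) + ∑ a ∈ A, (-1 : ℝ) * F (a⁻¹ • y)) =
      fun y => 1 - ∑ a ∈ A, F (a⁻¹ • y) := by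
    funext y
    simp [sub_eq_add_neg]
  rw [h3] at h2
  have h4 := huniq _ _ _ _ _ hv h2 T ⟨hT.le, le_rfl⟩ y
  rw [h4]
  simp [sub_eq_add_neg]

end

theorem claimFam_proof (hgeo : claimGeomCov) (hp0 : claimPart0) (hex : claimSolEx)
    (halg : claimSolAlg) (htime : claimSolTime) (hmax : claimSolMax) (heq : claimSolEquiv)
    (hgrad : claimGradEst) (hth : claimTheta) (hchart : claimChartEst) : claimFam := by
  classical
  intro X _ _ _ _ _ _ _ _ U g hflow t0 κ T ht0 hκ hT hmean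
  obtain ⟨h, hsf, hh⟩ := hth X g hflow t0 ht0
  obtain ⟨Γ⟩ := hgeo X U h hsf
  obtain ⟨phi0, K0, hpart, hfin, hnice0⟩ := hp0 X U h Γ (g (t0 + T))
  obtain ⟨C0, hC0⟩ := hnice0 6 T
  set C := max C0 0 with hC
  have hnice : ∀ σ : U.G → ℝ, (∀ a, |σ a| ≤ 1) →
      Γ.γ.Nice (4 + 2) T C (fun _ y => ∑ᶠ a : U.G, σ a * phi0 (a⁻¹ • y)) := fun σ hσ i =>
    Gl_niceE_mono (hC0 σ hσ i) (le_max_left _ _)
  obtain ⟨C', hC', hexist, htail0⟩ := hex U.Y Γ.γ Γ.c0 4 T C (by norm_num) hT (le_max_right _ _)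
  have hTm : T ∈ Icc 0 T := ⟨hT.le, le_rfl⟩
  -- finite supports
  have hfin1 : ∀ y, {a : U.G | phi0 (a⁻¹ • y) ≠ 0}.Finite := fun y =>
    (hfin {y} isCompact_singleton).subset fun a ha => ⟨y, rfl, ha⟩
  have hsum1 : ∀ (y : U.Y) (σ : U.G → ℝ), ∑ᶠ a : U.G, σ a * phi0 (a⁻¹ • y) =
      ∑ a ∈ (hfin1 y).toFinset, σ a * phi0 (a⁻¹ • y) := by
    intro y σ
    refine finsum_eq_sum_of_support_subset _ ?_
    intro a ha
    rw [Finset.mem_coe, Set.Finite.mem_toFinset]
    exact right_ne_zero_of_mul ha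
  have hsum2 : ∀ y : U.Y, ∑ a ∈ (hfin1 y).toFinset, phi0 (a⁻¹ • y) = 1 := by
    intro y
    rw [← hpart.sum_one y]
    refine (finsum_eq_sum_of_support_subset _ ?_).symm
    intro a ha
    rw [Finset.mem_coe, Set.Finite.mem_toFinset]
    exact ha
  have hbound : ∀ (σ : U.G → ℝ), (∀ a, |σ a| ≤ 1) → ∀ y : U.Y,
      |∑ᶠ a : U.G, σ a * phi0 (a⁻¹ • y)| ≤ 1 := by
    intro σ hσ y
    rw [hsum1, ← hsum2 y]
    refine (Finset.abs_sum_le_sum_abs _ _).trans (Finset.sum_le_sum fun a _ => ?_)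
    rw [abs_mul, abs_of_nonneg (hpart.nonneg (a⁻¹ • y))]
    exact mul_le_of_le_one_left (hpart.nonneg _) (hσ a)
  have hfinite : ∀ (A : Finset U.G) (s : U.G → ℝ),
      (fun y : U.Y => ∑ᶠ a : U.G, (if a ∈ A then s a else 0) * phi0 (a⁻¹ • y)) =
      fun y => ∑ a ∈ A, s a * phi0 (a⁻¹ • y) := by
    intro A s
    funext y
    rw [finsum_eq_sum_of_support_subset (s := A)]
    · exact Finset.sum_congr rfl fun a ha => by rw [if_pos ha]
    · intro a ha
      by_contra hcon
      rw [Finset.mem_coe] at hcon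
      refine ha ?_
      show (if a ∈ A then s a else 0) * phi0 (a⁻¹ • y) = 0
      rw [if_neg hcon, zero_mul]
  have hcofin : ∀ (A : Finset U.G),
      (fun y : U.Y => ∑ᶠ a : U.G, (if a ∈ A then 0 else 1) * phi0 (a⁻¹ • y)) =
      fun y => 1 - ∑ a ∈ A, phi0 (a⁻¹ • y) := by
    intro A
    funext y
    have h1 : ∑ᶠ a : U.G, (if a ∈ A then (1 : ℝ) else 0) * phi0 (a⁻¹ • y) =
        ∑ a ∈ A, phi0 (a⁻¹ • y) := by
      have := congrFun (hfinite A fun _ => 1) y
      simpa only [one_mul] using this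
    have h2 : ∑ᶠ a : U.G, (if a ∈ A then (1 : ℝ) else 0) * phi0 (a⁻¹ • y) +
        ∑ᶠ a : U.G, (if a ∈ A then (0 : ℝ) else 1) * phi0 (a⁻¹ • y) = 1 := by
      rw [hsum1 y (fun a => if a ∈ A then (1 : ℝ) else 0),
        hsum1 y (fun a => if a ∈ A then (0 : ℝ) else 1), ← Finset.sum_add_distrib]
      refine Eq.trans (Finset.sum_congr rfl fun a _ => ?_) (hsum2 y)
      by_cases ha : a ∈ A <;> simp [ha]
    linarith
  -- the basic solution
  have hNice0 : Γ.γ.Nice (4 + 2) T C (fun _ => phi0) := by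
    have h1 := hnice (fun a => if a ∈ ({1} : Finset U.G) then 1 else 0) (fun a => by
      by_cases ha : a ∈ ({1} : Finset U.G) <;> simp [ha])
    have h2 := hfinite {1} (fun _ => 1)
    simp only [Finset.sum_singleton, inv_one, one_smul, one_mul] at h2
    have h3 : (fun (_ : ℝ) (y : U.Y) => ∑ᶠ a : U.G,
        (if a ∈ ({1} : Finset U.G) then (1 : ℝ) else 0) * phi0 (a⁻¹ • y)) =
        fun _ => phi0 := by
      funext t
      exact h2
    rwa [h3] at h1
  obtain ⟨u0, hu0⟩ := hexist phi0 hNice0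
  set φ := u0 T with hφ
  -- solutions for combinations
  have hA1 : ∀ (A : Finset U.G) (s : U.G → ℝ), (∀ a, |s a| ≤ 1) →
      Γ.γ.Nice (4 + 2) T C (fun _ y => ∑ a ∈ A, s a * phi0 (a⁻¹ • y)) ∧
      (∀ y : U.Y, |∑ a ∈ A, s a * phi0 (a⁻¹ • y)| ≤ 1) ∧
      ∃ v, Sol Γ.γ 4 T C' (fun y => ∑ a ∈ A, s a * phi0 (a⁻¹ • y)) v ∧
        ∀ y, v T y = ∑ a ∈ A, s a * φ (a⁻¹ • y) := by
    intro A s hs
    have hσ : ∀ a, |if a ∈ A then s a else 0| ≤ 1 := by
      intro a
      by_cases ha : a ∈ A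
      · rw [if_pos ha]
        exact hs a
      · rw [if_neg ha]
        simp
    have h1 := hnice (fun a => if a ∈ A then s a else 0) hσ
    have h2 := hbound (fun a => if a ∈ A then s a else 0) hσ
    have h3 : (fun (_ : ℝ) (y : U.Y) => ∑ᶠ a : U.G, (if a ∈ A then s a else 0) *
        phi0 (a⁻¹ • y)) = fun _ y => ∑ a ∈ A, s a * phi0 (a⁻¹ • y) := by
      funext t
      exact hfinite A s
    have h4 : ∀ y, ∑ᶠ a : U.G, (if a ∈ A then s a else 0) * phi0 (a⁻¹ • y) =
        ∑ a ∈ A, s a * phi0 (a⁻¹ • y) := fun y => congrFun (hfinite A s) y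
    simp only [h4] at h2
    rw [h3] at h1
    refine ⟨h1, h2, ?_⟩
    obtain ⟨v, hv⟩ := hexist _ h1
    exact ⟨v, hv, Gl_val halg heq Γ hT hu0 A s hv⟩
  have hA2 : ∀ (A : Finset U.G),
      Γ.γ.Nice (4 + 2) T C (fun _ y => 1 - ∑ a ∈ A, phi0 (a⁻¹ • y)) ∧
      ∃ v, Sol Γ.γ 4 T C' (fun y => 1 - ∑ a ∈ A, phi0 (a⁻¹ • y)) v ∧
        ∀ y, v T y = 1 - ∑ a ∈ A, φ (a⁻¹ • y) := by
    intro A
    have hσ : ∀ a, |if a ∈ A then (0 : ℝ) else 1| ≤ 1 := by
      intro a
      by_cases ha : a ∈ A <;> simp [ha]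
    have h1 := hnice (fun a => if a ∈ A then (0 : ℝ) else 1) hσ
    have h3 : (fun (_ : ℝ) (y : U.Y) => ∑ᶠ a : U.G, (if a ∈ A then (0 : ℝ) else 1) *
        phi0 (a⁻¹ • y)) = fun _ y => 1 - ∑ a ∈ A, phi0 (a⁻¹ • y) := by
      funext t
      exact hcofin A
    rw [h3] at h1
    refine ⟨h1, ?_⟩
    obtain ⟨v, hv⟩ := hexist _ h1
    exact ⟨v, hv, Gl_val' halg heq Γ hT hu0 A hv⟩
  -- regularity
  obtain ⟨hch1, hch2, M, hM, hch3⟩ := hchart X U h Γ (g (t0 + T))
  have hreg : ∀ (F : U.Y → ℝ) (v : ℝ → U.Y → ℝ) (c : ℝ), Sol Γ.γ 4 T c F v → ∀ i,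
      ContDiffOn ℝ 2 (fun z => v T ((Γ.γ.psi i).symm z)) (Metric.ball 0 (3 / 2)) := by
    intro F v c hv i
    have h1 := ((htime U.Y Γ.γ 4 T c F v (by norm_num) hT hv).2.2 i).1 T hTm
    exact h1.of_le (by norm_num)
  have hreg' : ∀ (F : U.Y → ℝ) (v : ℝ → U.Y → ℝ) (c : ℝ), Sol Γ.γ 4 T c F v → ∀ i,
      ∀ x ∈ Metric.ball (0 : E4) (3 / 2),
      DifferentiableAt ℝ (fun z => v T ((Γ.γ.psi i).symm z)) x := by
    intro F v c hv i x hx
    exact ((hreg F v c hv i x hx).contDiffAt (Metric.isOpen_ball.mem_nhds hx)).differentiableAt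
      (by norm_num)
  have hdiff : ∀ (a : U.G) (c : LCh U), ∀ z ∈ c.psi.target,
      DifferentiableAt ℝ (fun r => φ (a⁻¹ • c.psi.symm r)) z := by
    intro a c z hz
    have h1 := heq X U h Γ 4 T C' phi0 u0 a hu0
    have h2 := hch1 (fun y => u0 T (a⁻¹ • y)) (hreg _ _ _ h1) c
    exact ((h2 z hz).contDiffAt (c.psi.open_target.mem_nhds hz)).differentiableAt (by norm_num)
  have haK := Gl_aK_pos hκ hT
  have hdsum : ∀ (A : Finset U.G) (s : U.G → ℝ) (v : ℝ → U.Y → ℝ) (c : LCh U),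
      (∀ y, v T y = ∑ a ∈ A, s a * φ (a⁻¹ • y)) → ∀ z ∈ c.psi.target, ∀ w : E4,
      fderiv ℝ (fun r => v T (c.psi.symm r)) z w =
        ∑ a ∈ A, s a * fderiv ℝ (fun r => φ (a⁻¹ • c.psi.symm r)) z w := by
    intro A s v c hv z hz w
    have h1 : (fun r => v T (c.psi.symm r)) =
        fun r => ∑ a ∈ A, s a * φ (a⁻¹ • c.psi.symm r) := by
      funext r
      exact hv _
    rw [h1]
    exact Gl_fderiv_sum A s (fun a r => φ (a⁻¹ • c.psi.symm r)) z w fun a _ => hdiff a c z hz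
  -- the tail estimate for solutions
  have htail : ∀ D : Set U.Y, IsCompact D → ∀ δ > 0, ∃ D' : Set U.Y, IsCompact D' ∧
      ∀ F v, Γ.γ.Nice (4 + 2) T C (fun _ => F) → Sol Γ.γ 4 T C' F v → (∀ y ∈ D', F y = 0) →
        (∀ y ∈ D, |v T y| ≤ δ) ∧ ∀ c : LCh U, ∀ z ∈ c.psi.target, c.psi.symm z ∈ D → ∀ w : E4,
          |fderiv ℝ (fun r => v T (c.psi.symm r)) z w| ≤
            δ * Real.sqrt (∑ i, ∑ j, (g (t0 + T)).coef c.e z i j * w i * w j) := by
    intro D hD δ hδ
    have hM1 : 0 < M + 1 := by linarith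
    obtain ⟨D', hD', hsmall⟩ := htail0 D hD (δ / (M + 1)) (by positivity)
    have hle1 : δ / (M + 1) ≤ δ := div_le_self hδ.le (by linarith)
    have hle2 : M * (δ / (M + 1)) ≤ δ := by
      rw [mul_div_assoc', div_le_iff₀ hM1]
      nlinarith
    refine ⟨D', hD', fun F v hF hv h0 => ⟨fun y hy => ?_, fun c z hz hzD w => ?_⟩⟩
    · obtain ⟨i, x, hx, hxy⟩ := Gl_cover Γ.γ y
      have hx' : ‖x‖ < 3 / 2 := by rwa [Metric.mem_ball, dist_zero_right] at hx
      have h1 := hsmall F hF h0 v hv i T hTm x hx' (by rwa [hxy]) 0 (by norm_num)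
      rw [norm_iteratedFDeriv_zero, hxy, Real.norm_eq_abs] at h1
      exact h1.trans hle1
    · have h2 := hch2 (v T) (M * (δ / (M + 1))) (by positivity) c z hz (fun i x hx hxz => by
        refine ⟨hreg' F v C' hv i x hx, (hch3 i _ x hx).trans ?_⟩
        have hx' : ‖x‖ < 3 / 2 := by rwa [Metric.mem_ball, dist_zero_right] at hx
        have h1 := hsmall F hF h0 v hv i T hTm x hx' (by rwa [hxz]) 1 (by norm_num)
        rw [norm_iteratedFDeriv_one] at h1
        rw [mul_pow]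
        gcongr) w
      refine h2.trans ?_
      gcongr
  have hA0 : ∀ D' : Set U.Y, IsCompact D' → ∃ A0 : Finset U.G,
      ∀ a, a ∉ A0 → ∀ y ∈ D', phi0 (a⁻¹ • y) = 0 := by
    intro D' hD'
    refine ⟨(hfin D' hD').toFinset, fun a ha y hy => ?_⟩
    by_contra hcon
    exact ha ((Set.Finite.mem_toFinset _).2 ⟨y, hy, hcon⟩)
  refine ⟨φ, ?_, ?_, ?_, ?_, ?_⟩
  · -- smoothness
    intro c
    exact hch1 φ (hreg _ _ _ hu0) c
  · -- nonnegativity
    exact (hmax U.Y Γ.γ Γ.c0 4 T C' phi0 u0 (by norm_num) hT hu0 0).2 hpart.nonneg T hTm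
  · -- the sum
    intro y
    rw [HasSum, SummationFilter.unconditional_filter, Metric.tendsto_atTop]
    intro ε hε
    obtain ⟨D', hD', hsmall⟩ := htail {y} isCompact_singleton (ε / 2) (by positivity)
    obtain ⟨A0, hA0'⟩ := hA0 D' hD'
    refine ⟨A0, fun A hA => ?_⟩
    obtain ⟨hN, v, hv, hval⟩ := hA2 A
    have h1 := (hsmall _ v hN hv (fun y' hy' => by
      rw [← congrFun (hcofin A) y', hsum1]
      refine Finset.sum_eq_zero fun a _ => ?_
      by_cases ha : a ∈ A
      · simp [ha]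
      · rw [hA0' a (fun hcon => ha (hA hcon)) y' hy', mul_zero])).1 y rfl
    rw [hval] at h1
    rw [Real.dist_eq, abs_sub_comm]
    linarith
  · -- the gradient estimate
    intro A c z hz w
    obtain ⟨s, hs, hsgn⟩ := Gl_sign A fun a => fderiv ℝ (fun r => φ (a⁻¹ • c.psi.symm r)) z w
    obtain ⟨-, hb, v, hv, hval⟩ := hA1 A s hs
    rw [hsgn, ← hdsum A s v c hval z hz w]
    refine (le_abs_self _).trans (hch2 (v T) _ (by positivity) c z hz (fun i x hx _ => ?_) w)
    refine ⟨hreg' _ v C' hv i x hx, ?_⟩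
    have h1 := hgrad X U g hflow t0 κ T ht0 hκ hT hmean h Γ (fun t ht => hh t ht.1) hsf 4 C' _ v
      (by norm_num) hv hb T hTm i x hx
    rw [Gl_rpow haK]
    have h2 : gradSqC ((g (t0 + T)).mcoef (Γ.base (Γ.idx i).2))
        (fun z => v T ((Γ.γ.psi i).symm z)) x ≤ 1 / aK κ T := by
      rw [le_div_iff₀ haK, mul_comm]
      exact h1
    rwa [one_div] at h2
  · -- tails
    intro D hD δ hδ
    obtain ⟨D', hD', hsmall⟩ := htail D hD δ hδ
    obtain ⟨A0, hA0'⟩ := hA0 D' hD'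
    refine ⟨A0, fun A hA => ?_, fun A hA c z hz hzD w => ?_⟩
    · have hvan : ∀ s : U.G → ℝ, ∀ y ∈ D', ∑ a ∈ A, s a * phi0 (a⁻¹ • y) = 0 := by
        intro s y hy
        refine Finset.sum_eq_zero fun a ha => ?_
        rw [hA0' a (Finset.disjoint_left.1 hA ha) y hy, mul_zero]
      refine ⟨fun y hy => ?_, fun c z hz hzD w => ?_⟩
      · obtain ⟨hN, -, v, hv, hval⟩ := hA1 A (fun _ => 1) (fun _ => by simp)
        have h1 := (hsmall _ v hN hv (hvan _)).1 y hy
        rw [hval] at h1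
        simp only [one_mul] at h1
        exact (le_abs_self _).trans h1
      · obtain ⟨s, hs, hsgn⟩ := Gl_sign A fun a =>
          fderiv ℝ (fun r => φ (a⁻¹ • c.psi.symm r)) z w
        obtain ⟨hN, -, v, hv, hval⟩ := hA1 A s hs
        rw [hsgn, ← hdsum A s v c hval z hz w]
        exact (le_abs_self _).trans ((hsmall _ v hN hv (hvan s)).2 c z hz hzD w)
    · obtain ⟨hN, v, hv, hval⟩ := hA2 A
      have h1 := (hsmall _ v hN hv (fun y' hy' => by
        rw [← congrFun (hcofin A) y', hsum1]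
        refine Finset.sum_eq_zero fun a _ => ?_
        by_cases ha : a ∈ A
        · simp [ha]
        · rw [hA0' a (fun hcon => ha (hA hcon)) y' hy', mul_zero])).2 c z hz hzD w
      have h2 : (fun r => v T (c.psi.symm r)) =
          fun r => 1 - ∑ a ∈ A, φ (a⁻¹ • c.psi.symm r) := by
        funext r
        exact hval _
      have h3 : fderiv ℝ (fun r => v T (c.psi.symm r)) z w =
          -∑ a ∈ A, fderiv ℝ (fun r => φ (a⁻¹ • c.psi.symm r)) z w := by
        rw [h2]
        have h4 : HasFDerivAt (fun r => 1 - ∑ a ∈ A, φ (a⁻¹ • c.psi.symm r))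
            (-∑ a ∈ A, fderiv ℝ (fun r => φ (a⁻¹ • c.psi.symm r)) z) z :=
          (HasFDerivAt.fun_sum fun a _ => (hdiff a c z hz).hasFDerivAt).const_sub 1
        rw [h4.fderiv, _root_.neg_apply, _root_.sum_apply]
      rw [h3, abs_neg] at h1
      exact h1

end NRF

end
end

section

/-!
# Module G: conclusion
-/

open scoped Manifold ContDiff Topology
open MeasureTheory Set

noncomputable section

namespace NRF

theorem claimGradOf_proof : claimGradOf := by
  intro hC hP hT hF hTr X _ _ _ _ _ _ _ _ _hO U g hg t0 κ ht0 hκ hmean T hT0 K hK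
  obtain ⟨h, hsm, hh⟩ := hT X g hg t0 ht0
  obtain ⟨Γ⟩ := hC X U h hsm
  obtain ⟨phi0, K0, hE, hfin, -⟩ := hP X U h Γ (g (t0 + T))
  obtain ⟨φ, hφ⟩ := hF X U g hg t0 κ T ht0 hκ hT0 hmean
  exact hTr X U (g (t0 + T)) K0 phi0 hE hfin _ φ hφ K hK

end NRF

end
end
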