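import Pool.Agent.Work.MP_7f974f_gt.Bd.B04
import Pool.Agent.Work.MP_7f974f_gt.H3
import Pool.Agent.Work.MP_7f974f_gt.Bd.B06
import Pool.Agent.Work.MP_7f974f_gt.Bd.B08
import Pool.Agent.Work.MP_7f974f_gt.Bd.B05
import Pool.Agent.Work.MP_7f974f_gt.H10
import Pool.Agent.Work.MP_7f974f_gt.Bd.B01
import Pool.Agent.Work.MP_7f974f_gt.Bd.B10
import Pool.Agent.Work.MP_7f974f_gt.Bd.B03
import Pool.Agent.Work.MP_7f974f_gt.B1
import Pool.Agent.Work.MP_7f974f_gt.Bd.B02
import Pool.Agent.Work.MP_7f974f_gt.DA3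
import Pool.Agent.Work.MP_7f974f_gt.Jet
import Pool.Agent.Work.MP_7f974f_gt.Bd.B11
import Pool.Agent.Work.MP_7f974f_gt.Bd.B09
import Pool.Agent.Work.MP_7f974f_gt.LF1
import Pool.Agent.Work.MP_7f974f_gt.Bd.B07
import Pool.Agent.Work.MP_7f974f_gt.EI5
import Pool.Agent.Work.MP_7f974f_gt.Stmts_E

/-! Bundle of small proof modules (one section per former module). -/

section

/-!
# Module H: the proof of `claimSimp` from the mapping theorem and the module B claims
-/

set_option autoImplicit false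

namespace NRF.H

theorem prfSimp' (h2 : claimStokes) (h7 : claimBLin) (h10 : claimWR) (h15 : claimWbound)
    (hMap : claimMapping) (hM : claimMcoef) (hV : claimVol) : claimSimp := by
  have h6 : claimBStokes := claimBStokes_proof claimCint_proof h2
  have h13 : claimWcoef := claimWcoef_proof claimLCh_proof
  have h12 : claimLocFin := claimLocFin_proof claimLCh_proof
  exact asmH hMap claimCint_proof (claimPrismB_proof claimQS_proof h6 h7)
    claimBInv_proof h10 h12 (claimWsmooth_proof claimLCh_proof h12 h13) h15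
    (claimPsi_proof claimLCh_proof h12 claimQS_proof) claimCut_proof
    (claimSum_proof (claimPull_proof claimLCh_proof h12 h13))
    (claimFclosed_proof (claimStokesSimp_proof h2 claimQS_proof)
      (claimStokesPrism_proof h2 claimQS_proof) claimJac0_proof)
    claimAff_proof claimAffSm_proof (claimVolSum_proof hM hV)
    (claimSmoothing_proof claimQS_proof claimBern_proof claimRetr_proof)
    claimHomLift_proof claimLiftSimp_proof (claimDescend_proof claimLiftSimp_proof)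
    claimBdry_proof claimDual_proof claimEquiv_proof claimDeg_proof claimPart_proof

/-- `claimSimp` from the mapping theorem and the facts on metrics and measures of module B. -/
theorem prfSimp (hMap : claimMapping) (hM : claimMcoef) (hV : claimVol) : claimSimp :=
  prfSimp' claimStokes_proof (claimBLin_proof) claimWR_proof
    (claimWbound_proof claimLCh_proof (claimLocFin_proof claimLCh_proof)
      (claimWcoef_proof claimLCh_proof)) hMap hM hV

end NRF.H

end

section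

/-!
# Modules A and F: assembly without hypotheses
-/

namespace NRF

theorem prf_DA3 : claimDA3 := thm_DA3 thm_DA1
theorem prf_DA4 : claimDA4 := thm_DA4 thm_DA1 prf_DA3
theorem prf_DA5 : claimDA5 := thm_DA5 thm_DA1 prf_DA3
theorem prf_DA6a : claimDA6a := thm_DA6a thm_DA1
theorem prf_DA6b : claimDA6b := thm_DA6b thm_DA1
theorem prf_DA6c : claimDA6c := thm_DA6c thm_DA1 prf_DA3 prf_DA4 prf_DA6a prf_DA6b
theorem prf_DA7 : claimDA7 := thm_DA7 thm_DA1
theorem prf_DA8 : claimDA8 := thm_DA8 thm_DA1 thm_DA2 prf_DA3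
theorem prf_FR1 : claimFR1 := thm_FR1 thm_DA1
theorem prf_FR2 : claimFR2 := thm_FR2 thm_DA1 prf_DA3 prf_FR1
theorem prf_FR4 : claimFR4 := thm_FR4 thm_DA1 prf_DA3 prf_FR1 prf_FR2 thm_FR3
theorem prf_FR5 : claimFR5 := thm_FR5 thm_DA1 prf_FR1 thm_FR3
theorem prf_L1 : claimL1 := thm_L1 prf_DA8 thm_Jet
theorem prf_L2 : claimL2 := thm_L2 prf_DA5 thm_Jet
theorem prf_L3 : claimL3 := thm_L3 prf_DA3
theorem prf_L4 : claimL4 := thm_L4 prf_DA7 thm_Jet
theorem prf_LF1 : claimLF1 := thm_LF1 prf_DA7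
theorem prf_LF2 : claimLF2 := thm_LF2 prf_DA6c
theorem prf_LF3 : claimLF3 := thm_LF3 prf_L2 prf_L3
theorem prf_FC2 : claimFC2 := thm_FC2 prf_FR1 prf_FR2
theorem prf_FC3 : claimFC3 := thm_FC3 prf_FR4 prf_FR5 thm_Jet
theorem prf_FC4 : claimFC4 := thm_FC4 prf_FC2
theorem prf_FC5 : claimFC5 := thm_FC5 prf_L1 thm_FC1 prf_FC2
theorem prf_N1 : claimN1 := thm_N1 claimMcoef_proof
theorem prf_N2 : claimN2 := thm_N2 thm_N0 prf_N1 thm_L0 prf_L1
theorem prf_N3 : claimN3 := thm_N3 prf_N2 prf_N1 thm_L5 prf_L3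
theorem prf_Nat : claimNat := claimNat_proof thm_L0 prf_L1
theorem prf_ScalCh : claimScalCh := thm_ScalCh prf_N2 prf_N3
theorem prf_Vol : claimVol := thm_Vol claimMcoef_proof
theorem prf_Green : claimGreen := thm_Green prf_Vol prf_N1 prf_N2 prf_L4 thm_L5 claimDiv0_proof
theorem prf_F0 : claimF0 := thm_F0 thm_N0 prf_N1 prf_L1 thm_L0
theorem prf_F1 : claimF1 := thm_F1 prf_F0 prf_N2 prf_LF2 thm_L5 thm_L0
theorem prf_F3 : claimF3 := thm_F3 prf_Vol prf_F0 prf_ScalCh prf_LF1 thm_L5 thm_F2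
theorem prf_F4 : claimF4 := thm_F4 prf_Vol prf_F1 prf_F3 prf_Green prf_N3
theorem prf_F7 : claimF7 := thm_F7 prf_Vol prf_N3
theorem prf_FlowPos : claimFlowPos :=
  thm_F9 prf_F1 thm_F2 prf_F4 thm_F5 thm_F6 prf_F7 thm_F8 prf_Vol prf_N3

/-- `claimFlow` of `Top.lean` (module F). -/
theorem prf_Flow : claimFlow := prf_FlowPos

end NRF

end

section

/-!
# Item D3b: naturality of `d`, `δ`, `D` under change of coordinates and frame
-/

open scoped Manifold ContDiff Topology
open MeasureTheory Set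

noncomputable section

namespace NRF

/-! ### The matrix `O` -/

theorem D3b_jac (φ : E4 → E4) (y : E4) : jacM φ y = (L1_J φ y).transpose := rfl

theorem D3b_pull (φ : E4 → E4) (G : E4 → Matrix (Fin 4) (Fin 4) ℝ) (y : E4) :
    pullM φ G y = (jacM φ y).transpose * G (φ y) * jacM φ y := L1_pull φ G y

theorem D3b_jac_det (φ : E4 → E4) (y : E4) : (jacM φ y).det = (fderiv ℝ φ y).det := by
  rw [D3b_jac, Matrix.det_transpose, L1_J_det]

section

variable {U U' : Set E4} {φ : E4 → E4} {G G' f f' : E4 → Matrix (Fin 4) (Fin 4) ℝ}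
  (hf : FrameOn U G f) (hf' : FrameOn U' G' f') (hφ : ContDiffOn ℝ ∞ φ U) (hm : MapsTo φ U U')
  (hd : ∀ y ∈ U, 0 < (fderiv ℝ φ y).det) (hG : ∀ y ∈ U, G y = pullM φ G' y)

include hf' in
theorem D3b_inv {z : E4} (hz : z ∈ U') : f' z * (f' z)⁻¹ = 1 ∧ (f' z)⁻¹ * f' z = 1 := by
  have h : IsUnit (f' z).det := (hf'.det_pos z hz).ne'.isUnit
  exact ⟨Matrix.mul_nonsing_inv _ h, Matrix.nonsing_inv_mul _ h⟩

include hf hf' hφ hm in
theorem D3b_smooth (a b : Fin 4) : ContDiffOn ℝ ∞ (fun y => frO φ f f' y a b) U := by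
  have h1 : ∀ i j, ContDiffOn ℝ ∞ (fun y => (f' (φ y))⁻¹ i j) U := fun i j =>
    (FC5_smooth_inv hf'.smooth (fun y hy => (hf'.det_pos y hy).ne') i j).comp hφ hm
  have h2 : ∀ i j, ContDiffOn ℝ ∞ (fun y => jacM φ y i j) U := fun i j =>
    L1_pd_smooth hf.met.isOpen hφ j i
  exact FC5_smooth_mul (FC5_smooth_mul h1 h2) hf.smooth a b

include hf' hm in
theorem D3b_mul {y : E4} (hy : y ∈ U) : f' (φ y) * frO φ f f' y = jacM φ y * f y := by
  unfold frO
  rw [← mul_assoc, ← mul_assoc, (D3b_inv hf' (hm hy)).1, one_mul]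

include hf hf' hm hG in
theorem D3b_orth {y : E4} (hy : y ∈ U) : (frO φ f f' y).transpose * frO φ f f' y = 1 := by
  have h1 : (f' (φ y)).transpose * G' (φ y) * f' (φ y) = 1 := hf'.orth _ (hm hy)
  have h2 := hf.orth y hy
  rw [hG y hy, D3b_pull] at h2
  have h3 := D3b_mul (f := f) hf' hm hy
  calc (frO φ f f' y).transpose * frO φ f f' y
      = (frO φ f f' y).transpose * ((f' (φ y)).transpose * G' (φ y) * f' (φ y)) *
          frO φ f f' y := by rw [h1, mul_one]
    _ = (f' (φ y) * frO φ f f' y).transpose * G' (φ y) * (f' (φ y) * frO φ f f' y) := by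
        rw [Matrix.transpose_mul]
        simp only [mul_assoc]
    _ = (f y).transpose * ((jacM φ y).transpose * G' (φ y) * jacM φ y) * f y := by
        rw [h3, Matrix.transpose_mul]
        simp only [mul_assoc]
    _ = 1 := h2

include hf hf' hm hd hG in
theorem D3b_det {y : E4} (hy : y ∈ U) : (frO φ f f' y).det = 1 := by
  have h1 := congrArg Matrix.det (D3b_orth hf hf' hm hG hy)
  rw [Matrix.det_mul, Matrix.det_transpose, Matrix.det_one] at h1
  have h2 : 0 < (frO φ f f' y).det := by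
    unfold frO
    rw [Matrix.det_mul, Matrix.det_mul, D3b_jac_det]
    have h3 := congrArg Matrix.det (D3b_inv hf' (hm hy)).2
    rw [Matrix.det_mul, Matrix.det_one] at h3
    have h4 : 0 < ((f' (φ y))⁻¹).det := by
      have h5 := hf'.det_pos _ (hm hy)
      nlinarith
    exact mul_pos (mul_pos h4 (hd y hy)) (hf.det_pos y hy)
  nlinarith

end

/-! ### Entries of `LamM` -/

theorem D3b_prod_diff {ι : Type} (s : Finset ι) {u : ι → E4 → ℝ} {y : E4}
    (h : ∀ i ∈ s, DifferentiableAt ℝ (u i) y) :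
    DifferentiableAt ℝ (fun z => ∏ i ∈ s, u i z) y := by
  classical
  induction s using Finset.induction_on with
  | empty => simp only [Finset.prod_empty]; exact differentiableAt_const _
  | insert a s ha ih =>
    simp only [Finset.prod_insert ha]
    exact (h a (Finset.mem_insert_self _ _)).mul
      (ih fun i hi => h i (Finset.mem_insert_of_mem hi))

theorem D3b_LamM_diff {A : E4 → Matrix (Fin 4) (Fin 4) ℝ} {y : E4}
    (hA : ∀ i j, DifferentiableAt ℝ (fun z => A z i j) y) (s t : Lam) :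
    DifferentiableAt ℝ (fun z => LamM (A z) s t) y := by
  unfold LamM
  simp only [Matrix.of_apply]
  by_cases h : s.card = t.card
  · simp only [dif_pos h, Matrix.det_apply]
    refine DifferentiableAt.fun_sum fun σ _ => DifferentiableAt.const_smul ?_ _
    simp only [Matrix.submatrix_apply]
    exact D3b_prod_diff _ fun k _ => hA _ _
  · simp only [dif_neg h]
    exact differentiableAt_const _

theorem D3b_mulVec_diff {M : E4 → Matrix Lam Lam ℝ} {α : E4 → Lam → ℝ} {y : E4}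
    (hM : ∀ s t, DifferentiableAt ℝ (fun z => M z s t) y)
    (hα : ∀ s, DifferentiableAt ℝ (fun z => α z s) y) (s : Lam) :
    DifferentiableAt ℝ (fun z => ((M z).transpose.mulVec (α z)) s) y := by
  unfold Matrix.mulVec dotProduct
  exact DifferentiableAt.fun_sum fun t _ => (hM t s).mul (hα t)

/-! ### `dFC` is local and additive -/

theorem D3b_J_congr {u v : E4 → ℝ} {y : E4} (hu : DifferentiableAt ℝ u y) (h : u =ᶠ[𝓝 y] v) :
    FC3_J u v y :=
  ⟨hu, (h.differentiableAt_iff).1 hu, h.eq_of_nhds, fun i => by unfold pd; rw [h.fderiv_eq]⟩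

theorem D3b_V1_congr {α β : E4 → Lam → ℝ} {y : E4} (hα : ∀ s, DifferentiableAt ℝ (fun z => α z s) y)
    (h : α =ᶠ[𝓝 y] β) : FC3_V1 α β y := fun s =>
  D3b_J_congr (hα s) (h.mono fun z hz => by show α z s = β z s; rw [hz])

theorem D3b_T_add (G f : E4 → Matrix (Fin 4) (Fin 4) ℝ) (E : Fin 4 → Matrix Lam Lam ℝ)
    {α β : E4 → Lam → ℝ} {y : E4} (hα : ∀ s, DifferentiableAt ℝ (fun z => α z s) y)
    (hβ : ∀ s, DifferentiableAt ℝ (fun z => β z s) y) :
    FC3_T G f E (fun z => α z + β z) y = FC3_T G f E α y + FC3_T G f E β y := by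
  have h1 : ∀ i, nabC G f i (fun z => α z + β z) y = nabC G f i α y + nabC G f i β y := by
    intro i
    unfold nabC
    rw [Matrix.mulVec_add]
    have : (fun s => pd i (fun z => (α z + β z) s) y) =
        (fun s => pd i (fun z => α z s) y) + fun s => pd i (fun z => β z s) y :=
      funext fun s => FC3_pd_add (hα s) (hβ s) i
    rw [this]
    abel
  unfold FC3_T
  simp only [h1, Matrix.mulVec_add, smul_add, Finset.sum_add_distrib]

theorem D3b_T_sum (G f : E4 → Matrix (Fin 4) (Fin 4) ℝ) (E : Fin 4 → Matrix Lam Lam ℝ)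
    {ι : Type} (S : Finset ι) {α : ι → E4 → Lam → ℝ} {y : E4}
    (hα : ∀ k ∈ S, ∀ s, DifferentiableAt ℝ (fun z => α k z s) y) :
    FC3_T G f E (fun z => ∑ k ∈ S, α k z) y = ∑ k ∈ S, FC3_T G f E (α k) y := by
  classical
  induction S using Finset.induction_on with
  | empty =>
    simp only [Finset.sum_empty]
    have h1 : ∀ i, nabC G f i (fun _ => (0 : Lam → ℝ)) y = 0 := by
      intro i
      unfold nabC
      rw [Matrix.mulVec_zero, add_zero]
      funext s
      show pd i (fun _ => (0 : ℝ)) y = 0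
      unfold pd
      simp
    unfold FC3_T
    simp only [h1, Matrix.mulVec_zero, smul_zero, Finset.sum_const_zero]
  | insert a S ha ih =>
    simp only [Finset.sum_insert ha]
    rw [D3b_T_add G f E (hα a (Finset.mem_insert_self _ _)), ih fun k hk =>
      hα k (Finset.mem_insert_of_mem hk)]
    intro s
    simp only [Finset.sum_apply]
    exact DifferentiableAt.fun_sum fun k hk => hα k (Finset.mem_insert_of_mem hk) s

theorem D3b_degP_sum : ∑ k ∈ Finset.range 5, degP ℝ k = 1 := by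
  ext s t
  rw [Matrix.sum_apply]
  unfold degP
  by_cases h : s = t
  · subst h
    simp only [Matrix.diagonal_apply_eq, Matrix.one_apply_eq]
    rw [Finset.sum_ite_eq]
    have h5 : s.card ≤ 4 := by
      have := Finset.card_le_univ s
      simpa using this
    rw [if_pos (by simp; omega)]
  · simp only [Matrix.diagonal_apply_ne _ h, Matrix.one_apply_ne h, Finset.sum_const_zero]

/-! ### The exterior derivative in one degree -/

theorem D3b_comp_eq (f : E4 → Matrix (Fin 4) (Fin 4) ℝ) {k : ℕ} (w : E4 → E4 [⋀^Fin k]→L[ℝ] ℝ)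
    (y : E4) : comp f w y = compP (f y) (w y) := rfl

section

variable {U U' : Set E4} {φ : E4 → E4} {G G' f f' : E4 → Matrix (Fin 4) (Fin 4) ℝ}

theorem D3b_d (ca : claimLamA) (cc : claimComp) (f4 : claimFC4)
    (hf : FrameOn U G f) (hf' : FrameOn U' G' f') (hφ : ContDiffOn ℝ ∞ φ U) (hm : MapsTo φ U U')
    {y : E4} (hy : y ∈ U)
    (α : E4 → Lam → ℝ) (hα : ∀ s, DifferentiableAt ℝ (fun z => α z s) (φ y)) (k : ℕ) :
    dFC G f (fun z => (LamM (frO φ f f' z)).transpose.mulVec ((degP ℝ k).mulVec (α (φ z)))) y =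
      (LamM (frO φ f f' y)).transpose.mulVec (dFC G' f' (fun z => (degP ℝ k).mulVec (α z)) (φ y)) := by
  obtain ⟨a1, a2, -, -, a5, -⟩ := ca ℝ
  obtain ⟨c1, c2, c3⟩ := cc
  obtain ⟨uc, u1, u2⟩ := c3 k
  have hyU : U ∈ 𝓝 y := hf.met.isOpen.mem_nhds hy
  have hyU' : U' ∈ 𝓝 (φ y) := hf'.met.isOpen.mem_nhds (hm hy)
  -- components in an arbitrary frame
  have hF : ∀ (F : Matrix (Fin 4) (Fin 4) ℝ) (w : E4 [⋀^Fin k]→L[ℝ] ℝ),
      compP F w = (LamM F).transpose.mulVec (compP 1 w) := by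
    intro F w
    rw [← c1, one_mul]
  -- the form downstairs
  let w' : E4 → E4 [⋀^Fin k]→L[ℝ] ℝ := fun z =>
    uc ((LamM (f' z)⁻¹).transpose.mulVec (α z))
  have hw'1 : ∀ z ∈ U', comp f' w' z = (degP ℝ k).mulVec (α z) := by
    intro z hz
    rw [D3b_comp_eq, hF]
    show (LamM (f' z)).transpose.mulVec (compP 1 (uc _)) = _
    rw [u2, Matrix.mulVec_mulVec, Matrix.mulVec_mulVec]
    have e1 : (LamM (f' z)).transpose * degP ℝ k = degP ℝ k * (LamM (f' z)).transpose := by
      have := congrArg Matrix.transpose (a5 (f' z) k)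
      rw [Matrix.transpose_mul, Matrix.transpose_mul, D3a_degP_T] at this
      exact this.symm
    rw [e1, mul_assoc, ← Matrix.transpose_mul, ← a2, (D3b_inv hf' hz).2, a1,
      Matrix.transpose_one, mul_one]
  have hinv : ∀ i j, DifferentiableAt ℝ (fun z => (f' z)⁻¹ i j) (φ y) := fun i j =>
    ((FC5_smooth_inv hf'.smooth (fun y hy => (hf'.det_pos y hy).ne') i j).differentiableOn
      (by simp)).differentiableAt hyU'
  have hw'2 : DifferentiableAt ℝ w' (φ y) := by
    have h1 : DifferentiableAt ℝ (fun z => (LamM (f' z)⁻¹).transpose.mulVec (α z)) (φ y) :=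
      differentiableAt_pi.2 fun s => D3b_mulVec_diff (D3b_LamM_diff hinv) hα s
    exact (LinearMap.toContinuousLinearMap uc).differentiableAt.comp (φ y) h1
  have hφy : ContDiffAt ℝ ∞ φ y := hφ.contDiffAt hyU
  -- the pull back
  let w : E4 → E4 [⋀^Fin k]→L[ℝ] ℝ := fun z => (w' (φ z)).compContinuousLinearMap (fderiv ℝ φ z)
  have hw2 : DifferentiableAt ℝ w y := by
    refine DifferentiableAt.continuousAlternatingMapCompContinuousLinearMap ?_ ?_
    · exact hw'2.comp y (hφy.differentiableAt (by simp))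
    · exact ((contDiffAt_infty.1 hφy 2).fderiv_right (m := 1) (by norm_num)).differentiableAt
        (by norm_num)
  have hcomp : ∀ {m : ℕ} (F : E4 [⋀^Fin m]→L[ℝ] ℝ), ∀ z ∈ U,
      compP (f z) (F.compContinuousLinearMap (fderiv ℝ φ z)) =
        (LamM (frO φ f f' z)).transpose.mulVec (compP (f' (φ z)) F) := by
    intro m F z hz
    rw [c2]
    have e1 : (Matrix.of fun i j => (fderiv ℝ φ z (bv j)) i) * f z = f' (φ z) * frO φ f f' z :=
      (D3b_mul hf' hm hz).symm
    rw [e1, c1]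
  have hw1 : ∀ z ∈ U, comp f w z =
      (LamM (frO φ f f' z)).transpose.mulVec ((degP ℝ k).mulVec (α (φ z))) := by
    intro z hz
    rw [D3b_comp_eq, hcomp _ z hz, ← D3b_comp_eq f' w' (φ z), hw'1 _ (hm hz)]
  have hO : ∀ i j, DifferentiableAt ℝ (fun z => frO φ f f' z i j) y := fun i j =>
    ((D3b_smooth hf hf' hφ hm i j).differentiableOn (by simp)).differentiableAt hyU
  have hαφ : ∀ s, DifferentiableAt ℝ (fun z => α (φ z) s) y := fun s =>
    DifferentiableAt.comp y (hα s) (hφy.differentiableAt (by simp))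
  have hP : ∀ (β : E4 → Lam → ℝ) (x : E4), (∀ s, DifferentiableAt ℝ (fun z => β z s) x) →
      ∀ s, DifferentiableAt ℝ (fun z => ((degP ℝ k).mulVec (β z)) s) x := by
    intro β x hβ s
    have := D3b_mulVec_diff (M := fun _ => (degP ℝ k).transpose) (α := β) (y := x)
      (fun s t => differentiableAt_const _) hβ s
    simpa using this
  have e1 := f4 U G f hf k w y hy hw2
  have e2 := f4 U' G' f' hf' k w' (φ y) (hm hy) hw'2
  have e3 : extDeriv w y = (extDeriv w' (φ y)).compContinuousLinearMap (fderiv ℝ φ y) :=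
    extDeriv_pullback (r := 2) hw'2 (contDiffAt_infty.1 hφy 2) (by simp)
  have g1 : dFC G f (fun z => (LamM (frO φ f f' z)).transpose.mulVec
      ((degP ℝ k).mulVec (α (φ z)))) y = dFC G f (comp f w) y := by
    refine FC3_T0 (eps ℝ) (D3b_V1_congr ?_ ?_)
    · exact D3b_mulVec_diff (D3b_LamM_diff hO) (hP (fun z => α (φ z)) y hαφ)
    · filter_upwards [hyU] with z hz
      exact (hw1 z hz).symm
  have g2 : dFC G' f' (fun z => (degP ℝ k).mulVec (α z)) (φ y) = dFC G' f' (comp f' w') (φ y) := by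
    refine FC3_T0 (eps ℝ) (D3b_V1_congr ?_ ?_)
    · exact hP α (φ y) hα
    · filter_upwards [hyU'] with z hz
      exact (hw'1 z hz).symm
  rw [g1, g2, ← e1, ← e2, D3b_comp_eq, e3, hcomp _ y hy]
  rfl

theorem D3b_dAll (ca : claimLamA) (cc : claimComp) (f4 : claimFC4)
    (hf : FrameOn U G f) (hf' : FrameOn U' G' f') (hφ : ContDiffOn ℝ ∞ φ U) (hm : MapsTo φ U U')
    {y : E4} (hy : y ∈ U)
    (α : E4 → Lam → ℝ) (hα : ∀ s, DifferentiableAt ℝ (fun z => α z s) (φ y)) :
    dFC G f (fun z => (LamM (frO φ f f' z)).transpose.mulVec (α (φ z))) y =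
      (LamM (frO φ f f' y)).transpose.mulVec (dFC G' f' α (φ y)) := by
  have hyU : U ∈ 𝓝 y := hf.met.isOpen.mem_nhds hy
  have hφy : ContDiffAt ℝ ∞ φ y := hφ.contDiffAt hyU
  have hO : ∀ i j, DifferentiableAt ℝ (fun z => frO φ f f' z i j) y := fun i j =>
    ((D3b_smooth hf hf' hφ hm i j).differentiableOn (by simp)).differentiableAt hyU
  have hαφ : ∀ s, DifferentiableAt ℝ (fun z => α (φ z) s) y := fun s =>
    DifferentiableAt.comp y (hα s) (hφy.differentiableAt (by simp))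
  have hP : ∀ (k : ℕ) (β : E4 → Lam → ℝ) (x : E4), (∀ s, DifferentiableAt ℝ (fun z => β z s) x) →
      ∀ s, DifferentiableAt ℝ (fun z => ((degP ℝ k).mulVec (β z)) s) x := by
    intro k β x hβ s
    have := D3b_mulVec_diff (M := fun _ => (degP ℝ k).transpose) (α := β) (y := x)
      (fun s t => differentiableAt_const _) hβ s
    simpa using this
  have s1 : ∀ v : Lam → ℝ, v = ∑ k ∈ Finset.range 5, (degP ℝ k).mulVec v := by
    intro v
    rw [← Matrix.sum_mulVec, D3b_degP_sum, Matrix.one_mulVec]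
  have e1 : (fun z => (LamM (frO φ f f' z)).transpose.mulVec (α (φ z))) = fun z =>
      ∑ k ∈ Finset.range 5, (LamM (frO φ f f' z)).transpose.mulVec
        ((degP ℝ k).mulVec (α (φ z))) := by
    funext z
    rw [← Matrix.mulVec_sum, ← s1]
  have e2 : α = fun z => ∑ k ∈ Finset.range 5, (degP ℝ k).mulVec (α z) := by
    funext z
    exact s1 _
  have e3 : dFC G' f' α (φ y) = ∑ k ∈ Finset.range 5,
      dFC G' f' (fun z => (degP ℝ k).mulVec (α z)) (φ y) := by
    conv_lhs => rw [e2]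
    exact D3b_T_sum G' f' (eps ℝ) _ fun k _ => hP k α (φ y) hα
  rw [e1, e3, Matrix.mulVec_sum]
  rw [D3a_dFC, D3b_T_sum G f (eps ℝ) (Finset.range 5)
    (α := fun k z => (LamM (frO φ f f' z)).transpose.mulVec ((degP ℝ k).mulVec (α (φ z))))
    fun k _ => D3b_mulVec_diff (D3b_LamM_diff hO) (hP k (fun z => α (φ z)) y hαφ)]
  exact Finset.sum_congr rfl fun k _ => D3b_d ca cc f4 hf hf' hφ hm hy α hα k

end

theorem thm_NatD (a : claimLamA) (b : claimLamB) (c : claimComp) (e : claimDegD) (f4 : claimFC4)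
    (_f2 : claimFC2) : claimNatD := by
  intro U U' φ G G' f f' hf hf' hφ hm hd hG
  refine ⟨D3b_smooth hf hf' hφ hm, fun y hy => ⟨D3b_orth hf hf' hm hG hy,
    D3b_det hf hf' hm hd hG hy, fun α hα => ?_⟩⟩
  have hyU : U ∈ 𝓝 y := hf.met.isOpen.mem_nhds hy
  have hφy : ContDiffAt ℝ ∞ φ y := hφ.contDiffAt hyU
  have hO : ∀ i j, DifferentiableAt ℝ (fun z => frO φ f f' z i j) y := fun i j =>
    ((D3b_smooth hf hf' hφ hm i j).differentiableOn (by simp)).differentiableAt hyU
  have hαφ : ∀ s, DifferentiableAt ℝ (fun z => α (φ z) s) y := fun s =>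
    DifferentiableAt.comp y (hα s) (hφy.differentiableAt (by simp))
  have hM : ∀ (M : Matrix Lam Lam ℝ) (β : E4 → Lam → ℝ) (x : E4),
      (∀ s, DifferentiableAt ℝ (fun z => β z s) x) →
      ∀ s, DifferentiableAt ℝ (fun z => (M.mulVec (β z)) s) x := by
    intro M β x hβ s
    have := D3b_mulVec_diff (M := fun _ => M.transpose) (α := β) (y := x)
      (fun s t => differentiableAt_const _) hβ s
    simpa using this
  have hT : ∀ s, DifferentiableAt ℝ (fun z =>
      ((LamM (frO φ f f' z)).transpose.mulVec (α (φ z))) s) y :=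
    D3b_mulVec_diff (D3b_LamM_diff hO) hαφ
  have hg : ∀ z ∈ U, (LamM (frO φ f f' z)).transpose * gam ℝ =
      gam ℝ * (LamM (frO φ f f' z)).transpose := by
    intro z hz
    have o1 := D3b_orth hf hf' hm hG hz
    have o2 : (frO φ f f' z).transpose.transpose * (frO φ f f' z).transpose = 1 := by
      rw [Matrix.transpose_transpose]
      exact mul_eq_one_comm.1 o1
    have o3 := (b ℝ (frO φ f f' z).transpose o2).2.2.2.2 (by
      rw [Matrix.det_transpose]
      exact D3b_det hf hf' hm hd hG hz)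
    rw [(a ℝ).2.2.1] at o3
    exact o3
  have d1 := D3b_dAll a c f4 hf hf' hφ hm hy α hα
  have hgg : ∀ v : Lam → ℝ, (gam ℝ).mulVec ((gam ℝ).mulVec v) = v := by
    intro v
    rw [Matrix.mulVec_mulVec, FR3_gg, Matrix.one_mulVec]
  have d2 : delFC G f (fun z => (LamM (frO φ f f' z)).transpose.mulVec (α (φ z))) y =
      (LamM (frO φ f f' y)).transpose.mulVec (delFC G' f' α (φ y)) := by
    have k1 := (e U G f hf _ y hy hT).2.2.1
    have k2 := (e U' G' f' hf' α (φ y) (hm hy) hα).2.2.1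
    have k3 := D3b_dAll a c f4 hf hf' hφ hm hy (fun z => (gam ℝ).mulVec (α z))
      (hM (gam ℝ) α (φ y) hα)
    have k4 : dFC G f (fun z => (gam ℝ).mulVec
        ((LamM (frO φ f f' z)).transpose.mulVec (α (φ z)))) y =
        dFC G f (fun z => (LamM (frO φ f f' z)).transpose.mulVec
          ((gam ℝ).mulVec (α (φ z)))) y := by
      refine FC3_T0 (eps ℝ) (D3b_V1_congr (hM (gam ℝ) _ y hT) ?_)
      filter_upwards [hyU] with z hz
      rw [Matrix.mulVec_mulVec, Matrix.mulVec_mulVec, hg z hz]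
    rw [k4, k3, k2, Matrix.mulVec_neg, Matrix.mulVec_mulVec, hg y hy,
      ← Matrix.mulVec_mulVec] at k1
    have k5 := congrArg (fun v => -(gam ℝ).mulVec v) k1
    simp only [Matrix.mulVec_neg, neg_neg, hgg] at k5
    exact k5.symm
  refine ⟨d1, d2, ?_⟩
  rw [FC3_dirac_eq, FC3_dirac_eq, d1, d2, Matrix.mulVec_add]

end NRF

end
end

section

/-!
# E9: `P 1` and `P 2` at the pole
-/

open scoped Manifold ContDiff Topology RealInnerProductSpace
open MeasureTheory Set

noncomputable section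

namespace NRF

namespace EI9

open EI5

section

variable {W : Type} [NormedAddCommGroup W] [NormedSpace ℝ W]

theorem fderiv_clm (u : W →L[ℝ] ℝ) {f : E4 → W} (hf : ContDiff ℝ ∞ f) (z v : E4) :
    fderiv ℝ (fun x => u (f x)) z v = u (fderiv ℝ f z v) := by
  have hf' : DifferentiableAt ℝ f z := (hf.differentiable (by simp)) z
  have h : HasFDerivAt (fun x => u (f x)) (u.comp (fderiv ℝ f z)) z :=
    u.hasFDerivAt.comp z hf'.hasFDerivAt
  rw [h.fderiv]
  rfl

theorem pd_clm (u : W →L[ℝ] ℝ) {f : E4 → W} (hf : ContDiff ℝ ∞ f) (i : Fin 4) :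
    pd i (fun x => u (f x)) = fun z => u (pd i f z) := by
  funext z
  exact fderiv_clm u hf z (bv i)

theorem pd_smoothW {f : E4 → W} (hf : ContDiff ℝ ∞ f) (i : Fin 4) : ContDiff ℝ ∞ (pd i f) := by
  have h : ContDiff ℝ ∞ (fderiv ℝ f) := hf.fderiv_right (by simp)
  exact h.clm_apply contDiff_const

theorem opA_clm (u : W →L[ℝ] ℝ) {f : E4 → W} (hf : ContDiff ℝ ∞ f) (κ : ℝ) (w : ℕ) (z : E4) :
    opA κ w (fun x => u (f x)) z = u (opA κ w f z) := by
  simp only [opA]
  rw [fderiv_clm u hf]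
  have e : ∀ i, pd i (pd i fun x => u (f x)) z = u (pd i (pd i f) z) := by
    intro i
    rw [pd_clm u hf i, pd_clm u (pd_smoothW hf i) i]
  rw [Finset.sum_congr rfl fun i _ => e i]
  simp only [map_sub, map_smul, map_add, map_sum]

theorem cjD_smulc (κ : ℝ) (i : Fin 4) (g : E4 → ℝ) (c : W) (hg : ContDiff ℝ ∞ g) (z : E4) :
    cjD κ i (fun z => g z • c) z = (pd i g z - z i / (2 * κ) * g z) • c := by
  have hg' : DifferentiableAt ℝ g z := (hg.differentiable (by simp)) z
  have hd : HasFDerivAt (fun z => g z • c) ((fderiv ℝ g z).smulRight c) z :=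
    hg'.hasFDerivAt.smul_const _
  simp only [cjD, pd]
  rw [hd.fderiv, ContinuousLinearMap.smulRight_apply, smul_smul, ← sub_smul]

theorem isPolF_clm (u : W →L[ℝ] ℝ) {f : E4 → W} (hf : IsPolF f) : IsPolF (fun x => u (f x)) := by
  obtain ⟨A, p, hp⟩ := hf
  refine ⟨A, fun α => u (p α), fun z => ?_⟩
  change u (f z) = _
  rw [hp z]
  simp only [map_sum, map_smul]

end

theorem smooth_smulc {W : Type} [NormedAddCommGroup W] [NormedSpace ℝ W] {f : E4 → ℝ}
    (hf : ContDiff ℝ ∞ f) (c : W) : ContDiff ℝ ∞ (fun x => f x • c) :=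
  hf.smul contDiff_const

theorem smooth_csmul {W : Type} [NormedAddCommGroup W] [NormedSpace ℝ W] {f : E4 → W}
    (hf : ContDiff ℝ ∞ f) (c : ℝ) : ContDiff ℝ ∞ (fun x => c • f x) :=
  contDiff_const.smul hf

theorem opA_two2 (κ : ℝ) (i j : Fin 4) (z : E4) :
    opA κ 2 (fun z : E4 => z i * z j) z = 2 * (z i * z j) - 2 * κ * dl i j := by
  simp only [opA, smul_eq_mul]
  rw [fderiv_mul_apply (coord_smooth i) (coord_smooth j), fderiv_coord, fderiv_coord,
    Finset.sum_congr rfl fun m _ => pd_pd_two m i j z, ← Finset.mul_sum, sum_dl]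
  push_cast
  ring

theorem opA_const2 (κ c : ℝ) (z : E4) : opA κ 2 (fun _ : E4 => c) z = c := by
  simp only [opA, smul_eq_mul, pd_const]
  simp

/-- The quadratic function `- 1/2 Σ z_i z_j b i j - c`. -/
def Xq (b : Fin 4 → Fin 4 → ℝ) (c : ℝ) (z : E4) : ℝ :=
  (∑ i, ∑ j, (-(1 / 2) * b i j) * (z i * z j)) + -c

theorem isPolF_Xq (b : Fin 4 → Fin 4 → ℝ) (c : ℝ) : IsPolF (Xq b c) := by
  refine isPolF_add (isPolF_sum _ fun i _ => isPolF_sum _ fun j _ => ?_) (isPolF_const _)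
  exact isPolF_cmul (isPolF_two i j) _

theorem opA_Xq (κ : ℝ) (b : Fin 4 → Fin 4 → ℝ) (c : ℝ) (z : E4) :
    opA κ 2 (Xq b c) z = -(∑ i, ∑ j, b i j * (z i * z j)) - c + κ * ∑ k, b k k := by
  have hs : ∀ i j, ContDiff ℝ ∞ fun z : E4 => (-(1 / 2) * b i j) * (z i * z j) := fun i j =>
    contDiff_const.mul (two_smooth i j)
  have hs2 : ∀ i, ContDiff ℝ ∞ fun z : E4 => ∑ j, (-(1 / 2) * b i j) * (z i * z j) := fun i =>
    ContDiff.sum fun j _ => hs i j
  have h1 : opA κ 2 (Xq b c) z =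
      (∑ i, ∑ j, (-(1 / 2) * b i j) * (2 * (z i * z j) - 2 * κ * dl i j)) + -c := by
    have e : Xq b c = fun z => (∑ i, ∑ j, (-(1 / 2) * b i j) * (z i * z j)) + -c := rfl
    rw [e, opA_add (ContDiff.sum fun i _ => hs2 i) contDiff_const, opA_const2, opA_sum _ hs2]
    congr 1
    refine Finset.sum_congr rfl fun i _ => ?_
    rw [opA_sum _ (hs i)]
    refine Finset.sum_congr rfl fun j _ => ?_
    rw [opA_cmul (two_smooth i j), opA_two2]
  rw [h1]
  have h2 : ∀ i j : Fin 4, (-(1 / 2) * b i j) * (2 * (z i * z j) - 2 * κ * dl i j) =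
      -(b i j * (z i * z j)) + κ * (b i j * dl i j) := by
    intro i j
    ring
  simp only [h2, Finset.sum_add_distrib, Finset.sum_neg_distrib]
  have h3 : ∑ i : Fin 4, ∑ j : Fin 4, κ * (b i j * dl i j) = κ * ∑ k, b k k := by
    rw [Finset.mul_sum]
    refine Finset.sum_congr rfl fun i _ => ?_
    simp [dl]
  rw [h3]
  ring

section

variable {V : Type} [NormedAddCommGroup V] [InnerProductSpace ℝ V] [FiniteDimensional ℝ V]
  {m : Model V} {κ : ℝ} {B : Fin 4 → Fin 4 → V →L[ℝ] V} {W0 : V →L[ℝ] V}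
  {l : (V →L[ℝ] V) →ₗ[ℝ] ℝ} {β : Fin 4 → E4 → ℝ}

omit [FiniteDimensional ℝ V] in
theorem opC_one (h : TayData m κ B W0 l β) (f : E4 → (V →L[ℝ] V)) (z : E4) :
    m.opC κ 1 f z = 0 := by
  simp only [Model.opC, h.a1, zero_smul, Finset.sum_const_zero, neg_zero, zero_add]
  have e : ∀ i, tayC (fun q => m.b q i) (1 - 1) 0 0 z = 0 := fun i => h.b0 i z
  simp only [e, ContinuousLinearMap.zero_comp, Finset.sum_const_zero]
  simp

omit [FiniteDimensional ℝ V] in
theorem opC_two (h : TayData m κ B W0 l β) (u : (V →L[ℝ] V) →L[ℝ] ℝ)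
    (hu : u (ContinuousLinearMap.id ℝ V) = 0) (z : E4) :
    u (m.opC κ 2 (fun _ => ContinuousLinearMap.id ℝ V) z) =
      (∑ i, ∑ j, u (B i j) * (z i * z j)) + u W0 - κ * ∑ k, u (B k k) := by
  have hk : κ ≠ 0 := h.kpos.ne'
  have e0 : (fun _ : E4 => ContinuousLinearMap.id ℝ V) =
      fun z : E4 => (fun _ : E4 => (1 : ℝ)) z • ContinuousLinearMap.id ℝ V := by
    funext z
    simp
  have e1 : ∀ i, cjD κ i (fun _ : E4 => ContinuousLinearMap.id ℝ V) =
      fun z : E4 => (-(z i / (2 * κ))) • ContinuousLinearMap.id ℝ V := by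
    intro i
    funext z
    rw [e0, cjD_smulc κ i _ _ contDiff_const z, pd_const]
    simp
  have e2 : ∀ i j, ∃ c : ℝ, cjD κ i (cjD κ j fun _ : E4 => ContinuousLinearMap.id ℝ V) z =
      c • ContinuousLinearMap.id ℝ V := by
    intro i j
    rw [e1 j]
    have hs : ContDiff ℝ ∞ fun z : E4 => -(z j / (2 * κ)) :=
      ((coord_smooth j).div_const _).neg
    exact ⟨_, cjD_smulc κ i _ _ hs z⟩
  choose c hc using e2
  simp only [Model.opC, hc]
  have e3 : ∀ i, tayC (fun q => m.b q i) (2 - 1) 0 0 z =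
    β i z • ContinuousLinearMap.id ℝ V - (2 * κ) • ∑ j, z j • B j i := fun i => h.b1 i z
  have e4 : tayC m.c (2 - 2) 0 0 z = W0 - κ • ∑ k, B k k := h.c0 z
  simp only [e3, e4, e1]
  rw [if_pos (le_refl 2)]
  simp only [map_add, map_neg, map_sum, map_smul, hu, Finset.sum_const_zero,
    ContinuousLinearMap.comp_smul, ContinuousLinearMap.comp_id, map_sub, smul_eq_mul, mul_zero,
    neg_zero, zero_sub, zero_add]
  have e5 : ∀ i : Fin 4, -(z i / (2 * κ)) * -(2 * κ * ∑ x, z x * u (B x i)) =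
      ∑ x, u (B x i) * (z x * z i) := by
    intro i
    have : -(z i / (2 * κ)) * -(2 * κ * ∑ x, z x * u (B x i)) =
        z i * ∑ x, z x * u (B x i) := by
      field_simp
    rw [this, Finset.mul_sum]
    refine Finset.sum_congr rfl fun x _ => ?_
    ring
  simp only [e5]
  rw [Finset.sum_comm]
  ring

end

end EI9

open EI5 EI9 in
theorem thm_P2E (h1 : claimPolUniq) (h2 : claimConj) : claimP2E := by
  intro V _ _ _ m κ B W0 l β h P hP
  obtain ⟨hpol, hrec⟩ := h2 V m κ h.kpos h.a0 P hP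
  have hP0 : P 0 0 0 = fun _ => ContinuousLinearMap.id ℝ V := by
    funext z
    exact hP.zero 0 0 z
  have hw1 : ∀ z, P 1 0 0 z = 0 := by
    refine h1 _ κ 1 (P 1 0 0) le_rfl (hpol 1) fun z => ?_
    have e := hrec 1 z
    rw [Finset.sum_range_one, Nat.sub_zero, opC_one h, add_zero] at e
    exact e
  refine ⟨hw1, ?_⟩
  have hw2 : ∀ z, opA κ 2 (P 2 0 0) z +
      m.opC κ 2 (fun _ => ContinuousLinearMap.id ℝ V) z = 0 := by
    intro z
    have e := hrec 2 z
    rw [Finset.sum_range_succ, Finset.sum_range_one, Nat.sub_zero, hP0] at e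
    have e1 : m.opC κ (2 - 1) (P 1 0 0) z = 0 := opC_one h _ z
    rw [e1, add_zero] at e
    exact e
  have hs2 := IsPolF_smooth (hpol 2)
  -- functionals which vanish on the identity
  have key : ∀ u : (V →L[ℝ] V) →L[ℝ] ℝ, u (ContinuousLinearMap.id ℝ V) = 0 → ∀ z,
      u (P 2 0 0 z) = Xq (fun i j => u (B i j)) (u W0) z := by
    intro u hu z
    have hpX := isPolF_Xq (fun i j => u (B i j)) (u W0)
    have hsX := IsPolF_smooth hpX
    have hpu := isPolF_clm u (hpol 2)
    have hsu := IsPolF_smooth hpu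
    have hsn : ContDiff ℝ ∞ fun z => (-1 : ℝ) * Xq (fun i j => u (B i j)) (u W0) z :=
      contDiff_const.mul hsX
    have e := h1 ℝ κ 2 (fun z => u (P 2 0 0 z) + (-1 : ℝ) * Xq (fun i j => u (B i j)) (u W0) z)
      (by norm_num) (isPolF_add hpu (isPolF_cmul hpX _)) (fun z => by
        rw [opA_add hsu hsn, opA_cmul hsX, opA_clm u hs2, opA_Xq]
        have e1 := congrArg u (hw2 z)
        rw [map_add, map_zero, opC_two h u hu] at e1
        linarith) z
    linarith
  rcases eq_or_ne (ContinuousLinearMap.id ℝ V) 0 with h0 | h0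
  · have hz : ∀ x : V →L[ℝ] V, x = 0 := by
      intro x
      have : x = x.comp (ContinuousLinearMap.id ℝ V) := (x.comp_id).symm
      rw [this, h0, ContinuousLinearMap.comp_zero]
    refine ⟨fun _ => 0, contDiff_const, fun z => ?_⟩
    rw [hz (P 2 0 0 z)]
    exact (hz _).symm
  obtain ⟨u0, hu0⟩ := SeparatingDual.exists_eq_one (R := ℝ) h0
  have hX : ContDiff ℝ ∞ fun z : E4 => (1 / 2 : ℝ) • (∑ i, ∑ j, (z i * z j) • B i j) + W0 := by
    refine ContDiff.add (smooth_csmul (ContDiff.sum fun i _ =>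
      ContDiff.sum fun j _ => smooth_smulc (two_smooth i j) _) _) contDiff_const
  refine ⟨fun z => u0 (P 2 0 0 z + ((1 / 2 : ℝ) • (∑ i, ∑ j, (z i * z j) • B i j) + W0)),
    u0.contDiff.comp (hs2.add hX), fun z => ?_⟩
  rw [sub_sub, eq_sub_iff_add_eq]
  set Y := P 2 0 0 z + ((1 / 2 : ℝ) • (∑ i, ∑ j, (z i * z j) • B i j) + W0) with hY
  have hall : ∀ u : (V →L[ℝ] V) →L[ℝ] ℝ, u (ContinuousLinearMap.id ℝ V) = 0 → u Y = 0 := by
    intro u hu
    rw [hY, map_add, key u hu z]
    simp only [map_add, map_smul, map_sum, smul_eq_mul, Xq]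
    have e : ∀ i j : Fin 4, -(1 / 2) * u (B i j) * (z i * z j) =
        -((1 / 2) * (z i * z j * u (B i j))) := by
      intro i j
      ring
    simp only [e, Finset.sum_neg_distrib, ← Finset.mul_sum]
    ring
  by_contra hne
  have hne' : Y - u0 Y • ContinuousLinearMap.id ℝ V ≠ 0 := sub_ne_zero.2 hne
  obtain ⟨u1, hu1⟩ := SeparatingDual.exists_eq_one (R := ℝ) hne'
  have h5 := hall (u1 - u1 (ContinuousLinearMap.id ℝ V) • u0) (by
    simp [hu0])
  have h6 : u1 Y - u1 (ContinuousLinearMap.id ℝ V) * u0 Y = 0 := by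
    simpa using h5
  rw [map_sub, map_smul, smul_eq_mul] at hu1
  linarith [mul_comm (u0 Y) (u1 (ContinuousLinearMap.id ℝ V))]

end NRF

end
end

section

/-!
Item FV1: differential forms in charts of the maximal atlas.
-/

set_option autoImplicit false

open scoped Manifold ContDiff Topology
open MeasureTheory Set

noncomputable section

namespace NRF

/-! ### Smoothness of families of alternating maps -/

/-- Evaluation of a `k`-form on the standard basis vectors. -/
def FV1_ev (k : ℕ) : (E4 [⋀^Fin k]→L[ℝ] ℝ) →ₗ[ℝ] ((Fin k → Fin 4) → ℝ) where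
  toFun f s := f fun i => bv (s i)
  map_add' _ _ := rfl
  map_smul' _ _ := rfl

lemma FV1_expand (x : E4) : x = ∑ j, x j • bv j := by
  ext i
  simp [bv, Pi.single_apply]

lemma FV1_apply_expand {k : ℕ} (f : E4 [⋀^Fin k]→L[ℝ] ℝ) (a : Fin k → E4) :
    f a = ∑ s : Fin k → Fin 4, (∏ i, a i (s i)) * f fun i => bv (s i) := by
  have h : a = fun i => ∑ j, a i j • bv j := funext fun i => FV1_expand (a i)
  have e1 : f a = f.toContinuousMultilinearMap.toMultilinearMap (fun i => ∑ j, a i j • bv j) := by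
    rw [← h]
    rfl
  rw [e1, MultilinearMap.map_sum]
  refine Finset.sum_congr rfl fun s _ => ?_
  rw [MultilinearMap.map_smul_univ]
  rfl

lemma FV1_ev_inj (k : ℕ) : LinearMap.ker (FV1_ev k) = ⊥ := by
  rw [LinearMap.ker_eq_bot']
  intro f hf
  ext a
  rw [FV1_apply_expand]
  have : ∀ s : Fin k → Fin 4, f (fun i => bv (s i)) = 0 := fun s => congrFun hf s
  simp [this]

lemma FV1_contDiffOn {k : ℕ} {F : E4 → E4 [⋀^Fin k]→L[ℝ] ℝ} {U : Set E4}
    (h : ∀ s : Fin k → Fin 4, ContDiffOn ℝ ∞ (fun z => F z fun i => bv (s i)) U) :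
    ContDiffOn ℝ ∞ F U := by
  obtain ⟨R, hR⟩ := LinearMap.exists_leftInverse_of_injective (FV1_ev k) (FV1_ev_inj k)
  have h1 : ContDiffOn ℝ ∞ (fun z => FV1_ev k (F z)) U := contDiffOn_pi.2 h
  have h2 : ContDiffOn ℝ ∞ (fun z => R.toContinuousLinearMap (FV1_ev k (F z))) U :=
    R.toContinuousLinearMap.contDiff.comp_contDiffOn h1
  refine h2.congr fun z _ => ?_
  have := congrArg (fun L => L (F z)) hR
  simpa using this.symm

lemma FV1_eval_smooth {k : ℕ} {F : E4 → E4 [⋀^Fin k]→L[ℝ] ℝ} {U : Set E4}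
    (h : ContDiffOn ℝ ∞ F U) (v : Fin k → E4) : ContDiffOn ℝ ∞ (fun z => F z v) U := by
  let L : (E4 [⋀^Fin k]→L[ℝ] ℝ) →L[ℝ] ContinuousMultilinearMap ℝ (fun _ : Fin k => E4) ℝ :=
    ContinuousAlternatingMap.toContinuousMultilinearMapCLM ℝ
  have h1 : (fun z => F z v) = fun z => (L (F z)) v := rfl
  have h2 : ContDiffOn ℝ ∞ (fun z => L (F z)) U := L.contDiff.comp_contDiffOn h
  rw [h1]
  exact (ContinuousMultilinearMap.apply ℝ (fun _ : Fin k => E4) ℝ v).contDiff.comp_contDiffOn h2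

lemma FV1_pull_smooth {k : ℕ} {F : E4 → E4 [⋀^Fin k]→L[ℝ] ℝ} {phi : E4 → E4} {U V : Set E4}
    (hU : IsOpen U) (hF : ContDiffOn ℝ ∞ F V) (hphi : ContDiffOn ℝ ∞ phi U) (hm : MapsTo phi U V) :
    ContDiffOn ℝ ∞ (fun z => (F (phi z)).compContinuousLinearMap (fderiv ℝ phi z)) U := by
  refine FV1_contDiffOn fun s => ?_
  have hd : ContDiffOn ℝ ∞ (fderiv ℝ phi) U :=
    hphi.fderiv_of_isOpen hU (by simp)
  have e : ∀ z, (F (phi z)).compContinuousLinearMap (fderiv ℝ phi z) (fun i => bv (s i)) =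
      ∑ r : Fin k → Fin 4, (∏ i, (fderiv ℝ phi z (bv (s i))) (r i)) *
        F (phi z) fun i => bv (r i) := by
    intro z
    rw [ContinuousAlternatingMap.compContinuousLinearMap_apply, FV1_apply_expand]
    rfl
  simp_rw [e]
  refine ContDiffOn.sum fun r _ => ContDiffOn.mul (contDiffOn_prod fun i _ => ?_) ?_
  · have h1 : ContDiffOn ℝ ∞ (fun z => fderiv ℝ phi z (bv (s i))) U :=
      hd.clm_apply contDiffOn_const
    exact (EuclideanSpace.proj (𝕜 := ℝ) (r i)).contDiff.comp_contDiffOn h1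
  · exact (FV1_eval_smooth hF _).comp hphi hm

lemma FV1_extDeriv_smooth {k : ℕ} {F : E4 → E4 [⋀^Fin k]→L[ℝ] ℝ} {U : Set E4} (hU : IsOpen U)
    (hF : ContDiffOn ℝ ∞ F U) : ContDiffOn ℝ ∞ (extDeriv F) U := by
  have hd : ContDiffOn ℝ ∞ (fderiv ℝ F) U := hF.fderiv_of_isOpen hU (by simp)
  have h1 : extDeriv F = fun z =>
      ContinuousAlternatingMap.alternatizeUncurryFinCLM ℝ E4 ℝ (fderiv ℝ F z) := rfl
  rw [h1]
  exact (ContinuousAlternatingMap.alternatizeUncurryFinCLM ℝ E4 ℝ).contDiff.comp_contDiffOn hd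

/-! ### Coordinate changes -/

section

variable {X : Type} [TopologicalSpace X] [ChartedSpace E4 X] [IsManifold (𝓡 4) ∞ X]

lemma FV1_mem (e : Ch X) : e.1 ∈ SmCh X := IsManifold.subset_maximalAtlas e.2

omit [ChartedSpace E4 X] [IsManifold (𝓡 4) ∞ X] in
lemma FV1_src {psi psi' : OpenPartialHomeomorph X E4} {y : E4} :
    y ∈ (psi.symm.trans psi').source ↔ y ∈ psi.target ∧ psi.symm y ∈ psi'.source := by
  rw [OpenPartialHomeomorph.trans_source]
  rfl

lemma FV1_diff (n0 : claimN0) {psi psi' : OpenPartialHomeomorph X E4} (h : psi ∈ SmCh X)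
    (h' : psi' ∈ SmCh X) {y : E4} (hy : y ∈ (psi.symm.trans psi').source) :
    ContDiffAt ℝ ∞ (psi.symm.trans psi') y :=
  ((n0 X psi h psi' h').1 y hy).contDiffAt ((psi.symm.trans psi').open_source.mem_nhds hy)

lemma FV1_chain (n0 : claimN0) {p1 p2 p3 : OpenPartialHomeomorph X E4} (h1 : p1 ∈ SmCh X)
    (h2 : p2 ∈ SmCh X) (h3 : p3 ∈ SmCh X) {y : E4} (hy : y ∈ (p1.symm.trans p2).source)
    (hy' : y ∈ (p1.symm.trans p3).source) :
    (p1.symm.trans p2) y ∈ (p2.symm.trans p3).source ∧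
    (p2.symm.trans p3) ((p1.symm.trans p2) y) = (p1.symm.trans p3) y ∧
    (fderiv ℝ (p2.symm.trans p3) ((p1.symm.trans p2) y)).comp (fderiv ℝ (p1.symm.trans p2) y) =
      fderiv ℝ (p1.symm.trans p3) y := by
  have hval : ∀ z ∈ (p1.symm.trans p2).source,
      (p2.symm.trans p3) ((p1.symm.trans p2) z) = (p1.symm.trans p3) z := by
    intro z hz
    show p3 (p2.symm (p2 (p1.symm z))) = p3 (p1.symm z)
    rw [p2.left_inv (FV1_src.1 hz).2]
  have hmem : (p1.symm.trans p2) y ∈ (p2.symm.trans p3).source := by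
    rw [FV1_src] at hy hy' ⊢
    refine ⟨p2.map_source hy.2, ?_⟩
    have : p2.symm ((p1.symm.trans p2) y) = p1.symm y := p2.left_inv hy.2
    rw [this]
    exact hy'.2
  refine ⟨hmem, hval y hy, ?_⟩
  have d1 := ((FV1_diff n0 h1 h2 hy).differentiableAt (by simp)).hasFDerivAt
  have d2 := ((FV1_diff n0 h2 h3 hmem).differentiableAt (by simp)).hasFDerivAt
  have d3 := ((FV1_diff n0 h1 h3 hy').differentiableAt (by simp)).hasFDerivAt
  have h4 : (fun z => (p2.symm.trans p3) ((p1.symm.trans p2) z)) =ᶠ[𝓝 y]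
      (p1.symm.trans p3) := by
    filter_upwards [(p1.symm.trans p2).open_source.mem_nhds hy] with z hz
    exact hval z hz
  exact ((d2.comp y d1).congr_of_eventuallyEq h4.symm).unique d3

lemma FV1_comp {k : ℕ} (f : E4 [⋀^Fin k]→L[ℝ] ℝ) (A B : E4 →L[ℝ] E4) :
    (f.compContinuousLinearMap A).compContinuousLinearMap B =
      f.compContinuousLinearMap (A.comp B) := by
  ext v
  rfl

/-- A form in a smooth chart, computed with an arbitrary chart of the atlas. -/
lemma FV1_key (n0 : claimN0) {k : ℕ} {w : Ch X → E4 → E4 [⋀^Fin k]→L[ℝ] ℝ} (hw : w ∈ Forms X k)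
    {psi : OpenPartialHomeomorph X E4} (h : psi ∈ SmCh X) (e : Ch X) {y : E4}
    (hy : y ∈ (psi.symm.trans e.1).source) :
    mform w psi y = (w e ((psi.symm.trans e.1) y)).compContinuousLinearMap
      (fderiv ℝ (psi.symm.trans e.1) y) := by
  set c : Ch X := chAt (psi.symm y) with hc
  have hyc : y ∈ (psi.symm.trans c.1).source :=
    FV1_src.2 ⟨(FV1_src.1 hy).1, mem_chart_source E4 (psi.symm y)⟩
  obtain ⟨h1, h2, h3⟩ := FV1_chain n0 h (FV1_mem c) (FV1_mem e) hyc hy
  have h4 := hw.2.2 c e _ h1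
  have h5 : mform w psi y = (w c ((psi.symm.trans c.1) y)).compContinuousLinearMap
      (fderiv ℝ (psi.symm.trans c.1) y) := rfl
  rw [h5, h4, FV1_comp, h2, h3]

lemma FV1_key_nhds (n0 : claimN0) {k : ℕ} {w : Ch X → E4 → E4 [⋀^Fin k]→L[ℝ] ℝ}
    (hw : w ∈ Forms X k) {psi : OpenPartialHomeomorph X E4} (h : psi ∈ SmCh X) (e : Ch X) {y : E4}
    (hy : y ∈ (psi.symm.trans e.1).source) :
    mform w psi =ᶠ[𝓝 y] fun z => (w e ((psi.symm.trans e.1) z)).compContinuousLinearMap
      (fderiv ℝ (psi.symm.trans e.1) z) := by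
  filter_upwards [(psi.symm.trans e.1).open_source.mem_nhds hy] with z hz
  exact FV1_key n0 hw h e hz

omit [ChartedSpace E4 X] [IsManifold (𝓡 4) ∞ X] in
lemma FV1_trans_self {e : OpenPartialHomeomorph X E4} {y : E4} (hy : y ∈ e.target) :
    (e.symm.trans e) y = y ∧ fderiv ℝ (e.symm.trans e) y = ContinuousLinearMap.id ℝ E4 := by
  have h : (e.symm.trans e) =ᶠ[𝓝 y] id := by
    filter_upwards [e.open_target.mem_nhds hy] with z hz
    exact e.right_inv hz
  refine ⟨e.right_inv hy, ?_⟩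
  rw [h.fderiv_eq, fderiv_id]

/-- The exterior derivative of the pull back. -/
lemma FV1_ext_pull (n0 : claimN0) {k : ℕ} {w : Ch X → E4 → E4 [⋀^Fin k]→L[ℝ] ℝ}
    (hw : w ∈ Forms X k) {psi : OpenPartialHomeomorph X E4} (h : psi ∈ SmCh X) (e : Ch X) {y : E4}
    (hy : y ∈ (psi.symm.trans e.1).source) :
    extDeriv (mform w psi) y =
      (extDeriv (w e) ((psi.symm.trans e.1) y)).compContinuousLinearMap
        (fderiv ℝ (psi.symm.trans e.1) y) := by
  rw [(FV1_key_nhds n0 hw h e hy).extDeriv_eq]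
  have hs : (psi.symm.trans e.1) y ∈ e.1.target := by
    exact e.1.map_source (FV1_src.1 hy).2
  have hd : DifferentiableAt ℝ (w e) ((psi.symm.trans e.1) y) :=
    ((hw.1 e).differentiableOn (by simp)).differentiableAt (e.1.open_target.mem_nhds hs)
  exact extDeriv_pullback (r := ∞) hd (FV1_diff n0 h (FV1_mem e) hy) (by
    rw [minSmoothness_of_isRCLikeNormedField]
    exact (WithTop.coe_le_coe.2 le_top : ((2 : ℕ∞) : WithTop ℕ∞) ≤ ((⊤ : ℕ∞) : WithTop ℕ∞)))

end

/-- Item FV1. -/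
theorem thm_Mform (n0 : claimN0) : claimMform := by
  intro X _ _ _ k w hw
  have hself : ∀ e : Ch X, ∀ y ∈ e.1.target, mform w e.1 y = w e y := by
    intro e y hy
    have hy' : y ∈ (e.1.symm.trans e.1).source := FV1_src.2 ⟨hy, e.1.map_target hy⟩
    obtain ⟨h1, h2⟩ := FV1_trans_self (e := e.1) hy
    rw [FV1_key n0 hw (FV1_mem e) e hy', h1, h2]
    ext v
    rfl
  refine ⟨hself, ?_, ?_, ?_, ?_⟩
  · intro psi h y hy
    set e : Ch X := chAt (psi.symm y) with he
    have hye : y ∈ (psi.symm.trans e.1).source :=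
      FV1_src.2 ⟨hy, mem_chart_source E4 (psi.symm y)⟩
    have h1 : ContDiffOn ℝ ∞ (fun z => (w e ((psi.symm.trans e.1) z)).compContinuousLinearMap
        (fderiv ℝ (psi.symm.trans e.1) z)) (psi.symm.trans e.1).source :=
      FV1_pull_smooth (psi.symm.trans e.1).open_source (hw.1 e)
        (n0 X psi h e.1 (FV1_mem e)).1 fun z hz => e.1.map_source (FV1_src.1 hz).2
    have h2 : ContDiffAt ℝ ∞ (mform w psi) y :=
      (h1.contDiffAt ((psi.symm.trans e.1).open_source.mem_nhds hye)).congr_of_eventuallyEq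
        (FV1_key_nhds n0 hw h e hye)
    exact h2.contDiffWithinAt
  · intro psi h psi' h' y hy
    set e : Ch X := chAt (psi.symm y) with he
    have hye : y ∈ (psi.symm.trans e.1).source :=
      FV1_src.2 ⟨(FV1_src.1 hy).1, mem_chart_source E4 (psi.symm y)⟩
    obtain ⟨h1, h2, h3⟩ := FV1_chain n0 h h' (FV1_mem e) hy hye
    rw [FV1_key n0 hw h e hye, FV1_key n0 hw h' e h1, FV1_comp, h2, h3]
  · classical
    refine ⟨fun e y => if y ∈ e.1.target then extDeriv (w e) y else 0, ⟨?_, ?_, ?_⟩, ?_⟩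
    · intro e
      refine (FV1_extDeriv_smooth e.1.open_target (hw.1 e)).congr fun y hy => ?_
      beta_reduce
      rw [if_pos hy]
    · intro e y hy
      beta_reduce
      rw [if_neg hy]
    · intro e e' y hy
      have hy1 : y ∈ e.1.target := (FV1_src.1 hy).1
      have hy2 : (e.1.symm.trans e'.1) y ∈ e'.1.target := e'.1.map_source (FV1_src.1 hy).2
      beta_reduce
      rw [if_pos hy1, if_pos hy2]
      have h1 : w e =ᶠ[𝓝 y] mform w e.1 := by
        filter_upwards [e.1.open_target.mem_nhds hy1] with z hz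
        exact (hself e z hz).symm
      rw [h1.extDeriv_eq, FV1_ext_pull n0 hw (FV1_mem e) e' hy]
    · intro e y hy
      beta_reduce
      rw [if_pos hy]
  · intro v hv hext psi h y hy
    set e : Ch X := chAt (psi.symm y) with he
    have hye : y ∈ (psi.symm.trans e.1).source :=
      FV1_src.2 ⟨hy, mem_chart_source E4 (psi.symm y)⟩
    have hs : (psi.symm.trans e.1) y ∈ e.1.target := e.1.map_source (FV1_src.1 hye).2
    rw [FV1_key n0 hv h e hye, FV1_ext_pull n0 hw h e hye, hext e _ hs]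

end NRF

end
end

section

/-!
# Module D, item FV2: differential forms as sections of the trivial bundle
-/

open scoped Manifold ContDiff Topology RealInnerProductSpace
open MeasureTheory Set

noncomputable section

namespace NRF

/-! ### Components -/

lemma FV2_comp_eq (f : E4 → Matrix (Fin 4) (Fin 4) ℝ) {k : ℕ} (w : E4 → E4 [⋀^Fin k]→L[ℝ] ℝ)
    (y : E4) : comp f w y = compP (f y) (w y) := rfl

lemma FV2_compP_add {k : ℕ} (F : Matrix (Fin 4) (Fin 4) ℝ) (a b : E4 [⋀^Fin k]→L[ℝ] ℝ) :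
    compP F (a + b) = compP F a + compP F b := by
  funext s
  unfold compP comp
  rw [Pi.add_apply]
  dsimp only
  split_ifs
  · rfl
  · simp

lemma FV2_compP_smul {k : ℕ} (F : Matrix (Fin 4) (Fin 4) ℝ) (r : ℝ)
    (a : E4 [⋀^Fin k]→L[ℝ] ℝ) : compP F (r • a) = r • compP F a := by
  funext s
  unfold compP comp
  rw [Pi.smul_apply]
  dsimp only
  split_ifs
  · rfl
  · simp

lemma FV2_comp_deg (f : E4 → Matrix (Fin 4) (Fin 4) ℝ) {k : ℕ}
    (w : E4 → E4 [⋀^Fin k]→L[ℝ] ℝ) (y : E4) :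
    (degP ℝ k).mulVec (comp f w y) = comp f w y := by
  funext s
  unfold degP
  rw [Matrix.mulVec_diagonal]
  unfold comp
  by_cases h : s.card = k
  · rw [if_pos h, one_mul]
  · rw [if_neg h, dif_neg h, zero_mul]

lemma FV2_comp_apply (f : E4 → Matrix (Fin 4) (Fin 4) ℝ) {k : ℕ}
    (w : E4 → E4 [⋀^Fin k]→L[ℝ] ℝ) (y : E4) (s : Lam) (h : s.card = k) :
    comp f w y s = ∑ r : Fin k → Fin 4, (∏ j, f y (r j) (s.orderEmbOfFin h j)) *
      w y (fun j => bv (r j)) := by
  unfold comp fvec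
  rw [dif_pos h]
  have h1 := (w y).toMultilinearMap.map_sum
    (fun (j : Fin k) (l : Fin 4) => f y l (s.orderEmbOfFin h j) • bv l)
  have h2 : (w y) (fun j => ∑ l, f y l (s.orderEmbOfFin h j) • bv l) =
      ∑ r : Fin k → Fin 4, (w y) (fun j => f y (r j) (s.orderEmbOfFin h j) • bv (r j)) := h1
  rw [h2]
  refine Finset.sum_congr rfl fun r _ => ?_
  have h3 := (w y).toMultilinearMap.map_smul_univ
    (fun j => f y (r j) (s.orderEmbOfFin h j)) (fun j => bv (r j))
  exact h3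

lemma FV2_comp_smooth {U : Set E4} {f : E4 → Matrix (Fin 4) (Fin 4) ℝ}
    (hf : ∀ i j, ContDiffOn ℝ ∞ (fun y => f y i j) U) {k : ℕ}
    {w : E4 → E4 [⋀^Fin k]→L[ℝ] ℝ} (hw : ContDiffOn ℝ ∞ w U) (s : Lam) :
    ContDiffOn ℝ ∞ (fun y => comp f w y s) U := by
  by_cases h : s.card = k
  · have e : (fun y => comp f w y s) = fun y => ∑ r : Fin k → Fin 4,
        (∏ j, f y (r j) (s.orderEmbOfFin h j)) * w y (fun j => bv (r j)) :=
      funext fun y => FV2_comp_apply f w y s h
    rw [e]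
    refine ContDiffOn.sum fun r _ => ?_
    refine ContDiffOn.mul (contDiffOn_prod fun j _ => hf _ _) ?_
    exact (ContinuousAlternatingMap.apply ℝ E4 ℝ (fun j => bv (r j))).contDiff.comp_contDiffOn hw
  · have e : (fun y => comp f w y s) = fun _ => 0 := by
      funext y
      unfold comp
      rw [dif_neg h]
    rw [e]
    exact contDiffOn_const

/-- The frame is invertible. -/
lemma FV2_frame_unit {U : Set E4} {G f : E4 → Matrix (Fin 4) (Fin 4) ℝ} (hf : FrameOn U G f)
    {y : E4} (hy : y ∈ U) : f y * (f y)⁻¹ = 1 :=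
  Matrix.mul_nonsing_inv _ (isUnit_iff_ne_zero.2 (hf.det_pos y hy).ne')

lemma FV2_compP_inj (cp : claimComp) {k : ℕ} {F : Matrix (Fin 4) (Fin 4) ℝ}
    (hF : F * F⁻¹ = 1) {a : E4 [⋀^Fin k]→L[ℝ] ℝ} (h : compP F a = 0) : a = 0 := by
  obtain ⟨cp1, -, cp3⟩ := cp
  obtain ⟨uc, h1, -⟩ := cp3 k
  have h2 : compP (F * F⁻¹) a = 0 := by
    rw [cp1, h, Matrix.mulVec_zero]
  rw [hF] at h2
  rw [← h1 a, h2, map_zero]

/-! ### Embedding -/

section
variable {X : Type} [TopologicalSpace X] [ChartedSpace E4 X] {g : Metric X} {n : ℕ}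
  (A : FAtlas X g n)

lemma FV2_cx_mem (x : X) : x ∈ (A.cx x).psi.source := (A.exists_index x).choose_spec.1

lemma FV2_emb_add (c : FChart X g) (x : X) (α β : Lam → ℝ) :
    A.emb c x (α + β) = A.emb c x α + A.emb c x β := by
  unfold FAtlas.emb
  rw [Matrix.mulVec_add, WithLp.toLp_add]

lemma FV2_emb_smul (c : FChart X g) (x : X) (r : ℝ) (α : Lam → ℝ) :
    A.emb c x (r • α) = r • A.emb c x α := by
  unfold FAtlas.emb
  rw [Matrix.mulVec_smul, WithLp.toLp_smul]

lemma FV2_mul_emb {c : FChart X g} {x : X} (hB : A.Bm c x * (A.Bm c x).transpose = 1)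
    (M : Matrix Lam Lam ℝ) (hM : A.mulV M x =
      Matrix.toEuclideanCLM (𝕜 := ℝ) ((A.Bm c x).transpose * M * A.Bm c x)) (α : Lam → ℝ) :
    A.mulV M x (A.emb c x α) = A.emb c x (M.mulVec α) := by
  rw [hM]
  unfold FAtlas.emb
  rw [Matrix.toEuclideanCLM_toLp, Matrix.mulVec_mulVec, Matrix.mulVec_mulVec,
    Matrix.mul_assoc _ (A.Bm c x), hB, Matrix.mul_one]

end

lemma FV2_mform_add {X : Type} [TopologicalSpace X] [ChartedSpace E4 X] {k : ℕ}
    (w w' : Ch X → E4 → E4 [⋀^Fin k]→L[ℝ] ℝ) (psi : OpenPartialHomeomorph X E4) (y : E4) :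
    mform (w + w') psi y = mform w psi y + mform w' psi y := rfl

lemma FV2_mform_smul {X : Type} [TopologicalSpace X] [ChartedSpace E4 X] {k : ℕ} (r : ℝ)
    (w : Ch X → E4 → E4 [⋀^Fin k]→L[ℝ] ℝ) (psi : OpenPartialHomeomorph X E4) (y : E4) :
    mform (r • w) psi y = r • mform w psi y := rfl

/-- Change of the chart. -/
lemma FV2_trans (m : claimMform) (cp : claimComp) {X : Type} [TopologicalSpace X]
    [ChartedSpace E4 X] [IsManifold (𝓡 4) ∞ X] {g : Metric X} {k : ℕ}
    {w : Ch X → E4 → E4 [⋀^Fin k]→L[ℝ] ℝ} (hw : w ∈ Forms X k) (c c' : FChart X g) {x : X}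
    (hx : x ∈ c.psi.source) (hx' : x ∈ c'.psi.source) :
    comp c'.f (mform w c'.psi) (c'.psi x) =
      (LamM (c.O c' x)).transpose.mulVec (comp c.f (mform w c.psi) (c.psi x)) := by
  obtain ⟨-, -, m3, -⟩ := m X k w hw
  have hs : c'.psi x ∈ (c'.psi.symm.trans c.psi).source := by
    rw [OpenPartialHomeomorph.trans_source]
    refine ⟨c'.psi.map_source hx', ?_⟩
    rw [mem_preimage, c'.psi.left_inv hx']
    exact hx
  have hφ : (c'.psi.symm.trans c.psi) (c'.psi x) = c.psi x := by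
    rw [OpenPartialHomeomorph.coe_trans, Function.comp_apply, c'.psi.left_inv hx']
  have h1 := m3 c'.psi c'.sm c.psi c.sm _ hs
  rw [hφ] at h1
  rw [FV2_comp_eq, FV2_comp_eq, h1, cp.2.1, ← cp.1]
  congr 1
  -- the frames
  unfold FChart.O frO
  rw [hφ]
  have h2 := FV2_frame_unit c.frame (c.psi.map_source hx)
  rw [← Matrix.mul_assoc, ← Matrix.mul_assoc, h2, Matrix.one_mul]
  rfl

/-- The section does not depend on the chart. -/
lemma FV2_emb_eq (m : claimMform) (cp : claimComp) (fc : claimFCh) (he : claimEmb)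
    (la : claimLamA) {X : Type} [TopologicalSpace X] [T2Space X] [CompactSpace X]
    [ChartedSpace E4 X] [IsManifold (𝓡 4) ∞ X] (hO : OrientedAtlas X) {g : Metric X} {n : ℕ}
    (A : FAtlas X g n) {k : ℕ} {w : Ch X → E4 → E4 [⋀^Fin k]→L[ℝ] ℝ} (hw : w ∈ Forms X k)
    (c c' : FChart X g) {x : X} (hx : x ∈ c.psi.source) (hx' : x ∈ c'.psi.source) :
    A.emb c' x (comp c'.f (mform w c'.psi) (c'.psi x)) =
      A.emb c x (comp c.f (mform w c.psi) (c.psi x)) := by
  rw [FV2_trans m cp hw c c' hx hx']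
  have h1 := ((he X hO g n A).1 c).2.2 c' x ⟨hx, hx'⟩
  obtain ⟨q1, q2, q3, -⟩ := (fc X hO g c c').1 x ⟨hx, hx'⟩
  obtain ⟨l1, l2, l3, -⟩ := la ℝ
  have q4 : c.O c' x * (c.O c' x).transpose = 1 := mul_eq_one_comm.1 q1
  unfold FAtlas.emb
  rw [h1, q3, Matrix.mulVec_mulVec, Matrix.transpose_mul, l3, Matrix.transpose_transpose,
    Matrix.mul_assoc, ← l3, ← l2, q4, l1, Matrix.mul_one]

/-- Item FV2. -/
theorem thm_ToV (m : claimMform) (cp : claimComp) (f4 : claimFC4) (fc : claimFCh)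
    (he : claimEmb) (_o : claimOpV1) (la : claimLamA) (ck : claimCk) : claimToV := by
  intro X _ _ _ _ _ hO g n A k w hw
  obtain ⟨m1, m2, m3, -, m5⟩ := m X k w hw
  have e1 := (he X hO g n A).1
  have e2 := (he X hO g n A).2.1
  have e3 := (he X hO g n A).2.2.1
  have key : ∀ c : FChart X g, ∀ x ∈ c.psi.source,
      A.toV w x = A.emb c x (comp c.f (mform w c.psi) (c.psi x)) := fun c x hx =>
    FV2_emb_eq m cp fc he la hO A hw c (A.cx x) hx (FV2_cx_mem A x)
  have keyloc : ∀ c : FChart X g, ∀ x ∈ c.psi.source,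
      A.loc c (A.toV w) (c.psi x) = comp c.f (mform w c.psi) (c.psi x) := by
    intro c x hx
    unfold FAtlas.loc
    rw [c.psi.left_inv hx, key c x hx]
    unfold FAtlas.emb
    rw [WithLp.ofLp_toLp, Matrix.mulVec_mulVec, (e1 c).1 x hx, Matrix.one_mulVec]
  have hmul : ∀ M, LamInv M → ∀ x, A.mulV M x (A.toV w x) =
      A.emb (A.cx x) x (M.mulVec (comp (A.cx x).f (mform w (A.cx x).psi)
        ((A.cx x).psi x))) := by
    intro M hM x
    have hx := FV2_cx_mem A x
    exact FV2_mul_emb A ((e1 (A.cx x)).1 x hx) M ((e3 M hM).1 (A.cx x) x hx).1 _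
  refine ⟨fun c x hx => ⟨key c x hx, keyloc c x hx⟩, ⟨?_, ?_⟩, ?_, ?_, ?_, ?_, ?_⟩
  · -- smoothness
    intro x
    set c := A.cx x with hc
    have hx : x ∈ c.psi.source := FV2_cx_mem A x
    refine (ck X (VV n) ∞ (A.toV w) le_rfl).2 c.psi c.sm x hx ?_
    have hsm : ContDiffOn ℝ ∞ (fun z => A.emb c (c.psi.symm z)
        (comp c.f (mform w c.psi) z)) c.psi.target := by
      rw [contDiffOn_euclidean]
      intro q
      have e4 : (fun z => (A.emb c (c.psi.symm z) (comp c.f (mform w c.psi) z)) q) =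
          fun z => ∑ s, A.Bm c (c.psi.symm z) s q * comp c.f (mform w c.psi) z s := by
        funext z
        rfl
      rw [e4]
      refine ContDiffOn.sum fun s _ => ?_
      exact ((e1 c).2.1 s q).mul (FV2_comp_smooth c.frame.smooth (m2 c.psi c.sm) s)
    have h5 := hsm.contDiffAt (c.psi.open_target.mem_nhds (c.psi.map_source hx))
    refine h5.congr_of_eventuallyEq ?_
    filter_upwards [c.psi.open_target.mem_nhds (c.psi.map_source hx)] with z hz
    rw [key c (c.psi.symm z) (c.psi.map_target hz), c.psi.right_inv hz]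
  · intro x
    unfold FAtlas.pV
    rw [hmul 1 e2.1 x, Matrix.one_mulVec]
    rfl
  · intro x
    rw [hmul (degP ℝ k) (e2.2.2.2 k) x, FV2_comp_deg]
    rfl
  · intro w' hw'
    funext x
    rw [Pi.add_apply]
    unfold FAtlas.toV
    rw [FV2_comp_eq, FV2_comp_eq, FV2_comp_eq, FV2_mform_add, FV2_compP_add, FV2_emb_add]
  · intro r
    funext x
    rw [Pi.smul_apply]
    unfold FAtlas.toV
    rw [FV2_comp_eq, FV2_comp_eq, FV2_mform_smul, FV2_compP_smul, FV2_emb_smul]
  · -- injectivity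
    intro h0
    funext e y
    by_cases hy : y ∈ e.1.target
    · have hesm : e.1 ∈ SmCh X := IsManifold.subset_maximalAtlas e.2
      set x := e.1.symm y with hx
      have hxs : x ∈ e.1.source := e.1.map_target hy
      set c := A.cx x with hc
      have hxc : x ∈ c.psi.source := FV2_cx_mem A x
      have h2 : comp c.f (mform w c.psi) (c.psi x) = 0 := by
        rw [← keyloc c x hxc, h0]
        unfold FAtlas.loc
        rw [Pi.zero_apply, WithLp.ofLp_zero, Matrix.mulVec_zero]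
      rw [FV2_comp_eq] at h2
      have h3 := FV2_compP_inj cp (FV2_frame_unit c.frame (c.psi.map_source hxc)) h2
      have hs : y ∈ (e.1.symm.trans c.psi).source := by
        rw [OpenPartialHomeomorph.trans_source]
        exact ⟨hy, hxc⟩
      have h4 := m3 e.1 hesm c.psi c.sm y hs
      rw [m1 e y hy, OpenPartialHomeomorph.coe_trans, Function.comp_apply, ← hx, h3] at h4
      rw [h4]
      ext v
      rfl
    · exact hw.2.1 e y hy
  · -- exterior derivative
    intro v hv hwv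
    funext x
    change A.emb (A.cx x) x _ = A.emb (A.cx x) x _
    set c := A.cx x with hc
    have hx : x ∈ c.psi.source := FV2_cx_mem A x
    have hz := c.psi.map_source hx
    congr 1
    have hloc : ∀ᶠ z in 𝓝 (c.psi x), A.loc c (A.toV w) z = comp c.f (mform w c.psi) z := by
      filter_upwards [c.psi.open_target.mem_nhds hz] with z hz'
      have := keyloc c (c.psi.symm z) (c.psi.map_target hz')
      rwa [c.psi.right_inv hz'] at this
    have h6 : dFC c.G c.f (A.loc c (A.toV w)) (c.psi x) =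
        dFC c.G c.f (comp c.f (mform w c.psi)) (c.psi x) := by
      unfold dFC
      refine Finset.sum_congr rfl fun i _ => Finset.sum_congr rfl fun a _ => ?_
      have h7 : nabC c.G c.f i (A.loc c (A.toV w)) (c.psi x) =
          nabC c.G c.f i (comp c.f (mform w c.psi)) (c.psi x) := by
        unfold nabC
        rw [hloc.self_of_nhds]
        congr 1
        funext s
        unfold pd
        have h8 : (fun z => A.loc c (A.toV w) z s) =ᶠ[𝓝 (c.psi x)]
            fun z => comp c.f (mform w c.psi) z s := by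
          filter_upwards [hloc] with z hz'
          rw [hz']
        rw [h8.fderiv_eq]
      rw [h7]
    have hd : DifferentiableAt ℝ (mform w c.psi) (c.psi x) :=
      ((m2 c.psi c.sm).contDiffAt (c.psi.open_target.mem_nhds hz)).differentiableAt (by simp)
    rw [h6, ← f4 c.psi.target c.G c.f c.frame k (mform w c.psi) (c.psi x) hz hd,
      FV2_comp_eq, FV2_comp_eq, m5 v hv hwv c.psi c.sm (c.psi x) hz]

end NRF

end
end

section

/-!
# FV3: every section of degree `k` of the bundle of forms comes from a `k`-form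
-/

open scoped Manifold ContDiff Topology RealInnerProductSpace
open MeasureTheory Set

noncomputable section

namespace NRF

theorem FV3_comp_eq {k : ℕ} (f : E4 → Matrix (Fin 4) (Fin 4) ℝ) (w : E4 → E4 [⋀^Fin k]→L[ℝ] ℝ)
    (y : E4) : comp f w y = compP (f y) (w y) := rfl

theorem FV3_smooth_LamM {U : Set E4} {F : E4 → Matrix (Fin 4) (Fin 4) ℝ}
    (hF : ∀ i j, ContDiffOn ℝ ∞ (fun y => F y i j) U) (s t : Lam) :
    ContDiffOn ℝ ∞ (fun y => LamM (F y) s t) U := by
  unfold LamM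
  simp only [Matrix.of_apply]
  by_cases h : s.card = t.card
  · simp only [dif_pos h]
    simp only [Matrix.det_apply']
    refine ContDiffOn.sum fun σ _ => ?_
    refine ContDiffOn.mul contDiffOn_const ?_
    refine contDiffOn_prod fun i _ => ?_
    exact hF _ _
  · simp only [dif_neg h]
    exact contDiffOn_const

theorem FV3_compP (cp : claimComp) {k : ℕ} (F : Matrix (Fin 4) (Fin 4) ℝ)
    (w : E4 [⋀^Fin k]→L[ℝ] ℝ) : compP F w = (LamM F).transpose.mulVec (compP 1 w) := by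
  have h := cp.1 k 1 F w
  rwa [one_mul] at h

theorem FV3_LamM_inv (la : claimLamA) {F : Matrix (Fin 4) (Fin 4) ℝ} (hF : 0 < F.det) :
    LamM F⁻¹ * LamM F = 1 ∧ LamM F * LamM F⁻¹ = 1 := by
  have hu : IsUnit F.det := (ne_of_gt hF).isUnit
  constructor
  · rw [← (la ℝ).2.1, Matrix.nonsing_inv_mul F hu, (la ℝ).1]
  · rw [← (la ℝ).2.1, Matrix.mul_nonsing_inv F hu, (la ℝ).1]

theorem FV3_compP_inj (cp : claimComp) (la : claimLamA) {k : ℕ} {F : Matrix (Fin 4) (Fin 4) ℝ}
    (hF : 0 < F.det) {w w' : E4 [⋀^Fin k]→L[ℝ] ℝ} (h : compP F w = compP F w') : w = w' := by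
  obtain ⟨uc, huc, -⟩ := cp.2.2 k
  rw [FV3_compP cp F w, FV3_compP cp F w'] at h
  have h1 := congrArg (fun v => (LamM F⁻¹).transpose.mulVec v) h
  simp only [Matrix.mulVec_mulVec, ← Matrix.transpose_mul, (FV3_LamM_inv la hF).2,
    Matrix.transpose_one, Matrix.one_mulVec] at h1
  rw [← huc w, ← huc w', h1]

theorem FV3_degP_transpose (k : ℕ) : (degP ℝ k).transpose = degP ℝ k :=
  Matrix.diagonal_transpose _

/-- The value of the form with given frame components of degree `k`. -/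
theorem FV3_compP_uc (cp : claimComp) (la : claimLamA) {k : ℕ} {F : Matrix (Fin 4) (Fin 4) ℝ}
    (hF : 0 < F.det) (uc : (Lam → ℝ) →ₗ[ℝ] (E4 [⋀^Fin k]→L[ℝ] ℝ))
    (huc : ∀ α, compP 1 (uc α) = (degP ℝ k).mulVec α) (β : Lam → ℝ)
    (hβ : (degP ℝ k).mulVec β = β) :
    compP F (uc ((LamM F⁻¹).transpose.mulVec β)) = β := by
  rw [FV3_compP cp F, huc, Matrix.mulVec_mulVec, Matrix.mulVec_mulVec]
  have h : (LamM F).transpose * (degP ℝ k * (LamM F⁻¹).transpose) = degP ℝ k := by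
    rw [← FV3_degP_transpose k, ← Matrix.transpose_mul, ← Matrix.transpose_mul,
      (la ℝ).2.2.2.2.1, Matrix.mul_assoc, (FV3_LamM_inv la hF).1, Matrix.mul_one]
  rw [← Matrix.mul_assoc] at *
  rw [h, hβ]

section

variable {X : Type} [TopologicalSpace X] [ChartedSpace E4 X] {g : Metric X} {n : ℕ}

theorem FV3_smooth_loc [T2Space X] [CompactSpace X] [IsManifold (𝓡 4) ∞ X]
    (he : claimEmb) (hO : OrientedAtlas X) (A : FAtlas X g n)
    (c : FChart X g) {u : X → VV n} (hu : CkX ∞ u) (s : Lam) :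
    ContDiffOn ℝ ∞ (fun z => A.loc c u z s) c.psi.target := by
  have h1 := ((he X hO g n A).1 c).2.1
  have h2 : ∀ q, ContDiffOn ℝ ∞ (fun z => u (c.psi.symm z) q) c.psi.target := by
    intro q z hz
    have hx := c.psi.map_target hz
    have h3 := hu (c.psi.symm z) c.psi c.sm hx
    rw [c.psi.right_inv hz] at h3
    exact ((contDiffAt_euclidean.mp h3) q).contDiffWithinAt
  change ContDiffOn ℝ ∞ (fun z => ∑ q, A.Bm c (c.psi.symm z) s q * u (c.psi.symm z) q) c.psi.target
  exact ContDiffOn.sum fun q _ => (h1 s q).mul (h2 q)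

end

theorem thm_FromV (t : claimToV) (cp : claimComp) (fc : claimFCh) (he : claimEmb)
    (f1 : claimFC1) (n1 : claimN1) (la : claimLamA) : claimFromV := by
  intro X _ _ _ _ _ hO g n A k u hu hdeg
  obtain ⟨uc, huc1, huc2⟩ := cp.2.2 k
  -- charts with frames
  have hmax : ∀ e : Ch X, e.1 ∈ SmCh X := fun e => IsManifold.subset_maximalAtlas e.2
  have hfr : ∀ e : Ch X, ∃ f, FrameOn e.1.target (g.mcoef e.1) f := fun e =>
    f1 _ _ ((n1 X g).2.1 e.1 (hmax e))
  choose fe hfe using hfr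
  let ce : Ch X → FChart X g := fun e =>
    { psi := e.1, f := fe e, sm := hmax e, pos := fun e' y hy => hO e e' y hy, frame := hfe e }
  have hdetp : ∀ e : Ch X, ∀ y ∈ e.1.target, 0 < (fe e y).det := fun e y hy => (hfe e).det_pos y hy
  classical
  let w : Ch X → E4 → E4 [⋀^Fin k]→L[ℝ] ℝ := fun e y =>
    if y ∈ e.1.target then uc ((LamM (fe e y)⁻¹).transpose.mulVec (A.loc (ce e) u y)) else 0
  have hw : ∀ e : Ch X, ∀ y ∈ e.1.target,
      w e y = uc ((LamM (fe e y)⁻¹).transpose.mulVec (A.loc (ce e) u y)) := fun e y hy => if_pos hy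
  -- degree
  have hM := ((he X hO g n A).2.2.1 (degP ℝ k) ((he X hO g n A).2.1.2.2.2 k)).1
  have hlocdeg : ∀ c : FChart X g, ∀ z ∈ c.psi.target,
      (degP ℝ k).mulVec (A.loc c u z) = A.loc c u z := by
    intro c z hz
    have h1 := (hM c (c.psi.symm z) (c.psi.map_target hz)).2 u
    rw [c.psi.right_inv hz] at h1
    have h2 : (fun y => A.mulV (degP ℝ k) y (u y)) = u := funext hdeg
    rw [h2] at h1
    exact h1.symm
  have hcomp : ∀ e : Ch X, ∀ y ∈ e.1.target, compP (fe e y) (w e y) = A.loc (ce e) u y := by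
    intro e y hy
    rw [hw e y hy]
    exact FV3_compP_uc cp la (hdetp e y hy) uc huc2 _ (hlocdeg (ce e) y hy)
  -- the transformation law
  have htr : ∀ e e' : Ch X, ∀ y ∈ (e.1.symm.trans e'.1).source,
      w e y = (w e' ((e.1.symm.trans e'.1) y)).compContinuousLinearMap
        (fderiv ℝ (e.1.symm.trans e'.1) y) := by
    intro e e' y hy
    have hy1 : y ∈ e.1.target := by
      have := hy.1
      simpa using this
    have hx' : e.1.symm y ∈ e'.1.source := hy.2
    have hx : e.1.symm y ∈ e.1.source := e.1.map_target hy1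
    have hy' : (e.1.symm.trans e'.1) y ∈ e'.1.target := e'.1.map_source hx'
    refine FV3_compP_inj cp la (hdetp e y hy1) ?_
    rw [hcomp e y hy1, cp.2.1 k (fe e y)]
    have hO1 := ((fc X hO g (ce e') (ce e)).1 (e.1.symm y) ⟨hx', hx⟩).1
    have hB := ((he X hO g n A).1 (ce e)).2.2 (ce e') (e.1.symm y) ⟨hx, hx'⟩
    have hOdef : (ce e').O (ce e) (e.1.symm y) =
        (fe e' ((e.1.symm.trans e'.1) y))⁻¹ * jacM (e.1.symm.trans e'.1) y * fe e y := by
      change (fe e' ((e.1.symm.trans e'.1) (e.1 (e.1.symm y))))⁻¹ *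
        jacM (e.1.symm.trans e'.1) (e.1 (e.1.symm y)) * fe e (e.1 (e.1.symm y)) = _
      rw [e.1.right_inv hy1]
    have hJ : (Matrix.of fun i j => (fderiv ℝ (e.1.symm.trans e'.1) y (bv j)) i) * fe e y =
        fe e' ((e.1.symm.trans e'.1) y) * (ce e').O (ce e) (e.1.symm y) := by
      rw [hOdef, Matrix.mul_assoc, ← Matrix.mul_assoc (fe e' _),
        Matrix.mul_nonsing_inv _ (ne_of_gt (hdetp e' _ hy')).isUnit, Matrix.one_mul]
      rfl
    rw [hJ, cp.1, hcomp e' _ hy']
    change (A.Bm (ce e) (e.1.symm y)).mulVec (WithLp.ofLp (u (e.1.symm y))) =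
      (LamM ((ce e').O (ce e) (e.1.symm y))).transpose.mulVec
        ((A.Bm (ce e') (e'.1.symm (e'.1 (e.1.symm y)))).mulVec
          (WithLp.ofLp (u (e'.1.symm (e'.1 (e.1.symm y))))))
    rw [e'.1.left_inv hx', hB, Matrix.mulVec_mulVec, ← Matrix.mul_assoc,
      ← (la ℝ).2.2.1, ← (la ℝ).2.1, hO1, (la ℝ).1, Matrix.one_mul]
  -- smoothness
  have hsm : ∀ e : Ch X, ContDiffOn ℝ ∞ (w e) e.1.target := by
    intro e
    have hinv : ∀ y ∈ e.1.target, (fe e y)⁻¹ = (fe e y).transpose * g.mcoef e.1 y := fun y hy =>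
      Matrix.inv_eq_left_inv ((hfe e).orth y hy)
    have h1 : ∀ i j, ContDiffOn ℝ ∞
        (fun y => ((fe e y).transpose * g.mcoef e.1 y) i j) e.1.target := by
      intro i j
      simp only [Matrix.mul_apply, Matrix.transpose_apply]
      exact ContDiffOn.sum fun l _ => ((hfe e).smooth l i).mul ((hfe e).met.smooth l j)
    have h2 := FV3_smooth_LamM h1
    have h3 : ContDiffOn ℝ ∞ (fun y => (LamM ((fe e y).transpose * g.mcoef e.1 y)).transpose.mulVec
        (A.loc (ce e) u y)) e.1.target := by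
      rw [contDiffOn_pi]
      intro s
      simp only [Matrix.mulVec, dotProduct, Matrix.transpose_apply]
      exact ContDiffOn.sum fun q _ => (h2 q s).mul (FV3_smooth_loc he hO A (ce e) hu.1 q)
    have h4 : ContDiffOn ℝ ∞ (fun y => (LinearMap.toContinuousLinearMap uc)
        ((LamM ((fe e y).transpose * g.mcoef e.1 y)).transpose.mulVec
          (A.loc (ce e) u y))) e.1.target :=
      (LinearMap.toContinuousLinearMap uc).contDiff.comp_contDiffOn h3
    refine h4.congr ?_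
    intro y hy
    rw [hw e y hy, hinv y hy]
    rfl
  have hmem : w ∈ Forms X k := ⟨hsm, fun e y hy => if_neg hy, htr⟩
  refine ⟨w, hmem, ?_⟩
  funext x
  have hx : x ∈ (chAt x).1.source := mem_chart_source E4 x
  rw [((t X hO g n A k w hmem).1 (ce (chAt x)) x hx).1, FV3_comp_eq]
  have h5 : mform w (chAt x).1 ((chAt x).1 x) = w (chAt x) ((chAt x).1 x) := by
    refine (htr (chAt x) (chAt ((chAt x).1.symm ((chAt x).1 x))) ((chAt x).1 x) ?_).symm
    refine ⟨?_, ?_⟩
    · simpa using (chAt x).1.map_source hx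
    · exact mem_chart_source E4 _
  have h6 : compP (fe (chAt x) ((chAt x).1 x)) (w (chAt x) ((chAt x).1 x)) =
      A.loc (ce (chAt x)) u ((chAt x).1 x) := hcomp _ _ ((chAt x).1.map_source hx)
  change A.emb (ce (chAt x)) x (compP (fe (chAt x) ((chAt x).1 x))
    (mform w (chAt x).1 ((chAt x).1 x))) = u x
  rw [h5, h6]
  have h7 := (((he X hO g n A).2.2.1 1 (he X hO g n A).2.1.1).1 (ce (chAt x)) x hx).1
  have h8 : A.mulV 1 x (u x) = u x := hu.2 x
  rw [h7] at h8
  refine Eq.trans ?_ h8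
  change WithLp.toLp 2 ((A.Bm (ce (chAt x)) x).transpose.mulVec
    ((A.Bm (ce (chAt x)) ((chAt x).1.symm ((chAt x).1 x))).mulVec
      (WithLp.ofLp (u ((chAt x).1.symm ((chAt x).1 x)))))) = _
  rw [(chAt x).1.left_inv hx, Matrix.mulVec_mulVec, Matrix.mul_one]
  rfl

end NRF

end
end

section

/-!
# FV4: the intersection form as an `L²` product
-/

open scoped Manifold ContDiff Topology RealInnerProductSpace
open MeasureTheory Set

noncomputable section

namespace NRF

/-! ### The Clifford volume element on forms of degree 2 -/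

/-- Entries of `M * clfZ b`. -/
def FV4_cl (M : Lam → Lam → ℤ) (b : Fin 4) : Lam → Lam → ℤ := fun s t =>
  if b ∉ t then M s (insert b t) * (-1) ^ (t.filter (· < b)).card
  else -(M s (t.erase b) * (-1) ^ ((t.erase b).filter (· < b)).card)

/-- Sign in the volume element. -/
def FV4_sg (s : Lam) : ℤ :=
  if s = {0, 1} ∨ s = {0, 3} ∨ s = {1, 2} ∨ s = {2, 3} then -1
  else if s = {0, 2} ∨ s = {1, 3} then 1 else 0

theorem FV4_clf (R : Type) [CommRing R] (M : Matrix Lam Lam ℤ) (b : Fin 4) :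
    M.map (Int.cast : ℤ → R) * clf R b =
      (Matrix.of (FV4_cl (fun s t => M s t) b)).map (Int.cast : ℤ → R) := by
  have h1 : clf R b = (epsZ b - (epsZ b).transpose).map (Int.cast : ℤ → R) := by
    ext s t
    simp [clf, eps, iot]
  have h2 : M.map (Int.cast : ℤ → R) * (epsZ b - (epsZ b).transpose).map (Int.cast : ℤ → R) =
      (M * (epsZ b - (epsZ b).transpose)).map (Int.cast : ℤ → R) :=
    (Matrix.map_mul (f := Int.castRingHom R)).symm
  rw [h1, h2]
  congr 1
  ext s t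
  rw [mul_sub, Matrix.sub_apply, FR3_mul_epsZ, FR3_mul_iotZ, Matrix.of_apply, FV4_cl]
  by_cases hb : b ∈ t
  · rw [if_neg (not_not.2 hb), if_pos hb, if_neg (not_not.2 hb), zero_sub]
  · rw [if_pos hb, if_neg hb, if_pos hb, sub_zero]

theorem FV4_gam (R : Type) [CommRing R] : gam R = (Matrix.of (FV4_cl (FV4_cl (FV4_cl (FV4_cl
    (fun s t => if s = t then 1 else 0) 0) 1) 2) 3)).map (Int.cast : ℤ → R) := by
  have h0 : (1 : Matrix Lam Lam R) = (Matrix.of fun s t : Lam =>
      if s = t then (1 : ℤ) else 0).map (Int.cast : ℤ → R) := by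
    ext s t
    rw [Matrix.one_apply, Matrix.map_apply, Matrix.of_apply]
    split_ifs <;> simp
  rw [gam, ← one_mul (clf R 0), h0, FV4_clf, FV4_clf, FV4_clf, FV4_clf]
  rfl

theorem FV4_dec : ∀ s t : Lam, s.card = 2 → FV4_cl (FV4_cl (FV4_cl (FV4_cl
    (fun s t => if s = t then 1 else 0) 0) 1) 2) 3 s t = if t = sᶜ then FV4_sg s else 0 := by
  decide +kernel

theorem FV4_gam_apply (s t : Lam) (hs : s.card = 2) :
    gam ℝ s t = if t = sᶜ then (FV4_sg s : ℝ) else 0 := by
  rw [FV4_gam, Matrix.map_apply, Matrix.of_apply, FV4_dec s t hs]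
  split_ifs <;> simp

theorem FV4_sum (f : Lam → ℝ) (hf : ∀ s : Lam, s.card ≠ 2 → f s = 0) :
    ∑ s, f s = f {0, 1} + f {0, 2} + f {0, 3} + f {1, 2} + f {1, 3} + f {2, 3} := by
  have h1 : ∑ s ∈ ({{0, 1}, {0, 2}, {0, 3}, {1, 2}, {1, 3}, {2, 3}} : Finset Lam), f s =
      ∑ s, f s := by
    refine Finset.sum_subset (Finset.subset_univ _) fun s _ hs => hf s fun h2 => hs ?_
    revert s
    decide +kernel
  rw [← h1, Finset.sum_insert (by decide), Finset.sum_insert (by decide),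
    Finset.sum_insert (by decide), Finset.sum_insert (by decide), Finset.sum_insert (by decide),
    Finset.sum_singleton]
  ring

theorem FV4_quad (α : Lam → ℝ) (hα : ∀ s : Lam, s.card ≠ 2 → α s = 0) :
    -(α ⬝ᵥ (gam ℝ).mulVec α) = 2 * (α {0, 1} * α {2, 3} - α {0, 2} * α {1, 3} +
      α {0, 3} * α {1, 2}) := by
  have h1 : ∀ s : Lam, s.card = 2 → (gam ℝ).mulVec α s = FV4_sg s * α sᶜ := by
    intro s hs
    unfold Matrix.mulVec dotProduct
    rw [Finset.sum_eq_single sᶜ]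
    · change gam ℝ s sᶜ * α sᶜ = _
      rw [FV4_gam_apply s _ hs, if_pos rfl]
    · intro t _ ht
      change gam ℝ s t * α t = 0
      rw [FV4_gam_apply s _ hs, if_neg ht, zero_mul]
    · intro h
      exact absurd (Finset.mem_univ _) h
  unfold dotProduct
  rw [FV4_sum _ fun s hs => by rw [hα s hs, zero_mul]]
  rw [h1 {0, 1} (by decide), h1 {0, 2} (by decide), h1 {0, 3} (by decide), h1 {1, 2} (by decide),
    h1 {1, 3} (by decide), h1 {2, 3} (by decide)]
  have c1 : ({0, 1} : Lam)ᶜ = {2, 3} := by decide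
  have c2 : ({0, 2} : Lam)ᶜ = {1, 3} := by decide
  have c3 : ({0, 3} : Lam)ᶜ = {1, 2} := by decide
  have c4 : ({1, 2} : Lam)ᶜ = {0, 3} := by decide
  have c5 : ({1, 3} : Lam)ᶜ = {0, 2} := by decide
  have c6 : ({2, 3} : Lam)ᶜ = {0, 1} := by decide
  have s1 : FV4_sg {0, 1} = -1 := by decide
  have s2 : FV4_sg {0, 2} = 1 := by decide
  have s3 : FV4_sg {0, 3} = -1 := by decide
  have s4 : FV4_sg {1, 2} = -1 := by decide
  have s5 : FV4_sg {1, 3} = 1 := by decide
  have s6 : FV4_sg {2, 3} = -1 := by decide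
  rw [c1, c2, c3, c4, c5, c6, s1, s2, s3, s4, s5, s6]
  push_cast
  ring

/-! ### `wedge22` and linear maps -/

theorem FV4_add (a : E4 [⋀^Fin 2]→L[ℝ] ℝ) (x x' y : E4) :
    a ![x + x', y] = a ![x, y] + a ![x', y] :=
  a.toAlternatingMap.map_vecCons_add ![y] x x'

theorem FV4_smul (a : E4 [⋀^Fin 2]→L[ℝ] ℝ) (c : ℝ) (x y : E4) :
    a ![c • x, y] = c * a ![x, y] :=
  a.toAlternatingMap.map_vecCons_smul ![y] c x

theorem FV4_swap (a : E4 [⋀^Fin 2]→L[ℝ] ℝ) (x y : E4) : a ![x, y] = -a ![y, x] := by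
  have h := a.toAlternatingMap.map_swap ![y, x] (i := 0) (j := 1) (by decide)
  have h2 : (![y, x] : Fin 2 → E4) ∘ Equiv.swap (0 : Fin 2) 1 = ![x, y] := by
    funext i
    fin_cases i <;> simp
  rw [h2] at h
  exact h

theorem FV4_self (a : E4 [⋀^Fin 2]→L[ℝ] ℝ) (x : E4) : a ![x, x] = 0 := by
  have := FV4_swap a x x
  linarith

theorem FV4_lin (a : E4 [⋀^Fin 2]→L[ℝ] ℝ) (u v : E4) :
    a ![u, v] = u 0 * a ![bv 0, v] + u 1 * a ![bv 1, v] + u 2 * a ![bv 2, v] +
      u 3 * a ![bv 3, v] := by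
  conv_lhs => rw [B1.vec_eq_sum u]
  rw [Fin.sum_univ_four, FV4_add, FV4_add, FV4_add, FV4_smul, FV4_smul, FV4_smul, FV4_smul]

theorem FV4_expand (a : E4 [⋀^Fin 2]→L[ℝ] ℝ) (u v : E4) :
    a ![u, v] = (u 0 * v 1 - u 1 * v 0) * a ![bv 0, bv 1] +
      (u 0 * v 2 - u 2 * v 0) * a ![bv 0, bv 2] + (u 0 * v 3 - u 3 * v 0) * a ![bv 0, bv 3] +
      (u 1 * v 2 - u 2 * v 1) * a ![bv 1, bv 2] + (u 1 * v 3 - u 3 * v 1) * a ![bv 1, bv 3] +
      (u 2 * v 3 - u 3 * v 2) * a ![bv 2, bv 3] := by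
  have h : ∀ i : Fin 4, a ![bv i, v] = -(v 0 * a ![bv 0, bv i] + v 1 * a ![bv 1, bv i] +
      v 2 * a ![bv 2, bv i] + v 3 * a ![bv 3, bv i]) := fun i => by
    rw [FV4_swap, FV4_lin]
  rw [FV4_lin, h 0, h 1, h 2, h 3, FV4_self, FV4_self, FV4_self, FV4_self,
    FV4_swap a (bv 1) (bv 0), FV4_swap a (bv 2) (bv 0), FV4_swap a (bv 3) (bv 0),
    FV4_swap a (bv 2) (bv 1), FV4_swap a (bv 3) (bv 1), FV4_swap a (bv 3) (bv 2)]
  ring

theorem FV4_det4 (u : Fin 4 → E4) : (Matrix.of fun i k => (u i) k : Matrix (Fin 4) (Fin 4) ℝ).det =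
    (u 0 0 * u 1 1 - u 0 1 * u 1 0) * (u 2 2 * u 3 3 - u 2 3 * u 3 2) -
    (u 0 0 * u 1 2 - u 0 2 * u 1 0) * (u 2 1 * u 3 3 - u 2 3 * u 3 1) +
    (u 0 0 * u 1 3 - u 0 3 * u 1 0) * (u 2 1 * u 3 2 - u 2 2 * u 3 1) +
    (u 0 1 * u 1 2 - u 0 2 * u 1 1) * (u 2 0 * u 3 3 - u 2 3 * u 3 0) -
    (u 0 1 * u 1 3 - u 0 3 * u 1 1) * (u 2 0 * u 3 2 - u 2 2 * u 3 0) +
    (u 0 2 * u 1 3 - u 0 3 * u 1 2) * (u 2 0 * u 3 1 - u 2 1 * u 3 0) := by
  rw [Matrix.det_succ_row_zero]
  simp [Fin.sum_univ_succ, Matrix.det_fin_three, Matrix.submatrix, Fin.succAbove]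
  ring

theorem FV4_wedge (a b : E4 [⋀^Fin 2]→L[ℝ] ℝ) (u : Fin 4 → E4) :
    a ![u 0, u 1] * b ![u 2, u 3] - a ![u 0, u 2] * b ![u 1, u 3] + a ![u 0, u 3] * b ![u 1, u 2] +
      a ![u 1, u 2] * b ![u 0, u 3] - a ![u 1, u 3] * b ![u 0, u 2] +
      a ![u 2, u 3] * b ![u 0, u 1] =
    (Matrix.of fun i k => (u i) k : Matrix (Fin 4) (Fin 4) ℝ).det * wedge22 a b := by
  rw [FV4_det4, wedge22, FV4_expand a (u 0) (u 1), FV4_expand a (u 0) (u 2),
    FV4_expand a (u 0) (u 3), FV4_expand a (u 1) (u 2), FV4_expand a (u 1) (u 3),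
    FV4_expand a (u 2) (u 3), FV4_expand b (u 0) (u 1), FV4_expand b (u 0) (u 2),
    FV4_expand b (u 0) (u 3), FV4_expand b (u 1) (u 2), FV4_expand b (u 1) (u 3),
    FV4_expand b (u 2) (u 3)]
  ring

theorem FV4_comp_vec (a : E4 [⋀^Fin 2]→L[ℝ] ℝ) (L : E4 →L[ℝ] E4) (x y : E4) :
    (a.compContinuousLinearMap L) ![x, y] = a ![L x, L y] := by
  change a (fun i => L (![x, y] i)) = _
  congr 1
  funext i
  fin_cases i <;> rfl

theorem FV4_wedge_comp (a b : E4 [⋀^Fin 2]→L[ℝ] ℝ) (L : E4 →L[ℝ] E4) :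
    wedge22 (a.compContinuousLinearMap L) (b.compContinuousLinearMap L) = L.det * wedge22 a b := by
  have h := FV4_wedge a b (fun i => L (bv i))
  rw [L1_det L] at h
  rw [← h, wedge22]
  simp only [FV4_comp_vec]

/-! ### Components in a frame -/

theorem FV4_ord (i j : Fin 4) (hij : i < j) (h : ({i, j} : Finset (Fin 4)).card = 2) (k : Fin 2) :
    ({i, j} : Finset (Fin 4)).orderEmbOfFin h k = ![i, j] k := by
  have h1 := Finset.orderEmbOfFin_unique h (f := ![i, j]) (by
    intro x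
    fin_cases x <;> simp) (by
    intro x y hxy
    fin_cases x <;> fin_cases y <;> simp_all)
  rw [← h1]

theorem FV4_comp (f : E4 → Matrix (Fin 4) (Fin 4) ℝ) (w : E4 → E4 [⋀^Fin 2]→L[ℝ] ℝ) (y : E4)
    (i j : Fin 4) (hij : i < j) : comp f w y {i, j} = w y ![fvec f i y, fvec f j y] := by
  have h : ({i, j} : Finset (Fin 4)).card = 2 := Finset.card_pair hij.ne
  unfold comp
  rw [dif_pos h]
  congr 1
  funext k
  rw [FV4_ord i j hij h]
  fin_cases k <;> rfl

theorem FV4_comp_quad (f : E4 → Matrix (Fin 4) (Fin 4) ℝ) (w : E4 → E4 [⋀^Fin 2]→L[ℝ] ℝ)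
    (y : E4) : -(comp f w y ⬝ᵥ (gam ℝ).mulVec (comp f w y)) =
      (f y).det * wedge22 (w y) (w y) := by
  have h0 : ∀ s : Lam, s.card ≠ 2 → comp f w y s = 0 := fun s hs => by
    unfold comp
    rw [dif_neg hs]
  have h := FV4_wedge (w y) (w y) (fun i => fvec f i y)
  have h2 : (Matrix.of fun i k => (fvec f i y) k : Matrix (Fin 4) (Fin 4) ℝ) =
      (f y).transpose := by
    ext i k
    rw [Matrix.of_apply, FC4_fvec_apply, Matrix.transpose_apply]
  rw [h2, Matrix.det_transpose] at h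
  rw [FV4_quad _ h0, ← h, FV4_comp f w y 0 1 (by decide), FV4_comp f w y 0 2 (by decide),
    FV4_comp f w y 0 3 (by decide), FV4_comp f w y 1 2 (by decide),
    FV4_comp f w y 1 3 (by decide), FV4_comp f w y 2 3 (by decide)]
  ring

section

variable {X : Type} [TopologicalSpace X] [ChartedSpace E4 X] [IsManifold (𝓡 4) ∞ X]

omit [IsManifold (𝓡 4) ∞ X] in
theorem FV4_point {g : Metric X} (c : FChart X g) (w : Ch X → E4 → E4 [⋀^Fin 2]→L[ℝ] ℝ) {y : E4}
    (hy : y ∈ c.psi.target) :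
    -(comp c.f (mform w c.psi) y ⬝ᵥ (gam ℝ).mulVec (comp c.f (mform w c.psi) y)) =
      wedge22 (w (chAt (c.psi.symm y)) (chartAt E4 (c.psi.symm y) (c.psi.symm y)))
        (w (chAt (c.psi.symm y)) (chartAt E4 (c.psi.symm y) (c.psi.symm y))) /
      Real.sqrt (g.coef (chAt (c.psi.symm y))
        (chartAt E4 (c.psi.symm y) (c.psi.symm y))).det := by
  rw [FV4_comp_quad, mform, FV4_wedge_comp]
  set x := c.psi.symm y with hx
  have hxs : x ∈ (chAt x).1.source := mem_chart_source E4 x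
  have hyt : y ∈ (c.psi.symm.trans (chAt x).1).source := ⟨hy, hxs⟩
  have hJ : 0 < (fderiv ℝ (c.psi.symm.trans (chAt x).1) y).det := c.pos (chAt x) y hyt
  have hF : 0 < (c.f y).det := c.frame.det_pos y hy
  have hG : 0 < (g.coef (chAt x) ((chAt x).1 x)).det :=
    (g.posDef (chAt x) ((chAt x).1 x) ((chAt x).1.map_source hxs)).det_pos
  have h1 := c.frame.orth y hy
  rw [B1.mcoef_eq, ← hx] at h1
  have h2 := congrArg Matrix.det h1
  have h3 : (B1.jac (c.psi.symm.trans (chAt x).1) y).det =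
      (fderiv ℝ (c.psi.symm.trans (chAt x).1) y).det := by
    rw [← L1_det, ← Matrix.det_transpose]
    rfl
  simp only [Matrix.det_mul, Matrix.det_transpose, Matrix.det_one, h3] at h2
  change (c.f y).det * ((fderiv ℝ (c.psi.symm.trans (chAt x).1) y).det * _) =
    _ / Real.sqrt (g.coef (chAt x) ((chAt x).1 x)).det
  set F := (c.f y).det
  set J := (fderiv ℝ (c.psi.symm.trans (chAt x).1) y).det
  set G := (g.coef (chAt x) ((chAt x).1 x)).det
  have h4 : Real.sqrt G = 1 / (F * J) := by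
    have h5 : G = (1 / (F * J)) ^ 2 := by
      field_simp
      linarith
    rw [h5, Real.sqrt_sq (by positivity)]
  rw [h4]
  field_simp

end

/-- Item FV4. -/
theorem thm_Wedge (it : claimIntTop) (he : claimEmb) : claimWedge := by
  intro X _ _ _ _ _ _ _ ho g n A w hw
  have hc : ∀ e : Ch X, ContinuousOn (fun y => wedge22 (w e y) (w e y)) e.1.target := by
    intro e
    have h1 : ContinuousOn (w e) e.1.target := (hw.1 e).continuousOn
    have h2 : ∀ v : Fin 2 → E4, ContinuousOn (fun y => w e y v) e.1.target := fun v =>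
      (continuous_eval_const v).comp_continuousOn h1
    unfold wedge22
    exact (((((h2 _).mul (h2 _)).sub ((h2 _).mul (h2 _))).add ((h2 _).mul (h2 _))).add
      ((h2 _).mul (h2 _))).sub ((h2 _).mul (h2 _)) |>.add ((h2 _).mul (h2 _))
  have ht : ∀ e e' : Ch X, ∀ y ∈ (e.1.symm.trans e'.1).source,
      wedge22 (w e y) (w e y) = (fderiv ℝ (e.1.symm.trans e'.1) y).det *
        wedge22 (w e' ((e.1.symm.trans e'.1) y)) (w e' ((e.1.symm.trans e'.1) y)) := by
    intro e e' y hy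
    conv_lhs => rw [hw.2.2 e e' y hy]
    rw [FV4_wedge_comp]
  obtain ⟨-, -, h3⟩ := it X ho g (fun e y => wedge22 (w e y) (w e y)) hc ht
  unfold interForm
  rw [h3, ← integral_neg]
  refine integral_congr_ae (Filter.Eventually.of_forall fun x => ?_)
  have hxs : x ∈ (A.cx x).psi.source := (A.exists_index x).choose_spec.1
  have hB := ((he X ho g n A).1 (A.cx x)).1 x hxs
  have h4 := FV4_point (A.cx x) w ((A.cx x).psi.map_source hxs)
  rw [(A.cx x).psi.left_inv hxs] at h4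
  change _ = -⟪A.toV w x, A.mulV (gam ℝ) x (A.toV w x)⟫
  have h5 : ⟪A.toV w x, A.mulV (gam ℝ) x (A.toV w x)⟫ =
      comp (A.cx x).f (mform w (A.cx x).psi) ((A.cx x).psi x) ⬝ᵥ
        (gam ℝ).mulVec (comp (A.cx x).f (mform w (A.cx x).psi) ((A.cx x).psi x)) := by
    set α := comp (A.cx x).f (mform w (A.cx x).psi) ((A.cx x).psi x)
    set B := A.Bm (A.cx x) x
    have h6 : A.toV w x = WithLp.toLp 2 (B.transpose.mulVec α) := rfl
    have h7 : A.mulV (gam ℝ) x = Matrix.toEuclideanCLM (𝕜 := ℝ) (B.transpose * gam ℝ * B) := rfl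
    rw [h6, h7, Matrix.inner_toEuclideanCLM]
    change (B.transpose.mulVec α) ⬝ᵥ (B.transpose * gam ℝ * B).mulVec (B.transpose.mulVec α) = _
    rw [Matrix.mulVec_mulVec, Matrix.mul_assoc, hB, Matrix.mul_one, ← Matrix.mulVec_mulVec,
      Matrix.dotProduct_mulVec, Matrix.vecMul_transpose, Matrix.mulVec_mulVec, hB,
      Matrix.one_mulVec]
  rw [h5]
  exact h4.symm

end NRF

end
end

section

/-!
FV5: the sections form an abstract Hodge complex.
-/

open scoped Manifold ContDiff Topology RealInnerProductSpace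
open MeasureTheory Set

noncomputable section

namespace NRF

/-! ### Matrices -/

theorem FV5_rev {A : Type} [Ring A] (x0 x1 x2 x3 : A) (h01 : x1 * x0 = -(x0 * x1))
    (h02 : x2 * x0 = -(x0 * x2)) (h03 : x3 * x0 = -(x0 * x3)) (h12 : x2 * x1 = -(x1 * x2))
    (h13 : x3 * x1 = -(x1 * x3)) (h23 : x3 * x2 = -(x2 * x3)) :
    x3 * x2 * x1 * x0 = x0 * x1 * x2 * x3 := by
  calc x3 * x2 * x1 * x0 = x3 * x2 * (x1 * x0) := by noncomm_ring
    _ = -(x3 * (x2 * x0) * x1) := by rw [h01]; noncomm_ring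
    _ = (x3 * x0) * x2 * x1 := by rw [h02]; noncomm_ring
    _ = -(x0 * x3 * (x2 * x1)) := by rw [h03]; noncomm_ring
    _ = x0 * (x3 * x1) * x2 := by rw [h12]; noncomm_ring
    _ = -(x0 * x1 * (x3 * x2)) := by rw [h13]; noncomm_ring
    _ = x0 * x1 * x2 * x3 := by rw [h23]; noncomm_ring

theorem FV5_gam_T : (gam ℝ).transpose = gam ℝ := by
  have hT : ∀ a, (clf ℝ a).transpose = -clf ℝ a := by
    intro a
    unfold clf iot
    rw [Matrix.transpose_sub, Matrix.transpose_transpose]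
    abel
  unfold gam
  rw [Matrix.transpose_mul, Matrix.transpose_mul, Matrix.transpose_mul, hT, hT, hT, hT]
  have := FV5_rev (clf ℝ 0) (clf ℝ 1) (clf ℝ 2) (clf ℝ 3)
    (FR3_anti ℝ (by decide)) (FR3_anti ℝ (by decide)) (FR3_anti ℝ (by decide))
    (FR3_anti ℝ (by decide)) (FR3_anti ℝ (by decide)) (FR3_anti ℝ (by decide))
  rw [← this]
  noncomm_ring

theorem FV5_numZ_aux : ∀ (a : Fin 4) (s t : Lam),
    (if a ∈ t then epsZ a s (t.erase a) * (-1) ^ ((t.erase a).filter (· < a)).card else 0) =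
      if s = t ∧ a ∈ s then 1 else 0 := by
  decide +kernel

theorem FV5_num (a : Fin 4) (s t : Lam) :
    (eps ℝ a * iot ℝ a) s t = if s = t ∧ a ∈ s then 1 else 0 := by
  have h : (epsZ a * (epsZ a).transpose) s t = if s = t ∧ a ∈ s then 1 else 0 := by
    rw [FR3_mul_iotZ, FV5_numZ_aux]
  have e : eps ℝ a * iot ℝ a =
      (Int.castRingHom ℝ).mapMatrix (epsZ a * (epsZ a).transpose) := by
    rw [map_mul]
    rfl
  rw [e]
  change (Int.castRingHom ℝ) ((epsZ a * (epsZ a).transpose) s t) = _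
  rw [h]
  split_ifs <;> simp

theorem FV5_gam_card (s t : Lam) :
    gam ℝ s t * (t.card : ℝ) = (4 - (s.card : ℝ)) * gam ℝ s t := by
  have h1 : ∀ a, gam ℝ * (eps ℝ a * iot ℝ a) = (1 - eps ℝ a * iot ℝ a) * gam ℝ := by
    intro a
    have e1 := FR3_ei ℝ a a
    rw [if_pos rfl] at e1
    have e2 : iot ℝ a * eps ℝ a = 1 - eps ℝ a * iot ℝ a := by rw [← e1]; abel
    calc gam ℝ * (eps ℝ a * iot ℝ a) = gam ℝ * eps ℝ a * iot ℝ a := by rw [mul_assoc]
      _ = iot ℝ a * (gam ℝ * iot ℝ a) := by rw [← D3a_iotg, mul_assoc]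
      _ = iot ℝ a * eps ℝ a * gam ℝ := by rw [← D3a_epsg, mul_assoc]
      _ = _ := by rw [e2]
  have h2 : ∀ a, gam ℝ s t * (if a ∈ t then 1 else 0) =
      (1 - (if a ∈ s then 1 else 0)) * gam ℝ s t := by
    intro a
    have h3 := congrFun (congrFun (h1 a) s) t
    rw [Matrix.mul_apply, Finset.sum_eq_single t, sub_mul, one_mul, Matrix.sub_apply,
      Matrix.mul_apply (M := eps ℝ a * iot ℝ a), Finset.sum_eq_single s, FV5_num, FV5_num] at h3
    · simp only [true_and] at h3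
      rw [h3]
      ring
    · intro u _ hu
      rw [FV5_num, if_neg (fun h => hu h.1.symm), zero_mul]
    · intro h
      exact absurd (Finset.mem_univ _) h
    · intro u _ hu
      rw [FV5_num, if_neg (fun h => hu h.1), mul_zero]
    · intro h
      exact absurd (Finset.mem_univ _) h
  have h3 := Finset.sum_congr rfl (fun a (_ : a ∈ (Finset.univ : Finset (Fin 4))) => h2 a)
  rw [← Finset.mul_sum, ← Finset.sum_mul, Finset.sum_sub_distrib] at h3
  simpa using h3

theorem FV5_gam_degP (k : ℕ) (hk : k ≤ 4) : gam ℝ * degP ℝ k = degP ℝ (4 - k) * gam ℝ := by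
  ext s t
  unfold degP
  rw [Matrix.diagonal_mul, Matrix.mul_diagonal]
  by_cases h0 : gam ℝ s t = 0
  · rw [h0]; ring
  · have h1 := FV5_gam_card s t
    rw [mul_comm] at h1
    have h2 : (t.card : ℝ) = 4 - (s.card : ℝ) := mul_right_cancel₀ h0 h1
    have h3 : t.card + s.card = 4 := by
      have : (t.card : ℝ) + s.card = 4 := by linarith
      exact_mod_cast this
    by_cases hc : t.card = k
    · rw [if_pos hc, if_pos (by omega)]
      ring
    · rw [if_neg hc, if_neg (by omega)]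
      ring

theorem FV5_degP_mul (j k : ℕ) : degP ℝ j * degP ℝ k = if j = k then degP ℝ k else 0 := by
  unfold degP
  rw [Matrix.diagonal_mul_diagonal]
  by_cases h : j = k
  · subst h
    rw [if_pos rfl]
    congr 1
    funext s
    split_ifs <;> simp
  · rw [if_neg h]
    ext s t
    by_cases hst : s = t
    · subst hst
      rw [Matrix.diagonal_apply_eq, Matrix.zero_apply]
      split_ifs with h1 h2
      · exact absurd (h1.symm.trans h2) h
      · simp
      · simp
      · simp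
    · rw [Matrix.diagonal_apply_ne _ hst, Matrix.zero_apply]

theorem FV5_degP_big (k : ℕ) (hk : 4 < k) : degP ℝ k = 0 := by
  ext s t
  unfold degP
  by_cases hst : s = t
  · subst hst
    have := Finset.card_le_univ s
    rw [Fintype.card_fin] at this
    rw [Matrix.diagonal_apply_eq, Matrix.zero_apply, if_neg (by omega)]
  · rw [Matrix.diagonal_apply_ne _ hst, Matrix.zero_apply]

theorem FV5_degP_sum : ∑ k ∈ Finset.range 5, degP ℝ k = 1 := by
  ext s t
  rw [Matrix.sum_apply]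
  unfold degP
  by_cases hst : s = t
  · subst hst
    have h := Finset.card_le_univ s
    rw [Fintype.card_fin] at h
    simp only [Matrix.diagonal_apply_eq, Matrix.one_apply_eq]
    rw [Finset.sum_ite_eq, if_pos (Finset.mem_range.2 (by omega))]
  · rw [Matrix.one_apply_ne hst]
    exact Finset.sum_eq_zero fun k _ => Matrix.diagonal_apply_ne _ hst

/-! ### Linear algebra -/

theorem FV5_ker {E : Type} [AddCommGroup E] [Module ℝ E] (B : E →ₗ[ℝ] E →ₗ[ℝ] ℝ)
    (d del : E →ₗ[ℝ] E) (pos : ∀ u, u ≠ 0 → 0 < B u u) (adj : ∀ u v, B (d u) v = B u (del v))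
    (dd : ∀ u, d (d u) = 0) (u : E) (h : d u + del u = 0) : d u = 0 ∧ del u = 0 := by
  have h1 : d u = -del u := eq_neg_of_add_eq_zero_left h
  have h2 : B (d u) (d u) = 0 := by
    have e : B (d u) (del u) = 0 := by
      rw [← adj, dd, map_zero, LinearMap.zero_apply]
    calc B (d u) (d u) = B (d u) (-del u) := by rw [← h1]
      _ = 0 := by rw [map_neg, e, neg_zero]
  have h3 : d u = 0 := by
    by_contra hne
    exact absurd h2 (pos _ hne).ne'
  exact ⟨h3, by rwa [h3, zero_add] at h⟩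

/-! ### Sections -/

section

variable {X : Type} [TopologicalSpace X] [T2Space X] [CompactSpace X]
    [ChartedSpace E4 X] [IsManifold (𝓡 4) ∞ X]

/-- an endomorphism field acting on sections -/
def FV5_mul (he : claimEmb) (ho : OrientedAtlas X) {g : Metric X} {n : ℕ} (A : FAtlas X g n)
    (M : Matrix Lam Lam ℝ) (hM : LamInv M) : A.Sec →ₗ[ℝ] A.Sec where
  toFun u := ⟨fun x => A.mulV M x ((u : X → VV n) x),
    fun x => ((he X ho g n A).2.2.1 M hM).2.2.2.2.2 ∞ u.1 x le_rfl (u.2.1 x),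
    fun x => ((he X ho g n A).2.2.1 M hM).2.2.2.1 x _⟩
  map_add' u v := by
    apply Subtype.ext
    funext x
    exact map_add (A.mulV M x) _ _
  map_smul' r u := by
    apply Subtype.ext
    funext x
    exact map_smul (A.mulV M x) _ _

omit [T2Space X] [CompactSpace X] [IsManifold (𝓡 4) ∞ X] in
theorem FV5_CkAt {g : Metric X} {n : ℕ} {A : FAtlas X g n} (u : A.Sec) (x : X) (k : ℕ) :
    CkAt k (u : X → VV n) x := fun psi hpsi hx =>
  (u.2.1 x psi hpsi hx).of_le (by exact_mod_cast le_top)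

theorem FV5_dV_add (o : claimOpV) (ho : OrientedAtlas X) {g : Metric X} {n : ℕ}
    (A : FAtlas X g n) (u v : A.Sec) :
    A.dV ((u + v : A.Sec) : X → VV n) = A.dV (u : X → VV n) + A.dV (v : X → VV n) := by
  funext x
  obtain ⟨-, -, -, -, -, -, -, -, h, -⟩ := o X ho g n A u x (FV5_CkAt u x 1)
  have e : ((u + v : A.Sec) : X → VV n) = fun y => (u : X → VV n) y + (v : X → VV n) y := rfl
  rw [e, (h v (FV5_CkAt v x 1)).2.1]
  rfl

theorem FV5_dV_smul (o : claimOpV) (ho : OrientedAtlas X) {g : Metric X} {n : ℕ}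
    (A : FAtlas X g n) (r : ℝ) (u : A.Sec) :
    A.dV ((r • u : A.Sec) : X → VV n) = r • A.dV (u : X → VV n) := by
  funext x
  obtain ⟨-, -, -, -, -, -, -, -, -, h, -⟩ := o X ho g n A u x (FV5_CkAt u x 1)
  have e : ((r • u : A.Sec) : X → VV n) = fun y => r • (u : X → VV n) y := rfl
  rw [e, (h r).2.1]
  rfl

theorem FV5_delV_add (o : claimOpV) (ho : OrientedAtlas X) {g : Metric X} {n : ℕ}
    (A : FAtlas X g n) (u v : A.Sec) :
    A.delV ((u + v : A.Sec) : X → VV n) = A.delV (u : X → VV n) + A.delV (v : X → VV n) := by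
  funext x
  obtain ⟨-, -, -, -, -, -, -, -, h, -⟩ := o X ho g n A u x (FV5_CkAt u x 1)
  have e : ((u + v : A.Sec) : X → VV n) = fun y => (u : X → VV n) y + (v : X → VV n) y := rfl
  rw [e, (h v (FV5_CkAt v x 1)).2.2]
  rfl

theorem FV5_delV_smul (o : claimOpV) (ho : OrientedAtlas X) {g : Metric X} {n : ℕ}
    (A : FAtlas X g n) (r : ℝ) (u : A.Sec) :
    A.delV ((r • u : A.Sec) : X → VV n) = r • A.delV (u : X → VV n) := by
  funext x
  obtain ⟨-, -, -, -, -, -, -, -, -, h, -⟩ := o X ho g n A u x (FV5_CkAt u x 1)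
  have e : ((r • u : A.Sec) : X → VV n) = fun y => r • (u : X → VV n) y := rfl
  rw [e, (h r).2.2]
  rfl

theorem FV5_dV_mem (o : claimOpV) (ho : OrientedAtlas X) {g : Metric X} {n : ℕ}
    (A : FAtlas X g n) (u : A.Sec) : A.dV (u : X → VV n) ∈ A.Sec := by
  refine ⟨fun x => ?_, fun x => ?_⟩
  · obtain ⟨-, -, -, -, -, -, -, -, -, -, -, h, -⟩ := o X ho g n A u x (FV5_CkAt u x 1)
    exact (h (u.2.1 x)).2.1
  · obtain ⟨-, -, -, h, -⟩ := o X ho g n A u x (FV5_CkAt u x 1)
    exact h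

theorem FV5_delV_mem (o : claimOpV) (ho : OrientedAtlas X) {g : Metric X} {n : ℕ}
    (A : FAtlas X g n) (u : A.Sec) : A.delV (u : X → VV n) ∈ A.Sec := by
  refine ⟨fun x => ?_, fun x => ?_⟩
  · obtain ⟨-, -, -, -, -, -, -, -, -, -, -, h, -⟩ := o X ho g n A u x (FV5_CkAt u x 1)
    exact (h (u.2.1 x)).2.2
  · obtain ⟨-, -, -, -, h, -⟩ := o X ho g n A u x (FV5_CkAt u x 1)
    exact h

/-- the exterior derivative on sections -/
def FV5_d (o : claimOpV) (ho : OrientedAtlas X) {g : Metric X} {n : ℕ} (A : FAtlas X g n) :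
    A.Sec →ₗ[ℝ] A.Sec where
  toFun u := ⟨A.dV u, FV5_dV_mem o ho A u⟩
  map_add' u v := Subtype.ext (FV5_dV_add o ho A u v)
  map_smul' r u := Subtype.ext (FV5_dV_smul o ho A r u)

/-- the codifferential on sections -/
def FV5_del (o : claimOpV) (ho : OrientedAtlas X) {g : Metric X} {n : ℕ} (A : FAtlas X g n) :
    A.Sec →ₗ[ℝ] A.Sec where
  toFun u := ⟨A.delV u, FV5_delV_mem o ho A u⟩
  map_add' u v := Subtype.ext (FV5_delV_add o ho A u v)
  map_smul' r u := Subtype.ext (FV5_delV_smul o ho A r u)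

omit [T2Space X] [CompactSpace X] in
theorem FV5_cont (ck : claimCk) {g : Metric X} {n : ℕ} {A : FAtlas X g n} (u : A.Sec) :
    Continuous (u : X → VV n) :=
  ((ck X (VV n) ∞ u.1 le_rfl).1.1 u.2.1).continuous

variable [MeasurableSpace X] [BorelSpace X]

theorem FV5_int (ck : claimCk) (v : claimVol) {g : Metric X} {n : ℕ} {A : FAtlas X g n}
    (u w : A.Sec) : Integrable (fun x => ⟪(u : X → VV n) x, (w : X → VV n) x⟫) g.vol := by
  have : IsFiniteMeasure g.vol := (v X g).1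
  exact ((FV5_cont ck u).inner (FV5_cont ck w)).integrable_of_hasCompactSupport
    (HasCompactSupport.of_compactSpace _)

/-- the inner product -/
def FV5_B (ck : claimCk) (v : claimVol) {g : Metric X} {n : ℕ} (A : FAtlas X g n) :
    A.Sec →ₗ[ℝ] A.Sec →ₗ[ℝ] ℝ :=
  LinearMap.mk₂ ℝ (fun u w => ∫ x, ⟪(u : X → VV n) x, (w : X → VV n) x⟫ ∂g.vol)
    (fun u u' w => by
      rw [← integral_add (FV5_int ck v u w) (FV5_int ck v u' w)]
      refine integral_congr_ae (Filter.Eventually.of_forall fun x => ?_)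
      exact inner_add_left _ _ _)
    (fun r u w => by
      rw [smul_eq_mul, ← integral_const_mul]
      refine integral_congr_ae (Filter.Eventually.of_forall fun x => ?_)
      exact real_inner_smul_left _ _ _)
    (fun u w w' => by
      rw [← integral_add (FV5_int ck v u w) (FV5_int ck v u w')]
      refine integral_congr_ae (Filter.Eventually.of_forall fun x => ?_)
      exact inner_add_right _ _ _)
    (fun r u w => by
      rw [smul_eq_mul, ← integral_const_mul]
      refine integral_congr_ae (Filter.Eventually.of_forall fun x => ?_)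
      exact real_inner_smul_right _ _ _)

theorem FV5_pos (ck : claimCk) (v : claimVol) {g : Metric X} {n : ℕ} (A : FAtlas X g n)
    (u : A.Sec) (hu : u ≠ 0) : 0 < FV5_B ck v A u u := by
  have hfin : IsFiniteMeasure g.vol := (v X g).1
  have hop : Measure.IsOpenPosMeasure g.vol :=
    ⟨fun U hU hne => ((v X g).2.1 U hU hne).ne'⟩
  have hc := (FV5_cont ck u).inner (𝕜 := ℝ) (FV5_cont ck u)
  obtain ⟨x, hx⟩ : ∃ x, (u : X → VV n) x ≠ 0 := by
    by_contra hn
    push Not at hn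
    exact hu (Subtype.ext (funext hn))
  refine hc.integral_pos_of_hasCompactSupport_nonneg_nonzero
    (HasCompactSupport.of_compactSpace _) (fun x => real_inner_self_nonneg) (x := x) ?_
  exact fun h => hx (inner_self_eq_zero.1 h)

theorem FV5_symm (ck : claimCk) (v : claimVol) {g : Metric X} {n : ℕ} (A : FAtlas X g n)
    (u w : A.Sec) : FV5_B ck v A u w = FV5_B ck v A w u :=
  integral_congr_ae (Filter.Eventually.of_forall fun _ => real_inner_comm _ _)

theorem FV5_adj (ck : claimCk) (v : claimVol) (s : claimSymV) (o : claimOpV)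
    (ho : OrientedAtlas X) {g : Metric X} {n : ℕ} (A : FAtlas X g n) (u w : A.Sec) :
    FV5_B ck v A (FV5_d o ho A u) w = FV5_B ck v A u (FV5_del o ho A w) :=
  (s X ho g n A u w (fun x => FV5_CkAt u x 1) (fun x => FV5_CkAt w x 1)).2

theorem FV5_mul_symm (ck : claimCk) (v : claimVol) (he : claimEmb)
    (ho : OrientedAtlas X) {g : Metric X} {n : ℕ} (A : FAtlas X g n) (M : Matrix Lam Lam ℝ)
    (hM : LamInv M) (hT : M.transpose = M) (u w : A.Sec) :
    FV5_B ck v A (FV5_mul he ho A M hM u) w = FV5_B ck v A u (FV5_mul he ho A M hM w) := by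
  refine integral_congr_ae (Filter.Eventually.of_forall fun x => ?_)
  have h := (he X ho g n A).2.2.2 M x ((u : X → VV n) x) ((w : X → VV n) x)
  rw [hT] at h
  exact h

omit [MeasurableSpace X] [BorelSpace X]

theorem FV5_dd (o : claimOpV) (ho : OrientedAtlas X) {g : Metric X} {n : ℕ} (A : FAtlas X g n)
    (u : A.Sec) : FV5_d o ho A (FV5_d o ho A u) = 0 := by
  apply Subtype.ext
  funext x
  obtain ⟨-, -, -, -, -, -, -, -, -, -, -, -, h, -⟩ := o X ho g n A u x (FV5_CkAt u x 1)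
  exact (h (FV5_CkAt u x 2)).1

theorem FV5_deldel (o : claimOpV) (ho : OrientedAtlas X) {g : Metric X} {n : ℕ}
    (A : FAtlas X g n) (u : A.Sec) : FV5_del o ho A (FV5_del o ho A u) = 0 := by
  apply Subtype.ext
  funext x
  obtain ⟨-, -, -, -, -, -, -, -, -, -, -, -, h, -⟩ := o X ho g n A u x (FV5_CkAt u x 1)
  exact (h (FV5_CkAt u x 2)).2

theorem FV5_dirV (o : claimOpV) (ho : OrientedAtlas X) {g : Metric X} {n : ℕ}
    (A : FAtlas X g n) (u : A.Sec) :
    ((FV5_d o ho A u + FV5_del o ho A u : A.Sec) : X → VV n) = A.dirV (u : X → VV n) := by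
  funext x
  obtain ⟨-, h, -⟩ := o X ho g n A u x (FV5_CkAt u x 1)
  rw [h]
  rfl

theorem FV5_mul_mul (he : claimEmb) (ho : OrientedAtlas X) {g : Metric X} {n : ℕ}
    (A : FAtlas X g n) (M M' M'' : Matrix Lam Lam ℝ) (hM : LamInv M) (hM' : LamInv M')
    (hM'' : LamInv M'') (e : M * M' = M'') (u : A.Sec) :
    FV5_mul he ho A M hM (FV5_mul he ho A M' hM' u) = FV5_mul he ho A M'' hM'' u := by
  apply Subtype.ext
  funext x
  have h := ((he X ho g n A).2.2.1 M hM).2.1 M' hM' x ((u : X → VV n) x)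
  rw [e] at h
  exact h

theorem FV5_mul_one (he : claimEmb) (ho : OrientedAtlas X) {g : Metric X} {n : ℕ}
    (A : FAtlas X g n) (h1 : LamInv 1) (u : A.Sec) : FV5_mul he ho A 1 h1 u = u :=
  Subtype.ext (funext fun x => u.2.2 x)

omit [T2Space X] [CompactSpace X] [IsManifold (𝓡 4) ∞ X] in
theorem FV5_mulV_sum {g : Metric X} {n : ℕ} (A : FAtlas X g n) {ι : Type} (t : Finset ι)
    (M : ι → Matrix Lam Lam ℝ) (x : X) : A.mulV (∑ k ∈ t, M k) x = ∑ k ∈ t, A.mulV (M k) x := by
  unfold FAtlas.mulV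
  rw [Matrix.mul_sum, Matrix.sum_mul, map_sum]

omit [T2Space X] [CompactSpace X] [IsManifold (𝓡 4) ∞ X] in
theorem FV5_mulV_zero {g : Metric X} {n : ℕ} (A : FAtlas X g n) (x : X) : A.mulV 0 x = 0 := by
  unfold FAtlas.mulV
  rw [Matrix.mul_zero, Matrix.zero_mul, map_zero]

theorem FV5_mul_zero (he : claimEmb) (ho : OrientedAtlas X) {g : Metric X} {n : ℕ}
    (A : FAtlas X g n) (M : Matrix Lam Lam ℝ) (hM : LamInv M) (h : M = 0) :
    FV5_mul he ho A M hM = 0 := by
  apply LinearMap.ext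
  intro u
  apply Subtype.ext
  funext x
  change A.mulV M x _ = 0
  rw [h, FV5_mulV_zero]
  rfl

theorem FV5_N_sum (he : claimEmb) (ho : OrientedAtlas X) {g : Metric X} {n : ℕ}
    (A : FAtlas X g n) (hN : ∀ k, LamInv (degP ℝ k)) (u : A.Sec) :
    ∑ k ∈ Finset.range 5, FV5_mul he ho A (degP ℝ k) (hN k) u = u := by
  apply Subtype.ext
  funext x
  rw [AddSubmonoidClass.coe_finsetSum, Finset.sum_apply]
  have h := congrArg (fun L : VV n →L[ℝ] VV n => L ((u : X → VV n) x))
    (FV5_mulV_sum A (Finset.range 5) (degP ℝ) x)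
  simp only [_root_.sum_apply] at h
  rw [FV5_degP_sum] at h
  exact h.symm.trans (u.2.2 x)

theorem FV5_d_N (he : claimEmb) (o : claimOpV) (ho : OrientedAtlas X) {g : Metric X} {n : ℕ}
    (A : FAtlas X g n) (hN : ∀ k, LamInv (degP ℝ k)) (k : ℕ) (u : A.Sec) :
    FV5_d o ho A (FV5_mul he ho A (degP ℝ k) (hN k) u) =
      FV5_mul he ho A (degP ℝ (k + 1)) (hN (k + 1)) (FV5_d o ho A u) := by
  apply Subtype.ext
  funext x
  obtain ⟨-, -, -, -, -, -, -, -, -, -, -, -, -, h, -⟩ := o X ho g n A u x (FV5_CkAt u x 1)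
  exact h k

theorem FV5_gam_d (he : claimEmb) (o : claimOpV) (ho : OrientedAtlas X) {g : Metric X} {n : ℕ}
    (A : FAtlas X g n) (hg : LamInv (gam ℝ)) (u : A.Sec) :
    FV5_mul he ho A (gam ℝ) hg (FV5_d o ho A u) =
      -FV5_del o ho A (FV5_mul he ho A (gam ℝ) hg u) := by
  apply Subtype.ext
  funext x
  obtain ⟨-, -, -, -, -, -, -, -, -, -, -, -, -, -, -, -, -, h⟩ :=
    o X ho g n A u x (FV5_CkAt u x 1)
  change A.mulV (gam ℝ) x (A.dV (u : X → VV n) x) =
    -A.delV (fun y => A.mulV (gam ℝ) y ((u : X → VV n) y)) x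
  rw [h, neg_neg]

/-- the star -/
def FV5_star (he : claimEmb) (ho : OrientedAtlas X) {g : Metric X} {n : ℕ}
    (A : FAtlas X g n) (hg : LamInv (gam ℝ)) : A.Sec →ₗ[ℝ] A.Sec :=
  -FV5_mul he ho A (gam ℝ) hg

theorem FV5_star_sq (he : claimEmb) (ho : OrientedAtlas X) {g : Metric X} {n : ℕ}
    (A : FAtlas X g n) (hg : LamInv (gam ℝ)) (h1 : LamInv 1) (u : A.Sec) :
    FV5_star he ho A hg (FV5_star he ho A hg u) = u := by
  unfold FV5_star
  rw [LinearMap.neg_apply, LinearMap.neg_apply, map_neg, neg_neg,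
    FV5_mul_mul he ho A (gam ℝ) (gam ℝ) 1 hg hg h1 (FR3_gg ℝ), FV5_mul_one]

theorem FV5_star_N (he : claimEmb) (ho : OrientedAtlas X) {g : Metric X} {n : ℕ}
    (A : FAtlas X g n) (hg : LamInv (gam ℝ)) (hN : ∀ k, LamInv (degP ℝ k)) (k : ℕ) (hk : k ≤ 4)
    (u : A.Sec) :
    FV5_star he ho A hg (FV5_mul he ho A (degP ℝ k) (hN k) u) =
      FV5_mul he ho A (degP ℝ (4 - k)) (hN (4 - k)) (FV5_star he ho A hg u) := by
  have hp : LamInv (gam ℝ * degP ℝ k) := by
    intro O h1 h2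
    rw [← mul_assoc, hg O h1 h2, mul_assoc, hN k O h1 h2, mul_assoc]
  unfold FV5_star
  rw [LinearMap.neg_apply, LinearMap.neg_apply, map_neg,
    FV5_mul_mul he ho A (gam ℝ) (degP ℝ k) _ hg (hN k) hp rfl,
    FV5_mul_mul he ho A (degP ℝ (4 - k)) (gam ℝ) _ (hN (4 - k)) hg hp (FV5_gam_degP k hk).symm]

theorem FV5_star_d (he : claimEmb) (o : claimOpV) (ho : OrientedAtlas X) {g : Metric X} {n : ℕ}
    (A : FAtlas X g n) (hg : LamInv (gam ℝ)) (u : A.Sec) :
    FV5_star he ho A hg (FV5_d o ho A u) = -FV5_del o ho A (FV5_star he ho A hg u) := by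
  unfold FV5_star
  rw [LinearMap.neg_apply, LinearMap.neg_apply, map_neg, neg_neg, FV5_gam_d, neg_neg]

theorem FV5_N_proj (he : claimEmb) (ho : OrientedAtlas X) {g : Metric X} {n : ℕ}
    (A : FAtlas X g n) (hN : ∀ k, LamInv (degP ℝ k)) (j k : ℕ) (u : A.Sec) :
    FV5_mul he ho A (degP ℝ j) (hN j) (FV5_mul he ho A (degP ℝ k) (hN k) u) =
      if j = k then FV5_mul he ho A (degP ℝ k) (hN k) u else 0 := by
  have hm := FV5_degP_mul j k
  by_cases hjk : j = k
  · rw [if_pos hjk] at hm ⊢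
    exact FV5_mul_mul he ho A _ _ _ _ _ _ hm u
  · rw [if_neg hjk] at hm ⊢
    have h0 : LamInv 0 := fun O _ _ => by rw [mul_zero, zero_mul]
    rw [FV5_mul_mul he ho A _ _ 0 _ _ h0 hm u, FV5_mul_zero he ho A 0 h0 rfl]
    rfl

end

section

variable {X : Type} [TopologicalSpace X] [T2Space X] [CompactSpace X] [ConnectedSpace X]
    [ChartedSpace E4 X] [IsManifold (𝓡 4) ∞ X] [MeasurableSpace X] [BorelSpace X]

theorem FV5_fin (hv : claimHeatV) (kp : claimKernelP) (ms : claimMS) (dv : claimDirV)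
    (o : claimOpV) (ho : OrientedAtlas X) {g : Metric X} {n : ℕ} (A : FAtlas X g n) :
    FiniteDimensional ℝ ↥(LinearMap.ker (FV5_d o ho A) ⊓ LinearMap.ker (FV5_del o ho A)) := by
  obtain ⟨D, hD⟩ := hv X ho g n A
  obtain ⟨T, K, hT, hK, -⟩ := kp X (VV n) D
  have hQ := (dv X ho g n A D hD).1
  obtain ⟨m, h, h1, h2, -, -, h3, -⟩ := ms X (VV n) D T K hT hK A.pV A.dirV hQ
  have hm : ∀ j, h j ∈ A.Sec := fun j => ⟨(hD.smooth _).1 (h1 j), h2 j⟩
  have hfg : FiniteDimensional ℝ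
      ↥(Submodule.span ℝ (Set.range fun j : Fin m => (⟨h j, hm j⟩ : A.Sec))) :=
    FiniteDimensional.span_of_finite ℝ (Set.finite_range _)
  refine Submodule.finiteDimensional_of_le (S₂ :=
    Submodule.span ℝ (Set.range fun j : Fin m => (⟨h j, hm j⟩ : A.Sec))) ?_
  rintro u ⟨hu1, hu2⟩
  have hu3 : A.dirV (u : X → VV n) = 0 := by
    rw [← FV5_dirV o ho A u]
    have e1 : FV5_d o ho A u = 0 := hu1
    have e2 : FV5_del o ho A u = 0 := hu2
    rw [e1, e2, add_zero]
    rfl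
  have hu4 := h3 u ((hD.smooth _).2 u.2.1) u.2.2 (fun y => congrFun hu3 y)
  have hu5 : u = ∑ j, (∫ z, ⟪(u : X → VV n) z, h j z⟫ ∂D.mu) • (⟨h j, hm j⟩ : A.Sec) := by
    apply Subtype.ext
    funext x
    rw [AddSubmonoidClass.coe_finsetSum, Finset.sum_apply]
    exact hu4 x
  rw [hu5]
  exact Submodule.sum_mem _ fun j _ =>
    Submodule.smul_mem _ _ (Submodule.subset_span ⟨j, rfl⟩)

theorem FV5_hodge (hv : claimHeatV) (kp : claimKernelP) (qq : claimQQ) (dv : claimDirV)
    (s : claimSymV) (o : claimOpV) (v : claimVol) (ck : claimCk)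
    (ho : OrientedAtlas X) {g : Metric X} {n : ℕ} (A : FAtlas X g n) (f : A.Sec)
    (hf : ∀ h ∈ LinearMap.ker (FV5_d o ho A) ⊓ LinearMap.ker (FV5_del o ho A),
      FV5_B ck v A f h = 0) :
    ∃ u, FV5_d o ho A (FV5_del o ho A u) + FV5_del o ho A (FV5_d o ho A u) = f := by
  obtain ⟨D, hD⟩ := hv X ho g n A
  obtain ⟨T, K, hT, hK, -⟩ := kp X (VV n) D
  have hQ := (dv X ho g n A D hD).1
  obtain ⟨u, hu1, hu2, hu3⟩ := qq X (VV n) D T K hT hK A.pV A.dirV hQ f
    ((hD.smooth _).2 f.2.1) f.2.2 (by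
      intro h hh1 hh2 hh3
      have hh4 : h ∈ A.Sec := ⟨(hD.smooth _).1 hh1, hh2⟩
      have hh5 : FV5_d o ho A ⟨h, hh4⟩ + FV5_del o ho A ⟨h, hh4⟩ = 0 := by
        apply Subtype.ext
        rw [FV5_dirV o ho A ⟨h, hh4⟩]
        funext y
        exact hh3 y
      have hh6 := FV5_ker (FV5_B ck v A) (FV5_d o ho A) (FV5_del o ho A) (FV5_pos ck v A)
        (FV5_adj ck v s o ho A) (FV5_dd o ho A) ⟨h, hh4⟩ hh5
      have hh7 := hf ⟨h, hh4⟩ ⟨hh6.1, hh6.2⟩
      rw [hD.mu]
      exact hh7)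
  have hu4 : u ∈ A.Sec := ⟨(hD.smooth _).1 hu1, hu2⟩
  have hu5 : FV5_d o ho A (FV5_d o ho A ⟨u, hu4⟩ + FV5_del o ho A ⟨u, hu4⟩) +
      FV5_del o ho A (FV5_d o ho A ⟨u, hu4⟩ + FV5_del o ho A ⟨u, hu4⟩) = f := by
    apply Subtype.ext
    rw [FV5_dirV o ho A (FV5_d o ho A ⟨u, hu4⟩ + FV5_del o ho A ⟨u, hu4⟩),
      FV5_dirV o ho A ⟨u, hu4⟩]
    funext y
    exact hu3 y
  refine ⟨⟨u, hu4⟩, ?_⟩
  rw [← hu5, map_add, map_add, FV5_dd, FV5_deldel, zero_add, add_zero]

end

/-- F5. -/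
theorem thm_AHX (hv : claimHeatV) (kp : claimKernelP) (ms : claimMS) (qq : claimQQ)
    (dv : claimDirV) (s : claimSymV) (o : claimOpV) (he : claimEmb) (v : claimVol)
    (_f3 : claimFR3) (ck : claimCk) : claimAHX := by
  intro X _ _ _ _ _ _ _ _ ho g n A
  have hI := (he X ho g n A).2.1
  refine ⟨{
    B := FV5_B ck v A
    d := FV5_d o ho A
    del := FV5_del o ho A
    N := fun k => FV5_mul he ho A (degP ℝ k) (hI.2.2.2 k)
    star := FV5_star he ho A hI.2.2.1
    symm := FV5_symm ck v A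
    pos := FV5_pos ck v A
    adj := FV5_adj ck v s o ho A
    dd := FV5_dd o ho A
    N_proj := fun j k u => FV5_N_proj he ho A hI.2.2.2 j k u
    N_big := fun k hk => FV5_mul_zero he ho A _ _ (FV5_degP_big k hk)
    N_sum := fun u => FV5_N_sum he ho A hI.2.2.2 u
    N_symm := fun k u w => FV5_mul_symm ck v he ho A _ _ (D3a_degP_T ℝ k) u w
    d_N := fun k u => FV5_d_N he o ho A hI.2.2.2 k u
    star_symm := fun u w => by
      have h := FV5_mul_symm ck v he ho A _ hI.2.2.1 FV5_gam_T u w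
      unfold FV5_star
      rw [LinearMap.neg_apply, LinearMap.neg_apply, map_neg, map_neg, LinearMap.neg_apply, h]
    star_sq := fun u => FV5_star_sq he ho A hI.2.2.1 hI.1 u
    star_N := fun k hk u => FV5_star_N he ho A hI.2.2.1 hI.2.2.2 k hk u
    star_d := fun u => FV5_star_d he o ho A hI.2.2.1 u
    fin := FV5_fin hv kp ms dv o ho A
    hodge := FV5_hodge hv kp qq dv s o v ck ho A }, ?_⟩
  exact ⟨fun _ _ => rfl, fun _ _ => rfl, fun _ _ => rfl, fun _ _ _ => rfl, fun _ _ => rfl⟩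

end NRF

end
end

section

/-!
FV6: Betti numbers, `b⁺` and `b⁻` by harmonic sections.
-/

open scoped Manifold ContDiff Topology RealInnerProductSpace
open MeasureTheory Set

noncomputable section

namespace NRF

/-- comparison of two quotients of images -/
theorem FV6_quot {M M' : Type} [AddCommGroup M] [Module ℝ M] [AddCommGroup M'] [Module ℝ M']
    (P Q : Submodule ℝ M) (P' Q' : Submodule ℝ M') (φ : P →ₗ[ℝ] M')
    (hr : LinearMap.range φ = P') (hk : ∀ p : P, (p : M) ∈ Q ↔ φ p ∈ Q') :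
    Module.finrank ℝ (P.map Q.mkQ) = Module.finrank ℝ (P'.map Q'.mkQ) := by
  set f1 : P →ₗ[ℝ] (M ⧸ Q) := Q.mkQ.comp P.subtype with hf1
  set f2 : P →ₗ[ℝ] (M' ⧸ Q') := Q'.mkQ.comp φ with hf2
  have r1 : LinearMap.range f1 = P.map Q.mkQ := by
    rw [hf1, LinearMap.range_comp, Submodule.range_subtype]
  have r2 : LinearMap.range f2 = P'.map Q'.mkQ := by
    rw [hf2, LinearMap.range_comp, hr]
  have hker : LinearMap.ker f1 = LinearMap.ker f2 := by
    ext p
    rw [LinearMap.mem_ker, LinearMap.mem_ker, hf1, hf2, LinearMap.comp_apply,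
      LinearMap.comp_apply, Submodule.mkQ_apply, Submodule.mkQ_apply,
      Submodule.Quotient.mk_eq_zero, Submodule.Quotient.mk_eq_zero]
    exact hk p
  rw [← r1, ← r2, ← (f1.quotKerEquivRange).finrank_eq, ← (f2.quotKerEquivRange).finrank_eq,
    hker]

section

variable {X : Type} [TopologicalSpace X] [T2Space X] [CompactSpace X]
    [ChartedSpace E4 X] [IsManifold (𝓡 4) ∞ X]

theorem FV6_range_N {E : Type} [AddCommGroup E] [Module ℝ E] (H : AHodge E) (k : ℕ) (u : E) :
    u ∈ LinearMap.range (H.N k) ↔ H.N k u = u := by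
  constructor
  · rintro ⟨v, rfl⟩
    rw [H.N_proj, if_pos rfl]
  · intro h
    exact ⟨u, h⟩

/-- forms as elements of the space of sections, linear -/
def FV6_Phi (t : claimToV) (ho : OrientedAtlas X) {g : Metric X} {n : ℕ}
    (A : FAtlas X g n) (k : ℕ) : Forms X k →ₗ[ℝ] A.Sec where
  toFun w := ⟨A.toV w.1, (t X ho g n A k w.1 w.2).2.1⟩
  map_add' w w' := Subtype.ext ((t X ho g n A k w.1 w.2).2.2.2.1 w'.1 w'.2)
  map_smul' r w := Subtype.ext ((t X ho g n A k w.1 w.2).2.2.2.2.1 r)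

theorem FV6_Phi_inj (t : claimToV) (ho : OrientedAtlas X) {g : Metric X} {n : ℕ}
    (A : FAtlas X g n) (k : ℕ) : Function.Injective (FV6_Phi t ho A k) := by
  intro a b hab
  have h1 : A.toV (a.1 + (-1 : ℝ) • b.1) = 0 := by
    have e1 := (t X ho g n A k a.1 a.2).2.2.2.1 ((-1 : ℝ) • b.1)
      (Submodule.smul_mem _ (-1 : ℝ) b.2)
    have e2 := (t X ho g n A k b.1 b.2).2.2.2.2.1 (-1 : ℝ)
    have e3 : A.toV a.1 = A.toV b.1 := congrArg Subtype.val hab
    rw [e1, e2, e3]
    funext x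
    simp
  have h2 := (t X ho g n A k _ (add_mem a.2 (Submodule.smul_mem _ (-1 : ℝ) b.2))).2.2.2.2.2.1 h1
  apply Subtype.ext
  funext e y
  have h3 := congrFun (congrFun h2 e) y
  have h4 : a.1 e y + (-1 : ℝ) • b.1 e y = 0 := h3
  have h5 : (-1 : ℝ) • b.1 e y = -(b.1 e y) := neg_one_smul ℝ (b.1 e y)
  rw [h5] at h4
  exact add_neg_eq_zero.1 h4

variable [MeasurableSpace X] [BorelSpace X]

omit [T2Space X] [CompactSpace X] [IsManifold (𝓡 4) ∞ X] in
theorem FV6_N_eq {g : Metric X} {n : ℕ} (A : FAtlas X g n) (H : AHodge A.Sec)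
    (hH : A.IsHodge H) (k : ℕ) (u : A.Sec) :
    H.N k u = u ↔ ∀ x, A.mulV (degP ℝ k) x ((u : X → VV n) x) = (u : X → VV n) x := by
  constructor
  · intro h x
    rw [← hH.N, h]
  · intro h
    apply Subtype.ext
    funext x
    rw [hH.N, h]

theorem FV6_Phi_range (t : claimToV) (fv : claimFromV) (ho : OrientedAtlas X) {g : Metric X}
    {n : ℕ} (A : FAtlas X g n) (H : AHodge A.Sec) (hH : A.IsHodge H) (k : ℕ) (u : A.Sec) :
    (∃ w, FV6_Phi t ho A k w = u) ↔ H.N k u = u := by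
  rw [FV6_N_eq A H hH]
  constructor
  · rintro ⟨w, rfl⟩ x
    exact (t X ho g n A k w.1 w.2).2.2.1 x
  · intro h
    obtain ⟨w, hw, hw2⟩ := fv X ho g n A k u.1 u.2 h
    exact ⟨⟨w, hw⟩, Subtype.ext hw2⟩

/-- the exterior derivative of a form, as a section -/
theorem FV6_ext (t : claimToV) (ho : OrientedAtlas X) {g : Metric X}
    {n : ℕ} (A : FAtlas X g n) (H : AHodge A.Sec) (hH : A.IsHodge H) (k : ℕ) (w : Forms X k)
    (v : Forms X (k + 1)) (hv : IsExt w.1 v.1) :
    FV6_Phi t ho A (k + 1) v = H.d (FV6_Phi t ho A k w) := by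
  apply Subtype.ext
  funext x
  rw [hH.d]
  exact congrFun ((t X ho g n A k w.1 w.2).2.2.2.2.2.2 v.1 v.2 hv) x

theorem FV6_closed (t : claimToV) (m : claimMform) (ho : OrientedAtlas X) {g : Metric X}
    {n : ℕ} (A : FAtlas X g n) (H : AHodge A.Sec) (hH : A.IsHodge H) (k : ℕ) (w : Forms X k) :
    (w : Ch X → E4 → E4 [⋀^Fin k]→L[ℝ] ℝ) ∈ Closed X k ↔ H.d (FV6_Phi t ho A k w) = 0 := by
  obtain ⟨v, hv, hvw⟩ := (m X k w.1 w.2).2.2.2.1
  have h1 := FV6_ext t ho A H hH k w ⟨v, hv⟩ hvw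
  rw [← h1]
  have h2 : FV6_Phi t ho A (k + 1) ⟨v, hv⟩ = 0 ↔ (⟨v, hv⟩ : Forms X (k + 1)) = 0 :=
    map_eq_zero_iff _ (FV6_Phi_inj t ho A (k + 1))
  rw [h2]
  constructor
  · rintro ⟨_, hc⟩
    apply Subtype.ext
    funext e y
    by_cases hy : y ∈ e.1.target
    · show v e y = 0
      rw [hvw e y hy, hc e y hy]
    · exact hv.2.1 e y hy
  · intro h0
    refine ⟨w.2, fun e y hy => ?_⟩
    rw [← hvw e y hy]
    have : v = 0 := congrArg Subtype.val h0
    rw [this]
    rfl

theorem FV6_exact (t : claimToV) (fv : claimFromV) (m : claimMform) (a1 : claimAH1)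
    (ho : OrientedAtlas X) {g : Metric X}
    {n : ℕ} (A : FAtlas X g n) (H : AHodge A.Sec) (hH : A.IsHodge H) (k : ℕ) (w : Forms X k) :
    (w : Ch X → E4 → E4 [⋀^Fin k]→L[ℝ] ℝ) ∈ Exact X k ↔ FV6_Phi t ho A k w ∈ H.exa k := by
  obtain ⟨_, _, _, _, _, _, _, b1, b2, _⟩ := a1 A.Sec H
  cases k with
  | zero =>
    rw [b2, Submodule.mem_bot, map_eq_zero_iff _ (FV6_Phi_inj t ho A 0)]
    change (w : Ch X → E4 → E4 [⋀^Fin 0]→L[ℝ] ℝ) ∈ (⊥ : Submodule ℝ _) ↔ _
    rw [Submodule.mem_bot]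
    exact ⟨fun h => Subtype.ext h, fun h => congrArg Subtype.val h⟩
  | succ k =>
    constructor
    · intro h
      refine ⟨?_, (FV6_range_N H _ _).2 ((FV6_Phi_range t fv ho A H hH (k + 1) _).1 ⟨w, rfl⟩)⟩
      have key : ∀ u : Ch X → E4 → E4 [⋀^Fin (k + 1)]→L[ℝ] ℝ, u ∈ Exact X (k + 1) →
          ∃ hu : u ∈ Forms X (k + 1),
            FV6_Phi t ho A (k + 1) ⟨u, hu⟩ ∈ LinearMap.range H.d := by
        intro u hu
        change u ∈ Submodule.span ℝ {w | w ∈ Forms X (k + 1) ∧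
          ∃ v ∈ Forms X k, ∀ e : Ch X, ∀ y ∈ e.1.target, w e y = extDeriv (v e) y} at hu
        induction hu using Submodule.span_induction with
        | mem u hu =>
          obtain ⟨hu1, v, hv, hvu⟩ := hu
          exact ⟨hu1, FV6_Phi t ho A k ⟨v, hv⟩,
            (FV6_ext t ho A H hH k ⟨v, hv⟩ ⟨u, hu1⟩ hvu).symm⟩
        | zero =>
          refine ⟨zero_mem _, ?_⟩
          have : (⟨0, zero_mem _⟩ : Forms X (k + 1)) = 0 := rfl
          rw [this, map_zero]
          exact zero_mem _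
        | add a b _ _ ha hb =>
          obtain ⟨ha1, ha2⟩ := ha
          obtain ⟨hb1, hb2⟩ := hb
          refine ⟨add_mem ha1 hb1, ?_⟩
          have : (⟨a + b, add_mem ha1 hb1⟩ : Forms X (k + 1)) = ⟨a, ha1⟩ + ⟨b, hb1⟩ := rfl
          rw [this, map_add]
          exact add_mem ha2 hb2
        | smul r a _ ha =>
          obtain ⟨ha1, ha2⟩ := ha
          refine ⟨Submodule.smul_mem _ r ha1, ?_⟩
          have : (⟨r • a, Submodule.smul_mem _ r ha1⟩ : Forms X (k + 1)) = r • ⟨a, ha1⟩ := rfl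
          rw [this, map_smul]
          exact Submodule.smul_mem _ r ha2
      exact (key w.1 h).2
    · intro h
      obtain ⟨u, hu1, hu2⟩ := b1 k _ h
      obtain ⟨w0, hw0⟩ := (FV6_Phi_range t fv ho A H hH k u).2 hu1
      obtain ⟨v, hv, hvw⟩ := (m X k w0.1 w0.2).2.2.2.1
      have h1 := FV6_ext t ho A H hH k w0 ⟨v, hv⟩ hvw
      rw [hw0, hu2] at h1
      have h2 := FV6_Phi_inj t ho A (k + 1) h1
      refine Submodule.subset_span ⟨w.2, w0.1, w0.2, ?_⟩
      rw [← h2]
      exact hvw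

theorem FV6_betti (t : claimToV) (fv : claimFromV) (m : claimMform) (a1 : claimAH1)
    (ho : OrientedAtlas X) {g : Metric X}
    {n : ℕ} (A : FAtlas X g n) (H : AHodge A.Sec) (hH : A.IsHodge H) (k : ℕ) :
    betti X k = Module.finrank ℝ (H.harmK k) := by
  obtain ⟨_, _, _, _, _, _, _, _, _, b3⟩ := a1 A.Sec H
  rw [← b3 k]
  have hle : Closed X k ≤ Forms X k := fun w hw => hw.1
  refine FV6_quot (Closed X k) (Exact X k) (H.clo k) (H.exa k)
    ((FV6_Phi t ho A k).comp (Submodule.inclusion hle)) ?_ ?_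
  · ext u
    constructor
    · rintro ⟨w, rfl⟩
      exact ⟨(FV6_closed t m ho A H hH k (Submodule.inclusion hle w)).1 w.2,
        (FV6_range_N H _ _).2 ((FV6_Phi_range t fv ho A H hH k _).1 ⟨_, rfl⟩)⟩
    · rintro ⟨hu1, hu2⟩
      obtain ⟨w, rfl⟩ := (FV6_Phi_range t fv ho A H hH k u).2 ((FV6_range_N H _ _).1 hu2)
      exact ⟨⟨w.1, (FV6_closed t m ho A H hH k w).2 hu1⟩, rfl⟩
  · intro p
    exact FV6_exact t fv m a1 ho A H hH k (Submodule.inclusion hle p)

theorem FV6_inter (t : claimToV) (wd : claimWedge) (ho : OrientedAtlas X) {g : Metric X}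
    {n : ℕ} (A : FAtlas X g n) (H : AHodge A.Sec) (hH : A.IsHodge H) (w : Forms X 2) :
    interForm w.1 = H.B (FV6_Phi t ho A 2 w) (H.star (FV6_Phi t ho A 2 w)) := by
  rw [wd X ho g n A w.1 w.2, hH.B, ← integral_neg]
  refine integral_congr_ae (Filter.Eventually.of_forall fun x => ?_)
  simp only
  rw [hH.star, inner_neg_right]
  rfl

/-- transport of sets of dimensions -/
theorem FV6_dims (t : claimToV) (fv : claimFromV) (m : claimMform)
    (ho : OrientedAtlas X) {g : Metric X}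
    {n : ℕ} (A : FAtlas X g n) (H : AHodge A.Sec) (hH : A.IsHodge H)
    (p : (Ch X → E4 → E4 [⋀^Fin 2]→L[ℝ] ℝ) → Prop) (q : A.Sec → Prop)
    (hpq : ∀ w : Forms X 2, p w.1 ↔ q (FV6_Phi t ho A 2 w)) :
    {d : ℕ | ∃ W : Submodule ℝ (Ch X → E4 → E4 [⋀^Fin 2]→L[ℝ] ℝ),
      W ≤ Closed X 2 ∧ FiniteDimensional ℝ W ∧ Module.finrank ℝ W = d ∧
        ∀ w ∈ W, w ≠ 0 → p w} =
    {d : ℕ | ∃ W : Submodule ℝ A.Sec, W ≤ H.clo 2 ∧ FiniteDimensional ℝ W ∧
      Module.finrank ℝ W = d ∧ ∀ w ∈ W, w ≠ 0 → q w} := by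
  have hinj := FV6_Phi_inj t ho A 2
  ext d
  constructor
  · rintro ⟨W, hW1, hW2, hW3, hW4⟩
    have hWF : W ≤ Forms X 2 := fun w hw => (hW1 hw).1
    set φ : W →ₗ[ℝ] A.Sec := (FV6_Phi t ho A 2).comp (Submodule.inclusion hWF) with hφ
    have hφi : Function.Injective φ := hinj.comp (Submodule.inclusion_injective hWF)
    refine ⟨LinearMap.range φ, ?_, ?_, ?_, ?_⟩
    · rintro _ ⟨w, rfl⟩
      exact ⟨(FV6_closed t m ho A H hH 2 (Submodule.inclusion hWF w)).1 (hW1 w.2),
        (FV6_range_N H _ _).2 ((FV6_Phi_range t fv ho A H hH 2 _).1 ⟨_, rfl⟩)⟩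
    · exact inferInstance
    · rw [LinearMap.finrank_range_of_inj hφi, hW3]
    · rintro _ ⟨w, rfl⟩ h0
      have hw0 : (w : Ch X → E4 → E4 [⋀^Fin 2]→L[ℝ] ℝ) ≠ 0 := by
        intro h
        apply h0
        have : w = 0 := Subtype.ext h
        rw [this, map_zero]
      exact (hpq (Submodule.inclusion hWF w)).1 (hW4 w.1 w.2 hw0)
  · rintro ⟨W, hW1, hW2, hW3, hW4⟩
    have hWr : ∀ u ∈ W, ∃ w, FV6_Phi t ho A 2 w = u := fun u hu =>
      (FV6_Phi_range t fv ho A H hH 2 u).2 ((FV6_range_N H _ _).1 (hW1 hu).2)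
    set W1 : Submodule ℝ (Forms X 2) := W.comap (FV6_Phi t ho A 2) with hW1d
    have hmap : W1.map (FV6_Phi t ho A 2) = W := by
      rw [hW1d, Submodule.map_comap_eq]
      apply inf_eq_right.2
      intro u hu
      exact hWr u hu
    have e1 : W1 ≃ₗ[ℝ] W := (Submodule.equivMapOfInjective _ hinj W1).trans
      (LinearEquiv.ofEq _ _ hmap)
    have e2 : W1 ≃ₗ[ℝ] W1.map (Forms X 2).subtype :=
      Submodule.equivMapOfInjective _ (Forms X 2).injective_subtype W1
    refine ⟨W1.map (Forms X 2).subtype, ?_, ?_, ?_, ?_⟩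
    · rintro _ ⟨w, hw, rfl⟩
      exact (FV6_closed t m ho A H hH 2 w).2 (hW1 hw).1
    · exact Module.Finite.equiv (e1.symm.trans e2)
    · rw [← (e1.symm.trans e2).finrank_eq, hW3]
    · rintro _ ⟨w, hw, rfl⟩ h0
      refine (hpq w).2 (hW4 _ hw fun h => h0 ?_)
      have : w = 0 := hinj (by rw [h, map_zero])
      rw [this, map_zero]

end

theorem thm_BettiX (t : claimToV) (fv : claimFromV) (w : claimWedge) (m : claimMform)
    (a1 : claimAH1) (a2 : claimAH2) : claimBettiX := by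
  intro X _ _ _ _ _ _ _ _ ho g n A H hH
  obtain ⟨c1, c2⟩ := a2 A.Sec H
  refine ⟨fun k => FV6_betti t fv m a1 ho A H hH k, ?_, ?_⟩
  · rw [← c1]
    unfold bPlus
    rw [FV6_dims t fv m ho A H hH (fun w => 0 < interForm w)
      (fun u => 0 < H.B u (H.star u)) fun w' => by rw [FV6_inter t w ho A H hH w']]
  · rw [← c2]
    unfold bMinus
    rw [FV6_dims t fv m ho A H hH (fun w => interForm w < 0)
      (fun u => H.B u (H.star u) < 0) fun w' => by rw [FV6_inter t w ho A H hH w']]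

end NRF

end
end

section

/-!
FV7: Euler characteristic and signature by the heat kernel.
-/

open scoped Manifold ContDiff Topology RealInnerProductSpace
open MeasureTheory Set

noncomputable section

namespace NRF

theorem FV7_harm_iff {E : Type} [AddCommGroup E] [Module ℝ E] (H : AHodge E) (u : E) :
    u ∈ H.harm ↔ H.d u + H.del u = 0 := by
  constructor
  · rintro ⟨h1, h2⟩
    have h1' : H.d u = 0 := h1
    have h2' : H.del u = 0 := h2
    rw [h1', h2', add_zero]
  · intro h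
    have h1 : H.d u = -H.del u := eq_neg_of_add_eq_zero_left h
    have h2 : H.B (H.d u) (H.d u) = 0 := by
      have e : H.B (H.d u) (H.del u) = 0 := by
        rw [← H.adj, H.dd, map_zero, LinearMap.zero_apply]
      calc H.B (H.d u) (H.d u) = H.B (H.d u) (-H.del u) := by rw [← h1]
        _ = 0 := by rw [map_neg, e, neg_zero]
    have h3 : H.d u = 0 := by
      by_contra hne
      exact absurd h2 (H.pos _ hne).ne'
    have h4 : H.del u = 0 := by rwa [h3, zero_add] at h
    exact ⟨h3, h4⟩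

theorem FV7_evenOdd : evenOdd ℝ = ∑ k ∈ Finset.range 5, ((-1 : ℝ) ^ k) • degP ℝ k := by
  ext s t
  rw [Matrix.sum_apply]
  by_cases hst : s = t
  · subst hst
    have hs : s.card ∈ Finset.range 5 := by
      have := Finset.card_le_univ s
      rw [Fintype.card_fin] at this
      rw [Finset.mem_range]
      omega
    rw [Finset.sum_eq_single s.card]
    · simp [evenOdd, degP]
    · intro k _ hk
      have hk' : ¬ s.card = k := fun h => hk h.symm
      simp [degP, hk']
    · intro h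
      exact absurd hs h
  · rw [Finset.sum_eq_zero]
    · simp [evenOdd, hst]
    · intro k _
      simp [degP, hst]

theorem FV7_mulV_sum {X : Type} [TopologicalSpace X] [ChartedSpace E4 X] {g : Metric X} {n : ℕ}
    (A : FAtlas X g n) (x : X) (s : Finset ℕ) (c : ℕ → ℝ) (M : ℕ → Matrix Lam Lam ℝ)
    (v : VV n) :
    A.mulV (∑ k ∈ s, c k • M k) x v = ∑ k ∈ s, c k • A.mulV (M k) x v := by
  unfold FAtlas.mulV
  rw [Matrix.mul_sum, Matrix.sum_mul]
  simp only [Matrix.mul_smul, Matrix.smul_mul, map_sum, map_smul]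
  rw [sum_apply]
  rfl

theorem thm_ChiTau (ms : claimMS) (dv : claimDirV) (ax : claimAHX) (b : claimBettiX)
    (_a1 : claimAH1) (a3 : claimAH3) (o : claimOpV) : claimChiTau := by
  intro X _ _ _ _ _ _ _ _ ho g n A D T K hfit hsem hker t ht
  obtain ⟨H, hH⟩ := ax X ho g n A
  obtain ⟨hdirac, hodd1, hodd2⟩ := dv X ho g n A D hfit
  obtain ⟨hbetti, hbp, hbm⟩ := b X ho g n A H hH
  obtain ⟨m, h, hsm, hp, hQ, horth, hcomp, htr⟩ :=
    ms X (VV n) D T K hsem hker A.pV A.dirV hdirac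
  have hmu : D.mu = g.vol := hfit.mu
  have hsec : ∀ j, h j ∈ A.Sec := fun j => ⟨(hfit.smooth _).1 (hsm j), hp j⟩
  set h' : Fin m → A.Sec := fun j => ⟨h j, hsec j⟩ with hh'
  have hdd : ∀ (u : A.Sec) x, (H.d u + H.del u : A.Sec).1 x = A.dirV u x := by
    intro u x
    have h1 : CkAt 1 (u : X → VV n) x := fun psi hpsi hx =>
      (u.2.1 x psi hpsi hx).of_le (by exact_mod_cast le_top)
    obtain ⟨-, h2, -⟩ := o X ho g n A u x h1
    rw [h2]
    change (H.d u : X → VV n) x + (H.del u : X → VV n) x = _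
    rw [hH.d, hH.del]
  have hharm : ∀ u : A.Sec, u ∈ H.harm ↔ ∀ x, A.dirV u x = 0 := by
    intro u
    rw [FV7_harm_iff]
    constructor
    · intro h0 x
      rw [← hdd, h0]
      rfl
    · intro h0
      apply Subtype.ext
      funext x
      rw [hdd, h0]
      rfl
  have k1 : ∀ j, h' j ∈ H.harm := fun j => (hharm _).2 (hQ j)
  have k2 : ∀ i j, H.B (h' i) (h' j) = if i = j then 1 else 0 := by
    intro i j
    rw [hH.B, ← horth i j, hmu]
  have k3 : ∀ u ∈ H.harm, u = ∑ j, H.B u (h' j) • h' j := by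
    intro u hu
    apply Subtype.ext
    funext x
    rw [hcomp u ((hfit.smooth _).2 u.2.1) u.2.2 ((hharm u).1 hu) x]
    have e : ((∑ j, H.B u (h' j) • h' j : A.Sec) : X → VV n) x =
        ∑ j, H.B u (h' j) • h j x := by
      rw [AddSubmonoidClass.coe_finsetSum, Finset.sum_apply]
      rfl
    rw [e]
    refine Finset.sum_congr rfl fun j _ => ?_
    rw [hH.B, hmu]
  obtain ⟨t1, t2⟩ := a3 A.Sec H m h' k1 k2 k3
  constructor
  · have e1 := htr _ hodd1 t ht
    rw [hmu] at e1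
    rw [e1]
    have e2 : ∀ j, ∫ y, ⟪A.mulV (evenOdd ℝ) y (h j y), h j y⟫ ∂g.vol =
        H.B (H.parity (h' j)) (h' j) := by
      intro j
      rw [hH.B]
      refine integral_congr_ae (Filter.Eventually.of_forall fun y => ?_)
      simp only
      congr 1
      have e3 : ((H.parity (h' j) : A.Sec) : X → VV n) y =
          ∑ k ∈ Finset.range 5, ((-1 : ℝ) ^ k) • A.mulV (degP ℝ k) y (h j y) := by
        unfold AHodge.parity
        rw [LinearMap.sum_apply, AddSubmonoidClass.coe_finsetSum, Finset.sum_apply]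
        refine Finset.sum_congr rfl fun k _ => ?_
        change ((-1 : ℝ) ^ k) • (H.N k (h' j) : X → VV n) y = _
        rw [hH.N]
      rw [e3, FV7_evenOdd, FV7_mulV_sum]
    simp only [e2]
    rw [t1]
    unfold eulerChar
    push_cast
    refine Finset.sum_congr rfl fun k _ => ?_
    rw [hbetti]
  · have e1 := htr _ hodd2 t ht
    rw [hmu] at e1
    rw [e1]
    have e2 : ∀ j, ∫ y, ⟪A.mulV (gam ℝ) y (h j y), h j y⟫ ∂g.vol =
        -H.B (H.star (h' j)) (h' j) := by
      intro j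
      rw [hH.B, ← integral_neg]
      refine integral_congr_ae (Filter.Eventually.of_forall fun y => ?_)
      simp only
      rw [hH.star, inner_neg_left, neg_neg]
    simp only [e2]
    rw [Finset.sum_neg_distrib, neg_neg, t2]
    unfold signature
    push_cast
    rw [hbp, hbm]

end NRF

end
end

section

/-!
# G2': existence of finite atlases adapted to a point
-/

set_option autoImplicit false

open scoped Manifold ContDiff Topology
open MeasureTheory Set

noncomputable section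

namespace NRF

/-! ### Locality -/

theorem G2p_frameOn_congr {U : Set E4} {G G' f : E4 → Matrix (Fin 4) (Fin 4) ℝ}
    (h : FrameOn U G f) (he : EqOn G' G U) : FrameOn U G' f where
  met :=
    { isOpen := h.met.isOpen
      smooth := fun i j => (h.met.smooth i j).congr fun y hy => by rw [he hy]
      posDef := fun y hy => by
        rw [he hy]
        exact h.met.posDef y hy }
  smooth := h.smooth
  orth := fun y hy => by
    rw [he hy]
    exact h.orth y hy
  det_pos := h.det_pos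

theorem G2p_omC_congr {U : Set E4} (hU : IsOpen U) {G G' f : E4 → Matrix (Fin 4) (Fin 4) ℝ}
    (he : EqOn G' G U) (i : Fin 4) {y : E4} (hy : y ∈ U) : omC G' f i y = omC G f i y := by
  have h := (thm_L0 U G' G (fun _ => 0) (fun _ => 0) (fun _ => 0) (fun _ => 0) hU he
    (fun _ _ => rfl) (fun _ _ => rfl) y hy).1
  unfold omC
  simp only [h]

/-! ### The special chart -/

theorem G2p_special (f5 : claimFC5) (n1 : claimN1) {X : Type} [TopologicalSpace X]
    [ChartedSpace E4 X] [IsManifold (𝓡 4) ∞ X] (hor : OrientedAtlas X) (g : Metric X) (x0 : X) :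
    ∃ (psi : OpenPartialHomeomorph X E4) (f : E4 → Matrix (Fin 4) (Fin 4) ℝ),
      psi ∈ SmCh X ∧ PosCh psi ∧ x0 ∈ psi.source ∧ psi x0 = 0 ∧
      FrameOn psi.target (g.mcoef psi) f ∧ g.mcoef psi 0 = 1 ∧
      (∀ i k l, pd i (fun z => g.mcoef psi z k l) 0 = 0) ∧
      ∀ i, omC (g.mcoef psi) f i 0 = 0 := by
  set e := chartAt E4 x0 with he
  have hesm : e ∈ SmCh X := G2_smCh x0
  have hx0 : x0 ∈ e.source := mem_chart_source E4 x0
  have hM : MetOn e.target (g.mcoef e) := (n1 X g).2.1 e hesm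
  obtain ⟨φ, f, h0, hφ0, hφt, hs, hs', hdet, hF, hone, hdm, -, -, hom⟩ :=
    f5 e.target (g.mcoef e) hM (e x0) (e.map_source hx0)
  set psi := e.trans φ.symm with hpsi
  have hcoe : ∀ x, psi x = φ.symm (e x) := fun x => rfl
  have hsym : ∀ z, psi.symm z = e.symm (φ z) := fun z => rfl
  have hsrc : psi.source = e.source ∩ e ⁻¹' φ.target := by
    rw [hpsi, OpenPartialHomeomorph.trans_source]
    rfl
  have htgt : psi.target = φ.source := by
    rw [hpsi, OpenPartialHomeomorph.trans_target]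
    show φ.source ∩ φ ⁻¹' e.target = φ.source
    refine inter_eq_left.2 fun z hz => hφt (φ.map_source hz)
  have hU : IsOpen φ.source := φ.open_source
  -- smoothness of the chart
  have h1 := contMDiffOn_of_mem_maximalAtlas (I := 𝓡 4) (n := ∞) hesm
  have h2 := contMDiffOn_symm_of_mem_maximalAtlas (I := 𝓡 4) (n := ∞) hesm
  have hsm : psi ∈ SmCh X := by
    refine OpenPartialHomeomorph.mem_maximalAtlas_of_contMDiffOn (I := 𝓡 4) (n := ∞) psi ?_ ?_
    · refine ((hs'.contMDiffOn).comp (s := psi.source) (h1.mono ?_) ?_).congr fun y _ => hcoe y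
      · rw [hsrc]
        exact inter_subset_left
      · rw [hsrc]
        exact inter_subset_right
    · refine (h2.comp (s := psi.target) (hs.contMDiffOn.mono ?_) ?_).congr fun y _ => hsym y
      · rw [htgt]
      · rw [htgt]
        exact fun z hz => hφt (φ.map_source hz)
  -- the change of coordinates to `e`
  have htr : EqOn (psi.symm.trans e : E4 → E4) φ φ.source := by
    intro z hz
    show e (e.symm (φ z)) = φ z
    exact e.right_inv (hφt (φ.map_source hz))
  have hmem : ∀ z ∈ φ.source, z ∈ (psi.symm.trans e).source := by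
    intro z hz
    rw [OpenPartialHomeomorph.trans_source]
    refine ⟨?_, ?_⟩
    · show z ∈ psi.target
      rw [htgt]
      exact hz
    · show e.symm (φ z) ∈ e.source
      exact e.map_target (hφt (φ.map_source hz))
  have hmc : EqOn (g.mcoef psi) (pullM φ (g.mcoef e)) φ.source := by
    intro z hz
    rw [(n1 X g).2.2 psi hsm e hesm z (hmem z hz)]
    have h3 : ∀ i, pd i (psi.symm.trans e : E4 → E4) z = pd i φ z := fun i => L0_pd hU htr i hz
    unfold pullM
    simp only [h3, htr hz]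
  refine ⟨psi, f, hsm, ?_, ?_, ?_, ?_, ?_, ?_, ?_⟩
  · -- positively oriented
    intro e' y hy
    have hyφ : y ∈ φ.source := by
      have : y ∈ psi.target := by
        rw [OpenPartialHomeomorph.trans_source] at hy
        exact hy.1
      rwa [htgt] at this
    have hy' : φ y ∈ (e.symm.trans e'.1).source := by
      rw [OpenPartialHomeomorph.trans_source] at hy ⊢
      exact ⟨hφt (φ.map_source hyφ), hy.2⟩
    have h3 : 0 < (fderiv ℝ (e.symm.trans e'.1) (φ y)).det := hor (chAt x0) e' _ hy'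
    have hd : DifferentiableAt ℝ (e.symm.trans e'.1) (φ y) := by
      by_contra hcon
      rw [fderiv_zero_of_not_differentiableAt hcon] at h3
      have h4 : (0 : E4 →L[ℝ] E4).det = 0 := by
        rw [ContinuousLinearMap.det, ContinuousLinearMap.toLinearMap_zero, LinearMap.det_zero]
        simp
      rw [h4] at h3
      exact lt_irrefl _ h3
    have hd' : DifferentiableAt ℝ φ y :=
      ((hs y hyφ).contDiffAt (hU.mem_nhds hyφ)).differentiableAt (by simp)
    have h6 := (hd.hasFDerivAt.comp y hd'.hasFDerivAt).fderiv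
    have h7 : (psi.symm.trans e'.1 : E4 → E4) = (e.symm.trans e'.1 : E4 → E4) ∘ φ := rfl
    rw [h7, h6]
    have h8 : ((fderiv ℝ (e.symm.trans e'.1) (φ y)).comp (fderiv ℝ φ y)).det =
        (fderiv ℝ (e.symm.trans e'.1) (φ y)).det * (fderiv ℝ φ y).det := by
      simp only [ContinuousLinearMap.det]
      exact LinearMap.det_comp _ _
    rw [h8]
    exact mul_pos h3 (hdet y hyφ)
  · rw [hsrc]
    refine ⟨hx0, ?_⟩
    show e x0 ∈ φ.target
    rw [← hφ0]
    exact φ.map_source h0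
  · rw [hcoe, ← hφ0]
    exact φ.left_inv h0
  · rw [htgt]
    exact G2p_frameOn_congr hF hmc
  · rw [hmc h0, hone]
  · intro i k l
    rw [← hdm i k l]
    exact L0_pd hU (fun z hz => by rw [hmc hz]) i h0
  · intro i
    rw [G2p_omC_congr hU hmc i h0, hom i]

/-! ### Scaling -/

theorem G2p_pd_scale {F : Type*} [NormedAddCommGroup F] [NormedSpace ℝ F] (c : ℝ) (h : E4 → F)
    (i : Fin 4) (z : E4) : pd i (fun w => h (c • w)) z = c • pd i h (c • z) := by
  unfold pd
  have h1 := fderiv_comp_smul (𝕜 := ℝ) (f := h) (x := z) c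
  rw [show (fun w => h (c • w)) = (h <| c • ·) from rfl, h1]
  rfl

theorem G2p_pd_const_mul (c : ℝ) (h : E4 → ℝ) (i : Fin 4) (z : E4) :
    pd i (fun w => c * h w) z = c * pd i h z := by
  unfold pd
  rw [show (fun w => c * h w) = c • h from rfl, fderiv_const_smul_field]
  rfl

theorem G2p_inv_smul {c : ℝ} (hc : c ≠ 0) {A : Matrix (Fin 4) (Fin 4) ℝ} (hA : A.det ≠ 0) :
    (c • A)⁻¹ = c⁻¹ • A⁻¹ := by
  have : Invertible c := invertibleOfNonzero hc
  rw [Matrix.inv_smul A c hA.isUnit, invOf_eq_inv]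

theorem G2p_chr_scale {c : ℝ} (hc : 0 < c) (G : E4 → Matrix (Fin 4) (Fin 4) ℝ) (z : E4)
    (hG : (G (c • z)).PosDef) (k i j : Fin 4) :
    chr (fun w => (c ^ 2) • G (c • w)) k i j z = c * chr G k i j (c • z) := by
  have h1 : ∀ a b d : Fin 4, pd a (fun w => c ^ 2 * G (c • w) b d) z =
      c ^ 3 * pd a (fun w => G w b d) (c • z) := by
    intro a b d
    rw [G2p_pd_const_mul, G2p_pd_scale c (fun w => G w b d), smul_eq_mul]
    ring
  have h2 : ((c ^ 2) • G (c • z))⁻¹ = (c ^ 2)⁻¹ • (G (c • z))⁻¹ :=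
    G2p_inv_smul (by positivity) (hG.det_pos).ne'
  unfold chr
  simp only [h2, Matrix.smul_apply, smul_eq_mul, h1]
  rw [mul_left_comm c, Finset.mul_sum Finset.univ _ c]
  congr 1
  refine Finset.sum_congr rfl fun l _ => ?_
  field_simp

theorem G2p_omC_scale {c : ℝ} (hc : 0 < c) (G f : E4 → Matrix (Fin 4) (Fin 4) ℝ) (z : E4)
    (hG : (G (c • z)).PosDef) (hf : (f (c • z)).det ≠ 0) (i : Fin 4) :
    omC (fun w => (c ^ 2) • G (c • w)) (fun w => c⁻¹ • f (c • w)) i z =
      c • omC G f i (c • z) := by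
  have h1 : ∀ k a : Fin 4, pd i (fun w => c⁻¹ * f (c • w) k a) z =
      pd i (fun w => f w k a) (c • z) := by
    intro k a
    rw [G2p_pd_const_mul, G2p_pd_scale c (fun w => f w k a), smul_eq_mul, ← mul_assoc,
      inv_mul_cancel₀ hc.ne', one_mul]
  have h2 : (c⁻¹ • f (c • z))⁻¹ = c • (f (c • z))⁻¹ := by
    rw [G2p_inv_smul (inv_ne_zero hc.ne') hf, inv_inv]
  unfold omC
  simp only [h2, Matrix.smul_apply, smul_eq_mul, h1, G2p_chr_scale hc G z hG]
  rw [Matrix.smul_mul]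
  congr 2
  have h3 : (Matrix.of fun k j => c * chr G k i j (c • z)) =
      c • (Matrix.of fun k j => chr G k i j (c • z)) := by
    ext k j
    rfl
  rw [h3, Matrix.smul_mul, Matrix.mul_smul, smul_smul, mul_inv_cancel₀ hc.ne', one_smul]

theorem G2p_frameOn_scale {c : ℝ} (hc : 0 < c) {U V : Set E4}
    {G f : E4 → Matrix (Fin 4) (Fin 4) ℝ} (h : FrameOn U G f) (hV : IsOpen V)
    (hm : MapsTo (fun z => c • z) V U) :
    FrameOn V (fun w => (c ^ 2) • G (c • w)) (fun w => c⁻¹ • f (c • w)) where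
  met :=
    { isOpen := hV
      smooth := fun i j => by
        have h1 : ContDiffOn ℝ ∞ (fun w => G (c • w) i j) V :=
          (h.met.smooth i j).comp (g := fun y => G y i j) (f := fun w : E4 => c • w)
            (by fun_prop) hm
        exact (contDiffOn_const (c := c ^ 2)).mul h1
      posDef := fun y hy => (h.met.posDef _ (hm hy)).smul (by positivity) }
  smooth := fun i j => by
    have h1 : ContDiffOn ℝ ∞ (fun w => f (c • w) i j) V :=
      (h.smooth i j).comp (g := fun y => f y i j) (f := fun w : E4 => c • w) (by fun_prop) hm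
    exact (contDiffOn_const (c := c⁻¹)).mul h1
  orth := fun y hy => by
    have h1 := h.orth _ (hm hy)
    simp only [Matrix.transpose_smul, Matrix.smul_mul, Matrix.mul_smul, smul_smul]
    rw [h1]
    rw [show c⁻¹ * (c ^ 2 * c⁻¹) = 1 by field_simp, one_smul]
  det_pos := fun y hy => by
    have h1 := h.det_pos _ (hm hy)
    rw [Matrix.det_smul]
    positivity

/-! ### The main theorem -/

theorem G2p_adapted (b4' : claimScaled) (f5 : claimFC5) (n1 : claimN1) {X : Type}
    [TopologicalSpace X] [ChartedSpace E4 X] [IsManifold (𝓡 4) ∞ X] (hor : OrientedAtlas X)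
    (g : Metric X) (x0 : X) :
    ∃ (psi : OpenPartialHomeomorph X E4) (f : E4 → Matrix (Fin 4) (Fin 4) ℝ) (κ : ℝ),
      psi ∈ SmCh X ∧ PosCh psi ∧ x0 ∈ psi.source ∧ psi x0 = 0 ∧
      Metric.closedBall 0 3 ⊆ psi.target ∧
      FrameOn psi.target (g.mcoef psi) f ∧ 0 < κ ∧
      g.mcoef psi 0 = κ⁻¹ • (1 : Matrix (Fin 4) (Fin 4) ℝ) ∧
      (∀ i k l, pd i (fun z => g.mcoef psi z k l) 0 = 0) ∧
      ∀ i, omC (g.mcoef psi) f i 0 = 0 := by
  obtain ⟨psi, f, hsm, hpos, hx, hz, hF, h1, hd, hom⟩ := G2p_special f5 n1 hor g x0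
  obtain ⟨c, psi', hc, hsm', hx', hsub, hval, hz', hb, hpos'⟩ :=
    b4' X psi hsm x0 hx univ isOpen_univ (mem_univ x0)
  have hval' : ∀ y ∈ psi'.source, psi' y = c⁻¹ • psi y := by
    intro y hy
    rw [hval y hy, hz, sub_zero]
  have hback : ∀ z ∈ psi'.target, psi (psi'.symm z) = c • z := by
    intro z hz
    have h2 := hval' _ (psi'.map_target hz)
    rw [psi'.right_inv hz] at h2
    have h3 : c • z = c • (c⁻¹ • psi (psi'.symm z)) := by rw [← h2]
    rw [h3, smul_smul, mul_inv_cancel₀ hc.ne', one_smul]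
  have hm : MapsTo (fun z => c • z) psi'.target psi.target := by
    intro z hz
    show c • z ∈ psi.target
    rw [← hback z hz]
    exact psi.map_source (hsub (psi'.map_target hz)).1
  have htr : EqOn (psi'.symm.trans psi : E4 → E4) (fun z => c • z) psi'.target :=
    fun z hz => hback z hz
  have hV : IsOpen psi'.target := psi'.open_target
  have hmem : ∀ z ∈ psi'.target, z ∈ (psi'.symm.trans psi).source := by
    intro z hz
    rw [OpenPartialHomeomorph.trans_source]
    exact ⟨hz, (hsub (psi'.map_target hz)).1⟩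
  have hmc : EqOn (g.mcoef psi') (fun z => (c ^ 2) • g.mcoef psi (c • z)) psi'.target := by
    intro z hz
    rw [(n1 X g).2.2 psi' hsm' psi hsm z (hmem z hz)]
    have h3 : ∀ i, pd i (psi'.symm.trans psi : E4 → E4) z = c • bv i := by
      intro i
      rw [L0_pd hV htr i hz]
      unfold pd
      rw [fderiv_fun_const_smul (by fun_prop)]
      simp
    ext i j
    unfold pullM
    simp only [h3, htr hz, Matrix.of_apply, Matrix.smul_apply, smul_eq_mul, PiLp.smul_apply, bv]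
    rw [Finset.sum_eq_single i, Finset.sum_eq_single j]
    · simp
      left
      ring
    · intro b _ hb
      simp [hb]
    · simp
    · intro b _ hb
      refine Finset.sum_eq_zero fun l _ => ?_
      simp [hb]
    · simp
  have h0t : (0 : E4) ∈ psi'.target := hb (by simp)
  have h0t' : c • (0 : E4) ∈ psi.target := hm h0t
  have hPD := hF.met.posDef _ h0t'
  refine ⟨psi', fun w => c⁻¹ • f (c • w), (c ^ 2)⁻¹, hsm', hpos' hpos, hx', hz', hb, ?_,
    by positivity, ?_, ?_, ?_⟩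
  · exact G2p_frameOn_congr (G2p_frameOn_scale hc hF hV hm) hmc
  · rw [hmc h0t]
    simp only [smul_zero, inv_inv]
    rw [h1]
  · intro i k l
    have h4 : pd i (fun z => g.mcoef psi' z k l) 0 =
        pd i (fun z => ((c ^ 2) • g.mcoef psi (c • z)) k l) 0 :=
      L0_pd hV (fun z hz => by rw [hmc hz]) i h0t
    have h5 : (fun z => ((c ^ 2) • g.mcoef psi (c • z)) k l) =
        fun z => c ^ 2 * g.mcoef psi (c • z) k l := rfl
    rw [h4, h5, G2p_pd_const_mul, G2p_pd_scale c (fun w => g.mcoef psi w k l), smul_zero, hd i k l]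
    simp
  · intro i
    rw [G2p_omC_congr hV hmc i h0t, G2p_omC_scale hc _ _ _ hPD (hF.det_pos _ h0t').ne' i,
      smul_zero, hom i, smul_zero]

theorem thm_FAt0 (b4 : claimAtlas) (b4' : claimScaled) (f1 : claimFC1) (f5 : claimFC5)
    (n1 : claimN1) (_n0 : claimN0) : claimFAt0 := by
  intro X _ _ _ _ _ _ hor g x0
  obtain ⟨psi0, f0, κ, hsm, hpos, hx, hz, hb0, hF, hκ, hmet, hdmet, hom⟩ :=
    G2p_adapted b4' f5 n1 hor g x0
  obtain ⟨n, psi, chi, rho, hp0, hS, hb, h, hone, h1, h2⟩ :=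
    b4 X {psi : OpenPartialHomeomorph X E4 | psi ∈ SmCh X ∧ PosCh psi} (fun _ hp => hp.1)
      (G2_chart b4' hor) psi0 ⟨hsm, hpos⟩ hb0
  have hfr : ∀ i, ∃ f, FrameOn (psi i).target (g.mcoef (psi i)) f ∧ (i = 0 → f = f0) := by
    intro i
    by_cases hi : i = 0
    · subst hi
      rw [hp0]
      exact ⟨f0, hF, fun _ => rfl⟩
    · obtain ⟨f, hf⟩ := G2_frame f1 n1 g (psi i) (hS i).1
      exact ⟨f, hf, fun h => absurd h hi⟩
  choose f hf hf0 using hfr
  obtain ⟨A, hA, hAchi, hArho⟩ := G2_mk g psi chi rho hS hb h h1 h2 f hf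
  have hA1 : (A.c 0).psi = psi0 := by rw [(hA 0).1, hp0]
  have hA2 : (A.c 0).f = f0 := by rw [(hA 0).2, hf0 0 rfl]
  have hG : (A.c 0).G = g.mcoef psi0 := by
    unfold FChart.G
    rw [hA1]
  refine ⟨n, A, κ, hκ, ?_, ?_, ?_, ?_, ?_, ?_⟩
  · rw [hA1]
    exact hx
  · rw [hA1]
    exact hz
  · rw [hAchi, hArho]
    exact hone
  · rw [hG, hmet]
  · rw [hG]
    exact hdmet
  · rw [hG, hA2]
    exact hom

end NRF

end
end

section

/-!
# Module D, part 6: independence of the embedding, local identification, the index inequality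
-/

open scoped Manifold ContDiff Topology RealInnerProductSpace
open MeasureTheory Set

noncomputable section

namespace NRF

/-- The expansion of the heat kernel on the diagonal. -/
def HeatData.Expands {X : Type} [TopologicalSpace X] [MeasurableSpace X] {V : Type}
    [NormedAddCommGroup V] [InnerProductSpace ℝ V] [FiniteDimensional ℝ V] (_ : HeatData X V)
    (K : ℝ → X → X → V →L[ℝ] V) (c : ℕ → X → V →L[ℝ] V) : Prop :=
  ∃ C : ℝ, ∀ t ∈ Ioc (0 : ℝ) 1, ∀ y,
    ‖t ^ 2 • K t y y - ∑ w ∈ Finset.range 5, Real.sqrt t ^ w • c w y‖ ≤ C * Real.sqrt t ^ 5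

/-- L1: the traces on the diagonal do not depend on the embedding. -/
def claimIndep : Prop :=
  ∀ (X : Type) [TopologicalSpace X] [T2Space X] [CompactSpace X] [ConnectedSpace X]
    [ChartedSpace E4 X] [IsManifold (𝓡 4) ∞ X] [MeasurableSpace X] [BorelSpace X],
    OrientedAtlas X → ∀ (g : Metric X) (n n' : ℕ) (A : FAtlas X g n) (A' : FAtlas X g n')
    (D : HeatData X (VV n)) (D' : HeatData X (VV n'))
    (T : ℝ → (X → VV n) → X → VV n) (K : ℝ → X → X → VV n →L[ℝ] VV n)
    (T' : ℝ → (X → VV n') → X → VV n') (K' : ℝ → X → X → VV n' →L[ℝ] VV n'),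
    A.Fits D → A'.Fits D' → D.IsSemigroup T → D.IsKernel T K → D'.IsSemigroup T' →
    D'.IsKernel T' K' → ∀ M, LamInv M → ∀ t, 0 < t → ∀ x,
      trC ((A.mulV M x).comp (K t x x)) = trC ((A'.mulV M x).comp (K' t x x))

/-- L2: the same for the coefficients of the expansion. -/
def claimCoefIndep : Prop :=
  ∀ (X : Type) [TopologicalSpace X] [T2Space X] [CompactSpace X] [ConnectedSpace X]
    [ChartedSpace E4 X] [IsManifold (𝓡 4) ∞ X] [MeasurableSpace X] [BorelSpace X],
    OrientedAtlas X → ∀ (g : Metric X) (n n' : ℕ) (A : FAtlas X g n) (A' : FAtlas X g n')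
    (D : HeatData X (VV n)) (D' : HeatData X (VV n'))
    (T : ℝ → (X → VV n) → X → VV n) (K : ℝ → X → X → VV n →L[ℝ] VV n)
    (T' : ℝ → (X → VV n') → X → VV n') (K' : ℝ → X → X → VV n' →L[ℝ] VV n')
    (c : ℕ → X → VV n →L[ℝ] VV n) (c' : ℕ → X → VV n' →L[ℝ] VV n'),
    A.Fits D → A'.Fits D' → D.IsSemigroup T → D.IsKernel T K → D'.IsSemigroup T' →
    D'.IsKernel T' K' → D.Expands K c → D'.Expands K' c' → ∀ M, LamInv M → ∀ x,
      trC ((A.mulV M x).comp (c 4 x)) = trC ((A'.mulV M x).comp (c' 4 x))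

/-- L3: the local inequality at the centre of an adapted atlas. -/
def claimPoint : Prop :=
  ∀ (X : Type) [TopologicalSpace X] [T2Space X] [CompactSpace X] [ConnectedSpace X]
    [ChartedSpace E4 X] [IsManifold (𝓡 4) ∞ X] [MeasurableSpace X] [BorelSpace X],
    OrientedAtlas X → ∀ (g : Metric X) (n : ℕ) (A : FAtlas X g n) (x0 : X) (κ : ℝ)
    (D : HeatData X (VV n)) (c : ℕ → X → VV n →L[ℝ] VV n)
    (P : D.g.I → ℕ → ℝ → E4 → E4 → (VV n →L[ℝ] VV n)), A.Adapted x0 κ → A.Fits D →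
    D.IsDiag c P → ∀ σ : ℝ, (σ = 1 ∨ σ = -1) →
      (1 / (4 * Real.pi ^ 2)) * (g.scal x0 ^ 2 / 24 - g.ric0Sq x0 / 2) ≤
        2 * trC ((A.mulV (evenOdd ℝ) x0).comp (c 4 x0)) -
          3 * σ * trC ((A.mulV (gam ℝ) x0).comp (c 4 x0))

/-- L4: assembly of the index inequality. -/
def claimIndexOf : Prop :=
  claimFAt → claimFAt0 → claimHeatV → claimKernelP → claimChiTau → claimSmallTime → claimEmb →
    claimCoefIndep → claimPoint → claimBasic → claimIndex

end NRF

end
end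

section

/-!
# Item E13: the trace of the square of the curvature term with `gam`
-/

noncomputable section

namespace NRF

open Matrix Finset

set_option maxRecDepth 100000 in
theorem EI13_tab : ∀ i j k l : Fin 6,
    EI12_tr (EI12_comp EI12_gm (EI12_comp (EI12_w i j) (EI12_w k l))) =
      if k = Fin.rev i ∧ l = j then -16 * EI12_s i else 0 := by
  decide +kernel

theorem EI13_tab1 : ∀ i j : Fin 6,
    EI12_tr (EI12_comp EI12_gm (EI12_w i j)) = 0 := by
  decide +kernel

theorem EI13_tab0 : EI12_tr EI12_gm = 0 := by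
  decide +kernel

theorem EI13_tr0 : (gam ℝ).trace = 0 := by
  rw [← EI12_R_gam, EI12_R_trace, EI12_trace EI12_rep_gam, EI13_tab0, Int.cast_zero]

theorem EI13_tr1 (i j : Fin 6) : (gam ℝ * (EI12_ER i * EI12_FR j)).trace = 0 := by
  rw [← EI12_R_gam, ← EI12_R_E, ← EI12_R_F, ← EI12_R_mul, ← EI12_R_mul, EI12_R_trace,
    EI12_trace (EI12_rep_mul EI12_rep_gam (EI12_rep_w i j)), EI13_tab1, Int.cast_zero]

theorem EI13_tr2 (i j k l : Fin 6) :
    (gam ℝ * ((EI12_ER i * EI12_FR j) * (EI12_ER k * EI12_FR l))).trace =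
      if k = Fin.rev i ∧ l = j then -16 * (EI12_s i : ℝ) else 0 := by
  rw [← EI12_R_gam, ← EI12_R_E, ← EI12_R_F, ← EI12_R_E, ← EI12_R_F, ← EI12_R_mul, ← EI12_R_mul,
    ← EI12_R_mul, ← EI12_R_mul, EI12_R_trace,
    EI12_trace (EI12_rep_mul EI12_rep_gam (EI12_rep_mul (EI12_rep_w i j) (EI12_rep_w k l))),
    EI13_tab]
  split_ifs
  · push_cast
    ring
  · exact Int.cast_zero

theorem thm_TrW2 : claimTrW2 := by
  intro Q hQ
  have h : (gam ℝ * (weitz Q * weitz Q)).trace = (1 / 4) * ∑ i, ∑ j,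
      EI12_Q Q i j * EI12_Q Q (Fin.rev i) j * (-16 * (EI12_s i : ℝ)) := by
    rw [EI12_traceSq Q hQ (gam ℝ) EI13_tr0 EI13_tr1]
    congr 1
    refine Finset.sum_congr rfl fun i _ => Finset.sum_congr rfl fun j _ => ?_
    rw [Finset.sum_eq_single (Fin.rev i)]
    · rw [Finset.sum_eq_single j]
      · rw [EI13_tr2, if_pos ⟨rfl, rfl⟩]
      · intro l _ hl
        rw [EI13_tr2, if_neg (fun h => hl h.2), mul_zero]
      · intro h
        exact absurd (Finset.mem_univ _) h
    · intro k _ hk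
      refine Finset.sum_eq_zero fun l _ => ?_
      rw [EI13_tr2, if_neg (fun h => hk h.1), mul_zero]
    · intro h
      exact absurd (Finset.mem_univ _) h
  rw [h]
  have r0 : Fin.rev (0 : Fin 6) = 5 := rfl
  have r1 : Fin.rev (1 : Fin 6) = 4 := rfl
  have r2 : Fin.rev (2 : Fin 6) = 3 := rfl
  have r3 : Fin.rev (3 : Fin 6) = 2 := rfl
  have r4 : Fin.rev (4 : Fin 6) = 1 := rfl
  have r5 : Fin.rev (5 : Fin 6) = 0 := rfl
  have s0 : EI12_s 0 = 1 := rfl
  have s1 : EI12_s 1 = -1 := rfl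
  have s2 : EI12_s 2 = 1 := rfl
  have s3 : EI12_s 3 = 1 := rfl
  have s4 : EI12_s 4 = -1 := rfl
  have s5 : EI12_s 5 = 1 := rfl
  have p0 : EI12_p 0 = 0 := rfl
  have p1 : EI12_p 1 = 0 := rfl
  have p2 : EI12_p 2 = 0 := rfl
  have p3 : EI12_p 3 = 1 := rfl
  have p4 : EI12_p 4 = 1 := rfl
  have p5 : EI12_p 5 = 2 := rfl
  have q0 : EI12_q 0 = 1 := rfl
  have q1 : EI12_q 1 = 2 := rfl
  have q2 : EI12_q 2 = 3 := rfl
  have q3 : EI12_q 3 = 2 := rfl
  have q4 : EI12_q 4 = 3 := rfl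
  have q5 : EI12_q 5 = 3 := rfl
  have hz : ∀ a b c, Q a b c c = 0 := fun a b c => by have := hQ.anti2 a b c c; linarith
  have a1 : ∀ a b, Q a b 1 0 = -Q a b 0 1 := fun a b => hQ.anti2 a b 1 0
  have a2 : ∀ a b, Q a b 2 0 = -Q a b 0 2 := fun a b => hQ.anti2 a b 2 0
  have a3 : ∀ a b, Q a b 3 0 = -Q a b 0 3 := fun a b => hQ.anti2 a b 3 0
  have a4 : ∀ a b, Q a b 2 1 = -Q a b 1 2 := fun a b => hQ.anti2 a b 2 1
  have a5 : ∀ a b, Q a b 3 1 = -Q a b 1 3 := fun a b => hQ.anti2 a b 3 1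
  have a6 : ∀ a b, Q a b 3 2 = -Q a b 2 3 := fun a b => hQ.anti2 a b 3 2
  simp only [Fin.sum_univ_six, Fin.sum_univ_four, EI12_Q, pf2, r0, r1, r2, r3, r4, r5,
    s0, s1, s2, s3, s4, s5, p0, p1, p2, p3, p4, p5, q0, q1, q2, q3, q4, q5, hz, a1, a2, a3,
    a4, a5, a6]
  push_cast
  ring

end NRF

end
end
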