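import Pool.Agent.Work.MP_7f974f_gt.Bd.B12
import Pool.Agent.Work.MP_7f974f_gt.Bd.B13
import Pool.Agent.Work.MP_7f974f_gt.Bd.B04
import Pool.Agent.Work.MP_7f974f_gt.Bd.B11
import Pool.Agent.Work.MP_7f974f_gt.Bd.B07
import Pool.Agent.Work.MP_7f974f_gt.Bd.B05
import Pool.Agent.Work.MP_7f974f_gt.B4
import Pool.Agent.Work.MP_7f974f_gt.Bd.B02
import Pool.Agent.Work.MP_7f974f_gt.Bd.B01
import Pool.Agent.Work.MP_7f974f_gt.C2
import Pool.Agent.Work.MP_7f974f_gt.C7b
import Pool.Agent.Work.MP_7f974f_gt.C9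
import Pool.Agent.Work.MP_7f974f_gt.Bd.B10
import Pool.Agent.Work.MP_7f974f_gt.Bd.B09
import Pool.Agent.Work.MP_7f974f_gt.G6
import Pool.Agent.Work.MP_7f974f_gt.EI5
import Pool.Agent.Work.MP_7f974f_gt.Gm

/-! Bundle of small proof modules (one section per former module). -/

section

/-!
# Item Gi: the gradient estimate
-/

open scoped Manifold ContDiff Topology
open MeasureTheory Set

noncomputable section

namespace NRF

/-! ### Calculus -/

theorem Gi_near {f : E4 → ℝ} {x : E4} (hf : ContDiffAt ℝ 2 f x) :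
    ∀ᶠ z in 𝓝 x, DifferentiableAt ℝ f z := by
  have h := hf.eventually (by simp)
  filter_upwards [h] with z hz
  exact hz.differentiableAt (by norm_num)

theorem Gi_pd_eventually {u v : E4 → ℝ} {x : E4} (h : u =ᶠ[𝓝 x] v) (i : Fin 4) :
    pd i u =ᶠ[𝓝 x] pd i v := by
  filter_upwards [h.eventuallyEq_nhds] with z hz
  unfold pd
  rw [hz.fderiv_eq]

theorem Gi_lapl_congr (G : E4 → Matrix (Fin 4) (Fin 4) ℝ) {u v : E4 → ℝ} {x : E4}
    (h : u =ᶠ[𝓝 x] v) : laplC G u x = laplC G v x := by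
  have h1 : ∀ k, pd k u x = pd k v x := fun k => (Gi_pd_eventually h k).self_of_nhds
  have h2 : ∀ i j, pd i (pd j u) x = pd i (pd j v) x := fun i j =>
    (Gi_pd_eventually (Gi_pd_eventually h j) i).self_of_nhds
  unfold laplC hessC
  simp only [h1, h2]

theorem Gi_grad_congr (G : E4 → Matrix (Fin 4) (Fin 4) ℝ) {u v : E4 → ℝ} {x : E4}
    (h : u =ᶠ[𝓝 x] v) : gradSqC G u x = gradSqC G v x := by
  have h1 : ∀ k, pd k u x = pd k v x := fun k => (Gi_pd_eventually h k).self_of_nhds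
  unfold gradSqC
  simp only [h1]

theorem Gi_pd_diff {f : E4 → ℝ} {x : E4} (hf : ContDiffAt ℝ 2 f x) (j : Fin 4) :
    DifferentiableAt ℝ (pd j f) x := FC3_diffAt_pd hf j

/-- The Laplacian of `a f + v²`. -/
theorem Gi_lapl (G : E4 → Matrix (Fin 4) (Fin 4) ℝ) (a : ℝ) {f v : E4 → ℝ} {x : E4}
    (hf : ContDiffAt ℝ 2 f x) (hv : ContDiffAt ℝ 2 v x) :
    laplC G (fun z => a * f z + v z ^ 2) x =
      a * laplC G f x + 2 * v x * laplC G v x + 2 * gradSqC G v x := by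
  have e1 : ∀ z, DifferentiableAt ℝ f z → DifferentiableAt ℝ v z → ∀ j,
      pd j (fun z => a * f z + v z ^ 2) z = a * pd j f z + 2 * (v z * pd j v z) := by
    intro z hfz hvz j
    have h1 : (fun z => a * f z + v z ^ 2) = fun z => (a * f z) + (v z * v z) := by
      funext z; ring
    have hvv : DifferentiableAt ℝ (fun z => v z * v z) z := hvz.mul hvz
    rw [h1, FC3_pd_add (hfz.const_mul a) hvv, FC3_pd_mul hvz hvz,
      FC3_pd_mul (differentiableAt_const a) hfz]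
    have h2 : pd j (fun _ : E4 => a) z = 0 := by unfold pd; simp
    rw [h2]
    ring
  have hfx := hf.differentiableAt (by norm_num : (2 : WithTop ℕ∞) ≠ 0)
  have hvx := hv.differentiableAt (by norm_num : (2 : WithTop ℕ∞) ≠ 0)
  have e2 : ∀ i j, pd i (pd j (fun z => a * f z + v z ^ 2)) x =
      a * pd i (pd j f) x + 2 * (pd i v x * pd j v x + v x * pd i (pd j v) x) := by
    intro i j
    have h1 : pd j (fun z => a * f z + v z ^ 2) =ᶠ[𝓝 x]
        fun z => a * pd j f z + 2 * (v z * pd j v z) := by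
      filter_upwards [Gi_near hf, Gi_near hv] with z hfz hvz
      exact e1 z hfz hvz j
    rw [(Gi_pd_eventually h1 i).self_of_nhds]
    have h3 := Gi_pd_diff hf j
    have h4 := Gi_pd_diff hv j
    have hc : ∀ c : ℝ, pd i (fun _ : E4 => c) x = 0 := fun c => by unfold pd; simp
    have h5 : DifferentiableAt ℝ (fun z => v z * pd j v z) x := hvx.mul h4
    rw [FC3_pd_add (h3.const_mul a) (h5.const_mul 2),
      FC3_pd_mul (differentiableAt_const a) h3,
      FC3_pd_mul (differentiableAt_const 2) h5, FC3_pd_mul hvx h4, hc, hc]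
    ring
  unfold laplC hessC gradSqC
  simp only [e1 x hfx hvx, e2]
  simp only [Finset.mul_sum]
  rw [← Finset.sum_add_distrib, ← Finset.sum_add_distrib]
  refine Finset.sum_congr rfl fun i _ => ?_
  rw [← Finset.sum_add_distrib, ← Finset.sum_add_distrib]
  refine Finset.sum_congr rfl fun j _ => ?_
  have h5 : ∑ k, chr G k i j x * (a * pd k f x + 2 * (v x * pd k v x)) =
      a * (∑ k, chr G k i j x * pd k f x) + 2 * v x * (∑ k, chr G k i j x * pd k v x) := by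
    rw [Finset.mul_sum, Finset.mul_sum, ← Finset.sum_add_distrib]
    exact Finset.sum_congr rfl fun k _ => by ring
  rw [h5]
  ring

/-- The flow shifted in time. -/
theorem Gi_shift {O : Set E4} {G : ℝ → E4 → Matrix (Fin 4) (Fin 4) ℝ} {c : ℝ → ℝ}
    (hO : IsOpen O) (h : FlowOn (Ioi 0 ×ˢ O) G c) (t0 : ℝ) :
    FlowOn (Ioi (-t0) ×ˢ O) (fun t => G (t0 + t)) (fun t => c (t0 + t)) := by
  have hm : MapsTo (fun p : ℝ × E4 => ((t0 + p.1, p.2) : ℝ × E4)) (Ioi (-t0) ×ˢ O)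
      (Ioi 0 ×ˢ O) := by
    intro p hp
    refine ⟨?_, hp.2⟩
    have := hp.1
    simp only [mem_Ioi] at this ⊢
    linarith
  refine ⟨⟨isOpen_Ioi.prod hO, fun i j => ?_, fun p hp => h.met.posDef _ (hm hp)⟩,
    fun p hp i j => ?_⟩
  · exact (h.met.smooth i j).comp
      ((contDiffOn_const.add contDiffOn_fst).prodMk contDiffOn_snd) hm
  · have := h.eqn _ (hm hp) i j
    exact HasDerivAt.comp_const_add t0 p.1 this

/-! ### Charts of the geometry -/

section

variable {X : Type} [TopologicalSpace X] [ChartedSpace E4 X] {U : UCover X}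
  {h : ℝ → Metric X} (Γ : GeomCov U h)

theorem Gi_sub (i : Γ.γ.I) {x : E4} (hx : x ∈ Metric.ball (0 : E4) (3 / 2)) :
    x ∈ (Γ.γ.psi i).target := by
  refine Γ.γ.target i ?_
  rw [Metric.mem_ball, dist_zero_right] at hx
  rw [Metric.mem_closedBall, dist_zero_right]
  linarith

theorem Gi_p (i : Γ.γ.I) {x : E4} (hx : x ∈ (Γ.γ.psi i).target) :
    U.p ((Γ.γ.psi i).symm x) = (Γ.base (Γ.idx i).2).symm x := by
  have h1 := (Γ.γ.psi i).map_target hx
  obtain ⟨h2, h3⟩ := Γ.lift i _ h1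
  rw [(Γ.γ.psi i).right_inv hx] at h3
  have h4 := (Γ.base (Γ.idx i).2).left_inv h2
  rw [← h3] at h4
  exact h4.symm

/-- The coordinate change between two charts of the geometry. -/
theorem Gi_change (i i' : Γ.γ.I) {x : E4} (hx : x ∈ (Γ.γ.psi i).target)
    (hi : (Γ.γ.psi i).symm x ∈ (Γ.γ.psi i').source) :
    x ∈ ((Γ.base (Γ.idx i).2).symm.trans (Γ.base (Γ.idx i').2)).source ∧
    ((Γ.base (Γ.idx i).2).symm.trans (Γ.base (Γ.idx i').2)) x =
      Γ.γ.psi i' ((Γ.γ.psi i).symm x) ∧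
    ∀ᶠ w in 𝓝 x, (Γ.γ.psi i).symm w =
      (Γ.γ.psi i').symm (((Γ.base (Γ.idx i).2).symm.trans (Γ.base (Γ.idx i').2)) w) := by
  have hB := Γ.lift i' _ hi
  rw [Gi_p Γ i hx] at hB
  refine ⟨?_, hB.2.symm, ?_⟩
  · rw [OpenPartialHomeomorph.trans_source]
    refine ⟨?_, hB.1⟩
    rw [OpenPartialHomeomorph.symm_source, ← Γ.tgt i]
    exact hx
  · have t0 : Filter.Tendsto (Γ.γ.psi i).symm (𝓝 x) (𝓝 ((Γ.γ.psi i).symm x)) :=
      (Γ.γ.psi i).continuousAt_symm hx
    filter_upwards [t0.eventually_mem ((Γ.γ.psi i').open_source.mem_nhds hi),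
      (Γ.γ.psi i).open_target.mem_nhds hx] with w w1 w2
    have h1 := (Γ.lift i' _ w1).2
    rw [Gi_p Γ i w2] at h1
    show (Γ.γ.psi i).symm w =
      (Γ.γ.psi i').symm (Γ.base (Γ.idx i').2 ((Γ.base (Γ.idx i).2).symm w))
    rw [← h1, (Γ.γ.psi i').left_inv w1]

/-- The squared length of the gradient does not depend on the chart. -/
theorem Gi_nat [IsManifold (𝓡 4) ∞ X] (g : Metric X) (v : U.Y → ℝ) (i i' : Γ.γ.I) {x : E4}
    (hx : x ∈ (Γ.γ.psi i).target)
    (hi : (Γ.γ.psi i).symm x ∈ (Γ.γ.psi i').source)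
    (hd : DifferentiableAt ℝ (fun w => v ((Γ.γ.psi i').symm w)) (Γ.γ.psi i' ((Γ.γ.psi i).symm x))) :
    gradSqC (g.mcoef (Γ.base (Γ.idx i).2)) (fun w => v ((Γ.γ.psi i).symm w)) x =
      gradSqC (g.mcoef (Γ.base (Γ.idx i').2)) (fun w => v ((Γ.γ.psi i').symm w))
        (Γ.γ.psi i' ((Γ.γ.psi i).symm x)) := by
  obtain ⟨s1, s2, s3⟩ := Gi_change Γ i i' hx hi
  set B := Γ.base (Γ.idx i).2 with hB
  set B' := Γ.base (Γ.idx i').2 with hB'
  set τ := B.symm.trans B' with hτ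
  have hmap : MapsTo τ τ.source B'.target := by
    intro y hy
    rw [hτ, OpenPartialHomeomorph.trans_source] at hy
    exact B'.map_source hy.2
  obtain ⟨m1, m2, -, -⟩ := claimMcoef_proof X g B' (Γ.base_mem _)
  obtain ⟨-, -, -, m4⟩ := claimMcoef_proof X g B (Γ.base_mem _)
  have hn := (prf_Nat (g.mcoef B) (g.mcoef B') τ τ.source B'.target τ.open_source
    B'.open_target (N0_smooth (Γ.base_mem _) (Γ.base_mem _)) hmap m1 m2
    (thm_N0 X B (Γ.base_mem _) B' (Γ.base_mem _)).2 (m4 B' (Γ.base_mem _))).2.2.2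
    (fun w => v ((Γ.γ.psi i').symm w)) x s1 (by rw [s2]; exact hd)
  rw [← s2, ← hn]
  refine Gi_grad_congr _ ?_
  filter_upwards [s3] with w hw
  rw [hw]

end

/-! ### The function `a(t)` -/

theorem Gi_aK_nonneg {κ t : ℝ} (hκ : 0 < κ) (ht : 0 ≤ t) : 0 ≤ aK κ t := by
  unfold aK
  have h1 : Real.exp (-κ * t / 2) ≤ 1 := by
    rw [Real.exp_le_one_iff]
    have := mul_nonneg hκ.le ht
    linarith
  have h2 : 0 < 4 / κ := by positivity
  exact mul_nonneg h2.le (by linarith)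

theorem Gi_aK_le {κ t : ℝ} (hκ : 0 < κ) : aK κ t ≤ 4 / κ := by
  unfold aK
  have h1 : 0 < Real.exp (-κ * t / 2) := Real.exp_pos _
  have h2 : 0 < 4 / κ := by positivity
  nlinarith

theorem Gi_aK_zero (κ : ℝ) : aK κ 0 = 0 := by simp [aK]

theorem Gi_aK_deriv {κ : ℝ} (hκ : 0 < κ) (t : ℝ) :
    HasDerivAt (aK κ) (2 - κ / 2 * aK κ t) t := by
  have h1 : HasDerivAt (fun t : ℝ => -κ * t / 2) (-κ / 2) t := by
    have := ((hasDerivAt_id t).const_mul (-κ)).div_const 2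
    simpa using this
  have h2 := ((hasDerivAt_const t (1 : ℝ)).sub h1.exp).const_mul (4 / κ)
  have h3 : (4 / κ) * (0 - Real.exp (-κ * t / 2) * (-κ / 2)) = 2 - κ / 2 * aK κ t := by
    unfold aK
    field_simp
    ring
  rw [h3] at h2
  exact h2

/-! ### The estimate -/

theorem Gi_pd_neg (f : E4 → ℝ) (x : E4) (l : Fin 4) : pd l (fun w => -f w) x = -pd l f x := by
  unfold pd
  rw [fderiv_fun_neg]
  rfl

theorem Gi_bound {X : Type} [TopologicalSpace X] [ChartedSpace E4 X] [IsManifold (𝓡 4) ∞ X]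
    {U : UCover X} {h : ℝ → Metric X} (Γ : GeomCov U h)
    (G : Fin (Γ.n + 1) → ℝ → E4 → Matrix (Fin 4) (Fin 4) ℝ) {t0 T : ℝ} (ht0 : 0 < t0)
    (hG : ∀ j, SmoothMet (Ioi (-t0) ×ˢ (Γ.base j).target) (G j)) :
    ∃ S : ℝ, 0 ≤ S ∧ ∀ j, ∀ t ∈ Icc 0 T, ∀ x ∈ Metric.ball (0 : E4) (3 / 2), ∀ (w : E4 → ℝ) (C : ℝ),
      (∀ l, |pd l w x| ≤ C) → gradSqC (G j t) w x ≤ S * C ^ 2 := by
  have hsub : ∀ j, Icc 0 T ×ˢ Metric.closedBall (0 : E4) (3 / 2) ⊆
      Ioi (-t0) ×ˢ (Γ.base j).target := by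
    intro j p hp
    refine ⟨?_, ?_⟩
    · have := hp.1.1
      simp only [mem_Ioi]
      linarith
    · have h1 := Γ.γ.target (Γ.idx.symm (1, j))
      rw [Γ.tgt, Equiv.apply_symm_apply] at h1
      exact h1 (Metric.closedBall_subset_closedBall (by norm_num) hp.2)
  have hbd : ∀ (j : Fin (Γ.n + 1)) (k l : Fin 4), ∃ C : ℝ,
      ∀ p ∈ Icc 0 T ×ˢ Metric.closedBall (0 : E4) (3 / 2), |(G j p.1 p.2)⁻¹ k l| ≤ C := by
    intro j k l
    have hc : ContinuousOn (fun p : ℝ × E4 => (G j p.1 p.2)⁻¹ k l)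
        (Icc 0 T ×ˢ Metric.closedBall (0 : E4) (3 / 2)) :=
      ((L1_smooth_inv (M := fun p : ℝ × E4 => G j p.1 p.2) (hG j).smooth
        (fun p hp => ((hG j).posDef p hp).det_pos.ne') k l).continuousOn).mono (hsub j)
    obtain ⟨C, hC⟩ := (isCompact_Icc.prod (isCompact_closedBall (0 : E4) (3 / 2))
      ).exists_bound_of_continuousOn hc
    exact ⟨C, fun x hx => hC x hx⟩
  choose B hB using hbd
  refine ⟨∑ j, ∑ k, ∑ l, |B j k l|, Finset.sum_nonneg fun j _ => Finset.sum_nonneg fun k _ =>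
    Finset.sum_nonneg fun l _ => abs_nonneg _, fun j t ht x hx w C hw => ?_⟩
  have hC0 : 0 ≤ C := (abs_nonneg _).trans (hw 0)
  have hx' : ((t, x) : ℝ × E4) ∈ Icc 0 T ×ˢ Metric.closedBall (0 : E4) (3 / 2) :=
    ⟨ht, Metric.ball_subset_closedBall hx⟩
  calc gradSqC (G j t) w x ≤ ∑ k, ∑ l, |B j k l| * C ^ 2 := by
        unfold gradSqC
        refine Finset.sum_le_sum fun k _ => Finset.sum_le_sum fun l _ => ?_
        refine (le_abs_self _).trans ?_
        rw [abs_mul, abs_mul, pow_two]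
        refine mul_le_mul ((hB j k l _ hx').trans (le_abs_self _))
          (mul_le_mul (hw k) (hw l) (abs_nonneg _) hC0) (by positivity) (abs_nonneg _)
    _ = (∑ k, ∑ l, |B j k l|) * C ^ 2 := by simp only [Finset.sum_mul]
    _ ≤ _ := by
        refine mul_le_mul_of_nonneg_right ?_ (by positivity)
        exact Finset.single_le_sum (f := fun j => ∑ k, ∑ l, |B j k l|)
          (fun j _ => Finset.sum_nonneg fun k _ => Finset.sum_nonneg fun l _ => abs_nonneg _)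
          (Finset.mem_univ j)

theorem Gi_nonneg {G : E4 → Matrix (Fin 4) (Fin 4) ℝ} {x : E4} (h : (G x).PosDef) (w : E4 → ℝ) :
    0 ≤ gradSqC G w x := by
  rw [Gk_gradSqC]
  by_cases h0 : (fun i => pd i w x) = 0
  · rw [h0]; simp
  · have := h.inv.dotProduct_mulVec_pos h0
    simpa using this.le

/-- The coefficient matrices of the shifted flow in the charts of the geometry. -/
def Gi_H {X : Type} [TopologicalSpace X] [ChartedSpace E4 X] {U : UCover X} {h : ℝ → Metric X}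
    (Γ : GeomCov U h) (g : ℝ → Metric X) (t0 : ℝ) (j : Fin (Γ.n + 1)) (t : ℝ) :
    E4 → Matrix (Fin 4) (Fin 4) ℝ := (g (t0 + t)).mcoef (Γ.base j)

/-- A function in a chart. -/
def Gi_v {X : Type} [TopologicalSpace X] [ChartedSpace E4 X] {U : UCover X} {h : ℝ → Metric X}
    (Γ : GeomCov U h) (u : ℝ → U.Y → ℝ) (i : Γ.γ.I) (t : ℝ) (z : E4) : ℝ :=
  u t ((Γ.γ.psi i).symm z)

/-- The quantity to which the maximum principle is applied. -/
def Gi_q {X : Type} [TopologicalSpace X] [ChartedSpace E4 X] {U : UCover X} {h : ℝ → Metric X}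
    (Γ : GeomCov U h) (g : ℝ → Metric X) (t0 κ : ℝ) (u : ℝ → U.Y → ℝ) (t : ℝ) (y : U.Y) : ℝ :=
  aK κ t * gradSqC (Gi_H Γ g t0 (Γ.idx (Γ.γ.ch y)).2 t) (Gi_v Γ u (Γ.γ.ch y) t)
    (Γ.γ.psi (Γ.γ.ch y) y) + u t y ^ 2

section

variable {X : Type} [TopologicalSpace X] [ChartedSpace E4 X] [IsManifold (𝓡 4) ∞ X]
  {U : UCover X} {h : ℝ → Metric X} (Γ : GeomCov U h) (g : ℝ → Metric X) (t0 κ : ℝ)
  (u : ℝ → U.Y → ℝ)

theorem Gi_ch (y : U.Y) : y ∈ (Γ.γ.psi (Γ.γ.ch y)).source ∧ ‖Γ.γ.psi (Γ.γ.ch y) y‖ < 1 :=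
  (Γ.γ.exists_chart y).choose_spec

theorem Gi_chb (y : U.Y) : Γ.γ.psi (Γ.γ.ch y) y ∈ Metric.ball (0 : E4) (3 / 2) := by
  rw [Metric.mem_ball, dist_zero_right]
  linarith [(Gi_ch Γ y).2]

theorem Gi_q_eq (t : ℝ)
    (hv : ∀ i, ∀ x ∈ Metric.ball (0 : E4) (3 / 2), ContDiffAt ℝ 3 (Gi_v Γ u i t) x)
    (i : Γ.γ.I) {x : E4} (hx : x ∈ Metric.ball (0 : E4) (3 / 2)) :
    Gi_q Γ g t0 κ u t ((Γ.γ.psi i).symm x) =
      aK κ t * gradSqC (Gi_H Γ g t0 (Γ.idx i).2 t) (Gi_v Γ u i t) x + Gi_v Γ u i t x ^ 2 := by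
  have h1 := Gi_nat Γ (g (t0 + t)) (u t) i (Γ.γ.ch ((Γ.γ.psi i).symm x)) (Gi_sub Γ i hx)
    (Gi_ch Γ _).1 ((hv _ _ (Gi_chb Γ _)).differentiableAt (by norm_num))
  unfold Gi_q
  have h2 : gradSqC (Gi_H Γ g t0 (Γ.idx (Γ.γ.ch ((Γ.γ.psi i).symm x))).2 t)
      (Gi_v Γ u (Γ.γ.ch ((Γ.γ.psi i).symm x)) t)
      (Γ.γ.psi (Γ.γ.ch ((Γ.γ.psi i).symm x)) ((Γ.γ.psi i).symm x)) =
      gradSqC (Gi_H Γ g t0 (Γ.idx i).2 t) (Gi_v Γ u i t) x := h1.symm
  rw [h2]
  rfl

theorem Gi_N2 (t : ℝ) (i : Γ.γ.I) {x : E4} (hx : x ∈ (Γ.base (Γ.idx i).2).target)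
    (hv : ContDiffAt ℝ 3 (Gi_v Γ u i t) x) :
    ContDiffAt ℝ 2 (gradSqC (Gi_H Γ g t0 (Γ.idx i).2 t) (Gi_v Γ u i t)) x := by
  obtain ⟨m1, m2, -, -⟩ := claimMcoef_proof X (g (t0 + t)) (Γ.base (Γ.idx i).2) (Γ.base_mem _)
  unfold gradSqC
  refine ContDiffAt.sum fun a _ => ContDiffAt.sum fun b _ => ?_
  have hpd : ∀ l, ContDiffAt ℝ 2 (pd l (Gi_v Γ u i t)) x := fun l =>
    (hv.fderiv_right (m := 2) (by norm_num)).clm_apply contDiffAt_const
  refine ContDiffAt.mul ?_ ((hpd a).mul (hpd b))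
  have h1 := L1_smooth_inv m1 (fun p hp => (m2 p hp).det_pos.ne') a b
  exact contDiffAt_infty.1 (h1.contDiffAt ((Γ.base _).open_target.mem_nhds hx)) 2

/-- The differential inequality. -/
theorem Gi_ineq (h3 : claimLF3p) {T : ℝ} (hκ : 0 < κ) {c : ℝ → ℝ}
    (hFl : ∀ j, FlowOn (Ioi (-t0) ×ˢ (Γ.base j).target) (Gi_H Γ g t0 j) c)
    (i : Γ.γ.I) {t : ℝ} (htI : t ∈ Ioc 0 T) (hc : -κ / 2 ≤ c t) {x : E4}
    (hx : x ∈ Metric.ball (0 : E4) (3 / 2))
    (hmem : ((t, x) : ℝ × E4) ∈ Ioi (-t0) ×ˢ (Γ.base (Γ.idx i).2).target)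
    (hv : ∀ t ∈ Icc 0 T, ∀ i, ∀ x ∈ Metric.ball (0 : E4) (3 / 2),
      ContDiffAt ℝ 3 (Gi_v Γ u i t) x)
    (hop : ∀ x ∈ Metric.ball (0 : E4) (3 / 2), ∀ w : E4 → ℝ, ContDiffAt ℝ 2 w x →
      (Γ.γ.mdl i).op t w x = -laplC (Gi_H Γ g t0 (Γ.idx i).2 t) w x)
    (hu1 : HasDerivWithinAt (fun s => Gi_v Γ u i s x)
      (-(Γ.γ.mdl i).op t (Gi_v Γ u i t) x) (Icc 0 T) t)
    (hu2 : ∀ l, HasDerivWithinAt (fun s => pd l (Gi_v Γ u i s) x)
      (-pd l (fun w => (Γ.γ.mdl i).op t (Gi_v Γ u i t) w) x) (Icc 0 T) t) :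
    ContDiffAt ℝ 2 (fun z => Gi_q Γ g t0 κ u t ((Γ.γ.psi i).symm z)) x ∧
      ∃ q', HasDerivWithinAt (fun s => Gi_q Γ g t0 κ u s ((Γ.γ.psi i).symm x)) q' (Iic t) t ∧
        q' ≤ -(Γ.γ.mdl i).op t (fun z => Gi_q Γ g t0 κ u t ((Γ.γ.psi i).symm z)) x := by
  have ht : t ∈ Icc 0 T := ⟨htI.1.le, htI.2⟩
  have hb : Metric.ball (0 : E4) (3 / 2) ∈ 𝓝 x := Metric.isOpen_ball.mem_nhds hx
  have hvx3 := hv t ht i x hx
  have hvx2 : ContDiffAt ℝ 2 (Gi_v Γ u i t) x := hvx3.of_le (by norm_num)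
  have hNx := Gi_N2 Γ g t0 u t i hmem.2 hvx3
  have hqx : (fun z => Gi_q Γ g t0 κ u t ((Γ.γ.psi i).symm z)) =ᶠ[𝓝 x]
      fun z => aK κ t * gradSqC (Gi_H Γ g t0 (Γ.idx i).2 t) (Gi_v Γ u i t) z +
        Gi_v Γ u i t z ^ 2 := by
    filter_upwards [hb] with z hz
    exact Gi_q_eq Γ g t0 κ u t (hv t ht) i hz
  have hq2 : ContDiffAt ℝ 2 (fun z => aK κ t * gradSqC (Gi_H Γ g t0 (Γ.idx i).2 t)
      (Gi_v Γ u i t) z + Gi_v Γ u i t z ^ 2) x :=
    (contDiffAt_const.mul hNx).add (hvx2.pow 2)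
  have hq2' : ContDiffAt ℝ 2 (fun z => Gi_q Γ g t0 κ u t ((Γ.γ.psi i).symm z)) x :=
    hq2.congr_of_eventuallyEq hqx
  refine ⟨hq2', ?_⟩
  have hLv : ∀ l, HasDerivWithinAt (fun s => pd l (Gi_v Γ u i s) x)
      (pd l (laplC (Gi_H Γ g t0 (Γ.idx i).2 t) (Gi_v Γ u i t)) x) (Icc 0 T) t := by
    intro l
    have h1 := hu2 l
    have h2 : (fun w => (Γ.γ.mdl i).op t (Gi_v Γ u i t) w) =ᶠ[𝓝 x]
        fun w => -laplC (Gi_H Γ g t0 (Γ.idx i).2 t) (Gi_v Γ u i t) w := by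
      filter_upwards [hb] with w hw
      exact hop w hw _ ((hv t ht i w hw).of_le (by norm_num))
    rw [(Gi_pd_eventually h2 l).self_of_nhds, Gi_pd_neg, neg_neg] at h1
    exact h1
  obtain ⟨d, hd1, hd2⟩ := h3 _ (Gi_H Γ g t0 (Γ.idx i).2) c (Gi_v Γ u i) t x (Icc 0 T)
    (hFl (Γ.idx i).2) hmem hvx3 hLv
  have hv' : HasDerivWithinAt (fun s => Gi_v Γ u i s x)
      (laplC (Gi_H Γ g t0 (Γ.idx i).2 t) (Gi_v Γ u i t) x) (Icc 0 T) t := by
    have h1 := hu1
    rw [hop x hx _ hvx2, neg_neg] at h1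
    exact h1
  have hder : HasDerivWithinAt (fun s => aK κ s * gradSqC (Gi_H Γ g t0 (Γ.idx i).2 s)
      (Gi_v Γ u i s) x + Gi_v Γ u i s x ^ 2)
      ((2 - κ / 2 * aK κ t) * gradSqC (Gi_H Γ g t0 (Γ.idx i).2 t) (Gi_v Γ u i t) x +
        aK κ t * d + 2 * Gi_v Γ u i t x *
          laplC (Gi_H Γ g t0 (Γ.idx i).2 t) (Gi_v Γ u i t) x) (Icc 0 T) t := by
    have h1 := ((Gi_aK_deriv hκ t).hasDerivWithinAt (s := Icc 0 T)).mul hd1
    have h2 := hv'.pow 2
    have h3 := h1.add h2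
    refine (h3.congr_deriv ?_)
    simp
  have hder2 : HasDerivWithinAt (fun s => Gi_q Γ g t0 κ u s ((Γ.γ.psi i).symm x))
      ((2 - κ / 2 * aK κ t) * gradSqC (Gi_H Γ g t0 (Γ.idx i).2 t) (Gi_v Γ u i t) x +
        aK κ t * d + 2 * Gi_v Γ u i t x *
          laplC (Gi_H Γ g t0 (Γ.idx i).2 t) (Gi_v Γ u i t) x) (Icc 0 T) t :=
    hder.congr (fun s hs => Gi_q_eq Γ g t0 κ u s (hv s hs) i hx)
      (Gi_q_eq Γ g t0 κ u t (hv t ht) i hx)
  have hmemI : Icc 0 T ∈ 𝓝[Iic t] t :=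
    mem_nhdsWithin.2 ⟨Ioi 0, isOpen_Ioi, htI.1, fun s hs => ⟨le_of_lt hs.1, hs.2.trans htI.2⟩⟩
  refine ⟨_, hder2.mono_of_mem_nhdsWithin hmemI, ?_⟩
  rw [hop x hx _ hq2', neg_neg, Gi_lapl_congr _ hqx, Gi_lapl _ _ hNx hvx2]
  have ha := Gi_aK_nonneg hκ ht.1
  have hN0 := Gi_nonneg ((hFl (Γ.idx i).2).met.posDef _ hmem) (Gi_v Γ u i t)
  have h5 := mul_le_mul_of_nonneg_left hd2 ha
  have h6 := mul_le_mul_of_nonneg_right hc (mul_nonneg ha hN0)
  change _ ≤ _ at h5
  generalize gradSqC (Gi_H Γ g t0 (Γ.idx i).2 t) (Gi_v Γ u i t) x = N at *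
  generalize laplC (Gi_H Γ g t0 (Γ.idx i).2 t) (gradSqC (Gi_H Γ g t0 (Γ.idx i).2 t)
    (Gi_v Γ u i t)) x = LN at *
  generalize laplC (Gi_H Γ g t0 (Γ.idx i).2 t) (Gi_v Γ u i t) x = Lv at *
  generalize Gi_v Γ u i t x = vx at *
  generalize aK κ t = a at *
  nlinarith

/-- Continuity of the quantity in the charts. -/
theorem Gi_cont {T : ℝ} (i : Γ.γ.I)
    (hH : SmoothMet (Ioi (-t0) ×ˢ (Γ.base (Γ.idx i).2).target) (Gi_H Γ g t0 (Γ.idx i).2))
    (hsub : Icc 0 T ×ˢ Metric.ball (0 : E4) (3 / 2) ⊆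
      Ioi (-t0) ×ˢ (Γ.base (Γ.idx i).2).target)
    (hv : ∀ t ∈ Icc 0 T, ∀ i, ∀ x ∈ Metric.ball (0 : E4) (3 / 2),
      ContDiffAt ℝ 3 (Gi_v Γ u i t) x)
    (h1 : ContinuousOn (fun p : ℝ × E4 => Gi_v Γ u i p.1 p.2) (Icc 0 T ×ˢ Metric.ball 0 (3 / 2)))
    (h2 : ∀ l, ContinuousOn (fun p : ℝ × E4 => pd l (Gi_v Γ u i p.1) p.2)
      (Icc 0 T ×ˢ Metric.ball 0 (3 / 2))) :
    ContinuousOn (fun p : ℝ × E4 => Gi_q Γ g t0 κ u p.1 ((Γ.γ.psi i).symm p.2))
      (Icc 0 T ×ˢ Metric.ball 0 (3 / 2)) := by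
  have c1 : ContinuousOn (fun p : ℝ × E4 => aK κ p.1 * gradSqC (Gi_H Γ g t0 (Γ.idx i).2 p.1)
      (Gi_v Γ u i p.1) p.2 + Gi_v Γ u i p.1 p.2 ^ 2) (Icc 0 T ×ˢ Metric.ball 0 (3 / 2)) := by
    refine ContinuousOn.add (ContinuousOn.mul ?_ ?_) (h1.pow 2)
    · have : Continuous (aK κ) := by unfold aK; fun_prop
      exact (this.comp continuous_fst).continuousOn
    · unfold gradSqC
      refine continuousOn_finsetSum _ fun a _ => continuousOn_finsetSum _ fun b _ => ?_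
      refine ContinuousOn.mul ?_ ((h2 a).mul (h2 b))
      exact ((L1_smooth_inv (M := fun p : ℝ × E4 => Gi_H Γ g t0 (Γ.idx i).2 p.1 p.2)
        hH.smooth (fun p hp => (hH.posDef p hp).det_pos.ne') a b).continuousOn).mono hsub
  exact c1.congr fun p hp => Gi_q_eq Γ g t0 κ u p.1 (hv p.1 hp.1) i hp.2

/-- Bound for the quantity. -/
theorem Gi_qbound (hκ : 0 < κ) {S C t : ℝ} (ht : 0 ≤ t) (hS0 : 0 ≤ S) (y : U.Y)
    (hpos : (Gi_H Γ g t0 (Γ.idx (Γ.γ.ch y)).2 t (Γ.γ.psi (Γ.γ.ch y) y)).PosDef)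
    (hS : gradSqC (Gi_H Γ g t0 (Γ.idx (Γ.γ.ch y)).2 t) (Gi_v Γ u (Γ.γ.ch y) t)
      (Γ.γ.psi (Γ.γ.ch y) y) ≤ S * C ^ 2) (hu : |u t y| ≤ C) :
    Gi_q Γ g t0 κ u t y ≤ 4 / κ * (S * C ^ 2) + C ^ 2 := by
  have h2 := Gi_aK_nonneg hκ ht
  have h3 := Gi_aK_le (t := t) hκ
  have h5 : u t y ^ 2 ≤ C ^ 2 := by
    rw [← sq_abs]
    exact pow_le_pow_left₀ (abs_nonneg _) hu 2
  have h6 := Gi_nonneg hpos (Gi_v Γ u (Γ.γ.ch y) t)
  have h8 := mul_le_mul h3 hS h6 (by positivity)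
  unfold Gi_q
  linarith

end

theorem claimGradEst_proof (h3 : claimLF3p) (h10 : claimMax) (ht : claimSolTime)
    (_hm : claimSolMax) : claimGradEst := by
  intro X _ _ _ _ _ _ _ _ U g hflow t0 κ T ht0 hκ hT hκs h Γ hh hsm k C F u hk hsol hF
  obtain ⟨u0, ub, hu⟩ := ht U.Y Γ.γ k T C F u (by omega) hT hsol
  have hFl : ∀ j, FlowOn (Ioi (-t0) ×ˢ (Γ.base j).target) (Gi_H Γ g t0 j)
      (fun t => (g (t0 + t)).meanScal / 2) := fun j =>
    Gi_shift (Γ.base j).open_target (prf_F0 X g hflow _ (Γ.base_mem j)) t0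
  have hmem : ∀ i, ∀ t ∈ Icc 0 T, ∀ x ∈ Metric.ball (0 : E4) (3 / 2),
      ((t, x) : ℝ × E4) ∈ Ioi (-t0) ×ˢ (Γ.base (Γ.idx i).2).target := by
    intro i t ht x hx
    refine ⟨?_, ?_⟩
    · have := ht.1
      simp only [mem_Ioi]
      linarith
    · rw [← Γ.tgt i]
      exact Gi_sub Γ i hx
  have hv3 : ∀ t ∈ Icc 0 T, ∀ i, ∀ x ∈ Metric.ball (0 : E4) (3 / 2),
      ContDiffAt ℝ 3 (Gi_v Γ u i t) x := fun t ht i x hx =>
    (((hu i).1 t ht).contDiffAt (Metric.isOpen_ball.mem_nhds hx)).of_le (by exact_mod_cast hk)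
  have hop : ∀ i, ∀ t ∈ Icc 0 T, ∀ x ∈ Metric.ball (0 : E4) (3 / 2), ∀ w : E4 → ℝ,
      ContDiffAt ℝ 2 w x →
        (Γ.γ.mdl i).op t w x = -laplC (Gi_H Γ g t0 (Γ.idx i).2 t) w x := by
    intro i t ht x hx w hw
    rw [Γ.op i t x (Metric.ball_subset_ball (by norm_num) hx) w hw, hh t ht]
    rfl
  obtain ⟨S, hS0, hS⟩ := Gi_bound Γ (Gi_H Γ g t0) (T := T) ht0 fun j => (hFl j).met
  have hbd : ∀ t ∈ Icc 0 T, ∀ y, Gi_q Γ g t0 κ u t y ≤ 4 / κ * (S * C ^ 2) + C ^ 2 := by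
    intro t ht y
    have g1 : (Gi_H Γ g t0 (Γ.idx (Γ.γ.ch y)).2 t (Γ.γ.psi (Γ.γ.ch y) y)).PosDef :=
      (hFl (Γ.idx (Γ.γ.ch y)).2).met.posDef ((t, Γ.γ.psi (Γ.γ.ch y) y) : ℝ × E4)
        (hmem (Γ.γ.ch y) t ht _ (Gi_chb Γ y))
    have g2 : ∀ l, |pd l (Gi_v Γ u (Γ.γ.ch y) t) (Γ.γ.psi (Γ.γ.ch y) y)| ≤ C := fun l =>
      (hu (Γ.γ.ch y)).2.2.2.1 l t ht _ (Gi_chb Γ y)
    have g3 := hS (Γ.idx (Γ.γ.ch y)).2 t ht (Γ.γ.psi (Γ.γ.ch y) y) (Gi_chb Γ y)
      (Gi_v Γ u (Γ.γ.ch y) t) C g2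
    exact Gi_qbound Γ g t0 κ u hκ ht.1 hS0 y g1 g3 (ub t ht y)
  have hmax := h10 U.Y Γ.γ Γ.c0 T hT (Gi_q Γ g t0 κ u) (4 / κ * (S * C ^ 2) + C ^ 2) 1
    hbd
    (fun i => Gi_cont Γ g t0 κ u i (hFl _).met (fun p hp => hmem i p.1 hp.1 p.2 hp.2) hv3
      (hu i).2.1 (hu i).2.2.1)
    (fun i t htI x hx => by
      have ht : t ∈ Icc 0 T := ⟨htI.1.le, htI.2⟩
      refine Gi_ineq Γ g t0 κ u h3 hκ hFl i htI ?_ hx (hmem i t ht x hx) hv3 (hop i t ht)
        ((hu i).2.2.2.2.1 t ht x hx) (fun l => (hu i).2.2.2.2.2 hk l t ht x hx)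
      have := hκs (t0 + t) (by linarith [ht.1])
      linarith)
    (fun y => by
      unfold Gi_q
      rw [Gi_aK_zero, u0 y]
      have h2 : F y ^ 2 ≤ 1 := by
        rw [← sq_abs]
        exact pow_le_one₀ (abs_nonneg _) (hF y)
      linarith)
  intro t ht i x hx
  have h1 := hmax t ht ((Γ.γ.psi i).symm x)
  rw [Gi_q_eq Γ g t0 κ u t (hv3 t ht) i hx] at h1
  have h2 := sq_nonneg (Gi_v Γ u i t x)
  have h3 : aK κ t * gradSqC (Gi_H Γ g t0 (Γ.idx i).2 t) (Gi_v Γ u i t) x ≤ 1 := by linarith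
  exact h3

end NRF

end
end

section

/-!
IX1: the heat kernel on forms does not depend on the embedding.
-/

set_option autoImplicit false

open scoped Manifold ContDiff Topology RealInnerProductSpace
open MeasureTheory Set Filter

noncomputable section

namespace NRF

/-! ### The isometry between the two embeddings -/

section alg

variable {X : Type} [TopologicalSpace X] [ChartedSpace E4 X] {g : Metric X} {n n' : ℕ}
  (A : FAtlas X g n) (A' : FAtlas X g n')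

/-- The matrix of the isometry, in the chart `c`. -/
def IX1_M (c : FChart X g) (x : X) : Matrix (Fin (n' + 1) × Lam) (Fin (n + 1) × Lam) ℝ :=
  (A'.Bm c x).transpose * A.Bm c x

/-- The isometry. -/
def IX1_U (x : X) : VV n →L[ℝ] VV n' :=
  LinearMap.toContinuousLinearMap (Matrix.toEuclideanLin (IX1_M A A' (A.cx x) x))

theorem IX1_U_apply (x : X) (v : VV n) :
    IX1_U A A' x v = WithLp.toLp 2 ((IX1_M A A' (A.cx x) x).mulVec (WithLp.ofLp v)) := rfl

/-- An auxiliary map. -/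
def IX1_Q (M : Matrix Lam Lam ℝ) (c : FChart X g) (x : X) : VV n →L[ℝ] VV n' :=
  LinearMap.toContinuousLinearMap
    (Matrix.toEuclideanLin ((A'.Bm c x).transpose * M * A.Bm c x))

theorem IX1_Q_apply (M : Matrix Lam Lam ℝ) (c : FChart X g) (x : X) (v : VV n) :
    IX1_Q A A' M c x v = WithLp.toLp 2
      (((A'.Bm c x).transpose * M * A.Bm c x).mulVec (WithLp.ofLp v)) := rfl

end alg

section

variable {X : Type} [TopologicalSpace X] [T2Space X] [CompactSpace X] [ChartedSpace E4 X]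
  [IsManifold (𝓡 4) ∞ X] (ho : OrientedAtlas X) (he : claimEmb)
  {g : Metric X} {n n' : ℕ} (A : FAtlas X g n) (A' : FAtlas X g n')

include ho he

theorem IX1_M_change (c c' : FChart X g) (x : X) (hx : x ∈ c.psi.source)
    (hx' : x ∈ c'.psi.source) : IX1_M A A' c' x = IX1_M A A' c x := by
  have h1 := ((he X ho g n A).1 c).2.2 c' x ⟨hx, hx'⟩
  have h2 := ((he X ho g n' A').1 c).2.2 c' x ⟨hx, hx'⟩
  have h3 := ((he X ho g n A).1 c').1 x hx'
  have h4 := ((he X ho g n A).1 c).1 x hx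
  have h5 : LamM (c'.O c x) * (LamM (c'.O c x)).transpose = 1 := by
    rw [h1, Matrix.transpose_mul, Matrix.mul_assoc, ← Matrix.mul_assoc (A.Bm c x), h4,
      Matrix.one_mul] at h3
    exact h3
  have h6 : (LamM (c'.O c x)).transpose * LamM (c'.O c x) = 1 := mul_eq_one_comm.1 h5
  unfold IX1_M
  rw [h1, h2, Matrix.transpose_mul, Matrix.mul_assoc, ← Matrix.mul_assoc (LamM (c'.O c x)).transpose,
    h6, Matrix.one_mul]

theorem IX1_U_eq (c : FChart X g) (x : X) (hx : x ∈ c.psi.source) (v : VV n) :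
    IX1_U A A' x v = A'.emb c x ((A.Bm c x).mulVec (WithLp.ofLp v)) := by
  rw [IX1_U_apply, IX1_M_change ho he A A' c (A.cx x) x hx (G4b_cx_mem A x)]
  unfold IX1_M FAtlas.emb
  rw [Matrix.mulVec_mulVec]

theorem IX1_U_loc (c : FChart X g) (x : X) (hx : x ∈ c.psi.source) (f : X → VV n) :
    A'.loc c (fun y => IX1_U A A' y (f y)) (c.psi x) = A.loc c f (c.psi x) := by
  rw [G4a_loc_emb A' ho he c hx (β := (A.Bm c x).mulVec (WithLp.ofLp (f x)))
    (IX1_U_eq ho he A A' c x hx (f x))]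
  unfold FAtlas.loc
  rw [c.psi.left_inv hx]

theorem IX1_U_loc' (c : FChart X g) (x : X) (hx : x ∈ c.psi.source) (f : X → VV n) :
    A'.loc c (fun y => IX1_U A A' y (f y)) =ᶠ[𝓝 (c.psi x)] A.loc c f := by
  filter_upwards [c.psi.open_target.mem_nhds (c.psi.map_source hx)] with z hz
  have := IX1_U_loc ho he A A' c (c.psi.symm z) (c.psi.map_target hz) f
  rwa [c.psi.right_inv hz] at this

theorem IX1_adj (x : X) (v : VV n) (w : VV n') :
    ⟪IX1_U A A' x v, w⟫ = ⟪v, IX1_U A' A x w⟫ := by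
  have hx := G4b_cx_mem A x
  have h1 : (A.Bm (A.cx x) x).transpose * A'.Bm (A.cx x) x =
      ((A'.Bm (A.cx x) x).transpose * A.Bm (A.cx x) x).transpose := by
    rw [Matrix.transpose_mul, Matrix.transpose_transpose]
  rw [IX1_U_apply, IX1_U_eq ho he A' A (A.cx x) x hx]
  unfold FAtlas.emb IX1_M
  rw [Matrix.mulVec_mulVec, EuclideanSpace.inner_eq_star_dotProduct,
    EuclideanSpace.inner_eq_star_dotProduct, h1]
  simp only [star_trivial]
  rw [Matrix.mulVec_transpose, ← Matrix.dotProduct_mulVec, dotProduct_comm]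

theorem IX1_pU (x : X) (v : VV n) : A'.pV x (IX1_U A A' x v) = IX1_U A A' x v := by
  have hx := G4b_cx_mem A x
  obtain ⟨e1, ⟨i1, -⟩, e3, -⟩ := he X ho g n' A'
  rw [IX1_U_eq ho he A A' _ x hx]
  unfold FAtlas.pV
  rw [((e3 1 i1).1 (A.cx x) x hx).1, G4b_clm_emb A' (A.cx x) x 1 ((e1 (A.cx x)).1 x hx),
    Matrix.one_mulVec]

theorem IX1_Up (x : X) (v : VV n) : IX1_U A A' x (A.pV x v) = IX1_U A A' x v := by
  have hx := G4b_cx_mem A x
  obtain ⟨e1, ⟨i1, -⟩, e3, -⟩ := he X ho g n A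
  rw [IX1_U_eq ho he A A' _ x hx, IX1_U_eq ho he A A' _ x hx]
  unfold FAtlas.pV
  rw [((e3 1 i1).1 (A.cx x) x hx).1, Matrix.ofLp_toEuclideanCLM, Matrix.mulVec_mulVec,
    Matrix.mul_one, ← Matrix.mul_assoc, (e1 (A.cx x)).1 x hx, Matrix.one_mul]

theorem IX1_Ck (ck : claimCk) {k : WithTop ℕ∞} (hk : k ≤ ∞) (f : X → VV n) (x : X)
    (hf : CkAt k f x) : CkAt k (fun y => IX1_U A A' y (f y)) x := by
  have hx := G4b_cx_mem A x
  set c := A.cx x with hc
  have hT := c.psi.map_source hx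
  obtain ⟨e1, -⟩ := he X ho g n A
  obtain ⟨e1', -⟩ := he X ho g n' A'
  refine (ck X _ k _ hk).2 c.psi c.sm x hx ?_
  refine (G4b_emb_reg A' c (e1' c).2.1 hT hk (A.loc c f) fun s =>
    G4b_loc_reg A c (e1 c).2.1 hT hk f (hf c.psi c.sm hx) s).congr_of_eventuallyEq ?_
  filter_upwards [c.psi.open_target.mem_nhds hT] with z hz
  exact IX1_U_eq ho he A A' c _ (c.psi.map_target hz) _

theorem IX1_dirV (o : claimOpV) (f : X → VV n) (x : X) (hf : CkAt 1 f x) :
    A'.dirV (fun y => IX1_U A A' y (f y)) x = IX1_U A A' x (A.dirV f x) := by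
  have hx := G4b_cx_mem A' x
  have h1 := ((o X ho g n A f x hf).1 (A'.cx x) hx).2.2.2.1
  rw [IX1_U_eq ho he A A' _ x hx]
  conv_lhs => unfold FAtlas.dirV
  rw [G4a_diracC_congr (IX1_U_loc' ho he A A' _ x hx f), ← h1]
  unfold FAtlas.loc
  rw [(A'.cx x).psi.left_inv hx]

theorem IX1_LV (o : claimOpV) (f : X → VV n) (x : X) (hf : CkX 2 f) :
    A'.LV (fun y => IX1_U A A' y (f y)) x = IX1_U A A' x (A.LV f x) := by
  have h1 : ∀ y, CkAt 1 f y := fun y => G4b_mono (by norm_num) (hf y)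
  have h2 : CkAt 1 (A.dirV f) x := by
    have h3 := (o X ho g n A f x (h1 x)).2.2.2.2.2.2.2.2.2.2.1 1 (by
      have := hf x
      norm_num
      exact this)
    exact_mod_cast h3.1
  have e1 : A'.dirV (fun y => IX1_U A A' y (f y)) = fun y => IX1_U A A' y (A.dirV f y) :=
    funext fun y => IX1_dirV ho he A A' o f y (h1 y)
  have e2 : A'.qV (fun y => IX1_U A A' y (f y)) = fun _ => 0 := by
    funext y
    unfold FAtlas.qV
    rw [IX1_pU ho he A A' y, sub_self]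
  have e3 : A'.lapV (fun _ => 0) = fun _ => 0 := by
    funext y
    unfold FAtlas.lapV
    have h4 : ∀ q : Fin (n' + 1) × Lam, g.lapl (fun y => (0 : VV n') q) y = 0 := by
      intro q
      unfold Metric.lapl laplC hessC
      have h5 : (fun y => (0 : VV n') q) ∘ (chartAt E4 y).symm = fun _ => (0 : ℝ) := by
        funext z
        simp
      rw [h5]
      have h6 : ∀ i, pd i (fun _ : E4 => (0 : ℝ)) = fun _ => 0 := by
        intro i
        funext z
        simp [pd]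
      simp [h6]
    ext q
    exact h4 q
  have e4 : A'.qV (fun _ => 0) x = 0 := by
    unfold FAtlas.qV
    simp
  have e5 : IX1_U A A' x (A.qV (A.lapV (A.qV f)) x) = 0 := by
    conv_lhs => enter [2]; unfold FAtlas.qV
    rw [map_sub, IX1_Up ho he A A', sub_self]
  unfold FAtlas.LV
  rw [e2, e3, e4, e1, IX1_dirV ho he A A' o _ x h2, map_sub, e5]

theorem IX1_cont (ck : claimCk) : Continuous (IX1_U A A') := by
  rw [continuous_clm_apply]
  intro v
  exact ((ck X (VV n') 0 (fun y => IX1_U A A' y v) (by simp)).1.1 fun x =>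
    IX1_Ck ho he A A' ck (by simp) (fun _ => v) x fun psi hpsi hx => contDiffAt_const).continuous

end

/-! ### The heat flow -/

section

variable {X : Type} [TopologicalSpace X] [T2Space X] [CompactSpace X] [ChartedSpace E4 X]
  [IsManifold (𝓡 4) ∞ X] [MeasurableSpace X] [BorelSpace X] (ho : OrientedAtlas X)
  (he : claimEmb) (o : claimOpV) (ck : claimCk)
  {g : Metric X} {n n' : ℕ} (A : FAtlas X g n) (A' : FAtlas X g n')
  (D : HeatData X (VV n)) (D' : HeatData X (VV n'))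
  (T : ℝ → (X → VV n) → X → VV n) (K : ℝ → X → X → VV n →L[ℝ] VV n)
  (T' : ℝ → (X → VV n') → X → VV n') (K' : ℝ → X → X → VV n' →L[ℝ] VV n')

omit [T2Space X] [CompactSpace X] [IsManifold (𝓡 4) ∞ X] [MeasurableSpace X] [BorelSpace X] in
theorem IX1_two {W : Type} [NormedAddCommGroup W] [NormedSpace ℝ W] {f : X → W}
    (hf : CkX ∞ f) : CkX 2 f := fun x => G4b_mono k1_two_le (hf x)

include ho he o ck in
/-- Duhamel: the isometry intertwines the semigroups, weak form. -/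
theorem IX1_weak (hA : A.Fits D) (hA' : A'.Fits D') (hT : D.IsSemigroup T)
    (hT' : D'.IsSemigroup T') (f : X → VV n) (hf : CkX ∞ f) (h : X → VV n') (hh : CkX ∞ h)
    (t : ℝ) (ht : 0 < t) :
    ∫ y, ⟪IX1_U A A' y (T t f y), h y⟫ ∂g.vol =
      ∫ y, ⟪IX1_U A A' y (f y), T' t h y⟫ ∂g.vol := by
  have hfin := D.fin
  rw [hA.mu] at hfin
  have hfs : D.g.Smooth f := (hA.smooth f).2 hf
  have hhs : D'.g.Smooth h := (hA'.smooth h).2 hh
  obtain ⟨C, hC⟩ := hT.nice f hfs 2 t ht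
  obtain ⟨C', hC'⟩ := hT'.nice h hhs 2 t ht
  have hC'' : D'.g.Nice 2 t C' fun s => T' (t - s) h :=
    k1_Nice_comp hC' (φ := fun s => t - s) (by fun_prop)
      (fun r hr => ⟨by linarith [hr.2], by linarith [hr.1]⟩) (fun r _ => rfl)
  have hU : ContinuousOn (fun p : ℝ × X => IX1_U A A' p.2) (Icc 0 t ×ˢ univ) :=
    ((IX1_cont ho he A A' ck).comp continuous_snd).continuousOn
  have hd1 : ∀ s ∈ Icc 0 t, ∀ y, HasDerivWithinAt (fun s => IX1_U A A' y (T s f y))
      (IX1_U A A' y (-D.g.L 0 (T s f) y)) (Icc 0 t) s := by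
    intro s hs y
    have h0 : Icc 0 t ⊆ Ici (0 : ℝ) := fun r hr => hr.1
    have h1 := (hT.deriv f hfs s hs.1 y).mono h0
    exact (IX1_U A A' y).hasFDerivAt.comp_hasDerivWithinAt s h1
  have hd2 : ∀ s ∈ Icc 0 t, ∀ y, HasDerivWithinAt (fun s => T' (t - s) h y)
      (D'.g.L 0 (T' (t - s) h) y) (Icc 0 t) s := by
    intro s hs y
    have h2 := hT'.deriv h hhs (t - s) (by linarith [hs.2]) y
    have h3 : HasDerivWithinAt (fun r : ℝ => t - r) (-1) (Icc 0 t) s := by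
      simpa using ((hasDerivAt_id s).const_sub t).hasDerivWithinAt
    have h4 := h2.scomp s h3 (fun r' hr' => by
      show 0 ≤ t - r'
      linarith [hr'.2])
    rw [neg_smul, one_smul, neg_neg] at h4
    exact h4
  have c1 : ContinuousOn (fun p : ℝ × X => IX1_U A A' p.2 (T p.1 f p.2)) (Icc 0 t ×ˢ univ) :=
    hU.clm_apply (k1_cont hC)
  have c2 := k1_cont hC''
  have c3 : ContinuousOn (fun p : ℝ × X => IX1_U A A' p.2 (-D.g.L 0 (T p.1 f) p.2))
      (Icc 0 t ×ˢ univ) := hU.clm_apply (k1_L_cont 0 hC).neg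
  have c4 := k1_L_cont 0 hC''
  have hφ : ContinuousOn (fun p : ℝ × X => ⟪IX1_U A A' p.2 (T p.1 f p.2), T' (t - p.1) h p.2⟫)
      (Icc 0 t ×ˢ univ) := ContinuousOn.inner (𝕜 := ℝ) c1 c2
  have hφ' : ContinuousOn (fun p : ℝ × X =>
      ⟪IX1_U A A' p.2 (T p.1 f p.2), D'.g.L 0 (T' (t - p.1) h) p.2⟫ +
      ⟪IX1_U A A' p.2 (-D.g.L 0 (T p.1 f) p.2), T' (t - p.1) h p.2⟫) (Icc 0 t ×ˢ univ) :=
    (ContinuousOn.inner (𝕜 := ℝ) c1 c4).add (ContinuousOn.inner (𝕜 := ℝ) c3 c2)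
  have hdd : ∀ s ∈ Icc 0 t, ∀ y,
      HasDerivWithinAt (fun s => ⟪IX1_U A A' y (T s f y), T' (t - s) h y⟫)
      (⟪IX1_U A A' y (T s f y), D'.g.L 0 (T' (t - s) h) y⟫ +
        ⟪IX1_U A A' y (-D.g.L 0 (T s f) y), T' (t - s) h y⟫)
      (Icc 0 t) s := fun s hs y => (hd1 s hs y).inner ℝ (hd2 s hs y)
  have hcont := k1_int_cont g.vol (φ := fun s y => ⟪IX1_U A A' y (T s f y), T' (t - s) h y⟫) hφ
  have hderiv : ∀ s ∈ Ioo 0 t, HasDerivAt
      (fun s => ∫ y, ⟪IX1_U A A' y (T s f y), T' (t - s) h y⟫ ∂g.vol) 0 s := by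
    intro s hs
    have h1 := k1_int_deriv g.vol (φ := fun s y => ⟪IX1_U A A' y (T s f y), T' (t - s) h y⟫)
      (φ' := fun s y => ⟪IX1_U A A' y (T s f y), D'.g.L 0 (T' (t - s) h) y⟫ +
        ⟪IX1_U A A' y (-D.g.L 0 (T s f) y), T' (t - s) h y⟫) hφ hφ' hdd hs
    have hs' := Ioo_subset_Icc_self hs
    have hu : CkX ∞ (T s f) := (hA.smooth _).1 (hT.smooth s hs'.1 f hfs)
    have hUu : CkX ∞ fun y => IX1_U A A' y (T s f y) := fun x =>
      IX1_Ck ho he A A' ck le_rfl _ x (hu x)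
    have h2 := D'.symm (fun y => IX1_U A A' y (T s f y)) (T' (t - s) h)
      ((hA'.c2 _).2 (IX1_two hUu))
      (k1_smooth_C2 (hT'.smooth (t - s) (by linarith [hs'.2]) h hhs))
    rw [hA'.mu] at h2
    have e1 : ∀ y, D'.g.L 0 (fun y => IX1_U A A' y (T s f y)) y =
        IX1_U A A' y (D.g.L 0 (T s f) y) := by
      intro y
      rw [hA'.L _ (IX1_two hUu), hA.L _ (IX1_two hu), IX1_LV ho he A A' o _ y (IX1_two hu)]
    have i1 : Integrable (fun y => ⟪IX1_U A A' y (T s f y), D'.g.L 0 (T' (t - s) h) y⟫) g.vol :=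
      k1_integrable _ ((k1_slice (φ := fun s y => IX1_U A A' y (T s f y)) c1 hs').inner
        (k1_slice (φ := fun s y => D'.g.L 0 (T' (t - s) h) y) c4 hs'))
    have i2 : Integrable
        (fun y => ⟪IX1_U A A' y (-D.g.L 0 (T s f) y), T' (t - s) h y⟫) g.vol :=
      k1_integrable _ ((k1_slice (φ := fun s y => IX1_U A A' y (-D.g.L 0 (T s f) y)) c3 hs').inner
        (k1_slice (φ := fun s y => T' (t - s) h y) c2 hs'))
    have h3 : (∫ y, (⟪IX1_U A A' y (T s f y), D'.g.L 0 (T' (t - s) h) y⟫ +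
        ⟪IX1_U A A' y (-D.g.L 0 (T s f) y), T' (t - s) h y⟫) ∂g.vol) = 0 := by
      rw [integral_add i1 i2, ← h2]
      simp only [map_neg, inner_neg_left, e1]
      rw [integral_neg]
      ring
    rw [h3] at h1
    exact h1
  obtain ⟨c, -, hc⟩ := exists_hasDerivAt_eq_slope
    (fun s => ∫ y, ⟪IX1_U A A' y (T s f y), T' (t - s) h y⟫ ∂g.vol) (fun _ => 0) ht hcont hderiv
  simp only [sub_self, sub_zero] at hc
  rw [eq_div_iff ht.ne', zero_mul, hT.zero f hfs, hT'.zero h hhs] at hc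
  linarith

omit [T2Space X] [CompactSpace X] [IsManifold (𝓡 4) ∞ X] [MeasurableSpace X] [BorelSpace X] in
theorem IX1_sub_Ck {W : Type} [NormedAddCommGroup W] [NormedSpace ℝ W] {f h : X → W}
    (hf : CkX ∞ f) (hh : CkX ∞ h) : CkX ∞ fun y => f y - h y := fun x psi hpsi hx =>
  (hf x psi hpsi hx).sub (hh x psi hpsi hx)

include ho he o ck in
/-- The isometry intertwines the semigroups. -/
theorem IX1_flow (hA : A.Fits D) (hA' : A'.Fits D') (hT : D.IsSemigroup T)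
    (hT' : D'.IsSemigroup T') (f : X → VV n) (hf : CkX ∞ f) (t : ℝ) (ht : 0 < t) (x : X) :
    IX1_U A A' x (T t f x) = T' t (fun y => IX1_U A A' y (f y)) x := by
  have hfin := D'.fin
  have hfs : D.g.Smooth f := (hA.smooth f).2 hf
  have hUf : CkX ∞ fun y => IX1_U A A' y (f y) := fun x => IX1_Ck ho he A A' ck le_rfl _ x (hf x)
  have hUfs := (hA'.smooth _).2 hUf
  have h1 : CkX ∞ (T t f) := (hA.smooth _).1 (hT.smooth t ht.le f hfs)
  have h2 : CkX ∞ fun y => IX1_U A A' y (T t f y) := fun x =>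
    IX1_Ck ho he A A' ck le_rfl _ x (h1 x)
  have h3 : CkX ∞ (T' t fun y => IX1_U A A' y (f y)) :=
    (hA'.smooth _).1 (hT'.smooth t ht.le _ hUfs)
  set r : X → VV n' := fun y => IX1_U A A' y (T t f y) - T' t (fun y => IX1_U A A' y (f y)) y
    with hr
  have hrk : CkX ∞ r := IX1_sub_Ck h2 h3
  have hrs := (hA'.smooth _).2 hrk
  have cont : ∀ {h : X → VV n'}, CkX ∞ h → Continuous h := fun hh =>
    ((ck X _ ∞ _ le_rfl).1.1 hh).continuous
  have h4 := IX1_weak ho he o ck A A' D D' T T' hA hA' hT hT' f hf r hrk t ht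
  have h5 := hT'.symm _ r hUfs hrs t ht.le
  rw [← hA'.mu] at h4
  have h6 : ∫ y, ‖r y‖ ^ 2 ∂D'.mu = 0 := by
    have e1 : ∀ y, ‖r y‖ ^ 2 = ⟪IX1_U A A' y (T t f y), r y⟫ -
        ⟪T' t (fun y => IX1_U A A' y (f y)) y, r y⟫ := by
      intro y
      rw [← inner_sub_left, ← real_inner_self_eq_norm_sq]
    simp only [e1]
    rw [integral_sub (k1_integrable _ ((cont h2).inner (cont hrk)))
      (k1_integrable _ ((cont h3).inner (cont hrk))), h4, h5, sub_self]
  have h7 := k1_full D' (F := fun y => ‖r y‖ ^ 2) ((cont hrk).norm.pow 2)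
    (fun y => sq_nonneg _) h6 x
  have h8 : r x = 0 := norm_eq_zero.1 (pow_eq_zero_iff two_ne_zero |>.1 h7)
  exact sub_eq_zero.1 h8

omit [T2Space X] [ChartedSpace E4 X] [IsManifold (𝓡 4) ∞ X] in
/-- The heat kernel is smooth in the first variable. -/
theorem IX1_Ksm {V : Type} [NormedAddCommGroup V] [InnerProductSpace ℝ V]
    [FiniteDimensional ℝ V] (D : HeatData X V) (T : ℝ → (X → V) → X → V)
    (K : ℝ → X → X → V →L[ℝ] V) (hK : D.IsKernel T K) (t : ℝ) (ht : 0 < t) (z : X) (v : V) :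
    D.g.Smooth fun x => K t x z v := by
  have hfin := D.fin
  have ht2 : 0 < t / 2 := by positivity
  have h1 : Continuous fun y => K (t / 2) y z v := by
    have h2 : ContinuousOn (fun y : X => K (t / 2) y z) univ :=
      hK.cont.comp (f := fun y : X => ((t / 2, y, z) : ℝ × X × X)) (by fun_prop)
        (fun y _ => ⟨ht2, mem_univ _⟩)
    exact (continuousOn_univ.1 h2).clm_apply continuous_const
  have h3 : MemLp (fun y => K (t / 2) y z v) 2 D.mu := by
    obtain ⟨C, hC⟩ := isCompact_univ.exists_bound_of_continuousOn h1.continuousOn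
    exact MemLp.of_bound h1.aestronglyMeasurable C
      (Eventually.of_forall fun x => hC x (mem_univ _))
  have h4 := hK.smoothing (t / 2) ht2 _ h3
  have h5 : (fun x => K t x z v) = fun x => ∫ y, K (t / 2) x y (K (t / 2) y z v) ∂D.mu := by
    funext x
    rw [← hK.comp (t / 2) (t / 2) ht2 ht2 x z v, add_halves]
  rw [h5]
  exact h4

include ho he o ck in
/-- The isometry intertwines the kernels. -/
theorem IX1_kernel (hA : A.Fits D) (hA' : A'.Fits D') (hT : D.IsSemigroup T)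
    (hK : D.IsKernel T K) (hT' : D'.IsSemigroup T') (hK' : D'.IsKernel T' K') (t : ℝ)
    (ht : 0 < t) (x y : X) (w : VV n') :
    K t y x (IX1_U A' A x w) = IX1_U A' A y (K' t y x w) := by
  have hfin := D.fin
  have hfin' := D'.fin
  have cont : ∀ {h : X → VV n}, CkX ∞ h → Continuous h := fun hh =>
    ((ck X _ ∞ _ le_rfl).1.1 hh).continuous
  have k1 : CkX ∞ fun y => K t y x (IX1_U A' A x w) :=
    (hA.smooth _).1 (IX1_Ksm D T K hK t ht x _)
  have k2 : CkX ∞ fun y => K' t y x w := (hA'.smooth _).1 (IX1_Ksm D' T' K' hK' t ht x w)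
  have k3 : CkX ∞ fun y => IX1_U A' A y (K' t y x w) := fun x =>
    IX1_Ck ho he A' A ck le_rfl _ x (k2 x)
  set F : X → VV n := fun y => K t y x (IX1_U A' A x w) - IX1_U A' A y (K' t y x w) with hF
  have hFk : CkX ∞ F := IX1_sub_Ck k1 k3
  have hFs := (hA.smooth _).2 hFk
  have hUF : CkX ∞ fun y => IX1_U A A' y (F y) := fun x =>
    IX1_Ck ho he A A' ck le_rfl _ x (hFk x)
  have hUFs := (hA'.smooth _).2 hUF
  have cUF : Continuous fun y => IX1_U A A' y (F y) := ((ck X _ ∞ _ le_rfl).1.1 hUF).continuous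
  have e1 := hK.repr t ht F hFs x
  have e2 := hK'.repr t ht _ hUFs x
  have e3 := IX1_flow ho he o ck A A' D D' T T' hA hA' hT hT' F hFk t ht x
  have cK : Continuous fun y => K t x y (F y) := by
    have h2 : ContinuousOn (fun y : X => K t x y) univ :=
      hK.cont.comp (f := fun y : X => ((t, x, y) : ℝ × X × X)) (by fun_prop)
        (fun y _ => ⟨ht, mem_univ _⟩)
    exact (continuousOn_univ.1 h2).clm_apply (cont hFk)
  have cK' : Continuous fun y => K' t x y (IX1_U A A' y (F y)) := by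
    have h2 : ContinuousOn (fun y : X => K' t x y) univ :=
      hK'.cont.comp (f := fun y : X => ((t, x, y) : ℝ × X × X)) (by fun_prop)
        (fun y _ => ⟨ht, mem_univ _⟩)
    exact (continuousOn_univ.1 h2).clm_apply cUF
  have int : ∀ {W : Type} [NormedAddCommGroup W] (mu : Measure X) [IsFiniteMeasure mu]
      {f : X → W}, Continuous f → Integrable f mu := fun mu _ f hf =>
    hf.integrable_of_hasCompactSupport (HasCompactSupport.of_compactSpace f)
  have i1 : ∫ y, ⟪K t y x (IX1_U A' A x w), F y⟫ ∂D.mu = ⟪IX1_U A' A x w, T t F x⟫ := by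
    rw [e1, ← integral_inner (int D.mu cK)]
    refine integral_congr_ae (Eventually.of_forall fun y => ?_)
    simp only
    rw [hK.symm t ht]
  have i2 : ∫ y, ⟪IX1_U A' A y (K' t y x w), F y⟫ ∂D.mu =
      ⟪w, T' t (fun y => IX1_U A A' y (F y)) x⟫ := by
    rw [e2, ← integral_inner (int D'.mu cK'), hA.mu, hA'.mu]
    refine integral_congr_ae (Eventually.of_forall fun y => ?_)
    simp only
    rw [IX1_adj ho he A' A, hK'.symm t ht]
  have h6 : ∫ y, ‖F y‖ ^ 2 ∂D.mu = 0 := by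
    have e4 : ∀ y, ‖F y‖ ^ 2 = ⟪K t y x (IX1_U A' A x w), F y⟫ -
        ⟪IX1_U A' A y (K' t y x w), F y⟫ := by
      intro y
      rw [← inner_sub_left, ← real_inner_self_eq_norm_sq]
    simp only [e4]
    rw [integral_sub (int D.mu ((cont k1).inner (cont hFk)))
      (int D.mu ((cont k3).inner (cont hFk))), i1, i2, ← e3, IX1_adj ho he A' A, sub_self]
  have h7 := k1_full D (F := fun y => ‖F y‖ ^ 2) ((cont hFk).norm.pow 2)
    (fun y => sq_nonneg _) h6 y
  have h8 : F y = 0 := norm_eq_zero.1 (pow_eq_zero_iff two_ne_zero |>.1 h7)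
  exact sub_eq_zero.1 h8

end

/-- IX1: the traces on the diagonal do not depend on the embedding. -/
theorem thm_Indep (he : claimEmb) (o : claimOpV) (_fc : claimFCh) (ck : claimCk) :
    claimIndep := by
  intro X _ _ _ _ _ _ _ _ ho g n n' A A' D D' T K T' K' hA hA' hT hK hT' hK' M hM t ht x
  have hx := G4b_cx_mem A x
  obtain ⟨e1, -, e3, -⟩ := he X ho g n A
  obtain ⟨e1', -, e3', -⟩ := he X ho g n' A'
  set c := A.cx x with hc
  have hB := (e1 c).1 x hx
  have hB' := (e1' c).1 x hx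
  have m1 := ((e3 M hM).1 c x hx).1
  have m2 := ((e3' M hM).1 c x hx).1
  have hker := IX1_kernel ho he o ck A A' D D' T K T' K' hA hA' hT hK hT' hK' t ht x x
  set Q := IX1_Q A A' M c x with hQ
  set U' := IX1_U A' A x with hU'
  have f1 : A.mulV M x = U'.comp Q := by
    have hm : (A.Bm c x).transpose * M * A.Bm c x =
        (A.Bm c x).transpose * A'.Bm c x * ((A'.Bm c x).transpose * M * A.Bm c x) := by
      rw [Matrix.mul_assoc (A'.Bm c x).transpose, Matrix.mul_assoc,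
        Matrix.mul_assoc (A.Bm c x).transpose, ← Matrix.mul_assoc (A'.Bm c x), hB',
        Matrix.one_mul]
    ext1 v
    rw [m1, ContinuousLinearMap.comp_apply, hU', IX1_U_eq ho he A' A c x hx, hQ, IX1_Q_apply]
    unfold FAtlas.emb
    simp only
    rw [hm, Matrix.mulVec_mulVec, Matrix.mulVec_mulVec]
    simp only [Matrix.mul_assoc]
    rfl
  have f2 : A'.mulV M x = Q.comp U' := by
    have hm : (A'.Bm c x).transpose * M * A'.Bm c x =
        (A'.Bm c x).transpose * M * A.Bm c x * ((A.Bm c x).transpose * A'.Bm c x) := by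
      rw [Matrix.mul_assoc _ (A.Bm c x), ← Matrix.mul_assoc (A.Bm c x), hB, Matrix.one_mul]
    ext1 v
    rw [m2, ContinuousLinearMap.comp_apply, hU', IX1_U_eq ho he A' A c x hx, hQ, IX1_Q_apply]
    unfold FAtlas.emb
    simp only
    rw [hm, Matrix.mulVec_mulVec, Matrix.mulVec_mulVec]
    simp only [Matrix.mul_assoc]
    rfl
  have f3 : (K t x x).comp U' = U'.comp (K' t x x) := by
    ext1 w
    exact hker w
  unfold trC
  rw [f1, f2]
  have g1 : ((U'.comp Q).comp (K t x x) : VV n →ₗ[ℝ] VV n) =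
      (U' : VV n' →ₗ[ℝ] VV n) ∘ₗ ((Q.comp (K t x x) : VV n →L[ℝ] VV n') : VV n →ₗ[ℝ] VV n') := rfl
  have g2 : ((Q.comp (K t x x) : VV n →L[ℝ] VV n') : VV n →ₗ[ℝ] VV n') ∘ₗ
      (U' : VV n' →ₗ[ℝ] VV n) = ((Q.comp U').comp (K' t x x) : VV n' →ₗ[ℝ] VV n') := by
    ext1 w
    show Q (K t x x (U' w)) = Q (U' (K' t x x w))
    rw [hker w]
  rw [g1, LinearMap.trace_comp_comm', g2]

end NRF

end
end

section

/-!
# IX2: the diagonal coefficients do not depend on the embedding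
-/

open scoped Manifold ContDiff Topology RealInnerProductSpace
open MeasureTheory Set

noncomputable section

namespace NRF

theorem IX2_bound {X : Type} [TopologicalSpace X] [MeasurableSpace X] {V : Type}
    [NormedAddCommGroup V] [InnerProductSpace ℝ V] [FiniteDimensional ℝ V] (D : HeatData X V)
    {K : ℝ → X → X → V →L[ℝ] V} {c : ℕ → X → V →L[ℝ] V} (h : D.Expands K c) (M : V →L[ℝ] V)
    (x : X) : ∃ C : ℝ, ∀ r ∈ Ioc (0 : ℝ) 1,
      |(r ^ 2) ^ 2 * trC (M.comp (K (r ^ 2) x x)) -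
        ∑ w ∈ Finset.range 5, r ^ w * trC (M.comp (c w x))| ≤ C * r ^ 5 := by
  obtain ⟨C, hC⟩ := h
  refine ⟨‖MS3_tr V‖ * (‖M‖ * C), fun r hr => ?_⟩
  have ht : r ^ 2 ∈ Ioc (0 : ℝ) 1 := ⟨by have := hr.1; positivity, pow_le_one₀ hr.1.le hr.2⟩
  have h1 := hC _ ht x
  rw [Real.sqrt_sq hr.1.le] at h1
  have e2 : MS3_tr V (M.comp ((r ^ 2) ^ 2 • K (r ^ 2) x x -
      ∑ w ∈ Finset.range 5, r ^ w • c w x)) =
      (r ^ 2) ^ 2 * trC (M.comp (K (r ^ 2) x x)) -
        ∑ w ∈ Finset.range 5, r ^ w * trC (M.comp (c w x)) := by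
    rw [ContinuousLinearMap.comp_sub, ContinuousLinearMap.comp_smul,
      ContinuousLinearMap.comp_finsetSum]
    simp only [ContinuousLinearMap.comp_smul, map_sub, map_smul, map_sum, smul_eq_mul,
      MS3_tr_apply]
  rw [← e2, ← Real.norm_eq_abs]
  refine ((MS3_tr V).le_opNorm _).trans ?_
  rw [mul_assoc]
  refine mul_le_mul_of_nonneg_left ?_ (norm_nonneg _)
  refine (ContinuousLinearMap.opNorm_comp_le _ _).trans ?_
  rw [mul_assoc]
  exact mul_le_mul_of_nonneg_left h1 (norm_nonneg _)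

theorem thm_CoefIndep (h : claimIndep) : claimCoefIndep := by
  intro X _ _ _ _ _ _ _ _ hO g n n' A A' D D' T K T' K' c c' hA hA' hT hK hT' hK' he he' M hM x
  obtain ⟨C, hC⟩ := IX2_bound D he (A.mulV M x) x
  obtain ⟨C', hC'⟩ := IX2_bound D' he' (A'.mulV M x) x
  have key : ∀ r ∈ Ioc (0 : ℝ) 1, |∑ w ∈ Finset.range 5, r ^ w *
      (trC ((A.mulV M x).comp (c w x)) - trC ((A'.mulV M x).comp (c' w x)))| ≤
        (C + C') * r ^ 5 := by
    intro r hr
    have h1 := hC r hr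
    have h2 := hC' r hr
    rw [h X hO g n n' A A' D D' T K T' K' hA hA' hT hK hT' hK' M hM (r ^ 2)
      (by have := hr.1; positivity) x] at h1
    have e1 : ∑ w ∈ Finset.range 5, r ^ w *
        (trC ((A.mulV M x).comp (c w x)) - trC ((A'.mulV M x).comp (c' w x))) =
        ((r ^ 2) ^ 2 * trC ((A'.mulV M x).comp (K' (r ^ 2) x x)) -
          ∑ w ∈ Finset.range 5, r ^ w * trC ((A'.mulV M x).comp (c' w x))) -
        ((r ^ 2) ^ 2 * trC ((A'.mulV M x).comp (K' (r ^ 2) x x)) -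
          ∑ w ∈ Finset.range 5, r ^ w * trC ((A.mulV M x).comp (c w x))) := by
      simp only [mul_sub, Finset.sum_sub_distrib]
      ring
    rw [e1]
    refine (abs_sub _ _).trans ?_
    rw [add_mul]
    linarith
  have := MS3_poly 5 (fun w => trC ((A.mulV M x).comp (c w x)) -
    trC ((A'.mulV M x).comp (c' w x))) _ key 4 (by norm_num)
  exact sub_eq_zero.mp this

end NRF

end
end

section

/-!
# Module D, item IX3: the local index inequality at a point
-/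

open scoped Manifold ContDiff Topology RealInnerProductSpace
open MeasureTheory Set

noncomputable section

namespace NRF

/-! ### Block endomorphisms -/

/-- The matrix of `blk`. -/
def IX3_bm (n : ℕ) (M : Matrix Lam Lam ℝ) :
    Matrix (Fin (n + 1) × Lam) (Fin (n + 1) × Lam) ℝ :=
  Matrix.of fun p q => if p.1 = 0 ∧ q.1 = 0 then M p.2 q.2 else 0

theorem IX3_blk (n : ℕ) (M : Matrix Lam Lam ℝ) :
    blk n M = Matrix.toEuclideanCLM (𝕜 := ℝ) (IX3_bm n M) := rfl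

/-- `blk` as a linear map. -/
def IX3_bl (n : ℕ) : Matrix Lam Lam ℝ →ₗ[ℝ] (VV n →L[ℝ] VV n) where
  toFun := blk n
  map_add' M N := by
    rw [IX3_blk, IX3_blk, IX3_blk, ← map_add]
    congr 1
    ext p q
    simp only [IX3_bm, Matrix.of_apply, Matrix.add_apply]
    split_ifs <;> simp
  map_smul' r M := by
    rw [IX3_blk, IX3_blk, RingHom.id_apply, ← map_smul]
    congr 1
    ext p q
    simp only [IX3_bm, Matrix.of_apply, Matrix.smul_apply]
    split_ifs <;> simp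

theorem IX3_bl_apply (n : ℕ) (M : Matrix Lam Lam ℝ) : IX3_bl n M = blk n M := rfl

theorem IX3_bm_mul (n : ℕ) (M N : Matrix Lam Lam ℝ) :
    IX3_bm n M * IX3_bm n N = IX3_bm n (M * N) := by
  ext p q
  rw [Matrix.mul_apply, Fintype.sum_prod_type, Finset.sum_eq_single (0 : Fin (n + 1))]
  · simp only [IX3_bm, Matrix.of_apply, Matrix.mul_apply]
    by_cases hp : p.1 = 0
    · by_cases hq : q.1 = 0
      · simp [hp, hq]
      · simp [hq]
    · simp [hp]
  · intro b _ hb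
    refine Finset.sum_eq_zero fun s _ => ?_
    simp [IX3_bm, hb]
  · intro h
    exact absurd (Finset.mem_univ _) h

theorem IX3_blk_mul (n : ℕ) (M N : Matrix Lam Lam ℝ) :
    (blk n M).comp (blk n N) = blk n (M * N) := by
  rw [IX3_blk, IX3_blk, IX3_blk, ← IX3_bm_mul, map_mul]
  rfl

theorem IX3_trC (n : ℕ) (M : Matrix Lam Lam ℝ) : trC (blk n M) = M.trace := by
  have h1 : trC (blk n M) = (IX3_bm n M).trace := by
    unfold trC
    rw [IX3_blk, Matrix.coe_toEuclideanCLM_eq_toEuclideanLin, Matrix.toEuclideanLin_eq_toLin,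
      LinearMap.trace_eq_matrix_trace ℝ (PiLp.basisFun 2 ℝ (Fin (n + 1) × Lam)),
      LinearMap.toMatrix_toLin]
  rw [h1]
  unfold Matrix.trace
  rw [Fintype.sum_prod_type, Finset.sum_eq_single (0 : Fin (n + 1))]
  · simp [IX3_bm, Matrix.diag]
  · intro b _ hb
    refine Finset.sum_eq_zero fun s _ => ?_
    simp [IX3_bm, hb, Matrix.diag]
  · intro h
    exact absurd (Finset.mem_univ _) h

/-- The functional `B ↦ tr ((blk M) B)`. -/
def IX3_l (n : ℕ) (M : Matrix Lam Lam ℝ) : (VV n →L[ℝ] VV n) →ₗ[ℝ] ℝ where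
  toFun B := trC ((blk n M).comp B)
  map_add' A B := by
    unfold trC
    rw [← map_add]
    congr 1
    ext v
    simp
  map_smul' r B := by
    unfold trC
    rw [RingHom.id_apply, ← map_smul]
    congr 1
    ext v
    simp

theorem IX3_l_blk (n : ℕ) (M N : Matrix Lam Lam ℝ) : IX3_l n M (blk n N) = (M * N).trace := by
  show trC ((blk n M).comp (blk n N)) = _
  rw [IX3_blk_mul, IX3_trC]

theorem IX3_l_blk2 (n : ℕ) (M N N' : Matrix Lam Lam ℝ) :
    IX3_l n M ((blk n N).comp (blk n N')) = (M * (N * N')).trace := by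
  rw [IX3_blk_mul, IX3_l_blk]

/-! ### Expansions in constant matrices -/

theorem IX3_rho (n : ℕ) (A : Matrix (Fin 4) (Fin 4) ℝ) :
    blk n (rho A) = ∑ a, ∑ b, A a b • blk n (eps ℝ a * iot ℝ b) := by
  have h : IX3_bl n (rho A) = ∑ a, ∑ b, A a b • IX3_bl n (eps ℝ a * iot ℝ b) := by
    unfold rho
    simp only [map_sum, map_smul]
  exact h

theorem IX3_weitz (n : ℕ) (Q : Fin 4 → Fin 4 → Fin 4 → Fin 4 → ℝ) :
    blk n (weitz Q) = (1 / 2 : ℝ) • ∑ a, ∑ b, ∑ c, ∑ d,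
      Q a b c d • blk n (clf ℝ a * clf ℝ b * eps ℝ c * iot ℝ d) := by
  have h : IX3_bl n (weitz Q) = (1 / 2 : ℝ) • ∑ a, ∑ b, ∑ c, ∑ d,
      Q a b c d • IX3_bl n (clf ℝ a * clf ℝ b * eps ℝ c * iot ℝ d) := by
    unfold weitz
    simp only [map_sum, map_smul]
  exact h

theorem IX3_rho_smooth {n : ℕ} {U : Set E4} {A : E4 → Matrix (Fin 4) (Fin 4) ℝ}
    (h : ∀ a b, ContDiffOn ℝ ∞ (fun z => A z a b) U) :
    ContDiffOn ℝ ∞ (fun z => blk n (rho (A z))) U := by
  simp only [IX3_rho]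
  exact ContDiffOn.sum fun a _ => ContDiffOn.sum fun b _ => (h a b).smul contDiffOn_const

theorem IX3_weitz_smooth {n : ℕ} {U : Set E4} {Q : Fin 4 → Fin 4 → Fin 4 → Fin 4 → E4 → ℝ}
    (h : ∀ a b c d, ContDiffOn ℝ ∞ (Q a b c d) U) :
    ContDiffOn ℝ ∞ (fun z => blk n (weitz fun a b c d => Q a b c d z)) U := by
  simp only [IX3_weitz]
  exact (ContDiffOn.sum fun a _ => ContDiffOn.sum fun b _ => ContDiffOn.sum fun c _ =>
    ContDiffOn.sum fun d _ => (h a b c d).smul contDiffOn_const).const_smul _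

theorem IX3_pd_rho {n : ℕ} {A : E4 → Matrix (Fin 4) (Fin 4) ℝ} {z : E4}
    (h : ∀ a b, DifferentiableAt ℝ (fun z => A z a b) z) (i : Fin 4) :
    pd i (fun z => blk n (rho (A z))) z = blk n (rho (Matrix.of fun a b =>
      pd i (fun z => A z a b) z)) := by
  rw [IX3_rho]
  simp only [IX3_rho, Matrix.of_apply]
  unfold pd
  have h1 : ∀ a b, HasFDerivAt (fun z => A z a b • blk n (eps ℝ a * iot ℝ b))
      ((fderiv ℝ (fun z => A z a b) z).smulRight (blk n (eps ℝ a * iot ℝ b))) z := by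
    intro a b
    have h0 := (h a b).hasFDerivAt
    exact h0.smul_const (blk n (eps ℝ a * iot ℝ b))
  have h2 : HasFDerivAt (fun z => ∑ a, ∑ b, A z a b • blk n (eps ℝ a * iot ℝ b))
      (∑ a, ∑ b, (fderiv ℝ (fun z => A z a b) z).smulRight (blk n (eps ℝ a * iot ℝ b))) z :=
    HasFDerivAt.fun_sum fun a _ => HasFDerivAt.fun_sum fun b _ => h1 a b
  rw [h2.fderiv]
  simp only [ContinuousLinearMap.sum_apply, ContinuousLinearMap.smulRight_apply]

/-! ### Change of the frame in the quadratic expression -/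

theorem IX3_quad1 {N : Type*} [AddCommGroup N] [Module ℝ N] (T : N →ₗ[ℝ] N →ₗ[ℝ] ℝ) {κ : ℝ}
    {f : Matrix (Fin 4) (Fin 4) ℝ} (hf : f * f.transpose = κ • (1 : Matrix (Fin 4) (Fin 4) ℝ))
    (h : Fin 4 → N) :
    ∑ a, T (∑ i, f i a • h i) (∑ i, f i a • h i) = κ * ∑ i, T (h i) (h i) := by
  have h1 : ∀ i k, ∑ a, f i a * f k a = if i = k then κ else 0 := by
    intro i k
    have h2 := congrFun (congrFun hf i) k
    rw [Matrix.mul_apply, Matrix.smul_apply, Matrix.one_apply] at h2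
    simp only [Matrix.transpose_apply] at h2
    rw [h2]
    split_ifs <;> simp
  have h3 : ∀ a, T (∑ i, f i a • h i) (∑ i, f i a • h i) =
      ∑ i, ∑ k, (f i a * f k a) * T (h i) (h k) := by
    intro a
    simp only [map_sum, map_smul, LinearMap.sum_apply, LinearMap.smul_apply, smul_eq_mul,
      Finset.mul_sum]
    rw [Finset.sum_comm]
    refine Finset.sum_congr rfl fun i _ => Finset.sum_congr rfl fun k _ => ?_
    ring
  simp only [h3]
  rw [Finset.sum_comm, Finset.mul_sum]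
  refine Finset.sum_congr rfl fun i _ => ?_
  rw [Finset.sum_comm]
  simp only [← Finset.sum_mul, h1, ite_mul, zero_mul, Finset.sum_ite_eq, Finset.mem_univ, if_true]

theorem IX3_quad2 {N : Type*} [AddCommGroup N] [Module ℝ N] (T : N →ₗ[ℝ] N →ₗ[ℝ] ℝ) {κ : ℝ}
    {f : Matrix (Fin 4) (Fin 4) ℝ} (hf : f * f.transpose = κ • (1 : Matrix (Fin 4) (Fin 4) ℝ))
    (S : Fin 4 → Fin 4 → N) :
    ∑ a, ∑ b, T (∑ i, ∑ j, (f i a * f j b) • S i j) (∑ i, ∑ j, (f i a * f j b) • S i j) =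
      κ ^ 2 * ∑ i, ∑ j, T (S i j) (S i j) := by
  have h1 : ∀ a b, ∑ i, ∑ j, (f i a * f j b) • S i j = ∑ i, f i a • ∑ j, f j b • S i j := by
    intro a b
    refine Finset.sum_congr rfl fun i _ => ?_
    rw [Finset.smul_sum]
    exact Finset.sum_congr rfl fun j _ => by rw [smul_smul]
  simp only [h1]
  rw [Finset.sum_comm]
  have h2 : ∀ b, ∑ a, T (∑ i, f i a • ∑ j, f j b • S i j) (∑ i, f i a • ∑ j, f j b • S i j) =
      κ * ∑ i, T (∑ j, f j b • S i j) (∑ j, f j b • S i j) := fun b =>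
    IX3_quad1 T hf fun i => ∑ j, f j b • S i j
  simp only [h2]
  rw [← Finset.mul_sum, Finset.sum_comm]
  simp only [IX3_quad1 T hf]
  rw [← Finset.mul_sum]
  ring

/-- The bilinear form `tr (M ρ(A) ρ(B))`. -/
def IX3_T (M : Matrix Lam Lam ℝ) :
    Matrix (Fin 4) (Fin 4) ℝ →ₗ[ℝ] Matrix (Fin 4) (Fin 4) ℝ →ₗ[ℝ] ℝ :=
  LinearMap.mk₂ ℝ (fun A B => (M * (rho A * rho B)).trace)
    (fun A A' B => by
      have : rho (A + A') = rho A + rho A' := by
        unfold rho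
        simp only [Matrix.add_apply, add_smul, Finset.sum_add_distrib]
      rw [this, Matrix.add_mul, Matrix.mul_add, Matrix.trace_add])
    (fun r A B => by
      have : rho (r • A) = r • rho A := by
        unfold rho
        simp only [Matrix.smul_apply, smul_eq_mul, mul_smul, Finset.smul_sum]
      rw [this, Matrix.smul_mul, Matrix.mul_smul, Matrix.trace_smul])
    (fun A B B' => by
      have : rho (B + B') = rho B + rho B' := by
        unfold rho
        simp only [Matrix.add_apply, add_smul, Finset.sum_add_distrib]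
      rw [this, Matrix.mul_add, Matrix.mul_add, Matrix.trace_add])
    (fun r A B => by
      have : rho (r • B) = r • rho B := by
        unfold rho
        simp only [Matrix.smul_apply, smul_eq_mul, mul_smul, Finset.smul_sum]
      rw [this, Matrix.mul_smul, Matrix.mul_smul, Matrix.trace_smul])

theorem IX3_T_apply (M : Matrix Lam Lam ℝ) (A B : Matrix (Fin 4) (Fin 4) ℝ) :
    IX3_T M A B = (M * (rho A * rho B)).trace := rfl

theorem IX3_p4 (M : Matrix Lam Lam ℝ) (Q : Fin 4 → Fin 4 → Fin 4 → Fin 4 → ℝ) :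
    (M * p4Q Q).trace = (1 / 2) * (M * (weitz Q * weitz Q)).trace +
      (1 / 12) * ∑ a, ∑ b, IX3_T M (Matrix.of fun c d => Q a b c d)
        (Matrix.of fun c d => Q a b c d) := by
  unfold p4Q
  rw [Matrix.mul_add, Matrix.trace_add, Matrix.mul_smul, Matrix.trace_smul, Matrix.mul_smul,
    Matrix.trace_smul, smul_eq_mul, smul_eq_mul, Finset.mul_sum, Matrix.trace_sum]
  congr 2
  refine Finset.sum_congr rfl fun a _ => ?_
  rw [Finset.mul_sum, Matrix.trace_sum]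
  rfl

theorem IX3_rho0 : rho (0 : Matrix (Fin 4) (Fin 4) ℝ) = 0 := by
  unfold rho
  simp

theorem IX3_rho_sub (A B : Matrix (Fin 4) (Fin 4) ℝ) : rho (A - B) = rho A - rho B := by
  unfold rho
  simp only [Matrix.sub_apply, sub_smul, Finset.sum_sub_distrib]

/-! ### The value of the functional on the coefficient -/

/-- The normalisation of the coefficient. -/
theorem IX3_factor {κ : ℝ} (hκ : 0 < κ) {G a : Matrix (Fin 4) (Fin 4) ℝ}
    (hG : G = κ⁻¹ • (1 : Matrix (Fin 4) (Fin 4) ℝ)) (ha : a = G⁻¹) :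
    gaussK a 0 / Real.sqrt G.det = 1 / (16 * Real.pi ^ 2) := by
  have hdet : G.det = (κ ^ 4)⁻¹ := by
    rw [hG, Matrix.det_smul, Matrix.det_one, mul_one, Fintype.card_fin, inv_pow]
  have hdet' : a.det = κ ^ 4 := by
    rw [ha, Matrix.det_nonsing_inv, hdet, Ring.inverse_eq_inv, inv_inv]
  have h1 : gaussK a 0 = ((4 * Real.pi) ^ 2 * κ ^ 2)⁻¹ := by
    unfold gaussK
    rw [hdet']
    have h2 : Real.sqrt (κ ^ 4) = κ ^ 2 := by
      rw [show κ ^ 4 = (κ ^ 2) ^ 2 by ring]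
      exact Real.sqrt_sq (by positivity)
    rw [h2]
    simp
  have h3 : Real.sqrt G.det = (κ ^ 2)⁻¹ := by
    rw [hdet, Real.sqrt_inv]
    congr 1
    rw [show κ ^ 4 = (κ ^ 2) ^ 2 by ring]
    exact Real.sqrt_sq (by positivity)
  rw [h1, h3]
  have := Real.pi_pos
  field_simp
  ring

theorem thm_Point (l : claimLocalP) (e3a : claimE3a) (e3b : claimE3b) (v0 : claimLocV0)
    (he : claimEmb) (f2 : claimFC2) (_n1 : claimN1) (n2 : claimN2) : claimPoint := by
  intro X _ _ _ _ _ _ _ _ hor g n A x0 κ D c P hA hF hD σ hσ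
  obtain ⟨δ0, hδ0, hone⟩ := hA.one
  set δ : ℝ := min δ0 1 with hδdef
  have hδ : 0 < δ := lt_min hδ0 one_pos
  have hδ1 : δ ≤ 1 := min_le_right _ _
  have hδδ : δ ≤ δ0 := min_le_left _ _
  have hrho : ∀ z : E4, ‖z‖ < δ → A.rho 0 z = 1 := fun z hz => (hone z (hz.trans_le hδδ)).2
  have h0δ : ‖(0 : E4)‖ < δ := by simpa using hδ
  have hloc := v0 X hor g n A δ hδ hδ1 hrho
  -- the point
  have hfr : FrameOn (A.c 0).psi.target (A.c 0).G (A.c 0).f := (A.c 0).frame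
  have h0t : (0 : E4) ∈ (A.c 0).psi.target := A.ball 0 (by simp)
  have hx0 : (A.c 0).psi.symm 0 = x0 := by
    rw [← hA.zero, (A.c 0).psi.left_inv hA.mem]
  have hball : Metric.ball (0 : E4) δ ⊆ (A.c 0).psi.target := fun z hz =>
    A.ball 0 (mem_closedBall_zero_iff.2 (by
      have := mem_ball_zero_iff.1 hz
      linarith))
  obtain ⟨i0, hpsi, hchi, hdens, hop⟩ := hF.chart
  obtain ⟨fom, fR, fpt⟩ := f2 _ _ _ hfr
  obtain ⟨-, fG, -, -, -, -, -, fscal, fric⟩ := fpt 0 h0t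
  -- the coefficient
  have hc4 : c 4 x0 = (1 / (16 * Real.pi ^ 2)) • P i0 4 0 0 0 := by
    have h1 := hD.eq i0 x0 (by rw [hpsi]; exact hA.mem)
      (by rw [hpsi, hchi, hA.zero]; exact (hone 0 (by simpa using hδ0)).1) 4 (by norm_num)
    rw [h1, hpsi, hA.zero, (hop 0 0 (by simp)).1, hdens 0 (by simp)]
    congr 1
    exact IX3_factor hA.kpos hA.met rfl
  -- the local data
  set G := (A.c 0).G with hGdef
  set f := (A.c 0).f with hfdef
  set A' : Fin 4 → E4 → VV n →L[ℝ] VV n := fun k z => blk n (rho (omC G f k z)) with hA'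
  set W : E4 → VV n →L[ℝ] VV n := fun z => blk n (weitz fun a b c d => R4C G f a b c d z) with hW
  have hdata : LocData κ δ G A' W :=
    { kpos := hA.kpos
      dpos := hδ
      met := ⟨Metric.isOpen_ball, fun i j => (hfr.met.smooth i j).mono hball,
        fun y hy => hfr.met.posDef y (hball hy)⟩
      G0 := hA.met
      dG0 := hA.dmet
      A_smooth := fun i => IX3_rho_smooth fun a b => (fom i a b).mono hball
      W_smooth := IX3_weitz_smooth fun a b c d => (fR a b c d).mono hball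
      A0 := by
        intro i
        show blk n (rho (omC G f i 0)) = 0
        rw [hA.om i, IX3_rho0]
        exact (IX3_bl n).map_zero }
  have hoper : ∀ t, ∀ z ∈ Metric.ball (0 : E4) δ, (D.g.mdl i0).a (t, z) = (G z)⁻¹ ∧
      ∀ u : E4 → VV n, ContDiffAt ℝ 2 u z → (D.g.mdl i0).op t u z =
        -(∑ k, ∑ l, (G z)⁻¹ k l • (nabE A' k (nabE A' l u) z -
          ∑ j, chr G j k l z • nabE A' j u z)) + W z (u z) := by
    intro t z hz
    have hz' := mem_ball_zero_iff.1 hz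
    obtain ⟨h1, h2⟩ := hop t z (mem_ball_zero_iff.2 (by linarith))
    refine ⟨h1, fun u hu => ?_⟩
    rw [h2 u hu, (hloc z hz').2 u hu]
    rfl
  -- the functional
  have hcurv : ∀ z ∈ Metric.ball (0 : E4) δ, IsCurv fun a b c d => R4C G f a b c d z := by
    intro z hz
    obtain ⟨-, -, q1, q2, q3, q4, -⟩ := fpt z (hball hz)
    exact ⟨q1, q2, q3, q4⟩
  have hskew : ∀ i, ∀ z ∈ Metric.ball (0 : E4) δ, (omC G f i z).transpose = -omC G f i z :=
    fun i z hz => (fpt z (hball hz)).1 i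
  have hQ : IsCurv fun a b c d => R4C G f a b c d 0 := hcurv 0 (mem_ball_zero_iff.2 h0δ)
  obtain ⟨t1, t2, t3, t4⟩ := e3a
  have hfun : ∀ M : Matrix Lam Lam ℝ, M = evenOdd ℝ ∨ M = gam ℝ →
      LocFun δ A' W (IX3_l n M) := by
    intro M hM
    have c1 : M.trace = 0 := by rcases hM with rfl | rfl <;> assumption
    have c2 : ∀ B : Matrix (Fin 4) (Fin 4) ℝ, B.transpose = -B → (M * rho B).trace = 0 := by
      intro B hB
      rcases hM with rfl | rfl
      · exact (t3 B hB).1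
      · exact (t3 B hB).2
    have c3 : ∀ Q, IsCurv Q → (M * weitz Q).trace = 0 := by
      intro Q hQ
      rcases hM with rfl | rfl
      · exact (t4 Q hQ).1
      · exact (t4 Q hQ).2.1
    have c4 : ∀ Q, IsCurv Q → ∀ B : Matrix (Fin 4) (Fin 4) ℝ, B.transpose = -B →
        (M * (rho B * weitz Q)).trace = (M * (weitz Q * rho B)).trace := by
      intro Q hQ B hB
      rcases hM with rfl | rfl
      · exact ((t4 Q hQ).2.2 B hB).1
      · exact ((t4 Q hQ).2.2 B hB).2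
    refine ⟨?_, ?_, ?_, ?_⟩
    · show trC ((blk n M).comp (ContinuousLinearMap.id ℝ (VV n))) = 0
      rw [ContinuousLinearMap.comp_id, IX3_trC, c1]
    · intro i z hz
      show IX3_l n M (blk n (rho (omC G f i z))) = 0
      rw [IX3_l_blk]
      exact c2 _ (hskew i z hz)
    · intro z hz
      show IX3_l n M (blk n (weitz fun a b c d => R4C G f a b c d z)) = 0
      rw [IX3_l_blk]
      exact c3 _ (hcurv z hz)
    · intro i z hz z' hz'
      show IX3_l n M ((blk n (rho (omC G f i z))).comp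
          (blk n (weitz fun a b c d => R4C G f a b c d z'))) =
        IX3_l n M ((blk n (weitz fun a b c d => R4C G f a b c d z')).comp
          (blk n (rho (omC G f i z))))
      rw [IX3_l_blk2, IX3_l_blk2]
      exact c4 _ (hcurv z' hz') _ (hskew i z hz)
  -- derivatives of the connection at the point
  have hpd : ∀ i j, pd i (A' j) 0 - pd j (A' i) 0 = blk n (rho (OmC G f i j 0)) := by
    intro i j
    have hd : ∀ k a b, DifferentiableAt ℝ (fun z => omC G f k z a b) 0 := fun k a b =>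
      ((fom k a b).contDiffAt ((A.c 0).psi.open_target.mem_nhds h0t)).differentiableAt (by simp)
    have h1 : pd i (A' j) 0 = blk n (rho (Matrix.of fun a b =>
        pd i (fun z => omC G f j z a b) 0)) := IX3_pd_rho (hd j) i
    have h2 : pd j (A' i) 0 = blk n (rho (Matrix.of fun a b =>
        pd j (fun z => omC G f i z a b) 0)) := IX3_pd_rho (hd i) j
    have h3 : OmC G f i j 0 = (Matrix.of fun a b => pd i (fun z => omC G f j z a b) 0) -
        (Matrix.of fun a b => pd j (fun z => omC G f i z a b) 0) := by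
      unfold OmC
      rw [hA.om i, hA.om j, Matrix.zero_mul, add_zero, sub_zero]
    rw [h1, h2, h3, IX3_rho_sub]
    exact ((IX3_bl n).map_sub _ _).symm
  -- the quadratic expression
  have hff : f 0 * (f 0).transpose = κ • (1 : Matrix (Fin 4) (Fin 4) ℝ) := by
    have hG0 : G 0 = κ⁻¹ • (1 : Matrix (Fin 4) (Fin 4) ℝ) := hA.met
    rw [← fG, hG0]
    have hκ := hA.kpos.ne'
    refine Matrix.inv_eq_right_inv ?_
    rw [Matrix.smul_mul, Matrix.one_mul, smul_smul, inv_mul_cancel₀ hκ, one_smul]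
  set Q : Fin 4 → Fin 4 → Fin 4 → Fin 4 → ℝ := fun a b c d => R4C G f a b c d 0 with hQdef
  have hval : ∀ M : Matrix Lam Lam ℝ, M = evenOdd ℝ ∨ M = gam ℝ →
      IX3_l n M (P i0 4 0 0 0) = (M * p4Q Q).trace := by
    intro M hM
    rw [l (VV n) (D.g.mdl i0) κ δ G A' W (IX3_l n M) hdata (hfun M hM) hoper (P i0)
      (hD.formal i0), IX3_p4]
    congr 1
    · show (1 / 2) * IX3_l n M ((blk n (weitz Q)).comp (blk n (weitz Q))) = _
      rw [IX3_l_blk2]
    · have h1 : ∀ a b, (Matrix.of fun c d => Q a b c d) =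
          ∑ i, ∑ j, (f 0 i a * f 0 j b) • OmC G f i j 0 := by
        intro a b
        ext c d
        simp only [hQdef, Matrix.of_apply, R4C, Matrix.sum_apply, Matrix.smul_apply, smul_eq_mul]
      simp only [h1]
      rw [IX3_quad2 (IX3_T M) hff]
      have h2 : ∀ i j, IX3_l n M ((pd i (A' j) 0 - pd j (A' i) 0).comp
          (pd i (A' j) 0 - pd j (A' i) 0)) = IX3_T M (OmC G f i j 0) (OmC G f i j 0) := by
        intro i j
        rw [hpd, IX3_l_blk2, IX3_T_apply]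
      simp only [h2]
      ring
  have htr : ∀ M : Matrix Lam Lam ℝ, M = evenOdd ℝ ∨ M = gam ℝ → LamInv M →
      trC ((A.mulV M x0).comp (c 4 x0)) = (1 / (16 * Real.pi ^ 2)) * (M * p4Q Q).trace := by
    intro M hM hI
    have h1 : A.mulV M x0 = blk n M := by
      rw [← hx0]
      exact (hloc 0 h0δ).1 M hI
    rw [h1, hc4, ← hval M hM]
    show IX3_l n M ((1 / (16 * Real.pi ^ 2)) • P i0 4 0 0 0) = _
    rw [map_smul, smul_eq_mul]
  obtain ⟨-, ⟨-, i1, i2, -⟩, -⟩ := he X hor g n A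
  rw [htr _ (Or.inl rfl) i1, htr _ (Or.inr rfl) i2]
  -- the scalar functions
  obtain ⟨s1, s2, -⟩ := n2 X g (A.c 0).psi (A.c 0).sm x0 hA.mem
  rw [hA.zero] at s1 s2
  have hs : g.scal x0 = ∑ a, ∑ k, Q k a k a := by
    rw [s1]
    exact fscal
  have hr : g.ric0Sq x0 = (∑ a, ∑ b, (∑ k, Q k a k b) ^ 2) - (∑ a, ∑ k, Q k a k a) ^ 2 / 4 := by
    have : scalC G 0 = ∑ a, ∑ k, Q k a k a := fscal
    rw [s2, ← this]
    exact fric
  have hfin := e3b Q hQ (-σ) (by
    rcases hσ with rfl | rfl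
    · exact Or.inr rfl
    · exact Or.inl (neg_neg 1))
  rw [hs, hr]
  have hpi : 0 < 1 / (16 * Real.pi ^ 2) := by
    have := Real.pi_pos
    positivity
  have h5 := mul_le_mul_of_nonneg_left hfin hpi.le
  have h6 : 1 / (4 * Real.pi ^ 2) = 4 * (1 / (16 * Real.pi ^ 2)) := by
    have := Real.pi_pos
    field_simp
    norm_num
  rw [h6]
  linarith

end NRF

end
end

section

/-!
# IX4: assembly of the index inequality
-/

open scoped Manifold ContDiff Topology RealInnerProductSpace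
open MeasureTheory Set

noncomputable section

namespace NRF

/-- `trC` as a linear map. -/
theorem IX4_trC_cont {X V : Type} [TopologicalSpace X] [NormedAddCommGroup V]
    [InnerProductSpace ℝ V] [FiniteDimensional ℝ V] {F : X → V →L[ℝ] V} (hF : Continuous F) :
    Continuous fun x => trC (F x) := by
  let L : (V →L[ℝ] V) →ₗ[ℝ] ℝ :=
    { toFun := trC
      map_add' := fun a b => by simp [trC]
      map_smul' := fun a b => by simp [trC] }
  exact (LinearMap.continuous_of_finiteDimensional L).comp hF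

theorem thm_IndexOf : claimIndexOf := by
  intro fat fat0 hv kp ct st he ci pt cb X _ _ _ _ _ _ _ _ hO g
  obtain ⟨n, ⟨A⟩⟩ := fat X hO g
  obtain ⟨D, hD⟩ := hv X hO g n A
  obtain ⟨T, K, hT, hK, c, P, C, hc, hexp⟩ := kp X (VV n) D
  obtain ⟨cs, cr, fm, vp⟩ := cb X hO g
  have := fm
  obtain ⟨-, ⟨-, iev, igam, -⟩, hmul, -⟩ := he X hO g n A
  have hk : ∀ t, 0 < t → Continuous (fun x => K t x x) := by
    intro t ht
    have h1 := hK.cont
    have h2 : Continuous fun x : X => ((t, x, x) : ℝ × X × X) := by fun_prop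
    exact continuousOn_univ.mp (h1.comp h2.continuousOn fun x _ => ⟨ht, mem_univ _⟩)
  have cev : Continuous (A.mulV (evenOdd ℝ)) := (hmul _ iev).2.2.1
  have cgam : Continuous (A.mulV (gam ℝ)) := (hmul _ igam).2.2.1
  have hct := ct X hO g n A D T K hD hT hK
  have h1 : ∫ x, trC ((A.mulV (evenOdd ℝ) x).comp (c 4 x)) ∂g.vol = (eulerChar X : ℝ) :=
    st X (VV n) g.vol (fun t x => K t x x) c (A.mulV (evenOdd ℝ)) C _ hk hc.cont cev hexp
      fun t ht => (hct t ht).1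
  have h2 : ∫ x, trC ((A.mulV (gam ℝ) x).comp (c 4 x)) ∂g.vol = -(signature X : ℝ) :=
    st X (VV n) g.vol (fun t x => K t x x) c (A.mulV (gam ℝ)) C _ hk hc.cont cgam hexp
      fun t ht => by rw [← (hct t ht).2, neg_neg]
  have c4e : Continuous fun x => trC ((A.mulV (evenOdd ℝ) x).comp (c 4 x)) :=
    IX4_trC_cont (cev.clm_comp (hc.cont 4))
  have c4g : Continuous fun x => trC ((A.mulV (gam ℝ) x).comp (c 4 x)) :=
    IX4_trC_cont (cgam.clm_comp (hc.cont 4))
  have int_of : ∀ f : X → ℝ, Continuous f → Integrable f g.vol := by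
    intro f hf
    obtain ⟨M, hM⟩ := (isCompact_range hf).isBounded.exists_norm_le
    exact Integrable.of_bound hf.aestronglyMeasurable M
      (Filter.Eventually.of_forall fun x => hM _ (mem_range_self x))
  have key : ∀ σ : ℝ, (σ = 1 ∨ σ = -1) →
      (1 / (4 * Real.pi ^ 2)) * ∫ x, (g.scal x ^ 2 / 24 - g.ric0Sq x / 2) ∂g.vol ≤
        2 * (eulerChar X : ℝ) + 3 * σ * (signature X : ℝ) := by
    intro σ hσ
    have pw : ∀ x, (1 / (4 * Real.pi ^ 2)) * (g.scal x ^ 2 / 24 - g.ric0Sq x / 2) ≤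
        2 * trC ((A.mulV (evenOdd ℝ) x).comp (c 4 x)) -
          3 * σ * trC ((A.mulV (gam ℝ) x).comp (c 4 x)) := by
      intro x
      obtain ⟨n', A', κ, hA'⟩ := fat0 X hO g x
      obtain ⟨D', hD'⟩ := hv X hO g n' A'
      obtain ⟨T', K', hT', hK', c', P', C', hc', hexp'⟩ := kp X (VV n') D'
      have e1 := ci X hO g n n' A A' D D' T K T' K' c c' hD hD' hT hK hT' hK' ⟨C, hexp⟩
        ⟨C', hexp'⟩ _ iev x
      have e2 := ci X hO g n n' A A' D D' T K T' K' c c' hD hD' hT hK hT' hK' ⟨C, hexp⟩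
        ⟨C', hexp'⟩ _ igam x
      rw [e1, e2]
      exact pt X hO g n' A' x κ D' c' P' hA' hD' hc' σ hσ
    rw [← integral_const_mul]
    refine (integral_mono (int_of _ ?_) (int_of _ ?_) pw).trans ?_
    · fun_prop
    · fun_prop
    · rw [integral_sub (int_of _ (by fun_prop)) (int_of _ (by fun_prop)), integral_const_mul,
        integral_const_mul, h1, h2]
      linarith
  have k1 := key 1 (Or.inl rfl)
  have k2 := key (-1) (Or.inr rfl)
  rcases abs_cases (signature X : ℝ) with ⟨h, -⟩ | ⟨h, -⟩ <;> rw [h] <;> linarith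

end NRF

end
end

section

/-!
# Modules B, C, K, D: assembly
-/

namespace NRF

theorem prf_GeomX : claimGeomX := claimGeomX_proof claimModelExt_proof
theorem prf_IntTop : claimIntTop := claimIntTop_proof claimMcoef_proof prf_Vol
theorem prf_Basic : claimBasic := claimBasicOf_proof prf_ScalCh prf_Vol
theorem prf_Formal : claimFormal := claimFormal_proof claimTay_proof claimInv_proof
theorem prf_Param : claimParam := claimParam_proof claimTay_proof claimRD_proof claimGauss_proof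
theorem prf_Pde : claimPde := claimPde_proof claimQop_proof claimRop_proof
theorem prf_Local : claimLocal :=
  claimLocal_proof prf_Formal prf_Param claimQop_proof claimRop_proof prf_Pde
theorem prf_Duhamel : claimDuhamel := claimDuhamel_proof prf_Local claimPatch_proof
theorem prf_Semigroup : claimSemigroup := claimSemigroup_proof prf_Duhamel
theorem prf_PoleP : claimPoleP := claimPoleP_proof prf_Formal prf_Param claimPatch_proof
theorem prf_Pole0P : claimPole0P := claimPole0P_proof prf_PoleP prf_Duhamel prf_Semigroup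
theorem prf_KernelP : claimKernelP := claimKernelP_proof prf_Semigroup prf_Pole0P claimPairing_proof

theorem prf_LamB : claimLamB := thm_LamB thm_LamA
theorem prf_DegD : claimDegD := thm_DegD prf_FC2 thm_FR3
theorem prf_NatD : claimNatD := thm_NatD thm_LamA prf_LamB thm_Comp prf_DegD prf_FC4 prf_FC2
theorem prf_DivD : claimDivD := thm_DivD prf_FC2 thm_FR3
theorem prf_Eigen : claimEigen := thm_Eigen thm_HeatL2
theorem prf_GreenOp : claimGreenOp := thm_GreenOp thm_HeatL2 thm_IntT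
theorem prf_MS : claimMS := thm_MS prf_Eigen thm_Trace
theorem prf_QQ : claimQQ := thm_QQ prf_Eigen prf_GreenOp
theorem prf_FCh : claimFCh := thm_FCh prf_N1 thm_N0 prf_NatD
theorem prf_FAt : claimFAt := thm_FAt claimAtlas_proof claimScaled_proof thm_FC1 prf_N1
theorem prf_FAt0 : claimFAt0 :=
  thm_FAt0 claimAtlas_proof claimScaled_proof thm_FC1 prf_FC5 prf_N1 thm_N0
theorem prf_Emb : claimEmb := thm_Emb prf_FCh thm_LamA prf_LamB thm_FR3 thm_Ck
theorem prf_OpV1 : claimOpV1 := thm_OpV1 prf_FCh prf_Emb prf_NatD thm_Ck thm_LamA prf_LamB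
theorem prf_OpV : claimOpV := thm_OpV prf_OpV1 prf_Emb prf_DegD prf_FC3 thm_Ck
theorem prf_SymV : claimSymV := thm_SymV prf_OpV prf_Emb prf_DivD claimDiv0_proof prf_Vol thm_L5
theorem prf_LocV : claimLocV :=
  thm_LocV prf_OpV1 prf_Emb prf_FC3 prf_FC2 prf_N2 prf_N1 thm_L5 thm_Ck
theorem prf_LocV0 : claimLocV0 :=
  thm_LocV0 prf_OpV1 prf_Emb prf_FCh prf_FC2 prf_FC3 prf_N2 thm_Ck
theorem prf_HeatV : claimHeatV :=
  thm_HeatV prf_LocV prf_SymV prf_OpV prf_Emb prf_GeomX prf_Green prf_Vol prf_N1 thm_L5 thm_Ck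
    prf_N2 prf_L3
theorem prf_DirV : claimDirV := thm_DirV prf_SymV prf_OpV prf_Emb thm_FR3
theorem prf_Mform : claimMform := thm_Mform thm_N0
theorem prf_ToV : claimToV :=
  thm_ToV prf_Mform thm_Comp prf_FC4 prf_FCh prf_Emb prf_OpV1 thm_LamA thm_Ck
theorem prf_FromV : claimFromV :=
  thm_FromV prf_ToV thm_Comp prf_FCh prf_Emb thm_FC1 prf_N1 thm_LamA
theorem prf_AH2 : claimAH2 := thm_AH2 thm_AH1
theorem prf_AH3 : claimAH3 := thm_AH3 thm_AH1

theorem prf_Index_of (ax : claimAHX) (b : claimBettiX) (i : claimIndep) (p : claimPoint) :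
    claimIndex :=
  thm_IndexOf prf_FAt prf_FAt0 prf_HeatV prf_KernelP
    (thm_ChiTau prf_MS prf_DirV ax b thm_AH1 prf_AH3 prf_OpV) thm_SmallTime prf_Emb
    (thm_CoefIndep i) p prf_Basic

end NRF

end

section

/-!
# Modules D, E: assembly, second part
-/

namespace NRF

theorem prf_Wedge : claimWedge := thm_Wedge prf_IntTop prf_Emb
theorem prf_BettiX : claimBettiX :=
  thm_BettiX prf_ToV prf_FromV prf_Wedge prf_Mform thm_AH1 prf_AH2
theorem prf_AHX : claimAHX :=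
  thm_AHX prf_HeatV prf_KernelP prf_MS prf_QQ prf_DirV prf_SymV prf_OpV prf_Emb prf_Vol thm_FR3
    thm_Ck
theorem prf_Indep : claimIndep := thm_Indep prf_Emb prf_OpV prf_FCh thm_Ck

theorem prf_E3a : claimE3a := thm_E3a thm_FR3
theorem prf_PolVal : claimPolVal := thm_PolVal thm_PolUniq
theorem prf_Conj : claimConj := thm_Conj thm_GaussC
theorem prf_P2E : claimP2E := thm_P2E thm_PolUniq prf_Conj
theorem prf_P4E : claimP4E := thm_P4E prf_Conj

theorem prf_LocalP : claimLocalP :=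
  thm_AsmE thm_OpCoef prf_PolVal prf_Conj thm_TayE prf_P2E prf_P4E
theorem prf_E3b : claimE3b := thm_AsmE3 thm_TrRho thm_TrW1 thm_TrW2 thm_CurvIneq

theorem prf_Point : claimPoint :=
  thm_Point prf_LocalP prf_E3a prf_E3b prf_LocV0 prf_Emb prf_FC2 prf_N1 prf_N2

/-- The index inequality. -/
theorem prf_Index : claimIndex := prf_Index_of prf_AHX prf_BettiX prf_Indep prf_Point

end NRF

end

section

/-!
# Module G: assembly without hypotheses
-/

namespace NRF

theorem prf_LF3p : claimLF3p := claimLF3p_proof prf_L2 prf_L3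
theorem prf_GeomCov : claimGeomCov :=
  claimGeomCov_proof claimAtlas_proof claimScaled_proof claimModelExt_proof thm_N0 prf_N1 thm_L0
    prf_L1 thm_L5
theorem prf_Part0 : claimPart0 := claimPart0_proof claimPatch_proof prf_N1 prf_N2 prf_N3
theorem prf_SolAlg : claimSolAlg := claimSolAlg_proof (claimUniq_proof claimMax_proof)
theorem prf_SolEx : claimSolEx := claimSolEx_proof claimPatch_proof prf_Duhamel prf_SolAlg
theorem prf_SolMax : claimSolMax := claimSolMax_proof claimMax_proof claimSolTime_proof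
theorem prf_GradEst : claimGradEst :=
  claimGradEst_proof prf_LF3p claimMax_proof claimSolTime_proof prf_SolMax
theorem prf_Fam : claimFam :=
  claimFam_proof prf_GeomCov prf_Part0 prf_SolEx prf_SolAlg claimSolTime_proof prf_SolMax
    claimSolEquiv_proof prf_GradEst claimTheta_proof claimChartEst_proof
theorem prf_Grad : claimGrad :=
  claimGradOf_proof prf_GeomCov prf_Part0 claimTheta_proof prf_Fam claimTrunc_proof

end NRF

end
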